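import Mathlib

/-!
# Bounds for iterated derivatives
-/

set_option autoImplicit false

open Set Filter Topology Metric Function
open scoped ContDiff

noncomputable section

namespace Pool.Agent.H816

section comp

variable {U V W : Type*} [NormedAddCommGroup U] [NormedSpace ℝ U] [NormedAddCommGroup V]
  [NormedSpace ℝ V] [NormedAddCommGroup W] [NormedSpace ℝ W]

/-- the number of terms in the formula for derivatives of compositions -/
def nP (n : ℕ) : ℝ := Fintype.card (OrderedFinpartition n)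

theorem nP_nonneg (n : ℕ) : 0 ≤ nP n := Nat.cast_nonneg _

/-- bound for the derivatives of a composition -/
theorem comp_bd {g : V → W} {f : U → V} {x : U} {n : ℕ} (hn : 1 ≤ n)
    (hg : ContDiffAt ℝ n g (f x)) (hf : ContDiffAt ℝ n f x) {C D l : ℝ} (hl : 0 < l)
    (hC : 0 ≤ C) (h1 : ∀ i, 1 ≤ i → i ≤ n → ‖iteratedFDeriv ℝ i g (f x)‖ ≤ C * l⁻¹ ^ i)
    (h2 : ∀ i, 1 ≤ i → i ≤ n → ‖iteratedFDeriv ℝ i f x‖ ≤ l * D ^ i) :
    ‖iteratedFDeriv ℝ n (fun y => g (f y)) x‖ ≤ nP n * (C * D ^ n) := by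
  have e : iteratedFDeriv ℝ n (fun y => g (f y)) x =
      (ftaylorSeries ℝ g (f x)).taylorComp (ftaylorSeries ℝ f x) n :=
    iteratedFDeriv_comp hg hf le_rfl
  rw [e]
  unfold FormalMultilinearSeries.taylorComp
  refine (norm_sum_le _ _).trans ?_
  have key : ∀ c : OrderedFinpartition n,
      ‖(ftaylorSeries ℝ g (f x)).compAlongOrderedFinpartition (ftaylorSeries ℝ f x) c‖ ≤
        C * D ^ n := by
    intro c
    have h3 : ‖(ftaylorSeries ℝ g (f x)).compAlongOrderedFinpartition (ftaylorSeries ℝ f x) c‖ ≤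
        ‖iteratedFDeriv ℝ c.length g (f x)‖ * ∏ i, ‖iteratedFDeriv ℝ (c.partSize i) f x‖ :=
      c.norm_compAlongOrderedFinpartition_le _ _
    refine h3.trans ?_
    have h4 : ‖iteratedFDeriv ℝ c.length g (f x)‖ ≤ C * l⁻¹ ^ c.length :=
      h1 _ (c.length_pos (by omega)) c.length_le
    have h5 : ∏ i, ‖iteratedFDeriv ℝ (c.partSize i) f x‖ ≤ ∏ i, l * D ^ c.partSize i :=
      Finset.prod_le_prod (fun _ _ => norm_nonneg _)
        fun i _ => h2 _ (c.partSize_pos i) (c.partSize_le i)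
    have h6 : ∏ i, l * D ^ c.partSize i = l ^ c.length * D ^ n := by
      rw [Finset.prod_mul_distrib, Finset.prod_const, Finset.card_univ, Fintype.card_fin,
        Finset.prod_pow_eq_pow_sum]
      congr 2
      have := c.sum_sigma_eq_sum (fun _ => 1)
      simpa using this
    calc ‖iteratedFDeriv ℝ c.length g (f x)‖ * ∏ i, ‖iteratedFDeriv ℝ (c.partSize i) f x‖
        ≤ (C * l⁻¹ ^ c.length) * (l ^ c.length * D ^ n) := by
          refine mul_le_mul h4 (h5.trans h6.le) (Finset.prod_nonneg fun _ _ => norm_nonneg _) ?_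
          positivity
      _ = C * D ^ n := by
          rw [inv_pow]
          field_simp
  refine (Finset.sum_le_sum fun c _ => key c).trans ?_
  rw [Finset.sum_const, Finset.card_univ, nsmul_eq_mul]
  rfl

theorem exists_open {f : U → V} {x : U} {n : ℕ} (hf : ContDiffAt ℝ n f x) :
    ∃ s : Set U, IsOpen s ∧ x ∈ s ∧ ContDiffOn ℝ n f s := by
  obtain ⟨u, hu, hfu⟩ := hf.contDiffOn le_rfl (by simp)
  obtain ⟨t, htu, ht, hxt⟩ := _root_.mem_nhds_iff.1 hu
  exact ⟨t, ht, hxt, hfu.mono htu⟩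

/-- composition with a linear map of norm at most one on the right -/
theorem comp_right_bd (A : U →L[ℝ] V) (hA : ‖A‖ ≤ 1) {g : V → W} {x : U} {n : ℕ}
    (hg : ContDiffAt ℝ n g (A x)) :
    ‖iteratedFDeriv ℝ n (fun y => g (A y)) x‖ ≤ ‖iteratedFDeriv ℝ n g (A x)‖ := by
  obtain ⟨s, hs, hxs, hgs⟩ := exists_open hg
  have hs' : IsOpen (A ⁻¹' s) := hs.preimage A.continuous
  have h1 := A.iteratedFDerivWithin_comp_right hgs hs.uniqueDiffOn hs'.uniqueDiffOn hxs
    (le_refl (n : WithTop ℕ∞))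
  rw [iteratedFDerivWithin_of_isOpen n hs' hxs, iteratedFDerivWithin_of_isOpen n hs hxs] at h1
  have h2 : (g ∘ ⇑A) = fun y => g (A y) := rfl
  rw [← h2, h1]
  refine (ContinuousMultilinearMap.norm_compContinuousLinearMap_le _ _).trans ?_
  refine mul_le_of_le_one_right (norm_nonneg _) ?_
  exact Finset.prod_le_one (fun _ _ => norm_nonneg _) fun _ _ => hA

/-- derivatives of a product -/
theorem smul_bd {f : U → ℝ} {g : U → V} {x : U} {n : ℕ} (hf : ContDiffAt ℝ n f x)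
    (hg : ContDiffAt ℝ n g x) :
    ‖iteratedFDeriv ℝ n (fun y => f y • g y) x‖ ≤ ∑ i ∈ Finset.range (n + 1),
      (n.choose i : ℝ) * ‖iteratedFDeriv ℝ i f x‖ * ‖iteratedFDeriv ℝ (n - i) g x‖ := by
  obtain ⟨s, hs, hxs, hfs⟩ := exists_open hf
  obtain ⟨t, ht, hxt, hgt⟩ := exists_open hg
  have hst : IsOpen (s ∩ t) := hs.inter ht
  have hx : x ∈ s ∩ t := ⟨hxs, hxt⟩
  have h1 := (ContinuousLinearMap.lsmul ℝ ℝ :
    ℝ →L[ℝ] V →L[ℝ] V).norm_iteratedFDerivWithin_le_of_bilinear_of_le_one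
    (hfs.mono inter_subset_left) (hgt.mono inter_subset_right) hst.uniqueDiffOn hx
    (le_refl (n : WithTop ℕ∞)) ContinuousLinearMap.opNorm_lsmul_le
  rw [iteratedFDerivWithin_of_isOpen n hst hx] at h1
  refine h1.trans (le_of_eq ?_)
  refine Finset.sum_congr rfl fun i _ => ?_
  rw [iteratedFDerivWithin_of_isOpen i hst hx, iteratedFDerivWithin_of_isOpen (n - i) hst hx]

theorem lin_bd_succ (A : U →L[ℝ] V) (x : U) (k : ℕ) :
    ‖iteratedFDeriv ℝ (k + 1) A x‖ ≤ if k = 0 then ‖A‖ else 0 := by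
  rw [← norm_iteratedFDeriv_fderiv]
  have h1 : fderiv ℝ (A : U → V) = fun _ => A := funext fun y => A.fderiv
  rw [h1]
  rcases Nat.eq_zero_or_pos k with hk | hk
  · subst hk
    simp
  · rw [iteratedFDeriv_const_of_ne hk.ne']
    simp [hk.ne']

/-- derivatives of a product with a linear map of norm at most one -/
theorem smul_lin_bd {f : U → ℝ} (A : U →L[ℝ] V) (hA : ‖A‖ ≤ 1) {x : U} {n : ℕ}
    (hf : ContDiffAt ℝ (n + 1 : ℕ) f x) :
    ‖iteratedFDeriv ℝ (n + 1) (fun y => f y • A y) x‖ ≤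
      ‖iteratedFDeriv ℝ (n + 1) f x‖ * ‖A x‖ + (n + 1) * ‖iteratedFDeriv ℝ n f x‖ := by
  have h1 := smul_bd hf (A.contDiff (n := ((n + 1 : ℕ) : WithTop ℕ∞)) (𝕜 := ℝ)).contDiffAt
  refine h1.trans ?_
  rw [Finset.sum_range_succ, Finset.sum_range_succ]
  have h2 : ∑ i ∈ Finset.range n, (((n + 1).choose i : ℕ) : ℝ) * ‖iteratedFDeriv ℝ i f x‖ *
      ‖iteratedFDeriv ℝ (n + 1 - i) A x‖ = 0 := by
    refine Finset.sum_eq_zero fun i hi => ?_
    have hi' := Finset.mem_range.1 hi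
    obtain ⟨k, hk⟩ : ∃ k, n + 1 - i = (k + 1) + 1 := ⟨n - i - 1, by omega⟩
    have h3 := lin_bd_succ A x (k + 1)
    rw [if_neg (Nat.succ_ne_zero k), ← hk] at h3
    rw [le_antisymm h3 (norm_nonneg _), mul_zero]
  rw [h2, zero_add]
  have h3 : ‖iteratedFDeriv ℝ (n + 1 - n) A x‖ ≤ 1 := by
    have h4 := lin_bd_succ A x 0
    rw [if_pos rfl] at h4
    rw [show n + 1 - n = 0 + 1 by omega]
    exact h4.trans hA
  have h4 : ‖iteratedFDeriv ℝ (n + 1 - (n + 1)) A x‖ = ‖A x‖ := by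
    rw [Nat.sub_self, norm_iteratedFDeriv_zero]
  rw [h4, Nat.choose_self, Nat.cast_one, one_mul, add_comm]
  refine add_le_add le_rfl ?_
  rw [Nat.choose_succ_self_right]
  push_cast
  exact mul_le_of_le_one_right (by positivity) h3

end comp

end Pool.Agent.H816
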