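import Pool.Agent.H816.Sph

/-!
# Conjugation of a homeomorphism supported in a set on which a local diffeomorphism is injective
-/

set_option autoImplicit false

open Set Filter Topology Metric Function MeasureTheory Module
open scoped Manifold ContDiff NNReal

noncomputable section

namespace Pool.Agent.H816

open Pool.Agent.Y522 Pool.Agent.Y784.SH

section cj

variable {X Y : Type*}

open Classical in
/-- the conjugate of `h` -/
def Cj (U : Set X) (p : X → Y) (h : X → X) (y : Y) : Y :=
  if hy : ∃ x ∈ U, p x = y then p (h hy.choose) else y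

variable {U C : Set X} {p : X → Y} {h k : X → X}

theorem Cj_apply (hp : InjOn p U) {x : X} (hx : x ∈ U) : Cj U p h (p x) = p (h x) := by
  have hy : ∃ x' ∈ U, p x' = p x := ⟨x, hx, rfl⟩
  unfold Cj
  rw [dif_pos hy]
  rw [hp hy.choose_spec.1 hx hy.choose_spec.2]

theorem Cj_fix (hC : ∀ x, x ∉ C → h x = x) {y : Y} (hy : y ∉ p '' C) : Cj U p h y = y := by
  unfold Cj
  split_ifs with h1
  · have h2 := h1.choose_spec
    have h3 : h1.choose ∉ C := fun h4 => hy ⟨_, h4, h2.2⟩
    rw [hC _ h3, h2.2]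
  · rfl

theorem Cj_fix' {y : Y} (hy : y ∉ p '' U) : Cj U p h y = y := by
  unfold Cj
  rw [dif_neg]
  rintro ⟨x, hx, rfl⟩
  exact hy ⟨x, hx, rfl⟩

theorem Cj_comp (hp : InjOn p U) (hk : ∀ x ∈ U, k x ∈ U) (y : Y) :
    Cj U p h (Cj U p k y) = Cj U p (fun x => h (k x)) y := by
  by_cases hy : y ∈ p '' U
  · obtain ⟨x, hx, rfl⟩ := hy
    rw [Cj_apply hp hx, Cj_apply hp (hk x hx), Cj_apply hp hx]
  · rw [Cj_fix' (h := k) hy, Cj_fix' hy, Cj_fix' hy]

theorem Cj_id (hp : InjOn p U) (y : Y) : Cj U p (fun x => x) y = y := by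
  by_cases hy : y ∈ p '' U
  · obtain ⟨x, hx, rfl⟩ := hy
    rw [Cj_apply hp hx]
  · exact Cj_fix' hy

end cj

section cjLD

variable {n : ℕ} {X Y : Type*} [TopologicalSpace X] [ChartedSpace (E n) X]
    [TopologicalSpace Y] [ChartedSpace (E n) Y] {U C : Set X} {p : X → Y} {h : X → X}

theorem Cj_LD (hU : IsOpen U) (hp : InjOn p U) (hpl : ∀ x, LD n p x) {x : X} (hx : x ∈ U)
    (hh : LD n h x) : LD n (Cj U p h) (p x) := by
  refine LD_of_comp_right (hpl x) ?_
  refine (LD.comp_fun (g := p) (hpl (h x)) hh).congr ?_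
  filter_upwards [hU.mem_nhds hx] with y hy
  exact Cj_apply hp hy

theorem Cj_LD' [T2Space Y] (hC : IsCompact C) (hpl : ∀ x, LD n p x) (hCf : ∀ x, x ∉ C → h x = x)
    {y : Y} (hy : y ∉ p '' C) : LD n (Cj U p h) y := by
  have hK : IsCompact (p '' C) := hC.image (continuous_iff_continuousAt.2 fun x => (hpl x).continuousAt)
  refine (LD.id y).congr ?_
  filter_upwards [hK.isClosed.isOpen_compl.mem_nhds hy] with z hz
  exact Cj_fix hCf hz

theorem Cj_cont [T2Space Y] (hU : IsOpen U) (hp : InjOn p U) (hpl : ∀ x, LD n p x)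
    (hC : IsCompact C) (hCU : C ⊆ U) (hCf : ∀ x, x ∉ C → h x = x) (hh : Continuous h) :
    Continuous (Cj U p h) := by
  refine continuous_iff_continuousAt.2 fun y => ?_
  by_cases hy : y ∈ p '' U
  · obtain ⟨x, hx, rfl⟩ := hy
    obtain ⟨q, hq, hqx, -, hq2⟩ := LD_exists_inv (hpl x)
    have h1 : ContinuousAt (fun z => p (h z)) x :=
      ContinuousAt.comp (g := p) (hpl _).continuousAt hh.continuousAt
    have h2 : ContinuousAt (fun z => Cj U p h (p z)) x := by
      refine h1.congr ?_
      filter_upwards [hU.mem_nhds hx] with z hz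
      exact (Cj_apply hp hz).symm
    have h3 : ContinuousAt (fun z => Cj U p h (p (q z))) (p x) := by
      have h4 : ContinuousAt (fun z => Cj U p h (p z)) (q (p x)) := by rw [hqx]; exact h2
      exact ContinuousAt.comp (g := fun z => Cj U p h (p z)) h4 hq.continuousAt
    refine h3.congr ?_
    filter_upwards [hq2] with z hz
    rw [hz]
  · have hK : IsCompact (p '' C) :=
      hC.image (continuous_iff_continuousAt.2 fun x => (hpl x).continuousAt)
    have hy' : y ∉ p '' C := fun h1 => hy (image_mono hCU h1)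
    refine continuousAt_id.congr ?_
    filter_upwards [hK.isClosed.isOpen_compl.mem_nhds hy'] with z hz
    exact (Cj_fix hCf hz).symm

end cjLD

end Pool.Agent.H816
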