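import Pool.Agent.H816.Nrm

/-!
# Differentiability at the singular points, and the theorem for embeddings of spheres
-/

set_option autoImplicit false

open Set Filter Topology Metric Function MeasureTheory Module
open scoped Manifold ContDiff NNReal

noncomputable section

namespace Pool.Agent.H816

open Pool.Agent.Y522 Pool.Agent.Y784.SH

attribute [local instance] factE

section md

variable {n : ℕ}

/-- a map which is in second order contact with a local diffeomorphism is differentiable -/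
theorem mdiff_of_flat {F T : Sn n → Sn n} {p : Sn n} (hT : LD n T p) (hFc : LipAt F p)
    (hF : F p = T p)
    (hflat : (fun x => dist (F x) (T x)) =O[𝓝 p] fun x => dist x p ^ 2) :
    MDifferentiableAt (𝓡 n) (𝓡 n) F p ∧ Bijective (mfderiv (𝓡 n) (𝓡 n) F p) := by
  have hTd : MDifferentiableAt (𝓡 n) (𝓡 n) T p := hT.contMDiffAt.mdifferentiableAt (by simp)
  obtain ⟨hT1, hT2⟩ := hTd.hasMFDerivAt
  set L : E n →L[ℝ] E n := mfderiv (𝓡 n) (𝓡 n) T p with hL
  have hLb : Bijective L := by
    have h4 := hT.mfderivToContinuousLinearEquiv_coe (by simp)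
    have h5 : Bijective (hT.mfderivToContinuousLinearEquiv (by simp)) :=
      ContinuousLinearEquiv.bijective _
    have h6 : ∀ v, hT.mfderivToContinuousLinearEquiv (by simp) v = L v :=
      fun v => DFunLike.congr_fun h4 v
    have h7 : (fun v => hT.mfderivToContinuousLinearEquiv (by simp) v) = fun v => L v := funext h6
    have h8 : Bijective (fun v => L v) := by rw [← h7]; exact h5
    exact h8
  -- the charts
  set z0 : E n := extChartAt (𝓡 n) p p with hz0
  have hz0' : z0 = pr (-p) (p : E (n + 1)) := rfl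
  have hne : p ≠ -p := neg_ne p
  have hsz : sg (-p) z0 = p := sg_pr _ hne
  have hpr : LipAt (fun y : Sn n => pr (-(T p)) (y : E (n + 1))) (T p) := lipAt_pr (neg_ne _)
  obtain ⟨K, s, hs, hK⟩ := hpr
  have hsgt : Tendsto (sg (-p)) (𝓝 z0) (𝓝 p) := by
    have := (sg_LD (-p) z0).continuousAt.tendsto
    rwa [hsz] at this
  have hFt : Tendsto (fun z => F (sg (-p) z)) (𝓝 z0) (𝓝 (T p)) := by
    have h1 : Tendsto F (𝓝 p) (𝓝 (T p)) := by
      have := hFc.continuousAt.tendsto
      rwa [hF] at this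
    exact h1.comp hsgt
  have hTt : Tendsto (fun z => T (sg (-p) z)) (𝓝 z0) (𝓝 (T p)) :=
    hT.continuousAt.tendsto.comp hsgt
  have hO1 : (fun z => dist (F (sg (-p) z)) (T (sg (-p) z))) =O[𝓝 z0]
      fun z => ‖z - z0‖ ^ 2 := by
    have h1 := hflat.comp_tendsto hsgt
    have h2 : (fun z => dist (sg (-p) z) p) =O[𝓝 z0] fun z => ‖z - z0‖ := by
      have h3 := (lipAt_E (sg_LD (-p) z0)).isBigO
      rw [hsz] at h3
      simp only [dist_eq_norm (a := (_ : E n))] at h3
      exact h3
    exact h1.trans (h2.pow 2)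
  have hO2 : (fun z => pr (-(T p)) (F (sg (-p) z) : E (n + 1)) -
      pr (-(T p)) (T (sg (-p) z) : E (n + 1))) =O[𝓝 z0]
      fun z => dist (F (sg (-p) z)) (T (sg (-p) z)) := by
    refine Asymptotics.IsBigO.of_bound K ?_
    filter_upwards [hFt hs, hTt hs] with z h1 h2
    rw [← dist_eq_norm, Real.norm_of_nonneg dist_nonneg]
    exact hK.dist_le_mul _ h1 _ h2
  have hD : HasFDerivAt (fun z => pr (-(T p)) (F (sg (-p) z) : E (n + 1)) -
      pr (-(T p)) (T (sg (-p) z) : E (n + 1))) (0 : E n →L[ℝ] E n) z0 :=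
    (hO2.trans hO1).hasFDerivAt (by norm_num)
  have hT3 : HasFDerivAt (fun z => pr (-(T p)) (T (sg (-p) z) : E (n + 1))) L z0 := by
    have h1 : HasFDerivWithinAt (writtenInExtChartAt (𝓡 n) (𝓡 n) p T) L (range (𝓡 n)) z0 := hT2
    rw [(𝓡 n).range_eq_univ, hasFDerivWithinAt_univ] at h1
    exact h1
  have hF3 : HasFDerivAt (fun z => pr (-(T p)) (F (sg (-p) z) : E (n + 1))) L z0 := by
    have h1 := hD.add hT3
    rw [zero_add] at h1
    refine h1.congr_of_eventuallyEq (Eventually.of_forall fun z => ?_)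
    simp
  have hF4 : HasMFDerivAt (𝓡 n) (𝓡 n) F p L := by
    have h1 : writtenInExtChartAt (𝓡 n) (𝓡 n) p F =
        fun z => pr (-(T p)) (F (sg (-p) z) : E (n + 1)) := by
      funext z
      show pr (-(F p)) (F (sg (-p) z) : E (n + 1)) = _
      rw [hF]
    have h2 : HasFDerivWithinAt (writtenInExtChartAt (𝓡 n) (𝓡 n) p F) L (range (𝓡 n)) z0 := by
      rw [h1]
      exact hF3.hasFDerivWithinAt
    exact ⟨hFc.continuousAt, h2⟩
  refine ⟨hF4.mdifferentiableAt, ?_⟩
  rw [hF4.mfderiv]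
  exact hLb

theorem mdiff_of_LD {F : Sn n → Sn n} {p : Sn n} (hT : LD n F p) :
    MDifferentiableAt (𝓡 n) (𝓡 n) F p ∧ Bijective (mfderiv (𝓡 n) (𝓡 n) F p) := by
  refine mdiff_of_flat hT (lipAt_S hT) rfl ?_
  simp only [dist_self]
  exact Asymptotics.isBigO_zero _ _

/-- a diffeomorphism of the sphere as a bundled diffeomorphism -/
def DifS.toDiffeo {G G' : Sn n → Sn n} (hG : DifS n G) (hG' : DifS n G')
    (h1 : ∀ y, G' (G y) = y) (h2 : ∀ y, G (G' y) = y) :
    Diffeomorph (𝓡 n) (𝓡 n) (Sn n) (Sn n) ∞ where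
  toFun := G
  invFun := G'
  left_inv := h1
  right_inv := h2
  contMDiff_toFun := fun y => (hG.2 y).contMDiffAt
  contMDiff_invFun := fun y => (hG'.2 y).contMDiffAt

end md

section rev

variable {n : ℕ}

/-- reversal of the coordinates -/
def rv (n : ℕ) : E (n + 1) ≃ₗᵢ[ℝ] E (n + 1) :=
  LinearIsometryEquiv.piLpCongrLeft 2 ℝ ℝ Fin.revPerm

theorem rv_last (x : E (n + 1)) : rv n x (Fin.last n) = x 0 := by
  unfold rv
  rw [LinearIsometryEquiv.piLpCongrLeft_apply]
  simp [Equiv.piCongrLeft']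

end rev

end Pool.Agent.H816
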