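import Pool.Agent.H816.Mod2
import Pool.Agent.H816.MDif

/-!
# Coordinates at the tips
-/

set_option autoImplicit false

open Set Filter Topology Metric Function MeasureTheory Module
open scoped Manifold ContDiff NNReal

noncomputable section

namespace Pool.Agent.H816

open Pool.Agent.Y522 Pool.Agent.Y784.SH

section coord

variable {m : ℕ} {P : Prof} {L C : ℝ} {h : E (m + 1) → E (m + 1)}

/-- coordinates at the tips in which the horn map on the sphere is the horn map -/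
theorem HS_coord (hP : P.c < Real.pi) (hh : Cyl L C h) (hd : Dif (m + 1) h) (hp : Per h)
    {s : ℝ} (hs : |s| = P.c) : ∃ (A : E (m + 1) → Sn (m + 1)) (B : Sn (m + 1) → E (m + 1)),
      A 0 = pol (cn s 0) ∧ LD (m + 1) A 0 ∧ LD (m + 1) B (pol (cn s 0)) ∧
      B (pol (cn s 0)) = 0 ∧ (∀ᶠ x in 𝓝 0, B (A x) = x) ∧
      ∀ᶠ x in 𝓝 0, B (HS P h (A x)) = Hm P h (x + cn s 0) - cn s 0 := by
  set u : E (m + 1) := cn s 0 with hu
  have hu0 : u 0 = s := by simp [hu]
  have huU : u ∈ Ud m := by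
    show |u 0| < Real.pi
    rw [hu0, hs]
    exact hP
  have hfix : Hm P h u = u := Hm_of_ge P (by rw [hu0, hs])
  obtain ⟨q, hq, hqx, hq1, hq2⟩ := LD_exists_inv (pol_LD u)
  have hadd : LD (m + 1) (fun x : E (m + 1) => x + u) 0 := by
    refine LD_of_left_inv (g := fun x => x - u)
      (Eventually.of_forall fun y => contDiffAt_id.add contDiffAt_const)
      (differentiableAt_id.sub_const u) (Eventually.of_forall fun y => ?_)
    show y + u - u = y
    abel
  have hsub : LD (m + 1) (fun x : E (m + 1) => x - u) u := by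
    refine LD_of_left_inv (g := fun x => x + u)
      (Eventually.of_forall fun y => contDiffAt_id.sub contDiffAt_const)
      (differentiableAt_id.add_const u) (Eventually.of_forall fun y => ?_)
    show y - u + u = y
    abel
  have hz : (0 : E (m + 1)) + u = u := zero_add u
  have ht : Tendsto (fun x : E (m + 1) => x + u) (𝓝 0) (𝓝 u) := by
    have := hadd.continuousAt.tendsto
    rwa [hz] at this
  refine ⟨fun x => pol (x + u), fun y => q y - u, ?_, ?_, ?_, ?_, ?_, ?_⟩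
  · show pol (0 + u) = _
    rw [hz]
  · exact LD.comp_fun (g := pol) (by rw [hz]; exact pol_LD u) hadd
  · exact LD.comp_fun (g := fun x => x - u) (by rw [hqx]; exact hsub) hq
  · show q (pol u) - u = 0
    rw [hqx, sub_self]
  · filter_upwards [ht.eventually hq1] with x hx
    show q (pol (x + u)) - u = x
    rw [hx]
    abel
  · have h1 : Tendsto (fun x : E (m + 1) => Hm P h (x + u)) (𝓝 0) (𝓝 u) := by
      have h2 := (Hm_lipAt (P := P) hh hd hp u).continuousAt.tendsto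
      rw [hfix] at h2
      exact h2.comp ht
    have h3 : ∀ᶠ x : E (m + 1) in 𝓝 0, x + u ∈ Ud m := ht (isOpen_Ud.mem_nhds huU)
    filter_upwards [h1.eventually hq1, h3] with x hx hx2
    show q (HS P h (pol (x + u))) - u = _
    rw [HS_apply hx2, hx]

end coord

/-- horn structure with the gauge `η` at the point `p`, in contact with `T` -/
def TipStr (η : ℝ → ℝ) {n : ℕ} (F T : Sn n → Sn n) (p : Sn n) : Prop :=
  ∃ (A : E n → Sn n) (B : Sn n → E n), A 0 = p ∧ LD n A 0 ∧ LD n B (F p) ∧ B (F p) = 0 ∧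
    (∀ᶠ x in 𝓝 0, B (T (A x)) = x) ∧
    (∃ K : ℝ, ∀ᶠ x in 𝓝[≠] 0, ‖B (F (A x)) - x‖ ≤ K * η ‖x‖) ∧
    ∀ k : ℕ, ∃ K : ℝ, ∀ᶠ x in 𝓝[≠] 0,
      ‖iteratedFDeriv ℝ (k + 1) (fun x => B (F (A x))) x‖ * η ‖x‖ ^ k ≤ K

theorem HS_tip {m : ℕ} {P : Prof} {L C : ℝ} {h : E (m + 1) → E (m + 1)} {η : ℝ → ℝ} {κ k : ℝ}
    (hη : Gauge η κ) (hk : 0 < k) (hkκ : k ≤ κ) (hE : P.HasEnd η k) (hPr : P.Reg)
    (hP : P.c < Real.pi) (hh : Cyl L C h) (hd : Dif (m + 1) h) (hp : Per h) {s : ℝ}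
    (hs : |s| = P.c) : TipStr η (HS P h) (fun y => y) (pol (cn s 0)) := by
  obtain ⟨A, B, h1, h2, h3, h4, h5, h6⟩ := HS_coord hP hh hd hp hs
  have hfix : HS P h (pol (cn s 0)) = pol (cn s 0) := by
    have e1 : (cn s 0 : E (m + 1)) 0 = s := by simp
    rw [HS_apply (by
      show |(cn s 0 : E (m + 1)) 0| < Real.pi
      rw [e1, hs]
      exact hP), Hm_of_ge P (by rw [e1, hs])]
  refine ⟨A, B, h1, h2, by rw [hfix]; exact h3, by rw [hfix]; exact h4, h5, ?_, fun n => ?_⟩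
  · obtain ⟨K, hK⟩ := tip_contact hη hk hkκ hE hh hs
    refine ⟨K, ?_⟩
    filter_upwards [hK, nhdsWithin_le_nhds h6] with x hx1 hx2
    rw [hx2]
    exact hx1
  · obtain ⟨K, hK⟩ := tip_bd hη hk hE hPr hh hd hp hs n
    refine ⟨K, ?_⟩
    filter_upwards [hK, nhdsWithin_le_nhds h6.eventually_nhds] with x hx1 hx2
    have e : (fun x => B (HS P h (A x))) =ᶠ[𝓝 x] fun x => Hm P h (x + cn s 0) - cn s 0 := hx2
    rw [(e.iteratedFDeriv (𝕜 := ℝ) (n + 1)).self_of_nhds]
    exact hx1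

/-- composition with diffeomorphisms -/
theorem TipStr.conj {η : ℝ → ℝ} {n : ℕ} {F T : Sn n → Sn n} {p : Sn n} (h : TipStr η F T p)
    {G G' H : Sn n → Sn n} (hG : ∀ y, LD n G y) (hGl : ∀ y, G' (G y) = y)
    (hH : ∀ y, LD n H y) {H' : Sn n → Sn n} (hH' : ∀ y, LD n H' y) (hHl : ∀ y, H' (H y) = y) :
    TipStr η (fun y => H (F (G' y))) (fun y => H (T (G' y))) (G p) := by
  obtain ⟨A, B, h1, h2, h3, h4, h5, ⟨K, h6⟩, h7⟩ := h
  have e : ∀ x, B (H' (H (F (G' (G (A x)))))) = B (F (A x)) := fun x => by rw [hGl, hHl]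
  refine ⟨fun x => G (A x), fun y => B (H' y), congrArg G h1, LD.comp_fun (g := G) (hG _) h2,
    ?_, ?_, ?_, ?_, ?_⟩
  · refine LD.comp_fun (g := B) ?_ (hH' _)
    show LD n B (H' (H (F (G' (G p)))))
    rw [hGl, hHl]
    exact h3
  · show B (H' (H (F (G' (G p))))) = 0
    rw [hGl, hHl, h4]
  · filter_upwards [h5] with x hx
    show B (H' (H (T (G' (G (A x)))))) = x
    rw [hGl, hHl, hx]
  · refine ⟨K, ?_⟩
    filter_upwards [h6] with x hx
    show ‖B (H' (H (F (G' (G (A x)))))) - x‖ ≤ _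
    rw [e]
    exact hx
  · intro k
    obtain ⟨K, hK⟩ := h7 k
    refine ⟨K, ?_⟩
    have e2 : (fun x => (fun y => B (H' y)) ((fun y => H (F (G' y))) ((fun x => G (A x)) x))) =
        fun x => B (F (A x)) := funext e
    rw [e2]
    exact hK

end Pool.Agent.H816
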