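import Pool.Graph.R_seed8.Y522.Basic

/-!
# Generalized cross product
-/

set_option autoImplicit false

open Set Filter Topology Metric Function MeasureTheory Module
open scoped Manifold ContDiff NNReal

noncomputable section

namespace Pool.Agent.H816

open Pool.Agent.Y522

variable {n : ℕ}

/-- the generalized cross product of `n + 1` vectors of an `n + 2`-dimensional space -/
def cr (V : Fin (n + 1) → E (n + 1 + 1)) : E (n + 1 + 1) :=
  WithLp.toLp 2 fun j : Fin (n + 1 + 1) =>
    (-1) ^ (j : ℕ) * (Matrix.of fun i k : Fin (n + 1) => V i (j.succAbove k)).det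

/-- the matrix with a given first row -/
def mx (w : E (n + 1 + 1)) (V : Fin (n + 1) → E (n + 1 + 1)) :
    Matrix (Fin (n + 1 + 1)) (Fin (n + 1 + 1)) ℝ :=
  Matrix.of fun i j => (Fin.cons w V : Fin (n + 1 + 1) → E (n + 1 + 1)) i j

theorem inner_cr (V : Fin (n + 1) → E (n + 1 + 1)) (w : E (n + 1 + 1)) :
    inner ℝ w (cr V) = (mx w V).det := by
  rw [Matrix.det_succ_row_zero, PiLp.inner_apply]
  refine Finset.sum_congr rfl fun j _ => ?_
  have h1 : mx w V 0 j = w j := by simp [mx]
  have h2 : (mx w V).submatrix Fin.succ j.succAbove =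
      Matrix.of fun i k : Fin (n + 1) => V i (j.succAbove k) := by
    ext i k
    simp [mx]
  rw [h1, h2]
  simp only [cr, RCLike.inner_apply, conj_trivial]
  ring

theorem inner_cr_row (V : Fin (n + 1) → E (n + 1 + 1)) (i : Fin (n + 1)) :
    inner ℝ (V i) (cr V) = 0 := by
  rw [inner_cr]
  refine Matrix.det_zero_of_row_eq (i := 0) (j := i.succ) (Fin.succ_ne_zero i).symm ?_
  ext j
  simp [mx]

theorem cr_ne {V : Fin (n + 1) → E (n + 1 + 1)} (hV : LinearIndependent ℝ V) : cr V ≠ 0 := by
  obtain ⟨w, hw⟩ : ∃ w : E (n + 1 + 1), w ∉ Submodule.span ℝ (range V) := by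
    by_contra hcon
    push Not at hcon
    have h1 : Submodule.span ℝ (range V) = ⊤ := by
      rw [eq_top_iff]
      intro w _
      exact hcon w
    have h2 := finrank_range_le_card (R := ℝ) V
    rw [Set.finrank, h1, finrank_top, finrank_euclideanSpace_fin, Fintype.card_fin] at h2
    omega
  have h1 : LinearIndependent ℝ (Fin.cons w V : Fin (n + 1 + 1) → E (n + 1 + 1)) :=
    linearIndependent_finCons.2 ⟨hV, hw⟩
  have h2 : LinearIndependent ℝ (mx w V).row := by
    have h3 := h1.map' (WithLp.linearEquiv 2 ℝ (Fin (n + 1 + 1) → ℝ)).toLinearMap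
      (LinearEquiv.ker _)
    exact h3
  have h3 : (mx w V).det ≠ 0 := by
    have h4 := Matrix.linearIndependent_rows_iff_isUnit.1 h2
    rw [Matrix.isUnit_iff_isUnit_det] at h4
    exact h4.ne_zero
  intro h0
  apply h3
  rw [← inner_cr, h0, inner_zero_right]

theorem cr_smooth {W : Type*} [NormedAddCommGroup W] [NormedSpace ℝ W]
    {V : Fin (n + 1) → W → E (n + 1 + 1)} {x : W} (h : ∀ i, ContDiffAt ℝ ∞ (V i) x) :
    ContDiffAt ℝ ∞ (fun y => cr fun i => V i y) x := by
  rw [contDiffAt_euclidean]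
  intro j
  simp only [cr]
  refine contDiffAt_const.mul ?_
  simp only [Matrix.det_apply]
  refine ContDiffAt.sum fun σ _ => ?_
  refine ContDiffAt.const_smul _ ?_
  refine contDiffAt_prod fun i _ => ?_
  exact (contDiffAt_euclidean.1 (h (σ i))) _

end Pool.Agent.H816
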