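import Pool.Agent.H816.MDif

/-!
# The theorem for embeddings of spheres
-/

set_option autoImplicit false

open Set Filter Topology Metric Function MeasureTheory Module
open scoped Manifold ContDiff NNReal

noncomputable section

namespace Pool.Agent.H816

open Pool.Agent.Y522 Pool.Agent.Y784.SH

theorem dist_iso {n : ℕ} (A : E (n + 1) ≃ₗᵢ[ℝ] E (n + 1)) (x y : Sn n) :
    dist (iso A x) (iso A y) = dist x y := by
  rw [Subtype.dist_eq, Subtype.dist_eq]
  exact A.isometry.dist_eq _ _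

variable {m : ℕ}

theorem emb_thm (hm : 2 ≤ m) {f : Sn m → Sn (m + 1)} (hf : ContMDiff (𝓡 m) (𝓡 (m + 1)) ∞ f)
    (hi : ∀ x, Injective (mfderiv (𝓡 m) (𝓡 (m + 1)) f x)) (hinj : Injective f) :
    ∃ (Φ : Sn (m + 1) ≃ₜ Sn (m + 1))
      (T : Diffeomorph (𝓡 (m + 1)) (𝓡 (m + 1)) (Sn (m + 1)) (Sn (m + 1)) ∞) (p q : Sn (m + 1)),
      Φ '' range f = {y : Sn (m + 1) | (y : E (m + 1 + 1)) (Fin.last (m + 1)) = 0} ∧
      0 < (Φ p : E (m + 1 + 1)) (Fin.last (m + 1)) ∧
      (Φ q : E (m + 1 + 1)) (Fin.last (m + 1)) < 0 ∧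
      (∀ x, x ≠ p → x ≠ q → LD (m + 1) Φ x) ∧
      (∀ x, MDifferentiableAt (𝓡 (m + 1)) (𝓡 (m + 1)) Φ x ∧
        Bijective (mfderiv (𝓡 (m + 1)) (𝓡 (m + 1)) Φ x)) ∧
      (∃ K : ℝ≥0, LipschitzWith K Φ ∧ LipschitzWith K Φ.symm) ∧
      (Φ p = T p ∧ ∀ N : ℕ, (fun x => dist (Φ x) (T x)) =O[𝓝 p] fun x => dist x p ^ N) ∧
      (Φ q = T q ∧ ∀ N : ℕ, (fun x => dist (Φ x) (T x)) =O[𝓝 q] fun x => dist x q ^ N) := by
  obtain ⟨F, F', G, G', a, b, h⟩ := germ_thm hm (Γ := gm f) (fun y hy => gm_LD hf hi hy)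
    (gm_inj hinj)
  have hFc : Continuous F := continuous_iff_continuousAt.2 fun x => (h.lip x).continuousAt
  have hFc' : Continuous F' := continuous_iff_continuousAt.2 fun x => (h.lip' x).continuousAt
  set A := rv (m + 1) with hA
  have hic : Continuous (iso A) := continuous_iff_continuousAt.2 fun x => (iso_LD A x).continuousAt
  have hic' : Continuous (iso A.symm) :=
    continuous_iff_continuousAt.2 fun x => (iso_LD A.symm x).continuousAt
  let Φ : Sn (m + 1) ≃ₜ Sn (m + 1) :=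
    { toFun := fun x => iso A (F' x)
      invFun := fun y => F (iso A.symm y)
      left_inv := fun x => by
        show F (iso A.symm (iso A (F' x))) = x
        rw [iso_symm_apply, h.right]
      right_inv := fun y => by
        show iso A (F' (F (iso A.symm y))) = y
        rw [h.left, iso_apply_symm]
      continuous_toFun := hic.comp hFc'
      continuous_invFun := hFc.comp hic' }
  have hΦ : ∀ x, Φ x = iso A (F' x) := fun _ => rfl
  have hT1 : DifS (m + 1) (fun x => iso A (G' x)) := (DifS.iso A).comp h.dif'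
  have hT2 : DifS (m + 1) (fun y => G (iso A.symm y)) := h.dif.comp (DifS.iso A.symm)
  set T := DifS.toDiffeo hT1 hT2 (fun y => by
      show G (iso A.symm (iso A (G' y))) = y
      rw [iso_symm_apply, h.gright]) (fun y => by
      show iso A (G' (G (iso A.symm y))) = y
      rw [h.gleft, iso_apply_symm]) with hT
  have hTa : ∀ x, T x = iso A (G' x) := fun _ => rfl
  have hpt : Φ (F a) = T (F a) := by
    rw [hΦ, hTa, h.left, h.fa, h.gleft]
  have hqt : Φ (F b) = T (F b) := by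
    rw [hΦ, hTa, h.left, h.fb, h.gleft]
  have hLD : ∀ x, x ≠ F a → x ≠ F b → LD (m + 1) Φ x := fun x h1 h2 =>
    LD.comp_fun (g := iso A) (iso_LD A _) (h.ld' x h1 h2)
  have hlipΦ : ∀ x, LipAt Φ x := fun x =>
    LipAt.comp (g := iso A) (f := F') (lipAt_S (iso_LD A _)) (h.lip' x)
  have hc1 : ∀ N : ℕ, (fun x => dist (Φ x) (T x)) =O[𝓝 (F a)] fun x => dist x (F a) ^ N := by
    intro N
    refine (h.flata' N).congr_left fun x => ?_
    rw [hΦ, hTa, dist_iso]
  have hc2 : ∀ N : ℕ, (fun x => dist (Φ x) (T x)) =O[𝓝 (F b)] fun x => dist x (F b) ^ N := by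
    intro N
    refine (h.flatb' N).congr_left fun x => ?_
    rw [hΦ, hTa, dist_iso]
  refine ⟨Φ, T, F a, F b, ?_, ?_, ?_, hLD, ?_, ?_, ⟨hpt, hc1⟩, ⟨hqt, hc2⟩⟩
  · rw [← gm_image]
    ext y
    constructor
    · rintro ⟨_, ⟨x, hx, rfl⟩, rfl⟩
      have h1 : gm f x = F x := ((h.eq x hx).self_of_nhds).symm
      show (Φ (gm f x) : E (m + 1 + 1)) (Fin.last (m + 1)) = 0
      rw [h1, hΦ, h.left]
      show rv (m + 1) (x : E (m + 1 + 1)) (Fin.last (m + 1)) = 0
      rw [rv_last]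
      exact hx
    · intro hy
      have hy' : (y : E (m + 1 + 1)) (Fin.last (m + 1)) = 0 := hy
      set x := iso A.symm y with hx
      have hxy : iso A x = y := iso_apply_symm A y
      have hx0 : x ∈ Eq0 m := by
        show (x : E (m + 1 + 1)) 0 = 0
        rw [← rv_last]
        have : rv (m + 1) (x : E (m + 1 + 1)) = (y : E (m + 1 + 1)) := congrArg Subtype.val hxy
        rw [this]
        exact hy'
      refine ⟨gm f x, ⟨x, hx0, rfl⟩, ?_⟩
      have h1 : gm f x = F x := ((h.eq x hx0).self_of_nhds).symm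
      rw [h1, hΦ, h.left]
      exact hxy
  · rw [hΦ, h.left]
    show 0 < rv (m + 1) (a : E (m + 1 + 1)) (Fin.last (m + 1))
    rw [rv_last]
    exact h.ha
  · rw [hΦ, h.left]
    show rv (m + 1) (b : E (m + 1 + 1)) (Fin.last (m + 1)) < 0
    rw [rv_last]
    exact h.hb
  · intro x
    by_cases h1 : x = F a
    · rw [h1]
      exact mdiff_of_flat (hT1.2 _) (hlipΦ _) hpt (hc1 2)
    · by_cases h2 : x = F b
      · rw [h2]
        exact mdiff_of_flat (hT1.2 _) (hlipΦ _) hqt (hc2 2)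
      · exact mdiff_of_LD (hLD x h1 h2)
  · obtain ⟨K1, hK1⟩ := lip_of_lipAt hlipΦ
    have hlipΦ' : ∀ x, LipAt Φ.symm x := fun x =>
      LipAt.comp (g := F) (f := iso A.symm) (h.lip _) (lipAt_S (iso_LD A.symm x))
    obtain ⟨K2, hK2⟩ := lip_of_lipAt hlipΦ'
    exact ⟨max K1 K2, hK1.weaken (le_max_left _ _), hK2.weaken (le_max_right _ _)⟩

end Pool.Agent.H816
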