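import Pool.Agent.H816.Gam2
import Pool.Agent.H816.EmbT

/-!
# The theorem for embeddings of spheres, with arbitrary profiles
-/

set_option autoImplicit false

open Set Filter Topology Metric Function MeasureTheory Module
open scoped Manifold ContDiff NNReal

noncomputable section

namespace Pool.Agent.H816

open Pool.Agent.Y522 Pool.Agent.Y784.SH

variable {m : ℕ}

/-- the output for embeddings -/
structure Out3 (m : ℕ) (f : Sn m → Sn (m + 1)) (P : Prof) (L C : ℝ)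
    (h k : E (m + 1) → E (m + 1)) (Φ : Sn (m + 1) ≃ₜ Sn (m + 1))
    (G G' H H' : Sn (m + 1) → Sn (m + 1)) : Prop where
  lt_pi : P.c < Real.pi
  data : Data L C h k
  dG : DifS (m + 1) G
  dG' : DifS (m + 1) G'
  dH : DifS (m + 1) H
  dH' : DifS (m + 1) H'
  gl : ∀ y, G' (G y) = y
  gr : ∀ y, G (G' y) = y
  hl : ∀ y, H' (H y) = y
  hr : ∀ y, H (H' y) = y
  eq : ∀ x, Φ x = H (HS P k (G' x))
  image : Φ '' range f = {y : Sn (m + 1) | (y : E (m + 1 + 1)) (Fin.last (m + 1)) = 0}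
  pos : 0 < (Φ (G (pol (cn P.c 0))) : E (m + 1 + 1)) (Fin.last (m + 1))
  neg : (Φ (G (pol (cn (-P.c) 0))) : E (m + 1 + 1)) (Fin.last (m + 1)) < 0
  ld : ∀ x, x ≠ G (pol (cn P.c 0)) → x ≠ G (pol (cn (-P.c) 0)) → LD (m + 1) Φ x
  lip : ∃ K : ℝ≥0, LipschitzWith K Φ ∧ LipschitzWith K Φ.symm

theorem emb_thm2 (hm : 2 ≤ m) {Q : Prof → Prop}
    (hQ : ∀ c' c : ℝ, 0 < c' → c' < c → ∃ P : Prof, P.c' = c' ∧ P.c = c ∧ Q P)
    {f : Sn m → Sn (m + 1)} (hf : ContMDiff (𝓡 m) (𝓡 (m + 1)) ∞ f)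
    (hi : ∀ x, Injective (mfderiv (𝓡 m) (𝓡 (m + 1)) f x)) (hinj : Injective f) :
    ∃ (P : Prof) (L C : ℝ) (h k : E (m + 1) → E (m + 1)) (Φ : Sn (m + 1) ≃ₜ Sn (m + 1))
      (G G' H H' : Sn (m + 1) → Sn (m + 1)), Q P ∧ Out3 m f P L C h k Φ G G' H H' := by
  obtain ⟨P, L, C, hh, k, F, F', G, G', hQP, hPpi, hdat, hF', h⟩ := germ_thm2 hm hQ (Γ := gm f)
    (fun y hy => gm_LD hf hi hy) (gm_inj hinj)
  set a : Sn (m + 1) := pol (cn P.c 0) with ha
  set b : Sn (m + 1) := pol (cn (-P.c) 0) with hb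
  have hFc : Continuous F := continuous_iff_continuousAt.2 fun x => (h.lip x).continuousAt
  have hFc' : Continuous F' := continuous_iff_continuousAt.2 fun x => (h.lip' x).continuousAt
  set A := rv (m + 1) with hA
  have hic : Continuous (iso A) := continuous_iff_continuousAt.2 fun x => (iso_LD A x).continuousAt
  have hic' : Continuous (iso A.symm) :=
    continuous_iff_continuousAt.2 fun x => (iso_LD A.symm x).continuousAt
  let Φ : Sn (m + 1) ≃ₜ Sn (m + 1) :=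
    { toFun := fun x => iso A (F' x)
      invFun := fun y => F (iso A.symm y)
      left_inv := fun x => by
        show F (iso A.symm (iso A (F' x))) = x
        rw [iso_symm_apply, h.right]
      right_inv := fun y => by
        show iso A (F' (F (iso A.symm y))) = y
        rw [h.left, iso_apply_symm]
      continuous_toFun := hic.comp hFc'
      continuous_invFun := hFc.comp hic' }
  have hΦ : ∀ x, Φ x = iso A (F' x) := fun _ => rfl
  have hLD : ∀ x, x ≠ G a → x ≠ G b → LD (m + 1) Φ x := fun x h1 h2 =>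
    LD.comp_fun (g := iso A) (iso_LD A _) (h.ld' x (by rw [h.fa]; exact h1)
      (by rw [h.fb]; exact h2))
  have hlipΦ : ∀ x, LipAt Φ x := fun x =>
    LipAt.comp (g := iso A) (f := F') (lipAt_S (iso_LD A _)) (h.lip' x)
  refine ⟨P, L, C, hh, k, Φ, G, G', iso A, iso A.symm, hQP,
    { lt_pi := hPpi
      data := hdat
      dG := h.dif
      dG' := h.dif'
      dH := DifS.iso A
      dH' := DifS.iso A.symm
      gl := h.gleft
      gr := h.gright
      hl := fun y => iso_symm_apply A y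
      hr := fun y => iso_apply_symm A y
      eq := fun x => by rw [hΦ, hF']
      image := ?_
      pos := ?_
      neg := ?_
      ld := hLD
      lip := ?_ }⟩
  · rw [← gm_image]
    ext y
    constructor
    · rintro ⟨_, ⟨x, hx, rfl⟩, rfl⟩
      have h1 : gm f x = F x := ((h.eq x hx).self_of_nhds).symm
      show (Φ (gm f x) : E (m + 1 + 1)) (Fin.last (m + 1)) = 0
      rw [h1, hΦ, h.left]
      show rv (m + 1) (x : E (m + 1 + 1)) (Fin.last (m + 1)) = 0
      rw [rv_last]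
      exact hx
    · intro hy
      have hy' : (y : E (m + 1 + 1)) (Fin.last (m + 1)) = 0 := hy
      set x := iso A.symm y with hx
      have hxy : iso A x = y := iso_apply_symm A y
      have hx0 : x ∈ Eq0 m := by
        show (x : E (m + 1 + 1)) 0 = 0
        rw [← rv_last]
        have : rv (m + 1) (x : E (m + 1 + 1)) = (y : E (m + 1 + 1)) := congrArg Subtype.val hxy
        rw [this]
        exact hy'
      refine ⟨gm f x, ⟨x, hx0, rfl⟩, ?_⟩
      have h1 : gm f x = F x := ((h.eq x hx0).self_of_nhds).symm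
      rw [h1, hΦ, h.left]
      exact hxy
  · rw [← h.fa, hΦ, h.left]
    show 0 < rv (m + 1) (a : E (m + 1 + 1)) (Fin.last (m + 1))
    rw [rv_last]
    exact h.ha
  · rw [← h.fb, hΦ, h.left]
    show rv (m + 1) (b : E (m + 1 + 1)) (Fin.last (m + 1)) < 0
    rw [rv_last]
    exact h.hb
  · obtain ⟨K1, hK1⟩ := lip_of_lipAt hlipΦ
    have hlipΦ' : ∀ x, LipAt Φ.symm x := fun x =>
      LipAt.comp (g := F) (f := iso A.symm) (h.lip _) (lipAt_S (iso_LD A.symm x))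
    obtain ⟨K2, hK2⟩ := lip_of_lipAt hlipΦ'
    exact ⟨max K1 K2, hK1.weaken (le_max_left _ _), hK2.weaken (le_max_right _ _)⟩

/-- the theorem for embeddings, with gauges -/
theorem emb_gauge (hm : 2 ≤ m) {η : ℝ → ℝ} {κ : ℝ} (hη : Gauge η κ)
    {f : Sn m → Sn (m + 1)} (hf : ContMDiff (𝓡 m) (𝓡 (m + 1)) ∞ f)
    (hi : ∀ x, Injective (mfderiv (𝓡 m) (𝓡 (m + 1)) f x)) (hinj : Injective f) :
    ∃ (Φ : Sn (m + 1) ≃ₜ Sn (m + 1))
      (T : Diffeomorph (𝓡 (m + 1)) (𝓡 (m + 1)) (Sn (m + 1)) (Sn (m + 1)) ∞) (p q : Sn (m + 1)),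
      Φ '' range f = {y : Sn (m + 1) | (y : E (m + 1 + 1)) (Fin.last (m + 1)) = 0} ∧
      0 < (Φ p : E (m + 1 + 1)) (Fin.last (m + 1)) ∧
      (Φ q : E (m + 1 + 1)) (Fin.last (m + 1)) < 0 ∧
      (∀ x, x ≠ p → x ≠ q → LD (m + 1) Φ x) ∧
      (∃ K : ℝ≥0, LipschitzWith K Φ ∧ LipschitzWith K Φ.symm) ∧
      TipStr η Φ T p ∧ TipStr η Φ T q ∧ T p = Φ p ∧ T q = Φ q := by
  obtain ⟨P, L, C, h, k, Φ, G, G', H, H', ⟨⟨κ', hκ', hκ'', hE⟩, hR⟩, ho⟩ := emb_thm2 hm
    (Q := fun P => (∃ k, 0 < k ∧ k ≤ κ ∧ P.HasEnd η k) ∧ P.Reg) (fun c' c h1 h2 => by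
      obtain ⟨Q, k, e1, e2, e3, e4, e5, e6⟩ := exists_pre_gauge hη h1 h2
      exact ⟨Q.prof, e1, e2, ⟨k, e3, e4, e5⟩, e6⟩) hf hi hinj
  have hcpos : 0 < P.c := P.hc'.trans P.hc
  have hT1 : DifS (m + 1) (fun x => H (G' x)) := ho.dH.comp ho.dG'
  have hT2 : DifS (m + 1) (fun y => G (H' y)) := ho.dG.comp ho.dH'
  set T := DifS.toDiffeo hT1 hT2 (fun y => by
      show G (H' (H (G' y))) = y
      rw [ho.hl, ho.gr]) (fun y => by
      show H (G' (G (H' y))) = y
      rw [ho.gl, ho.hr]) with hT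
  have hTa : (T : Sn (m + 1) → Sn (m + 1)) = fun x => H (G' x) := rfl
  have hΦa : (Φ : Sn (m + 1) → Sn (m + 1)) = fun x => H (HS P k (G' x)) := funext ho.eq
  have htip : ∀ s : ℝ, |s| = P.c → TipStr η Φ T (G (pol (cn s 0))) := by
    intro s hs
    rw [hTa, hΦa]
    exact TipStr.conj (HS_tip hη hκ' hκ'' hE hR ho.lt_pi ho.data.cyl' ho.data.dif' ho.data.per' hs)
      ho.dG.2 ho.gl ho.dH.2 ho.dH'.2 ho.hl
  have hpt : ∀ s : ℝ, |s| = P.c → T (G (pol (cn s 0))) = Φ (G (pol (cn s 0))) := by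
    intro s hs
    have e1 : (cn s 0 : E (m + 1)) 0 = s := by simp
    have hfix : HS P k (pol (cn s 0)) = pol (cn s 0) := by
      rw [HS_apply (by show |(cn s 0 : E (m + 1)) 0| < Real.pi; rw [e1, hs]; exact ho.lt_pi),
        Hm_of_ge P (by rw [e1, hs])]
    rw [hTa, hΦa]
    show H (G' (G _)) = H (HS P k (G' (G _)))
    rw [ho.gl, hfix]
  exact ⟨Φ, T, _, _, ho.image, ho.pos, ho.neg, ho.ld, ho.lip, htip _ (abs_of_pos hcpos),
    htip _ (by rw [abs_neg, abs_of_pos hcpos]), hpt _ (abs_of_pos hcpos),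
    hpt _ (by rw [abs_neg, abs_of_pos hcpos])⟩

end Pool.Agent.H816
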