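import Mathlib

/-!
# Profile functions for horns
-/

set_option autoImplicit false

open Set Filter Topology Metric Function MeasureTheory
open scoped Manifold ContDiff

noncomputable section

namespace Pool.Agent.H816

/-- A profile: a function `φ`, positive exactly on `(-c, c)`, equal to one on `[-c', c']`, together
with the solution `ρ` of `ρ' = φ(ρ)` and its inverse `τ`. -/
structure Prof where
  c' : ℝ
  c : ℝ
  A : ℝ
  φ : ℝ → ℝ
  τ : ℝ → ℝ
  ρ : ℝ → ℝ
  hc' : 0 < c'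
  hc : c' < c
  hA : 0 ≤ A
  φ_pos : ∀ x, |x| < c → 0 < φ x
  φ_le : ∀ x, φ x ≤ 1
  φ_zero : ∀ x, c ≤ |x| → φ x = 0
  φ_cont : Continuous φ
  φ_smooth : ∀ x, |x| < c → ContDiffAt ℝ ∞ φ x
  φ_deriv : ∀ x, |x| < c → |deriv φ x| ≤ A
  φ_one : ∀ x, |x| ≤ c' → φ x = 1
  φ_lip : ∀ x, |x| < c → φ x ≤ A * (c - |x|)
  ρ_lt : ∀ t, |ρ t| < c
  ρ_deriv : ∀ t, HasDerivAt ρ (φ (ρ t)) t
  ρτ : ∀ x, |x| < c → ρ (τ x) = x
  τρ : ∀ t, τ (ρ t) = t
  τ_deriv : ∀ x, |x| < c → HasDerivAt τ (φ x)⁻¹ x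
  τ_id : ∀ x, |x| ≤ c' → τ x = x

/-- flat at the ends -/
def Prof.Flat (P : Prof) : Prop := ∀ N : ℕ, ∃ C : ℝ, 0 ≤ C ∧ ∀ x, |x| < P.c → P.φ x ≤ C * (P.c - |x|) ^ N

section transition

/-- the smooth transition function is flat at zero -/
theorem transition_flat (N : ℕ) : ∃ C : ℝ, 0 ≤ C ∧ ∀ t : ℝ, 0 ≤ t →
    Real.smoothTransition t ≤ C * t ^ N := by
  set a : ℝ := expNegInvGlue (1 / 2) with ha
  have ha0 : 0 < a := expNegInvGlue.pos_of_pos (by norm_num)
  set C1 : ℝ := (N.factorial : ℝ) / a with hC1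
  have hC10 : 0 ≤ C1 := by positivity
  refine ⟨C1 + 2 ^ N, by positivity, fun t ht => ?_⟩
  rcases eq_or_lt_of_le ht with h0 | h0
  · rw [← h0, Real.smoothTransition.zero]
    positivity
  rcases le_total t (1 / 2) with h1 | h1
  · have h2 : a ≤ expNegInvGlue (1 - t) := expNegInvGlue.monotone (by linarith)
    have h3 : expNegInvGlue t ≤ N.factorial * t ^ N := by
      have h4 : expNegInvGlue t = Real.exp (-t⁻¹) := by
        simp [expNegInvGlue, not_le.2 h0]
      rw [h4, Real.exp_neg]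
      have h5 := Real.pow_div_factorial_le_exp t⁻¹ (inv_nonneg.2 h0.le) N
      have h6 : 0 < (t⁻¹) ^ N / (N.factorial : ℝ) := by positivity
      calc (Real.exp t⁻¹)⁻¹ ≤ ((t⁻¹) ^ N / (N.factorial : ℝ))⁻¹ := inv_anti₀ h6 h5
        _ = N.factorial * t ^ N := by
          rw [inv_div, inv_pow, div_inv_eq_mul]
    have h7 : Real.smoothTransition t ≤ (N.factorial * t ^ N) / a := by
      unfold Real.smoothTransition
      have h8 : a ≤ expNegInvGlue t + expNegInvGlue (1 - t) := by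
        have := expNegInvGlue.nonneg t
        linarith
      exact div_le_div₀ (by positivity) h3 ha0 h8
    calc Real.smoothTransition t ≤ (N.factorial * t ^ N) / a := h7
      _ = C1 * t ^ N := by rw [hC1]; ring
      _ ≤ (C1 + 2 ^ N) * t ^ N := by
        apply mul_le_mul_of_nonneg_right _ (by positivity)
        have : (0 : ℝ) ≤ 2 ^ N := by positivity
        linarith
  · calc Real.smoothTransition t ≤ 1 := Real.smoothTransition.le_one t
      _ ≤ (2 * t) ^ N := one_le_pow₀ (by linarith)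
      _ = 2 ^ N * t ^ N := by rw [mul_pow]
      _ ≤ (C1 + 2 ^ N) * t ^ N := by
        apply mul_le_mul_of_nonneg_right _ (by positivity)
        linarith

end transition

section build

/-- data from which a profile is built -/
structure Pre where
  c' : ℝ
  c : ℝ
  A : ℝ
  φ : ℝ → ℝ
  hc' : 0 < c'
  hc : c' < c
  hA : 0 < A
  φ_pos : ∀ x, |x| < c → 0 < φ x
  φ_le : ∀ x, φ x ≤ 1
  φ_zero : ∀ x, c ≤ |x| → φ x = 0
  φ_cont : Continuous φ
  φ_smooth : ∀ x, |x| < c → ContDiffAt ℝ ∞ φ x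
  φ_deriv : ∀ x, |x| < c → |deriv φ x| ≤ A
  φ_one : ∀ x, |x| ≤ c' → φ x = 1
  φ_lip : ∀ x, |x| < c → φ x ≤ A * (c - |x|)

variable (Q : Pre)

/-- the antiderivative of `1 / φ` -/
def Pre.τ (x : ℝ) : ℝ := ∫ s in (0:ℝ)..x, (Q.φ s)⁻¹

theorem Pre.icc_sub {x : ℝ} (hx : |x| < Q.c) : uIcc 0 x ⊆ Ioo (-Q.c) Q.c := by
  intro y hy
  rw [abs_lt] at hx
  have h0 := Q.hc'
  have h1 := Q.hc
  rcases le_total 0 x with h | h
  · rw [uIcc_of_le h] at hy
    exact ⟨by linarith [hy.1], by linarith [hy.2]⟩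
  · rw [uIcc_of_ge h] at hy
    exact ⟨by linarith [hy.1], by linarith [hy.2]⟩

theorem Pre.inv_contOn : ContinuousOn (fun s => (Q.φ s)⁻¹) (Ioo (-Q.c) Q.c) := by
  refine Q.φ_cont.continuousOn.inv₀ fun x hx => ?_
  exact (Q.φ_pos x (abs_lt.2 hx)).ne'

theorem Pre.τ_deriv {x : ℝ} (hx : |x| < Q.c) : HasDerivAt Q.τ (Q.φ x)⁻¹ x := by
  have h1 : IntervalIntegrable (fun s => (Q.φ s)⁻¹) volume 0 x :=
    (Q.inv_contOn.mono (Q.icc_sub hx)).intervalIntegrable
  have hmem : Ioo (-Q.c) Q.c ∈ 𝓝 x := isOpen_Ioo.mem_nhds (abs_lt.1 hx)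
  refine intervalIntegral.integral_hasDerivAt_right h1 ?_ (Q.inv_contOn.continuousAt hmem)
  exact Q.inv_contOn.stronglyMeasurableAtFilter isOpen_Ioo x (abs_lt.1 hx)

theorem Pre.τ_zero : Q.τ 0 = 0 := by simp [Pre.τ]

theorem Pre.τ_id {x : ℝ} (hx : |x| ≤ Q.c') : Q.τ x = x := by
  unfold Pre.τ
  have h : ∀ s ∈ uIcc 0 x, (Q.φ s)⁻¹ = 1 := by
    intro s hs
    rw [abs_le] at hx
    have h0 := Q.hc'
    have : |s| ≤ Q.c' := by
      rw [abs_le]
      rcases le_total 0 x with h | h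
      · rw [uIcc_of_le h] at hs
        exact ⟨by linarith [hs.1], by linarith [hs.2]⟩
      · rw [uIcc_of_ge h] at hs
        exact ⟨by linarith [hs.1], by linarith [hs.2]⟩
    rw [Q.φ_one s this, inv_one]
  rw [intervalIntegral.integral_congr h]
  simp

theorem Pre.τ_mono : StrictMonoOn Q.τ (Ioo (-Q.c) Q.c) := by
  refine strictMonoOn_of_deriv_pos (convex_Ioo _ _) ?_ ?_
  · intro x hx
    exact (Q.τ_deriv (abs_lt.2 hx)).continuousAt.continuousWithinAt
  · intro x hx
    rw [interior_Ioo] at hx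
    rw [(Q.τ_deriv (abs_lt.2 hx)).deriv]
    exact inv_pos.2 (Q.φ_pos x (abs_lt.2 hx))

/-- lower bound on the right -/
theorem Pre.τ_ge {x : ℝ} (hx0 : 0 ≤ x) (hx : x < Q.c) :
    Q.A⁻¹ * (Real.log Q.c - Real.log (Q.c - x)) ≤ Q.τ x := by
  have hA := Q.hA
  have hcpos : 0 < Q.c := Q.hc'.trans Q.hc
  set g : ℝ → ℝ := fun x => Q.τ x + Q.A⁻¹ * Real.log (Q.c - x) with hg
  have hd : ∀ y ∈ Ico (0:ℝ) Q.c, HasDerivAt g ((Q.φ y)⁻¹ + Q.A⁻¹ * ((Q.c - y)⁻¹ * (-1))) y := by
    intro y hy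
    have hy1 : |y| < Q.c := abs_lt.2 ⟨by linarith [hy.1], hy.2⟩
    have h1 := Q.τ_deriv hy1
    have h2 : HasDerivAt (fun x : ℝ => Q.c - x) (-1) y := by
      simpa using (hasDerivAt_id y).const_sub Q.c
    have h3 : HasDerivAt (fun x : ℝ => Real.log (Q.c - x)) ((Q.c - y)⁻¹ * (-1)) y := by
      have := (Real.hasDerivAt_log (sub_pos.2 hy.2).ne').comp y h2
      exact this
    exact h1.add (h3.const_mul _)
  have hmono : MonotoneOn g (Ico 0 Q.c) := by
    refine monotoneOn_of_deriv_nonneg (convex_Ico _ _) ?_ ?_ ?_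
    · intro y hy
      exact (hd y hy).continuousAt.continuousWithinAt
    · intro y hy
      exact (hd y (interior_subset hy)).differentiableAt.differentiableWithinAt
    · intro y hy
      have hy' := interior_subset hy
      rw [(hd y hy').deriv]
      have hy1 : |y| < Q.c := abs_lt.2 ⟨by linarith [hy'.1], hy'.2⟩
      have h4 := Q.φ_lip y hy1
      rw [abs_of_nonneg hy'.1] at h4
      have h5 := Q.φ_pos y hy1
      have h6 : 0 < Q.c - y := sub_pos.2 hy'.2
      have h7 : Q.A⁻¹ * (Q.c - y)⁻¹ ≤ (Q.φ y)⁻¹ := by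
        rw [← mul_inv]
        exact inv_anti₀ h5 h4
      linarith
  have h8 := hmono ⟨le_rfl, hcpos⟩ ⟨hx0, hx⟩ hx0
  simp only [hg, Q.τ_zero, sub_zero] at h8
  rw [mul_sub]
  linarith

/-- upper bound on the left -/
theorem Pre.τ_le {x : ℝ} (hx0 : x ≤ 0) (hx : -Q.c < x) :
    Q.τ x ≤ -(Q.A⁻¹ * (Real.log Q.c - Real.log (Q.c + x))) := by
  have hA := Q.hA
  have hcpos : 0 < Q.c := Q.hc'.trans Q.hc
  set g : ℝ → ℝ := fun x => Q.τ x - Q.A⁻¹ * Real.log (Q.c + x) with hg
  have hd : ∀ y ∈ Ioc (-Q.c) 0, HasDerivAt g ((Q.φ y)⁻¹ - Q.A⁻¹ * ((Q.c + y)⁻¹ * 1)) y := by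
    intro y hy
    have hy1 : |y| < Q.c := abs_lt.2 ⟨hy.1, by linarith [hy.2]⟩
    have h1 := Q.τ_deriv hy1
    have h2 : HasDerivAt (fun x : ℝ => Q.c + x) 1 y := by
      simpa using (hasDerivAt_id y).const_add Q.c
    have hne : Q.c + y ≠ 0 := by linarith [hy.1]
    have h3 : HasDerivAt (fun x : ℝ => Real.log (Q.c + x)) ((Q.c + y)⁻¹ * 1) y := by
      have := (Real.hasDerivAt_log hne).comp y h2
      exact this
    exact h1.sub (h3.const_mul _)
  have hmono : MonotoneOn g (Ioc (-Q.c) 0) := by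
    refine monotoneOn_of_deriv_nonneg (convex_Ioc _ _) ?_ ?_ ?_
    · intro y hy
      exact (hd y hy).continuousAt.continuousWithinAt
    · intro y hy
      exact (hd y (interior_subset hy)).differentiableAt.differentiableWithinAt
    · intro y hy
      have hy' := interior_subset hy
      rw [(hd y hy').deriv]
      have hy1 : |y| < Q.c := abs_lt.2 ⟨hy'.1, by linarith [hy'.2]⟩
      have h4 := Q.φ_lip y hy1
      rw [abs_of_nonpos hy'.2, sub_neg_eq_add] at h4
      have h5 := Q.φ_pos y hy1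
      have h6 : 0 < Q.c + y := by linarith [hy'.1]
      have h7 : Q.A⁻¹ * (Q.c + y)⁻¹ ≤ (Q.φ y)⁻¹ := by
        rw [← mul_inv]
        exact inv_anti₀ h5 h4
      linarith
  have h8 := hmono ⟨hx, hx0⟩ ⟨by linarith, le_rfl⟩ hx0
  simp only [hg, Q.τ_zero, add_zero] at h8
  rw [mul_sub]
  linarith

theorem Pre.τ_surj (t : ℝ) : ∃ x, |x| < Q.c ∧ Q.τ x = t := by
  have hA := Q.hA
  have hcpos : 0 < Q.c := Q.hc'.trans Q.hc
  -- points with large and small values
  set a : ℝ := Q.c * Real.exp (-(Q.A * |t|)) with ha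
  have ha0 : 0 < a := by positivity
  have hac : a ≤ Q.c := by
    rw [ha]
    have : Real.exp (-(Q.A * |t|)) ≤ 1 := Real.exp_le_one_iff.2 (by
      have : 0 ≤ Q.A * |t| := by positivity
      linarith)
    nlinarith
  have hlog : Q.A⁻¹ * (Real.log Q.c - Real.log a) = |t| := by
    rw [ha, Real.log_mul hcpos.ne' (Real.exp_pos _).ne', Real.log_exp]
    field_simp
    ring
  have h1 : |t| ≤ Q.τ (Q.c - a) := by
    have := Q.τ_ge (x := Q.c - a) (by linarith) (by linarith)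
    rwa [sub_sub_cancel, hlog] at this
  have h2 : Q.τ (-(Q.c - a)) ≤ -|t| := by
    have := Q.τ_le (x := -(Q.c - a)) (by linarith) (by linarith)
    rwa [show Q.c + -(Q.c - a) = a by ring, hlog] at this
  have hcont : ContinuousOn Q.τ (Icc (-(Q.c - a)) (Q.c - a)) := by
    intro y hy
    refine (Q.τ_deriv (abs_lt.2 ⟨?_, ?_⟩)).continuousAt.continuousWithinAt
    · linarith [hy.1]
    · linarith [hy.2]
  have h3 : t ∈ Icc (Q.τ (-(Q.c - a))) (Q.τ (Q.c - a)) :=
    ⟨h2.trans (neg_abs_le t), (le_abs_self t).trans h1⟩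
  obtain ⟨x, hx, hxt⟩ := intermediate_value_Icc (by linarith) hcont h3
  exact ⟨x, abs_lt.2 ⟨by linarith [hx.1], by linarith [hx.2]⟩, hxt⟩

/-- the profile -/
def Pre.prof : Prof where
  c' := Q.c'
  c := Q.c
  A := Q.A
  φ := Q.φ
  τ := Q.τ
  ρ := fun t => (Q.τ_surj t).choose
  hc' := Q.hc'
  hc := Q.hc
  hA := Q.hA.le
  φ_pos := Q.φ_pos
  φ_le := Q.φ_le
  φ_zero := Q.φ_zero
  φ_cont := Q.φ_cont
  φ_smooth := Q.φ_smooth
  φ_deriv := Q.φ_deriv
  φ_one := Q.φ_one
  φ_lip := Q.φ_lip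
  ρ_lt := fun t => (Q.τ_surj t).choose_spec.1
  ρ_deriv := by
    intro t
    have hlt : ∀ t, |(Q.τ_surj t).choose| < Q.c := fun t => (Q.τ_surj t).choose_spec.1
    have hτ : ∀ t, Q.τ (Q.τ_surj t).choose = t := fun t => (Q.τ_surj t).choose_spec.2
    set ρ : ℝ → ℝ := fun t => (Q.τ_surj t).choose with hρ
    have hmono : StrictMono ρ := by
      intro s t hst
      have h1 : Q.τ (ρ s) < Q.τ (ρ t) := by
        rw [hτ, hτ]; exact hst
      exact (Q.τ_mono.lt_iff_lt (abs_lt.1 (hlt s)) (abs_lt.1 (hlt t))).1 h1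
    have hrange : range ρ = Ioo (-Q.c) Q.c := by
      ext x
      constructor
      · rintro ⟨t, rfl⟩
        exact abs_lt.1 (hlt t)
      · intro hx
        exact ⟨Q.τ x, Q.τ_mono.injOn (abs_lt.1 (hlt _)) hx (hτ _)⟩
    have hcont : ContinuousAt ρ t := by
      refine continuousAt_of_monotoneOn_of_image_mem_nhds (s := univ)
        (hmono.monotone.monotoneOn univ) univ_mem ?_
      rw [image_univ, hrange]
      exact isOpen_Ioo.mem_nhds (abs_lt.1 (hlt t))
    have h2 := HasDerivAt.of_local_left_inverse (f := Q.τ) (g := ρ) (f' := (Q.φ (ρ t))⁻¹) (a := t)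
      hcont (Q.τ_deriv (hlt t)) (inv_ne_zero (Q.φ_pos _ (hlt t)).ne')
      (Eventually.of_forall hτ)
    rwa [inv_inv] at h2
  ρτ := by
    intro x hx
    exact Q.τ_mono.injOn (abs_lt.1 (Q.τ_surj (Q.τ x)).choose_spec.1) (abs_lt.1 hx)
      (Q.τ_surj (Q.τ x)).choose_spec.2
  τρ := fun t => (Q.τ_surj t).choose_spec.2
  τ_deriv := fun x hx => Q.τ_deriv hx
  τ_id := fun x hx => Q.τ_id hx

/-- a smooth profile function -/
def bumpφ (c' c : ℝ) (x : ℝ) : ℝ :=
  Real.smoothTransition ((c - x) / (c - c')) * Real.smoothTransition ((c + x) / (c - c'))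

theorem bumpφ_smooth (c' c : ℝ) : ContDiff ℝ ∞ (bumpφ c' c) := by
  unfold bumpφ
  refine ContDiff.mul (Real.smoothTransition.contDiff.comp ?_)
    (Real.smoothTransition.contDiff.comp ?_)
  · exact (contDiff_const.sub contDiff_id).div_const _
  · exact (contDiff_const.add contDiff_id).div_const _

theorem bumpφ_nonneg (c' c x : ℝ) : 0 ≤ bumpφ c' c x :=
  mul_nonneg (Real.smoothTransition.nonneg _) (Real.smoothTransition.nonneg _)

theorem bumpφ_le (c' c x : ℝ) : bumpφ c' c x ≤ 1 :=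
  mul_le_one₀ (Real.smoothTransition.le_one _) (Real.smoothTransition.nonneg _)
    (Real.smoothTransition.le_one _)

theorem bumpφ_le' {c' c : ℝ} (x : ℝ) :
    bumpφ c' c x ≤ Real.smoothTransition ((c - |x|) / (c - c')) := by
  rcases le_total 0 x with h | h
  · rw [abs_of_nonneg h]
    exact mul_le_of_le_one_right (Real.smoothTransition.nonneg _) (Real.smoothTransition.le_one _)
  · rw [abs_of_nonpos h, sub_neg_eq_add]
    exact mul_le_of_le_one_left (Real.smoothTransition.nonneg _) (Real.smoothTransition.le_one _)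

theorem bumpφ_zero {c' c : ℝ} (h : c' < c) {x : ℝ} (hx : c ≤ |x|) : bumpφ c' c x = 0 := by
  refine le_antisymm ?_ (bumpφ_nonneg _ _ _)
  refine (bumpφ_le' x).trans ?_
  rw [Real.smoothTransition.zero_of_nonpos]
  exact div_nonpos_of_nonpos_of_nonneg (by linarith) (by linarith)

theorem bumpφ_pos {c' c : ℝ} (h : c' < c) {x : ℝ} (hx : |x| < c) : 0 < bumpφ c' c x := by
  rw [abs_lt] at hx
  refine mul_pos (Real.smoothTransition.pos_of_pos ?_) (Real.smoothTransition.pos_of_pos ?_)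
  · exact div_pos (by linarith [hx.2]) (by linarith)
  · exact div_pos (by linarith [hx.1]) (by linarith)

theorem bumpφ_one {c' c : ℝ} (h : c' < c) {x : ℝ} (hx : |x| ≤ c') : bumpφ c' c x = 1 := by
  rw [abs_le] at hx
  unfold bumpφ
  rw [Real.smoothTransition.one_of_one_le, Real.smoothTransition.one_of_one_le, one_mul]
  · rw [le_div_iff₀ (by linarith)]
    linarith [hx.1]
  · rw [le_div_iff₀ (by linarith)]
    linarith [hx.2]

theorem bumpφ_support {c' c : ℝ} (h : c' < c) : HasCompactSupport (bumpφ c' c) := by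
  refine HasCompactSupport.intro (K := closedBall 0 c) (isCompact_closedBall _ _) fun x hx => ?_
  apply bumpφ_zero h
  rw [mem_closedBall, dist_zero_right, Real.norm_eq_abs, not_le] at hx
  exact hx.le

theorem exists_pre {c' c : ℝ} (hc' : 0 < c') (hc : c' < c) :
    ∃ Q : Pre, Q.c' = c' ∧ Q.c = c ∧ Q.φ = bumpφ c' c := by
  obtain ⟨K, hK⟩ := (bumpφ_smooth c' c).lipschitzWith_of_hasCompactSupport (bumpφ_support hc)
    (by simp)
  have hK' : ∀ x y, |bumpφ c' c x - bumpφ c' c y| ≤ (K + 1) * |x - y| := by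
    intro x y
    have := hK.dist_le_mul x y
    rw [Real.dist_eq, Real.dist_eq] at this
    refine this.trans (mul_le_mul_of_nonneg_right (by linarith) (abs_nonneg _))
  have hK0 : (0:ℝ) ≤ K := K.2
  refine ⟨{ c' := c', c := c, A := K + 1, φ := bumpφ c' c, hc' := hc', hc := hc,
            hA := by linarith
            φ_pos := fun x hx => bumpφ_pos hc hx
            φ_le := bumpφ_le c' c
            φ_zero := fun x hx => bumpφ_zero hc hx
            φ_cont := (bumpφ_smooth c' c).continuous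
            φ_smooth := fun x _ => (bumpφ_smooth c' c).contDiffAt
            φ_deriv := ?_
            φ_one := fun x hx => bumpφ_one hc hx
            φ_lip := ?_ }, rfl, rfl, rfl⟩
  · intro x _
    have h1 := norm_deriv_le_of_lipschitz (f := bumpφ c' c) (x₀ := x) hK
    rw [Real.norm_eq_abs] at h1
    linarith
  · intro x hx
    rcases le_total 0 x with h | h
    · have h1 := hK' x c
      rw [bumpφ_zero hc (x := c) (le_abs_self c), sub_zero,
        abs_of_nonneg (bumpφ_nonneg _ _ _)] at h1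
      rw [abs_of_nonneg h] at hx ⊢
      rwa [abs_of_neg (by linarith : x - c < 0), neg_sub] at h1
    · have h1 := hK' x (-c)
      rw [bumpφ_zero hc (x := -c) (by rw [abs_neg]; exact le_abs_self c), sub_zero,
        abs_of_nonneg (bumpφ_nonneg _ _ _)] at h1
      rw [abs_of_nonpos h] at hx ⊢
      rwa [abs_of_nonneg (by linarith : 0 ≤ x - -c), show x - -c = c - -x by ring] at h1

/-- smooth flat profiles exist -/
theorem exists_prof {c' c : ℝ} (hc' : 0 < c') (hc : c' < c) :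
    ∃ P : Prof, P.c' = c' ∧ P.c = c ∧ P.Flat := by
  obtain ⟨Q, h1, h2, h3⟩ := exists_pre hc' hc
  refine ⟨Q.prof, h1, h2, fun N => ?_⟩
  obtain ⟨C, hC0, hC⟩ := transition_flat N
  have hk : 0 < c - c' := by linarith
  refine ⟨C * ((c - c')⁻¹) ^ N, by positivity, fun x hx => ?_⟩
  have hx' : |x| < c := by rw [← h2]; exact hx
  have e1 : Q.prof.φ x = bumpφ c' c x := by
    show Q.φ x = _
    rw [h3]
  have e2 : Q.prof.c = c := h2
  rw [e1, e2]
  refine (bumpφ_le' x).trans ((hC _ (div_nonneg (by linarith) hk.le)).trans ?_)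
  rw [div_eq_mul_inv, mul_pow]
  exact le_of_eq (by ring)

end build

end Pool.Agent.H816
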