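import Pool.Graph.R_seed8.Y784.SH.Ext
import Pool.Agent.H816.Prof

/-!
# Horn maps: conjugation with a map which compresses the two ends of a cylinder
-/

set_option autoImplicit false

open Set Filter Topology Metric Function MeasureTheory
open scoped Manifold ContDiff NNReal

noncomputable section

namespace Pool.Agent.H816

open Pool.Agent.Y522 Pool.Agent.Y784.SH

section general

variable {n : ℕ}

theorem LD_of_bij' {H : E n → E n} {x : E n} (h : ∀ᶠ y in 𝓝 x, ContDiffAt ℝ ∞ H y)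
    (hb : Bijective (fderiv ℝ H x)) : LD n H x := by
  have hd : DifferentiableAt ℝ H x := (h.self_of_nhds).differentiableAt (by simp)
  refine LD_of_contDiffAt h (ContinuousLinearEquiv.ofBijective (fderiv ℝ H x)
    (LinearMap.ker_eq_bot.2 hb.1) (LinearMap.range_eq_top.2 hb.2)) ?_
  exact hd.hasFDerivAt

theorem LD_of_inj' {H : E n → E n} {x : E n} (h : ∀ᶠ y in 𝓝 x, ContDiffAt ℝ ∞ H y)
    (hb : Injective (fderiv ℝ H x)) : LD n H x := by
  refine LD_of_bij' h ⟨hb, ?_⟩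
  exact LinearMap.surjective_of_injective (f := (fderiv ℝ H x : E n →ₗ[ℝ] E n)) hb

/-- a smooth map with a differentiable left inverse is a local diffeomorphism -/
theorem LD_of_left_inv {f g : E n → E n} {x : E n} (hf : ∀ᶠ y in 𝓝 x, ContDiffAt ℝ ∞ f y)
    (hg : DifferentiableAt ℝ g (f x)) (hgf : ∀ᶠ y in 𝓝 x, g (f y) = y) : LD n f x := by
  refine LD_of_inj' hf ?_
  have hfd : DifferentiableAt ℝ f x := (hf.self_of_nhds).differentiableAt (by simp)
  have h1 : fderiv ℝ (fun y => g (f y)) x = (fderiv ℝ g (f x)).comp (fderiv ℝ f x) :=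
    fderiv_comp x hg hfd
  have h2 : fderiv ℝ (fun y => g (f y)) x = ContinuousLinearMap.id ℝ (E n) := by
    have h3 : (fun y => g (f y)) =ᶠ[𝓝 x] fun y => y := hgf
    rw [h3.fderiv_eq]
    exact fderiv_fun_id
  intro v w hvw
  have h4 : ∀ v, (fderiv ℝ g (f x)) (fderiv ℝ f x v) = v := fun v => by
    have := DFunLike.congr_fun (h1.symm.trans h2) v
    simpa using this
  rw [← h4 v, hvw, h4 w]

end general

section horn

variable (P : Prof) {m : ℕ}

theorem Prof.ρ_cont : Continuous P.ρ :=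
  continuous_iff_continuousAt.2 fun t => (P.ρ_deriv t).continuousAt

theorem Prof.ρ_smooth : ContDiff ℝ ∞ P.ρ := by
  rw [contDiff_infty]
  intro n
  induction n with
  | zero => exact contDiff_zero.2 P.ρ_cont
  | succ n ih =>
    have h1 : deriv P.ρ = fun t => P.φ (P.ρ t) := funext fun t => (P.ρ_deriv t).deriv
    have h2 : ((n + 1 : ℕ) : WithTop ℕ∞) = (n : WithTop ℕ∞) + 1 := by norm_cast
    rw [h2, contDiff_succ_iff_deriv]
    refine ⟨fun t => (P.ρ_deriv t).differentiableAt, ?_, ?_⟩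
    · intro h
      exact absurd h (by simp)
    · rw [h1]
      refine contDiff_iff_contDiffAt.2 fun t => ?_
      exact ((P.φ_smooth _ (P.ρ_lt t)).of_le (by exact_mod_cast le_top)).comp t ih.contDiffAt

/-- the scale -/
def Prof.M (t : ℝ) : ℝ := P.φ (P.ρ t)

theorem Prof.M_smooth : ContDiff ℝ ∞ P.M :=
  contDiff_iff_contDiffAt.2 fun t => (P.φ_smooth _ (P.ρ_lt t)).comp t P.ρ_smooth.contDiffAt

theorem Prof.M_pos (t : ℝ) : 0 < P.M t := P.φ_pos _ (P.ρ_lt t)

theorem Prof.M_le_one (t : ℝ) : P.M t ≤ 1 := P.φ_le _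

theorem Prof.M_deriv (t : ℝ) : HasDerivAt P.M (deriv P.φ (P.ρ t) * P.M t) t := by
  have h1 : HasDerivAt P.φ (deriv P.φ (P.ρ t)) (P.ρ t) :=
    ((P.φ_smooth _ (P.ρ_lt t)).differentiableAt (by simp)).hasDerivAt
  exact h1.comp t (P.ρ_deriv t)

theorem Prof.M_le (s t : ℝ) : P.M s ≤ Real.exp (P.A * |s - t|) * P.M t := by
  have hd : ∀ t ∈ (univ : Set ℝ), HasDerivWithinAt (fun t => Real.log (P.M t))
      (deriv P.φ (P.ρ t)) univ t := by
    intro t _
    have h1 := (P.M_deriv t).log (P.M_pos t).ne'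
    have h2 : deriv P.φ (P.ρ t) * P.M t / P.M t = deriv P.φ (P.ρ t) := by
      field_simp [(P.M_pos t).ne']
    rw [h2] at h1
    exact h1.hasDerivWithinAt
  have h3 := convex_univ.norm_image_sub_le_of_norm_hasDerivWithin_le hd
    (fun t _ => (Real.norm_eq_abs _).trans_le (P.φ_deriv _ (P.ρ_lt t))) (mem_univ t) (mem_univ s)
  rw [Real.norm_eq_abs, Real.norm_eq_abs] at h3
  have h4 : Real.log (P.M s) ≤ P.A * |s - t| + Real.log (P.M t) := by
    have := le_abs_self (Real.log (P.M s) - Real.log (P.M t))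
    linarith
  calc P.M s = Real.exp (Real.log (P.M s)) := (Real.exp_log (P.M_pos s)).symm
    _ ≤ Real.exp (P.A * |s - t| + Real.log (P.M t)) := Real.exp_le_exp.2 h4
    _ = _ := by rw [Real.exp_add, Real.exp_log (P.M_pos t)]

theorem Prof.ρ_sub (s t : ℝ) :
    |P.ρ s - P.ρ t| ≤ Real.exp (P.A * |s - t|) * P.M t * |s - t| := by
  have hd : ∀ r ∈ uIcc t s, HasDerivWithinAt P.ρ (P.M r) (uIcc t s) r :=
    fun r _ => (P.ρ_deriv r).hasDerivWithinAt
  have hb : ∀ r ∈ uIcc t s, ‖P.M r‖ ≤ Real.exp (P.A * |s - t|) * P.M t := by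
    intro r hr
    rw [Real.norm_of_nonneg (P.M_pos r).le]
    refine (P.M_le r t).trans ?_
    refine mul_le_mul_of_nonneg_right (Real.exp_le_exp.2 ?_) (P.M_pos t).le
    refine mul_le_mul_of_nonneg_left ?_ P.hA
    exact abs_sub_left_of_mem_uIcc hr
  have := (convex_uIcc t s).norm_image_sub_le_of_norm_hasDerivWithin_le hd hb
    left_mem_uIcc right_mem_uIcc
  rwa [Real.norm_eq_abs, Real.norm_eq_abs] at this

theorem Prof.ρ_id {t : ℝ} (ht : |t| ≤ P.c') : P.ρ t = t := by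
  have h1 := P.ρτ t (ht.trans_lt P.hc)
  rwa [P.τ_id t ht] at h1

theorem Prof.τ_smooth {x : ℝ} (hx : |x| < P.c) : ContDiffAt ℝ ∞ P.τ x := by
  have hU : IsOpen {x : ℝ | |x| < P.c} := isOpen_lt continuous_abs continuous_const
  have h1 : ContDiffOn ℝ ∞ P.τ {x : ℝ | |x| < P.c} := by
    rw [contDiffOn_infty_iff_deriv_of_isOpen hU]
    refine ⟨fun y hy => (P.τ_deriv y hy).differentiableAt.differentiableWithinAt, ?_⟩
    have h2 : ContDiffOn ℝ ∞ (fun y => (P.φ y)⁻¹) {x : ℝ | |x| < P.c} := by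
      intro y hy
      exact ((P.φ_smooth y hy).inv (P.φ_pos y hy).ne').contDiffWithinAt
    refine h2.congr fun y hy => ?_
    exact (P.τ_deriv y hy).deriv
  exact h1.contDiffAt (hU.mem_nhds hx)

/-- the compression of the ends -/
def Xi (u : E (m + 1)) : E (m + 1) := cn (P.ρ (u 0)) (P.M (u 0) • tl u)

/-- its inverse -/
def Th (v : E (m + 1)) : E (m + 1) := cn (P.τ (v 0)) ((P.φ (v 0))⁻¹ • tl v)

theorem Xi_lt (u : E (m + 1)) : |Xi P u 0| < P.c := by
  simp only [Xi, cn_zero]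
  exact P.ρ_lt _

theorem Th_Xi (u : E (m + 1)) : Th P (Xi P u) = u := by
  unfold Th Xi
  rw [cn_zero, tl_cn, P.τρ, smul_smul]
  have : (P.φ (P.ρ (u 0)))⁻¹ * P.M (u 0) = 1 := inv_mul_cancel₀ (P.M_pos _).ne'
  rw [this, one_smul, cn_tl]

theorem Xi_Th {v : E (m + 1)} (hv : |v 0| < P.c) : Xi P (Th P v) = v := by
  unfold Th Xi Prof.M
  rw [cn_zero, tl_cn, P.ρτ _ hv, smul_smul, mul_inv_cancel₀ (P.φ_pos _ hv).ne', one_smul, cn_tl]

theorem Xi_id {u : E (m + 1)} (hu : |u 0| ≤ P.c') : Xi P u = u := by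
  unfold Xi Prof.M
  rw [P.ρ_id hu, P.φ_one _ hu, one_smul, cn_tl]

theorem Th_id {u : E (m + 1)} (hu : |u 0| ≤ P.c') : Th P u = u := by
  unfold Th
  rw [P.τ_id _ hu, P.φ_one _ hu, inv_one, one_smul, cn_tl]

theorem contDiff_head : ContDiff ℝ ∞ (fun z : E (m + 1) => z 0) :=
  (EuclideanSpace.proj (𝕜 := ℝ) (0 : Fin (m + 1))).contDiff

theorem contDiff_cn' {V : Type*} [NormedAddCommGroup V] [NormedSpace ℝ V] {f : V → ℝ}
    {g : V → E m} {x : V} {k : WithTop ℕ∞} (hf : ContDiffAt ℝ k f x) (hg : ContDiffAt ℝ k g x) :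
    ContDiffAt ℝ k (fun x => cn (f x) (g x)) x := by
  have : (fun x => cn (f x) (g x)) = fun x => f x • (e0 : E (m + 1)) + inc (g x) := by
    funext y
    rw [cn_eq, inc_apply]
  rw [this]
  exact (hf.smul contDiffAt_const).add
    ((inc : E m →L[ℝ] E (m + 1)).contDiff.contDiffAt.comp x hg)

theorem Xi_smooth : ContDiff ℝ ∞ (Xi P : E (m + 1) → E (m + 1)) := by
  refine contDiff_iff_contDiffAt.2 fun u => ?_
  unfold Xi
  refine contDiff_cn' ?_ ?_
  · exact (P.ρ_smooth.comp contDiff_head).contDiffAt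
  · exact ((P.M_smooth.comp contDiff_head).smul (tl : E (m + 1) →L[ℝ] E m).contDiff).contDiffAt

theorem Th_smooth {v : E (m + 1)} (hv : |v 0| < P.c) : ContDiffAt ℝ ∞ (Th P) v := by
  unfold Th
  refine contDiff_cn' ?_ ?_
  · exact (P.τ_smooth hv).comp v contDiff_head.contDiffAt
  · have h1 : ContDiffAt ℝ ∞ (fun w : E (m + 1) => (P.φ (w 0))⁻¹) v :=
      ContDiffAt.comp (g := fun x => (P.φ x)⁻¹) v
        ((P.φ_smooth _ hv).inv (P.φ_pos _ hv).ne') contDiff_head.contDiffAt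
    exact h1.smul (tl : E (m + 1) →L[ℝ] E m).contDiff.contDiffAt

theorem isOpen_strip : IsOpen {v : E (m + 1) | |v 0| < P.c} :=
  isOpen_lt (continuous_abs.comp continuous_head) continuous_const

theorem Xi_LD (u : E (m + 1)) : LD (m + 1) (Xi P) u :=
  LD_of_left_inv (Eventually.of_forall fun _ => (Xi_smooth P).contDiffAt)
    ((Th_smooth P (Xi_lt P u)).differentiableAt (by simp)) (Eventually.of_forall (Th_Xi P))

theorem Th_LD {v : E (m + 1)} (hv : |v 0| < P.c) : LD (m + 1) (Th P) v := by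
  have h1 := LD.inverse (k := Xi P) (g := Th P) (U := univ) isOpen_univ
    (fun x _ => Xi_LD P x) (fun x _ => Th_Xi P x) (mem_univ (Th P v))
  rwa [Xi_Th P hv] at h1

/-- the horn map of `h` -/
def Hm (h : E (m + 1) → E (m + 1)) (v : E (m + 1)) : E (m + 1) :=
  if |v 0| < P.c then Xi P (h (Th P v)) else v

theorem Hm_of_lt {h : E (m + 1) → E (m + 1)} {v : E (m + 1)} (hv : |v 0| < P.c) :
    Hm P h v = Xi P (h (Th P v)) := if_pos hv

theorem Hm_of_ge {h : E (m + 1) → E (m + 1)} {v : E (m + 1)} (hv : P.c ≤ |v 0|) :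
    Hm P h v = v := if_neg (not_lt.2 hv)

theorem Hm_comp (h k : E (m + 1) → E (m + 1)) (v : E (m + 1)) :
    Hm P h (Hm P k v) = Hm P (fun x => h (k x)) v := by
  rcases lt_or_ge |v 0| P.c with hv | hv
  · rw [Hm_of_lt P (h := k) hv, Hm_of_lt P (Xi_lt P _), Th_Xi, Hm_of_lt P hv]
  · rw [Hm_of_ge P (h := k) hv, Hm_of_ge P hv, Hm_of_ge P hv]

theorem Hm_id (v : E (m + 1)) : Hm P (fun x => x) v = v := by
  rcases lt_or_ge |v 0| P.c with hv | hv
  · rw [Hm_of_lt P hv, Xi_Th P hv]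
  · rw [Hm_of_ge P hv]

theorem Hm_fix {h : E (m + 1) → E (m + 1)} {v : E (m + 1)} (hv : h (Th P v) = Th P v) :
    Hm P h v = v := by
  rcases lt_or_ge |v 0| P.c with hv' | hv'
  · rw [Hm_of_lt P hv', hv, Xi_Th P hv']
  · rw [Hm_of_ge P hv']

theorem norm_cn_le (t : ℝ) (x : E m) : ‖cn t x‖ ≤ |t| + ‖x‖ := by
  have h := norm_cn_sq t x
  have h1 : ‖cn t x‖ ^ 2 ≤ (|t| + ‖x‖) ^ 2 := by
    rw [h, add_sq, sq_abs]
    have : 0 ≤ 2 * |t| * ‖x‖ := by positivity
    linarith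
  exact le_of_sq_le_sq h1 (by positivity)

theorem cn_sub (s t : ℝ) (x y : E m) : cn s x - cn t y = cn (s - t) (x - y) := by
  ext i
  refine Fin.cases ?_ (fun i => ?_) i <;> simp

/-- bounded displacement, identity outside a cylinder -/
structure Cyl (L C : ℝ) (h : E (m + 1) → E (m + 1)) : Prop where
  hL : 0 ≤ L
  hC : 0 ≤ C
  far : ∀ u, L ≤ ‖tl u‖ → h u = u
  disp : ∀ u, ‖h u - u‖ ≤ C

variable {P} {L C : ℝ} {h : E (m + 1) → E (m + 1)}

theorem Hm_far' (hh : Cyl L C h) {v : E (m + 1)} (hv : L * P.φ (v 0) ≤ ‖tl v‖) :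
    Hm P h v = v := by
  rcases lt_or_ge |v 0| P.c with hv' | hv'
  · refine Hm_fix P (hh.far _ ?_)
    unfold Th
    rw [tl_cn, norm_smul, norm_inv, Real.norm_of_nonneg (P.φ_pos _ hv').le, ← div_eq_inv_mul,
      le_div_iff₀ (P.φ_pos _ hv')]
    exact hv
  · rw [Hm_of_ge P hv']

theorem Hm_far (hh : Cyl L C h) {v : E (m + 1)} (hv : L ≤ ‖tl v‖) :
    Hm P h v = v := by
  refine Hm_far' hh (le_trans ?_ hv)
  exact mul_le_of_le_one_right hh.hL (P.φ_le _)

/-- the displacement is bounded by the scale -/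
theorem Hm_est (P : Prof) (hh : Cyl L C h) : ∃ K : ℝ, 0 ≤ K ∧ ∀ v, ‖Hm P h v - v‖ ≤ K * P.φ (v 0) := by
  have hL := hh.hL
  have hC := hh.hC
  have hφ0 : ∀ x, 0 ≤ P.φ x := fun x => by
    rcases lt_or_ge |x| P.c with hx | hx
    · exact (P.φ_pos _ hx).le
    · rw [P.φ_zero _ hx]
  set e : ℝ := Real.exp (P.A * C) with he
  have he0 : 0 ≤ e := (Real.exp_pos _).le
  set K : ℝ := e * C + e * (L + C) + L with hK
  have hK0 : 0 ≤ K := by positivity
  refine ⟨K, hK0, fun v => ?_⟩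
  rcases lt_or_ge |v 0| P.c with hv | hv
  swap
  · rw [Hm_of_ge P hv, sub_self, norm_zero]
    exact mul_nonneg hK0 (hφ0 _)
  set u := Th P v with hu
  rcases le_total L ‖tl u‖ with hLu | hLu
  · rw [Hm_fix P (hh.far _ hLu), sub_self, norm_zero]
    exact mul_nonneg hK0 (hφ0 _)
  set s := h u with hs
  have hvu : v = Xi P u := (Xi_Th P hv).symm
  have hM : P.M (u 0) = P.φ (v 0) := by
    unfold Prof.M
    rw [hu]
    unfold Th
    rw [cn_zero, P.ρτ _ hv]
  have hd : ‖s - u‖ ≤ C := hh.disp u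
  have hd0 : |s 0 - u 0| ≤ C := by
    have h1 := abs_head_le (s - u)
    have h2 : (s - u) 0 = s 0 - u 0 := rfl
    rw [h2] at h1
    exact h1.trans hd
  have hdt : ‖tl s‖ ≤ L + C := by
    have h1 := norm_tl_le (s - u)
    rw [map_sub] at h1
    have h2 : ‖tl s‖ ≤ ‖tl u‖ + ‖tl s - tl u‖ := norm_le_insert' _ _
    linarith
  have hexp : Real.exp (P.A * |s 0 - u 0|) ≤ e :=
    Real.exp_le_exp.2 (mul_le_mul_of_nonneg_left hd0 P.hA)
  have hMs : P.M (s 0) ≤ e * P.M (u 0) :=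
    (P.M_le _ _).trans (mul_le_mul_of_nonneg_right hexp (P.M_pos _).le)
  have hρ : |P.ρ (s 0) - P.ρ (u 0)| ≤ e * P.M (u 0) * C := by
    refine (P.ρ_sub _ _).trans ?_
    exact mul_le_mul (mul_le_mul_of_nonneg_right hexp (P.M_pos _).le) hd0 (abs_nonneg _)
      (mul_nonneg he0 (P.M_pos _).le)
  have h1 : Hm P h v - v = cn (P.ρ (s 0) - P.ρ (u 0)) (P.M (s 0) • tl s - P.M (u 0) • tl u) := by
    rw [Hm_of_lt P hv, ← hu, ← hs]
    conv_lhs => rw [hvu]
    unfold Xi
    rw [cn_sub]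
  rw [h1, ← hM]
  refine (norm_cn_le _ _).trans ?_
  have h2 : ‖P.M (s 0) • tl s - P.M (u 0) • tl u‖ ≤ e * P.M (u 0) * (L + C) + P.M (u 0) * L := by
    refine (norm_sub_le _ _).trans (add_le_add ?_ ?_)
    · rw [norm_smul, Real.norm_of_nonneg (P.M_pos _).le]
      exact mul_le_mul hMs hdt (norm_nonneg _) (mul_nonneg he0 (P.M_pos _).le)
    · rw [norm_smul, Real.norm_of_nonneg (P.M_pos _).le]
      exact mul_le_mul_of_nonneg_left hLu (P.M_pos _).le
  calc |P.ρ (s 0) - P.ρ (u 0)| + ‖P.M (s 0) • tl s - P.M (u 0) • tl u‖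
      ≤ e * P.M (u 0) * C + (e * P.M (u 0) * (L + C) + P.M (u 0) * L) := add_le_add hρ h2
    _ = K * P.M (u 0) := by rw [hK]; ring

theorem Hm_agree {v : E (m + 1)} (h1 : |v 0| ≤ P.c') (h2 : |h v 0| ≤ P.c') :
    Hm P h v = h v := by
  rw [Hm_of_lt P (h1.trans_lt P.hc), Th_id P h1, Xi_id P h2]

theorem Hm_cont (hh : Cyl L C h) (hc : Continuous h) : Continuous (Hm P h) := by
  refine continuous_iff_continuousAt.2 fun v => ?_
  rcases lt_or_ge |v 0| P.c with hv | hv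
  · have h1 : ContinuousAt (fun w => Xi P (h (Th P w))) v := by
      have h2 : ContinuousAt (Th P) v := (Th_smooth P hv).continuousAt
      exact (Xi_smooth P).continuous.continuousAt.comp
        (ContinuousAt.comp (hc.continuousAt (x := Th P v)) h2)
    refine h1.congr ?_
    filter_upwards [(isOpen_strip P).mem_nhds hv] with w hw
    exact (Hm_of_lt P hw).symm
  · obtain ⟨K, hK0, hK⟩ := Hm_est P hh
    have h1 : Tendsto (fun w => Hm P h w - w) (𝓝 v) (𝓝 0) := by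
      have h2 : Tendsto (fun w : E (m + 1) => K * P.φ (w 0)) (𝓝 v) (𝓝 0) := by
        have h3 : Continuous (fun w : E (m + 1) => K * P.φ (w 0)) :=
          continuous_const.mul (P.φ_cont.comp continuous_head)
        have h4 := h3.tendsto v
        rwa [P.φ_zero _ hv, mul_zero] at h4
      exact squeeze_zero_norm hK h2
    have h2 : Tendsto (fun w => (Hm P h w - w) + w) (𝓝 v) (𝓝 (0 + v)) := h1.add tendsto_id
    simp only [sub_add_cancel, zero_add] at h2
    rw [ContinuousAt, Hm_of_ge P hv]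
    exact h2

theorem Hm_LD (hh : Cyl L C h) (hd : ∀ u, LD (m + 1) h u) {v : E (m + 1)}
    (hv : |v 0| ≠ P.c ∨ tl v ≠ 0) : LD (m + 1) (Hm P h) v := by
  rcases lt_or_ge |v 0| P.c with hv' | hv'
  · have h1 : LD (m + 1) (fun w => Xi P (h (Th P w))) v :=
      LD.comp_fun (g := Xi P) (Xi_LD P _) (LD.comp_fun (g := h) (hd _) (Th_LD P hv'))
    refine h1.congr ?_
    filter_upwards [(isOpen_strip P).mem_nhds hv'] with w hw
    exact Hm_of_lt P hw
  · refine (LD.id v).congr ?_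
    rcases hv'.lt_or_eq with hlt | heq
    · have : IsOpen {w : E (m + 1) | P.c < |w 0|} :=
        isOpen_lt continuous_const (continuous_abs.comp continuous_head)
      filter_upwards [this.mem_nhds hlt] with w hw
      have hw' : P.c < |w 0| := hw
      exact Hm_of_ge P hw'.le
    · have htl : tl v ≠ 0 := by
        rcases hv with h1 | h1
        · exact absurd heq.symm h1
        · exact h1
      have hcont : Continuous (fun w : E (m + 1) => L * P.φ (w 0) - ‖tl w‖) :=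
        (continuous_const.mul (P.φ_cont.comp continuous_head)).sub tl.continuous.norm
      have hneg : L * P.φ (v 0) - ‖tl v‖ < 0 := by
        rw [P.φ_zero _ hv', mul_zero, zero_sub, neg_lt_zero]
        exact norm_pos_iff.2 htl
      filter_upwards [(hcont.continuousAt (x := v)).eventually_lt continuousAt_const hneg] with w hw
      exact Hm_far' hh (by linarith)

/-- flatness at the two apices -/
theorem Hm_flat (hP : P.Flat) (hh : Cyl L C h) (N : ℕ) : ∃ K : ℝ, 0 ≤ K ∧ ∀ v : E (m + 1),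
    ‖Hm P h v - v‖ ≤ K * ‖v - cn P.c 0‖ ^ N ∧ ‖Hm P h v - v‖ ≤ K * ‖v - cn (-P.c) 0‖ ^ N := by
  obtain ⟨K, hK0, hK⟩ := Hm_est P hh
  obtain ⟨C', hC0, hC'⟩ := hP N
  have key : ∀ (v : E (m + 1)) (a : ℝ), |a| = P.c → ‖Hm P h v - v‖ ≤ K * C' * ‖v - cn a 0‖ ^ N := by
    intro v a ha
    rcases lt_or_ge |v 0| P.c with hv | hv
    swap
    · rw [Hm_of_ge P hv, sub_self, norm_zero]
      positivity
    have h1 : P.c - |v 0| ≤ ‖v - cn a 0‖ := by
      have h2 := abs_head_le (v - cn a 0)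
      have h3 : (v - (cn a 0 : E (m + 1))) 0 = v 0 - a := rfl
      rw [h3] at h2
      have h4 := abs_sub_abs_le_abs_sub a (v 0)
      rw [abs_sub_comm a] at h4
      linarith
    calc ‖Hm P h v - v‖ ≤ K * P.φ (v 0) := hK v
      _ ≤ K * (C' * (P.c - |v 0|) ^ N) := mul_le_mul_of_nonneg_left (hC' _ hv) hK0
      _ ≤ K * (C' * ‖v - cn a 0‖ ^ N) := by
        refine mul_le_mul_of_nonneg_left (mul_le_mul_of_nonneg_left ?_ hC0) hK0
        exact pow_le_pow_left₀ (by linarith) h1 N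
      _ = _ := by ring
  have hcpos : 0 < P.c := P.hc'.trans P.hc
  exact ⟨K * C', mul_nonneg hK0 hC0, fun v => ⟨key v _ (abs_of_pos hcpos),
    key v _ (by rw [abs_neg, abs_of_pos hcpos])⟩⟩

end horn

end Pool.Agent.H816
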