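import Pool.Graph.R_seed8.Y522.Tools
import Pool.Graph.R_seed8.Y522.Sch
import Pool.Agent.H816.Horn

/-!
# Families of maps of euclidean space: regular points and inverses
-/

set_option autoImplicit false

open Set Filter Topology Metric Function
open scoped Manifold ContDiff

noncomputable section

namespace Pool.Agent.H816.Fam

open Pool.Agent.Y522

/-- local inverse in a complete space, smooth near the point -/
theorem exists_smooth_inv {V : Type*} [NormedAddCommGroup V] [NormedSpace ℝ V] [CompleteSpace V]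
    {T : V → V} {z : V} (hT : ∀ᶠ w in 𝓝 z, ContDiffAt ℝ ∞ T w) (A : V ≃L[ℝ] V)
    (hA : HasFDerivAt T (A : V →L[ℝ] V) z) :
    ∃ S : V → V, (∀ᶠ w in 𝓝 (T z), ContDiffAt ℝ ∞ S w) ∧ S (T z) = z ∧
      (∀ᶠ w in 𝓝 z, S (T w) = w) ∧ ∀ᶠ w in 𝓝 (T z), T (S w) = w := by
  have hn : (∞ : WithTop ℕ∞) ≠ 0 := by simp
  have hfx : ContDiffAt ℝ ∞ T z := hT.self_of_nhds
  set Φ := hfx.toOpenPartialHomeomorph T hA hn with hΦ
  have hxs : z ∈ Φ.source := hfx.mem_toOpenPartialHomeomorph_source hA hn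
  have hcoe : (Φ : V → V) = T := hfx.toOpenPartialHomeomorph_coe hA hn
  have hfd : fderiv ℝ T z = A := hA.fderiv
  have hcont : ContinuousAt (fderiv ℝ T) z :=
    (hfx.fderiv_right (m := 0) (by simp)).continuousAt
  have h2 : ∀ᶠ y in 𝓝 z, fderiv ℝ T y ∈ range ((↑) : (V ≃L[ℝ] V) → (V →L[ℝ] V)) := by
    apply hcont
    rw [hfd]
    exact ContinuousLinearEquiv.nhds A
  have hTz : T z ∈ Φ.target := by
    have := Φ.map_source hxs
    rwa [hcoe] at this
  have hsz : Φ.symm (T z) = z := by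
    have := Φ.left_inv hxs
    rwa [hcoe] at this
  refine ⟨Φ.symm, ?_, hsz, ?_, ?_⟩
  · have h3 : ∀ᶠ w in 𝓝 (T z), ContDiffAt ℝ ∞ T (Φ.symm w) ∧
        fderiv ℝ T (Φ.symm w) ∈ range ((↑) : (V ≃L[ℝ] V) → (V →L[ℝ] V)) := by
      have h4 : ContinuousAt Φ.symm (T z) := Φ.continuousAt_symm hTz
      have h5 := h4.eventually (p := fun y => ContDiffAt ℝ ∞ T y ∧
        fderiv ℝ T y ∈ range ((↑) : (V ≃L[ℝ] V) → (V →L[ℝ] V))) (by rw [hsz]; exact hT.and h2)
      exact h5
    filter_upwards [h3, Φ.open_target.mem_nhds hTz] with w hw hw'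
    obtain ⟨h6, B, hB⟩ := hw
    have h7 : HasFDerivAt Φ (B : V →L[ℝ] V) (Φ.symm w) := by
      rw [hcoe, hB]
      exact (h6.differentiableAt hn).hasFDerivAt
    have h9 : ContDiffAt ℝ ∞ Φ (Φ.symm w) := by
      rw [hcoe]
      exact h6
    exact Φ.contDiffAt_symm hw' h7 h9
  · filter_upwards [Φ.open_source.mem_nhds hxs] with w hw
    have := Φ.left_inv hw
    rwa [hcoe] at this
  · filter_upwards [Φ.open_target.mem_nhds hTz] with w hw
    have := Φ.right_inv hw
    rwa [hcoe] at this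

variable {P : Type*} [NormedAddCommGroup P] [NormedSpace ℝ P] {n : ℕ}

/-- a regular point of a family of maps: the family is smooth near the point, and the map is a
local diffeomorphism there -/
def Reg (G : P × E n → E n) (z : P × E n) : Prop :=
  (∀ᶠ w in 𝓝 z, ContDiffAt ℝ ∞ G w) ∧ LD n (fun x => G (z.1, x)) z.2

theorem Reg.smooth {G : P × E n → E n} {z : P × E n} (h : Reg G z) : ContDiffAt ℝ ∞ G z :=
  h.1.self_of_nhds

theorem Reg.cont {G : P × E n → E n} {z : P × E n} (h : Reg G z) : ContinuousAt G z :=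
  h.smooth.continuousAt

theorem slice_smooth {G : P × E n → E n} {z : P × E n} (h : ContDiffAt ℝ ∞ G z) :
    ContDiffAt ℝ ∞ (fun x => G (z.1, x)) z.2 := by
  have h1 : ContDiffAt ℝ ∞ (fun x : E n => ((z.1, x) : P × E n)) z.2 :=
    contDiffAt_const.prodMk contDiffAt_id
  exact ContDiffAt.comp (g := G) z.2 h h1

theorem slice_fderiv {G : P × E n → E n} {z : P × E n} (h : DifferentiableAt ℝ G z) :
    fderiv ℝ (fun x => G (z.1, x)) z.2 =
      (fderiv ℝ G z).comp (ContinuousLinearMap.inr ℝ P (E n)) := by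
  have h1 : HasFDerivAt (fun x : E n => ((z.1, x) : P × E n))
      (ContinuousLinearMap.inr ℝ P (E n)) z.2 := by
    have h2 := (hasFDerivAt_const z.1 z.2).prodMk (hasFDerivAt_id (𝕜 := ℝ) z.2)
    refine h2.congr_fderiv ?_
    ext v <;> simp
  have h2 : HasFDerivAt G (fderiv ℝ G z) (z.1, z.2) := h.hasFDerivAt
  exact (h2.comp z.2 h1).fderiv

theorem reg_iff {G : P × E n → E n} {z : P × E n} : Reg G z ↔
    (∀ᶠ w in 𝓝 z, ContDiffAt ℝ ∞ G w) ∧
      Bijective ((fderiv ℝ G z).comp (ContinuousLinearMap.inr ℝ P (E n))) := by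
  constructor
  · intro h
    refine ⟨h.1, ?_⟩
    rw [← slice_fderiv (h.smooth.differentiableAt (by simp))]
    exact h.2.bij.2
  · intro h
    refine ⟨h.1, ?_⟩
    have h1 : ∀ᶠ y in 𝓝 z.2, ContDiffAt ℝ ∞ (fun x => G (z.1, x)) y := by
      have h2 : Tendsto (fun x : E n => ((z.1, x) : P × E n)) (𝓝 z.2) (𝓝 z) :=
        (Continuous.prodMk_right z.1).tendsto z.2
      filter_upwards [h2.eventually h.1] with y hy
      exact slice_smooth (z := (z.1, y)) hy
    refine LD_of_bij h1 ?_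
    rw [slice_fderiv ((h.1.self_of_nhds).differentiableAt (by simp))]
    exact h.2

theorem Reg.eventually {G : P × E n → E n} {z : P × E n} (h : Reg G z) :
    ∀ᶠ w in 𝓝 z, Reg G w := by
  have h0 := reg_iff.1 h
  have hc : ContinuousAt (fun w => (fderiv ℝ G w).comp (ContinuousLinearMap.inr ℝ P (E n))) z :=
    ((h.smooth.fderiv_right (m := 0) (by simp)).continuousAt).clm_comp continuousAt_const
  obtain ⟨A, hA⟩ : ∃ A : E n ≃L[ℝ] E n, (A : E n →L[ℝ] E n) =
      (fderiv ℝ G z).comp (ContinuousLinearMap.inr ℝ P (E n)) :=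
    ⟨ContinuousLinearEquiv.ofBijective _ (LinearMap.ker_eq_bot.2 h0.2.1)
      (LinearMap.range_eq_top.2 h0.2.2), ContinuousLinearEquiv.coe_ofBijective _ _ _⟩
  have h2 : ∀ᶠ w in 𝓝 z, (fderiv ℝ G w).comp (ContinuousLinearMap.inr ℝ P (E n)) ∈
      range ((↑) : (E n ≃L[ℝ] E n) → (E n →L[ℝ] E n)) := by
    apply hc
    show range ((↑) : (E n ≃L[ℝ] E n) → (E n →L[ℝ] E n)) ∈
      𝓝 ((fderiv ℝ G z).comp (ContinuousLinearMap.inr ℝ P (E n)))
    rw [← hA]
    exact ContinuousLinearEquiv.nhds A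
  filter_upwards [h.1.eventually_nhds, h2] with w hw1 hw2
  obtain ⟨B, hB⟩ := hw2
  refine reg_iff.2 ⟨hw1, ?_⟩
  rw [← hB]
  exact B.bijective

theorem Reg.congr {G G' : P × E n → E n} {z : P × E n} (h : Reg G z) (he : G' =ᶠ[𝓝 z] G) :
    Reg G' z := by
  have h2 : Tendsto (fun x : E n => ((z.1, x) : P × E n)) (𝓝 z.2) (𝓝 z) :=
    (Continuous.prodMk_right z.1).tendsto z.2
  refine ⟨?_, h.2.congr (h2.eventually he)⟩
  filter_upwards [h.1, he.eventually_nhds] with w hw1 hw2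
  exact hw1.congr_of_eventuallyEq hw2

/-- the projection -/
theorem Reg.snd (z : P × E n) : Reg (fun w : P × E n => w.2) z :=
  ⟨Eventually.of_forall fun _ => contDiffAt_snd, LD.id z.2⟩

/-- composition of families -/
theorem Reg.comp {G R : P × E n → E n} {z : P × E n} (hG : Reg G (z.1, R z)) (hR : Reg R z) :
    Reg (fun w => G (w.1, R w)) z := by
  constructor
  · have hc : Tendsto (fun w : P × E n => (w.1, R w)) (𝓝 z) (𝓝 (z.1, R z)) :=
      continuousAt_fst.prodMk hR.cont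
    filter_upwards [hR.1, hc.eventually hG.1] with w hw1 hw2
    exact ContDiffAt.comp (g := G) w hw2 (contDiffAt_fst.prodMk hw1)
  · exact LD.comp_fun (g := fun y => G (z.1, y)) (f := fun x => R (z.1, x)) hG.2 hR.2

/-- composition with a fixed map -/
theorem Reg.comp_left {K : E n → E n} {R : P × E n → E n} {z : P × E n} (hK : LD n K (R z))
    (hR : Reg R z) : Reg (fun w => K (R w)) z := by
  have h1 : Reg (fun w : P × E n => K w.2) (z.1, R z) := by
    refine ⟨?_, hK⟩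
    have hc : Tendsto (fun w : P × E n => w.2) (𝓝 (z.1, R z)) (𝓝 (R z)) := continuousAt_snd
    filter_upwards [hc.eventually hK.eventually] with w hw
    exact ContDiffAt.comp (g := K) w hw.contDiffAt contDiffAt_snd
  exact Reg.comp (G := fun w : P × E n => K w.2) h1 hR

/-- the inverse of a family near a regular point -/
theorem Reg.exists_inv [FiniteDimensional ℝ P] {G : P × E n → E n} {z : P × E n} (h : Reg G z) :
    ∃ I : P × E n → E n, Reg I (z.1, G z) ∧ I (z.1, G z) = z.2 ∧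
      (∀ᶠ w in 𝓝 z, I (w.1, G w) = w.2) ∧ ∀ᶠ w in 𝓝 (z.1, G z), G (w.1, I w) = w.2 := by
  have : CompleteSpace (P × E n) := FiniteDimensional.complete ℝ _
  obtain ⟨T, hT⟩ : ∃ T : P × E n → P × E n, T = fun w => (w.1, G w) := ⟨_, rfl⟩
  have hTs : ∀ᶠ w in 𝓝 z, ContDiffAt ℝ ∞ T w := by
    filter_upwards [h.1] with w hw
    rw [hT]
    exact contDiffAt_fst.prodMk hw
  obtain ⟨D, hD⟩ : ∃ D : (P × E n) →L[ℝ] (P × E n),
    D = (ContinuousLinearMap.fst ℝ P (E n)).prod (fderiv ℝ G z) := ⟨_, rfl⟩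
  have hTd : HasFDerivAt T D z := by
    rw [hT, hD]
    exact hasFDerivAt_fst.prodMk (h.smooth.differentiableAt (by simp)).hasFDerivAt
  have hinj : Injective D := by
    rw [injective_iff_map_eq_zero]
    rintro ⟨p, v⟩ hpv
    rw [hD] at hpv
    have h1 : p = 0 := congrArg Prod.fst hpv
    have h2 : fderiv ℝ G z (p, v) = 0 := congrArg Prod.snd hpv
    rw [h1] at h2
    have h3 : ((fderiv ℝ G z).comp (ContinuousLinearMap.inr ℝ P (E n))) v = 0 := h2
    have h4 : v = 0 := (reg_iff.1 h).2.1 (h3.trans (map_zero _).symm)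
    rw [h1, h4]
    rfl
  have hsurj : Surjective D :=
    LinearMap.surjective_of_injective (f := (D : (P × E n) →ₗ[ℝ] (P × E n))) hinj
  obtain ⟨S, hS1, hS2, hS3, hS4⟩ := exists_smooth_inv hTs
    (ContinuousLinearEquiv.ofBijective D (LinearMap.ker_eq_bot.2 hinj)
      (LinearMap.range_eq_top.2 hsurj)) (by rw [ContinuousLinearEquiv.coe_ofBijective]; exact hTd)
  have hTz : T z = (z.1, G z) := by rw [hT]
  rw [hTz] at hS1 hS2 hS4
  have hS5 : ∀ᶠ w in 𝓝 (z.1, G z), (S w).1 = w.1 ∧ G (w.1, (S w).2) = w.2 := by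
    filter_upwards [hS4] with w hw
    rw [hT] at hw
    have hw' : ((S w).1, G (S w)) = w := hw
    have h1 : (S w).1 = w.1 := (Prod.ext_iff.1 hw').1
    have h2 : G (S w) = w.2 := (Prod.ext_iff.1 hw').2
    refine ⟨h1, ?_⟩
    rw [← h1]
    exact h2
  have hI1 : ∀ᶠ w in 𝓝 (z.1, G z), ContDiffAt ℝ ∞ (fun w => (S w).2) w :=
    hS1.mono fun w hw => hw.snd
  have hS2' : (S (z.1, G z)).2 = z.2 := by rw [hS2]
  refine ⟨fun w => (S w).2, ⟨hI1, ?_⟩, hS2', ?_, hS5.mono fun w hw => hw.2⟩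
  · have ht : Tendsto (fun x : E n => ((z.1, x) : P × E n)) (𝓝 (G z)) (𝓝 (z.1, G z)) :=
      (Continuous.prodMk_right z.1).tendsto (G z)
    refine Pool.Agent.H816.LD_of_left_inv (g := fun x => G (z.1, x)) ?_ ?_ ?_
    · filter_upwards [ht.eventually hI1] with y hy
      exact slice_smooth (G := fun w => (S w).2) (z := (z.1, y)) hy
    · show DifferentiableAt ℝ (fun x => G (z.1, x)) (S (z.1, G z)).2
      rw [hS2']
      exact (slice_smooth h.smooth).differentiableAt (by simp)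
    · filter_upwards [ht.eventually hS5] with y hy
      exact hy.2
  · filter_upwards [hS3] with w hw
    show (S (w.1, G w)).2 = w.2
    rw [hT] at hw
    rw [hw]

/-- a family of inverses is regular -/
theorem Reg.inverse [FiniteDimensional ℝ P] {G g : P × E n → E n} {z : P × E n} (h : Reg G z)
    (hg : ∀ᶠ w in 𝓝 z, g (w.1, G w) = w.2) : Reg g (z.1, G z) := by
  obtain ⟨I, hI1, hI2, hI3, hI4⟩ := h.exists_inv
  refine hI1.congr ?_
  have hc : Tendsto (fun w : P × E n => (w.1, I w)) (𝓝 (z.1, G z)) (𝓝 z) := by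
    have h3 : Tendsto (fun w : P × E n => (w.1, I w)) (𝓝 (z.1, G z)) (𝓝 (z.1, I (z.1, G z))) :=
      (continuousAt_fst (p := ((z.1, G z) : P × E n))).prodMk hI1.cont
    rw [hI2] at h3
    exact h3
  filter_upwards [hI4, hc.eventually hg] with w hw1 hw2
  rw [hw1] at hw2
  exact hw2

end Pool.Agent.H816.Fam
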