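import Pool.Agent.H816.Fam9

/-!
# Families of maps of manifolds: all the singular points
-/

set_option autoImplicit false

open Set Filter Topology Metric Function
open scoped Manifold ContDiff

noncomputable section

namespace Pool.Agent.H816.Fam

open Pool.Agent.Y522

section defs

variable {n : ℕ} {P : Type*} [NormedAddCommGroup P] [NormedSpace ℝ P]
  {X Y : Type*} [TopologicalSpace X] [ChartedSpace (E n) X] [TopologicalSpace Y]
  [ChartedSpace (E n) Y]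

/-- the family has the property `Q` at the point, in coordinates -/
def InCo (Q : (P × E n → E n) → Prop) (F : P → X → Y) (z : P × X) : Prop :=
  ∃ (A : E n → X) (B : Y → E n), A 0 = z.2 ∧ LD n A 0 ∧ LD n B (F z.1 z.2) ∧
    Q fun w => B (F (z.1 + w.1) (A w.2))

theorem phi_tendsto {s0 : P} {A : E n → X} (hA : LD n A 0) :
    Tendsto (fun w : P × E n => ((s0 + w.1, A w.2) : P × X)) (𝓝 0) (𝓝 (s0, A 0)) := by
  have h1 : ContinuousAt (fun w : P × E n => A w.2) (0, 0) :=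
    ContinuousAt.comp (g := A) (f := fun w : P × E n => w.2) hA.continuousAt continuousAt_snd
  have h2 : Tendsto (fun w : P × E n => ((s0 + w.1, A w.2) : P × X)) (𝓝 (0, 0))
      (𝓝 (s0 + (0 : P), A 0)) := (continuousAt_const.add continuousAt_fst).prodMk h1
  rwa [add_zero] at h2

theorem InCo.congr {Q : (P × E n → E n) → Prop}
    (hQ : ∀ {g g' : P × E n → E n}, Q g → g' =ᶠ[𝓝 0] g → Q g') {F F' : P → X → Y} {z : P × X}
    (h : InCo Q F z) (he : ∀ᶠ w in 𝓝 z, F' w.1 w.2 = F w.1 w.2) : InCo Q F' z := by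
  obtain ⟨A, B, hA0, hA, hB, hq⟩ := h
  refine ⟨A, B, hA0, hA, ?_, hQ hq ?_⟩
  · rw [he.self_of_nhds]
    exact hB
  · have h1 := phi_tendsto (s0 := z.1) hA
    rw [hA0] at h1
    filter_upwards [h1.eventually he] with w hw
    rw [hw]

theorem Lit.congr {η : ℝ → ℝ} {g g' : P × E n → E n} (h : Lit η g) (he : g' =ᶠ[𝓝 0] g) :
    Lit η g' := by
  obtain ⟨T, hT⟩ := h
  have h1 : ∀ᶠ z in 𝓝[≠] (0 : P × E n), g' =ᶠ[𝓝 z] g := nhdsWithin_le_nhds he.eventually_nhds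
  refine ⟨T, hT.reg, ?_, ?_, ?_⟩
  · obtain ⟨C, hC⟩ := hT.contact
    refine ⟨C, ?_⟩
    filter_upwards [hC, h1] with z hz1 hz2
    rw [hz2.self_of_nhds]
    exact hz1
  · filter_upwards [hT.smooth, h1] with z hz1 hz2
    exact hz1.congr_of_eventuallyEq hz2
  · refine hT.bd.congr' ?_
    filter_upwards [h1] with z hz
    rw [(hz.iteratedFDeriv (𝕜 := ℝ) 2).self_of_nhds]

/-- the step of the induction -/
def Step (n : ℕ) {P : Type*} [NormedAddCommGroup P] [NormedSpace ℝ P] {X Y : Type*}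
    [TopologicalSpace X] [ChartedSpace (E n) X] [TopologicalSpace Y] [ChartedSpace (E n) Y]
    (D Q : (P → X → Y) → P × X → Prop) : Prop :=
  ∀ (F : P → X → Y) (p : P × X), IsHomeomorph (tot F) → (∀ᶠ z in 𝓝[≠] p, MReg n F z) → D F p →
    ∀ (V : Set (P × X)) (O : Set ((P × X) × Y)), V ∈ 𝓝 p → O ∈ 𝓝 (p, F p.1 p.2) →
    ∃ (F' : P → X → Y) (K : Set (P × X)), IsHomeomorph (tot F') ∧ p ∈ K ∧ K ⊆ V ∧
      (∀ z, z ∉ K → ∀ᶠ w in 𝓝 z, F' w.1 w.2 = F w.1 w.2) ∧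
      (∀ z ∈ K, (z, F' z.1 z.2) ∈ O) ∧ (∀ z ∈ K, z ≠ p → MReg n F' z) ∧ Q F' p

/-- isolated singular points -/
theorem iso_of_finite [T1Space P] [T1Space X] {F : P → X → Y} (hfin : {z | ¬ MReg n F z}.Finite)
    (p : P × X) : ∀ᶠ z in 𝓝[≠] p, MReg n F z := by
  have h1 : IsClosed ({z | ¬ MReg n F z} \ {p}) := (hfin.subset diff_subset).isClosed
  have h2 : p ∉ {z | ¬ MReg n F z} \ {p} := fun h => h.2 rfl
  rw [eventually_nhdsWithin_iff]
  filter_upwards [h1.isOpen_compl.mem_nhds h2] with x hx hxp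
  by_contra hcon
  exact hx ⟨hcon, hxp⟩

theorem induct [T2Space X] {D Q : (P → X → Y) → P × X → Prop}
    (hDc : ∀ {F F' : P → X → Y} {z}, D F z → (∀ᶠ w in 𝓝 z, F' w.1 w.2 = F w.1 w.2) → D F' z)
    (hQc : ∀ {F F' : P → X → Y} {z}, Q F z → (∀ᶠ w in 𝓝 z, F' w.1 w.2 = F w.1 w.2) → Q F' z)
    (hMQ : ∀ {F : P → X → Y} {z}, MReg n F z → Q F z) (hst : Step n D Q)
    {V : Set (P × X)} (hV : IsOpen V) {O : Set ((P × X) × Y)} (hO : IsOpen O) (k : ℕ) :
    ∀ {F : P → X → Y}, IsHomeomorph (tot F) → (∀ z, (z, F z.1 z.2) ∈ O) →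
    {z | ¬ MReg n F z}.Finite → {z | ¬ Q F z}.ncard ≤ k → {z | ¬ Q F z} ⊆ V →
    (∀ z, ¬ Q F z → D F z) →
    ∃ F' : P → X → Y, IsHomeomorph (tot F') ∧ (∀ z, (z, F' z.1 z.2) ∈ O) ∧
      {z | ¬ MReg n F' z} ⊆ {z | ¬ MReg n F z} ∧
      (∀ z, z ∉ V → ∀ᶠ w in 𝓝 z, F' w.1 w.2 = F w.1 w.2) ∧ ∀ z, Q F' z := by
  induction k with
  | zero =>
    intro F hF hFO hfin hk hS hD
    refine ⟨F, hF, hFO, Subset.rfl, fun z _ => Eventually.of_forall fun _ => rfl, fun z => ?_⟩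
    have hfinQ : {z | ¬ Q F z}.Finite := hfin.subset fun z hz h => hz (hMQ h)
    rw [Nat.le_zero, Set.ncard_eq_zero hfinQ] at hk
    by_contra hcon
    have : z ∈ {z | ¬ Q F z} := hcon
    rw [hk] at this
    exact this
  | succ k ih =>
    intro F hF hFO hfin hk hS hD
    have hfinQ : {z | ¬ Q F z}.Finite := hfin.subset fun z hz h => hz (hMQ h)
    rcases Set.eq_empty_or_nonempty {z | ¬ Q F z} with he | hne
    · exact ih hF hFO hfin (by rw [he, Set.ncard_empty]; omega) hS hD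
    obtain ⟨p, hp⟩ := hne
    obtain ⟨F', K, h1, h2, h3, h4, h5, h6, h7⟩ := hst F p hF (iso_of_finite hfin p) (hD p hp) V O
      (hV.mem_nhds (hS hp)) (hO.mem_nhds (hFO p))
    have hFO' : ∀ z, (z, F' z.1 z.2) ∈ O := by
      intro z
      by_cases hz : z ∈ K
      · exact h5 z hz
      · rw [(h4 z hz).self_of_nhds]
        exact hFO z
    have hsub : {z | ¬ MReg n F' z} ⊆ {z | ¬ MReg n F z} := by
      intro z hz
      by_cases hzK : z ∈ K
      · by_cases hzp : z = p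
        · rw [hzp]
          exact fun h => hp (hMQ h)
        · exact absurd (h6 z hzK hzp) hz
      · exact fun h => hz (h.congr (h4 z hzK))
    have hfin' : {z | ¬ MReg n F' z}.Finite := hfin.subset hsub
    have hsubQ : {z | ¬ Q F' z} ⊆ {z | ¬ Q F z} \ {p} := by
      intro z hz
      by_cases hzK : z ∈ K
      · by_cases hzp : z = p
        · rw [hzp] at hz
          exact absurd h7 hz
        · exact absurd (hMQ (h6 z hzK hzp)) hz
      · refine ⟨fun h => hz (hQc h (h4 z hzK)), ?_⟩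
        intro hzp
        rw [mem_singleton_iff] at hzp
        rw [hzp] at hzK
        exact hzK h2
    have hcard : {z | ¬ Q F' z}.ncard ≤ k := by
      have e1 := Set.ncard_le_ncard hsubQ (hfinQ.subset diff_subset)
      have e2 := Set.ncard_diff_singleton_add_one hp hfinQ
      omega
    have hD' : ∀ z, ¬ Q F' z → D F' z := by
      intro z hz
      have hzK : z ∉ K := by
        intro hzK
        by_cases hzp : z = p
        · rw [hzp] at hz
          exact hz h7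
        · exact hz (hMQ (h6 z hzK hzp))
      exact hDc (hD z (hsubQ hz).1) (h4 z hzK)
    obtain ⟨F'', i1, i2, i3, i4, i5⟩ := ih h1 hFO' hfin' hcard
      (hsubQ.trans (diff_subset.trans hS)) hD'
    refine ⟨F'', i1, i2, i3.trans hsub, fun z hz => ?_, i5⟩
    have hzK : z ∉ K := fun h => hz (h3 h)
    filter_upwards [i4 z hz, h4 z hzK] with w hw1 hw2
    rw [hw1, hw2]

end defs

section steps

variable {n : ℕ} {P : Type*} [NormedAddCommGroup P] [InnerProductSpace ℝ P]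
  [FiniteDimensional ℝ P]
  {X Y : Type*} [TopologicalSpace X] [ChartedSpace (E n) X] [TopologicalSpace Y]
  [ChartedSpace (E n) Y] [T2Space X] [T2Space Y]

/-- coordinates exist -/
theorem exists_coord [IsManifold (𝓡 n) ∞ X] (x : X) : ∃ A : E n → X, A 0 = x ∧ LD n A 0 := by
  obtain ⟨c, hc0, -, hc, -⟩ := cell_exists (n := n) (x := x) (W := univ) univ_mem
  exact ⟨c, hc0, hc 0⟩

theorem step_big [Nontrivial P] [IsManifold (𝓡 n) ∞ X] [IsManifold (𝓡 n) ∞ Y] {η : ℝ → ℝ} {κ : ℝ}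
    (hg : Gauge η κ) (hη : Tendsto (fun r => η r / r) (𝓝[>] 0) (𝓝 0)) :
    Step (X := X) (Y := Y) n (fun (_ : P → X → Y) (_ : P × X) => True)
      (fun F z => MReg n F z ∨ (InCo (n := n) (Big η) F z ∧ LD n (F z.1) z.2)) := by
  intro F p hF hp _ V O hV hO
  obtain ⟨s0, x0⟩ := p
  obtain ⟨A, hA0, hA⟩ := exists_coord (n := n) x0
  have hB : LD n (chartAt (E n) (F s0 x0) : Y → E n) (F s0 x0) := LD_chart' (n := n) (F s0 x0)
  obtain ⟨W, R, hR, hbx⟩ := exists_box hF hA0 hA hB hp hV hO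
  obtain ⟨b1, b2, b3, b4⟩ := hbx R R hR hR le_rfl le_rfl
  obtain ⟨G', B', m1, m2, m3, m4, m5⟩ := b2.replace hg hη (r := R / 2) (c := R / 2)
    (by positivity) (by positivity) (by linarith) (by linarith)
  obtain ⟨F', f1, f2, f3, f4⟩ := b1.replace hF m1
  have hnorm0 : ‖(0 : P)‖ < R := by rwa [norm_zero]
  have hnorm0' : ‖(0 : E n)‖ < R := by rwa [norm_zero]
  have hK : ∀ z ∈ QQ s0 A (R / 2) (R / 2), ∃ s x, ‖s‖ < R ∧ ‖x‖ < R ∧ z = (s0 + s, A x) := by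
    rintro z ⟨w, ⟨h1, h2⟩, rfl⟩
    exact ⟨w.1, w.2, (mem_closedBall_zero_iff.1 h1).trans_lt (by linarith),
      (mem_closedBall_zero_iff.1 h2).trans_lt (by linarith), rfl⟩
  have hlev : ∀ z ∈ QQ s0 A (R / 2) (R / 2), LD n (F' z.1) z.2 := by
    intro z hz
    obtain ⟨s, x, hs, hx, rfl⟩ := hK z hz
    exact f2.level hs hx (m3 s x hs hx)
  have hpK : (s0, x0) ∈ QQ s0 A (R / 2) (R / 2) := by
    refine mem_QQ.2 ⟨?_, 0, ?_, hA0⟩
    · rw [sub_self, norm_zero]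
      positivity
    · rw [norm_zero]
      positivity
  refine ⟨F', QQ s0 A (R / 2) (R / 2), f1, hpK, ?_, f3, ?_, ?_, Or.inr ⟨?_, hlev _ hpK⟩⟩
  · intro z hz
    obtain ⟨s, x, hs, hx, rfl⟩ := hK z hz
    exact b3 s x hs hx
  · intro z hz
    obtain ⟨s, x, hs, hx, rfl⟩ := hK z hz
    obtain ⟨x', hx', he⟩ := f4 s x hs hx
    show ((s0 + s, A x), F' (s0 + s) (A x)) ∈ O
    rw [he]
    exact b4 s x x' hs hx hx'
  · intro z hz hzp
    obtain ⟨s, x, hs, hx, rfl⟩ := hK z hz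
    refine f2.mreg hs hx (m2 s x hs hx ?_)
    by_contra hcon
    rw [not_or, not_not, not_not] at hcon
    apply hzp
    rw [hcon.1, hcon.2, add_zero, hA0]
  · have e0 : F' s0 x0 = F' (s0 + 0) (A 0) := by rw [add_zero, hA0]
    refine ⟨A, fun y => B' (chartAt (E n) (F s0 x0) y), hA0, hA, ?_, ?_⟩
    · show LD n (fun y => B' (chartAt (E n) (F s0 x0) y)) (F' s0 x0)
      rw [e0]
      refine LD.comp_fun (g := B') ?_ (f2.ql _ (f2.im 0 0 hnorm0 hnorm0'))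
      rw [← f2.eq 0 0 hnorm0 hnorm0']
      exact m4
    · refine m5.congr ?_
      have h1 : ∀ᶠ w : P × E n in 𝓝 (0, 0), ‖w.1‖ < R ∧ ‖w.2‖ < R := box_nhds hnorm0 hnorm0'
      filter_upwards [h1] with w hw
      show B' (chartAt (E n) (F s0 x0) (F' (s0 + w.1) (A w.2))) = B' (G' w)
      rw [← f2.eq w.1 w.2 hw.1 hw.2]

theorem step_lit {η : ℝ → ℝ} {κ : ℝ}
    (hg : Gauge η κ) (hη' : Tendsto (deriv η) (𝓝[>] 0) (𝓝 0)) :
    Step (X := X) (Y := Y) n (fun (F : P → X → Y) (z : P × X) => InCo (n := n) (Lit η) F z)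
      (fun F z => MReg n F z) := by
  intro F p hF hp hL V O hV hO
  obtain ⟨s0, x0⟩ := p
  obtain ⟨A, B, hA0, hA, hB, hL⟩ := hL
  obtain ⟨W, R, hR, hbx⟩ := exists_box hF hA0 hA hB hp hV hO
  obtain ⟨-, b2, -, -⟩ := hbx R R hR hR le_rfl le_rfl
  obtain ⟨R', r, G', hr, hR1, hR2, m1, m2⟩ := b2.smooth hg hη' hL
  have hR' : 0 < R' := hr.trans m1.ra
  obtain ⟨b1, -, b3, b4⟩ := hbx R' R' hR' hR' hR1 hR2
  obtain ⟨F', f1, f2, f3, f4⟩ := b1.replace hF m1
  have hK : ∀ z ∈ QQ s0 A r r, ∃ s x, ‖s‖ < R' ∧ ‖x‖ < R' ∧ z = (s0 + s, A x) := by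
    rintro z ⟨w, ⟨h1, h2⟩, rfl⟩
    exact ⟨w.1, w.2, (mem_closedBall_zero_iff.1 h1).trans_lt m1.ra,
      (mem_closedBall_zero_iff.1 h2).trans_lt m1.ra, rfl⟩
  have hpK : (s0, x0) ∈ QQ s0 A r r := by
    refine mem_QQ.2 ⟨?_, 0, ?_, hA0⟩
    · rw [sub_self, norm_zero]
      positivity
    · rw [norm_zero]
      positivity
  have hM : ∀ z ∈ QQ s0 A r r, MReg n F' z := by
    intro z hz
    obtain ⟨s, x, hs, hx, rfl⟩ := hK z hz
    exact f2.mreg hs hx (m2 s x hs hx)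
  refine ⟨F', QQ s0 A r r, f1, hpK, ?_, f3, ?_, fun z hz _ => hM z hz, hM _ hpK⟩
  · intro z hz
    obtain ⟨s, x, hs, hx, rfl⟩ := hK z hz
    exact b3 s x hs hx
  · intro z hz
    obtain ⟨s, x, hs, hx, rfl⟩ := hK z hz
    obtain ⟨x', hx', he⟩ := f4 s x hs hx
    show ((s0 + s, A x), F' (s0 + s) (A x)) ∈ O
    rw [he]
    exact b4 s x x' hs hx hx'

/-- the first theorem -/
theorem all_big [Nontrivial P] [IsManifold (𝓡 n) ∞ X] [IsManifold (𝓡 n) ∞ Y] {η : ℝ → ℝ} {κ : ℝ}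
    (hg : Gauge η κ) (hη : Tendsto (fun r => η r / r) (𝓝[>] 0) (𝓝 0))
    {V : Set (P × X)} (hV : IsOpen V) {O : Set ((P × X) × Y)} (hO : IsOpen O)
    {F : P → X → Y} (hF : IsHomeomorph (tot F)) (hFO : ∀ z, (z, F z.1 z.2) ∈ O)
    (hfin : {z | ¬ MReg n F z}.Finite) (hS : {z | ¬ MReg n F z} ⊆ V) :
    ∃ F' : P → X → Y, IsHomeomorph (tot F') ∧ (∀ z, (z, F' z.1 z.2) ∈ O) ∧
      {z | ¬ MReg n F' z} ⊆ {z | ¬ MReg n F z} ∧
      (∀ z, z ∉ V → ∀ᶠ w in 𝓝 z, F' w.1 w.2 = F w.1 w.2) ∧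
      ∀ z, MReg n F' z ∨ (InCo (n := n) (Big η) F' z ∧ LD n (F' z.1) z.2) := by
  refine induct (D := fun _ _ => True)
    (Q := fun F z => MReg n F z ∨ (InCo (n := n) (Big η) F z ∧ LD n (F z.1) z.2))
    (fun _ _ => trivial) ?_ (fun h => Or.inl h) (step_big hg hη) hV hO _ hF hFO hfin le_rfl
    (fun z hz => hS fun h => hz (Or.inl h)) (fun _ _ => trivial)
  rintro F F' z (h | ⟨h1, h2⟩) he
  · exact Or.inl (h.congr he)
  · refine Or.inr ⟨h1.congr (fun h he => h.congr he) he, h2.congr ?_⟩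
    have h3 : Tendsto (fun x : X => ((z.1, x) : P × X)) (𝓝 z.2) (𝓝 z) :=
      (Continuous.prodMk_right z.1).tendsto z.2
    exact h3.eventually he

/-- the second theorem -/
theorem all_lit {η : ℝ → ℝ} {κ : ℝ}
    (hg : Gauge η κ) (hη' : Tendsto (deriv η) (𝓝[>] 0) (𝓝 0))
    {V : Set (P × X)} (hV : IsOpen V) {O : Set ((P × X) × Y)} (hO : IsOpen O)
    {F : P → X → Y} (hF : IsHomeomorph (tot F)) (hFO : ∀ z, (z, F z.1 z.2) ∈ O)
    (hfin : {z | ¬ MReg n F z}.Finite) (hS : {z | ¬ MReg n F z} ⊆ V)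
    (hL : ∀ z, ¬ MReg n F z → InCo (n := n) (Lit η) F z) :
    ∃ F' : P → X → Y, IsHomeomorph (tot F') ∧ (∀ z, (z, F' z.1 z.2) ∈ O) ∧
      (∀ z, z ∉ V → ∀ᶠ w in 𝓝 z, F' w.1 w.2 = F w.1 w.2) ∧ ∀ z, MReg n F' z := by
  obtain ⟨F', h1, h2, -, h3, h4⟩ := induct (D := fun F z => InCo (n := n) (Lit η) F z)
    (Q := fun F z => MReg n F z) (fun h he => h.congr (fun h he => h.congr he) he)
    (fun h he => h.congr he) (fun h => h) (step_lit hg hη') hV hO _ hF hFO hfin le_rfl hS hL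
  exact ⟨F', h1, h2, h3, h4⟩

end steps

end Pool.Agent.H816.Fam
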