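import Pool.Agent.H816.Fam10

/-!
# Families of diffeomorphisms with compact supports in a cell
-/

set_option autoImplicit false

open Set Filter Topology Metric Function
open scoped Manifold ContDiff

noncomputable section

namespace Pool.Agent.H816.Fam

open Pool.Agent.Y522

section top

/-- families of bijections of a compact space -/
theorem tot_of_compact {P X Y : Type*} [TopologicalSpace P] [TopologicalSpace X]
    [TopologicalSpace Y] [T2Space P] [T2Space Y] [CompactSpace X] {F : P → X → Y}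
    (hF : Continuous fun w : P × X => F w.1 w.2) (hb : ∀ s, Bijective (F s)) :
    IsHomeomorph (tot F) := by
  have hc : Continuous (tot F) := continuous_fst.prodMk hF
  have h1 : IsProperMap (tot F) := by
    refine isProperMap_of_comp_of_t2 (g := (Prod.fst : P × Y → P)) hc continuous_fst ?_
    exact isProperMap_fst_of_compactSpace
  exact isHomeomorph_iff_continuous_isClosedMap_bijective.2 ⟨hc, h1.isClosedMap, tot_bij.2 hb⟩

/-- families of bijections with supports in a compact set -/
theorem tot_of_support {P X : Type*} [TopologicalSpace P] [TopologicalSpace X]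
    [T2Space P] [T2Space X] {F : P → X → X} {K : Set X} (hK : IsCompact K)
    (hF : Continuous fun w : P × X => F w.1 w.2) (hb : ∀ s, Bijective (F s))
    (hs : ∀ s x, x ∉ K → F s x = x) : IsHomeomorph (tot F) := by
  have hc : Continuous (tot F) := continuous_fst.prodMk hF
  refine isHomeomorph_iff_continuous_isClosedMap_bijective.2 ⟨hc, fun C hC => ?_, tot_bij.2 hb⟩
  have : CompactSpace K := isCompact_iff_compactSpace.1 hK
  have hci : Continuous fun w : P × K => ((w.1, (w.2 : X)) : P × X) :=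
    continuous_fst.prodMk (continuous_subtype_val.comp continuous_snd)
  have h1 : IsProperMap fun w : P × K => tot F (w.1, (w.2 : X)) := by
    refine isProperMap_of_comp_of_t2 (g := (Prod.fst : P × X → P)) (hc.comp hci)
      continuous_fst ?_
    exact isProperMap_fst_of_compactSpace
  have h2 : IsClosed ((fun w : P × K => tot F (w.1, (w.2 : X))) ''
      ((fun w : P × K => ((w.1, (w.2 : X)) : P × X)) ⁻¹' C)) :=
    h1.isClosedMap _ (hC.preimage hci)
  have h3 : EqOn (tot F) id (closure {z : P × X | z.2 ∉ K}) :=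
    EqOn.closure (fun z hz => Prod.ext rfl (hs z.1 z.2 hz)) hc continuous_id
  have h4 : tot F '' C = ((fun w : P × K => tot F (w.1, (w.2 : X))) ''
      ((fun w : P × K => ((w.1, (w.2 : X)) : P × X)) ⁻¹' C)) ∪
      (C ∩ closure {z : P × X | z.2 ∉ K}) := by
    ext y
    constructor
    · rintro ⟨z, hz, rfl⟩
      by_cases hzK : z.2 ∈ K
      · exact Or.inl ⟨(z.1, ⟨z.2, hzK⟩), hz, rfl⟩
      · have h5 : z ∈ closure {z : P × X | z.2 ∉ K} := subset_closure hzK
        rw [h3 h5]
        exact Or.inr ⟨hz, h5⟩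
    · rintro (⟨w, hw, rfl⟩ | ⟨h5, h6⟩)
      · exact ⟨(w.1, (w.2 : X)), hw, rfl⟩
      · exact ⟨y, h5, h3 h6⟩
  rw [h4]
  exact h2.union (hC.inter isClosed_closure)

end top

variable {n : ℕ} {P : Type*} [NormedAddCommGroup P] [NormedSpace ℝ P]
  {X Y Z : Type*} [TopologicalSpace X] [ChartedSpace (E n) X] [TopologicalSpace Y]
  [ChartedSpace (E n) Y] [TopologicalSpace Z] [ChartedSpace (E n) Z]

theorem MReg.cont {F : P → X → Y} {z : P × X} (h : MReg n F z) :
    ContinuousAt (fun w : P × X => F w.1 w.2) z := h.1.self_of_nhds.continuousAt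

/-- the family in coordinates -/
theorem MReg.coord {F : P → X → Y} {s : P} {x : E n} {c : E n → X} {q : Y → E n}
    (hc : LD n c x) (hq : LD n q (F s (c x))) (h : MReg n F (s, c x)) :
    Reg (fun w : P × E n => q (F w.1 (c w.2))) (s, x) := by
  have hphi : ContinuousAt (fun w : P × E n => ((w.1, c w.2) : P × X)) (s, x) := by
    refine continuousAt_fst.prodMk ?_
    exact ContinuousAt.comp (g := c) (f := fun w : P × E n => w.2) hc.continuousAt continuousAt_snd
  have hphi' : Tendsto (fun w : P × E n => ((w.1, c w.2) : P × X)) (𝓝 (s, x)) (𝓝 (s, c x)) := hphi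
  have hF0 : Tendsto (fun w : P × X => F w.1 w.2) (𝓝 (s, c x)) (𝓝 (F s (c x))) := h.cont
  have hval : Tendsto (fun w : P × E n => F w.1 (c w.2)) (𝓝 (s, x)) (𝓝 (F s (c x))) :=
    Tendsto.comp hF0 hphi'
  constructor
  · filter_upwards [hphi'.eventually h.1,
      (continuous_snd.tendsto ((s, x) : P × E n)).eventually hc.eventually,
      hval.eventually hq.eventually] with w h1 h2 h3
    have e1 : ContMDiffAt 𝓘(ℝ, P × E n) (𝓡 n) ∞ (fun w : P × E n => c w.2) w :=
      ContMDiffAt.comp (I' := 𝓡 n) (g := c) w h2.contMDiffAt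
        (contMDiffAt_iff_contDiffAt.2 contDiffAt_snd)
    have e2 : ContMDiffAt 𝓘(ℝ, P × E n) 𝓘(ℝ, P) ∞ (fun w : P × E n => w.1) w :=
      contMDiffAt_iff_contDiffAt.2 contDiffAt_fst
    have e3 : ContMDiffAt 𝓘(ℝ, P × E n) (𝓘(ℝ, P).prod (𝓡 n)) ∞
        (fun w : P × E n => ((w.1, c w.2) : P × X)) w := e2.prodMk e1
    have e4 : ContMDiffAt 𝓘(ℝ, P × E n) (𝓡 n) ∞ (fun w : P × E n => F w.1 (c w.2)) w :=
      ContMDiffAt.comp (I' := 𝓘(ℝ, P).prod (𝓡 n)) (g := fun w : P × X => F w.1 w.2) w h1 e3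
    exact contMDiffAt_prod_iff.1
      (ContMDiffAt.comp (I' := 𝓡 n) (g := q) w h3.contMDiffAt e4)
  · exact LD.comp_fun (g := q) hq (LD.comp_fun (g := F s) h.2 hc)

/-- composition of families -/
theorem MReg.comp {G : P → Y → Z} {F : P → X → Y} {z : P × X} (hG : MReg n G (z.1, F z.1 z.2))
    (hF : MReg n F z) : MReg n (fun s x => G s (F s x)) z := by
  constructor
  · have hc : Tendsto (fun w : P × X => ((w.1, F w.1 w.2) : P × Y)) (𝓝 z)
        (𝓝 (z.1, F z.1 z.2)) := continuousAt_fst.prodMk hF.cont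
    filter_upwards [hc.eventually hG.1, hF.1] with w h1 h2
    exact ContMDiffAt.comp (I' := 𝓘(ℝ, P).prod (𝓡 n)) (g := fun w : P × Y => G w.1 w.2) w h1
      (contMDiffAt_fst.prodMk h2)
  · exact LD.comp_fun (g := G z.1) hG.2 hF.2

/-- constant families -/
theorem MReg.const {φ : X → Y} {z : P × X} (h : LD n φ z.2) : MReg n (fun (_ : P) => φ) z := by
  refine ⟨?_, h⟩
  have h1 : ∀ᶠ w : P × X in 𝓝 z, LD n φ w.2 := (continuous_snd.tendsto z).eventually h.eventually
  filter_upwards [h1] with w hw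
  exact ContMDiffAt.comp (I' := 𝓡 n) (g := φ) w hw.contMDiffAt contMDiffAt_snd

/-- the identity -/
theorem MReg.id (z : P × X) : MReg n (fun (_ : P) (x : X) => x) z := MReg.const (LD.id z.2)

end Pool.Agent.H816.Fam

namespace Pool.Agent.H816.Fam

open Pool.Agent.Y522

variable {n : ℕ} {P : Type*} [NormedAddCommGroup P] [InnerProductSpace ℝ P]
  [FiniteDimensional ℝ P] {X : Type*} [TopologicalSpace X] [ChartedSpace (E n) X] [T2Space X]

/-- **Alexander's theorem for families, with gauges**. -/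
theorem alex {η : ℝ → ℝ} {κ : ℝ} (hg : Gauge η κ)
    (hη : Tendsto (fun r => η r / r) (𝓝[>] 0) (𝓝 0)) {c : E n → X} (ci : Injective c)
    (cl : ∀ z, LD n c z) {R : P → X → X} {K0 : ℝ} (hK0 : 0 < K0)
    (hbij : ∀ s, s ≠ 0 → Bijective (R s)) (hreg : ∀ s x, s ≠ 0 → MReg n R (s, x))
    (hfar : ∀ s y, s ≠ 0 → y ∉ c '' closedBall 0 K0 → R s y = y) {δ : ℝ} (hδ : 0 < δ) :
    ∃ F : P → X → X, IsHomeomorph (tot F) ∧ (∀ s, δ ≤ ‖s‖ → F s = R s) ∧
      (∀ z : P × X, z ≠ (0, c 0) → MReg n F z) ∧ InCo (n := n) (Big η) F (0, c 0) ∧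
      (∀ z : P × X, LD n (F z.1) z.2) ∧ ∀ s y, y ∉ c '' closedBall 0 (K0 + 1) → F s y = y := by
  classical
  have hci : ∀ x, invFun c (c x) = x := leftInverse_invFun ci
  have hK1 : c '' closedBall 0 K0 ⊆ c '' closedBall 0 (K0 + 1) :=
    image_mono (closedBall_subset_closedBall (by linarith))
  have hKc : IsCompact (c '' closedBall 0 (K0 + 1)) :=
    (isCompact_closedBall (0 : E n) (K0 + 1)).image_of_continuousOn
      fun z _ => (cl z).continuousAt.continuousWithinAt
  have hrange : IsOpen (range c) := by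
    rw [← image_univ]
    exact isOpen_image_of_LD isOpen_univ fun z _ => cl z
  -- values of the maps
  have hval : ∀ s x, s ≠ 0 → R s (c x) ∈ range c := by
    intro s x hs
    by_cases hx : R s (c x) ∈ c '' closedBall 0 K0
    · exact image_subset_range _ _ hx
    · have h1 := hfar s _ hs hx
      rw [(hbij s hs).1 h1]
      exact mem_range_self x
  obtain ⟨ρ, hρd⟩ : ∃ ρ : P × E n → E n, ρ = fun w => invFun c (R w.1 (c w.2)) := ⟨_, rfl⟩
  have hcρ : ∀ s x, s ≠ 0 → c (ρ (s, x)) = R s (c x) := by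
    intro s x hs
    rw [hρd]
    exact invFun_eq (hval s x hs)
  have hcil : ∀ y ∈ range c, LD n (invFun c) y := by
    rintro _ ⟨x, rfl⟩
    exact LD.inverse isOpen_univ (fun z _ => cl z) (fun z _ => hci z) (mem_univ x)
  have hCpt : ∀ δ', Cpt ρ δ' (K0 + 1) := by
    intro δ'
    refine ⟨fun s x hs _ => ?_, fun s x hs _ hx => ?_, fun s hs _ => ?_⟩
    · rw [hρd]
      exact MReg.coord (cl x) (hcil _ (hval s x hs)) (hreg s (c x) hs)
    · apply ci
      rw [hcρ s x hs]
      refine hfar s _ hs ?_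
      rintro ⟨y, hy, hyx⟩
      rw [ci hyx] at hy
      have := mem_closedBall_zero_iff.1 hy
      linarith
    · constructor
      · intro x y hxy
        have h1 : c (ρ (s, x)) = c (ρ (s, y)) := congrArg c hxy
        rw [hcρ s x hs, hcρ s y hs] at h1
        exact ci ((hbij s hs).1 h1)
      · intro y
        obtain ⟨v, hv⟩ := (hbij s hs).2 (c y)
        have hvr : v ∈ range c := by
          by_cases hvK : v ∈ c '' closedBall 0 K0
          · exact image_subset_range _ _ hvK
          · rw [hfar s v hs hvK] at hv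
            rw [hv]
            exact mem_range_self y
        obtain ⟨x, rfl⟩ := hvr
        refine ⟨x, ci ?_⟩
        show c (ρ (s, x)) = c y
        rw [hcρ s x hs, hv]
  -- the scales
  obtain ⟨k, hk, hkκ, hkδ2, hk1⟩ := hg.exists_small (show 0 < δ / 2 by linarith)
  have hkδ : k < δ := by linarith
  have hsc : Sc η κ k δ (K0 + 1) := ⟨hg, hk, hkκ, hkδ, by linarith, hk1⟩
  have hC := hCpt δ
  -- the family
  obtain ⟨F, hFd⟩ : ∃ F : P → X → X, F = fun s y => if ‖s‖ < δ then
    (if y ∈ range c then c (Fam.hr η k ρ (s, invFun c y)) else y) else R s y := ⟨_, rfl⟩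
  have hF1 : ∀ s x, ‖s‖ < δ → F s (c x) = c (Fam.hr η k ρ (s, x)) := by
    intro s x hs
    rw [hFd]
    show (if ‖s‖ < δ then (if c x ∈ range c then c (Fam.hr η k ρ (s, invFun c (c x))) else c x)
      else R s (c x)) = _
    rw [if_pos hs, if_pos (mem_range_self x), hci]
  have hF2 : ∀ s y, ‖s‖ < δ → y ∉ range c → F s y = y := by
    intro s y hs hy
    rw [hFd]
    show (if ‖s‖ < δ then (if y ∈ range c then c (Fam.hr η k ρ (s, invFun c y)) else y)
      else R s y) = _
    rw [if_pos hs, if_neg hy]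
  have hF3 : ∀ s, ¬ ‖s‖ < δ → F s = R s := by
    intro s hs
    rw [hFd]
    funext y
    exact if_neg hs
  have hF4 : ∀ s, 3 * k / 4 ≤ ‖s‖ → F s = R s := by
    intro s hs
    have hs0 : s ≠ 0 := norm_pos_iff.1 (lt_of_lt_of_le (by positivity) hs)
    by_cases hsδ : ‖s‖ < δ
    · funext y
      by_cases hy : y ∈ range c
      · obtain ⟨x, rfl⟩ := hy
        rw [hF1 s x hsδ, hr_eq hsc hs, hcρ s x hs0]
      · rw [hF2 s y hsδ hy, hfar s y hs0 fun h => hy (image_subset_range _ _ h)]
    · exact hF3 s hsδ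
  have hsupp : ∀ s y, y ∉ c '' closedBall 0 (K0 + 1) → F s y = y := by
    intro s y hy
    by_cases hsδ : ‖s‖ < δ
    · by_cases hyr : y ∈ range c
      · obtain ⟨x, rfl⟩ := hyr
        rw [hF1 s x hsδ, hr_far' hsc hC hsδ]
        by_contra hcon
        exact hy ⟨x, mem_closedBall_zero_iff.2 (not_le.1 hcon).le, rfl⟩
      · exact hF2 s y hsδ hyr
    · rw [hF3 s hsδ]
      exact hfar s y (norm_pos_iff.1 (lt_of_lt_of_le hδ (not_lt.1 hsδ))) fun h => hy (hK1 h)
  -- the box
  have hnorm0 : ‖(0 : P)‖ < δ := by rwa [norm_zero]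
  have hbx : ∀ b, 0 < b → Bx F 0 c (invFun c) (range c) (Fam.hr η k ρ) δ b := fun b hb =>
    { ha := hδ
      hb := hb
      ci := ci.injOn
      cl := fun z _ => cl z
      Wo := hrange
      qi := by
        rintro _ ⟨x, rfl⟩ _ ⟨y, rfl⟩ hxy
        rw [hci, hci] at hxy
        rw [hxy]
      ql := hcil
      im := fun s x hs _ => by
        rw [zero_add, hF1 s x hs]
        exact mem_range_self _
      eq := fun s x hs _ => by rw [zero_add, hF1 s x hs, hci] }
  have hMR : ∀ z, z ≠ (0, c 0) → MReg n F z := by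
    rintro ⟨s, y⟩ hz
    by_cases hsδ : ‖s‖ < δ
    · by_cases hyr : y ∈ c '' closedBall 0 (K0 + 1)
      · obtain ⟨x, hx, rfl⟩ := hyr
        have hxb : ‖x‖ < K0 + 2 := by
          have := mem_closedBall_zero_iff.1 hx
          linarith
        have h1 := (hbx (K0 + 2) (by linarith)).mreg (s := s) (x := x) hsδ hxb
          (hr_reg hsc hC hsδ (by
            by_contra hcon
            rw [not_or, not_not, not_not] at hcon
            exact hz (by rw [hcon.1, hcon.2])))
        rwa [zero_add] at h1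
      · refine (MReg.id (s, y)).congr ?_
        have h1 : ∀ᶠ w : P × X in 𝓝 (s, y), w.2 ∈ (c '' closedBall 0 (K0 + 1))ᶜ :=
          (continuous_snd.tendsto (s, y)).eventually (hKc.isClosed.isOpen_compl.mem_nhds hyr)
        filter_upwards [h1] with w hw
        exact hsupp w.1 w.2 hw
    · have hs0 : s ≠ 0 := norm_pos_iff.1 (lt_of_lt_of_le hδ (not_lt.1 hsδ))
      refine (hreg s y hs0).congr ?_
      have h1 : ∀ᶠ w : P × X in 𝓝 (s, y), 3 * k / 4 < ‖w.1‖ := by
        have ht : Tendsto (fun w : P × X => ‖w.1‖) (𝓝 (s, y)) (𝓝 ‖s‖) :=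
          (continuous_fst.norm.tendsto (s, y))
        refine ht.eventually_const_lt ?_
        have := not_lt.1 hsδ
        linarith
      filter_upwards [h1] with w hw
      rw [hF4 w.1 hw.le]
  have hcont : Continuous fun w : P × X => F w.1 w.2 := by
    rw [continuous_iff_continuousAt]
    intro z
    by_cases hz : z = (0, c 0)
    · rw [hz]
      have h1 := (hbx 1 one_pos).F_cont (s := 0) (x := 0) hnorm0 (by simp)
        (hr_cont hsc hC hnorm0)
      rwa [zero_add] at h1
    · exact (hMR z hz).cont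
  have hlevbij : ∀ s, Bijective (F s) := by
    intro s
    by_cases hsδ : ‖s‖ < δ
    · have hb := hr_bij hsc hC hsδ
      constructor
      · intro y y' hyy
        by_cases hy : y ∈ range c <;> by_cases hy' : y' ∈ range c
        · obtain ⟨x, rfl⟩ := hy
          obtain ⟨x', rfl⟩ := hy'
          rw [hF1 s x hsδ, hF1 s x' hsδ] at hyy
          rw [hb.1 (ci hyy)]
        · obtain ⟨x, rfl⟩ := hy
          rw [hF1 s x hsδ, hF2 s y' hsδ hy'] at hyy
          exact absurd (hyy ▸ mem_range_self _) hy'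
        · obtain ⟨x', rfl⟩ := hy'
          rw [hF1 s x' hsδ, hF2 s y hsδ hy] at hyy
          exact absurd (hyy ▸ mem_range_self _) hy
        · rwa [hF2 s y hsδ hy, hF2 s y' hsδ hy'] at hyy
      · intro y
        by_cases hy : y ∈ range c
        · obtain ⟨x, rfl⟩ := hy
          obtain ⟨x', hx'⟩ := hb.2 x
          have hx'' : Fam.hr η k ρ (s, x') = x := hx'
          exact ⟨c x', by rw [hF1 s x' hsδ, hx'']⟩
        · exact ⟨y, hF2 s y hsδ hy⟩
    · rw [hF3 s hsδ]
      exact hbij s (norm_pos_iff.1 (lt_of_lt_of_le hδ (not_lt.1 hsδ)))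
  have hr0 : Fam.hr η k ρ (0 : P × E n) = 0 := hr_zero η k ρ 0
  have h00 : F 0 (c 0) = c 0 := by
    rw [hF1 0 0 hnorm0]
    exact congrArg c hr0
  refine ⟨F, tot_of_support hKc hcont hlevbij hsupp, fun s hs => hF3 s (not_lt.2 hs), hMR,
    ?_, ?_, hsupp⟩
  · refine ⟨c, invFun c, rfl, cl 0, ?_, ?_⟩
    · show LD n (invFun c) (F 0 (c 0))
      rw [h00]
      exact hcil _ (mem_range_self 0)
    · have hbig : Big η (Fam.hr η k ρ) := by
        refine ⟨Eventually.of_forall fun x => hr_zero η k ρ x,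
          ⟨2 * (K0 + 1), hr_contact hsc hC⟩, fun j => hr_bigO hsc hC hη j⟩
      refine hbig.congr ?_
      have h1 : ∀ᶠ w : P × E n in 𝓝 0, ‖w.1‖ < δ := by
        have ht : Tendsto (fun w : P × E n => ‖w.1‖) (𝓝 0) (𝓝 ‖(0 : P)‖) :=
          (continuous_fst.norm.tendsto (0 : P × E n))
        exact ht.eventually_lt_const hnorm0
      filter_upwards [h1] with w hw
      show invFun c (F (0 + w.1) (c w.2)) = _
      rw [zero_add, hF1 w.1 w.2 hw, hci]
  · intro z
    by_cases hz : z = (0, c 0)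
    · rw [hz]
      have : F 0 = fun y => y := by
        funext y
        by_cases hy : y ∈ range c
        · obtain ⟨x, rfl⟩ := hy
          rw [hF1 0 x hnorm0, hr_zero]
        · exact hF2 0 y hnorm0 hy
      show LD n (F 0) (c 0)
      rw [this]
      exact LD.id _
    · exact (hMR z hz).2

end Pool.Agent.H816.Fam
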