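import Pool.Agent.H816.Fam11

/-!
# Families of diffeomorphisms: differentiability, spheres
-/

set_option autoImplicit false

open Set Filter Topology Metric Function
open scoped Manifold ContDiff

noncomputable section

namespace Pool.Agent.H816.Fam

open Pool.Agent.Y522

variable {n : ℕ} {P : Type*} [NormedAddCommGroup P] [NormedSpace ℝ P]
  {X Y : Type*} [TopologicalSpace X] [ChartedSpace (E n) X] [TopologicalSpace Y]
  [ChartedSpace (E n) Y]

/-- contact with the projection -/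
theorem contact_snd {g : P × E n → E n} {η : ℝ → ℝ} (hη : Tendsto (fun r => η r / r) (𝓝[>] 0) (𝓝 0))
    (h0 : g 0 = 0) {C : ℝ} (hC : ∀ᶠ z in 𝓝[≠] (0 : P × E n), ‖g z - z.2‖ ≤ C * η ‖z‖) :
    HasFDerivAt g (ContinuousLinearMap.snd ℝ P (E n)) 0 := by
  rw [hasFDerivAt_iff_isLittleO_nhds_zero, Asymptotics.isLittleO_iff]
  intro ε hε
  have h1 : ∀ᶠ r in 𝓝[>] (0 : ℝ), |η r / r| < ε / (|C| + 1) := by
    have := hη.abs
    rw [abs_zero] at this
    exact this.eventually_lt_const (by positivity)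
  have h2 : ∀ᶠ z in 𝓝[≠] (0 : P × E n), ‖g z - z.2‖ ≤ ε * ‖z‖ := by
    filter_upwards [hC, (tendsto_norm_punctured (V := P × E n)).eventually h1,
      self_mem_nhdsWithin] with z hz1 hz2 hz3
    have hz : 0 < ‖z‖ := norm_pos_iff.2 hz3
    refine hz1.trans ?_
    have h3 : C * η ‖z‖ ≤ |C| * (|η ‖z‖ / ‖z‖| * ‖z‖) := by
      rw [abs_div, abs_norm, div_mul_cancel₀ _ hz.ne', ← abs_mul]
      exact le_abs_self _
    calc C * η ‖z‖ ≤ |C| * (|η ‖z‖ / ‖z‖| * ‖z‖) := h3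
      _ ≤ |C| * (ε / (|C| + 1) * ‖z‖) := by gcongr
      _ = (|C| / (|C| + 1)) * (ε * ‖z‖) := by ring
      _ ≤ 1 * (ε * ‖z‖) := by
        refine mul_le_mul_of_nonneg_right ?_ (by positivity)
        rw [div_le_one (by positivity)]
        linarith
      _ = ε * ‖z‖ := one_mul _
  rw [eventually_nhdsWithin_iff] at h2
  filter_upwards [h2] with z hz
  rw [zero_add, h0, sub_zero]
  rcases eq_or_ne z 0 with h | h
  · rw [h, h0]
    simp
  · exact hz h

/-- everywhere differentiable families -/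
theorem mdiff_of_big {η : ℝ → ℝ} (hη : Tendsto (fun r => η r / r) (𝓝[>] 0) (𝓝 0))
    {F : P → X → Y} {z : P × X} (hFc : ContinuousAt (fun w : P × X => F w.1 w.2) z)
    (h : InCo (n := n) (Big η) F z) :
    MDifferentiableAt (𝓘(ℝ, P).prod (𝓡 n)) (𝓡 n) (fun w : P × X => F w.1 w.2) z := by
  obtain ⟨A, B, hA0, hA, hB, hq⟩ := h
  obtain ⟨g, hgd⟩ : ∃ g : P × E n → E n, g = fun w => B (F (z.1 + w.1) (A w.2)) := ⟨_, rfl⟩
  rw [← hgd] at hq
  obtain ⟨C, hC⟩ := hq.contact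
  have hg0 : g 0 = 0 := hq.level.self_of_nhds
  have hgd0 := contact_snd hη hg0 hC
  obtain ⟨A', hA', hA'0, -, hA2⟩ := LD_exists_inv hA
  obtain ⟨B', hB', hB'0, hB1, -⟩ := LD_exists_inv hB
  rw [hA0] at hA' hA'0 hA2
  have hg0' : g (z.1 - z.1, A' z.2) = B (F z.1 z.2) := by
    rw [hgd, hA'0]
    show B (F (z.1 + (z.1 - z.1)) (A 0)) = _
    rw [add_sub_cancel, hA0]
  have hz0 : ((z.1 - z.1, A' z.2) : P × E n) = 0 := by rw [hA'0, sub_self]; rfl
  have hev : (fun w : P × X => F w.1 w.2) =ᶠ[𝓝 z] fun w => B' (g (w.1 - z.1, A' w.2)) := by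
    filter_upwards [(continuous_snd.tendsto z).eventually hA2, hFc.eventually hB1] with w h1 h2
    show F w.1 w.2 = B' (g (w.1 - z.1, A' w.2))
    rw [hgd]
    show F w.1 w.2 = B' (B (F (z.1 + (w.1 - z.1)) (A (A' w.2))))
    rw [add_sub_cancel, h1, h2]
  have m1 : MDifferentiableAt (𝓘(ℝ, P).prod (𝓡 n)) 𝓘(ℝ, P × E n)
      (fun w : P × X => ((w.1 - z.1, A' w.2) : P × E n)) z := by
    have e1 : ContMDiffAt (𝓘(ℝ, P).prod (𝓡 n)) (𝓡 n) ∞ (fun w : P × X => A' w.2) z :=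
      ContMDiffAt.comp (I' := 𝓡 n) (g := A') z hA'.contMDiffAt contMDiffAt_snd
    have e2 : ContMDiffAt (𝓘(ℝ, P).prod (𝓡 n)) 𝓘(ℝ, P) ∞ (fun w : P × X => w.1 - z.1) z :=
      ContMDiffAt.comp (I' := 𝓘(ℝ, P)) (g := fun t : P => t - z.1) z
        (contMDiffAt_iff_contDiffAt.2 (contDiffAt_id.sub contDiffAt_const)) contMDiffAt_fst
    exact (e2.prodMk_space e1).mdifferentiableAt (by simp)
  have m2 : MDifferentiableAt 𝓘(ℝ, P × E n) (𝓡 n) g (z.1 - z.1, A' z.2) := by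
    rw [hz0]
    exact hgd0.differentiableAt.mdifferentiableAt
  have m3 : MDifferentiableAt (𝓡 n) (𝓡 n) B' (g (z.1 - z.1, A' z.2)) := by
    rw [hg0']
    exact hB'.contMDiffAt.mdifferentiableAt (by simp)
  have m4 : MDifferentiableAt (𝓘(ℝ, P).prod (𝓡 n)) (𝓡 n)
      (fun w : P × X => g (w.1 - z.1, A' w.2)) z :=
    MDifferentiableAt.comp (I' := 𝓘(ℝ, P × E n)) (g := g) z m2 m1
  have m5 : MDifferentiableAt (𝓘(ℝ, P).prod (𝓡 n)) (𝓡 n)
      (fun w : P × X => B' (g (w.1 - z.1, A' w.2))) z :=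
    MDifferentiableAt.comp (I' := 𝓡 n) (g := B') z m3 m4
  exact m5.congr_of_eventuallyEq hev

theorem MReg.mdiff {F : P → X → Y} {z : P × X} (h : MReg n F z) :
    MDifferentiableAt (𝓘(ℝ, P).prod (𝓡 n)) (𝓡 n) (fun w : P × X => F w.1 w.2) z :=
  h.1.self_of_nhds.mdifferentiableAt (by simp)

attribute [local instance] factE

/-- maps of the sphere which are the identity near a point are supported in a cell -/
theorem sphere_support {φ : Sn n → Sn n} {q : Sn n} (h : ∀ᶠ x in 𝓝 q, φ x = x) :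
    ∃ K0 : ℝ, 0 < K0 ∧ ∀ y, y ∉ H816.sg q '' closedBall 0 K0 → φ y = y := by
  obtain ⟨U, hU, hUo, hqU⟩ := _root_.mem_nhds_iff.1 h
  have h1 : IsCompact Uᶜ := hUo.isClosed_compl.isCompact
  have h2 : ContinuousOn (fun y : Sn n => pr q (y : E (n + 1))) Uᶜ := by
    intro y hy
    have hne : y ≠ q := fun h => hy (h ▸ hqU)
    have h3 : LD n (fun z : Sn n => pr q (z : E (n + 1))) (H816.sg q (pr q y)) :=
      LD.inverse isOpen_univ (fun y _ => H816.sg_LD q y) (fun y _ => pr_sg q y) (mem_univ (pr q y))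
    rw [H816.sg_pr q hne] at h3
    exact h3.continuousAt.continuousWithinAt
  obtain ⟨K, hK⟩ := (h1.image_of_continuousOn h2).isBounded.subset_closedBall 0
  refine ⟨max K 1, lt_max_of_lt_right one_pos, fun y hy => ?_⟩
  by_contra hcon
  have hyU : y ∈ Uᶜ := fun h => hcon (hU h)
  have hne : y ≠ q := fun h => hyU (h ▸ hqU)
  have h4 := hK (mem_image_of_mem _ hyU)
  exact hy ⟨pr q y, closedBall_subset_closedBall (le_max_left _ _) h4, H816.sg_pr q hne⟩

end Pool.Agent.H816.Fam
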