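import Pool.Agent.H816.Fam1

/-!
# Families with an isolated singular point: the family near the point
-/

set_option autoImplicit false

open Set Filter Topology Metric Function
open scoped Manifold ContDiff

noncomputable section

namespace Pool.Agent.H816.Fam

open Pool.Agent.Y522

variable {n : ℕ}

/-- images of balls under maps which agree near the sphere -/
theorem ball_image_sub {f g : E n → E n} {c r : ℝ} (hc : 0 < c) (hcr : c < r)
    (hfc : ContinuousOn f (closedBall 0 r)) (hgc : ContinuousOn g (closedBall 0 r))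
    (hfi : InjOn f (closedBall 0 r)) (hgo : IsOpen (g '' ball 0 r))
    (he : ∀ x, c ≤ ‖x‖ → ‖x‖ ≤ r → f x = g x) : f '' ball 0 r ⊆ g '' ball 0 r := by
  rcases Nat.eq_zero_or_pos n with hn | hn
  · subst hn
    rintro _ ⟨x, hx, rfl⟩
    exact ⟨x, hx, Subsingleton.elim _ _⟩
  have : Nontrivial (E n) := by
    have : Nonempty (Fin n) := ⟨⟨0, hn⟩⟩
    infer_instance
  have hr : 0 < r := hc.trans hcr
  have h1 : IsPreconnected (f '' ball 0 r) :=
    (convex_ball (0 : E n) r).isPreconnected.image f (hfc.mono ball_subset_closedBall)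
  refine h1.subset_of_closure_inter_subset hgo ?_ ?_
  · obtain ⟨x, hx⟩ := exists_norm_eq (E n) hc.le
    have hxr : x ∈ ball (0 : E n) r := by rw [mem_ball_zero_iff, hx]; exact hcr
    exact ⟨f x, ⟨x, hxr, rfl⟩, x, hxr, (he x hx.ge (hx.trans_le hcr.le)).symm⟩
  · rintro y ⟨hy1, x, hx, rfl⟩
    have h2 : closure (g '' ball 0 r) ⊆ g '' closedBall 0 r :=
      closure_minimal (image_mono ball_subset_closedBall)
        ((isCompact_closedBall (0 : E n) r).image_of_continuousOn hgc).isClosed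
    obtain ⟨x', hx', hxx⟩ := h2 hy1
    rcases lt_or_eq_of_le (mem_closedBall_zero_iff.1 hx') with h3 | h3
    · exact ⟨x', mem_ball_zero_iff.2 h3, hxx⟩
    · exfalso
      rw [← he x' (by rw [h3]; exact hcr.le) h3.le] at hxx
      have h4 := hfi hx' (ball_subset_closedBall hx) hxx
      rw [h4] at h3
      exact absurd (mem_ball_zero_iff.1 hx) (by rw [h3]; exact lt_irrefl _)

/-- images of balls under maps which agree near the sphere -/
theorem ball_image_eq {f g : E n → E n} {c ε : ℝ} (hc : 0 < c) (hcε : c < ε)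
    (hfc : ContinuousOn f (ball 0 ε)) (hgc : ContinuousOn g (ball 0 ε))
    (hfi : InjOn f (ball 0 ε)) (hgi : InjOn g (ball 0 ε))
    (hfo : ∀ r, r < ε → IsOpen (f '' ball 0 r)) (hgo : ∀ r, r < ε → IsOpen (g '' ball 0 r))
    (he : ∀ x, c ≤ ‖x‖ → ‖x‖ < ε → f x = g x) : f '' ball 0 ε = g '' ball 0 ε := by
  obtain ⟨r, hcr, hrε⟩ := exists_between hcε
  have hsub : closedBall (0 : E n) r ⊆ ball 0 ε := closedBall_subset_ball hrε
  have key : ∀ {f g : E n → E n}, ContinuousOn f (ball 0 ε) → ContinuousOn g (ball 0 ε) →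
      InjOn f (ball 0 ε) → IsOpen (g '' ball 0 r) →
      (∀ x, c ≤ ‖x‖ → ‖x‖ < ε → f x = g x) → f '' ball 0 ε ⊆ g '' ball 0 ε := by
    intro f g hfc hgc hfi hgo he
    rintro _ ⟨x, hx, rfl⟩
    rw [mem_ball_zero_iff] at hx
    by_cases hxr : ‖x‖ < r
    · have h1 := ball_image_sub hc hcr (hfc.mono hsub) (hgc.mono hsub) (hfi.mono hsub) hgo
        (fun x h1 h2 => he x h1 (h2.trans_lt hrε))
      exact image_mono (ball_subset_ball hrε.le) (h1 ⟨x, mem_ball_zero_iff.2 hxr, rfl⟩)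
    · exact ⟨x, mem_ball_zero_iff.2 hx, (he x (hcr.le.trans (not_lt.1 hxr)) hx).symm⟩
  exact Subset.antisymm (key hfc hgc hfi (hgo r hrε) he)
    (key hgc hfc hgi (hfo r hrε) fun x h1 h2 => (he x h1 h2).symm)

section fam

variable {P : Type*} [NormedAddCommGroup P] [NormedSpace ℝ P]

/-- a family of embeddings of a ball with an isolated singular point at the origin -/
structure Iso (G : P × E n → E n) (a b : ℝ) : Prop where
  ha : 0 < a
  hb : 0 < b
  cont : ∀ s x, ‖s‖ < a → ‖x‖ < b → ContinuousAt G (s, x)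
  reg : ∀ s x, ‖s‖ < a → ‖x‖ < b → (s ≠ 0 ∨ x ≠ 0) → Reg G (s, x)
  inj : ∀ s, ‖s‖ < a → InjOn (fun x => G (s, x)) (ball 0 b)
  opn : ∀ s, ‖s‖ < a → ∀ U : Set (E n), IsOpen U → U ⊆ ball 0 b →
    IsOpen ((fun x => G (s, x)) '' U)

/-- the map of level `s` in terms of the map of level `s1` -/
def Th (G : P × E n → E n) (b : ℝ) (s1 : P) (z : P × E n) : E n :=
  invFunOn (fun x => G (s1, x)) (ball 0 b) (G z)

/-- the maps of two levels are close -/
def Good (G : P × E n → E n) (b κ : ℝ) (s1 s : P) (x : E n) : Prop :=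
  (∀ᶠ z in 𝓝 (s, x), ContDiffAt ℝ ∞ (Th G b s1) z) ∧ ‖Th G b s1 (s, x) - x‖ < κ ∧
    ‖fderiv ℝ (fun y => Th G b s1 (s, y)) x - ContinuousLinearMap.id ℝ (E n)‖ < κ ∧
    G (s1, Th G b s1 (s, x)) = G (s, x)

variable [FiniteDimensional ℝ P] {G : P × E n → E n} {a b : ℝ}

theorem Iso.good (h : Iso G a b) {κ : ℝ} (hκ : 0 < κ) {x0 : E n} (hx0 : x0 ≠ 0)
    (hxb : ‖x0‖ < b) :
    ∀ᶠ q : (P × P) × E n in 𝓝 ((0, 0), x0), Good G b κ q.1.1 q.1.2 q.2 := by
  have hr := h.reg 0 x0 (by rw [norm_zero]; exact h.ha) hxb (Or.inr hx0)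
  obtain ⟨I, hI1, hI2, hI3, hI4⟩ := hr.exists_inv
  have hI2' : I (0, G (0, x0)) = x0 := hI2
  have hI1' : Reg I (0, G (0, x0)) := hI1
  -- the maps
  have c0 : ContinuousAt (fun q : (P × P) × E n => ((q.1.2, q.2) : P × E n)) ((0, 0), x0) := by
    fun_prop
  have c1 : ContinuousAt (fun q : (P × P) × E n => G (q.1.2, q.2)) ((0, 0), x0) :=
    ContinuousAt.comp (g := G) (f := fun q : (P × P) × E n => ((q.1.2, q.2) : P × E n)) hr.cont c0
  have c2 : ContinuousAt (fun q : (P × P) × E n => ((q.1.1, G (q.1.2, q.2)) : P × E n))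
      ((0, 0), x0) := by
    refine ContinuousAt.prodMk ?_ c1
    fun_prop
  have c3 : ContinuousAt (fun q : (P × P) × E n => I (q.1.1, G (q.1.2, q.2))) ((0, 0), x0) :=
    ContinuousAt.comp (g := I) (f := fun q : (P × P) × E n => ((q.1.1, G (q.1.2, q.2)) : P × E n))
      hI1'.cont c2
  have t0 : Tendsto (fun q : (P × P) × E n => ((q.1.2, q.2) : P × E n)) (𝓝 ((0, 0), x0))
      (𝓝 (0, x0)) := c0
  have t2 : Tendsto (fun q : (P × P) × E n => ((q.1.1, G (q.1.2, q.2)) : P × E n))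
      (𝓝 ((0, 0), x0)) (𝓝 (0, G (0, x0))) := c2
  have t3 : Tendsto (fun q : (P × P) × E n => I (q.1.1, G (q.1.2, q.2)))
      (𝓝 ((0, 0), x0)) (𝓝 x0) := by
    have : Tendsto (fun q : (P × P) × E n => I (q.1.1, G (q.1.2, q.2)))
      (𝓝 ((0, 0), x0)) (𝓝 (I (0, G (0, x0)))) := c3
    rwa [hI2'] at this
  have e1 : ∀ᶠ q : (P × P) × E n in 𝓝 ((0, 0), x0),
      G (q.1.1, I (q.1.1, G (q.1.2, q.2))) = G (q.1.2, q.2) := t2.eventually hI4
  have e2 : ∀ᶠ q : (P × P) × E n in 𝓝 ((0, 0), x0), ‖I (q.1.1, G (q.1.2, q.2))‖ < b :=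
    t3.norm.eventually_lt_const hxb
  have e3 : ∀ᶠ q : (P × P) × E n in 𝓝 ((0, 0), x0), ‖q.1.1‖ < a := by
    have t4 : Tendsto (fun q : (P × P) × E n => ‖q.1.1‖) (𝓝 ((0, 0), x0)) (𝓝 ‖(0 : P)‖) := by
      have : ContinuousAt (fun q : (P × P) × E n => ‖q.1.1‖) ((0, 0), x0) := by fun_prop
      exact this
    exact t4.eventually_lt_const (by rw [norm_zero]; exact h.ha)
  have e4 : ∀ᶠ q : (P × P) × E n in 𝓝 ((0, 0), x0),
      Th G b q.1.1 (q.1.2, q.2) = I (q.1.1, G (q.1.2, q.2)) := by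
    filter_upwards [e1, e2, e3] with q h1 h2 h3
    have h4 : invFunOn (fun x => G (q.1.1, x)) (ball 0 b)
        (G (q.1.1, I (q.1.1, G (q.1.2, q.2)))) = I (q.1.1, G (q.1.2, q.2)) :=
      (h.inj q.1.1 h3).leftInvOn_invFunOn (mem_ball_zero_iff.2 h2)
    rw [h1] at h4
    exact h4
  have e5 : ∀ᶠ q : (P × P) × E n in 𝓝 ((0, 0), x0), Reg G (q.1.2, q.2) :=
    t0.eventually hr.eventually
  have e6 : ∀ᶠ q : (P × P) × E n in 𝓝 ((0, 0), x0), Reg I (q.1.1, G (q.1.2, q.2)) :=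
    t2.eventually hI1'.eventually
  have e7 : ∀ᶠ q : (P × P) × E n in 𝓝 ((0, 0), x0), ‖I (q.1.1, G (q.1.2, q.2)) - q.2‖ < κ := by
    have t5 : Tendsto (fun q : (P × P) × E n => ‖I (q.1.1, G (q.1.2, q.2)) - q.2‖)
        (𝓝 ((0, 0), x0)) (𝓝 ‖x0 - x0‖) := (t3.sub continuousAt_snd).norm
    rw [sub_self, norm_zero] at t5
    exact t5.eventually_lt_const hκ
  -- the derivative
  have d1 : ∀ q : (P × P) × E n, Reg G (q.1.2, q.2) → Reg I (q.1.1, G (q.1.2, q.2)) →
      fderiv ℝ (fun y => I (q.1.1, G (q.1.2, y))) q.2 =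
        ((fderiv ℝ I (q.1.1, G (q.1.2, q.2))).comp (ContinuousLinearMap.inr ℝ P (E n))).comp
          ((fderiv ℝ G (q.1.2, q.2)).comp (ContinuousLinearMap.inr ℝ P (E n))) := by
    intro q h1 h2
    have a1 := slice_fderiv (h1.smooth.differentiableAt (by simp))
    have a2 := slice_fderiv (h2.smooth.differentiableAt (by simp))
    rw [← a1, ← a2]
    exact fderiv_comp (g := fun y => I (q.1.1, y)) (f := fun y => G (q.1.2, y)) q.2
      ((slice_smooth h2.smooth).differentiableAt (by simp))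
      ((slice_smooth h1.smooth).differentiableAt (by simp))
  have c4 : ContinuousAt (fun q : (P × P) × E n =>
      ((fderiv ℝ I (q.1.1, G (q.1.2, q.2))).comp (ContinuousLinearMap.inr ℝ P (E n))).comp
          ((fderiv ℝ G (q.1.2, q.2)).comp (ContinuousLinearMap.inr ℝ P (E n)))) ((0, 0), x0) := by
    have k1 : ContinuousAt (fderiv ℝ I) (0, G (0, x0)) :=
      (hI1'.smooth.fderiv_right (m := 0) (by simp)).continuousAt
    have k2 : ContinuousAt (fderiv ℝ G) (0, x0) :=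
      (hr.smooth.fderiv_right (m := 0) (by simp)).continuousAt
    have k3 : ContinuousAt (fun q : (P × P) × E n => fderiv ℝ I (q.1.1, G (q.1.2, q.2)))
        ((0, 0), x0) :=
      ContinuousAt.comp (g := fderiv ℝ I)
        (f := fun q : (P × P) × E n => ((q.1.1, G (q.1.2, q.2)) : P × E n)) k1 c2
    have k4 : ContinuousAt (fun q : (P × P) × E n => fderiv ℝ G (q.1.2, q.2)) ((0, 0), x0) :=
      ContinuousAt.comp (g := fderiv ℝ G)
        (f := fun q : (P × P) × E n => ((q.1.2, q.2) : P × E n)) k2 c0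
    exact (k3.clm_comp continuousAt_const).clm_comp (k4.clm_comp continuousAt_const)
  have v0 : fderiv ℝ (fun y => I ((0 : P), G ((0 : P), y))) x0 = ContinuousLinearMap.id ℝ (E n) := by
    have t6 : Tendsto (fun y : E n => ((0, y) : P × E n)) (𝓝 x0) (𝓝 (0, x0)) :=
      (Continuous.prodMk_right (0 : P)).tendsto x0
    have e8 : (fun y => I ((0 : P), G ((0 : P), y))) =ᶠ[𝓝 x0] fun y => y := by
      filter_upwards [t6.eventually hI3] with y hy
      exact hy
    rw [e8.fderiv_eq]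
    exact fderiv_fun_id
  have e9 : ∀ᶠ q : (P × P) × E n in 𝓝 ((0, 0), x0),
      ‖fderiv ℝ (fun y => I (q.1.1, G (q.1.2, y))) q.2 - ContinuousLinearMap.id ℝ (E n)‖ < κ := by
    have t7 : Tendsto (fun q : (P × P) × E n =>
        ‖((fderiv ℝ I (q.1.1, G (q.1.2, q.2))).comp (ContinuousLinearMap.inr ℝ P (E n))).comp
          ((fderiv ℝ G (q.1.2, q.2)).comp (ContinuousLinearMap.inr ℝ P (E n))) -
            ContinuousLinearMap.id ℝ (E n)‖) (𝓝 ((0, 0), x0))
        (𝓝 ‖((fderiv ℝ I (0, G (0, x0))).comp (ContinuousLinearMap.inr ℝ P (E n))).comp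
          ((fderiv ℝ G (0, x0)).comp (ContinuousLinearMap.inr ℝ P (E n))) -
            ContinuousLinearMap.id ℝ (E n)‖) :=
      (c4.sub (continuousAt_const (y := ContinuousLinearMap.id ℝ (E n)))).norm
    have t7' : fderiv ℝ (fun y => I ((0 : P), G ((0 : P), y))) x0 =
        ((fderiv ℝ I (0, G (0, x0))).comp (ContinuousLinearMap.inr ℝ P (E n))).comp
          ((fderiv ℝ G (0, x0)).comp (ContinuousLinearMap.inr ℝ P (E n))) :=
      d1 ((0, 0), x0) hr hI1'
    rw [← t7', v0, sub_self, norm_zero] at t7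
    filter_upwards [t7.eventually_lt_const hκ, e5, e6] with q h1 h2 h3
    rw [d1 q h2 h3]
    exact h1
  filter_upwards [e1, e4, e4.eventually_nhds, e5, e6, e7, e9] with q h1 h2 h3 h4 h5 h6 h7
  have t9 : Tendsto (fun z : P × E n => (((q.1.1, z.1), z.2) : (P × P) × E n))
      (𝓝 (q.1.2, q.2)) (𝓝 q) := by
    have : Continuous fun z : P × E n => (((q.1.1, z.1), z.2) : (P × P) × E n) := by fun_prop
    exact this.tendsto _
  have f1 : Th G b q.1.1 =ᶠ[𝓝 (q.1.2, q.2)] fun z => I (q.1.1, G z) := t9.eventually h3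
  have t10 : Tendsto (fun z : P × E n => ((q.1.1, G z) : P × E n)) (𝓝 (q.1.2, q.2))
      (𝓝 (q.1.1, G (q.1.2, q.2))) := by
    have := h4.cont
    exact (continuousAt_const (y := q.1.1)).prodMk this
  have t11 : Tendsto (fun y : E n => ((q.1.2, y) : P × E n)) (𝓝 q.2) (𝓝 (q.1.2, q.2)) :=
    (Continuous.prodMk_right q.1.2).tendsto q.2
  refine ⟨?_, by rw [h2]; exact h6, ?_, by rw [h2]; exact h1⟩
  · filter_upwards [f1.eventually_nhds, h4.1, t10.eventually h5.1] with z hz1 hz2 hz3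
    have : ContDiffAt ℝ ∞ (fun z => I (q.1.1, G z)) z :=
      ContDiffAt.comp (g := I) z hz3 (contDiffAt_const.prodMk hz2)
    exact this.congr_of_eventuallyEq hz1
  · have f2 : (fun y => Th G b q.1.1 (q.1.2, y)) =ᶠ[𝓝 q.2]
        fun y => I (q.1.1, G (q.1.2, y)) := t11.eventually f1
    rw [f2.fderiv_eq]
    exact h7

/-- a smooth function, zero near the origin and one far away -/
theorem exists_cut {c : ℝ} (hc : 0 < c) : ∃ (χ : E n → ℝ) (Λ : ℝ), ContDiff ℝ ∞ χ ∧ 0 ≤ Λ ∧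
    (∀ x, 0 ≤ χ x ∧ χ x ≤ 1) ∧ (∀ x, ‖x‖ ≤ c / 2 → χ x = 0) ∧ (∀ x, c ≤ ‖x‖ → χ x = 1) ∧
    ∀ x, ‖fderiv ℝ χ x‖ ≤ Λ := by
  let f : ContDiffBump (0 : E n) := ⟨c / 2, c, by positivity, by linarith⟩
  have hsm : ContDiff ℝ ∞ (f : E n → ℝ) := f.contDiff
  have hcs : HasCompactSupport (fderiv ℝ (f : E n → ℝ)) := f.hasCompactSupport.fderiv (𝕜 := ℝ)
  obtain ⟨Λ, hΛ⟩ := hcs.exists_bound_of_continuous (hsm.continuous_fderiv (by simp))
  refine ⟨fun x => 1 - f x, Λ, contDiff_const.sub hsm, (norm_nonneg _).trans (hΛ 0), ?_, ?_, ?_, ?_⟩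
  · intro x
    exact ⟨sub_nonneg.2 f.le_one, by linarith [f.nonneg (x := x)]⟩
  · intro x hx
    show 1 - f x = 0
    rw [f.one_of_mem_closedBall (mem_closedBall_zero_iff.2 hx), sub_self]
  · intro x hx
    show 1 - f x = 1
    rw [f.zero_of_le_dist (by rw [dist_zero_right]; exact hx), sub_zero]
  · intro x
    have h1 : fderiv ℝ (fun x => 1 - f x) x = -fderiv ℝ f x := by
      rw [fderiv_const_sub]
    rw [h1, norm_neg]
    exact hΛ x

/-- a linear map close to the identity is bijective -/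
theorem bij_of_near {L : E n →L[ℝ] E n} (hL : ‖L - ContinuousLinearMap.id ℝ (E n)‖ < 1) :
    Bijective L := by
  have hinj : Injective L := by
    rw [injective_iff_map_eq_zero]
    intro v hv
    by_contra hne
    have hpos : 0 < ‖v‖ := norm_pos_iff.2 hne
    have h1 := (L - ContinuousLinearMap.id ℝ (E n)).le_opNorm v
    have h2 : (L - ContinuousLinearMap.id ℝ (E n)) v = -v := by
      simp [hv]
    rw [h2, norm_neg] at h1
    nlinarith
  exact ⟨hinj, LinearMap.surjective_of_injective (f := (L : E n →ₗ[ℝ] E n)) hinj⟩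

/-- maps close to the identity on a convex set are injective -/
theorem injOn_of_near {f : E n → E n} {s : Set (E n)} (hs : Convex ℝ s)
    (hd : ∀ x ∈ s, DifferentiableAt ℝ f x)
    (hb : ∀ x ∈ s, ‖fderiv ℝ f x - ContinuousLinearMap.id ℝ (E n)‖ ≤ 1 / 2) : InjOn f s := by
  intro x hx y hy hxy
  have h1 := hs.norm_image_sub_le_of_norm_fderiv_le (f := fun x => f x - x) (𝕜 := ℝ) (C := 1 / 2)
    (fun z hz => (hd z hz).sub differentiableAt_id) (fun z hz => by
      have : fderiv ℝ (fun x => f x - x) z = fderiv ℝ f z - ContinuousLinearMap.id ℝ (E n) :=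
        ((hd z hz).hasFDerivAt.sub (hasFDerivAt_id z)).fderiv
      rw [this]
      exact hb z hz) hx hy
  have h2 : f y - y - (f x - x) = -(y - x) := by
    rw [hxy]; abel
  rw [h2, norm_neg] at h1
  have h3 : ‖y - x‖ ≤ 0 := by linarith [norm_nonneg (y - x)]
  exact (sub_eq_zero.1 (norm_le_zero_iff.1 h3)).symm

/-- the family is, near the sphere of radius `c`, a small modification of one of its maps -/
theorem Iso.pre [Nontrivial P] (h : Iso G a b) {c ε a' : ℝ} (hc : 0 < c) (hcε : c < ε)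
    (hεb : ε < b) (ha' : 0 < a') :
    ∃ (δ : ℝ) (s1 : P) (Ψ : P × E n → E n), 0 < δ ∧ δ < a ∧ δ < a' ∧ s1 ≠ 0 ∧ ‖s1‖ < a ∧
      (∀ s x, ‖s‖ < δ → ‖x‖ < ε → Reg Ψ (s, x)) ∧
      (∀ s x, ‖s‖ < δ → ‖x‖ < ε → ‖Ψ (s, x)‖ < b) ∧
      (∀ s, ‖s‖ < δ → InjOn (fun x => Ψ (s, x)) (ball 0 ε)) ∧
      (∀ s x, ‖x‖ ≤ c / 2 → Ψ (s, x) = x) ∧
      ∀ s x, ‖s‖ < δ → c ≤ ‖x‖ → ‖x‖ < ε → G (s1, Ψ (s, x)) = G (s, x) := by
  obtain ⟨χ, Λ, hχ, hΛ, hχ01, hχ0, hχ1, hχd⟩ := exists_cut (n := n) hc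
  obtain ⟨κ, hκ, hκ1, hκ2⟩ : ∃ κ : ℝ, 0 < κ ∧ κ * (Λ + 1) ≤ 1 / 2 ∧ κ ≤ b - ε := by
    refine ⟨min (1 / (2 * (Λ + 1))) (b - ε), lt_min (by positivity) (by linarith), ?_,
      min_le_right _ _⟩
    calc min (1 / (2 * (Λ + 1))) (b - ε) * (Λ + 1) ≤ (1 / (2 * (Λ + 1))) * (Λ + 1) :=
          mul_le_mul_of_nonneg_right (min_le_left _ _) (by positivity)
      _ = 1 / 2 := by field_simp
  have hK : IsCompact (closedBall (0 : E n) ε \ ball 0 (c / 2)) :=
    (isCompact_closedBall (0 : E n) ε).diff isOpen_ball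
  have h1 := hK.eventually_forall_of_forall_eventually (x₀ := ((0, 0) : P × P))
    (P := fun p x => Good G b κ p.1 p.2 x) (fun y hy => by
      have hy1 := mem_closedBall_zero_iff.1 hy.1
      have hy2 : c / 2 ≤ ‖y‖ := not_lt.1 fun h => hy.2 (mem_ball_zero_iff.2 h)
      exact h.good hκ (norm_pos_iff.1 (by linarith)) (by linarith))
  obtain ⟨δ0, hδ0, hδ⟩ := Metric.eventually_nhds_iff.1 h1
  set δ := min (min (a / 2) (a' / 2)) (δ0 / 2) with hδdef
  have hδpos : 0 < δ := lt_min (lt_min (by linarith [h.ha]) (by linarith)) (by linarith)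
  have hδa : δ < a := ((min_le_left _ _).trans (min_le_left _ _)).trans_lt (by linarith [h.ha])
  have hδa' : δ < a' := ((min_le_left _ _).trans (min_le_right _ _)).trans_lt (by linarith)
  have hδδ0 : δ < δ0 := (min_le_right _ _).trans_lt (by linarith)
  obtain ⟨s1, hs1⟩ := exists_norm_eq P (show (0:ℝ) ≤ δ / 2 by positivity)
  have hs10 : s1 ≠ 0 := norm_pos_iff.1 (by rw [hs1]; positivity)
  have hgood : ∀ s x, ‖s‖ < δ → c / 2 ≤ ‖x‖ → ‖x‖ < ε → Good G b κ s1 s x := by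
    intro s x hs hx1 hx2
    refine hδ (y := (s1, s)) ?_ x ⟨mem_closedBall_zero_iff.2 hx2.le,
      fun h => absurd (mem_ball_zero_iff.1 h) (not_lt.2 hx1)⟩
    rw [dist_eq_norm, Prod.norm_def]
    simp only [Prod.fst_sub, Prod.snd_sub, sub_zero]
    exact max_lt (by rw [hs1]; linarith) (by linarith)
  set Ψ : P × E n → E n := fun z => z.2 + χ z.2 • (Th G b s1 z - z.2) with hΨ
  have hΨ0 : ∀ s x, ‖x‖ ≤ c / 2 → Ψ (s, x) = x := by
    intro s x hx
    show x + χ x • (Th G b s1 (s, x) - x) = x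
    rw [hχ0 x hx, zero_smul, add_zero]
  -- smoothness
  have hsm : ∀ s x, ‖s‖ < δ → ‖x‖ < ε → ∀ᶠ z in 𝓝 ((s, x) : P × E n), ContDiffAt ℝ ∞ Ψ z := by
    intro s x hs hx
    by_cases hx2 : ‖x‖ < c / 2
    · have h2 : ∀ᶠ z : P × E n in 𝓝 (s, x), ‖z.2‖ < c / 2 :=
        (continuous_snd.norm.tendsto (s, x)).eventually_lt_const hx2
      filter_upwards [h2.eventually_nhds] with z hz
      refine (contDiffAt_snd (𝕜 := ℝ)).congr_of_eventuallyEq ?_
      filter_upwards [hz] with w hw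
      exact hΨ0 w.1 w.2 hw.le
    · filter_upwards [(hgood s x hs (not_lt.1 hx2) hx).1] with z hz
      exact contDiffAt_snd.add ((hχ.contDiffAt.comp z contDiffAt_snd).smul (hz.sub contDiffAt_snd))
  have hder : ∀ s x, ‖s‖ < δ → ‖x‖ < ε → DifferentiableAt ℝ (fun y => Ψ (s, y)) x ∧
      ‖fderiv ℝ (fun y => Ψ (s, y)) x - ContinuousLinearMap.id ℝ (E n)‖ ≤ 1 / 2 := by
    intro s x hs hx
    have hdiff : DifferentiableAt ℝ (fun y => Ψ (s, y)) x :=
      (slice_smooth (z := (s, x)) (hsm s x hs hx).self_of_nhds).differentiableAt (by simp)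
    refine ⟨hdiff, ?_⟩
    by_cases hx2 : ‖x‖ < c / 2
    · have h2 : ∀ᶠ y : E n in 𝓝 x, ‖y‖ < c / 2 :=
        (continuous_norm.tendsto x).eventually_lt_const hx2
      have h3 : (fun y => Ψ (s, y)) =ᶠ[𝓝 x] fun y => y := by
        filter_upwards [h2] with y hy
        exact hΨ0 s y hy.le
      rw [h3.fderiv_eq]
      rw [show fderiv ℝ (fun y : E n => y) x = ContinuousLinearMap.id ℝ (E n) from fderiv_fun_id,
        sub_self, norm_zero]
      norm_num
    · obtain ⟨g1, g2, g3, -⟩ := hgood s x hs (not_lt.1 hx2) hx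
      have d1 : DifferentiableAt ℝ (fun y => Th G b s1 (s, y)) x :=
        (slice_smooth (z := (s, x)) g1.self_of_nhds).differentiableAt (by simp)
      have d2 : DifferentiableAt ℝ χ x := (hχ.differentiable (by simp)) x
      have h4 : HasFDerivAt (fun y => Ψ (s, y))
          (ContinuousLinearMap.id ℝ (E n) + (χ x • (fderiv ℝ (fun y => Th G b s1 (s, y)) x -
            ContinuousLinearMap.id ℝ (E n)) +
            (fderiv ℝ χ x).smulRight (Th G b s1 (s, x) - x))) x :=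
        (hasFDerivAt_id x).add (d2.hasFDerivAt.smul (d1.hasFDerivAt.sub (hasFDerivAt_id x)))
      rw [h4.fderiv, add_sub_cancel_left]
      refine (norm_add_le _ _).trans ?_
      rw [norm_smul, ContinuousLinearMap.norm_smulRight_apply, Real.norm_eq_abs,
        abs_of_nonneg (hχ01 x).1]
      have h5 : χ x * ‖fderiv ℝ (fun y => Th G b s1 (s, y)) x - ContinuousLinearMap.id ℝ (E n)‖ ≤
          1 * κ := mul_le_mul (hχ01 x).2 g3.le (norm_nonneg _) zero_le_one
      have h6 : ‖fderiv ℝ χ x‖ * ‖Th G b s1 (s, x) - x‖ ≤ Λ * κ :=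
        mul_le_mul (hχd x) g2.le (norm_nonneg _) hΛ
      nlinarith
  refine ⟨δ, s1, Ψ, hδpos, hδa, hδa', hs10, by rw [hs1]; linarith, ?_, ?_, ?_, hΨ0, ?_⟩
  · intro s x hs hx
    refine reg_iff.2 ⟨hsm s x hs hx, ?_⟩
    rw [← slice_fderiv (z := (s, x)) ((hsm s x hs hx).self_of_nhds.differentiableAt (by simp))]
    exact bij_of_near ((hder s x hs hx).2.trans_lt (by norm_num))
  · intro s x hs hx
    by_cases hx2 : ‖x‖ < c / 2
    · rw [hΨ0 s x hx2.le]
      linarith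
    · obtain ⟨-, g2, -, -⟩ := hgood s x hs (not_lt.1 hx2) hx
      calc ‖Ψ (s, x)‖ ≤ ‖x‖ + ‖χ x • (Th G b s1 (s, x) - x)‖ := norm_add_le _ _
        _ ≤ ‖x‖ + κ := by
            rw [norm_smul, Real.norm_eq_abs, abs_of_nonneg (hχ01 x).1]
            have : χ x * ‖Th G b s1 (s, x) - x‖ ≤ 1 * κ :=
              mul_le_mul (hχ01 x).2 g2.le (norm_nonneg _) zero_le_one
            linarith
        _ < b := by linarith
  · intro s hs
    exact injOn_of_near (convex_ball 0 ε) (fun x hx => (hder s x hs (mem_ball_zero_iff.1 hx)).1)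
      fun x hx => (hder s x hs (mem_ball_zero_iff.1 hx)).2
  · intro s x hs hx1 hx2
    obtain ⟨-, -, -, g4⟩ := hgood s x hs (by linarith) hx2
    have : Ψ (s, x) = Th G b s1 (s, x) := by
      show x + χ x • (Th G b s1 (s, x) - x) = _
      rw [hχ1 x hx1, one_smul]
      abel
    rw [this]
    exact g4

end fam

end Pool.Agent.H816.Fam
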