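import Pool.Agent.H816.Prof
import Pool.Agent.H816.Bnd

/-!
# Profiles with prescribed ends
-/

set_option autoImplicit false

open Set Filter Topology Metric Function MeasureTheory
open scoped Manifold ContDiff

noncomputable section

namespace Pool.Agent.H816

/-- the shape of the end of a profile -/
structure Gauge (η : ℝ → ℝ) (κ : ℝ) : Prop where
  κ_pos : 0 < κ
  pos : ∀ r, 0 < r → r < κ → 0 < η r
  smooth : ∀ r, 0 < r → r < κ → ContDiffAt ℝ ∞ η r
  mono : MonotoneOn η (Ioo 0 κ)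
  tend : Tendsto η (𝓝[>] 0) (𝓝 0)
  bd : ∀ k : ℕ, ∃ C : ℝ, ∀ r, 0 < r → r < κ → ‖iteratedFDeriv ℝ (k + 1) η r‖ * η r ^ k ≤ C

/-- a constant which bounds the derivatives -/
theorem Gauge.bd' {η : ℝ → ℝ} {κ : ℝ} (h : Gauge η κ) (k : ℕ) : ∃ C : ℝ, 0 ≤ C ∧
    ∀ r, 0 < r → r < κ → ‖iteratedFDeriv ℝ (k + 1) η r‖ * η r ^ k ≤ C := by
  obtain ⟨C, hC⟩ := h.bd k
  exact ⟨max C 0, le_max_right _ _, fun r h1 h2 => (hC r h1 h2).trans (le_max_left _ _)⟩

/-- bound of the first derivative -/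
theorem Gauge.deriv_bd {η : ℝ → ℝ} {κ : ℝ} (h : Gauge η κ) : ∃ A : ℝ, 0 ≤ A ∧
    ∀ r, 0 < r → r < κ → |deriv η r| ≤ A := by
  obtain ⟨C, hC0, hC⟩ := h.bd' 0
  refine ⟨C, hC0, fun r h1 h2 => ?_⟩
  have h3 := hC r h1 h2
  rwa [pow_zero, mul_one, norm_iteratedFDeriv_eq_norm_iteratedDeriv, zero_add,
    iteratedDeriv_one, Real.norm_eq_abs] at h3

/-- Lipschitz -/
theorem Gauge.lip {η : ℝ → ℝ} {κ A : ℝ} (h : Gauge η κ)
    (hA : ∀ r, 0 < r → r < κ → |deriv η r| ≤ A) {r s : ℝ} (hr : 0 < r) (hr' : r < κ)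
    (hs : 0 < s) (hs' : s < κ) : |η r - η s| ≤ A * |r - s| := by
  have h1 := (convex_Ioo 0 κ).norm_image_sub_le_of_norm_deriv_le (f := η) (C := A)
    (fun x hx => (h.smooth x hx.1 hx.2).differentiableAt (by simp))
    (fun x hx => (Real.norm_eq_abs _).trans_le (hA x hx.1 hx.2)) ⟨hs, hs'⟩ ⟨hr, hr'⟩
  rwa [Real.norm_eq_abs, Real.norm_eq_abs] at h1

/-- linear bound -/
theorem Gauge.le_lin {η : ℝ → ℝ} {κ A : ℝ} (h : Gauge η κ)
    (hA : ∀ r, 0 < r → r < κ → |deriv η r| ≤ A) {r : ℝ} (hr : 0 < r) (hr' : r < κ) :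
    η r ≤ A * r := by
  have h1 : Tendsto (fun s => η r - η s) (𝓝[>] 0) (𝓝 (η r - 0)) := tendsto_const_nhds.sub h.tend
  have h2 : Tendsto (fun s : ℝ => A * |r - s|) (𝓝[>] 0) (𝓝 (A * |r - 0|)) := by
    have : Continuous fun s : ℝ => A * |r - s| :=
      continuous_const.mul (continuous_const.sub continuous_id).abs
    exact (this.tendsto 0).mono_left nhdsWithin_le_nhds
  rw [sub_zero] at h1 h2
  rw [abs_of_pos hr] at h2
  refine le_of_tendsto_of_tendsto h1 h2 ?_
  filter_upwards [Ioo_mem_nhdsGT h.κ_pos] with s hs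
  exact (le_abs_self _).trans (h.lip hA hr hr' hs.1 hs.2)

/-- a smaller interval on which the gauge is at most one -/
theorem Gauge.exists_small {η : ℝ → ℝ} {κ : ℝ} (h : Gauge η κ) {b : ℝ} (hb : 0 < b) :
    ∃ k : ℝ, 0 < k ∧ k < κ ∧ k ≤ b ∧ ∀ r, 0 < r → r ≤ k → η r ≤ 1 := by
  have h1 : ∀ᶠ r in 𝓝[>] (0:ℝ), η r < 1 := h.tend.eventually_lt_const one_pos
  have h2 : ∀ᶠ r in 𝓝[>] (0:ℝ), r ∈ Ioo 0 (min κ b) := Ioo_mem_nhdsGT (lt_min h.κ_pos hb)
  obtain ⟨k, hk1, hk2⟩ := (h1.and h2).exists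
  have hk3 : k < κ := hk2.2.trans_le (min_le_left _ _)
  refine ⟨k, hk2.1, hk3, (hk2.2.trans_le (min_le_right _ _)).le, fun r hr hrk => ?_⟩
  exact (h.mono ⟨hr, hrk.trans_lt hk3⟩ ⟨hk2.1, hk3⟩ hrk).trans hk1.le

/-- regular profiles -/
def Prof.Reg (P : Prof) : Prop := ∀ k : ℕ, ∃ C : ℝ, 0 ≤ C ∧ ∀ x, |x| < P.c →
  ‖iteratedFDeriv ℝ (k + 1) P.φ x‖ * P.φ x ^ k ≤ C

/-- the ends of the profile are given by the gauge -/
def Prof.HasEnd (P : Prof) (η : ℝ → ℝ) (k : ℝ) : Prop :=
  ∀ x, P.c - k < |x| → |x| < P.c → P.φ x = η (P.c - |x|)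

section build

variable {η : ℝ → ℝ} {κ : ℝ}

/-- the cutoff -/
def cut (k r : ℝ) : ℝ := Real.smoothTransition (3 - 4 * r / k)

theorem cut_smooth (k : ℝ) : ContDiff ℝ ∞ (cut k) :=
  Real.smoothTransition.contDiff.comp
    (contDiff_const.sub ((contDiff_const.mul contDiff_id).div_const _))

theorem cut_one {k r : ℝ} (hk : 0 < k) (hr : r ≤ k / 2) : cut k r = 1 := by
  refine Real.smoothTransition.one_of_one_le ?_
  have : 4 * r / k ≤ 2 := by
    rw [div_le_iff₀ hk]
    linarith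
  linarith

theorem cut_zero {k r : ℝ} (hk : 0 < k) (hr : 3 * k / 4 ≤ r) : cut k r = 0 := by
  refine Real.smoothTransition.zero_of_nonpos ?_
  have : 3 ≤ 4 * r / k := by
    rw [le_div_iff₀ hk]
    linarith
  linarith

theorem cut_nonneg (k r : ℝ) : 0 ≤ cut k r := Real.smoothTransition.nonneg _

theorem cut_le (k r : ℝ) : cut k r ≤ 1 := Real.smoothTransition.le_one _

/-- the profile function in the distance to the end -/
def gφ (η : ℝ → ℝ) (k r : ℝ) : ℝ := cut k r * η r + (1 - cut k r)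

theorem gφ_end {k r : ℝ} (hk : 0 < k) (hr : r ≤ k / 2) : gφ η k r = η r := by
  unfold gφ
  rw [cut_one hk hr]
  ring

theorem gφ_far {k r : ℝ} (hk : 0 < k) (hr : 3 * k / 4 ≤ r) : gφ η k r = 1 := by
  unfold gφ
  rw [cut_zero hk hr]
  ring

theorem gφ_pos {k r : ℝ} (hk : 0 < k) (h1 : ∀ r, 0 < r → r ≤ k → 0 < η r) (hr : 0 < r) :
    0 < gφ η k r := by
  rcases le_total (3 * k / 4) r with h | h
  · rw [gφ_far hk h]
    exact one_pos
  · have h2 := h1 r hr (by linarith)
    have h3 := cut_nonneg k r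
    have h4 := cut_le k r
    unfold gφ
    rcases eq_or_lt_of_le h3 with h5 | h5
    · rw [← h5]
      norm_num
    · have : 0 < cut k r * η r := mul_pos h5 h2
      linarith

theorem gφ_le {k r : ℝ} (hk : 0 < k) (h1 : ∀ r, 0 < r → r ≤ k → η r ≤ 1) (hr : 0 < r) :
    gφ η k r ≤ 1 := by
  rcases le_total (3 * k / 4) r with h | h
  · rw [gφ_far hk h]
  · have h2 := h1 r hr (by linarith)
    have h3 := cut_nonneg k r
    unfold gφ
    nlinarith

theorem gφ_smooth {k r : ℝ} (hk : 0 < k) (hg : Gauge η κ) (hkκ : k < κ) (hr : 0 < r) :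
    ContDiffAt ℝ ∞ (gφ η k) r := by
  rcases lt_or_ge (3 * k / 4) r with h | h
  · have h1 : gφ η k =ᶠ[𝓝 r] fun _ => 1 := by
      filter_upwards [isOpen_Ioi.mem_nhds h] with y hy
      exact gφ_far hk (le_of_lt hy)
    exact contDiffAt_const.congr_of_eventuallyEq h1
  · have h1 := hg.smooth r hr (by linarith)
    unfold gφ
    exact ((cut_smooth k).contDiffAt.mul h1).add (contDiffAt_const.sub (cut_smooth k).contDiffAt)

/-- the profile function -/
def pφ (η : ℝ → ℝ) (k c x : ℝ) : ℝ := if |x| < c then gφ η k (c - |x|) else 0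

theorem pφ_lt {k c x : ℝ} (hx : |x| < c) : pφ η k c x = gφ η k (c - |x|) := if_pos hx

theorem pφ_ge {k c x : ℝ} (hx : c ≤ |x|) : pφ η k c x = 0 := if_neg (not_lt.2 hx)

theorem isOpen_abs_lt (c : ℝ) : IsOpen {x : ℝ | |x| < c} := isOpen_lt continuous_abs continuous_const

theorem pφ_smooth {k c x : ℝ} (hk : 0 < k) (hg : Gauge η κ) (hkκ : k < κ) (hkc : k < c)
    (hx : |x| < c) : ContDiffAt ℝ ∞ (pφ η k c) x := by
  have h0 : pφ η k c =ᶠ[𝓝 x] fun y => gφ η k (c - |y|) := by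
    filter_upwards [(isOpen_abs_lt c).mem_nhds hx] with y hy
    exact pφ_lt hy
  rcases eq_or_ne x 0 with hx0 | hx0
  · subst hx0
    have h1 : pφ η k c =ᶠ[𝓝 0] fun _ => 1 := by
      have h2 : ∀ᶠ y in 𝓝 (0 : ℝ), |y| < c - 3 * k / 4 := by
        refine (isOpen_abs_lt _).mem_nhds ?_
        show |(0 : ℝ)| < _
        rw [abs_zero]
        linarith
      filter_upwards [h0, h2] with y hy1 hy2
      rw [hy1, gφ_far hk (by linarith)]
    exact contDiffAt_const.congr_of_eventuallyEq h1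
  · refine ContDiffAt.congr_of_eventuallyEq ?_ h0
    have h1 : ContDiffAt ℝ ∞ (fun y : ℝ => c - |y|) x :=
      contDiffAt_const.sub (contDiffAt_abs hx0)
    exact ContDiffAt.comp (g := gφ η k) (f := fun y : ℝ => c - |y|) x
      (gφ_smooth hk hg hkκ (by linarith)) h1

theorem cont_iter {f : ℝ → ℝ} {x : ℝ} (hf : ContDiffAt ℝ ∞ f x) (n : ℕ) :
    ContinuousAt (fun y => ‖iteratedFDeriv ℝ n f y‖) x := by
  have h1 : ContDiffAt ℝ 0 (iteratedFDeriv ℝ n f) x := by
    refine hf.iteratedFDeriv_right ?_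
    rw [zero_add]
    exact_mod_cast le_top
  exact h1.continuousAt.norm

theorem exists_pre_gauge (hg : Gauge η κ) {c' c : ℝ} (hc' : 0 < c') (hc : c' < c) :
    ∃ (Q : Pre) (k : ℝ), Q.c' = c' ∧ Q.c = c ∧ 0 < k ∧ k ≤ κ ∧ Q.prof.HasEnd η k ∧
      Q.prof.Reg := by
  obtain ⟨k, hk, hkκ, hkc, hk1⟩ := hg.exists_small (b := c - c') (by linarith)
  have hkc' : k < c := by linarith
  obtain ⟨A, hA0, hA⟩ := hg.deriv_bd
  have hpos : ∀ r, 0 < r → r ≤ k → 0 < η r := fun r h1 h2 => hg.pos r h1 (by linarith)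
  have hsm : ∀ x, |x| < c → ContDiffAt ℝ ∞ (pφ η k c) x := fun x hx =>
    pφ_smooth hk hg hkκ hkc' hx
  -- compact part
  have hcomp : ∀ n : ℕ, ∃ B : ℝ, 0 ≤ B ∧ ∀ x, |x| ≤ c - k / 2 →
      ‖iteratedFDeriv ℝ n (pφ η k c) x‖ ≤ B := by
    intro n
    have h1 : ContinuousOn (fun y => ‖iteratedFDeriv ℝ n (pφ η k c) y‖)
        (Icc (-(c - k / 2)) (c - k / 2)) := by
      intro x hx
      refine (cont_iter (hsm x ?_) n).continuousWithinAt
      have := abs_le.2 hx
      linarith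
    obtain ⟨B, hB⟩ := isCompact_Icc.exists_bound_of_continuousOn h1
    refine ⟨max B 0, le_max_right _ _, fun x hx => ?_⟩
    have := hB x (abs_le.1 hx)
    rw [norm_norm] at this
    exact this.trans (le_max_left _ _)
  -- near the ends
  have hend : ∀ x, c - k / 2 < |x| → |x| < c → ∀ n : ℕ,
      ‖iteratedFDeriv ℝ n (pφ η k c) x‖ = ‖iteratedFDeriv ℝ n η (c - |x|)‖ := by
    intro x hx1 hx2 n
    have hx0 : x ≠ 0 := by
      rintro rfl
      rw [abs_zero] at hx1
      linarith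
    have h0 : pφ η k c =ᶠ[𝓝 x] fun y => η (c - |y|) := by
      have h2 : ∀ᶠ y in 𝓝 x, c - k / 2 < |y| :=
        (isOpen_lt continuous_const continuous_abs).mem_nhds hx1
      filter_upwards [(isOpen_abs_lt c).mem_nhds hx2, h2] with y hy1 hy2
      rw [pφ_lt hy1, gφ_end hk (by linarith)]
    rcases lt_or_gt_of_ne hx0 with hneg | hpos'
    · have h3 : pφ η k c =ᶠ[𝓝 x] fun y => η (y + c) := by
        filter_upwards [h0, isOpen_Iio.mem_nhds hneg] with y hy1 hy2
        rw [hy1, abs_of_neg hy2]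
        congr 1
        ring
      have h4 := (h3.iteratedFDeriv (𝕜 := ℝ) n).self_of_nhds
      rw [h4, iteratedFDeriv_comp_add_right, abs_of_neg hneg, show c - -x = x + c by ring]
    · have h3 : pφ η k c =ᶠ[𝓝 x] (fun z => η (z + c)) ∘ (LinearIsometryEquiv.neg ℝ (E := ℝ)) := by
        filter_upwards [h0, isOpen_Ioi.mem_nhds hpos'] with y hy1 hy2
        rw [hy1, abs_of_pos hy2]
        show η (c - y) = η (-y + c)
        congr 1
        ring
      have h4 := (h3.iteratedFDeriv (𝕜 := ℝ) n).self_of_nhds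
      rw [h4, LinearIsometryEquiv.norm_iteratedFDeriv_comp_right, iteratedFDeriv_comp_add_right,
        abs_of_pos hpos']
      congr 2
      show -x + c = c - x
      ring
  -- the constants
  obtain ⟨B1, hB10, hB1⟩ := hcomp 1
  set A' : ℝ := A + B1 + 2 / k + 1 with hA'
  have h2k : 0 < 2 / k := by positivity
  have hderiv : ∀ x, |x| < c → |deriv (pφ η k c) x| ≤ A' := by
    intro x hx
    have e1 : |deriv (pφ η k c) x| = ‖iteratedFDeriv ℝ 1 (pφ η k c) x‖ := by
      rw [norm_iteratedFDeriv_eq_norm_iteratedDeriv, iteratedDeriv_one, Real.norm_eq_abs]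
    rw [e1]
    rcases le_or_gt |x| (c - k / 2) with h | h
    · have := hB1 x h
      linarith
    · rw [hend x h hx, norm_iteratedFDeriv_eq_norm_iteratedDeriv, iteratedDeriv_one,
        Real.norm_eq_abs]
      have := hA (c - |x|) (by linarith) (by linarith)
      linarith
  have hle : ∀ x, pφ η k c x ≤ 1 := by
    intro x
    rcases lt_or_ge |x| c with h | h
    · rw [pφ_lt h]
      exact gφ_le hk hk1 (by linarith)
    · rw [pφ_ge h]
      exact zero_le_one
  have hpos' : ∀ x, |x| < c → 0 < pφ η k c x := by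
    intro x h
    rw [pφ_lt h]
    exact gφ_pos hk hpos (by linarith)
  have hlip : ∀ x, |x| < c → pφ η k c x ≤ A' * (c - |x|) := by
    intro x hx
    have hr : 0 < c - |x| := by linarith
    rcases le_or_gt (c - |x|) (k / 2) with h | h
    · rw [pφ_lt hx, gφ_end hk h]
      refine (hg.le_lin hA hr (by linarith)).trans ?_
      refine mul_le_mul_of_nonneg_right ?_ hr.le
      linarith
    · refine (hle x).trans ?_
      have h1 : 2 / k * (c - |x|) ≤ A' * (c - |x|) :=
        mul_le_mul_of_nonneg_right (by linarith) hr.le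
      refine le_trans ?_ h1
      rw [div_mul_eq_mul_div, le_div_iff₀ hk]
      linarith
  have hnn : ∀ x, 0 ≤ pφ η k c x := by
    intro x
    rcases lt_or_ge |x| c with h | h
    · exact (hpos' x h).le
    · rw [pφ_ge h]
  have hcont : Continuous (pφ η k c) := by
    refine continuous_iff_continuousAt.2 fun x => ?_
    rcases lt_trichotomy |x| c with h | h | h
    · exact (hsm x h).continuousAt
    · have h1 : pφ η k c x = 0 := pφ_ge h.ge
      rw [ContinuousAt, h1]
      have h2 : Tendsto (fun y : ℝ => A' * |(c - |y|)|) (𝓝 x) (𝓝 0) := by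
        have h3 : Continuous fun y : ℝ => A' * |(c - |y|)| :=
          continuous_const.mul (continuous_const.sub continuous_abs).abs
        have h4 := h3.tendsto x
        rwa [h, sub_self, abs_zero, mul_zero] at h4
      refine squeeze_zero hnn (fun y => ?_) h2
      rcases lt_or_ge |y| c with hy | hy
      · refine (hlip y hy).trans (le_of_eq ?_)
        rw [abs_of_pos (by linarith : 0 < c - |y|)]
      · rw [pφ_ge hy]
        positivity
    · have h1 : pφ η k c =ᶠ[𝓝 x] fun _ => 0 := by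
        have : IsOpen {y : ℝ | c < |y|} := isOpen_lt continuous_const continuous_abs
        filter_upwards [this.mem_nhds h] with y hy
        exact pφ_ge (le_of_lt hy)
      exact continuousAt_const.congr h1.symm
  let Q : Pre :=
    { c' := c', c := c, A := A', φ := pφ η k c, hc' := hc', hc := hc
      hA := by positivity
      φ_pos := hpos'
      φ_le := hle
      φ_zero := fun x hx => pφ_ge hx
      φ_cont := hcont
      φ_smooth := hsm
      φ_deriv := hderiv
      φ_one := by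
        intro x hx
        rw [pφ_lt (by linarith), gφ_far hk (by linarith)]
      φ_lip := hlip }
  refine ⟨Q, k / 2, rfl, rfl, by positivity, by linarith, ?_, ?_⟩
  · intro x hx1 hx2
    have hx1' : c - k / 2 < |x| := hx1
    have hx2' : |x| < c := hx2
    show pφ η k c x = η (c - |x|)
    rw [pφ_lt hx2', gφ_end hk (by linarith)]
  · intro n
    obtain ⟨B, hB0, hB⟩ := hcomp (n + 1)
    obtain ⟨C, hC0, hC⟩ := hg.bd' n
    refine ⟨B + C, by positivity, fun x hx => ?_⟩
    have hx' : |x| < c := hx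
    show ‖iteratedFDeriv ℝ (n + 1) (pφ η k c) x‖ * pφ η k c x ^ n ≤ B + C
    rcases le_or_gt |x| (c - k / 2) with h | h
    · calc ‖iteratedFDeriv ℝ (n + 1) (pφ η k c) x‖ * pφ η k c x ^ n ≤ B * 1 := by
            refine mul_le_mul (hB x h) (pow_le_one₀ (hnn x) (hle x)) (pow_nonneg (hnn x) _) hB0
        _ ≤ B + C := by linarith
    · rw [hend x h hx', pφ_lt hx', gφ_end hk (by linarith)]
      have := hC (c - |x|) (by linarith) (by linarith)
      linarith

end build

end Pool.Agent.H816
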