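import Pool.Agent.H816.Fam2
import Pool.Agent.H816.Gauge

/-!
# A calculus of bounds for derivatives at a variable scale
-/

set_option autoImplicit false

open Set Filter Topology Metric Function
open scoped Manifold ContDiff

noncomputable section

namespace Pool.Agent.H816.Fam

open Pool.Agent.Y522

section bdd

variable {U V W : Type*} [NormedAddCommGroup U] [NormedSpace ℝ U] [NormedAddCommGroup V]
  [NormedSpace ℝ V] [NormedAddCommGroup W] [NormedSpace ℝ W]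

/-- the derivatives of positive order at the scale `e` are bounded by the weight `w` -/
def Ord (Ω : Set U) (e w : U → ℝ) (f : U → V) : Prop :=
  ∀ i : ℕ, 1 ≤ i → ∃ C : ℝ, 0 ≤ C ∧ ∀ z ∈ Ω, ‖iteratedFDeriv ℝ i f z‖ * e z ^ i ≤ C * w z

/-- one constant for finitely many orders -/
theorem unif {X : Type*} {Ω : Set X} {F : ℕ → X → ℝ} {w : X → ℝ} (hw : ∀ z ∈ Ω, 0 ≤ w z)
    (h : ∀ i : ℕ, 1 ≤ i → ∃ C : ℝ, 0 ≤ C ∧ ∀ z ∈ Ω, F i z ≤ C * w z) (N : ℕ) :
    ∃ C : ℝ, 1 ≤ C ∧ ∀ i, 1 ≤ i → i ≤ N → ∀ z ∈ Ω, F i z ≤ C * w z := by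
  choose! c hc0 hc using h
  refine ⟨1 + ∑ i ∈ Finset.Icc 1 N, c i, ?_, ?_⟩
  · have : 0 ≤ ∑ i ∈ Finset.Icc 1 N, c i :=
      Finset.sum_nonneg fun i hi => hc0 i (Finset.mem_Icc.1 hi).1
    linarith
  · intro i h1 h2 z hz
    have h3 : c i ≤ ∑ i ∈ Finset.Icc 1 N, c i :=
      Finset.single_le_sum (f := c) (fun i hi => hc0 i (Finset.mem_Icc.1 hi).1)
        (Finset.mem_Icc.2 ⟨h1, h2⟩)
    exact (hc i h1 z hz).trans (mul_le_mul_of_nonneg_right (by linarith) (hw z hz))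

theorem ord_comp {Ω : Set U} {e l w : U → ℝ} {f : U → V} {g : V → W}
    (he : ∀ z ∈ Ω, 0 < e z) (hl : ∀ z ∈ Ω, 0 < l z) (hw : ∀ z ∈ Ω, 0 ≤ w z)
    (hfs : ∀ z ∈ Ω, ContDiffAt ℝ ∞ f z) (hgs : ∀ z ∈ Ω, ContDiffAt ℝ ∞ g (f z))
    (hf : Ord Ω e l f)
    (hg : ∀ i : ℕ, 1 ≤ i → ∃ C : ℝ, 0 ≤ C ∧ ∀ z ∈ Ω, ‖iteratedFDeriv ℝ i g (f z)‖ * l z ^ i ≤
      C * w z) : Ord Ω e w (fun y => g (f y)) := by
  intro N hN
  obtain ⟨C1, h1, hC1⟩ := unif (F := fun i z => ‖iteratedFDeriv ℝ i f z‖ * e z ^ i)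
    (fun z hz => (hl z hz).le) hf N
  obtain ⟨C2, h2, hC2⟩ := unif (F := fun i z => ‖iteratedFDeriv ℝ i g (f z)‖ * l z ^ i) hw hg N
  refine ⟨nP N * (C2 * C1 ^ N), mul_nonneg (nP_nonneg N) (by positivity), fun z hz => ?_⟩
  have hez := he z hz
  have hlz := hl z hz
  have hwz := hw z hz
  have key := comp_bd hN ((hgs z hz).of_le (by exact_mod_cast le_top))
    ((hfs z hz).of_le (by exact_mod_cast le_top)) (C := C2 * w z) (D := C1 / e z) (l := l z)
    hlz (by positivity)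
    (fun i hi1 hi2 => by
      have h3 := hC2 i hi1 hi2 z hz
      rw [inv_pow, ← div_eq_mul_inv, le_div_iff₀ (by positivity)]
      exact h3)
    (fun i hi1 hi2 => by
      have h3 := hC1 i hi1 hi2 z hz
      rw [div_pow, ← mul_div_assoc, le_div_iff₀ (by positivity)]
      refine h3.trans ?_
      rw [mul_comm]
      refine mul_le_mul_of_nonneg_left ?_ hlz.le
      exact le_self_pow₀ h1 (by omega))
  calc ‖iteratedFDeriv ℝ N (fun y => g (f y)) z‖ * e z ^ N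
      ≤ nP N * (C2 * w z * (C1 / e z) ^ N) * e z ^ N :=
        mul_le_mul_of_nonneg_right key (by positivity)
    _ = nP N * (C2 * C1 ^ N) * w z := by
        rw [div_pow]
        field_simp

theorem ord_smul {Ω : Set U} {e w1 w2 : U → ℝ} {f : U → ℝ} {g : U → V}
    (he : ∀ z ∈ Ω, 0 < e z) (hw1 : ∀ z ∈ Ω, 0 ≤ w1 z) (hw2 : ∀ z ∈ Ω, 0 ≤ w2 z)
    (hfs : ∀ z ∈ Ω, ContDiffAt ℝ ∞ f z) (hgs : ∀ z ∈ Ω, ContDiffAt ℝ ∞ g z)
    (hf : Ord Ω e w1 f) (hg : Ord Ω e w2 g) (hf0 : ∃ C : ℝ, 0 ≤ C ∧ ∀ z ∈ Ω, ‖f z‖ ≤ C * w1 z)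
    (hg0 : ∃ C : ℝ, 0 ≤ C ∧ ∀ z ∈ Ω, ‖g z‖ ≤ C * w2 z) :
    Ord Ω e (fun z => w1 z * w2 z) (fun y => f y • g y) := by
  intro N hN
  obtain ⟨C1, h1, hC1⟩ := unif (F := fun i z => ‖iteratedFDeriv ℝ i f z‖ * e z ^ i) hw1 hf N
  obtain ⟨C2, h2, hC2⟩ := unif (F := fun i z => ‖iteratedFDeriv ℝ i g z‖ * e z ^ i) hw2 hg N
  obtain ⟨C3, h3, hC3⟩ := hf0
  obtain ⟨C4, h4, hC4⟩ := hg0
  have hf' : ∀ i, i ≤ N → ∀ z ∈ Ω, ‖iteratedFDeriv ℝ i f z‖ * e z ^ i ≤ (C1 + C3) * w1 z := by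
    intro i hi z hz
    rcases Nat.eq_zero_or_pos i with h | h
    · subst h
      rw [norm_iteratedFDeriv_zero, pow_zero, mul_one]
      refine (hC3 z hz).trans (mul_le_mul_of_nonneg_right (by linarith) (hw1 z hz))
    · exact (hC1 i h hi z hz).trans (mul_le_mul_of_nonneg_right (by linarith) (hw1 z hz))
  have hg' : ∀ i, i ≤ N → ∀ z ∈ Ω, ‖iteratedFDeriv ℝ i g z‖ * e z ^ i ≤ (C2 + C4) * w2 z := by
    intro i hi z hz
    rcases Nat.eq_zero_or_pos i with h | h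
    · subst h
      rw [norm_iteratedFDeriv_zero, pow_zero, mul_one]
      refine (hC4 z hz).trans (mul_le_mul_of_nonneg_right (by linarith) (hw2 z hz))
    · exact (hC2 i h hi z hz).trans (mul_le_mul_of_nonneg_right (by linarith) (hw2 z hz))
  refine ⟨∑ i ∈ Finset.range (N + 1), (N.choose i : ℝ) * ((C1 + C3) * (C2 + C4)),
    Finset.sum_nonneg fun i _ => by positivity, fun z hz => ?_⟩
  have key := smul_bd (n := N) ((hfs z hz).of_le (by exact_mod_cast le_top))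
    ((hgs z hz).of_le (by exact_mod_cast le_top))
  have hez := he z hz
  calc ‖iteratedFDeriv ℝ N (fun y => f y • g y) z‖ * e z ^ N
      ≤ (∑ i ∈ Finset.range (N + 1), (N.choose i : ℝ) * ‖iteratedFDeriv ℝ i f z‖ *
          ‖iteratedFDeriv ℝ (N - i) g z‖) * e z ^ N :=
        mul_le_mul_of_nonneg_right key (by positivity)
    _ = ∑ i ∈ Finset.range (N + 1), (N.choose i : ℝ) * ((‖iteratedFDeriv ℝ i f z‖ * e z ^ i) *
          (‖iteratedFDeriv ℝ (N - i) g z‖ * e z ^ (N - i))) := by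
        rw [Finset.sum_mul]
        refine Finset.sum_congr rfl fun i hi => ?_
        have h5 : i ≤ N := Nat.lt_succ_iff.1 (Finset.mem_range.1 hi)
        have h6 : e z ^ N = e z ^ i * e z ^ (N - i) := by rw [← pow_add, Nat.add_sub_cancel' h5]
        rw [h6]
        ring
    _ ≤ ∑ i ∈ Finset.range (N + 1), (N.choose i : ℝ) *
          (((C1 + C3) * w1 z) * ((C2 + C4) * w2 z)) := by
        refine Finset.sum_le_sum fun i hi => ?_
        have h5 : i ≤ N := Nat.lt_succ_iff.1 (Finset.mem_range.1 hi)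
        refine mul_le_mul_of_nonneg_left ?_ (by positivity)
        exact mul_le_mul (hf' i h5 z hz) (hg' (N - i) (Nat.sub_le _ _) z hz)
          (by positivity) (mul_nonneg (by linarith) (hw1 z hz))
    _ = _ := by
        rw [Finset.sum_mul]
        refine Finset.sum_congr rfl fun i _ => ?_
        ring

theorem ord_pair {Ω : Set U} {e w : U → ℝ} {f : U → V} {g : U → W}
    (hfs : ∀ z ∈ Ω, ContDiffAt ℝ ∞ f z) (hgs : ∀ z ∈ Ω, ContDiffAt ℝ ∞ g z)
    (he : ∀ z ∈ Ω, 0 < e z) (hw : ∀ z ∈ Ω, 0 ≤ w z)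
    (hf : Ord Ω e w f) (hg : Ord Ω e w g) : Ord Ω e w (fun y => (f y, g y)) := by
  intro i hi
  obtain ⟨C1, h1, hC1⟩ := hf i hi
  obtain ⟨C2, h2, hC2⟩ := hg i hi
  refine ⟨max C1 C2, h1.trans (le_max_left _ _), fun z hz => ?_⟩
  have hez := he z hz
  have e1 : iteratedFDeriv ℝ i (fun y => (f y, g y)) z =
      (iteratedFDeriv ℝ i f z).prod (iteratedFDeriv ℝ i g z) :=
    iteratedFDeriv_prodMk (n := ∞) (hfs z hz) (hgs z hz) (by exact_mod_cast le_top)
  rw [e1, ContinuousMultilinearMap.opNorm_prod, max_mul_of_nonneg _ _ (by positivity)]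
  exact max_le ((hC1 z hz).trans (mul_le_mul_of_nonneg_right (le_max_left _ _) (hw z hz)))
    ((hC2 z hz).trans (mul_le_mul_of_nonneg_right (le_max_right _ _) (hw z hz)))

/-- composition with a linear map on the right -/
theorem comp_lin_bd (A : U →L[ℝ] V) {g : V → W} {x : U} {n : ℕ} (hg : ContDiffAt ℝ n g (A x)) :
    ‖iteratedFDeriv ℝ n (fun y => g (A y)) x‖ ≤ ‖iteratedFDeriv ℝ n g (A x)‖ * ‖A‖ ^ n := by
  obtain ⟨s, hs, hxs, hgs⟩ := exists_open hg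
  have hs' : IsOpen (A ⁻¹' s) := hs.preimage A.continuous
  have h1 := A.iteratedFDerivWithin_comp_right hgs hs.uniqueDiffOn hs'.uniqueDiffOn hxs
    (le_refl (n : WithTop ℕ∞))
  rw [iteratedFDerivWithin_of_isOpen n hs' hxs, iteratedFDerivWithin_of_isOpen n hs hxs] at h1
  have h2 : (g ∘ ⇑A) = fun y => g (A y) := rfl
  rw [← h2, h1]
  refine (ContinuousMultilinearMap.norm_compContinuousLinearMap_le _ _).trans ?_
  rw [Finset.prod_const, Finset.card_univ, Fintype.card_fin]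

/-- derivatives of positively homogeneous maps -/
theorem hom_bd [FiniteDimensional ℝ U] {f : U → V} {m : ℕ} (hf : ∀ s, s ≠ 0 → ContDiffAt ℝ ∞ f s)
    (hh : ∀ t : ℝ, 0 < t → ∀ s, f (t • s) = t ^ m • f s) (i : ℕ) :
    ∃ C : ℝ, 0 ≤ C ∧ ∀ s, s ≠ 0 → ‖iteratedFDeriv ℝ i f s‖ * ‖s‖ ^ i ≤ C * ‖s‖ ^ m := by
  have hc : ContinuousOn (iteratedFDeriv ℝ i f) (sphere 0 1) := by
    intro s hs
    have hs0 : s ≠ 0 := by
      rintro rfl
      rw [mem_sphere_zero_iff_norm, norm_zero] at hs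
      exact zero_ne_one hs
    exact ((hf s hs0).continuousAt_iteratedFDeriv (k := i)
      (by exact_mod_cast le_top)).continuousWithinAt
  obtain ⟨M, hM⟩ := (isCompact_sphere (0 : U) 1).exists_bound_of_continuousOn hc
  refine ⟨max M 0, le_max_right _ _, fun s hs => ?_⟩
  have ht : 0 < ‖s‖ := norm_pos_iff.2 hs
  set t := ‖s‖ with htd
  set A : U →L[ℝ] U := t⁻¹ • ContinuousLinearMap.id ℝ U with hA
  have hAs : A s ∈ sphere (0 : U) 1 := by
    rw [mem_sphere_zero_iff_norm]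
    show ‖t⁻¹ • s‖ = 1
    rw [norm_smul, norm_inv, Real.norm_eq_abs, abs_of_pos ht, ← htd]
    exact inv_mul_cancel₀ ht.ne'
  have hAn : ‖A‖ ≤ t⁻¹ := by
    rw [hA, norm_smul, norm_inv, Real.norm_eq_abs, abs_of_pos ht]
    exact mul_le_of_le_one_right (by positivity) ContinuousLinearMap.norm_id_le
  have hAs0 : A s ≠ 0 := by
    intro h0
    rw [h0, mem_sphere_zero_iff_norm, norm_zero] at hAs
    exact zero_ne_one hAs
  have e1 : f = fun y => t ^ m • f (A y) := by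
    funext y
    show f y = t ^ m • f (t⁻¹ • y)
    rw [← hh t ht, smul_smul, mul_inv_cancel₀ ht.ne', one_smul]
  have hsm : ContDiffAt ℝ ∞ (fun y => f (A y)) s :=
    ContDiffAt.comp (g := f) s (hf _ hAs0) A.contDiff.contDiffAt
  have h1 : iteratedFDeriv ℝ i f s = t ^ m • iteratedFDeriv ℝ i (fun y => f (A y)) s := by
    conv_lhs => rw [e1]
    exact iteratedFDeriv_const_smul_apply (f := fun y => f (A y))
      (hsm.of_le (by exact_mod_cast le_top))
  have h2 := comp_lin_bd (n := i) A (g := f) (x := s) ((hf _ hAs0).of_le (by exact_mod_cast le_top))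
  rw [h1, norm_smul, norm_pow, Real.norm_eq_abs, abs_of_pos ht]
  have h3 := hM _ hAs
  have h4 : ‖A‖ ^ i ≤ (t⁻¹) ^ i := pow_le_pow_left₀ (norm_nonneg _) hAn i
  calc t ^ m * ‖iteratedFDeriv ℝ i (fun y => f (A y)) s‖ * t ^ i
      ≤ t ^ m * (max M 0 * (t⁻¹) ^ i) * t ^ i := by
        refine mul_le_mul_of_nonneg_right ?_ (by positivity)
        refine mul_le_mul_of_nonneg_left ?_ (by positivity)
        refine h2.trans (mul_le_mul (h3.trans (le_max_left _ _)) h4 (by positivity)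
          (le_max_right _ _))
    _ = max M 0 * t ^ m := by
        rw [inv_pow]
        field_simp

end bdd

end Pool.Agent.H816.Fam
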