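import Pool.Agent.H816.Fam3

/-!
# Slowly singular families
-/

set_option autoImplicit false

open Set Filter Topology Metric Function
open scoped Manifold ContDiff

noncomputable section

namespace Pool.Agent.H816.Fam

open Pool.Agent.Y522

variable {P : Type*} [NormedAddCommGroup P] [InnerProductSpace ℝ P] {n : ℕ}

/-- the parameter -/
def tau (k r : ℝ) : ℝ := cut k r * (k / 2) + (1 - cut k r) * r

theorem tau_small {k r : ℝ} (hk : 0 < k) (hr : r ≤ k / 2) : tau k r = k / 2 := by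
  unfold tau
  rw [cut_one hk hr]
  ring

theorem tau_large {k r : ℝ} (hk : 0 < k) (hr : 3 * k / 4 ≤ r) : tau k r = r := by
  unfold tau
  rw [cut_zero hk hr]
  ring

theorem tau_pos {k r : ℝ} (hk : 0 < k) (hr : 0 < r) : 0 < tau k r := by
  have h1 := cut_nonneg k r
  have h2 := cut_le k r
  unfold tau
  rcases eq_or_lt_of_le h1 with h | h
  · rw [← h]
    linarith
  · have h3 : 0 < cut k r * (k / 2) := by positivity
    have h4 : 0 ≤ (1 - cut k r) * r := mul_nonneg (by linarith) hr.le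
    linarith

theorem tau_lt {k r δ : ℝ} (hk : k / 2 < δ) (hr : r < δ) : tau k r < δ := by
  have h1 := cut_nonneg k r
  have h2 := cut_le k r
  unfold tau
  rcases eq_or_lt_of_le h1 with h | h
  · rw [← h]
    linarith
  · have h3 : cut k r * (k / 2) < cut k r * δ := mul_lt_mul_of_pos_left hk h
    have h4 : (1 - cut k r) * r ≤ (1 - cut k r) * δ :=
      mul_le_mul_of_nonneg_left hr.le (by linarith)
    linarith

theorem tau_smooth (k : ℝ) : ContDiff ℝ ∞ (tau k) :=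
  ((cut_smooth k).mul contDiff_const).add ((contDiff_const.sub (cut_smooth k)).mul contDiff_id)

/-- a family over a punctured ball of maps with supports in a ball -/
structure Cpt (ρ : P × E n → E n) (δ c : ℝ) : Prop where
  reg : ∀ s x, s ≠ 0 → ‖s‖ < δ → Reg ρ (s, x)
  far : ∀ s x, s ≠ 0 → ‖s‖ < δ → c ≤ ‖x‖ → ρ (s, x) = x
  bij : ∀ s, s ≠ 0 → ‖s‖ < δ → Bijective fun x => ρ (s, x)

theorem Cpt.lt {ρ : P × E n → E n} {δ c : ℝ} (h : Cpt ρ δ c) {s : P} {x : E n} (hs : s ≠ 0)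
    (hsδ : ‖s‖ < δ) (hx : ‖x‖ < c) : ‖ρ (s, x)‖ < c := by
  by_contra hcon
  have h1 := h.far s _ hs hsδ (not_lt.1 hcon)
  have h2 : ρ (s, x) = x := (h.bij s hs hsδ).1 h1
  rw [h2] at hcon
  exact hcon hx

/-- the direction -/
def sg (k : ℝ) (s : P) : P := (tau k ‖s‖ / ‖s‖) • s

theorem sg_norm {k : ℝ} (hk : 0 < k) {s : P} (hs : s ≠ 0) : ‖sg k s‖ = tau k ‖s‖ := by
  have h1 : 0 < ‖s‖ := norm_pos_iff.2 hs
  unfold sg
  rw [norm_smul, norm_div, norm_norm, Real.norm_eq_abs, abs_of_pos (tau_pos hk h1)]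
  field_simp

theorem sg_ne {k : ℝ} (hk : 0 < k) {s : P} (hs : s ≠ 0) : sg k s ≠ 0 := by
  rw [← norm_pos_iff, sg_norm hk hs]
  exact tau_pos hk (norm_pos_iff.2 hs)

theorem sg_large {k : ℝ} (hk : 0 < k) {s : P} (hs : 3 * k / 4 ≤ ‖s‖) : sg k s = s := by
  have h1 : 0 < ‖s‖ := lt_of_lt_of_le (by positivity) hs
  unfold sg
  rw [tau_large hk hs, div_self h1.ne', one_smul]

theorem sg_smooth (k : ℝ) {s : P} (hs : s ≠ 0) : ContDiffAt ℝ ∞ (sg k : P → P) s := by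
  have h1 : ContDiffAt ℝ ∞ (fun s : P => ‖s‖) s := contDiffAt_norm ℝ hs
  exact (((tau_smooth k).contDiffAt.comp s h1).div h1 (norm_ne_zero_iff.2 hs)).smul contDiffAt_id

/-- the slowly singular family -/
def hr (η : ℝ → ℝ) (k : ℝ) (ρ : P × E n → E n) (z : P × E n) : E n :=
  open Classical in
  if z.1 = 0 then z.2 else gφ η k ‖z.1‖ • ρ (sg k z.1, (gφ η k ‖z.1‖)⁻¹ • z.2)

theorem hr_zero (η : ℝ → ℝ) (k : ℝ) (ρ : P × E n → E n) (x : E n) :
    hr η k ρ ((0 : P), x) = x := if_pos rfl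

theorem hr_ne (η : ℝ → ℝ) (k : ℝ) (ρ : P × E n → E n) {s : P} (hs : s ≠ 0) (x : E n) :
    hr η k ρ (s, x) = gφ η k ‖s‖ • ρ (sg k s, (gφ η k ‖s‖)⁻¹ • x) := if_neg hs

variable {η : ℝ → ℝ} {κ k δ c : ℝ} {ρ : P × E n → E n}

/-- the assumptions on the scales -/
structure Sc (η : ℝ → ℝ) (κ k δ c : ℝ) : Prop where
  hg : Gauge η κ
  hk : 0 < k
  hkκ : k < κ
  hkδ : k < δ
  hc : 0 < c
  le1 : ∀ r, 0 < r → r ≤ k → η r ≤ 1

theorem Sc.pos (h : Sc η κ k δ c) {r : ℝ} (hr : 0 < r) : 0 < gφ η k r :=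
  gφ_pos h.hk (fun r h1 h2 => h.hg.pos r h1 (h2.trans_lt h.hkκ)) hr

theorem Sc.le (h : Sc η κ k δ c) {r : ℝ} (hr : 0 < r) : gφ η k r ≤ 1 := gφ_le h.hk h.le1 hr

theorem Sc.smooth (h : Sc η κ k δ c) {r : ℝ} (hr : 0 < r) : ContDiffAt ℝ ∞ (gφ η k) r :=
  gφ_smooth h.hk h.hg h.hkκ hr

theorem Sc.tend (h : Sc η κ k δ c) : Tendsto (gφ η k) (𝓝[>] 0) (𝓝 0) := by
  refine h.hg.tend.congr' ?_
  filter_upwards [Ioo_mem_nhdsGT (show (0:ℝ) < k / 2 by linarith [h.hk])] with r hr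
  exact (gφ_end h.hk hr.2.le).symm

theorem hr_eq (h : Sc η κ k δ c) {s : P} (hs : 3 * k / 4 ≤ ‖s‖) (x : E n) :
    hr η k ρ (s, x) = ρ (s, x) := by
  have h1 : s ≠ 0 := norm_pos_iff.1 (lt_of_lt_of_le (by linarith [h.hk]) hs)
  rw [hr_ne η k ρ h1, gφ_far h.hk hs, sg_large h.hk hs, inv_one, one_smul, one_smul]

theorem hr_far (h : Sc η κ k δ c) (hρ : Cpt ρ δ c) {s : P} (hs : s ≠ 0) (hsδ : ‖s‖ < δ) {x : E n}
    (hx : c * gφ η k ‖s‖ ≤ ‖x‖) : hr η k ρ (s, x) = x := by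
  have h1 : 0 < ‖s‖ := norm_pos_iff.2 hs
  have h2 := h.pos h1
  rw [hr_ne η k ρ hs, hρ.far _ _ (sg_ne h.hk hs)
    (by rw [sg_norm h.hk hs]; exact tau_lt (by linarith [h.hk, h.hkδ]) hsδ), smul_smul,
    mul_inv_cancel₀ h2.ne', one_smul]
  rw [norm_smul, norm_inv, Real.norm_eq_abs, abs_of_pos h2, inv_mul_eq_div, le_div_iff₀ h2]
  exact hx

theorem hr_bound (h : Sc η κ k δ c) (hρ : Cpt ρ δ c) {s : P} (hs : s ≠ 0) (hsδ : ‖s‖ < δ) {x : E n}
    (hx : ‖x‖ < c * gφ η k ‖s‖) : ‖hr η k ρ (s, x)‖ < c * gφ η k ‖s‖ := by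
  have h1 : 0 < ‖s‖ := norm_pos_iff.2 hs
  have h2 := h.pos h1
  rw [hr_ne η k ρ hs, norm_smul, Real.norm_eq_abs, abs_of_pos h2, mul_comm c]
  refine mul_lt_mul_of_pos_left ?_ h2
  refine hρ.lt (sg_ne h.hk hs)
    (by rw [sg_norm h.hk hs]; exact tau_lt (by linarith [h.hk, h.hkδ]) hsδ) ?_
  rw [norm_smul, norm_inv, Real.norm_eq_abs, abs_of_pos h2, inv_mul_eq_div, div_lt_iff₀ h2]
  exact hx

theorem hr_far' (h : Sc η κ k δ c) (hρ : Cpt ρ δ c) {s : P} (hsδ : ‖s‖ < δ) {x : E n}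
    (hx : c ≤ ‖x‖) : hr η k ρ (s, x) = x := by
  by_cases hs : s = 0
  · rw [hs, hr_zero]
  · refine hr_far h hρ hs hsδ (le_trans ?_ hx)
    exact mul_le_of_le_one_right h.hc.le (h.le (norm_pos_iff.2 hs))

theorem hr_norm (h : Sc η κ k δ c) (hρ : Cpt ρ δ c) {s : P} (hs : s ≠ 0) (hsδ : ‖s‖ < δ)
    (x : E n) : ‖hr η k ρ (s, x) - x‖ ≤ 2 * c * gφ η k ‖s‖ := by
  have h2 := h.pos (norm_pos_iff.2 hs)
  have hc := h.hc
  by_cases hx : c * gφ η k ‖s‖ ≤ ‖x‖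
  · rw [hr_far h hρ hs hsδ hx, sub_self, norm_zero]
    positivity
  · have h3 := hr_bound h hρ hs hsδ (not_le.1 hx)
    have h4 := norm_sub_le (hr η k ρ (s, x)) x
    linarith [not_le.1 hx]

theorem hr_bij (h : Sc η κ k δ c) (hρ : Cpt ρ δ c) {s : P} (hsδ : ‖s‖ < δ) :
    Bijective fun x : E n => hr η k ρ (s, x) := by
  by_cases hs : s = 0
  · rw [hs]
    have : (fun x : E n => hr η k ρ ((0 : P), x)) = id := funext fun x => hr_zero η k ρ x
    rw [this]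
    exact bijective_id
  · have h2 := h.pos (norm_pos_iff.2 hs)
    have h3 : (fun x : E n => hr η k ρ (s, x)) = (fun y => gφ η k ‖s‖ • y) ∘
        (fun y => ρ (sg k s, y)) ∘ fun x => (gφ η k ‖s‖)⁻¹ • x := by
      funext x
      exact hr_ne η k ρ hs x
    rw [h3]
    have h4 : Bijective fun y : E n => gφ η k ‖s‖ • y :=
      (ContinuousLinearEquiv.smulLeft (R₁ := ℝ) (M₁ := E n) (Units.mk0 _ h2.ne')).bijective
    have h5 : Bijective fun y : E n => (gφ η k ‖s‖)⁻¹ • y :=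
      (ContinuousLinearEquiv.smulLeft (R₁ := ℝ) (M₁ := E n)
        (Units.mk0 _ (inv_ne_zero h2.ne'))).bijective
    exact h4.comp ((hρ.bij _ (sg_ne h.hk hs)
      (by rw [sg_norm h.hk hs]; exact tau_lt (by linarith [h.hk, h.hkδ]) hsδ)).comp h5)

theorem hr_reg (h : Sc η κ k δ c) (hρ : Cpt ρ δ c) {s : P} {x : E n} (hsδ : ‖s‖ < δ)
    (hz : s ≠ 0 ∨ x ≠ 0) : Reg (hr η k ρ) (s, x) := by
  by_cases hs : s = 0
  · have hx : x ≠ 0 := hz.resolve_left (fun h => h hs)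
    subst hs
    have hxp : 0 < ‖x‖ := norm_pos_iff.2 hx
    refine (Reg.snd ((0 : P), x)).congr ?_
    have e1 : ∀ᶠ r in 𝓝[>] (0:ℝ), gφ η k r < ‖x‖ / (2 * c) :=
      h.tend.eventually_lt_const (by have := h.hc; positivity)
    obtain ⟨u, hu, hu1⟩ := (mem_nhdsGT_iff_exists_Ioo_subset' (zero_lt_one (α := ℝ))).1 e1
    have hu0 : 0 < u := hu
    have e2 : ∀ᶠ z : P × E n in 𝓝 (0, x), ‖z.1‖ < min u δ := by
      have t : Tendsto (fun z : P × E n => ‖z.1‖) (𝓝 ((0 : P), x)) (𝓝 ‖(0 : P)‖) :=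
        (continuous_fst.norm.tendsto _)
      rw [norm_zero] at t
      exact t.eventually_lt_const (lt_min hu0 (h.hk.trans h.hkδ))
    have e3 : ∀ᶠ z : P × E n in 𝓝 (0, x), ‖x‖ / 2 < ‖z.2‖ := by
      have t : Tendsto (fun z : P × E n => ‖z.2‖) (𝓝 ((0 : P), x)) (𝓝 ‖x‖) :=
        (continuous_snd.norm.tendsto _)
      exact t.eventually_const_lt (by linarith)
    filter_upwards [e2, e3] with z h1 h2
    by_cases hz0 : z.1 = 0
    · exact if_pos hz0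
    · have hz1 : 0 < ‖z.1‖ := norm_pos_iff.2 hz0
      have h3 : gφ η k ‖z.1‖ < ‖x‖ / (2 * c) := hu1 ⟨hz1, h1.trans_le (min_le_left _ _)⟩
      refine hr_far (s := z.1) h hρ hz0 (h1.trans_le (min_le_right _ _)) ?_
      have hc := h.hc
      rw [lt_div_iff₀ (by positivity)] at h3
      linarith
  · have hsm : ∀ w : P × E n, w.1 ≠ 0 → ‖w.1‖ < δ → ContDiffAt ℝ ∞ (hr η k ρ) w := by
      intro w hw hwδ
      have hn : ContDiffAt ℝ ∞ (fun z : P × E n => ‖z.1‖) w :=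
        (contDiffAt_norm ℝ hw).comp w contDiffAt_fst
      have hL : ContDiffAt ℝ ∞ (fun z : P × E n => gφ η k ‖z.1‖) w :=
        ContDiffAt.comp (g := gφ η k) w (h.smooth (norm_pos_iff.2 hw)) hn
      have hLi : ContDiffAt ℝ ∞ (fun z : P × E n => (gφ η k ‖z.1‖)⁻¹) w :=
        hL.inv (h.pos (norm_pos_iff.2 hw)).ne'
      have hσ : ContDiffAt ℝ ∞ (fun z : P × E n => sg k z.1) w :=
        (sg_smooth k hw).comp w contDiffAt_fst
      have hp : ContDiffAt ℝ ∞ (fun z : P × E n =>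
          ((sg k z.1, (gφ η k ‖z.1‖)⁻¹ • z.2) : P × E n)) w :=
        hσ.prodMk (hLi.smul contDiffAt_snd)
      have hR : ContDiffAt ℝ ∞ (fun z : P × E n => ρ (sg k z.1, (gφ η k ‖z.1‖)⁻¹ • z.2)) w :=
        ContDiffAt.comp (g := ρ) w ((hρ.reg _ _ (sg_ne h.hk hw)
          (by rw [sg_norm h.hk hw]; exact tau_lt (by linarith [h.hk, h.hkδ]) hwδ)).smooth) hp
      refine (hL.smul hR).congr_of_eventuallyEq ?_
      have : ∀ᶠ z : P × E n in 𝓝 w, z.1 ≠ 0 := continuous_fst.continuousAt.eventually_ne hw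
      filter_upwards [this] with z hz
      exact if_neg hz
    refine ⟨?_, ?_⟩
    · have e1 : ∀ᶠ z : P × E n in 𝓝 (s, x), z.1 ≠ 0 := continuous_fst.continuousAt.eventually_ne hs
      have e2 : ∀ᶠ z : P × E n in 𝓝 (s, x), ‖z.1‖ < δ :=
        (continuous_fst.norm.tendsto (s, x)).eventually_lt_const hsδ
      filter_upwards [e1, e2] with z h1 h2
      exact hsm z h1 h2
    · show LD n (fun y => hr η k ρ (s, y)) x
      have h2 := h.pos (norm_pos_iff.2 hs)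
      have h3 : (fun x : E n => hr η k ρ (s, x)) = fun x => gφ η k ‖s‖ •
          ρ (sg k s, (gφ η k ‖s‖)⁻¹ • x) := funext fun x => hr_ne η k ρ hs x
      rw [h3]
      have h4 : ∀ y : E n, LD n (fun y : E n => gφ η k ‖s‖ • y) y := fun y =>
        LD_linear (ContinuousLinearEquiv.smulLeft (Units.mk0 _ h2.ne')) y
      have h5 : ∀ y : E n, LD n (fun y : E n => (gφ η k ‖s‖)⁻¹ • y) y := fun y =>
        LD_linear (ContinuousLinearEquiv.smulLeft (Units.mk0 _ (inv_ne_zero h2.ne'))) y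
      have h6 := (hρ.reg (sg k s) ((gφ η k ‖s‖)⁻¹ • x) (sg_ne h.hk hs)
        (by rw [sg_norm h.hk hs]; exact tau_lt (by linarith [h.hk, h.hkδ]) hsδ)).2
      exact LD.comp_fun (g := fun y : E n => gφ η k ‖s‖ • y)
        (f := fun x => ρ (sg k s, (gφ η k ‖s‖)⁻¹ • x)) (h4 _)
        (LD.comp_fun (g := fun y => ρ (sg k s, y)) (f := fun y : E n => (gφ η k ‖s‖)⁻¹ • y)
          h6 (h5 x))

theorem hr_cont (h : Sc η κ k δ c) (hρ : Cpt ρ δ c) {s : P} {x : E n} (hsδ : ‖s‖ < δ) :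
    ContinuousAt (hr η k ρ) (s, x) := by
  by_cases hz : s ≠ 0 ∨ x ≠ 0
  · exact (hr_reg h hρ hsδ hz).cont
  · rw [not_or, not_not, not_not] at hz
    obtain ⟨rfl, rfl⟩ := hz
    rw [Metric.continuousAt_iff]
    intro ε hε
    have e1 : ∀ᶠ r in 𝓝[>] (0:ℝ), gφ η k r < ε / (4 * c) :=
      h.tend.eventually_lt_const (by have := h.hc; positivity)
    obtain ⟨u, hu, hu1⟩ := (mem_nhdsGT_iff_exists_Ioo_subset' (zero_lt_one (α := ℝ))).1 e1
    have hu0 : 0 < u := hu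
    refine ⟨min (min u δ) (ε / 2), lt_min (lt_min hu0 (h.hk.trans h.hkδ)) (by positivity), ?_⟩
    intro z hz
    rw [hr_zero, dist_zero_right]
    have hz' : ‖z‖ < min (min u δ) (ε / 2) := by
      have : dist z ((0, 0) : P × E n) = ‖z‖ := dist_zero_right z
      rwa [this] at hz
    have hz1 : ‖z.1‖ < min u δ := (norm_fst_le z).trans_lt (hz'.trans_le (min_le_left _ _))
    have hz2 : ‖z.2‖ < ε / 2 := (norm_snd_le z).trans_lt (hz'.trans_le (min_le_right _ _))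
    by_cases hz0 : z.1 = 0
    · have : hr η k ρ z = z.2 := if_pos hz0
      rw [this]
      linarith
    · have h3 : gφ η k ‖z.1‖ < ε / (4 * c) :=
        hu1 ⟨norm_pos_iff.2 hz0, hz1.trans_le (min_le_left _ _)⟩
      have h4 := hr_norm h hρ hz0 (hz1.trans_le (min_le_right _ _)) z.2
      have hc := h.hc
      rw [lt_div_iff₀ (by positivity)] at h3
      have h5 : ‖hr η k ρ z‖ ≤ ‖hr η k ρ (z.1, z.2) - z.2‖ + ‖z.2‖ := by
        have := norm_add_le (hr η k ρ (z.1, z.2) - z.2) z.2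
        rwa [sub_add_cancel] at this
      linarith

end Pool.Agent.H816.Fam
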