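import Pool.Agent.H816.Fam4

/-!
# Slowly singular families: bounds for all derivatives
-/

set_option autoImplicit false

open Set Filter Topology Metric Function
open scoped Manifold ContDiff Nat

noncomputable section

namespace Pool.Agent.H816.Fam

open Pool.Agent.Y522

theorem inv_bd (i : ℕ) {r : ℝ} (hr : 0 < r) :
    ‖iteratedFDeriv ℝ i (fun x : ℝ => x⁻¹) r‖ * r ^ i ≤ (i ! : ℝ) * r⁻¹ := by
  rw [norm_iteratedFDeriv_eq_norm_iteratedDeriv, iteratedDeriv_eq_iterate]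
  have h1 : deriv^[i] (fun x : ℝ => x⁻¹) r = (-1) ^ i * (i ! : ℝ) * r ^ (-1 - i : ℤ) :=
    iter_deriv_inv i r
  rw [h1, norm_mul, norm_mul, norm_pow, norm_neg, norm_one, one_pow, one_mul,
    Real.norm_eq_abs, Real.norm_eq_abs, abs_of_nonneg (by positivity : (0:ℝ) ≤ (i ! : ℝ)),
    abs_of_pos (zpow_pos hr _)]
  refine le_of_eq ?_
  rw [mul_assoc]
  congr 1
  rw [← zpow_natCast r i, ← zpow_add₀ hr.ne', ← zpow_neg_one]
  congr 1
  ring

variable {P : Type*} [NormedAddCommGroup P] [InnerProductSpace ℝ P] [FiniteDimensional ℝ P] {n : ℕ}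

variable {η : ℝ → ℝ} {κ k δ c : ℝ} {ρ : P × E n → E n}

/-- the region where the family is not trivial -/
def Om (n : ℕ) (P : Type*) [NormedAddCommGroup P] (η : ℝ → ℝ) (c r0 : ℝ) : Set (P × E n) :=
  {z | 0 < ‖z.1‖ ∧ ‖z.1‖ < r0 ∧ ‖z.2‖ ≤ c * η ‖z.1‖}

omit [FiniteDimensional ℝ P] in
/-- composition with the first projection -/
theorem fst_bd {V : Type*} [NormedAddCommGroup V] [NormedSpace ℝ V] {f : P → V} {z : P × E n}
    {i : ℕ} (hf : ContDiffAt ℝ ∞ f z.1) :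
    ‖iteratedFDeriv ℝ i (fun z : P × E n => f z.1) z‖ ≤ ‖iteratedFDeriv ℝ i f z.1‖ :=
  comp_right_bd (ContinuousLinearMap.fst ℝ P (E n)) (ContinuousLinearMap.norm_fst_le ..)
    (g := f) (x := z) (hf.of_le (by exact_mod_cast le_top))

theorem ord_norm {r0 : ℝ} (h0 : ∀ r, 0 < r → r < r0 → 0 < η r ∧ η r ≤ r) :
    Ord (Om n P η c r0) (fun z => η ‖z.1‖) (fun z => η ‖z.1‖) (fun z : P × E n => ‖z.1‖) := by
  intro i hi
  obtain ⟨C, hC0, hC⟩ := hom_bd (U := P) (f := fun s => ‖s‖) (m := 1)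
    (fun s hs => contDiffAt_norm ℝ hs) (fun t ht s => by
      rw [norm_smul, Real.norm_eq_abs, abs_of_pos ht, pow_one, smul_eq_mul]) i
  refine ⟨C, hC0, fun z hz => ?_⟩
  obtain ⟨hz1, hz2, -⟩ := hz
  obtain ⟨h1, h2⟩ := h0 _ hz1 hz2
  have hs : z.1 ≠ 0 := norm_pos_iff.1 hz1
  have h3 := hC z.1 hs
  have h4 := fst_bd (n := n) (z := z) (i := i) (f := fun s : P => ‖s‖) (contDiffAt_norm ℝ hs)
  obtain ⟨j, rfl⟩ : ∃ j, i = j + 1 := ⟨i - 1, by omega⟩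
  rw [pow_one, pow_succ, ← mul_assoc] at h3
  have h5 : ‖iteratedFDeriv ℝ (j + 1) (fun s : P => ‖s‖) z.1‖ * ‖z.1‖ ^ j ≤ C :=
    le_of_mul_le_mul_right h3 hz1
  calc ‖iteratedFDeriv ℝ (j + 1) (fun z : P × E n => ‖z.1‖) z‖ * η ‖z.1‖ ^ (j + 1)
      ≤ ‖iteratedFDeriv ℝ (j + 1) (fun s : P => ‖s‖) z.1‖ * (‖z.1‖ ^ j * η ‖z.1‖) := by
        refine mul_le_mul h4 ?_ (by positivity) (norm_nonneg _)
        rw [pow_succ]
        exact mul_le_mul_of_nonneg_right (pow_le_pow_left₀ h1.le h2 j) h1.le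
    _ = (‖iteratedFDeriv ℝ (j + 1) (fun s : P => ‖s‖) z.1‖ * ‖z.1‖ ^ j) * η ‖z.1‖ := by ring
    _ ≤ C * η ‖z.1‖ := mul_le_mul_of_nonneg_right h5 h1.le

theorem ord_dir {r0 : ℝ} (h0 : ∀ r, 0 < r → r < r0 → 0 < η r ∧ η r ≤ r) :
    Ord (Om n P η c r0) (fun z => η ‖z.1‖) (fun _ => 1)
      (fun z : P × E n => ((k / 2) / ‖z.1‖) • z.1) := by
  intro i hi
  have hsm : ∀ s : P, s ≠ 0 → ContDiffAt ℝ ∞ (fun s : P => ((k / 2) / ‖s‖) • s) s := fun s hs =>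
    (contDiffAt_const.div (contDiffAt_norm ℝ hs) (norm_ne_zero_iff.2 hs)).smul contDiffAt_id
  obtain ⟨C, hC0, hC⟩ := hom_bd (U := P) (f := fun s => ((k / 2) / ‖s‖) • s) (m := 0) hsm
    (fun t ht s => by
      rw [norm_smul, Real.norm_eq_abs, abs_of_pos ht, pow_zero, one_smul, smul_smul]
      congr 1
      by_cases hs : ‖s‖ = 0
      · rw [hs]; simp
      · field_simp) i
  refine ⟨C, hC0, fun z hz => ?_⟩
  obtain ⟨hz1, hz2, -⟩ := hz
  obtain ⟨h1, h2⟩ := h0 _ hz1 hz2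
  have hs : z.1 ≠ 0 := norm_pos_iff.1 hz1
  have h3 := hC z.1 hs
  have h4 := fst_bd (n := n) (z := z) (i := i) (f := fun s : P => ((k / 2) / ‖s‖) • s) (hsm _ hs)
  rw [pow_zero, mul_one] at h3
  rw [mul_one]
  calc _ ≤ ‖iteratedFDeriv ℝ i (fun s : P => ((k / 2) / ‖s‖) • s) z.1‖ * ‖z.1‖ ^ i :=
        mul_le_mul h4 (pow_le_pow_left₀ h1.le h2 i) (by positivity) (norm_nonneg _)
    _ ≤ C := h3

/-- the bounds -/
theorem hr_ord (h : Sc η κ k δ c) (hρ : Cpt ρ δ c) {r0 : ℝ} (hr0 : r0 ≤ k / 2)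
    (h0 : ∀ r, 0 < r → r < r0 → η r ≤ r) :
    Ord (Om n P η c r0) (fun z => η ‖z.1‖) (fun z => η ‖z.1‖) (hr η k ρ) := by
  have hk := h.hk
  have hc := h.hc
  have hpos : ∀ r, 0 < r → r < r0 → 0 < η r ∧ η r ≤ r := fun r h1 h2 =>
    ⟨h.hg.pos r h1 (by linarith [h.hkκ]), h0 r h1 h2⟩
  set Ω := Om n P η c r0 with hΩ
  have he : ∀ z ∈ Ω, 0 < η ‖z.1‖ := fun z hz => (hpos _ hz.1 hz.2.1).1
  have hne : ∀ z ∈ Ω, z.1 ≠ 0 := fun z hz => norm_pos_iff.1 hz.1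
  have hns : ∀ z ∈ Ω, ContDiffAt ℝ ∞ (fun z : P × E n => ‖z.1‖) z := fun z hz =>
    (contDiffAt_norm ℝ (hne z hz)).comp z contDiffAt_fst
  have hηs : ∀ z ∈ Ω, ContDiffAt ℝ ∞ η ‖z.1‖ := fun z hz =>
    h.hg.smooth _ hz.1 (by linarith [h.hkκ, hz.2.1])
  have hLs : ∀ z ∈ Ω, ContDiffAt ℝ ∞ (fun z : P × E n => η ‖z.1‖) z := fun z hz =>
    ContDiffAt.comp (g := η) z (hηs z hz) (hns z hz)
  -- the scale
  have oL : Ord Ω (fun z => η ‖z.1‖) (fun z => η ‖z.1‖) (fun z : P × E n => η ‖z.1‖) := by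
    refine ord_comp (l := fun z => η ‖z.1‖) (g := η) he he (fun z hz => (he z hz).le) hns hηs
      (ord_norm hpos) ?_
    intro i hi
    obtain ⟨j, rfl⟩ : ∃ j, i = j + 1 := ⟨i - 1, by omega⟩
    obtain ⟨C, hC0, hC⟩ := h.hg.bd' j
    refine ⟨C, hC0, fun z hz => ?_⟩
    have h1 := hC ‖z.1‖ hz.1 (by linarith [h.hkκ, hz.2.1])
    rw [pow_succ, ← mul_assoc]
    exact mul_le_mul_of_nonneg_right h1 (he z hz).le
  -- the inverse of the scale
  have oI : Ord Ω (fun z => η ‖z.1‖) (fun z => (η ‖z.1‖)⁻¹)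
      (fun z : P × E n => (η ‖z.1‖)⁻¹) := by
    refine ord_comp (l := fun z => η ‖z.1‖) (g := fun x : ℝ => x⁻¹) he he
      (fun z hz => (inv_pos.2 (he z hz)).le) hLs (fun z hz => contDiffAt_inv ℝ (he z hz).ne') oL ?_
    intro i hi
    exact ⟨(i ! : ℝ), by positivity, fun z hz => inv_bd i (he z hz)⟩
  have hIs : ∀ z ∈ Ω, ContDiffAt ℝ ∞ (fun z : P × E n => (η ‖z.1‖)⁻¹) z := fun z hz =>
    (hLs z hz).inv (he z hz).ne'
  -- the rescaled variable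
  have oW : Ord Ω (fun z => η ‖z.1‖) (fun _ => 1) (fun z : P × E n => (η ‖z.1‖)⁻¹ • z.2) := by
    intro i hi
    obtain ⟨j, rfl⟩ : ∃ j, i = j + 1 := ⟨i - 1, by omega⟩
    obtain ⟨C1, hC10, hC1⟩ := oI (j + 1) (by omega)
    obtain ⟨C2, hC20, hC2⟩ : ∃ C : ℝ, 0 ≤ C ∧ ∀ z ∈ Ω,
        ‖iteratedFDeriv ℝ j (fun z : P × E n => (η ‖z.1‖)⁻¹) z‖ * η ‖z.1‖ ^ j ≤
          C * (η ‖z.1‖)⁻¹ := by
      rcases Nat.eq_zero_or_pos j with hj | hj
      · subst hj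
        refine ⟨1, zero_le_one, fun z hz => ?_⟩
        rw [norm_iteratedFDeriv_zero, pow_zero, mul_one, one_mul, Real.norm_eq_abs,
          abs_of_pos (inv_pos.2 (he z hz))]
      · exact oI j hj
    refine ⟨C1 * c + (j + 1) * C2, by positivity, fun z hz => ?_⟩
    have hez := he z hz
    have h1 := smul_lin_bd (n := j) (ContinuousLinearMap.snd ℝ P (E n))
      (ContinuousLinearMap.norm_snd_le ..) (f := fun z : P × E n => (η ‖z.1‖)⁻¹) (x := z)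
      ((hIs z hz).of_le (by exact_mod_cast le_top))
    have h2 : ‖iteratedFDeriv ℝ (j + 1) (fun z : P × E n => (η ‖z.1‖)⁻¹ • z.2) z‖ ≤
        ‖iteratedFDeriv ℝ (j + 1) (fun z : P × E n => (η ‖z.1‖)⁻¹) z‖ * ‖z.2‖ +
          (j + 1) * ‖iteratedFDeriv ℝ j (fun z : P × E n => (η ‖z.1‖)⁻¹) z‖ := h1
    have h3 := hC1 z hz
    have h4 := hC2 z hz
    have h5 : ‖z.2‖ ≤ c * η ‖z.1‖ := hz.2.2
    calc ‖iteratedFDeriv ℝ (j + 1) (fun z : P × E n => (η ‖z.1‖)⁻¹ • z.2) z‖ * η ‖z.1‖ ^ (j + 1)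
        ≤ (‖iteratedFDeriv ℝ (j + 1) (fun z : P × E n => (η ‖z.1‖)⁻¹) z‖ * ‖z.2‖ +
          (j + 1) * ‖iteratedFDeriv ℝ j (fun z : P × E n => (η ‖z.1‖)⁻¹) z‖) *
            η ‖z.1‖ ^ (j + 1) := mul_le_mul_of_nonneg_right h2 (by positivity)
      _ = (‖iteratedFDeriv ℝ (j + 1) (fun z : P × E n => (η ‖z.1‖)⁻¹) z‖ * η ‖z.1‖ ^ (j + 1)) *
            ‖z.2‖ + (j + 1) * (‖iteratedFDeriv ℝ j (fun z : P × E n => (η ‖z.1‖)⁻¹) z‖ *
              η ‖z.1‖ ^ j) * η ‖z.1‖ := by ring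
      _ ≤ (C1 * (η ‖z.1‖)⁻¹) * (c * η ‖z.1‖) + (j + 1) * (C2 * (η ‖z.1‖)⁻¹) * η ‖z.1‖ := by
          refine add_le_add ?_ ?_
          · exact mul_le_mul h3 h5 (norm_nonneg _) (by positivity)
          · refine mul_le_mul_of_nonneg_right ?_ hez.le
            exact mul_le_mul_of_nonneg_left h4 (by positivity)
      _ = (C1 * c + (j + 1) * C2) * 1 := by
          field_simp
  have hWs : ∀ z ∈ Ω, ContDiffAt ℝ ∞ (fun z : P × E n => (η ‖z.1‖)⁻¹ • z.2) z := fun z hz =>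
    (hIs z hz).smul contDiffAt_snd
  have hDs : ∀ z ∈ Ω, ContDiffAt ℝ ∞ (fun z : P × E n => ((k / 2) / ‖z.1‖) • z.1) z :=
    fun z hz => (contDiffAt_const.div (hns z hz) hz.1.ne').smul contDiffAt_fst
  have oP := ord_pair hDs hWs he (fun _ _ => zero_le_one) (ord_dir hpos) oW
  -- the compact set
  have hmem : ∀ z ∈ Ω, ((((k / 2) / ‖z.1‖) • z.1, (η ‖z.1‖)⁻¹ • z.2) : P × E n) ∈
      (sphere (0 : P) (k / 2)) ×ˢ (closedBall (0 : E n) c) := by
    intro z hz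
    have hez := he z hz
    have hz1 := hz.1
    have h5 : ‖z.2‖ ≤ c * η ‖z.1‖ := hz.2.2
    refine ⟨?_, ?_⟩
    · rw [mem_sphere_zero_iff_norm, norm_smul, norm_div, norm_norm, Real.norm_eq_abs,
        abs_of_pos (by positivity : 0 < k / 2)]
      field_simp
    · rw [mem_closedBall_zero_iff, norm_smul, norm_inv, Real.norm_eq_abs, abs_of_pos hez,
        inv_mul_le_iff₀ hez, mul_comm]
      exact h5
  have hreg : ∀ w ∈ (sphere (0 : P) (k / 2)) ×ˢ (closedBall (0 : E n) c), ContDiffAt ℝ ∞ ρ w := by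
    intro w hw
    have h1 : ‖w.1‖ = k / 2 := mem_sphere_zero_iff_norm.1 hw.1
    exact (hρ.reg w.1 w.2 (norm_pos_iff.1 (by rw [h1]; positivity))
      (by rw [h1]; linarith [h.hkδ])).smooth
  have hK : IsCompact ((sphere (0 : P) (k / 2)) ×ˢ (closedBall (0 : E n) c)) :=
    (isCompact_sphere _ _).prod (isCompact_closedBall _ _)
  have oR : Ord Ω (fun z => η ‖z.1‖) (fun _ => 1)
      (fun z : P × E n => ρ (((k / 2) / ‖z.1‖) • z.1, (η ‖z.1‖)⁻¹ • z.2)) := by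
    refine ord_comp (l := fun _ => 1) (g := ρ) he (fun _ _ => one_pos) (fun _ _ => zero_le_one)
      (fun z hz => (hDs z hz).prodMk (hWs z hz)) (fun z hz => hreg _ (hmem z hz)) oP ?_
    intro i hi
    obtain ⟨M, hM⟩ := hK.exists_bound_of_continuousOn (f := iteratedFDeriv ℝ i ρ)
      (fun w hw => ((hreg w hw).continuousAt_iteratedFDeriv (k := i)
        (by exact_mod_cast le_top)).continuousWithinAt)
    refine ⟨max M 0, le_max_right _ _, fun z hz => ?_⟩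
    rw [one_pow, mul_one, mul_one]
    exact (hM _ (hmem z hz)).trans (le_max_left _ _)
  have hRs : ∀ z ∈ Ω, ContDiffAt ℝ ∞
      (fun z : P × E n => ρ (((k / 2) / ‖z.1‖) • z.1, (η ‖z.1‖)⁻¹ • z.2)) z := fun z hz =>
    ContDiffAt.comp (g := ρ) z (hreg _ (hmem z hz)) ((hDs z hz).prodMk (hWs z hz))
  obtain ⟨M, hM⟩ := hK.exists_bound_of_continuousOn (f := ρ)
    (fun w hw => (hreg w hw).continuousAt.continuousWithinAt)
  have oF := ord_smul he (fun z hz => (he z hz).le) (fun _ _ => zero_le_one) hLs hRs oL oR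
    ⟨1, zero_le_one, fun z hz => by
      rw [one_mul, Real.norm_eq_abs, abs_of_pos (he z hz)]⟩
    ⟨max M 0, le_max_right _ _, fun z hz => by
      rw [mul_one]
      exact (hM _ (hmem z hz)).trans (le_max_left _ _)⟩
  -- comparison
  intro i hi
  obtain ⟨C, hC0, hC⟩ := oF i hi
  refine ⟨C, hC0, fun z hz => ?_⟩
  have h1 : ‖iteratedFDeriv ℝ i (fun z : P × E n => η ‖z.1‖ •
      ρ (((k / 2) / ‖z.1‖) • z.1, (η ‖z.1‖)⁻¹ • z.2)) z‖ * η ‖z.1‖ ^ i ≤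
      C * (η ‖z.1‖ * 1) := hC z hz
  rw [mul_one] at h1
  have hev : hr η k ρ =ᶠ[𝓝 z] fun z : P × E n => η ‖z.1‖ •
      ρ (((k / 2) / ‖z.1‖) • z.1, (η ‖z.1‖)⁻¹ • z.2) := by
    have e1 : ∀ᶠ w : P × E n in 𝓝 z, w.1 ≠ 0 :=
      continuous_fst.continuousAt.eventually_ne (hne z hz)
    have e2 : ∀ᶠ w : P × E n in 𝓝 z, ‖w.1‖ < r0 :=
      (continuous_fst.norm.tendsto z).eventually_lt_const hz.2.1
    filter_upwards [e1, e2] with w h1 h2
    have h3 : hr η k ρ w = gφ η k ‖w.1‖ • ρ (sg k w.1, (gφ η k ‖w.1‖)⁻¹ • w.2) := if_neg h1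
    rw [h3, gφ_end hk (by linarith)]
    unfold sg
    rw [tau_small hk (by linarith)]
  rw [(hev.iteratedFDeriv (𝕜 := ℝ) i).self_of_nhds]
  exact h1

/-- **The slowly singular family is singular of the first kind.** -/
theorem hr_bigO (h : Sc η κ k δ c) (hρ : Cpt ρ δ c)
    (hη : Tendsto (fun r => η r / r) (𝓝[>] 0) (𝓝 0)) (j : ℕ) : ∃ C : ℝ,
    ∀ᶠ z in 𝓝[≠] (0 : P × E n), ‖iteratedFDeriv ℝ (j + 1) (hr η k ρ) z‖ * η ‖z‖ ^ j ≤ C := by
  have hk := h.hk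
  have hc := h.hc
  have e1 : ∀ᶠ r in 𝓝[>] (0:ℝ), η r / r < 1 / (c + 1) := hη.eventually_lt_const (by positivity)
  have e2 : ∀ᶠ r in 𝓝[>] (0:ℝ), η r < 1 := h.hg.tend.eventually_lt_const one_pos
  obtain ⟨u, hu, hu1⟩ := (mem_nhdsGT_iff_exists_Ioo_subset' (zero_lt_one (α := ℝ))).1
    (e1.and e2)
  have hu0 : 0 < u := hu
  obtain ⟨r0, hr0, hr1, hr2⟩ : ∃ r0 : ℝ, 0 < r0 ∧ r0 ≤ k / 2 ∧ r0 ≤ u :=
    ⟨min (k / 2) u, lt_min (by positivity) hu0, min_le_left _ _, min_le_right _ _⟩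
  have hsmall : ∀ r, 0 < r → r < r0 → η r * (c + 1) ≤ r := by
    intro r h1 h2
    have h3 : η r / r < 1 / (c + 1) := (hu1 ⟨h1, h2.trans_le hr2⟩).1
    rw [div_lt_div_iff₀ h1 (by positivity)] at h3
    linarith
  have hpos : ∀ r, 0 < r → r < r0 → 0 < η r := fun r h1 h2 => h.hg.pos r h1 (by linarith [h.hkκ])
  have hle : ∀ r, 0 < r → r < r0 → η r ≤ r := fun r h1 h2 => by
    nlinarith [hsmall r h1 h2, hpos r h1 h2]
  obtain ⟨C, hC0, hC⟩ := hr_ord h hρ hr1 hle (j + 1) (by omega)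
  refine ⟨C + 1, ?_⟩
  have e3 : ∀ᶠ z : P × E n in 𝓝[≠] 0, ‖z‖ < r0 := by
    refine nhdsWithin_le_nhds ?_
    have t : Tendsto (fun z : P × E n => ‖z‖) (𝓝 0) (𝓝 ‖(0 : P × E n)‖) :=
      continuous_norm.tendsto _
    rw [norm_zero] at t
    exact t.eventually_lt_const hr0
  filter_upwards [e3, self_mem_nhdsWithin] with z hz hz0
  have hz0' : 0 < ‖z‖ := norm_pos_iff.2 hz0
  have hηz : 0 < η ‖z‖ := hpos _ hz0' hz
  have hηz1 : η ‖z‖ ≤ 1 := ((hu1 ⟨hz0', hz.trans_le hr2⟩).2).le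
  by_cases hΩ : z ∈ Om n P η c r0
  · have h1 := hC z hΩ
    obtain ⟨h2, h3, h4⟩ := hΩ
    have h5 : ‖z‖ = ‖z.1‖ := by
      rw [Prod.norm_def]
      refine max_eq_left (h4.trans ?_)
      nlinarith [hsmall _ h2 h3, hpos _ h2 h3]
    rw [h5] at hηz ⊢
    rw [pow_succ, ← mul_assoc] at h1
    have := le_of_mul_le_mul_right h1 hηz
    linarith
  · have hev : hr η k ρ =ᶠ[𝓝 z] ContinuousLinearMap.snd ℝ P (E n) := by
      by_cases hs : z.1 = 0
      · -- the points of level zero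
        have hz2 : z.2 ≠ 0 := fun h => hz0 (Prod.ext hs h)
        have hzp : 0 < ‖z.2‖ := norm_pos_iff.2 hz2
        have t : Tendsto (fun z : P × E n => ‖z.1‖) (𝓝 z) (𝓝 ‖z.1‖) :=
          (continuous_fst.norm.tendsto _)
        rw [hs, norm_zero] at t
        have t2 : Tendsto (fun z : P × E n => ‖z.2‖) (𝓝 z) (𝓝 ‖z.2‖) :=
          (continuous_snd.norm.tendsto _)
        filter_upwards [t.eventually_lt_const (show (0:ℝ) < min r0 (‖z.2‖ / 2) from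
          lt_min hr0 (by positivity)),
          t2.eventually_const_lt (show ‖z.2‖ / 2 < ‖z.2‖ by linarith)] with w h1 h2
        by_cases hw : w.1 = 0
        · exact if_pos hw
        · have hw1 : 0 < ‖w.1‖ := norm_pos_iff.2 hw
          have hw2 : ‖w.1‖ < r0 := h1.trans_le (min_le_left _ _)
          have hw3 : ‖w.1‖ < ‖z.2‖ / 2 := h1.trans_le (min_le_right _ _)
          refine hr_far (s := w.1) h hρ hw (by linarith [h.hkδ]) ?_
          rw [gφ_end hk (by linarith)]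
          nlinarith [hsmall _ hw1 hw2, hpos _ hw1 hw2]
      · have hs1 : 0 < ‖z.1‖ := norm_pos_iff.2 hs
        have hs2 : ‖z.1‖ < r0 := (norm_fst_le z).trans_lt hz
        have h3 : c * η ‖z.1‖ < ‖z.2‖ := by
          by_contra hcon
          exact hΩ ⟨hs1, hs2, not_lt.1 hcon⟩
        have hcont : ContinuousAt (fun w : P × E n => c * η ‖w.1‖) z := by
          have h4 : ContinuousAt η ‖z.1‖ := (h.hg.smooth _ hs1 (by linarith [h.hkκ])).continuousAt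
          exact continuousAt_const.mul
            (ContinuousAt.comp (g := η) (f := fun w : P × E n => ‖w.1‖) h4 (by fun_prop))
        have e4 : ∀ᶠ w : P × E n in 𝓝 z, c * η ‖w.1‖ < ‖w.2‖ :=
          hcont.eventually_lt (by fun_prop) h3
        filter_upwards [e4, continuous_fst.continuousAt.eventually_ne hs,
          (continuous_fst.norm.tendsto z).eventually_lt_const hs2] with w h4 h5 h6
        refine hr_far (s := w.1) h hρ h5 (by linarith [h.hkδ]) ?_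
        rw [gφ_end hk (by linarith)]
        exact h4.le
    rw [(hev.iteratedFDeriv (𝕜 := ℝ) (j + 1)).self_of_nhds]
    have h6 := lin_bd_succ (ContinuousLinearMap.snd ℝ P (E n)) z j
    have h7 : ‖iteratedFDeriv ℝ (j + 1) (ContinuousLinearMap.snd ℝ P (E n)) z‖ ≤ 1 := by
      refine h6.trans ?_
      split_ifs
      · exact ContinuousLinearMap.norm_snd_le ..
      · exact zero_le_one
    have h8 : η ‖z‖ ^ j ≤ 1 := pow_le_one₀ hηz.le hηz1
    calc _ ≤ 1 * 1 := mul_le_mul h7 h8 (by positivity) zero_le_one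
      _ ≤ C + 1 := by linarith

omit [FiniteDimensional ℝ P] in
/-- contact with the projection -/
theorem hr_contact (h : Sc η κ k δ c) (hρ : Cpt ρ δ c) :
    ∀ᶠ z in 𝓝[≠] (0 : P × E n), ‖hr η k ρ z - z.2‖ ≤ 2 * c * η ‖z‖ := by
  have hk := h.hk
  have hc := h.hc
  have e3 : ∀ᶠ z : P × E n in 𝓝[≠] 0, ‖z‖ < k / 2 := by
    refine nhdsWithin_le_nhds ?_
    have t : Tendsto (fun z : P × E n => ‖z‖) (𝓝 0) (𝓝 ‖(0 : P × E n)‖) :=
      continuous_norm.tendsto _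
    rw [norm_zero] at t
    exact t.eventually_lt_const (by positivity)
  filter_upwards [e3, self_mem_nhdsWithin] with z hz hz0
  have hz0' : 0 < ‖z‖ := norm_pos_iff.2 hz0
  have hηz : 0 < η ‖z‖ := h.hg.pos _ hz0' (by linarith [h.hkκ])
  by_cases hs : z.1 = 0
  · have : hr η k ρ z = z.2 := if_pos hs
    rw [this, sub_self, norm_zero]
    positivity
  · have hs1 : 0 < ‖z.1‖ := norm_pos_iff.2 hs
    have hs2 : ‖z.1‖ ≤ ‖z‖ := norm_fst_le z
    have h1 := hr_norm h hρ hs (by linarith [h.hkδ]) z.2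
    rw [gφ_end hk (by linarith)] at h1
    refine h1.trans (mul_le_mul_of_nonneg_left ?_ (by positivity))
    exact h.hg.mono ⟨hs1, by linarith [h.hkκ]⟩ ⟨hz0', by linarith [h.hkκ]⟩ hs2

end Pool.Agent.H816.Fam
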