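import Pool.Agent.H816.Fam5

/-!
# Replacing an isolated singular point of a family by a slowly singular one
-/

set_option autoImplicit false

open Set Filter Topology Metric Function
open scoped Manifold ContDiff

noncomputable section

namespace Pool.Agent.H816.Fam

open Pool.Agent.Y522

/-- singularities of the first kind -/
structure Big {P : Type*} [NormedAddCommGroup P] [NormedSpace ℝ P] {n : ℕ} (η : ℝ → ℝ)
    (g : P × E n → E n) : Prop where
  level : ∀ᶠ x in 𝓝 (0 : E n), g (0, x) = x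
  contact : ∃ C : ℝ, ∀ᶠ z in 𝓝[≠] (0 : P × E n), ‖g z - z.2‖ ≤ C * η ‖z‖
  bd : ∀ j : ℕ, ∃ C : ℝ, ∀ᶠ z in 𝓝[≠] (0 : P × E n),
    ‖iteratedFDeriv ℝ (j + 1) g z‖ * η ‖z‖ ^ j ≤ C

theorem Big.congr {P : Type*} [NormedAddCommGroup P] [NormedSpace ℝ P] {n : ℕ} {η : ℝ → ℝ}
    {g g' : P × E n → E n} (h : Big η g) (he : g' =ᶠ[𝓝 0] g) : Big η g' := by
  refine ⟨?_, ?_, ?_⟩
  · have t : Tendsto (fun x : E n => ((0, x) : P × E n)) (𝓝 0) (𝓝 0) :=
      (Continuous.prodMk_right (0 : P)).tendsto 0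
    filter_upwards [h.level, t.eventually he] with x h1 h2
    rw [h2, h1]
  · obtain ⟨C, hC⟩ := h.contact
    refine ⟨C, ?_⟩
    filter_upwards [hC, nhdsWithin_le_nhds he] with z h1 h2
    rw [h2]
    exact h1
  · intro j
    obtain ⟨C, hC⟩ := h.bd j
    refine ⟨C, ?_⟩
    filter_upwards [hC, nhdsWithin_le_nhds he.eventually_nhds] with z h1 h2
    rw [(Filter.EventuallyEq.iteratedFDeriv (𝕜 := ℝ) h2 (j + 1)).self_of_nhds]
    exact h1

/-- a local modification of a family -/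
structure Mdf {P : Type*} [NormedAddCommGroup P] {n : ℕ} (G G' : P × E n → E n)
    (a b r c : ℝ) : Prop where
  ra : r < a
  cb : c < b
  cont : ∀ s x, ‖s‖ < a → ‖x‖ < b → ContinuousAt G' (s, x)
  eq : ∀ s x, ‖s‖ < a → ‖x‖ < b → (r ≤ ‖s‖ ∨ c ≤ ‖x‖) → G' (s, x) = G (s, x)
  inj : ∀ s, ‖s‖ < a → InjOn (fun x => G' (s, x)) (ball 0 b)
  img : ∀ s, ‖s‖ < a → (fun x => G' (s, x)) '' ball 0 b = (fun x => G (s, x)) '' ball 0 b

variable {P : Type*} [NormedAddCommGroup P] [InnerProductSpace ℝ P] [FiniteDimensional ℝ P]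
  {n : ℕ} {G : P × E n → E n} {a b : ℝ}

theorem Iso.replace [Nontrivial P] (h : Iso G a b) {η : ℝ → ℝ} {κ : ℝ} (hg : Gauge η κ)
    (hη : Tendsto (fun r => η r / r) (𝓝[>] 0) (𝓝 0)) {r c : ℝ} (hr : 0 < r) (hc : 0 < c)
    (hra : r < a) (hcb : c < b) :
    ∃ (G' : P × E n → E n) (B : E n → E n), Mdf G G' a b r c ∧
      (∀ s x, ‖s‖ < a → ‖x‖ < b → (s ≠ 0 ∨ x ≠ 0) → Reg G' (s, x)) ∧
      (∀ s x, ‖s‖ < a → ‖x‖ < b → LD n (fun x => G' (s, x)) x) ∧
      LD n B (G' 0) ∧ Big η fun z => B (G' z) := by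
  obtain ⟨ε, hcε, hεb⟩ := exists_between hcb
  obtain ⟨δ, s1, Ψ, hδ, hδa, hδr, hs10, hs1a, hΨreg, hΨb, hΨinj, hΨ0, hΨG⟩ :=
    h.pre hc hcε hεb hr
  obtain ⟨k, hk, hkκ, hkδ2, hk1⟩ := hg.exists_small (show 0 < δ / 2 by linarith)
  have hkδ : k < δ := by linarith
  have hsc : Sc η κ k δ c := ⟨hg, hk, hkκ, hkδ, hc, hk1⟩
  -- the reference family
  obtain ⟨Gt, hGt⟩ : ∃ Gt : P × E n → E n, Gt = fun z => open Classical in
    if ‖z.2‖ < ε then G (s1, Ψ z) else G z := ⟨_, rfl⟩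
  have hGt1 : ∀ z : P × E n, ‖z.2‖ < ε → Gt z = G (s1, Ψ z) := fun z hz => by
    rw [hGt]; exact if_pos hz
  have hGt2 : ∀ s x, ‖s‖ < δ → c ≤ ‖x‖ → Gt (s, x) = G (s, x) := by
    intro s x hs hx
    by_cases hxε : ‖x‖ < ε
    · rw [hGt1 (s, x) hxε, hΨG s x hs hx hxε]
    · rw [hGt]; exact if_neg hxε
  have hLDs1 : ∀ y : E n, ‖y‖ < b → LD n (fun y => G (s1, y)) y := fun y hy =>
    (h.reg s1 y hs1a hy (Or.inl hs10)).2
  have hGtreg : ∀ s x, ‖s‖ < δ → ‖x‖ < ε → Reg Gt (s, x) := by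
    intro s x hs hx
    have h1 := Reg.comp_left (K := fun y => G (s1, y)) (R := Ψ) (z := (s, x))
      (hLDs1 _ (hΨb s x hs hx)) (hΨreg s x hs hx)
    refine h1.congr ?_
    have h2 : ∀ᶠ z : P × E n in 𝓝 (s, x), ‖z.2‖ < ε :=
      (continuous_snd.norm.tendsto (s, x)).eventually_lt_const hx
    filter_upwards [h2] with z hz
    exact hGt1 z hz
  have hGtinj : ∀ s, ‖s‖ < δ → InjOn (fun x => Gt (s, x)) (ball 0 ε) := by
    intro s hs x hx y hy hxy
    rw [mem_ball_zero_iff] at hx hy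
    have h1 : G (s1, Ψ (s, x)) = G (s1, Ψ (s, y)) := by
      have : Gt (s, x) = Gt (s, y) := hxy
      rwa [hGt1 (s, x) hx, hGt1 (s, y) hy] at this
    exact hΨinj s hs (mem_ball_zero_iff.2 hx) (mem_ball_zero_iff.2 hy)
      (h.inj s1 hs1a (mem_ball_zero_iff.2 (hΨb s x hs hx))
        (mem_ball_zero_iff.2 (hΨb s y hs hy)) h1)
  have hslice : ∀ {F : P × E n → E n} {s : P} {x : E n}, ContinuousAt F (s, x) →
      ContinuousAt (fun x => F (s, x)) x := fun {F s x} hF =>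
    ContinuousAt.comp (g := F) (f := fun x : E n => ((s, x) : P × E n)) hF
      (Continuous.prodMk_right s).continuousAt
  have hGtimg : ∀ s, ‖s‖ < δ → (fun x => Gt (s, x)) '' ball 0 ε = (fun x => G (s, x)) '' ball 0 ε := by
    intro s hs
    refine ball_image_eq hc hcε ?_ ?_ (hGtinj s hs)
      ((h.inj s (hs.trans hδa)).mono (ball_subset_ball hεb.le)) ?_ ?_ fun x h1 _ => hGt2 s x hs h1
    · intro x hx
      exact (hslice (hGtreg s x hs (mem_ball_zero_iff.1 hx)).cont).continuousWithinAt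
    · intro x hx
      exact (hslice (h.cont s x (hs.trans hδa)
        ((mem_ball_zero_iff.1 hx).trans hεb))).continuousWithinAt
    · intro r hr
      exact isOpen_image_of_LD isOpen_ball fun x hx =>
        (hGtreg s x hs ((mem_ball_zero_iff.1 hx).trans hr)).2
    · intro r hr
      exact h.opn s (hs.trans hδa) _ isOpen_ball (ball_subset_ball (hr.trans hεb).le)
  -- the difference
  obtain ⟨g, hgd⟩ : ∃ g : P × E n → E n, g = fun w => invFunOn (fun x => Gt (w.1, x))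
    (ball 0 ε) w.2 := ⟨_, rfl⟩
  have hg1 : ∀ s x, ‖s‖ < δ → ‖x‖ < ε → g (s, Gt (s, x)) = x := by
    intro s x hs hx
    rw [hgd]
    exact (hGtinj s hs).leftInvOn_invFunOn (mem_ball_zero_iff.2 hx)
  obtain ⟨ρ, hρd⟩ : ∃ ρ : P × E n → E n, ρ = fun z => open Classical in
    if ‖z.2‖ < ε then g (z.1, G z) else z.2 := ⟨_, rfl⟩
  have hρ1 : ∀ z : P × E n, ‖z.2‖ < ε → ρ z = g (z.1, G z) := fun z hz => by
    rw [hρd]; exact if_pos hz
  have hρG : ∀ s x, ‖s‖ < δ → ‖x‖ < ε → Gt (s, ρ (s, x)) = G (s, x) ∧ ‖ρ (s, x)‖ < ε := by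
    intro s x hs hx
    have h1 : G (s, x) ∈ (fun x => Gt (s, x)) '' ball 0 ε := by
      rw [hGtimg s hs]
      exact ⟨x, mem_ball_zero_iff.2 hx, rfl⟩
    obtain ⟨y, hy, hyx⟩ := h1
    have hyx' : Gt (s, y) = G (s, x) := hyx
    have h2 : ρ (s, x) = y := by
      rw [hρ1 (s, x) hx]
      show g (s, G (s, x)) = y
      rw [← hyx', hg1 s y hs (mem_ball_zero_iff.1 hy)]
    rw [h2]
    exact ⟨hyx', mem_ball_zero_iff.1 hy⟩
  have hρfar : ∀ s x, ‖s‖ < δ → c ≤ ‖x‖ → ρ (s, x) = x := by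
    intro s x hs hx
    by_cases hxε : ‖x‖ < ε
    · rw [hρ1 (s, x) hxε]
      show g (s, G (s, x)) = x
      rw [← hGt2 s x hs hx, hg1 s x hs hxε]
    · rw [hρd]; exact if_neg hxε
  have hρreg : ∀ s x, s ≠ 0 → ‖s‖ < δ → Reg ρ (s, x) := by
    intro s x hs0 hs
    by_cases hx : ‖x‖ < ε
    · obtain ⟨h1, h2⟩ := hρG s x hs hx
      have h3 : ∀ᶠ w : P × E n in 𝓝 (s, ρ (s, x)), g (w.1, Gt w) = w.2 := by
        have e1 : ∀ᶠ w : P × E n in 𝓝 (s, ρ (s, x)), ‖w.1‖ < δ :=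
          (continuous_fst.norm.tendsto (s, ρ (s, x))).eventually_lt_const hs
        have e2 : ∀ᶠ w : P × E n in 𝓝 (s, ρ (s, x)), ‖w.2‖ < ε :=
          (continuous_snd.norm.tendsto (s, ρ (s, x))).eventually_lt_const h2
        filter_upwards [e1, e2] with w hw1 hw2
        exact hg1 w.1 w.2 hw1 hw2
      have h4 := (hGtreg s (ρ (s, x)) hs h2).inverse h3
      have h5 : Reg g (s, G (s, x)) := by
        have : ((s, ρ (s, x)) : P × E n).1 = s := rfl
        rw [h1] at h4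
        exact h4
      have h6 := Reg.comp (z := (s, x)) h5 (h.reg s x (hs.trans hδa) (hx.trans hεb) (Or.inl hs0))
      refine h6.congr ?_
      have e2 : ∀ᶠ w : P × E n in 𝓝 (s, x), ‖w.2‖ < ε :=
        (continuous_snd.norm.tendsto (s, x)).eventually_lt_const hx
      filter_upwards [e2] with w hw
      exact hρ1 w hw
    · refine (Reg.snd (s, x)).congr ?_
      have e1 : ∀ᶠ w : P × E n in 𝓝 (s, x), ‖w.1‖ < δ :=
        (continuous_fst.norm.tendsto (s, x)).eventually_lt_const hs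
      have e2 : ∀ᶠ w : P × E n in 𝓝 (s, x), c < ‖w.2‖ :=
        (continuous_snd.norm.tendsto (s, x)).eventually_const_lt (hcε.trans_le (not_lt.1 hx))
      filter_upwards [e1, e2] with w hw1 hw2
      exact hρfar w.1 w.2 hw1 hw2.le
  have hρbij : ∀ s, ‖s‖ < δ → Bijective fun x => ρ (s, x) := by
    intro s hs
    constructor
    · intro x y hxy
      have hxy' : ρ (s, x) = ρ (s, y) := hxy
      by_cases hx : ‖x‖ < ε <;> by_cases hy : ‖y‖ < ε
      · have h1 := (hρG s x hs hx).1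
        rw [hxy', (hρG s y hs hy).1] at h1
        exact h.inj s (hs.trans hδa) (mem_ball_zero_iff.2 (hx.trans hεb))
          (mem_ball_zero_iff.2 (hy.trans hεb)) h1.symm
      · have h1 := (hρG s x hs hx).2
        rw [hxy', hρfar s y hs (hcε.le.trans (not_lt.1 hy))] at h1
        exact absurd h1 hy
      · have h1 := (hρG s y hs hy).2
        rw [← hxy', hρfar s x hs (hcε.le.trans (not_lt.1 hx))] at h1
        exact absurd h1 hx
      · rwa [hρfar s x hs (hcε.le.trans (not_lt.1 hx)),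
          hρfar s y hs (hcε.le.trans (not_lt.1 hy))] at hxy'
    · intro y
      by_cases hy : ‖y‖ < ε
      · have h1 : Gt (s, y) ∈ (fun x => G (s, x)) '' ball 0 ε := by
          rw [← hGtimg s hs]
          exact ⟨y, mem_ball_zero_iff.2 hy, rfl⟩
        obtain ⟨x, hx, hxy⟩ := h1
        have hxy' : G (s, x) = Gt (s, y) := hxy
        refine ⟨x, ?_⟩
        show ρ (s, x) = y
        rw [hρ1 (s, x) (mem_ball_zero_iff.1 hx)]
        show g (s, G (s, x)) = y
        rw [hxy', hg1 s y hs hy]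
      · exact ⟨y, hρfar s y hs (hcε.le.trans (not_lt.1 hy))⟩
  have hCpt : Cpt ρ δ c := ⟨fun s x h1 h2 => hρreg s x h1 h2, fun s x _ h2 h3 => hρfar s x h2 h3,
    fun s _ h2 => hρbij s h2⟩
  -- the slow family
  have hrε : ∀ s x, ‖s‖ < δ → ‖x‖ < ε → ‖Fam.hr η k ρ (s, x)‖ < ε := by
    intro s x hs hx
    by_contra hcon
    have h1 : Fam.hr η k ρ (s, Fam.hr η k ρ (s, x)) = Fam.hr η k ρ (s, x) :=
      hr_far' hsc hCpt hs (hcε.le.trans (not_lt.1 hcon))
    have h2 := (hr_bij hsc hCpt hs).1 h1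
    rw [h2] at hcon
    exact hcon hx
  obtain ⟨G', hG'⟩ : ∃ G' : P × E n → E n, G' = fun z => open Classical in
    if ‖z.1‖ < δ ∧ ‖z.2‖ < ε then Gt (z.1, Fam.hr η k ρ z) else G z := ⟨_, rfl⟩
  have hG'1 : ∀ z : P × E n, ‖z.1‖ < δ → ‖z.2‖ < ε → G' z = Gt (z.1, Fam.hr η k ρ z) :=
    fun z h1 h2 => by rw [hG']; exact if_pos ⟨h1, h2⟩
  have hG'2 : ∀ s x, (3 * k / 4 ≤ ‖s‖ ∨ c ≤ ‖x‖) → G' (s, x) = G (s, x) := by
    intro s x hsx
    by_cases h1 : ‖s‖ < δ ∧ ‖x‖ < ε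
    · rw [hG'1 (s, x) h1.1 h1.2]
      rcases hsx with h2 | h2
      · show Gt (s, Fam.hr η k ρ (s, x)) = G (s, x)
        rw [hr_eq hsc h2]
        exact (hρG s x h1.1 h1.2).1
      · show Gt (s, Fam.hr η k ρ (s, x)) = G (s, x)
        rw [hr_far' hsc hCpt h1.1 h2, hGt2 s x h1.1 h2]
    · rw [hG']; exact if_neg h1
  have hev1 : ∀ s x, ‖s‖ < δ → ‖x‖ < ε →
      G' =ᶠ[𝓝 (s, x)] fun z => Gt (z.1, Fam.hr η k ρ z) := by
    intro s x hs hx
    have e1 : ∀ᶠ w : P × E n in 𝓝 (s, x), ‖w.1‖ < δ :=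
      (continuous_fst.norm.tendsto (s, x)).eventually_lt_const hs
    have e2 : ∀ᶠ w : P × E n in 𝓝 (s, x), ‖w.2‖ < ε :=
      (continuous_snd.norm.tendsto (s, x)).eventually_lt_const hx
    filter_upwards [e1, e2] with w h1 h2
    exact hG'1 w h1 h2
  have hev2 : ∀ s x, ¬ (‖s‖ < δ ∧ ‖x‖ < ε) → G' =ᶠ[𝓝 (s, x)] G := by
    intro s x hsx
    by_cases hs : ‖s‖ < δ
    · have hx : ε ≤ ‖x‖ := not_lt.1 fun h => hsx ⟨hs, h⟩
      have e2 : ∀ᶠ w : P × E n in 𝓝 (s, x), c < ‖w.2‖ :=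
        (continuous_snd.norm.tendsto (s, x)).eventually_const_lt (hcε.trans_le hx)
      filter_upwards [e2] with w hw
      exact hG'2 w.1 w.2 (Or.inr hw.le)
    · have e2 : ∀ᶠ w : P × E n in 𝓝 (s, x), 3 * k / 4 < ‖w.1‖ :=
        (continuous_fst.norm.tendsto (s, x)).eventually_const_lt
          (show 3 * k / 4 < ‖s‖ by linarith [not_lt.1 hs])
      filter_upwards [e2] with w hw
      exact hG'2 w.1 w.2 (Or.inl hw.le)
  have hcont : ∀ s x, ‖s‖ < a → ‖x‖ < b → ContinuousAt G' (s, x) := by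
    intro s x hs hx
    by_cases h1 : ‖s‖ < δ ∧ ‖x‖ < ε
    · refine ContinuousAt.congr ?_ (hev1 s x h1.1 h1.2).symm
      exact ContinuousAt.comp (g := Gt) (f := fun z : P × E n => (z.1, Fam.hr η k ρ z))
        (hGtreg s _ h1.1 (hrε s x h1.1 h1.2)).cont
        (continuousAt_fst.prodMk (hr_cont hsc hCpt h1.1))
    · exact (h.cont s x hs hx).congr (hev2 s x h1).symm
  have hLDlev : ∀ s x, ‖s‖ < a → ‖x‖ < b → LD n (fun x => G' (s, x)) x := by
    intro s x hs hx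
    by_cases h1 : ‖s‖ < δ ∧ ‖x‖ < ε
    · have h2 : LD n (fun x => Fam.hr η k ρ (s, x)) x := by
        by_cases hs0 : s = 0
        · rw [hs0]
          have : (fun x : E n => Fam.hr η k ρ ((0 : P), x)) = fun x => x :=
            funext fun x => hr_zero η k ρ x
          rw [this]
          exact LD.id x
        · exact (hr_reg hsc hCpt h1.1 (Or.inl hs0)).2
      have h3 := LD.comp_fun (g := fun y => Gt (s, y)) (f := fun x => Fam.hr η k ρ (s, x))
        (hGtreg s _ h1.1 (hrε s x h1.1 h1.2)).2 h2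
      refine h3.congr ?_
      have t : Tendsto (fun y : E n => ((s, y) : P × E n)) (𝓝 x) (𝓝 (s, x)) :=
        (Continuous.prodMk_right s).tendsto x
      exact t.eventually (hev1 s x h1.1 h1.2)
    · have hz : s ≠ 0 ∨ x ≠ 0 := by
        by_contra hcon
        rw [not_or, not_not, not_not] at hcon
        refine h1 ⟨?_, ?_⟩
        · rw [hcon.1, norm_zero]; exact hδ
        · rw [hcon.2, norm_zero]; exact hc.trans hcε
      exact ((h.reg s x hs hx hz).congr (hev2 s x h1)).2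
  have himgε : ∀ s, ‖s‖ < δ → (fun x => G' (s, x)) '' ball 0 ε = (fun x => G (s, x)) '' ball 0 ε := by
    intro s hs
    rw [← hGtimg s hs]
    apply Subset.antisymm
    · rintro _ ⟨x, hx, rfl⟩
      rw [mem_ball_zero_iff] at hx
      exact ⟨Fam.hr η k ρ (s, x), mem_ball_zero_iff.2 (hrε s x hs hx), (hG'1 (s, x) hs hx).symm⟩
    · rintro _ ⟨y, hy, rfl⟩
      rw [mem_ball_zero_iff] at hy
      obtain ⟨x, hx⟩ := (hr_bij hsc hCpt hs).2 y
      have hx' : Fam.hr η k ρ (s, x) = y := hx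
      have hxε : ‖x‖ < ε := by
        by_contra hcon
        rw [hr_far' hsc hCpt hs (hcε.le.trans (not_lt.1 hcon))] at hx'
        rw [hx'] at hcon
        exact hcon hy
      refine ⟨x, mem_ball_zero_iff.2 hxε, ?_⟩
      show G' (s, x) = Gt (s, y)
      rw [hG'1 (s, x) hs hxε]
      show Gt (s, Fam.hr η k ρ (s, x)) = _
      rw [hx']
  refine ⟨G', ?_⟩
  obtain ⟨B, hB1, hB2, hB3, hB4⟩ := (hLDs1 0 (by rw [norm_zero]; exact h.hb)).exists_inverse
  have hnear : ∀ᶠ z : P × E n in 𝓝 0, G' z = G (s1, Fam.hr η k ρ z) := by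
    have hc0 : ContinuousAt (Fam.hr η k ρ) ((0, 0) : P × E n) :=
      hr_cont hsc hCpt (by rw [norm_zero]; exact hδ)
    have t : Tendsto (fun z => ‖Fam.hr η k ρ z‖) (𝓝 ((0, 0) : P × E n)) (𝓝 0) := by
      have := hc0.norm.tendsto
      rwa [hr_zero, norm_zero] at this
    have e1 : ∀ᶠ w : P × E n in 𝓝 ((0, 0) : P × E n), ‖w.1‖ < δ :=
      (continuous_fst.norm.tendsto _).eventually_lt_const (by rw [norm_zero]; exact hδ)
    have e2 : ∀ᶠ w : P × E n in 𝓝 ((0, 0) : P × E n), ‖w.2‖ < ε :=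
      (continuous_snd.norm.tendsto _).eventually_lt_const (by rw [norm_zero]; exact hc.trans hcε)
    filter_upwards [e1, e2, t.eventually_lt_const (show (0:ℝ) < c / 2 by positivity)]
      with z h1 h2 h3
    have h4 : ‖Fam.hr η k ρ z‖ < ε := by linarith
    rw [hG'1 z h1 h2, hGt1 (z.1, Fam.hr η k ρ z) h4, hΨ0 z.1 (Fam.hr η k ρ z) h3.le]
  have hG'0 : G' 0 = G (s1, 0) := by
    have h5 : Fam.hr η k ρ (0 : P × E n) = 0 := hr_zero η k ρ 0
    rw [hnear.self_of_nhds, h5]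
  refine ⟨B, ⟨hra, hcb, hcont, ?_, ?_, ?_⟩, ?_, hLDlev, by rw [hG'0]; exact hB1, ?_⟩
  · intro s x _ _ h3
    exact hG'2 s x (h3.imp (fun h => by linarith) id)
  · intro s hs
    by_cases hsδ : ‖s‖ < δ
    · intro x hx y hy hxy
      have hxy' : G' (s, x) = G' (s, y) := hxy
      by_cases hxε : ‖x‖ < ε <;> by_cases hyε : ‖y‖ < ε
      · rw [hG'1 (s, x) hsδ hxε, hG'1 (s, y) hsδ hyε] at hxy'
        exact (hr_bij hsc hCpt hsδ).1 (hGtinj s hsδ (mem_ball_zero_iff.2 (hrε s x hsδ hxε))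
          (mem_ball_zero_iff.2 (hrε s y hsδ hyε)) hxy')
      · exfalso
        have h1 : G' (s, x) ∈ (fun x => G (s, x)) '' ball 0 ε := by
          rw [← himgε s hsδ]
          exact ⟨x, mem_ball_zero_iff.2 hxε, rfl⟩
        rw [hxy', hG'2 s y (Or.inr (hcε.le.trans (not_lt.1 hyε)))] at h1
        obtain ⟨w, hw, hwy⟩ := h1
        have := h.inj s hs (ball_subset_ball hεb.le hw) hy hwy
        rw [this, mem_ball_zero_iff] at hw
        exact hyε hw
      · exfalso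
        have h1 : G' (s, y) ∈ (fun x => G (s, x)) '' ball 0 ε := by
          rw [← himgε s hsδ]
          exact ⟨y, mem_ball_zero_iff.2 hyε, rfl⟩
        rw [← hxy', hG'2 s x (Or.inr (hcε.le.trans (not_lt.1 hxε)))] at h1
        obtain ⟨w, hw, hwy⟩ := h1
        have := h.inj s hs (ball_subset_ball hεb.le hw) hx hwy
        rw [this, mem_ball_zero_iff] at hw
        exact hxε hw
      · rw [hG'2 s x (Or.inr (hcε.le.trans (not_lt.1 hxε))),
          hG'2 s y (Or.inr (hcε.le.trans (not_lt.1 hyε)))] at hxy'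
        exact h.inj s hs hx hy hxy'
    · intro x hx y hy hxy
      have hxy' : G' (s, x) = G' (s, y) := hxy
      rw [hG'2 s x (Or.inl (by linarith [not_lt.1 hsδ])),
        hG'2 s y (Or.inl (by linarith [not_lt.1 hsδ]))] at hxy'
      exact h.inj s hs hx hy hxy'
  · intro s hs
    by_cases hsδ : ‖s‖ < δ
    · have key : ∀ F F' : E n → E n, F '' ball 0 ε = F' '' ball 0 ε →
          (∀ x, ε ≤ ‖x‖ → F x = F' x) → F '' ball 0 b ⊆ F' '' ball 0 b := by
        intro F F' h1 h2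
        rintro _ ⟨x, hx, rfl⟩
        by_cases hxε : ‖x‖ < ε
        · have h3 : F x ∈ F' '' ball 0 ε := by
            rw [← h1]
            exact ⟨x, mem_ball_zero_iff.2 hxε, rfl⟩
          exact image_mono (ball_subset_ball hεb.le) h3
        · exact ⟨x, hx, (h2 x (not_lt.1 hxε)).symm⟩
      exact Subset.antisymm
        (key _ _ (himgε s hsδ) fun x hx => hG'2 s x (Or.inr (hcε.le.trans hx)))
        (key _ _ (himgε s hsδ).symm fun x hx => (hG'2 s x (Or.inr (hcε.le.trans hx))).symm)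
    · refine image_congr fun x _ => hG'2 s x (Or.inl (by linarith [not_lt.1 hsδ]))
  · intro s x hs hx hz
    by_cases h1 : ‖s‖ < δ ∧ ‖x‖ < ε
    · refine Reg.congr ?_ (hev1 s x h1.1 h1.2)
      exact Reg.comp (z := (s, x)) (hGtreg s _ h1.1 (hrε s x h1.1 h1.2)) (hr_reg hsc hCpt h1.1 hz)
    · exact (h.reg s x hs hx hz).congr (hev2 s x h1)
  · have hbig : Big η (Fam.hr η k ρ) := by
      refine ⟨Eventually.of_forall fun x => hr_zero η k ρ x, ⟨2 * c, hr_contact hsc hCpt⟩,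
        fun j => hr_bigO hsc hCpt hη j⟩
    refine hbig.congr ?_
    have hc0 : ContinuousAt (Fam.hr η k ρ) ((0, 0) : P × E n) :=
      hr_cont hsc hCpt (by rw [norm_zero]; exact hδ)
    have t : Tendsto (Fam.hr η k ρ) (𝓝 (0 : P × E n)) (𝓝 0) := by
      have := hc0.tendsto
      rwa [hr_zero] at this
    filter_upwards [hnear, t.eventually hB3] with z h1 h2
    rw [h1, h2]

end Pool.Agent.H816.Fam
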