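import Mathlib

/-!
# Regularity from bounds of second derivatives
-/

set_option autoImplicit false

open Set Filter Topology Metric Function
open scoped ContDiff

noncomputable section

namespace Pool.Agent.H816

section general

variable {V W : Type*} [NormedAddCommGroup V] [NormedSpace ℝ V] [NormedAddCommGroup W]
  [NormedSpace ℝ W]

theorem norm_iter_two (G : V → W) (x : V) :
    ‖iteratedFDeriv ℝ 2 G x‖ = ‖fderiv ℝ (fderiv ℝ G) x‖ := by
  have h1 : ‖iteratedFDeriv ℝ 1 (fderiv ℝ G) x‖ = ‖iteratedFDeriv ℝ (1 + 1) G x‖ :=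
    norm_iteratedFDeriv_fderiv
  rw [← norm_iteratedFDeriv_one, h1]

theorem diff_fderiv {G : V → W} {x : V} (h : ContDiffAt ℝ 2 G x) :
    DifferentiableAt ℝ (fderiv ℝ G) x := by
  have h1 : ContDiffAt ℝ 1 (fderiv ℝ G) x := h.fderiv_right (by norm_num)
  exact h1.differentiableAt (by norm_num)

theorem fderiv_lip {G : V → W} {s : Set V} (hs : Convex ℝ s) (hG : ∀ x ∈ s, ContDiffAt ℝ 2 G x)
    {K : ℝ} (hK : ∀ x ∈ s, ‖iteratedFDeriv ℝ 2 G x‖ ≤ K) {x y : V} (hx : x ∈ s) (hy : y ∈ s) :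
    ‖fderiv ℝ G y - fderiv ℝ G x‖ ≤ K * ‖y - x‖ :=
  hs.norm_image_sub_le_of_norm_fderiv_le (fun z hz => diff_fderiv (hG z hz))
    (fun z hz => by rw [← norm_iter_two]; exact hK z hz) hx hy

/-- the first order Taylor formula -/
theorem taylor_one {G : V → W} {x : V} {ρ : ℝ} (hG : ∀ y ∈ closedBall x ρ, ContDiffAt ℝ 2 G y)
    {K : ℝ} (hK : ∀ y ∈ closedBall x ρ, ‖iteratedFDeriv ℝ 2 G y‖ ≤ K) {y : V}
    (hy : y ∈ closedBall x ρ) :
    ‖G y - G x - fderiv ℝ G x (y - x)‖ ≤ K * ρ * ‖y - x‖ := by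
  have hρ : 0 ≤ ρ := (norm_nonneg _).trans (by rwa [mem_closedBall, dist_eq_norm] at hy)
  have hxx : x ∈ closedBall x ρ := mem_closedBall_self hρ
  have hK0 : 0 ≤ K := (norm_nonneg _).trans (hK x hxx)
  refine (convex_closedBall x ρ).norm_image_sub_le_of_norm_fderiv_le'
    (fun z hz => (hG z hz).differentiableAt (by norm_num)) (fun z hz => ?_) hxx hy
  refine (fderiv_lip (convex_closedBall x ρ) hG hK hxx hz).trans ?_
  refine mul_le_mul_of_nonneg_left ?_ hK0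
  rwa [mem_closedBall, dist_eq_norm] at hz

/-- interpolation -/
theorem interp {G : V → V} {x : V} {ρ a K : ℝ} (hρ : 0 < ρ)
    (hG : ∀ y ∈ closedBall x ρ, ContDiffAt ℝ 2 G y)
    (hK : ∀ y ∈ closedBall x ρ, ‖iteratedFDeriv ℝ 2 G y‖ ≤ K)
    (ha : ∀ y ∈ closedBall x ρ, ‖G y - y‖ ≤ a) :
    ‖fderiv ℝ G x - ContinuousLinearMap.id ℝ V‖ ≤ 2 * a / ρ + K * ρ := by
  have hxx : x ∈ closedBall x ρ := mem_closedBall_self hρ.le
  have ha0 : 0 ≤ a := (norm_nonneg _).trans (ha x hxx)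
  have hK0 : 0 ≤ K := (norm_nonneg _).trans (hK x hxx)
  refine ContinuousLinearMap.opNorm_le_bound _ (by positivity) fun v => ?_
  rcases eq_or_ne v 0 with hv | hv
  · subst hv
    simp
  have hv' : 0 < ‖v‖ := norm_pos_iff.2 hv
  set t : ℝ := ρ / ‖v‖ with ht
  have ht0 : 0 < t := by positivity
  set w : V := t • v with hw
  have hwn : ‖w‖ = ρ := by
    rw [hw, norm_smul, Real.norm_of_nonneg ht0.le, ht]
    field_simp
  have hy : x + w ∈ closedBall x ρ := by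
    rw [mem_closedBall, dist_eq_norm, add_sub_cancel_left, hwn]
  have h1 := taylor_one hG hK hy
  rw [add_sub_cancel_left, hwn] at h1
  have h2 := ha _ hy
  have h3 := ha _ hxx
  have h4 : (fderiv ℝ G x - ContinuousLinearMap.id ℝ V) w =
      (G (x + w) - (x + w)) - (G x - x) - (G (x + w) - G x - fderiv ℝ G x w) := by
    simp only [sub_apply, ContinuousLinearMap.id_apply]
    abel
  have h5 : ‖(fderiv ℝ G x - ContinuousLinearMap.id ℝ V) w‖ ≤ 2 * a + K * ρ * ρ := by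
    rw [h4]
    refine (norm_sub_le _ _).trans ?_
    have := norm_sub_le (G (x + w) - (x + w)) (G x - x)
    linarith
  rw [hw, map_smul, norm_smul, Real.norm_of_nonneg ht0.le] at h5
  have h6 : (2 * a / ρ + K * ρ) * ‖v‖ = (2 * a + K * ρ * ρ) / t := by
    rw [ht]
    field_simp
  rw [h6, le_div_iff₀ ht0, mul_comm]
  exact h5

theorem tendsto_norm_punctured : Tendsto (fun x : V => ‖x‖) (𝓝[≠] 0) (𝓝[>] 0) := by
  refine tendsto_nhdsWithin_iff.2 ⟨?_, ?_⟩
  · have := (continuous_norm (E := V)).tendsto 0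
    rw [norm_zero] at this
    exact this.mono_left nhdsWithin_le_nhds
  · filter_upwards [self_mem_nhdsWithin] with x hx
    exact norm_pos_iff.2 hx

theorem exists_punctured {p : V → Prop} (h : ∀ᶠ x in 𝓝[≠] (0 : V), p x) :
    ∃ R : ℝ, 0 < R ∧ ∀ x, x ≠ 0 → ‖x‖ < R → p x := by
  rw [eventually_nhdsWithin_iff, Metric.eventually_nhds_iff] at h
  obtain ⟨R, hR, h⟩ := h
  exact ⟨R, hR, fun x hx hxR => h (by rwa [dist_zero_right]) hx⟩

theorem exists_right {p : ℝ → Prop} (h : ∀ᶠ x in 𝓝[>] (0 : ℝ), p x) :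
    ∃ R : ℝ, 0 < R ∧ ∀ x, 0 < x → x < R → p x := by
  obtain ⟨R, hR, h⟩ := mem_nhdsGT_iff_exists_Ioo_subset.1 h
  exact ⟨R, hR, fun x h1 h2 => h ⟨h1, h2⟩⟩

/-- small functions with small derivatives -/
theorem small_lin {η : ℝ → ℝ} (h0 : Tendsto η (𝓝[>] 0) (𝓝 0))
    (hd : ∀ᶠ r in 𝓝[>] (0:ℝ), DifferentiableAt ℝ η r)
    (hη' : Tendsto (deriv η) (𝓝[>] 0) (𝓝 0)) {ε : ℝ} (hε : 0 < ε) :
    ∃ R : ℝ, 0 < R ∧ (∀ r s, 0 < r → r < R → 0 < s → s < R → |η r - η s| ≤ ε * |r - s|) ∧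
      ∀ r, 0 < r → r < R → |η r| ≤ ε * r := by
  have h1 : ∀ᶠ r in 𝓝[>] (0:ℝ), |deriv η r| < ε := by
    have := hη'.abs
    rw [abs_zero] at this
    exact this.eventually_lt_const hε
  obtain ⟨R, hR, h2⟩ := exists_right (hd.and h1)
  have hlip : ∀ r s, 0 < r → r < R → 0 < s → s < R → |η r - η s| ≤ ε * |r - s| := by
    intro r s hr hrR hs hsR
    have h3 := (convex_Ioo 0 R).norm_image_sub_le_of_norm_deriv_le (f := η) (C := ε)
      (fun x hx => (h2 x hx.1 hx.2).1)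
      (fun x hx => (Real.norm_eq_abs _).trans_le (h2 x hx.1 hx.2).2.le) ⟨hs, hsR⟩ ⟨hr, hrR⟩
    rwa [Real.norm_eq_abs, Real.norm_eq_abs] at h3
  refine ⟨R, hR, hlip, fun r hr hrR => ?_⟩
  have h3 : Tendsto (fun s => |η r - η s|) (𝓝[>] 0) (𝓝 |η r - 0|) :=
    (tendsto_const_nhds.sub h0).abs
  have h4 : Tendsto (fun s : ℝ => ε * |r - s|) (𝓝[>] 0) (𝓝 (ε * |r - 0|)) := by
    have : Continuous fun s : ℝ => ε * |r - s| :=
      continuous_const.mul (continuous_const.sub continuous_id).abs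
    exact (this.tendsto 0).mono_left nhdsWithin_le_nhds
  rw [sub_zero] at h3 h4
  rw [abs_of_pos hr] at h4
  refine le_of_tendsto_of_tendsto h3 h4 ?_
  filter_upwards [Ioo_mem_nhdsGT hR] with s hs
  exact hlip r s hr hrR hs.1 hs.2

/-- convergence of the derivatives -/
theorem fderiv_tendsto {G : V → V} {η : ℝ → ℝ} (h0 : Tendsto η (𝓝[>] 0) (𝓝 0))
    (hpos : ∀ᶠ r in 𝓝[>] (0:ℝ), 0 < η r) (hd : ∀ᶠ r in 𝓝[>] (0:ℝ), DifferentiableAt ℝ η r)
    (hη' : Tendsto (deriv η) (𝓝[>] 0) (𝓝 0))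
    (hG : ∀ᶠ x in 𝓝[≠] 0, ContDiffAt ℝ 2 G x) {C : ℝ}
    (hC : ∀ᶠ x in 𝓝[≠] 0, ‖G x - x‖ ≤ C * η ‖x‖)
    (h2 : Tendsto (fun x => ‖iteratedFDeriv ℝ 2 G x‖ * η ‖x‖) (𝓝[≠] 0) (𝓝 0)) :
    Tendsto (fderiv ℝ G) (𝓝[≠] 0) (𝓝 (ContinuousLinearMap.id ℝ V)) := by
  rw [tendsto_iff_norm_sub_tendsto_zero]
  refine tendsto_order.2 ⟨fun a ha => Eventually.of_forall fun x => ha.trans_le (norm_nonneg _),
    fun e he => ?_⟩
  set δ : ℝ := e / (16 * (|C| + 1)) with hδ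
  have hC1 : 0 < |C| + 1 := by positivity
  have hδ0 : 0 < δ := by positivity
  set ε₂ : ℝ := e * δ / 8 with hε₂
  have hε₂0 : 0 < ε₂ := by positivity
  obtain ⟨R1, hR1, hlip, hlin⟩ := small_lin h0 hd hη' (ε := δ / 2) (by positivity)
  obtain ⟨R2, hR2, hpos'⟩ := exists_right hpos
  obtain ⟨R3, hR3, hG'⟩ := exists_punctured (hG.and (hC.and (h2.eventually_lt_const hε₂0)))
  set R := min R1 (min R2 R3) with hR
  have hR0 : 0 < R := lt_min hR1 (lt_min hR2 hR3)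
  have hRR1 : R ≤ R1 := min_le_left _ _
  have hRR2 : R ≤ R2 := (min_le_right _ _).trans (min_le_left _ _)
  have hRR3 : R ≤ R3 := (min_le_right _ _).trans (min_le_right _ _)
  have hev : ∀ᶠ x in 𝓝[≠] (0 : V), ‖x‖ < R / 2 := nhdsWithin_le_nhds (by
    filter_upwards [ball_mem_nhds (0 : V) (by positivity : 0 < R / 2)] with x hx
    simpa using hx)
  filter_upwards [hev, self_mem_nhdsWithin] with x hx hx0
  have hr0 : 0 < ‖x‖ := norm_pos_iff.2 hx0
  set r := ‖x‖ with hr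
  have hηr : 0 < η r := hpos' r hr0 (by linarith)
  set ρ : ℝ := η r / δ with hρ
  have hρ0 : 0 < ρ := by positivity
  have hρr : ρ ≤ r / 2 := by
    have h3 := hlin r hr0 (by linarith)
    rw [abs_of_pos hηr] at h3
    rw [hρ, div_le_iff₀ hδ0]
    linarith
  have hyb : ∀ y ∈ closedBall x ρ, y ≠ 0 ∧ ‖y‖ < R ∧ η r / 2 ≤ η ‖y‖ ∧ η ‖y‖ ≤ 2 * η r := by
    intro y hy
    rw [mem_closedBall, dist_eq_norm] at hy
    have h3 : |‖y‖ - r| ≤ ρ := (abs_norm_sub_norm_le y x).trans hy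
    have h4 := abs_le.1 h3
    have hy0 : 0 < ‖y‖ := by linarith [h4.1]
    have hyR : ‖y‖ < R := by linarith [h4.2]
    have h5 := hlip ‖y‖ r hy0 (by linarith) hr0 (by linarith)
    have h6 : δ / 2 * |‖y‖ - r| ≤ η r / 2 := by
      calc δ / 2 * |‖y‖ - r| ≤ δ / 2 * ρ := by gcongr
        _ = η r / 2 := by
          rw [hρ]
          field_simp
    have h7 := abs_le.1 (h5.trans h6)
    exact ⟨norm_pos_iff.1 hy0, hyR, by linarith [h7.1], by linarith [h7.2]⟩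
  have hint := interp (G := G) (x := x) (ρ := ρ) (a := |C| * (2 * η r)) (K := 2 * ε₂ / η r) hρ0
    (fun y hy => by
      obtain ⟨h3, h4, -, -⟩ := hyb y hy
      exact (hG' y h3 (by linarith)).1)
    (fun y hy => by
      obtain ⟨h3, h4, h5, -⟩ := hyb y hy
      have h6 := (hG' y h3 (by linarith)).2.2
      rw [le_div_iff₀ hηr]
      have h7 : ‖iteratedFDeriv ℝ 2 G y‖ * (η r / 2) ≤ ε₂ :=
        (mul_le_mul_of_nonneg_left h5 (norm_nonneg _)).trans h6.le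
      linarith)
    (fun y hy => by
      obtain ⟨h3, h4, h5, h6⟩ := hyb y hy
      have h7 := (hG' y h3 (by linarith)).2.1
      refine h7.trans ?_
      have h8 : 0 < η ‖y‖ := by linarith
      calc C * η ‖y‖ ≤ |C| * η ‖y‖ := mul_le_mul_of_nonneg_right (le_abs_self _) h8.le
        _ ≤ _ := mul_le_mul_of_nonneg_left h6 (abs_nonneg _))
  refine hint.trans_lt ?_
  have e1 : 2 * (|C| * (2 * η r)) / ρ = 4 * |C| * δ := by
    rw [hρ]
    field_simp
    ring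
  have e2 : 2 * ε₂ / η r * ρ = e / 4 := by
    rw [hρ, hε₂]
    field_simp
    ring
  rw [e1, e2]
  have e3 : 4 * |C| * δ ≤ e / 4 := by
    rw [hδ, mul_div_assoc', div_le_iff₀ (by positivity)]
    nlinarith [abs_nonneg C]
  linarith

/-- strict differentiability from convergence of the derivatives -/
theorem strict_of_tendsto {G : V → V} {L : V →L[ℝ] V} (h0 : HasFDerivAt G L 0)
    (hG : ∀ᶠ x in 𝓝[≠] 0, DifferentiableAt ℝ G x)
    (ht : Tendsto (fderiv ℝ G) (𝓝[≠] 0) (𝓝 L)) : HasStrictFDerivAt G L 0 := by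
  classical
  have h1 : HasStrictFDerivAt G (Function.update (fderiv ℝ G) 0 L 0) 0 := by
    refine hasStrictFDerivAt_of_hasFDerivAt_of_continuousAt ?_ ?_
    · rw [eventually_nhdsWithin_iff] at hG
      filter_upwards [hG] with y hy
      rcases eq_or_ne y 0 with hy0 | hy0
      · subst hy0
        rw [Function.update_self]
        exact h0
      · rw [Function.update_of_ne hy0]
        exact (hy hy0).hasFDerivAt
    · rw [continuousAt_update_same]
      exact ht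
  rwa [Function.update_self] at h1

/-- the first regularity theorem: a map with contact `O(η)` with the identity and second
derivatives `o(1/η)` is strictly differentiable -/
theorem strict_of_gauge {G : V → V} {η : ℝ → ℝ} (h0 : Tendsto η (𝓝[>] 0) (𝓝 0))
    (hpos : ∀ᶠ r in 𝓝[>] (0:ℝ), 0 < η r) (hd : ∀ᶠ r in 𝓝[>] (0:ℝ), DifferentiableAt ℝ η r)
    (hη' : Tendsto (deriv η) (𝓝[>] 0) (𝓝 0)) (hG0 : G 0 = 0)
    (hG : ∀ᶠ x in 𝓝[≠] 0, ContDiffAt ℝ 2 G x) {C : ℝ}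
    (hC : ∀ᶠ x in 𝓝[≠] 0, ‖G x - x‖ ≤ C * η ‖x‖)
    (h2 : Tendsto (fun x => ‖iteratedFDeriv ℝ 2 G x‖ * η ‖x‖) (𝓝[≠] 0) (𝓝 0)) :
    HasStrictFDerivAt G (ContinuousLinearMap.id ℝ V) 0 := by
  refine strict_of_tendsto ?_ (hG.mono fun x hx => hx.differentiableAt (by norm_num))
    (fderiv_tendsto h0 hpos hd hη' hG hC h2)
  rw [hasFDerivAt_iff_isLittleO_nhds_zero, Asymptotics.isLittleO_iff]
  intro c hc
  obtain ⟨R, hR, -, hlin⟩ := small_lin h0 hd hη' (ε := c / (|C| + 1)) (by positivity)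
  obtain ⟨R', hR', hC'⟩ := exists_punctured hC
  filter_upwards [ball_mem_nhds (0 : V) (lt_min hR hR')] with x hx
  rw [mem_ball, dist_zero_right, lt_min_iff] at hx
  rw [zero_add, hG0, sub_zero, ContinuousLinearMap.id_apply]
  rcases eq_or_ne x 0 with hx0 | hx0
  · subst hx0
    rw [hG0]
    simp
  · have h3 := hC' x hx0 hx.2
    have h4 := hlin ‖x‖ (norm_pos_iff.2 hx0) hx.1
    refine h3.trans ?_
    calc C * η ‖x‖ ≤ |C| * |η ‖x‖| := by
          rw [← abs_mul]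
          exact le_abs_self _
      _ ≤ |C| * (c / (|C| + 1) * ‖x‖) := mul_le_mul_of_nonneg_left h4 (abs_nonneg _)
      _ = (|C| * c / (|C| + 1)) * ‖x‖ := by ring
      _ ≤ c * ‖x‖ := by
          refine mul_le_mul_of_nonneg_right ?_ (norm_nonneg _)
          rw [div_le_iff₀ (by positivity)]
          nlinarith [abs_nonneg C]

end general

end Pool.Agent.H816
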