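import Pool.Agent.H816.Fam6
import Pool.Agent.H816.Rig

/-!
# Removing singular points of the second kind of families
-/

set_option autoImplicit false

open Set Filter Topology Metric Function
open scoped Manifold ContDiff

noncomputable section

namespace Pool.Agent.H816.Fam

open Pool.Agent.Y522

section general

variable {V W : Type*} [NormedAddCommGroup V] [NormedSpace ℝ V] [NormedAddCommGroup W]
  [NormedSpace ℝ W]

/-- interpolation -/
theorem interp0 {w : V → W} {x : V} {ρ a K : ℝ} (hρ : 0 < ρ)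
    (hG : ∀ y ∈ closedBall x ρ, ContDiffAt ℝ 2 w y)
    (hK : ∀ y ∈ closedBall x ρ, ‖iteratedFDeriv ℝ 2 w y‖ ≤ K)
    (ha : ∀ y ∈ closedBall x ρ, ‖w y‖ ≤ a) :
    ‖fderiv ℝ w x‖ ≤ 2 * a / ρ + K * ρ := by
  have hxx : x ∈ closedBall x ρ := mem_closedBall_self hρ.le
  have ha0 : 0 ≤ a := (norm_nonneg _).trans (ha x hxx)
  have hK0 : 0 ≤ K := (norm_nonneg _).trans (hK x hxx)
  refine ContinuousLinearMap.opNorm_le_bound _ (by positivity) fun v => ?_
  rcases eq_or_ne v 0 with hv | hv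
  · subst hv
    simp
  have hv' : 0 < ‖v‖ := norm_pos_iff.2 hv
  set t : ℝ := ρ / ‖v‖ with ht
  have ht0 : 0 < t := by positivity
  set u : V := t • v with hu
  have hun : ‖u‖ = ρ := by
    rw [hu, norm_smul, Real.norm_of_nonneg ht0.le, ht]
    field_simp
  have hy : x + u ∈ closedBall x ρ := by
    rw [mem_closedBall, dist_eq_norm, add_sub_cancel_left, hun]
  have h1 := taylor_one hG hK hy
  rw [add_sub_cancel_left, hun] at h1
  have h2 := ha _ hy
  have h3 := ha _ hxx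
  have h4 : fderiv ℝ w x u = w (x + u) - w x - (w (x + u) - w x - fderiv ℝ w x u) := by
    abel
  have h5 : ‖fderiv ℝ w x u‖ ≤ 2 * a + K * ρ * ρ := by
    rw [h4]
    refine (norm_sub_le _ _).trans ?_
    have := norm_sub_le (w (x + u)) (w x)
    linarith
  rw [hu, map_smul, norm_smul, Real.norm_of_nonneg ht0.le] at h5
  have h6 : (2 * a / ρ + K * ρ) * ‖v‖ = (2 * a + K * ρ * ρ) / t := by
    rw [ht]
    field_simp
  rw [h6, le_div_iff₀ ht0, mul_comm]
  exact h5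

/-- convergence of the derivatives -/
theorem fderiv_tendsto0 {w : V → W} {η : ℝ → ℝ} (h0 : Tendsto η (𝓝[>] 0) (𝓝 0))
    (hpos : ∀ᶠ r in 𝓝[>] (0:ℝ), 0 < η r) (hd : ∀ᶠ r in 𝓝[>] (0:ℝ), DifferentiableAt ℝ η r)
    (hη' : Tendsto (deriv η) (𝓝[>] 0) (𝓝 0))
    (hG : ∀ᶠ x in 𝓝[≠] 0, ContDiffAt ℝ 2 w x) {C : ℝ}
    (hC : ∀ᶠ x in 𝓝[≠] 0, ‖w x‖ ≤ C * η ‖x‖)
    (h2 : Tendsto (fun x => ‖iteratedFDeriv ℝ 2 w x‖ * η ‖x‖) (𝓝[≠] 0) (𝓝 0)) :
    Tendsto (fun x => ‖fderiv ℝ w x‖) (𝓝[≠] 0) (𝓝 0) := by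
  refine tendsto_order.2 ⟨fun a ha => Eventually.of_forall fun x => ha.trans_le (norm_nonneg _),
    fun e he => ?_⟩
  set δ : ℝ := e / (16 * (|C| + 1)) with hδ
  have hC1 : 0 < |C| + 1 := by positivity
  have hδ0 : 0 < δ := by positivity
  set ε₂ : ℝ := e * δ / 8 with hε₂
  have hε₂0 : 0 < ε₂ := by positivity
  obtain ⟨R1, hR1, hlip, hlin⟩ := small_lin h0 hd hη' (ε := δ / 2) (by positivity)
  obtain ⟨R2, hR2, hpos'⟩ := exists_right hpos
  obtain ⟨R3, hR3, hG'⟩ := exists_punctured (hG.and (hC.and (h2.eventually_lt_const hε₂0)))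
  set R := min R1 (min R2 R3) with hR
  have hR0 : 0 < R := lt_min hR1 (lt_min hR2 hR3)
  have hRR1 : R ≤ R1 := min_le_left _ _
  have hRR2 : R ≤ R2 := (min_le_right _ _).trans (min_le_left _ _)
  have hRR3 : R ≤ R3 := (min_le_right _ _).trans (min_le_right _ _)
  have hev : ∀ᶠ x in 𝓝[≠] (0 : V), ‖x‖ < R / 2 := nhdsWithin_le_nhds (by
    filter_upwards [ball_mem_nhds (0 : V) (by positivity : 0 < R / 2)] with x hx
    simpa using hx)
  filter_upwards [hev, self_mem_nhdsWithin] with x hx hx0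
  have hr0 : 0 < ‖x‖ := norm_pos_iff.2 hx0
  set r := ‖x‖ with hr
  have hηr : 0 < η r := hpos' r hr0 (by linarith)
  set ρ : ℝ := η r / δ with hρ
  have hρ0 : 0 < ρ := by positivity
  have hρr : ρ ≤ r / 2 := by
    have h3 := hlin r hr0 (by linarith)
    rw [abs_of_pos hηr] at h3
    rw [hρ, div_le_iff₀ hδ0]
    linarith
  have hyb : ∀ y ∈ closedBall x ρ, y ≠ 0 ∧ ‖y‖ < R ∧ η r / 2 ≤ η ‖y‖ ∧ η ‖y‖ ≤ 2 * η r := by
    intro y hy
    rw [mem_closedBall, dist_eq_norm] at hy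
    have h3 : |‖y‖ - r| ≤ ρ := (abs_norm_sub_norm_le y x).trans hy
    have h4 := abs_le.1 h3
    have hy0 : 0 < ‖y‖ := by linarith [h4.1]
    have hyR : ‖y‖ < R := by linarith [h4.2]
    have h5 := hlip ‖y‖ r hy0 (by linarith) hr0 (by linarith)
    have h6 : δ / 2 * |‖y‖ - r| ≤ η r / 2 := by
      calc δ / 2 * |‖y‖ - r| ≤ δ / 2 * ρ := by gcongr
        _ = η r / 2 := by
          rw [hρ]
          field_simp
    have h7 := abs_le.1 (h5.trans h6)
    exact ⟨norm_pos_iff.1 hy0, hyR, by linarith [h7.1], by linarith [h7.2]⟩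
  have hint := interp0 (w := w) (x := x) (ρ := ρ) (a := |C| * (2 * η r)) (K := 2 * ε₂ / η r) hρ0
    (fun y hy => by
      obtain ⟨h3, h4, -, -⟩ := hyb y hy
      exact (hG' y h3 (by linarith)).1)
    (fun y hy => by
      obtain ⟨h3, h4, h5, -⟩ := hyb y hy
      have h6 := (hG' y h3 (by linarith)).2.2
      rw [le_div_iff₀ hηr]
      have h7 : ‖iteratedFDeriv ℝ 2 w y‖ * (η r / 2) ≤ ε₂ :=
        (mul_le_mul_of_nonneg_left h5 (norm_nonneg _)).trans h6.le
      linarith)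
    (fun y hy => by
      obtain ⟨h3, h4, h5, h6⟩ := hyb y hy
      have h7 := (hG' y h3 (by linarith)).2.1
      refine h7.trans ?_
      have h8 : 0 < η ‖y‖ := by linarith
      calc C * η ‖y‖ ≤ |C| * η ‖y‖ := mul_le_mul_of_nonneg_right (le_abs_self _) h8.le
        _ ≤ _ := mul_le_mul_of_nonneg_left h6 (abs_nonneg _))
  refine hint.trans_lt ?_
  have e1 : 2 * (|C| * (2 * η r)) / ρ = 4 * |C| * δ := by
    rw [hρ]
    field_simp
    ring
  have e2 : 2 * ε₂ / η r * ρ = e / 4 := by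
    rw [hρ, hε₂]
    field_simp
    ring
  rw [e1, e2]
  have e3 : 4 * |C| * δ ≤ e / 4 := by
    rw [hδ, mul_div_assoc', div_le_iff₀ (by positivity)]
    nlinarith [abs_nonneg C]
  linarith

/-- cut off functions -/
theorem exists_cutoff [FiniteDimensional ℝ V] : ∃ (χ : V → ℝ) (Λ : ℝ), ContDiff ℝ ∞ χ ∧ 0 ≤ Λ ∧
    (∀ x, 0 ≤ χ x ∧ χ x ≤ 1) ∧ (∀ x, ‖x‖ ≤ 1 → χ x = 0) ∧ (∀ x, 2 ≤ ‖x‖ → χ x = 1) ∧
    ∀ x, ‖fderiv ℝ χ x‖ ≤ Λ := by
  let f : ContDiffBump (0 : V) := ⟨1, 2, by norm_num, by norm_num⟩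
  have hsm : ContDiff ℝ ∞ (f : V → ℝ) := f.contDiff
  have hcs : HasCompactSupport (fderiv ℝ (f : V → ℝ)) := f.hasCompactSupport.fderiv (𝕜 := ℝ)
  obtain ⟨Λ, hΛ⟩ := hcs.exists_bound_of_continuous (hsm.continuous_fderiv (by simp))
  refine ⟨fun x => 1 - f x, Λ, contDiff_const.sub hsm, (norm_nonneg _).trans (hΛ 0), ?_, ?_, ?_, ?_⟩
  · intro x
    exact ⟨sub_nonneg.2 f.le_one, by linarith [f.nonneg (x := x)]⟩
  · intro x hx
    show 1 - f x = 0
    rw [f.one_of_mem_closedBall (mem_closedBall_zero_iff.2 hx), sub_self]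
  · intro x hx
    show 1 - f x = 1
    rw [f.zero_of_le_dist (by rw [dist_zero_right]; exact hx), sub_zero]
  · intro x
    have h1 : fderiv ℝ (fun x => 1 - f x) x = -fderiv ℝ f x := by
      rw [fderiv_const_sub]
    rw [h1, norm_neg]
    exact hΛ x

/-- scaled cut off functions -/
theorem exists_cutoff' [FiniteDimensional ℝ V] : ∃ Λ : ℝ, 0 ≤ Λ ∧ ∀ ε : ℝ, 0 < ε →
    ∃ χ : V → ℝ, ContDiff ℝ ∞ χ ∧ (∀ x, 0 ≤ χ x ∧ χ x ≤ 1) ∧ (∀ x, ‖x‖ ≤ ε → χ x = 0) ∧
      (∀ x, 2 * ε ≤ ‖x‖ → χ x = 1) ∧ (∀ x, ‖fderiv ℝ χ x‖ ≤ Λ / ε) ∧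
      ∀ x, 2 * ε < ‖x‖ → fderiv ℝ χ x = 0 := by
  obtain ⟨χ, Λ, h1, h2, h3, h4, h5, h6⟩ := exists_cutoff (V := V)
  refine ⟨Λ, h2, fun ε hε => ⟨fun x => χ (ε⁻¹ • x), h1.comp (contDiff_const_smul _),
    fun x => h3 _, fun x hx => h4 _ ?_, fun x hx => h5 _ ?_, fun x => ?_, fun x hx => ?_⟩⟩
  · rw [norm_smul, norm_inv, Real.norm_of_nonneg hε.le, inv_mul_le_iff₀ hε]
    linarith
  · rw [norm_smul, norm_inv, Real.norm_of_nonneg hε.le, le_inv_mul_iff₀ hε]
    linarith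
  · have e : fderiv ℝ (fun x => χ (ε⁻¹ • x)) x = ε⁻¹ • fderiv ℝ χ (ε⁻¹ • x) := by
      have e1 : HasFDerivAt (fun x : V => ε⁻¹ • x) (ε⁻¹ • ContinuousLinearMap.id ℝ V) x :=
        (hasFDerivAt_id x).const_smul ε⁻¹
      have e2 : HasFDerivAt (fun x => χ (ε⁻¹ • x))
          ((fderiv ℝ χ (ε⁻¹ • x)).comp (ε⁻¹ • ContinuousLinearMap.id ℝ V)) x :=
        ((h1.differentiable (by simp)) (ε⁻¹ • x)).hasFDerivAt.comp x e1
      rw [e2.fderiv]
      ext v
      simp
    rw [e, norm_smul, norm_inv, Real.norm_of_nonneg hε.le, div_eq_inv_mul]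
    exact mul_le_mul_of_nonneg_left (h6 _) (by positivity)
  · have e : (fun x => χ (ε⁻¹ • x)) =ᶠ[𝓝 x] fun _ => 1 := by
      filter_upwards [(continuous_norm.tendsto x).eventually_const_lt hx] with y hy
      refine h5 _ ?_
      rw [norm_smul, norm_inv, Real.norm_of_nonneg hε.le, le_inv_mul_iff₀ hε]
      linarith
    rw [e.fderiv_eq]
    exact fderiv_const_apply _

end general

/-- singularities of the second kind -/
structure LitT {P : Type*} [NormedAddCommGroup P] [NormedSpace ℝ P] {n : ℕ} (η : ℝ → ℝ)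
    (g T : P × E n → E n) : Prop where
  reg : Reg T 0
  contact : ∃ C : ℝ, ∀ᶠ z in 𝓝[≠] (0 : P × E n), ‖g z - T z‖ ≤ C * η ‖z‖
  smooth : ∀ᶠ z in 𝓝[≠] (0 : P × E n), ContDiffAt ℝ 2 g z
  bd : Tendsto (fun z => ‖iteratedFDeriv ℝ 2 g z‖ * η ‖z‖) (𝓝[≠] (0 : P × E n)) (𝓝 0)

/-- singularities of the second kind -/
def Lit {P : Type*} [NormedAddCommGroup P] [NormedSpace ℝ P] {n : ℕ} (η : ℝ → ℝ)
    (g : P × E n → E n) : Prop := ∃ T : P × E n → E n, LitT η g T

variable {P : Type*} [NormedAddCommGroup P] [NormedSpace ℝ P]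
  {n : ℕ} {G : P × E n → E n} {a b : ℝ}

theorem LitT.diff {η : ℝ → ℝ} {κ : ℝ} (hg : Gauge η κ) {T : P × E n → E n} (h : LitT η G T) :
    (∀ᶠ z in 𝓝[≠] (0 : P × E n), ContDiffAt ℝ 2 (fun z => G z - T z) z) ∧
      Tendsto (fun z => ‖iteratedFDeriv ℝ 2 (fun z => G z - T z) z‖ * η ‖z‖)
        (𝓝[≠] (0 : P × E n)) (𝓝 0) := by
  have hT2 : ∀ᶠ z in 𝓝[≠] (0 : P × E n), ContDiffAt ℝ 2 T z :=
    nhdsWithin_le_nhds (h.reg.1.mono fun z hz => hz.of_le (WithTop.coe_le_coe.2 le_top))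
  refine ⟨?_, ?_⟩
  · filter_upwards [h.smooth, hT2] with z h1 h2
    exact h1.sub h2
  · have t1 : Tendsto (fun z : P × E n => η ‖z‖) (𝓝[≠] 0) (𝓝 0) :=
      hg.tend.comp tendsto_norm_punctured
    have t2 : Tendsto (fun z : P × E n => ‖iteratedFDeriv ℝ 2 T z‖) (𝓝[≠] 0)
        (𝓝 ‖iteratedFDeriv ℝ 2 T 0‖) := by
      have : ContinuousAt (iteratedFDeriv ℝ 2 T) 0 :=
        h.reg.smooth.continuousAt_iteratedFDeriv (WithTop.coe_le_coe.2 le_top)
      exact (this.norm).mono_left nhdsWithin_le_nhds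
    have t3 := t2.mul t1
    rw [mul_zero] at t3
    have t4 := h.bd.add t3
    rw [add_zero] at t4
    refine squeeze_zero' ?_ ?_ t4
    · filter_upwards [(tendsto_norm_punctured (V := P × E n)).eventually
        (Ioo_mem_nhdsGT hg.κ_pos)] with z hz
      exact mul_nonneg (norm_nonneg _) (hg.pos _ hz.1 hz.2).le
    · filter_upwards [h.smooth, hT2, (tendsto_norm_punctured (V := P × E n)).eventually
        (Ioo_mem_nhdsGT hg.κ_pos)] with z h1 h2 hz
      have e1 : iteratedFDeriv ℝ 2 (fun z => G z - T z) z =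
          iteratedFDeriv ℝ 2 G z - iteratedFDeriv ℝ 2 T z :=
        iteratedFDeriv_sub_apply (f := G) (g := T) (by exact_mod_cast h1) (by exact_mod_cast h2)
      rw [e1, ← add_mul]
      exact mul_le_mul_of_nonneg_right (norm_sub_le _ _) (hg.pos _ hz.1 hz.2).le

omit [NormedSpace ℝ P] in
theorem norm_lt_iff' {s : P} {x : E n} {r : ℝ} : ‖((s, x) : P × E n)‖ < r ↔ ‖s‖ < r ∧ ‖x‖ < r := by
  rw [Prod.norm_def]
  exact max_lt_iff

omit [NormedSpace ℝ P] in
theorem le_norm_iff' {s : P} {x : E n} {r : ℝ} : r ≤ ‖((s, x) : P × E n)‖ ↔ r ≤ ‖s‖ ∨ r ≤ ‖x‖ := by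
  rw [Prod.norm_def]
  exact le_max_iff

/-- the bound of the derivative of the modified family -/
theorem cut_bound {V W : Type*} [NormedAddCommGroup V] [NormedSpace ℝ V] [NormedAddCommGroup W]
    [NormedSpace ℝ W] {T w : V → W} {χ : V → ℝ} {z : V} {L : V →L[ℝ] W} {μ Λ : ℝ}
    (hT : DifferentiableAt ℝ T z) (hw : DifferentiableAt ℝ w z) (hχ : DifferentiableAt ℝ χ z)
    (hχ1 : 0 ≤ χ z ∧ χ z ≤ 1) (h1 : ‖fderiv ℝ T z - L‖ ≤ μ) (h2 : ‖fderiv ℝ w z‖ ≤ μ)
    (h3 : ‖fderiv ℝ χ z‖ * ‖w z‖ ≤ Λ) :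
    DifferentiableAt ℝ (fun z => T z + χ z • w z) z ∧
      ‖fderiv ℝ (fun z => T z + χ z • w z) z - L‖ ≤ 2 * μ + Λ := by
  have hd : HasFDerivAt (fun z => T z + χ z • w z)
      (fderiv ℝ T z + (χ z • fderiv ℝ w z + (fderiv ℝ χ z).smulRight (w z))) z :=
    hT.hasFDerivAt.add (hχ.hasFDerivAt.smul hw.hasFDerivAt)
  refine ⟨hd.differentiableAt, ?_⟩
  rw [hd.fderiv]
  have e : fderiv ℝ T z + (χ z • fderiv ℝ w z + (fderiv ℝ χ z).smulRight (w z)) - L =
      (fderiv ℝ T z - L) + χ z • fderiv ℝ w z + (fderiv ℝ χ z).smulRight (w z) := by abel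
  rw [e]
  refine (norm_add₃_le).trans ?_
  rw [norm_smul, ContinuousLinearMap.norm_smulRight_apply, Real.norm_of_nonneg hχ1.1]
  have h4 : χ z * ‖fderiv ℝ w z‖ ≤ 1 * μ := mul_le_mul hχ1.2 h2 (norm_nonneg _) zero_le_one
  linarith

theorem Iso.smooth [FiniteDimensional ℝ P] (h : Iso G a b) {η : ℝ → ℝ} {κ : ℝ} (hg : Gauge η κ)
    (hη' : Tendsto (deriv η) (𝓝[>] 0) (𝓝 0)) (hL : Lit η G) :
    ∃ (R r : ℝ) (G' : P × E n → E n), 0 < r ∧ R ≤ a ∧ R ≤ b ∧ Mdf G G' R R r r ∧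
      ∀ s x, ‖s‖ < R → ‖x‖ < R → Reg G' (s, x) := by
  obtain ⟨T, hT⟩ := hL
  obtain ⟨w, hwd⟩ : ∃ w : P × E n → E n, w = fun z => G z - T z := ⟨_, rfl⟩
  obtain ⟨hw1, hw2⟩ := hT.diff hg
  rw [← hwd] at hw1 hw2
  obtain ⟨C, hC⟩ := hT.contact
  have hC' : ∀ᶠ z in 𝓝[≠] (0 : P × E n), ‖w z‖ ≤ C * η ‖z‖ := by
    rw [hwd]
    exact hC
  have hIoo : ∀ᶠ r in 𝓝[>] (0 : ℝ), r ∈ Ioo 0 κ := Ioo_mem_nhdsGT hg.κ_pos
  have hpos : ∀ᶠ r in 𝓝[>] (0:ℝ), 0 < η r := hIoo.mono fun r hr => hg.pos r hr.1 hr.2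
  have hdiff : ∀ᶠ r in 𝓝[>] (0:ℝ), DifferentiableAt ℝ η r :=
    hIoo.mono fun r hr => (hg.smooth r hr.1 hr.2).differentiableAt (by simp)
  have hw3 := fderiv_tendsto0 hg.tend hpos hdiff hη' hw1 hC' hw2
  -- the linear map
  obtain ⟨-, hbij⟩ := reg_iff.1 hT.reg
  obtain ⟨L0, hL0⟩ : ∃ L0 : E n ≃L[ℝ] E n, (L0 : E n →L[ℝ] E n) =
      (fderiv ℝ T 0).comp (ContinuousLinearMap.inr ℝ P (E n)) :=
    ⟨(LinearEquiv.ofBijective _ hbij).toContinuousLinearEquiv, by ext; rfl⟩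
  obtain ⟨N, hN⟩ : ∃ N : ℝ, N = ‖(L0.symm : E n →L[ℝ] E n)‖ := ⟨_, rfl⟩
  have hN0 : 0 ≤ N := by rw [hN]; exact norm_nonneg _
  set μ : ℝ := 1 / (8 * (N + 1)) with hμ
  have hμ0 : 0 < μ := by positivity
  have hμN : N * (3 * μ) ≤ 1 / 2 := by
    rw [hμ]
    have : N * (3 * (1 / (8 * (N + 1)))) = 3 / 8 * (N / (N + 1)) := by
      field_simp
    rw [this]
    have : N / (N + 1) ≤ 1 := by
      rw [div_le_one (by positivity)]
      linarith
    linarith
  obtain ⟨Λ, hΛ0, hχ⟩ := exists_cutoff' (V := P × E n)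
  -- the radii
  obtain ⟨R1, hR1, hTs⟩ : ∃ R : ℝ, 0 < R ∧ ∀ z : P × E n, ‖z‖ < R →
      ContDiffAt ℝ ∞ T z ∧ ‖fderiv ℝ T z - fderiv ℝ T 0‖ < μ := by
    have k1 : ContinuousAt (fderiv ℝ T) 0 :=
      (hT.reg.smooth.fderiv_right (m := 0) (by simp)).continuousAt
    have k2 : ∀ᶠ z in 𝓝 (0 : P × E n), ‖fderiv ℝ T z - fderiv ℝ T 0‖ < μ := by
      have : Tendsto (fun z => ‖fderiv ℝ T z - fderiv ℝ T 0‖) (𝓝 0)
          (𝓝 ‖fderiv ℝ T 0 - fderiv ℝ T 0‖) :=
        (Tendsto.sub (k1 : Tendsto (fderiv ℝ T) (𝓝 0) (𝓝 (fderiv ℝ T 0)))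
          (tendsto_const_nhds (x := fderiv ℝ T 0))).norm
      rw [sub_self, norm_zero] at this
      exact this.eventually_lt_const hμ0
    obtain ⟨R, hR, hR'⟩ := Metric.eventually_nhds_iff.1 (hT.reg.1.and k2)
    exact ⟨R, hR, fun z hz => hR' (by rwa [dist_zero_right])⟩
  obtain ⟨R2, hR2, hws⟩ := exists_punctured (hC'.and (hw3.eventually_lt_const hμ0))
  obtain ⟨R3, hR3, -, hlin⟩ := small_lin hg.tend hdiff hη' (ε := μ / (2 * ((Λ + 1) * (|C| + 1))))
    (by positivity)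
  set R := min (min a b) (min R1 (min R2 R3)) with hRd
  have hR : 0 < R := lt_min (lt_min h.ha h.hb) (lt_min hR1 (lt_min hR2 hR3))
  have hRa : R ≤ a := (min_le_left _ _).trans (min_le_left _ _)
  have hRb : R ≤ b := (min_le_left _ _).trans (min_le_right _ _)
  have hRR1 : R ≤ R1 := (min_le_right _ _).trans (min_le_left _ _)
  have hRR2 : R ≤ R2 := (min_le_right _ _).trans ((min_le_right _ _).trans (min_le_left _ _))
  have hRR3 : R ≤ R3 := (min_le_right _ _).trans ((min_le_right _ _).trans (min_le_right _ _))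
  obtain ⟨χ, c1, c2, c3, c4, c5, c6⟩ := hχ (R / 4) (by positivity)
  have h2r : 2 * (R / 4) = R / 2 := by ring
  rw [h2r] at c4 c6
  obtain ⟨G', hG'⟩ : ∃ G' : P × E n → E n, G' = fun z => T z + χ z • w z := ⟨_, rfl⟩
  -- smoothness of the modified family and the bound
  have hbox : ∀ z : P × E n, ‖z‖ < R → (∀ᶠ y in 𝓝 z, ContDiffAt ℝ ∞ G' y) ∧
      ‖fderiv ℝ G' z - fderiv ℝ T 0‖ ≤ 3 * μ := by
    intro z hz
    have hTz : ∀ᶠ y in 𝓝 z, ContDiffAt ℝ ∞ T y := by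
      filter_upwards [(continuous_norm.tendsto z).eventually_lt_const hz] with y hy
      exact (hTs y (hy.trans_le hRR1)).1
    by_cases hz4 : ‖z‖ < R / 4
    · have e1 : G' =ᶠ[𝓝 z] T := by
        filter_upwards [(continuous_norm.tendsto z).eventually_lt_const hz4] with y hy
        rw [hG']
        show T y + χ y • w y = T y
        rw [c3 y hy.le, zero_smul, add_zero]
      refine ⟨?_, ?_⟩
      · filter_upwards [e1.eventually_nhds, hTz] with y h1 h2
        exact h2.congr_of_eventuallyEq h1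
      · rw [e1.fderiv_eq]
        have := (hTs z (hz.trans_le hRR1)).2
        linarith
    · have hz4' := not_lt.1 hz4
      have hz0 : z ≠ 0 := norm_pos_iff.1 (by linarith)
      have hzs : ‖z.1‖ < a := ((norm_fst_le z).trans_lt hz).trans_le hRa
      have hzx : ‖z.2‖ < b := ((norm_snd_le z).trans_lt hz).trans_le hRb
      have hGz : ∀ᶠ y in 𝓝 z, ContDiffAt ℝ ∞ G y := by
        refine (h.reg z.1 z.2 hzs hzx ?_).1
        by_contra hcon
        rw [not_or, not_not, not_not] at hcon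
        exact hz0 (Prod.ext hcon.1 hcon.2)
      have hwz : ∀ᶠ y in 𝓝 z, ContDiffAt ℝ ∞ w y := by
        filter_upwards [hGz, hTz] with y h1 h2
        rw [hwd]
        exact h1.sub h2
      refine ⟨?_, ?_⟩
      · filter_upwards [hTz, hwz] with y h1 h2
        rw [hG']
        exact h1.add (c1.contDiffAt.smul h2)
      · have hη1 : ‖fderiv ℝ χ z‖ * ‖w z‖ ≤ μ := by
          by_cases hz2 : R / 2 < ‖z‖
          · rw [c6 z hz2, norm_zero, zero_mul]
            exact hμ0.le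
          · have hz2' := not_lt.1 hz2
            have k1 := (hws z hz0 (hz.trans_le hRR2)).1
            have k2 := hlin ‖z‖ (norm_pos_iff.2 hz0) (hz.trans_le hRR3)
            have k3 : ‖w z‖ ≤ |C| * |η ‖z‖| := by
              refine k1.trans ?_
              rw [← abs_mul]
              exact le_abs_self _
            have k4 : ‖w z‖ ≤ |C| * (μ / (2 * ((Λ + 1) * (|C| + 1))) * (R / 2)) := by
              refine k3.trans (mul_le_mul_of_nonneg_left (k2.trans ?_) (abs_nonneg _))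
              exact mul_le_mul_of_nonneg_left hz2' (by positivity)
            calc ‖fderiv ℝ χ z‖ * ‖w z‖ ≤ Λ / (R / 4) *
                  (|C| * (μ / (2 * ((Λ + 1) * (|C| + 1))) * (R / 2))) :=
                mul_le_mul (c5 z) k4 (norm_nonneg _) (by positivity)
              _ = μ * ((Λ / (Λ + 1)) * (|C| / (|C| + 1))) := by
                field_simp
                ring
              _ ≤ μ * 1 := by
                refine mul_le_mul_of_nonneg_left ?_ hμ0.le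
                refine mul_le_one₀ ?_ (by positivity) ?_
                · rw [div_le_one (by positivity)]
                  linarith
                · rw [div_le_one (by positivity)]
                  linarith
              _ = μ := mul_one μ
        have := (cut_bound (T := T) (w := w) (χ := χ) (z := z) (L := fderiv ℝ T 0) (μ := μ)
          (Λ := μ) (hTz.self_of_nhds.differentiableAt (by simp))
          (hwz.self_of_nhds.differentiableAt (by simp)) ((c1.differentiable (by simp)) z)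
          (c2 z) (hTs z (hz.trans_le hRR1)).2.le (hws z hz0 (hz.trans_le hRR2)).2.le hη1).2
        rw [hG']
        linarith
  -- the levels
  have hslice : ∀ s x, ‖s‖ < R → ‖x‖ < R → DifferentiableAt ℝ (fun y => L0.symm (G' (s, y))) x ∧
      ‖fderiv ℝ (fun y => L0.symm (G' (s, y))) x - ContinuousLinearMap.id ℝ (E n)‖ ≤ 1 / 2 := by
    intro s x hs hx
    obtain ⟨h1, h2⟩ := hbox (s, x) (norm_lt_iff'.2 ⟨hs, hx⟩)
    have d0 : DifferentiableAt ℝ G' (s, x) := h1.self_of_nhds.differentiableAt (by simp)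
    have d1 := slice_fderiv (G := G') (z := (s, x)) d0
    have d2 : DifferentiableAt ℝ (fun y => G' (s, y)) x :=
      (slice_smooth (z := (s, x)) h1.self_of_nhds).differentiableAt (by simp)
    have d3 : HasFDerivAt (fun y => L0.symm (G' (s, y)))
        ((L0.symm : E n →L[ℝ] E n).comp (fderiv ℝ (fun y => G' (s, y)) x)) x :=
      ((L0.symm : E n →L[ℝ] E n).hasFDerivAt).comp x d2.hasFDerivAt
    refine ⟨d3.differentiableAt, ?_⟩
    have e1 : (L0.symm : E n →L[ℝ] E n).comp (fderiv ℝ (fun y => G' (s, y)) x) -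
        ContinuousLinearMap.id ℝ (E n) = (L0.symm : E n →L[ℝ] E n).comp
          ((fderiv ℝ G' (s, x) - fderiv ℝ T 0).comp (ContinuousLinearMap.inr ℝ P (E n))) := by
      rw [ContinuousLinearMap.sub_comp, ContinuousLinearMap.comp_sub, ← hL0]
      have : (L0.symm : E n →L[ℝ] E n).comp (L0 : E n →L[ℝ] E n) = ContinuousLinearMap.id ℝ (E n) := by
        ext v
        simp
      rw [this]
      congr 2
    rw [d3.fderiv, e1]
    have e2 : ‖(ContinuousLinearMap.inr ℝ P (E n))‖ ≤ 1 := by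
      refine ContinuousLinearMap.opNorm_le_bound _ zero_le_one fun v => ?_
      simp
    calc ‖(L0.symm : E n →L[ℝ] E n).comp
          ((fderiv ℝ G' (s, x) - fderiv ℝ T 0).comp (ContinuousLinearMap.inr ℝ P (E n)))‖
        ≤ N * (‖fderiv ℝ G' (s, x) - fderiv ℝ T 0‖ * ‖(ContinuousLinearMap.inr ℝ P (E n))‖) := by
          rw [hN]
          refine (ContinuousLinearMap.opNorm_comp_le _ _).trans ?_
          exact mul_le_mul_of_nonneg_left (ContinuousLinearMap.opNorm_comp_le _ _) (norm_nonneg _)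
      _ ≤ N * (3 * μ * 1) := by
          refine mul_le_mul_of_nonneg_left ?_ hN0
          exact mul_le_mul h2 e2 (norm_nonneg _) (by positivity)
      _ ≤ 1 / 2 := by rw [mul_one]; exact hμN
  have hinj : ∀ s, ‖s‖ < R → InjOn (fun x => G' (s, x)) (ball 0 R) := by
    intro s hs
    have h1 := injOn_of_near (f := fun y => L0.symm (G' (s, y))) (convex_ball (0 : E n) R)
      (fun x hx => (hslice s x hs (mem_ball_zero_iff.1 hx)).1)
      fun x hx => (hslice s x hs (mem_ball_zero_iff.1 hx)).2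
    intro x hx y hy hxy
    exact h1 hx hy (congrArg L0.symm hxy)
  have hreg : ∀ s x, ‖s‖ < R → ‖x‖ < R → Reg G' (s, x) := by
    intro s x hs hx
    obtain ⟨h1, -⟩ := hbox (s, x) (norm_lt_iff'.2 ⟨hs, hx⟩)
    refine reg_iff.2 ⟨h1, ?_⟩
    have d0 : DifferentiableAt ℝ G' (s, x) := h1.self_of_nhds.differentiableAt (by simp)
    rw [← slice_fderiv (z := (s, x)) d0]
    have d2 : DifferentiableAt ℝ (fun y => G' (s, y)) x :=
      (slice_smooth (z := (s, x)) h1.self_of_nhds).differentiableAt (by simp)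
    have d3 : HasFDerivAt (fun y => L0.symm (G' (s, y)))
        ((L0.symm : E n →L[ℝ] E n).comp (fderiv ℝ (fun y => G' (s, y)) x)) x :=
      ((L0.symm : E n →L[ℝ] E n).hasFDerivAt).comp x d2.hasFDerivAt
    have h2 := (hslice s x hs hx).2
    rw [d3.fderiv] at h2
    have h3 := bij_of_near (h2.trans_lt (by norm_num))
    have h4 : Bijective (L0 ∘ ((L0.symm : E n →L[ℝ] E n).comp (fderiv ℝ (fun y => G' (s, y)) x))) :=
      L0.bijective.comp h3
    convert h4 using 1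
    ext v
    simp
  have heq : ∀ s x, (R / 2 ≤ ‖s‖ ∨ R / 2 ≤ ‖x‖) → G' (s, x) = G (s, x) := by
    intro s x hsx
    rw [hG', hwd]
    show T (s, x) + χ (s, x) • (G (s, x) - T (s, x)) = G (s, x)
    rw [c4 (s, x) (le_norm_iff'.2 hsx), one_smul]
    abel
  refine ⟨R, R / 2, G', by positivity, hRa, hRb, ⟨by linarith, by linarith, ?_, ?_, hinj, ?_⟩, hreg⟩
  · intro s x hs hx
    exact (hreg s x hs hx).cont
  · intro s x _ _ hsx
    exact heq s x hsx
  · intro s hs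
    have hsl : ∀ {F : P × E n → E n} {s : P} {x : E n}, ContinuousAt F (s, x) →
        ContinuousAt (fun x => F (s, x)) x := fun {F s x} hF =>
      ContinuousAt.comp (g := F) (f := fun x : E n => ((s, x) : P × E n)) hF
        (Continuous.prodMk_right s).continuousAt
    refine ball_image_eq (c := R / 2) (by positivity) (by linarith) ?_ ?_ (hinj s hs)
      ((h.inj s (hs.trans_le hRa)).mono (ball_subset_ball hRb)) ?_ ?_
      fun x h1 _ => heq s x (Or.inr h1)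
    · intro x hx
      exact (hsl (hreg s x hs (mem_ball_zero_iff.1 hx)).cont).continuousWithinAt
    · intro x hx
      exact (hsl (h.cont s x (hs.trans_le hRa)
        ((mem_ball_zero_iff.1 hx).trans_le hRb))).continuousWithinAt
    · intro r hr
      exact isOpen_image_of_LD isOpen_ball fun x hx =>
        (hreg s x hs ((mem_ball_zero_iff.1 hx).trans hr)).2
    · intro r hr
      exact h.opn s (hs.trans_le hRa) _ isOpen_ball (ball_subset_ball (hr.trans_le hRb).le)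

end Pool.Agent.H816.Fam
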