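import Pool.Agent.H816.Horn

/-!
# Local diffeomorphisms and spheres
-/

set_option autoImplicit false

open Set Filter Topology Metric Function MeasureTheory Module
open scoped Manifold ContDiff NNReal RealInnerProductSpace

noncomputable section

namespace Pool.Agent.H816

open Pool.Agent.Y522 Pool.Agent.Y784.SH

section general

variable {n : ℕ} {M N P : Type*} [TopologicalSpace M] [ChartedSpace (E n) M]
    [TopologicalSpace N] [ChartedSpace (E n) N] [TopologicalSpace P] [ChartedSpace (E n) P]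

/-- a local diffeomorphism has a local inverse -/
theorem LD_exists_inv {p : M → N} {x : M} (hp : LD n p x) : ∃ q : N → M, LD n q (p x) ∧
    q (p x) = x ∧ (∀ᶠ y in 𝓝 x, q (p y) = y) ∧ ∀ᶠ z in 𝓝 (p x), p (q z) = z := by
  obtain ⟨Φ, hx, heq⟩ := hp
  have hpx : p x = Φ x := heq hx
  refine ⟨Φ.symm, ⟨Φ.symm, ?_, fun _ _ => rfl⟩, ?_, ?_, ?_⟩
  · change p x ∈ Φ.target
    rw [hpx]
    exact Φ.map_source hx
  · rw [hpx]
    exact Φ.left_inv hx
  · filter_upwards [Φ.open_source.mem_nhds hx] with y hy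
    rw [heq hy]
    exact Φ.left_inv hy
  · have h1 : Φ.target ∈ 𝓝 (p x) := Φ.open_target.mem_nhds (by rw [hpx]; exact Φ.map_source hx)
    filter_upwards [h1] with z hz
    have h2 : Φ.symm z ∈ Φ.source := Φ.map_target hz
    rw [heq h2]
    exact Φ.right_inv hz

theorem LD_of_comp_right {p : M → N} {h : N → P} {x : M} (hp : LD n p x)
    (hh : LD n (fun y => h (p y)) x) : LD n h (p x) := by
  obtain ⟨q, hq, hqx, -, hq2⟩ := LD_exists_inv hp
  have h1 : LD n (fun z => h (p (q z))) (p x) := by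
    have h2 : LD n (fun y => h (p y)) (q (p x)) := by rw [hqx]; exact hh
    exact h2.comp_fun (g := fun y => h (p y)) hq
  refine h1.congr ?_
  filter_upwards [hq2] with z hz
  rw [hz]

theorem LD_of_comp_left {p : N → P} {g : M → N} {x : M} (hg : ContinuousAt g x)
    (hp : LD n p (g x)) (hpg : LD n (fun y => p (g y)) x) : LD n g x := by
  obtain ⟨q, hq, hqx, hq1, -⟩ := LD_exists_inv hp
  have h1 : LD n (fun y => q (p (g y))) x := by
    exact LD.comp_fun (g := q) (f := fun y => p (g y)) hq hpg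
  refine h1.congr ?_
  filter_upwards [hg.eventually hq1] with y hy
  rw [hy]

end general

section sphere

variable {n : ℕ}

theorem factE (n : ℕ) : Fact (finrank ℝ (EuclideanSpace ℝ (Fin (n + 1))) = n + 1) :=
  ⟨finrank_euclideanSpace_fin⟩

attribute [local instance] factE

/-- the sphere of dimension `n` -/
abbrev Sn (n : ℕ) : Type := sphere (0 : EuclideanSpace ℝ (Fin (n + 1))) 1

/-- inverse stereographic projection from `q` -/
def sg (q : Sn n) (y : E n) : Sn n := (stereographic' n q).symm y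

/-- stereographic projection from `q`, on the ambient space -/
def pr (q : Sn n) (z : E (n + 1)) : E n :=
  (OrthonormalBasis.fromOrthogonalSpanSingleton n (ne_zero_of_mem_unit_sphere q)).repr
    (stereoToFun (q : E (n + 1)) z)

theorem pr_eq (q z : Sn n) : pr q (z : E (n + 1)) = stereographic' n q z := rfl

theorem inner_ne {q z : E (n + 1)} (hq : ‖q‖ = 1) (hz : ‖z‖ = 1) (h : z ≠ q) :
    inner ℝ q z ≠ 1 := by
  intro h1
  exact h ((inner_eq_one_iff_of_norm_eq_one hq hz).1 h1).symm

theorem pr_smooth (q : Sn n) {z : E (n + 1)} (hz : ‖z‖ = 1) (h : z ≠ q) :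
    ContDiffAt ℝ ∞ (pr q) z := by
  unfold pr
  have h1 : ContDiffOn ℝ ∞ (stereoToFun (q : E (n + 1)))
      {x : E (n + 1) | innerSL _ (q : E (n + 1)) x ≠ (1 : ℝ)} :=
    contDiffOn_stereoToFun
  have h2 : {x : E (n + 1) | innerSL ℝ (q : E (n + 1)) x ≠ (1 : ℝ)} ∈ 𝓝 z := by
    apply IsOpen.mem_nhds
    · exact isOpen_ne_fun (innerSL ℝ (q : E (n + 1))).continuous continuous_const
    · exact inner_ne (by simp) hz h
  exact (LinearIsometryEquiv.contDiff _).contDiffAt.comp z (h1.contDiffAt h2)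

theorem pr_smooth' (q : Sn n) {z : E (n + 1)} (hz : ‖z‖ = 1) (h : z ≠ q) :
    ∀ᶠ y in 𝓝 z, ContDiffAt ℝ ∞ (pr q) y := by
  unfold pr
  have h1 : ContDiffOn ℝ ∞ (stereoToFun (q : E (n + 1)))
      {x : E (n + 1) | innerSL _ (q : E (n + 1)) x ≠ (1 : ℝ)} :=
    contDiffOn_stereoToFun
  have ho : IsOpen {x : E (n + 1) | innerSL ℝ (q : E (n + 1)) x ≠ (1 : ℝ)} :=
    isOpen_ne_fun (innerSL ℝ (q : E (n + 1))).continuous continuous_const
  have h2 : {x : E (n + 1) | innerSL ℝ (q : E (n + 1)) x ≠ (1 : ℝ)} ∈ 𝓝 z :=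
    ho.mem_nhds (inner_ne (by simp) hz h)
  filter_upwards [h2] with y hy
  exact (LinearIsometryEquiv.contDiff _).contDiffAt.comp y (h1.contDiffAt (ho.mem_nhds hy))

theorem pr_sg (q : Sn n) (y : E n) : pr q (sg q y) = y := by
  unfold sg
  rw [pr_eq]
  exact (stereographic' n q).right_inv (by simp)

theorem sg_pr (q : Sn n) {z : Sn n} (h : z ≠ q) : sg q (pr q z) = z := by
  rw [pr_eq]
  unfold sg
  rw [(stereographic' n q).left_inv]
  simpa using h

theorem sg_LD (q : Sn n) (y : E n) : LD n (sg q) y := by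
  have hq : stereographic' n q = chartAt (E n) (-q) := by
    show _ = stereographic' n (- -q)
    rw [neg_neg]
  have : IsManifold (𝓡 n) ∞ (Sn n) := IsManifold.of_le (n := ω) le_top
  have h1 : ContMDiffOn (𝓡 n) (𝓡 n) ∞ (stereographic' n q) (stereographic' n q).source := by
    rw [hq]; exact contMDiffOn_chart
  have h2 : ContMDiffOn (𝓡 n) (𝓡 n) ∞ (stereographic' n q).symm (stereographic' n q).target := by
    rw [hq]; exact contMDiffOn_chart_symm
  refine ⟨⟨(stereographic' n q).symm.toPartialEquiv, (stereographic' n q).symm.open_source,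
    (stereographic' n q).symm.open_target, h2, h1⟩, by simp, fun z _ => rfl⟩

theorem sg_inj (q : Sn n) : Injective (sg q) := by
  intro a b hab
  rw [← pr_sg q a, hab, pr_sg]

theorem sg_ne (q : Sn n) (y : E n) : sg q y ≠ q := by
  have h : sg q y ∈ (stereographic' n q).source := (stereographic' n q).map_target (by simp)
  simpa using h

theorem coe_smooth {f : E n → Sn n} {x : E n} (hf : LD n f x) :
    ContDiffAt ℝ ∞ (fun z => (f z : E (n + 1))) x := by
  have h1 : ContMDiffAt (𝓡 n) 𝓘(ℝ, E (n + 1)) ∞ (fun z => (f z : E (n + 1))) x :=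
    (contMDiff_coe_sphere (f x)).comp x hf.contMDiffAt
  exact contMDiffAt_iff_contDiffAt.1 h1

theorem neg_ne (q : Sn n) : q ≠ -q := by
  intro h
  have h1 : (q : E (n + 1)) = -(q : E (n + 1)) := congrArg Subtype.val h
  have h2 : (2 : ℝ) • (q : E (n + 1)) = 0 := by
    rw [two_smul]
    nth_rewrite 2 [h1]
    simp
  have h3 := (smul_eq_zero.1 h2).resolve_left two_ne_zero
  exact ne_zero_of_mem_unit_sphere q h3

/-- the derivative is injective -/
theorem coe_inj {f : E n → Sn n} {x : E n} (hf : LD n f x) :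
    Injective (fderiv ℝ (fun z => (f z : E (n + 1))) x) := by
  set q : Sn n := -(f x) with hq
  have hne : f x ≠ q := neg_ne _
  have hsx : sg q (pr q (f x)) = f x := sg_pr q hne
  have hg : LD n (fun z => pr q (f z)) x := by
    have h1 : LD n (fun z : Sn n => pr q (z : E (n + 1))) (f x) := by
      have h2 := LD.inverse (k := sg q) (g := fun z : Sn n => pr q (z : E (n + 1))) (U := univ)
        isOpen_univ (fun y _ => sg_LD q y) (fun y _ => pr_sg q y) (mem_univ (pr q (f x)))
      rwa [hsx] at h2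
    exact LD.comp_fun (g := fun z : Sn n => pr q (z : E (n + 1))) h1 hf
  obtain ⟨A, hA⟩ := hg.exists_equiv
  have hd1 : DifferentiableAt ℝ (pr q) (f x : E (n + 1)) :=
    (pr_smooth q (by simp) (fun h => hne (Subtype.ext h))).differentiableAt (by simp)
  have hd2 : DifferentiableAt ℝ (fun z => (f z : E (n + 1))) x :=
    (coe_smooth hf).differentiableAt (by simp)
  have h1 := fderiv_comp (g := pr q) (f := fun z => (f z : E (n + 1))) x hd1 hd2
  have h2 : fderiv ℝ (fun z => pr q (f z)) x = A := hA.fderiv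
  intro v w hvw
  apply A.injective
  have h3 : ∀ v, A v = fderiv ℝ (pr q) (f x : E (n + 1))
      (fderiv ℝ (fun z => (f z : E (n + 1))) x v) := fun v => by
    have h4 := DFunLike.congr_fun (h2.symm.trans h1) v
    simpa using h4
  rw [h3, h3, hvw]

/-- criterion for maps into the sphere -/
theorem LD_sph {f : E n → Sn n} {x : E n}
    (hf : ∀ᶠ y in 𝓝 x, ContDiffAt ℝ ∞ (fun z => (f z : E (n + 1))) y)
    (hi : Injective (fderiv ℝ (fun z => (f z : E (n + 1))) x)) : LD n f x := by
  set q : Sn n := -(f x) with hq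
  have hne : f x ≠ q := neg_ne _
  have hfc : ContinuousAt f x := by
    have h1 : ContinuousAt (fun z => (f z : E (n + 1))) x := (hf.self_of_nhds).continuousAt
    exact (Topology.IsInducing.subtypeVal.continuousAt_iff).2 h1
  have hsm : ∀ᶠ y in 𝓝 x, ContDiffAt ℝ ∞ (fun z => pr q (f z : E (n + 1))) y := by
    have h1 : ∀ᶠ y in 𝓝 x, f y ≠ q := hfc.eventually_ne hne
    filter_upwards [h1, hf] with y hy1 hy2
    exact (pr_smooth q (by simp) (fun h => hy1 (Subtype.ext h))).comp
      (f := fun z => (f z : E (n + 1))) y hy2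
  have hev : (fun z => sg q (pr q (f z : E (n + 1)))) =ᶠ[𝓝 x] f := by
    filter_upwards [hfc.eventually_ne hne] with y hy
    exact sg_pr q hy
  have hgl : LD n (fun z => pr q (f z : E (n + 1))) x := by
    refine LD_of_inj' hsm ?_
    -- derivative of the coe of sg composed
    have hd1 : DifferentiableAt ℝ (fun z => (sg q z : E (n + 1))) (pr q (f x : E (n + 1))) :=
      (coe_smooth (sg_LD q _)).differentiableAt (by simp)
    have hd2 : DifferentiableAt ℝ (fun z => pr q (f z : E (n + 1))) x :=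
      (hsm.self_of_nhds).differentiableAt (by simp)
    have h1 := fderiv_comp (g := fun z => (sg q z : E (n + 1)))
      (f := fun z => pr q (f z : E (n + 1))) x hd1 hd2
    have h2 : ((fun z => (sg q z : E (n + 1))) ∘ fun z => pr q (f z : E (n + 1))) =ᶠ[𝓝 x]
        fun z => (f z : E (n + 1)) := by
      filter_upwards [hev] with y hy
      exact congrArg Subtype.val hy
    rw [h2.fderiv_eq] at h1
    intro v w hvw
    apply hi
    rw [h1]
    simp only [ContinuousLinearMap.comp_apply, hvw]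
  have h3 : LD n (fun z => sg q (pr q (f z : E (n + 1)))) x :=
    LD.comp_fun (g := sg q) (sg_LD q _) hgl
  exact h3.congr hev.symm

/-- linear isometries act on the sphere -/
def iso (A : E (n + 1) ≃ₗᵢ[ℝ] E (n + 1)) (y : Sn n) : Sn n :=
  ⟨A (y : E (n + 1)), by simp⟩

theorem iso_LD (A : E (n + 1) ≃ₗᵢ[ℝ] E (n + 1)) (y : Sn n) : LD n (iso A) y := by
  set q : Sn n := -y with hq
  have hne : y ≠ q := neg_ne _
  have hsx : sg q (pr q y) = y := sg_pr q hne
  have h1 : LD n (fun z => iso A (sg q z)) (pr q y) := by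
    have hs : ∀ z, ContDiffAt ℝ ∞ (fun z => ((iso A (sg q z) : Sn n) : E (n + 1))) z := by
      intro z
      exact A.contDiff.contDiffAt.comp z (coe_smooth (sg_LD q z))
    refine LD_sph (Eventually.of_forall hs) ?_
    have h2 : fderiv ℝ (fun z => ((iso A (sg q z) : Sn n) : E (n + 1))) (pr q y) =
        (A.toContinuousLinearEquiv : E (n + 1) →L[ℝ] E (n + 1)).comp
          (fderiv ℝ (fun z => (sg q z : E (n + 1))) (pr q y)) := by
      have hd := ((coe_smooth (sg_LD q (pr q y))).differentiableAt (by simp)).hasFDerivAt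
      exact ((A.toContinuousLinearEquiv.hasFDerivAt).comp (pr q y) hd).fderiv
    rw [h2]
    intro v w hvw
    exact coe_inj (sg_LD q _) (A.injective hvw)
  have h2 := LD_of_comp_right (sg_LD q _) h1
  rwa [hsx] at h2

theorem iso_symm_apply (A : E (n + 1) ≃ₗᵢ[ℝ] E (n + 1)) (y : Sn n) : iso A.symm (iso A y) = y :=
  Subtype.ext (A.symm_apply_apply _)

theorem iso_apply_symm (A : E (n + 1) ≃ₗᵢ[ℝ] E (n + 1)) (y : Sn n) : iso A (iso A.symm y) = y :=
  Subtype.ext (A.apply_symm_apply _)

theorem iso_bij (A : E (n + 1) ≃ₗᵢ[ℝ] E (n + 1)) : Bijective (iso A) :=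
  bijective_iff_has_inverse.2 ⟨iso A.symm, iso_symm_apply A, iso_apply_symm A⟩

/-- isometries act transitively -/
theorem exists_iso (p q : Sn n) : ∃ A : E (n + 1) ≃ₗᵢ[ℝ] E (n + 1), iso A p = q := by
  refine ⟨Submodule.reflection (ℝ ∙ ((p : E (n + 1)) - q))ᗮ, Subtype.ext ?_⟩
  exact Submodule.reflection_sub (by simp)

/-- a diffeomorphism of the sphere -/
def DifS (n : ℕ) (D : Sn n → Sn n) : Prop := Bijective D ∧ ∀ x, LD n D x

theorem DifS.comp {f g : Sn n → Sn n} (hf : DifS n f) (hg : DifS n g) :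
    DifS n (fun x => f (g x)) :=
  ⟨hf.1.comp hg.1, fun x => (hf.2 (g x)).comp_fun (hg.2 x)⟩

theorem DifS.inv {f : Sn n → Sn n} (hf : DifS n f) :
    ∃ g : Sn n → Sn n, DifS n g ∧ (∀ x, g (f x) = x) ∧ ∀ x, f (g x) = x := by
  let e := Equiv.ofBijective f hf.1
  have h1 : ∀ x, e.symm (f x) = x := fun x => e.symm_apply_apply x
  have h2 : ∀ x, f (e.symm x) = x := fun x => e.apply_symm_apply x
  exact ⟨e.symm, ⟨e.symm.bijective, fun y => LD.inverse_bij hf.1 hf.2 h1 y⟩, h1, h2⟩

theorem DifS.iso (A : E (n + 1) ≃ₗᵢ[ℝ] E (n + 1)) : DifS n (iso A) := ⟨iso_bij A, iso_LD A⟩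

end sphere

end Pool.Agent.H816
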