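import Pool.Agent.H816.Fam7
import Pool.Agent.H816.Sph

/-!
# Families of maps of manifolds, in coordinates
-/

set_option autoImplicit false

open Set Filter Topology Metric Function
open scoped Manifold ContDiff

noncomputable section

namespace Pool.Agent.H816.Fam

open Pool.Agent.Y522

/-- total map of a family -/
def tot {P X Y : Type*} (F : P → X → Y) (z : P × X) : P × Y := (z.1, F z.1 z.2)

section top

/-- a continuous bijection equal to a homeomorphism off a compact set -/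
theorem homeo_of_eq_off {A B : Type*} [TopologicalSpace A] [TopologicalSpace B] [T2Space B]
    {T H : A → B} (hT : IsHomeomorph T) (hH : Continuous H) (hb : Bijective H) {Q : Set A}
    (hQ : IsCompact Q) (he : ∀ x, x ∉ Q → H x = T x) : IsHomeomorph H := by
  refine isHomeomorph_iff_continuous_isClosedMap_bijective.2 ⟨hH, fun C hC => ?_, hb⟩
  have h1 : EqOn H T (closure Qᶜ) := EqOn.closure (fun x hx => he x hx) hH hT.continuous
  have h2 : H '' C = H '' (C ∩ Q) ∪ T '' (C ∩ closure Qᶜ) := by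
    ext y
    constructor
    · rintro ⟨x, hx, rfl⟩
      by_cases hxQ : x ∈ Q
      · exact Or.inl ⟨x, ⟨hx, hxQ⟩, rfl⟩
      · exact Or.inr ⟨x, ⟨hx, subset_closure hxQ⟩, (he x hxQ).symm⟩
    · rintro (⟨x, ⟨hx, -⟩, rfl⟩ | ⟨x, ⟨hx, hx'⟩, rfl⟩)
      · exact ⟨x, hx, rfl⟩
      · exact ⟨x, hx, h1 hx'⟩
  rw [h2]
  exact ((hQ.inter_left hC).image hH).isClosed.union
    (hT.isClosedMap _ (hC.inter isClosed_closure))

variable {P X Y : Type*} [TopologicalSpace P] [TopologicalSpace X] [TopologicalSpace Y]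

theorem tot_bij {F : P → X → Y} : Bijective (tot F) ↔ ∀ s, Bijective (F s) := by
  constructor
  · intro h s
    constructor
    · intro x y hxy
      have h1 : tot F (s, x) = tot F (s, y) := Prod.ext rfl hxy
      exact congrArg Prod.snd (h.1 h1)
    · intro y
      obtain ⟨z, hz⟩ := h.2 (s, y)
      have h1 : z.1 = s := congrArg Prod.fst hz
      refine ⟨z.2, ?_⟩
      rw [← h1]
      exact congrArg Prod.snd hz
  · intro h
    constructor
    · intro z w hzw
      have h1' : (tot F z).1 = (tot F w).1 := by rw [hzw]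
      have h1 : z.1 = w.1 := h1'
      have h2' : (tot F z).2 = (tot F w).2 := by rw [hzw]
      have h2 : F z.1 z.2 = F w.1 w.2 := h2'
      rw [← h1] at h2
      exact Prod.ext h1 ((h z.1).1 h2)
    · intro w
      obtain ⟨x, hx⟩ := (h w.1).2 w.2
      exact ⟨(w.1, x), Prod.ext rfl hx⟩

/-- the levels of a homeomorphism of products over the parameter space -/
theorem tot_level {F : P → X → Y} (h : IsHomeomorph (tot F)) (s : P) : IsHomeomorph (F s) := by
  have hb := (tot_bij.1 h.bijective) s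
  have hc : Continuous (F s) :=
    continuous_snd.comp (h.continuous.comp (Continuous.prodMk_right s))
  refine isHomeomorph_iff_continuous_isClosedMap_bijective.2 ⟨hc, fun C hC => ?_, hb⟩
  have h1 : IsClosed (tot F '' (univ ×ˢ C)) := h.isClosedMap _ (isClosed_univ.prod hC)
  have h2 : F s '' C = (fun y => ((s, y) : P × Y)) ⁻¹' (tot F '' (univ ×ˢ C)) := by
    ext y
    constructor
    · rintro ⟨x, hx, rfl⟩
      exact ⟨(s, x), ⟨mem_univ _, hx⟩, rfl⟩
    · rintro ⟨z, hz, hzy⟩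
      have h3 : z.1 = s := congrArg Prod.fst hzy
      refine ⟨z.2, hz.2, ?_⟩
      rw [← h3]
      exact congrArg Prod.snd hzy
  rw [h2]
  exact h1.preimage (Continuous.prodMk_right s)

end top

variable {n : ℕ} {P : Type*} [NormedAddCommGroup P] [NormedSpace ℝ P]
  {X Y : Type*} [TopologicalSpace X] [ChartedSpace (E n) X] [TopologicalSpace Y]
  [ChartedSpace (E n) Y]

/-- regular points of families of maps of manifolds -/
def MReg (n : ℕ) {P : Type*} [NormedAddCommGroup P] [NormedSpace ℝ P] {X Y : Type*}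
    [TopologicalSpace X] [ChartedSpace (E n) X] [TopologicalSpace Y] [ChartedSpace (E n) Y]
    (F : P → X → Y) (z : P × X) : Prop :=
  (∀ᶠ w in 𝓝 z, ContMDiffAt (𝓘(ℝ, P).prod (𝓡 n)) (𝓡 n) ∞ (fun w : P × X => F w.1 w.2) w) ∧
    LD n (F z.1) z.2

theorem MReg.congr {F F' : P → X → Y} {z : P × X} (h : MReg n F z)
    (he : ∀ᶠ w in 𝓝 z, F' w.1 w.2 = F w.1 w.2) : MReg n F' z := by
  have h2 : Tendsto (fun x : X => ((z.1, x) : P × X)) (𝓝 z.2) (𝓝 z) :=
    (Continuous.prodMk_right z.1).tendsto z.2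
  refine ⟨?_, h.2.congr (h2.eventually he)⟩
  filter_upwards [h.1, he.eventually_nhds] with w hw1 hw2
  exact hw1.congr_of_eventuallyEq hw2

/-- a box around a point of the domain of a family -/
structure Bx (F : P → X → Y) (s0 : P) (c : E n → X) (q : Y → E n) (W : Set Y)
    (G : P × E n → E n) (a b : ℝ) : Prop where
  ha : 0 < a
  hb : 0 < b
  ci : InjOn c (ball 0 b)
  cl : ∀ z, ‖z‖ < b → LD n c z
  Wo : IsOpen W
  qi : InjOn q W
  ql : ∀ y ∈ W, LD n q y
  im : ∀ s x, ‖s‖ < a → ‖x‖ < b → F (s0 + s) (c x) ∈ W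
  eq : ∀ s x, ‖s‖ < a → ‖x‖ < b → G (s, x) = q (F (s0 + s) (c x))

variable {F : P → X → Y} {s0 : P} {c : E n → X} {q : Y → E n} {W : Set Y}
  {G : P × E n → E n} {a b : ℝ}

omit [NormedSpace ℝ P] in
theorem box_nhds {s : P} {x : E n} (hs : ‖s‖ < a) (hx : ‖x‖ < b) :
    ∀ᶠ w : P × E n in 𝓝 (s, x), ‖w.1‖ < a ∧ ‖w.2‖ < b := by
  have h1 : ∀ᶠ w : P × E n in 𝓝 (s, x), ‖w.1‖ < a :=
    (continuous_fst.norm.tendsto (s, x)).eventually_lt_const hs
  have h2 : ∀ᶠ w : P × E n in 𝓝 (s, x), ‖w.2‖ < b :=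
    (continuous_snd.norm.tendsto (s, x)).eventually_lt_const hx
  exact h1.and h2

/-- the inverse of the coordinates -/
theorem Bx.cinv (h : Bx F s0 c q W G a b) {x : E n} (hx : ‖x‖ < b) :
    invFunOn c (ball 0 b) (c x) = x :=
  h.ci.leftInvOn_invFunOn (mem_ball_zero_iff.2 hx)

theorem Bx.cinv_LD (h : Bx F s0 c q W G a b) {x : E n} (hx : ‖x‖ < b) :
    LD n (invFunOn c (ball 0 b)) (c x) :=
  LD.inverse isOpen_ball (fun z hz => h.cl z (mem_ball_zero_iff.1 hz))
    (fun z hz => h.cinv (mem_ball_zero_iff.1 hz)) (mem_ball_zero_iff.2 hx)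

theorem Bx.qinv [Nonempty Y] (h : Bx F s0 c q W G a b) {y : Y} (hy : y ∈ W) :
    invFunOn q W (q y) = y := h.qi.leftInvOn_invFunOn hy

theorem Bx.qinv_LD [Nonempty Y] (h : Bx F s0 c q W G a b) {y : Y} (hy : y ∈ W) :
    LD n (invFunOn q W) (q y) :=
  LD.inverse h.Wo h.ql (fun _ hz => h.qinv hz) hy

/-- the range of the box is open -/
theorem Bx.near (h : Bx F s0 c q W G a b) {s : P} {x : E n} (hs : ‖s‖ < a) (hx : ‖x‖ < b) :
    ∀ᶠ w : P × X in 𝓝 (s0 + s, c x), ‖w.1 - s0‖ < a ∧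
      ‖invFunOn c (ball 0 b) w.2‖ < b ∧ c (invFunOn c (ball 0 b) w.2) = w.2 := by
  have h1 : ∀ᶠ w : P × X in 𝓝 (s0 + s, c x), ‖w.1 - s0‖ < a := by
    have : Continuous fun w : P × X => ‖w.1 - s0‖ := (continuous_fst.sub continuous_const).norm
    refine (this.tendsto (s0 + s, c x)).eventually_lt_const ?_
    simpa using hs
  have h2 : c '' ball 0 b ∈ 𝓝 (c x) :=
    (h.cl x hx).image_mem_nhds (isOpen_ball.mem_nhds (mem_ball_zero_iff.2 hx))
  have h3 : ∀ᶠ w : P × X in 𝓝 (s0 + s, c x), w.2 ∈ c '' ball 0 b :=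
    (continuous_snd.tendsto (s0 + s, c x)).eventually h2
  filter_upwards [h1, h3] with w hw1 hw2
  obtain ⟨z, hz, hzw⟩ := hw2
  rw [← hzw, h.cinv (mem_ball_zero_iff.1 hz)]
  exact ⟨hw1, mem_ball_zero_iff.1 hz, rfl⟩

/-- the family in terms of the coordinates -/
theorem Bx.F_eq [Nonempty Y] (h : Bx F s0 c q W G a b) {s : P} {x : E n} (hs : ‖s‖ < a)
    (hx : ‖x‖ < b) : F (s0 + s) (c x) = invFunOn q W (G (s, x)) := by
  rw [h.eq s x hs hx, h.qinv (h.im s x hs hx)]

theorem Bx.F_near [Nonempty Y] (h : Bx F s0 c q W G a b) {s : P} {x : E n} (hs : ‖s‖ < a)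
    (hx : ‖x‖ < b) : ∀ᶠ w : P × X in 𝓝 (s0 + s, c x),
      F w.1 w.2 = invFunOn q W (G (w.1 - s0, invFunOn c (ball 0 b) w.2)) := by
  filter_upwards [h.near hs hx] with w hw
  rw [← h.F_eq hw.1 hw.2.1, hw.2.2, add_sub_cancel]

/-- the coordinate map of the domain -/
theorem Bx.phi_cont (h : Bx F s0 c q W G a b) {s : P} {x : E n} (hx : ‖x‖ < b) :
    ContinuousAt (fun w : P × E n => ((s0 + w.1, c w.2) : P × X)) (s, x) := by
  have h1 : ContinuousAt (fun w : P × E n => c w.2) (s, x) :=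
    ContinuousAt.comp (g := c) (f := fun w : P × E n => w.2) (h.cl x hx).continuousAt
      continuousAt_snd
  exact (continuousAt_const.add continuousAt_fst).prodMk h1

theorem Bx.G_cont (h : Bx F s0 c q W G a b) {s : P} {x : E n} (hs : ‖s‖ < a) (hx : ‖x‖ < b)
    (hF : ContinuousAt (fun w : P × X => F w.1 w.2) (s0 + s, c x)) : ContinuousAt G (s, x) := by
  have h1 : ContinuousAt (fun w : P × E n => F (s0 + w.1) (c w.2)) (s, x) :=
    ContinuousAt.comp (g := fun w : P × X => F w.1 w.2)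
      (f := fun w : P × E n => ((s0 + w.1, c w.2) : P × X)) hF (h.phi_cont hx)
  have h2 : ContinuousAt (fun w : P × E n => q (F (s0 + w.1) (c w.2))) (s, x) :=
    ContinuousAt.comp (g := q) (f := fun w : P × E n => F (s0 + w.1) (c w.2))
      (h.ql _ (h.im s x hs hx)).continuousAt h1
  refine h2.congr ?_
  filter_upwards [box_nhds hs hx] with w hw
  exact (h.eq w.1 w.2 hw.1 hw.2).symm

theorem Bx.psi_cont (h : Bx F s0 c q W G a b) {s : P} {x : E n} (hx : ‖x‖ < b) :
    ContinuousAt (fun w : P × X => ((w.1 - s0, invFunOn c (ball 0 b) w.2) : P × E n))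
      (s0 + s, c x) := by
  have h1 : ContinuousAt (fun w : P × X => invFunOn c (ball 0 b) w.2) (s0 + s, c x) :=
    ContinuousAt.comp (g := invFunOn c (ball 0 b)) (f := fun w : P × X => w.2)
      (h.cinv_LD hx).continuousAt continuousAt_snd
  exact (continuousAt_fst.sub continuousAt_const).prodMk h1

theorem Bx.F_cont (h : Bx F s0 c q W G a b) {s : P} {x : E n} (hs : ‖s‖ < a) (hx : ‖x‖ < b)
    (hG : ContinuousAt G (s, x)) : ContinuousAt (fun w : P × X => F w.1 w.2) (s0 + s, c x) := by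
  have : Nonempty Y := ⟨F s0 (c x)⟩
  have h0 : ((s0 + s - s0, invFunOn c (ball 0 b) (c x)) : P × E n) = (s, x) := by
    rw [h.cinv hx, add_sub_cancel_left]
  have h1 : ContinuousAt (fun w : P × X => G (w.1 - s0, invFunOn c (ball 0 b) w.2))
      (s0 + s, c x) :=
    ContinuousAt.comp (g := G)
      (f := fun w : P × X => ((w.1 - s0, invFunOn c (ball 0 b) w.2) : P × E n))
      (by rw [h0]; exact hG) (h.psi_cont hx)
  have h2 : ContinuousAt (fun w : P × X => invFunOn q W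
      (G (w.1 - s0, invFunOn c (ball 0 b) w.2))) (s0 + s, c x) := by
    refine ContinuousAt.comp (g := invFunOn q W)
      (f := fun w : P × X => G (w.1 - s0, invFunOn c (ball 0 b) w.2)) ?_ h1
    show ContinuousAt (invFunOn q W) (G (s0 + s - s0, invFunOn c (ball 0 b) (c x)))
    rw [h0, h.eq s x hs hx]
    exact (h.qinv_LD (h.im s x hs hx)).continuousAt
  exact h2.congr ((h.F_near hs hx).mono fun w hw => hw.symm)

theorem contMDiffAt_prod_iff {G : P × E n → E n} {w : P × E n} :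
    ContMDiffAt 𝓘(ℝ, P × E n) (𝓡 n) ∞ G w ↔ ContDiffAt ℝ ∞ G w := contMDiffAt_iff_contDiffAt

/-- regular points in coordinates -/
theorem Bx.reg (h : Bx F s0 c q W G a b) {s : P} {x : E n} (hs : ‖s‖ < a) (hx : ‖x‖ < b)
    (hF : MReg n F (s0 + s, c x)) : Reg G (s, x) := by
  constructor
  · have hphi : Tendsto (fun w : P × E n => ((s0 + w.1, c w.2) : P × X)) (𝓝 (s, x))
        (𝓝 (s0 + s, c x)) := h.phi_cont hx
    filter_upwards [hphi.eventually hF.1, box_nhds hs hx, (box_nhds hs hx).eventually_nhds]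
      with w h1 h2 h3
    have e1 : ContMDiffAt 𝓘(ℝ, P × E n) (𝓡 n) ∞ (fun w : P × E n => c w.2) w :=
      ContMDiffAt.comp (I' := 𝓡 n) (g := c) w (h.cl _ h2.2).contMDiffAt
        (contMDiffAt_iff_contDiffAt.2 contDiffAt_snd)
    have e2 : ContMDiffAt 𝓘(ℝ, P × E n) 𝓘(ℝ, P) ∞ (fun w : P × E n => s0 + w.1) w :=
      contMDiffAt_iff_contDiffAt.2 (contDiffAt_const.add contDiffAt_fst)
    have e3 : ContMDiffAt 𝓘(ℝ, P × E n) (𝓘(ℝ, P).prod (𝓡 n)) ∞
        (fun w : P × E n => ((s0 + w.1, c w.2) : P × X)) w := e2.prodMk e1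
    have e4 : ContMDiffAt 𝓘(ℝ, P × E n) (𝓡 n) ∞ (fun w : P × E n => F (s0 + w.1) (c w.2)) w :=
      ContMDiffAt.comp (I' := 𝓘(ℝ, P).prod (𝓡 n)) (g := fun w : P × X => F w.1 w.2) w h1 e3
    have e5 : ContMDiffAt 𝓘(ℝ, P × E n) (𝓡 n) ∞
        (fun w : P × E n => q (F (s0 + w.1) (c w.2))) w :=
      ContMDiffAt.comp (I' := 𝓡 n) (g := q) w (h.ql _ (h.im _ _ h2.1 h2.2)).contMDiffAt e4
    refine contMDiffAt_prod_iff.1 (e5.congr_of_eventuallyEq ?_)
    filter_upwards [h3] with v hv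
    exact h.eq v.1 v.2 hv.1 hv.2
  · have e1 : LD n (fun x => F (s0 + s) (c x)) x := LD.comp_fun (g := F (s0 + s)) hF.2 (h.cl x hx)
    have e2 : LD n (fun x => q (F (s0 + s) (c x))) x :=
      LD.comp_fun (g := q) (h.ql _ (h.im s x hs hx)) e1
    refine e2.congr ?_
    filter_upwards [(continuous_norm.tendsto x).eventually_lt_const hx] with y hy
    exact h.eq s y hs hy

theorem Bx.mreg (h : Bx F s0 c q W G a b) {s : P} {x : E n} (hs : ‖s‖ < a) (hx : ‖x‖ < b)
    (hG : Reg G (s, x)) : MReg n F (s0 + s, c x) := by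
  have : Nonempty Y := ⟨F s0 (c x)⟩
  have h0 : ((s0 + s - s0, invFunOn c (ball 0 b) (c x)) : P × E n) = (s, x) := by
    rw [h.cinv hx, add_sub_cancel_left]
  constructor
  · have hpsi : Tendsto (fun w : P × X => ((w.1 - s0, invFunOn c (ball 0 b) w.2) : P × E n))
        (𝓝 (s0 + s, c x)) (𝓝 (s, x)) := by
      have := h.psi_cont (s := s) hx
      rw [ContinuousAt, h0] at this
      exact this
    have hcl : ∀ᶠ w : P × X in 𝓝 (s0 + s, c x), LD n (invFunOn c (ball 0 b)) w.2 :=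
      (continuous_snd.tendsto (s0 + s, c x)).eventually (h.cinv_LD hx).eventually
    filter_upwards [hpsi.eventually hG.1, h.near hs hx, (h.F_near hs hx).eventually_nhds, hcl]
      with w h1 h2 h3 h4
    have e1 : ContMDiffAt (𝓘(ℝ, P).prod (𝓡 n)) (𝓡 n) ∞
        (fun w : P × X => invFunOn c (ball 0 b) w.2) w :=
      ContMDiffAt.comp (I' := 𝓡 n) (g := invFunOn c (ball 0 b)) w h4.contMDiffAt contMDiffAt_snd
    have e2 : ContMDiffAt (𝓘(ℝ, P).prod (𝓡 n)) 𝓘(ℝ, P) ∞ (fun w : P × X => w.1 - s0) w :=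
      ContMDiffAt.comp (I' := 𝓘(ℝ, P)) (g := fun t : P => t - s0) w
        (contMDiffAt_iff_contDiffAt.2 (contDiffAt_id.sub contDiffAt_const)) contMDiffAt_fst
    have e3 : ContMDiffAt (𝓘(ℝ, P).prod (𝓡 n)) 𝓘(ℝ, P × E n) ∞
        (fun w : P × X => ((w.1 - s0, invFunOn c (ball 0 b) w.2) : P × E n)) w :=
      e2.prodMk_space e1
    have e4 : ContMDiffAt (𝓘(ℝ, P).prod (𝓡 n)) (𝓡 n) ∞
        (fun w : P × X => G (w.1 - s0, invFunOn c (ball 0 b) w.2)) w :=
      ContMDiffAt.comp (I' := 𝓘(ℝ, P × E n)) (g := G) w (contMDiffAt_prod_iff.2 h1) e3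
    have e5 : ContMDiffAt (𝓘(ℝ, P).prod (𝓡 n)) (𝓡 n) ∞
        (fun w : P × X => invFunOn q W (G (w.1 - s0, invFunOn c (ball 0 b) w.2))) w := by
      refine ContMDiffAt.comp (I' := 𝓡 n) (g := invFunOn q W) w ?_ e4
      refine LD.contMDiffAt ?_
      rw [h.eq _ _ h2.1 h2.2.1]
      exact h.qinv_LD (h.im _ _ h2.1 h2.2.1)
    exact e5.congr_of_eventuallyEq h3
  · have e1 : LD n (invFunOn c (ball 0 b)) (c x) := h.cinv_LD hx
    have e2 : LD n (fun y => G (s, invFunOn c (ball 0 b) y)) (c x) :=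
      LD.comp_fun (g := fun x => G (s, x)) (by rw [h.cinv hx]; exact hG.2) e1
    have e3 : LD n (fun y => invFunOn q W (G (s, invFunOn c (ball 0 b) y))) (c x) := by
      refine LD.comp_fun (g := invFunOn q W) ?_ e2
      rw [h.cinv hx, h.eq s x hs hx]
      exact h.qinv_LD (h.im s x hs hx)
    refine e3.congr ?_
    have ht : Tendsto (fun y : X => ((s0 + s, y) : P × X)) (𝓝 (c x)) (𝓝 (s0 + s, c x)) :=
      (Continuous.prodMk_right (s0 + s)).tendsto (c x)
    filter_upwards [ht.eventually (h.F_near hs hx)] with y hy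
    have hy' : F (s0 + s) y = invFunOn q W (G (s0 + s - s0, invFunOn c (ball 0 b) y)) := hy
    rw [add_sub_cancel_left] at hy'
    exact hy'

/-- levels -/
theorem Bx.level (h : Bx F s0 c q W G a b) {s : P} {x : E n} (hs : ‖s‖ < a) (hx : ‖x‖ < b)
    (hG : LD n (fun x => G (s, x)) x) : LD n (F (s0 + s)) (c x) := by
  have : Nonempty Y := ⟨F s0 (c x)⟩
  have e1 : LD n (invFunOn c (ball 0 b)) (c x) := h.cinv_LD hx
  have e2 : LD n (fun y => G (s, invFunOn c (ball 0 b) y)) (c x) :=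
    LD.comp_fun (g := fun x => G (s, x)) (by rw [h.cinv hx]; exact hG) e1
  have e3 : LD n (fun y => invFunOn q W (G (s, invFunOn c (ball 0 b) y))) (c x) := by
    refine LD.comp_fun (g := invFunOn q W) ?_ e2
    rw [h.cinv hx, h.eq s x hs hx]
    exact h.qinv_LD (h.im s x hs hx)
  refine e3.congr ?_
  have ht : Tendsto (fun y : X => ((s0 + s, y) : P × X)) (𝓝 (c x)) (𝓝 (s0 + s, c x)) :=
    (Continuous.prodMk_right (s0 + s)).tendsto (c x)
  filter_upwards [ht.eventually (h.F_near hs hx)] with y hy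
  have hy' : F (s0 + s) y = invFunOn q W (G (s0 + s - s0, invFunOn c (ball 0 b) y)) := hy
  rw [add_sub_cancel_left] at hy'
  exact hy'

end Pool.Agent.H816.Fam
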