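import Pool.Agent.H816.Sing2

/-!
# Replacing isolated singular points of homeomorphisms: any number of points
-/

set_option autoImplicit false

open Set Filter Topology Metric Function MeasureTheory Module
open scoped Manifold ContDiff NNReal

noncomputable section

namespace Pool.Agent.H816

open Pool.Agent.Y522 Pool.Agent.Y784.SH

section cell

variable {n : ℕ}

/-- the diffeomorphism of the space onto the open unit ball -/
def ub (z : E n) : E n := OpenPartialHomeomorph.univUnitBall z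

theorem ub_mem (z : E n) : ub z ∈ ball (0 : E n) 1 :=
  OpenPartialHomeomorph.univUnitBall.map_source (mem_univ z)

theorem ub_inj : Injective (ub : E n → E n) := fun a b h => by
  have h1 := OpenPartialHomeomorph.univUnitBall.left_inv (mem_univ a)
  have h2 := OpenPartialHomeomorph.univUnitBall.left_inv (mem_univ b)
  rw [← h1, ← h2]
  exact congrArg _ h

theorem ub_zero : ub (0 : E n) = 0 := OpenPartialHomeomorph.univUnitBall_apply_zero

theorem ub_LD (z : E n) : LD n ub z := by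
  refine LD_of_left_inv (g := OpenPartialHomeomorph.univUnitBall.symm)
    (Eventually.of_forall fun y => OpenPartialHomeomorph.contDiff_univUnitBall.contDiffAt) ?_
    (Eventually.of_forall fun y => OpenPartialHomeomorph.univUnitBall.left_inv (mem_univ y))
  exact (OpenPartialHomeomorph.contDiffOn_univUnitBall_symm (n := 1)).contDiffAt
    (isOpen_ball.mem_nhds (ub_mem z)) |>.differentiableAt (by simp)

theorem LD_chart' {X : Type*} [TopologicalSpace X] [ChartedSpace (E n) X]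
    [IsManifold (𝓡 n) ∞ X] (x : X) : LD n (chartAt (E n) x : X → E n) x := by
  let Φ : PartialDiffeomorph (𝓡 n) (𝓡 n) X (E n) ∞ :=
    { toPartialEquiv := (chartAt (E n) x).toPartialEquiv
      open_source := (chartAt (E n) x).open_source
      open_target := (chartAt (E n) x).open_target
      contMDiffOn_toFun := contMDiffOn_chart
      contMDiffOn_invFun := contMDiffOn_chart_symm }
  exact ⟨Φ, mem_chart_source (E n) x, fun _ _ => rfl⟩

/-- cells around a point -/
theorem cell_exists {X : Type*} [TopologicalSpace X] [ChartedSpace (E n) X]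
    [IsManifold (𝓡 n) ∞ X] {x : X} {W : Set X} (hW : W ∈ 𝓝 x) :
    ∃ c : E n → X, c 0 = x ∧ Injective c ∧ (∀ z, LD n c z) ∧ ∀ z, c z ∈ W := by
  obtain ⟨p, hp1, hp2, -, -⟩ := LD_exists_inv (LD_chart' (n := n) x)
  obtain ⟨y0, hy0⟩ : ∃ y0 : E n, y0 = chartAt (E n) x x := ⟨_, rfl⟩
  rw [← hy0] at hp1 hp2
  obtain ⟨A, hAd⟩ : ∃ A : E n → X, A = fun y => p (y + y0) := ⟨_, rfl⟩
  have hA0 : A 0 = x := by
    rw [hAd]
    change p (0 + y0) = x
    rw [zero_add, hp2]
  have hA : LD n A 0 := by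
    rw [hAd]
    refine LD.comp_fun (g := p) (f := fun y => y + y0) ?_ (LD_add_const y0 0)
    rw [zero_add]
    exact hp1
  obtain ⟨u, hu, hinj⟩ := hA.eventually_injOn
  have hAW : A ⁻¹' W ∈ 𝓝 (0 : E n) :=
    hA.continuousAt.preimage_mem_nhds (by rwa [hA0])
  obtain ⟨ρ, hρ, hball⟩ := (nhds_basis_closedBall (x := (0 : E n))).mem_iff.mp
    (Filter.inter_mem (Filter.inter_mem hu hA.eventually) hAW)
  have hmem : ∀ z : E n, ρ • ub z ∈ closedBall (0 : E n) ρ := by
    intro z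
    have h1 := mem_ball_zero_iff.1 (ub_mem z)
    rw [mem_closedBall_zero_iff, norm_smul, Real.norm_eq_abs, abs_of_pos hρ]
    calc ρ * ‖ub z‖ ≤ ρ * 1 := mul_le_mul_of_nonneg_left h1.le hρ.le
      _ = ρ := by ring
  refine ⟨fun z => A (ρ • ub z), ?_, ?_, ?_, ?_⟩
  · simp [hA0, ub_zero]
  · intro a b hab
    have h1 := hinj (hball (hmem a)).1.1 (hball (hmem b)).1.1 hab
    exact ub_inj (smul_right_injective _ hρ.ne' h1)
  · intro z
    have h3 : LD n (fun y : E n => ρ • y) (ub z) :=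
      LD_linear (ContinuousLinearEquiv.smulLeft (Units.mk0 ρ hρ.ne')) (ub z)
    have h4 : LD n A (ρ • ub z) := (hball (hmem z)).1.2
    exact LD.comp_fun (g := A) (f := fun y : E n => ρ • ub y) h4
      (LD.comp_fun (g := fun y : E n => ρ • y) h3 (ub_LD z))
  · intro z
    exact (hball (hmem z)).2

end cell

variable {m : ℕ}

section sing

variable {X Y : Type*} [TopologicalSpace X] [ChartedSpace (E (m + 1)) X]
  [TopologicalSpace Y] [ChartedSpace (E (m + 1)) Y]

theorem HornX.congr {η : ℝ → ℝ} {f g : X → Y} {b : X} {A : E (m + 1) → X} {B : Y → E (m + 1)}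
    (h : HornX η f b A B) (he : g =ᶠ[𝓝 b] f) : HornX η g b A B := by
  have h0 : g b = f b := he.self_of_nhds
  have hA : Tendsto A (𝓝 0) (𝓝 b) := by
    have := h.LA.continuousAt.tendsto
    rwa [h.A0] at this
  have he' : ∀ᶠ x in 𝓝 (0 : E (m + 1)), g (A x) = f (A x) := hA.eventually he
  refine ⟨h.A0, h.LA, by rw [h0]; exact h.LB, by rw [h0]; exact h.B0, ?_, ?_, ?_⟩
  · obtain ⟨K, hK⟩ := h.lip
    refine ⟨K, ?_⟩
    have e1 : ∀ᶠ z : E (m + 1) × E (m + 1) in 𝓝 (0, 0), g (A z.1) = f (A z.1) :=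
      (continuous_fst.tendsto' ((0 : E (m + 1)), (0 : E (m + 1))) 0 rfl).eventually he'
    have e2 : ∀ᶠ z : E (m + 1) × E (m + 1) in 𝓝 (0, 0), g (A z.2) = f (A z.2) :=
      (continuous_snd.tendsto' ((0 : E (m + 1)), (0 : E (m + 1))) 0 rfl).eventually he'
    filter_upwards [hK, e1, e2] with z hz hz1 hz2
    rw [hz1, hz2]
    exact hz
  · obtain ⟨K, hK⟩ := h.contact
    refine ⟨K, ?_⟩
    filter_upwards [hK, nhdsWithin_le_nhds he'] with x hx hx'
    rw [hx']
    exact hx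
  · intro k
    obtain ⟨K, hK⟩ := h.bd k
    refine ⟨K, ?_⟩
    filter_upwards [hK, nhdsWithin_le_nhds he'.eventually_nhds] with x hx hx'
    have e : (fun x => B (g (A x))) =ᶠ[𝓝 x] fun x => B (f (A x)) := by
      filter_upwards [hx'] with y hy
      rw [hy]
    rw [(e.iteratedFDeriv (𝕜 := ℝ) (k + 1)).self_of_nhds]
    exact hx

/-- replacing one isolated singular point -/
theorem replace_point [T2Space X] [IsManifold (𝓡 (m + 1)) ∞ X] [IsManifold (𝓡 (m + 1)) ∞ Y]
    (hm : 2 ≤ m) {η : ℝ → ℝ} {κ : ℝ} (hη : Gauge η κ) {f : X → Y} (hf : IsHomeomorph f) {p : X}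
    (hp : ∀ᶠ x in 𝓝[≠] p, LD (m + 1) f x) {V : Set X} (hV : V ∈ 𝓝 p) {O : Set (X × Y)}
    (hO : O ∈ 𝓝 (p, f p)) :
    ∃ (g : X → Y) (b : X) (A : E (m + 1) → X) (B : Y → E (m + 1)) (K : Set X),
      IsHomeomorph g ∧ p ∈ K ∧ b ∈ K ∧ K ⊆ V ∧ (∀ x, x ∉ K → g =ᶠ[𝓝 x] f) ∧
      (∀ x ∈ K, (x, g x) ∈ O) ∧ (∀ x ∈ K, x ≠ b → LD (m + 1) g x) ∧ HornX η g b A B := by
  obtain ⟨d, hd0, hdi, hdl, -⟩ := cell_exists (n := m + 1) (x := f p) (W := univ) univ_mem
  have hrd : range d ∈ 𝓝 (f p) := by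
    have := (hdl 0).image_mem_nhds univ_mem
    rwa [image_univ, hd0] at this
  rw [nhds_prod_eq] at hO
  obtain ⟨U1, hU1, V1, hV1, hUV⟩ := mem_prod_iff.1 hO
  have hp' : {x | x ≠ p → LD (m + 1) f x} ∈ 𝓝 p := eventually_nhdsWithin_iff.1 hp
  obtain ⟨c, hc0, hci, hcl, hcW⟩ := cell_exists (n := m + 1) (x := p)
    (W := ((V ∩ U1) ∩ (f ⁻¹' V1 ∩ f ⁻¹' range d)) ∩ {x | x ≠ p → LD (m + 1) f x})
    (inter_mem (inter_mem (inter_mem hV hU1)
      (inter_mem (hf.continuous.continuousAt.preimage_mem_nhds hV1)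
        (hf.continuous.continuousAt.preimage_mem_nhds hrd))) hp')
  have hs : SingCell f c d :=
    { hf := hf
      ci := hci
      cd := hcl
      di := hdi
      dd := hdl
      im := fun x _ => (hcW x).1.2.2
      ld := fun x hx _ => (hcW x).2 (fun h => hx (hci (h.trans hc0.symm))) }
  obtain ⟨g, b, A, B, h1, h2, h3, h4, h5, h6⟩ := hs.replace hm hη
  refine ⟨g, b, A, B, c '' ball 0 1, h1, ⟨0, mem_ball_self one_pos, hc0⟩, h2, ?_, h3, ?_, h5, h6⟩
  · rintro _ ⟨z, -, rfl⟩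
    exact (hcW z).1.1.1
  · intro x hx
    obtain ⟨y, ⟨z, -, rfl⟩, hy⟩ := h4 x hx
    obtain ⟨w, -, rfl⟩ := hx
    refine hUV ⟨(hcW w).1.1.2, ?_⟩
    rw [← hy]
    exact (hcW z).1.2.1

/-- the map has the horn structure at the point -/
def Hn {m : ℕ} {X Y : Type*} [TopologicalSpace X] [ChartedSpace (E (m + 1)) X]
    [TopologicalSpace Y] [ChartedSpace (E (m + 1)) Y] (η : ℝ → ℝ) (f : X → Y) (x : X) : Prop :=
  ∃ (A : E (m + 1) → X) (B : Y → E (m + 1)), HornX η f x A B

/-- replacing all the singular points -/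
theorem replace_all [T2Space X] [IsManifold (𝓡 (m + 1)) ∞ X] [IsManifold (𝓡 (m + 1)) ∞ Y]
    (hm : 2 ≤ m) {η : ℝ → ℝ} {κ : ℝ} (hη : Gauge η κ) {V : Set X} (hV : IsOpen V)
    {O : Set (X × Y)} (hO : IsOpen O) (k : ℕ) : ∀ {f : X → Y}, IsHomeomorph f →
    (∀ x, (x, f x) ∈ O) → {x | ¬ LD (m + 1) f x}.Finite →
    {x | ¬ LD (m + 1) f x ∧ ¬ Hn (m := m) η f x}.ncard ≤ k →
    {x | ¬ LD (m + 1) f x ∧ ¬ Hn (m := m) η f x} ⊆ V →
    ∃ g : X → Y, IsHomeomorph g ∧ (∀ x, (x, g x) ∈ O) ∧ {x | ¬ LD (m + 1) g x}.Finite ∧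
      {x | ¬ LD (m + 1) g x}.ncard ≤ {x | ¬ LD (m + 1) f x}.ncard ∧
      (∀ x, x ∉ V → g =ᶠ[𝓝 x] f) ∧ ∀ x, LD (m + 1) g x ∨ Hn (m := m) η g x := by
  induction k with
  | zero =>
    intro f hf hfO hfin hk hS
    refine ⟨f, hf, hfO, hfin, le_rfl, fun x _ => Eventually.of_forall fun _ => rfl, fun x => ?_⟩
    rw [Nat.le_zero, Set.ncard_eq_zero (hfin.subset fun x hx => hx.1)] at hk
    by_contra hcon
    rw [not_or] at hcon
    have : x ∈ {x | ¬ LD (m + 1) f x ∧ ¬ Hn (m := m) η f x} := hcon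
    rw [hk] at this
    exact this
  | succ k ih =>
    intro f hf hfO hfin hk hS
    rcases Set.eq_empty_or_nonempty {x | ¬ LD (m + 1) f x ∧ ¬ Hn (m := m) η f x} with he | hne
    · exact ih hf hfO hfin (by rw [he, Set.ncard_empty]; omega) hS
    obtain ⟨p, hp⟩ := hne
    have hpS : ∀ᶠ x in 𝓝[≠] p, LD (m + 1) f x := by
      have h1 : IsClosed ({x | ¬ LD (m + 1) f x} \ {p}) := (hfin.subset diff_subset).isClosed
      have h2 : p ∉ {x | ¬ LD (m + 1) f x} \ {p} := fun h => h.2 rfl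
      rw [eventually_nhdsWithin_iff]
      filter_upwards [h1.isOpen_compl.mem_nhds h2] with x hx hxp
      by_contra hcon
      exact hx ⟨hcon, hxp⟩
    obtain ⟨g, b, A, B, K, h1, h2, h3, h4, h5, h6, h7, h8⟩ :=
      replace_point hm hη hf hpS (hV.mem_nhds (hS hp)) (hO.mem_nhds (hfO p))
    have hgO : ∀ x, (x, g x) ∈ O := by
      intro x
      by_cases hx : x ∈ K
      · exact h6 x hx
      · rw [(h5 x hx).self_of_nhds]
        exact hfO x
    have hsub : {x | ¬ LD (m + 1) g x} ⊆ insert b ({x | ¬ LD (m + 1) f x} \ {p}) := by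
      intro x hx
      by_cases hxK : x ∈ K
      · by_cases hxb : x = b
        · exact Or.inl hxb
        · exact absurd (h7 x hxK hxb) hx
      · refine Or.inr ⟨fun h => hx (h.congr (h5 x hxK)), ?_⟩
        intro hxp
        rw [mem_singleton_iff] at hxp
        rw [hxp] at hxK
        exact hxK h2
    have hfin2 : (insert b ({x | ¬ LD (m + 1) f x} \ {p})).Finite :=
      (hfin.subset diff_subset).insert b
    have hgfin : {x | ¬ LD (m + 1) g x}.Finite := hfin2.subset hsub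
    have hcard : {x | ¬ LD (m + 1) g x}.ncard ≤ {x | ¬ LD (m + 1) f x}.ncard := by
      calc {x | ¬ LD (m + 1) g x}.ncard
          ≤ (insert b ({x | ¬ LD (m + 1) f x} \ {p})).ncard := Set.ncard_le_ncard hsub hfin2
        _ ≤ ({x | ¬ LD (m + 1) f x} \ {p}).ncard + 1 := Set.ncard_insert_le _ _
        _ = {x | ¬ LD (m + 1) f x}.ncard := Set.ncard_diff_singleton_add_one hp.1 hfin
    have hsub2 : {x | ¬ LD (m + 1) g x ∧ ¬ Hn (m := m) η g x} ⊆
        {x | ¬ LD (m + 1) f x ∧ ¬ Hn (m := m) η f x} \ {p} := by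
      rintro x ⟨hx1, hx2⟩
      by_cases hxK : x ∈ K
      · by_cases hxb : x = b
        · exact absurd ⟨A, B, by rw [hxb]; exact h8⟩ hx2
        · exact absurd (h7 x hxK hxb) hx1
      · refine ⟨⟨fun h => hx1 (h.congr (h5 x hxK)), ?_⟩, ?_⟩
        · rintro ⟨A', B', h⟩
          exact hx2 ⟨A', B', h.congr (h5 x hxK)⟩
        · intro hxp
          rw [mem_singleton_iff] at hxp
          rw [hxp] at hxK
          exact hxK h2
    have hcard2 : {x | ¬ LD (m + 1) g x ∧ ¬ Hn (m := m) η g x}.ncard ≤ k := by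
      have e1 := Set.ncard_le_ncard hsub2 ((hfin.subset fun x hx => hx.1).subset diff_subset)
      have e2 := Set.ncard_diff_singleton_add_one hp (hfin.subset fun x hx => hx.1)
      omega
    obtain ⟨g', i1, i2, i3, i4, i5, i6⟩ := ih h1 hgO hgfin hcard2
      (hsub2.trans (diff_subset.trans hS))
    exact ⟨g', i1, i2, i3, i4.trans hcard, fun x hx =>
      (i5 x hx).trans (h5 x fun hxK => hx (h4 hxK)), i6⟩

end sing

end Pool.Agent.H816
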