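import Pool.Agent.H816.Fam8
import Pool.Agent.H816.Sing3

/-!
# Families of maps of manifolds: modifications in a box
-/

set_option autoImplicit false

open Set Filter Topology Metric Function
open scoped Manifold ContDiff

noncomputable section

namespace Pool.Agent.H816.Fam

open Pool.Agent.Y522

variable {n : ℕ} {P : Type*} [NormedAddCommGroup P] [NormedSpace ℝ P]
  {X Y : Type*} [TopologicalSpace X] [ChartedSpace (E n) X] [TopologicalSpace Y]
  [ChartedSpace (E n) Y]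

variable {F : P → X → Y} {s0 : P} {c : E n → X} {q : Y → E n} {W : Set Y}
  {G : P × E n → E n} {a b : ℝ}

/-- the compact set off which the family is not changed -/
def QQ (s0 : P) (c : E n → X) (r c0 : ℝ) : Set (P × X) :=
  (fun w : P × E n => (s0 + w.1, c w.2)) '' (closedBall 0 r ×ˢ closedBall 0 c0)

omit [ChartedSpace (E n) X] [NormedSpace ℝ P] in
theorem mem_QQ {r c0 : ℝ} {z : P × X} : z ∈ QQ s0 c r c0 ↔
    ‖z.1 - s0‖ ≤ r ∧ ∃ x, ‖x‖ ≤ c0 ∧ c x = z.2 := by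
  constructor
  · rintro ⟨w, ⟨h1, h2⟩, rfl⟩
    refine ⟨?_, w.2, mem_closedBall_zero_iff.1 h2, rfl⟩
    show ‖s0 + w.1 - s0‖ ≤ r
    rw [add_sub_cancel_left]
    exact mem_closedBall_zero_iff.1 h1
  · rintro ⟨h1, x, h2, h3⟩
    refine ⟨(z.1 - s0, x), ⟨mem_closedBall_zero_iff.2 h1, mem_closedBall_zero_iff.2 h2⟩, ?_⟩
    exact Prod.ext (add_sub_cancel s0 z.1) h3

theorem Bx.QQ_compact [FiniteDimensional ℝ P] (h : Bx F s0 c q W G a b) {r c0 : ℝ}
    (hc : c0 < b) : IsCompact (QQ s0 c r c0) := by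
  have : ProperSpace P := FiniteDimensional.proper ℝ P
  refine ((isCompact_closedBall (0 : P) r).prod (isCompact_closedBall (0 : E n) c0)).image_of_continuousOn
    fun w hw => ?_
  exact (h.phi_cont (s := w.1) ((mem_closedBall_zero_iff.1 hw.2).trans_lt hc)).continuousWithinAt

/-- modification of the family in a box -/
theorem Bx.replace [FiniteDimensional ℝ P] [T2Space X] [T2Space Y] (h : Bx F s0 c q W G a b)
    (hF : IsHomeomorph (tot F)) {G' : P × E n → E n} {r c0 : ℝ} (hm : Mdf G G' a b r c0) :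
    ∃ F' : P → X → Y, IsHomeomorph (tot F') ∧ Bx F' s0 c q W G' a b ∧
      (∀ z, z ∉ QQ s0 c r c0 → ∀ᶠ w in 𝓝 z, F' w.1 w.2 = F w.1 w.2) ∧
      ∀ s x, ‖s‖ < a → ‖x‖ < b → ∃ x', ‖x'‖ < b ∧ F' (s0 + s) (c x) = F (s0 + s) (c x') := by
  classical
  have hY : Nonempty Y := ⟨F s0 (c 0)⟩
  obtain ⟨F', hF'⟩ : ∃ F' : P → X → Y, F' = fun t y =>
    if ‖t - s0‖ < a ∧ y ∈ c '' ball 0 b then
      invFunOn q W (G' (t - s0, invFunOn c (ball 0 b) y)) else F t y := ⟨_, rfl⟩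
  have hbox : ∀ s x, ‖s‖ < a → ‖x‖ < b → F' (s0 + s) (c x) = invFunOn q W (G' (s, x)) := by
    intro s x hs hx
    rw [hF']
    have h1 : ‖s0 + s - s0‖ < a ∧ c x ∈ c '' ball 0 b := by
      rw [add_sub_cancel_left]
      exact ⟨hs, x, mem_ball_zero_iff.2 hx, rfl⟩
    show (if ‖s0 + s - s0‖ < a ∧ c x ∈ c '' ball 0 b then _ else _) = _
    rw [if_pos h1, add_sub_cancel_left, h.cinv hx]
  have hout : ∀ t y, ¬ (‖t - s0‖ < a ∧ y ∈ c '' ball 0 b) → F' t y = F t y := by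
    intro t y hty
    rw [hF']
    exact if_neg hty
  -- values
  have himg : ∀ s x, ‖s‖ < a → ‖x‖ < b → ∃ x', ‖x'‖ < b ∧ G' (s, x) = G (s, x') := by
    intro s x hs hx
    have h1 : G' (s, x) ∈ (fun x => G (s, x)) '' ball 0 b := by
      rw [← hm.img s hs]
      exact ⟨x, mem_ball_zero_iff.2 hx, rfl⟩
    obtain ⟨x', hx', he⟩ := h1
    exact ⟨x', mem_ball_zero_iff.1 hx', he.symm⟩
  have hval : ∀ s x, ‖s‖ < a → ‖x‖ < b → ∃ x', ‖x'‖ < b ∧ G' (s, x) = G (s, x') ∧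
      F' (s0 + s) (c x) = F (s0 + s) (c x') := by
    intro s x hs hx
    obtain ⟨x', hx', he⟩ := himg s x hs hx
    refine ⟨x', hx', he, ?_⟩
    rw [hbox s x hs hx, he, ← h.F_eq hs hx']
  have hbx : Bx F' s0 c q W G' a b := by
    refine ⟨h.ha, h.hb, h.ci, h.cl, h.Wo, h.qi, h.ql, ?_, ?_⟩
    · intro s x hs hx
      obtain ⟨x', hx', -, he⟩ := hval s x hs hx
      rw [he]
      exact h.im s x' hs hx'
    · intro s x hs hx
      obtain ⟨x', hx', he', he⟩ := hval s x hs hx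
      rw [he, he', h.eq s x' hs hx']
  -- off the compact set
  have hQc : IsCompact (QQ s0 c r c0) := h.QQ_compact hm.cb
  have hoff : ∀ z, z ∉ QQ s0 c r c0 → F' z.1 z.2 = F z.1 z.2 := by
    intro z hz
    by_cases hzb : ‖z.1 - s0‖ < a ∧ z.2 ∈ c '' ball 0 b
    · obtain ⟨hz1, x, hx, hxz⟩ := hzb
      rw [mem_ball_zero_iff] at hx
      have h1 : r ≤ ‖z.1 - s0‖ ∨ c0 ≤ ‖x‖ := by
        by_contra hcon
        rw [not_or, not_le, not_le] at hcon
        exact hz (mem_QQ.2 ⟨hcon.1.le, x, hcon.2.le, hxz⟩)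
      have h2 := hbox (z.1 - s0) x hz1 hx
      rw [hm.eq (z.1 - s0) x hz1 hx h1, ← h.F_eq hz1 hx, add_sub_cancel, hxz] at h2
      exact h2
    · exact hout _ _ hzb
  have hnear : ∀ z, z ∉ QQ s0 c r c0 → ∀ᶠ w in 𝓝 z, F' w.1 w.2 = F w.1 w.2 := by
    intro z hz
    filter_upwards [hQc.isClosed.isOpen_compl.mem_nhds hz] with w hw
    exact hoff w hw
  -- bijectivity
  have hbij : ∀ t, Bijective (F' t) := by
    intro t
    have hFt : Bijective (F t) := tot_bij.1 hF.bijective t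
    by_cases ht : ‖t - s0‖ < a
    · have e0 : s0 + (t - s0) = t := add_sub_cancel s0 t
      have e1 : ∀ x, ‖x‖ < b → ∃ x', ‖x'‖ < b ∧ G' (t - s0, x) = G (t - s0, x') ∧
          F' t (c x) = F t (c x') := by
        intro x hx
        have := hval (t - s0) x ht hx
        rwa [e0] at this
      have e2 : ∀ y, y ∉ c '' ball 0 b → F' t y = F t y := fun y hy => hout t y fun hh => hy hh.2
      constructor
      · intro y y' hyy
        by_cases hy : y ∈ c '' ball 0 b <;> by_cases hy' : y' ∈ c '' ball 0 b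
        · obtain ⟨x, hx, rfl⟩ := hy
          obtain ⟨x', hx', rfl⟩ := hy'
          have hx1 := mem_ball_zero_iff.1 hx
          have hx1' := mem_ball_zero_iff.1 hx'
          obtain ⟨u, hu, hu1, hu2⟩ := e1 x hx1
          obtain ⟨u', hu', hu1', hu2'⟩ := e1 x' hx1'
          rw [hu2, hu2'] at hyy
          have h3 := hFt.1 hyy
          have h4 := h.ci (mem_ball_zero_iff.2 hu) (mem_ball_zero_iff.2 hu') h3
          have h5 : G' (t - s0, x) = G' (t - s0, x') := by rw [hu1, hu1', h4]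
          rw [hm.inj (t - s0) ht hx hx' h5]
        · obtain ⟨x, hx, rfl⟩ := hy
          obtain ⟨u, hu, -, hu2⟩ := e1 x (mem_ball_zero_iff.1 hx)
          rw [hu2, e2 y' hy'] at hyy
          exact absurd ⟨u, mem_ball_zero_iff.2 hu, hFt.1 hyy⟩ hy'
        · obtain ⟨x, hx, rfl⟩ := hy'
          obtain ⟨u, hu, -, hu2⟩ := e1 x (mem_ball_zero_iff.1 hx)
          rw [hu2, e2 y hy] at hyy
          exact absurd ⟨u, mem_ball_zero_iff.2 hu, (hFt.1 hyy).symm⟩ hy
        · rw [e2 y hy, e2 y' hy'] at hyy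
          exact hFt.1 hyy
      · intro v
        obtain ⟨y, rfl⟩ := hFt.2 v
        by_cases hy : y ∈ c '' ball 0 b
        · obtain ⟨x, hx, rfl⟩ := hy
          have h3 : G (t - s0, x) ∈ (fun x => G' (t - s0, x)) '' ball 0 b := by
            rw [hm.img (t - s0) ht]
            exact ⟨x, hx, rfl⟩
          obtain ⟨x', hx', he⟩ := h3
          have he' : G' (t - s0, x') = G (t - s0, x) := he
          have h4 := hbox (t - s0) x' ht (mem_ball_zero_iff.1 hx')
          rw [he', ← h.F_eq ht (mem_ball_zero_iff.1 hx), e0] at h4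
          exact ⟨c x', h4⟩
        · exact ⟨y, e2 y hy⟩
    · have : F' t = F t := funext fun y => hout t y fun hh => ht hh.1
      rw [this]
      exact hFt
  -- continuity
  have hFc : Continuous fun w : P × X => F w.1 w.2 := continuous_snd.comp hF.continuous
  have hcont : Continuous fun w : P × X => F' w.1 w.2 := by
    rw [continuous_iff_continuousAt]
    intro z
    by_cases hz : z ∈ QQ s0 c r c0
    · obtain ⟨w, ⟨h1, h2⟩, rfl⟩ := hz
      have h1' : ‖w.1‖ < a := (mem_closedBall_zero_iff.1 h1).trans_lt hm.ra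
      have h2' : ‖w.2‖ < b := (mem_closedBall_zero_iff.1 h2).trans_lt hm.cb
      exact hbx.F_cont h1' h2' (hm.cont w.1 w.2 h1' h2')
    · exact hFc.continuousAt.congr ((hnear z hz).mono fun w hw => hw.symm)
  refine ⟨F', ?_, hbx, hnear, fun s x hs hx => ?_⟩
  · refine homeo_of_eq_off hF (continuous_fst.prodMk hcont) (tot_bij.2 hbij) hQc fun z hz => ?_
    exact Prod.ext rfl (hoff z hz)
  · obtain ⟨x', hx', -, he⟩ := hval s x hs hx
    exact ⟨x', hx', he⟩

/-- local coordinates -/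
theorem exists_open_inj {X' Y' : Type*} [TopologicalSpace X'] [ChartedSpace (E n) X']
    [TopologicalSpace Y'] [ChartedSpace (E n) Y'] {p : X' → Y'} {x : X'} (hp : LD n p x) :
    ∃ W : Set X', IsOpen W ∧ x ∈ W ∧ InjOn p W ∧ ∀ y ∈ W, LD n p y := by
  obtain ⟨u, hu, hi⟩ := hp.eventually_injOn
  obtain ⟨W, hW, hWo, hxW⟩ := mem_nhds_iff.1 (inter_mem hu hp.eventually)
  exact ⟨W, hWo, hxW, hi.mono fun y hy => (hW hy).1, fun y hy => (hW hy).2⟩

/-- boxes around an isolated singular point in given coordinates -/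
theorem exists_box (hF : IsHomeomorph (tot F)) {x0 : X} {A : E n → X}
    {B : Y → E n} (hA0 : A 0 = x0) (hA : LD n A 0) (hB : LD n B (F s0 x0))
    (hp : ∀ᶠ z in 𝓝[≠] (s0, x0), MReg n F z) {V : Set (P × X)} (hV : V ∈ 𝓝 (s0, x0))
    {O : Set ((P × X) × Y)} (hO : O ∈ 𝓝 ((s0, x0), F s0 x0)) :
    ∃ (W : Set Y) (R : ℝ), 0 < R ∧ ∀ a b, 0 < a → 0 < b → a ≤ R → b ≤ R →
      Bx F s0 A B W (fun z => B (F (s0 + z.1) (A z.2))) a b ∧
      Iso (fun z => B (F (s0 + z.1) (A z.2))) a b ∧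
      (∀ s x, ‖s‖ < a → ‖x‖ < b → (s0 + s, A x) ∈ V) ∧
      ∀ s x x', ‖s‖ < a → ‖x‖ < b → ‖x'‖ < b → ((s0 + s, A x), F (s0 + s) (A x')) ∈ O := by
  obtain ⟨W, hWo, hyW, hWi, hWl⟩ := exists_open_inj hB
  have hFc : Continuous fun w : P × X => F w.1 w.2 := continuous_snd.comp hF.continuous
  obtain ⟨u, hu, hui⟩ := hA.eventually_injOn
  -- neighbourhoods
  rw [nhds_prod_eq] at hO
  obtain ⟨O1, hO1, O2, hO2, hOO⟩ := mem_prod_iff.1 hO
  have hphi : ContinuousAt (fun w : P × E n => ((s0 + w.1, A w.2) : P × X)) (0, 0) := by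
    have h1 : ContinuousAt (fun w : P × E n => A w.2) (0, 0) :=
      ContinuousAt.comp (g := A) (f := fun w : P × E n => w.2) hA.continuousAt continuousAt_snd
    exact (continuousAt_const.add continuousAt_fst).prodMk h1
  have hphi0 : ((s0 + (0 : P), A 0) : P × X) = (s0, x0) := by rw [hA0, add_zero]
  have hphi' : Tendsto (fun w : P × E n => ((s0 + w.1, A w.2) : P × X)) (𝓝 (0, 0))
      (𝓝 (s0, x0)) := by
    have : Tendsto (fun w : P × E n => ((s0 + w.1, A w.2) : P × X)) (𝓝 (0, 0))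
      (𝓝 (s0 + (0 : P), A 0)) := hphi
    rwa [hphi0] at this
  have hFphi : Tendsto (fun w : P × E n => F (s0 + w.1) (A w.2)) (𝓝 (0, 0)) (𝓝 (F s0 x0)) :=
    (hFc.tendsto (s0, x0)).comp hphi'
  have n1 : ∀ᶠ w : P × E n in 𝓝 (0, 0), w.2 ∈ u :=
    (continuous_snd.tendsto ((0, 0) : P × E n)).eventually hu
  have n2 : ∀ᶠ w : P × E n in 𝓝 (0, 0), LD n A w.2 :=
    (continuous_snd.tendsto ((0, 0) : P × E n)).eventually hA.eventually
  have n3 : ∀ᶠ w : P × E n in 𝓝 (0, 0), (s0 + w.1, A w.2) ∈ V ∩ O1 :=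
    hphi'.eventually (inter_mem hV hO1)
  have n4 : ∀ᶠ w : P × E n in 𝓝 (0, 0), F (s0 + w.1) (A w.2) ∈ W ∩ O2 :=
    hFphi.eventually (inter_mem (hWo.mem_nhds hyW) hO2)
  have n5 : ∀ᶠ w : P × E n in 𝓝 (0, 0), (s0 + w.1, A w.2) ≠ (s0, x0) →
      MReg n F (s0 + w.1, A w.2) := by
    rw [eventually_nhdsWithin_iff] at hp
    exact hphi'.eventually hp
  obtain ⟨R, hR, hRR⟩ := Metric.eventually_nhds_iff.1
    (n1.and (n2.and (n3.and (n4.and n5))))
  have hbox : ∀ s x, ‖s‖ < R → ‖x‖ < R → x ∈ u ∧ LD n A x ∧ (s0 + s, A x) ∈ V ∩ O1 ∧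
      F (s0 + s) (A x) ∈ W ∩ O2 ∧ ((s0 + s, A x) ≠ (s0, x0) → MReg n F (s0 + s, A x)) := by
    intro s x hs hx
    refine hRR (y := (s, x)) ?_
    show dist ((s, x) : P × E n) (0 : P × E n) < R
    rw [dist_zero_right]
    exact norm_lt_iff'.2 ⟨hs, hx⟩
  refine ⟨W, R, hR, fun a b ha hb haR hbR => ?_⟩
  have hbox' : ∀ s x, ‖s‖ < a → ‖x‖ < b → x ∈ u ∧ LD n A x ∧ (s0 + s, A x) ∈ V ∩ O1 ∧
      F (s0 + s) (A x) ∈ W ∩ O2 ∧ ((s0 + s, A x) ≠ (s0, x0) → MReg n F (s0 + s, A x)) :=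
    fun s x hs hx => hbox s x (hs.trans_le haR) (hx.trans_le hbR)
  have h00 : ‖(0 : P)‖ < a := by rwa [norm_zero]
  have hci : InjOn A (ball 0 b) := fun x hx y hy hxy =>
    hui (hbox' 0 x h00 (mem_ball_zero_iff.1 hx)).1 (hbox' 0 y h00 (mem_ball_zero_iff.1 hy)).1 hxy
  have hbx : Bx F s0 A B W (fun z => B (F (s0 + z.1) (A z.2))) a b :=
    { ha := ha
      hb := hb
      ci := hci
      cl := fun z hz => (hbox' 0 z h00 hz).2.1
      Wo := hWo
      qi := hWi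
      ql := hWl
      im := fun s x hs hx => (hbox' s x hs hx).2.2.2.1.1
      eq := fun s x _ _ => rfl }
  have hlev : ∀ s, Injective (F s) ∧ IsOpenMap (F s) := fun s =>
    ⟨(tot_level hF s).injective, (tot_level hF s).isOpenMap⟩
  refine ⟨hbx, ⟨ha, hb, ?_, ?_, ?_, ?_⟩, fun s x hs hx => (hbox' s x hs hx).2.2.1.1, ?_⟩
  · intro s x hs hx
    exact hbx.G_cont hs hx hFc.continuousAt
  · intro s x hs hx hsx
    refine hbx.reg hs hx ((hbox' s x hs hx).2.2.2.2 ?_)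
    intro he
    rcases hsx with h | h
    · have h1 : s0 + s = s0 := congrArg Prod.fst he
      exact h (by simpa using h1)
    · have h1 : A x = x0 := congrArg Prod.snd he
      rw [← hA0] at h1
      exact h (hci (mem_ball_zero_iff.2 hx) (mem_ball_self hb) h1)
  · intro s hs x hx y hy hxy
    have h1 : F (s0 + s) (A x) = F (s0 + s) (A y) :=
      hWi (hbx.im s x hs (mem_ball_zero_iff.1 hx)) (hbx.im s y hs (mem_ball_zero_iff.1 hy)) hxy
    exact hci hx hy ((hlev _).1 h1)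
  · intro s hs U hU hUb
    have h1 : IsOpen (A '' U) := isOpen_image_of_LD hU fun x hx =>
      hbx.cl x (mem_ball_zero_iff.1 (hUb hx))
    have h2 : IsOpen (F (s0 + s) '' (A '' U)) := (hlev _).2 _ h1
    have h3 : IsOpen (B '' (F (s0 + s) '' (A '' U))) := isOpen_image_of_LD h2 (by
      rintro _ ⟨_, ⟨x, hx, rfl⟩, rfl⟩
      exact hWl _ (hbx.im s x hs (mem_ball_zero_iff.1 (hUb hx))))
    rw [image_image, image_image] at h3
    exact h3
  · intro s x x' hs hx hx'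
    exact hOO ⟨(hbox' s x hs hx).2.2.1.2, (hbox' s x' hs hx').2.2.2.1.2⟩

end Pool.Agent.H816.Fam
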