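import Pool.Agent.H816.Pal

/-!
# The theorem for germs along the equator
-/

set_option autoImplicit false

open Set Filter Topology Metric Function MeasureTheory Module
open scoped Manifold ContDiff NNReal

noncomputable section

namespace Pool.Agent.H816

open Pool.Agent.Y522 Pool.Agent.Y784.SH

variable {m : ℕ}

/-- the equator -/
def Eq0 (m : ℕ) : Set (Sn (m + 1)) := {y | (y : E (m + 1 + 1)) 0 = 0}

theorem cont_h0 : Continuous fun y : Sn (m + 1) => (y : E (m + 1 + 1)) 0 :=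
  continuous_head.comp continuous_subtype_val

theorem isCompact_Eq0 : IsCompact (Eq0 m) :=
  ((isClosed_singleton (x := (0 : ℝ))).preimage cont_h0).isCompact

/-- a neighbourhood of the zero set of a continuous function on a compact space contains a
sublevel set -/
theorem exists_level {X : Type*} [TopologicalSpace X] [CompactSpace X] {g : X → ℝ}
    (hg : Continuous g) (hg0 : ∀ x, 0 ≤ g x) {U : Set X} (hU : IsOpen U)
    (h : ∀ x, g x = 0 → x ∈ U) : ∃ ε : ℝ, 0 < ε ∧ ∀ x, g x < ε → x ∈ U := by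
  rcases (Uᶜ).eq_empty_or_nonempty with h0 | h0
  · refine ⟨1, one_pos, fun x _ => ?_⟩
    by_contra hx
    have : x ∈ Uᶜ := hx
    rw [h0] at this
    exact this
  · obtain ⟨x0, hx0, hmin⟩ := hU.isClosed_compl.isCompact.exists_isMinOn h0 hg.continuousOn
    refine ⟨g x0, lt_of_le_of_ne (hg0 x0) (fun h1 => hx0 (h x0 h1.symm)), fun x hx => ?_⟩
    by_contra hxU
    exact absurd hx (not_lt.2 (hmin hxU))

/-- the output of the construction -/
structure Out (m : ℕ) (Γ F F' G G' : Sn (m + 1) → Sn (m + 1)) (a b : Sn (m + 1)) : Prop where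
  left : ∀ y, F' (F y) = y
  right : ∀ y, F (F' y) = y
  dif : DifS (m + 1) G
  dif' : DifS (m + 1) G'
  gleft : ∀ y, G' (G y) = y
  gright : ∀ y, G (G' y) = y
  ha : 0 < (a : E (m + 1 + 1)) 0
  hb : (b : E (m + 1 + 1)) 0 < 0
  fa : F a = G a
  fb : F b = G b
  ld : ∀ y, y ≠ a → y ≠ b → LD (m + 1) F y
  ld' : ∀ y, y ≠ F a → y ≠ F b → LD (m + 1) F' y
  lip : ∀ y, LipAt F y
  lip' : ∀ y, LipAt F' y
  flata : ∀ N : ℕ, (fun y => dist (F y) (G y)) =O[𝓝 a] fun y => dist y a ^ N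
  flatb : ∀ N : ℕ, (fun y => dist (F y) (G y)) =O[𝓝 b] fun y => dist y b ^ N
  flata' : ∀ N : ℕ, (fun y => dist (F' y) (G' y)) =O[𝓝 (F a)] fun y => dist y (F a) ^ N
  flatb' : ∀ N : ℕ, (fun y => dist (F' y) (G' y)) =O[𝓝 (F b)] fun y => dist y (F b) ^ N
  eq : ∀ y ∈ Eq0 m, F =ᶠ[𝓝 y] Γ

theorem fix_of_flat {F : Sn (m + 1) → Sn (m + 1)} {a : Sn (m + 1)}
    (h : ∀ N : ℕ, (fun y => dist (F y) y) =O[𝓝 a] fun y => dist y a ^ N) : F a = a := by
  obtain ⟨C, hC⟩ := (h 1).bound
  have h1 := hC.self_of_nhds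
  simp only [dist_self, pow_one, norm_zero, mul_zero, Real.norm_of_nonneg dist_nonneg] at h1
  exact dist_le_zero.1 h1

theorem flat_post {F G : Sn (m + 1) → Sn (m + 1)} {a : Sn (m + 1)} (hF : ContinuousAt F a)
    (hG : LipAt G a) (h : ∀ N : ℕ, (fun y => dist (F y) y) =O[𝓝 a] fun y => dist y a ^ N) (N : ℕ) :
    (fun y => dist (G (F y)) (G y)) =O[𝓝 a] fun y => dist y a ^ N := by
  obtain ⟨K, s, hs, hK⟩ := hG
  have ha := fix_of_flat h
  have h1 : (fun y => dist (G (F y)) (G y)) =O[𝓝 a] fun y => dist (F y) y := by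
    refine Asymptotics.IsBigO.of_bound K ?_
    have h2 : ∀ᶠ y in 𝓝 a, F y ∈ s := by
      have : Tendsto F (𝓝 a) (𝓝 a) := by
        have := hF.tendsto
        rwa [ha] at this
      exact this hs
    filter_upwards [hs, h2] with y hy1 hy2
    rw [Real.norm_of_nonneg dist_nonneg, Real.norm_of_nonneg dist_nonneg]
    exact hK.dist_le_mul _ hy2 _ hy1
  exact h1.trans (h N)

theorem flat_pre {F G' : Sn (m + 1) → Sn (m + 1)} {a p : Sn (m + 1)} (hp : G' p = a)
    (hG : LipAt G' p) (h : ∀ N : ℕ, (fun y => dist (F y) y) =O[𝓝 a] fun y => dist y a ^ N)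
    (N : ℕ) : (fun y => dist (F (G' y)) (G' y)) =O[𝓝 p] fun y => dist y p ^ N := by
  have h1 : Tendsto G' (𝓝 p) (𝓝 a) := by
    have := hG.continuousAt.tendsto
    rwa [hp] at this
  have h2 := (h N).comp_tendsto h1
  have h3 : (fun y => dist (G' y) a) =O[𝓝 p] fun y => dist y p := by
    have := hG.isBigO
    rwa [hp] at this
  exact h2.trans (h3.pow N)

theorem germ_thm (hm : 2 ≤ m) {Γ : Sn (m + 1) → Sn (m + 1)}
    (hd : ∀ y ∈ Eq0 m, LD (m + 1) Γ y) (hi : InjOn Γ (Eq0 m)) :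
    ∃ (F F' G G' : Sn (m + 1) → Sn (m + 1)) (a b : Sn (m + 1)), Out m Γ F F' G G' a b := by
  -- injectivity near the equator
  obtain ⟨t, ht, hti⟩ := hi.exists_mem_nhdsSet isCompact_Eq0
    (fun y hy => (hd y hy).continuousAt) (fun y hy => (hd y hy).eventually_injOn)
  have hlevel : ∃ ε : ℝ, 0 < ε ∧ ∀ y : Sn (m + 1), |(y : E (m + 1 + 1)) 0| < ε →
      y ∈ interior (t ∩ {y | LD (m + 1) Γ y}) := by
    refine exists_level cont_h0.abs (fun _ => abs_nonneg _) isOpen_interior fun y hy => ?_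
    have hy' : y ∈ Eq0 m := abs_eq_zero.1 hy
    rw [mem_interior_iff_mem_nhds]
    exact inter_mem (mem_nhdsSet_iff_forall.1 ht y hy') (hd y hy').eventually
  obtain ⟨ε, hε, hεt⟩ := hlevel
  set δ := ε / 4 with hδ
  have hδ0 : 0 < δ := by positivity
  have h4 : 4 * δ = ε := by rw [hδ]; ring
  have hΓi : InjOn Γ {y | |(y : E (m + 1 + 1)) 0| < 4 * δ} := by
    rw [h4]
    exact hti.mono fun y hy => (interior_subset (hεt y hy)).1
  have hΓd : ∀ y : Sn (m + 1), |(y : E (m + 1 + 1)) 0| < 4 * δ → LD (m + 1) Γ y := by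
    rw [h4]
    exact fun y hy => (interior_subset (hεt y hy)).2
  have hEq : ∀ y ∈ Eq0 m, |(y : E (m + 1 + 1)) 0| < 4 * δ := by
    intro y hy
    have hy' : (y : E (m + 1 + 1)) 0 = 0 := hy
    rw [hy', abs_zero]
    positivity
  -- first cap
  obtain ⟨G, hG, hG1⟩ := palais_cap false hδ0 hΓi hΓd
  obtain ⟨G', hG', hGl, hGr⟩ := hG.inv
  set Γ1 : Sn (m + 1) → Sn (m + 1) := fun y => G' (Γ y) with hΓ1
  have hΓ1i : InjOn Γ1 {y | |(y : E (m + 1 + 1)) 0| < 4 * δ} := fun x hx y hy hxy =>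
    hΓi hx hy (hG'.1.1 hxy)
  have hΓ1d : ∀ y : Sn (m + 1), |(y : E (m + 1 + 1)) 0| < 4 * δ → LD (m + 1) Γ1 y :=
    fun y hy => LD.comp_fun (g := G') (hG'.2 _) (hΓd y hy)
  obtain ⟨K, hK, hK1⟩ := palais_cap true hδ0 hΓ1i hΓ1d
  have hminus : ∀ y : Sn (m + 1), (y : E (m + 1 + 1)) 0 = 0 → (tl (y : E (m + 1 + 1))) 0 ≤ 0 →
      Γ1 =ᶠ[𝓝 y] fun z => z := by
    intro y hy0 hy1
    have h1 := hG1 y hy0 (by
      show 0 ≤ (if false = true then (1:ℝ) else -1) * _
      simp only [Bool.false_eq_true, if_false]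
      linarith)
    filter_upwards [h1] with z hz
    show G' (Γ z) = z
    rw [← hz, hGl]
  have hplus : ∀ y : Sn (m + 1), (y : E (m + 1 + 1)) 0 = 0 → 0 ≤ (tl (y : E (m + 1 + 1))) 0 →
      K =ᶠ[𝓝 y] Γ1 := by
    intro y hy0 hy1
    exact hK1 y hy0 (by
      show 0 ≤ (if true = true then (1:ℝ) else -1) * _
      simp only [if_true]
      linarith)
  -- the identity near the axis
  obtain ⟨ε', hε', hid⟩ : ∃ ε' : ℝ, 0 < ε' ∧ ∀ y : Sn (m + 1),
      rd (y : E (m + 1 + 1)) < ε' → y ∈ interior {y | K y = y} := by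
    refine exists_level (rd_cont.comp continuous_subtype_val) (fun _ => rd_nonneg _)
      isOpen_interior fun y hy => ?_
    have h1 := rd_sq (y : E (m + 1 + 1))
    have hy' : rd (y : E (m + 1 + 1)) = 0 := hy
    rw [hy'] at h1
    have q1 := sq_nonneg ((y : E (m + 1 + 1)) 0)
    have q2 := sq_nonneg ((tl (y : E (m + 1 + 1))) 0)
    have h2 : (y : E (m + 1 + 1)) 0 = 0 := by
      refine pow_eq_zero_iff two_ne_zero |>.1 ?_
      linarith
    have h3 : (tl (y : E (m + 1 + 1))) 0 = 0 := by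
      refine pow_eq_zero_iff two_ne_zero |>.1 ?_
      linarith
    rw [mem_interior_iff_mem_nhds]
    exact (hplus y h2 h3.ge).trans (hminus y h2 h3.le)
  have hdis : ∀ y : Sn (m + 1), (y : E (m + 1 + 1)) 0 = 0 → 0 < (tl (y : E (m + 1 + 1))) 0 →
      (K y : E (m + 1 + 1)) 0 = 0 → 0 < (tl (K y : E (m + 1 + 1))) 0 := by
    intro y hy0 hy1 hK0
    by_contra hcon
    push Not at hcon
    have e1 : Γ1 (K y) = K y := (hminus (K y) hK0 hcon).self_of_nhds
    have e2 : K y = Γ1 y := (hplus y hy0 hy1.le).self_of_nhds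
    have e3 : Γ1 (K y) = Γ1 y := by rw [e1]; exact e2
    have e4 : K y = y := hΓ1i (hEq _ hK0) (hEq _ hy0) e3
    rw [e4] at hcon
    linarith
  have hid' : ∀ y : Sn (m + 1), rd (y : E (m + 1 + 1)) < ε' → K y = y := by
    intro y hy
    have h1 : y ∈ {y | K y = y} := interior_subset (hid y hy)
    exact h1
  obtain ⟨F1, F1', a, b, hM⟩ := exists_model hm hK hε' hid' hdis
  have hF1a := fix_of_flat hM.flata
  have hF1b := fix_of_flat hM.flatb
  have hF1a' := fix_of_flat hM.flata'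
  have hF1b' := fix_of_flat hM.flatb'
  refine ⟨fun y => G (F1 y), fun y => F1' (G' y), G, G', a, b, ?_⟩
  refine
    { left := fun y => by
        show F1' (G' (G (F1 y))) = y
        rw [hGl, hM.left]
      right := fun y => by
        show G (F1 (F1' (G' y))) = y
        rw [hM.right, hGr]
      dif := hG
      dif' := hG'
      gleft := hGl
      gright := hGr
      ha := hM.ha
      hb := hM.hb
      fa := by rw [hF1a]
      fb := by rw [hF1b]
      ld := fun y h1 h2 => LD.comp_fun (g := G) (hG.2 _) (hM.ld y h1 h2)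
      ld' := ?_
      lip := fun y => LipAt.comp (g := G) (lipAt_S (hG.2 _)) (hM.lip y)
      lip' := fun y => LipAt.comp (g := F1') (hM.lip' _) (lipAt_S (hG'.2 _))
      flata := flat_post (hM.lip a).continuousAt (lipAt_S (hG.2 _)) hM.flata
      flatb := flat_post (hM.lip b).continuousAt (lipAt_S (hG.2 _)) hM.flatb
      flata' := ?_
      flatb' := ?_
      eq := ?_ }
  · intro y h1 h2
    refine LD.comp_fun (g := F1') (hM.ld' _ (fun h => h1 ?_) (fun h => h2 ?_)) (hG'.2 y)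
    · show y = G (F1 a)
      rw [hF1a, ← h, hGr]
    · show y = G (F1 b)
      rw [hF1b, ← h, hGr]
  · have e : G (F1 a) = G a := by rw [hF1a]
    simp only [e]
    exact flat_pre (hGl a) (lipAt_S (hG'.2 _)) hM.flata'
  · have e : G (F1 b) = G b := by rw [hF1b]
    simp only [e]
    exact flat_pre (hGl b) (lipAt_S (hG'.2 _)) hM.flatb'
  · intro y hy
    rcases le_total 0 ((tl (y : E (m + 1 + 1))) 0) with h1 | h1
    · filter_upwards [hM.plus y hy h1, hplus y hy h1] with z e1 e2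
      show G (F1 z) = Γ z
      rw [e1, e2]
      show G (G' (Γ z)) = Γ z
      rw [hGr]
    · filter_upwards [hM.minus y hy h1, hG1 y hy (by
        show 0 ≤ (if false = true then (1:ℝ) else -1) * _
        simp only [Bool.false_eq_true, if_false]
        linarith)] with z e1 e2
      show G (F1 z) = Γ z
      rw [e1, e2]

end Pool.Agent.H816
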