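import Pool.Agent.H816.Gam
import Pool.Agent.H816.Coord

/-!
# The theorem for germs along the equator, with arbitrary profiles
-/

set_option autoImplicit false

open Set Filter Topology Metric Function MeasureTheory Module
open scoped Manifold ContDiff NNReal

noncomputable section

namespace Pool.Agent.H816

open Pool.Agent.Y522 Pool.Agent.Y784.SH

variable {m : ℕ}

/-- the output of the construction -/
structure Out2 (m : ℕ) (Γ F F' G G' : Sn (m + 1) → Sn (m + 1)) (a b : Sn (m + 1)) : Prop where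
  left : ∀ y, F' (F y) = y
  right : ∀ y, F (F' y) = y
  dif : DifS (m + 1) G
  dif' : DifS (m + 1) G'
  gleft : ∀ y, G' (G y) = y
  gright : ∀ y, G (G' y) = y
  ha : 0 < (a : E (m + 1 + 1)) 0
  hb : (b : E (m + 1 + 1)) 0 < 0
  fa : F a = G a
  fb : F b = G b
  ld : ∀ y, y ≠ a → y ≠ b → LD (m + 1) F y
  ld' : ∀ y, y ≠ F a → y ≠ F b → LD (m + 1) F' y
  lip : ∀ y, LipAt F y
  lip' : ∀ y, LipAt F' y
  eq : ∀ y ∈ Eq0 m, F =ᶠ[𝓝 y] Γ

theorem HS_fix {P : Prof} {h : E (m + 1) → E (m + 1)} (hP : P.c < Real.pi) {s : ℝ}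
    (hs : |s| = P.c) : HS P h (pol (cn s 0)) = pol (cn s 0) := by
  have e1 : (cn s 0 : E (m + 1)) 0 = s := by simp
  rw [HS_apply (by
    show |(cn s 0 : E (m + 1)) 0| < Real.pi
    rw [e1, hs]
    exact hP), Hm_of_ge P (by rw [e1, hs])]

theorem germ_thm2 (hm : 2 ≤ m) {Q : Prof → Prop}
    (hQ : ∀ c' c : ℝ, 0 < c' → c' < c → ∃ P : Prof, P.c' = c' ∧ P.c = c ∧ Q P) {Γ : Sn (m + 1) → Sn (m + 1)}
    (hd : ∀ y ∈ Eq0 m, LD (m + 1) Γ y) (hi : InjOn Γ (Eq0 m)) :
    ∃ (P : Prof) (L C : ℝ) (h k : E (m + 1) → E (m + 1))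
      (F F' G G' : Sn (m + 1) → Sn (m + 1)), Q P ∧ P.c < Real.pi ∧ Data L C h k ∧
      (∀ y, F' y = HS P k (G' y)) ∧
      Out2 m Γ F F' G G' (pol (cn P.c 0)) (pol (cn (-P.c) 0)) := by
  -- injectivity near the equator
  obtain ⟨t, ht, hti⟩ := hi.exists_mem_nhdsSet isCompact_Eq0
    (fun y hy => (hd y hy).continuousAt) (fun y hy => (hd y hy).eventually_injOn)
  have hlevel : ∃ ε : ℝ, 0 < ε ∧ ∀ y : Sn (m + 1), |(y : E (m + 1 + 1)) 0| < ε →
      y ∈ interior (t ∩ {y | LD (m + 1) Γ y}) := by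
    refine exists_level cont_h0.abs (fun _ => abs_nonneg _) isOpen_interior fun y hy => ?_
    have hy' : y ∈ Eq0 m := abs_eq_zero.1 hy
    rw [mem_interior_iff_mem_nhds]
    exact inter_mem (mem_nhdsSet_iff_forall.1 ht y hy') (hd y hy').eventually
  obtain ⟨ε, hε, hεt⟩ := hlevel
  set δ := ε / 4 with hδ
  have hδ0 : 0 < δ := by positivity
  have h4 : 4 * δ = ε := by rw [hδ]; ring
  have hΓi : InjOn Γ {y | |(y : E (m + 1 + 1)) 0| < 4 * δ} := by
    rw [h4]
    exact hti.mono fun y hy => (interior_subset (hεt y hy)).1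
  have hΓd : ∀ y : Sn (m + 1), |(y : E (m + 1 + 1)) 0| < 4 * δ → LD (m + 1) Γ y := by
    rw [h4]
    exact fun y hy => (interior_subset (hεt y hy)).2
  have hEq : ∀ y ∈ Eq0 m, |(y : E (m + 1 + 1)) 0| < 4 * δ := by
    intro y hy
    have hy' : (y : E (m + 1 + 1)) 0 = 0 := hy
    rw [hy', abs_zero]
    positivity
  -- first cap
  obtain ⟨G, hG, hG1⟩ := palais_cap false hδ0 hΓi hΓd
  obtain ⟨G', hG', hGl, hGr⟩ := hG.inv
  set Γ1 : Sn (m + 1) → Sn (m + 1) := fun y => G' (Γ y) with hΓ1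
  have hΓ1i : InjOn Γ1 {y | |(y : E (m + 1 + 1)) 0| < 4 * δ} := fun x hx y hy hxy =>
    hΓi hx hy (hG'.1.1 hxy)
  have hΓ1d : ∀ y : Sn (m + 1), |(y : E (m + 1 + 1)) 0| < 4 * δ → LD (m + 1) Γ1 y :=
    fun y hy => LD.comp_fun (g := G') (hG'.2 _) (hΓd y hy)
  obtain ⟨K, hK, hK1⟩ := palais_cap true hδ0 hΓ1i hΓ1d
  have hminus : ∀ y : Sn (m + 1), (y : E (m + 1 + 1)) 0 = 0 → (tl (y : E (m + 1 + 1))) 0 ≤ 0 →
      Γ1 =ᶠ[𝓝 y] fun z => z := by
    intro y hy0 hy1
    have h1 := hG1 y hy0 (by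
      show 0 ≤ (if false = true then (1:ℝ) else -1) * _
      simp only [Bool.false_eq_true, if_false]
      linarith)
    filter_upwards [h1] with z hz
    show G' (Γ z) = z
    rw [← hz, hGl]
  have hplus : ∀ y : Sn (m + 1), (y : E (m + 1 + 1)) 0 = 0 → 0 ≤ (tl (y : E (m + 1 + 1))) 0 →
      K =ᶠ[𝓝 y] Γ1 := by
    intro y hy0 hy1
    exact hK1 y hy0 (by
      show 0 ≤ (if true = true then (1:ℝ) else -1) * _
      simp only [if_true]
      linarith)
  -- the identity near the axis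
  obtain ⟨ε', hε', hid⟩ : ∃ ε' : ℝ, 0 < ε' ∧ ∀ y : Sn (m + 1),
      rd (y : E (m + 1 + 1)) < ε' → y ∈ interior {y | K y = y} := by
    refine exists_level (rd_cont.comp continuous_subtype_val) (fun _ => rd_nonneg _)
      isOpen_interior fun y hy => ?_
    have h1 := rd_sq (y : E (m + 1 + 1))
    have hy' : rd (y : E (m + 1 + 1)) = 0 := hy
    rw [hy'] at h1
    have q1 := sq_nonneg ((y : E (m + 1 + 1)) 0)
    have q2 := sq_nonneg ((tl (y : E (m + 1 + 1))) 0)
    have h2 : (y : E (m + 1 + 1)) 0 = 0 := by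
      refine pow_eq_zero_iff two_ne_zero |>.1 ?_
      linarith
    have h3 : (tl (y : E (m + 1 + 1))) 0 = 0 := by
      refine pow_eq_zero_iff two_ne_zero |>.1 ?_
      linarith
    rw [mem_interior_iff_mem_nhds]
    exact (hplus y h2 h3.ge).trans (hminus y h2 h3.le)
  have hdis : ∀ y : Sn (m + 1), (y : E (m + 1 + 1)) 0 = 0 → 0 < (tl (y : E (m + 1 + 1))) 0 →
      (K y : E (m + 1 + 1)) 0 = 0 → 0 < (tl (K y : E (m + 1 + 1))) 0 := by
    intro y hy0 hy1 hK0
    by_contra hcon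
    push Not at hcon
    have e1 : Γ1 (K y) = K y := (hminus (K y) hK0 hcon).self_of_nhds
    have e2 : K y = Γ1 y := (hplus y hy0 hy1.le).self_of_nhds
    have e3 : Γ1 (K y) = Γ1 y := by rw [e1]; exact e2
    have e4 : K y = y := hΓ1i (hEq _ hK0) (hEq _ hy0) e3
    rw [e4] at hcon
    linarith
  have hid' : ∀ y : Sn (m + 1), rd (y : E (m + 1 + 1)) < ε' → K y = y := by
    intro y hy
    have h1 : y ∈ {y | K y = y} := interior_subset (hid y hy)
    exact h1
  obtain ⟨P, L, C, h, k, hQP, hPpi, hdat, hM⟩ := exists_model2 hm hQ hK hε' hid' hdis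
  have hcpos : 0 < P.c := P.hc'.trans P.hc
  set F1 : Sn (m + 1) → Sn (m + 1) := HS P h with hF1
  set F1' : Sn (m + 1) → Sn (m + 1) := HS P k with hF1'
  set a : Sn (m + 1) := pol (cn P.c 0) with ha
  set b : Sn (m + 1) := pol (cn (-P.c) 0) with hb
  have hF1a : F1 a = a := HS_fix hPpi (abs_of_pos hcpos)
  have hF1b : F1 b = b := HS_fix hPpi (by rw [abs_neg, abs_of_pos hcpos])
  refine ⟨P, L, C, h, k, fun y => G (F1 y), fun y => F1' (G' y), G, G', hQP, hPpi, hdat,
    fun _ => rfl, ?_⟩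
  refine
    { left := fun y => by
        show F1' (G' (G (F1 y))) = y
        rw [hGl, hM.left]
      right := fun y => by
        show G (F1 (F1' (G' y))) = y
        rw [hM.right, hGr]
      dif := hG
      dif' := hG'
      gleft := hGl
      gright := hGr
      ha := hM.ha
      hb := hM.hb
      fa := by rw [hF1a]
      fb := by rw [hF1b]
      ld := fun y h1 h2 => LD.comp_fun (g := G) (hG.2 _) (hM.ld y h1 h2)
      ld' := ?_
      lip := fun y => LipAt.comp (g := G) (lipAt_S (hG.2 _)) (hM.lip y)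
      lip' := fun y => LipAt.comp (g := F1') (hM.lip' _) (lipAt_S (hG'.2 _))
      eq := ?_ }
  · intro y h1 h2
    refine LD.comp_fun (g := F1') (hM.ld' _ (fun h => h1 ?_) (fun h => h2 ?_)) (hG'.2 y)
    · show y = G (F1 a)
      rw [hF1a, ← h, hGr]
    · show y = G (F1 b)
      rw [hF1b, ← h, hGr]
  · intro y hy
    rcases le_total 0 ((tl (y : E (m + 1 + 1))) 0) with h1 | h1
    · filter_upwards [hM.plus y hy h1, hplus y hy h1] with z e1 e2
      show G (F1 z) = Γ z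
      rw [e1, e2]
      show G (G' (Γ z)) = Γ z
      rw [hGr]
    · filter_upwards [hM.minus y hy h1, hG1 y hy (by
        show 0 ≤ (if false = true then (1:ℝ) else -1) * _
        simp only [Bool.false_eq_true, if_false]
        linarith)] with z e1 e2
      show G (F1 z) = Γ z
      rw [e1, e2]

end Pool.Agent.H816
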