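import Pool.Agent.H816.Horn

/-!
# Horn maps are Lipschitz
-/

set_option autoImplicit false

open Set Filter Topology Metric Function MeasureTheory
open scoped Manifold ContDiff NNReal

noncomputable section

namespace Pool.Agent.H816

open Pool.Agent.Y522 Pool.Agent.Y784.SH

section lip

variable {m : ℕ}

theorem hasFDerivAt_head (u : E (m + 1)) :
    HasFDerivAt (fun z : E (m + 1) => z 0)
      (EuclideanSpace.proj (𝕜 := ℝ) (0 : Fin (m + 1)) : E (m + 1) →L[ℝ] ℝ) u :=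
  (EuclideanSpace.proj (𝕜 := ℝ) (0 : Fin (m + 1)) : E (m + 1) →L[ℝ] ℝ).hasFDerivAt

theorem warp_deriv {f g : ℝ → ℝ} {f' g' : ℝ} {u : E (m + 1)} (hf : HasDerivAt f f' (u 0))
    (hg : HasDerivAt g g' (u 0)) : ∃ D : E (m + 1) →L[ℝ] E (m + 1),
      HasFDerivAt (fun z : E (m + 1) => cn (f (z 0)) (g (z 0) • tl z)) D u ∧
      ∀ a, D a = cn (f' * a 0) (g (u 0) • tl a + (g' * a 0) • tl u) := by
  have h0 := hasFDerivAt_head u
  have h1 : HasFDerivAt (fun z : E (m + 1) => f (z 0))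
      (f' • (EuclideanSpace.proj (𝕜 := ℝ) (0 : Fin (m + 1)) : E (m + 1) →L[ℝ] ℝ)) u :=
    hf.comp_hasFDerivAt u h0
  have h2 : HasFDerivAt (fun z : E (m + 1) => g (z 0))
      (g' • (EuclideanSpace.proj (𝕜 := ℝ) (0 : Fin (m + 1)) : E (m + 1) →L[ℝ] ℝ)) u :=
    hg.comp_hasFDerivAt u h0
  have h3 := h1.smul_const (e0 : E (m + 1))
  have h4 := (inc : E m →L[ℝ] E (m + 1)).hasFDerivAt.comp u
    (h2.smul (tl : E (m + 1) →L[ℝ] E m).hasFDerivAt)
  have h5 := h3.add h4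
  refine ⟨_, h5.congr_of_eventuallyEq (Eventually.of_forall fun z => ?_), fun a => ?_⟩
  · show cn (f (z 0)) (g (z 0) • tl z) = f (z 0) • e0 + inc (g (z 0) • tl z)
    rw [cn_eq, inc_apply]
  · rw [cn_eq]
    have e2 : (inc : E m →L[ℝ] E (m + 1)) (g (u 0) • tl a + (g' * a 0) • tl u) =
        cn 0 (g (u 0) • tl a + (g' * a 0) • tl u) := inc_apply _
    rw [← e2, map_add, map_smul, map_smul]
    simp

theorem norm_warp_le {f' g0 g' c : ℝ} {u : E (m + 1)} {D : E (m + 1) →L[ℝ] E (m + 1)}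
    (hD : ∀ a, D a = cn (f' * a 0) (g0 • tl a + (g' * a 0) • tl u))
    (hc : |f'| + |g0| + |g'| * ‖tl u‖ ≤ c) : ‖D‖ ≤ c := by
  have hc0 : 0 ≤ c := le_trans (by positivity) hc
  refine D.opNorm_le_bound hc0 fun a => ?_
  rw [hD]
  refine (norm_cn_le _ _).trans ?_
  have h0 := abs_head_le a
  have h1 := norm_tl_le a
  have h2 : ‖g0 • tl a + (g' * a 0) • tl u‖ ≤ |g0| * ‖a‖ + |g'| * ‖a‖ * ‖tl u‖ := by
    refine (norm_add_le _ _).trans ?_
    rw [norm_smul, norm_smul, Real.norm_eq_abs, Real.norm_eq_abs, abs_mul]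
    gcongr
  rw [abs_mul]
  calc |f'| * |a 0| + ‖g0 • tl a + (g' * a 0) • tl u‖
      ≤ |f'| * ‖a‖ + (|g0| * ‖a‖ + |g'| * ‖a‖ * ‖tl u‖) := by gcongr
    _ = (|f'| + |g0| + |g'| * ‖tl u‖) * ‖a‖ := by ring
    _ ≤ c * ‖a‖ := by gcongr

variable (P : Prof)

theorem Xi_deriv (u : E (m + 1)) :
    ‖fderiv ℝ (Xi P) u‖ ≤ P.M (u 0) * (2 + P.A * ‖tl u‖) := by
  obtain ⟨D, hD1, hD2⟩ := warp_deriv (u := u) (P.ρ_deriv (u 0)) (P.M_deriv (u 0))
  have h1 : fderiv ℝ (Xi P) u = D := hD1.fderiv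
  rw [h1]
  refine norm_warp_le hD2 ?_
  have hM := P.M_pos (u 0)
  have hd := P.φ_deriv _ (P.ρ_lt (u 0))
  have e1 : |P.φ (P.ρ (u 0))| = P.M (u 0) := abs_of_pos hM
  rw [e1, abs_of_pos hM, abs_mul, abs_of_pos hM]
  calc P.M (u 0) + P.M (u 0) + |deriv P.φ (P.ρ (u 0))| * P.M (u 0) * ‖tl u‖
      ≤ P.M (u 0) + P.M (u 0) + P.A * P.M (u 0) * ‖tl u‖ := by gcongr
    _ = _ := by ring

theorem Th_deriv {v : E (m + 1)} (hv : |v 0| < P.c) :
    ‖fderiv ℝ (Th P) v‖ ≤ (P.φ (v 0))⁻¹ * (2 + P.A * ‖tl (Th P v)‖) := by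
  have hpos := P.φ_pos _ hv
  have hφd : HasDerivAt P.φ (deriv P.φ (v 0)) (v 0) :=
    ((P.φ_smooth _ hv).differentiableAt (by simp)).hasDerivAt
  have hinv : HasDerivAt (fun x => (P.φ x)⁻¹) (-deriv P.φ (v 0) / P.φ (v 0) ^ 2) (v 0) :=
    hφd.inv hpos.ne'
  obtain ⟨D, hD1, hD2⟩ := warp_deriv (u := v) (P.τ_deriv (v 0) hv) hinv
  have h1 : fderiv ℝ (Th P) v = D := hD1.fderiv
  rw [h1]
  refine norm_warp_le hD2 ?_
  have hd := P.φ_deriv _ hv
  have e1 : ‖tl (Th P v)‖ = (P.φ (v 0))⁻¹ * ‖tl v‖ := by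
    unfold Th
    rw [tl_cn, norm_smul, norm_inv, Real.norm_of_nonneg hpos.le]
  rw [e1, abs_of_pos (inv_pos.2 hpos), abs_div, abs_neg, abs_of_pos (pow_pos hpos 2)]
  have h2 : |deriv P.φ (v 0)| / P.φ (v 0) ^ 2 * ‖tl v‖ ≤ P.A / P.φ (v 0) ^ 2 * ‖tl v‖ := by
    gcongr
  calc (P.φ (v 0))⁻¹ + (P.φ (v 0))⁻¹ + |deriv P.φ (v 0)| / P.φ (v 0) ^ 2 * ‖tl v‖
      ≤ (P.φ (v 0))⁻¹ + (P.φ (v 0))⁻¹ + P.A / P.φ (v 0) ^ 2 * ‖tl v‖ := by linarith
    _ = _ := by
      field_simp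
      ring

variable {P} {L C : ℝ} {h : E (m + 1) → E (m + 1)}

theorem Hm_lip (hh : Cyl L C h) (hd : ∀ u, DifferentiableAt ℝ h u) {B : ℝ}
    (hB : ∀ u, ‖fderiv ℝ h u‖ ≤ B) :
    ∃ Λ : ℝ, 0 ≤ Λ ∧ ∀ v w, ‖Hm P h v - Hm P h w‖ ≤ Λ * ‖v - w‖ := by
  have hL := hh.hL
  have hC := hh.hC
  have hA := P.hA
  have hB0 : 0 ≤ B := (norm_nonneg _).trans (hB 0)
  set e : ℝ := Real.exp (P.A * C) with he
  have he0 : 0 ≤ e := (Real.exp_pos _).le
  set Λ₁ : ℝ := max 1 (e * (2 + P.A * (L + C)) * B * (2 + P.A * L)) with hΛ₁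
  have hΛ₁0 : 0 ≤ Λ₁ := zero_le_one.trans (le_max_left _ _)
  -- the derivative in the strip
  have hder : ∀ v ∈ {v : E (m + 1) | |v 0| < P.c}, DifferentiableAt ℝ (Hm P h) v ∧
      ‖fderiv ℝ (Hm P h) v‖ ≤ Λ₁ := by
    intro v hv
    have hv' : |v 0| < P.c := hv
    have hev : Hm P h =ᶠ[𝓝 v] fun w => Xi P (h (Th P w)) := by
      filter_upwards [(isOpen_strip P).mem_nhds hv] with w hw
      exact Hm_of_lt P hw
    have hTd : DifferentiableAt ℝ (Th P) v := (Th_smooth P hv').differentiableAt (by simp)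
    have hXd : DifferentiableAt ℝ (Xi P) (h (Th P v)) :=
      (Xi_smooth P).differentiable (by simp) _
    have hhT : DifferentiableAt ℝ (fun w => h (Th P w)) v := (hd _).comp v hTd
    have hcomp : DifferentiableAt ℝ (fun w => Xi P (h (Th P w))) v :=
      DifferentiableAt.comp (g := Xi P) (f := fun w => h (Th P w)) v hXd hhT
    refine ⟨hcomp.congr_of_eventuallyEq hev, ?_⟩
    set u := Th P v with hu
    rcases lt_or_ge L ‖tl u‖ with hLu | hLu
    · have hev2 : Hm P h =ᶠ[𝓝 v] fun w => w := by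
        have hTc : ContinuousAt (fun w => ‖tl (Th P w)‖) v :=
          (tl.continuous.norm).continuousAt.comp hTd.continuousAt
        filter_upwards [continuousAt_const.eventually_lt hTc hLu] with w hw
        exact Hm_fix P (hh.far _ hw.le)
      rw [hev2.fderiv_eq, fderiv_fun_id]
      exact (ContinuousLinearMap.norm_id_le).trans (le_max_left _ _)
    · rw [hev.fderiv_eq]
      have e1 : fderiv ℝ (fun w => Xi P (h (Th P w))) v =
          (fderiv ℝ (Xi P) (h u)).comp ((fderiv ℝ h u).comp (fderiv ℝ (Th P) v)) := by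
        have h1 := fderiv_comp (g := Xi P) (f := fun w => h (Th P w)) v hXd hhT
        have h2 := fderiv_comp (g := h) (f := Th P) v (hd _) hTd
        have h3 : (Xi P ∘ fun w => h (Th P w)) = fun w => Xi P (h (Th P w)) := rfl
        have h4 : (h ∘ Th P) = fun w => h (Th P w) := rfl
        rw [h3] at h1
        rw [h4] at h2
        rw [h1, h2]
      rw [e1]
      set s := h u with hs
      have hdsp : ‖s - u‖ ≤ C := hh.disp u
      have hd0 : |s 0 - u 0| ≤ C := by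
        have h1 := abs_head_le (s - u)
        have h2 : (s - u) 0 = s 0 - u 0 := rfl
        rw [h2] at h1
        exact h1.trans hdsp
      have hdt : ‖tl s‖ ≤ L + C := by
        have h1 := norm_tl_le (s - u)
        rw [map_sub] at h1
        have h2 : ‖tl s‖ ≤ ‖tl u‖ + ‖tl s - tl u‖ := norm_le_insert' _ _
        linarith
      have hexp : Real.exp (P.A * |s 0 - u 0|) ≤ e :=
        Real.exp_le_exp.2 (mul_le_mul_of_nonneg_left hd0 P.hA)
      have hMs : P.M (s 0) ≤ e * P.M (u 0) :=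
        (P.M_le _ _).trans (mul_le_mul_of_nonneg_right hexp (P.M_pos _).le)
      have hM : P.M (u 0) = P.φ (v 0) := by
        unfold Prof.M
        rw [hu]
        unfold Th
        rw [cn_zero, P.ρτ _ hv']
      have hpos := P.φ_pos _ hv'
      have hX := Xi_deriv P s
      have hT := Th_deriv P hv'
      rw [← hu] at hT
      have hX' : ‖fderiv ℝ (Xi P) s‖ ≤ e * P.φ (v 0) * (2 + P.A * (L + C)) := by
        refine hX.trans ?_
        rw [hM] at hMs
        gcongr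
      have hT' : ‖fderiv ℝ (Th P) v‖ ≤ (P.φ (v 0))⁻¹ * (2 + P.A * L) := by
        refine hT.trans ?_
        have : (0:ℝ) ≤ (P.φ (v 0))⁻¹ := (inv_pos.2 hpos).le
        gcongr
      calc ‖(fderiv ℝ (Xi P) s).comp ((fderiv ℝ h u).comp (fderiv ℝ (Th P) v))‖
          ≤ ‖fderiv ℝ (Xi P) s‖ * (‖fderiv ℝ h u‖ * ‖fderiv ℝ (Th P) v‖) :=
            (ContinuousLinearMap.opNorm_comp_le _ _).trans
              (mul_le_mul_of_nonneg_left (ContinuousLinearMap.opNorm_comp_le _ _) (norm_nonneg _))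
        _ ≤ (e * P.φ (v 0) * (2 + P.A * (L + C))) * (B * ((P.φ (v 0))⁻¹ * (2 + P.A * L))) := by
            have := hB u
            gcongr
        _ = e * (2 + P.A * (L + C)) * B * (2 + P.A * L) := by
            field_simp
        _ ≤ Λ₁ := le_max_right _ _
  have hconv : Convex ℝ {v : E (m + 1) | |v 0| < P.c} := by
    intro x hx y hy a b ha hb hab
    have hx' : |x 0| < P.c := hx
    have hy' : |y 0| < P.c := hy
    show |(a • x + b • y) 0| < P.c
    have e1 : (a • x + b • y) 0 = a * x 0 + b * y 0 := by simp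
    rw [e1, abs_lt]
    rw [abs_lt] at hx' hy'
    have hb' : b = 1 - a := by linarith
    subst hb'
    rcases eq_or_lt_of_le ha with h0 | h0
    · rw [← h0]
      constructor <;> linarith [hy'.1, hy'.2]
    · constructor
      · nlinarith [hx'.1, hy'.1]
      · nlinarith [hx'.2, hy'.2]
  have hin : ∀ v w : E (m + 1), |v 0| < P.c → |w 0| < P.c →
      ‖Hm P h v - Hm P h w‖ ≤ Λ₁ * ‖v - w‖ := fun v w hv hw =>
    hconv.norm_image_sub_le_of_norm_fderiv_le (fun x hx => (hder x hx).1)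
      (fun x hx => (hder x hx).2) hw hv
  obtain ⟨K, hK0, hK⟩ := Hm_est P hh
  have hout : ∀ v w : E (m + 1), |v 0| < P.c → P.c ≤ |w 0| →
      ‖Hm P h v - Hm P h w‖ ≤ (K * P.A + 1) * ‖v - w‖ := by
    intro v w hv hw
    rw [Hm_of_ge P hw]
    have h1 : ‖Hm P h v - w‖ ≤ ‖Hm P h v - v‖ + ‖v - w‖ := norm_sub_le_norm_sub_add_norm_sub _ _ _
    have h2 := hK v
    have h3 := P.φ_lip _ hv
    have h4 : P.c - |v 0| ≤ ‖v - w‖ := by
      have h5 := abs_head_le (v - w)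
      have h6 : (v - w) 0 = v 0 - w 0 := rfl
      rw [h6] at h5
      have h7 := abs_sub_abs_le_abs_sub (w 0) (v 0)
      rw [abs_sub_comm] at h7
      linarith
    have h8 : K * P.φ (v 0) ≤ K * (P.A * ‖v - w‖) :=
      mul_le_mul_of_nonneg_left (h3.trans (mul_le_mul_of_nonneg_left h4 hA)) hK0
    calc ‖Hm P h v - w‖ ≤ ‖Hm P h v - v‖ + ‖v - w‖ := h1
      _ ≤ K * (P.A * ‖v - w‖) + ‖v - w‖ := by linarith
      _ = _ := by ring
  have hK1 : 0 ≤ K * P.A + 1 := by positivity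
  refine ⟨Λ₁ + (K * P.A + 1), by positivity, fun v w => ?_⟩
  have hn := norm_nonneg (v - w)
  rcases lt_or_ge |v 0| P.c with hv | hv <;> rcases lt_or_ge |w 0| P.c with hw | hw
  · exact (hin v w hv hw).trans (mul_le_mul_of_nonneg_right (by linarith) hn)
  · exact (hout v w hv hw).trans (mul_le_mul_of_nonneg_right (by linarith) hn)
  · rw [norm_sub_rev, norm_sub_rev v w] at *
    exact (hout w v hw hv).trans (mul_le_mul_of_nonneg_right (by linarith) hn)
  · rw [Hm_of_ge P hv, Hm_of_ge P hw]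
    have h1 : (1 : ℝ) ≤ Λ₁ + (K * P.A + 1) := by
      have : 0 ≤ K * P.A := by positivity
      linarith
    exact le_mul_of_one_le_left hn h1

end lip

end Pool.Agent.H816
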