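import Pool.Agent.H816.Pol

/-!
# Lifting a diffeomorphism of the sphere to polar coordinates
-/

set_option autoImplicit false

open Set Filter Topology Metric Function MeasureTheory Module
open scoped Manifold ContDiff NNReal

noncomputable section

namespace Pool.Agent.H816

open Pool.Agent.Y522 Pool.Agent.Y784.SH

theorem exists_log {n : ℕ} {g : E n → ℂ} (hg : Continuous g) (h0 : ∀ u, g u ≠ 0) :
    ∃ l : E n → ℂ, Continuous l ∧ ∀ u, Complex.exp (l u) = g u := by
  obtain ⟨F, ⟨-, hF⟩, -⟩ := Complex.isCoveringMapOn_exp.existsUnique_continuousMap_lifts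
    (A := E n) ⟨g, hg⟩ (a₀ := 0) (e₀ := Complex.log (g 0)) (Complex.exp_log (h0 0))
    (fun u => h0 u)
  exact ⟨F, F.continuous, fun u => congrFun hF u⟩

/-- a continuous function with integer values is constant on a preconnected set -/
theorem int_const {X : Type*} [TopologicalSpace X] {S : Set X} (hS : IsPreconnected S)
    {f : X → ℝ} (hf : ContinuousOn f S) (hi : ∀ x ∈ S, ∃ k : ℤ, f x = k) {a b : X}
    (ha : a ∈ S) (hb : b ∈ S) : f a = f b := by
  have key : ∀ a ∈ S, ∀ b ∈ S, ¬ f a < f b := by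
    intro a ha b hb hlt
    obtain ⟨k, hk⟩ := hi a ha
    obtain ⟨l, hl⟩ := hi b hb
    have hkl : k + 1 ≤ l := by
      rw [hk, hl] at hlt
      have : k < l := by exact_mod_cast hlt
      omega
    have hkl' : (k : ℝ) + 1 ≤ l := by exact_mod_cast hkl
    have h1 := (hS.image f hf).ordConnected.out (mem_image_of_mem f ha) (mem_image_of_mem f hb)
    have h2 : (k : ℝ) + 1 / 2 ∈ Icc (f a) (f b) := by
      rw [hk, hl]
      constructor <;> linarith
    obtain ⟨x, hx, hxe⟩ := h1 h2
    obtain ⟨j, hj⟩ := hi x hx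
    rw [hj] at hxe
    have h3 : ((2 * j : ℤ) : ℝ) = ((2 * k + 1 : ℤ) : ℝ) := by
      push_cast
      linarith
    have h4 : 2 * j = 2 * k + 1 := by exact_mod_cast h3
    omega
  rcases lt_trichotomy (f a) (f b) with h | h | h
  · exact absurd h (key a ha b hb)
  · exact h
  · exact absurd h (key b hb a ha)

section lift

variable {m : ℕ}

theorem far_connected (hm : 2 ≤ m) {L : ℝ} (hL : 0 < L) :
    IsPreconnected {u : E (m + 1) | L ≤ ‖tl u‖} := by
  have hrank : 1 < Module.rank ℝ (E m) := by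
    have h1 : Module.rank ℝ (E m) = m := by
      rw [← finrank_eq_rank, finrank_euclideanSpace_fin]
    rw [h1]
    exact_mod_cast (by omega : 1 < m)
  have h1 : IsPreconnected ((univ : Set ℝ) ×ˢ (Ici L ×ˢ (sphere (0 : E m) 1))) :=
    isPreconnected_univ.prod (isPreconnected_Ici.prod (isPreconnected_sphere hrank _ _))
  have h2 := h1.image (fun q : ℝ × ℝ × E m => cn q.1 (q.2.1 • q.2.2)) (by
    have h3 : Continuous (fun q : ℝ × ℝ × E m => (q.1, q.2.1 • q.2.2)) := by fun_prop
    exact (continuous_cn.comp h3).continuousOn)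
  convert h2 using 1
  ext u
  constructor
  · intro hu
    have hu' : L ≤ ‖tl u‖ := hu
    have hpos : 0 < ‖tl u‖ := hL.trans_le hu'
    refine ⟨(u 0, ‖tl u‖, ‖tl u‖⁻¹ • tl u), ⟨mem_univ _, hu', ?_⟩, ?_⟩
    · rw [mem_sphere_zero_iff_norm, norm_smul, norm_inv, norm_norm, inv_mul_cancel₀ hpos.ne']
    · show cn (u 0) (‖tl u‖ • ‖tl u‖⁻¹ • tl u) = u
      rw [smul_smul, mul_inv_cancel₀ hpos.ne', one_smul, cn_tl]
  · rintro ⟨q, ⟨-, hq2, hq3⟩, rfl⟩
    show L ≤ ‖tl (cn q.1 (q.2.1 • q.2.2))‖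
    have hq2' : L ≤ q.2.1 := hq2
    rw [tl_cn, norm_smul, mem_sphere_zero_iff_norm.1 hq3, mul_one,
      Real.norm_of_nonneg (hL.le.trans hq2')]
    exact hq2'

theorem Cyl.inv {L C : ℝ} {h k : E (m + 1) → E (m + 1)} (hh : Cyl L C h)
    (h1 : ∀ x, k (h x) = x) (h2 : ∀ x, h (k x) = x) : Cyl L C k where
  hL := hh.hL
  hC := hh.hC
  far := fun u hu => by
    have := h1 u
    rwa [hh.far u hu] at this
  disp := fun u => by
    have := hh.disp (k u)
    rwa [h2, norm_sub_rev] at this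

theorem exists_shift (t : ℝ) : ∃ k : ℤ, |t + k * (2 * Real.pi)| ≤ Real.pi := by
  have hpi := Real.pi_pos
  refine ⟨-round (t / (2 * Real.pi)), ?_⟩
  have h1 := abs_sub_round (t / (2 * Real.pi))
  have h2 : t + ((-round (t / (2 * Real.pi)) : ℤ) : ℝ) * (2 * Real.pi) =
      (t / (2 * Real.pi) - round (t / (2 * Real.pi))) * (2 * Real.pi) := by
    push_cast
    field_simp
    ring
  rw [h2, abs_mul, abs_of_pos (by positivity : 0 < 2 * Real.pi)]
  calc |t / (2 * Real.pi) - round (t / (2 * Real.pi))| * (2 * Real.pi)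
      ≤ 1 / 2 * (2 * Real.pi) := mul_le_mul_of_nonneg_right h1 (by positivity)
    _ = Real.pi := by ring

theorem sh_sub (t : ℝ) (u v : E (m + 1)) : sh t u - sh t v = u - v := by
  unfold sh
  rw [cn_sub, add_sub_add_right_eq_sub]
  conv_rhs => rw [← cn_tl u, ← cn_tl v, cn_sub]

theorem wt_large {L : ℝ} {u : E (m + 1)} (hL : 0 ≤ L) (hu : L ≤ ‖tl u‖) : L < wt u := by
  unfold wt
  rw [Real.lt_sqrt hL]
  have : L ^ 2 ≤ ‖tl u‖ ^ 2 := pow_le_pow_left₀ hL hu 2
  linarith

/-- the lift of a diffeomorphism which fixes a neighbourhood of the axis -/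
theorem exists_lift (hm : 2 ≤ m) {K : Sn (m + 1) → Sn (m + 1)} (hK : DifS (m + 1) K) {ε : ℝ}
    (hε : 0 < ε) (hid : ∀ y : Sn (m + 1), rd (y : E (m + 1 + 1)) < ε → K y = y) :
    ∃ (h : E (m + 1) → E (m + 1)) (L C : ℝ), Cyl L C h ∧ Dif (m + 1) h ∧
      (∀ u, pol (h u) = K (pol u)) ∧
      (∀ (k : ℤ) (u), h (sh (k * (2 * Real.pi)) u) = sh (k * (2 * Real.pi)) (h u)) := by
  have hpi := Real.pi_pos
  have hpolc : Continuous (pol : E (m + 1) → Sn (m + 1)) :=
    continuous_iff_continuousAt.2 fun x => (pol_LD x).continuousAt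
  have hKc : Continuous K := continuous_iff_continuousAt.2 fun x => (hK.2 x).continuousAt
  -- the value
  set Y : E (m + 1) → E (m + 1 + 1) := fun u => (K (pol u) : E (m + 1 + 1)) with hY
  have hYc : Continuous Y := continuous_subtype_val.comp (hKc.comp hpolc)
  have hrd : ∀ u, rd (Y u) ≠ 0 := by
    intro u h0
    have h1 : rd (K (pol u) : E (m + 1 + 1)) < ε := by rw [show rd (K (pol u) : E (m + 1 + 1)) = 0 from h0]; exact hε
    have h2 := hK.1.1 (hid _ h1)
    have h3 : rd (polc u) = 0 := by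
      have : rd (Y u) = rd (polc u) := by
        show rd (K (pol u) : E (m + 1 + 1)) = _
        rw [h2]
        rfl
      rw [← this]
      exact h0
    rw [rd_polc] at h3
    exact (inv_pos.2 (wt_pos u)).ne' h3
  have hrd0 : ∀ u, 0 < rd (Y u) := fun u => lt_of_le_of_ne (Real.sqrt_nonneg _) (Ne.symm (hrd u))
  set g : E (m + 1) → ℂ := fun u => (⟨(tl (Y u)) 0, (Y u) 0⟩ : ℂ) *
    Complex.exp (-(((u 0 : ℝ) : ℂ) * Complex.I)) with hg
  have hgc : Continuous g := by
    have h1 : Continuous fun u => (tl (Y u)) 0 := continuous_head.comp (tl.continuous.comp hYc)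
    have h2 : Continuous fun u => (Y u) 0 := continuous_head.comp hYc
    have h3 : Continuous fun u => (⟨(tl (Y u)) 0, (Y u) 0⟩ : ℂ) := by
      have : (fun u => (⟨(tl (Y u)) 0, (Y u) 0⟩ : ℂ)) =
          fun u => (((tl (Y u)) 0 : ℝ) : ℂ) + (((Y u) 0 : ℝ) : ℂ) * Complex.I := by
        funext u
        apply Complex.ext <;> simp
      rw [this]
      exact (Complex.continuous_ofReal.comp h1).add
        ((Complex.continuous_ofReal.comp h2).mul continuous_const)
    refine h3.mul (Complex.continuous_exp.comp ?_)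
    exact ((Complex.continuous_ofReal.comp continuous_head).mul continuous_const).neg
  have hnorm : ∀ u, ‖(⟨(tl (Y u)) 0, (Y u) 0⟩ : ℂ)‖ = rd (Y u) := by
    intro u
    rw [Complex.norm_eq_sqrt_sq_add_sq]
    unfold rd
    rw [add_comm]
  have hg0 : ∀ u, g u ≠ 0 := by
    intro u
    refine mul_ne_zero ?_ (Complex.exp_ne_zero _)
    rw [← norm_ne_zero_iff, hnorm]
    exact hrd u
  obtain ⟨l₀, hl₀c, hl₀⟩ := exists_log hgc hg0
  -- the far region
  set L : ℝ := max 1 (ε⁻¹) with hL
  have hL0 : 0 < L := lt_of_lt_of_le one_pos (le_max_left _ _)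
  have hfarY : ∀ u : E (m + 1), L ≤ ‖tl u‖ → Y u = polc u := by
    intro u hu
    have h1 : rd (pol u : E (m + 1 + 1)) < ε := by
      show rd (polc u) < ε
      rw [rd_polc]
      have h2 : ε⁻¹ < wt u := (le_max_right _ _).trans_lt (wt_large hL0.le hu)
      rw [← inv_inv ε]
      exact inv_strictAnti₀ (inv_pos.2 hε) h2
    show (K (pol u) : E (m + 1 + 1)) = _
    rw [hid _ h1]
    rfl
  have hfarg : ∀ u : E (m + 1), L ≤ ‖tl u‖ → g u = (((wt u)⁻¹ : ℝ) : ℂ) := by
    intro u hu
    simp only [hg]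
    rw [hfarY u hu, polc_one, polc_zero]
    have h1 : (⟨(wt u)⁻¹ * Real.cos (u 0), (wt u)⁻¹ * Real.sin (u 0)⟩ : ℂ) =
        (((wt u)⁻¹ : ℝ) : ℂ) * Complex.exp (((u 0 : ℝ) : ℂ) * Complex.I) := by
      apply Complex.ext
      · rw [Complex.re_ofReal_mul, Complex.exp_ofReal_mul_I_re]
      · rw [Complex.im_ofReal_mul, Complex.exp_ofReal_mul_I_im]
    rw [h1, mul_assoc, ← Complex.exp_add, add_neg_cancel, Complex.exp_zero, mul_one]
  have hfarl : ∀ u : E (m + 1), L ≤ ‖tl u‖ → ∃ k : ℤ, (l₀ u).im / (2 * Real.pi) = k := by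
    intro u hu
    have h1 := hl₀ u
    rw [hfarg u hu] at h1
    have h2 : (0 : ℝ) < (wt u)⁻¹ := inv_pos.2 (wt_pos u)
    have h3 : Complex.exp (l₀ u) = Complex.exp ((Real.log (wt u)⁻¹ : ℝ) : ℂ) := by
      rw [h1, ← Complex.ofReal_exp, Real.exp_log h2]
    rw [Complex.exp_eq_exp_iff_exists_int] at h3
    obtain ⟨k, hk⟩ := h3
    refine ⟨k, ?_⟩
    rw [hk]
    simp
  have hfarS := far_connected (m := m) hm hL0
  have hfarconst : ∀ u v : E (m + 1), L ≤ ‖tl u‖ → L ≤ ‖tl v‖ → (l₀ u).im = (l₀ v).im := by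
    intro u v hu hv
    have h1 := int_const hfarS (f := fun u => (l₀ u).im / (2 * Real.pi))
      ((Complex.continuous_im.comp hl₀c).div_const _).continuousOn hfarl hu hv
    have h2 : (2 * Real.pi) ≠ 0 := by positivity
    exact (div_left_inj' h2).1 h1
  -- a far point
  obtain ⟨p0, hp0⟩ : ∃ p0 : E (m + 1), L ≤ ‖tl p0‖ := by
    have : Nontrivial (E m) := by
      have : 0 < m := by omega
      have : Nonempty (Fin m) := ⟨⟨0, this⟩⟩
      infer_instance
    obtain ⟨x, hx⟩ := exists_norm_eq (E m) hL0.le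
    exact ⟨cn 0 x, by rw [tl_cn, hx]⟩
  set c0 : ℝ := (l₀ p0).im with hc0
  obtain ⟨k0, hk0⟩ := hfarl p0 hp0
  have hc0k : c0 = k0 * (2 * Real.pi) := by
    have h2 : (2 * Real.pi) ≠ 0 := by positivity
    field_simp at hk0
    linarith
  set A : E (m + 1) → ℝ := fun u => (l₀ u).im - c0 with hA
  have hAc : Continuous A := (Complex.continuous_im.comp hl₀c).sub continuous_const
  have hAfar : ∀ u, L ≤ ‖tl u‖ → A u = 0 := by
    intro u hu
    simp only [hA, hc0]
    rw [hfarconst u p0 hu hp0, sub_self]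
  have hYA : ∀ u, (⟨(tl (Y u)) 0, (Y u) 0⟩ : ℂ) =
      ((rd (Y u) : ℝ) : ℂ) * Complex.exp (((u 0 + A u : ℝ) : ℂ) * Complex.I) := by
    intro u
    have h1 : (⟨(tl (Y u)) 0, (Y u) 0⟩ : ℂ) = g u * Complex.exp (((u 0 : ℝ) : ℂ) * Complex.I) := by
      simp only [hg]
      rw [mul_assoc, ← Complex.exp_add, neg_add_cancel, Complex.exp_zero, mul_one]
    have h2 : ‖g u‖ = rd (Y u) := by
      simp only [hg]
      rw [norm_mul, hnorm, ← neg_mul, ← Complex.ofReal_neg, Complex.norm_exp_ofReal_mul_I, mul_one]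
    have h3 : Real.exp (l₀ u).re = rd (Y u) := by
      rw [← h2, ← hl₀ u, Complex.norm_exp]
    rw [h1, ← hl₀ u, ← Complex.exp_add, ← h3, Complex.ofReal_exp, ← Complex.exp_add,
      Complex.exp_eq_exp_iff_exists_int]
    refine ⟨k0, ?_⟩
    apply Complex.ext
    · simp
    · simp [hA, hc0k]
      ring
  have hYcos : ∀ u, (tl (Y u)) 0 = rd (Y u) * Real.cos (u 0 + A u) := by
    intro u
    have := congrArg Complex.re (hYA u)
    rw [Complex.re_ofReal_mul, Complex.exp_ofReal_mul_I_re] at this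
    exact this
  have hYsin : ∀ u, (Y u) 0 = rd (Y u) * Real.sin (u 0 + A u) := by
    intro u
    have := congrArg Complex.im (hYA u)
    rw [Complex.im_ofReal_mul, Complex.exp_ofReal_mul_I_im] at this
    exact this
  set h : E (m + 1) → E (m + 1) := fun u => cn (u 0 + A u) ((rd (Y u))⁻¹ • tl (tl (Y u))) with hh
  have hnY : ∀ u, rd (Y u) ^ 2 + ‖tl (tl (Y u))‖ ^ 2 = 1 := by
    intro u
    have hn : ‖Y u‖ = 1 := by simp [hY]
    have h2 := norm_sq_split (Y u)
    have h3 := norm_sq_split (tl (Y u))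
    unfold rd
    rw [Real.sq_sqrt (by positivity)]
    rw [hn] at h2
    linarith
  have hwt : ∀ u, wt (h u) = (rd (Y u))⁻¹ := by
    intro u
    unfold wt
    simp only [hh]
    rw [tl_cn, norm_smul, mul_pow, Real.norm_of_nonneg (inv_nonneg.2 (hrd0 u).le)]
    have h4 : 1 + (rd (Y u))⁻¹ ^ 2 * ‖tl (tl (Y u))‖ ^ 2 = ((rd (Y u))⁻¹) ^ 2 := by
      have h5 : ‖tl (tl (Y u))‖ ^ 2 = 1 - rd (Y u) ^ 2 := by linarith [hnY u]
      rw [h5]
      have := hrd u
      field_simp
      ring
    rw [h4, Real.sqrt_sq (inv_nonneg.2 (hrd0 u).le)]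
  have hpol : ∀ u, pol (h u) = K (pol u) := by
    intro u
    apply Subtype.ext
    show polc (h u) = Y u
    unfold polc
    rw [hwt, inv_inv]
    simp only [hh]
    rw [cn_zero, tl_cn, smul_cn, smul_cn, smul_smul, mul_inv_cancel₀ (hrd u), one_smul,
      ← hYsin, ← hYcos, cn_tl, cn_tl]
  have hhc : Continuous h := by
    have h1 : Continuous fun u => (u 0 + A u, (rd (Y u))⁻¹ • tl (tl (Y u))) := by
      have h2 : Continuous fun u => (rd (Y u))⁻¹ := (rd_cont.comp hYc).inv₀ hrd
      have h3 : Continuous fun u => tl (tl (Y u)) := tl.continuous.comp (tl.continuous.comp hYc)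
      exact (continuous_head.add hAc).prodMk (h2.smul h3)
    exact continuous_cn.comp h1
  have hfar : ∀ u, L ≤ ‖tl u‖ → h u = u := by
    intro u hu
    simp only [hh]
    rw [hAfar u hu, hfarY u hu, rd_polc, polc_tail, inv_inv, smul_smul,
      mul_inv_cancel₀ (wt_pos u).ne', one_smul, add_zero, cn_tl]
  -- periodicity
  have hgsh : ∀ (k : ℤ) (u), g (sh (k * (2 * Real.pi)) u) = g u := by
    intro k u
    simp only [hg, hY]
    rw [pol_sh, sh_zero]
    congr 1
    rw [Complex.exp_eq_exp_iff_exists_int]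
    refine ⟨-k, ?_⟩
    push_cast
    ring
  have hAsh : ∀ (k : ℤ) (u), A (sh (k * (2 * Real.pi)) u) = A u := by
    intro k u
    have hshc : Continuous (sh (k * (2 * Real.pi)) : E (m + 1) → E (m + 1)) := by
      unfold sh
      exact continuous_cn.comp ((continuous_head.add continuous_const).prodMk tl.continuous)
    have h1 := int_const (S := (univ : Set (E (m + 1)))) isPreconnected_univ
      (f := fun u => (A (sh (k * (2 * Real.pi)) u) - A u) / (2 * Real.pi))
      (((hAc.comp hshc).sub hAc).div_const _).continuousOn (by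
        intro v _
        have h2 : Complex.exp (l₀ (sh (k * (2 * Real.pi)) v)) = Complex.exp (l₀ v) := by
          rw [hl₀, hl₀, hgsh]
        rw [Complex.exp_eq_exp_iff_exists_int] at h2
        obtain ⟨j, hj⟩ := h2
        refine ⟨j, ?_⟩
        simp only [hA, hj]
        simp) (mem_univ u) (mem_univ p0)
    have h3 : A (sh (k * (2 * Real.pi)) p0) - A p0 = 0 := by
      rw [hAfar p0 hp0, hAfar _ (by rw [tl_sh]; exact hp0), sub_self]
    simp only [h3, zero_div] at h1
    have h2 : (2 * Real.pi) ≠ 0 := by positivity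
    have h4 := (div_eq_zero_iff.1 h1).resolve_right h2
    linarith
  have hper : ∀ (k : ℤ) (u), h (sh (k * (2 * Real.pi)) u) = sh (k * (2 * Real.pi)) (h u) := by
    intro k u
    have hYs : Y (sh (k * (2 * Real.pi)) u) = Y u := by
      simp only [hY]
      rw [pol_sh]
    simp only [hh]
    rw [hAsh, hYs, sh_zero]
    unfold sh
    rw [cn_zero, tl_cn]
    congr 1
    ring
  -- bijectivity
  have hbij : Bijective h := by
    constructor
    · intro u v huv
      have h1 : K (pol u) = K (pol v) := by rw [← hpol, ← hpol, huv]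
      obtain ⟨k, hk⟩ := pol_eq (hK.1.1 h1)
      rw [hk, hper] at huv
      have h2 := congrArg (fun z : E (m + 1) => z 0) huv
      simp only [sh_zero] at h2
      have h3 : (k : ℝ) * (2 * Real.pi) = 0 := by linarith
      rw [hk, h3, sh_0]
    · intro v
      obtain ⟨y, hy⟩ := hK.1.2 (pol v)
      have hry : rd (y : E (m + 1 + 1)) ≠ 0 := by
        intro h0
        have h1 : K y = y := hid y (by rw [h0]; exact hε)
        have h2 : rd (polc v) = 0 := by
          have : polc v = (y : E (m + 1 + 1)) := by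
            rw [← h1, hy]
            rfl
          rw [this, h0]
        rw [rd_polc] at h2
        exact (inv_pos.2 (wt_pos v)).ne' h2
      obtain ⟨u, hu⟩ := pol_surj hry
      have h1 : pol (h u) = pol v := by rw [hpol, hu, hy]
      obtain ⟨k, hk⟩ := pol_eq h1
      exact ⟨sh (k * (2 * Real.pi)) u, by rw [hper, ← hk]⟩
  have hLD : ∀ u, LD (m + 1) h u := by
    intro u
    refine LD_of_comp_left (p := pol) hhc.continuousAt (pol_LD _) ?_
    have h1 : LD (m + 1) (fun y => K (pol y)) u := LD.comp_fun (g := K) (hK.2 _) (pol_LD u)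
    exact h1.congr (Eventually.of_forall hpol)
  -- bounded displacement
  obtain ⟨C, hC⟩ := (isCompact_box (m := m) L Real.pi).exists_bound_of_continuousOn
    (f := fun u => h u - u) (hhc.sub continuous_id).continuousOn
  refine ⟨h, L, max C 0, ⟨hL0.le, le_max_right _ _, hfar, fun u => ?_⟩, ⟨hbij, hLD⟩, hpol, hper⟩
  rcases le_total L ‖tl u‖ with hu | hu
  · rw [hfar u hu, sub_self, norm_zero]
    exact le_max_right _ _
  · obtain ⟨k, hk⟩ := exists_shift (u 0)
    have h1 : h u - u = h (sh (k * (2 * Real.pi)) u) - sh (k * (2 * Real.pi)) u := by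
      rw [hper, sh_sub]
    rw [h1]
    refine (hC _ ⟨?_, ?_⟩).trans (le_max_left _ _)
    · rw [tl_sh]
      exact hu
    · rw [sh_zero]
      exact hk

end lift

end Pool.Agent.H816
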