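import Pool.Agent.H816.Sph

/-!
# Local Lipschitz property
-/

set_option autoImplicit false

open Set Filter Topology Metric Function MeasureTheory Module
open scoped Manifold ContDiff NNReal

noncomputable section

namespace Pool.Agent.H816

open Pool.Agent.Y522 Pool.Agent.Y784.SH

section met

variable {X Y Z : Type*} [PseudoMetricSpace X] [PseudoMetricSpace Y] [PseudoMetricSpace Z]

/-- Lipschitz near a point -/
def LipAt (f : X → Y) (x : X) : Prop := ∃ K : ℝ≥0, ∃ s ∈ 𝓝 x, LipschitzOnWith K f s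

theorem LipAt.continuousAt {f : X → Y} {x : X} (hf : LipAt f x) : ContinuousAt f x := by
  obtain ⟨K, s, hs, h⟩ := hf
  exact h.continuousOn.continuousAt hs

theorem LipAt.comp {g : Y → Z} {f : X → Y} {x : X} (hg : LipAt g (f x)) (hf : LipAt f x) :
    LipAt (fun y => g (f y)) x := by
  have hfc := hf.continuousAt
  obtain ⟨K, s, hs, h⟩ := hf
  obtain ⟨K', t, ht, k⟩ := hg
  refine ⟨K' * K, s ∩ f ⁻¹' t, inter_mem hs (hfc ht), ?_⟩
  exact k.comp (h.mono inter_subset_left) fun y hy => hy.2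

theorem LipAt.congr {f g : X → Y} {x : X} (hf : LipAt f x) (h : g =ᶠ[𝓝 x] f) : LipAt g x := by
  obtain ⟨K, s, hs, k⟩ := hf
  refine ⟨K, s ∩ {y | g y = f y}, inter_mem hs h, ?_⟩
  intro y hy z hz
  rw [show g y = f y from hy.2, show g z = f z from hz.2]
  exact k hy.1 hz.1

theorem LipAt.id (x : X) : LipAt (fun y : X => y) x :=
  ⟨1, univ, univ_mem, LipschitzWith.id.lipschitzOnWith⟩

theorem lip_of_lipAt [CompactSpace X] {f : X → Y} (h : ∀ x, LipAt f x) :
    ∃ K : ℝ≥0, LipschitzWith K f := by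
  have h1 : LocallyLipschitz f := h
  have h2 : LocallyLipschitzOn univ f := h1.locallyLipschitzOn
  obtain ⟨K, hK⟩ := LocallyLipschitzOn.exists_lipschitzOnWith_of_compact isCompact_univ h2
  exact ⟨K, lipschitzOnWith_univ.1 hK⟩

/-- the basic consequence at the point itself -/
theorem LipAt.isBigO {f : X → Y} {x : X} (hf : LipAt f x) :
    (fun y => dist (f y) (f x)) =O[𝓝 x] fun y => dist y x := by
  obtain ⟨K, s, hs, k⟩ := hf
  refine Asymptotics.IsBigO.of_bound K ?_
  filter_upwards [hs] with y hy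
  rw [Real.norm_of_nonneg dist_nonneg, Real.norm_of_nonneg dist_nonneg]
  exact k.dist_le_mul y hy x (mem_of_mem_nhds hs)

end met

theorem lipAt_of_contDiffAt {V W : Type*} [NormedAddCommGroup V] [NormedSpace ℝ V]
    [NormedAddCommGroup W] [NormedSpace ℝ W] {f : V → W} {x : V} (hf : ContDiffAt ℝ ∞ f x) :
    LipAt f x :=
  (hf.of_le (by simp)).exists_lipschitzOnWith

section sph

variable {n : ℕ} {Y : Type*} [PseudoMetricSpace Y]

theorem lipAt_subtype {X : Type*} [PseudoMetricSpace X] {f : X → Sn n} {x : X}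
    (hf : LipAt (fun y => (f y : E (n + 1))) x) : LipAt f x := by
  obtain ⟨K, s, hs, k⟩ := hf
  exact ⟨K, s, hs, fun y hy z hz => k hy hz⟩

theorem lipAt_E {f : E n → Sn n} {x : E n} (hf : LD n f x) : LipAt f x :=
  lipAt_subtype (lipAt_of_contDiffAt (coe_smooth hf))

theorem lipAt_pr {q y : Sn n} (hy : y ≠ q) : LipAt (fun z : Sn n => pr q (z : E (n + 1))) y := by
  have h1 : LipAt (pr q) (y : E (n + 1)) :=
    lipAt_of_contDiffAt (pr_smooth q (by simp) fun h => hy (Subtype.ext h))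
  have h2 : LipAt (fun z : Sn n => (z : E (n + 1))) y :=
    ⟨1, univ, univ_mem, (LipschitzWith.subtype_val _).lipschitzOnWith⟩
  exact LipAt.comp (g := pr q) h1 h2

theorem lipAt_of_sg {f : Sn n → Y} {y : Sn n}
    (hf : LipAt (fun z => f (sg (-y) z)) (pr (-y) (y : E (n + 1)))) : LipAt f y := by
  have hne : y ≠ -y := neg_ne y
  have h1 := LipAt.comp (g := fun z => f (sg (-y) z)) (f := fun z : Sn n => pr (-y) (z : E (n + 1)))
    hf (lipAt_pr hne)
  refine h1.congr ?_
  have : ∀ᶠ z in 𝓝 y, z ≠ -y := eventually_ne_nhds hne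
  filter_upwards [this] with z hz
  rw [sg_pr _ hz]

theorem lipAt_S {f : Sn n → Sn n} {y : Sn n} (hf : LD n f y) : LipAt f y := by
  refine lipAt_of_sg (lipAt_E ?_)
  have hne : y ≠ -y := neg_ne y
  have h1 : LD n f (sg (-y) (pr (-y) (y : E (n + 1)))) := by rw [sg_pr _ hne]; exact hf
  exact LD.comp_fun (g := f) h1 (sg_LD _ _)

theorem lipAt_SE {f : Sn n → E n} {y : Sn n} (hf : LD n f y) : LipAt f y := by
  refine lipAt_of_sg (lipAt_of_contDiffAt ?_)
  have hne : y ≠ -y := neg_ne y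
  have h1 : LD n f (sg (-y) (pr (-y) (y : E (n + 1)))) := by rw [sg_pr _ hne]; exact hf
  exact (LD.comp_fun (g := f) h1 (sg_LD _ _)).contDiffAt

end sph

end Pool.Agent.H816
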