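import Mathlib

/-!
# A decreasing cutoff function
-/

set_option autoImplicit false

open Set Filter Topology Metric Function MeasureTheory
open scoped ContDiff

noncomputable section

namespace Pool.Agent.H816.Mo

/-- cutoff functions: equal to `1` on `(-∞, 1]` and to `0` on `[2, ∞)`, decreasing in between -/
structure Mst (m : ℝ → ℝ) (C : ℝ) : Prop where
  smooth : ContDiff ℝ ∞ m
  one : ∀ u, u ≤ 1 → m u = 1
  zero : ∀ u, 2 ≤ u → m u = 0
  nonneg : ∀ u, 0 ≤ m u
  le : ∀ u, m u ≤ 1
  dle : ∀ u, deriv m u ≤ 0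
  dlt : ∀ u, 1 < u → u < 2 → deriv m u < 0
  dbd : ∀ u, |deriv m u| ≤ C

/-- the bump -/
def th (u : ℝ) : ℝ := expNegInvGlue (u - 1) * expNegInvGlue (2 - u)

theorem th_smooth : ContDiff ℝ ∞ th :=
  (expNegInvGlue.contDiff.comp (contDiff_id.sub contDiff_const)).mul
    (expNegInvGlue.contDiff.comp (contDiff_const.sub contDiff_id))

theorem glue_le (x : ℝ) : expNegInvGlue x ≤ 1 := by
  unfold expNegInvGlue
  split_ifs with h
  · exact zero_le_one
  · rw [Real.exp_le_one_iff]
    have : 0 < x⁻¹ := inv_pos.2 (not_le.1 h)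
    linarith

theorem th_nonneg (u : ℝ) : 0 ≤ th u := mul_nonneg (expNegInvGlue.nonneg _) (expNegInvGlue.nonneg _)

theorem th_le (u : ℝ) : th u ≤ 1 :=
  mul_le_one₀ (glue_le _) (expNegInvGlue.nonneg _) (glue_le _)

theorem th_pos {u : ℝ} (h1 : 1 < u) (h2 : u < 2) : 0 < th u :=
  mul_pos (expNegInvGlue.pos_of_pos (by linarith)) (expNegInvGlue.pos_of_pos (by linarith))

theorem th_left {u : ℝ} (h : u ≤ 1) : th u = 0 := by
  unfold th
  rw [expNegInvGlue.zero_of_nonpos (by linarith), zero_mul]

theorem th_right {u : ℝ} (h : 2 ≤ u) : th u = 0 := by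
  unfold th
  rw [expNegInvGlue.zero_of_nonpos (x := 2 - u) (by linarith), mul_zero]

theorem exists_mst : ∃ (m : ℝ → ℝ) (C : ℝ), 0 < C ∧ Mst m C := by
  have hc : Continuous th := th_smooth.continuous
  obtain ⟨c, hcd⟩ : ∃ c : ℝ, c = ∫ t in (1 : ℝ)..2, th t := ⟨_, rfl⟩
  have hc0 : 0 < c := by
    rw [hcd]
    exact intervalIntegral.intervalIntegral_pos_of_pos_on (hc.intervalIntegrable _ _)
      (fun x hx => th_pos hx.1 hx.2) (by norm_num)
  obtain ⟨m, hm⟩ : ∃ m : ℝ → ℝ, m = fun u => 1 - (∫ t in (1 : ℝ)..u, th t) / c := ⟨_, rfl⟩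
  have hd : ∀ u, HasDerivAt m (-(th u / c)) u := by
    intro u
    rw [hm]
    have h1 : HasDerivAt (fun u => ∫ t in (1 : ℝ)..u, th t) (th u) u :=
      intervalIntegral.integral_hasDerivAt_right (hc.intervalIntegrable _ _)
        (hc.stronglyMeasurableAtFilter _ _) hc.continuousAt
    have h2 := (h1.div_const c).const_sub 1
    exact h2
  have hderiv : deriv m = fun u => -(th u / c) := funext fun u => (hd u).deriv
  have hsm : ContDiff ℝ ∞ m := by
    rw [contDiff_infty_iff_deriv]
    refine ⟨fun u => (hd u).differentiableAt, ?_⟩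
    rw [hderiv]
    exact (th_smooth.div_const c).neg
  have hone : ∀ u, u ≤ 1 → m u = 1 := by
    intro u hu
    have h1 : ∫ t in (1 : ℝ)..u, th t = ∫ t in (1 : ℝ)..u, (0 : ℝ) := by
      refine intervalIntegral.integral_congr fun t ht => ?_
      rw [uIcc_of_ge hu] at ht
      exact th_left ht.2
    rw [hm]
    show 1 - (∫ t in (1 : ℝ)..u, th t) / c = 1
    rw [h1, intervalIntegral.integral_zero, zero_div, sub_zero]
  have hzero : ∀ u, 2 ≤ u → m u = 0 := by
    intro u hu
    have h1 : ∫ t in (2 : ℝ)..u, th t = ∫ t in (2 : ℝ)..u, (0 : ℝ) := by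
      refine intervalIntegral.integral_congr fun t ht => ?_
      rw [uIcc_of_le hu] at ht
      exact th_right ht.1
    have h2 : ∫ t in (1 : ℝ)..u, th t = c := by
      rw [← intervalIntegral.integral_add_adjacent_intervals (b := 2)
        (hc.intervalIntegrable _ _) (hc.intervalIntegrable _ _), h1,
        intervalIntegral.integral_zero, add_zero, hcd]
    rw [hm]
    show 1 - (∫ t in (1 : ℝ)..u, th t) / c = 0
    rw [h2, div_self hc0.ne', sub_self]
  have hanti : Antitone m := by
    refine antitone_of_deriv_nonpos (hsm.differentiable (by simp)) fun u => ?_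
    rw [hderiv]
    have : 0 ≤ th u / c := div_nonneg (th_nonneg u) hc0.le
    show -(th u / c) ≤ 0
    linarith
  refine ⟨m, 1 / c, by positivity, hsm, hone, hzero, ?_, ?_, ?_, ?_, ?_⟩
  · intro u
    rw [← hzero (max u 2) (le_max_right _ _)]
    exact hanti (le_max_left _ _)
  · intro u
    rw [← hone (min u 1) (min_le_right _ _)]
    exact hanti (min_le_left _ _)
  · intro u
    rw [hderiv]
    have : 0 ≤ th u / c := div_nonneg (th_nonneg u) hc0.le
    show -(th u / c) ≤ 0
    linarith
  · intro u h1 h2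
    rw [hderiv]
    have : 0 < th u / c := div_pos (th_pos h1 h2) hc0
    show -(th u / c) < 0
    linarith
  · intro u
    rw [hderiv]
    show |-(th u / c)| ≤ 1 / c
    rw [abs_neg, abs_of_nonneg (div_nonneg (th_nonneg u) hc0.le)]
    exact div_le_div_of_nonneg_right (th_le u) hc0.le

variable {m : ℝ → ℝ} {C : ℝ}

theorem Mst.hd (h : Mst m C) (u : ℝ) : HasDerivAt m (deriv m u) u :=
  (h.smooth.differentiable (by simp) u).hasDerivAt

theorem Mst.d_left (h : Mst m C) {u : ℝ} (hu : u ≤ 1) : deriv m u = 0 := by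
  have hc : Continuous (deriv m) := by
    have := (contDiff_infty_iff_deriv.1 h.smooth).2
    exact this.continuous
  have h1 : ∀ v, v < 1 → deriv m v = 0 := by
    intro v hv
    have : m =ᶠ[𝓝 v] fun _ => 1 := by
      filter_upwards [isOpen_Iio.mem_nhds hv] with y hy
      exact h.one y (le_of_lt hy)
    rw [this.deriv_eq, deriv_const]
  rcases lt_or_eq_of_le hu with h2 | h2
  · exact h1 u h2
  · have h3 : Tendsto (deriv m) (𝓝[<] u) (𝓝 (deriv m u)) := hc.continuousAt.mono_left nhdsWithin_le_nhds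
    have h4 : Tendsto (deriv m) (𝓝[<] u) (𝓝 0) := by
      refine tendsto_const_nhds.congr' ?_
      filter_upwards [self_mem_nhdsWithin] with y hy
      exact (h1 y (by rw [← h2]; exact hy)).symm
    exact tendsto_nhds_unique h3 h4

theorem Mst.d_right (h : Mst m C) {u : ℝ} (hu : 2 ≤ u) : deriv m u = 0 := by
  have hc : Continuous (deriv m) := by
    have := (contDiff_infty_iff_deriv.1 h.smooth).2
    exact this.continuous
  have h1 : ∀ v, 2 < v → deriv m v = 0 := by
    intro v hv
    have : m =ᶠ[𝓝 v] fun _ => 0 := by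
      filter_upwards [isOpen_Ioi.mem_nhds hv] with y hy
      exact h.zero y (le_of_lt hy)
    rw [this.deriv_eq, deriv_const]
  rcases lt_or_eq_of_le hu with h2 | h2
  · exact h1 u h2
  · have h3 : Tendsto (deriv m) (𝓝[>] u) (𝓝 (deriv m u)) := hc.continuousAt.mono_left nhdsWithin_le_nhds
    have h4 : Tendsto (deriv m) (𝓝[>] u) (𝓝 0) := by
      refine tendsto_const_nhds.congr' ?_
      filter_upwards [self_mem_nhdsWithin] with y hy
      exact (h1 y (by rw [h2]; exact hy)).symm
    exact tendsto_nhds_unique h3 h4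

theorem Mst.pos (h : Mst m C) {u : ℝ} (hu : u < 2) : 0 < m u := by
  rcases eq_or_lt_of_le (h.nonneg u) with h0 | h0
  · exfalso
    rcases le_or_gt u 1 with h1 | h1
    · rw [h.one u h1] at h0
      exact zero_ne_one h0
    · -- strictly decreasing on `[1, 2]`
      have h2 : StrictAntiOn m (Icc 1 2) := by
        refine strictAntiOn_of_deriv_neg (convex_Icc 1 2) h.smooth.continuous.continuousOn ?_
        intro x hx
        rw [interior_Icc] at hx
        exact h.dlt x hx.1 hx.2
      have h3 := h2 ⟨h1.le, hu.le⟩ ⟨one_le_two, le_refl _⟩ hu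
      rw [h.zero 2 (le_refl _), ← h0] at h3
      exact lt_irrefl _ h3
  · exact h0

end Pool.Agent.H816.Mo
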