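import Pool.Agent.H816.Mo9

/-!
# Removing saddles: the theorem
-/

set_option autoImplicit false
set_option linter.unusedSectionVars false

open Set Filter Topology Metric Function Module
open scoped ContDiff Manifold

noncomputable section

namespace Pool.Agent.H816.Mo

open Pool.Agent.H816 Pool.Agent.H816.Fam

/-- the model space -/
abbrev Ek (k : ℕ) : Type := EuclideanSpace ℝ (Fin (k + 2))

/-- a regular singular point of the first kind -/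
def Good (E : Type*) [NormedAddCommGroup E] [NormedSpace ℝ E] {X : Type*} [TopologicalSpace X]
    [ChartedSpace E X] (η : ℝ → ℝ) (g : X → ℝ) (p : X) : Prop :=
  InC E (BigO η) g p ∧ MDifferentiableAt 𝓘(ℝ, E) 𝓘(ℝ, ℝ) g p ∧ Df E g p ≠ 0

theorem Good.congr {E : Type*} [NormedAddCommGroup E] [NormedSpace ℝ E] {X : Type*}
    [TopologicalSpace X] [ChartedSpace E X] {η : ℝ → ℝ} {g g' : X → ℝ} {p : X}
    (h : Good E η g p) (he : g' =ᶠ[𝓝 p] g) : Good E η g' p := by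
  obtain ⟨⟨A, hA0, hA, hP⟩, h2, h3⟩ := h
  refine ⟨⟨A, hA0, hA, hP.congr ?_⟩, h2.congr_of_eventuallyEq he, ?_⟩
  · have hc : Tendsto A (𝓝 0) (𝓝 p) := by
      have := hA.contMDiffAt.continuousAt.tendsto
      rwa [hA0] at this
    exact hc.eventually he
  · rw [Df_congr he]
    exact h3

variable {k : ℕ} {X : Type*} [TopologicalSpace X] [ChartedSpace (Ek k) X]
  [IsManifold 𝓘(ℝ, Ek k) ∞ X] [T2Space X]

theorem remove_one {η : ℝ → ℝ} {κ : ℝ} (hη : Gauge η κ)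
    (hη' : Tendsto (fun r => η r / r) (𝓝[>] 0) (𝓝 0)) {f : X → ℝ} {p : X}
    (hf : ∀ᶠ x in 𝓝 p, Sm (Ek k) f x) (hs : Saddle (Ek k) f p) {U : Set X} (hU : U ∈ 𝓝 p) :
    ∃ g : X → ℝ, Good (Ek k) η g p ∧ ∀ x, x ≠ p →
      (x ∈ U ∧ Df (Ek k) f x ≠ 0 ∧ Sm (Ek k) g x ∧ Df (Ek k) g x ≠ 0) ∨ g =ᶠ[𝓝 x] f := by
  obtain ⟨m, C, R1, R3, Rb, w, κ', hD, hw, -, hcmp⟩ := exists_dat hη
  set φ := chartAt (Ek k) p with hφ
  -- the translated chart
  obtain ⟨Ψ0, hΨ0, hΨ0s⟩ : ∃ Ψ0 : PartialDiffeomorph 𝓘(ℝ, Ek k) 𝓘(ℝ, Ek k) (Ek k) X ∞,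
      (∀ v, Ψ0 v = φ.symm (φ p + v)) ∧ ∀ v, v ∈ Ψ0.source ↔ φ p + v ∈ φ.target :=
    ⟨pd p (fun v => φ p + v) (fun e => e - φ p) (contDiff_const.add contDiff_id)
      (contDiff_id.sub contDiff_const) (fun v => by simp) (fun e => by simp), fun v => rfl,
      fun v => Iff.rfl⟩
  have hp0 : Ψ0 0 = p := by
    rw [hΨ0, add_zero]
    exact φ.left_inv (mem_chart_source _ p)
  have h0s : (0 : Ek k) ∈ Ψ0.source := by
    rw [hΨ0s, add_zero]
    exact mem_chart_target _ p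
  have hLD0 : ∀ v ∈ Ψ0.source, IsLocalDiffeomorphAt 𝓘(ℝ, Ek k) 𝓘(ℝ, Ek k) ∞ Ψ0 v :=
    fun v hv => ⟨Ψ0, hv, eqOn_refl _ _⟩
  have ht0 : Tendsto Ψ0 (𝓝 0) (𝓝 p) := by
    have := (hLD0 0 h0s).contMDiffAt.continuousAt.tendsto
    rwa [hp0] at this
  obtain ⟨F, hF⟩ : ∃ F : Ek k → ℝ, F = fun v => f (Ψ0 v) := ⟨_, rfl⟩
  have hFs : ∀ᶠ v in 𝓝 (0 : Ek k), ContDiffAt ℝ ∞ F v := by
    filter_upwards [ht0.eventually hf, Ψ0.open_source.mem_nhds h0s] with v h1 h2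
    have h3 : ContMDiffAt 𝓘(ℝ, Ek k) 𝓘(ℝ, ℝ) ∞ (f ∘ Ψ0) v :=
      ContMDiffAt.comp v h1 (hLD0 v h2).contMDiffAt
    rw [hF]
    exact h3.contDiffAt
  have hFe : F = fun v => (f ∘ (extChartAt 𝓘(ℝ, Ek k) p).symm) (extChartAt 𝓘(ℝ, Ek k) p p + v) := by
    rw [hF]
    funext v
    rw [hΨ0]
    rfl
  have hF1 : ∀ v, fderiv ℝ F v = fderiv ℝ (f ∘ (extChartAt 𝓘(ℝ, Ek k) p).symm)
      (extChartAt 𝓘(ℝ, Ek k) p p + v) := by
    intro v
    rw [hFe]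
    exact fderiv_comp_add_left _
  have hF0 : fderiv ℝ F 0 = 0 := by
    rw [hF1, add_zero]
    exact hs.1
  have hB : fderiv ℝ (fderiv ℝ F) 0 = Hs (Ek k) f p := by
    have h1 : fderiv ℝ F = fun v => fderiv ℝ (f ∘ (extChartAt 𝓘(ℝ, Ek k) p).symm)
      (extChartAt 𝓘(ℝ, Ek k) p p + v) := funext hF1
    rw [h1, fderiv_comp_add_left, add_zero]
    rfl
  have hsym : ∀ v w, fderiv ℝ (fderiv ℝ F) 0 v w = fderiv ℝ (fderiv ℝ F) 0 w v := by
    have h1 : IsSymmSndFDerivAt ℝ F 0 := hFs.self_of_nhds.isSymmSndFDerivAt (by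
      rw [minSmoothness_of_isRCLikeNormedField]
      exact WithTop.coe_le_coe.2 le_top)
    intro v w
    exact h1 v w
  obtain ⟨Λ, J, hJ, hΛ⟩ := normal_form (k := k) (E := Ek k) (by simp) (fderiv ℝ (fderiv ℝ F) 0)
    hsym (by rw [hB]; exact hs.2.1) (by rw [hB]; exact hs.2.2.1) (by rw [hB]; exact hs.2.2.2)
  -- critical points are isolated
  have hiso : ∀ᶠ v in 𝓝[≠] (0 : Ek k), fderiv ℝ F v ≠ 0 := by
    have h1 : HasFDerivAt (fderiv ℝ F) (fderiv ℝ (fderiv ℝ F) 0) 0 :=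
      ((hFs.self_of_nhds.fderiv_right (m := 1) (by norm_cast)).differentiableAt
        (by simp)).hasFDerivAt
    refine h1.eventually_ne ?_
    have h2 : LinearMap.ker (fderiv ℝ (fderiv ℝ F) 0 : Ek k →ₗ[ℝ] Ek k →L[ℝ] ℝ) = ⊥ := by
      rw [LinearMap.ker_eq_bot']
      intro v hv
      rw [hB] at hv
      refine hs.2.1 v fun w => ?_
      have : Hs (Ek k) f p v = 0 := hv
      rw [this]
      rfl
    obtain ⟨K, -, hK⟩ := LinearMap.exists_antilipschitzWith _ h2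
    exact ⟨K, hK⟩
  obtain ⟨N, hN, hN'⟩ : ∃ N ∈ 𝓝 (0 : Ek k), ∀ v ∈ N, v ∈ Ψ0.source ∧ Ψ0 v ∈ U ∧
      ContDiffAt ℝ ∞ F v ∧ (v ≠ 0 → fderiv ℝ F v ≠ 0) := by
    have e1 : ∀ᶠ v in 𝓝 (0 : Ek k), v ∈ Ψ0.source := Ψ0.open_source.mem_nhds h0s
    have e2 : ∀ᶠ v in 𝓝 (0 : Ek k), Ψ0 v ∈ U := ht0.eventually hU
    exact ⟨_, e1.and (e2.and (hFs.and (eventually_nhdsWithin_iff.1 hiso))), fun v hv => hv⟩
  obtain ⟨ε, ρ, G, hε, hρ, g1, g2, g3, g4⟩ := local_main hD hJ hFs hF0 Λ hΛ hN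
  -- the coordinates
  obtain ⟨a, ha⟩ : ∃ a : ℝ × ℝ × EuclideanSpace ℝ (Fin k) → Ek k,
    a = fun z => φ p + Λ (ε • Ph z) := ⟨_, rfl⟩
  obtain ⟨a', ha'⟩ : ∃ a' : Ek k → ℝ × ℝ × EuclideanSpace ℝ (Fin k),
    a' = fun e => Ph' (ε⁻¹ • Λ.symm (e - φ p)) := ⟨_, rfl⟩
  have has : ContDiff ℝ ∞ a := by
    rw [ha]
    exact contDiff_const.add (Λ.contDiff.comp (Ph_smooth.const_smul ε))
  have has' : ContDiff ℝ ∞ a' := by
    rw [ha']
    exact Ph'_smooth.comp ((Λ.symm.contDiff.comp (contDiff_id.sub contDiff_const)).const_smul ε⁻¹)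
  have haa' : ∀ z, a' (a z) = z := by
    intro z
    rw [ha, ha']
    show Ph' (ε⁻¹ • Λ.symm (φ p + Λ (ε • Ph z) - φ p)) = z
    rw [add_sub_cancel_left, Λ.symm_apply_apply, smul_smul, inv_mul_cancel₀ hε.ne', one_smul,
      Ph_inv']
  have ha'a : ∀ e, a (a' e) = e := by
    intro e
    rw [ha, ha']
    show φ p + Λ (ε • Ph (Ph' (ε⁻¹ • Λ.symm (e - φ p)))) = e
    rw [Ph_inv, smul_smul, mul_inv_cancel₀ hε.ne', one_smul, Λ.apply_symm_apply]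
    abel
  obtain ⟨Ψ, hΨ, hΨs⟩ : ∃ Ψ : PartialDiffeomorph 𝓘(ℝ, ℝ × ℝ × EuclideanSpace ℝ (Fin k))
      𝓘(ℝ, Ek k) (ℝ × ℝ × EuclideanSpace ℝ (Fin k)) X ∞,
      (∀ z, Ψ z = Ψ0 (Λ (ε • Ph z))) ∧ ∀ z, z ∈ Ψ.source ↔ Λ (ε • Ph z) ∈ Ψ0.source := by
    refine ⟨pd p a a' has has' haa' ha'a, fun z => ?_, fun z => ?_⟩
    · rw [hΨ0]
      show φ.symm (a z) = _
      rw [ha]
    · rw [hΨ0s]
      show a z ∈ φ.target ↔ _
      rw [ha]
  have hb : ball 0 (3 * ρ) ⊆ Ψ.source := by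
    intro z hz
    rw [hΨs]
    exact (hN' _ (g1 z (mem_ball_zero_iff.1 hz))).1
  obtain ⟨g, t1, t2⟩ := transplant Ψ hρ hb f G (fun z h1 h2 => by
    rw [g2 z h1 h2, hΨ, hF])
  have hΨ00 : Ψ 0 = p := by rw [hΨ, Ph_zero, smul_zero, map_zero, hp0]
  -- the coordinates for the bounds
  obtain ⟨Ψ1, hΨ1, hΨ1s⟩ : ∃ Ψ1 : PartialDiffeomorph 𝓘(ℝ, Ek k) 𝓘(ℝ, Ek k) (Ek k) X ∞,
      (∀ z, Ψ1 z = Ψ (Mk k z)) ∧ (0 : Ek k) ∈ Ψ1.source := by
    refine ⟨pd p (fun z => a (Mk k z)) (fun e => (Mk k).symm (a' e)) (has.comp (Mk k).contDiff)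
      ((Mk k).symm.contDiff.comp has') (fun z => ?_) (fun e => ?_), fun z => ?_, ?_⟩
    · rw [haa', (Mk k).symm_apply_apply]
    · rw [(Mk k).apply_symm_apply, ha'a]
    · rw [hΨ, hΨ0]
      show φ.symm (a (Mk k z)) = _
      rw [ha]
    · show a (Mk k 0) ∈ φ.target
      rw [map_zero, ha]
      show φ p + Λ (ε • Ph 0) ∈ φ.target
      rw [Ph_zero, smul_zero, map_zero, add_zero]
      exact mem_chart_target _ p
  have hLD1 : IsLocalDiffeomorphAt 𝓘(ℝ, Ek k) 𝓘(ℝ, Ek k) ∞ Ψ1 0 :=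
    ⟨Ψ1, hΨ1s, eqOn_refl _ _⟩
  have hΨ10 : Ψ1 0 = p := by rw [hΨ1, map_zero, hΨ00]
  have hBig : BigO η fun z => g (Ψ1 z) := by
    refine model_bigO (J := J) hD hη hw hcmp (F 0) hε ?_
    have hcM : Tendsto (Mk k) (𝓝 0) (𝓝 0) := by
      have := (Mk k).continuous.tendsto 0
      rwa [map_zero] at this
    filter_upwards [hcM.eventually (t1 0 (by rw [norm_zero]; positivity)), hcM.eventually g4]
      with z h1 h2
    rw [hΨ1, h1, h2]
  have hdiff : HasFDerivAt (fun z => g (Ψ1 z)) (fderiv ℝ hBig.1.choose 0) 0 :=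
    hBig.1.choose_spec.hasFDerivAt hη'
  refine ⟨g, ⟨⟨Ψ1, hΨ10, hLD1, hBig⟩, ?_, ?_⟩, ?_⟩
  · have := md_of hLD1 hdiff.differentiableAt
    rwa [hΨ10] at this
  · have := Df_ne hLD1 hdiff.differentiableAt (by
      rw [hdiff.fderiv]
      exact hBig.1.choose_spec.2.1)
    rwa [hΨ10] at this
  · intro x hx
    by_cases hxz : ∃ z, ‖z‖ ≤ 2 * ρ ∧ Ψ z = x
    · left
      obtain ⟨z, hz, rfl⟩ := hxz
      have hz0 : z ≠ 0 := by
        rintro rfl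
        exact hx hΨ00
      have hz3 : ‖z‖ < 3 * ρ := by linarith
      obtain ⟨n1, n2, n3, n4⟩ := hN' _ (g1 z hz3)
      have hLD : IsLocalDiffeomorphAt 𝓘(ℝ, ℝ × ℝ × EuclideanSpace ℝ (Fin k)) 𝓘(ℝ, Ek k) ∞ Ψ z :=
        ⟨Ψ, hb (mem_ball_zero_iff.2 hz3), eqOn_refl _ _⟩
      have hv0 : Λ (ε • Ph z) ≠ 0 := by
        intro h1
        have h2 : ε • Ph z = 0 := Λ.map_eq_zero_iff.1 h1
        have h3 : Ph z = 0 := (smul_eq_zero.1 h2).resolve_left hε.ne'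
        have h4 : Ph' (Ph z) = Ph' 0 := by rw [h3]
        rw [Ph_inv'] at h4
        refine hz0 (h4.trans ?_)
        unfold Ph'
        simp
      obtain ⟨s1, s2⟩ := g3 z hz0 hz3
      have hev : (fun z => g (Ψ z)) =ᶠ[𝓝 z] G := t1 z hz3
      refine ⟨?_, ?_, ?_, ?_⟩
      · rw [hΨ]
        exact n2
      · rw [hΨ]
        have e1 : (fun z => f (Ψ0 z)) = F := hF.symm
        exact Df_ne (hLD0 _ n1) (by rw [e1]; exact n3.differentiableAt (by simp))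
          (by rw [e1]; exact n4 hv0)
      · exact sm_of hLD (s1.congr_of_eventuallyEq hev)
      · refine Df_ne hLD ((s1.congr_of_eventuallyEq hev).differentiableAt (by simp)) ?_
        rw [hev.fderiv_eq]
        exact s2
    · right
      exact t2 x fun z hz hzx => hxz ⟨z, hz, hzx⟩

/-- **Removing finitely many saddles.** -/
theorem remove {η : ℝ → ℝ} {κ : ℝ} (hη : Gauge η κ)
    (hη' : Tendsto (fun r => η r / r) (𝓝[>] 0) (𝓝 0)) {f : X → ℝ} (S : Finset X) :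
    ∀ U : Set X, IsOpen U → (↑S ⊆ U) → (∀ x ∈ U, Sm (Ek k) f x) → (∀ p ∈ S, Saddle (Ek k) f p) →
    ∃ g : X → ℝ, (∀ p ∈ S, Good (Ek k) η g p) ∧ ∀ x, x ∉ S →
      (x ∈ U ∧ Df (Ek k) f x ≠ 0 ∧ Sm (Ek k) g x ∧ Df (Ek k) g x ≠ 0) ∨ g =ᶠ[𝓝 x] f := by
  classical
  induction S using Finset.induction_on with
  | empty =>
    intro U _ _ _ _
    exact ⟨f, fun p hp => absurd hp (Finset.notMem_empty p), fun x _ => Or.inr EventuallyEq.rfl⟩
  | insert p S hp ih =>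
    intro U hU hSU hf hs
    have hpU : p ∈ U := hSU (Finset.mem_insert_self p S)
    obtain ⟨g', h1, h2⟩ := ih (U \ {p}) (hU.sdiff isClosed_singleton)
      (fun x hx => ⟨hSU (Finset.mem_insert_of_mem hx), fun hxp => hp (by
        have : x = p := hxp
        rw [← this]
        exact hx)⟩) (fun x hx => hf x hx.1)
      (fun x hx => hs x (Finset.mem_insert_of_mem hx))
    have hg'p : g' =ᶠ[𝓝 p] f := by
      rcases h2 p hp with h | h
      · exact absurd rfl h.1.2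
      · exact h
    have hSm : ∀ᶠ x in 𝓝 p, Sm (Ek k) g' x := by
      filter_upwards [hg'p.eventually_nhds, hU.mem_nhds hpU] with x h3 h4
      exact (hf x h4).congr_of_eventuallyEq h3
    have hSad : Saddle (Ek k) g' p := by
      have h3 := hs p (Finset.mem_insert_self p S)
      unfold Saddle
      rw [Df_congr hg'p, Hs_congr hg'p]
      exact h3
    have hV : {x | g' =ᶠ[𝓝 x] f ∧ x ∈ U ∧ x ∉ S} ∈ 𝓝 p := by
      have h3 : ∀ᶠ x in 𝓝 p, x ∉ S :=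
        (S.finite_toSet.isClosed.isOpen_compl).mem_nhds (by simpa using hp)
      filter_upwards [hg'p.eventually_nhds, hU.mem_nhds hpU, h3] with x h4 h5 h6
      exact ⟨h4, h5, h6⟩
    obtain ⟨g, h3, h4⟩ := remove_one hη hη' hSm hSad hV
    refine ⟨g, ?_, ?_⟩
    · intro x hx
      rcases Finset.mem_insert.1 hx with h5 | h5
      · rw [h5]
        exact h3
      · have hxp : x ≠ p := by
          rintro rfl
          exact hp h5
        rcases h4 x hxp with h6 | h6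
        · exact absurd h5 h6.1.2.2
        · exact (h1 x h5).congr h6
    · intro x hx
      have hxp : x ≠ p := fun h => hx (Finset.mem_insert.2 (Or.inl h))
      have hxS : x ∉ S := fun h => hx (Finset.mem_insert_of_mem h)
      rcases h4 x hxp with ⟨⟨h5, h6, -⟩, h7, h8, h9⟩ | h5
      · left
        refine ⟨h6, ?_, h8, h9⟩
        rwa [Df_congr h5] at h7
      · rcases h2 x hxS with ⟨h6, h7, h8, h9⟩ | h6
        · left
          refine ⟨h6.1, h7, h8.congr_of_eventuallyEq h5, ?_⟩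
          rw [Df_congr h5]
          exact h9
        · right
          exact h5.trans h6

end Pool.Agent.H816.Mo
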