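import Pool.Agent.H816.Mo10

/-!
# Smoothing regular singular points of the second kind
-/

set_option autoImplicit false
set_option linter.unusedSectionVars false

open Set Filter Topology Metric Function Module
open scoped ContDiff Manifold

noncomputable section

namespace Pool.Agent.H816.Mo

open Pool.Agent.H816 Pool.Agent.H816.Fam

variable {E : Type*} [NormedAddCommGroup E] [NormedSpace ℝ E]

/-- singularities of the second kind -/
def LittleO (η : ℝ → ℝ) (h : E → ℝ) : Prop :=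
  (∃ T : E → ℝ, Cont η h T) ∧ (∀ᶠ z in 𝓝[≠] (0 : E), ContDiffAt ℝ 2 h z) ∧
    Tendsto (fun z => ‖iteratedFDeriv ℝ 2 h z‖ * η ‖z‖) (𝓝[≠] (0 : E)) (𝓝 0)

theorem LittleO.congr {η : ℝ → ℝ} {h h' : E → ℝ} (hh : LittleO η h) (he : h' =ᶠ[𝓝 0] h) :
    LittleO η h' := by
  obtain ⟨⟨T, hT⟩, h2, h3⟩ := hh
  refine ⟨⟨T, hT.congr he⟩, ?_, h3.congr' ?_⟩
  · filter_upwards [h2, nhdsWithin_le_nhds he.eventually_nhds] with z h4 h5
    exact h4.congr_of_eventuallyEq h5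
  · filter_upwards [nhdsWithin_le_nhds (he.iteratedFDeriv (𝕜 := ℝ) 2)] with z h6
    rw [h6]

theorem InC_congr {X : Type*} [TopologicalSpace X] [ChartedSpace E X] {P : (E → ℝ) → Prop}
    (hP : ∀ h h' : E → ℝ, P h → h' =ᶠ[𝓝 0] h → P h') {g g' : X → ℝ} {p : X} (h : InC E P g p)
    (he : g' =ᶠ[𝓝 p] g) : InC E P g' p := by
  obtain ⟨A, hA0, hA, hPA⟩ := h
  refine ⟨A, hA0, hA, hP _ _ hPA ?_⟩
  have hc : Tendsto A (𝓝 0) (𝓝 p) := by
    have := hA.contMDiffAt.continuousAt.tendsto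
    rwa [hA0] at this
  exact hc.eventually he

variable [FiniteDimensional ℝ E]

/-- the local smoothing -/
theorem smooth_loc {η : ℝ → ℝ} {κ : ℝ} (hη : Gauge η κ)
    (hη' : Tendsto (deriv η) (𝓝[>] 0) (𝓝 0)) {h : E → ℝ}
    (hh : ∀ᶠ z in 𝓝[≠] (0 : E), ContDiffAt ℝ ∞ h z) (hL : LittleO η h) {N : Set E}
    (hN : N ∈ 𝓝 (0 : E)) : ∃ (ρ : ℝ) (G : E → ℝ), 0 < ρ ∧ ball 0 (3 * ρ) ⊆ N ∧
      (∀ z, 2 * ρ ≤ ‖z‖ → ‖z‖ < 3 * ρ → G z = h z) ∧
      (∀ z, ‖z‖ < 3 * ρ → ContDiffAt ℝ ∞ G z ∧ fderiv ℝ G z ≠ 0) ∧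
      ∀ z, z ≠ 0 → ‖z‖ < 3 * ρ → ContDiffAt ℝ ∞ h z ∧ fderiv ℝ h z ≠ 0 := by
  obtain ⟨⟨T, hTs, hT0, -, C, hC⟩, h2, h3⟩ := hL
  obtain ⟨W, hW⟩ : ∃ W : E → ℝ, W = fun z => h z - T z := ⟨_, rfl⟩
  have hT2 : ∀ᶠ z in 𝓝[≠] (0 : E), ContDiffAt ℝ 2 T z :=
    nhdsWithin_le_nhds (hTs.mono fun z hz => hz.of_le (WithTop.coe_le_coe.2 le_top))
  have hW2 : ∀ᶠ z in 𝓝[≠] (0 : E), ContDiffAt ℝ 2 W z := by
    filter_upwards [h2, hT2] with z k1 k2
    rw [hW]
    exact k1.sub k2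
  have hIoo : ∀ᶠ r in 𝓝[>] (0 : ℝ), r ∈ Ioo 0 κ := Ioo_mem_nhdsGT hη.κ_pos
  have hpos : ∀ᶠ r in 𝓝[>] (0:ℝ), 0 < η r := hIoo.mono fun r hr => hη.pos r hr.1 hr.2
  have hdiff : ∀ᶠ r in 𝓝[>] (0:ℝ), DifferentiableAt ℝ η r :=
    hIoo.mono fun r hr => (hη.smooth r hr.1 hr.2).differentiableAt (by simp)
  have hWt : Tendsto (fun z => ‖iteratedFDeriv ℝ 2 W z‖ * η ‖z‖) (𝓝[≠] (0 : E)) (𝓝 0) := by
    have t1 : Tendsto (fun z : E => η ‖z‖) (𝓝[≠] 0) (𝓝 0) := hη.tend.comp tendsto_norm_punctured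
    have t2 : Tendsto (fun z : E => ‖iteratedFDeriv ℝ 2 T z‖) (𝓝[≠] 0)
        (𝓝 ‖iteratedFDeriv ℝ 2 T 0‖) := by
      have : ContinuousAt (iteratedFDeriv ℝ 2 T) 0 :=
        hTs.self_of_nhds.continuousAt_iteratedFDeriv (WithTop.coe_le_coe.2 le_top)
      exact (this.norm).mono_left nhdsWithin_le_nhds
    have t3 := t2.mul t1
    rw [mul_zero] at t3
    have t4 := h3.add t3
    rw [add_zero] at t4
    refine squeeze_zero' ?_ ?_ t4
    · filter_upwards [(tendsto_norm_punctured (V := E)).eventually hpos] with z hz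
      exact mul_nonneg (norm_nonneg _) hz.le
    · filter_upwards [h2, hT2, (tendsto_norm_punctured (V := E)).eventually hpos] with z k1 k2 hz
      have e1 : iteratedFDeriv ℝ 2 W z = iteratedFDeriv ℝ 2 h z - iteratedFDeriv ℝ 2 T z := by
        rw [hW]
        exact iteratedFDeriv_sub_apply (f := h) (g := T) (by exact_mod_cast k1)
          (by exact_mod_cast k2)
      rw [e1, ← add_mul]
      exact mul_le_mul_of_nonneg_right (norm_sub_le _ _) hz.le
  have hC' : ∀ᶠ z in 𝓝[≠] (0 : E), ‖W z‖ ≤ C * η ‖z‖ := by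
    filter_upwards [hC] with z hz
    rw [hW]
    exact hz
  have hW3 := fderiv_tendsto0 hη.tend hpos hdiff hη' hW2 hC' hWt
  obtain ⟨μ, hμ⟩ : ∃ μ, μ = ‖fderiv ℝ T 0‖ / 8 := ⟨_, rfl⟩
  have hT0' : 0 < ‖fderiv ℝ T 0‖ := norm_pos_iff.2 hT0
  have hμ0 : 0 < μ := by rw [hμ]; positivity
  obtain ⟨Λ, hΛ0, hχ⟩ := exists_cutoff' (V := E)
  -- the radii
  obtain ⟨r1, hr1, hTs'⟩ : ∃ R : ℝ, 0 < R ∧ ∀ z : E, ‖z‖ < R →
      (ContDiffAt ℝ ∞ T z ∧ ‖fderiv ℝ T z - fderiv ℝ T 0‖ < μ) ∧ z ∈ N := by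
    have k1 : ContinuousAt (fderiv ℝ T) 0 :=
      (hTs.self_of_nhds.fderiv_right (m := 0) (by simp)).continuousAt
    have k2 : ∀ᶠ z in 𝓝 (0 : E), ‖fderiv ℝ T z - fderiv ℝ T 0‖ < μ := by
      have : Tendsto (fun z => ‖fderiv ℝ T z - fderiv ℝ T 0‖) (𝓝 0)
          (𝓝 ‖fderiv ℝ T 0 - fderiv ℝ T 0‖) :=
        (Tendsto.sub (k1 : Tendsto (fderiv ℝ T) (𝓝 0) (𝓝 (fderiv ℝ T 0)))
          (tendsto_const_nhds (x := fderiv ℝ T 0))).norm
      rw [sub_self, norm_zero] at this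
      exact this.eventually_lt_const hμ0
    obtain ⟨R, hR, hR'⟩ := Metric.eventually_nhds_iff.1 ((hTs.and k2).and hN)
    exact ⟨R, hR, fun z hz => hR' (by rwa [dist_zero_right])⟩
  obtain ⟨r2, hr2, hws⟩ := exists_punctured (hC'.and ((hW3.eventually_lt_const hμ0).and hh))
  obtain ⟨r3, hr3, -, hlin⟩ := small_lin hη.tend hdiff hη' (ε := μ / (2 * ((Λ + 1) * (|C| + 1))))
    (by positivity)
  obtain ⟨ρ, hρ, hρ1, hρ2, hρ3⟩ : ∃ ρ : ℝ, 0 < ρ ∧ 3 * ρ ≤ r1 ∧ 3 * ρ ≤ r2 ∧ 3 * ρ ≤ r3 := by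
    refine ⟨min r1 (min r2 r3) / 3, by positivity, ?_, ?_, ?_⟩
    · have := min_le_left r1 (min r2 r3)
      linarith
    · have := (min_le_right r1 (min r2 r3)).trans (min_le_left _ _)
      linarith
    · have := (min_le_right r1 (min r2 r3)).trans (min_le_right _ _)
      linarith
  obtain ⟨χ, c1, c2, c3, c4, c5, c6⟩ := hχ ρ hρ
  obtain ⟨G, hG⟩ : ∃ G : E → ℝ, G = fun z => T z + χ z • W z := ⟨_, rfl⟩
  have hd : ∀ z, z ≠ 0 → ‖z‖ < 3 * ρ → ContDiffAt ℝ ∞ W z := by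
    intro z hz hz3
    rw [hW]
    exact (hws z hz (hz3.trans_le hρ2)).2.2.sub (hTs' z (hz3.trans_le hρ1)).1.1
  have hne : ∀ L : E →L[ℝ] ℝ, ‖L - fderiv ℝ T 0‖ ≤ 3 * μ → L ≠ 0 := by
    intro L hL h0
    rw [h0, zero_sub, norm_neg] at hL
    rw [hμ] at hL
    linarith
  refine ⟨ρ, G, hρ, ?_, ?_, ?_, ?_⟩
  · intro z hz
    exact (hTs' z ((mem_ball_zero_iff.1 hz).trans_le hρ1)).2
  · intro z hz2 hz3
    rw [hG, hW]
    show T z + χ z • (h z - T z) = h z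
    rw [c4 z hz2, one_smul]
    ring
  · intro z hz3
    obtain ⟨⟨k1, k2⟩, -⟩ := hTs' z (hz3.trans_le hρ1)
    rcases lt_or_ge ‖z‖ ρ with hzρ | hzρ
    · have e1 : G =ᶠ[𝓝 z] T := by
        filter_upwards [(continuous_norm.tendsto z).eventually_lt_const hzρ] with y hy
        rw [hG]
        show T y + χ y • W y = T y
        rw [c3 y hy.le, zero_smul, add_zero]
      refine ⟨k1.congr_of_eventuallyEq e1, hne _ ?_⟩
      rw [e1.fderiv_eq]
      linarith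
    · have hz0 : z ≠ 0 := norm_pos_iff.1 (by linarith)
      obtain ⟨k3, k4, -⟩ := hws z hz0 (hz3.trans_le hρ2)
      have hWz := hd z hz0 hz3
      refine ⟨?_, hne _ ?_⟩
      · rw [hG]
        exact k1.add (c1.contDiffAt.smul hWz)
      · have hη1 : ‖fderiv ℝ χ z‖ * ‖W z‖ ≤ μ := by
          by_cases hz2 : 2 * ρ < ‖z‖
          · rw [c6 z hz2, norm_zero, zero_mul]
            exact hμ0.le
          · have hz2' := not_lt.1 hz2
            have k5 := hlin ‖z‖ (norm_pos_iff.2 hz0) (hz3.trans_le hρ3)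
            have k6 : ‖W z‖ ≤ |C| * |η ‖z‖| := by
              refine k3.trans ?_
              rw [← abs_mul]
              exact le_abs_self _
            have k7 : ‖W z‖ ≤ |C| * (μ / (2 * ((Λ + 1) * (|C| + 1))) * (2 * ρ)) := by
              refine k6.trans (mul_le_mul_of_nonneg_left (k5.trans ?_) (abs_nonneg _))
              exact mul_le_mul_of_nonneg_left hz2' (by positivity)
            calc ‖fderiv ℝ χ z‖ * ‖W z‖ ≤ Λ / ρ *
                  (|C| * (μ / (2 * ((Λ + 1) * (|C| + 1))) * (2 * ρ))) :=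
                mul_le_mul (c5 z) k7 (norm_nonneg _) (by positivity)
              _ = μ * ((Λ / (Λ + 1)) * (|C| / (|C| + 1))) := by
                field_simp
              _ ≤ μ * 1 := by
                refine mul_le_mul_of_nonneg_left ?_ hμ0.le
                refine mul_le_one₀ ?_ (by positivity) ?_
                · rw [div_le_one (by positivity)]
                  linarith
                · rw [div_le_one (by positivity)]
                  linarith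
              _ = μ := mul_one μ
        have := (cut_bound (T := T) (w := W) (χ := χ) (z := z) (L := fderiv ℝ T 0) (μ := μ)
          (Λ := μ) (k1.differentiableAt (by simp)) (hWz.differentiableAt (by simp))
          ((c1.differentiable (by simp)) z) (c2 z) k2.le k4.le hη1).2
        rw [hG]
        linarith
  · intro z hz0 hz3
    obtain ⟨⟨k1, k2⟩, -⟩ := hTs' z (hz3.trans_le hρ1)
    obtain ⟨-, k4, k5⟩ := hws z hz0 (hz3.trans_le hρ2)
    refine ⟨k5, hne _ ?_⟩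
    have hWz := hd z hz0 hz3
    have e1 : h = fun z => T z + W z := by
      rw [hW]
      funext y
      show h y = T y + (h y - T y)
      ring
    have e2 : fderiv ℝ h z = fderiv ℝ T z + fderiv ℝ W z := by
      rw [e1]
      exact ((k1.differentiableAt (by simp)).hasFDerivAt.add
        (hWz.differentiableAt (by simp)).hasFDerivAt).fderiv
    rw [e2]
    have e3 : fderiv ℝ T z + fderiv ℝ W z - fderiv ℝ T 0 =
      (fderiv ℝ T z - fderiv ℝ T 0) + fderiv ℝ W z := by abel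
    rw [e3]
    refine (norm_add_le _ _).trans ?_
    linarith

variable {X : Type*} [TopologicalSpace X] [ChartedSpace E X] [T2Space X]

theorem smooth_one {η : ℝ → ℝ} {κ : ℝ} (hη : Gauge η κ)
    (hη' : Tendsto (deriv η) (𝓝[>] 0) (𝓝 0)) {g : X → ℝ} {p : X}
    (hg : ∀ᶠ x in 𝓝[≠] p, Sm E g x) (hp : InC E (LittleO η) g p) {U : Set X} (hU : U ∈ 𝓝 p) :
    ∃ f : X → ℝ, (Sm E f p ∧ Df E f p ≠ 0) ∧ ∀ x, x ≠ p →
      (x ∈ U ∧ Df E g x ≠ 0 ∧ Sm E f x ∧ Df E f x ≠ 0) ∨ f =ᶠ[𝓝 x] g := by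
  obtain ⟨A, hA0, ⟨Φ, h0s, hΦ⟩, hL⟩ := hp
  have hΦ0 : Φ 0 = p := by rw [← hΦ h0s]; exact hA0
  have hLD : ∀ z ∈ Φ.source, IsLocalDiffeomorphAt 𝓘(ℝ, E) 𝓘(ℝ, E) ∞ Φ z :=
    fun v hv => ⟨Φ, hv, eqOn_refl _ _⟩
  have ht0 : Tendsto Φ (𝓝 0) (𝓝 p) := by
    have := (hLD 0 h0s).contMDiffAt.continuousAt.tendsto
    rwa [hΦ0] at this
  have hsrc : ∀ᶠ z in 𝓝 (0 : E), z ∈ Φ.source := Φ.open_source.mem_nhds h0s
  obtain ⟨h, hh⟩ : ∃ h : E → ℝ, h = fun z => g (Φ z) := ⟨_, rfl⟩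
  have hL' : LittleO η h := by
    refine hL.congr ?_
    filter_upwards [hsrc] with z hz
    rw [hh]
    show g (Φ z) = g (A z)
    rw [hΦ hz]
  have hhs : ∀ᶠ z in 𝓝[≠] (0 : E), ContDiffAt ℝ ∞ h z := by
    have h1 : ∀ᶠ z in 𝓝 (0 : E), Φ z ≠ p → Sm E g (Φ z) :=
      ht0.eventually (eventually_nhdsWithin_iff.1 hg)
    rw [eventually_nhdsWithin_iff]
    filter_upwards [h1, hsrc] with z h2 h3 h4
    have h5 : Φ z ≠ p := by
      intro h6
      rw [← hΦ0] at h6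
      exact h4 (Φ.injOn h3 h0s h6)
    have h6 : ContMDiffAt 𝓘(ℝ, E) 𝓘(ℝ, ℝ) ∞ (g ∘ Φ) z :=
      ContMDiffAt.comp z (h2 h5) (hLD z h3).contMDiffAt
    rw [hh]
    exact h6.contDiffAt
  have hN : {z | z ∈ Φ.source ∧ Φ z ∈ U} ∈ 𝓝 (0 : E) := hsrc.and (ht0.eventually hU)
  obtain ⟨ρ, G, hρ, g1, g2, g3, g4⟩ := smooth_loc hη hη' hhs hL' hN
  obtain ⟨f, t1, t2⟩ := transplant Φ hρ (fun z hz => (g1 hz).1) g G (fun z h1 h2 => by
    rw [g2 z h1 h2, hh])
  have hfz : ∀ z, ‖z‖ < 3 * ρ → Sm E f (Φ z) ∧ Df E f (Φ z) ≠ 0 := by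
    intro z hz
    obtain ⟨h1, h2⟩ := g3 z hz
    have h3 := (g1 (mem_ball_zero_iff.2 hz)).1
    have hev : (fun z => f (Φ z)) =ᶠ[𝓝 z] G := t1 z hz
    refine ⟨sm_of (hLD z h3) (h1.congr_of_eventuallyEq hev),
      Df_ne (hLD z h3) ((h1.congr_of_eventuallyEq hev).differentiableAt (by simp)) ?_⟩
    rw [hev.fderiv_eq]
    exact h2
  refine ⟨f, ?_, ?_⟩
  · have := hfz 0 (by rw [norm_zero]; positivity)
    rwa [hΦ0] at this
  · intro x hx
    by_cases hxz : ∃ z, ‖z‖ ≤ 2 * ρ ∧ Φ z = x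
    · left
      obtain ⟨z, hz, rfl⟩ := hxz
      have hz0 : z ≠ 0 := by
        rintro rfl
        exact hx hΦ0
      have hz3 : ‖z‖ < 3 * ρ := by linarith
      obtain ⟨n1, n2⟩ := g1 (mem_ball_zero_iff.2 hz3)
      obtain ⟨s1, s2⟩ := g4 z hz0 hz3
      obtain ⟨s3, s4⟩ := hfz z hz3
      refine ⟨n2, ?_, s3, s4⟩
      refine Df_ne (hLD z n1) ?_ ?_
      · rw [← hh]
        exact s1.differentiableAt (by simp)
      · rw [← hh]
        exact s2
    · right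
      exact t2 x fun z hz hzx => hxz ⟨z, hz, hzx⟩

/-- **Smoothing finitely many singular points of the second kind.** -/
theorem smoothing {η : ℝ → ℝ} {κ : ℝ} (hη : Gauge η κ)
    (hη' : Tendsto (deriv η) (𝓝[>] 0) (𝓝 0)) {g : X → ℝ} (S : Finset X) :
    ∀ U : Set X, IsOpen U → (↑S ⊆ U) → (∀ x ∈ U, x ∉ S → Sm E g x) →
    (∀ p ∈ S, InC E (LittleO η) g p) →
    ∃ f : X → ℝ, (∀ p ∈ S, Sm E f p ∧ Df E f p ≠ 0) ∧ ∀ x, x ∉ S →
      (x ∈ U ∧ Df E g x ≠ 0 ∧ Sm E f x ∧ Df E f x ≠ 0) ∨ f =ᶠ[𝓝 x] g := by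
  classical
  induction S using Finset.induction_on generalizing g with
  | empty =>
    intro U _ _ _ _
    exact ⟨g, fun p hp => absurd hp (Finset.notMem_empty p), fun x _ => Or.inr EventuallyEq.rfl⟩
  | insert p S hp ih =>
    intro U hU hSU hf hs
    have hpU : p ∈ U := hSU (Finset.mem_insert_self p S)
    have hV : U ∩ {x | x ∉ S} ∈ 𝓝 p :=
      inter_mem (hU.mem_nhds hpU) ((S.finite_toSet.isClosed.isOpen_compl).mem_nhds
        (by simpa using hp))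
    have hg1 : ∀ᶠ x in 𝓝[≠] p, Sm E g x := by
      rw [eventually_nhdsWithin_iff]
      filter_upwards [hV] with x hx hxp
      refine hf x hx.1 fun h => ?_
      rcases Finset.mem_insert.1 h with h1 | h1
      · exact hxp h1
      · exact hx.2 h1
    obtain ⟨g', h1, h2⟩ := smooth_one hη hη' hg1 (hs p (Finset.mem_insert_self p S)) hV
    have hg'S : ∀ x ∈ S, g' =ᶠ[𝓝 x] g := by
      intro x hx
      have hxp : x ≠ p := by
        rintro rfl
        exact hp hx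
      rcases h2 x hxp with h | h
      · exact absurd hx h.1.2
      · exact h
    obtain ⟨f, h3, h4⟩ := ih (g := g') (U \ {p}) (hU.sdiff isClosed_singleton)
      (fun x hx => ⟨hSU (Finset.mem_insert_of_mem hx), fun hxp => hp (by
        have : x = p := hxp
        rw [← this]
        exact hx)⟩) (fun x hx hxS => by
          rcases h2 x hx.2 with h | h
          · exact h.2.2.1
          · exact (hf x hx.1 (fun h5 => by
              rcases Finset.mem_insert.1 h5 with h6 | h6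
              · exact hx.2 h6
              · exact hxS h6)).congr_of_eventuallyEq h)
      (fun x hx => InC_congr (fun _ _ => LittleO.congr) (hs x (Finset.mem_insert_of_mem hx))
        (hg'S x hx))
    refine ⟨f, ?_, ?_⟩
    · intro x hx
      rcases Finset.mem_insert.1 hx with h5 | h5
      · subst h5
        rcases h4 x hp with h6 | h6
        · exact absurd rfl h6.1.2
        · refine ⟨h1.1.congr_of_eventuallyEq h6, ?_⟩
          rw [Df_congr h6]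
          exact h1.2
      · exact h3 x h5
    · intro x hx
      have hxp : x ≠ p := fun h => hx (Finset.mem_insert.2 (Or.inl h))
      have hxS : x ∉ S := fun h => hx (Finset.mem_insert_of_mem h)
      rcases h4 x hxS with ⟨h5, h6, h7, h8⟩ | h5
      · left
        refine ⟨h5.1, ?_, h7, h8⟩
        rcases h2 x hxp with h9 | h9
        · exact h9.2.1
        · rwa [Df_congr h9] at h6
      · rcases h2 x hxp with ⟨h6, h7, h8, h9⟩ | h6
        · left
          refine ⟨h6.1, h7, h8.congr_of_eventuallyEq h5, ?_⟩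
          rw [Df_congr h5]
          exact h9
        · right
          exact h5.trans h6

end Pool.Agent.H816.Mo
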