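import Pool.Agent.H816.Mo11
import Pool.Graph.R_pool_sql_team_seeded_64922ed1.X84.Fm.Sard

/-!
# Existence of Morse functions

Adapted from `X84.Fl.Morse` and `X84.Fm.Nd` of the library.
-/

set_option autoImplicit false
set_option linter.unusedSectionVars false

open Set Filter Topology Metric Function Module MeasureTheory
open scoped ContDiff Manifold

noncomputable section

namespace Pool.Agent.H816.Mo

open Pool.Agent.X84.Fm

variable {E : Type*} [NormedAddCommGroup E] [NormedSpace ℝ E] [FiniteDimensional ℝ E]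
  {X : Type*} [TopologicalSpace X] [ChartedSpace E X] [IsManifold 𝓘(ℝ, E) ∞ X]

/-- derivative in the chart at `c` -/
def cd (c : X) (q : X → ℝ) (u : E) : E →L[ℝ] ℝ :=
  fderiv ℝ (q ∘ (extChartAt 𝓘(ℝ, E) c).symm) u

theorem chart_smooth (c : X) {q : X → ℝ} (hq : ContMDiff 𝓘(ℝ, E) 𝓘(ℝ, ℝ) ∞ q) :
    ContDiffOn ℝ ∞ (q ∘ (extChartAt 𝓘(ℝ, E) c).symm) (extChartAt 𝓘(ℝ, E) c).target := by
  rw [← contMDiffOn_iff_contDiffOn]
  exact hq.comp_contMDiffOn (contMDiffOn_extChartAt_symm c)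

theorem cd_smooth (c : X) {q : X → ℝ} (hq : ContMDiff 𝓘(ℝ, E) 𝓘(ℝ, ℝ) ∞ q) :
    ContDiffOn ℝ 1 (cd (E := E) c q) (extChartAt 𝓘(ℝ, E) c).target :=
  (chart_smooth c hq).fderiv_of_isOpen (isOpen_extChartAt_target c) (by norm_cast)

theorem chart_diff (c : X) {q : X → ℝ} (hq : ContMDiff 𝓘(ℝ, E) 𝓘(ℝ, ℝ) ∞ q) {u : E}
    (hu : u ∈ (extChartAt 𝓘(ℝ, E) c).target) :
    DifferentiableAt ℝ (q ∘ (extChartAt 𝓘(ℝ, E) c).symm) u :=
  (((chart_smooth c hq).differentiableOn (by simp)) u hu).differentiableAt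
    ((isOpen_extChartAt_target c).mem_nhds hu)

variable {S : Type*} [Fintype S]

/-- perturbed function -/
def pf (h : X → ℝ) (g : S → X → ℝ) (a : S → ℝ) (x : X) : ℝ := h x + ∑ s, a s * g s x

theorem pf_smooth {h : X → ℝ} (hh : ContMDiff 𝓘(ℝ, E) 𝓘(ℝ, ℝ) ∞ h) {g : S → X → ℝ}
    (hg : ∀ s, ContMDiff 𝓘(ℝ, E) 𝓘(ℝ, ℝ) ∞ (g s)) (a : S → ℝ) :
    ContMDiff 𝓘(ℝ, E) 𝓘(ℝ, ℝ) ∞ (pf h g a) := by
  have h1 : ContMDiff 𝓘(ℝ, E) 𝓘(ℝ, ℝ) ∞ (fun x => ∑ s, a s * g s x) := by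
    have : ∀ s ∈ (Finset.univ : Finset S), ContMDiff 𝓘(ℝ, E) 𝓘(ℝ, ℝ) ∞ (fun x => a s * g s x) :=
      fun s _ => contMDiff_const.mul (hg s)
    exact ContMDiff.sum (t := Finset.univ) this
  exact hh.add h1

theorem cd_pf (c : X) {h : X → ℝ} (hh : ContMDiff 𝓘(ℝ, E) 𝓘(ℝ, ℝ) ∞ h) {g : S → X → ℝ}
    (hg : ∀ s, ContMDiff 𝓘(ℝ, E) 𝓘(ℝ, ℝ) ∞ (g s)) (a : S → ℝ) {u : E}
    (hu : u ∈ (extChartAt 𝓘(ℝ, E) c).target) :
    cd c (pf h g a) u = cd c h u + ∑ s, a s • cd c (g s) u := by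
  have h1 : (pf h g a) ∘ (extChartAt 𝓘(ℝ, E) c).symm = fun v =>
      (h ∘ (extChartAt 𝓘(ℝ, E) c).symm) v + ∑ s, a s * (g s ∘ (extChartAt 𝓘(ℝ, E) c).symm) v := rfl
  have h2 : HasFDerivAt (fun v => (h ∘ (extChartAt 𝓘(ℝ, E) c).symm) v +
      ∑ s, a s * (g s ∘ (extChartAt 𝓘(ℝ, E) c).symm) v)
      (cd c h u + ∑ s, a s • cd c (g s) u) u := by
    refine (chart_diff c hh hu).hasFDerivAt.add ?_
    exact HasFDerivAt.fun_sum fun s _ => ((chart_diff c (hg s) hu).hasFDerivAt.const_mul (a s))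
  unfold cd at h2 ⊢
  rw [h1]
  exact h2.fderiv

variable [T2Space X] {ι : Type*} [Fintype ι] (f : SmoothBumpCovering ι 𝓘(ℝ, E) X)

/-- coordinates -/
def co (E : Type*) [NormedAddCommGroup E] [NormedSpace ℝ E] [FiniteDimensional ℝ E]
    (k : Fin (finrank ℝ E)) : E →L[ℝ] ℝ :=
  LinearMap.toContinuousLinearMap ((Module.finBasis ℝ E).coord k)

theorem sum_co (β : E →L[ℝ] ℝ) : ∑ k, β (Module.finBasis ℝ E k) • co E k = β := by
  ext x
  rw [sum_apply]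
  conv_rhs => rw [← (Module.finBasis ℝ E).sum_repr x, map_sum]
  refine Finset.sum_congr rfl fun k _ => ?_
  rw [smul_apply, map_smul, smul_eq_mul, smul_eq_mul, mul_comm]
  rfl

/-- the family of functions -/
def fam (s : ι × Fin (finrank ℝ E)) (x : X) : ℝ :=
  co E s.2 (f s.1 x • extChartAt 𝓘(ℝ, E) (f.c s.1) x)

theorem fam_smooth (s : ι × Fin (finrank ℝ E)) : ContMDiff 𝓘(ℝ, E) 𝓘(ℝ, ℝ) ∞ (fam f s) :=
  (co E s.2).contMDiff.comp ((f s.1).contMDiff_smul contMDiffOn_extChartAt)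

/-- the set where the bump function is locally one -/
def Ob (i : ι) : Set X := interior {x | f i x = 1}

/-- in the chart -/
def Ub (i : ι) : Set E :=
  (extChartAt 𝓘(ℝ, E) (f.c i)).target ∩ (extChartAt 𝓘(ℝ, E) (f.c i)).symm ⁻¹' Ob f i

theorem Ub_open (i : ι) : IsOpen (Ub f i) :=
  (continuousOn_extChartAt_symm (I := 𝓘(ℝ, E)) (f.c i)).isOpen_inter_preimage
    (isOpen_extChartAt_target _) isOpen_interior

theorem cd_fam (i : ι) (k : Fin (finrank ℝ E)) {u : E} (hu : u ∈ Ub f i) :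
    cd (f.c i) (fam f (i, k)) u = co E k := by
  unfold cd
  have h1 : (fam f (i, k)) ∘ (extChartAt 𝓘(ℝ, E) (f.c i)).symm =ᶠ[𝓝 u] co E k := by
    filter_upwards [(Ub_open f i).mem_nhds hu] with v hv
    have h2' : (extChartAt 𝓘(ℝ, E) (f.c i)).symm v ∈ {x | f i x = 1} :=
      interior_subset (show (extChartAt 𝓘(ℝ, E) (f.c i)).symm v ∈ Ob f i from hv.2)
    have h2 : f i ((extChartAt 𝓘(ℝ, E) (f.c i)).symm v) = 1 := h2'
    show co E k (f i ((extChartAt 𝓘(ℝ, E) (f.c i)).symm v) •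
      extChartAt 𝓘(ℝ, E) (f.c i) ((extChartAt 𝓘(ℝ, E) (f.c i)).symm v)) = co E k v
    rw [h2, one_smul, (extChartAt 𝓘(ℝ, E) (f.c i)).right_inv hv.1]
  rw [h1.fderiv_eq]
  exact (co E k).fderiv

theorem exists_tau : Nonempty ((E →L[ℝ] ℝ) ≃L[ℝ] E) := by
  have hdim : Module.finrank ℝ (E →L[ℝ] ℝ) = Module.finrank ℝ E := by
    rw [← (LinearMap.toContinuousLinearMap (𝕜 := ℝ) (E := E) (F' := ℝ)).finrank_eq]
    exact (Subspace.dual_finrank_eq (K := ℝ) (V := E))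
  exact ⟨ContinuousLinearEquiv.ofFinrankEq hdim⟩

theorem local_nd (i : ι) {h : X → ℝ} (hh : ContMDiff 𝓘(ℝ, E) 𝓘(ℝ, ℝ) ∞ h) :
    ∀ᵐ a : ι × Fin (finrank ℝ E) → ℝ, ∀ u ∈ Ub f i, cd (f.c i) (pf h (fam f) a) u = 0 →
      ∀ w, fderiv ℝ (cd (E := E) (f.c i) (pf h (fam f) a)) u w = 0 → w = 0 := by
  classical
  obtain ⟨τ⟩ := exists_tau (E := E)
  set Φ : E × (ι × Fin (finrank ℝ E) → ℝ) → E := fun p =>
    τ (cd (f.c i) h p.1 + ∑ s, p.2 s • cd (f.c i) (fam f s) p.1) with hΦ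
  set L : E → (ι × Fin (finrank ℝ E) → ℝ) := fun b s =>
    if s.1 = i then τ.symm b (Module.finBasis ℝ E s.2) else 0 with hL
  have hs : ContDiffOn ℝ 1 Φ (Ub f i ×ˢ univ) := by
    have hsub : ∀ {q : X → ℝ}, ContMDiff 𝓘(ℝ, E) 𝓘(ℝ, ℝ) ∞ q →
        ContDiffOn ℝ 1 (fun p : E × (ι × Fin (finrank ℝ E) → ℝ) => cd (f.c i) q p.1)
          (Ub f i ×ˢ univ) := fun hq =>
      (cd_smooth (f.c i) hq).comp contDiff_fst.contDiffOn fun p hp => hp.1.1
    refine τ.contDiff.comp_contDiffOn ?_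
    refine (hsub hh).add ?_
    refine ContDiffOn.sum fun s _ => ?_
    have h4 : ContDiffOn ℝ 1 (fun p : E × (ι × Fin (finrank ℝ E) → ℝ) => p.2 s)
        (Ub f i ×ˢ univ) := ((contDiff_apply ℝ ℝ s).comp contDiff_snd).contDiffOn
    exact h4.smul (hsub (fam_smooth f s))
  have hlin : ∀ u ∈ Ub f i, ∀ a b, Φ (u, a + L b) = Φ (u, a) + b := by
    intro u hu a b
    have h1 : ∑ s, L b s • cd (f.c i) (fam f s) u = τ.symm b := by
      rw [Fintype.sum_prod_type, Finset.sum_eq_single i]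
      · conv_rhs => rw [← sum_co (τ.symm b)]
        refine Finset.sum_congr rfl fun k _ => ?_
        rw [cd_fam f i k hu]
        simp [hL]
      · intro j _ hj
        refine Finset.sum_eq_zero fun k _ => ?_
        simp [hL, hj]
      · intro h; exact absurd (Finset.mem_univ _) h
    simp only [hΦ, Pi.add_apply, add_smul, Finset.sum_add_distrib, h1]
    rw [← add_assoc, map_add, ContinuousLinearEquiv.apply_symm_apply]
  filter_upwards [generic_det volume (Ub_open f i) Φ hs L hlin] with a ha u hu h0 w hw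
  have h2 : ∀ v ∈ Ub f i, Φ (v, a) = τ (cd (f.c i) (pf h (fam f) a) v) := fun v hv => by
    rw [cd_pf (f.c i) hh (fam_smooth f) a hv.1]
  refine ha u hu (by rw [h2 u hu, h0, map_zero]) w ?_
  have h3 : (fun v => Φ (v, a)) =ᶠ[𝓝 u] fun v => τ (cd (f.c i) (pf h (fam f) a) v) := by
    filter_upwards [(Ub_open f i).mem_nhds hu] with v hv
    exact h2 v hv
  have h4 : DifferentiableAt ℝ (cd (E := E) (f.c i) (pf h (fam f) a)) u :=
    ((cd_smooth (f.c i) (pf_smooth hh (fam_smooth f) a)).differentiableOn (by simp) u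
      hu.1).differentiableAt ((isOpen_extChartAt_target (f.c i)).mem_nhds hu.1)
  have h5 : HasFDerivAt (fun v => τ (cd (f.c i) (pf h (fam f) a) v))
      ((τ : (E →L[ℝ] ℝ) →L[ℝ] E).comp (fderiv ℝ (cd (E := E) (f.c i) (pf h (fam f) a)) u)) u :=
    (τ : (E →L[ℝ] ℝ) →L[ℝ] E).hasFDerivAt.comp u h4.hasFDerivAt
  rw [h3.fderiv_eq, h5.fderiv]
  show τ (fderiv ℝ (cd (E := E) (f.c i) (pf h (fam f) a)) u w) = 0
  rw [hw, map_zero]

/-- Nondegeneracy in one chart implies nondegeneracy in all charts. -/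
theorem nondeg_charts {q : X → ℝ} (hq : ContMDiff 𝓘(ℝ, E) 𝓘(ℝ, ℝ) ∞ q) {c x : X}
    (hc : x ∈ (chartAt E c).source)
    (h : cd (E := E) c q (extChartAt 𝓘(ℝ, E) c x) = 0 →
      ∀ w, fderiv ℝ (cd (E := E) c q) (extChartAt 𝓘(ℝ, E) c x) w = 0 → w = 0)
    (h0 : Df E q x = 0) {v : E} (hv : ∀ w, Hs E q x v w = 0) : v = 0 := by
  have hle : (2 : WithTop ℕ∞) ≤ ∞ := WithTop.coe_le_coe.2 (le_top : (2 : ℕ∞) ≤ ⊤)
  set χ := chartAt E x with hχ
  set ψ := chartAt E c with hψ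
  have hx : x ∈ χ.source := mem_chart_source E x
  have htr : ∀ a b : X, x ∈ (chartAt E a).source → x ∈ (chartAt E b).source →
      ContDiffAt ℝ ∞ (fun w => chartAt E b ((chartAt E a).symm w)) (chartAt E a x) := by
    intro a b ha hb
    have k1 : ContMDiffAt 𝓘(ℝ, E) 𝓘(ℝ, E) ∞ (chartAt E a).symm (chartAt E a x) :=
      (contMDiffOn_chart_symm (I := 𝓘(ℝ, E)) (x := a)).contMDiffAt
        ((chartAt E a).open_target.mem_nhds ((chartAt E a).map_source ha))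
    have k2 : ContMDiffAt 𝓘(ℝ, E) 𝓘(ℝ, E) ∞ (chartAt E b) ((chartAt E a).symm (chartAt E a x)) := by
      rw [(chartAt E a).left_inv ha]
      exact (contMDiffOn_chart (I := 𝓘(ℝ, E)) (x := b)).contMDiffAt
        ((chartAt E b).open_source.mem_nhds hb)
    exact (k2.comp _ k1).contDiffAt
  have h1 : ContDiffAt ℝ ∞ (fun w => ψ (χ.symm w)) (χ x) := htr x c hx hc
  have h2 : ContDiffAt ℝ ∞ (fun w => χ (ψ.symm w)) (ψ x) := htr c x hc hx
  have hval : ψ (χ.symm (χ x)) = ψ x := by rw [χ.left_inv hx]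
  have h3 : ContDiffAt ℝ ∞ (fun w => q (ψ.symm w)) (ψ x) := by
    have k1 : ContMDiffAt 𝓘(ℝ, E) 𝓘(ℝ, E) ∞ ψ.symm (ψ x) :=
      (contMDiffOn_chart_symm (I := 𝓘(ℝ, E)) (x := c)).contMDiffAt
        (ψ.open_target.mem_nhds (ψ.map_source hc))
    exact (hq.contMDiffAt.comp _ k1).contDiffAt
  have k1 : (fun w => χ (ψ.symm w)) ∘ (fun w => ψ (χ.symm w)) =ᶠ[𝓝 (χ x)] id := by
    have k2 : ∀ᶠ w in 𝓝 (χ x), w ∈ χ.target := χ.open_target.mem_nhds (χ.map_source hx)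
    have k3 : ∀ᶠ w in 𝓝 (χ x), χ.symm w ∈ ψ.source := by
      apply (χ.continuousAt_symm (χ.map_source hx)).eventually
      rw [χ.left_inv hx]
      exact ψ.open_source.mem_nhds hc
    filter_upwards [k2, k3] with w hw1 hw2
    show χ (ψ.symm (ψ (χ.symm w))) = w
    rw [ψ.left_inv hw2, χ.right_inv hw1]
  have hinj : ∀ w, fderiv ℝ (fun w => ψ (χ.symm w)) (χ x) w = 0 → w = 0 := by
    intro w hw
    have k4 : HasFDerivAt ((fun w => χ (ψ.symm w)) ∘ (fun w => ψ (χ.symm w)))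
        ((fderiv ℝ (fun w => χ (ψ.symm w)) (ψ x)).comp
          (fderiv ℝ (fun w => ψ (χ.symm w)) (χ x))) (χ x) := by
      apply HasFDerivAt.comp
      · show HasFDerivAt _ _ (ψ (χ.symm (χ x)))
        rw [hval]
        exact (h2.differentiableAt (by simp)).hasFDerivAt
      · exact (h1.differentiableAt (by simp)).hasFDerivAt
    have k5 : HasFDerivAt ((fun w => χ (ψ.symm w)) ∘ (fun w => ψ (χ.symm w)))
        (ContinuousLinearMap.id ℝ E) (χ x) := (hasFDerivAt_id (χ x)).congr_of_eventuallyEq k1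
    have k6 := DFunLike.congr_fun (k4.unique k5) w
    have k7 : fderiv ℝ (fun w => χ (ψ.symm w)) (ψ x)
        (fderiv ℝ (fun w => ψ (χ.symm w)) (χ x) w) = w := k6
    rw [hw, map_zero] at k7
    exact k7.symm
  have hev : (fun w => q (χ.symm w)) =ᶠ[𝓝 (χ x)]
      (fun w => q (ψ.symm w)) ∘ (fun w => ψ (χ.symm w)) := by
    have k3 : ∀ᶠ w in 𝓝 (χ x), χ.symm w ∈ ψ.source := by
      apply (χ.continuousAt_symm (χ.map_source hx)).eventually
      rw [χ.left_inv hx]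
      exact ψ.open_source.mem_nhds hc
    filter_upwards [k3] with w hw
    show q (χ.symm w) = q (ψ.symm (ψ (χ.symm w)))
    rw [ψ.left_inv hw]
  -- the point is critical in the chart at `c`
  have hcrit : fderiv ℝ (fun w => q (ψ.symm w)) (ψ x) = 0 := by
    have k4 : HasFDerivAt ((fun w => q (ψ.symm w)) ∘ (fun w => ψ (χ.symm w)))
        ((fderiv ℝ (fun w => q (ψ.symm w)) (ψ x)).comp
          (fderiv ℝ (fun w => ψ (χ.symm w)) (χ x))) (χ x) := by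
      apply HasFDerivAt.comp
      · show HasFDerivAt _ _ (ψ (χ.symm (χ x)))
        rw [hval]
        exact (h3.differentiableAt (by simp)).hasFDerivAt
      · exact (h1.differentiableAt (by simp)).hasFDerivAt
    have k5 : fderiv ℝ (fun w => q (χ.symm w)) (χ x) = 0 := h0
    rw [hev.fderiv_eq, k4.fderiv] at k5
    have hi : Function.Injective ((fderiv ℝ (fun w => ψ (χ.symm w)) (χ x) : E →L[ℝ] E) :
        E →ₗ[ℝ] E) := by
      rw [injective_iff_map_eq_zero]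
      exact fun w hw => hinj w hw
    have hsurj := LinearMap.injective_iff_surjective.1 hi
    ext w
    obtain ⟨w', rfl⟩ := hsurj w
    exact DFunLike.congr_fun k5 w'
  have hv' : fderiv ℝ (fderiv ℝ fun w => q (χ.symm w)) (χ x) v = 0 := by
    ext w
    exact hv w
  rw [hev.fderiv.fderiv_eq] at hv'
  refine nondeg_change (g := fun w => q (ψ.symm w)) (φ := fun w => ψ (χ.symm w)) (u := χ x)
    ?_ (h1.of_le hle) hinj ?_ ?_ v hv'
  · show ContDiffAt ℝ 2 _ (ψ (χ.symm (χ x)))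
    rw [hval]
    exact h3.of_le hle
  · show fderiv ℝ _ (ψ (χ.symm (χ x))) = 0
    rw [hval]
    exact hcrit
  · show ∀ w, fderiv ℝ (fderiv ℝ _) (ψ (χ.symm (χ x))) w = 0 → w = 0
    rw [hval]
    exact h hcrit

/-- **Existence of Morse functions.** -/
theorem exists_morse (E : Type*) [NormedAddCommGroup E] [NormedSpace ℝ E] [FiniteDimensional ℝ E]
    (X : Type*) [TopologicalSpace X] [ChartedSpace E X] [IsManifold 𝓘(ℝ, E) ∞ X] [T2Space X]
    [CompactSpace X] :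
    ∃ g : X → ℝ, ContMDiff 𝓘(ℝ, E) 𝓘(ℝ, ℝ) ∞ g ∧
      ∀ x, Df E g x = 0 → ∀ v, (∀ w, Hs E g x v w = 0) → v = 0 := by
  obtain ⟨ι, f, -⟩ := SmoothBumpCovering.exists_isSubordinate 𝓘(ℝ, E) (isClosed_univ (X := X))
    fun (x : X) _ => univ_mem
  haveI := f.fintype
  have hh : ContMDiff 𝓘(ℝ, E) 𝓘(ℝ, ℝ) ∞ (fun _ : X => (0 : ℝ)) := contMDiff_const
  have h1 : ∀ᵐ a : ι × Fin (finrank ℝ E) → ℝ, ∀ i, ∀ u ∈ Ub f i,
      cd (f.c i) (pf (fun _ : X => (0 : ℝ)) (fam f) a) u = 0 →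
      ∀ w, fderiv ℝ (cd (E := E) (f.c i) (pf (fun _ : X => (0 : ℝ)) (fam f) a)) u w = 0 → w = 0 :=
    ae_all_iff.2 fun i => local_nd f i hh
  obtain ⟨a, ha⟩ := h1.exists
  have hq := pf_smooth hh (fam_smooth f) a
  refine ⟨_, hq, fun x hx v hv => ?_⟩
  set i := f.ind x (mem_univ x) with hi
  have hsrc : x ∈ (extChartAt 𝓘(ℝ, E) (f.c i)).source := f.mem_extChartAt_ind_source x (mem_univ x)
  have hOb : x ∈ Ob f i := by
    rw [Ob, mem_interior_iff_mem_nhds]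
    exact f.eventuallyEq_one x (mem_univ x)
  have hu : extChartAt 𝓘(ℝ, E) (f.c i) x ∈ Ub f i := by
    refine ⟨(extChartAt 𝓘(ℝ, E) (f.c i)).map_source hsrc, ?_⟩
    show (extChartAt 𝓘(ℝ, E) (f.c i)).symm (extChartAt 𝓘(ℝ, E) (f.c i) x) ∈ Ob f i
    rw [(extChartAt 𝓘(ℝ, E) (f.c i)).left_inv hsrc]
    exact hOb
  have hsrc' : x ∈ (chartAt E (f.c i)).source := by
    rwa [extChartAt_source] at hsrc
  exact nondeg_charts hq hsrc' (ha i _ hu) hx hv

end Pool.Agent.H816.Mo
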