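import Pool.Agent.H816.Mo12
import Pool.Agent.H816.Mo11

/-!
# Critical points of Morse functions on closed manifolds
-/

set_option autoImplicit false
set_option linter.unusedSectionVars false

open Set Filter Topology Metric Function Module
open scoped ContDiff Manifold

noncomputable section

namespace Pool.Agent.H816.Mo

open Pool.Agent.H816 Pool.Agent.H816.Fam

section form

variable {E : Type*} [NormedAddCommGroup E] [NormedSpace ℝ E]

/-- nonnegative nondegenerate symmetric forms are definite -/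
theorem posdef_of {B : E →L[ℝ] E →L[ℝ] ℝ} (hs : ∀ v w, B v w = B w v)
    (hn : ∀ v, (∀ w, B v w = 0) → v = 0) (h0 : ∀ v, 0 ≤ B v v) {v : E} (hv : v ≠ 0) :
    0 < B v v := by
  refine lt_of_le_of_ne (h0 v) fun h => hv (hn v fun w => ?_)
  have h1 : ∀ t : ℝ, 0 ≤ 2 * t * B v w + t ^ 2 * B w w := by
    intro t
    have h2 := h0 (v + t • w)
    have h3 : B (v + t • w) (v + t • w) = B v v + 2 * t * B v w + t ^ 2 * B w w := by
      have e1 : B (v + t • w) (v + t • w) = B (v + t • w) v + t * B (v + t • w) w := by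
        rw [map_add (B (v + t • w)), map_smul (B (v + t • w)), smul_eq_mul]
      have e2 : B (v + t • w) = B v + t • B w := by rw [map_add, map_smul]
      rw [e1, e2]
      show (B v v + t * B w v) + t * (B v w + t * B w w) = _
      rw [hs w v]
      ring
    rw [h3, ← h] at h2
    linarith
  have hw := h0 w
  by_contra hcon
  have hpos : 0 < (B v w) ^ 2 := by positivity
  have h3 := h1 (-(B v w) / (B w w + 1))
  have h4 : 0 < B w w + 1 := by linarith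
  have h5 : 2 * (-(B v w) / (B w w + 1)) * B v w + (-(B v w) / (B w w + 1)) ^ 2 * B w w =
      -((B v w) ^ 2 * (B w w + 2)) / (B w w + 1) ^ 2 := by
    field_simp
    ring
  rw [h5] at h3
  have h6 : -((B v w) ^ 2 * (B w w + 2)) / (B w w + 1) ^ 2 < 0 := by
    apply div_neg_of_neg_of_pos
    · nlinarith
    · positivity
  linarith

end form

variable {E : Type*} [NormedAddCommGroup E] [NormedSpace ℝ E] [FiniteDimensional ℝ E]
variable {X : Type*} [TopologicalSpace X] [ChartedSpace E X] [IsManifold 𝓘(ℝ, E) ∞ X]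

/-- the chart as a partial diffeomorphism -/
theorem exists_chart_pd (p : X) : ∃ Ψ : PartialDiffeomorph 𝓘(ℝ, E) 𝓘(ℝ, E) E X ∞,
    (∀ z, Ψ z = (extChartAt 𝓘(ℝ, E) p).symm z) ∧ Ψ.source = (chartAt E p).target :=
  ⟨pd p id id contDiff_id contDiff_id (fun _ => rfl) (fun _ => rfl), fun _ => rfl, rfl⟩

theorem smooth_chart {f : X → ℝ} {p : X} (hf : ∀ᶠ x in 𝓝 p, Sm E f x) :
    ∀ᶠ z in 𝓝 (extChartAt 𝓘(ℝ, E) p p),
      ContDiffAt ℝ ∞ (f ∘ (extChartAt 𝓘(ℝ, E) p).symm) z := by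
  obtain ⟨Ψ, h1, h2⟩ := exists_chart_pd (E := E) p
  have hp : extChartAt 𝓘(ℝ, E) p p ∈ Ψ.source := by
    rw [h2]
    exact mem_chart_target _ p
  have h3 : Ψ (extChartAt 𝓘(ℝ, E) p p) = p := by
    rw [h1]
    exact extChartAt_to_inv p
  have hLD : ∀ z ∈ Ψ.source, IsLocalDiffeomorphAt 𝓘(ℝ, E) 𝓘(ℝ, E) ∞ Ψ z :=
    fun z hz => ⟨Ψ, hz, eqOn_refl _ _⟩
  have ht : Tendsto Ψ (𝓝 (extChartAt 𝓘(ℝ, E) p p)) (𝓝 p) := by
    have := (hLD _ hp).contMDiffAt.continuousAt.tendsto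
    rwa [h3] at this
  filter_upwards [ht.eventually hf, Ψ.open_source.mem_nhds hp] with z h4 h5
  have h6 : ContMDiffAt 𝓘(ℝ, E) 𝓘(ℝ, ℝ) ∞ (f ∘ Ψ) z :=
    ContMDiffAt.comp z h4 (hLD z h5).contMDiffAt
  have h7 : f ∘ (extChartAt 𝓘(ℝ, E) p).symm = f ∘ Ψ := by
    funext z
    show f ((extChartAt 𝓘(ℝ, E) p).symm z) = f (Ψ z)
    rw [h1]
  rw [h7]
  exact h6.contDiffAt

theorem Hs_symm {f : X → ℝ} {p : X} (hf : ∀ᶠ x in 𝓝 p, Sm E f x) (v w : E) :
    Hs E f p v w = Hs E f p w v := by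
  have h1 : IsSymmSndFDerivAt ℝ (f ∘ (extChartAt 𝓘(ℝ, E) p).symm) (extChartAt 𝓘(ℝ, E) p p) :=
    (smooth_chart hf).self_of_nhds.isSymmSndFDerivAt (by
      rw [minSmoothness_of_isRCLikeNormedField]
      exact WithTop.coe_le_coe.2 le_top)
  exact h1 v w

/-- nondegenerate critical points are isolated -/
theorem iso_crit {f : X → ℝ} {p : X} (hf : ∀ᶠ x in 𝓝 p, Sm E f x)
    (hn : ∀ v, (∀ w, Hs E f p v w = 0) → v = 0) :
    ∀ᶠ x in 𝓝[≠] p, Df E f x ≠ 0 := by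
  obtain ⟨Ψ, h1, h2⟩ := exists_chart_pd (E := E) p
  obtain ⟨F, hF⟩ : ∃ F : E → ℝ, F = f ∘ (extChartAt 𝓘(ℝ, E) p).symm := ⟨_, rfl⟩
  have hFs : ∀ᶠ z in 𝓝 (extChartAt 𝓘(ℝ, E) p p), ContDiffAt ℝ ∞ F z := by
    rw [hF]
    exact smooth_chart hf
  have hd : HasFDerivAt (fderiv ℝ F) (Hs E f p) (extChartAt 𝓘(ℝ, E) p p) := by
    have h3 := ((hFs.self_of_nhds.fderiv_right (m := 1) (by norm_cast)).differentiableAt
        (by simp)).hasFDerivAt
    rw [hF] at h3 ⊢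
    exact h3
  have hz : ∀ᶠ z in 𝓝[≠] (extChartAt 𝓘(ℝ, E) p p), fderiv ℝ F z ≠ 0 := by
    refine hd.eventually_ne ?_
    have h3 : LinearMap.ker (Hs E f p : E →ₗ[ℝ] E →L[ℝ] ℝ) = ⊥ := by
      rw [LinearMap.ker_eq_bot']
      intro v hv
      refine hn v fun w => ?_
      have : Hs E f p v = 0 := hv
      rw [this]
      rfl
    obtain ⟨K, -, hK⟩ := LinearMap.exists_antilipschitzWith _ h3
    exact ⟨K, hK⟩
  rw [eventually_nhdsWithin_iff] at hz ⊢
  have ht : Tendsto (extChartAt 𝓘(ℝ, E) p) (𝓝 p) (𝓝 (extChartAt 𝓘(ℝ, E) p p)) :=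
    (continuousAt_extChartAt p).tendsto
  filter_upwards [ht.eventually hz, ht.eventually hFs, extChartAt_source_mem_nhds (I := 𝓘(ℝ, E)) p]
    with x h3 h4 h5 hxp
  have h6 : (extChartAt 𝓘(ℝ, E) p).symm (extChartAt 𝓘(ℝ, E) p x) = x :=
    (extChartAt 𝓘(ℝ, E) p).left_inv h5
  have h7 : extChartAt 𝓘(ℝ, E) p x ≠ extChartAt 𝓘(ℝ, E) p p := by
    intro h8
    apply hxp
    show x = p
    rw [← h6, h8, extChartAt_to_inv]
  have h8 : extChartAt 𝓘(ℝ, E) p x ∈ Ψ.source := by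
    rw [h2]
    have h9 : x ∈ (chartAt E p).source := by rwa [extChartAt_source] at h5
    exact (chartAt E p).map_source h9
  have h9 : IsLocalDiffeomorphAt 𝓘(ℝ, E) 𝓘(ℝ, E) ∞ Ψ (extChartAt 𝓘(ℝ, E) p x) :=
    ⟨Ψ, h8, eqOn_refl _ _⟩
  have h10 : (fun z => f (Ψ z)) = F := by
    rw [hF]
    funext z
    show f (Ψ z) = f ((extChartAt 𝓘(ℝ, E) p).symm z)
    rw [h1]
  have h11 := Df_ne (g := f) h9 (by rw [h10]; exact h4.differentiableAt (by simp))
    (by rw [h10]; exact h3 h7)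
  rwa [h1, h6] at h11

/-- regular points form an open set -/
theorem open_regular {f : X → ℝ} {p : X} (hf : ∀ᶠ x in 𝓝 p, Sm E f x) (hc : Df E f p ≠ 0) :
    ∀ᶠ x in 𝓝 p, Df E f x ≠ 0 := by
  obtain ⟨Ψ, h1, h2⟩ := exists_chart_pd (E := E) p
  obtain ⟨F, hF⟩ : ∃ F : E → ℝ, F = f ∘ (extChartAt 𝓘(ℝ, E) p).symm := ⟨_, rfl⟩
  have hFs : ∀ᶠ z in 𝓝 (extChartAt 𝓘(ℝ, E) p p), ContDiffAt ℝ ∞ F z := by
    rw [hF]
    exact smooth_chart hf
  have hd : ContinuousAt (fderiv ℝ F) (extChartAt 𝓘(ℝ, E) p p) :=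
    (hFs.self_of_nhds.fderiv_right (m := 1) (by norm_cast)).continuousAt
  have hz : ∀ᶠ z in 𝓝 (extChartAt 𝓘(ℝ, E) p p), fderiv ℝ F z ≠ 0 := by
    refine hd.eventually_ne ?_
    rw [hF]
    exact hc
  have ht : Tendsto (extChartAt 𝓘(ℝ, E) p) (𝓝 p) (𝓝 (extChartAt 𝓘(ℝ, E) p p)) :=
    (continuousAt_extChartAt p).tendsto
  filter_upwards [ht.eventually hz, ht.eventually hFs, extChartAt_source_mem_nhds (I := 𝓘(ℝ, E)) p]
    with x h3 h4 h5
  have h6 : (extChartAt 𝓘(ℝ, E) p).symm (extChartAt 𝓘(ℝ, E) p x) = x :=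
    (extChartAt 𝓘(ℝ, E) p).left_inv h5
  have h8 : extChartAt 𝓘(ℝ, E) p x ∈ Ψ.source := by
    rw [h2]
    have h9 : x ∈ (chartAt E p).source := by rwa [extChartAt_source] at h5
    exact (chartAt E p).map_source h9
  have h9 : IsLocalDiffeomorphAt 𝓘(ℝ, E) 𝓘(ℝ, E) ∞ Ψ (extChartAt 𝓘(ℝ, E) p x) :=
    ⟨Ψ, h8, eqOn_refl _ _⟩
  have h10 : (fun z => f (Ψ z)) = F := by
    rw [hF]
    funext z
    show f (Ψ z) = f ((extChartAt 𝓘(ℝ, E) p).symm z)
    rw [h1]
  have h11 := Df_ne (g := f) h9 (by rw [h10]; exact h4.differentiableAt (by simp))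
    (by rw [h10]; exact h3)
  rwa [h1, h6] at h11

/-- a Morse function on a compact space has finitely many critical points -/
theorem finite_crit [CompactSpace X] {f : X → ℝ} (hf : ∀ x, Sm E f x)
    (hn : ∀ x, Df E f x = 0 → ∀ v, (∀ w, Hs E f x v w = 0) → v = 0) :
    {x | Df E f x = 0}.Finite := by
  by_contra hcon
  have hinf : {x | Df E f x = 0}.Infinite := hcon
  obtain ⟨p, hp⟩ := hinf.exists_accPt_principal
  have h1 : ∀ᶠ x in 𝓝[≠] p, Df E f x ≠ 0 := by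
    by_cases hc : Df E f p = 0
    · exact iso_crit (Eventually.of_forall hf) (hn p hc)
    · exact nhdsWithin_le_nhds (open_regular (Eventually.of_forall hf) hc)
  have h2 : ∃ᶠ x in 𝓝[≠] p, Df E f x = 0 := by
    rw [accPt_iff_frequently_nhdsNE] at hp
    exact hp
  exact h2 h1

/-- nondegenerate critical points are saddles or extrema -/
theorem saddle_or {f : X → ℝ} {p : X} (hf : ∀ᶠ x in 𝓝 p, Sm E f x)
    (hn : ∀ v, (∀ w, Hs E f p v w = 0) → v = 0) (hc : Df E f p = 0) :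
    Saddle E f p ∨ (∀ v, v ≠ 0 → 0 < Hs E f p v v) ∨ (∀ v, v ≠ 0 → Hs E f p v v < 0) := by
  by_cases h1 : ∃ v, 0 < Hs E f p v v
  · by_cases h2 : ∃ v, Hs E f p v v < 0
    · exact Or.inl ⟨hc, hn, h1, h2⟩
    · right; left
      push Not at h2
      intro v hv
      exact posdef_of (Hs_symm hf) hn h2 hv
  · right; right
    push Not at h1
    intro v hv
    have h2 := posdef_of (B := -Hs E f p) (fun v w => by
      simp only [neg_apply]
      rw [Hs_symm hf v w]) (fun v h => hn v fun w => by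
        have := h w
        simp only [neg_apply] at this
        linarith) (fun v => by
        simp only [neg_apply]
        linarith [h1 v]) hv
    simp only [neg_apply] at h2
    linarith

end Pool.Agent.H816.Mo
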