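import Pool.Agent.H816.Mo1

/-!
# The model: removing a saddle
-/

set_option autoImplicit false

open Set Filter Topology Metric Function
open scoped ContDiff

noncomputable section

namespace Pool.Agent.H816.Mo

variable {V : Type*} [NormedAddCommGroup V] [InnerProductSpace ℝ V]

/-- symmetric isometries -/
structure Sy (J : V →L[ℝ] V) : Prop where
  symm : ∀ x y, inner ℝ (J x) y = inner ℝ x (J y)
  iso : ∀ x, ‖J x‖ = ‖x‖

/-- the quadratic form -/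
def q (J : V →L[ℝ] V) (y : V) : ℝ := inner ℝ (J y) y

/-- the cutoff function -/
def ps (m : ℝ → ℝ) (x : ℝ) : ℝ := m ((x ^ 2 + 1) / 5)

/-- the saddle in good coordinates -/
def F0 (J : V →L[ℝ] V) (z : ℝ × ℝ × V) : ℝ := z.1 ^ 3 - z.2.1 * z.1 + q J z.2.2

/-- the interpolation -/
def P0 (m : ℝ → ℝ) (Rb : ℝ) (z : ℝ × ℝ × V) : ℝ :=
  ps m z.2.1 * m (‖z.2.2‖ ^ 2 / Rb) * (ps m z.1 * (z.1 * (1 + z.2.1 - z.1 ^ 2)))

/-- the profile of the horn -/
def Psi (m : ℝ → ℝ) (R1 R3 : ℝ) (J : V →L[ℝ] V) (s t : ℝ) (τ : V) : ℝ :=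
  -(ps m s * m (‖τ‖ ^ 2 / R1) * (t * (2 * m (t ^ 2)))) +
    m (2 * s) * m (‖τ‖ ^ 2 / (2 * R1)) * m (t ^ 2 / R3) * q J τ

/-- the horn -/
def H0 (m : ℝ → ℝ) (R1 R3 : ℝ) (J : V →L[ℝ] V) (w : ℝ → ℝ) (z : ℝ × ℝ × V) : ℝ :=
  if 0 < z.2.1 then w z.2.1 * Psi m R1 R3 J z.2.1 ((w z.2.1)⁻¹ * z.1) ((w z.2.1)⁻¹ • z.2.2) else 0

/-- the model -/
def G0 (m : ℝ → ℝ) (R1 R3 Rb : ℝ) (J : V →L[ℝ] V) (w : ℝ → ℝ) (z : ℝ × ℝ × V) : ℝ :=
  F0 J z + P0 m Rb z + H0 m R1 R3 J w z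

/-- the assumptions on the parameters -/
structure Dat (m : ℝ → ℝ) (C R1 R3 Rb : ℝ) (w : ℝ → ℝ) : Prop where
  hm : Mst m C
  w_pos : ∀ s, 0 < s → 0 < w s
  w_smooth : ∀ s, 0 < s → ContDiffAt ℝ ∞ w s
  w_tend : Tendsto w (𝓝[>] 0) (𝓝 0)
  w_le : ∀ s, 0 < s → s ≤ 3 → w s ≤ 1 / 2
  w_deriv : ∀ s, 0 < s → 0 < deriv w s
  hR1 : 1 ≤ R1
  hR1a : 3 * C ≤ R1
  hR1b : ∀ s, 1 / 2 ≤ s → s ≤ 3 → 6 * C ≤ R1 * w s
  hR3 : 2 ≤ R3
  hR3a : ∀ u, 0 ≤ u → |deriv m (u ^ 2 / R3)| * (2 * u / R3) * (4 * R1) ≤ 1 / 2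
  hRb : R1 ≤ Rb
  hRba : 78 * C ≤ Rb

section lines

variable {f : ℝ × ℝ × V → ℝ} {x s d : ℝ} {y : V}

theorem lineX (hd : DifferentiableAt ℝ f (x, s, y)) (h0 : fderiv ℝ f (x, s, y) = 0)
    (h : HasDerivAt (fun x' => f (x', s, y)) d x) : d = 0 := by
  have h1 : HasDerivAt (fun x' : ℝ => ((x', s, y) : ℝ × ℝ × V)) (1, 0, 0) x :=
    (hasDerivAt_id x).prodMk ((hasDerivAt_const x s).prodMk (hasDerivAt_const x y))
  have h2 := hd.hasFDerivAt.comp_hasDerivAt x h1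
  rw [h0] at h2
  exact h.unique h2

theorem lineS (hd : DifferentiableAt ℝ f (x, s, y)) (h0 : fderiv ℝ f (x, s, y) = 0)
    (h : HasDerivAt (fun s' => f (x, s', y)) d s) : d = 0 := by
  have h1 : HasDerivAt (fun s' : ℝ => ((x, s', y) : ℝ × ℝ × V)) (0, 1, 0) s :=
    (hasDerivAt_const s x).prodMk ((hasDerivAt_id s).prodMk (hasDerivAt_const s y))
  have h2 := hd.hasFDerivAt.comp_hasDerivAt s h1
  rw [h0] at h2
  exact h.unique h2

theorem lineY {v : V} (hd : DifferentiableAt ℝ f (x, s, y)) (h0 : fderiv ℝ f (x, s, y) = 0)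
    (h : HasDerivAt (fun ε : ℝ => f (x, s, y + ε • v)) d 0) : d = 0 := by
  have h1 : HasDerivAt (fun ε : ℝ => ((x, s, y + ε • v) : ℝ × ℝ × V)) (0, 0, v) 0 := by
    have h3 : HasDerivAt (fun ε : ℝ => y + ε • v) v 0 := by
      have := ((hasDerivAt_id (0 : ℝ)).smul_const v).const_add y
      rwa [one_smul] at this
    exact (hasDerivAt_const 0 x).prodMk ((hasDerivAt_const 0 s).prodMk h3)
  have h4 : ((x, s, y + (0 : ℝ) • v) : ℝ × ℝ × V) = (x, s, y) := by rw [zero_smul, add_zero]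
  have h2 := HasFDerivAt.comp_hasDerivAt (f := fun ε : ℝ => ((x, s, y + ε • v) : ℝ × ℝ × V)) 0
    (by rw [h4]; exact hd.hasFDerivAt) h1
  rw [h0] at h2
  exact h.unique h2

end lines

section cut

variable {m : ℝ → ℝ} {C : ℝ}

theorem hd_comp (h : Mst m C) {g : ℝ → ℝ} {g' x : ℝ} (hg : HasDerivAt g g' x) :
    HasDerivAt (fun x => m (g x)) (deriv m (g x) * g') x := (h.hd (g x)).comp x hg

theorem ps_one (h : Mst m C) {x : ℝ} (hx : x ^ 2 ≤ 4) : ps m x = 1 := h.one _ (by linarith)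

theorem ps_zero (h : Mst m C) {x : ℝ} (hx : 9 ≤ x ^ 2) : ps m x = 0 := h.zero _ (by linarith)

theorem ps_nonneg (h : Mst m C) (x : ℝ) : 0 ≤ ps m x := h.nonneg _

theorem ps_le (h : Mst m C) (x : ℝ) : ps m x ≤ 1 := h.le _

/-- the derivative of the cutoff function -/
def dps (m : ℝ → ℝ) (x : ℝ) : ℝ := deriv m ((x ^ 2 + 1) / 5) * (2 * x / 5)

theorem ps_hd (h : Mst m C) (x : ℝ) : HasDerivAt (ps m) (dps m x) x := by
  refine hd_comp h ?_
  have h1 : HasDerivAt (fun x : ℝ => (x ^ 2 + 1) / 5) ((((2 : ℕ) : ℝ) * x ^ (2 - 1)) / 5) x :=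
    ((hasDerivAt_pow 2 x).add_const 1).div_const 5
  simpa using h1

theorem dps_zero (h : Mst m C) {x : ℝ} (hx : x ^ 2 ≤ 4) : dps m x = 0 := by
  unfold dps
  rw [h.d_left (by linarith), zero_mul]

theorem dps_zero' (h : Mst m C) {x : ℝ} (hx : 9 ≤ x ^ 2) : dps m x = 0 := by
  unfold dps
  rw [h.d_right (by linarith), zero_mul]

theorem dps_sign (h : Mst m C) (x : ℝ) : x * dps m x ≤ 0 := by
  unfold dps
  have h1 := h.dle ((x ^ 2 + 1) / 5)
  have : x * (deriv m ((x ^ 2 + 1) / 5) * (2 * x / 5)) =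
      deriv m ((x ^ 2 + 1) / 5) * (2 / 5 * x ^ 2) := by ring
  rw [this]
  exact mul_nonpos_of_nonpos_of_nonneg h1 (by positivity)

theorem ps_bound (h : Mst m C) (x s : ℝ) :
    |ps m s * (ps m x * (x * (1 + s - x ^ 2)))| ≤ 39 := by
  by_cases hx : 9 ≤ x ^ 2
  · rw [ps_zero h hx]
    simp
  by_cases hs : 9 ≤ s ^ 2
  · rw [ps_zero h hs]
    simp
  have hx' := not_le.1 hx
  have hs' := not_le.1 hs
  have h1 : |x| ≤ 3 := abs_le_of_sq_le_sq (by linarith) (by norm_num)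
  have h2 : |s| ≤ 3 := abs_le_of_sq_le_sq (by linarith) (by norm_num)
  have h3 : |1 + s - x ^ 2| ≤ 13 := by
    rw [abs_le] at h2 ⊢
    constructor <;> nlinarith [sq_nonneg x]
  rw [abs_mul, abs_mul, abs_mul, abs_of_nonneg (ps_nonneg h s), abs_of_nonneg (ps_nonneg h x)]
  have h4 : |x| * |1 + s - x ^ 2| ≤ 3 * 13 :=
    mul_le_mul h1 h3 (abs_nonneg _) (by norm_num)
  have h5 : ps m x * (|x| * |1 + s - x ^ 2|) ≤ 1 * (3 * 13) :=
    mul_le_mul (ps_le h x) h4 (by positivity) zero_le_one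
  have h6 : ps m s * (ps m x * (|x| * |1 + s - x ^ 2|)) ≤ 1 * (1 * (3 * 13)) :=
    mul_le_mul (ps_le h s) h5
      (mul_nonneg (ps_nonneg h x) (mul_nonneg (abs_nonneg _) (abs_nonneg _))) zero_le_one
  linarith

end cut

section quad

variable {J : V →L[ℝ] V}

theorem q_abs (hJ : Sy J) (y : V) : |q J y| ≤ ‖y‖ ^ 2 := by
  refine (abs_real_inner_le_norm _ _).trans ?_
  rw [hJ.iso, sq]

theorem q_smul (c : ℝ) (y : V) : q J (c • y) = c ^ 2 * q J y := by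
  unfold q
  rw [map_smul, inner_smul_left, inner_smul_right]
  simp
  ring

theorem q_zero : q J 0 = 0 := by
  unfold q
  simp

theorem q_line (hJ : Sy J) (y : V) :
    HasDerivAt (fun ε : ℝ => q J (y + ε • J y)) (2 * ‖y‖ ^ 2) 0 := by
  have h3 : HasDerivAt (fun ε : ℝ => y + ε • J y) (J y) 0 := by
    have := ((hasDerivAt_id (0 : ℝ)).smul_const (J y)).const_add y
    rwa [one_smul] at this
  have h4 : HasDerivAt (fun ε : ℝ => J (y + ε • J y)) (J (J y)) 0 := by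
    have := J.hasFDerivAt.comp_hasDerivAt (0 : ℝ) h3
    exact this
  have h5 := h4.inner ℝ h3
  rw [zero_smul, add_zero] at h5
  have e : inner ℝ (J y) (J y) + inner ℝ (J (J y)) y = 2 * ‖y‖ ^ 2 := by
    rw [hJ.symm (J y) y, real_inner_self_eq_norm_sq, hJ.iso]
    ring
  rw [e] at h5
  exact h5

theorem n_line (y : V) :
    HasDerivAt (fun ε : ℝ => ‖y + ε • J y‖ ^ 2) (2 * q J y) 0 := by
  have h3 : HasDerivAt (fun ε : ℝ => y + ε • J y) (J y) 0 := by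
    have := ((hasDerivAt_id (0 : ℝ)).smul_const (J y)).const_add y
    rwa [one_smul] at this
  have h5 := h3.inner ℝ h3
  rw [zero_smul, add_zero] at h5
  have e : inner ℝ y (J y) + inner ℝ (J y) y = 2 * q J y := by
    unfold q
    rw [real_inner_comm]
    ring
  rw [e] at h5
  refine h5.congr_of_eventuallyEq (Eventually.of_forall fun ε => ?_)
  exact (real_inner_self_eq_norm_sq _).symm

end quad

variable {m : ℝ → ℝ} {C R1 R3 Rb : ℝ} {w : ℝ → ℝ} {J : V →L[ℝ] V}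

/-- the derivative of the saddle and the interpolation in the first direction -/
theorem dx_base (h : Mst m C) (x s : ℝ) (y : V) :
    HasDerivAt (fun x' => F0 J (x', s, y) + P0 m Rb (x', s, y))
      (3 * x ^ 2 - s + ps m s * m (‖y‖ ^ 2 / Rb) *
        (dps m x * (x * (1 + s - x ^ 2)) + ps m x * (1 + s - 3 * x ^ 2))) x := by
  have h1 : HasDerivAt (fun x' : ℝ => x' ^ 3 - s * x' + q J y) (3 * x ^ 2 - s) x := by
    have := ((hasDerivAt_pow 3 x).sub ((hasDerivAt_id x).const_mul s)).add_const (q J y)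
    simpa using this
  have h2 : HasDerivAt (fun x' : ℝ => x' * (1 + s - x' ^ 2)) (1 + s - 3 * x ^ 2) x := by
    have := (hasDerivAt_id x).fun_mul ((hasDerivAt_pow 2 x).const_sub (1 + s))
    refine this.congr_deriv ?_
    simp only [id_eq, Nat.cast_ofNat, Nat.add_one_sub_one, pow_one]
    ring
  have h3 := ((ps_hd h x).fun_mul h2).const_mul (ps m s * m (‖y‖ ^ 2 / Rb))
  exact h1.fun_add h3

/-- the derivative of the horn in the first direction -/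
theorem dx_horn (h : Mst m C) {x s : ℝ} {y : V} (hs : 0 < s) (hw : 0 < w s) :
    HasDerivAt (fun x' => H0 m R1 R3 J w (x', s, y))
      (-(ps m s * m (‖(w s)⁻¹ • y‖ ^ 2 / R1) * (2 * m (((w s)⁻¹ * x) ^ 2) +
        4 * ((w s)⁻¹ * x) ^ 2 * deriv m (((w s)⁻¹ * x) ^ 2))) +
        m (2 * s) * m (‖(w s)⁻¹ • y‖ ^ 2 / (2 * R1)) *
          (deriv m (((w s)⁻¹ * x) ^ 2 / R3) * (2 * ((w s)⁻¹ * x) / R3)) *
          q J ((w s)⁻¹ • y)) x := by
  set c := (w s)⁻¹ with hc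
  set τ := c • y with hτ
  have e : (fun x' => H0 m R1 R3 J w (x', s, y)) = fun x' => w s *
      (-(ps m s * m (‖τ‖ ^ 2 / R1) * ((c * x') * (2 * m ((c * x') ^ 2)))) +
        m (2 * s) * m (‖τ‖ ^ 2 / (2 * R1)) * m ((c * x') ^ 2 / R3) * q J τ) := by
    funext x'
    exact if_pos hs
  rw [e]
  have h0 : HasDerivAt (fun x' : ℝ => c * x') c x := by
    simpa using (hasDerivAt_id x).const_mul c
  have h1 : HasDerivAt (fun x' : ℝ => (c * x') ^ 2) (2 * (c * x) * c) x := by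
    have := h0.fun_pow 2
    refine this.congr_deriv ?_
    simp
  have h2 := hd_comp h h1
  have h3 : HasDerivAt (fun x' : ℝ => (c * x') ^ 2 / R3) (2 * (c * x) * c / R3) x := h1.div_const R3
  have h4 := hd_comp h h3
  have h5 := (h0.fun_mul (h2.const_mul 2)).const_mul (ps m s * m (‖τ‖ ^ 2 / R1))
  have h6 := (h4.const_mul (m (2 * s) * m (‖τ‖ ^ 2 / (2 * R1)))).mul_const (q J τ)
  have h7 := (h5.fun_neg.fun_add h6).const_mul (w s)
  refine h7.congr_deriv ?_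
  have hwc : w s * c = 1 := mul_inv_cancel₀ hw.ne'
  have e1 : w s * (-(ps m s * m (‖τ‖ ^ 2 / R1) * (c * (2 * m ((c * x) ^ 2)) + c * x *
      (2 * (deriv m ((c * x) ^ 2) * (2 * (c * x) * c))))) + m (2 * s) * m (‖τ‖ ^ 2 / (2 * R1)) *
      (deriv m ((c * x) ^ 2 / R3) * (2 * (c * x) * c / R3)) * q J τ) =
      (w s * c) * (-(ps m s * m (‖τ‖ ^ 2 / R1) * (2 * m ((c * x) ^ 2) +
        4 * (c * x) ^ 2 * deriv m ((c * x) ^ 2))) +
        m (2 * s) * m (‖τ‖ ^ 2 / (2 * R1)) *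
          (deriv m ((c * x) ^ 2 / R3) * (2 * (c * x) / R3)) * q J τ) := by ring
  rw [e1, hwc, one_mul]

/-- the derivative of the saddle and the interpolation in the direction `J y` -/
theorem dy_base (h : Mst m C) (hJ : Sy J) (x s : ℝ) (y : V) :
    HasDerivAt (fun ε : ℝ => F0 J (x, s, y + ε • J y) + P0 m Rb (x, s, y + ε • J y))
      (2 * ‖y‖ ^ 2 + ps m s * (ps m x * (x * (1 + s - x ^ 2))) *
        (deriv m (‖y‖ ^ 2 / Rb) * (2 * q J y / Rb))) 0 := by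
  have h1 : HasDerivAt (fun ε : ℝ => x ^ 3 - s * x + q J (y + ε • J y)) (2 * ‖y‖ ^ 2) 0 :=
    (q_line hJ y).const_add _
  have h2 : HasDerivAt (fun ε : ℝ => ‖y + ε • J y‖ ^ 2 / Rb) (2 * q J y / Rb) 0 :=
    (n_line y).div_const Rb
  have h3 := hd_comp h h2
  rw [zero_smul, add_zero] at h3
  have h4 := (h3.const_mul (ps m s)).mul_const (ps m x * (x * (1 + s - x ^ 2)))
  have h5 := h1.fun_add h4
  refine h5.congr_deriv ?_
  ring

/-- the derivative of the horn in the direction `J y` -/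
theorem dy_horn (h : Mst m C) (hJ : Sy J) {x s : ℝ} {y : V} (hs : 0 < s) :
    HasDerivAt (fun ε : ℝ => H0 m R1 R3 J w (x, s, y + ε • J y))
      (w s * (-(ps m s * (deriv m (‖(w s)⁻¹ • y‖ ^ 2 / R1) * (2 * q J ((w s)⁻¹ • y) / R1)) *
        (((w s)⁻¹ * x) * (2 * m (((w s)⁻¹ * x) ^ 2)))) +
        m (2 * s) * m (((w s)⁻¹ * x) ^ 2 / R3) *
          (deriv m (‖(w s)⁻¹ • y‖ ^ 2 / (2 * R1)) * (2 * q J ((w s)⁻¹ • y) / (2 * R1)) *
            q J ((w s)⁻¹ • y) +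
            m (‖(w s)⁻¹ • y‖ ^ 2 / (2 * R1)) * (2 * ‖(w s)⁻¹ • y‖ ^ 2)))) 0 := by
  set c := (w s)⁻¹ with hc
  set τ := c • y with hτ
  have e0 : ∀ ε : ℝ, c • (y + ε • J y) = τ + ε • J τ := by
    intro ε
    rw [smul_add, hτ, map_smul, smul_comm]
  have e : (fun ε : ℝ => H0 m R1 R3 J w (x, s, y + ε • J y)) = fun ε => w s *
      (-(ps m s * m (‖τ + ε • J τ‖ ^ 2 / R1) * ((c * x) * (2 * m ((c * x) ^ 2)))) +
        m (2 * s) * m (‖τ + ε • J τ‖ ^ 2 / (2 * R1)) * m ((c * x) ^ 2 / R3) *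
          q J (τ + ε • J τ)) := by
    funext ε
    have : H0 m R1 R3 J w (x, s, y + ε • J y) = w s *
      Psi m R1 R3 J s (c * x) (c • (y + ε • J y)) := if_pos hs
    rw [this, e0]
    rfl
  rw [e]
  have h1 := q_line hJ τ
  have h2 := n_line (J := J) τ
  have h3 := hd_comp h (h2.div_const R1)
  have h4 := hd_comp h (h2.div_const (2 * R1))
  rw [zero_smul, add_zero] at h3 h4
  have h5 := (h3.const_mul (ps m s)).mul_const ((c * x) * (2 * m ((c * x) ^ 2)))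
  have h6 := ((h4.const_mul (m (2 * s))).mul_const (m ((c * x) ^ 2 / R3))).fun_mul h1
  have h7 := (h5.fun_neg.fun_add h6).const_mul (w s)
  rw [zero_smul, add_zero] at h7
  refine h7.congr_deriv ?_
  ring

/-- the derivative of the model in the second direction, at `y = 0` -/
theorem ds_model (h : Mst m C) {x s : ℝ} (hs : 0 < s) (hw : 0 < w s)
    (hws : DifferentiableAt ℝ w s) :
    HasDerivAt (fun s' => G0 m R1 R3 Rb J w (x, s', 0))
      (-x + (dps m s * (ps m x * (x * (1 + s - x ^ 2))) + ps m s * (ps m x * x)) -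
        (dps m s * (x * (2 * m (((w s)⁻¹ * x) ^ 2))) - ps m s * (x * (2 *
          (deriv m (((w s)⁻¹ * x) ^ 2) * (2 * ((w s)⁻¹ * x) * ((w s)⁻¹ * ((w s)⁻¹ * x) *
            deriv w s))))))) s := by
  have hone : ∀ c : ℝ, m (‖(0 : V)‖ ^ 2 / c) = 1 := fun c => h.one _ (by simp)
  have e : (fun s' => G0 m R1 R3 Rb J w (x, s', 0)) =ᶠ[𝓝 s] fun s' =>
      x ^ 3 - s' * x + ps m s' * (ps m x * (x * (1 + s' - x ^ 2))) -
        ps m s' * (x * (2 * m (((w s')⁻¹ * x) ^ 2))) := by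
    have h1 : ∀ᶠ s' in 𝓝 s, 0 < s' := isOpen_Ioi.mem_nhds hs
    have h2 : ∀ᶠ s' in 𝓝 s, 0 < w s' := hws.continuousAt.eventually_const_lt hw
    filter_upwards [h1, h2] with s' h3 h4
    have e1 : H0 m R1 R3 J w (x, s', 0) = w s' *
        Psi m R1 R3 J s' ((w s')⁻¹ * x) ((w s')⁻¹ • 0) := if_pos h3
    unfold G0
    rw [e1, smul_zero]
    unfold F0 P0 Psi
    simp only [q_zero, hone]
    have : w s' * (w s')⁻¹ = 1 := mul_inv_cancel₀ h4.ne'
    have e2 : w s' * (-(ps m s' * 1 * ((w s')⁻¹ * x * (2 * m (((w s')⁻¹ * x) ^ 2)))) +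
        m (2 * s') * 1 * m (((w s')⁻¹ * x) ^ 2 / R3) * 0) =
        -((w s' * (w s')⁻¹) * (ps m s' * (x * (2 * m (((w s')⁻¹ * x) ^ 2))))) := by ring
    rw [e2, this]
    ring
  refine HasDerivAt.congr_of_eventuallyEq ?_ e
  have h1 : HasDerivAt (fun s' : ℝ => x ^ 3 - s' * x) (-x) s := by
    simpa using ((hasDerivAt_id s).mul_const x).const_sub (x ^ 3)
  have h2 : HasDerivAt (fun s' : ℝ => ps m x * (x * (1 + s' - x ^ 2))) (ps m x * x) s := by
    have := ((((hasDerivAt_id s).const_add 1).sub_const (x ^ 2)).const_mul x).const_mul (ps m x)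
    simpa using this
  have h3 := (ps_hd h s).fun_mul h2
  have h4 : HasDerivAt (fun s' : ℝ => (w s')⁻¹ * x) (-((w s)⁻¹ * ((w s)⁻¹ * x) * deriv w s)) s := by
    have := (hws.hasDerivAt.fun_inv hw.ne').mul_const x
    refine this.congr_deriv ?_
    field_simp
  have h5 : HasDerivAt (fun s' : ℝ => ((w s')⁻¹ * x) ^ 2)
      (2 * ((w s)⁻¹ * x) * (-((w s)⁻¹ * ((w s)⁻¹ * x) * deriv w s))) s := by
    refine (h4.fun_pow 2).congr_deriv ?_
    simp
  have h6 := (((hd_comp h h5).const_mul 2).const_mul x)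
  have h7 := (ps_hd h s).fun_mul h6
  have h8 := (h1.fun_add h3).fun_sub h7
  refine h8.congr_deriv ?_
  ring

end Pool.Agent.H816.Mo
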