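import Pool.Agent.H816.Mo2

/-!
# The model has no critical points
-/

set_option autoImplicit false

open Set Filter Topology Metric Function
open scoped ContDiff

noncomputable section

namespace Pool.Agent.H816.Mo

variable {V : Type*} [NormedAddCommGroup V] [InnerProductSpace ℝ V]

variable {m : ℝ → ℝ} {C R1 R3 Rb : ℝ} {w : ℝ → ℝ} {J : V →L[ℝ] V}

theorem conv_pos {p a : ℝ} (h0 : 0 ≤ p) (h1 : p ≤ 1) (ha : 0 < a) : 0 < (1 - p) * a + p := by
  rcases eq_or_lt_of_le h0 with h | h
  · rw [← h]
    linarith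
  · have : 0 ≤ (1 - p) * a := mul_nonneg (by linarith) ha.le
    linarith

theorem conv_ge {p a : ℝ} (h1 : p ≤ 1) (ha : 1 ≤ a) : 1 ≤ (1 - p) * a + p := by
  have : (1 - p) * 1 ≤ (1 - p) * a := mul_le_mul_of_nonneg_left ha (by linarith)
  linarith

/-- the profile has compact support -/
theorem psi_far (h : Mst m C) (h1 : 1 ≤ R1) (h3 : 2 ≤ R3) {s t : ℝ} {τ : V}
    (ht : 2 * R3 ≤ t ^ 2 ∨ 4 * R1 ≤ ‖τ‖ ^ 2) : Psi m R1 R3 J s t τ = 0 := by
  unfold Psi
  rcases ht with ht | ht
  · have e1 : m (t ^ 2) = 0 := h.zero _ (by linarith)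
    have e2 : m (t ^ 2 / R3) = 0 := h.zero _ (by rw [le_div_iff₀ (by linarith)]; linarith)
    rw [e1, e2]
    ring
  · have e1 : m (‖τ‖ ^ 2 / R1) = 0 := h.zero _ (by rw [le_div_iff₀ (by linarith)]; linarith)
    have e2 : m (‖τ‖ ^ 2 / (2 * R1)) = 0 := h.zero _ (by rw [le_div_iff₀ (by linarith)]; linarith)
    rw [e1, e2]
    ring

/-- the size of the horn -/
def sz (R1 R3 : ℝ) : ℝ := 2 * (R1 + R3)

theorem horn_far (hD : Dat m C R1 R3 Rb w) {x s : ℝ} {y : V} (hs : 0 < s)
    (h : sz R1 R3 * w s ≤ |x| ∨ sz R1 R3 * w s ≤ ‖y‖) : H0 m R1 R3 J w (x, s, y) = 0 := by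
  have hR1 := hD.hR1
  have hR3 := hD.hR3
  have hw := hD.w_pos s hs
  have hc : 2 * R3 ≤ sz R1 R3 ^ 2 ∧ 4 * R1 ≤ sz R1 R3 ^ 2 := by
    unfold sz
    constructor <;> nlinarith
  have hc0 : 0 ≤ sz R1 R3 := by
    unfold sz
    linarith
  have e : H0 m R1 R3 J w (x, s, y) = w s * Psi m R1 R3 J s ((w s)⁻¹ * x) ((w s)⁻¹ • y) :=
    if_pos hs
  rw [e, psi_far hD.hm hR1 hR3, mul_zero]
  rcases h with h | h
  · left
    have h1 : sz R1 R3 ≤ |(w s)⁻¹ * x| := by
      rw [abs_mul, abs_of_pos (inv_pos.2 hw), inv_mul_eq_div, le_div_iff₀ hw]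
      exact h
    rw [← sq_abs ((w s)⁻¹ * x)]
    exact hc.1.trans (pow_le_pow_left₀ hc0 h1 2)
  · right
    have h1 : sz R1 R3 ≤ ‖(w s)⁻¹ • y‖ := by
      rw [norm_smul, Real.norm_eq_abs, abs_of_pos (inv_pos.2 hw), inv_mul_eq_div, le_div_iff₀ hw]
      exact h
    exact hc.2.trans (pow_le_pow_left₀ hc0 h1 2)

theorem horn_zero (hD : Dat m C R1 R3 Rb w) {z : ℝ × ℝ × V} (hs : z.2.1 ≤ 0) (hz : z ≠ 0) :
    H0 m R1 R3 J w =ᶠ[𝓝 z] fun _ => 0 := by
  have hcs : Continuous fun z : ℝ × ℝ × V => z.2.1 := continuous_fst.comp continuous_snd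
  rcases lt_or_eq_of_le hs with h | h
  · filter_upwards [(isOpen_Iio.preimage hcs).mem_nhds h] with y hy
    exact if_neg (not_lt.2 (le_of_lt hy))
  · have hc1 : 0 < sz R1 R3 := by
      have hR1 := hD.hR1
      have hR3 := hD.hR3
      unfold sz
      linarith
    have key : ∀ (N : ℝ × ℝ × V → ℝ), Continuous N → 0 < N z →
        (∀ z : ℝ × ℝ × V, N z = |z.1| ∨ N z = ‖z.2.2‖) → H0 m R1 R3 J w =ᶠ[𝓝 z] fun _ => 0 := by
      intro N hN hN0 hN1
      have e1 : ∀ᶠ r in 𝓝[>] (0:ℝ), w r < N z / 2 / sz R1 R3 :=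
        hD.w_tend.eventually_lt_const (by positivity)
      obtain ⟨u, hu, hu1⟩ := (mem_nhdsGT_iff_exists_Ioo_subset' (zero_lt_one (α := ℝ))).1 e1
      have hu0 : (0:ℝ) < u := hu
      have e2 : ∀ᶠ y in 𝓝 z, y.2.1 < u :=
        (isOpen_Iio.preimage hcs).mem_nhds (by show z.2.1 < u; rw [h]; exact hu0)
      have e3 : ∀ᶠ y in 𝓝 z, N z / 2 < N y :=
        (isOpen_Ioi.preimage hN).mem_nhds (by show N z / 2 < N z; linarith)
      filter_upwards [e2, e3] with y h2 h3
      by_cases hy : 0 < y.2.1
      · have h4 : w y.2.1 < N z / 2 / sz R1 R3 := hu1 ⟨hy, h2⟩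
        rw [lt_div_iff₀ hc1] at h4
        refine horn_far (x := y.1) (s := y.2.1) (y := y.2.2) hD hy ?_
        rcases hN1 y with h5 | h5
        · left
          rw [← h5]
          linarith
        · right
          rw [← h5]
          linarith
      · exact if_neg hy
    by_cases hx : z.1 = 0
    · have hy : z.2.2 ≠ 0 := fun hy => hz (Prod.ext hx (Prod.ext h hy))
      exact key (fun z => ‖z.2.2‖) (continuous_snd.comp continuous_snd).norm
        (norm_pos_iff.2 hy) fun z => Or.inr rfl
    · exact key (fun z => |z.1|) continuous_fst.abs (abs_pos.2 hx) fun z => Or.inl rfl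

/-- the derivative in the direction `J y` of the saddle and the interpolation is positive -/
theorem dy_base_pos (h : Mst m C) (hJ : Sy J) (hRb : 0 < Rb) (hRba : 78 * C ≤ Rb) (x s : ℝ) (y : V) :
    ‖y‖ ^ 2 ≤ 2 * ‖y‖ ^ 2 + ps m s * (ps m x * (x * (1 + s - x ^ 2))) *
        (deriv m (‖y‖ ^ 2 / Rb) * (2 * q J y / Rb)) := by
  have h1 := ps_bound h x s
  have h2 := h.dbd (‖y‖ ^ 2 / Rb)
  have h3 := q_abs hJ y
  have hC : 0 ≤ C := (abs_nonneg _).trans h2
  have h4 : |ps m s * (ps m x * (x * (1 + s - x ^ 2))) *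
      (deriv m (‖y‖ ^ 2 / Rb) * (2 * q J y / Rb))| ≤ 39 * (C * (2 * ‖y‖ ^ 2 / Rb)) := by
    rw [abs_mul]
    refine mul_le_mul h1 ?_ (abs_nonneg _) (by norm_num)
    rw [abs_mul]
    refine mul_le_mul h2 ?_ (abs_nonneg _) hC
    rw [abs_div, abs_mul, abs_of_pos hRb, abs_of_pos (by norm_num : (0:ℝ) < 2)]
    exact div_le_div_of_nonneg_right (by linarith) hRb.le
  have h5 : 39 * (C * (2 * ‖y‖ ^ 2 / Rb)) ≤ ‖y‖ ^ 2 := by
    have : 39 * (C * (2 * ‖y‖ ^ 2 / Rb)) = (78 * C) / Rb * ‖y‖ ^ 2 := by ring
    rw [this]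
    refine mul_le_of_le_one_left (by positivity) ?_
    rw [div_le_one hRb]
    exact hRba
  have h6 := neg_abs_le (ps m s * (ps m x * (x * (1 + s - x ^ 2))) *
      (deriv m (‖y‖ ^ 2 / Rb) * (2 * q J y / Rb)))
  linarith

/-- the derivative in the first direction of the saddle and the interpolation -/
theorem dx_base_eq (x s a b : ℝ) : 3 * x ^ 2 - s + a * 1 * (b * (x * (1 + s - x ^ 2)) +
    ps m x * (1 + s - 3 * x ^ 2)) = (1 - a * ps m x) * (3 * x ^ 2 - s) + a * ps m x +
      a * ((x * b) * (1 + s - x ^ 2)) := by ring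

theorem third_nonneg (h : Mst m C) {x s : ℝ} (hs : s ≤ 3) :
    0 ≤ (x * dps m x) * (1 + s - x ^ 2) := by
  rcases le_or_gt (x ^ 2) 4 with hx | hx
  · rw [dps_zero h hx]
    simp
  · exact mul_nonneg_of_nonpos_of_nonpos (dps_sign h x) (by linarith)

/-- **The model has no critical points.** -/
theorem no_crit (hD : Dat m C R1 R3 Rb w) (hJ : Sy J) {z : ℝ × ℝ × V} (hz : z ≠ 0)
    (hd : DifferentiableAt ℝ (G0 m R1 R3 Rb J w) z) : fderiv ℝ (G0 m R1 R3 Rb J w) z ≠ 0 := by
  intro h0
  obtain ⟨x, s, y⟩ := z
  have hm := hD.hm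
  have hR1 := hD.hR1
  have hR3 := hD.hR3
  have hRb : 0 < Rb := by linarith [hD.hRb]
  have hC : 0 ≤ C := (abs_nonneg _).trans (hm.dbd 0)
  have hone : ∀ c : ℝ, m (‖(0 : V)‖ ^ 2 / c) = 1 := fun c => hm.one _ (by simp)
  rcases le_or_gt s 0 with hs | hs
  · -- nonpositive `s`
    have hev := horn_zero (J := J) hD (z := (x, s, y)) hs hz
    by_cases hy : y = 0
    · subst hy
      have hxs : 0 < 3 * x ^ 2 - s := by
        rcases lt_or_eq_of_le hs with h | h
        · have := sq_nonneg x
          linarith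
        · have hx : x ≠ 0 := fun hx => hz (by rw [hx, h]; rfl)
          have := pow_pos (abs_pos.2 hx) 2
          rw [sq_abs] at this
          linarith
      have hline : HasDerivAt (fun x' => G0 m R1 R3 Rb J w (x', s, 0)) (3 * x ^ 2 - s + ps m s * 1 *
        (dps m x * (x * (1 + s - x ^ 2)) + ps m x * (1 + s - 3 * x ^ 2))) x := by
        have h1 := dx_base (J := J) (Rb := Rb) hm x s 0
        rw [hone] at h1
        refine h1.congr_of_eventuallyEq ?_
        have hc : ContinuousAt (fun x' : ℝ => ((x', s, 0) : ℝ × ℝ × V)) x := by fun_prop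
        filter_upwards [hc.eventually hev] with x' hx'
        unfold G0
        rw [hx', add_zero]
      have h2 := lineX hd h0 hline
      rw [dx_base_eq] at h2
      have h3 : 0 ≤ ps m s * ps m x := mul_nonneg (ps_nonneg hm s) (ps_nonneg hm x)
      have h4 : ps m s * ps m x ≤ 1 := mul_le_one₀ (ps_le hm s) (ps_nonneg hm x) (ps_le hm x)
      have h5 := conv_pos h3 h4 hxs
      have h6 : 0 ≤ ps m s * ((x * dps m x) * (1 + s - x ^ 2)) :=
        mul_nonneg (ps_nonneg hm s) (third_nonneg hm (by linarith))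
      linarith
    · have hline : HasDerivAt (fun ε : ℝ => G0 m R1 R3 Rb J w (x, s, y + ε • J y))
          (2 * ‖y‖ ^ 2 + ps m s * (ps m x * (x * (1 + s - x ^ 2))) *
          (deriv m (‖y‖ ^ 2 / Rb) * (2 * q J y / Rb))) 0 := by
        refine (dy_base (Rb := Rb) hm hJ x s y).congr_of_eventuallyEq ?_
        have hc : ContinuousAt (fun ε : ℝ => ((x, s, y + ε • J y) : ℝ × ℝ × V)) 0 := by fun_prop
        have hev' : ∀ᶠ z in 𝓝 ((x, s, y + (0 : ℝ) • J y) : ℝ × ℝ × V), H0 m R1 R3 J w z = 0 := by
          rw [zero_smul, add_zero]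
          exact hev
        filter_upwards [hc.eventually hev'] with x' hx'
        unfold G0
        rw [hx', add_zero]
      have h2 := lineY hd h0 hline
      have h3 := dy_base_pos hm hJ hRb hD.hRba x s y
      have h4 : 0 < ‖y‖ ^ 2 := pow_pos (norm_pos_iff.2 hy) 2
      linarith
  -- positive `s`
  have hw := hD.w_pos s hs
  obtain ⟨c, hc⟩ : ∃ c, c = (w s)⁻¹ := ⟨_, rfl⟩
  have hc0 : 0 < c := by rw [hc]; exact inv_pos.2 hw
  have hwc : w s * c = 1 := by rw [hc]; exact mul_inv_cancel₀ hw.ne'
  by_cases hy : y = 0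
  · -- the plane `y = 0`
    subst hy
    have hX : HasDerivAt (fun x' => G0 m R1 R3 Rb J w (x', s, 0)) _ x :=
      (dx_base (J := J) (Rb := Rb) hm x s 0).fun_add
        (dx_horn (R1 := R1) (R3 := R3) (J := J) (x := x) (y := (0 : V)) hm hs hw)
    have hX0 := lineX hd h0 hX
    have hS0 := lineS hd h0 (ds_model (J := J) (R1 := R1) (R3 := R3) (Rb := Rb) hm hs hw
      ((hD.w_smooth s hs).differentiableAt (by simp)))
    rw [smul_zero, hone, hone, q_zero, mul_zero, add_zero, ← hc] at hX0
    rw [← hc] at hS0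
    rw [dx_base_eq] at hX0
    obtain ⟨u, hu⟩ : ∃ u, u = (c * x) ^ 2 := ⟨_, rfl⟩
    rw [← hu] at hX0 hS0
    have hS1 : x * (-(1 - ps m s * ps m x) + dps m s * (ps m x * (1 + s - x ^ 2) - 2 * m u) +
        4 * ps m s * deriv m u * u * (c * deriv w s)) = 0 := by
      rw [← hS0, hu]
      ring
    by_cases hs3 : 3 ≤ s
    · have hs9 : 9 ≤ s ^ 2 := by nlinarith
      rw [ps_zero hm hs9, dps_zero' hm hs9] at hS1
      rw [ps_zero hm hs9] at hX0
      have hx : x = 0 := by linarith
      subst hx
      norm_num at hX0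
      linarith
    · have hs3' := not_le.1 hs3
      have hwle := hD.w_le s hs hs3'.le
      have hc2 : 2 ≤ c := by
        rw [hc]
        rw [le_inv_comm₀ (by norm_num) hw]
        linarith
      have hux : 4 * x ^ 2 ≤ u := by
        rw [hu, mul_pow]
        exact mul_le_mul_of_nonneg_right (by nlinarith) (sq_nonneg x)
      have hu0 : 0 ≤ u := by rw [hu]; positivity
      by_cases hx4 : x ^ 2 ≤ 4
      · rw [ps_one hm hx4, dps_zero hm hx4] at hX0
        rw [ps_one hm hx4] at hS1
        by_cases hx : x = 0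
        · subst hx
          have hu1 : u = 0 := by rw [hu]; ring
          rw [hu1, hm.one 0 (by norm_num)] at hX0
          have h3 := ps_nonneg hm s
          have h4 := ps_le hm s
          have h5 : 0 < (1 - ps m s) * s + ps m s := conv_pos h3 h4 hs
          nlinarith
        · have hB := (mul_eq_zero.1 hS1).resolve_left hx
          have hA2 : dps m s * (1 * (1 + s - x ^ 2) - 2 * m u) ≤ 0 := by
            rcases le_or_gt s 2 with h2 | h2
            · rw [dps_zero hm (by nlinarith), zero_mul]
            · have hds : dps m s ≤ 0 := by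
                have := dps_sign hm s
                by_contra hcon
                have := mul_pos hs (not_le.1 hcon)
                linarith
              rcases le_or_gt (x ^ 2) 1 with hx1 | hx1
              · refine mul_nonpos_of_nonpos_of_nonneg hds ?_
                have := hm.le u
                linarith
              · exfalso
                rw [hm.zero u (by linarith), hm.d_right (u := u) (by linarith)] at hX0
                have h3 := ps_nonneg hm s
                have h4 := ps_le hm s
                have h5 : 0 < (1 - ps m s) * (3 * x ^ 2 - s) + ps m s :=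
                  conv_pos h3 h4 (by linarith)
                nlinarith
          have hwd := hD.w_deriv s hs
          have hm' := hm.dle u
          have h3 := ps_nonneg hm s
          have h4 := ps_le hm s
          have hA3 : 4 * ps m s * deriv m u * u * (c * deriv w s) ≤ 0 := by
            have e : 4 * ps m s * deriv m u * u * (c * deriv w s) =
              deriv m u * (4 * ps m s * u * (c * deriv w s)) := by ring
            rw [e]
            exact mul_nonpos_of_nonpos_of_nonneg hm' (by positivity)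
          have hχ : ps m s = 1 := by linarith
          rw [hχ] at hB hX0 hA3
          have hA3' : 4 * 1 * deriv m u * u * (c * deriv w s) = 0 := by linarith
          have hupos : 0 < u := by
            rw [hu]
            positivity
          have hm0 : deriv m u = 0 := by
            have h6 : (4 * u * (c * deriv w s)) * deriv m u = 0 := by linarith
            rcases mul_eq_zero.1 h6 with h7 | h7
            · exfalso
              have : 0 < 4 * u * (c * deriv w s) := by positivity
              linarith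
            · exact h7
          rw [hm0] at hX0
          have hhalf : m u = 1 / 2 := by linarith
          have hu1 : 1 < u := by
            by_contra hcon
            rw [hm.one u (not_lt.1 hcon)] at hhalf
            norm_num at hhalf
          have hu2 : u < 2 := by
            by_contra hcon
            rw [hm.zero u (not_lt.1 hcon)] at hhalf
            norm_num at hhalf
          have := hm.dlt u hu1 hu2
          linarith
      · have hx4' := not_le.1 hx4
        rw [hm.zero u (by linarith), hm.d_right (u := u) (by linarith)] at hX0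
        have h3 : 0 ≤ ps m s * ps m x := mul_nonneg (ps_nonneg hm s) (ps_nonneg hm x)
        have h4 : ps m s * ps m x ≤ 1 := mul_le_one₀ (ps_le hm s) (ps_nonneg hm x) (ps_le hm x)
        have h5 := conv_pos h3 h4 (a := 3 * x ^ 2 - s) (by linarith)
        have h6 : 0 ≤ ps m s * ((x * dps m x) * (1 + s - x ^ 2)) :=
          mul_nonneg (ps_nonneg hm s) (third_nonneg hm hs3'.le)
        linarith
  · -- off the plane
    have hY : HasDerivAt (fun ε : ℝ => G0 m R1 R3 Rb J w (x, s, y + ε • J y)) _ 0 :=
      (dy_base (Rb := Rb) hm hJ x s y).fun_add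
        (dy_horn (R1 := R1) (R3 := R3) (w := w) (x := x) (y := y) hm hJ hs)
    have hY0 := lineY hd h0 hY
    have hX : HasDerivAt (fun x' => G0 m R1 R3 Rb J w (x', s, y)) _ x :=
      (dx_base (J := J) (Rb := Rb) hm x s y).fun_add
        (dx_horn (R1 := R1) (R3 := R3) (J := J) (x := x) (y := y) hm hs hw)
    have hX0 := lineX hd h0 hX
    have hbase := dy_base_pos hm hJ hRb hD.hRba x s y
    have hypos : 0 < ‖y‖ ^ 2 := pow_pos (norm_pos_iff.2 hy) 2
    rw [← hc] at hY0 hX0
    obtain ⟨τ, hτ⟩ : ∃ τ, τ = c • y := ⟨_, rfl⟩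
    obtain ⟨t, ht⟩ : ∃ t, t = c * x := ⟨_, rfl⟩
    obtain ⟨ρ, hρ⟩ : ∃ ρ, ρ = ‖τ‖ ^ 2 := ⟨_, rfl⟩
    rw [← hτ, ← ht, ← hρ] at hY0 hX0
    have hρy : ‖y‖ ^ 2 = w s ^ 2 * ρ := by
      rw [hρ, hτ, norm_smul, Real.norm_eq_abs, abs_of_pos hc0, mul_pow]
      have : w s ^ 2 * (c ^ 2 * ‖y‖ ^ 2) = (w s * c) ^ 2 * ‖y‖ ^ 2 := by ring
      rw [this, hwc]
      ring
    have hρpos : 0 < ρ := by
      rw [hρ, hτ]
      exact pow_pos (norm_pos_iff.2 (smul_ne_zero hc0.ne' hy)) 2
    have hqτ : |q J τ| ≤ ρ := by rw [hρ]; exact q_abs hJ τ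
    by_cases hs3 : 3 ≤ s
    · have hs9 : 9 ≤ s ^ 2 := by nlinarith
      rw [ps_zero hm hs9, hm.zero (2 * s) (by linarith)] at hY0
      linarith
    · have hs3' := not_le.1 hs3
      have hwle := hD.w_le s hs hs3'.le
      by_cases hρ4 : 4 * R1 ≤ ρ
      · have e1 : 2 ≤ ρ / R1 := by rw [le_div_iff₀ (by linarith)]; linarith
        have e2 : 2 ≤ ρ / (2 * R1) := by rw [le_div_iff₀ (by linarith)]; linarith
        rw [hm.d_right e1, hm.d_right e2, hm.zero _ e2] at hY0
        simp only [zero_mul, mul_zero, add_zero, neg_zero] at hY0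
        linarith
      · have hρ4' := not_le.1 hρ4
        have hyR : ‖y‖ ^ 2 / Rb ≤ 1 := by
          rw [div_le_one hRb, hρy]
          have h1 : w s ^ 2 ≤ (1 / 2) ^ 2 := pow_le_pow_left₀ hw.le hwle 2
          have h2 : w s ^ 2 * ρ ≤ (1 / 2) ^ 2 * (4 * R1) :=
            mul_le_mul h1 hρ4'.le hρpos.le (by norm_num)
          linarith [hD.hRb]
        rw [hm.d_left hyR] at hY0
        rw [hm.one _ hyR] at hX0
        by_cases hreg : ρ ≤ 2 * R1 ∧ t ^ 2 ≤ 2
        · obtain ⟨hr1, hr2⟩ := hreg
          have e2 : ρ / (2 * R1) ≤ 1 := by rw [div_le_one (by linarith)]; exact hr1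
          have e3 : t ^ 2 / R3 ≤ 1 := by rw [div_le_one (by linarith)]; linarith
          rw [hm.d_left e2, hm.one _ e2, hm.one _ e3] at hY0
          have h1 : |ps m s * (deriv m (ρ / R1) * (2 * q J τ / R1)) * (t * (2 * m (t ^ 2)))| ≤
              (C * (2 * ρ / R1)) * 3 := by
            rw [abs_mul]
            refine mul_le_mul ?_ ?_ (abs_nonneg _) (by positivity)
            · rw [abs_mul, abs_of_nonneg (ps_nonneg hm s)]
              refine (mul_le_of_le_one_left (abs_nonneg _) (ps_le hm s)).trans ?_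
              rw [abs_mul]
              refine mul_le_mul (hm.dbd _) ?_ (abs_nonneg _) hC
              rw [abs_div, abs_mul, abs_of_pos (by linarith : 0 < R1),
                abs_of_pos (by norm_num : (0:ℝ) < 2)]
              exact div_le_div_of_nonneg_right (by linarith) (by linarith)
            · have h2 : |t| ≤ 3 / 2 := abs_le_of_sq_le_sq (by linarith) (by norm_num)
              rw [abs_mul, abs_mul, abs_of_nonneg (hm.nonneg _),
                abs_of_pos (by norm_num : (0:ℝ) < 2)]
              have h3 := hm.le (t ^ 2)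
              calc |t| * (2 * m (t ^ 2)) ≤ 3 / 2 * (2 * 1) := by
                    refine mul_le_mul h2 (by linarith) (by linarith [hm.nonneg (t ^ 2)])
                      (by norm_num)
                _ = 3 := by norm_num
          have h2 := le_abs_self (ps m s * (deriv m (ρ / R1) * (2 * q J τ / R1)) *
            (t * (2 * m (t ^ 2))))
          have h3 : (C * (2 * ρ / R1)) * 3 = (6 * C / R1) * ρ := by ring
          rw [h3] at h1
          have h4 : 0 ≤ w s * (-(ps m s * (deriv m (ρ / R1) * (2 * q J τ / R1)) *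
            (t * (2 * m (t ^ 2)))) + (6 * C / R1) * ρ) := mul_nonneg hw.le (by linarith)
          have h5 : 2 * (w s ^ 2 * ρ) + w s * (m (2 * s) * (2 * ρ) - (6 * C / R1) * ρ) ≤ 0 := by
            rw [hρy] at hY0
            nlinarith
          have h6 : 0 < 2 * w s + m (2 * s) * 2 - 6 * C / R1 := by
            rcases le_or_gt s (1 / 2) with h7 | h7
            · rw [hm.one (2 * s) (by linarith)]
              have : 6 * C / R1 ≤ 2 := by
                rw [div_le_iff₀ (by linarith)]
                linarith [hD.hR1a]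
              linarith
            · have : 6 * C / R1 ≤ w s := by
                rw [div_le_iff₀ (by linarith)]
                have := hD.hR1b s h7.le hs3'.le
                linarith
              have := hm.nonneg (2 * s)
              linarith
          have h7 : 0 < w s * ρ * (2 * w s + m (2 * s) * 2 - 6 * C / R1) := by positivity
          nlinarith
        · have hz1 : deriv m (ρ / R1) * m (t ^ 2) = 0 ∧ m (ρ / R1) * m (t ^ 2) = 0 ∧
              m (ρ / R1) * deriv m (t ^ 2) = 0 := by
            by_cases h1 : ρ ≤ 2 * R1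
            · have h2 : 2 ≤ t ^ 2 := by
                by_contra hcon
                exact hreg ⟨h1, (not_le.1 hcon).le⟩
              rw [hm.zero _ h2, hm.d_right h2]
              simp
            · have h2 : 2 ≤ ρ / R1 := by
                rw [le_div_iff₀ (by linarith)]
                linarith
              rw [hm.zero _ h2, hm.d_right h2]
              simp
          obtain ⟨z1, z2, z3⟩ := hz1
          by_cases hs1 : 1 ≤ s
          · rw [hm.zero (2 * s) (by linarith)] at hY0
            have e : w s * (-(ps m s * (deriv m (ρ / R1) * (2 * q J τ / R1)) *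
              (t * (2 * m (t ^ 2))))) = -(w s * ps m s * (2 * q J τ / R1) * t * 2) *
                (deriv m (ρ / R1) * m (t ^ 2)) := by ring
            rw [z1, mul_zero] at e
            simp only [zero_mul, mul_zero, add_zero] at hY0
            rw [e] at hY0
            linarith
          · have hs1' := not_le.1 hs1
            have hs4 : s ^ 2 ≤ 4 := by nlinarith
            rw [ps_one hm hs4, dx_base_eq] at hX0
            have h1 : 1 ≤ (1 - 1 * ps m x) * (3 * x ^ 2 - s) + 1 * ps m x := by
              rw [one_mul]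
              rcases le_or_gt (x ^ 2) 4 with hx4 | hx4
              · rw [ps_one hm hx4]
                linarith
              · exact conv_ge (ps_le hm x) (by linarith)
            have h2 : 0 ≤ 1 * ((x * dps m x) * (1 + s - x ^ 2)) := by
              rw [one_mul]
              exact third_nonneg hm hs3'.le
            have h3 : 1 * m (ρ / R1) * (2 * m (t ^ 2) + 4 * t ^ 2 * deriv m (t ^ 2)) = 0 := by
              have : 1 * m (ρ / R1) * (2 * m (t ^ 2) + 4 * t ^ 2 * deriv m (t ^ 2)) =
                2 * (m (ρ / R1) * m (t ^ 2)) + 4 * t ^ 2 * (m (ρ / R1) * deriv m (t ^ 2)) := by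
                ring
              rw [this, z2, z3]
              ring
            rw [h3] at hX0
            have h4 : |m (2 * s) * m (ρ / (2 * R1)) * (deriv m (t ^ 2 / R3) * (2 * t / R3)) *
                q J τ| ≤ 1 / 2 := by
              have h5 := hD.hR3a |t| (abs_nonneg t)
              rw [sq_abs] at h5
              have h6 : |deriv m (t ^ 2 / R3) * (2 * t / R3)| =
                  |deriv m (t ^ 2 / R3)| * (2 * |t| / R3) := by
                rw [abs_mul, abs_div, abs_mul, abs_of_pos (by linarith : 0 < R3),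
                  abs_of_pos (by norm_num : (0:ℝ) < 2)]
              rw [abs_mul, abs_mul, abs_mul, abs_of_nonneg (hm.nonneg _),
                abs_of_nonneg (hm.nonneg _), h6]
              refine le_trans ?_ h5
              refine mul_le_mul ?_ (hqτ.trans hρ4'.le) (abs_nonneg _) (by positivity)
              refine mul_le_of_le_one_left (by positivity) ?_
              exact mul_le_one₀ (hm.le _) (hm.nonneg _) (hm.le _)
            have h5 := neg_abs_le (m (2 * s) * m (ρ / (2 * R1)) *
              (deriv m (t ^ 2 / R3) * (2 * t / R3)) * q J τ)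
            linarith

end Pool.Agent.H816.Mo
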