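import Pool.Agent.H816.Fam7
import Pool.Agent.H816.Mo3

/-!
# Bounds for the derivatives of the horn
-/

set_option autoImplicit false

open Set Filter Topology Metric Function
open scoped ContDiff Nat

noncomputable section

namespace Pool.Agent.H816.Mo

open Pool.Agent.H816 Pool.Agent.H816.Fam

variable {Z U : Type*} [NormedAddCommGroup Z] [NormedSpace ℝ Z] [NormedAddCommGroup U]
  [NormedSpace ℝ U] [FiniteDimensional ℝ U]

/-- horns -/
def hn (w : ℝ → ℝ) (Ψ : ℝ × U → ℝ) (σ : Z →L[ℝ] ℝ) (π : Z →L[ℝ] U) (z : Z) : ℝ :=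
  if 0 < σ z then w (σ z) * Ψ (σ z, (w (σ z))⁻¹ • π z) else 0

/-- the region where the horn is not trivial -/
def Oh (w : ℝ → ℝ) (σ : Z →L[ℝ] ℝ) (π : Z →L[ℝ] U) (c r0 : ℝ) : Set Z :=
  {z | 0 < σ z ∧ σ z < r0 ∧ ‖π z‖ ≤ c * w (σ z)}

variable {w : ℝ → ℝ} {κ c r0 : ℝ} {Ψ : ℝ × U → ℝ} {σ : Z →L[ℝ] ℝ} {π : Z →L[ℝ] U}

omit [FiniteDimensional ℝ U] in
theorem hn_far (hw : Gauge w κ) (hfar : ∀ s u, c ≤ ‖u‖ → Ψ (s, u) = 0) {z : Z} (hz : σ z < κ)
    (h : c * w (σ z) ≤ ‖π z‖) : hn w Ψ σ π z = 0 := by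
  unfold hn
  split_ifs with h1
  · have h2 := hw.pos _ h1 hz
    rw [hfar, mul_zero]
    rw [norm_smul, Real.norm_eq_abs, abs_of_pos (inv_pos.2 h2), inv_mul_eq_div, le_div_iff₀ h2]
    exact h
  · rfl

theorem hn_ord (hw : Gauge w κ) (hσ : ‖σ‖ ≤ 1) (hπ : ‖π‖ ≤ 1) (hΨ : ContDiff ℝ ∞ Ψ)
    (hc : 0 ≤ c) (hr0 : r0 ≤ κ) (h1w : ∀ r, 0 < r → r < r0 → w r ≤ 1) :
    Ord (Oh w σ π c r0) (fun z => w (σ z)) (fun z => w (σ z)) (hn w Ψ σ π) := by
  set Ω := Oh w σ π c r0 with hΩ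
  have he : ∀ z ∈ Ω, 0 < w (σ z) := fun z hz => hw.pos _ hz.1 (hz.2.1.trans_le hr0)
  have he1 : ∀ z ∈ Ω, w (σ z) ≤ 1 := fun z hz => h1w _ hz.1 hz.2.1
  have hws : ∀ z ∈ Ω, ContDiffAt ℝ ∞ w (σ z) := fun z hz =>
    hw.smooth _ hz.1 (hz.2.1.trans_le hr0)
  have hLs : ∀ z ∈ Ω, ContDiffAt ℝ ∞ (fun z : Z => w (σ z)) z := fun z hz =>
    ContDiffAt.comp (g := w) z (hws z hz) σ.contDiff.contDiffAt
  -- the first coordinate
  have oσ1 : Ord Ω (fun z => w (σ z)) (fun z => w (σ z)) (fun z : Z => σ z) := by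
    intro i hi
    obtain ⟨j, rfl⟩ : ∃ j, i = j + 1 := ⟨i - 1, by omega⟩
    refine ⟨1, zero_le_one, fun z hz => ?_⟩
    have h1 := lin_bd_succ σ z j
    have h2 : ‖iteratedFDeriv ℝ (j + 1) (fun z => σ z) z‖ ≤ 1 := by
      refine h1.trans ?_
      split_ifs
      · exact hσ
      · exact zero_le_one
    have h3 : w (σ z) ^ j ≤ 1 := pow_le_one₀ (he z hz).le (he1 z hz)
    calc ‖iteratedFDeriv ℝ (j + 1) (fun z => σ z) z‖ * w (σ z) ^ (j + 1)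
        = (‖iteratedFDeriv ℝ (j + 1) (fun z => σ z) z‖ * w (σ z) ^ j) * w (σ z) := by ring
      _ ≤ (1 * 1) * w (σ z) := by
          refine mul_le_mul_of_nonneg_right ?_ (he z hz).le
          exact mul_le_mul h2 h3 (pow_nonneg (he z hz).le _) zero_le_one
      _ = 1 * w (σ z) := by ring
  have oσ : Ord Ω (fun z => w (σ z)) (fun _ => 1) (fun z : Z => σ z) := by
    intro i hi
    obtain ⟨C, hC0, hC⟩ := oσ1 i hi
    refine ⟨C, hC0, fun z hz => (hC z hz).trans ?_⟩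
    exact mul_le_mul_of_nonneg_left (he1 z hz) hC0
  -- the scale
  have oL : Ord Ω (fun z => w (σ z)) (fun z => w (σ z)) (fun z : Z => w (σ z)) := by
    refine ord_comp (l := fun z => w (σ z)) (g := w) he he (fun z hz => (he z hz).le)
      (fun z _ => σ.contDiff.contDiffAt) hws oσ1 ?_
    intro i hi
    obtain ⟨j, rfl⟩ : ∃ j, i = j + 1 := ⟨i - 1, by omega⟩
    obtain ⟨C, hC0, hC⟩ := hw.bd' j
    refine ⟨C, hC0, fun z hz => ?_⟩
    have h1 := hC (σ z) hz.1 (hz.2.1.trans_le hr0)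
    rw [pow_succ, ← mul_assoc]
    exact mul_le_mul_of_nonneg_right h1 (he z hz).le
  -- the inverse of the scale
  have oI : Ord Ω (fun z => w (σ z)) (fun z => (w (σ z))⁻¹) (fun z : Z => (w (σ z))⁻¹) := by
    refine ord_comp (l := fun z => w (σ z)) (g := fun x : ℝ => x⁻¹) he he
      (fun z hz => (inv_pos.2 (he z hz)).le) hLs (fun z hz => contDiffAt_inv ℝ (he z hz).ne') oL ?_
    intro i hi
    exact ⟨(i ! : ℝ), by positivity, fun z hz => inv_bd i (he z hz)⟩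
  have hIs : ∀ z ∈ Ω, ContDiffAt ℝ ∞ (fun z : Z => (w (σ z))⁻¹) z := fun z hz =>
    (hLs z hz).inv (he z hz).ne'
  -- the rescaled variable
  have oW : Ord Ω (fun z => w (σ z)) (fun _ => 1) (fun z : Z => (w (σ z))⁻¹ • π z) := by
    intro i hi
    obtain ⟨j, rfl⟩ : ∃ j, i = j + 1 := ⟨i - 1, by omega⟩
    obtain ⟨C1, hC10, hC1⟩ := oI (j + 1) (by omega)
    obtain ⟨C2, hC20, hC2⟩ : ∃ C : ℝ, 0 ≤ C ∧ ∀ z ∈ Ω,
        ‖iteratedFDeriv ℝ j (fun z : Z => (w (σ z))⁻¹) z‖ * w (σ z) ^ j ≤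
          C * (w (σ z))⁻¹ := by
      rcases Nat.eq_zero_or_pos j with hj | hj
      · subst hj
        refine ⟨1, zero_le_one, fun z hz => ?_⟩
        rw [norm_iteratedFDeriv_zero, pow_zero, mul_one, one_mul, Real.norm_eq_abs,
          abs_of_pos (inv_pos.2 (he z hz))]
      · exact oI j hj
    refine ⟨C1 * c + (j + 1) * C2, by positivity, fun z hz => ?_⟩
    have hez := he z hz
    have h2 := smul_lin_bd (n := j) π hπ (f := fun z : Z => (w (σ z))⁻¹) (x := z)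
      ((hIs z hz).of_le (by exact_mod_cast le_top))
    have h3 := hC1 z hz
    have h4 := hC2 z hz
    have h5 : ‖π z‖ ≤ c * w (σ z) := hz.2.2
    calc ‖iteratedFDeriv ℝ (j + 1) (fun z : Z => (w (σ z))⁻¹ • π z) z‖ * w (σ z) ^ (j + 1)
        ≤ (‖iteratedFDeriv ℝ (j + 1) (fun z : Z => (w (σ z))⁻¹) z‖ * ‖π z‖ +
          (j + 1) * ‖iteratedFDeriv ℝ j (fun z : Z => (w (σ z))⁻¹) z‖) *
            w (σ z) ^ (j + 1) := mul_le_mul_of_nonneg_right h2 (by positivity)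
      _ = (‖iteratedFDeriv ℝ (j + 1) (fun z : Z => (w (σ z))⁻¹) z‖ * w (σ z) ^ (j + 1)) *
            ‖π z‖ + (j + 1) * (‖iteratedFDeriv ℝ j (fun z : Z => (w (σ z))⁻¹) z‖ *
              w (σ z) ^ j) * w (σ z) := by ring
      _ ≤ (C1 * (w (σ z))⁻¹) * (c * w (σ z)) + (j + 1) * (C2 * (w (σ z))⁻¹) * w (σ z) := by
          refine add_le_add ?_ ?_
          · exact mul_le_mul h3 h5 (norm_nonneg _) (by positivity)
          · refine mul_le_mul_of_nonneg_right ?_ hez.le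
            exact mul_le_mul_of_nonneg_left h4 (by positivity)
      _ = (C1 * c + (j + 1) * C2) * 1 := by
          field_simp
  have hWs : ∀ z ∈ Ω, ContDiffAt ℝ ∞ (fun z : Z => (w (σ z))⁻¹ • π z) z := fun z hz =>
    (hIs z hz).smul π.contDiff.contDiffAt
  have oP := ord_pair (f := fun z : Z => σ z) (fun z _ => σ.contDiff.contDiffAt) hWs he
    (fun _ _ => zero_le_one) oσ oW
  -- the compact set
  have hmem : ∀ z ∈ Ω, ((σ z, (w (σ z))⁻¹ • π z) : ℝ × U) ∈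
      (Icc (0 : ℝ) r0) ×ˢ (closedBall (0 : U) c) := by
    intro z hz
    have hez := he z hz
    have h5 : ‖π z‖ ≤ c * w (σ z) := hz.2.2
    refine ⟨⟨hz.1.le, hz.2.1.le⟩, ?_⟩
    rw [mem_closedBall_zero_iff, norm_smul, norm_inv, Real.norm_eq_abs, abs_of_pos hez,
      inv_mul_le_iff₀ hez, mul_comm]
    exact h5
  have hK : IsCompact ((Icc (0 : ℝ) r0) ×ˢ (closedBall (0 : U) c)) :=
    isCompact_Icc.prod (isCompact_closedBall _ _)
  have oR : Ord Ω (fun z => w (σ z)) (fun _ => 1)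
      (fun z : Z => Ψ (σ z, (w (σ z))⁻¹ • π z)) := by
    refine ord_comp (l := fun _ => 1) (g := Ψ) he (fun _ _ => one_pos) (fun _ _ => zero_le_one)
      (fun z hz => σ.contDiff.contDiffAt.prodMk (hWs z hz)) (fun z _ => hΨ.contDiffAt) oP ?_
    intro i hi
    obtain ⟨M, hM⟩ := hK.exists_bound_of_continuousOn (f := iteratedFDeriv ℝ i Ψ)
      (hΨ.continuous_iteratedFDeriv (by exact_mod_cast le_top)).continuousOn
    refine ⟨max M 0, le_max_right _ _, fun z hz => ?_⟩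
    rw [one_pow, mul_one, mul_one]
    exact (hM _ (hmem z hz)).trans (le_max_left _ _)
  have hRs : ∀ z ∈ Ω, ContDiffAt ℝ ∞
      (fun z : Z => Ψ (σ z, (w (σ z))⁻¹ • π z)) z := fun z hz =>
    ContDiffAt.comp (g := Ψ) z hΨ.contDiffAt (σ.contDiff.contDiffAt.prodMk (hWs z hz))
  obtain ⟨M, hM⟩ := hK.exists_bound_of_continuousOn (f := Ψ) hΨ.continuous.continuousOn
  have oF := ord_smul he (fun z hz => (he z hz).le) (fun _ _ => zero_le_one) hLs hRs oL oR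
    ⟨1, zero_le_one, fun z hz => by
      rw [one_mul, Real.norm_eq_abs, abs_of_pos (he z hz)]⟩
    ⟨max M 0, le_max_right _ _, fun z hz => by
      rw [mul_one]
      exact (hM _ (hmem z hz)).trans (le_max_left _ _)⟩
  -- comparison
  intro i hi
  obtain ⟨C, hC0, hC⟩ := oF i hi
  refine ⟨C, hC0, fun z hz => ?_⟩
  have h1 : ‖iteratedFDeriv ℝ i (fun z : Z => w (σ z) • Ψ (σ z, (w (σ z))⁻¹ • π z)) z‖ *
      w (σ z) ^ i ≤ C * (w (σ z) * 1) := hC z hz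
  rw [mul_one] at h1
  have hev : hn w Ψ σ π =ᶠ[𝓝 z] fun z : Z => w (σ z) • Ψ (σ z, (w (σ z))⁻¹ • π z) := by
    have e1 : ∀ᶠ y : Z in 𝓝 z, 0 < σ y := (isOpen_Ioi.preimage σ.continuous).mem_nhds hz.1
    filter_upwards [e1] with y h1
    exact if_pos h1
  rw [(hev.iteratedFDeriv (𝕜 := ℝ) i).self_of_nhds]
  exact h1

/-- the horn is trivial off the region -/
theorem hn_off (hw : Gauge w κ) (hfar : ∀ s u, c ≤ ‖u‖ → Ψ (s, u) = 0) (hr0 : r0 ≤ κ)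
    {z : Z} (hz0 : σ z = 0 → π z ≠ 0) (hz : σ z < r0) (hcpos : 0 < c)
    (hΩ : z ∉ Oh w σ π c r0) : hn w Ψ σ π =ᶠ[𝓝 z] fun _ => 0 := by
  rcases lt_trichotomy (σ z) 0 with h | h | h
  · filter_upwards [(isOpen_Iio.preimage σ.continuous).mem_nhds h] with y hy
    exact if_neg (not_lt.2 (le_of_lt hy))
  · have hp : 0 < ‖π z‖ := norm_pos_iff.2 (hz0 h)
    have e1 : ∀ᶠ r in 𝓝[>] (0:ℝ), w r < ‖π z‖ / 2 / c :=
      hw.tend.eventually_lt_const (by positivity)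
    obtain ⟨u, hu, hu1⟩ := (mem_nhdsGT_iff_exists_Ioo_subset' (zero_lt_one (α := ℝ))).1 e1
    have hu0 : (0:ℝ) < u := hu
    have e2 : ∀ᶠ y in 𝓝 z, σ y < min u κ :=
      (isOpen_Iio.preimage σ.continuous).mem_nhds (by
        show σ z < min u κ
        rw [h]
        exact lt_min hu0 hw.κ_pos)
    have e3 : ∀ᶠ y in 𝓝 z, ‖π z‖ / 2 < ‖π y‖ :=
      (isOpen_Ioi.preimage π.continuous.norm).mem_nhds (by show ‖π z‖ / 2 < ‖π z‖; linarith)
    filter_upwards [e2, e3] with y h2 h3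
    by_cases hy : 0 < σ y
    · have h4 : w (σ y) < ‖π z‖ / 2 / c := hu1 ⟨hy, h2.trans_le (min_le_left _ _)⟩
      rw [lt_div_iff₀ hcpos] at h4
      exact hn_far hw hfar (h2.trans_le (min_le_right _ _)) (by linarith)
    · exact if_neg hy
  · have h3 : c * w (σ z) < ‖π z‖ := by
      by_contra hcon
      exact hΩ ⟨h, hz, not_lt.1 hcon⟩
    have hcont : ContinuousAt (fun y : Z => c * w (σ y)) z := by
      have h4 : ContinuousAt w (σ z) := (hw.smooth _ h (hz.trans_le hr0)).continuousAt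
      exact continuousAt_const.mul (ContinuousAt.comp (g := w) (f := σ) h4 σ.continuous.continuousAt)
    have e4 : ∀ᶠ y : Z in 𝓝 z, c * w (σ y) < ‖π y‖ :=
      hcont.eventually_lt π.continuous.norm.continuousAt h3
    have e5 : ∀ᶠ y in 𝓝 z, σ y < r0 := (isOpen_Iio.preimage σ.continuous).mem_nhds hz
    filter_upwards [e4, e5] with y h4 h5
    exact hn_far hw hfar (h5.trans_le hr0) h4.le

/-- **Bounds for the derivatives of the horn.** -/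
theorem hn_bigO (hw : Gauge w κ) (hσ : ‖σ‖ ≤ 1) (hπ : ‖π‖ ≤ 1) {N : ℝ} (hN : 0 ≤ N)
    (hZ : ∀ z, ‖z‖ ≤ |σ z| + N * ‖π z‖) (hΨ : ContDiff ℝ ∞ Ψ)
    (hfar : ∀ s u, c ≤ ‖u‖ → Ψ (s, u) = 0) (hc : 0 < c) (j : ℕ) : ∃ C : ℝ,
    ∀ᶠ z in 𝓝[≠] (0 : Z), ‖iteratedFDeriv ℝ (j + 1) (hn w Ψ σ π) z‖ * w ‖z‖ ^ j ≤ C := by
  obtain ⟨k, hk0, hkκ, -, hk1⟩ := hw.exists_small (b := κ) hw.κ_pos
  obtain ⟨A, hA0, hA⟩ := hw.deriv_bd
  obtain ⟨C, hC0, hC⟩ := hn_ord (σ := σ) (π := π) (r0 := k) hw hσ hπ hΨ hc.le hkκ.le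
    (fun r h1 h2 => hk1 r h1 h2.le) (j + 1) (by omega)
  refine ⟨C * (1 + A * (N * c)) ^ j, ?_⟩
  have e3 : ∀ᶠ z : Z in 𝓝[≠] 0, ‖z‖ < k := by
    refine nhdsWithin_le_nhds ?_
    have t : Tendsto (fun z : Z => ‖z‖) (𝓝 0) (𝓝 ‖(0 : Z)‖) := continuous_norm.tendsto _
    rw [norm_zero] at t
    exact t.eventually_lt_const hk0
  filter_upwards [e3, self_mem_nhdsWithin] with z hz hz0
  have hz0' : 0 < ‖z‖ := norm_pos_iff.2 hz0
  have hσz : |σ z| ≤ ‖z‖ := by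
    have := σ.le_opNorm z
    rw [Real.norm_eq_abs] at this
    exact this.trans (mul_le_of_le_one_left (norm_nonneg _) hσ)
  by_cases hΩ : z ∈ Oh w σ π c k
  · have h1 := hC z hΩ
    obtain ⟨h2, h3, h4⟩ := hΩ
    have hwz : 0 < w (σ z) := hw.pos _ h2 (h3.trans hkκ)
    have h5 : w ‖z‖ ≤ (1 + A * (N * c)) * w (σ z) := by
      have h6 := hw.lip hA hz0' (hz.trans hkκ) h2 (h3.trans hkκ)
      have h7 : |‖z‖ - σ z| ≤ N * (c * w (σ z)) := by
        rw [abs_of_nonneg (by linarith [le_abs_self (σ z)])]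
        have h8 := hZ z
        rw [abs_of_pos h2] at h8
        have h9 : N * ‖π z‖ ≤ N * (c * w (σ z)) := mul_le_mul_of_nonneg_left h4 hN
        linarith
      have h8 : A * |‖z‖ - σ z| ≤ A * (N * (c * w (σ z))) := mul_le_mul_of_nonneg_left h7 hA0
      have h9 := (abs_le.1 h6).2
      nlinarith
    have h6 : w ‖z‖ ^ j ≤ ((1 + A * (N * c)) * w (σ z)) ^ j :=
      pow_le_pow_left₀ (hw.pos _ hz0' (hz.trans hkκ)).le h5 j
    rw [pow_succ, ← mul_assoc] at h1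
    have h7 := le_of_mul_le_mul_right h1 hwz
    calc ‖iteratedFDeriv ℝ (j + 1) (hn w Ψ σ π) z‖ * w ‖z‖ ^ j
        ≤ ‖iteratedFDeriv ℝ (j + 1) (hn w Ψ σ π) z‖ * ((1 + A * (N * c)) * w (σ z)) ^ j :=
          mul_le_mul_of_nonneg_left h6 (norm_nonneg _)
      _ = (‖iteratedFDeriv ℝ (j + 1) (hn w Ψ σ π) z‖ * w (σ z) ^ j) *
          (1 + A * (N * c)) ^ j := by rw [mul_pow]; ring
      _ ≤ C * (1 + A * (N * c)) ^ j := mul_le_mul_of_nonneg_right h7 (by positivity)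
  · have hne : σ z = 0 → π z ≠ 0 := by
      intro h1 h2
      have := hZ z
      rw [h1, h2, norm_zero, abs_zero] at this
      linarith
    have hev := hn_off hw hfar hkκ.le hne (lt_of_le_of_lt ((le_abs_self _).trans hσz) hz) hc hΩ
    rw [(hev.iteratedFDeriv (𝕜 := ℝ) (j + 1)).self_of_nhds,
      iteratedFDeriv_const_of_ne (by omega)]
    simp only [Pi.zero_apply, norm_zero, zero_mul]
    positivity

/-- contact -/
theorem hn_contact (hw : Gauge w κ) (hσ : ‖σ‖ ≤ 1) (hΨ : ContDiff ℝ ∞ Ψ)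
    (hfar : ∀ s u, c ≤ ‖u‖ → Ψ (s, u) = 0) : ∃ C : ℝ, 0 ≤ C ∧
    ∀ᶠ z in 𝓝[≠] (0 : Z), |hn w Ψ σ π z| ≤ C * w ‖z‖ := by
  have hK : IsCompact ((Icc (0 : ℝ) κ) ×ˢ (closedBall (0 : U) c)) :=
    isCompact_Icc.prod (isCompact_closedBall _ _)
  obtain ⟨M, hM⟩ := hK.exists_bound_of_continuousOn (f := Ψ) hΨ.continuous.continuousOn
  refine ⟨max M 0, le_max_right _ _, ?_⟩
  have e3 : ∀ᶠ z : Z in 𝓝[≠] 0, ‖z‖ < κ := by
    refine nhdsWithin_le_nhds ?_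
    have t : Tendsto (fun z : Z => ‖z‖) (𝓝 0) (𝓝 ‖(0 : Z)‖) := continuous_norm.tendsto _
    rw [norm_zero] at t
    exact t.eventually_lt_const hw.κ_pos
  filter_upwards [e3, self_mem_nhdsWithin] with z hz hz0
  have hz0' : 0 < ‖z‖ := norm_pos_iff.2 hz0
  have hwz : 0 < w ‖z‖ := hw.pos _ hz0' hz
  have hσz : |σ z| ≤ ‖z‖ := by
    have := σ.le_opNorm z
    rw [Real.norm_eq_abs] at this
    exact this.trans (mul_le_of_le_one_left (norm_nonneg _) hσ)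
  unfold hn
  split_ifs with h1
  · have h2 : σ z ≤ ‖z‖ := (le_abs_self _).trans hσz
    have h3 : 0 < w (σ z) := hw.pos _ h1 (h2.trans_lt hz)
    have h4 : w (σ z) ≤ w ‖z‖ := hw.mono ⟨h1, h2.trans_lt hz⟩ ⟨hz0', hz⟩ h2
    have h5 : |Ψ (σ z, (w (σ z))⁻¹ • π z)| ≤ max M 0 := by
      rcases le_or_gt c ‖(w (σ z))⁻¹ • π z‖ with h6 | h6
      · rw [hfar _ _ h6, abs_zero]
        exact le_max_right _ _
      · refine le_trans ?_ (le_max_left _ _)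
        rw [← Real.norm_eq_abs]
        exact hM _ ⟨⟨h1.le, (h2.trans_lt hz).le⟩, mem_closedBall_zero_iff.2 h6.le⟩
    rw [abs_mul, abs_of_pos h3, mul_comm]
    exact mul_le_mul h5 h4 h3.le (le_max_right _ _)
  · rw [abs_zero]
    exact mul_nonneg (le_max_right _ _) hwz.le

omit [FiniteDimensional ℝ U] in
/-- smoothness of the horn -/
theorem hn_smooth {w' : ℝ → ℝ} (hw : ∀ s, 0 < s → 0 < w' s ∧ ContDiffAt ℝ ∞ w' s)
    (hΨ : ContDiff ℝ ∞ Ψ) {z : Z} (hz : 0 < σ z) : ContDiffAt ℝ ∞ (hn w' Ψ σ π) z := by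
  have hev : hn w' Ψ σ π =ᶠ[𝓝 z] fun z : Z => w' (σ z) * Ψ (σ z, (w' (σ z))⁻¹ • π z) := by
    have e1 : ∀ᶠ y : Z in 𝓝 z, 0 < σ y := (isOpen_Ioi.preimage σ.continuous).mem_nhds hz
    filter_upwards [e1] with y h1
    exact if_pos h1
  refine ContDiffAt.congr_of_eventuallyEq ?_ hev
  have h1 : ContDiffAt ℝ ∞ (fun z : Z => w' (σ z)) z :=
    ContDiffAt.comp (g := w') z (hw _ hz).2 σ.contDiff.contDiffAt
  have h2 : ContDiffAt ℝ ∞ (fun z : Z => (w' (σ z))⁻¹ • π z) z :=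
    (h1.inv (hw _ hz).1.ne').smul π.contDiff.contDiffAt
  exact h1.mul (ContDiffAt.comp (g := Ψ) z hΨ.contDiffAt (σ.contDiff.contDiffAt.prodMk h2))

end Pool.Agent.H816.Mo
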