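import Pool.Agent.H816.Mo4

/-!
# Choice of the parameters; properties of the model
-/

set_option autoImplicit false
set_option linter.unusedSectionVars false

open Set Filter Topology Metric Function
open scoped ContDiff Nat

noncomputable section

namespace Pool.Agent.H816.Mo

open Pool.Agent.H816 Pool.Agent.H816.Fam

section par

variable {η : ℝ → ℝ} {κ k : ℝ}

theorem cut_anti {k r s : ℝ} (hk : 0 < k) (hrs : r ≤ s) : cut k s ≤ cut k r := by
  unfold cut
  refine Real.smoothTransition.monotone ?_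
  have : 4 * r / k ≤ 4 * s / k := div_le_div_of_nonneg_right (by linarith) hk.le
  linarith

theorem gφ_mono (hk : 0 < k) (hg : Gauge η κ) (hkκ : k < κ)
    (h1 : ∀ r, 0 < r → r ≤ k → η r ≤ 1) : MonotoneOn (gφ η k) (Ioi 0) := by
  intro r hr s hs hrs
  rcases le_or_gt (3 * k / 4) s with h | h
  · rw [gφ_far hk h]
    exact gφ_le hk h1 hr
  · have h2 := cut_anti hk hrs
    have h3 := cut_nonneg k r
    have h4 := h1 s hs (by linarith)
    have h5 : η r ≤ η s := hg.mono ⟨hr, by linarith⟩ ⟨hs, by linarith⟩ hrs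
    unfold gφ
    nlinarith

/-- the width -/
def wd (η : ℝ → ℝ) (k s : ℝ) : ℝ := (1 + s) / 8 * gφ η k s

theorem wd_eq (hk : 0 < k) {s : ℝ} (hs : s ≤ k / 2) : wd η k s = (1 + s) / 8 * η s := by
  unfold wd
  rw [gφ_end hk hs]

theorem lin_smooth : ContDiff ℝ ∞ fun s : ℝ => (1 + s) / 8 :=
  (contDiff_const.add contDiff_id).div_const _

/-- the width is a gauge -/
theorem wd_gauge (hk : 0 < k) (hk1 : k ≤ 1) (hg : Gauge η κ) (hkκ : k < κ)
    (h1 : ∀ r, 0 < r → r ≤ k → η r ≤ 1) : Gauge (wd η k) (k / 2) := by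
  have hpos : ∀ r, 0 < r → r ≤ k → 0 < η r := fun r h1 h2 => hg.pos r h1 (by linarith)
  refine ⟨by positivity, ?_, ?_, ?_, ?_, ?_⟩
  · intro r hr hr'
    rw [wd_eq hk hr'.le]
    have := hpos r hr (by linarith)
    positivity
  · intro r hr hr'
    exact lin_smooth.contDiffAt.mul (gφ_smooth hk hg hkκ hr)
  · intro r hr s hs hrs
    have h2 := gφ_mono hk hg hkκ h1 hr.1 hs.1 hrs
    have h3 := gφ_pos hk hpos hr.1
    have h4 : 0 < r := hr.1
    unfold wd
    exact mul_le_mul (by linarith) h2 h3.le (by linarith)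
  · have t1 : Tendsto (fun s : ℝ => (1 + s) / 8) (𝓝[>] 0) (𝓝 ((1 + 0) / 8)) :=
      (lin_smooth.continuous.tendsto 0).mono_left nhdsWithin_le_nhds
    have t2 := t1.mul hg.tend
    rw [mul_zero] at t2
    refine t2.congr' ?_
    filter_upwards [Ioo_mem_nhdsGT (show (0:ℝ) < k / 2 by linarith)] with r hr
    exact (wd_eq hk hr.2.le).symm
  · intro j
    have he : ∀ z ∈ Ioo (0:ℝ) (k / 2), 0 < η z := fun z hz => hpos z hz.1 (by linarith [hz.2])
    have he1 : ∀ z ∈ Ioo (0:ℝ) (k / 2), η z ≤ 1 := fun z hz => h1 z hz.1 (by linarith [hz.2])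
    have hηs : ∀ z ∈ Ioo (0:ℝ) (k / 2), ContDiffAt ℝ ∞ η z := fun z hz =>
      hg.smooth z hz.1 (by linarith [hz.2])
    have o1 : Ord (Ioo (0:ℝ) (k / 2)) η (fun _ => 1) (fun s : ℝ => (1 + s) / 8) := by
      intro i hi
      obtain ⟨M, hM⟩ := (isCompact_Icc (a := (0:ℝ)) (b := k / 2)).exists_bound_of_continuousOn
        (f := iteratedFDeriv ℝ i fun s : ℝ => (1 + s) / 8)
        (lin_smooth.continuous_iteratedFDeriv (by exact_mod_cast le_top)).continuousOn
      refine ⟨max M 0, le_max_right _ _, fun z hz => ?_⟩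
      have h2 := hM z ⟨hz.1.le, hz.2.le⟩
      have h3 : η z ^ i ≤ 1 := pow_le_one₀ (he z hz).le (he1 z hz)
      exact mul_le_mul (h2.trans (le_max_left _ _)) h3 (pow_nonneg (he z hz).le _)
        (le_max_right _ _)
    have o2 : Ord (Ioo (0:ℝ) (k / 2)) η η η := by
      intro i hi
      obtain ⟨l, rfl⟩ : ∃ l, i = l + 1 := ⟨i - 1, by omega⟩
      obtain ⟨C, hC0, hC⟩ := hg.bd' l
      refine ⟨C, hC0, fun z hz => ?_⟩
      rw [pow_succ, ← mul_assoc]
      exact mul_le_mul_of_nonneg_right (hC z hz.1 (by linarith [hz.2])) (he z hz).le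
    have o3 := ord_smul (w1 := fun _ => (1:ℝ)) (w2 := η) he (fun _ _ => zero_le_one)
      (fun z hz => (he z hz).le) (fun z _ => lin_smooth.contDiffAt) hηs o1 o2
      ⟨1, zero_le_one, fun z hz => by
        have h2 : 0 < z := hz.1
        rw [Real.norm_eq_abs, abs_of_pos (by positivity)]
        linarith [hz.2]⟩
      ⟨1, zero_le_one, fun z hz => by
        rw [one_mul, Real.norm_eq_abs, abs_of_pos (he z hz)]⟩
    obtain ⟨C, hC0, hC⟩ := o3 (j + 1) (by omega)
    refine ⟨C, fun r hr hr' => ?_⟩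
    have hez := he r ⟨hr, hr'⟩
    have h2 : ‖iteratedFDeriv ℝ (j + 1) (fun s : ℝ => ((1 + s) / 8) • η s) r‖ * η r ^ (j + 1) ≤
      C * (1 * η r) := hC r ⟨hr, hr'⟩
    have hev : wd η k =ᶠ[𝓝 r] fun s : ℝ => ((1 + s) / 8) • η s := by
      filter_upwards [isOpen_Iio.mem_nhds hr'] with s hs
      exact wd_eq hk (le_of_lt hs)
    rw [(hev.iteratedFDeriv (𝕜 := ℝ) (j + 1)).self_of_nhds]
    rw [pow_succ, ← mul_assoc, ← mul_assoc, mul_one] at h2
    have h3 := le_of_mul_le_mul_right h2 hez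
    have h4 : wd η k r ^ j ≤ η r ^ j := by
      rw [wd_eq hk hr'.le]
      refine pow_le_pow_left₀ (by positivity) ?_ j
      refine mul_le_of_le_one_left hez.le ?_
      linarith
    exact (mul_le_mul_of_nonneg_left h4 (norm_nonneg _)).trans h3

/-- **Existence of the parameters.** -/
theorem exists_dat (hg : Gauge η κ) : ∃ (m : ℝ → ℝ) (C R1 R3 Rb : ℝ) (w : ℝ → ℝ) (κ' : ℝ),
    Dat m C R1 R3 Rb w ∧ Gauge w κ' ∧ κ' ≤ κ ∧ ∀ r, 0 < r → r < κ' → w r ≤ η r ∧ η r ≤ 8 * w r := by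
  obtain ⟨m, C, hC, hm⟩ := exists_mst
  obtain ⟨k, hk, hkκ, hk1, h1⟩ := hg.exists_small (b := 1) one_pos
  have hpos : ∀ r, 0 < r → r ≤ k → 0 < η r := fun r h1 h2 => hg.pos r h1 (by linarith)
  have hwg := wd_gauge hk hk1 hg hkκ h1
  obtain ⟨w, hw⟩ : ∃ w, w = wd η k := ⟨_, rfl⟩
  rw [← hw] at hwg
  have hwpos : ∀ s, 0 < s → 0 < w s := fun s hs => by
    rw [hw]
    exact mul_pos (by positivity) (gφ_pos hk hpos hs)
  have hwsm : ∀ s, 0 < s → ContDiffAt ℝ ∞ w s := fun s hs => by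
    rw [hw]
    exact lin_smooth.contDiffAt.mul (gφ_smooth hk hg hkκ hs)
  -- the lower bound
  obtain ⟨w1, hw1, hw1'⟩ : ∃ w1 : ℝ, 0 < w1 ∧ ∀ s ∈ Icc (1 / 2 : ℝ) 3, w1 ≤ w s := by
    obtain ⟨s0, hs0, hs0'⟩ := (isCompact_Icc (a := (1 / 2 : ℝ)) (b := 3)).exists_isMinOn
      ⟨1, by norm_num, by norm_num⟩ (f := w) (fun s hs => (hwsm s (by
        have : (1 / 2 : ℝ) ≤ s := hs.1
        linarith)).continuousAt.continuousWithinAt)
    have h3 : (1 / 2 : ℝ) ≤ s0 := hs0.1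
    exact ⟨w s0, hwpos s0 (by linarith), fun s hs => hs0' hs⟩
  obtain ⟨R1, hR1, hR1a, hR1b⟩ : ∃ R1 : ℝ, 1 ≤ R1 ∧ 3 * C ≤ R1 ∧ 6 * C ≤ R1 * w1 := by
    refine ⟨1 + 3 * C + 6 * C / w1, ?_, ?_, ?_⟩
    · have : 0 ≤ 6 * C / w1 := by positivity
      linarith
    · have : 0 ≤ 6 * C / w1 := by positivity
      linarith
    · have h3 : 6 * C / w1 * w1 = 6 * C := by field_simp
      have h4 : 0 ≤ (1 + 3 * C) * w1 := by positivity
      nlinarith
  obtain ⟨R3, hR3⟩ : ∃ R3 : ℝ, R3 = 512 * (C * R1) ^ 2 + 2 := ⟨_, rfl⟩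
  have hR3pos : 0 < R3 := by rw [hR3]; positivity
  refine ⟨m, C, R1, R3, max R1 (78 * C), w, k / 2, ⟨hm, hwpos, hwsm, hwg.tend, ?_, ?_, hR1, hR1a,
    ?_, ?_, ?_, le_max_left _ _, le_max_right _ _⟩, hwg, by linarith, ?_⟩
  · intro s hs hs3
    rw [hw]
    unfold wd
    have h2 := gφ_le hk h1 hs
    have h3 := gφ_pos hk hpos hs
    nlinarith
  · intro s hs
    have h2 : HasDerivAt w (1 / 8 * gφ η k s + (1 + s) / 8 * deriv (gφ η k) s) s := by
      have h3 : HasDerivAt (fun s : ℝ => (1 + s) / 8) (1 / 8) s :=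
        ((hasDerivAt_id s).const_add 1).div_const 8
      have h4 : HasDerivAt (gφ η k) (deriv (gφ η k) s) s :=
        ((gφ_smooth hk hg hkκ hs).differentiableAt (by simp)).hasDerivAt
      rw [hw]
      exact h3.fun_mul h4
    rw [h2.deriv]
    have h3 := gφ_pos hk hpos hs
    have h4 : 0 ≤ deriv (gφ η k) s := by
      have h5 := (gφ_mono hk hg hkκ h1).derivWithin_nonneg (x := s)
      rwa [derivWithin_of_isOpen isOpen_Ioi hs] at h5
    have h5 : 0 ≤ (1 + s) / 8 * deriv (gφ η k) s := mul_nonneg (by positivity) h4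
    linarith
  · intro s hs hs3
    refine hR1b.trans (mul_le_mul_of_nonneg_left (hw1' s ⟨hs, hs3⟩) (by linarith))
  · rw [hR3]
    have : 0 ≤ 512 * (C * R1) ^ 2 := by positivity
    linarith
  · intro u hu
    rcases le_or_gt 2 (u ^ 2 / R3) with h2 | h2
    · rw [hm.d_right h2, abs_zero, zero_mul, zero_mul]
      norm_num
    · have h3 : u ^ 2 < 2 * R3 := by rwa [div_lt_iff₀ hR3pos] at h2
      have h4 : 16 * (C * R1) * u ≤ R3 := by
        refine abs_le_of_sq_le_sq' ?_ hR3pos.le |>.2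
        have h5 : (16 * (C * R1) * u) ^ 2 = 256 * (C * R1) ^ 2 * u ^ 2 := by ring
        rw [h5]
        have h6 : 256 * (C * R1) ^ 2 * u ^ 2 ≤ 256 * (C * R1) ^ 2 * (2 * R3) :=
          mul_le_mul_of_nonneg_left h3.le (by positivity)
        have h7 : 512 * (C * R1) ^ 2 ≤ R3 := by rw [hR3]; linarith
        nlinarith
      calc |deriv m (u ^ 2 / R3)| * (2 * u / R3) * (4 * R1)
          ≤ C * (2 * u / R3) * (4 * R1) := by
            refine mul_le_mul_of_nonneg_right ?_ (by linarith)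
            exact mul_le_mul_of_nonneg_right (hm.dbd _) (by positivity)
        _ = (16 * (C * R1) * u) / R3 * (1 / 2) := by ring
        _ ≤ 1 * (1 / 2) := by
            refine mul_le_mul_of_nonneg_right ?_ (by norm_num)
            rw [div_le_one hR3pos]
            exact h4
        _ = 1 / 2 := one_mul _
  · intro r hr hr'
    rw [hw, wd_eq hk hr'.le]
    have h2 := hpos r hr (by linarith)
    constructor
    · refine mul_le_of_le_one_left h2.le ?_
      linarith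
    · have : 8 * ((1 + r) / 8 * η r) = (1 + r) * η r := by ring
      rw [this]
      nlinarith

end par

section model

variable {V : Type*} [NormedAddCommGroup V] [InnerProductSpace ℝ V]

variable {m : ℝ → ℝ} {C R1 R3 Rb : ℝ} {w : ℝ → ℝ} {J : V →L[ℝ] V}

theorem q_smooth : ContDiff ℝ ∞ (q J) := J.contDiff.inner ℝ contDiff_id

theorem ps_smooth (h : Mst m C) : ContDiff ℝ ∞ (ps m) :=
  h.smooth.comp (((contDiff_id.pow 2).add contDiff_const).div_const _)

theorem F0_smooth : ContDiff ℝ ∞ (F0 J) := by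
  unfold F0
  exact ((contDiff_fst.pow 3).sub ((contDiff_fst.comp contDiff_snd).mul contDiff_fst)).add
    (q_smooth.comp (contDiff_snd.comp contDiff_snd))

theorem P0_smooth (h : Mst m C) : ContDiff ℝ ∞ (P0 (V := V) m Rb) := by
  unfold P0
  have h1 : ContDiff ℝ ∞ fun z : ℝ × ℝ × V => ps m z.2.1 :=
    (ps_smooth h).comp (contDiff_fst.comp contDiff_snd)
  have h2 : ContDiff ℝ ∞ fun z : ℝ × ℝ × V => m (‖z.2.2‖ ^ 2 / Rb) :=
    h.smooth.comp (((contDiff_snd.comp contDiff_snd).norm_sq ℝ).div_const _)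
  have h3 : ContDiff ℝ ∞ fun z : ℝ × ℝ × V => ps m z.1 := (ps_smooth h).comp contDiff_fst
  exact (h1.mul h2).mul (h3.mul (contDiff_fst.mul
    ((contDiff_const.add (contDiff_fst.comp contDiff_snd)).sub (contDiff_fst.pow 2))))

/-- the profile as a function on a product -/
def PsiU (m : ℝ → ℝ) (R1 R3 : ℝ) (J : V →L[ℝ] V) (p : ℝ × (ℝ × V)) : ℝ :=
  Psi m R1 R3 J p.1 p.2.1 p.2.2

theorem PsiU_smooth (h : Mst m C) : ContDiff ℝ ∞ (PsiU m R1 R3 J) := by
  unfold PsiU Psi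
  have ht : ContDiff ℝ ∞ fun p : ℝ × (ℝ × V) => p.2.1 := contDiff_fst.comp contDiff_snd
  have hτ : ContDiff ℝ ∞ fun p : ℝ × (ℝ × V) => p.2.2 := contDiff_snd.comp contDiff_snd
  have h1 : ContDiff ℝ ∞ fun p : ℝ × (ℝ × V) => ps m p.1 := (ps_smooth h).comp contDiff_fst
  have h2 : ∀ c : ℝ, ContDiff ℝ ∞ fun p : ℝ × (ℝ × V) => m (‖p.2.2‖ ^ 2 / c) := fun c =>
    h.smooth.comp ((hτ.norm_sq ℝ).div_const _)
  have h3 : ContDiff ℝ ∞ fun p : ℝ × (ℝ × V) => m (p.2.1 ^ 2) := h.smooth.comp (ht.pow 2)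
  have h4 : ContDiff ℝ ∞ fun p : ℝ × (ℝ × V) => m (p.2.1 ^ 2 / R3) :=
    h.smooth.comp ((ht.pow 2).div_const _)
  have h5 : ContDiff ℝ ∞ fun p : ℝ × (ℝ × V) => m (2 * p.1) :=
    h.smooth.comp (contDiff_const.mul contDiff_fst)
  exact ((h1.mul (h2 _)).mul (ht.mul (contDiff_const.mul h3))).neg.add
    (((h5.mul (h2 _)).mul h4).mul (q_smooth.comp hτ))

/-- the second coordinate -/
def σ0 (V : Type*) [NormedAddCommGroup V] [InnerProductSpace ℝ V] : ℝ × ℝ × V →L[ℝ] ℝ :=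
  (ContinuousLinearMap.fst ℝ ℝ V).comp (ContinuousLinearMap.snd ℝ ℝ (ℝ × V))

/-- the other coordinates -/
def π0 (V : Type*) [NormedAddCommGroup V] [InnerProductSpace ℝ V] : ℝ × ℝ × V →L[ℝ] ℝ × V :=
  (ContinuousLinearMap.fst ℝ ℝ (ℝ × V)).prod
    ((ContinuousLinearMap.snd ℝ ℝ V).comp (ContinuousLinearMap.snd ℝ ℝ (ℝ × V)))

theorem H0_eq : H0 m R1 R3 J w = hn w (PsiU m R1 R3 J) (σ0 V) (π0 V) := rfl

theorem H0_smooth (hD : Dat m C R1 R3 Rb w) {z : ℝ × ℝ × V} (hz : z ≠ 0) :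
    ContDiffAt ℝ ∞ (H0 m R1 R3 J w) z := by
  rcases le_or_gt z.2.1 0 with h | h
  · exact contDiffAt_const.congr_of_eventuallyEq (horn_zero hD h hz)
  · rw [H0_eq]
    exact hn_smooth (fun s hs => ⟨hD.w_pos s hs, hD.w_smooth s hs⟩) (PsiU_smooth hD.hm) h

theorem G0_smooth (hD : Dat m C R1 R3 Rb w) {z : ℝ × ℝ × V} (hz : z ≠ 0) :
    ContDiffAt ℝ ∞ (G0 m R1 R3 Rb J w) z :=
  ((F0_smooth.add (P0_smooth hD.hm)).contDiffAt).add (H0_smooth hD hz)

/-- the smooth part of the model near the singular point -/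
def T0 (J : V →L[ℝ] V) (z : ℝ × ℝ × V) : ℝ := z.1 + q J z.2.2

theorem near (hD : Dat m C R1 R3 Rb w) : ∀ᶠ z : ℝ × ℝ × V in 𝓝 0,
    F0 J z + P0 m Rb z = T0 J z := by
  have hRb : 1 ≤ Rb := hD.hR1.trans hD.hRb
  have h1 : ∀ᶠ z : ℝ × ℝ × V in 𝓝 0, ‖z‖ < 1 := by
    filter_upwards [ball_mem_nhds (0 : ℝ × ℝ × V) one_pos] with z hz
    simpa using hz
  filter_upwards [h1] with z hz
  have hx : |z.1| < 1 := (norm_fst_le z).trans_lt hz
  have hs : |z.2.1| < 1 := ((norm_fst_le z.2).trans (norm_snd_le z)).trans_lt hz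
  have hy : ‖z.2.2‖ < 1 := ((norm_snd_le z.2).trans (norm_snd_le z)).trans_lt hz
  have hx2 : z.1 ^ 2 ≤ 4 := by
    rw [← sq_abs]
    nlinarith [abs_nonneg z.1]
  have hs2 : z.2.1 ^ 2 ≤ 4 := by
    rw [← sq_abs]
    nlinarith [abs_nonneg z.2.1]
  have hy2 : ‖z.2.2‖ ^ 2 / Rb ≤ 1 := by
    rw [div_le_one (by linarith)]
    nlinarith [norm_nonneg z.2.2]
  unfold F0 P0 T0
  rw [ps_one hD.hm hx2, ps_one hD.hm hs2, hD.hm.one _ hy2]
  ring

/-- the radius -/
def rad (R1 R3 Rb : ℝ) : ℝ := 3 + sz R1 R3 + 2 * Rb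

theorem far (hD : Dat m C R1 R3 Rb w) {z : ℝ × ℝ × V} (hz : rad R1 R3 Rb ≤ ‖z‖) :
    G0 m R1 R3 Rb J w z = F0 J z := by
  obtain ⟨x, s, y⟩ := z
  have hm := hD.hm
  have hRb : 1 ≤ Rb := hD.hR1.trans hD.hRb
  have hR1 := hD.hR1
  have hR3 := hD.hR3
  have hsz : 0 ≤ sz R1 R3 := by
    unfold sz
    linarith
  unfold rad at hz
  unfold G0
  have hor : 3 ≤ |s| ∨ (3 ≤ |x| ∧ sz R1 R3 ≤ |x|) ∨ (2 * Rb ≤ ‖y‖ ∧ sz R1 R3 ≤ ‖y‖) := by
    have h1 : ‖((x, s, y) : ℝ × ℝ × V)‖ = max |x| (max |s| ‖y‖) := rfl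
    rw [h1] at hz
    rcases le_max_iff.1 hz with h | h
    · right; left
      constructor <;> linarith
    · rcases le_max_iff.1 h with h | h
      · left
        linarith
      · right; right
        constructor <;> linarith
  rcases hor with h | h | h
  · have hs9 : 9 ≤ s ^ 2 := by
      rw [← sq_abs]
      nlinarith
    have e1 : P0 m Rb (x, s, y) = 0 := by
      unfold P0
      rw [ps_zero hm hs9]
      ring
    have e2 : H0 m R1 R3 J w (x, s, y) = 0 := by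
      unfold H0
      split_ifs with h2
      · have h3 : 0 < s := h2
        rw [abs_of_pos h3] at h
        unfold Psi
        rw [ps_zero hm hs9, hm.zero (2 * s) (by linarith)]
        ring
      · rfl
    rw [e1, e2]
    ring
  · have hs9 : 9 ≤ x ^ 2 := by
      rw [← sq_abs]
      nlinarith [h.1]
    have e1 : P0 m Rb (x, s, y) = 0 := by
      unfold P0
      rw [ps_zero hm hs9]
      ring
    have e2 : H0 m R1 R3 J w (x, s, y) = 0 := by
      rcases le_or_gt s 0 with h2 | h2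
      · exact if_neg (not_lt.2 h2)
      · rcases le_or_gt s 3 with h3 | h3
        · refine horn_far hD h2 (Or.inl ?_)
          have := hD.w_le s h2 h3
          nlinarith [h.2, hD.w_pos s h2]
        · have e : H0 m R1 R3 J w (x, s, y) = w s *
            Psi m R1 R3 J s ((w s)⁻¹ * x) ((w s)⁻¹ • y) := if_pos h2
          rw [e]
          unfold Psi
          rw [ps_zero hm (by nlinarith), hm.zero (2 * s) (by linarith)]
          ring
    rw [e1, e2]
    ring
  · have e1 : P0 m Rb (x, s, y) = 0 := by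
      unfold P0
      have : 2 ≤ ‖y‖ ^ 2 / Rb := by
        rw [le_div_iff₀ (by linarith)]
        nlinarith [h.1]
      rw [hm.zero _ this]
      ring
    have e2 : H0 m R1 R3 J w (x, s, y) = 0 := by
      rcases le_or_gt s 0 with h2 | h2
      · exact if_neg (not_lt.2 h2)
      · rcases le_or_gt s 3 with h3 | h3
        · refine horn_far hD h2 (Or.inr ?_)
          have := hD.w_le s h2 h3
          nlinarith [h.2, hD.w_pos s h2]
        · have e : H0 m R1 R3 J w (x, s, y) = w s *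
            Psi m R1 R3 J s ((w s)⁻¹ * x) ((w s)⁻¹ • y) := if_pos h2
          rw [e]
          unfold Psi
          rw [ps_zero hm (by nlinarith), hm.zero (2 * s) (by linarith)]
          ring
    rw [e1, e2]
    ring

/-- the saddle has one critical point -/
theorem F0_crit (hJ : Sy J) {z : ℝ × ℝ × V} (hz : z ≠ 0) : fderiv ℝ (F0 J) z ≠ 0 := by
  intro h0
  obtain ⟨x, s, y⟩ := z
  have hd : DifferentiableAt ℝ (F0 J) (x, s, y) := F0_smooth.differentiable (by simp) _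
  have h1 : HasDerivAt (fun ε : ℝ => F0 J (x, s, y + ε • J y)) (2 * ‖y‖ ^ 2) 0 :=
    (q_line hJ y).const_add (x ^ 3 - s * x)
  have h2 : HasDerivAt (fun x' : ℝ => F0 J (x', s, y)) (3 * x ^ 2 - s) x := by
    have := ((hasDerivAt_pow 3 x).fun_sub ((hasDerivAt_id x).const_mul s)).add_const (q J y)
    refine this.congr_deriv ?_
    simp
  have h3 : HasDerivAt (fun s' : ℝ => F0 J (x, s', y)) (-x) s := by
    have := (((hasDerivAt_id s).mul_const x).const_sub (x ^ 3)).add_const (q J y)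
    refine this.congr_deriv ?_
    simp
  have h4 := lineY hd h0 h1
  have h5 := lineX hd h0 h2
  have h6 := lineS hd h0 h3
  have hx : x = 0 := by linarith
  have hs : s = 0 := by
    rw [hx] at h5
    linarith
  have hy : y = 0 := by
    have : ‖y‖ ^ 2 = 0 := by linarith
    exact norm_eq_zero.1 (pow_eq_zero_iff (two_ne_zero) |>.1 this)
  exact hz (by rw [hx, hs, hy]; rfl)

end model

end Pool.Agent.H816.Mo
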