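import Pool.Agent.H816.Mo2

/-!
# Normal form of nondegenerate indefinite quadratic forms
-/

set_option autoImplicit false

open Set Filter Topology Metric Function Module
open scoped ContDiff

noncomputable section

namespace Pool.Agent.H816.Mo

/-- diagonal operators -/
def diag {k : ℕ} (a : Fin k → ℝ) : EuclideanSpace ℝ (Fin k) →L[ℝ] EuclideanSpace ℝ (Fin k) :=
  LinearMap.toContinuousLinearMap
    { toFun := fun y => WithLp.toLp 2 fun i => a i * y i
      map_add' := fun x y => by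
        ext i
        simp [mul_add]
      map_smul' := fun c y => by
        ext i
        simp
        ring }

theorem diag_apply {k : ℕ} (a : Fin k → ℝ) (y : EuclideanSpace ℝ (Fin k)) (i : Fin k) :
    diag a y i = a i * y i := rfl

theorem diag_sy {k : ℕ} {a : Fin k → ℝ} (ha : ∀ i, a i = -1 ∨ a i = 1) : Sy (diag a) := by
  refine ⟨fun x y => ?_, fun x => ?_⟩
  · rw [PiLp.inner_apply, PiLp.inner_apply]
    refine Finset.sum_congr rfl fun i _ => ?_
    simp only [diag_apply, RCLike.inner_apply, conj_trivial]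
    ring
  · rw [EuclideanSpace.norm_eq, EuclideanSpace.norm_eq]
    congr 1
    refine Finset.sum_congr rfl fun i _ => ?_
    rw [diag_apply, norm_mul]
    rcases ha i with h | h <;> rw [h] <;> simp

theorem diag_q {k : ℕ} (a : Fin k → ℝ) (y : EuclideanSpace ℝ (Fin k)) :
    q (diag a) y = ∑ i, a i * (y i * y i) := by
  unfold q
  rw [PiLp.inner_apply]
  refine Finset.sum_congr rfl fun i _ => ?_
  simp only [diag_apply, RCLike.inner_apply, conj_trivial]
  ring

/-- the linear coordinates -/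
def cof (k : ℕ) : (ℝ × ℝ × EuclideanSpace ℝ (Fin k)) →ₗ[ℝ] (Fin (k + 2) → ℝ) where
  toFun z := Fin.cons ((z.1 - z.2.1) / 2) (Fin.cons ((z.1 + z.2.1) / 2) z.2.2.ofLp)
  map_add' x y := by
    ext i
    refine Fin.cases ?_ (fun j => ?_) i
    · simp
      ring
    · refine Fin.cases ?_ (fun l => ?_) j
      · simp
        ring
      · simp
  map_smul' c y := by
    ext i
    refine Fin.cases ?_ (fun j => ?_) i
    · simp
      ring
    · refine Fin.cases ?_ (fun l => ?_) j
      · simp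
        ring
      · simp

theorem cof_zero {k : ℕ} (z : ℝ × ℝ × EuclideanSpace ℝ (Fin k)) :
    cof k z 0 = (z.1 - z.2.1) / 2 := rfl

theorem cof_one {k : ℕ} (z : ℝ × ℝ × EuclideanSpace ℝ (Fin k)) :
    cof k z 1 = (z.1 + z.2.1) / 2 := rfl

theorem cof_succ {k : ℕ} (z : ℝ × ℝ × EuclideanSpace ℝ (Fin k)) (i : Fin k) :
    cof k z i.succ.succ = z.2.2 i := rfl

theorem cof_inj (k : ℕ) : Injective (cof k) := by
  intro z z' h
  have h0 := congrFun h 0
  have h1 := congrFun h 1
  rw [cof_zero, cof_zero] at h0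
  rw [cof_one, cof_one] at h1
  refine Prod.ext (by linarith) (Prod.ext (by linarith) ?_)
  ext i
  have := congrFun h i.succ.succ
  rwa [cof_succ, cof_succ] at this

/-- normal form -/
theorem normal_form {k : ℕ} {E : Type*} [NormedAddCommGroup E] [NormedSpace ℝ E]
    [FiniteDimensional ℝ E] (hE : finrank ℝ E = k + 2) (B : E →L[ℝ] E →L[ℝ] ℝ)
    (hs : ∀ v w, B v w = B w v) (hn : ∀ v, (∀ w, B v w = 0) → v = 0)
    (hp : ∃ v, 0 < B v v) (hm : ∃ v, B v v < 0) :
    ∃ (Λ : (ℝ × ℝ × EuclideanSpace ℝ (Fin k)) ≃L[ℝ] E)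
      (J : EuclideanSpace ℝ (Fin k) →L[ℝ] EuclideanSpace ℝ (Fin k)), Sy J ∧
      ∀ z, (1 / 2) * B (Λ z) (Λ z) = -(z.2.1 * z.1) + q J z.2.2 := by
  classical
  obtain ⟨Bl, hBl⟩ : ∃ Bl : E →ₗ[ℝ] E →ₗ[ℝ] ℝ, ∀ v w, Bl v w = (1 / 2) * B v w := by
    refine ⟨LinearMap.mk₂ ℝ (fun v w => (1 / 2) * B v w) ?_ ?_ ?_ ?_, fun v w => rfl⟩
    · intro a b c
      simp only [map_add, add_apply]
      ring
    · intro a b c
      simp only [map_smul, smul_apply, smul_eq_mul]
      ring
    · intro a b c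
      simp only [map_add]
      ring
    · intro a b c
      simp only [map_smul, smul_eq_mul]
      ring
  have hassoc : QuadraticMap.associated (R := ℝ) (LinearMap.BilinMap.toQuadraticMap Bl) = Bl := by
    refine QuadraticMap.associated_left_inverse ℝ fun x y => ?_
    rw [hBl, hBl, hs]
  have hsep : (QuadraticMap.associated (R := ℝ)
      (LinearMap.BilinMap.toQuadraticMap Bl)).SeparatingLeft := by
    rw [hassoc]
    intro v hv
    refine hn v fun w => ?_
    have := hv w
    rw [hBl] at this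
    linarith
  obtain ⟨w, hw, ⟨e⟩⟩ := QuadraticForm.equivalent_one_neg_one_weighted_sum_squared
    (LinearMap.BilinMap.toQuadraticMap Bl) hsep
  have he : ∀ v, ∑ i, w i * (e v i * e v i) = (1 / 2) * B v v := by
    intro v
    have h1 := e.map_app v
    rw [QuadraticMap.weightedSumSquares_apply, LinearMap.BilinMap.toQuadraticMap_apply, hBl] at h1
    simpa using h1
  -- a positive and a negative index
  obtain ⟨i, hi⟩ : ∃ i, w i = 1 := by
    by_contra hcon
    obtain ⟨v, hv⟩ := hp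
    have h1 := he v
    have h2 : ∑ i, w i * (e v i * e v i) ≤ 0 := by
      refine Finset.sum_nonpos fun i _ => ?_
      rcases hw i with h | h
      · rw [h]
        nlinarith [mul_self_nonneg (e v i)]
      · exact absurd ⟨i, h⟩ hcon
    linarith
  obtain ⟨j, hj⟩ : ∃ j, w j = -1 := by
    by_contra hcon
    obtain ⟨v, hv⟩ := hm
    have h1 := he v
    have h2 : 0 ≤ ∑ i, w i * (e v i * e v i) := by
      refine Finset.sum_nonneg fun i _ => ?_
      rcases hw i with h | h
      · exact absurd ⟨i, h⟩ hcon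
      · rw [h]
        nlinarith [mul_self_nonneg (e v i)]
    linarith
  have hij : i ≠ j := by
    rintro rfl
    rw [hi] at hj
    norm_num at hj
  -- the permutation
  obtain ⟨p, hp0, hp1⟩ : ∃ p : Fin (k + 2) ≃ Fin (finrank ℝ E), p 0 = i ∧ p 1 = j := by
    obtain ⟨p0⟩ : Nonempty (Fin (k + 2) ≃ Fin (finrank ℝ E)) := ⟨finCongr hE.symm⟩
    set p1 := p0.trans (Equiv.swap (p0 0) i) with hp1
    have h0 : p1 0 = i := by simp [hp1]
    set p2 := p1.trans (Equiv.swap (p1 1) j) with hp2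
    refine ⟨p2, ?_, ?_⟩
    · have h2 : p1 0 ≠ p1 1 := fun h => absurd (p1.injective h) (by simp)
      have h3 : p1 0 ≠ j := by rw [h0]; exact hij
      show Equiv.swap (p1 1) j (p1 0) = i
      rw [Equiv.swap_apply_of_ne_of_ne h2 h3, h0]
    · show Equiv.swap (p1 1) j (p1 1) = j
      exact Equiv.swap_apply_left _ _
  -- the linear equivalence
  obtain ⟨c, hc⟩ : ∃ c : (ℝ × ℝ × EuclideanSpace ℝ (Fin k)) ≃ₗ[ℝ] (Fin (k + 2) → ℝ),
      ∀ z, c z = cof k z := by
    refine ⟨LinearMap.linearEquivOfInjective (cof k) (cof_inj k) ?_, fun z => rfl⟩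
    simp [Module.finrank_prod]
    ring
  let e' : E ≃ₗ[ℝ] (Fin (finrank ℝ E) → ℝ) := e.toLinearEquiv
  let r : (Fin (k + 2) → ℝ) ≃ₗ[ℝ] (Fin (finrank ℝ E) → ℝ) := LinearEquiv.funCongrLeft ℝ ℝ p.symm
  obtain ⟨Λ, hΛ⟩ : ∃ Λ : (ℝ × ℝ × EuclideanSpace ℝ (Fin k)) ≃L[ℝ] E,
      ∀ z, e (Λ z) = fun l => cof k z (p.symm l) := by
    refine ⟨((c.trans r).trans e'.symm).toContinuousLinearEquiv, fun z => ?_⟩
    show e' (e'.symm (r (c z))) = _
    rw [LinearEquiv.apply_symm_apply, hc]
    rfl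
  refine ⟨Λ, diag fun l => w (p l.succ.succ), diag_sy fun l => hw _, fun z => ?_⟩
  rw [← he, diag_q]
  have h1 : ∑ l, w l * (e (Λ z) l * e (Λ z) l) =
      ∑ l, w (p l) * (cof k z l * cof k z l) := by
    rw [← Equiv.sum_comp p]
    refine Finset.sum_congr rfl fun l _ => ?_
    rw [hΛ]
    simp
  rw [h1, Fin.sum_univ_succ, Fin.sum_univ_succ, hp0, cof_zero, hi]
  have h2 : (Fin.succ (0 : Fin (k + 1)) : Fin (k + 2)) = 1 := rfl
  rw [h2, hp1, cof_one, hj]
  have h3 : ∑ l : Fin k, w (p l.succ.succ) * (cof k z l.succ.succ * cof k z l.succ.succ) =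
      ∑ l : Fin k, w (p l.succ.succ) * (z.2.2 l * z.2.2 l) := rfl
  rw [h3]
  ring

end Pool.Agent.H816.Mo
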