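import Pool.Agent.H816.Mo5
import Pool.Agent.H816.Mo6

/-!
# Removing a saddle: the local construction
-/

set_option autoImplicit false
set_option linter.unusedSectionVars false

open Set Filter Topology Metric Function Module
open scoped ContDiff

noncomputable section

namespace Pool.Agent.H816.Mo

open Pool.Agent.H816 Pool.Agent.H816.Fam

section rem

variable {E : Type*} [NormedAddCommGroup E] [NormedSpace ℝ E]

/-- the remainder of the second order -/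
def rm (f : E → ℝ) (v : E) : ℝ := f v - f 0 - (1 / 2) * fderiv ℝ (fderiv ℝ f) 0 v v

theorem rm_zero (f : E → ℝ) : rm f 0 = 0 := by
  unfold rm
  simp

theorem rm_smooth {f : E → ℝ} {v : E} (h : ContDiffAt ℝ ∞ f v) : ContDiffAt ℝ ∞ (rm f) v := by
  unfold rm
  refine (h.sub contDiffAt_const).sub (contDiffAt_const.mul ?_)
  exact ((fderiv ℝ (fderiv ℝ f) 0).contDiff.clm_apply contDiff_id).contDiffAt

/-- the remainder is small -/
theorem rm_small {f : E → ℝ} (hf : ∀ᶠ v in 𝓝 (0 : E), ContDiffAt ℝ ∞ f v) (h0 : fderiv ℝ f 0 = 0)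
    {δ : ℝ} (hδ : 0 < δ) : ∃ r : ℝ, 0 < r ∧ ∀ v, ‖v‖ < r → ContDiffAt ℝ ∞ (rm f) v ∧
      ‖fderiv ℝ (rm f) v‖ ≤ δ * ‖v‖ ∧ |rm f v| ≤ δ * ‖v‖ ^ 2 := by
  obtain ⟨B, hB⟩ : ∃ B, B = fderiv ℝ (fderiv ℝ f) 0 := ⟨_, rfl⟩
  have hf0 := hf.self_of_nhds
  have hsym : ∀ v w, B v w = B w v := by
    have h1 : IsSymmSndFDerivAt ℝ f 0 := hf0.isSymmSndFDerivAt (by
      rw [minSmoothness_of_isRCLikeNormedField]
      exact WithTop.coe_le_coe.2 le_top)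
    intro v w
    rw [hB]
    exact h1 v w
  have hdd : HasFDerivAt (fderiv ℝ f) B 0 := by
    rw [hB]
    exact ((hf0.fderiv_right (m := 1) (by norm_cast)).differentiableAt (by simp)).hasFDerivAt
  have hlit := hdd.isLittleO
  have hev : ∀ᶠ v in 𝓝 (0 : E), ‖fderiv ℝ f v - fderiv ℝ f 0 - B (v - 0)‖ ≤ δ * ‖v - 0‖ :=
    hlit.bound hδ
  obtain ⟨r, hr, hr'⟩ := Metric.eventually_nhds_iff.1 (hf.and hev)
  have hd : ∀ v, ‖v‖ < r → HasFDerivAt (rm f) (fderiv ℝ f v - B v) v := by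
    intro v hv
    obtain ⟨h1, -⟩ := hr' (by rwa [dist_zero_right] : dist v 0 < r)
    have h2 : HasFDerivAt (fun v => B v v) (B v + B.flip v) v := by
      have h3 := B.hasFDerivAt (x := v) |>.clm_apply (hasFDerivAt_id v)
      refine h3.congr_fderiv ?_
      ext u
      simp
    have h4 := ((h1.differentiableAt (by simp)).hasFDerivAt.sub_const (f 0)).sub
      (h2.const_mul (1 / 2))
    unfold rm
    rw [← hB]
    refine h4.congr_fderiv ?_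
    ext u
    simp only [sub_apply, smul_apply, add_apply, ContinuousLinearMap.flip_apply, smul_eq_mul]
    rw [hsym u v]
    ring
  have hbd : ∀ v, ‖v‖ < r → ‖fderiv ℝ (rm f) v‖ ≤ δ * ‖v‖ := by
    intro v hv
    obtain ⟨-, h2⟩ := hr' (by rwa [dist_zero_right] : dist v 0 < r)
    rw [(hd v hv).fderiv]
    rwa [h0, sub_zero, sub_zero] at h2
  refine ⟨r, hr, fun v hv => ⟨rm_smooth (hr' (by rwa [dist_zero_right])).1, hbd v hv, ?_⟩⟩
  have h1 := (convex_closedBall (0 : E) ‖v‖).norm_image_sub_le_of_norm_fderiv_le (f := rm f)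
    (C := δ * ‖v‖) (fun x hx => (hd x (lt_of_le_of_lt (mem_closedBall_zero_iff.1 hx)
      hv)).differentiableAt) (fun x hx => by
        have h2 : ‖x‖ ≤ ‖v‖ := mem_closedBall_zero_iff.1 hx
        exact (hbd x (h2.trans_lt hv)).trans (mul_le_mul_of_nonneg_left h2 hδ.le))
    (mem_closedBall_self (norm_nonneg v)) (mem_closedBall_zero_iff.2 (le_refl ‖v‖))
  rw [rm_zero, sub_zero, sub_zero, Real.norm_eq_abs] at h1
  refine h1.trans (le_of_eq ?_)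
  ring

end rem

section abs

variable {Z E : Type*} [NormedAddCommGroup Z] [NormedSpace ℝ Z] [NormedAddCommGroup E]
  [NormedSpace ℝ E]

theorem nrm_pos {A : Z →L[ℝ] ℝ} (h : A ≠ 0) : 0 < ‖A‖ := norm_pos_iff.2 h

theorem no_zero {A B C : Z →L[ℝ] ℝ} {ζ r a b r' c : ℝ} (hcon : A + (ζ • B + r • C) = 0)
    (h0 : 0 ≤ ζ) (h1 : ζ ≤ 1) (hB : ‖B‖ ≤ b) (hr : |r| ≤ r') (hC : ‖C‖ ≤ c) (hA : a ≤ ‖A‖)
    (h : b + r' * c < a) : False := by
  have h6 : A = -(ζ • B + r • C) := eq_neg_of_add_eq_zero_left hcon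
  rw [h6, norm_neg] at hA
  have h8 := norm_add_le (ζ • B) (r • C)
  rw [norm_smul, norm_smul, Real.norm_eq_abs, Real.norm_eq_abs, abs_of_nonneg h0] at h8
  have h9 : ζ * ‖B‖ ≤ 1 * b := mul_le_mul h1 hB (norm_nonneg _) zero_le_one
  have h10 : |r| * ‖C‖ ≤ r' * c := mul_le_mul hr hC (norm_nonneg _) ((abs_nonneg _).trans hr)
  linarith

theorem resc {B : E →L[ℝ] ℝ} {A : Z →L[ℝ] E} {ε b a : ℝ} (hε : 0 < ε) (hB : ‖B‖ ≤ b)
    (hA : ‖A‖ ≤ a) (hb : 0 ≤ b) : ‖(ε ^ 2)⁻¹ • (B.comp (ε • A))‖ ≤ (ε ^ 2)⁻¹ * (b * (ε * a)) := by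
  rw [norm_smul, Real.norm_eq_abs, abs_of_pos (by positivity : 0 < (ε ^ 2)⁻¹)]
  refine mul_le_mul_of_nonneg_left ?_ (by positivity)
  refine (ContinuousLinearMap.opNorm_comp_le _ _).trans ?_
  rw [norm_smul, Real.norm_eq_abs, abs_of_pos hε]
  exact mul_le_mul hB (mul_le_mul_of_nonneg_left hA hε.le) (by positivity) hb

theorem smul_ne {A : Z →L[ℝ] ℝ} {c : ℝ} (hc : c ≠ 0) (h : A ≠ 0) : c • A ≠ 0 :=
  smul_ne_zero hc h

end abs

section loc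

variable {V : Type*} [NormedAddCommGroup V] [InnerProductSpace ℝ V]

/-- the nonlinear coordinates -/
def Ph (z : ℝ × ℝ × V) : ℝ × ℝ × V := (z.1, z.2.1 - z.1 ^ 2, z.2.2)

/-- the inverse of the nonlinear coordinates -/
def Ph' (z : ℝ × ℝ × V) : ℝ × ℝ × V := (z.1, z.2.1 + z.1 ^ 2, z.2.2)

theorem Ph_inv (z : ℝ × ℝ × V) : Ph (Ph' z) = z := by
  unfold Ph Ph'
  simp

theorem Ph_inv' (z : ℝ × ℝ × V) : Ph' (Ph z) = z := by
  unfold Ph Ph'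
  simp

theorem Ph_zero : Ph (0 : ℝ × ℝ × V) = 0 := by
  unfold Ph
  simp

theorem Ph_smooth : ContDiff ℝ ∞ (Ph : ℝ × ℝ × V → ℝ × ℝ × V) :=
  contDiff_fst.prodMk (((contDiff_fst.comp contDiff_snd).sub (contDiff_fst.pow 2)).prodMk
    (contDiff_snd.comp contDiff_snd))

theorem Ph'_smooth : ContDiff ℝ ∞ (Ph' : ℝ × ℝ × V → ℝ × ℝ × V) :=
  contDiff_fst.prodMk (((contDiff_fst.comp contDiff_snd).add (contDiff_fst.pow 2)).prodMk
    (contDiff_snd.comp contDiff_snd))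

variable [FiniteDimensional ℝ V] {m : ℝ → ℝ} {C R1 R3 Rb : ℝ} {w : ℝ → ℝ} {J : V →L[ℝ] V}

/-- a lower bound for the derivative of the saddle -/
theorem F0_lower (hJ : Sy J) {a b : ℝ} (ha : 0 < a) :
    ∃ c : ℝ, 0 < c ∧ ∀ z : ℝ × ℝ × V, a ≤ ‖z‖ → ‖z‖ ≤ b → c ≤ ‖fderiv ℝ (F0 J) z‖ := by
  have hK : IsCompact ({z : ℝ × ℝ × V | a ≤ ‖z‖} ∩ closedBall 0 b) :=
    (isCompact_closedBall _ _).inter_left (isClosed_le continuous_const continuous_norm)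
  by_cases hne : ({z : ℝ × ℝ × V | a ≤ ‖z‖} ∩ closedBall 0 b).Nonempty
  · have hc : Continuous fun z : ℝ × ℝ × V => ‖fderiv ℝ (F0 J) z‖ :=
      (F0_smooth.continuous_fderiv (by simp)).norm
    obtain ⟨z0, hz0, hz0'⟩ := hK.exists_isMinOn hne hc.continuousOn
    have h3 : a ≤ ‖z0‖ := hz0.1
    have h4 : fderiv ℝ (F0 J) z0 ≠ 0 := F0_crit hJ (norm_pos_iff.1 (ha.trans_le h3))
    have h5 : 0 < ‖fderiv ℝ (F0 J) z0‖ := nrm_pos h4
    exact ⟨‖fderiv ℝ (F0 J) z0‖, h5, fun z h1 h2 =>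
      hz0' ⟨h1, mem_closedBall_zero_iff.2 h2⟩⟩
  · refine ⟨1, one_pos, fun z h1 h2 => absurd ⟨z, h1, mem_closedBall_zero_iff.2 h2⟩ hne⟩

variable {E : Type*} [NormedAddCommGroup E] [NormedSpace ℝ E] [FiniteDimensional ℝ E]

/-- **Removing a saddle: the local construction.** -/
theorem local_main (hD : Dat m C R1 R3 Rb w) (hJ : Sy J) {f : E → ℝ}
    (hf : ∀ᶠ v in 𝓝 (0 : E), ContDiffAt ℝ ∞ f v) (h0 : fderiv ℝ f 0 = 0)
    (Λ : (ℝ × ℝ × V) ≃L[ℝ] E) (hΛ : ∀ z, (1 / 2) * fderiv ℝ (fderiv ℝ f) 0 (Λ z) (Λ z) =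
      -(z.2.1 * z.1) + q J z.2.2) {N : Set E} (hN : N ∈ 𝓝 (0 : E)) :
    ∃ (ε ρ : ℝ) (G : ℝ × ℝ × V → ℝ), 0 < ε ∧ 0 < ρ ∧
      (∀ z, ‖z‖ < 3 * ρ → Λ (ε • Ph z) ∈ N) ∧
      (∀ z, 2 * ρ ≤ ‖z‖ → ‖z‖ < 3 * ρ → G z = f (Λ (ε • Ph z))) ∧
      (∀ z, z ≠ 0 → ‖z‖ < 3 * ρ → ContDiffAt ℝ ∞ G z ∧ fderiv ℝ G z ≠ 0) ∧
      ∀ᶠ z in 𝓝 0, G z = f 0 + ε ^ 2 * (T0 J z + H0 m R1 R3 J w z) := by
  have hrad : 0 < rad R1 R3 Rb := by
    have h1 := hD.hR1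
    have h2 := hD.hR3
    have h3 := hD.hRb
    unfold rad sz
    linarith
  obtain ⟨ρ, hρ⟩ : ∃ ρ, ρ = rad R1 R3 Rb + 1 := ⟨_, rfl⟩
  have hρ0 : 0 < ρ := by linarith
  -- constants
  have hLP : ContDiff ℝ ∞ fun z : ℝ × ℝ × V => Λ (Ph z) := Λ.contDiff.comp Ph_smooth
  obtain ⟨M0, hM0⟩ := (isCompact_closedBall (0 : ℝ × ℝ × V) (3 * ρ)).exists_bound_of_continuousOn
    hLP.continuous.continuousOn
  obtain ⟨M1, hM1⟩ := (isCompact_closedBall (0 : ℝ × ℝ × V) (3 * ρ)).exists_bound_of_continuousOn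
    (hLP.continuous_fderiv (by simp)).continuousOn
  have hM00 : 0 ≤ M0 := (norm_nonneg _).trans (hM0 0 (mem_closedBall_self (by positivity)))
  have hM10 : 0 ≤ M1 := (norm_nonneg _).trans (hM1 0 (mem_closedBall_self (by positivity)))
  obtain ⟨c, hc, hc'⟩ := F0_lower hJ (a := ρ) (b := 3 * ρ) hρ0
  obtain ⟨L, hL0, hL⟩ := exists_cutoff' (V := ℝ × ℝ × V)
  obtain ⟨ζ, z1, z2, z3, z4, z5, -⟩ := hL ρ hρ0
  obtain ⟨K, hK⟩ : ∃ K, K = M0 * M1 + L / ρ * M0 ^ 2 := ⟨_, rfl⟩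
  have hK0 : 0 ≤ K := by rw [hK]; positivity
  obtain ⟨δ, hδ, hδK⟩ : ∃ δ : ℝ, 0 < δ ∧ δ * K < c := by
    refine ⟨c / (K + 1), by positivity, ?_⟩
    rw [div_mul_eq_mul_div, div_lt_iff₀ (by positivity)]
    nlinarith
  obtain ⟨r, hr, hrm⟩ := rm_small hf h0 hδ
  obtain ⟨r2, hr2, hN2⟩ := Metric.mem_nhds_iff.1 hN
  obtain ⟨ε, hε, hεr, hεr2⟩ : ∃ ε : ℝ, 0 < ε ∧ ε * M0 < r ∧ ε * M0 < r2 := by
    refine ⟨min r r2 / (2 * (M0 + 1)), by positivity, ?_, ?_⟩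
    · rw [div_mul_eq_mul_div, div_lt_iff₀ (by positivity)]
      have := min_le_left r r2
      nlinarith
    · rw [div_mul_eq_mul_div, div_lt_iff₀ (by positivity)]
      have := min_le_right r r2
      nlinarith
  have hnorm : ∀ z : ℝ × ℝ × V, ‖z‖ ≤ 3 * ρ → ‖Λ (ε • Ph z)‖ ≤ ε * M0 := by
    intro z hz
    rw [map_smul, norm_smul, Real.norm_eq_abs, abs_of_pos hε]
    exact mul_le_mul_of_nonneg_left (hM0 z (mem_closedBall_zero_iff.2 hz)) hε.le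
  -- the rescaled remainder
  obtain ⟨re, hre⟩ : ∃ re : ℝ × ℝ × V → ℝ, re = fun z => (ε ^ 2)⁻¹ * rm f (Λ (ε • Ph z)) :=
    ⟨_, rfl⟩
  have hAf : ∀ z, HasFDerivAt (fun z : ℝ × ℝ × V => Λ (ε • Ph z))
      (ε • fderiv ℝ (fun z : ℝ × ℝ × V => Λ (Ph z)) z) z := by
    intro z
    have h1 : (fun z : ℝ × ℝ × V => Λ (ε • Ph z)) = fun z => ε • Λ (Ph z) := by
      funext z
      rw [map_smul]
    rw [h1]
    exact ((hLP.differentiable (by simp)) z).hasFDerivAt.const_smul ε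
  have hAs : ContDiff ℝ ∞ (fun z : ℝ × ℝ × V => Λ (ε • Ph z)) :=
    Λ.contDiff.comp (Ph_smooth.const_smul ε)
  have hres : ∀ z, ‖z‖ ≤ 3 * ρ → ContDiffAt ℝ ∞ re z ∧ |re z| ≤ δ * M0 ^ 2 ∧
      ‖fderiv ℝ re z‖ ≤ δ * (M0 * M1) := by
    intro z hz
    have h1 := hnorm z hz
    obtain ⟨h2, h3, h4⟩ := hrm _ (h1.trans_lt hεr)
    have h5 : HasFDerivAt re ((ε ^ 2)⁻¹ • ((fderiv ℝ (rm f) (Λ (ε • Ph z))).comp
        (ε • fderiv ℝ (fun z : ℝ × ℝ × V => Λ (Ph z)) z))) z := by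
      rw [hre]
      exact ((h2.differentiableAt (by simp)).hasFDerivAt.comp z (hAf z)).const_mul _
    refine ⟨?_, ?_, ?_⟩
    · rw [hre]
      exact contDiffAt_const.mul (ContDiffAt.comp (g := rm f) z h2 hAs.contDiffAt)
    · rw [hre]
      show |(ε ^ 2)⁻¹ * rm f (Λ (ε • Ph z))| ≤ _
      rw [abs_mul, abs_of_pos (by positivity : 0 < (ε ^ 2)⁻¹), inv_mul_le_iff₀ (by positivity)]
      refine h4.trans ?_
      have h6 : ‖Λ (ε • Ph z)‖ ^ 2 ≤ (ε * M0) ^ 2 := pow_le_pow_left₀ (norm_nonneg _) h1 2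
      calc δ * ‖Λ (ε • Ph z)‖ ^ 2 ≤ δ * (ε * M0) ^ 2 := mul_le_mul_of_nonneg_left h6 hδ.le
        _ = ε ^ 2 * (δ * M0 ^ 2) := by ring
    · rw [h5.fderiv]
      have h6 := hM1 z (mem_closedBall_zero_iff.2 hz)
      refine (resc hε (h3.trans (mul_le_mul_of_nonneg_left h1 hδ.le)) h6 (by positivity)).trans
        (le_of_eq ?_)
      field_simp
  obtain ⟨Ge, hGe⟩ : ∃ Ge : ℝ × ℝ × V → ℝ, Ge = fun z => G0 m R1 R3 Rb J w z + ζ z * re z :=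
    ⟨_, rfl⟩
  have hGes : ∀ z, z ≠ 0 → ‖z‖ < 3 * ρ → ContDiffAt ℝ ∞ Ge z := by
    intro z hz hz3
    rw [hGe]
    exact (G0_smooth hD hz).add (z1.contDiffAt.mul (hres z hz3.le).1)
  have hnear0 : ∀ z, ‖z‖ < ρ → Ge =ᶠ[𝓝 z] G0 m R1 R3 Rb J w := by
    intro z hz
    filter_upwards [(continuous_norm.tendsto z).eventually_lt_const hz] with y hy
    rw [hGe]
    show G0 m R1 R3 Rb J w y + ζ y * re y = _
    rw [z3 y hy.le, zero_mul, add_zero]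
  have hcrit : ∀ z, z ≠ 0 → ‖z‖ < 3 * ρ → fderiv ℝ Ge z ≠ 0 := by
    intro z hz hz3
    rcases lt_or_ge ‖z‖ ρ with h | h
    · rw [(hnear0 z h).fderiv_eq]
      exact no_crit hD hJ hz ((G0_smooth hD hz).differentiableAt (by simp))
    · have h1 : Ge =ᶠ[𝓝 z] fun z => F0 J z + ζ z * re z := by
        filter_upwards [(continuous_norm.tendsto z).eventually_const_lt
          (show rad R1 R3 Rb < ‖z‖ by linarith)] with y hy
        rw [hGe]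
        show G0 m R1 R3 Rb J w y + ζ y * re y = _
        rw [far hD hy.le]
      rw [h1.fderiv_eq]
      obtain ⟨h2, h3, h4⟩ := hres z hz3.le
      have h5 : HasFDerivAt (fun z => F0 J z + ζ z * re z)
          (fderiv ℝ (F0 J) z + (ζ z • fderiv ℝ re z + re z • fderiv ℝ ζ z)) z :=
        ((F0_smooth.differentiable (by simp)) z).hasFDerivAt.add
          (((z1.differentiable (by simp)) z).hasFDerivAt.mul
            (h2.differentiableAt (by simp)).hasFDerivAt)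
      rw [h5.fderiv]
      intro hcon
      refine no_zero hcon (z2 z).1 (z2 z).2 h4 h3 (z5 z) (hc' z h hz3.le) ?_
      have : δ * (M0 * M1) + δ * M0 ^ 2 * (L / ρ) = δ * K := by rw [hK]; ring
      rw [this]
      exact hδK
  have hexp : ∀ z, f (Λ (ε • Ph z)) = f 0 + ε ^ 2 * (F0 J z + re z) := by
    intro z
    have h1 := hΛ (ε • Ph z)
    have h2 : rm f (Λ (ε • Ph z)) = f (Λ (ε • Ph z)) - f 0 -
      (1 / 2) * fderiv ℝ (fderiv ℝ f) 0 (Λ (ε • Ph z)) (Λ (ε • Ph z)) := rfl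
    rw [h1] at h2
    have h3 : -((ε • Ph z).2.1 * (ε • Ph z).1) + q J (ε • Ph z).2.2 = ε ^ 2 * F0 J z := by
      have h4 : (ε • Ph z).2.2 = ε • z.2.2 := rfl
      have h5 : (ε • Ph z).2.1 = ε * (z.2.1 - z.1 ^ 2) := rfl
      have h6 : (ε • Ph z).1 = ε * z.1 := rfl
      rw [h4, h5, h6, q_smul]
      unfold F0
      ring
    rw [h3] at h2
    have h4 : ε ^ 2 * re z = rm f (Λ (ε • Ph z)) := by
      rw [hre]
      show ε ^ 2 * ((ε ^ 2)⁻¹ * rm f (Λ (ε • Ph z))) = _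
      field_simp
    rw [mul_add, h4, h2]
    ring
  refine ⟨ε, ρ, fun z => f 0 + ε ^ 2 * Ge z, hε, hρ0, ?_, ?_, ?_, ?_⟩
  · intro z hz
    refine hN2 (mem_ball_zero_iff.2 ?_)
    exact (hnorm z hz.le).trans_lt hεr2
  · intro z hz2 hz3
    show f 0 + ε ^ 2 * Ge z = _
    rw [hexp, hGe]
    show f 0 + ε ^ 2 * (G0 m R1 R3 Rb J w z + ζ z * re z) = _
    rw [far hD (by linarith), z4 z hz2, one_mul]
  · intro z hz hz3
    refine ⟨contDiffAt_const.add (contDiffAt_const.mul (hGes z hz hz3)), ?_⟩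
    have h1 : HasFDerivAt (fun z => f 0 + ε ^ 2 * Ge z) (ε ^ 2 • fderiv ℝ Ge z) z :=
      (((hGes z hz hz3).differentiableAt (by simp)).hasFDerivAt.const_mul (ε ^ 2)).const_add (f 0)
    rw [h1.fderiv]
    exact smul_ne (by positivity) (hcrit z hz hz3)
  · have h1 := hnear0 0 (by rw [norm_zero]; exact hρ0)
    filter_upwards [h1, near (J := J) hD] with z h2 h3
    show f 0 + ε ^ 2 * Ge z = _
    rw [h2]
    unfold G0
    rw [h3]

end loc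

end Pool.Agent.H816.Mo
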