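import Pool.Agent.H816.Mo7

/-!
# Singularities of the first kind
-/

set_option autoImplicit false
set_option linter.unusedSectionVars false

open Set Filter Topology Metric Function Module
open scoped ContDiff

noncomputable section

namespace Pool.Agent.H816.Mo

open Pool.Agent.H816 Pool.Agent.H816.Fam

section defs

variable {E : Type*} [NormedAddCommGroup E] [NormedSpace ℝ E]

/-- contact of order `η` with a smooth function `T` with `DT(0) ≠ 0` -/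
def Cont (η : ℝ → ℝ) (h T : E → ℝ) : Prop :=
  (∀ᶠ z in 𝓝 (0 : E), ContDiffAt ℝ ∞ T z) ∧ fderiv ℝ T 0 ≠ 0 ∧ h 0 = T 0 ∧
    ∃ C : ℝ, ∀ᶠ z in 𝓝[≠] (0 : E), |h z - T z| ≤ C * η ‖z‖

/-- singularities of the first kind -/
def BigO (η : ℝ → ℝ) (h : E → ℝ) : Prop :=
  (∃ T : E → ℝ, Cont η h T) ∧
    ∀ k : ℕ, ∃ C : ℝ, ∀ᶠ z in 𝓝[≠] (0 : E), ‖iteratedFDeriv ℝ (k + 1) h z‖ * η ‖z‖ ^ k ≤ C

theorem Cont.congr {η : ℝ → ℝ} {h h' T : E → ℝ} (hh : Cont η h T) (he : h' =ᶠ[𝓝 0] h) :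
    Cont η h' T := by
  obtain ⟨h1, h2, h3, C, h4⟩ := hh
  refine ⟨h1, h2, he.self_of_nhds.trans h3, C, ?_⟩
  filter_upwards [h4, nhdsWithin_le_nhds he] with z h5 h6
  rwa [h6]

theorem BigO.congr {η : ℝ → ℝ} {h h' : E → ℝ} (hh : BigO η h) (he : h' =ᶠ[𝓝 0] h) :
    BigO η h' := by
  obtain ⟨⟨T, hT⟩, h2⟩ := hh
  refine ⟨⟨T, hT.congr he⟩, fun k => ?_⟩
  obtain ⟨C, hC⟩ := h2 k
  refine ⟨C, ?_⟩
  filter_upwards [hC, nhdsWithin_le_nhds (he.iteratedFDeriv (𝕜 := ℝ) (k + 1))] with z h5 h6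
  rwa [h6]

/-- a function in contact of superlinear order is differentiable -/
theorem Cont.hasFDerivAt {η : ℝ → ℝ} {h T : E → ℝ} (hh : Cont η h T)
    (hη : Tendsto (fun r => η r / r) (𝓝[>] 0) (𝓝 0)) : HasFDerivAt h (fderiv ℝ T 0) 0 := by
  obtain ⟨h1, h2, h3, C, h4⟩ := hh
  have hT : HasFDerivAt T (fderiv ℝ T 0) 0 :=
    (h1.self_of_nhds.differentiableAt (by simp)).hasFDerivAt
  have hd : HasFDerivAt (fun z => h z - T z) (0 : E →L[ℝ] ℝ) 0 := by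
    rw [hasFDerivAt_iff_isLittleO_nhds_zero]
    rw [Asymptotics.isLittleO_iff]
    intro c hc
    have h5 : ∀ᶠ r in 𝓝[>] (0:ℝ), |η r / r| < c / (|C| + 1) := by
      have := hη.abs
      rw [abs_zero] at this
      exact this.eventually_lt_const (by positivity)
    have h6 : ∀ᶠ z in 𝓝[≠] (0 : E), |η ‖z‖ / ‖z‖| < c / (|C| + 1) :=
      tendsto_norm_punctured.eventually h5
    have h7 : ∀ᶠ z in 𝓝[≠] (0 : E), ‖h (0 + z) - T (0 + z) - (h 0 - T 0) - (0 : E →L[ℝ] ℝ) z‖ ≤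
        c * ‖z‖ := by
      filter_upwards [h4, h6, self_mem_nhdsWithin] with z h8 h9 h10
      have hz : 0 < ‖z‖ := norm_pos_iff.2 h10
      rw [zero_add, h3, sub_self, sub_zero, zero_apply, sub_zero, Real.norm_eq_abs]
      refine h8.trans ?_
      rw [abs_div, abs_of_pos hz, div_lt_div_iff₀ hz (by positivity)] at h9
      have h11 : C * η ‖z‖ ≤ |C| * |η ‖z‖| := by
        rw [← abs_mul]
        exact le_abs_self _
      have h12 : |C| * |η ‖z‖| ≤ (|C| + 1) * |η ‖z‖| :=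
        mul_le_mul_of_nonneg_right (by linarith) (abs_nonneg _)
      linarith
    rw [← nhdsNE_sup_pure, eventually_sup]
    refine ⟨h7, ?_⟩
    rw [eventually_pure]
    simp
  have h5 := hd.add hT
  rw [zero_add] at h5
  refine h5.congr_of_eventuallyEq (Eventually.of_forall fun z => ?_)
  simp

end defs

section coord

/-- the linear coordinates -/
def Mk (k : ℕ) : EuclideanSpace ℝ (Fin (k + 2)) ≃L[ℝ] ℝ × ℝ × EuclideanSpace ℝ (Fin k) :=
  LinearEquiv.toContinuousLinearEquiv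
    { toFun := fun z => (z 1, z 0, WithLp.toLp 2 fun i => z i.succ.succ)
      invFun := fun p => WithLp.toLp 2 (Fin.cons p.2.1 (Fin.cons p.1 p.2.2.ofLp))
      map_add' := fun x y => rfl
      map_smul' := fun c x => rfl
      left_inv := fun z => by
        ext i
        refine Fin.cases rfl (fun j => ?_) i
        exact Fin.cases rfl (fun l => rfl) j
      right_inv := fun p => rfl }

theorem Mk_apply (k : ℕ) (z : EuclideanSpace ℝ (Fin (k + 2))) :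
    Mk k z = (z 1, z 0, WithLp.toLp 2 fun i => z i.succ.succ) := rfl

theorem Mk_norm_sq (k : ℕ) (z : EuclideanSpace ℝ (Fin (k + 2))) :
    ‖z‖ ^ 2 = z 0 ^ 2 + z 1 ^ 2 + ‖(Mk k z).2.2‖ ^ 2 := by
  have h : ‖(Mk k z).2.2‖ ^ 2 = ∑ i : Fin k, z i.succ.succ ^ 2 := by
    rw [EuclideanSpace.norm_sq_eq]
    refine Finset.sum_congr rfl fun i _ => ?_
    rw [Real.norm_eq_abs, sq_abs]
    rfl
  rw [h, EuclideanSpace.norm_sq_eq, Fin.sum_univ_succ, Fin.sum_univ_succ]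
  simp only [Real.norm_eq_abs, sq_abs]
  have h2 : (Fin.succ (0 : Fin (k + 1)) : Fin (k + 2)) = 1 := rfl
  rw [h2]
  ring

/-- the parameter of the horn -/
def σk (k : ℕ) : EuclideanSpace ℝ (Fin (k + 2)) →L[ℝ] ℝ :=
  (σ0 (EuclideanSpace ℝ (Fin k))).comp
    (Mk k : EuclideanSpace ℝ (Fin (k + 2)) →L[ℝ] ℝ × ℝ × EuclideanSpace ℝ (Fin k))

/-- the transversal coordinates of the horn -/
def πk (k : ℕ) : EuclideanSpace ℝ (Fin (k + 2)) →L[ℝ] ℝ × EuclideanSpace ℝ (Fin k) :=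
  (π0 (EuclideanSpace ℝ (Fin k))).comp
    (Mk k : EuclideanSpace ℝ (Fin (k + 2)) →L[ℝ] ℝ × ℝ × EuclideanSpace ℝ (Fin k))

theorem σk_apply (k : ℕ) (z : EuclideanSpace ℝ (Fin (k + 2))) : σk k z = z 0 := rfl

theorem πk_apply (k : ℕ) (z : EuclideanSpace ℝ (Fin (k + 2))) :
    πk k z = (z 1, (Mk k z).2.2) := rfl

theorem σk_norm (k : ℕ) : ‖σk k‖ ≤ 1 := by
  refine ContinuousLinearMap.opNorm_le_bound _ zero_le_one fun z => ?_
  rw [σk_apply, one_mul]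
  exact PiLp.norm_apply_le z 0

theorem πk_norm (k : ℕ) : ‖πk k‖ ≤ 1 := by
  refine ContinuousLinearMap.opNorm_le_bound _ zero_le_one fun z => ?_
  rw [πk_apply, one_mul, Prod.norm_def]
  refine max_le (PiLp.norm_apply_le z 1) ?_
  have h := Mk_norm_sq k z
  refine abs_le_of_sq_le_sq' ?_ (norm_nonneg _) |>.2
  nlinarith [sq_nonneg (z 0), sq_nonneg (z 1)]

theorem k_norm (k : ℕ) (z : EuclideanSpace ℝ (Fin (k + 2))) :
    ‖z‖ ≤ |σk k z| + 2 * ‖πk k z‖ := by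
  have h := Mk_norm_sq k z
  have h1 : |z 1| ≤ ‖πk k z‖ := norm_fst_le (πk k z)
  have h2 : ‖(Mk k z).2.2‖ ≤ ‖πk k z‖ := norm_snd_le (πk k z)
  rw [σk_apply]
  refine abs_le_of_sq_le_sq' ?_ (by positivity) |>.2
  rw [h, ← sq_abs (z 0), ← sq_abs (z 1)]
  have h3 := abs_nonneg (z 0)
  have h4 := abs_nonneg (z 1)
  have h5 := norm_nonneg (Mk k z).2.2
  have h6 : |z 1| ^ 2 ≤ ‖πk k z‖ ^ 2 := pow_le_pow_left₀ h4 h1 2
  have h7 : ‖(Mk k z).2.2‖ ^ 2 ≤ ‖πk k z‖ ^ 2 := pow_le_pow_left₀ h5 h2 2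
  nlinarith [mul_nonneg h3 (norm_nonneg (πk k z)), sq_nonneg ‖πk k z‖]

end coord

section main

variable {k : ℕ} {m : ℝ → ℝ} {C R1 R3 Rb : ℝ} {w : ℝ → ℝ}
  {J : EuclideanSpace ℝ (Fin k) →L[ℝ] EuclideanSpace ℝ (Fin k)}

/-- **The model is singular of the first kind.** -/
theorem model_bigO (hD : Dat m C R1 R3 Rb w) {η : ℝ → ℝ} {κ κ' : ℝ} (hη : Gauge η κ)
    (hw : Gauge w κ') (hcmp : ∀ r, 0 < r → r < κ' → w r ≤ η r ∧ η r ≤ 8 * w r) (c0 : ℝ) {ε : ℝ}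
    (hε : 0 < ε) {h : EuclideanSpace ℝ (Fin (k + 2)) → ℝ}
    (hh : ∀ᶠ z in 𝓝 0, h z = c0 + ε ^ 2 * (T0 J (Mk k z) + H0 m R1 R3 J w (Mk k z))) :
    BigO η h := by
  have hH : ∀ z, H0 m R1 R3 J w (Mk k z) = hn w (PsiU m R1 R3 J) (σk k) (πk k) z := fun z => rfl
  have hsz : 0 < sz R1 R3 := by
    have h1 := hD.hR1
    have h3 := hD.hR3
    unfold sz
    linarith
  have hfar : ∀ (s : ℝ) (u : ℝ × EuclideanSpace ℝ (Fin k)), sz R1 R3 ≤ ‖u‖ →
      PsiU m R1 R3 J (s, u) = 0 := by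
    intro s u hu
    have h1 := hD.hR1
    have h3 := hD.hR3
    have hc : 2 * R3 ≤ sz R1 R3 ^ 2 ∧ 4 * R1 ≤ sz R1 R3 ^ 2 := by
      unfold sz
      constructor <;> nlinarith
    refine psi_far hD.hm h1 h3 ?_
    rw [Prod.norm_def] at hu
    rcases le_max_iff.1 hu with h4 | h4
    · left
      rw [← sq_abs]
      exact hc.1.trans (pow_le_pow_left₀ hsz.le h4 2)
    · right
      exact hc.2.trans (pow_le_pow_left₀ hsz.le h4 2)
  obtain ⟨T, hT⟩ : ∃ T : EuclideanSpace ℝ (Fin (k + 2)) → ℝ,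
    T = fun z => c0 + ε ^ 2 * T0 J (Mk k z) := ⟨_, rfl⟩
  have hTs : ContDiff ℝ ∞ T := by
    rw [hT]
    refine contDiff_const.add (contDiff_const.mul ?_)
    unfold T0
    exact (contDiff_fst.comp (Mk k).contDiff).add
      (q_smooth.comp (contDiff_snd.comp (contDiff_snd.comp (Mk k).contDiff)))
  have hκ' : ∀ᶠ z : EuclideanSpace ℝ (Fin (k + 2)) in 𝓝[≠] 0, ‖z‖ ∈ Ioo 0 κ' :=
    tendsto_norm_punctured.eventually (Ioo_mem_nhdsGT hw.κ_pos)
  have hκ : ∀ᶠ z : EuclideanSpace ℝ (Fin (k + 2)) in 𝓝[≠] 0, ‖z‖ ∈ Ioo 0 κ :=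
    tendsto_norm_punctured.eventually (Ioo_mem_nhdsGT hη.κ_pos)
  have hη1 : ∀ᶠ z : EuclideanSpace ℝ (Fin (k + 2)) in 𝓝[≠] 0, η ‖z‖ < 1 :=
    (hη.tend.comp tendsto_norm_punctured).eventually_lt_const one_pos
  refine ⟨⟨T, Eventually.of_forall fun z => hTs.contDiffAt, ?_, ?_, ?_⟩, ?_⟩
  · -- the derivative of `T`
    intro h0
    obtain ⟨v, hv⟩ : ∃ v : EuclideanSpace ℝ (Fin (k + 2)), Mk k v = (1, 0, 0) :=
      ⟨(Mk k).symm (1, 0, 0), (Mk k).apply_symm_apply _⟩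
    have h1 : HasDerivAt (fun t : ℝ => t • v) v 0 := by
      have := (hasDerivAt_id (0 : ℝ)).smul_const v
      rwa [one_smul] at this
    have h2 : HasFDerivAt T (fderiv ℝ T 0) ((0 : ℝ) • v) := by
      rw [zero_smul]
      exact ((hTs.differentiable (by simp)) 0).hasFDerivAt
    have h3 := h2.comp_hasDerivAt (0 : ℝ) h1
    rw [h0] at h3
    have h4 : HasDerivAt (fun t : ℝ => c0 + ε ^ 2 * t) (ε ^ 2) 0 := by
      have := ((hasDerivAt_id (0 : ℝ)).const_mul (ε ^ 2)).const_add c0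
      rwa [mul_one] at this
    have h5 : (T ∘ fun t : ℝ => t • v) = fun t : ℝ => c0 + ε ^ 2 * t := by
      funext t
      show T (t • v) = _
      rw [hT]
      show c0 + ε ^ 2 * T0 J (Mk k (t • v)) = _
      rw [map_smul, hv]
      unfold T0
      simp [q_zero]
    rw [h5] at h3
    have h6 := h4.unique h3
    have : (0:ℝ) < ε ^ 2 := by positivity
    rw [h6] at this
    simp at this
  · rw [hh.self_of_nhds, hT]
    have h1 : H0 m R1 R3 J w (Mk k 0) = 0 := by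
      rw [map_zero]
      exact if_neg (lt_irrefl _)
    rw [h1, add_zero]
  · obtain ⟨C1, hC1, hC1'⟩ := hn_contact (σ := σk k) (π := πk k) hw (σk_norm k)
      (PsiU_smooth (R1 := R1) (R3 := R3) (J := J) hD.hm) hfar
    refine ⟨ε ^ 2 * C1, ?_⟩
    filter_upwards [hC1', hκ', nhdsWithin_le_nhds hh] with z h1 h2 h3
    have h4 : h z - T z = ε ^ 2 * hn w (PsiU m R1 R3 J) (σk k) (πk k) z := by
      rw [h3, hT, ← hH]
      ring
    rw [h4, abs_mul, abs_of_pos (by positivity : 0 < ε ^ 2), mul_assoc]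
    refine mul_le_mul_of_nonneg_left ?_ (by positivity)
    exact h1.trans (mul_le_mul_of_nonneg_left (hcmp _ h2.1 h2.2).1 hC1)
  · intro j
    obtain ⟨C1, hC1⟩ := hn_bigO (σ := σk k) (π := πk k) hw (σk_norm k) (πk_norm k) zero_le_two
      (k_norm k) (PsiU_smooth (R1 := R1) (R3 := R3) (J := J) hD.hm) hfar hsz j
    obtain ⟨M, hM⟩ := (isCompact_closedBall (0 : EuclideanSpace ℝ (Fin (k + 2)))
      1).exists_bound_of_continuousOn (f := iteratedFDeriv ℝ (j + 1) T)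
      (hTs.continuous_iteratedFDeriv (by exact_mod_cast le_top)).continuousOn
    have hball : ∀ᶠ z : EuclideanSpace ℝ (Fin (k + 2)) in 𝓝[≠] 0, z ∈ closedBall (0 : EuclideanSpace ℝ (Fin (k + 2))) 1 :=
      nhdsWithin_le_nhds (closedBall_mem_nhds _ one_pos)
    refine ⟨max M 0 + ε ^ 2 * (8 ^ j * max C1 0), ?_⟩
    filter_upwards [hC1, hκ', hκ, hη1, hball, self_mem_nhdsWithin,
      nhdsWithin_le_nhds hh.eventually_nhds] with z h1 h2 h3 h4 h5 h6 h7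
    have hη0 : 0 < η ‖z‖ := hη.pos _ h3.1 h3.2
    have hw0 : 0 < w ‖z‖ := hw.pos _ h2.1 h2.2
    have hev : h =ᶠ[𝓝 z] fun z => T z + ε ^ 2 • hn w (PsiU m R1 R3 J) (σk k) (πk k) z := by
      filter_upwards [h7] with y hy
      rw [hy, hT, ← hH]
      show c0 + ε ^ 2 * (T0 J (Mk k y) + H0 m R1 R3 J w (Mk k y)) = c0 + ε ^ 2 * T0 J (Mk k y) +
        ε ^ 2 * H0 m R1 R3 J w (Mk k y)
      ring
    have hns : ContDiffAt ℝ ∞ (hn w (PsiU m R1 R3 J) (σk k) (πk k)) z := by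
      have h8 : Mk k z ≠ 0 := by
        intro h9
        exact h6 ((Mk k).map_eq_zero_iff.1 h9)
      exact (H0_smooth (J := J) hD h8).comp z (Mk k).contDiff.contDiffAt
    have e1 : iteratedFDeriv ℝ (j + 1) h z = iteratedFDeriv ℝ (j + 1) T z +
        ε ^ 2 • iteratedFDeriv ℝ (j + 1) (hn w (PsiU m R1 R3 J) (σk k) (πk k)) z := by
      rw [(hev.iteratedFDeriv (𝕜 := ℝ) (j + 1)).self_of_nhds]
      have k1 : ContDiffAt ℝ ((j + 1 : ℕ) : WithTop ℕ∞) T z :=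
        hTs.contDiffAt.of_le (by exact_mod_cast le_top)
      have k2 : ContDiffAt ℝ ((j + 1 : ℕ) : WithTop ℕ∞)
          (hn w (PsiU m R1 R3 J) (σk k) (πk k)) z := hns.of_le (by exact_mod_cast le_top)
      have h8 := iteratedFDeriv_add_apply (i := j + 1) (f := T)
        (g := fun z => ε ^ 2 • hn w (PsiU m R1 R3 J) (σk k) (πk k) z) (x := z) k1
        (k2.const_smul (ε ^ 2))
      have h9 := iteratedFDeriv_const_smul_apply (a := ε ^ 2) (i := j + 1)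
        (f := hn w (PsiU m R1 R3 J) (σk k) (πk k)) (x := z) k2
      rw [← h9]
      exact h8
    rw [e1]
    have h8 : ‖iteratedFDeriv ℝ (j + 1) T z‖ ≤ max M 0 := (hM z h5).trans (le_max_left _ _)
    have h9 : η ‖z‖ ^ j ≤ 1 := pow_le_one₀ hη0.le h4.le
    have h10 : η ‖z‖ ^ j ≤ 8 ^ j * w ‖z‖ ^ j := by
      rw [← mul_pow]
      exact pow_le_pow_left₀ hη0.le (hcmp _ h2.1 h2.2).2 j
    have h11 := norm_add_le (iteratedFDeriv ℝ (j + 1) T z)
      (ε ^ 2 • iteratedFDeriv ℝ (j + 1) (hn w (PsiU m R1 R3 J) (σk k) (πk k)) z)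
    rw [norm_smul, Real.norm_eq_abs, abs_of_pos (by positivity : 0 < ε ^ 2)] at h11
    refine (mul_le_mul_of_nonneg_right h11 (by positivity)).trans ?_
    rw [add_mul]
    refine add_le_add ?_ ?_
    · calc _ ≤ max M 0 * 1 := mul_le_mul h8 h9 (by positivity) (le_max_right _ _)
        _ = max M 0 := mul_one _
    · have h12 : ‖iteratedFDeriv ℝ (j + 1) (hn w (PsiU m R1 R3 J) (σk k) (πk k)) z‖ * η ‖z‖ ^ j ≤
          8 ^ j * max C1 0 := by
        refine (mul_le_mul_of_nonneg_left h10 (norm_nonneg _)).trans ?_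
        calc _ = 8 ^ j * (‖iteratedFDeriv ℝ (j + 1) (hn w (PsiU m R1 R3 J) (σk k) (πk k)) z‖ *
              w ‖z‖ ^ j) := by ring
          _ ≤ 8 ^ j * max C1 0 :=
            mul_le_mul_of_nonneg_left (h1.trans (le_max_left _ _)) (by positivity)
      rw [mul_assoc]
      exact mul_le_mul_of_nonneg_left h12 (by positivity)

end main

end Pool.Agent.H816.Mo
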