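import Pool.Agent.H816.Mo8

/-!
# Removing a saddle of a function on a manifold
-/

set_option autoImplicit false
set_option linter.unusedSectionVars false

open Set Filter Topology Metric Function Module
open scoped ContDiff Manifold

noncomputable section

namespace Pool.Agent.H816.Mo

open Pool.Agent.H816 Pool.Agent.H816.Fam

section defs

variable (E : Type*) [NormedAddCommGroup E] [NormedSpace ℝ E] {X : Type*} [TopologicalSpace X]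
  [ChartedSpace E X]

/-- smooth near a point -/
def Sm (g : X → ℝ) (x : X) : Prop := ContMDiffAt 𝓘(ℝ, E) 𝓘(ℝ, ℝ) ∞ g x

/-- the derivative in the chart -/
def Df (g : X → ℝ) (x : X) : E →L[ℝ] ℝ :=
  fderiv ℝ (g ∘ (extChartAt 𝓘(ℝ, E) x).symm) (extChartAt 𝓘(ℝ, E) x x)

/-- the second derivative in the chart -/
def Hs (g : X → ℝ) (x : X) : E →L[ℝ] E →L[ℝ] ℝ :=
  fderiv ℝ (fderiv ℝ (g ∘ (extChartAt 𝓘(ℝ, E) x).symm)) (extChartAt 𝓘(ℝ, E) x x)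

/-- nondegenerate critical points which are not extrema -/
def Saddle (g : X → ℝ) (x : X) : Prop :=
  Df E g x = 0 ∧ (∀ v, (∀ w, Hs E g x v w = 0) → v = 0) ∧ (∃ v, 0 < Hs E g x v v) ∧
    ∃ v, Hs E g x v v < 0

/-- in suitable coordinates -/
def InC (P : (E → ℝ) → Prop) (g : X → ℝ) (p : X) : Prop :=
  ∃ A : E → X, A 0 = p ∧ IsLocalDiffeomorphAt 𝓘(ℝ, E) 𝓘(ℝ, E) ∞ A 0 ∧ P fun z => g (A z)

end defs

variable {E : Type*} [NormedAddCommGroup E] [NormedSpace ℝ E] {X : Type*} [TopologicalSpace X]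
  [ChartedSpace E X]

theorem chart_congr {g g' : X → ℝ} {x : X} (h : g =ᶠ[𝓝 x] g') :
    g ∘ (extChartAt 𝓘(ℝ, E) x).symm =ᶠ[𝓝 (extChartAt 𝓘(ℝ, E) x x)]
      g' ∘ (extChartAt 𝓘(ℝ, E) x).symm := by
  have hc : ContinuousAt (extChartAt 𝓘(ℝ, E) x).symm (extChartAt 𝓘(ℝ, E) x x) :=
    continuousAt_extChartAt_symm x
  have h1 : Tendsto (extChartAt 𝓘(ℝ, E) x).symm (𝓝 (extChartAt 𝓘(ℝ, E) x x)) (𝓝 x) := by
    have := hc.tendsto
    rwa [extChartAt_to_inv] at this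
  exact h1.eventually h

theorem Df_congr {g g' : X → ℝ} {x : X} (h : g =ᶠ[𝓝 x] g') : Df E g x = Df E g' x :=
  (chart_congr h).fderiv_eq

theorem Hs_congr {g g' : X → ℝ} {x : X} (h : g =ᶠ[𝓝 x] g') : Hs E g x = Hs E g' x :=
  (chart_congr h).fderiv.fderiv_eq

theorem Df_eq {g : X → ℝ} {x : X} (h : MDifferentiableAt 𝓘(ℝ, E) 𝓘(ℝ, ℝ) g x) :
    Df E g x = mfderiv 𝓘(ℝ, E) 𝓘(ℝ, ℝ) g x := by
  have h1 : mfderiv 𝓘(ℝ, E) 𝓘(ℝ, ℝ) g x = fderivWithin ℝ (writtenInExtChartAt 𝓘(ℝ, E) 𝓘(ℝ, ℝ) x g)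
    (range 𝓘(ℝ, E)) (extChartAt 𝓘(ℝ, E) x x) := h.mfderiv
  have h2 : range 𝓘(ℝ, E) = univ := ModelWithCorners.range_eq_univ _
  rw [h2, fderivWithin_univ] at h1
  exact h1.symm

section loc

variable {Z : Type*} [NormedAddCommGroup Z] [NormedSpace ℝ Z] {Ψ : Z → X} {z : Z} {g : X → ℝ}

theorem sm_of (hΨ : IsLocalDiffeomorphAt 𝓘(ℝ, Z) 𝓘(ℝ, E) ∞ Ψ z)
    (h : ContDiffAt ℝ ∞ (fun z => g (Ψ z)) z) : Sm E g (Ψ z) := by
  have h1 : g =ᶠ[𝓝 (Ψ z)] (fun z => g (Ψ z)) ∘ hΨ.localInverse := by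
    filter_upwards [hΨ.localInverse_eventuallyEq_right] with y hy
    show g y = g (Ψ (hΨ.localInverse y))
    have hy' : Ψ (hΨ.localInverse y) = y := hy
    rw [hy']
  have h2 : hΨ.localInverse (Ψ z) = z := hΨ.localInverse_left_inv hΨ.localInverse_mem_target
  have h3 : ContMDiffAt 𝓘(ℝ, Z) 𝓘(ℝ, ℝ) ∞ (fun z => g (Ψ z)) (hΨ.localInverse (Ψ z)) := by
    rw [h2]
    exact h.contMDiffAt
  exact (h3.comp (Ψ z) hΨ.localInverse_contMDiffAt).congr_of_eventuallyEq h1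

theorem md_of (hΨ : IsLocalDiffeomorphAt 𝓘(ℝ, Z) 𝓘(ℝ, E) ∞ Ψ z)
    (h : DifferentiableAt ℝ (fun z => g (Ψ z)) z) :
    MDifferentiableAt 𝓘(ℝ, E) 𝓘(ℝ, ℝ) g (Ψ z) := by
  have h1 : g =ᶠ[𝓝 (Ψ z)] (fun z => g (Ψ z)) ∘ hΨ.localInverse := by
    filter_upwards [hΨ.localInverse_eventuallyEq_right] with y hy
    show g y = g (Ψ (hΨ.localInverse y))
    have hy' : Ψ (hΨ.localInverse y) = y := hy
    rw [hy']
  have h2 : hΨ.localInverse (Ψ z) = z := hΨ.localInverse_left_inv hΨ.localInverse_mem_target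
  have h3 : MDifferentiableAt 𝓘(ℝ, Z) 𝓘(ℝ, ℝ) (fun z => g (Ψ z)) (hΨ.localInverse (Ψ z)) := by
    rw [h2]
    exact h.mdifferentiableAt
  exact (h3.comp (Ψ z) (hΨ.localInverse_mdifferentiableAt (by simp))).congr_of_eventuallyEq h1

theorem Df_ne (hΨ : IsLocalDiffeomorphAt 𝓘(ℝ, Z) 𝓘(ℝ, E) ∞ Ψ z)
    (h : DifferentiableAt ℝ (fun z => g (Ψ z)) z) (h0 : fderiv ℝ (fun z => g (Ψ z)) z ≠ 0) :
    Df E g (Ψ z) ≠ 0 := by
  intro h1
  have h2 := md_of hΨ h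
  have h3 : mfderiv 𝓘(ℝ, E) 𝓘(ℝ, ℝ) g (Ψ z) = 0 := (Df_eq h2).symm.trans h1
  have h4 : mfderiv 𝓘(ℝ, Z) 𝓘(ℝ, ℝ) (g ∘ Ψ) z =
      (mfderiv 𝓘(ℝ, E) 𝓘(ℝ, ℝ) g (Ψ z)).comp (mfderiv 𝓘(ℝ, Z) 𝓘(ℝ, E) Ψ z) :=
    mfderiv_comp z h2 (hΨ.mdifferentiableAt (by simp))
  rw [h3, ContinuousLinearMap.zero_comp] at h4
  exact h0 (mfderiv_eq_fderiv.symm.trans h4)

end loc

section chart

variable [IsManifold 𝓘(ℝ, E) ∞ X] {Z : Type*} [NormedAddCommGroup Z] [NormedSpace ℝ Z]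

/-- coordinates around a point -/
def pd (p : X) (a : Z → E) (a' : E → Z) (ha : ContDiff ℝ ∞ a) (ha' : ContDiff ℝ ∞ a')
    (h1 : ∀ z, a' (a z) = z) (h2 : ∀ e, a (a' e) = e) :
    PartialDiffeomorph 𝓘(ℝ, Z) 𝓘(ℝ, E) Z X ∞ where
  toFun z := (chartAt E p).symm (a z)
  invFun x := a' (chartAt E p x)
  source := a ⁻¹' (chartAt E p).target
  target := (chartAt E p).source
  map_source' := fun z hz => (chartAt E p).map_target hz
  map_target' := fun x hx => by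
    show a (a' (chartAt E p x)) ∈ (chartAt E p).target
    rw [h2]
    exact (chartAt E p).map_source hx
  left_inv' := fun z hz => by
    show a' (chartAt E p ((chartAt E p).symm (a z))) = z
    rw [(chartAt E p).right_inv hz, h1]
  right_inv' := fun x hx => by
    show (chartAt E p).symm (a (a' (chartAt E p x))) = x
    rw [h2, (chartAt E p).left_inv hx]
  open_source := (chartAt E p).open_target.preimage ha.continuous
  open_target := (chartAt E p).open_source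
  contMDiffOn_toFun := (contMDiffOn_chart_symm (I := 𝓘(ℝ, E))).comp ha.contMDiff.contMDiffOn
    (fun _ h => h)
  contMDiffOn_invFun := ha'.contMDiff.comp_contMDiffOn (contMDiffOn_chart (I := 𝓘(ℝ, E)))

end chart

section transplant

variable [T2Space X] {Z : Type*} [NormedAddCommGroup Z] [NormedSpace ℝ Z]
  [FiniteDimensional ℝ Z]

/-- changing a function in a ball -/
theorem transplant (Ψ : PartialDiffeomorph 𝓘(ℝ, Z) 𝓘(ℝ, E) Z X ∞) {ρ : ℝ} (hρ : 0 < ρ)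
    (hb : ball 0 (3 * ρ) ⊆ Ψ.source) (f : X → ℝ) (G : Z → ℝ)
    (hG : ∀ z, 2 * ρ ≤ ‖z‖ → ‖z‖ < 3 * ρ → G z = f (Ψ z)) :
    ∃ g : X → ℝ, (∀ z, ‖z‖ < 3 * ρ → ∀ᶠ z' in 𝓝 z, g (Ψ z') = G z') ∧
      ∀ x, (∀ z, ‖z‖ ≤ 2 * ρ → Ψ z ≠ x) → g =ᶠ[𝓝 x] f := by
  classical
  obtain ⟨g, hg⟩ : ∃ g : X → ℝ, g = fun x => if x ∈ Ψ '' ball 0 (3 * ρ) then G (Ψ.invFun x) else
    f x := ⟨_, rfl⟩
  have hin : ∀ z, ‖z‖ < 3 * ρ → g (Ψ z) = G z := by
    intro z hz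
    have hz' : z ∈ ball (0 : Z) (3 * ρ) := mem_ball_zero_iff.2 hz
    have h1 : Ψ z ∈ Ψ '' ball 0 (3 * ρ) := mem_image_of_mem _ hz'
    have h2 : Ψ.invFun (Ψ z) = z := Ψ.left_inv' (hb hz')
    rw [hg]
    show (if Ψ z ∈ Ψ '' ball 0 (3 * ρ) then G (Ψ.invFun (Ψ z)) else f (Ψ z)) = G z
    rw [if_pos h1, h2]
  have hsub : closedBall (0 : Z) (2 * ρ) ⊆ ball 0 (3 * ρ) := closedBall_subset_ball (by linarith)
  have hK : IsCompact (Ψ '' closedBall (0 : Z) (2 * ρ)) :=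
    (isCompact_closedBall _ _).image_of_continuousOn
      (Ψ.contMDiffOn_toFun.continuousOn.mono (hsub.trans hb))
  refine ⟨g, fun z hz => ?_, fun x hx => ?_⟩
  · filter_upwards [(continuous_norm.tendsto z).eventually_lt_const hz] with y hy
    exact hin y hy
  · have hx' : x ∈ (Ψ '' closedBall (0 : Z) (2 * ρ))ᶜ := by
      rintro ⟨z, hz, hzx⟩
      exact hx z (mem_closedBall_zero_iff.1 hz) hzx
    filter_upwards [hK.isClosed.isOpen_compl.mem_nhds hx'] with y hy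
    by_cases h1 : y ∈ Ψ '' ball 0 (3 * ρ)
    · obtain ⟨z, hz, rfl⟩ := h1
      have hz' := mem_ball_zero_iff.1 hz
      rw [hin z hz']
      refine hG z ?_ hz'
      by_contra hcon
      exact hy ⟨z, mem_closedBall_zero_iff.2 (not_le.1 hcon).le, rfl⟩
    · rw [hg]
      exact if_neg h1

end transplant


end Pool.Agent.H816.Mo
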