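import Pool.Agent.H816.Lift
import Pool.Agent.H816.HornLip
import Pool.Agent.H816.LipT

/-!
# The model: horns on the sphere
-/

set_option autoImplicit false

open Set Filter Topology Metric Function MeasureTheory Module
open scoped Manifold ContDiff NNReal

noncomputable section

namespace Pool.Agent.H816

open Pool.Agent.Y522 Pool.Agent.Y784.SH

variable {m : ℕ}

/-- the fundamental domain -/
def Ud (m : ℕ) : Set (E (m + 1)) := {u | |u 0| < Real.pi}

theorem isOpen_Ud : IsOpen (Ud m) :=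
  isOpen_lt (continuous_abs.comp continuous_head) continuous_const

theorem pol_injOn : InjOn (pol : E (m + 1) → Sn (m + 1)) (Ud m) := by
  intro u hu v hv huv
  obtain ⟨k, hk⟩ := pol_eq huv
  have hu' : |u 0| < Real.pi := hu
  have hv' : |v 0| < Real.pi := hv
  have hpi := Real.pi_pos
  have h1 : v 0 = u 0 + k * (2 * Real.pi) := by rw [hk, sh_zero]
  have h2 : |(k : ℝ)| < 1 := by
    have h3 : (k : ℝ) * (2 * Real.pi) = v 0 - u 0 := by linarith
    have h4 : |(k : ℝ) * (2 * Real.pi)| < 2 * Real.pi := by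
      rw [h3]
      have := abs_sub (v 0) (u 0)
      linarith
    rw [abs_mul, abs_of_pos (by positivity : 0 < 2 * Real.pi)] at h4
    have h5 : |(k : ℝ)| * (2 * Real.pi) < 1 * (2 * Real.pi) := by linarith
    exact lt_of_mul_lt_mul_right h5 (by positivity)
  have h3 : k = 0 := by
    have h4 : |k| < 1 := by exact_mod_cast h2
    exact Int.abs_lt_one_iff.1 h4
  rw [hk, h3]
  simp only [Int.cast_zero, zero_mul, sh_0]

theorem sh_eq (t : ℝ) (u : E (m + 1)) : sh t u = u + cn t 0 := by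
  unfold sh
  conv_rhs => rw [← cn_tl u]
  ext i
  refine Fin.cases ?_ (fun i => ?_) i <;> simp

theorem pol_cont : Continuous (pol : E (m + 1) → Sn (m + 1)) :=
  continuous_iff_continuousAt.2 fun x => (pol_LD x).continuousAt

/-- periodic -/
def Per (h : E (m + 1) → E (m + 1)) : Prop :=
  ∀ (k : ℤ) (u), h (sh (k * (2 * Real.pi)) u) = sh (k * (2 * Real.pi)) (h u)

theorem Per.inv {h k : E (m + 1) → E (m + 1)} (hp : Per h)
    (h1 : ∀ x, k (h x) = x) (h2 : ∀ x, h (k x) = x) : Per k := by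
  intro j u
  have h3 := hp j (k u)
  rw [h2] at h3
  rw [← h3, h1]

theorem fderiv_bound {h : E (m + 1) → E (m + 1)} {L C : ℝ} (hh : Cyl L C h)
    (hd : Dif (m + 1) h) (hp : Per h) : ∃ B : ℝ, ∀ u, ‖fderiv ℝ h u‖ ≤ B := by
  have hs : ContDiff ℝ ∞ h := contDiff_iff_contDiffAt.2 fun u => (hd.2 u).contDiffAt
  have hc : Continuous (fderiv ℝ h) := hs.continuous_fderiv (by simp)
  obtain ⟨B, hB⟩ := (isCompact_box (m := m) L Real.pi).exists_bound_of_continuousOn hc.continuousOn
  refine ⟨max B 1, fun u => ?_⟩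
  rcases lt_or_ge L ‖tl u‖ with hu | hu
  · have hev : h =ᶠ[𝓝 u] fun w => w := by
      have hTc : Continuous (fun w : E (m + 1) => ‖tl w‖) := tl.continuous.norm
      filter_upwards [(isOpen_lt continuous_const hTc).mem_nhds hu] with w hw
      have hw' : L < ‖tl w‖ := hw
      exact hh.far _ hw'.le
    rw [hev.fderiv_eq, fderiv_fun_id]
    exact (ContinuousLinearMap.norm_id_le).trans (le_max_right _ _)
  · obtain ⟨k, hk⟩ := exists_shift (u 0)
    have h1 : fderiv ℝ h u = fderiv ℝ h (sh (k * (2 * Real.pi)) u) := by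
      have h2 : (fun x => h (x + cn (k * (2 * Real.pi)) 0)) =
          fun x => h x + cn (k * (2 * Real.pi)) 0 := by
        funext x
        rw [← sh_eq, ← sh_eq, hp]
      have h3 := fderiv_comp_add_right (𝕜 := ℝ) (f := h) (x := u)
        (cn ((k : ℝ) * (2 * Real.pi)) 0)
      rw [h2, fderiv_add_const] at h3
      rw [h3, sh_eq]
    rw [h1]
    refine (hB _ ⟨?_, ?_⟩).trans (le_max_left _ _)
    · rw [tl_sh]; exact hu
    · rw [sh_zero]; exact hk

section one

variable {P : Prof} {L C : ℝ} {h : E (m + 1) → E (m + 1)}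

/-- the horn map on the sphere -/
def HS (P : Prof) (h : E (m + 1) → E (m + 1)) : Sn (m + 1) → Sn (m + 1) :=
  Cj (Ud m) pol (Hm P h)

theorem Hm_off (hh : Cyl L C h) : ∀ u, u ∉ box m L P.c → Hm P h u = u := by
  intro u hu
  by_cases h1 : ‖tl u‖ ≤ L
  · have h2 : ¬ |u 0| ≤ P.c := fun h2 => hu ⟨h1, h2⟩
    exact Hm_of_ge P (not_le.1 h2).le
  · exact Hm_far hh (not_le.1 h1).le

theorem box_sub (hP : P.c < Real.pi) : box m L P.c ⊆ Ud m := fun _ hu => hu.2.trans_lt hP

theorem Hm_Ud (hP : P.c < Real.pi) : ∀ u ∈ Ud m, Hm P h u ∈ Ud m := by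
  intro u hu
  rcases lt_or_ge |u 0| P.c with h1 | h1
  · rw [Hm_of_lt P h1]
    exact (Xi_lt P _).trans hP
  · rw [Hm_of_ge P h1]
    exact hu

theorem HS_inv {k : E (m + 1) → E (m + 1)} (hP : P.c < Real.pi) (h1 : ∀ x, k (h x) = x)
    (y : Sn (m + 1)) : HS P k (HS P h y) = y := by
  unfold HS
  rw [Cj_comp pol_injOn (Hm_Ud hP)]
  have : (fun x => Hm P k (Hm P h x)) = fun x => x := by
    funext x
    rw [Hm_comp]
    have h2 : (fun x => k (h x)) = fun x => x := funext h1
    rw [h2, Hm_id]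
  rw [this, Cj_id pol_injOn]

theorem HS_LD (hP : P.c < Real.pi) (hh : Cyl L C h) (hd : Dif (m + 1) h) {y : Sn (m + 1)}
    (ha : y ≠ pol (cn P.c 0)) (hb : y ≠ pol (cn (-P.c) 0)) : LD (m + 1) (HS P h) y := by
  by_cases hy : y ∈ pol '' Ud m
  · obtain ⟨u, hu, rfl⟩ := hy
    refine Cj_LD isOpen_Ud pol_injOn pol_LD hu ?_
    refine Hm_LD hh hd.2 ?_
    by_contra hcon
    push Not at hcon
    obtain ⟨h1, h2⟩ := hcon
    have hc : 0 < P.c := P.hc'.trans P.hc
    rcases eq_or_eq_neg_of_abs_eq h1 with h3 | h3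
    · apply ha
      rw [← h3, ← h2, cn_tl]
    · apply hb
      rw [← h3, ← h2, cn_tl]
  · refine Cj_LD' (isCompact_box L P.c) pol_LD (Hm_off hh) fun h1 => hy ?_
    exact image_mono (box_sub hP) h1

theorem HS_id (hh : Cyl L C h) {y : Sn (m + 1)} (hy : y ∉ pol '' box m L P.c) :
    HS P h =ᶠ[𝓝 y] fun z => z := by
  have hK : IsCompact ((pol : E (m + 1) → Sn (m + 1)) '' box m L P.c) :=
    (isCompact_box L P.c).image pol_cont
  filter_upwards [hK.isClosed.isOpen_compl.mem_nhds hy] with z hz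
  exact Cj_fix (Hm_off hh) hz

theorem HS_apply {u : E (m + 1)} (hu : u ∈ Ud m) : HS P h (pol u) = pol (Hm P h u) :=
  Cj_apply pol_injOn hu

/-- the horn map in a chart -/
theorem HS_chart {u : E (m + 1)} (hu : u ∈ Ud m) : ∃ q : Sn (m + 1) → E (m + 1),
    LD (m + 1) q (pol u) ∧ q (pol u) = u ∧ (∀ᶠ y in 𝓝 (pol u), pol (q y) = y) ∧
    ∀ᶠ y in 𝓝 (pol u), HS P h y = pol (Hm P h (q y)) := by
  obtain ⟨q, hq, hqx, -, hq2⟩ := LD_exists_inv (pol_LD u)
  refine ⟨q, hq, hqx, hq2, ?_⟩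
  have h1 : ∀ᶠ y in 𝓝 (pol u), q y ∈ Ud m := by
    have h2 : q (pol u) ∈ Ud m := by rw [hqx]; exact hu
    exact hq.continuousAt.eventually (isOpen_Ud.mem_nhds h2)
  filter_upwards [h1, hq2] with y hy1 hy2
  rw [← HS_apply hy1, hy2]

theorem Hm_lipAt (hh : Cyl L C h) (hd : Dif (m + 1) h) (hp : Per h) (u : E (m + 1)) :
    LipAt (Hm P h) u := by
  obtain ⟨B, hB⟩ := fderiv_bound hh hd hp
  obtain ⟨Λ, hΛ0, hΛ⟩ := Hm_lip (P := P) hh
    (fun u => ((hd.2 u).contDiffAt).differentiableAt (by simp)) hB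
  refine ⟨Λ.toNNReal, univ, univ_mem, ?_⟩
  refine LipschitzOnWith.of_dist_le_mul fun v _ w _ => ?_
  rw [dist_eq_norm, dist_eq_norm, Real.coe_toNNReal _ hΛ0]
  exact hΛ v w

theorem HS_lipAt (hP : P.c < Real.pi) (hh : Cyl L C h) (hd : Dif (m + 1) h) (hp : Per h)
    (y : Sn (m + 1)) : LipAt (HS P h) y := by
  by_cases hy : y ∈ pol '' Ud m
  · obtain ⟨u, hu, rfl⟩ := hy
    obtain ⟨q, hq, hqx, hq2, hq3⟩ := HS_chart (P := P) (h := h) hu
    have h1 : LipAt q (pol u) := lipAt_SE hq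
    have h2 : LipAt (fun y => Hm P h (q y)) (pol u) :=
      LipAt.comp (g := Hm P h) (Hm_lipAt hh hd hp _) h1
    have h3 : LipAt (fun y => pol (Hm P h (q y))) (pol u) :=
      LipAt.comp (g := pol) (f := fun y => Hm P h (q y)) (lipAt_E (pol_LD _)) h2
    exact h3.congr hq3
  · refine (LipAt.id y).congr (HS_id hh fun h1 => hy ?_)
    exact image_mono (box_sub hP) h1

theorem HS_flat (hP : P.c < Real.pi) (hF : P.Flat) (hh : Cyl L C h) (hd : Dif (m + 1) h)
    (hp : Per h) (s : ℝ) (hs : s = P.c ∨ s = -P.c) (N : ℕ) :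
    (fun y => dist (HS P h y) y) =O[𝓝 (pol (cn s 0))]
      fun y => dist y (pol (cn s 0 : E (m + 1))) ^ N := by
  have hc : 0 < P.c := P.hc'.trans P.hc
  have habs : |s| = P.c := by
    rcases hs with rfl | rfl
    · exact abs_of_pos hc
    · rw [abs_neg, abs_of_pos hc]
  set u : E (m + 1) := cn s 0 with hu
  have hu0 : u 0 = s := by simp [hu]
  have huU : u ∈ Ud m := by
    show |u 0| < Real.pi
    rw [hu0, habs]
    exact hP
  have hfix : Hm P h u = u := Hm_of_ge P (by rw [hu0, habs])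
  obtain ⟨q, hq, hqx, hq2, hq3⟩ := HS_chart (P := P) (h := h) huU
  obtain ⟨K, hK0, hK⟩ := Hm_flat (P := P) hF hh N
  have hK' : ∀ v : E (m + 1), ‖Hm P h v - v‖ ≤ K * ‖v - u‖ ^ N := by
    intro v
    rcases hs with rfl | rfl
    · exact (hK v).1
    · exact (hK v).2
  obtain ⟨Λ, t, ht, hΛ⟩ := lipAt_E (pol_LD (m := m) u)
  have hcont1 : Tendsto q (𝓝 (pol u)) (𝓝 u) := by
    have := hq.continuousAt.tendsto
    rwa [hqx] at this
  have hcont2 : Tendsto (fun y => Hm P h (q y)) (𝓝 (pol u)) (𝓝 u) := by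
    have h1 : Tendsto (Hm P h) (𝓝 u) (𝓝 u) := by
      have := (Hm_lipAt (P := P) hh hd hp u).continuousAt.tendsto
      rwa [hfix] at this
    exact h1.comp hcont1
  have h1 : (fun y => dist (HS P h y) y) =O[𝓝 (pol u)] fun y => ‖q y - u‖ ^ N := by
    refine Asymptotics.IsBigO.of_bound (Λ * K) ?_
    filter_upwards [hq2, hq3, hcont1 ht, hcont2 ht] with y h2 h3 h4 h5
    rw [Real.norm_of_nonneg dist_nonneg, Real.norm_of_nonneg (by positivity), h3]
    calc dist (pol (Hm P h (q y))) y = dist (pol (Hm P h (q y))) (pol (q y)) := by rw [h2]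
      _ ≤ Λ * dist (Hm P h (q y)) (q y) := hΛ.dist_le_mul _ h5 _ h4
      _ ≤ Λ * (K * ‖q y - u‖ ^ N) := by
          rw [dist_eq_norm]
          exact mul_le_mul_of_nonneg_left (hK' _) Λ.2
      _ = _ := by ring
  have h2 : (fun y => ‖q y - u‖) =O[𝓝 (pol u)] fun y => dist y (pol u) := by
    have h3 := (lipAt_SE hq).isBigO
    rw [hqx] at h3
    simp only [dist_eq_norm (a := q _)] at h3
    exact h3
  exact h1.trans (h2.pow N)

end one

/-- the result of the construction -/
structure Model (m : ℕ) (K F F' : Sn (m + 1) → Sn (m + 1)) (a b : Sn (m + 1)) : Prop where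
  left : ∀ y, F' (F y) = y
  right : ∀ y, F (F' y) = y
  ha : 0 < (a : E (m + 1 + 1)) 0
  hb : (b : E (m + 1 + 1)) 0 < 0
  ld : ∀ y, y ≠ a → y ≠ b → LD (m + 1) F y
  ld' : ∀ y, y ≠ a → y ≠ b → LD (m + 1) F' y
  lip : ∀ y, LipAt F y
  lip' : ∀ y, LipAt F' y
  flata : ∀ N : ℕ, (fun y => dist (F y) y) =O[𝓝 a] fun y => dist y a ^ N
  flatb : ∀ N : ℕ, (fun y => dist (F y) y) =O[𝓝 b] fun y => dist y b ^ N
  flata' : ∀ N : ℕ, (fun y => dist (F' y) y) =O[𝓝 a] fun y => dist y a ^ N
  flatb' : ∀ N : ℕ, (fun y => dist (F' y) y) =O[𝓝 b] fun y => dist y b ^ N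
  plus : ∀ y : Sn (m + 1), (y : E (m + 1 + 1)) 0 = 0 → 0 ≤ (tl (y : E (m + 1 + 1))) 0 →
    F =ᶠ[𝓝 y] K
  minus : ∀ y : Sn (m + 1), (y : E (m + 1 + 1)) 0 = 0 → (tl (y : E (m + 1 + 1))) 0 ≤ 0 →
    F =ᶠ[𝓝 y] fun z => z

theorem rd_sq (y : E (m + 1 + 1)) : rd y ^ 2 = y 0 ^ 2 + (tl y) 0 ^ 2 :=
  Real.sq_sqrt (by positivity)

theorem rd_nonneg (y : E (m + 1 + 1)) : 0 ≤ rd y := Real.sqrt_nonneg _

/-- the model theorem -/
theorem exists_model (hm : 2 ≤ m) {K : Sn (m + 1) → Sn (m + 1)} (hK : DifS (m + 1) K) {ε : ℝ}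
    (hε : 0 < ε) (hid : ∀ y : Sn (m + 1), rd (y : E (m + 1 + 1)) < ε → K y = y)
    (hdis : ∀ y : Sn (m + 1), (y : E (m + 1 + 1)) 0 = 0 → 0 < (tl (y : E (m + 1 + 1))) 0 →
      (K y : E (m + 1 + 1)) 0 = 0 → 0 < (tl (K y : E (m + 1 + 1))) 0) :
    ∃ (F F' : Sn (m + 1) → Sn (m + 1)) (a b : Sn (m + 1)), Model m K F F' a b := by
  have hpi := Real.pi_pos
  obtain ⟨h, L, C, hh, hd, hpol, hper⟩ := exists_lift hm hK hε hid
  obtain ⟨k, hk, hkh, hhk⟩ := hd.inv
  have hc : Continuous h := continuous_iff_continuousAt.2 fun u => (hd.2 u).continuousAt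
  have hL := hh.hL
  -- heights on the hyperplane
  set b : E m → ℝ := fun x => h (cn 0 x) 0 with hb
  have hbc : Continuous b := by
    have h1 : Continuous fun x : E m => (cn 0 x : E (m + 1)) :=
      continuous_cn.comp (continuous_const.prodMk continuous_id)
    exact continuous_head.comp (hc.comp h1)
  have hbfar : ∀ x, L ≤ ‖x‖ → b x = 0 := by
    intro x hx
    simp only [hb]
    rw [hh.far _ (by rw [tl_cn]; exact hx), cn_zero]
  have hbne : ∀ x, |b x| ≠ Real.pi := by
    intro x hx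
    set u : E (m + 1) := cn 0 x with hu
    have hu0 : u 0 = 0 := by simp [hu]
    have h1 : (pol u : E (m + 1 + 1)) 0 = 0 := by
      show polc u 0 = 0
      rw [polc_zero, hu0, Real.sin_zero, mul_zero]
    have h2 : 0 < (tl (pol u : E (m + 1 + 1))) 0 := by
      show 0 < tl (polc u) 0
      rw [polc_one, hu0, Real.cos_zero, mul_one]
      exact inv_pos.2 (wt_pos u)
    have h3 : Real.sin (h u 0) = 0 := by
      have h4 : h u 0 = Real.pi ∨ h u 0 = -Real.pi := eq_or_eq_neg_of_abs_eq hx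
      rcases h4 with h4 | h4
      · rw [h4, Real.sin_pi]
      · rw [h4, Real.sin_neg, Real.sin_pi, neg_zero]
    have h3' : Real.cos (h u 0) = -1 := by
      have h4 : h u 0 = Real.pi ∨ h u 0 = -Real.pi := eq_or_eq_neg_of_abs_eq hx
      rcases h4 with h4 | h4
      · rw [h4, Real.cos_pi]
      · rw [h4, Real.cos_neg, Real.cos_pi]
    have h5 : (K (pol u) : E (m + 1 + 1)) 0 = 0 := by
      rw [← hpol]
      show polc (h u) 0 = 0
      rw [polc_zero, h3, mul_zero]
    have h6 := hdis _ h1 h2 h5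
    rw [← hpol] at h6
    have h7 : (tl (pol (h u) : E (m + 1 + 1))) 0 = (wt (h u))⁻¹ * Real.cos (h u 0) := polc_one _
    rw [h7, h3'] at h6
    have := inv_pos.2 (wt_pos (h u))
    linarith
  have hblt : ∀ x, |b x| < Real.pi := by
    intro x
    by_contra hcon
    push Not at hcon
    have hnt : ∃ x0 : E m, L ≤ ‖x0‖ := by
      have : Nontrivial (E m) := by
        have : 0 < m := by omega
        have : Nonempty (Fin m) := ⟨⟨0, this⟩⟩
        infer_instance
      obtain ⟨x0, hx0⟩ := exists_norm_eq (E m) hL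
      exact ⟨x0, hx0.ge⟩
    obtain ⟨x0, hx0⟩ := hnt
    have h1 : IsPreconnected (range fun x => |b x|) := isPreconnected_range hbc.abs
    have h2 := h1.ordConnected.out (mem_range_self x0) (mem_range_self x)
    have h3 : Real.pi ∈ Icc (|b x0|) (|b x|) := by
      refine ⟨?_, hcon⟩
      rw [hbfar x0 hx0, abs_zero]
      exact hpi.le
    obtain ⟨x1, hx1⟩ := h2 h3
    exact hbne x1 hx1
  obtain ⟨β, hβ0, hβ, hβb⟩ : ∃ β : ℝ, 0 ≤ β ∧ β < Real.pi ∧ ∀ x, |b x| ≤ β := by
    obtain ⟨x1, -, hx1⟩ := (isCompact_closedBall (0 : E m) L).exists_isMaxOn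
      ⟨0, by simpa using hL⟩ hbc.abs.continuousOn
    refine ⟨|b x1|, abs_nonneg _, hblt x1, fun x => ?_⟩
    rcases le_total L ‖x‖ with hx | hx
    · rw [hbfar x hx, abs_zero]
      exact abs_nonneg _
    · exact hx1 (by simpa using hx)
  -- the profile
  obtain ⟨P, hPc', hPc, hPf⟩ := exists_prof (c' := (β + Real.pi) / 2)
    (c := ((β + Real.pi) / 2 + Real.pi) / 2) (by linarith) (by linarith)
  have hPpi : P.c < Real.pi := by rw [hPc]; linarith
  have hβc : β < P.c' := by rw [hPc']; linarith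
  have hcpos : 0 < P.c := P.hc'.trans P.hc
  have hkk : Cyl L C k := hh.inv hkh hhk
  have hperk : Per k := Per.inv hper hkh hhk
  have hsin : 0 < Real.sin P.c := Real.sin_pos_of_pos_of_lt_pi hcpos hPpi
  -- near the axis
  have haxis : ∀ y : Sn (m + 1), rd (y : E (m + 1 + 1)) = 0 → y ∉ pol '' box m L P.c := by
    rintro y hy ⟨u, -, rfl⟩
    have h1 : rd (polc u) = 0 := hy
    rw [rd_polc] at h1
    exact (inv_pos.2 (wt_pos u)).ne' h1
  have haxisK : ∀ y : Sn (m + 1), rd (y : E (m + 1 + 1)) = 0 → K =ᶠ[𝓝 y] fun z => z := by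
    intro y hy
    have h1 : Continuous fun z : Sn (m + 1) => rd (z : E (m + 1 + 1)) :=
      rd_cont.comp continuous_subtype_val
    have h2 : ∀ᶠ z : Sn (m + 1) in 𝓝 y, rd (z : E (m + 1 + 1)) < ε :=
      (h1.continuousAt (x := y)).eventually_lt continuousAt_const (by rw [hy]; exact hε)
    filter_upwards [h2] with z hz
    exact hid z hz
  refine ⟨HS P h, HS P k, pol (cn P.c 0), pol (cn (-P.c) 0), ?_⟩
  refine
    { left := HS_inv hPpi hkh
      right := HS_inv hPpi hhk
      ha := ?_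
      hb := ?_
      ld := fun y h1 h2 => HS_LD hPpi hh hd h1 h2
      ld' := fun y h1 h2 => HS_LD hPpi hkk hk h1 h2
      lip := HS_lipAt hPpi hh hd hper
      lip' := HS_lipAt hPpi hkk hk hperk
      flata := HS_flat hPpi hPf hh hd hper _ (Or.inl rfl)
      flatb := HS_flat hPpi hPf hh hd hper _ (Or.inr rfl)
      flata' := HS_flat hPpi hPf hkk hk hperk _ (Or.inl rfl)
      flatb' := HS_flat hPpi hPf hkk hk hperk _ (Or.inr rfl)
      plus := ?_
      minus := ?_ }
  · show 0 < polc _ 0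
    rw [polc_zero, cn_zero]
    exact mul_pos (inv_pos.2 (wt_pos _)) hsin
  · show polc _ 0 < 0
    rw [polc_zero, cn_zero, Real.sin_neg]
    have := mul_pos (inv_pos.2 (wt_pos (cn (-P.c) 0 : E (m + 1)))) hsin
    linarith
  · intro y hy0 hy1
    rcases eq_or_lt_of_le hy1 with h1 | h1
    · have hr : rd (y : E (m + 1 + 1)) = 0 := by
        unfold rd
        rw [hy0, ← h1]
        simp
      have e1 := HS_id (P := P) hh (haxis y hr)
      have e2 := haxisK y hr
      exact e1.trans e2.symm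
    · have hr : rd (y : E (m + 1 + 1)) ≠ 0 := by
        have h2 := rd_sq (y : E (m + 1 + 1))
        intro h3
        rw [h3, hy0] at h2
        nlinarith
      obtain ⟨u', hu'⟩ := pol_surj hr
      obtain ⟨j, hj⟩ := exists_shift (u' 0)
      set u := sh (j * (2 * Real.pi)) u' with hu
      have hpu : pol u = y := by rw [hu, pol_sh, hu']
      have hu0 : |u 0| ≤ Real.pi := by rw [hu, sh_zero]; exact hj
      have hs0 : Real.sin (u 0) = 0 := by
        have h2 : polc u 0 = 0 := by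
          have : (pol u : E (m + 1 + 1)) 0 = 0 := by rw [hpu]; exact hy0
          exact this
        rw [polc_zero] at h2
        exact (mul_eq_zero.1 h2).resolve_left (inv_pos.2 (wt_pos u)).ne'
      have hc0 : 0 < Real.cos (u 0) := by
        have h2 : 0 < tl (polc u) 0 := by
          have : 0 < (tl (pol u : E (m + 1 + 1))) 0 := by rw [hpu]; exact h1
          exact this
        rw [polc_one] at h2
        exact (mul_pos_iff_of_pos_left (inv_pos.2 (wt_pos u))).1 h2
      have huz : u 0 = 0 := by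
        rw [Real.sin_eq_zero_iff] at hs0
        obtain ⟨n, hn⟩ := hs0
        have h3 : |(n : ℝ)| ≤ 1 := by
          rw [← hn, abs_mul, abs_of_pos hpi] at hu0
          have h4 : |(n : ℝ)| * Real.pi ≤ 1 * Real.pi := by linarith
          exact le_of_mul_le_mul_right h4 hpi
        have h4 : |n| ≤ 1 := by exact_mod_cast h3
        have h5 : n = 0 ∨ n = 1 ∨ n = -1 := by
          rw [abs_le] at h4
          omega
        rcases h5 with rfl | rfl | rfl
        · rw [← hn]; simp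
        · rw [← hn] at hc0
          simp at hc0
          linarith
        · rw [← hn] at hc0
          simp at hc0
          linarith
      have huU : u ∈ Ud m := by
        show |u 0| < Real.pi
        rw [huz, abs_zero]
        exact hpi
      rw [← hpu]
      obtain ⟨q, hq, hqx, hq2, hq3⟩ := HS_chart (P := P) (h := h) huU
      have h5 : ∀ᶠ v in 𝓝 u, |v 0| < P.c' := by
        have h6 : Continuous fun v : E (m + 1) => |v 0| := continuous_abs.comp continuous_head
        exact (h6.continuousAt (x := u)).eventually_lt continuousAt_const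
          (by rw [huz, abs_zero]; exact P.hc')
      have h6 : ∀ᶠ v in 𝓝 u, |h v 0| < P.c' := by
        have h7 : Continuous fun v : E (m + 1) => |h v 0| :=
          continuous_abs.comp (continuous_head.comp hc)
        refine (h7.continuousAt (x := u)).eventually_lt continuousAt_const ?_
        have h8 : u = cn 0 (tl u) := by
          conv_lhs => rw [← cn_tl u, huz]
        rw [h8]
        exact (hβb (tl u)).trans_lt hβc
      have hqt : Tendsto q (𝓝 (pol u)) (𝓝 u) := by
        have := hq.continuousAt.tendsto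
        rwa [hqx] at this
      filter_upwards [hq2, hq3, hqt.eventually h5, hqt.eventually h6] with z e1 e2 e3 e4
      rw [e2, Hm_agree e3.le e4.le, hpol, e1]
  · intro y hy0 hy1
    refine HS_id (P := P) hh ?_
    rintro ⟨u, hu, rfl⟩
    have h1 : polc u 0 = 0 := hy0
    have h2 : tl (polc u) 0 ≤ 0 := hy1
    have hw := inv_pos.2 (wt_pos u)
    rw [polc_zero] at h1
    rw [polc_one] at h2
    have hs0 : Real.sin (u 0) = 0 := (mul_eq_zero.1 h1).resolve_left hw.ne'
    have hu0 : |u 0| ≤ P.c := hu.2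
    have hu0' : |u 0| < Real.pi := hu0.trans_lt hPpi
    have huz : u 0 = 0 := by
      rw [abs_lt] at hu0'
      exact (Real.sin_eq_zero_iff_of_lt_of_lt hu0'.1 hu0'.2).1 hs0
    rw [huz, Real.cos_zero, mul_one] at h2
    linarith

end Pool.Agent.H816
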