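import Pool.Agent.H816.Tip

/-!
# The model with arbitrary profiles
-/

set_option autoImplicit false

open Set Filter Topology Metric Function MeasureTheory Module
open scoped Manifold ContDiff NNReal

noncomputable section

namespace Pool.Agent.H816

open Pool.Agent.Y522 Pool.Agent.Y784.SH

variable {m : ℕ}

/-- a periodic diffeomorphism and its inverse -/
structure Data (L C : ℝ) (h k : E (m + 1) → E (m + 1)) : Prop where
  cyl : Cyl L C h
  cyl' : Cyl L C k
  dif : Dif (m + 1) h
  dif' : Dif (m + 1) k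
  per : Per h
  per' : Per k
  left : ∀ x, k (h x) = x
  right : ∀ x, h (k x) = x

/-- the result of the construction -/
structure Model2 (m : ℕ) (K F F' : Sn (m + 1) → Sn (m + 1)) (a b : Sn (m + 1)) : Prop where
  left : ∀ y, F' (F y) = y
  right : ∀ y, F (F' y) = y
  ha : 0 < (a : E (m + 1 + 1)) 0
  hb : (b : E (m + 1 + 1)) 0 < 0
  ld : ∀ y, y ≠ a → y ≠ b → LD (m + 1) F y
  ld' : ∀ y, y ≠ a → y ≠ b → LD (m + 1) F' y
  lip : ∀ y, LipAt F y
  lip' : ∀ y, LipAt F' y
  plus : ∀ y : Sn (m + 1), (y : E (m + 1 + 1)) 0 = 0 → 0 ≤ (tl (y : E (m + 1 + 1))) 0 →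
    F =ᶠ[𝓝 y] K
  minus : ∀ y : Sn (m + 1), (y : E (m + 1 + 1)) 0 = 0 → (tl (y : E (m + 1 + 1))) 0 ≤ 0 →
    F =ᶠ[𝓝 y] fun z => z

/-- the model theorem -/
theorem exists_model2 (hm : 2 ≤ m) {Q : Prof → Prop}
    (hQ : ∀ c' c : ℝ, 0 < c' → c' < c → ∃ P : Prof, P.c' = c' ∧ P.c = c ∧ Q P) {K : Sn (m + 1) → Sn (m + 1)} (hK : DifS (m + 1) K) {ε : ℝ}
    (hε : 0 < ε) (hid : ∀ y : Sn (m + 1), rd (y : E (m + 1 + 1)) < ε → K y = y)
    (hdis : ∀ y : Sn (m + 1), (y : E (m + 1 + 1)) 0 = 0 → 0 < (tl (y : E (m + 1 + 1))) 0 →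
      (K y : E (m + 1 + 1)) 0 = 0 → 0 < (tl (K y : E (m + 1 + 1))) 0) :
    ∃ (P : Prof) (L C : ℝ) (h k : E (m + 1) → E (m + 1)), Q P ∧ P.c < Real.pi ∧ Data L C h k ∧
      Model2 m K (HS P h) (HS P k) (pol (cn P.c 0)) (pol (cn (-P.c) 0)) := by
  have hpi := Real.pi_pos
  obtain ⟨h, L, C, hh, hd, hpol, hper⟩ := exists_lift hm hK hε hid
  obtain ⟨k, hk, hkh, hhk⟩ := hd.inv
  have hc : Continuous h := continuous_iff_continuousAt.2 fun u => (hd.2 u).continuousAt
  have hL := hh.hL
  -- heights on the hyperplane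
  set b : E m → ℝ := fun x => h (cn 0 x) 0 with hb
  have hbc : Continuous b := by
    have h1 : Continuous fun x : E m => (cn 0 x : E (m + 1)) :=
      continuous_cn.comp (continuous_const.prodMk continuous_id)
    exact continuous_head.comp (hc.comp h1)
  have hbfar : ∀ x, L ≤ ‖x‖ → b x = 0 := by
    intro x hx
    simp only [hb]
    rw [hh.far _ (by rw [tl_cn]; exact hx), cn_zero]
  have hbne : ∀ x, |b x| ≠ Real.pi := by
    intro x hx
    set u : E (m + 1) := cn 0 x with hu
    have hu0 : u 0 = 0 := by simp [hu]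
    have h1 : (pol u : E (m + 1 + 1)) 0 = 0 := by
      show polc u 0 = 0
      rw [polc_zero, hu0, Real.sin_zero, mul_zero]
    have h2 : 0 < (tl (pol u : E (m + 1 + 1))) 0 := by
      show 0 < tl (polc u) 0
      rw [polc_one, hu0, Real.cos_zero, mul_one]
      exact inv_pos.2 (wt_pos u)
    have h3 : Real.sin (h u 0) = 0 := by
      have h4 : h u 0 = Real.pi ∨ h u 0 = -Real.pi := eq_or_eq_neg_of_abs_eq hx
      rcases h4 with h4 | h4
      · rw [h4, Real.sin_pi]
      · rw [h4, Real.sin_neg, Real.sin_pi, neg_zero]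
    have h3' : Real.cos (h u 0) = -1 := by
      have h4 : h u 0 = Real.pi ∨ h u 0 = -Real.pi := eq_or_eq_neg_of_abs_eq hx
      rcases h4 with h4 | h4
      · rw [h4, Real.cos_pi]
      · rw [h4, Real.cos_neg, Real.cos_pi]
    have h5 : (K (pol u) : E (m + 1 + 1)) 0 = 0 := by
      rw [← hpol]
      show polc (h u) 0 = 0
      rw [polc_zero, h3, mul_zero]
    have h6 := hdis _ h1 h2 h5
    rw [← hpol] at h6
    have h7 : (tl (pol (h u) : E (m + 1 + 1))) 0 = (wt (h u))⁻¹ * Real.cos (h u 0) := polc_one _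
    rw [h7, h3'] at h6
    have := inv_pos.2 (wt_pos (h u))
    linarith
  have hblt : ∀ x, |b x| < Real.pi := by
    intro x
    by_contra hcon
    push Not at hcon
    have hnt : ∃ x0 : E m, L ≤ ‖x0‖ := by
      have : Nontrivial (E m) := by
        have : 0 < m := by omega
        have : Nonempty (Fin m) := ⟨⟨0, this⟩⟩
        infer_instance
      obtain ⟨x0, hx0⟩ := exists_norm_eq (E m) hL
      exact ⟨x0, hx0.ge⟩
    obtain ⟨x0, hx0⟩ := hnt
    have h1 : IsPreconnected (range fun x => |b x|) := isPreconnected_range hbc.abs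
    have h2 := h1.ordConnected.out (mem_range_self x0) (mem_range_self x)
    have h3 : Real.pi ∈ Icc (|b x0|) (|b x|) := by
      refine ⟨?_, hcon⟩
      rw [hbfar x0 hx0, abs_zero]
      exact hpi.le
    obtain ⟨x1, hx1⟩ := h2 h3
    exact hbne x1 hx1
  obtain ⟨β, hβ0, hβ, hβb⟩ : ∃ β : ℝ, 0 ≤ β ∧ β < Real.pi ∧ ∀ x, |b x| ≤ β := by
    obtain ⟨x1, -, hx1⟩ := (isCompact_closedBall (0 : E m) L).exists_isMaxOn
      ⟨0, by simpa using hL⟩ hbc.abs.continuousOn
    refine ⟨|b x1|, abs_nonneg _, hblt x1, fun x => ?_⟩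
    rcases le_total L ‖x‖ with hx | hx
    · rw [hbfar x hx, abs_zero]
      exact abs_nonneg _
    · exact hx1 (by simpa using hx)
  -- the profile
  obtain ⟨P, hPc', hPc, hPf⟩ := hQ ((β + Real.pi) / 2)
    (((β + Real.pi) / 2 + Real.pi) / 2) (by linarith) (by linarith)
  have hPpi : P.c < Real.pi := by rw [hPc]; linarith
  have hβc : β < P.c' := by rw [hPc']; linarith
  have hcpos : 0 < P.c := P.hc'.trans P.hc
  have hkk : Cyl L C k := hh.inv hkh hhk
  have hperk : Per k := Per.inv hper hkh hhk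
  have hsin : 0 < Real.sin P.c := Real.sin_pos_of_pos_of_lt_pi hcpos hPpi
  -- near the axis
  have haxis : ∀ y : Sn (m + 1), rd (y : E (m + 1 + 1)) = 0 → y ∉ pol '' box m L P.c := by
    rintro y hy ⟨u, -, rfl⟩
    have h1 : rd (polc u) = 0 := hy
    rw [rd_polc] at h1
    exact (inv_pos.2 (wt_pos u)).ne' h1
  have haxisK : ∀ y : Sn (m + 1), rd (y : E (m + 1 + 1)) = 0 → K =ᶠ[𝓝 y] fun z => z := by
    intro y hy
    have h1 : Continuous fun z : Sn (m + 1) => rd (z : E (m + 1 + 1)) :=
      rd_cont.comp continuous_subtype_val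
    have h2 : ∀ᶠ z : Sn (m + 1) in 𝓝 y, rd (z : E (m + 1 + 1)) < ε :=
      (h1.continuousAt (x := y)).eventually_lt continuousAt_const (by rw [hy]; exact hε)
    filter_upwards [h2] with z hz
    exact hid z hz
  refine ⟨P, L, C, h, k, hPf, hPpi, ⟨hh, hkk, hd, hk, hper, hperk, hkh, hhk⟩, ?_⟩
  refine
    { left := HS_inv hPpi hkh
      right := HS_inv hPpi hhk
      ha := ?_
      hb := ?_
      ld := fun y h1 h2 => HS_LD hPpi hh hd h1 h2
      ld' := fun y h1 h2 => HS_LD hPpi hkk hk h1 h2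
      lip := HS_lipAt hPpi hh hd hper
      lip' := HS_lipAt hPpi hkk hk hperk
      plus := ?_
      minus := ?_ }
  · show 0 < polc _ 0
    rw [polc_zero, cn_zero]
    exact mul_pos (inv_pos.2 (wt_pos _)) hsin
  · show polc _ 0 < 0
    rw [polc_zero, cn_zero, Real.sin_neg]
    have := mul_pos (inv_pos.2 (wt_pos (cn (-P.c) 0 : E (m + 1)))) hsin
    linarith
  · intro y hy0 hy1
    rcases eq_or_lt_of_le hy1 with h1 | h1
    · have hr : rd (y : E (m + 1 + 1)) = 0 := by
        unfold rd
        rw [hy0, ← h1]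
        simp
      have e1 := HS_id (P := P) hh (haxis y hr)
      have e2 := haxisK y hr
      exact e1.trans e2.symm
    · have hr : rd (y : E (m + 1 + 1)) ≠ 0 := by
        have h2 := rd_sq (y : E (m + 1 + 1))
        intro h3
        rw [h3, hy0] at h2
        nlinarith
      obtain ⟨u', hu'⟩ := pol_surj hr
      obtain ⟨j, hj⟩ := exists_shift (u' 0)
      set u := sh (j * (2 * Real.pi)) u' with hu
      have hpu : pol u = y := by rw [hu, pol_sh, hu']
      have hu0 : |u 0| ≤ Real.pi := by rw [hu, sh_zero]; exact hj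
      have hs0 : Real.sin (u 0) = 0 := by
        have h2 : polc u 0 = 0 := by
          have : (pol u : E (m + 1 + 1)) 0 = 0 := by rw [hpu]; exact hy0
          exact this
        rw [polc_zero] at h2
        exact (mul_eq_zero.1 h2).resolve_left (inv_pos.2 (wt_pos u)).ne'
      have hc0 : 0 < Real.cos (u 0) := by
        have h2 : 0 < tl (polc u) 0 := by
          have : 0 < (tl (pol u : E (m + 1 + 1))) 0 := by rw [hpu]; exact h1
          exact this
        rw [polc_one] at h2
        exact (mul_pos_iff_of_pos_left (inv_pos.2 (wt_pos u))).1 h2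
      have huz : u 0 = 0 := by
        rw [Real.sin_eq_zero_iff] at hs0
        obtain ⟨n, hn⟩ := hs0
        have h3 : |(n : ℝ)| ≤ 1 := by
          rw [← hn, abs_mul, abs_of_pos hpi] at hu0
          have h4 : |(n : ℝ)| * Real.pi ≤ 1 * Real.pi := by linarith
          exact le_of_mul_le_mul_right h4 hpi
        have h4 : |n| ≤ 1 := by exact_mod_cast h3
        have h5 : n = 0 ∨ n = 1 ∨ n = -1 := by
          rw [abs_le] at h4
          omega
        rcases h5 with rfl | rfl | rfl
        · rw [← hn]; simp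
        · rw [← hn] at hc0
          simp at hc0
          linarith
        · rw [← hn] at hc0
          simp at hc0
          linarith
      have huU : u ∈ Ud m := by
        show |u 0| < Real.pi
        rw [huz, abs_zero]
        exact hpi
      rw [← hpu]
      obtain ⟨q, hq, hqx, hq2, hq3⟩ := HS_chart (P := P) (h := h) huU
      have h5 : ∀ᶠ v in 𝓝 u, |v 0| < P.c' := by
        have h6 : Continuous fun v : E (m + 1) => |v 0| := continuous_abs.comp continuous_head
        exact (h6.continuousAt (x := u)).eventually_lt continuousAt_const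
          (by rw [huz, abs_zero]; exact P.hc')
      have h6 : ∀ᶠ v in 𝓝 u, |h v 0| < P.c' := by
        have h7 : Continuous fun v : E (m + 1) => |h v 0| :=
          continuous_abs.comp (continuous_head.comp hc)
        refine (h7.continuousAt (x := u)).eventually_lt continuousAt_const ?_
        have h8 : u = cn 0 (tl u) := by
          conv_lhs => rw [← cn_tl u, huz]
        rw [h8]
        exact (hβb (tl u)).trans_lt hβc
      have hqt : Tendsto q (𝓝 (pol u)) (𝓝 u) := by
        have := hq.continuousAt.tendsto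
        rwa [hqx] at this
      filter_upwards [hq2, hq3, hqt.eventually h5, hqt.eventually h6] with z e1 e2 e3 e4
      rw [e2, Hm_agree e3.le e4.le, hpol, e1]
  · intro y hy0 hy1
    refine HS_id (P := P) hh ?_
    rintro ⟨u, hu, rfl⟩
    have h1 : polc u 0 = 0 := hy0
    have h2 : tl (polc u) 0 ≤ 0 := hy1
    have hw := inv_pos.2 (wt_pos u)
    rw [polc_zero] at h1
    rw [polc_one] at h2
    have hs0 : Real.sin (u 0) = 0 := (mul_eq_zero.1 h1).resolve_left hw.ne'
    have hu0 : |u 0| ≤ P.c := hu.2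
    have hu0' : |u 0| < Real.pi := hu0.trans_lt hPpi
    have huz : u 0 = 0 := by
      rw [abs_lt] at hu0'
      exact (Real.sin_eq_zero_iff_of_lt_of_lt hu0'.1 hu0'.2).1 hs0
    rw [huz, Real.cos_zero, mul_one] at h2
    linarith

end Pool.Agent.H816
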