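import Pool.Agent.H816.Gam
import Pool.Agent.H816.Crs

/-!
# From smooth embeddings of the sphere to germs along the equator
-/

set_option autoImplicit false

open Set Filter Topology Metric Function MeasureTheory Module
open scoped Manifold ContDiff NNReal

noncomputable section

namespace Pool.Agent.H816

open Pool.Agent.Y522 Pool.Agent.Y784.SH

attribute [local instance] factE

section nz

variable {n : ℕ}

/-- normalization, ambient version -/
def nzc (x : E (n + 1)) : E (n + 1) := ‖x‖⁻¹ • x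

theorem nzc_smooth {x : E (n + 1)} (hx : x ≠ 0) : ContDiffAt ℝ ∞ nzc x := by
  unfold nzc
  exact ((contDiffAt_norm ℝ hx).inv (norm_ne_zero_iff.2 hx)).smul contDiffAt_id

theorem norm_nzc {x : E (n + 1)} (hx : x ≠ 0) : ‖nzc x‖ = 1 := by
  unfold nzc
  rw [norm_smul, norm_inv, norm_norm, inv_mul_cancel₀ (norm_ne_zero_iff.2 hx)]

theorem norm_e0 : ‖(e0 : E (n + 1))‖ = 1 := by
  have h := norm_cn_sq 1 (0 : E n)
  have h1 : ‖(e0 : E (n + 1))‖ ^ 2 = 1 := by
    unfold e0
    rw [h]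
    simp
  nlinarith [norm_nonneg (e0 : E (n + 1)), sq_nonneg (‖(e0 : E (n + 1))‖ - 1)]

open Classical in
/-- normalization -/
def nz (x : E (n + 1)) : Sn n :=
  if h : x = 0 then ⟨e0, by simpa using norm_e0⟩ else ⟨nzc x, by simpa using norm_nzc h⟩

theorem coe_nz {x : E (n + 1)} (hx : x ≠ 0) : (nz x : E (n + 1)) = nzc x := by
  unfold nz
  rw [dif_neg hx]

theorem nz_coe (x : Sn n) : nz (x : E (n + 1)) = x := by
  apply Subtype.ext
  rw [coe_nz (ne_zero_of_mem_unit_sphere x)]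
  unfold nzc
  simp

theorem nz_smul {t : ℝ} (ht : 0 < t) (x : E (n + 1)) (hx : x ≠ 0) : nz (t • x) = nz x := by
  apply Subtype.ext
  rw [coe_nz hx, coe_nz (smul_ne_zero ht.ne' hx)]
  unfold nzc
  rw [norm_smul, Real.norm_of_nonneg ht.le, smul_smul]
  congr 1
  have := norm_ne_zero_iff.2 hx
  field_simp

/-- smoothness of maps into the sphere -/
theorem contMDiffAt_sph {W : Type*} [NormedAddCommGroup W] [NormedSpace ℝ W] {g : W → Sn n} {x : W}
    (hg : ContDiffAt ℝ ∞ (fun y => (g y : E (n + 1))) x) :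
    ContMDiffAt 𝓘(ℝ, W) (𝓡 n) ∞ g x := by
  set q : Sn n := -(g x) with hq
  have hne : g x ≠ q := neg_ne _
  have hgc : ContinuousAt g x := (Topology.IsInducing.subtypeVal.continuousAt_iff).2 hg.continuousAt
  have h1 : ContDiffAt ℝ ∞ (fun y => pr q (g y : E (n + 1))) x :=
    (pr_smooth q (by simp) (fun h => hne (Subtype.ext h))).comp
      (f := fun z => (g z : E (n + 1))) x hg
  have h2 : ContMDiffAt 𝓘(ℝ, W) (𝓡 n) ∞ (fun y => pr q (g y : E (n + 1))) x := h1.contMDiffAt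
  have h3 : ContMDiffAt (𝓡 n) (𝓡 n) ∞ (sg q) (pr q (g x : E (n + 1))) := (sg_LD q _).contMDiffAt
  have h4 : ContMDiffAt 𝓘(ℝ, W) (𝓡 n) ∞ (fun y => sg q (pr q (g y : E (n + 1)))) x :=
    ContMDiffAt.comp (g := sg q) (f := fun y => pr q (g y : E (n + 1))) x h3 h2
  refine h4.congr_of_eventuallyEq ?_
  filter_upwards [hgc.eventually_ne hne] with y hy
  exact (sg_pr q hy).symm

end nz

section emb

variable {m : ℕ} {f : Sn m → Sn (m + 1)}

/-- homogeneous extension -/
def ft (f : Sn m → Sn (m + 1)) (x : E (m + 1)) : E (m + 1 + 1) := (f (nz x) : E (m + 1 + 1))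

theorem ft_smooth (hf : ContMDiff (𝓡 m) (𝓡 (m + 1)) ∞ f) {x : E (m + 1)} (hx : x ≠ 0) :
    ContDiffAt ℝ ∞ (ft f) x := by
  have hc : ContDiffAt ℝ ∞ (fun y : E (m + 1) => (nz y : E (m + 1))) x := by
    refine (nzc_smooth hx).congr_of_eventuallyEq ?_
    filter_upwards [eventually_ne_nhds hx] with y hy
    exact coe_nz hy
  have h1 : ContMDiffAt 𝓘(ℝ, E (m + 1)) (𝓡 m) ∞ (nz : E (m + 1) → Sn m) x := contMDiffAt_sph hc
  have h2 : ContMDiffAt 𝓘(ℝ, E (m + 1)) (𝓡 (m + 1)) ∞ (fun y => f (nz y)) x :=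
    (hf (nz x)).comp x h1
  have h3 : ContMDiffAt 𝓘(ℝ, E (m + 1)) 𝓘(ℝ, E (m + 1 + 1)) ∞ (ft f) x :=
    (contMDiff_coe_sphere (f (nz x))).comp x h2
  exact contMDiffAt_iff_contDiffAt.1 h3

/-- the derivative of an immersion in a chart -/
theorem chart_inj (hf : ContMDiff (𝓡 m) (𝓡 (m + 1)) ∞ f)
    (hi : ∀ x, Injective (mfderiv (𝓡 m) (𝓡 (m + 1)) f x)) (q : Sn m) (z : E m) :
    ContDiffAt ℝ ∞ (fun z => (f (sg q z) : E (m + 1 + 1))) z ∧
      Injective (fderiv ℝ (fun z => (f (sg q z) : E (m + 1 + 1))) z) := by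
  have hs : ContMDiffAt (𝓡 m) (𝓡 m) ∞ (sg q) z := (sg_LD q z).contMDiffAt
  have h2 : ContMDiffAt (𝓡 m) (𝓡 (m + 1)) ∞ (fun z => f (sg q z)) z :=
    ContMDiffAt.comp (g := f) z (hf (sg q z)) hs
  have hcs : ContMDiffAt (𝓡 (m + 1)) 𝓘(ℝ, E (m + 1 + 1)) ∞
      ((↑) : Sn (m + 1) → E (m + 1 + 1)) (f (sg q z)) := contMDiff_coe_sphere _
  have h3 : ContMDiffAt (𝓡 m) 𝓘(ℝ, E (m + 1 + 1)) ∞
      (fun z => (f (sg q z) : E (m + 1 + 1))) z :=
    ContMDiffAt.comp (g := ((↑) : Sn (m + 1) → E (m + 1 + 1))) z hcs h2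
  refine ⟨contMDiffAt_iff_contDiffAt.1 h3, ?_⟩
  have hinf : (∞ : WithTop ℕ∞) ≠ 0 := by simp
  have e1 : mfderiv (𝓡 m) (𝓡 (m + 1)) (fun z => f (sg q z)) z =
      (mfderiv (𝓡 m) (𝓡 (m + 1)) f (sg q z)).comp (mfderiv (𝓡 m) (𝓡 m) (sg q) z) :=
    mfderiv_comp z ((hf (sg q z)).mdifferentiableAt hinf) (hs.mdifferentiableAt hinf)
  have e2 : mfderiv (𝓡 m) 𝓘(ℝ, E (m + 1 + 1)) (fun z => (f (sg q z) : E (m + 1 + 1))) z =
      (mfderiv (𝓡 (m + 1)) 𝓘(ℝ, E (m + 1 + 1)) ((↑) : Sn (m + 1) → E (m + 1 + 1))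
        (f (sg q z))).comp (mfderiv (𝓡 m) (𝓡 (m + 1)) (fun z => f (sg q z)) z) :=
    mfderiv_comp z (hcs.mdifferentiableAt hinf) (h2.mdifferentiableAt hinf)
  have e3 : fderiv ℝ (fun z => (f (sg q z) : E (m + 1 + 1))) z =
      mfderiv (𝓡 m) 𝓘(ℝ, E (m + 1 + 1)) (fun z => (f (sg q z) : E (m + 1 + 1))) z :=
    mfderiv_eq_fderiv.symm
  have hinj1 : Injective (mfderiv (𝓡 m) (𝓡 m) (sg q) z) := by
    have h4 := (sg_LD q z).mfderivToContinuousLinearEquiv_coe (by simp)
    have h5 : Injective ((sg_LD q z).mfderivToContinuousLinearEquiv (by simp)) :=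
      ContinuousLinearEquiv.injective _
    intro v w hvw
    apply h5
    have h6 : ∀ v, (sg_LD q z).mfderivToContinuousLinearEquiv (by simp) v =
        mfderiv (𝓡 m) (𝓡 m) (sg q) z v := fun v => DFunLike.congr_fun h4 v
    rw [h6, h6, hvw]
  have hinj3 := mfderiv_coe_sphere_injective (n := m + 1) (f (sg q z))
  intro v w hvw
  rw [e3, e2] at hvw
  apply hinj1
  apply hi (sg q z)
  apply hinj3
  rw [e1] at hvw
  exact hvw

/-- the derivative of the homogeneous extension -/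
theorem ft_inj (hf : ContMDiff (𝓡 m) (𝓡 (m + 1)) ∞ f)
    (hi : ∀ x, Injective (mfderiv (𝓡 m) (𝓡 (m + 1)) f x)) (x : Sn m) {v : E (m + 1)}
    (hv : inner ℝ (x : E (m + 1)) v = 0) (h0 : fderiv ℝ (ft f) x v = 0) : v = 0 := by
  set q : Sn m := -x with hq
  have hne : x ≠ q := neg_ne _
  have hx0 : (x : E (m + 1)) ≠ 0 := ne_zero_of_mem_unit_sphere x
  -- derivative of the normalization
  have hnz : HasFDerivAt (nzc : E (m + 1) → E (m + 1)) (fderiv ℝ nzc (x : E (m + 1))) x :=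
    ((nzc_smooth hx0).differentiableAt (by simp)).hasFDerivAt
  have hrel : ∀ y : E (m + 1), ‖y‖ • nzc y = y := by
    intro y
    by_cases hy : y = 0
    · rw [hy]; simp
    · unfold nzc
      rw [smul_smul, mul_inv_cancel₀ (norm_ne_zero_iff.2 hy), one_smul]
  have hDv : fderiv ℝ nzc (x : E (m + 1)) v = v := by
    have hn : HasFDerivAt (fun y : E (m + 1) => ‖y‖) (fderiv ℝ (fun y : E (m + 1) => ‖y‖) x)
        (x : E (m + 1)) := ((contDiffAt_norm ℝ hx0 (n := 1)).differentiableAt one_ne_zero).hasFDerivAt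
    have h1 := hn.smul hnz
    have h2 : HasFDerivAt (fun y : E (m + 1) => ‖y‖ • nzc y)
        (ContinuousLinearMap.id ℝ (E (m + 1))) (x : E (m + 1)) := by
      have : (fun y : E (m + 1) => ‖y‖ • nzc y) = fun y => y := funext hrel
      rw [this]
      exact hasFDerivAt_id _
    have h3 := DFunLike.congr_fun (h1.unique h2) v
    have hnv : fderiv ℝ (fun y : E (m + 1) => ‖y‖) (x : E (m + 1)) v = 0 := by
      have h4 := hn.pow 2
      have h5 : HasFDerivAt (fun y : E (m + 1) => ‖y‖ ^ 2)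
          (2 • (innerSL ℝ (x : E (m + 1)))) (x : E (m + 1)) := (hasStrictFDerivAt_norm_sq _).hasFDerivAt
      have h6 := DFunLike.congr_fun (h4.unique h5) v
      simp [hv] at h6
      exact h6
    simp [hnv] at h3
    exact h3
  -- the chart
  set g : E (m + 1) → E m := fun y => pr q (nzc y) with hg
  have hnx : nzc (x : E (m + 1)) = x := by
    unfold nzc
    simp
  have hprd : DifferentiableAt ℝ (pr q) (nzc (x : E (m + 1))) := by
    rw [hnx]
    exact (pr_smooth q (by simp) (fun h => hne (Subtype.ext h))).differentiableAt (by simp)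
  have hgd : DifferentiableAt ℝ g x := hprd.comp (x : E (m + 1)) hnz.differentiableAt
  have hevx : ∀ᶠ y in 𝓝 (x : E (m + 1)), y ≠ 0 ∧ nz y ≠ q := by
    have h1 : ContinuousAt (nz : E (m + 1) → Sn m) x := by
      refine (Topology.IsInducing.subtypeVal.continuousAt_iff).2 ?_
      have h2 : ContinuousAt (nzc : E (m + 1) → E (m + 1)) x := (nzc_smooth hx0).continuousAt
      refine h2.congr ?_
      filter_upwards [eventually_ne_nhds hx0] with y hy
      exact (coe_nz hy).symm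
    have h3 : nz (x : E (m + 1)) ≠ q := by rw [nz_coe]; exact hne
    exact (eventually_ne_nhds hx0).and (h1.eventually_ne h3)
  have hsg : ∀ᶠ y in 𝓝 (x : E (m + 1)), sg q (g y) = nz y := by
    filter_upwards [hevx] with y hy
    simp only [hg]
    rw [← coe_nz hy.1]
    exact sg_pr q hy.2
  have hgx : g (x : E (m + 1)) = pr q (x : E (m + 1)) := by
    simp only [hg]
    rw [hnx]
  -- the derivative of g at v is not zero unless v is
  have hgv : fderiv ℝ g x v = 0 → v = 0 := by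
    intro h1
    have hsd : DifferentiableAt ℝ (fun z => (sg q z : E (m + 1))) (g (x : E (m + 1))) :=
      (coe_smooth (sg_LD q _)).differentiableAt (by simp)
    have h2 := fderiv_comp (g := fun z => (sg q z : E (m + 1))) (f := g) (x : E (m + 1)) hsd hgd
    have h3 : ((fun z => (sg q z : E (m + 1))) ∘ g) =ᶠ[𝓝 (x : E (m + 1))] nzc := by
      filter_upwards [hsg, hevx] with y hy1 hy2
      show (sg q (g y) : E (m + 1)) = nzc y
      rw [hy1, coe_nz hy2.1]
    rw [h3.fderiv_eq] at h2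
    have h4 := DFunLike.congr_fun h2 v
    rw [hDv, ContinuousLinearMap.comp_apply, h1, map_zero] at h4
    exact h4
  -- the chain rule
  obtain ⟨hF1, hF2⟩ := chart_inj hf hi q (g (x : E (m + 1)))
  have h2 := fderiv_comp (g := fun z => (f (sg q z) : E (m + 1 + 1))) (f := g) (x : E (m + 1))
    (hF1.differentiableAt (by simp)) hgd
  have h3 : ((fun z => (f (sg q z) : E (m + 1 + 1))) ∘ g) =ᶠ[𝓝 (x : E (m + 1))] ft f := by
    filter_upwards [hsg] with y hy1
    show (f (sg q (g y)) : E (m + 1 + 1)) = ft f y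
    rw [hy1]
    rfl
  rw [h3.fderiv_eq] at h2
  rw [h2, ContinuousLinearMap.comp_apply] at h0
  apply hgv
  apply hF2
  rw [h0, map_zero]

theorem norm_ft (x : E (m + 1)) : ‖ft f x‖ = 1 := by
  unfold ft
  simp

/-- the derivative is tangent -/
theorem ft_tangent (hf : ContMDiff (𝓡 m) (𝓡 (m + 1)) ∞ f) {x : E (m + 1)} (hx : x ≠ 0)
    (v : E (m + 1)) : inner ℝ (ft f x) (fderiv ℝ (ft f) x v) = 0 := by
  have hd : HasFDerivAt (ft f) (fderiv ℝ (ft f) x) x :=
    ((ft_smooth hf hx).differentiableAt (by simp)).hasFDerivAt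
  have h1 := hd.norm_sq
  have h2 : (fun y => ‖ft f y‖ ^ 2) = fun _ => (1:ℝ) := by
    funext y; rw [norm_ft]; norm_num
  rw [h2] at h1
  have h3 := h1.unique (hasFDerivAt_const (1:ℝ) x)
  have h4 := DFunLike.congr_fun h3 v
  simp at h4
  exact h4

/-- homogeneity -/
theorem ft_radial (hf : ContMDiff (𝓡 m) (𝓡 (m + 1)) ∞ f) {x : E (m + 1)} (hx : x ≠ 0) :
    fderiv ℝ (ft f) x x = 0 := by
  have hd : HasFDerivAt (ft f) (fderiv ℝ (ft f) x) ((1 + (0:ℝ)) • x) := by
    rw [add_zero, one_smul]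
    exact ((ft_smooth hf hx).differentiableAt (by simp)).hasFDerivAt
  have h1 : HasDerivAt (fun t : ℝ => (1 + t) • x) x 0 := by
    have := ((hasDerivAt_id (0:ℝ)).const_add 1).smul_const x
    simpa using this
  have h2 : HasDerivAt (fun t : ℝ => ft f ((1 + t) • x)) (fderiv ℝ (ft f) x x) 0 :=
    HasFDerivAt.comp_hasDerivAt (l := ft f) (f := fun t : ℝ => (1 + t) • x) (0:ℝ) hd h1
  have h3 : (fun t : ℝ => ft f ((1 + t) • x)) =ᶠ[𝓝 0] fun _ => ft f x := by
    have h4 : ∀ᶠ t : ℝ in 𝓝 0, -1 < t := lt_mem_nhds (by norm_num)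
    filter_upwards [h4] with t ht
    unfold ft
    rw [nz_smul (by linarith) x hx]
  exact h2.unique ((hasDerivAt_const (0:ℝ) (ft f x)).congr_of_eventuallyEq h3)

/-- the auxiliary vectors -/
def vv (f : Sn m → Sn (m + 1)) (i : Fin (m + 1)) (x : E (m + 1)) : E (m + 1 + 1) :=
  fderiv ℝ (ft f) x (EuclideanSpace.single i 1) + x i • ft f x

/-- the normal vector -/
def nu (f : Sn m → Sn (m + 1)) (x : E (m + 1)) : E (m + 1 + 1) := cr fun i => vv f i x

theorem vv_smooth (hf : ContMDiff (𝓡 m) (𝓡 (m + 1)) ∞ f) {x : E (m + 1)} (hx : x ≠ 0)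
    (i : Fin (m + 1)) : ContDiffAt ℝ ∞ (vv f i) x := by
  have hs := ft_smooth hf hx
  have hs' : ContDiffAt ℝ ∞ (fderiv ℝ (ft f)) x := hs.fderiv_right (by simp)
  have hxi : ContDiffAt ℝ ∞ (fun x : E (m + 1) => x i) x :=
    (EuclideanSpace.proj (𝕜 := ℝ) i : E (m + 1) →L[ℝ] ℝ).contDiff.contDiffAt
  unfold vv
  exact (hs'.clm_apply contDiffAt_const).add (hxi.smul hs)

theorem nu_smooth (hf : ContMDiff (𝓡 m) (𝓡 (m + 1)) ∞ f) {x : E (m + 1)} (hx : x ≠ 0) :
    ContDiffAt ℝ ∞ (nu f) x := cr_smooth fun i => vv_smooth hf hx i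

/-- linear combination of the auxiliary vectors -/
theorem sum_vv (x v : E (m + 1)) :
    ∑ i, v i • vv f i x = fderiv ℝ (ft f) x v + (inner ℝ x v) • ft f x := by
  have h1 : v = ∑ i, v i • (EuclideanSpace.single i (1:ℝ) : E (m + 1)) := by
    have := (EuclideanSpace.basisFun (Fin (m + 1)) ℝ).sum_repr v
    simpa using this.symm
  have h2 : fderiv ℝ (ft f) x v =
      ∑ i, v i • fderiv ℝ (ft f) x (EuclideanSpace.single i (1:ℝ)) := by
    conv_lhs => rw [h1]
    rw [map_sum]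
    simp only [map_smul]
  have h3 : inner ℝ x v = ∑ i, v i * x i := by
    rw [PiLp.inner_apply]
    refine Finset.sum_congr rfl fun i _ => ?_
    simp
  rw [h2, h3, Finset.sum_smul, ← Finset.sum_add_distrib]
  refine Finset.sum_congr rfl fun i _ => ?_
  unfold vv
  rw [smul_add, smul_smul]

theorem vv_indep (hf : ContMDiff (𝓡 m) (𝓡 (m + 1)) ∞ f)
    (hi : ∀ x, Injective (mfderiv (𝓡 m) (𝓡 (m + 1)) f x)) (x : Sn m) :
    LinearIndependent ℝ fun i => vv f i (x : E (m + 1)) := by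
  have hx0 : (x : E (m + 1)) ≠ 0 := ne_zero_of_mem_unit_sphere x
  rw [Fintype.linearIndependent_iff]
  intro g hg
  set v : E (m + 1) := WithLp.toLp 2 g with hv
  have h1 : ∑ i, v i • vv f i (x : E (m + 1)) = 0 := hg
  rw [sum_vv] at h1
  have h2 : inner ℝ (x : E (m + 1)) v = 0 := by
    have h3 := congrArg (fun w => inner ℝ (ft f x) w) h1
    simp only [inner_add_right, inner_zero_right, inner_smul_right] at h3
    rw [ft_tangent hf hx0, real_inner_self_eq_norm_sq, norm_ft, zero_add] at h3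
    simpa using h3
  rw [h2, zero_smul, add_zero] at h1
  have h3 := ft_inj hf hi x h2 h1
  intro i
  have h4 : v i = 0 := by rw [h3]; rfl
  exact h4

theorem nu_ne (hf : ContMDiff (𝓡 m) (𝓡 (m + 1)) ∞ f)
    (hi : ∀ x, Injective (mfderiv (𝓡 m) (𝓡 (m + 1)) f x)) (x : Sn m) :
    nu f (x : E (m + 1)) ≠ 0 := cr_ne (vv_indep hf hi x)

theorem inner_nu (x v : E (m + 1)) :
    inner ℝ (fderiv ℝ (ft f) x v + (inner ℝ x v) • ft f x) (nu f x) = 0 := by
  rw [← sum_vv, sum_inner]
  refine Finset.sum_eq_zero fun i _ => ?_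
  rw [inner_smul_left]
  have : inner ℝ (vv f i x) (nu f x) = 0 := inner_cr_row (fun i => vv f i x) i
  rw [this, mul_zero]

theorem inner_nu_ft (hf : ContMDiff (𝓡 m) (𝓡 (m + 1)) ∞ f) (x : Sn m) :
    inner ℝ (ft f x) (nu f (x : E (m + 1))) = 0 := by
  have hx0 : (x : E (m + 1)) ≠ 0 := ne_zero_of_mem_unit_sphere x
  have h := inner_nu (f := f) (x : E (m + 1)) x
  rw [ft_radial hf hx0, zero_add, inner_smul_left, real_inner_self_eq_norm_sq] at h
  simpa using h

theorem inner_nu_D (hf : ContMDiff (𝓡 m) (𝓡 (m + 1)) ∞ f) (x : Sn m) (v : E (m + 1)) :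
    inner ℝ (fderiv ℝ (ft f) x v) (nu f (x : E (m + 1))) = 0 := by
  have h := inner_nu (f := f) (x : E (m + 1)) v
  rw [inner_add_left, inner_smul_left, inner_nu_ft hf, mul_zero, add_zero] at h
  exact h

/-- the collar, ambient version -/
def gmc (f : Sn m → Sn (m + 1)) (y : E (m + 1 + 1)) : E (m + 1 + 1) :=
  ft f (tl y) + y 0 • nu f (tl y)

/-- the collar -/
def gm (f : Sn m → Sn (m + 1)) (y : Sn (m + 1)) : Sn (m + 1) := nz (gmc f (y : E (m + 1 + 1)))

/-- points of the equator -/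
theorem tl_unit {y : Sn (m + 1)} (hy : y ∈ Eq0 m) : ‖tl (y : E (m + 1 + 1))‖ = 1 := by
  have hn : ‖(y : E (m + 1 + 1))‖ = 1 := by simp
  have h2 := norm_sq_split (y : E (m + 1 + 1))
  have hy' : (y : E (m + 1 + 1)) 0 = 0 := hy
  rw [hn, hy'] at h2
  nlinarith [norm_nonneg (tl (y : E (m + 1 + 1))), sq_nonneg (‖tl (y : E (m + 1 + 1))‖ - 1)]

theorem gm_eq {y : Sn (m + 1)} (hy : y ∈ Eq0 m) :
    gm f y = f ⟨tl (y : E (m + 1 + 1)), by simpa using tl_unit hy⟩ := by
  have hy' : (y : E (m + 1 + 1)) 0 = 0 := hy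
  unfold gm gmc
  rw [hy', zero_smul, add_zero]
  unfold ft
  rw [nz_coe]
  have h : nz (tl (y : E (m + 1 + 1))) =
      (⟨tl (y : E (m + 1 + 1)), by simpa using tl_unit hy⟩ : Sn m) :=
    nz_coe (⟨tl (y : E (m + 1 + 1)), by simpa using tl_unit hy⟩ : Sn m)
  rw [h]

theorem gm_inj (hinj : Injective f) : InjOn (gm f) (Eq0 m) := by
  intro y hy z hz hyz
  rw [gm_eq hy, gm_eq hz] at hyz
  have h1 := congrArg Subtype.val (hinj hyz)
  have h1' : tl (y : E (m + 1 + 1)) = tl (z : E (m + 1 + 1)) := h1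
  have hy' : (y : E (m + 1 + 1)) 0 = 0 := hy
  have hz' : (z : E (m + 1 + 1)) 0 = 0 := hz
  apply Subtype.ext
  rw [← cn_tl (y : E (m + 1 + 1)), ← cn_tl (z : E (m + 1 + 1)), h1', hy', hz']

theorem gm_image : gm f '' Eq0 m = range f := by
  ext w
  constructor
  · rintro ⟨y, hy, rfl⟩
    rw [gm_eq hy]
    exact mem_range_self _
  · rintro ⟨x, rfl⟩
    have hn : ‖(cn 0 (x : E (m + 1)) : E (m + 1 + 1))‖ = 1 := by
      have h := norm_cn_sq 0 (x : E (m + 1))
      have hx : ‖(x : E (m + 1))‖ = 1 := by simp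
      rw [hx] at h
      nlinarith [norm_nonneg (cn 0 (x : E (m + 1)) : E (m + 1 + 1)),
        sq_nonneg (‖(cn 0 (x : E (m + 1)) : E (m + 1 + 1))‖ - 1)]
    refine ⟨⟨cn 0 (x : E (m + 1)), by simpa using hn⟩, ?_, ?_⟩
    · show (cn 0 (x : E (m + 1)) : E (m + 1 + 1)) 0 = 0
      simp
    · rw [gm_eq (by show (cn 0 (x : E (m + 1)) : E (m + 1 + 1)) 0 = 0; simp)]
      congr 1

theorem gm_LD (hf : ContMDiff (𝓡 m) (𝓡 (m + 1)) ∞ f)
    (hi : ∀ x, Injective (mfderiv (𝓡 m) (𝓡 (m + 1)) f x)) {y : Sn (m + 1)} (hy : y ∈ Eq0 m) :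
    LD (m + 1) (gm f) y := by
  set q : Sn (m + 1) := -y with hq
  have hne : y ≠ q := neg_ne _
  set z : E (m + 1) := pr q (y : E (m + 1 + 1)) with hz
  have hsz : sg q z = y := sg_pr q hne
  rw [← hsz]
  refine LD_of_comp_right (p := sg q) (sg_LD q z) ?_
  have hy0 : (y : E (m + 1 + 1)) 0 = 0 := hy
  set x : Sn m := ⟨tl (y : E (m + 1 + 1)), by simpa using tl_unit hy⟩ with hx
  have hxt : (x : E (m + 1)) = tl (y : E (m + 1 + 1)) := rfl
  have htl0 : tl (y : E (m + 1 + 1)) ≠ 0 := by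
    rw [← hxt]
    exact ne_zero_of_mem_unit_sphere x
  -- smoothness of the ambient collar
  have hgs : ∀ w : E (m + 1 + 1), tl w ≠ 0 → ContDiffAt ℝ ∞ (gmc f) w := by
    intro w hw
    have htd : ContDiffAt ℝ ∞ (fun w : E (m + 1 + 1) => (tl w : E (m + 1))) w :=
      (tl : E (m + 1 + 1) →L[ℝ] E (m + 1)).contDiff.contDiffAt
    have h1 : ContDiffAt ℝ ∞ (fun w : E (m + 1 + 1) => ft f (tl w)) w :=
      ContDiffAt.comp (g := ft f) w (ft_smooth hf hw) htd
    have h2 : ContDiffAt ℝ ∞ (fun w : E (m + 1 + 1) => nu f (tl w)) w :=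
      ContDiffAt.comp (g := nu f) w (nu_smooth hf hw) htd
    unfold gmc
    exact h1.add (contDiff_head.contDiffAt.smul h2)
  have hgy : gmc f (y : E (m + 1 + 1)) = ft f x := by
    unfold gmc
    rw [hy0, zero_smul, add_zero]
  have hgy0 : gmc f (y : E (m + 1 + 1)) ≠ 0 := by
    rw [hgy, ← norm_ne_zero_iff, norm_ft]
    exact one_ne_zero
  have hsc : ∀ w, ContDiffAt ℝ ∞ (fun w => (sg q w : E (m + 1 + 1))) w := fun w =>
    coe_smooth (sg_LD q w)
  -- the good neighbourhood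
  have hev : ∀ᶠ w in 𝓝 z, tl (sg q w : E (m + 1 + 1)) ≠ 0 ∧ gmc f (sg q w : E (m + 1 + 1)) ≠ 0 := by
    have h1 : ContinuousAt (fun w => (sg q w : E (m + 1 + 1))) z := (hsc z).continuousAt
    have h2 : ContinuousAt (fun w => tl (sg q w : E (m + 1 + 1))) z :=
      (tl : E (m + 1 + 1) →L[ℝ] E (m + 1)).continuous.continuousAt.comp h1
    have h3 : ContinuousAt (fun w => gmc f (sg q w : E (m + 1 + 1))) z := by
      refine ContinuousAt.comp (g := gmc f) ?_ h1
      rw [hsz]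
      exact (hgs _ htl0).continuousAt
    refine (h2.eventually_ne ?_).and (h3.eventually_ne ?_)
    · rw [hsz]; exact htl0
    · rw [hsz]; exact hgy0
  have hsm : ∀ᶠ w in 𝓝 z, ContDiffAt ℝ ∞ (fun w => nzc (gmc f (sg q w : E (m + 1 + 1)))) w := by
    filter_upwards [hev] with w hw
    have h1 : ContDiffAt ℝ ∞ (fun w => gmc f (sg q w : E (m + 1 + 1))) w :=
      ContDiffAt.comp (g := gmc f) w (hgs _ hw.1) (hsc w)
    exact ContDiffAt.comp (g := nzc) w (nzc_smooth hw.2) h1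
  have hcoe : ∀ᶠ w in 𝓝 z, ((gm f (sg q w) : Sn (m + 1)) : E (m + 1 + 1)) =
      nzc (gmc f (sg q w : E (m + 1 + 1))) := by
    filter_upwards [hev] with w hw
    exact coe_nz hw.2
  refine LD_sph ?_ ?_
  · filter_upwards [hsm, hcoe.eventually_nhds] with w hw1 hw2
    exact hw1.congr_of_eventuallyEq hw2
  · have hfe : fderiv ℝ (fun w => ((gm f (sg q w) : Sn (m + 1)) : E (m + 1 + 1))) z =
        fderiv ℝ (fun w => nzc (gmc f (sg q w : E (m + 1 + 1)))) z :=
      Filter.EventuallyEq.fderiv_eq hcoe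
    rw [hfe, injective_iff_map_eq_zero]
    intro u hu
    -- derivatives
    set S : E (m + 1) → E (m + 1 + 1) := fun w => (sg q w : E (m + 1 + 1)) with hS
    have hSz : S z = (y : E (m + 1 + 1)) := congrArg Subtype.val hsz
    have hSd : HasFDerivAt S (fderiv ℝ S z) z := ((hsc z).differentiableAt (by simp)).hasFDerivAt
    have hgd : HasFDerivAt (gmc f) (fderiv ℝ (gmc f) (y : E (m + 1 + 1))) (S z) := by
      rw [hSz]
      exact ((hgs _ htl0).differentiableAt (by simp)).hasFDerivAt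
    have hGd : HasFDerivAt (fun w => gmc f (S w))
        ((fderiv ℝ (gmc f) (y : E (m + 1 + 1))).comp (fderiv ℝ S z)) z := hgd.comp z hSd
    set w : E (m + 1 + 1) := fderiv ℝ S z u with hw
    set p : E (m + 1 + 1) := fderiv ℝ (gmc f) (y : E (m + 1 + 1)) w with hp
    -- w is tangent
    have hwt : inner ℝ (y : E (m + 1 + 1)) w = 0 := by
      have h1 := hSd.norm_sq
      have h2 : (fun y => ‖S y‖ ^ 2) = fun _ => (1:ℝ) := by
        funext y; simp [hS]
      rw [h2] at h1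
      have h3 := h1.unique (hasFDerivAt_const (1:ℝ) z)
      have h4 := DFunLike.congr_fun h3 u
      simp at h4
      rw [← hSz]
      exact h4
    -- formula for p
    have hpf : p = fderiv ℝ (ft f) x (tl w) + w 0 • nu f (x : E (m + 1)) := by
      have htd : HasFDerivAt (fun w : E (m + 1 + 1) => (tl w : E (m + 1)))
          (tl : E (m + 1 + 1) →L[ℝ] E (m + 1)) (y : E (m + 1 + 1)) :=
        (tl : E (m + 1 + 1) →L[ℝ] E (m + 1)).hasFDerivAt
      have h1 : HasFDerivAt (fun w : E (m + 1 + 1) => ft f (tl w))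
          ((fderiv ℝ (ft f) (x : E (m + 1))).comp (tl : E (m + 1 + 1) →L[ℝ] E (m + 1)))
          (y : E (m + 1 + 1)) :=
        (((ft_smooth hf htl0).differentiableAt (by simp)).hasFDerivAt).comp
          (y : E (m + 1 + 1)) htd
      have h2 : HasFDerivAt (fun w : E (m + 1 + 1) => nu f (tl w))
          ((fderiv ℝ (nu f) (x : E (m + 1))).comp (tl : E (m + 1 + 1) →L[ℝ] E (m + 1)))
          (y : E (m + 1 + 1)) :=
        (((nu_smooth hf htl0).differentiableAt (by simp)).hasFDerivAt).comp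
          (y : E (m + 1 + 1)) htd
      have h3 := h1.add ((hasFDerivAt_head (y : E (m + 1 + 1))).smul h2)
      have h4 : fderiv ℝ (gmc f) (y : E (m + 1 + 1)) = _ := h3.fderiv
      rw [hp, h4]
      simp [hy0]
      rfl
    -- p is a multiple of the base point
    have hpz : ∃ c : ℝ, p = c • ft f x := by
      have hNd : HasFDerivAt (fun w => nzc (gmc f (S w)))
          (fderiv ℝ (fun w => nzc (gmc f (S w))) z) z :=
        ((hsm.self_of_nhds).differentiableAt (by simp)).hasFDerivAt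
      have hnn : DifferentiableAt ℝ (fun w => ‖gmc f (S w)‖) z := by
        have h1 : gmc f (S z) ≠ 0 := by rw [hSz]; exact hgy0
        exact DifferentiableAt.norm ℝ hGd.differentiableAt h1
      have h1 := hnn.hasFDerivAt.smul hNd
      have h2 : (fun w => ‖gmc f (S w)‖ • nzc (gmc f (S w))) = fun w => gmc f (S w) := by
        funext w
        by_cases h0 : gmc f (S w) = 0
        · rw [h0]; simp
        · unfold nzc
          rw [smul_smul, mul_inv_cancel₀ (norm_ne_zero_iff.2 h0), one_smul]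
      have h3 : HasFDerivAt (fun w => ‖gmc f (S w)‖ • nzc (gmc f (S w)))
          ((fderiv ℝ (gmc f) (y : E (m + 1 + 1))).comp (fderiv ℝ S z)) z := by
        rw [h2]; exact hGd
      have h4 := DFunLike.congr_fun (h1.unique h3) u
      simp only [add_apply, smul_apply,
        ContinuousLinearMap.comp_apply] at h4
      have hu' : fderiv ℝ (fun w => nzc (gmc f (S w))) z u = 0 := hu
      rw [hu', smul_zero, zero_add, ContinuousLinearMap.smulRight_apply] at h4
      refine ⟨fderiv ℝ (fun w => ‖gmc f (S w)‖) z u, ?_⟩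
      have h5 : nzc (gmc f (S z)) = ft f x := by
        rw [hSz, hgy]
        unfold nzc
        rw [norm_ft]
        simp
      rw [h5] at h4
      exact h4.symm
    obtain ⟨c, hc⟩ := hpz
    have hx0 : (x : E (m + 1)) ≠ 0 := ne_zero_of_mem_unit_sphere x
    have hp0 : p = 0 := by
      have h1 : inner ℝ (ft f x) p = 0 := by
        rw [hpf, inner_add_right, inner_smul_right, inner_nu_ft hf, ft_tangent hf hx0, mul_zero,
          add_zero]
      rw [hc, inner_smul_right, real_inner_self_eq_norm_sq, norm_ft] at h1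
      have h2 : c = 0 := by simpa using h1
      rw [hc, h2, zero_smul]
    have hw0 : w 0 = 0 := by
      have h1 : inner ℝ p (nu f (x : E (m + 1))) = 0 := by rw [hp0, inner_zero_left]
      rw [hpf, inner_add_left, inner_nu_D hf, zero_add, inner_smul_left,
        real_inner_self_eq_norm_sq] at h1
      have h2 := nu_ne hf hi x
      have h3 : ‖nu f (x : E (m + 1))‖ ^ 2 ≠ 0 := pow_ne_zero _ (norm_ne_zero_iff.2 h2)
      have h4 := (mul_eq_zero.1 h1).resolve_right h3
      simpa using h4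
    have htw : tl w = 0 := by
      refine ft_inj hf hi x ?_ ?_
      · have h1 : inner ℝ (y : E (m + 1 + 1)) w =
            w 0 * (y : E (m + 1 + 1)) 0 + inner ℝ (tl (y : E (m + 1 + 1))) (tl w) := by
          rw [PiLp.inner_apply, PiLp.inner_apply, Fin.sum_univ_succ]
          simp
        rw [hwt, hy0, mul_zero, zero_add] at h1
        exact h1.symm
      · rw [hp0, hw0, zero_smul, add_zero] at hpf
        exact hpf.symm
    have hw00 : w = 0 := by
      rw [← cn_tl w, hw0, htw]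
      ext i
      refine Fin.cases ?_ (fun i => ?_) i <;> simp
    have hz0 : fderiv ℝ S z 0 = 0 := (fderiv ℝ S z).map_zero
    have h0 : fderiv ℝ S z u = fderiv ℝ S z 0 := hw00.trans hz0.symm
    exact coe_inj (sg_LD q z) h0

end emb

end Pool.Agent.H816
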