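import Pool.Agent.H816.Mod
import Pool.Graph.R_seed8.Y702.SH.ExtO

/-!
# Palais' theorem on the sphere, with caps
-/

set_option autoImplicit false

open Set Filter Topology Metric Function MeasureTheory Module
open scoped Manifold ContDiff NNReal

noncomputable section

namespace Pool.Agent.H816

open Pool.Agent.Y522 Pool.Agent.Y784.SH

variable {m : ℕ}

/-- inverse stereographic projection, ambient version -/
def sgc (s : ℝ) (z : E (m + 1)) : E (m + 1 + 1) :=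
  (1 + ‖z‖ ^ 2)⁻¹ • cn (2 * z 0) (cn (s * (1 - ‖z‖ ^ 2)) ((2 : ℝ) • tl z))

theorem norm_sgc {s : ℝ} (hs : s ^ 2 = 1) (z : E (m + 1)) : ‖sgc s z‖ = 1 := by
  have h0 : (0 : ℝ) < 1 + ‖z‖ ^ 2 := by positivity
  have h1 : ‖sgc s z‖ ^ 2 = 1 := by
    unfold sgc
    rw [norm_smul, mul_pow, norm_cn2, Real.norm_of_nonneg (inv_nonneg.2 h0.le), norm_smul]
    have h2 := norm_sq_split z
    have h3 : (2 * z 0) ^ 2 + (s * (1 - ‖z‖ ^ 2)) ^ 2 + (‖(2 : ℝ)‖ * ‖tl z‖) ^ 2 =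
        (1 + ‖z‖ ^ 2) ^ 2 := by
      rw [mul_pow s, hs, mul_pow ‖(2 : ℝ)‖, Real.norm_eq_abs, sq_abs]
      nlinarith
    rw [h3, inv_pow, inv_mul_cancel₀ (by positivity)]
  nlinarith [norm_nonneg (sgc s z), sq_nonneg (‖sgc s z‖ - 1)]

/-- the sign as a number -/
def sn (s : Bool) : ℝ := if s then 1 else -1

theorem sn_sq (s : Bool) : sn s ^ 2 = 1 := by
  cases s <;> simp [sn]

theorem sn_mul (s : Bool) : sn s * sn s = 1 := by
  cases s <;> simp [sn]

theorem sn_not (s : Bool) : sn (!s) = - sn s := by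
  cases s <;> simp [sn]

/-- inverse stereographic projection -/
def sgm (s : Bool) (z : E (m + 1)) : Sn (m + 1) :=
  ⟨sgc (sn s) z, by simpa using norm_sgc (sn_sq s) z⟩

theorem sgc_smooth (s : ℝ) : ContDiff ℝ ∞ (sgc s : E (m + 1) → E (m + 1 + 1)) := by
  refine contDiff_iff_contDiffAt.2 fun z => ?_
  unfold sgc
  have hn : ContDiffAt ℝ ∞ (fun z : E (m + 1) => ‖z‖ ^ 2) z := (contDiff_norm_sq ℝ).contDiffAt
  have h0 : (0 : ℝ) < 1 + ‖z‖ ^ 2 := by positivity
  refine ContDiffAt.smul ((contDiffAt_const.add hn).inv h0.ne') ?_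
  refine contDiff_cn' ?_ (contDiff_cn' ?_ ?_)
  · exact contDiffAt_const.mul contDiff_head.contDiffAt
  · exact contDiffAt_const.mul (contDiffAt_const.sub hn)
  · exact (contDiffAt_const (c := (2 : ℝ))).smul (tl : E (m + 1) →L[ℝ] E m).contDiff.contDiffAt

theorem sgc_zero (s : ℝ) (z : E (m + 1)) : sgc s z 0 = (1 + ‖z‖ ^ 2)⁻¹ * (2 * z 0) := by
  simp [sgc]

theorem sgc_one (s : ℝ) (z : E (m + 1)) :
    tl (sgc s z) 0 = (1 + ‖z‖ ^ 2)⁻¹ * (s * (1 - ‖z‖ ^ 2)) := by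
  unfold sgc
  rw [map_smul, tl_cn]
  simp

theorem sgc_tail (s : ℝ) (z : E (m + 1)) :
    tl (tl (sgc s z)) = ((1 + ‖z‖ ^ 2)⁻¹ * 2) • tl z := by
  unfold sgc
  rw [map_smul, tl_cn, map_smul, tl_cn, smul_smul]

/-- stereographic projection -/
def prm (s : Bool) (y : E (m + 1 + 1)) : E (m + 1) :=
  (1 + sn s * (tl y) 0)⁻¹ • cn (y 0) (tl (tl y))

theorem prm_den (s : Bool) (z : E (m + 1)) :
    1 + sn s * (tl (sgc (sn s) z)) 0 = 2 * (1 + ‖z‖ ^ 2)⁻¹ := by
  have h0 : (0 : ℝ) < 1 + ‖z‖ ^ 2 := by positivity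
  rw [sgc_one]
  have h1 : sn s * ((1 + ‖z‖ ^ 2)⁻¹ * (sn s * (1 - ‖z‖ ^ 2))) =
      (1 + ‖z‖ ^ 2)⁻¹ * ((sn s * sn s) * (1 - ‖z‖ ^ 2)) := by ring
  rw [h1, sn_mul]
  field_simp
  ring

theorem prm_sgc (s : Bool) (z : E (m + 1)) : prm s (sgc (sn s) z) = z := by
  have h0 : (0 : ℝ) < 1 + ‖z‖ ^ 2 := by positivity
  unfold prm
  rw [prm_den, sgc_zero, sgc_tail, smul_cn, smul_smul]
  have h1 : (2 * (1 + ‖z‖ ^ 2)⁻¹)⁻¹ * ((1 + ‖z‖ ^ 2)⁻¹ * 2) = 1 := by
    field_simp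
  have h2 : (2 * (1 + ‖z‖ ^ 2)⁻¹)⁻¹ * ((1 + ‖z‖ ^ 2)⁻¹ * (2 * z 0)) = z 0 := by
    field_simp
  rw [h1, h2, one_smul, cn_tl]

theorem norm_split2 (y : Sn (m + 1)) :
    (y : E (m + 1 + 1)) 0 ^ 2 + (tl (y : E (m + 1 + 1))) 0 ^ 2 +
      ‖tl (tl (y : E (m + 1 + 1)))‖ ^ 2 = 1 := by
  have hn : ‖(y : E (m + 1 + 1))‖ = 1 := by simp
  have h2 := norm_sq_split (y : E (m + 1 + 1))
  have h3 := norm_sq_split (tl (y : E (m + 1 + 1)))
  rw [hn] at h2
  linarith

theorem prm_norm {s : Bool} {y : Sn (m + 1)} (hy : 1 + sn s * (tl (y : E (m + 1 + 1))) 0 ≠ 0) :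
    ‖prm s (y : E (m + 1 + 1))‖ ^ 2 =
      (1 - sn s * (tl (y : E (m + 1 + 1))) 0) / (1 + sn s * (tl (y : E (m + 1 + 1))) 0) := by
  unfold prm
  rw [norm_smul, mul_pow, norm_cn_sq, norm_inv, inv_pow, Real.norm_eq_abs, sq_abs]
  have h1 := norm_split2 y
  have h2 := sn_sq s
  set t := (tl (y : E (m + 1 + 1))) 0 with ht
  have h3 : (y : E (m + 1 + 1)) 0 ^ 2 + ‖tl (tl (y : E (m + 1 + 1)))‖ ^ 2 =
      (1 - sn s * t) * (1 + sn s * t) := by
    have : (1 - sn s * t) * (1 + sn s * t) = 1 - sn s ^ 2 * t ^ 2 := by ring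
    rw [this, h2]
    linarith
  rw [h3]
  field_simp

theorem sgm_prm {s : Bool} {y : Sn (m + 1)} (hy : 1 + sn s * (tl (y : E (m + 1 + 1))) 0 ≠ 0) :
    sgm s (prm s (y : E (m + 1 + 1))) = y := by
  apply Subtype.ext
  show sgc (sn s) (prm s (y : E (m + 1 + 1))) = y
  have hn := prm_norm hy
  set t := (tl (y : E (m + 1 + 1))) 0 with ht
  have h1 : 1 + ‖prm s (y : E (m + 1 + 1))‖ ^ 2 = 2 / (1 + sn s * t) := by
    rw [hn]
    field_simp
    ring
  have h2 : 1 - ‖prm s (y : E (m + 1 + 1))‖ ^ 2 = 2 * (sn s * t) / (1 + sn s * t) := by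
    rw [hn]
    field_simp
    ring
  have h3 : prm s (y : E (m + 1 + 1)) 0 = (1 + sn s * t)⁻¹ * (y : E (m + 1 + 1)) 0 := by
    unfold prm
    rw [smul_cn, cn_zero]
  have h4 : tl (prm s (y : E (m + 1 + 1))) = (1 + sn s * t)⁻¹ • tl (tl (y : E (m + 1 + 1))) := by
    unfold prm
    rw [smul_cn, tl_cn]
  unfold sgc
  rw [h1, h2, h3, h4, smul_cn, smul_cn, smul_smul, smul_smul]
  have e1 : (2 / (1 + sn s * t))⁻¹ * (2 * ((1 + sn s * t)⁻¹ * (y : E (m + 1 + 1)) 0)) =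
      (y : E (m + 1 + 1)) 0 := by
    field_simp
  have e2 : (2 / (1 + sn s * t))⁻¹ * (sn s * (2 * (sn s * t) / (1 + sn s * t))) = t := by
    have : sn s * (2 * (sn s * t) / (1 + sn s * t)) = 2 * ((sn s * sn s) * t) / (1 + sn s * t) := by
      ring
    rw [this, sn_mul]
    field_simp
  have e3 : (2 / (1 + sn s * t))⁻¹ * 2 * (1 + sn s * t)⁻¹ = 1 := by
    field_simp
  rw [e1, e2, e3, one_smul, ht, cn_tl, cn_tl]

theorem prm_smoothAt {s : Bool} {y : E (m + 1 + 1)} (hy : 1 + sn s * (tl y) 0 ≠ 0) :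
    ContDiffAt ℝ ∞ (prm s) y := by
  unfold prm
  have h1 : ContDiffAt ℝ ∞ (fun y : E (m + 1 + 1) => (tl y) 0) y :=
    (contDiff_head.comp (tl : E (m + 1 + 1) →L[ℝ] E (m + 1)).contDiff).contDiffAt
  refine ContDiffAt.smul ((contDiffAt_const.add (contDiffAt_const.mul h1)).inv hy) ?_
  refine contDiff_cn' contDiff_head.contDiffAt ?_
  exact (((tl : E (m + 1) →L[ℝ] E m).contDiff).comp
    (tl : E (m + 1 + 1) →L[ℝ] E (m + 1)).contDiff).contDiffAt

theorem sgm_LD (s : Bool) (z : E (m + 1)) : LD (m + 1) (sgm s) z := by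
  refine LD_sph_of_left_inv (g := prm s)
    (Eventually.of_forall fun _ => (sgc_smooth (sn s)).contDiffAt) ?_
    (Eventually.of_forall fun z => prm_sgc s z)
  refine (prm_smoothAt ?_).differentiableAt (by simp)
  show 1 + sn s * (tl (sgc (sn s) z)) 0 ≠ 0
  rw [prm_den]
  positivity

theorem sgm_inj (s : Bool) : Injective (sgm s : E (m + 1) → Sn (m + 1)) := by
  intro a b hab
  have h : sgc (sn s) a = sgc (sn s) b := congrArg Subtype.val hab
  rw [← prm_sgc s a, h, prm_sgc]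

/-- the pole -/
def pole (m : ℕ) : Sn (m + 1) := sgm false 0

theorem pole_one : (tl (pole m : E (m + 1 + 1))) 0 = -1 := by
  show tl (sgc (sn false) 0) 0 = -1
  rw [sgc_one]
  simp [sn]

theorem ne_pole {y : Sn (m + 1)} (hy : y ≠ pole m) :
    1 + sn true * (tl (y : E (m + 1 + 1))) 0 ≠ 0 := by
  intro h
  apply hy
  have h1 : (tl (y : E (m + 1 + 1))) 0 = -1 := by
    simp only [sn, if_true, one_mul] at h
    linarith
  have h2 := norm_split2 y
  rw [h1] at h2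
  have h3 : (y : E (m + 1 + 1)) 0 = 0 := by
    have : (y : E (m + 1 + 1)) 0 ^ 2 ≤ 0 := by nlinarith [sq_nonneg ‖tl (tl (y : E (m + 1 + 1)))‖]
    exact pow_eq_zero_iff (two_ne_zero) |>.1 (le_antisymm this (sq_nonneg _))
  have h4 : tl (tl (y : E (m + 1 + 1))) = 0 := by
    have : ‖tl (tl (y : E (m + 1 + 1)))‖ ^ 2 ≤ 0 := by nlinarith [sq_nonneg ((y : E (m + 1 + 1)) 0)]
    exact norm_eq_zero.1 (pow_eq_zero_iff (two_ne_zero) |>.1 (le_antisymm this (sq_nonneg _)))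
  apply Subtype.ext
  have e1 : (y : E (m + 1 + 1)) = cn 0 (cn (-1) 0) := by
    conv_lhs => rw [← cn_tl (y : E (m + 1 + 1)), ← cn_tl (tl (y : E (m + 1 + 1))), h1, h3, h4]
  rw [e1]
  show _ = sgc (sn false) 0
  unfold sgc
  simp [sn]

theorem sgm_ne_pole (z : E (m + 1)) : sgm true z ≠ pole m := by
  intro h
  have h1 : (tl (sgm true z : E (m + 1 + 1))) 0 = -1 := by rw [h]; exact pole_one
  have h2 := prm_den (m := m) true z
  have h3 : (tl (sgc (sn true) z)) 0 = -1 := h1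
  rw [h3] at h2
  have h0 : (0 : ℝ) < 2 * (1 + ‖z‖ ^ 2)⁻¹ := by positivity
  simp only [sn, if_true] at h2
  linarith

/-- inversion -/
theorem sgm_inv (s : Bool) {z : E (m + 1)} (hz : z ≠ 0) :
    sgm (!s) z = sgm s ((‖z‖ ^ 2)⁻¹ • z) := by
  apply Subtype.ext
  show sgc (sn (!s)) z = sgc (sn s) ((‖z‖ ^ 2)⁻¹ • z)
  have hn : ‖z‖ ≠ 0 := norm_ne_zero_iff.2 hz
  have hn2 : ‖z‖ ^ 2 ≠ 0 := pow_ne_zero _ hn
  have h0 : (0 : ℝ) < 1 + ‖z‖ ^ 2 := by positivity
  have h1 : ‖(‖z‖ ^ 2)⁻¹ • z‖ ^ 2 = (‖z‖ ^ 2)⁻¹ := by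
    rw [norm_smul, mul_pow, norm_inv, norm_pow, norm_norm, inv_pow]
    field_simp
  unfold sgc
  rw [h1, sn_not]
  simp only [smul_cn, map_smul, smul_smul]
  have e0 : ((‖z‖ ^ 2)⁻¹ • z) 0 = (‖z‖ ^ 2)⁻¹ * z 0 := by simp
  rw [e0]
  congr 1
  · field_simp
    ring
  · congr 1
    · field_simp
      ring
    · congr 1
      field_simp
      ring

theorem prm_LD {y : Sn (m + 1)} (hy : y ≠ pole m) :
    LD (m + 1) (fun y : Sn (m + 1) => prm true (y : E (m + 1 + 1))) y := by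
  have h1 := LD.inverse (k := sgm (m := m) true)
    (g := fun y : Sn (m + 1) => prm true (y : E (m + 1 + 1))) (U := univ)
    isOpen_univ (fun y _ => sgm_LD true y) (fun y _ => prm_sgc true y)
    (mem_univ (prm true (y : E (m + 1 + 1))))
  rwa [sgm_prm (ne_pole hy)] at h1

/-- a diffeomorphism of Euclidean space, isometric near infinity, extends to the sphere -/
theorem extend_sphere {H : E (m + 1) → E (m + 1)} (hH : Dif (m + 1) H)
    {O : E (m + 1) ≃ₗᵢ[ℝ] E (m + 1)} {R : ℝ} (hR : ∀ x, R ≤ ‖x‖ → H x = O x) :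
    ∃ G : Sn (m + 1) → Sn (m + 1), DifS (m + 1) G ∧ ∀ x, G (sgm true x) = sgm true (H x) := by
  classical
  set G : Sn (m + 1) → Sn (m + 1) := fun y => if y = pole m then pole m else
    sgm true (H (prm true (y : E (m + 1 + 1)))) with hG
  have hG1 : ∀ x, G (sgm true x) = sgm true (H x) := by
    intro x
    simp only [hG]
    rw [if_neg (sgm_ne_pole x)]
    show sgm true (H (prm true (sgc (sn true) x))) = _
    rw [prm_sgc]
  have hG2 : G (pole m) = pole m := if_pos rfl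
  have hrep : ∀ y : Sn (m + 1), y ≠ pole m → ∃ x, sgm true x = y := fun y hy =>
    ⟨_, sgm_prm (ne_pole hy)⟩
  refine ⟨G, ⟨⟨?_, ?_⟩, ?_⟩, hG1⟩
  · intro y y' hyy
    by_cases hy : y = pole m <;> by_cases hy' : y' = pole m
    · rw [hy, hy']
    · obtain ⟨x, rfl⟩ := hrep y' hy'
      rw [hy, hG2, hG1] at hyy
      exact absurd hyy.symm (sgm_ne_pole _)
    · obtain ⟨x, rfl⟩ := hrep y hy
      rw [hy', hG2, hG1] at hyy
      exact absurd hyy (sgm_ne_pole _)
    · obtain ⟨x, rfl⟩ := hrep y hy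
      obtain ⟨x', rfl⟩ := hrep y' hy'
      rw [hG1, hG1] at hyy
      rw [hH.1.1 (sgm_inj true hyy)]
  · intro y
    by_cases hy : y = pole m
    · exact ⟨pole m, by rw [hG2, hy]⟩
    · obtain ⟨x, rfl⟩ := hrep y hy
      obtain ⟨x', rfl⟩ := hH.1.2 x
      exact ⟨sgm true x', hG1 x'⟩
  · intro y
    by_cases hy : y = pole m
    · rw [hy]
      refine LD_of_comp_right (p := sgm (m := m) false) (sgm_LD false 0) ?_
      have h1 : LD (m + 1) (fun z => sgm false (O z)) (0 : E (m + 1)) :=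
        LD.comp_fun (g := sgm (m := m) false) (sgm_LD false _)
          (LD_linear O.toContinuousLinearEquiv 0)
      refine h1.congr ?_
      have h2 : ∀ᶠ z : E (m + 1) in 𝓝 0, ‖z‖ < (max R 1)⁻¹ := by
        have h3 : Continuous fun z : E (m + 1) => ‖z‖ := continuous_norm
        refine (h3.continuousAt (x := (0 : E (m + 1)))).eventually_lt continuousAt_const ?_
        rw [norm_zero]
        have : 0 < max R 1 := lt_max_of_lt_right one_pos
        positivity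
      filter_upwards [h2] with z hz
      by_cases hz0 : z = 0
      · rw [hz0, map_zero]
        exact hG2
      · have hzn : 0 < ‖z‖ := norm_pos_iff.2 hz0
        have e1 : sgm false z = sgm true ((‖z‖ ^ 2)⁻¹ • z) := sgm_inv true hz0
        have hOz : O z ≠ 0 := by
          intro h
          exact hz0 (by simpa using h)
        have e2 : sgm false (O z) = sgm true ((‖O z‖ ^ 2)⁻¹ • O z) := sgm_inv true hOz
        rw [e1, e2, hG1, hR, map_smul, O.norm_map]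
        rw [norm_smul, norm_inv, norm_pow, norm_norm]
        have e3 : (‖z‖ ^ 2)⁻¹ * ‖z‖ = ‖z‖⁻¹ := by
          field_simp
        rw [e3]
        have h4 : max R 1 ≤ ‖z‖⁻¹ := by
          rw [le_inv_comm₀ (lt_max_of_lt_right one_pos) hzn]
          exact hz.le
        exact (le_max_left _ _).trans h4
    · obtain ⟨x, rfl⟩ := hrep y hy
      refine LD_of_comp_right (p := sgm (m := m) true) (sgm_LD true x) ?_
      have h1 : LD (m + 1) (fun z => sgm true (H z)) x :=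
        LD.comp_fun (g := sgm (m := m) true) (sgm_LD true _) (hH.2 x)
      exact h1.congr (Eventually.of_forall hG1)

/-- an open embedding of Euclidean space in the sphere is not surjective -/
theorem exists_not_range {g : E (m + 1) → Sn (m + 1)} (hg : Injective g)
    (hgd : ∀ x, LD (m + 1) g x) : ∃ p, p ∉ range g := by
  by_contra hcon
  push Not at hcon
  have hsurj : Surjective g := hcon
  have hb : Bijective g := ⟨hg, hsurj⟩
  set e := Equiv.ofBijective g hb with he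
  have h1 : ∀ x, e.symm (g x) = x := fun x => e.symm_apply_apply x
  have h2 : ∀ y, LD (m + 1) e.symm y := fun y => LD.inverse_bij hb hgd h1 y
  have h3 : Continuous e.symm := continuous_iff_continuousAt.2 fun y => (h2 y).continuousAt
  have h4 : IsCompact (range e.symm) := isCompact_range h3
  rw [e.symm.surjective.range_eq] at h4
  exact noncompact_univ (E (m + 1)) h4

/-- Palais' theorem on the sphere -/
theorem palais {g : E (m + 1) → Sn (m + 1)} (hg : Injective g)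
    (hgd : ∀ x, LD (m + 1) g x) (R : ℝ) : ∃ G : Sn (m + 1) → Sn (m + 1), DifS (m + 1) G ∧
      ∀ x, ‖x‖ ≤ R → G (sgm true x) = g x := by
  obtain ⟨p, hp⟩ := exists_not_range hg hgd
  obtain ⟨A, hA⟩ := exists_iso p (pole m)
  set g' : E (m + 1) → E (m + 1) := fun x => prm true (iso A (g x) : E (m + 1 + 1)) with hg'
  have hne : ∀ x, iso A (g x) ≠ pole m := by
    intro x h
    rw [← hA] at h
    exact hp ⟨x, (iso_bij A).1 h⟩
  have hback : ∀ x, sgm true (g' x) = iso A (g x) := fun x => sgm_prm (ne_pole (hne x))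
  have hinj : Injective g' := by
    intro x x' hxx
    have h1 : iso A (g x) = iso A (g x') := by rw [← hback, ← hback, hxx]
    exact hg ((iso_bij A).1 h1)
  have hLD : ∀ x, LD (m + 1) g' x := by
    intro x
    have h1 : LD (m + 1) (fun x => iso A (g x)) x := LD.comp_fun (g := iso A) (iso_LD A _) (hgd x)
    exact LD.comp_fun (g := fun y : Sn (m + 1) => prm true (y : E (m + 1 + 1)))
      (f := fun x => iso A (g x)) (prm_LD (hne x)) h1
  obtain ⟨H, O, R', hH1, hH2, hH3, hH4⟩ := Pool.Agent.Y702.SH.extO (m + 1) g' hinj hLD R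
  obtain ⟨G, hG1, hG2⟩ := extend_sphere (H := H) ⟨hH1, hH2⟩ hH4
  refine ⟨fun y => iso A.symm (G y), (DifS.iso A.symm).comp hG1, fun x hx => ?_⟩
  show iso A.symm (G (sgm true x)) = g x
  rw [hG2, hH3 x hx, hback, iso_symm_apply]

/-- the thin slab -/
def slab (δ : ℝ) (z : E (m + 1)) : E (m + 1) := cn (δ * Real.arctan (z 0)) (tl z)

theorem slab_LD {δ : ℝ} (hδ : 0 < δ) (z : E (m + 1)) : LD (m + 1) (slab δ) z := by
  refine LD_of_left_inv (g := fun v => cn (Real.tan (v 0 / δ)) (tl v))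
    (Eventually.of_forall fun w => ?_) ?_ (Eventually.of_forall fun w => ?_)
  · unfold slab
    refine contDiff_cn' (contDiffAt_const.mul ?_) (tl : E (m + 1) →L[ℝ] E m).contDiff.contDiffAt
    exact (Real.contDiff_arctan.comp contDiff_head).contDiffAt
  · have h1 : Real.cos ((slab δ z) 0 / δ) ≠ 0 := by
      unfold slab
      rw [cn_zero, mul_div_cancel_left₀ _ hδ.ne']
      exact (Real.cos_arctan_pos _).ne'
    refine (contDiff_cn' (k := 1) ?_ (tl : E (m + 1) →L[ℝ] E m).contDiff.contDiffAt).differentiableAt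
      one_ne_zero
    have h2 : ContDiffAt ℝ 1 (fun v : E (m + 1) => v 0 / δ) (slab δ z) :=
      (contDiff_head.contDiffAt.of_le (by simp)).div_const δ
    have h3 : ContDiffAt ℝ 1 Real.tan ((slab δ z) 0 / δ) := Real.contDiffAt_tan.2 h1
    exact ContDiffAt.comp (g := Real.tan) (f := fun v : E (m + 1) => v 0 / δ) _ h3 h2
  · show cn (Real.tan ((slab δ w) 0 / δ)) (tl (slab δ w)) = w
    unfold slab
    rw [cn_zero, tl_cn, mul_div_cancel_left₀ _ hδ.ne', Real.tan_arctan, cn_tl]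

theorem slab_inj {δ : ℝ} (hδ : 0 < δ) : Injective (slab δ : E (m + 1) → E (m + 1)) := by
  intro a b hab
  have h0 : δ * Real.arctan (a 0) = δ * Real.arctan (b 0) := by
    have := congrArg (fun z : E (m + 1) => z 0) hab
    simpa [slab] using this
  have h1 : tl a = tl b := by
    have := congrArg (fun z : E (m + 1) => tl z) hab
    simpa only [slab, tl_cn] using this
  have h2 : a 0 = b 0 := Real.arctan_injective (mul_left_cancel₀ hδ.ne' h0)
  rw [← cn_tl a, ← cn_tl b, h1, h2]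

/-- the cap -/
def cap (s : Bool) (δ : ℝ) (z : E (m + 1)) : Sn (m + 1) := sgm s (slab δ z)

theorem cap_LD (s : Bool) {δ : ℝ} (hδ : 0 < δ) (z : E (m + 1)) : LD (m + 1) (cap s δ) z :=
  LD.comp_fun (g := sgm (m := m) s) (sgm_LD s _) (slab_LD hδ z)

theorem cap_inj (s : Bool) {δ : ℝ} (hδ : 0 < δ) :
    Injective (cap s δ : E (m + 1) → Sn (m + 1)) := (sgm_inj s).comp (slab_inj hδ)

theorem cap_height (s : Bool) {δ : ℝ} (hδ : 0 < δ) (z : E (m + 1)) :
    |(cap s δ z : E (m + 1 + 1)) 0| < 4 * δ := by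
  show |sgc (sn s) (slab δ z) 0| < _
  rw [sgc_zero]
  set w := slab δ z with hw
  have h0 : (0 : ℝ) < 1 + ‖w‖ ^ 2 := by positivity
  have h1 : w 0 = δ * Real.arctan (z 0) := by rw [hw]; simp [slab]
  have h2 : |Real.arctan (z 0)| < 2 := by
    have h3 := Real.arctan_lt_pi_div_two (z 0)
    have h3' := Real.neg_pi_div_two_lt_arctan (z 0)
    have h4 := Real.pi_lt_four
    rw [abs_lt]
    constructor <;> linarith
  rw [abs_mul, abs_of_pos (inv_pos.2 h0), abs_mul, h1, abs_mul, abs_of_pos hδ]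
  have h5 : (1 + ‖w‖ ^ 2)⁻¹ ≤ 1 := inv_le_one_of_one_le₀ (by nlinarith [sq_nonneg ‖w‖])
  have h6 : |(2:ℝ)| * (δ * |Real.arctan (z 0)|) < 4 * δ := by
    rw [abs_of_pos (by norm_num : (0:ℝ) < 2)]
    nlinarith
  have h7 : 0 ≤ |(2:ℝ)| * (δ * |Real.arctan (z 0)|) := by positivity
  calc (1 + ‖w‖ ^ 2)⁻¹ * (|(2:ℝ)| * (δ * |Real.arctan (z 0)|))
      ≤ 1 * (|(2:ℝ)| * (δ * |Real.arctan (z 0)|)) := mul_le_mul_of_nonneg_right h5 h7
    _ < 4 * δ := by rw [one_mul]; exact h6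

/-- points of the closed half of the equator are in the cap -/
theorem cap_cover (s : Bool) {δ : ℝ} {y : Sn (m + 1)} (h0 : (y : E (m + 1 + 1)) 0 = 0)
    (h1 : 0 ≤ sn s * (tl (y : E (m + 1 + 1))) 0) : ∃ x : E (m + 1), ‖x‖ ≤ 1 ∧ cap s δ x = y := by
  have hne : 1 + sn s * (tl (y : E (m + 1 + 1))) 0 ≠ 0 := by linarith
  have hpos : 0 < 1 + sn s * (tl (y : E (m + 1 + 1))) 0 := by linarith
  have h2 := prm_norm hne
  refine ⟨prm s (y : E (m + 1 + 1)), ?_, ?_⟩
  · have h3 : ‖prm s (y : E (m + 1 + 1))‖ ^ 2 ≤ 1 := by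
      rw [h2, div_le_one hpos]
      linarith
    have h4 : ‖prm s (y : E (m + 1 + 1))‖ ^ 2 ≤ 1 ^ 2 := by rw [one_pow]; exact h3
    exact le_of_sq_le_sq h4 zero_le_one
  · have h3 : prm s (y : E (m + 1 + 1)) 0 = 0 := by
      unfold prm
      rw [smul_cn, cn_zero, h0, mul_zero]
    have h4 : slab δ (prm s (y : E (m + 1 + 1))) = prm s (y : E (m + 1 + 1)) := by
      unfold slab
      rw [h3, Real.arctan_zero, mul_zero]
      conv_rhs => rw [← cn_tl (prm s (y : E (m + 1 + 1))), h3]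
    unfold cap
    rw [h4, sgm_prm hne]

/-- extension of a germ along half of the equator -/
theorem palais_cap (s : Bool) {Γ : Sn (m + 1) → Sn (m + 1)} {δ : ℝ} (hδ : 0 < δ)
    (hi : InjOn Γ {y | |(y : E (m + 1 + 1)) 0| < 4 * δ})
    (hd : ∀ y : Sn (m + 1), |(y : E (m + 1 + 1)) 0| < 4 * δ → LD (m + 1) Γ y) :
    ∃ G : Sn (m + 1) → Sn (m + 1), DifS (m + 1) G ∧ ∀ y : Sn (m + 1),
      (y : E (m + 1 + 1)) 0 = 0 → 0 ≤ sn s * (tl (y : E (m + 1 + 1))) 0 → G =ᶠ[𝓝 y] Γ := by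
  obtain ⟨G0, hG0, hG0'⟩ := palais (cap_inj s hδ) (cap_LD (m := m) s hδ) 2
  obtain ⟨G1, hG1, hG1'⟩ := palais (g := fun x : E (m + 1) => Γ (cap s δ x))
    (fun a b hab => cap_inj s hδ (hi (cap_height s hδ a) (cap_height s hδ b) hab))
    (fun x => LD.comp_fun (g := Γ) (hd _ (cap_height s hδ x)) (cap_LD s hδ x)) 2
  obtain ⟨k, hk, hk1, hk2⟩ := hG0.inv
  refine ⟨fun y => G1 (k y), hG1.comp hk, fun y h0 h1 => ?_⟩
  obtain ⟨x, hx, hxy⟩ := cap_cover (m := m) s (δ := δ) h0 h1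
  have hnb : cap s δ '' ball (0 : E (m + 1)) 2 ∈ 𝓝 y := by
    rw [← hxy]
    refine (cap_LD s hδ x).image_mem_nhds (isOpen_ball.mem_nhds ?_)
    rw [mem_ball_zero_iff]
    linarith
  filter_upwards [hnb] with z hz
  obtain ⟨w, hw, rfl⟩ := hz
  have hw' : ‖w‖ ≤ 2 := (mem_ball_zero_iff.1 hw).le
  rw [← hG0' w hw', hk1, hG1' w hw', hG0' w hw']

end Pool.Agent.H816
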