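import Pool.Graph.R_pool_sql_team_seeded_2aa45f1a.Q169.AA.Loc

/-!
# Asymptotically affine maps, with centers in a given set
-/

set_option autoImplicit false

open Set Filter Topology Metric Function MeasureTheory
open scoped Manifold ContDiff

noncomputable section

namespace Pool.Agent.H816.Ph

open Pool.Agent.Y522 Pool.Agent.Y207.SH3 Pool.Agent.Q169.AA

variable {n : ℕ}

/-- `G` is asymptotically affine at `z`, on balls with centers in `R` -/
def AR (n : ℕ) (R : Set (E n)) (G : E n → E n) (z : E n) : Prop :=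
  ∃ c : ℝ, 0 < c ∧ ∀ ε : ℝ, 0 < ε → ∃ r : ℝ, 0 < r ∧ ∀ p : E n, p ∈ R → ‖p - z‖ ≤ r →
    ∀ s : ℝ, 0 < s → s ≤ r → Aff n G c ε p s

theorem aff_mono_c {G : E n → E n} {c c' ε : ℝ} {p : E n} {s : ℝ} (h : Aff n G c ε p s)
    (hc : c' ≤ c) : Aff n G c' ε p s := by
  obtain ⟨m, L, hm, h1, h2⟩ := h
  refine ⟨m, L, hm, fun v => ⟨?_, (h1 v).2⟩, h2⟩
  refine le_trans ?_ (h1 v).1
  gcongr

theorem AR.of_AAn {R : Set (E n)} {G : E n → E n} {z : E n} (h : AAn n G z) : AR n R G z := by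
  obtain ⟨c, hc, h⟩ := h
  refine ⟨c, hc, fun ε hε => ?_⟩
  obtain ⟨r, hr, h1⟩ := h ε hε
  exact ⟨r, hr, fun p _ hp => h1 p hp⟩

theorem AR.to_AAn {R : Set (E n)} {G : E n → E n} {z : E n} (h : AR n R G z)
    (hR : ∀ᶠ p in 𝓝 z, p ∈ R) : AAn n G z := by
  obtain ⟨c, hc, h⟩ := h
  obtain ⟨r0, hr0, h0⟩ := Metric.eventually_nhds_iff_ball.1 hR
  refine ⟨c, hc, fun ε hε => ?_⟩
  obtain ⟨r, hr, h1⟩ := h ε hε
  refine ⟨min r (r0 / 2), by positivity, fun p hp s hs hsr => ?_⟩
  have h2 := hp.trans (min_le_left _ _)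
  have h3 := hp.trans (min_le_right _ _)
  refine h1 p (h0 p ?_) h2 s hs (hsr.trans (min_le_left _ _))
  rw [mem_ball, dist_eq_norm]
  linarith

theorem AR.mono {R R' : Set (E n)} {G : E n → E n} {z : E n} (h : AR n R G z)
    (hR : ∀ᶠ p in 𝓝 z, p ∈ R' → p ∈ R) : AR n R' G z := by
  obtain ⟨c, hc, h⟩ := h
  obtain ⟨r0, hr0, h0⟩ := Metric.eventually_nhds_iff_ball.1 hR
  refine ⟨c, hc, fun ε hε => ?_⟩
  obtain ⟨r, hr, h1⟩ := h ε hε
  refine ⟨min r (r0 / 2), by positivity, fun p hpR hp s hs hsr => ?_⟩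
  have h2 := hp.trans (min_le_left _ _)
  have h3 := hp.trans (min_le_right _ _)
  refine h1 p (h0 p ?_ hpR) h2 s hs (hsr.trans (min_le_left _ _))
  rw [mem_ball, dist_eq_norm]
  linarith

theorem AR.union {R R' : Set (E n)} {G : E n → E n} {z : E n} (h : AR n R G z)
    (h' : AR n R' G z) : AR n (R ∪ R') G z := by
  obtain ⟨c, hc, h⟩ := h
  obtain ⟨c', hc', h'⟩ := h'
  refine ⟨min c c', lt_min hc hc', fun ε hε => ?_⟩
  obtain ⟨r, hr, h1⟩ := h ε hε
  obtain ⟨r', hr', h1'⟩ := h' ε hε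
  refine ⟨min r r', lt_min hr hr', fun p hp hpz s hs hsr => ?_⟩
  rcases hp with hp | hp
  · exact aff_mono_c (h1 p hp (hpz.trans (min_le_left _ _)) s hs (hsr.trans (min_le_left _ _)))
      (min_le_left _ _)
  · exact aff_mono_c (h1' p hp (hpz.trans (min_le_right _ _)) s hs
      (hsr.trans (min_le_right _ _))) (min_le_right _ _)

/-- centers at distance comparable to the radius -/
theorem AR.thick {R : Set (E n)} {G : E n → E n} {z : E n} (h : AR n R G z) :
    ∃ c : ℝ, 0 < c ∧ ∀ K : ℝ, 0 ≤ K → ∀ ε : ℝ, 0 < ε → ∃ r : ℝ, 0 < r ∧ ∀ p : E n,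
      ‖p - z‖ ≤ r → ∀ s : ℝ, 0 < s → s ≤ r → (∃ p' ∈ R, ‖p - p'‖ ≤ K * s) →
      Aff n G c ε p s := by
  obtain ⟨c, hc, h⟩ := h
  refine ⟨c, hc, fun K hK ε hε => ?_⟩
  obtain ⟨r, hr, h1⟩ := h (ε / (2 * (K + 1))) (by positivity)
  refine ⟨r / (K + 2), by positivity, ?_⟩
  rintro p hp s hs hsr ⟨p', hp'R, hp'⟩
  have hr2 : (K + 2) * (r / (K + 2)) = r := by field_simp
  have h2 : ‖p' - z‖ ≤ r := by
    have e : p' - z = (p - z) - (p - p') := by abel
    rw [e]
    refine (norm_sub_le _ _).trans ?_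
    have : K * s ≤ K * (r / (K + 2)) := mul_le_mul_of_nonneg_left hsr hK
    nlinarith
  have h3 : (K + 1) * s ≤ r := by
    have : (K + 1) * s ≤ (K + 1) * (r / (K + 2)) := mul_le_mul_of_nonneg_left hsr (by linarith)
    have h4 : 0 < r / (K + 2) := by positivity
    nlinarith
  obtain ⟨m, L, hm, hL, hA⟩ := h1 p' hp'R h2 ((K + 1) * s) (by positivity) h3
  refine ⟨m, L, hm, hL, fun q hq => ?_⟩
  have h5 : ‖q - p'‖ ≤ (K + 1) * s := by
    have e : q - p' = (q - p) + (p - p') := by abel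
    rw [e]
    refine (norm_add_le _ _).trans ?_
    linarith
  have h6 : ‖p - p'‖ ≤ (K + 1) * s := hp'.trans (by nlinarith)
  have h7 := hA q h5
  have h8 := hA p h6
  have e : G q - G p - L (q - p) = (G q - G p' - L (q - p')) - (G p - G p' - L (p - p')) := by
    have e1 : q - p = (q - p') - (p - p') := by abel
    rw [e1, map_sub]
    abel
  rw [e]
  refine (norm_sub_le _ _).trans ?_
  have e2 : ε / (2 * (K + 1)) * m * ((K + 1) * s) = ε * m * s / 2 := by
    field_simp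
  rw [e2] at h7 h8
  linarith

theorem AR.congr {R : Set (E n)} {G G' : E n → E n} {z : E n} (h : AR n R G z)
    (he : G' =ᶠ[𝓝 z] G) : AR n R G' z := by
  obtain ⟨c, hc, h⟩ := h
  obtain ⟨r1, hr1, h1⟩ := Metric.eventually_nhds_iff_ball.1 he
  refine ⟨c, hc, fun ε hε => ?_⟩
  obtain ⟨r, hr, h2⟩ := h ε hε
  refine ⟨min r (r1 / 4), lt_min hr (by linarith), fun p hpR hp s hs hsr => ?_⟩
  have hp3 := hp.trans (min_le_right _ _)
  have hs3 := hsr.trans (min_le_right _ _)
  obtain ⟨m, L, hm, hL, hA⟩ := h2 p hpR (hp.trans (min_le_left _ _)) s hs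
    (hsr.trans (min_le_left _ _))
  refine ⟨m, L, hm, hL, fun q hq => ?_⟩
  have hq1 : ‖q - z‖ < r1 := by
    have e : q - z = (q - p) + (p - z) := by abel
    rw [e]
    refine (norm_add_le _ _).trans_lt ?_
    linarith
  rw [h1 q (by rwa [mem_ball, dist_eq_norm]), h1 p (by rw [mem_ball, dist_eq_norm]; linarith)]
  exact hA q hq

/-- invariance under changes of coordinates in the target -/
theorem AR.post {R : Set (E n)} {G : E n → E n} {z : E n} (h : AR n R G z)
    (hc : ContinuousAt G z) {H : E n → E n} (hH : LD n H (G z)) :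
    AR n R (fun y => H (G y)) z := by
  obtain ⟨c, hc0, h⟩ := h
  obtain ⟨D, hD⟩ := strict_of_LD hH
  obtain ⟨a, b, ha, hab, hv⟩ := equiv_bounds D
  have hb : 0 < b := lt_of_lt_of_le ha hab
  refine ⟨c * a / b, by positivity, fun ε hε => ?_⟩
  obtain ⟨ε', hε', h1, h2⟩ : ∃ ε' : ℝ, 0 < ε' ∧ ε' ≤ 1 ∧ ε' ≤ ε / 3 :=
    ⟨min 1 (ε / 3), lt_min one_pos (by linarith), min_le_left _ _, min_le_right _ _⟩
  obtain ⟨r1, hr1, h3⟩ := h ε' hε'
  obtain ⟨r2, hr2, h4⟩ := hD (b * (ε / 3)) (by positivity)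
  have h5 : ∀ᶠ y in 𝓝 z, ‖G y - G z‖ < r2 := by
    have h6 := hc.eventually (ball_mem_nhds (G z) hr2)
    filter_upwards [h6] with y hy
    rwa [← dist_eq_norm]
  obtain ⟨r3, hr3, h6⟩ := Metric.eventually_nhds_iff_ball.1 h5
  refine ⟨min r1 (r3 / 4), lt_min hr1 (by linarith), fun p hpR hp s hs hsr => ?_⟩
  have hp1 := hp.trans (min_le_left _ _)
  have hp3 := hp.trans (min_le_right _ _)
  have hs1 := hsr.trans (min_le_left _ _)
  have hs3 := hsr.trans (min_le_right _ _)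
  obtain ⟨m, L, hm, hL, hA⟩ := h3 p hpR hp1 s hs hs1
  refine ⟨b * m, (D : E n →L[ℝ] E n).comp L, by positivity, fun v => ⟨?_, ?_⟩, fun q hq => ?_⟩
  · have e1 : c * a / b * (b * m) * ‖v‖ = a * (c * m * ‖v‖) := by
      field_simp
    rw [e1]
    exact (mul_le_mul_of_nonneg_left (hL v).1 ha.le).trans (hv (L v)).1
  · refine (hv (L v)).2.trans ?_
    rw [mul_assoc]
    exact mul_le_mul_of_nonneg_left (hL v).2 hb.le
  · have hG : ∀ y, ‖y - z‖ < r3 → ‖G y - G z‖ ≤ r2 := fun y hy =>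
      (h6 y (by rwa [mem_ball, dist_eq_norm])).le
    have hq1 : ‖q - z‖ < r3 := by
      have e : q - z = (q - p) + (p - z) := by abel
      rw [e]
      refine (norm_add_le _ _).trans_lt ?_
      linarith
    have h7 := h4 (G p) (G q) (hG p (by linarith)) (hG q hq1)
    have h8 := hA q hq
    have h9 : ‖G q - G p‖ ≤ 2 * m * s := by
      have e : G q - G p = (G q - G p - L (q - p)) + L (q - p) := by abel
      rw [e]
      refine (norm_add_le _ _).trans ?_
      have h10 := (hL (q - p)).2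
      have h11 : m * ‖q - p‖ ≤ m * s := mul_le_mul_of_nonneg_left hq hm.le
      have h12 : ε' * m * s ≤ 1 * m * s := by gcongr
      linarith
    have e : H (G q) - H (G p) - (D : E n →L[ℝ] E n).comp L (q - p) =
        (H (G q) - H (G p) - D (G q - G p)) + D (G q - G p - L (q - p)) := by
      rw [map_sub D (G q - G p) (L (q - p))]
      change H (G q) - H (G p) - D (L (q - p)) = _
      abel
    rw [e]
    refine (norm_add_le _ _).trans ?_
    have h13 := (hv (G q - G p - L (q - p))).2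
    have h14 : b * ‖G q - G p - L (q - p)‖ ≤ b * (ε' * m * s) :=
      mul_le_mul_of_nonneg_left h8 hb.le
    have h15 : b * (ε / 3) * ‖G q - G p‖ ≤ b * (ε / 3) * (2 * m * s) :=
      mul_le_mul_of_nonneg_left h9 (by positivity)
    have h16 : b * (ε' * m * s) ≤ b * (ε / 3 * m * s) := by gcongr
    have e2 : ε * (b * m) * s = b * (ε / 3) * (2 * m * s) + b * (ε / 3 * m * s) := by ring
    rw [e2]
    linarith

/-- invariance under changes of coordinates in the source -/
theorem AR.pre {R : Set (E n)} {G : E n → E n} {T : E n → E n} {z : E n} (h : AR n R G (T z))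
    (hT : LD n T z) : AR n (T ⁻¹' R) (fun y => G (T y)) z := by
  obtain ⟨c, hc0, h⟩ := h
  obtain ⟨D, hD⟩ := strict_of_LD hT
  obtain ⟨a, b, ha, hab, hv⟩ := equiv_bounds D
  have hb : 0 < b := lt_of_lt_of_le ha hab
  refine ⟨c * a / b, by positivity, fun ε hε => ?_⟩
  obtain ⟨ε', hε', h1⟩ : ∃ ε' : ℝ, 0 < ε' ∧ ε' * (b + 1) ≤ ε * b / 2 :=
    ⟨ε * b / 2 / (b + 1), by positivity, by rw [div_mul_cancel₀ _ (by positivity)]⟩
  obtain ⟨η, hη, hη1, hη2⟩ : ∃ η : ℝ, 0 < η ∧ η ≤ 1 ∧ η ≤ ε * b / 2 :=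
    ⟨min 1 (ε * b / 2), lt_min one_pos (by positivity), min_le_left _ _, min_le_right _ _⟩
  obtain ⟨r1, hr1, h3⟩ := h ε' hε'
  obtain ⟨r2, hr2, h4⟩ := hD η hη
  obtain ⟨r, hr, hra, hrb⟩ : ∃ r : ℝ, 0 < r ∧ (b + 1) * r ≤ r1 ∧ 2 * r ≤ r2 := by
    refine ⟨min (r1 / (b + 1)) (r2 / 2), lt_min (by positivity) (by linarith), ?_, ?_⟩
    · calc (b + 1) * min (r1 / (b + 1)) (r2 / 2) ≤ (b + 1) * (r1 / (b + 1)) := by
            gcongr
            exact min_le_left _ _
        _ = r1 := by field_simp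
    · have := min_le_right (r1 / (b + 1)) (r2 / 2)
      linarith
  refine ⟨r, hr, fun p hpR hp s hs hsr => ?_⟩
  have hTb : ∀ y y' : E n, ‖y - z‖ ≤ 2 * r → ‖y' - z‖ ≤ 2 * r → ‖T y' - T y‖ ≤ (b + 1) * ‖y' - y‖ := by
    intro y y' hy hy'
    have h5 := h4 y y' (hy.trans hrb) (hy'.trans hrb)
    have e : T y' - T y = (T y' - T y - D (y' - y)) + D (y' - y) := by abel
    rw [e]
    refine (norm_add_le _ _).trans ?_
    have h6 := (hv (y' - y)).2
    have h7 : η * ‖y' - y‖ ≤ 1 * ‖y' - y‖ := mul_le_mul_of_nonneg_right hη1 (norm_nonneg _)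
    linarith
  have hTp : ‖T p - T z‖ ≤ r1 := by
    refine (hTb z p (by rw [sub_self, norm_zero]; linarith) (by linarith)).trans ?_
    refine (mul_le_mul_of_nonneg_left hp (by positivity)).trans hra
  obtain ⟨m, L, hm, hL, hA⟩ := h3 (T p) hpR hTp ((b + 1) * s) (by positivity)
    ((mul_le_mul_of_nonneg_left hsr (by positivity)).trans hra)
  refine ⟨b * m, L.comp (D : E n →L[ℝ] E n), by positivity, fun v => ⟨?_, ?_⟩, fun q hq => ?_⟩
  · have e1 : c * a / b * (b * m) * ‖v‖ = c * m * (a * ‖v‖) := by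
      field_simp
    rw [e1]
    exact (mul_le_mul_of_nonneg_left (hv v).1 (by positivity)).trans (hL (D v)).1
  · refine (hL (D v)).2.trans ?_
    have e1 : b * m * ‖v‖ = m * (b * ‖v‖) := by ring
    rw [e1]
    exact mul_le_mul_of_nonneg_left (hv v).2 hm.le
  · have hq1 : ‖q - z‖ ≤ 2 * r := by
      have e : q - z = (q - p) + (p - z) := by abel
      rw [e]
      refine (norm_add_le _ _).trans ?_
      linarith
    have hp1 : ‖p - z‖ ≤ 2 * r := by linarith
    have h5 : ‖T q - T p‖ ≤ (b + 1) * s :=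
      (hTb p q hp1 hq1).trans (mul_le_mul_of_nonneg_left hq (by positivity))
    have h6 := hA (T q) h5
    have h7 := h4 p q (hp1.trans hrb) (hq1.trans hrb)
    have e : G (T q) - G (T p) - L.comp (D : E n →L[ℝ] E n) (q - p) =
        (G (T q) - G (T p) - L (T q - T p)) + L (T q - T p - D (q - p)) := by
      rw [map_sub L (T q - T p) (D (q - p))]
      change G (T q) - G (T p) - L (D (q - p)) = _
      abel
    rw [e]
    refine (norm_add_le _ _).trans ?_
    have h8 := (hL (T q - T p - D (q - p))).2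
    have h9 : m * ‖T q - T p - D (q - p)‖ ≤ m * (ε * b / 2 * s) := by
      apply mul_le_mul_of_nonneg_left _ hm.le
      refine h7.trans ?_
      exact mul_le_mul hη2 hq (norm_nonneg _) (by positivity)
    have h10 : ε' * m * ((b + 1) * s) ≤ ε * b / 2 * (m * s) := by
      have e3 : ε' * m * ((b + 1) * s) = ε' * (b + 1) * (m * s) := by ring
      rw [e3]
      exact mul_le_mul_of_nonneg_right h1 (by positivity)
    have e2 : ε * (b * m) * s = ε * b / 2 * (m * s) + m * (ε * b / 2 * s) := by ring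
    rw [e2]
    linarith

/-- the mollification is asymptotically affine where the scale vanishes, also with centers at
distance comparable to the scale -/
theorem AR.moll {R : Set (E n)} {G : E n → E n} {δ : E n → ℝ} {z : E n} (hδ0 : ∀ z, 0 ≤ δ z)
    (hδl : ∀ y z, |δ y - δ z| ≤ ‖y - z‖ / 4) (hz : δ z = 0) {ρ : ℝ} (hρ : 0 < ρ)
    (hG : ContinuousOn G (closedBall z ρ)) (h : AR n R G z) {K : ℝ} (hK : 0 ≤ K) :
    AR n (R ∪ {p | ∃ p' ∈ R, ‖p - p'‖ ≤ K * δ p}) (Moll n G δ) z := by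
  obtain ⟨C, hC, hM⟩ := moll_aff n
  obtain ⟨c, hc, h⟩ := h.thick
  refine ⟨c, hc, fun ε hε => ?_⟩
  obtain ⟨r, hr, h1⟩ := h K hK (ε / C) (by positivity)
  refine ⟨min (r / 4) (ρ / 5), lt_min (by linarith) (by linarith), fun p hpR hp s hs hsr => ?_⟩
  have hp1 := hp.trans (min_le_left _ _)
  have hp2 := hp.trans (min_le_right _ _)
  have hs1 := hsr.trans (min_le_left _ _)
  have hs2 := hsr.trans (min_le_right _ _)
  have hδp : δ p ≤ ‖p - z‖ / 4 := by
    have h2 := (abs_le.1 (hδl p z)).2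
    rw [hz] at h2
    linarith
  obtain ⟨t, ht, hst, hpt, htr, htρ, htc⟩ : ∃ t : ℝ, 0 < t ∧ s ≤ t ∧ δ p ≤ t ∧ 4 * t ≤ r ∧
      4 * t ≤ 4 * (ρ / 5) ∧ (s = t ∨ δ p = t) := by
    rcases le_total s (δ p) with h2 | h2
    · exact ⟨δ p, lt_of_lt_of_le hs h2, h2, le_rfl, by linarith, by linarith, Or.inr rfl⟩
    · exact ⟨s, hs, le_rfl, h2, by linarith, by linarith, Or.inl rfl⟩
  have hpp : ∃ p' ∈ R, ‖p - p'‖ ≤ K * (4 * t) := by
    rcases hpR with h2 | ⟨p', h2, h3⟩
    · exact ⟨p, h2, by rw [sub_self, norm_zero]; positivity⟩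
    · refine ⟨p', h2, h3.trans ?_⟩
      apply mul_le_mul_of_nonneg_left _ hK
      linarith
  obtain ⟨m, L, hm, hL, hA⟩ := h1 p (by linarith) (4 * t) (by linarith) htr hpp
  have hsub : closedBall p (4 * t) ⊆ closedBall z ρ := by
    intro y hy
    rw [mem_closedBall, dist_eq_norm] at hy ⊢
    have e : y - z = (y - p) + (p - z) := by abel
    rw [e]
    refine (norm_add_le _ _).trans ?_
    linarith
  obtain ⟨g1, g2⟩ := hM G δ p t m (ε / C) L hm (by positivity) ht hδ0 hδl hpt (hG.mono hsub) hA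
  have eC : C * (ε / C) = ε := by field_simp
  rw [eC] at g1 g2
  refine ⟨m, L, hm, hL, fun q hq => ?_⟩
  rcases htc with h2 | h2
  · rw [h2]
    exact g1 q (by linarith)
  · refine (g2 h2 q (by linarith)).trans ?_
    gcongr

/-- the mollification is a local diffeomorphism near `z`, at the points where the scale is positive
and comparable to the distance of `R` -/
theorem AR.moll_LD {R : Set (E n)} {G : E n → E n} {δ : E n → ℝ} {z : E n} (hδ0 : ∀ z, 0 ≤ δ z)
    (hδl : ∀ y z, |δ y - δ z| ≤ ‖y - z‖ / 4) (hz : δ z = 0) {ρ : ℝ} (hρ : 0 < ρ)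
    (hG : ContinuousOn G (closedBall z ρ)) (h : AR n R G z) {K : ℝ} (hK : 0 ≤ K) :
    ∀ᶠ p in 𝓝 z, 0 < δ p → (∃ p' ∈ R, ‖p - p'‖ ≤ K * δ p) →
      (∀ᶠ y in 𝓝 p, ContDiffAt ℝ ∞ (Moll n G δ) y) → LD n (Moll n G δ) p := by
  obtain ⟨C, hC, hM⟩ := moll_aff n
  obtain ⟨c, hc, h⟩ := h.thick
  obtain ⟨r, hr, h1⟩ := h K hK (c / (2 * C)) (by positivity)
  have hr' : 0 < min (r / 4) (ρ / 5) := lt_min (by linarith) (by linarith)
  filter_upwards [closedBall_mem_nhds z hr'] with p hp hp0 hpp hs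
  rw [mem_closedBall, dist_eq_norm] at hp
  have hp1 := hp.trans (min_le_left _ _)
  have hp2 := hp.trans (min_le_right _ _)
  have hδp : δ p ≤ ‖p - z‖ / 4 := by
    have h2 := (abs_le.1 (hδl p z)).2
    rw [hz] at h2
    linarith
  obtain ⟨p', hp'R, hp'⟩ := hpp
  obtain ⟨m, L, hm, hL, hA⟩ := h1 p (by linarith) (4 * δ p) (by linarith) (by linarith)
    ⟨p', hp'R, hp'.trans (mul_le_mul_of_nonneg_left (by linarith) hK)⟩
  have hsub : closedBall p (4 * δ p) ⊆ closedBall z ρ := by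
    intro y hy
    rw [mem_closedBall, dist_eq_norm] at hy ⊢
    have e : y - z = (y - p) + (p - z) := by abel
    rw [e]
    refine (norm_add_le _ _).trans ?_
    linarith
  obtain ⟨-, g2⟩ := hM G δ p (δ p) m (c / (2 * C)) L hm (by positivity) hp0 hδ0 hδl le_rfl
    (hG.mono hsub) hA
  have eC : C * (c / (2 * C)) = c / 2 := by field_simp
  rw [eC] at g2
  exact Q169.AA.moll_LD hm (by positivity) (by linarith) (fun v => (hL v).1) hp0 hs
    (fun q hq => g2 rfl q hq)

/-- local injectivity: pairs of points one of which is in `R` -/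
theorem AR.ne {R : Set (E n)} {G : E n → E n} {z : E n} (h : AR n R G z) :
    ∃ r : ℝ, 0 < r ∧ ∀ p q : E n, p ∈ R → ‖p - z‖ ≤ r → ‖q - z‖ ≤ r → q ≠ p → G q ≠ G p := by
  obtain ⟨c, hc, h⟩ := h
  obtain ⟨r, hr, h1⟩ := h (c / 2) (by linarith)
  refine ⟨r / 2, by linarith, fun p q hpR hp hq hne => ?_⟩
  have hpos : 0 < ‖q - p‖ := norm_pos_iff.2 (sub_ne_zero.2 hne)
  have hqp : ‖q - p‖ ≤ r := by
    have e : q - p = (q - z) - (p - z) := by abel
    rw [e]
    refine (norm_sub_le _ _).trans ?_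
    linarith
  obtain ⟨m, L, hm, hL, hA⟩ := h1 p hpR (by linarith) ‖q - p‖ hpos hqp
  exact ne_of_aff hm (by linarith) (fun v => (hL v).1) hpos rfl (hA q le_rfl)

section man

variable {X Y : Type} [TopologicalSpace X] [ChartedSpace (E n) X] [TopologicalSpace Y]
  [ChartedSpace (E n) Y]

variable (n) in
/-- `F` is asymptotically affine at `x` on balls with centers in `R`, in all parametrizations -/
def ARE (R : Set X) (F : X → E n) (x : X) : Prop :=
  ∀ (A : E n → X) (z : E n), LD n A z → A z = x → AR n (A ⁻¹' R) (fun y => F (A y)) z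

variable (n) in
/-- `f` is asymptotically affine at `x` on balls with centers in `R`, in all coordinates -/
def ARM (R : Set X) (f : X → Y) (x : X) : Prop :=
  ∀ B : Y → E n, LD n B (f x) → ARE n R (fun w => B (f w)) x

theorem ARE.of {R : Set X} {F : X → E n} {A : E n → X} {z : E n} (hA : LD n A z)
    (h : AR n (A ⁻¹' R) (fun y => F (A y)) z) : ARE n R F (A z) := by
  intro A' z' hA' hz'
  obtain ⟨p, hp1, hp2, hp3, hp4⟩ := hA.exists_inverse
  have hT : LD n (fun y => p (A' y)) z' := LD.comp_fun (by rw [hz']; exact hp1) hA'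
  have hTz : p (A' z') = z := by rw [hz', hp2]
  have h1 : AR n ((fun y => p (A' y)) ⁻¹' (A ⁻¹' R)) (fun y => (fun w => F (A w)) (p (A' y))) z' := by
    refine AR.pre (G := fun w => F (A w)) (T := fun y => p (A' y)) ?_ hT
    rw [hTz]
    exact h
  have h2 : ∀ᶠ y in 𝓝 z', A (p (A' y)) = A' y := by
    have h3 := hA'.continuousAt
    unfold ContinuousAt at h3
    rw [hz'] at h3
    exact h3.eventually hp4
  refine AR.congr (AR.mono h1 ?_) ?_
  · filter_upwards [h2] with y hy hyR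
    show A (p (A' y)) ∈ R
    rw [hy]
    exact hyR
  · filter_upwards [h2] with y hy
    simp only [hy]

theorem ARE.congr {R : Set X} {F F' : X → E n} {x : X} (h : ARE n R F x) (he : F' =ᶠ[𝓝 x] F) :
    ARE n R F' x := by
  intro A z hA hz
  refine AR.congr (h A z hA hz) ?_
  have h3 := hA.continuousAt
  unfold ContinuousAt at h3
  rw [hz] at h3
  exact h3.eventually he

theorem ARE.mono {R R' : Set X} {F : X → E n} {x : X} (h : ARE n R F x)
    (he : ∀ᶠ p in 𝓝 x, p ∈ R' → p ∈ R) : ARE n R' F x := by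
  intro A z hA hz
  refine AR.mono (h A z hA hz) ?_
  have h3 := hA.continuousAt
  unfold ContinuousAt at h3
  rw [hz] at h3
  exact h3.eventually he

theorem ARE.union {R R' : Set X} {F : X → E n} {x : X} (h : ARE n R F x)
    (h' : ARE n R' F x) : ARE n (R ∪ R') F x := fun A z hA hz =>
  AR.union (h A z hA hz) (h' A z hA hz)

theorem ARM.of {R : Set X} {f : X → Y} {x : X} (hf : ContinuousAt f x) {B : Y → E n}
    (hB : LD n B (f x)) (h : ARE n R (fun w => B (f w)) x) : ARM n R f x := by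
  intro B' hB' A z hA hz
  obtain ⟨β, hβ1, hβ2, hβ3, hβ4⟩ := hB.exists_inverse
  have hfA : ContinuousAt (fun y => f (A y)) z := by
    refine ContinuousAt.comp (g := f) ?_ hA.continuousAt
    rw [hz]
    exact hf
  have h1 := h A z hA hz
  have hc : ContinuousAt (fun y => B (f (A y))) z := by
    refine ContinuousAt.comp (g := B) ?_ hfA
    rw [hz]
    exact hB.continuousAt
  have hH : LD n (fun v => B' (β v)) (B (f (A z))) := by
    rw [hz]
    exact LD.comp_fun (by rw [hβ2]; exact hB') hβ1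
  refine AR.congr (AR.post (H := fun v => B' (β v)) h1 hc hH) ?_
  have h2 : ∀ᶠ y in 𝓝 z, β (B (f (A y))) = f (A y) := by
    have h3 : Tendsto (fun y => f (A y)) (𝓝 z) (𝓝 (f x)) := by
      have h4 : Tendsto (fun y => f (A y)) (𝓝 z) (𝓝 (f (A z))) := hfA
      rwa [hz] at h4
    exact h3.eventually hβ3
  filter_upwards [h2] with y hy
  simp only [hy]

theorem ARM.congr {R : Set X} {f f' : X → Y} {x : X} (h : ARM n R f x) (he : f' =ᶠ[𝓝 x] f) :
    ARM n R f' x := by
  intro B hB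
  rw [he.self_of_nhds] at hB
  refine ARE.congr (h B hB) ?_
  filter_upwards [he] with y hy
  simp only [hy]

theorem ARM.mono {R R' : Set X} {f : X → Y} {x : X} (h : ARM n R f x)
    (he : ∀ᶠ p in 𝓝 x, p ∈ R' → p ∈ R) : ARM n R' f x := fun B hB => (h B hB).mono he

theorem ARM.union {R R' : Set X} {f : X → Y} {x : X} (h : ARM n R f x)
    (h' : ARM n R' f x) : ARM n (R ∪ R') f x := fun B hB => (h B hB).union (h' B hB)

theorem ARM_of_LD {R : Set X} {f : X → Y} {x : X} (h : LD n f x) : ARM n R f x :=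
  fun _ hB A z hA hz => AR.of_AAn (AAE_of_LD (LD.comp_fun hB h) A z hA hz)

theorem ARM.to_AAM {R : Set X} {f : X → Y} {x : X} (h : ARM n R f x)
    (hR : ∀ᶠ p in 𝓝 x, p ∈ R) : AAM n f x := by
  intro B hB A z hA hz
  refine AR.to_AAn (h B hB A z hA hz) ?_
  have h3 := hA.continuousAt
  unfold ContinuousAt at h3
  rw [hz] at h3
  exact h3.eventually hR

end man

end Pool.Agent.H816.Ph
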