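import Pool.Agent.H816.Ph3
import Pool.Graph.R_seed8.H718R2.K5a

/-!
# Pushing singular points to infinity, and cells
-/

set_option autoImplicit false
set_option linter.unusedSectionVars false

open Set Filter Topology Metric Function MeasureTheory Module
open scoped Manifold ContDiff NNReal

noncomputable section

namespace Pool.Agent.H816.Ph

open Pool.Agent.Y522 Pool.Agent.Y784.SH Pool.Agent.H816

/-- diffeomorphisms with compact support which move points -/
theorem move {n : ℕ} {M : Type} [TopologicalSpace M] [T2Space M] [ChartedSpace (E n) M]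
    [IsManifold (𝓡 n) ∞ M] {U : Set M} (hU : IsOpen U) (hc : IsPreconnected U) {p q : M}
    (hp : p ∈ U) (hq : q ∈ U) :
    ∃ (h h' : M → M), (∀ x, h' (h x) = x) ∧ (∀ x, h (h' x) = x) ∧ (∀ x, LD n h x) ∧
      (∀ x, LD n h' x) ∧ h p = q ∧ (∀ y, y ∉ U → h y = y) ∧
      ∃ S : Set M, IsCompact S ∧ S ⊆ U ∧ ∀ y, y ∉ S → h y = y := by
  obtain ⟨D, S, hS, hSU, h1, h2⟩ := Pool.Agent.H718R2.G.exists_move (n := n) hU hc hp hq
  refine ⟨D, D.symm, fun x => D.symm_apply_apply x, fun x => D.apply_symm_apply x,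
    fun x => D.isLocalDiffeomorph x, fun x => D.symm.isLocalDiffeomorph x, h1,
    fun y hy => h2 y fun h => hy (hSU h), S, hS, hSU, fun y hy => h2 y hy⟩

variable {m : ℕ}

theorem pole_den (y : Sn (m + 1)) (hy : y ≠ ng (tS 0)) : 1 + (y : E (m + 1 + 1)) 0 ≠ 0 := by
  intro h
  apply hy
  have h1 : (ng y : E (m + 1 + 1)) 0 = 1 := by
    rw [ng_zero]
    linarith
  have h2 : 1 + (ng y : E (m + 1 + 1)) 0 ≠ 0 := by
    rw [h1]
    norm_num
  have h3 := sS_norm h2
  have h4 : sS (ng y : E (m + 1 + 1)) = 0 := by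
    rw [h1] at h3
    norm_num at h3
    exact h3
  rw [← ng_ng y, ← tS_sS h2, h4]

theorem tS_ne_pole (z : E (m + 1)) : tS z ≠ ng (tS 0) := by
  intro h
  have h1 := tS_den z
  rw [h, ng_zero] at h1
  apply h1
  have h2 : 0 < (tS (0 : E (m + 1)) : E (m + 1 + 1)) 0 := (tS_pos _).2 (by simp)
  have h3 : ((tS (0 : E (m + 1)) : E (m + 1 + 1)) 0) = 1 := by
    show (tc (0 : E (m + 1))) 0 = 1
    simp [tc]
  rw [h3]
  norm_num

theorem ngtS_LD (z : E (m + 1)) : LD (m + 1) (fun z : E (m + 1) => ng (tS z)) z :=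
  LD.comp_fun (g := ng) (ng_LD _) (tS_LD z)

theorem sph_conn : IsPreconnected (univ : Set (Sn (m + 1))) := by
  have h1 : IsPreconnected (sphere (0 : E (m + 1 + 1)) 1) := by
    refine isPreconnected_sphere ?_ 0 1
    rw [← finrank_eq_rank, finrank_euclideanSpace_fin]
    norm_cast
    omega
  have h2 : PreconnectedSpace (sphere (0 : E (m + 1 + 1)) 1) :=
    isPreconnected_iff_preconnectedSpace.1 h1
  exact isPreconnected_univ

theorem up_of {y : Sn (m + 1)} (hy : 0 < (y : E (m + 1 + 1)) 0) : y ∈ tS '' ball (0 : E (m + 1)) 1 := by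
  have h2 : 1 + (y : E (m + 1 + 1)) 0 ≠ 0 := by positivity
  refine ⟨sS (y : E (m + 1 + 1)), ?_, tS_sS h2⟩
  rw [mem_ball_zero_iff, ← tS_pos, tS_sS h2]
  exact hy

/-- **Extension to the outside.** -/
theorem outer_ext (hm : 2 ≤ m) {G : E (m + 1) → E (m + 1)} (hGc : ContinuousOn G (ball 0 2))
    (hGi : InjOn G (ball 0 2)) (hGd : ∀ z : E (m + 1), z ≠ 0 → ‖z‖ < 2 → LD (m + 1) G z) :
    ∃ (κ κ' D : E (m + 1) → E (m + 1)), (∀ z, κ' (κ z) = z) ∧ (∀ z, κ (κ' z) = z) ∧
      Continuous κ ∧ Continuous κ' ∧ (∀ z, z ≠ 0 → LD (m + 1) κ z) ∧ LD (m + 1) D (κ 0) ∧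
      ∀ᶠ w in 𝓝 (κ 0), G (κ' w) = D w := by
  classical
  obtain ⟨s, hs⟩ : ∃ s : Sn (m + 1) → E (m + 1), s = fun y => sS (ng y : E (m + 1 + 1)) := ⟨_, rfl⟩
  have hs1 : ∀ z, s (ng (tS z)) = z := fun z => by
    rw [hs]
    show sS (ng (ng (tS z)) : E (m + 1 + 1)) = z
    rw [ng_ng, sS_tS]
  have hs2 : ∀ y : Sn (m + 1), y ≠ tS 0 → ng (tS (s y)) = y := by
    intro y hy
    rw [hs]
    show ng (tS (sS (ng y : E (m + 1 + 1)))) = y
    rw [tS_sS (pole_den _ fun h => hy (ng_inj h)), ng_ng]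
  have hsd : ∀ y : Sn (m + 1), y ≠ tS 0 → LD (m + 1) s y := by
    intro y hy
    rw [hs]
    exact LD.comp_fun (g := fun y : Sn (m + 1) => sS (y : E (m + 1 + 1)))
      (sS_LD (pole_den _ fun h => hy (ng_inj h))) (ng_LD y)
  have hne : ∀ z : E (m + 1), ng (tS z) ≠ tS 0 := by
    intro z h
    apply tS_ne_pole z
    rw [← h, ng_ng]
  obtain ⟨h, hh⟩ : ∃ h : Sn (m + 1) → Sn (m + 1), h = fun y => tS (G (s y)) := ⟨_, rfl⟩
  have hh1 : ∀ z, h (ng (tS z)) = tS (G z) := fun z => by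
    rw [hh]
    show tS (G (s (ng (tS z)))) = _
    rw [hs1]
  have hhd : ∀ z : E (m + 1), z ≠ 0 → ‖z‖ < 2 → LD (m + 1) h (ng (tS z)) := by
    intro z h0 h2
    rw [hh]
    refine LD.comp_fun (g := fun v => tS (G v)) ?_ (hsd _ (hne z))
    rw [hs1]
    exact LD.comp_fun (g := tS) (tS_LD _) (hGd z h0 h2)
  have hhc : ∀ z : E (m + 1), ‖z‖ < 2 → ContinuousAt h (ng (tS z)) := by
    intro z h2
    rw [hh]
    have h3 : ContinuousAt G z := hGc.continuousAt (isOpen_ball.mem_nhds (mem_ball_zero_iff.2 h2))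
    have h4 : ContinuousAt (fun v => tS (G v)) z :=
      ContinuousAt.comp (g := tS) (tS_LD _).continuousAt h3
    refine ContinuousAt.comp (g := fun v => tS (G v)) ?_ (hsd _ (hne z)).continuousAt
    rw [hs1]
    exact h4
  -- the cell whose complement is the image of the center
  obtain ⟨R, R', hR1, hR2, hRd, hRd', hRp, -, -⟩ := move (n := m + 1) (M := Sn (m + 1)) isOpen_univ
    sph_conn (mem_univ (ng (tS 0))) (mem_univ (tS (G 0)))
  have hRi : Injective R := fun a b hab => by rw [← hR1 a, hab, hR1]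
  have hrange : ∀ y : Sn (m + 1), y ≠ tS (G 0) → y ∈ range fun z => R (tS z) := by
    intro y hy
    refine ⟨sS (R' y : E (m + 1 + 1)), ?_⟩
    show R (tS (sS (R' y : E (m + 1 + 1)))) = y
    rw [tS_sS (pole_den _ fun h => hy ?_), hR2]
    rw [← hR2 y, h, hRp]
  have hlow : ∀ x : Sn (m + 1), x ∉ tS '' ball (0 : E (m + 1)) 1 →
      ∃ z : E (m + 1), ‖z‖ ≤ 1 ∧ ng (tS z) = x := by
    intro x hx
    have h1 : (x : E (m + 1 + 1)) 0 ≤ 0 := by
      by_contra hcon
      exact hx (up_of (not_le.1 hcon))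
    have h2 : x ≠ tS 0 := by
      rintro rfl
      exact hx ⟨0, by simp, rfl⟩
    refine ⟨s x, ?_, hs2 x h2⟩
    rw [← ngtS_le, hs2 x h2]
    exact h1
  have HF : Fill (m := m) h (tS : E (m + 1) → Sn (m + 1)) (fun z => R (tS z))
      ((fun z => ng (tS z)) '' ball 0 2) :=
    { ci := tS_inj
      cd := tS_LD
      di := fun a b hab => tS_inj (hRi hab)
      dd := fun z => LD.comp_fun (g := R) (hRd _) (tS_LD z)
      uo := by
        rw [isOpen_iff_mem_nhds]
        rintro _ ⟨x, hx, rfl⟩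
        exact (ngtS_LD x).image_mem_nhds (isOpen_ball.mem_nhds hx)
      hU := fun x hx => by
        obtain ⟨z, hz, rfl⟩ := hlow x hx
        exact ⟨z, mem_ball_zero_iff.2 (by linarith), rfl⟩
      hc := by
        rintro _ ⟨z, hz, rfl⟩
        exact hhc z (mem_ball_zero_iff.1 hz)
      hi := by
        rintro _ ⟨z, hz, rfl⟩ _ ⟨w, hw, rfl⟩ hzw
        simp only [hh1] at hzw
        rw [hGi hz hw (tS_inj hzw)]
      ld := fun z hz => by
        have h1 : (tS z : E (m + 1 + 1)) 0 = 0 := by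
          refine le_antisymm (not_lt.1 fun h => ?_) ((tS_nonneg z).2 hz.le)
          rw [tS_pos, hz] at h
          exact lt_irrefl _ h
        obtain ⟨w, hw, hwz⟩ := hlow (tS z) (by
          rintro ⟨w, hw, hwz⟩
          rw [tS_inj hwz, mem_ball_zero_iff, hz] at hw
          exact lt_irrefl _ hw)
        rw [← hwz]
        refine hhd w ?_ (by linarith)
        rintro rfl
        have h3 : (ng (tS (0 : E (m + 1))) : E (m + 1 + 1)) 0 < 0 := (ngtS_neg 0).2 (by simp)
        rw [hwz, h1] at h3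
        exact lt_irrefl _ h3
      im := fun z hz => by
        apply hrange
        have h1 : (tS z : E (m + 1 + 1)) 0 = 0 := by
          refine le_antisymm (not_lt.1 fun h => ?_) ((tS_nonneg z).2 hz.le)
          rw [tS_pos, hz] at h
          exact lt_irrefl _ h
        obtain ⟨w, hw, hwz⟩ := hlow (tS z) (by
          rintro ⟨w, hw, hwz⟩
          rw [tS_inj hwz, mem_ball_zero_iff, hz] at hw
          exact lt_irrefl _ hw)
        rw [← hwz, hh1]
        intro h2
        have h4 : w = 0 := hGi (mem_ball_zero_iff.2 (by linarith)) (by simp) (tS_inj h2)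
        have h3 : (ng (tS (0 : E (m + 1))) : E (m + 1 + 1)) 0 < 0 := (ngtS_neg 0).2 (by simp)
        rw [← h4, hwz, h1] at h3
        exact lt_irrefl _ h3
      cov := fun y hy => by
        have h1 : y = tS (G 0) := by
          by_contra hcon
          exact hy (hrange y hcon)
        refine ⟨ng (tS 0), ?_, by rw [hh1, h1]⟩
        rintro ⟨w, hw, hw2⟩
        exact tS_ne_pole w hw2 }
  obtain ⟨g, b, hg1, hg2, hg3, hg4⟩ := HF.fill hm
  -- moving the singular point to the pole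
  have hup : IsOpen (tS '' ball (0 : E (m + 1)) 1) := HF.bo
  have hupc : IsPreconnected (tS '' ball (0 : E (m + 1)) 1) :=
    (convex_ball (0 : E (m + 1)) 1).isPreconnected.image _ HF.cc.continuousOn
  obtain ⟨μ, μ', hμ1, hμ2, hμd, hμd', hμp, hμo, -⟩ := move (n := m + 1) (M := Sn (m + 1)) hup hupc
    (p := tS 0) ⟨0, by simp, rfl⟩ hg2
  obtain ⟨N, N', hN1, hN2, hNd, hNd', hNp, -, -⟩ := move (n := m + 1) (M := Sn (m + 1)) isOpen_univ
    sph_conn (mem_univ (g b)) (mem_univ (ng (tS 0)))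
  have hNi : Injective N := fun a b hab => by rw [← hN1 a, hab, hN1]
  have hμi : Injective μ := fun a b hab => by rw [← hμ1 a, hab, hμ1]
  obtain ⟨g', hg'⟩ : ∃ g' : Sn (m + 1) ≃ₜ Sn (m + 1), ∀ y, g' y = g y :=
    ⟨hg1.homeomorph g, fun _ => rfl⟩
  have hgi := hg1.injective
  have hgc := hg1.continuous
  -- the values
  have hv1 : ∀ z : E (m + 1), μ (ng (tS z)) ≠ b := by
    intro z h1
    rw [← hμp] at h1
    exact hne z (hμi h1)
  have hv2 : ∀ z : E (m + 1), N (g (μ (ng (tS z)))) ≠ ng (tS 0) := by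
    intro z h1
    rw [← hNp] at h1
    exact hv1 z (hgi (hNi h1))
  have hv3 : ∀ w : E (m + 1), μ' (g'.symm (N' (tS w))) ≠ tS 0 := by
    intro w h1
    have h2 : g'.symm (N' (tS w)) = b := by rw [← hμ2 (g'.symm _), h1, hμp]
    have h3 : N' (tS w) = g b := by rw [← hg' b, ← h2, g'.apply_symm_apply]
    apply tS_ne_pole w
    rw [← hN2 (tS w), h3, hNp]
  -- at the points of the closed ball
  have hlowin : ∀ z : E (m + 1), ‖z‖ ≤ 1 → ng (tS z) ∉ tS '' ball (0 : E (m + 1)) 1 := by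
    rintro z hz ⟨w, hw, hwz⟩
    have h1 := (tS_pos w).2 (mem_ball_zero_iff.1 hw)
    rw [hwz] at h1
    exact not_lt.2 ((ngtS_le z).2 hz) h1
  have hval : ∀ z : E (m + 1), ‖z‖ ≤ 1 → g (μ (ng (tS z))) = tS (G z) := by
    intro z hz
    rw [hμo _ (hlowin z hz), (hg3 _ (hlowin z hz)).self_of_nhds, hh1]
  have hgLD : ∀ z : E (m + 1), z ≠ 0 → LD (m + 1) g (μ (ng (tS z))) := by
    intro z hz0
    rcases le_or_gt ‖z‖ 1 with hz | hz
    · rw [hμo _ (hlowin z hz)]
      exact LD.congr (hhd z hz0 (by linarith)) (hg3 _ (hlowin z hz))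
    · refine hg4 _ ?_ (hv1 z)
      by_contra hcon
      have h1 : ng (tS z) ∈ tS '' ball (0 : E (m + 1)) 1 := by
        refine up_of (not_le.1 fun h => ?_)
        rw [ngtS_le] at h
        linarith
      have h2 : μ (μ (ng (tS z))) = μ (ng (tS z)) := hμo _ hcon
      rw [hμi h2] at hcon
      exact hcon h1
  refine ⟨fun z => sS (N (g (μ (ng (tS z)))) : E (m + 1 + 1)),
    fun w => s (μ' (g'.symm (N' (tS w)))), fun w => sS (N' (tS w) : E (m + 1 + 1)),
    fun z => ?_, fun w => ?_, ?_, ?_, fun z hz => ?_, ?_, ?_⟩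
  · show s (μ' (g'.symm (N' (tS (sS (N (g (μ (ng (tS z)))) : E (m + 1 + 1))))))) = z
    rw [tS_sS (pole_den _ (hv2 z)), hN1, ← hg', g'.symm_apply_apply, hμ1, hs1]
  · show sS (N (g (μ (ng (tS (s (μ' (g'.symm (N' (tS w))))))))) : E (m + 1 + 1)) = w
    rw [hs2 _ (hv3 w), hμ2, ← hg', g'.apply_symm_apply, hN2, sS_tS]
  · refine continuous_iff_continuousAt.2 fun z => ?_
    have h1 : ContinuousAt (fun z : E (m + 1) => N (g (μ (ng (tS z))))) z := by
      refine ContinuousAt.comp (g := N) (hNd _).continuousAt ?_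
      refine ContinuousAt.comp (g := g) hgc.continuousAt ?_
      exact ContinuousAt.comp (g := μ) (hμd _).continuousAt (ngtS_LD z).continuousAt
    exact ContinuousAt.comp (g := fun y : Sn (m + 1) => sS (y : E (m + 1 + 1)))
      (sS_LD (pole_den _ (hv2 z))).continuousAt h1
  · refine continuous_iff_continuousAt.2 fun w => ?_
    have h1 : ContinuousAt (fun w : E (m + 1) => μ' (g'.symm (N' (tS w)))) w := by
      refine ContinuousAt.comp (g := μ') (hμd' _).continuousAt ?_
      refine ContinuousAt.comp (g := g'.symm) g'.symm.continuous.continuousAt ?_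
      exact ContinuousAt.comp (g := N') (hNd' _).continuousAt (tS_LD w).continuousAt
    exact ContinuousAt.comp (g := s) (hsd _ (hv3 w)).continuousAt h1
  · refine LD.comp_fun (g := fun y : Sn (m + 1) => sS (y : E (m + 1 + 1)))
      (sS_LD (pole_den _ (hv2 z))) ?_
    refine LD.comp_fun (g := N) (hNd _) ?_
    refine LD.comp_fun (g := g) (hgLD z hz) ?_
    exact LD.comp_fun (g := μ) (hμd _) (ngtS_LD z)
  · refine LD.comp_fun (g := fun y : Sn (m + 1) => sS (y : E (m + 1 + 1))) (sS_LD ?_)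
      (LD.comp_fun (g := N') (hNd' _) (tS_LD _))
    show 1 + ((N' (tS (sS (N (g (μ (ng (tS 0)))) : E (m + 1 + 1))))) : E (m + 1 + 1)) 0 ≠ 0
    rw [tS_sS (pole_den _ (hv2 0)), hN1, hval 0 (by simp)]
    exact tS_den _
  · -- the germ
    have h1 : ContinuousAt (fun w : E (m + 1) => s (μ' (g'.symm (N' (tS w)))))
        (sS (N (g (μ (ng (tS 0)))) : E (m + 1 + 1))) := by
      have h2 : ContinuousAt (fun w : E (m + 1) => μ' (g'.symm (N' (tS w))))
          (sS (N (g (μ (ng (tS 0)))) : E (m + 1 + 1))) := by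
        refine ContinuousAt.comp (g := μ') (hμd' _).continuousAt ?_
        refine ContinuousAt.comp (g := g'.symm) g'.symm.continuous.continuousAt ?_
        exact ContinuousAt.comp (g := N') (hNd' _).continuousAt (tS_LD _).continuousAt
      exact ContinuousAt.comp (g := s) (hsd _ (hv3 _)).continuousAt h2
    have h3 : s (μ' (g'.symm (N' (tS (sS (N (g (μ (ng (tS 0)))) : E (m + 1 + 1))))))) = 0 := by
      rw [tS_sS (pole_den _ (hv2 0)), hN1, ← hg', g'.symm_apply_apply, hμ1, hs1]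
    have h4 : ∀ᶠ w in 𝓝 (sS (N (g (μ (ng (tS 0)))) : E (m + 1 + 1))),
        ‖s (μ' (g'.symm (N' (tS w))))‖ < 1 := by
      have h5 : Tendsto (fun w : E (m + 1) => s (μ' (g'.symm (N' (tS w)))))
          (𝓝 (sS (N (g (μ (ng (tS 0)))) : E (m + 1 + 1)))) (𝓝 0) := by
        have := h1.tendsto
        rwa [h3] at this
      have h6 := h5.norm
      rw [norm_zero] at h6
      exact h6.eventually (gt_mem_nhds one_pos)
    filter_upwards [h4] with w hw
    show G (s (μ' (g'.symm (N' (tS w))))) = sS (N' (tS w) : E (m + 1 + 1))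
    have h5 := hval _ hw.le
    rw [hs2 _ (hv3 w), hμ2, ← hg', g'.apply_symm_apply] at h5
    have h6 := congrArg (fun y : Sn (m + 1) => sS (y : E (m + 1 + 1))) h5
    simp only [sS_tS] at h6
    exact h6.symm

end Pool.Agent.H816.Ph
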