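import Pool.Agent.H816.Ph10

/-!
# Open subsets which are cells off finitely many points are cells
-/

set_option autoImplicit false
set_option linter.unusedSectionVars false

open Set Filter Topology Metric Function MeasureTheory Module
open scoped Manifold ContDiff NNReal

noncomputable section

namespace Pool.Agent.H816.Ph

open Pool.Agent.Y522 Pool.Agent.Y784.SH Pool.Agent.H816

variable {m : ℕ}

theorem LD_aff' {n : ℕ} (p : E n) {c : ℝ} (hc : c ≠ 0) (z : E n) :
    LD n (fun w => c • w + p) z :=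
  LD.comp_fun (g := fun y : E n => y + p) (f := fun w => c • w) (LD_add_const p _)
    (LD_linear (ContinuousLinearEquiv.smulLeft (Units.mk0 _ hc)) _)

/-- removing one singular point of an open cell -/
theorem remove_one (hm : 2 ≤ m) {Y : Type} [TopologicalSpace Y] [T2Space Y]
    [ChartedSpace (E (m + 1)) Y] [IsManifold (𝓡 (m + 1)) ∞ Y] {h : E (m + 1) → Y}
    (hc : Continuous h) (hi : Injective h) {q : E (m + 1)}
    (hq : ∀ᶠ z in 𝓝[≠] q, LD (m + 1) h z) :
    ∃ (h' : E (m + 1) → Y) (κ : E (m + 1) → E (m + 1)), Continuous h' ∧ Injective h' ∧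
      range h' = range h ∧ {z | ¬ LD (m + 1) h' z} ⊆ κ '' ({z | ¬ LD (m + 1) h z} \ {q}) := by
  obtain ⟨d, hd0, hdi, hdd, -⟩ := cell_exists (n := m + 1) (x := h q) (W := univ) univ_mem
  have hdr : IsOpen (range d) := by
    rw [isOpen_iff_mem_nhds]
    rintro _ ⟨x, rfl⟩
    have := (hdd x).image_mem_nhds (univ_mem)
    rwa [image_univ] at this
  have hev : ∀ᶠ z in 𝓝 q, h z ∈ range d ∧ (z ≠ q → LD (m + 1) h z) := by
    refine Filter.Eventually.and ?_ (eventually_nhdsWithin_iff.1 hq)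
    exact hc.continuousAt.eventually (hdr.mem_nhds ⟨0, hd0⟩)
  obtain ⟨r, hr, h1⟩ := Metric.eventually_nhds_iff_ball.1 hev
  obtain ⟨ρ, hρ, hρr⟩ : ∃ ρ : ℝ, 0 < ρ ∧ 2 * ρ ≤ r := ⟨r / 2, by positivity, by linarith⟩
  obtain ⟨c, hcd⟩ : ∃ c : E (m + 1) → E (m + 1), c = fun w => ρ • w + q := ⟨_, rfl⟩
  obtain ⟨c', hcd'⟩ : ∃ c' : E (m + 1) → E (m + 1), c' = fun w => ρ⁻¹ • (w - q) := ⟨_, rfl⟩
  have hc1 : ∀ w, c' (c w) = w := fun w => by
    rw [hcd, hcd']
    simp only [add_sub_cancel_right]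
    rw [smul_smul, inv_mul_cancel₀ hρ.ne', one_smul]
  have hc2 : ∀ w, c (c' w) = w := fun w => by
    rw [hcd, hcd']
    simp only
    rw [smul_smul, mul_inv_cancel₀ hρ.ne', one_smul, sub_add_cancel]
  have hcLD : ∀ w, LD (m + 1) c w := fun w => by
    rw [hcd]
    exact LD_aff' q hρ.ne' w
  have hcc : Continuous c := continuous_iff_continuousAt.2 fun x => (hcLD x).continuousAt
  have hcb : ∀ w : E (m + 1), ‖w‖ < 2 → c w ∈ ball q r := by
    intro w hw
    rw [mem_ball, dist_eq_norm, hcd]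
    simp only [add_sub_cancel_right]
    rw [norm_smul, Real.norm_eq_abs, abs_of_pos hρ]
    nlinarith
  have hc0 : c 0 = q := by
    rw [hcd]
    simp
  have hinv : ∀ x, invFun d (d x) = x := leftInverse_invFun hdi
  have hinv' : ∀ y ∈ range d, d (invFun d y) = y := fun y hy => invFun_eq hy
  have hinvd : ∀ y ∈ range d, LD (m + 1) (invFun d) y := by
    rintro _ ⟨x, rfl⟩
    exact LD.inverse (k := d) (U := univ) isOpen_univ (fun y _ => hdd y)
      (g := invFun d) (fun y _ => hinv y) (mem_univ x)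
  obtain ⟨G, hG⟩ : ∃ G : E (m + 1) → E (m + 1), G = fun z => invFun d (h (c z)) := ⟨_, rfl⟩
  have hdG : ∀ z : E (m + 1), ‖z‖ < 2 → d (G z) = h (c z) := fun z hz => by
    rw [hG]
    exact hinv' _ (h1 _ (hcb z hz)).1
  have hGc : ContinuousOn G (ball 0 2) := by
    intro z hz
    rw [hG]
    refine ContinuousAt.continuousWithinAt ?_
    have hz2 := h1 _ (hcb z (mem_ball_zero_iff.1 hz))
    exact ContinuousAt.comp (g := invFun d) (hinvd _ hz2.1).continuousAt
      (hc.comp hcc).continuousAt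
  have hGi : InjOn G (ball 0 2) := by
    intro z hz w hw hzw
    have h2 := hdG z (mem_ball_zero_iff.1 hz)
    rw [hzw, hdG w (mem_ball_zero_iff.1 hw)] at h2
    rw [← hc1 z, ← hi h2, hc1]
  have hGd : ∀ z : E (m + 1), z ≠ 0 → ‖z‖ < 2 → LD (m + 1) G z := by
    intro z hz0 hz
    rw [hG]
    have hz2 := h1 _ (hcb z hz)
    have hzq : c z ≠ q := fun h => hz0 (by rw [← hc1 z, h, ← hc0, hc1])
    exact LD.comp_fun (g := invFun d) (hinvd _ hz2.1) (LD.comp_fun (g := h) (hz2.2 hzq) (hcLD z))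
  obtain ⟨κ, κ', D, e1, e2, e3, e4, e5, e6, e7⟩ := outer_ext hm hGc hGi hGd
  have hκ' : ∀ z : E (m + 1), z ≠ 0 → LD (m + 1) κ' (κ z) := fun z hz =>
    LD.inverse (k := κ) (U := {0}ᶜ) isOpen_compl_singleton (fun y hy => e5 y hy)
      (g := κ') (fun y _ => e1 y) hz
  refine ⟨fun w => h (c (κ' w)), fun z => κ (c' z), hc.comp (hcc.comp e4), ?_, ?_, ?_⟩
  · intro a b hab
    have h2 : c (κ' a) = c (κ' b) := hi hab
    rw [← e2 a, ← hc1 (κ' a), h2, hc1, e2]
  · apply Subset.antisymm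
    · rintro _ ⟨w, rfl⟩
      exact ⟨_, rfl⟩
    · rintro _ ⟨z, rfl⟩
      refine ⟨κ (c' z), ?_⟩
      show h (c (κ' (κ (c' z)))) = h z
      rw [e1, hc2]
  · intro w hw
    have hw' : ¬ LD (m + 1) (fun w => h (c (κ' w))) w := hw
    obtain ⟨z, rfl⟩ : ∃ z, κ z = w := ⟨κ' w, e2 w⟩
    by_cases hz : z = 0
    · exfalso
      subst hz
      apply hw'
      have h2 : LD (m + 1) (fun w => d (D w)) (κ 0) := LD.comp_fun (g := d) (hdd _) e6
      refine LD.congr h2 ?_
      have h3 : ∀ᶠ w in 𝓝 (κ 0), ‖κ' w‖ < 2 := by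
        have h4 : Tendsto κ' (𝓝 (κ 0)) (𝓝 0) := by
          have := e4.tendsto (κ 0)
          rwa [e1] at this
        have h5 := h4.norm
        rw [norm_zero] at h5
        exact h5.eventually (gt_mem_nhds two_pos)
      filter_upwards [e7, h3] with w h4 h5
      rw [← hdG _ h5, h4]
    · refine ⟨c z, ⟨fun h2 => hw' ?_, ?_⟩, ?_⟩
      · refine LD.comp_fun (g := fun v => h (c v)) ?_ (hκ' z hz)
        rw [e1]
        exact LD.comp_fun (g := h) h2 (hcLD z)
      · intro h2
        rw [mem_singleton_iff] at h2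
        exact hz (by rw [← hc1 z, h2, ← hc0, hc1])
      · show κ (c' (c z)) = κ z
        rw [hc1]

/-- **Images of cells.** -/
theorem cell_image (hm : 2 ≤ m) {Y : Type} [TopologicalSpace Y] [T2Space Y]
    [ChartedSpace (E (m + 1)) Y] [IsManifold (𝓡 (m + 1)) ∞ Y] (k : ℕ) :
    ∀ h : E (m + 1) → Y, Continuous h → Injective h → {z | ¬ LD (m + 1) h z}.Finite →
      {z | ¬ LD (m + 1) h z}.ncard ≤ k →
      ∃ d : E (m + 1) → Y, Injective d ∧ (∀ z, LD (m + 1) d z) ∧ range d = range h := by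
  induction k with
  | zero =>
    intro h hc hi hf hk
    refine ⟨h, hi, fun z => ?_, rfl⟩
    by_contra hz
    have h1 : {z | ¬ LD (m + 1) h z} = ∅ := by
      rw [← Set.ncard_eq_zero hf]
      omega
    have h2 : z ∈ {z | ¬ LD (m + 1) h z} := hz
    rw [h1] at h2
    exact h2
  | succ k ih =>
    intro h hc hi hf hk
    by_cases hne : {z | ¬ LD (m + 1) h z}.Nonempty
    · obtain ⟨q, hq⟩ := hne
      have h1 : ∀ᶠ z in 𝓝[≠] q, LD (m + 1) h z := by
        have h2 : IsClosed ({z | ¬ LD (m + 1) h z} \ {q}) := (hf.subset sdiff_subset).isClosed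
        have h3 : q ∉ {z | ¬ LD (m + 1) h z} \ {q} := fun h => h.2 rfl
        rw [eventually_nhdsWithin_iff]
        filter_upwards [h2.isOpen_compl.mem_nhds h3] with y hy hyx
        by_contra hcon
        exact hy ⟨hcon, hyx⟩
      obtain ⟨h', κ, g1, g2, g3, g4⟩ := remove_one hm hc hi h1
      have hfin : ({z | ¬ LD (m + 1) h z} \ {q}).Finite := hf.subset sdiff_subset
      obtain ⟨d, d1, d2, d3⟩ := ih h' g1 g2 ((hfin.image κ).subset g4) (by
        refine (Set.ncard_le_ncard g4 (hfin.image κ)).trans ((Set.ncard_image_le hfin).trans ?_)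
        rw [Set.ncard_diff_singleton_of_mem hq]
        omega)
      exact ⟨d, d1, d2, d3.trans g3⟩
    · refine ih h hc hi hf ?_
      rw [not_nonempty_iff_eq_empty] at hne
      rw [hne, Set.ncard_empty]
      omega

/-- **Finite sets are contained in cells.** -/
theorem cell_of_finite {n : ℕ} {X : Type} [TopologicalSpace X] [T2Space X]
    [ConnectedSpace X] [ChartedSpace (E n) X] [IsManifold (𝓡 n) ∞ X] {P : Set X} (hP : P.Finite) :
    ∃ c : E n → X, Injective c ∧ (∀ z, LD n c z) ∧ P ⊆ range c := by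
  induction P, hP using Set.Finite.induction_on with
  | empty =>
    obtain ⟨x⟩ : Nonempty X := inferInstance
    obtain ⟨c, -, h1, h2, -⟩ := cell_exists (n := n) (x := x) (W := univ) univ_mem
    exact ⟨c, h1, h2, empty_subset _⟩
  | @insert x P hx hP ih =>
    obtain ⟨S, hS⟩ : ∃ S : Set X, S = {x | ∃ c : E n → X, Injective c ∧ (∀ z, LD n c z) ∧
      P ⊆ range c ∧ x ∈ range c} := ⟨_, rfl⟩
    have hop : ∀ c : E n → X, (∀ z, LD n c z) → IsOpen (range c) := by
      intro c hc
      rw [isOpen_iff_mem_nhds]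
      rintro _ ⟨z, rfl⟩
      have := (hc z).image_mem_nhds univ_mem
      rwa [image_univ] at this
    have hSo : IsOpen S := by
      rw [hS, isOpen_iff_mem_nhds]
      rintro y ⟨c, h1, h2, h3, h4⟩
      filter_upwards [(hop c h2).mem_nhds h4] with y hy using ⟨c, h1, h2, h3, hy⟩
    have hSn : S.Nonempty := by
      obtain ⟨c, h1, h2, h3⟩ := ih
      exact ⟨c 0, by rw [hS]; exact ⟨c, h1, h2, h3, ⟨0, rfl⟩⟩⟩
    have hSc : IsClosed S := by
      rw [← closure_subset_iff_isClosed]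
      intro y hy
      by_cases hyP : y ∈ P
      · obtain ⟨c, h1, h2, h3⟩ := ih
        rw [hS]
        exact ⟨c, h1, h2, h3, h3 hyP⟩
      · obtain ⟨e, e0, e1, e2, e3⟩ := cell_exists (n := n) (x := y) (W := Pᶜ)
          (hP.isClosed.isOpen_compl.mem_nhds hyP)
        have he : IsOpen (range e) := hop e e2
        obtain ⟨y', hy'1, hy'2⟩ := mem_closure_iff.1 hy _ he ⟨0, e0⟩
        rw [hS] at hy'2
        obtain ⟨c, h1, h2, h3, h4⟩ := hy'2
        have hec : IsPreconnected (range e) := by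
          rw [← image_univ]
          exact isPreconnected_univ.image _ (continuous_iff_continuousAt.2 fun z =>
            (e2 z).continuousAt).continuousOn
        obtain ⟨μ, μ', m1, m2, m3, m4, m5, m6, -⟩ := move (n := n) he hec hy'1 ⟨0, e0⟩
        rw [hS]
        refine ⟨fun z => μ (c z), fun a b hab => h1 ?_, fun z => LD.comp_fun (m3 _) (h2 z), ?_, ?_⟩
        · have h5 : μ (c a) = μ (c b) := hab
          rw [← m1 (c a), h5, m1]
        · intro p hp
          obtain ⟨z, hz⟩ := h3 hp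
          refine ⟨z, ?_⟩
          show μ (c z) = p
          rw [hz]
          refine m6 p ?_
          rintro ⟨v, hv⟩
          exact e3 v (by rw [hv]; exact hp)
        · obtain ⟨z, hz⟩ := h4
          refine ⟨z, ?_⟩
          show μ (c z) = y
          rw [hz, m5]
    have huniv : S = univ := IsClopen.eq_univ ⟨hSc, hSo⟩ hSn
    have hxS : x ∈ S := by
      rw [huniv]
      exact mem_univ x
    rw [hS] at hxS
    obtain ⟨c, h1, h2, h3, h4⟩ := hxS
    exact ⟨c, h1, h2, insert_subset h4 h3⟩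

/-- **One singular point.** -/
theorem merge (hm : 2 ≤ m) {X Y : Type} [TopologicalSpace X] [T2Space X] [CompactSpace X]
    [ConnectedSpace X] [ChartedSpace (E (m + 1)) X] [IsManifold (𝓡 (m + 1)) ∞ X]
    [TopologicalSpace Y] [T2Space Y] [CompactSpace Y] [ChartedSpace (E (m + 1)) Y]
    [IsManifold (𝓡 (m + 1)) ∞ Y] {f : X → Y} (hf : IsHomeomorph f)
    (hfin : {x | ¬ LD (m + 1) f x}.Finite) :
    ∃ (g : X → Y) (b : X), IsHomeomorph g ∧ ∀ x, x ≠ b → LD (m + 1) g x := by
  obtain ⟨A, hA1, hA2, hA3⟩ := cell_of_finite (n := m + 1) hfin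
  -- a ball which contains the singular points
  have hb : Bornology.IsBounded (A ⁻¹' {x | ¬ LD (m + 1) f x}) :=
    (hfin.preimage hA1.injOn).isBounded
  obtain ⟨r, hr0, hr⟩ := hb.exists_pos_norm_lt
  obtain ⟨c, hc⟩ : ∃ c : E (m + 1) → X, c = fun z => A (r • z + 0) := ⟨_, rfl⟩
  have hci : Injective c := fun a b hab => by
    rw [hc] at hab
    have h1 := hA1 hab
    rw [add_zero, add_zero] at h1
    have h2 := congrArg (fun z => r⁻¹ • z) h1
    simpa [smul_smul, inv_mul_cancel₀ hr0.ne'] using h2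
  have hcd : ∀ z, LD (m + 1) c z := fun z => by
    rw [hc]
    exact LD.comp_fun (g := A) (hA2 _) (LD_aff' 0 hr0.ne' z)
  have hcP : ∀ x, ¬ LD (m + 1) f x → x ∈ c '' ball 0 1 := by
    intro x hx
    obtain ⟨z, hz⟩ := hA3 hx
    have h1 : ‖z‖ < r := hr z (by
      show A z ∈ {x | ¬ LD (m + 1) f x}
      rw [hz]
      exact hx)
    refine ⟨r⁻¹ • z, ?_, ?_⟩
    · rw [mem_ball_zero_iff, norm_smul, norm_inv, Real.norm_eq_abs, abs_of_pos hr0,
        inv_mul_lt_iff₀ hr0, mul_one]
      exact h1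
    · rw [hc]
      show A (r • r⁻¹ • z + 0) = x
      rw [smul_smul, mul_inv_cancel₀ hr0.ne', one_smul, add_zero, hz]
  have hcc : Continuous c := continuous_iff_continuousAt.2 fun x => (hcd x).continuousAt
  have hsub : {z | ¬ LD (m + 1) (fun z => f (c z)) z} ⊆ c ⁻¹' {x | ¬ LD (m + 1) f x} := by
    intro z hz h1
    exact hz (LD.comp_fun (g := f) h1 (hcd z))
  obtain ⟨d, hd1, hd2, hd3⟩ := cell_image hm _ (fun z => f (c z)) (hf.continuous.comp hcc)
    (hf.injective.comp hci) ((hfin.preimage hci.injOn).subset hsub) le_rfl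
  have HF : Fill (m := m) f c d univ :=
    { ci := hci
      cd := hcd
      di := hd1
      dd := hd2
      uo := isOpen_univ
      hU := fun x _ => mem_univ x
      hc := fun x _ => hf.continuous.continuousAt
      hi := hf.injective.injOn
      ld := fun z hz => by
        by_contra h1
        obtain ⟨w, hw, hwz⟩ := hcP _ h1
        rw [hci hwz, mem_ball_zero_iff, hz] at hw
        exact lt_irrefl _ hw
      im := fun z _ => by
        rw [hd3]
        exact ⟨z, rfl⟩
      cov := fun y hy => by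
        obtain ⟨x, rfl⟩ := hf.surjective y
        refine ⟨x, ?_, rfl⟩
        rintro ⟨z, -, rfl⟩
        rw [hd3] at hy
        exact hy ⟨z, rfl⟩ }
  obtain ⟨g, b, g1, g2, g3, g4⟩ := HF.fill hm
  refine ⟨g, b, g1, fun x hx => ?_⟩
  by_cases h1 : x ∈ c '' ball 0 1
  · exact g4 x h1 hx
  · refine LD.congr ?_ (g3 x h1)
    by_contra h2
    exact h1 (hcP x h2)

end Pool.Agent.H816.Ph
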