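import Pool.Agent.H816.Ph9
import Pool.Agent.H816.Ph11
import Pool.Graph.R_seed8.Y496.SH.Mono
import Pool.Graph.R_seed8.Y784.SH.Ext
import Pool.Graph.R_seed8.Y248.SH.Germ

/-!
# Open cells are rigid in the class `W^{2,n-1}`
-/

set_option autoImplicit false
set_option linter.unusedSectionVars false

open Set Filter Topology Metric Function MeasureTheory Module
open scoped Manifold ContDiff NNReal

noncomputable section

namespace Pool.Agent.H816.Ph

open Pool.Agent.Y522 Pool.Agent.Q169.AA Pool.Agent.H816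
open Pool.Agent.Q130.CM Pool.Agent.Y170.NA

variable {m : ℕ}

/-- compact subsets are contained in smooth cells -/
theorem eng_of_good (hm : 2 ≤ m) {Y : Type} [TopologicalSpace Y] [T2Space Y]
    [ChartedSpace (E (m + 1)) Y] [IsManifold (𝓡 (m + 1)) ∞ Y] {f : E (m + 1) → Y}
    (hf : IsHomeomorph f)
    (hgd : ∀ x : E (m + 1), ∃ (A : E (m + 1) → E (m + 1)) (ρ : ℝ), A 0 = x ∧
      Gd (n := m + 1) f A ρ) : Eng (m + 1) Y := by
  intro K hK
  obtain ⟨F, hF⟩ : ∃ F : E (m + 1) ≃ₜ Y, ∀ x, F x = f x := ⟨hf.homeomorph f, fun _ => rfl⟩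
  obtain ⟨r, hr0, hr⟩ : ∃ r : ℝ, 0 < r ∧ ∀ y ∈ K, ‖F.symm y‖ < r := by
    have h1 : Bornology.IsBounded (F.symm '' K) := (hK.image F.symm.continuous).isBounded
    obtain ⟨r, hr0, hr⟩ := h1.exists_pos_norm_lt
    exact ⟨r, hr0, fun y hy => hr _ ⟨y, hy, rfl⟩⟩
  have hO : IsOpen {z : E (m + 1) × Y | ‖F.symm z.2 - z.1‖ < 1} :=
    isOpen_lt (((F.symm.continuous.comp continuous_snd).sub continuous_fst).norm) continuous_const
  obtain ⟨R, P, g, H, -, hR, hgO⟩ := exists_metric hm hf (isCompact_closedBall (0 : E (m + 1)) (r + 1))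
    (V0 := univ) isOpen_univ (subset_univ _) (fun x _ => hgd x) hO (fun x => by
      show ‖F.symm (f x) - x‖ < 1
      rw [← hF, F.symm_apply_apply, sub_self, norm_zero]
      exact one_pos)
  -- the restriction to the open ball
  obtain ⟨Gh, hGh⟩ : ∃ Gh : E (m + 1) ≃ₜ Y, ∀ x, Gh x = g x := ⟨H.homeo.homeomorph g, fun _ => rfl⟩
  obtain ⟨U, hU⟩ : ∃ U : TopologicalSpace.Opens (E (m + 1)), ∀ x, x ∈ U ↔ ‖x‖ < r + 1 :=
    ⟨⟨ball 0 (r + 1), isOpen_ball⟩, fun x => mem_ball_zero_iff⟩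
  obtain ⟨W, hW⟩ : ∃ W : TopologicalSpace.Opens Y, ∀ y, y ∈ W ↔ Gh.symm y ∈ U :=
    ⟨⟨Gh.symm ⁻¹' U, U.2.preimage Gh.symm.continuous⟩, fun y => Iff.rfl⟩
  have hfW : ∀ x, x ∈ U ↔ Gh x ∈ W := fun x => by rw [hW, Gh.symm_apply_apply]
  let g0 : U ≃ₜ W := Gh.subtype hfW
  have hg0 : ∀ u : U, ((g0 u : W) : Y) = g u := fun u => hGh u
  have : LocallyCompactSpace U := ChartedSpace.locallyCompactSpace (E (m + 1)) U
  obtain ⟨g1, h1, -, h2, -⟩ := smooth_off (m := m) g0 (P := (Subtype.val : U → E (m + 1)) ⁻¹' P)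
    (V := univ) (O := univ) (H.pf.isClosed.preimage continuous_subtype_val) isOpen_univ
    (fun u hu _ => ⟨mem_univ _, AAM_sub U W g0 g hg0 g0.continuous u
      ((H.ar _ (mem_of_mem_nhds (hR u (mem_closedBall_zero_iff.2 ((hU u).1 u.2).le))) hu).to_AAM
        (hR u (mem_closedBall_zero_iff.2 ((hU u).1 u.2).le)))⟩)
    (fun p hp => by
      have h1 := H.pl p hp
      have h2 : Tendsto (Subtype.val : U → E (m + 1)) (𝓝[≠] p) (𝓝[≠] (p : E (m + 1))) := by
        refine tendsto_nhdsWithin_iff.2 ⟨continuous_subtype_val.continuousAt.mono_left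
          nhdsWithin_le_nhds, ?_⟩
        filter_upwards [self_mem_nhdsWithin] with u hu h
        exact hu (Subtype.ext h)
      filter_upwards [h2.eventually h1] with u hu
      exact LD_sub' U W g0 g hg0 g0.continuous u hu)
    isOpen_univ (fun _ => mem_univ _)
  -- the parametrization of the ball
  obtain ⟨e, he1, he2, he3, he4⟩ : ∃ e : E (m + 1) → U, Continuous e ∧ Injective e ∧
      (∀ z, LD (m + 1) e z) ∧ Surjective e := by
    have hr1 : 0 < r + 1 := by linarith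
    obtain ⟨B, hB⟩ : ∃ B, B = OpenPartialHomeomorph.univBall (0 : E (m + 1)) (r + 1) := ⟨_, rfl⟩
    have hsrc : B.source = univ := by rw [hB]; exact OpenPartialHomeomorph.univBall_source _ _
    have htgt : B.target = ball 0 (r + 1) := by
      rw [hB]; exact OpenPartialHomeomorph.univBall_target _ hr1
    have hBL : ∀ x, LD (m + 1) B x := fun x => by
      rw [hB]
      exact Pool.Agent.Y496.SH.LD_univBall hr1 x
    have hBm : ∀ x, B x ∈ U := fun x => by
      rw [hU, ← mem_ball_zero_iff, ← htgt]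
      exact B.map_source (by rw [hsrc]; exact mem_univ _)
    have hBc : Continuous B := continuous_iff_continuousAt.2 fun x => (hBL x).continuousAt
    have hec : Continuous (fun x => (⟨B x, hBm x⟩ : U)) := hBc.subtype_mk _
    refine ⟨fun x => ⟨B x, hBm x⟩, hec, ?_, ?_, ?_⟩
    · intro x y hxy
      exact B.injOn (by rw [hsrc]; exact mem_univ _) (by rw [hsrc]; exact mem_univ _)
        (congrArg Subtype.val hxy)
    · intro z
      obtain ⟨p, hp1, hp2, hp3, hp4⟩ := (LD_val (n := m + 1) U ⟨B z, hBm z⟩).exists_inverse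
      have h1 : LD (m + 1) (fun x => p (B x)) z := LD.comp_fun (g := p) hp1 (hBL z)
      refine h1.congr ?_
      have h2 : ∀ᶠ v in 𝓝 z, p (((⟨B v, hBm v⟩ : U) : E (m + 1))) = ⟨B v, hBm v⟩ :=
        hec.continuousAt.eventually hp3
      filter_upwards [h2] with v hv
      exact hv.symm
    · rintro ⟨y, hy⟩
      have h1 : y ∈ B.target := by
        rw [htgt, mem_ball_zero_iff]
        exact (hU y).1 hy
      exact ⟨B.symm y, Subtype.ext (B.right_inv h1)⟩
  have hvi : Injective (Subtype.val : W → Y) := Subtype.val_injective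
  obtain ⟨d, hd1, hd2, hd3⟩ := cell_image hm _ (fun z => ((g1 (e z) : W) : Y))
    (continuous_subtype_val.comp (h1.continuous.comp he1))
    (hvi.comp (h1.injective.comp he2)) (by
      have hfin : ((fun z => ((e z : U) : E (m + 1))) ⁻¹' P).Finite :=
        H.pf.preimage (Subtype.val_injective.comp he2).injOn
      refine hfin.subset fun z hz => ?_
      by_contra hcon
      apply hz
      refine LD.comp_fun (g := (Subtype.val : W → Y)) (LD_val W _) ?_
      exact LD.comp_fun (g := g1) (h2 _ hcon) (he3 z)) le_rfl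
  refine ⟨d, hd1, hd2, fun y hy => ?_⟩
  rw [hd3]
  obtain ⟨x, rfl⟩ := H.homeo.surjective y
  have hx : x ∈ U := by
    rw [hU]
    have h3 : ‖F.symm (g x) - x‖ < 1 := hgO x
    have h4 := hr _ hy
    have h5 := norm_sub_le (F.symm (g x)) (F.symm (g x) - x)
    rw [sub_sub_cancel] at h5
    linarith
  obtain ⟨u, hu⟩ := h1.surjective (g0 ⟨x, hx⟩)
  obtain ⟨z, rfl⟩ := he4 u
  refine ⟨z, ?_⟩
  show ((g1 (e z) : W) : Y) = g x
  rw [hu, hg0]

/-- **Open cells are rigid.** -/
theorem diffeo_of_good (hm : 2 ≤ m) {Y : Type} [TopologicalSpace Y] [T2Space Y]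
    [ChartedSpace (E (m + 1)) Y] [IsManifold (𝓡 (m + 1)) ∞ Y] {f : E (m + 1) → Y}
    (hf : IsHomeomorph f)
    (hgd : ∀ x : E (m + 1), ∃ (A : E (m + 1) → E (m + 1)) (ρ : ℝ), A 0 = x ∧
      Gd (n := m + 1) f A ρ) :
    Nonempty (Diffeomorph (𝓡 (m + 1)) (𝓡 (m + 1)) Y (E (m + 1)) ∞) := by
  have hs : SigmaCompactSpace Y := by
    refine ⟨⟨fun i => f '' closedBall 0 i, fun i => (isCompact_closedBall _ _).image hf.continuous,
      ?_⟩⟩
    rw [eq_univ_iff_forall]
    intro y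
    obtain ⟨x, rfl⟩ := hf.surjective y
    obtain ⟨i, hi⟩ := exists_nat_ge ‖x‖
    exact mem_iUnion.2 ⟨i, x, mem_closedBall_zero_iff.2 hi, rfl⟩
  exact Pool.Agent.Y496.SH.monotone (Pool.Agent.Y784.SH.ext Pool.Agent.Y248.SH.germ) (m + 1) Y
    (eng_of_good hm hf hgd)

end Pool.Agent.H816.Ph
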