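import Pool.Agent.H816.Rig

/-!
# Asymptotically affine maps from bounds of second derivatives
-/

set_option autoImplicit false

open Set Filter Topology Metric Function
open scoped ContDiff RealInnerProductSpace

noncomputable section

namespace Pool.Agent.H816

/-- on the ball of radius `s` around `p` the map `G` differs by at most `ε m s` from an affine map
with linear part `L`, where `c m ‖v‖ ≤ ‖L v‖ ≤ m ‖v‖` -/
def NA {V : Type*} [NormedAddCommGroup V] [NormedSpace ℝ V] (G : V → V) (c ε : ℝ) (p : V)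
    (s : ℝ) : Prop :=
  ∃ (m : ℝ) (L : V →L[ℝ] V), 0 < m ∧ (∀ v, c * m * ‖v‖ ≤ ‖L v‖ ∧ ‖L v‖ ≤ m * ‖v‖) ∧
    ∀ q, ‖q - p‖ ≤ s → ‖G q - G p - L (q - p)‖ ≤ ε * m * s

/-- asymptotically affine at `0` -/
def AA {V : Type*} [NormedAddCommGroup V] [NormedSpace ℝ V] (G : V → V) : Prop :=
  ∃ c : ℝ, 0 < c ∧ ∀ ε : ℝ, 0 < ε → ∃ r : ℝ, 0 < r ∧ ∀ p : V, ‖p‖ ≤ r →
    ∀ s : ℝ, 0 < s → s ≤ r → NA G c ε p s

section normed

variable {V : Type*} [NormedAddCommGroup V] [NormedSpace ℝ V]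

theorem aa_of_strict {G : V → V} (h : HasStrictFDerivAt G (ContinuousLinearMap.id ℝ V) 0) :
    AA G := by
  refine ⟨1, one_pos, fun ε hε => ?_⟩
  have h1 := h.isLittleO.def hε
  rw [Metric.eventually_nhds_iff] at h1
  obtain ⟨δ, hδ, h1⟩ := h1
  refine ⟨δ / 4, by positivity, fun p hp s hs hsr => ⟨1, ContinuousLinearMap.id ℝ V, one_pos,
    fun v => ⟨by simp, by simp⟩, fun q hq => ?_⟩⟩
  have hq' : ‖q‖ ≤ ‖q - p‖ + ‖p‖ := by
    simpa using norm_add_le (q - p) p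
  have h2 := h1 (y := (q, p)) (by
    rw [Prod.dist_eq]
    refine max_lt ?_ ?_
    · change dist q 0 < δ
      rw [dist_zero_right]
      linarith
    · change dist p 0 < δ
      rw [dist_zero_right]
      linarith)
  rw [mul_one]
  exact h2.trans (mul_le_mul_of_nonneg_left hq hε.le)

/-- near affine bi-Lipschitz maps -/
theorem na_of_bilip {G : V → V} {K δ ε s : ℝ} {p : V} (hK : 1 ≤ K) (hs : 0 < s)
    (hlow : ∀ q, ‖q - p‖ ≤ s → ‖q - p‖ ≤ K * ‖G q - G p‖)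
    (hup : ∀ q, ‖q - p‖ ≤ s → ‖G q - G p‖ ≤ K * ‖q - p‖) (L : V →L[ℝ] V)
    (hL : ∀ q, ‖q - p‖ ≤ s → ‖G q - G p - L (q - p)‖ ≤ δ * s) (hδ : δ * (2 * K) ≤ 1)
    (hδε : δ ≤ ε) : NA G (1 / (4 * K ^ 2)) ε p s := by
  have hK0 : 0 < K := by linarith
  have hδ0 : 0 ≤ δ := by
    have h := (norm_nonneg _).trans (hL p (by simpa using hs.le))
    exact nonneg_of_mul_nonneg_left h hs
  have key : ∀ v : V, 1 / (2 * K) * ‖v‖ ≤ ‖L v‖ ∧ ‖L v‖ ≤ 2 * K * ‖v‖ := by
    intro v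
    rcases eq_or_ne v 0 with hv | hv
    · subst hv
      simp
    have hv' : 0 < ‖v‖ := norm_pos_iff.2 hv
    set t : ℝ := s / ‖v‖ with ht
    have ht0 : 0 < t := by positivity
    have hw : ‖t • v‖ = s := by
      rw [norm_smul, Real.norm_of_nonneg ht0.le, ht]
      field_simp
    have hq : ‖p + t • v - p‖ ≤ s := by rw [add_sub_cancel_left, hw]
    have h1 := hL _ hq
    have h2 := hlow _ hq
    have h3 := hup _ hq
    rw [add_sub_cancel_left] at h1 h2 h3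
    rw [hw] at h2 h3
    have h4 : ‖L (t • v)‖ = t * ‖L v‖ := by
      rw [map_smul, norm_smul, Real.norm_of_nonneg ht0.le]
    have h5 : ‖G (p + t • v) - G p‖ - ‖L (t • v)‖ ≤ δ * s := (norm_sub_norm_le _ _).trans h1
    have h6 : ‖L (t • v)‖ - ‖G (p + t • v) - G p‖ ≤ δ * s := by
      rw [norm_sub_rev] at h1
      exact (norm_sub_norm_le _ _).trans h1
    have e1 : ‖v‖ = s / t := by
      rw [ht]
      field_simp
    rw [h4] at h5 h6
    have h7 : δ * s ≤ s / (2 * K) := by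
      rw [le_div_iff₀ (by positivity)]
      nlinarith
    have h8 : s / K ≤ ‖G (p + t • v) - G p‖ := by
      rw [div_le_iff₀ hK0]
      linarith
    have h9 : s / K = s / (2 * K) + s / (2 * K) := by
      field_simp
      ring
    have h10 : s / (2 * K) ≤ K * s := by
      rw [div_le_iff₀ (by positivity)]
      have : 1 ≤ K * (2 * K) := by nlinarith
      nlinarith
    rw [e1]
    constructor
    · rw [← mul_div_assoc, div_le_iff₀ ht0, one_div, inv_mul_eq_div]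
      linarith
    · rw [← mul_div_assoc, le_div_iff₀ ht0]
      linarith
  refine ⟨2 * K, L, by positivity, fun v => ⟨?_, (key v).2⟩, fun q hq => (hL q hq).trans ?_⟩
  · refine le_trans (le_of_eq ?_) (key v).1
    field_simp
    ring
  · have h1 : δ ≤ ε * (2 * K) := by nlinarith
    exact mul_le_mul_of_nonneg_right h1 hs.le

end normed

section inner

variable {V : Type*} [NormedAddCommGroup V] [InnerProductSpace ℝ V]

/-- a segment between vectors at an acute angle does not come close to zero -/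
theorem seg_norm {x y z : V} {a : ℝ} (ha : 0 ≤ a) (hx : a ≤ ‖x‖) (hy : a ≤ ‖y‖)
    (hxy : 0 ≤ ⟪x, y⟫) (hz : z ∈ segment ℝ x y) : a / 2 ≤ ‖z‖ := by
  obtain ⟨s, t, hs, ht, hst, rfl⟩ := hz
  have h1 : ‖s • x + t • y‖ ^ 2 = s ^ 2 * ‖x‖ ^ 2 + 2 * (s * t * ⟪x, y⟫) + t ^ 2 * ‖y‖ ^ 2 := by
    rw [norm_add_sq_real, norm_smul, norm_smul, mul_pow, mul_pow, Real.norm_eq_abs,
      Real.norm_eq_abs, sq_abs, sq_abs, real_inner_smul_left, real_inner_smul_right]
    ring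
  have h2 : a ^ 2 ≤ ‖x‖ ^ 2 := pow_le_pow_left₀ ha hx 2
  have h3 : a ^ 2 ≤ ‖y‖ ^ 2 := pow_le_pow_left₀ ha hy 2
  have h4 : 0 ≤ s * t * ⟪x, y⟫ := by positivity
  have h5 : (a / 2) ^ 2 ≤ ‖s • x + t • y‖ ^ 2 := by
    rw [h1]
    have h6 : s ^ 2 * a ^ 2 ≤ s ^ 2 * ‖x‖ ^ 2 := mul_le_mul_of_nonneg_left h2 (sq_nonneg _)
    have h7 : t ^ 2 * a ^ 2 ≤ t ^ 2 * ‖y‖ ^ 2 := mul_le_mul_of_nonneg_left h3 (sq_nonneg _)
    have h8 : 1 / 2 ≤ s ^ 2 + t ^ 2 := by
      have : t = 1 - s := by linarith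
      subst this
      nlinarith [sq_nonneg (s - 1 / 2)]
    nlinarith [sq_nonneg a, mul_le_mul_of_nonneg_right h8 (sq_nonneg a)]
  exact le_of_sq_le_sq h5 (norm_nonneg _)

theorem exists_orth [FiniteDimensional ℝ V] (h2 : 2 ≤ Module.finrank ℝ V) (x : V) :
    ∃ w : V, ‖w‖ = 1 ∧ ⟪x, w⟫ = 0 := by
  have h1 : (Submodule.span ℝ {x})ᗮ ≠ ⊥ := by
    intro h
    rw [Submodule.orthogonal_eq_bot_iff] at h
    have h3 : Module.finrank ℝ (Submodule.span ℝ {x}) ≤ 1 := by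
      refine (finrank_span_le_card _).trans ?_
      simp
    rw [h, finrank_top] at h3
    omega
  obtain ⟨w, hw, hw0⟩ := Submodule.exists_mem_ne_zero_of_ne_bot h1
  refine ⟨‖w‖⁻¹ • w, norm_smul_inv_norm hw0 , ?_⟩
  rw [real_inner_smul_right, Submodule.mem_orthogonal_singleton_iff_inner_right.1 hw, mul_zero]

/-- oscillation of the derivative in an annulus -/
theorem osc [FiniteDimensional ℝ V] (h2 : 2 ≤ Module.finrank ℝ V) {G : V → V} {a b K : ℝ}
    (ha : 0 < a)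
    (hG : ∀ z, a / 2 ≤ ‖z‖ → ‖z‖ ≤ b → ContDiffAt ℝ 2 G z ∧ ‖iteratedFDeriv ℝ 2 G z‖ ≤ K)
    {x y : V} (hx : a ≤ ‖x‖) (hxb : ‖x‖ ≤ b) (hy : a ≤ ‖y‖) (hyb : ‖y‖ ≤ b) :
    ‖fderiv ℝ G y - fderiv ℝ G x‖ ≤ 4 * K * b := by
  have hK : 0 ≤ K := (norm_nonneg _).trans (hG x (by linarith) hxb).2
  have h1 : ∀ x y : V, a ≤ ‖x‖ → ‖x‖ ≤ b → a ≤ ‖y‖ → ‖y‖ ≤ b → 0 ≤ ⟪x, y⟫ →
      ‖fderiv ℝ G y - fderiv ℝ G x‖ ≤ 2 * K * b := by
    intro x y hx hxb hy hyb hxy
    have hz : ∀ z ∈ segment ℝ x y, a / 2 ≤ ‖z‖ ∧ ‖z‖ ≤ b := by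
      intro z hz
      refine ⟨seg_norm ha.le hx hy hxy hz, ?_⟩
      have h3 : segment ℝ x y ⊆ closedBall 0 b :=
        (convex_closedBall (0 : V) b).segment_subset (by simpa using hxb) (by simpa using hyb)
      simpa using h3 hz
    have h3 := fderiv_lip (convex_segment x y) (fun z h => (hG z (hz z h).1 (hz z h).2).1)
      (fun z h => (hG z (hz z h).1 (hz z h).2).2) (left_mem_segment ℝ x y)
      (right_mem_segment ℝ x y)
    refine h3.trans ?_
    have h4 : ‖y - x‖ ≤ 2 * b := (norm_sub_le _ _).trans (by linarith)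
    calc K * ‖y - x‖ ≤ K * (2 * b) := mul_le_mul_of_nonneg_left h4 hK
      _ = _ := by ring
  have hb : 0 ≤ b := by linarith [norm_nonneg x]
  obtain ⟨w, hw, hxw⟩ := exists_orth h2 x
  have h3 : ∀ e : ℝ, |e| = 1 → ‖(e * a) • w‖ = a ∧ ⟪x, (e * a) • w⟫ = 0 := by
    intro e he
    rw [norm_smul, hw, Real.norm_eq_abs, abs_mul, he, abs_of_pos ha, real_inner_smul_right, hxw]
    simp
  have h4 : ∃ w' : V, ‖w'‖ = a ∧ ⟪x, w'⟫ = 0 ∧ 0 ≤ ⟪w', y⟫ := by
    rcases le_total 0 ⟪w, y⟫ with h | h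
    · obtain ⟨h5, h6⟩ := h3 1 (by simp)
      refine ⟨_, h5, h6, ?_⟩
      rw [real_inner_smul_left]
      positivity
    · obtain ⟨h5, h6⟩ := h3 (-1) (by simp)
      refine ⟨_, h5, h6, ?_⟩
      rw [real_inner_smul_left]
      nlinarith
  obtain ⟨w', h5, h6, h7⟩ := h4
  have h8 := h1 x w' hx hxb h5.ge (by linarith) h6.ge
  have h9 := h1 w' y h5.ge (by linarith) hy hyb h7
  calc ‖fderiv ℝ G y - fderiv ℝ G x‖
      = ‖(fderiv ℝ G y - fderiv ℝ G w') + (fderiv ℝ G w' - fderiv ℝ G x)‖ := by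
        rw [sub_add_sub_cancel]
    _ ≤ _ := norm_add_le _ _
    _ ≤ _ := by linarith

/-- a map with small second derivatives in an annulus is nearly affine -/
theorem near_lin [FiniteDimensional ℝ V] (h2 : 2 ≤ Module.finrank ℝ V) {G : V → V}
    {a b K K' : ℝ} (ha : 0 < a) (hab : a ≤ b)
    (hG : ∀ z, a / 2 ≤ ‖z‖ → ‖z‖ ≤ b → ContDiffAt ℝ 2 G z ∧ ‖iteratedFDeriv ℝ 2 G z‖ ≤ K)
    (hK' : 0 ≤ K')
    (hlip : ∀ x y, ‖x‖ < 2 * a → ‖y‖ < 2 * a → ‖G x - G y‖ ≤ K' * ‖x - y‖) :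
    ∃ L : V →L[ℝ] V, ∀ x y, ‖x‖ ≤ b → ‖y‖ ≤ b →
      ‖G y - G x - L (y - x)‖ ≤ 8 * K * b ^ 2 + 4 * K' * a := by
  have hn : 0 < Module.finrank ℝ V := by omega
  have : Nontrivial V := Module.nontrivial_of_finrank_pos hn
  obtain ⟨x₀, hx₀⟩ : ∃ x₀ : V, ‖x₀‖ = a := exists_norm_eq V ha.le
  have hK : 0 ≤ K := (norm_nonneg _).trans (hG x₀ (by linarith) (by linarith)).2
  refine ⟨fderiv ℝ G x₀, ?_⟩
  set L := fderiv ℝ G x₀ with hL
  -- the retraction onto the small ball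
  have hr : ∀ x : V, ‖x‖ ≤ b → ∃ x' : V, ‖x'‖ ≤ a ∧
      ‖G x - G x' - L (x - x')‖ ≤ 4 * K * b ^ 2 := by
    intro x hx
    rcases le_total ‖x‖ a with h | h
    · refine ⟨x, h, ?_⟩
      simp only [sub_self, map_zero, norm_zero]
      positivity
    · have hx0 : 0 < ‖x‖ := ha.trans_le h
      have hx' : ‖(a / ‖x‖) • x‖ = a := by
        rw [norm_smul, Real.norm_of_nonneg (by positivity)]
        field_simp
      refine ⟨(a / ‖x‖) • x, hx'.le, ?_⟩
      have hz : ∀ z ∈ segment ℝ ((a / ‖x‖) • x) x, a ≤ ‖z‖ ∧ ‖z‖ ≤ b := by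
        intro z hz
        constructor
        · obtain ⟨s, t, hs, ht, hst, rfl⟩ := hz
          rw [smul_smul, ← add_smul, norm_smul, Real.norm_of_nonneg (by positivity)]
          have h3 : (s * (a / ‖x‖) + t) * ‖x‖ = s * a + t * ‖x‖ := by
            field_simp
          rw [h3]
          have h4 : t * a ≤ t * ‖x‖ := mul_le_mul_of_nonneg_left h ht
          have h5 : s = 1 - t := by linarith
          subst h5
          linarith
        · have h3 : segment ℝ ((a / ‖x‖) • x) x ⊆ closedBall 0 b :=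
            (convex_closedBall (0 : V) b).segment_subset (by
              rw [mem_closedBall, dist_zero_right, hx']
              exact hab) (by simpa using hx)
          simpa using h3 hz
      have h3 := (convex_segment ((a / ‖x‖) • x) x).norm_image_sub_le_of_norm_fderiv_le' (f := G)
        (φ := L) (C := 4 * K * b)
        (fun z h => (hG z (by linarith [(hz z h).1]) (hz z h).2).1.differentiableAt (by norm_num))
        (fun z h => by
          have := osc h2 ha hG hx₀.ge (by linarith) (hz z h).1 (hz z h).2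
          exact this) (left_mem_segment ℝ _ _) (right_mem_segment ℝ _ _)
      refine h3.trans ?_
      have h4 : ‖x - (a / ‖x‖) • x‖ ≤ b := by
        have e : x - (a / ‖x‖) • x = (1 - a / ‖x‖) • x := by
          rw [sub_smul, one_smul]
        have h5 : a / ‖x‖ ≤ 1 := (div_le_one hx0).2 h
        rw [e, norm_smul, Real.norm_of_nonneg (by linarith)]
        have h6 : 0 ≤ a / ‖x‖ := by positivity
        nlinarith
      have hb : 0 ≤ b := ha.le.trans hab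
      calc 4 * K * b * ‖x - (a / ‖x‖) • x‖ ≤ 4 * K * b * b :=
            mul_le_mul_of_nonneg_left h4 (by positivity)
        _ = _ := by ring
  intro x y hx hy
  obtain ⟨x', hx', h3⟩ := hr x hx
  obtain ⟨y', hy', h4⟩ := hr y hy
  have hLK : ‖L‖ ≤ K' := by
    refine norm_fderiv_le_of_lip' ℝ hK' ?_
    filter_upwards [ball_mem_nhds x₀ ha] with z hz
    rw [mem_ball, dist_eq_norm] at hz
    have h6 : ‖z‖ ≤ ‖z - x₀‖ + ‖x₀‖ := by simpa using norm_add_le (z - x₀) x₀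
    exact hlip z x₀ (by linarith) (by linarith)
  have h5 : ‖G y' - G x' - L (y' - x')‖ ≤ 4 * K' * a := by
    have h6 : ‖y' - x'‖ ≤ 2 * a := (norm_sub_le _ _).trans (by linarith)
    calc ‖G y' - G x' - L (y' - x')‖ ≤ ‖G y' - G x'‖ + ‖L (y' - x')‖ := norm_sub_le _ _
      _ ≤ K' * ‖y' - x'‖ + ‖L‖ * ‖y' - x'‖ :=
        add_le_add (hlip _ _ (by linarith) (by linarith)) (L.le_opNorm _)
      _ ≤ K' * ‖y' - x'‖ + K' * ‖y' - x'‖ :=
        add_le_add le_rfl (mul_le_mul_of_nonneg_right hLK (norm_nonneg _))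
      _ = 2 * K' * ‖y' - x'‖ := by ring
      _ ≤ 2 * K' * (2 * a) := mul_le_mul_of_nonneg_left h6 (by positivity)
      _ = _ := by ring
  have e : G y - G x - L (y - x) =
      (G y - G y' - L (y - y')) - (G x - G x' - L (x - x')) + (G y' - G x' - L (y' - x')) := by
    simp only [map_sub]
    abel
  rw [e]
  refine (norm_add_le _ _).trans ?_
  refine add_le_add ((norm_sub_le _ _).trans ?_) h5
  linarith

/-- the second regularity theorem: a bi-Lipschitz map with second derivatives `o(1/|x|)` is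
asymptotically affine -/
theorem aa_of_o [FiniteDimensional ℝ V] (h2 : 2 ≤ Module.finrank ℝ V) {G : V → V} {K : ℝ}
    (hK : ∀ᶠ z in 𝓝 (0 : V × V), ‖G z.1 - G z.2‖ ≤ K * ‖z.1 - z.2‖ ∧
      ‖z.1 - z.2‖ ≤ K * ‖G z.1 - G z.2‖)
    (hG : ∀ᶠ x in 𝓝[≠] 0, ContDiffAt ℝ 2 G x)
    (ho : Tendsto (fun x => ‖iteratedFDeriv ℝ 2 G x‖ * ‖x‖) (𝓝[≠] 0) (𝓝 0)) : AA G := by
  obtain ⟨R0, hR0, hK⟩ := Metric.eventually_nhds_iff.1 hK
  have hlip : ∀ x y : V, ‖x‖ < R0 → ‖y‖ < R0 → ‖G x - G y‖ ≤ (|K| + 1) * ‖x - y‖ ∧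
      ‖x - y‖ ≤ (|K| + 1) * ‖G x - G y‖ := by
    intro x y hx hy
    have h3 := hK (y := (x, y)) (by
      rw [Prod.dist_eq]
      refine max_lt ?_ ?_
      · change dist x 0 < R0
        rwa [dist_zero_right]
      · change dist y 0 < R0
        rwa [dist_zero_right])
    have h4 : K ≤ |K| + 1 := (le_abs_self K).trans (by linarith)
    exact ⟨h3.1.trans (mul_le_mul_of_nonneg_right h4 (norm_nonneg _)),
      h3.2.trans (mul_le_mul_of_nonneg_right h4 (norm_nonneg _))⟩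
  set M : ℝ := |K| + 1 with hM
  have hM1 : 1 ≤ M := by
    rw [hM]
    linarith [abs_nonneg K]
  have hM0 : 0 < M := by linarith
  refine ⟨1 / (4 * M ^ 2), by positivity, fun ε hε => ?_⟩
  set δ : ℝ := min ε (1 / (2 * M)) with hδ
  have hδ0 : 0 < δ := lt_min hε (by positivity)
  have hδε : δ ≤ ε := min_le_left _ _
  have hδM : δ * (2 * M) ≤ 1 := by
    have h3 : δ ≤ 1 / (2 * M) := min_le_right _ _
    rwa [le_div_iff₀ (by positivity)] at h3
  set θ : ℝ := δ / (8 * M) with hθ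
  have hθ0 : 0 < θ := by positivity
  have hθ1 : θ ≤ 1 := by
    rw [hθ, div_le_one (by positivity)]
    nlinarith
  set ε₁ : ℝ := δ * θ / 288 with hε₁
  have hε₁0 : 0 < ε₁ := by positivity
  obtain ⟨R1, hR1, hG'⟩ := exists_punctured (hG.and (ho.eventually_lt_const hε₁0))
  set R := min R0 R1 with hR
  have hR' : 0 < R := lt_min hR0 hR1
  have hRR0 : R ≤ R0 := min_le_left _ _
  have hRR1 : R ≤ R1 := min_le_right _ _
  refine ⟨R / 4, by positivity, fun p hp s hs hsr => ?_⟩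
  have hq : ∀ q : V, ‖q - p‖ ≤ s → ‖q‖ ≤ ‖p‖ + s ∧ ‖q‖ < R0 := by
    intro q hq
    have h3 : ‖q‖ ≤ ‖q - p‖ + ‖p‖ := by simpa using norm_add_le (q - p) p
    exact ⟨by linarith, by linarith⟩
  have hp0 : ‖p‖ < R0 := by linarith
  suffices h : ∃ L : V →L[ℝ] V, ∀ q, ‖q - p‖ ≤ s → ‖G q - G p - L (q - p)‖ ≤ δ * s by
    obtain ⟨L, hL⟩ := h
    exact na_of_bilip hM1 hs (fun q h => (hlip q p (hq q h).2 hp0).2)
      (fun q h => (hlip q p (hq q h).2 hp0).1) L hL hδM hδε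
  rcases le_total (2 * s) ‖p‖ with hps | hps
  · -- the ball is far from the origin
    refine ⟨fderiv ℝ G p, fun q h => ?_⟩
    have hz : ∀ z ∈ closedBall p s, s ≤ ‖z‖ ∧ ‖z‖ < R1 := by
      intro z hz
      rw [mem_closedBall, dist_eq_norm] at hz
      have h3 : ‖p‖ ≤ ‖p - z‖ + ‖z‖ := by simpa using norm_add_le (p - z) z
      rw [norm_sub_rev] at h3
      have h4 := (hq z hz).1
      exact ⟨by linarith, by linarith⟩
    have h3 := taylor_one (G := G) (x := p) (ρ := s) (K := ε₁ / s)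
      (fun z h => (hG' z (norm_pos_iff.1 (hs.trans_le (hz z h).1)) (hz z h).2).1)
      (fun z h => by
        have h4 := (hG' z (norm_pos_iff.1 (hs.trans_le (hz z h).1)) (hz z h).2).2
        rw [le_div_iff₀ hs]
        exact (mul_le_mul_of_nonneg_left (hz z h).1 (norm_nonneg _)).trans h4.le)
      (y := q) (by rwa [mem_closedBall, dist_eq_norm])
    refine h3.trans ?_
    have h4 : ε₁ / s * s = ε₁ := by field_simp
    have h5 : ε₁ ≤ δ := by
      rw [hε₁]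
      nlinarith
    rw [h4]
    exact mul_le_mul h5 h (norm_nonneg _) hδ0.le
  · -- the ball is close to the origin
    have hbR : 3 * s < R1 := by linarith
    obtain ⟨L, hL⟩ := near_lin (G := G) (a := θ * s) (b := 3 * s) (K := 2 * ε₁ / (θ * s))
      (K' := M) h2 (by positivity) (by nlinarith)
      (fun z h3 h4 => by
        have hz0 : 0 < ‖z‖ := lt_of_lt_of_le (by positivity) h3
        have h5 := hG' z (norm_pos_iff.1 hz0) (by linarith)
        refine ⟨h5.1, ?_⟩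
        rw [le_div_iff₀ (by positivity)]
        have h6 : ‖iteratedFDeriv ℝ 2 G z‖ * (θ * s / 2) ≤ ε₁ :=
          (mul_le_mul_of_nonneg_left h3 (norm_nonneg _)).trans h5.2.le
        linarith) hM0.le
      (fun x y h3 h4 => (hlip x y (by nlinarith) (by nlinarith)).1)
    refine ⟨L, fun q h => ?_⟩
    have h3 := hL p q (by linarith) (by linarith [(hq q h).1])
    refine h3.trans (le_of_eq ?_)
    have e1 : 8 * (2 * ε₁ / (θ * s)) * (3 * s) ^ 2 = δ / 2 * s := by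
      rw [hε₁]
      field_simp
      ring
    have e2 : 4 * M * (θ * s) = δ / 2 * s := by
      rw [hθ]
      field_simp
      ring
    rw [e1, e2]
    ring

/-- both regularity theorems, for functions `η` with convergent derivative -/
theorem aa_of_gauge [FiniteDimensional ℝ V] (h2 : 2 ≤ Module.finrank ℝ V) {G : V → V} {K : ℝ}
    (hK : ∀ᶠ z in 𝓝 (0 : V × V), ‖G z.1 - G z.2‖ ≤ K * ‖z.1 - z.2‖ ∧
      ‖z.1 - z.2‖ ≤ K * ‖G z.1 - G z.2‖) {η : ℝ → ℝ} (h0 : Tendsto η (𝓝[>] 0) (𝓝 0))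
    (hpos : ∀ᶠ r in 𝓝[>] (0:ℝ), 0 < η r) (hd : ∀ᶠ r in 𝓝[>] (0:ℝ), DifferentiableAt ℝ η r)
    {a : ℝ} (hη' : Tendsto (deriv η) (𝓝[>] 0) (𝓝 a)) (hG0 : G 0 = 0)
    (hG : ∀ᶠ x in 𝓝[≠] 0, ContDiffAt ℝ 2 G x) {C : ℝ}
    (hC : ∀ᶠ x in 𝓝[≠] 0, ‖G x - x‖ ≤ C * η ‖x‖)
    (ho : Tendsto (fun x => ‖iteratedFDeriv ℝ 2 G x‖ * η ‖x‖) (𝓝[≠] 0) (𝓝 0)) : AA G := by
  rcases eq_or_ne a 0 with ha | ha
  · subst ha
    exact aa_of_strict (strict_of_gauge h0 hpos hd hη' hG0 hG hC ho)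
  -- the function `η` is comparable with the identity
  have h3 : Tendsto (fun r => η r - a * r) (𝓝[>] 0) (𝓝 0) := by
    have h4 : Tendsto (fun r : ℝ => a * r) (𝓝[>] 0) (𝓝 (a * 0)) :=
      ((continuous_const.mul continuous_id).tendsto 0).mono_left nhdsWithin_le_nhds
    have h5 := h0.sub h4
    rwa [mul_zero, sub_zero] at h5
  have hd' : ∀ᶠ r in 𝓝[>] (0:ℝ), DifferentiableAt ℝ (fun r => η r - a * r) r ∧
      deriv (fun r => η r - a * r) r = deriv η r - a := by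
    filter_upwards [hd] with r hr
    have h4 : HasDerivAt (fun r => η r - a * r) (deriv η r - a * 1) r :=
      hr.hasDerivAt.sub ((hasDerivAt_id r).const_mul a)
    rw [mul_one] at h4
    exact ⟨h4.differentiableAt, h4.deriv⟩
  have h4 : Tendsto (deriv fun r => η r - a * r) (𝓝[>] 0) (𝓝 0) := by
    have h5 : Tendsto (fun r => deriv η r - a) (𝓝[>] 0) (𝓝 (a - a)) :=
      hη'.sub tendsto_const_nhds
    rw [sub_self] at h5
    refine h5.congr' ?_
    filter_upwards [hd'] with r hr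
    exact hr.2.symm
  have ha' : 0 < |a| := abs_pos.2 ha
  obtain ⟨R, hR, -, hlin⟩ := small_lin h3 (hd'.mono fun r hr => hr.1) h4 (ε := |a| / 2)
    (by positivity)
  have h5 : ∀ᶠ r in 𝓝[>] (0:ℝ), |a| / 2 * r ≤ η r := by
    filter_upwards [Ioo_mem_nhdsGT hR, hpos] with r hr hp
    have h6 := abs_le.1 (hlin r hr.1 hr.2)
    have hr1 : 0 < r := hr.1
    have h7 : 0 < |a| * r := by positivity
    rcases lt_or_gt_of_ne ha with h | h
    · rw [abs_of_neg h] at h6 h7 ⊢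
      exfalso
      nlinarith [h6.2]
    · rw [abs_of_pos h] at h6 h7 ⊢
      nlinarith [h6.1]
  refine aa_of_o h2 hK hG ?_
  have h6 : Tendsto (fun x => 2 / |a| * (‖iteratedFDeriv ℝ 2 G x‖ * η ‖x‖)) (𝓝[≠] 0)
      (𝓝 (2 / |a| * 0)) := ho.const_mul _
  rw [mul_zero] at h6
  refine squeeze_zero' (Eventually.of_forall fun x => by positivity) ?_ h6
  filter_upwards [tendsto_norm_punctured.eventually h5] with x hx
  have h7 : ‖x‖ ≤ 2 / |a| * η ‖x‖ := by
    rw [div_mul_eq_mul_div, le_div_iff₀ ha']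
    linarith
  calc ‖iteratedFDeriv ℝ 2 G x‖ * ‖x‖ ≤ ‖iteratedFDeriv ℝ 2 G x‖ * (2 / |a| * η ‖x‖) :=
        mul_le_mul_of_nonneg_left h7 (norm_nonneg _)
    _ = _ := by ring

end inner

end Pool.Agent.H816
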