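import Pool.Agent.H816.Sob2
import Pool.Agent.H816.Rig2

/-!
# Bi-Lipschitz maps with second derivatives in the critical class are asymptotically affine
-/

set_option autoImplicit false
set_option linter.unusedSectionVars false

open Set Filter Topology Metric MeasureTheory Module
open scoped ContDiff Convolution ENNReal

noncomputable section

namespace Pool.Agent.H816.Sob

variable {E : Type*} [NormedAddCommGroup E] [InnerProductSpace ℝ E] [FiniteDimensional ℝ E]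
  [MeasurableSpace E] [BorelSpace E]
variable {F : Type*} [NormedAddCommGroup F] [NormedSpace ℝ F] [FiniteDimensional ℝ F]

/-- weak second derivatives in `L^q` near `0` -/
def W2 (q : ℝ≥0∞) (G : E → F) : Prop :=
  ∃ (ρ : ℝ) (H : E → E →L[ℝ] E →L[ℝ] F), 0 < ρ ∧
    (∀ v w, MemLp (fun x => H x v w) q (volume.restrict (ball 0 ρ))) ∧ WeakHess G H (ball 0 ρ)

/-- the norm of a bilinear map is bounded by the sum of its components -/
theorem comp_bound (b : OrthonormalBasis (Fin (finrank ℝ E)) ℝ E) (B : E →L[ℝ] E →L[ℝ] F)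
    (v w : E) : ‖B v w‖ ≤ (∑ i, ∑ j, ‖B (b i) (b j)‖) * ‖v‖ * ‖w‖ := by
  have hv : v = ∑ i, b.repr v i • b i := (b.sum_repr v).symm
  have hw : w = ∑ j, b.repr w j • b j := (b.sum_repr w).symm
  have hvi : ∀ i, |b.repr v i| ≤ ‖v‖ := by
    intro i
    rw [b.repr_apply_apply]
    have := abs_real_inner_le_norm (b i) v
    rwa [b.orthonormal.1 i, one_mul] at this
  have hwi : ∀ i, |b.repr w i| ≤ ‖w‖ := by
    intro i
    rw [b.repr_apply_apply]
    have := abs_real_inner_le_norm (b i) w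
    rwa [b.orthonormal.1 i, one_mul] at this
  have h1 : B v w = ∑ i, ∑ j, (b.repr v i * b.repr w j) • B (b i) (b j) := by
    have e1 : B v = ∑ i, b.repr v i • B (b i) := by
      conv_lhs => rw [hv]
      rw [map_sum]
      exact Finset.sum_congr rfl fun i _ => map_smul _ _ _
    have e2 : ∀ u, B u w = ∑ j, b.repr w j • B u (b j) := by
      intro u
      conv_lhs => rw [hw]
      rw [map_sum]
      exact Finset.sum_congr rfl fun i _ => map_smul _ _ _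
    rw [e1, sum_apply]
    refine Finset.sum_congr rfl fun i _ => ?_
    rw [ContinuousLinearMap.smul_apply, e2, Finset.smul_sum]
    exact Finset.sum_congr rfl fun j _ => smul_smul _ _ _
  rw [h1, Finset.sum_mul, Finset.sum_mul]
  refine (norm_sum_le _ _).trans (Finset.sum_le_sum fun i _ => ?_)
  rw [Finset.sum_mul, Finset.sum_mul]
  refine (norm_sum_le _ _).trans (Finset.sum_le_sum fun j _ => ?_)
  rw [norm_smul, Real.norm_eq_abs, abs_mul]
  calc |b.repr v i| * |b.repr w j| * ‖B (b i) (b j)‖ ≤ ‖v‖ * ‖w‖ * ‖B (b i) (b j)‖ :=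
        mul_le_mul_of_nonneg_right (mul_le_mul (hvi i) (hwi j) (abs_nonneg _) (norm_nonneg _))
          (norm_nonneg _)
    _ = ‖B (b i) (b j)‖ * ‖v‖ * ‖w‖ := by ring

theorem W2.dominate {q : ℝ≥0∞} {G : E → F} (h : W2 q G) :
    ∃ (ρ : ℝ) (H : E → E →L[ℝ] E →L[ℝ] F) (k : E → ℝ), 0 < ρ ∧
      (∀ y v w, ‖H y v w‖ ≤ k y * ‖v‖ * ‖w‖) ∧ MemLp k q (volume.restrict (ball 0 ρ)) ∧
      WeakHess G H (ball 0 ρ) := by
  obtain ⟨ρ, H, hρ, h1, h2⟩ := h
  refine ⟨ρ, H, fun y => ∑ i, ∑ j, ‖H y (stdOrthonormalBasis ℝ E i) (stdOrthonormalBasis ℝ E j)‖,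
    hρ, fun y v w => comp_bound _ _ v w, ?_, h2⟩
  exact memLp_finsetSum _ fun i _ => memLp_finsetSum _ fun j _ => (h1 _ _).norm

theorem aa_of_sob {G : E → E} {K : ℝ} (hn : 1 ≤ finrank ℝ E)
    (hK : ∀ᶠ z in 𝓝 (0 : E × E), ‖G z.1 - G z.2‖ ≤ K * ‖z.1 - z.2‖ ∧
      ‖z.1 - z.2‖ ≤ K * ‖G z.1 - G z.2‖) (h : W2 (finrank ℝ E) G) :
    ∃ c : ℝ, 0 < c ∧ ∀ ε : ℝ, 0 < ε → ∃ r : ℝ, 0 < r ∧ ∀ p : E, ‖p‖ ≤ r →
      ∀ s : ℝ, 0 < s → s ≤ r → ∃ (m : ℝ) (L : E →L[ℝ] E), 0 < m ∧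
        (∀ v, c * m * ‖v‖ ≤ ‖L v‖ ∧ ‖L v‖ ≤ m * ‖v‖) ∧
        ∀ q, ‖q - p‖ ≤ s → ‖G q - G p - L (q - p)‖ ≤ ε * m * s := by
  obtain ⟨ρ0, H, k, hρ0, hk, hkL, hw⟩ := h.dominate
  obtain ⟨ρ1, hρ1, hlip⟩ : ∃ ρ1 : ℝ, 0 < ρ1 ∧ ∀ x ∈ ball (0 : E) ρ1, ∀ y ∈ ball (0 : E) ρ1,
      ‖G x - G y‖ ≤ K * ‖x - y‖ ∧ ‖x - y‖ ≤ K * ‖G x - G y‖ := by
    obtain ⟨r, hr, h1⟩ := Metric.eventually_nhds_iff_ball.1 hK
    refine ⟨r, hr, fun x hx y hy => h1 (x, y) ?_⟩
    rw [mem_ball_zero_iff, Prod.norm_def, max_lt_iff]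
    exact ⟨mem_ball_zero_iff.1 hx, mem_ball_zero_iff.1 hy⟩
  have hnt : Nontrivial E := Module.nontrivial_of_finrank_pos (R := ℝ) (by omega)
  set ρ := min ρ0 ρ1 with hρdef
  have hρ : 0 < ρ := lt_min hρ0 hρ1
  have hsub0 : ball (0 : E) ρ ⊆ ball 0 ρ0 := ball_subset_ball (min_le_left _ _)
  have hsub1 : ball (0 : E) ρ ⊆ ball 0 ρ1 := ball_subset_ball (min_le_right _ _)
  set K' := max K 1 with hK'
  have hK1 : 1 ≤ K' := le_max_right _ _
  have hlip' : ∀ x ∈ ball (0 : E) ρ, ∀ y ∈ ball (0 : E) ρ,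
      ‖G x - G y‖ ≤ K' * ‖x - y‖ ∧ ‖x - y‖ ≤ K' * ‖G x - G y‖ := by
    intro x hx y hy
    obtain ⟨h1, h2⟩ := hlip x (hsub1 hx) y (hsub1 hy)
    exact ⟨h1.trans (mul_le_mul_of_nonneg_right (le_max_left _ _) (norm_nonneg _)),
      h2.trans (mul_le_mul_of_nonneg_right (le_max_left _ _) (norm_nonneg _))⟩
  refine ⟨1 / (4 * K' ^ 2), by positivity, fun ε hε => ?_⟩
  obtain ⟨ρ', h1, h2, h3⟩ := affine_small (δ := min (1 / (2 * K')) (2 * K' * ε)) hρ
    (by linarith : (0:ℝ) ≤ K') hk hn (fun x hx y hy => (hlip' x hx y hy).1)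
    (hkL.mono_measure (Measure.restrict_mono hsub0 le_rfl)) (hw.mono hsub0)
    (lt_min (by positivity) (by positivity))
  refine ⟨ρ', h1, fun p hp s hs hs' => ?_⟩
  obtain ⟨L, hL⟩ := h3 p s hp hs hs'
  have hδ1 : min (1 / (2 * K')) (2 * K' * ε) ≤ 1 / (2 * K') := min_le_left _ _
  have hδ2 : min (1 / (2 * K')) (2 * K' * ε) ≤ 2 * K' * ε := min_le_right _ _
  have hpb : p ∈ ball (0 : E) ρ := by
    rw [mem_ball_zero_iff]
    linarith
  have hqb : ∀ q, ‖q - p‖ ≤ s → q ∈ ball (0 : E) ρ := by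
    intro q hq
    rw [mem_ball_zero_iff]
    have := norm_add_le (q - p) p
    rw [sub_add_cancel] at this
    linarith
  have hbd : ∀ v : E, 1 / (4 * K' ^ 2) * (2 * K') * ‖v‖ ≤ ‖L v‖ ∧ ‖L v‖ ≤ 2 * K' * ‖v‖ := by
    intro v
    by_cases hv : v = 0
    · simp [hv]
    have hvn : 0 < ‖v‖ := norm_pos_iff.2 hv
    -- the vector of length `s`
    obtain ⟨w, hwdef⟩ : ∃ w : E, w = (s / ‖v‖) • v := ⟨_, rfl⟩
    have hwn : ‖w‖ = s := by
      rw [hwdef, norm_smul, Real.norm_eq_abs, abs_of_pos (by positivity)]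
      field_simp
    have hq : ‖p + w - p‖ ≤ s := by
      rw [add_sub_cancel_left, hwn]
    have h4 := hL (p + w) hq
    have h5 := hlip' (p + w) (hqb _ hq) p hpb
    rw [add_sub_cancel_left] at h4 h5
    rw [hwn] at h5
    have hLw : ‖L w‖ = s / ‖v‖ * ‖L v‖ := by
      rw [hwdef, map_smul, norm_smul, Real.norm_eq_abs, abs_of_pos (by positivity)]
    have h6 : ‖L w‖ ≤ ‖G (p + w) - G p‖ + ‖G (p + w) - G p - L w‖ := by
      have := norm_sub_le (G (p + w) - G p) (G (p + w) - G p - L w)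
      rwa [sub_sub_cancel] at this
    have h7 : ‖G (p + w) - G p‖ ≤ ‖L w‖ + ‖G (p + w) - G p - L w‖ := by
      have := norm_add_le (L w) (G (p + w) - G p - L w)
      rwa [add_sub_cancel] at this
    have h8 : ‖G (p + w) - G p - L w‖ ≤ 1 / (2 * K') * s :=
      h4.trans (mul_le_mul_of_nonneg_right hδ1 hs.le)
    have h9 : s / K' ≤ ‖G (p + w) - G p‖ := by
      rw [div_le_iff₀ (by linarith)]
      linarith [h5.2, mul_comm K' ‖G (p + w) - G p‖]
    have h10 : 1 / (2 * K') ≤ 1 := by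
      rw [div_le_one (by positivity)]
      linarith
    rw [hLw] at h6 h7
    constructor
    · have h11 : s / (2 * K') ≤ s / ‖v‖ * ‖L v‖ := by
        have : s / K' = s / (2 * K') + 1 / (2 * K') * s := by
          field_simp
          norm_num
        linarith
      have h12 : 1 / (2 * K') * ‖v‖ ≤ ‖L v‖ := by
        have h13 := mul_le_mul_of_nonneg_left h11 (by positivity : 0 ≤ ‖v‖ / s)
        have e1 : ‖v‖ / s * (s / (2 * K')) = 1 / (2 * K') * ‖v‖ := by field_simp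
        have e2 : ‖v‖ / s * (s / ‖v‖ * ‖L v‖) = ‖L v‖ := by field_simp
        rwa [e1, e2] at h13
      have h14 : 1 / (4 * K' ^ 2) * (2 * K') * ‖v‖ = 1 / (2 * K') * ‖v‖ := by
        field_simp
        norm_num
      rw [h14]
      exact h12
    · have h11 : s / ‖v‖ * ‖L v‖ ≤ 2 * K' * s := by
        have h12 : 1 / (2 * K') * s ≤ K' * s := by
          apply mul_le_mul_of_nonneg_right _ hs.le
          linarith
        linarith [h5.1]
      have h13 := mul_le_mul_of_nonneg_left h11 (by positivity : 0 ≤ ‖v‖ / s)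
      have e1 : ‖v‖ / s * (2 * K' * s) = 2 * K' * ‖v‖ := by field_simp
      have e2 : ‖v‖ / s * (s / ‖v‖ * ‖L v‖) = ‖L v‖ := by field_simp
      rwa [e1, e2] at h13
  refine ⟨2 * K', L, by positivity, hbd, fun q hq => ?_⟩
  have h4 := hL q hq
  have h5 : min (1 / (2 * K')) (2 * K' * ε) * s ≤ 2 * K' * ε * s :=
    mul_le_mul_of_nonneg_right hδ2 hs.le
  linarith [mul_comm ε (2 * K')]

end Pool.Agent.H816.Sob
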