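import Pool.Agent.H816.Ph12
import Pool.Agent.H816.Sob3

/-!
# Homeomorphisms onto `ℝ^n` of class `W^{2,n-1}`
-/

set_option autoImplicit false
set_option linter.unusedSectionVars false

open Set Filter Topology Metric Function MeasureTheory Module
open scoped Manifold ContDiff NNReal

noncomputable section

namespace Pool.Agent.H816.Sob

variable {E : Type*} [NormedAddCommGroup E] [InnerProductSpace ℝ E] [FiniteDimensional ℝ E]
  [MeasurableSpace E] [BorelSpace E]
variable {F : Type*} [NormedAddCommGroup F] [NormedSpace ℝ F] [FiniteDimensional ℝ F]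

theorem W2.congr {q : ENNReal} {G G' : E → F} (h : W2 q G) (he : G =ᶠ[𝓝 0] G') : W2 q G' := by
  obtain ⟨ρ, H, hρ, h1, h2⟩ := h
  obtain ⟨r, hr, he⟩ := Metric.eventually_nhds_iff_ball.1 he
  refine ⟨min ρ r, H, lt_min hρ hr, fun v w => (h1 v w).mono_measure
    (Measure.restrict_mono (ball_subset_ball (min_le_left _ _)) le_rfl), ?_⟩
  intro φ a b c v w
  rw [← h2 φ a b (c.trans (ball_subset_ball (min_le_left _ _))) v w]
  refine integral_congr_ae (Eventually.of_forall fun x => ?_)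
  by_cases hx : x ∈ tsupport φ
  · show _ • G' x = _ • G x
    rw [he x (ball_subset_ball (min_le_right _ _) (c hx))]
  · have h3 : φ =ᶠ[𝓝 x] fun _ => 0 := by
      have h4 := notMem_tsupport_iff_eventuallyEq.1 hx
      exact h4
    have h5 : fderiv ℝ φ =ᶠ[𝓝 x] fun _ => 0 := by
      have h6 := h3.fderiv (𝕜 := ℝ)
      refine h6.trans (Eventually.of_forall fun y => ?_)
      exact fderiv_const_apply _
    have h7 : fderiv ℝ (fderiv ℝ φ) x = 0 := by
      rw [h5.fderiv_eq]
      exact fderiv_const_apply _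
    show _ • G' x = _ • G x
    rw [h7]
    simp

end Pool.Agent.H816.Sob

namespace Pool.Agent.H816.Ph

open Pool.Agent.Y522 Pool.Agent.Q169.AA Pool.Agent.H816
open Pool.Agent.Q130.CM Pool.Agent.Y170.NA

variable {m : ℕ}

/-- the parametrization of a ball -/
theorem ball_param {n : ℕ} {r : ℝ} (hr : 0 < r) {U : TopologicalSpace.Opens (E n)}
    (hU : ∀ x, x ∈ U ↔ ‖x‖ < r) : ∃ e : E n → U, Continuous e ∧ Injective e ∧
      (∀ z, LD n e z) ∧ Surjective e := by
  obtain ⟨B, hB⟩ : ∃ B, B = OpenPartialHomeomorph.univBall (0 : E n) r := ⟨_, rfl⟩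
  have hsrc : B.source = univ := by rw [hB]; exact OpenPartialHomeomorph.univBall_source _ _
  have htgt : B.target = ball 0 r := by
    rw [hB]; exact OpenPartialHomeomorph.univBall_target _ hr
  have hBL : ∀ x, LD n B x := fun x => by
    rw [hB]
    exact Pool.Agent.Y496.SH.LD_univBall hr x
  have hBm : ∀ x, B x ∈ U := fun x => by
    rw [hU, ← mem_ball_zero_iff, ← htgt]
    exact B.map_source (by rw [hsrc]; exact mem_univ _)
  have hBc : Continuous B := continuous_iff_continuousAt.2 fun x => (hBL x).continuousAt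
  have hec : Continuous (fun x => (⟨B x, hBm x⟩ : U)) := hBc.subtype_mk _
  refine ⟨fun x => ⟨B x, hBm x⟩, hec, ?_, ?_, ?_⟩
  · intro x y hxy
    exact B.injOn (by rw [hsrc]; exact mem_univ _) (by rw [hsrc]; exact mem_univ _)
      (congrArg Subtype.val hxy)
  · intro z
    obtain ⟨p, hp1, hp2, hp3, hp4⟩ := (LD_val (n := n) U ⟨B z, hBm z⟩).exists_inverse
    have h1 : LD n (fun x => p (B x)) z := LD.comp_fun (g := p) hp1 (hBL z)
    refine h1.congr ?_
    have h2 : ∀ᶠ v in 𝓝 z, p (((⟨B v, hBm v⟩ : U) : E n)) = ⟨B v, hBm v⟩ :=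
      hec.continuousAt.eventually hp3
    filter_upwards [h2] with v hv
    exact hv.symm
  · rintro ⟨y, hy⟩
    have h1 : y ∈ B.target := by
      rw [htgt, mem_ball_zero_iff]
      exact (hU y).1 hy
    exact ⟨B.symm y, Subtype.ext (B.right_inv h1)⟩

/-- compact subsets are contained in smooth cells -/
theorem eng_of_good' (hm : 2 ≤ m) {Y : Type} [TopologicalSpace Y]
    [ChartedSpace (E (m + 1)) Y] [IsManifold (𝓡 (m + 1)) ∞ Y] {f : Y → E (m + 1)}
    (hf : IsHomeomorph f)
    (hgd : ∀ x : Y, ∃ (A : E (m + 1) → Y) (ρ : ℝ), A 0 = x ∧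
      Gd (n := m + 1) f A ρ) : Eng (m + 1) Y := by
  intro K hK
  obtain ⟨F, hF⟩ : ∃ F : Y ≃ₜ E (m + 1), ∀ x, F x = f x := ⟨hf.homeomorph f, fun _ => rfl⟩
  have hT2 : T2Space Y := F.isEmbedding.t2Space
  have hmet : TopologicalSpace.MetrizableSpace Y := F.isEmbedding.metrizableSpace
  have hsc : SecondCountableTopology Y := F.isEmbedding.secondCountableTopology
  letI := TopologicalSpace.metrizableSpaceMetric Y
  obtain ⟨r, hr0, hr⟩ : ∃ r : ℝ, 0 < r ∧ ∀ y ∈ K, ‖F y‖ < r := by
    have h1 : Bornology.IsBounded (F '' K) := (hK.image F.continuous).isBounded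
    obtain ⟨r, hr0, hr⟩ := h1.exists_pos_norm_lt
    exact ⟨r, hr0, fun y hy => hr _ ⟨y, hy, rfl⟩⟩
  have hO : IsOpen {z : Y × E (m + 1) | ‖z.2 - F z.1‖ < 1} :=
    isOpen_lt ((continuous_snd.sub (F.continuous.comp continuous_fst)).norm) continuous_const
  have hS : IsCompact (F ⁻¹' closedBall 0 (r + 2)) := by
    rw [← F.image_symm]
    exact (isCompact_closedBall _ _).image F.symm.continuous
  obtain ⟨R, P, g, H, -, hR, hgO⟩ := exists_metric hm hf hS
    (V0 := univ) isOpen_univ (subset_univ _) (fun x _ => hgd x) hO (fun x => by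
      show ‖f x - F x‖ < 1
      rw [hF, sub_self, norm_zero]
      exact one_pos)
  have hgO' : ∀ x, ‖g x - F x‖ < 1 := hgO
  -- the restriction to the preimage of the open ball
  obtain ⟨Gh, hGh⟩ : ∃ Gh : Y ≃ₜ E (m + 1), ∀ x, Gh x = g x := ⟨H.homeo.homeomorph g, fun _ => rfl⟩
  obtain ⟨W, hW⟩ : ∃ W : TopologicalSpace.Opens (E (m + 1)), ∀ x, x ∈ W ↔ ‖x‖ < r + 1 :=
    ⟨⟨ball 0 (r + 1), isOpen_ball⟩, fun x => mem_ball_zero_iff⟩
  obtain ⟨U, hU⟩ : ∃ U : TopologicalSpace.Opens Y, ∀ y, y ∈ U ↔ Gh y ∈ W :=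
    ⟨⟨Gh ⁻¹' W, W.2.preimage Gh.continuous⟩, fun y => Iff.rfl⟩
  let g0 : U ≃ₜ W := Gh.subtype hU
  have hg0 : ∀ u : U, ((g0 u : W) : E (m + 1)) = g u := fun u => hGh u
  have : LocallyCompactSpace Y := ChartedSpace.locallyCompactSpace (E (m + 1)) Y
  have : LocallyCompactSpace U := ChartedSpace.locallyCompactSpace (E (m + 1)) U
  have hUR : ∀ u : U, R ∈ 𝓝 (u : Y) := by
    intro u
    apply hR
    show F u ∈ closedBall 0 (r + 2)
    rw [mem_closedBall_zero_iff]
    have h1 := hgO' u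
    have h2 : ‖g u‖ < r + 1 := by
      rw [← hGh]
      exact (hW _).1 ((hU _).1 u.2)
    have h3 := norm_sub_le (g u) (g u - F u)
    rw [sub_sub_cancel] at h3
    linarith
  obtain ⟨g1, h1, -, h2, -⟩ := smooth_off (m := m) g0 (P := (Subtype.val : U → Y) ⁻¹' P)
    (V := univ) (O := univ) (H.pf.isClosed.preimage continuous_subtype_val) isOpen_univ
    (fun u hu _ => ⟨mem_univ _, AAM_sub U W g0 g hg0 g0.continuous u
      ((H.ar _ (mem_of_mem_nhds (hUR u)) hu).to_AAM (hUR u))⟩)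
    (fun p hp => by
      have h1 := H.pl p hp
      have h2 : Tendsto (Subtype.val : U → Y) (𝓝[≠] p) (𝓝[≠] (p : Y)) := by
        refine tendsto_nhdsWithin_iff.2 ⟨continuous_subtype_val.continuousAt.mono_left
          nhdsWithin_le_nhds, ?_⟩
        filter_upwards [self_mem_nhdsWithin] with u hu h
        exact hu (Subtype.ext h)
      filter_upwards [h2.eventually h1] with u hu
      exact LD_sub' U W g0 g hg0 g0.continuous u hu)
    isOpen_univ (fun _ => mem_univ _)
  obtain ⟨e, he1, he2, he3, he4⟩ := ball_param (n := m + 1) (r := r + 1) (by linarith) hW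
  obtain ⟨k, hk⟩ : ∃ k : U ≃ₜ W, ∀ x, k x = g1 x := ⟨h1.homeomorph g1, fun _ => rfl⟩
  have hvi : Injective (Subtype.val : U → Y) := Subtype.val_injective
  have hPU : ((Subtype.val : U → Y) ⁻¹' P).Finite := H.pf.preimage hvi.injOn
  obtain ⟨d, hd1, hd2, hd3⟩ := cell_image hm _ (fun z => ((k.symm (e z) : U) : Y))
    (continuous_subtype_val.comp (k.symm.continuous.comp he1))
    (hvi.comp (k.symm.injective.comp he2)) (by
      have hfin : ((fun z => k.symm (e z)) ⁻¹' ((Subtype.val : U → Y) ⁻¹' P)).Finite :=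
        hPU.preimage (k.symm.injective.comp he2).injOn
      refine hfin.subset fun z hz => ?_
      by_contra hcon
      apply hz
      have h3 : LD (m + 1) k.symm (e z) := by
        have h4 : e z = k (k.symm (e z)) := (k.apply_symm_apply _).symm
        rw [h4]
        refine LD.inverse (k := k) (U := ((Subtype.val : U → Y) ⁻¹' P)ᶜ)
          hPU.isClosed.isOpen_compl (fun x hx => ?_) (g := k.symm)
          (fun x _ => k.symm_apply_apply x) hcon
        have h5 : (k : U → W) = g1 := funext hk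
        rw [h5]
        exact h2 x hx
      refine LD.comp_fun (g := (Subtype.val : U → Y)) (LD_val U _) ?_
      exact LD.comp_fun (g := k.symm) h3 (he3 z)) le_rfl
  refine ⟨d, hd1, hd2, fun y hy => ?_⟩
  rw [hd3]
  have hyU : y ∈ U := by
    rw [hU, hW, hGh]
    have h3 := hgO' y
    have h4 := hr _ hy
    have h5 := norm_add_le (g y - F y) (F y)
    rw [sub_add_cancel] at h5
    linarith
  obtain ⟨z, hz⟩ := he4 (k ⟨y, hyU⟩)
  refine ⟨z, ?_⟩
  show ((k.symm (e z) : U) : Y) = y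
  rw [hz, k.symm_apply_apply]

/-- **Open cells are rigid**, the other direction. -/
theorem diffeo_of_good' (hm : 2 ≤ m) {Y : Type} [TopologicalSpace Y]
    [ChartedSpace (E (m + 1)) Y] [IsManifold (𝓡 (m + 1)) ∞ Y] {f : Y → E (m + 1)}
    (hf : IsHomeomorph f)
    (hgd : ∀ x : Y, ∃ (A : E (m + 1) → Y) (ρ : ℝ), A 0 = x ∧ Gd (n := m + 1) f A ρ) :
    (∀ K : Set Y, IsCompact K → Emb (m + 1) K) ∧
      Nonempty (Diffeomorph (𝓡 (m + 1)) (𝓡 (m + 1)) Y (E (m + 1)) ∞) := by
  obtain ⟨F, hF⟩ : ∃ F : Y ≃ₜ E (m + 1), ∀ x, F x = f x := ⟨hf.homeomorph f, fun _ => rfl⟩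
  have hT2 : T2Space Y := F.isEmbedding.t2Space
  have hsc : SecondCountableTopology Y := F.isEmbedding.secondCountableTopology
  have : LocallyCompactSpace Y := ChartedSpace.locallyCompactSpace (E (m + 1)) Y
  have hE := eng_of_good' hm hf hgd
  refine ⟨fun K hK => ?_, Pool.Agent.Y496.SH.monotone
    (Pool.Agent.Y784.SH.ext Pool.Agent.Y248.SH.germ) (m + 1) Y hE⟩
  obtain ⟨d, hd1, hd2, hd3⟩ := hE K hK
  refine ⟨range d, invFun d, ?_, hd3, ?_, ?_⟩
  · rw [isOpen_iff_mem_nhds]
    rintro _ ⟨z, rfl⟩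
    have := (hd2 z).image_mem_nhds univ_mem
    rwa [image_univ] at this
  · rintro _ ⟨x, rfl⟩ _ ⟨y, rfl⟩ hxy
    rw [leftInverse_invFun hd1, leftInverse_invFun hd1] at hxy
    rw [hxy]
  · rintro _ ⟨x, rfl⟩
    exact LD.inverse (k := d) (U := univ) isOpen_univ (fun y _ => hd2 y)
      (g := invFun d) (fun y _ => leftInverse_invFun hd1 y) (mem_univ x)

/-- **One singular point**, without compactness. -/
theorem merge' (hm : 2 ≤ m) {X Y : Type} [TopologicalSpace X] [T2Space X]
    [ConnectedSpace X] [ChartedSpace (E (m + 1)) X] [IsManifold (𝓡 (m + 1)) ∞ X]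
    [TopologicalSpace Y] [T2Space Y] [ChartedSpace (E (m + 1)) Y]
    [IsManifold (𝓡 (m + 1)) ∞ Y] {f : X → Y} (hf : IsHomeomorph f)
    (hfin : {x | ¬ LD (m + 1) f x}.Finite) :
    ∃ (K : Set X) (g : X → Y) (b : X), IsCompact K ∧ IsHomeomorph g ∧
      (∀ x, x ≠ b → LD (m + 1) g x) ∧ ∀ x, x ∉ K → g x = f x := by
  obtain ⟨A, hA1, hA2, hA3⟩ := cell_of_finite (n := m + 1) hfin
  -- a ball which contains the singular points
  have hb : Bornology.IsBounded (A ⁻¹' {x | ¬ LD (m + 1) f x}) :=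
    (hfin.preimage hA1.injOn).isBounded
  obtain ⟨r, hr0, hr⟩ := hb.exists_pos_norm_lt
  obtain ⟨c, hc⟩ : ∃ c : E (m + 1) → X, c = fun z => A (r • z + 0) := ⟨_, rfl⟩
  have hci : Injective c := fun a b hab => by
    rw [hc] at hab
    have h1 := hA1 hab
    rw [add_zero, add_zero] at h1
    have h2 := congrArg (fun z => r⁻¹ • z) h1
    simpa [smul_smul, inv_mul_cancel₀ hr0.ne'] using h2
  have hcd : ∀ z, LD (m + 1) c z := fun z => by
    rw [hc]
    exact LD.comp_fun (g := A) (hA2 _) (LD_aff' 0 hr0.ne' z)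
  have hcP : ∀ x, ¬ LD (m + 1) f x → x ∈ c '' ball 0 1 := by
    intro x hx
    obtain ⟨z, hz⟩ := hA3 hx
    have h1 : ‖z‖ < r := hr z (by
      show A z ∈ {x | ¬ LD (m + 1) f x}
      rw [hz]
      exact hx)
    refine ⟨r⁻¹ • z, ?_, ?_⟩
    · rw [mem_ball_zero_iff, norm_smul, norm_inv, Real.norm_eq_abs, abs_of_pos hr0,
        inv_mul_lt_iff₀ hr0, mul_one]
      exact h1
    · rw [hc]
      show A (r • r⁻¹ • z + 0) = x
      rw [smul_smul, mul_inv_cancel₀ hr0.ne', one_smul, add_zero, hz]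
  have hcc : Continuous c := continuous_iff_continuousAt.2 fun x => (hcd x).continuousAt
  have hsub : {z | ¬ LD (m + 1) (fun z => f (c z)) z} ⊆ c ⁻¹' {x | ¬ LD (m + 1) f x} := by
    intro z hz h1
    exact hz (LD.comp_fun (g := f) h1 (hcd z))
  obtain ⟨d, hd1, hd2, hd3⟩ := cell_image hm _ (fun z => f (c z)) (hf.continuous.comp hcc)
    (hf.injective.comp hci) ((hfin.preimage hci.injOn).subset hsub) le_rfl
  have HF : Fill (m := m) f c d univ :=
    { ci := hci
      cd := hcd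
      di := hd1
      dd := hd2
      uo := isOpen_univ
      hU := fun x _ => mem_univ x
      hc := fun x _ => hf.continuous.continuousAt
      hi := hf.injective.injOn
      ld := fun z hz => by
        by_contra h1
        obtain ⟨w, hw, hwz⟩ := hcP _ h1
        rw [hci hwz, mem_ball_zero_iff, hz] at hw
        exact lt_irrefl _ hw
      im := fun z _ => by
        rw [hd3]
        exact ⟨z, rfl⟩
      cov := fun y hy => by
        obtain ⟨x, rfl⟩ := hf.surjective y
        refine ⟨x, ?_, rfl⟩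
        rintro ⟨z, -, rfl⟩
        rw [hd3] at hy
        exact hy ⟨z, rfl⟩ }
  have hcl : IsClosed (f '' (c '' ball 0 1)ᶜ) :=
    hf.isClosedMap _ HF.bo.isClosed_compl
  have hkc : IsCompact (f '' (c '' closedBall 0 1)ᶜ)ᶜ := by
    rw [image_compl_eq hf.bijective, compl_compl]
    exact ((isCompact_closedBall (0 : E (m + 1)) 1).image hcc).image hf.continuous
  obtain ⟨g, b, g1, g2, g3, g4⟩ := HF.fill' hm hcl hkc
  refine ⟨c '' closedBall 0 1, g, b, (isCompact_closedBall (0 : E (m + 1)) 1).image hcc, g1,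
    fun x hx => ?_, fun x hx => ?_⟩
  · by_cases h1 : x ∈ c '' ball 0 1
    · exact g4 x h1 hx
    · refine LD.congr ?_ (g3 x h1)
      by_contra h2
      exact h1 (hcP x h2)
  · exact (g3 x fun h => hx (image_mono ball_subset_closedBall h)).self_of_nhds

end Pool.Agent.H816.Ph
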