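import Pool.Agent.H816.Ph13
import Pool.Agent.H816.Horn

/-!
# Pairs of inverse singular points
-/

set_option autoImplicit false
set_option linter.unusedSectionVars false

open Set Filter Topology Metric Function MeasureTheory Module
open scoped Manifold ContDiff NNReal

noncomputable section

namespace Pool.Agent.H816.Sw

open Pool.Agent.Y522 Pool.Agent.H816

section inversion

variable {n : ℕ}

/-- the inversion -/
def J (z : E n) : E n := (‖z‖ ^ 2)⁻¹ • z

theorem J_zero : J (0 : E n) = 0 := smul_zero _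

theorem norm_J (z : E n) : ‖J z‖ = ‖z‖⁻¹ := by
  unfold J
  rw [norm_smul, norm_inv, norm_pow, norm_norm]
  by_cases hz : ‖z‖ = 0
  · rw [hz]
    simp
  · field_simp

theorem J_J (z : E n) : J (J z) = z := by
  by_cases hz : z = 0
  · rw [hz, J_zero, J_zero]
  have hz' : ‖z‖ ≠ 0 := norm_ne_zero_iff.2 hz
  have h1 : J (J z) = (‖J z‖ ^ 2)⁻¹ • ((‖z‖ ^ 2)⁻¹ • z) := rfl
  rw [h1, norm_J, smul_smul]
  have h2 : ((‖z‖⁻¹ ^ 2)⁻¹ * (‖z‖ ^ 2)⁻¹ : ℝ) = 1 := by
    field_simp
  rw [h2, one_smul]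

theorem J_ne {z : E n} (hz : z ≠ 0) : J z ≠ 0 := by
  intro h
  apply hz
  rw [← J_J z, h, J_zero]

theorem J_smooth {z : E n} (hz : z ≠ 0) : ContDiffAt ℝ ∞ (J : E n → E n) z := by
  have h1 : ContDiffAt ℝ ∞ (fun z : E n => (‖z‖ ^ 2)⁻¹) z :=
    ((contDiff_norm_sq ℝ).contDiffAt).inv (by
      have := norm_ne_zero_iff.2 hz
      positivity)
  exact h1.smul contDiffAt_id

theorem LD_J {z : E n} (hz : z ≠ 0) : LD n (J : E n → E n) z := by
  refine LD_of_left_inv (g := J) ?_ ((J_smooth (J_ne hz)).differentiableAt (by simp))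
    (Eventually.of_forall fun y => J_J y)
  filter_upwards [isOpen_ne.mem_nhds hz] with y hy using J_smooth hy

theorem J_coc : Tendsto (J : E n → E n) (cocompact (E n)) (𝓝 0) := by
  rw [tendsto_zero_iff_norm_tendsto_zero]
  have h1 : (fun z : E n => ‖J z‖) = fun z => ‖z‖⁻¹ := funext norm_J
  rw [h1]
  exact tendsto_inv_atTop_zero.comp (tendsto_norm_cocompact_atTop)

theorem J_zero_coc : Tendsto (J : E n → E n) (𝓝[≠] 0) (cocompact (E n)) := by
  rw [← Metric.cobounded_eq_cocompact, ← comap_norm_atTop, tendsto_comap_iff]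
  have h1 : (norm ∘ J : E n → ℝ) = fun z => ‖z‖⁻¹ := funext norm_J
  rw [h1]
  exact tendsto_inv_nhdsGT_zero.comp (tendsto_norm_nhdsNE_zero (E := E n))

/-- homeomorphisms which fix a point, seen from this point -/
theorem conj_cont {k k' : E n → E n} (hk : Continuous k) (hk' : Continuous k')
    (h1 : ∀ z, k' (k z) = z) (h2 : ∀ z, k (k' z) = z) {y : E n} (hy : k y = y) :
    Continuous fun z => J (k (y + J z) - y) := by
  let e : E n ≃ₜ E n := ⟨⟨k, k', h1, h2⟩, hk, hk'⟩
  rw [continuous_iff_continuousAt]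
  intro z
  by_cases hz : z = 0
  · subst hz
    rw [continuousAt_iff_punctured_nhds]
    have h0 : J (k (y + J 0) - y) = 0 := by
      rw [J_zero, add_zero, hy, sub_self, J_zero]
    rw [h0]
    have h3 : Tendsto (fun z : E n => y + z) (cocompact (E n)) (cocompact (E n)) :=
      (Homeomorph.addLeft y).isClosedEmbedding.tendsto_cocompact
    have h4 : Tendsto (fun z : E n => z - y) (cocompact (E n)) (cocompact (E n)) := by
      have := (Homeomorph.addRight (-y)).isClosedEmbedding.tendsto_cocompact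
      refine this.congr fun z => ?_
      show z + -y = z - y
      rw [sub_eq_add_neg]
    exact J_coc.comp (h4.comp (e.isClosedEmbedding.tendsto_cocompact.comp (h3.comp J_zero_coc)))
  · have h3 : k (y + J z) - y ≠ 0 := by
      intro h
      have h5 : k (y + J z) = k y := by rw [hy]; exact sub_eq_zero.1 h
      have h6 := congrArg k' h5
      rw [h1, h1] at h6
      exact J_ne hz (by simpa using h6)
    have h4 : ContinuousAt (fun z => k (y + J z) - y) z :=
      (hk.continuousAt.comp (continuousAt_const.add (J_smooth hz).continuousAt)).sub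
        continuousAt_const
    exact ContinuousAt.comp (g := J) (J_smooth h3).continuousAt h4

end inversion

section germs

variable {n : ℕ}

theorem stExt : StExt := Pool.Agent.Y784.SH.ext Pool.Agent.Y248.SH.germ

theorem univBall_zero' (r : ℝ) :
    OpenPartialHomeomorph.univBall (0 : E n) r 0 = 0 := by
  exact OpenPartialHomeomorph.univBall_apply_zero _ _

/-- embeddings in small balls which are the identity near the center -/
theorem shrink (u : E n) {ε : ℝ} (hε : 0 < ε) : ∃ T : E n → E n, Injective T ∧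
    (∀ z, LD n T z) ∧ (∀ z, ‖T z - u‖ < ε) ∧ ∀ᶠ z in 𝓝 u, T z = z := by
  obtain ⟨B, hB⟩ : ∃ B, B = OpenPartialHomeomorph.univBall (0 : E n) ε := ⟨_, rfl⟩
  have hsrc : B.source = univ := by rw [hB]; exact OpenPartialHomeomorph.univBall_source _ _
  have htgt : B.target = ball 0 ε := by
    rw [hB]; exact OpenPartialHomeomorph.univBall_target _ hε
  have hB0 : B 0 = 0 := by rw [hB]; exact univBall_zero' ε
  have hBL : ∀ x, LD n (fun z => B z + u) x := fun x => by
    refine LD.comp_fun (g := fun z => z + u) (LD_add_const u _) ?_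
    rw [hB]
    exact Pool.Agent.Y496.SH.LD_univBall hε x
  have hBi : Injective fun z => B z + u := fun x y h => by
    refine B.injOn (by rw [hsrc]; exact mem_univ _) (by rw [hsrc]; exact mem_univ _) ?_
    exact add_right_cancel h
  obtain ⟨Φ, hΦb, hΦL, hΦ⟩ := stExt n (fun z => B z + u) hBi hBL 1
  obtain ⟨Φ', hΦ', h1, h2⟩ := Pool.Agent.Y784.SH.Dif.inv (n := n) ⟨hΦb, hΦL⟩
  have hΦ0 : Φ 0 = u := by
    rw [hΦ 0 (by rw [norm_zero]; exact zero_le_one)]
    show B 0 + u = u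
    rw [hB0, zero_add]
  refine ⟨fun z => B (Φ' z) + u, hBi.comp hΦ'.1.injective,
    fun z => LD.comp_fun (g := fun z => B z + u) (hBL _) (hΦ'.2 z), fun z => ?_, ?_⟩
  · show ‖B (Φ' z) + u - u‖ < ε
    rw [add_sub_cancel_right, ← mem_ball_zero_iff, ← htgt]
    exact B.map_source (by rw [hsrc]; exact mem_univ _)
  · have h3 : ∀ᶠ z in 𝓝 u, ‖Φ' z‖ < 1 := by
      have h4 : Tendsto Φ' (𝓝 u) (𝓝 (Φ' u)) := (hΦ'.2 u).continuousAt
      have h5 : Φ' u = 0 := by rw [← hΦ0, h1]
      rw [h5] at h4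
      have h6 := h4.norm
      rw [norm_zero] at h6
      exact h6.eventually (gt_mem_nhds one_pos)
    filter_upwards [h3] with z hz
    have h7 := hΦ (Φ' z) hz.le
    rw [h2] at h7
    exact h7.symm

/-- germs of local diffeomorphisms of `ℝ^n` extend to diffeomorphisms -/
theorem glob {k : E n → E n} {y : E n} (hk : LD n k y) :
    ∃ Ψ Ψ' : E n → E n, (∀ z, Ψ' (Ψ z) = z) ∧ (∀ z, Ψ (Ψ' z) = z) ∧ (∀ z, LD n Ψ z) ∧
      (∀ z, LD n Ψ' z) ∧ Ψ =ᶠ[𝓝 y] k := by
  obtain ⟨u, hu, hinj⟩ := hk.eventually_injOn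
  obtain ⟨ε, hε, h1⟩ := Metric.eventually_nhds_iff_ball.1 (hk.eventually.and hu)
  obtain ⟨T, hT1, hT2, hT3, hT4⟩ := shrink y hε
  have hTb : ∀ z, T z ∈ ball y ε := fun z => by
    rw [mem_ball, dist_eq_norm]
    exact hT3 z
  obtain ⟨Ψ, hΨb, hΨL, hΨ⟩ := stExt n (fun z => k (T z))
    (fun a b hab => hT1 (hinj (h1 _ (hTb a)).2 (h1 _ (hTb b)).2 hab))
    (fun z => LD.comp_fun (g := k) (h1 _ (hTb z)).1 (hT2 z)) (‖y‖ + 1)
  obtain ⟨Ψ', hΨ', h2, h3⟩ := Pool.Agent.Y784.SH.Dif.inv (n := n) ⟨hΨb, hΨL⟩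
  refine ⟨Ψ, Ψ', h2, h3, hΨL, hΨ'.2, ?_⟩
  filter_upwards [hT4, (continuous_norm.tendsto y).eventually (gt_mem_nhds (lt_add_one ‖y‖))]
    with z hz hz2
  rw [hΨ z hz2.le]
  show k (T z) = k z
  rw [hz]

end germs

variable {m : ℕ}

/-- a homeomorphism of `ℝ^n` with compact support and two singular points, one of which is a given
one -/
structure Pair {m : ℕ} (G θ θ' ν D : E (m + 1) → E (m + 1)) (b : E (m + 1)) (R : ℝ) : Prop where
  l : ∀ z, θ' (θ z) = z
  r : ∀ z, θ (θ' z) = z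
  c : Continuous θ
  c' : Continuous θ'
  R0 : 0 < R
  bR : ‖b‖ < R
  b0 : b ≠ 0
  s : ∀ z, R ≤ ‖z‖ → θ z = z
  s' : ∀ z, R ≤ ‖z‖ → θ' z = z
  z : θ 0 = 0
  ld : ∀ z, z ≠ 0 → z ≠ b → LD (m + 1) θ z
  νd : LD (m + 1) ν b
  νb : ν b = 0
  Dd : LD (m + 1) D (θ b)
  ty : ∀ᶠ w in 𝓝 (θ b), G (ν (θ' w)) = D w

theorem exists_pair (hm : 2 ≤ m) {G : E (m + 1) → E (m + 1)} (hGc : ContinuousOn G (ball 0 2))
    (hGi : InjOn G (ball 0 2)) (hGd : ∀ z : E (m + 1), z ≠ 0 → ‖z‖ < 2 → LD (m + 1) G z) :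
    ∃ (θ θ' ν D : E (m + 1) → E (m + 1)) (b : E (m + 1)) (R : ℝ), Pair G θ θ' ν D b R := by
  obtain ⟨κ, κ', D0, e1, e2, e3, e4, e5, e6, e7⟩ := Ph.outer_ext hm hGc hGi hGd
  obtain ⟨y, hy⟩ : ∃ y : E (m + 1), y ≠ 0 := exists_ne 0
  obtain ⟨Ψ, Ψ', p1, p2, p3, p4, p5⟩ := glob (e5 y hy)
  have hΨc : Continuous Ψ := continuous_iff_continuousAt.2 fun x => (p3 x).continuousAt
  have hΨc' : Continuous Ψ' := continuous_iff_continuousAt.2 fun x => (p4 x).continuousAt
  obtain ⟨t, ht⟩ : ∃ t : E (m + 1) → E (m + 1), t = fun z => Ψ' (κ z) := ⟨_, rfl⟩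
  obtain ⟨t', ht'⟩ : ∃ t' : E (m + 1) → E (m + 1), t' = fun z => κ' (Ψ z) := ⟨_, rfl⟩
  have t1 : ∀ z, t' (t z) = z := fun z => by
    rw [ht, ht']
    show κ' (Ψ (Ψ' (κ z))) = z
    rw [p2, e1]
  have t2 : ∀ z, t (t' z) = z := fun z => by
    rw [ht, ht']
    show Ψ' (κ (κ' (Ψ z))) = z
    rw [e2, p1]
  have tc : Continuous t := by rw [ht]; exact hΨc'.comp e3
  have tc' : Continuous t' := by rw [ht']; exact e4.comp hΨc
  have tn : ∀ᶠ z in 𝓝 y, t z = z := by
    filter_upwards [p5] with z hz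
    rw [ht]
    show Ψ' (κ z) = z
    rw [← hz, p1]
  have ty : t y = y := tn.self_of_nhds
  have ty' : t' y = y := by rw [← ty, t1, ty]
  have ti : Injective t := fun a b hab => by rw [← t1 a, hab, t1]
  have td : ∀ z, z ≠ 0 → LD (m + 1) t z := fun z hz => by
    rw [ht]
    exact LD.comp_fun (g := Ψ') (p4 _) (e5 z hz)
  obtain ⟨r, hr, htr⟩ := Metric.eventually_nhds_iff_ball.1 tn
  obtain ⟨θ, hθ⟩ : ∃ θ : E (m + 1) → E (m + 1), θ = fun z => J (t (y + J z) - y) := ⟨_, rfl⟩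
  obtain ⟨θ', hθ'⟩ : ∃ θ' : E (m + 1) → E (m + 1), θ' = fun z => J (t' (y + J z) - y) := ⟨_, rfl⟩
  have q1 : ∀ z, y + J (θ z) = t (y + J z) := fun z => by
    rw [hθ]
    show y + J (J _) = _
    rw [J_J]
    abel
  have q2 : ∀ z, y + J (θ' z) = t' (y + J z) := fun z => by
    rw [hθ']
    show y + J (J _) = _
    rw [J_J]
    abel
  have l : ∀ z, θ' (θ z) = z := fun z => by
    have h1 : θ' (θ z) = J (t' (y + J (θ z)) - y) := by rw [hθ']
    rw [h1, q1, t1, add_sub_cancel_left, J_J]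
  have r' : ∀ z, θ (θ' z) = z := fun z => by
    have h1 : θ (θ' z) = J (t (y + J (θ' z)) - y) := by rw [hθ]
    rw [h1, q2, t2, add_sub_cancel_left, J_J]
  have hs : ∀ z, 1 / r < ‖z‖ → θ z = z := by
    intro z hz
    have h1 : y + J z ∈ ball y r := by
      rw [mem_ball, dist_eq_norm, add_sub_cancel_left, norm_J]
      rw [inv_lt_comm₀ (lt_trans (by positivity) hz) hr, ← one_div]
      exact hz
    rw [hθ]
    show J (t (y + J z) - y) = z
    rw [htr _ h1, add_sub_cancel_left, J_J]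
  obtain ⟨b, hb⟩ : ∃ b : E (m + 1), b = J (-y) := ⟨_, rfl⟩
  have hyb : y + J b = 0 := by
    rw [hb, J_J]
    abel
  have hb0 : b ≠ 0 := by
    rw [hb]
    exact J_ne (neg_ne_zero.2 hy)
  have hθb : θ b ≠ 0 := by
    intro h
    have h1 := q1 b
    rw [h, J_zero, add_zero, hyb] at h1
    exact hy (ti (ty.trans h1))
  have hKd : ∀ z, z ≠ 0 → LD (m + 1) (fun z => y + J z) z := fun z hz => by
    have h1 : LD (m + 1) (fun z => J z + y) z :=
      LD.comp_fun (g := fun z => z + y) (LD_add_const y _) (LD_J hz)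
    refine h1.congr (Eventually.of_forall fun z => ?_)
    exact add_comm _ _
  have h1r : 1 / r < max (1 / r) ‖b‖ + 1 := by
    have := le_max_left (1 / r) ‖b‖
    linarith
  refine ⟨θ, θ', fun z => y + J z, fun w => D0 (Ψ (y + J w)), b, max (1 / r) ‖b‖ + 1,
    { l := l
      r := r'
      c := by rw [hθ]; exact conj_cont tc tc' t1 t2 ty
      c' := by rw [hθ']; exact conj_cont tc' tc t2 t1 ty'
      R0 := lt_trans (by positivity) h1r
      bR := by
        have := le_max_right (1 / r) ‖b‖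
        linarith
      b0 := hb0
      s := fun z hz => hs z (by linarith)
      s' := fun z hz => by
        have h2 := hs z (by linarith)
        rw [← h2, l, h2]
      z := by
        rw [hθ]
        show J (t (y + J 0) - y) = 0
        rw [J_zero, add_zero, ty, sub_self, J_zero]
      ld := fun z hz hzb => ?_
      νd := hKd b hb0
      νb := hyb
      Dd := ?_
      ty := ?_ }⟩
  · have h2 : y + J z ≠ 0 := by
      intro h
      apply hzb
      rw [hb, ← J_J z]
      congr 1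
      exact eq_neg_of_add_eq_zero_right h
    have h3 : LD (m + 1) (fun z => t (y + J z)) z := LD.comp_fun (g := t) (td _ h2) (hKd z hz)
    have h4 : t (y + J z) + -y ≠ 0 := by
      intro h
      have h5 : t (y + J z) = t y := by
        rw [ty]
        exact add_neg_eq_zero.1 h
      have h6 := ti h5
      exact J_ne hz (by simpa using h6)
    have h5 : LD (m + 1) (fun z => J (t (y + J z) + -y)) z :=
      LD.comp_fun (g := J) (f := fun z => t (y + J z) + -y) (LD_J h4)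
        (LD.comp_fun (g := fun z => z + -y) (LD_add_const (-y) _) h3)
    rw [hθ]
    refine h5.congr (Eventually.of_forall fun z => ?_)
    show J (t (y + J z) - y) = J (t (y + J z) + -y)
    rw [sub_eq_add_neg]
  · have h2 : Ψ (y + J (θ b)) = κ 0 := by
      rw [q1, hyb, ht]
      show Ψ (Ψ' (κ 0)) = κ 0
      rw [p2]
    refine LD.comp_fun (g := D0) (f := fun w => Ψ (y + J w)) ?_
      (LD.comp_fun (g := Ψ) (p3 _) (hKd _ hθb))
    rw [h2]
    exact e6
  · have h2 : Ψ (y + J (θ b)) = κ 0 := by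
      rw [q1, hyb, ht]
      show Ψ (Ψ' (κ 0)) = κ 0
      rw [p2]
    have h3 : Tendsto (fun w => Ψ (y + J w)) (𝓝 (θ b)) (𝓝 (κ 0)) := by
      rw [← h2]
      exact (hΨc.continuousAt.comp (hKd _ hθb).continuousAt)
    filter_upwards [h3.eventually e7] with w hw
    rw [← hw, q2, ht']

end Pool.Agent.H816.Sw
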