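import Pool.Agent.H816.Ph15

/-!
# Chains of cells which tend to infinity
-/

set_option autoImplicit false
set_option linter.unusedSectionVars false

open Set Filter Topology Metric Function
open scoped Manifold ContDiff

noncomputable section

namespace Pool.Agent.H816.Sw

open Pool.Agent.Y522 Pool.Agent.H816

/-- rays in graphs -/
theorem exists_ray {α : Type*} (G : SimpleGraph α) (hc : G.Connected)
    (hf : ∀ a, {b | G.Adj a b}.Finite) [Infinite α] (a : α) :
    ∃ s : ℕ → α, s 0 = a ∧ (∀ i, G.Adj (s i) (s (i + 1))) ∧ ∀ i, G.dist a (s i) = i := by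
  classical
  obtain ⟨S, hS⟩ : ∃ S : α → Set α, S = fun v => {b | G.dist a b = G.dist a v + G.dist v b} :=
    ⟨_, rfl⟩
  have hSm : ∀ v b, b ∈ S v ↔ G.dist a b = G.dist a v + G.dist v b := fun v b => by
    rw [hS]
    rfl
  have step : ∀ v, (S v).Infinite → ∃ w, G.Adj v w ∧ G.dist a w = G.dist a v + 1 ∧
      (S w).Infinite := by
    intro v hv
    by_contra hcon
    push Not at hcon
    apply hv
    have h1 : S v ⊆ {v} ∪ ⋃ w ∈ {w | G.Adj v w},
        (if G.dist a w = G.dist a v + 1 then S w else ∅) := by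
      intro b hb
      rw [hSm] at hb
      by_cases hbv : b = v
      · exact Or.inl hbv
      right
      obtain ⟨p, hp⟩ := hc.exists_walk_length_eq_dist v b
      cases p with
      | nil => exact absurd rfl hbv
      | cons h q =>
        rename_i w
        rw [SimpleGraph.Walk.length_cons] at hp
        have h2 := SimpleGraph.dist_le q
        have h3 := hc.dist_triangle (u := a) (v := w) (w := b)
        have h4 := hc.dist_triangle (u := a) (v := v) (w := w)
        have h5 : G.dist v w = 1 := SimpleGraph.dist_eq_one_iff_adj.2 h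
        have h6 : G.dist a w = G.dist a v + 1 := by omega
        refine mem_iUnion₂.2 ⟨w, h, ?_⟩
        rw [if_pos h6, hSm]
        omega
    refine Set.Finite.subset ((finite_singleton v).union ((hf v).biUnion fun w hw => ?_)) h1
    by_cases h2 : G.dist a w = G.dist a v + 1
    · rw [if_pos h2]
      exact hcon w hw h2
    · rw [if_neg h2]
      exact finite_empty
  have h0 : (S a).Infinite := by
    have h1 : S a = univ := by
      ext b
      rw [hSm]
      simp
    rw [h1]
    exact infinite_univ
  choose nx h1 h2 h3 using step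
  let g : ℕ → {v // (S v).Infinite} := fun i =>
    Nat.rec ⟨a, h0⟩ (fun _ v => ⟨nx v.1 v.2, h3 v.1 v.2⟩) i
  refine ⟨fun i => (g i).1, rfl, fun i => h1 _ _, fun i => ?_⟩
  induction i with
  | zero => exact SimpleGraph.dist_self
  | succ i ih =>
    show G.dist a (nx (g i).1 (g i).2) = i + 1
    rw [h2, ih]

variable {n : ℕ}

theorem range_open {X : Type} [TopologicalSpace X] [ChartedSpace (E n) X] {c : E n → X}
    (h : ∀ z, LD n c z) : IsOpen (range c) := by
  rw [isOpen_iff_mem_nhds]
  rintro _ ⟨z, rfl⟩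
  have := (h z).image_mem_nhds univ_mem
  rwa [image_univ] at this

/-- chains of small cells -/
theorem exists_chain {X : Type} [TopologicalSpace X] [T2Space X] [SigmaCompactSpace X]
    [ConnectedSpace X] [NoncompactSpace X] [ChartedSpace (E n) X] [IsManifold (𝓡 n) ∞ X]
    (W : X → Set X) (hW : ∀ x, W x ∈ 𝓝 x) (p : X) :
    ∃ c : ℕ → E n → X, (∀ i, Injective (c i)) ∧ (∀ i z, LD n (c i) z) ∧ p ∈ range (c 0) ∧
      (∀ i, p ∉ range (c (i + 1))) ∧ (∀ i, (range (c i) ∩ range (c (i + 1))).Nonempty) ∧
      (∀ i j, i + 2 ≤ j → Disjoint (range (c i)) (range (c j))) ∧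
      LocallyFinite (fun i => range (c i)) ∧ ∀ i, ∃ x, range (c i) ⊆ W x := by
  classical
  have : LocallyCompactSpace X := ChartedSpace.locallyCompactSpace (E n) X
  -- the cover
  have hbas : ∀ x : X, (𝓝 x).HasBasis (fun c : E n → X => Injective c ∧ (∀ z, LD n c z) ∧
      x ∈ range c ∧ range c ⊆ W x ∧ IsCompact (closure (range c))) fun c => range c := by
    intro x
    refine ⟨fun t => ⟨fun ht => ?_, ?_⟩⟩
    · obtain ⟨K, hK, hKt, hKc⟩ := local_compact_nhds (inter_mem ht (hW x))
      obtain ⟨c, h0, h1, h2, h3⟩ := cell_exists (n := n) hK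
      have h4 : range c ⊆ K := by
        rintro _ ⟨z, rfl⟩
        exact h3 z
      exact ⟨c, ⟨h1, h2, ⟨0, h0⟩, h4.trans (hKt.trans inter_subset_right),
        hKc.of_isClosed_subset isClosed_closure (closure_minimal h4 hKc.isClosed)⟩,
        h4.trans (hKt.trans inter_subset_left)⟩
    · rintro ⟨c, ⟨-, h2, h3, -⟩, h4⟩
      exact mem_of_superset ((range_open h2).mem_nhds h3) h4
  obtain ⟨α, x, c, hp, hcov, hlf⟩ := refinement_of_locallyCompact_sigmaCompact_of_nhds_basis hbas
  obtain ⟨V, hV⟩ : ∃ V : α → Set X, V = fun a => range (c a) := ⟨_, rfl⟩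
  have hVo : ∀ a, IsOpen (V a) := fun a => by rw [hV]; exact range_open (hp a).2.1
  have hVc : ∀ a, IsCompact (closure (V a)) := fun a => by rw [hV]; exact (hp a).2.2.2.2
  have hVn : ∀ a, (V a).Nonempty := fun a => by rw [hV]; exact range_nonempty _
  have hlf' : LocallyFinite V := by rw [hV]; exact hlf
  have hcov' : ⋃ a, V a = univ := by rw [hV]; exact hcov
  -- the graph
  let G : SimpleGraph α :=
    { Adj := fun a b => a ≠ b ∧ (V a ∩ V b).Nonempty
      symm := ⟨fun a b h => ⟨h.1.symm, by rw [inter_comm]; exact h.2⟩⟩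
      loopless := ⟨fun a h => h.1 rfl⟩ }
  have hfin : ∀ a, {b | (V b ∩ closure (V a)).Nonempty}.Finite := fun a =>
    hlf'.finite_nonempty_inter_compact (hVc a)
  have hGf : ∀ a, {b | G.Adj a b}.Finite := by
    intro a
    refine (hfin a).subset ?_
    rintro b ⟨-, z, hz1, hz2⟩
    exact ⟨z, hz2, subset_closure hz1⟩
  have hinf : Infinite α := by
    by_contra h
    rw [not_infinite_iff_finite] at h
    have h1 : IsCompact (⋃ a, closure (V a)) := isCompact_iUnion hVc
    have h2 : (⋃ a, closure (V a)) = univ := by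
      refine eq_univ_of_univ_subset ?_
      rw [← hcov']
      exact iUnion_mono fun a => subset_closure
    rw [h2] at h1
    exact noncompact_univ X h1
  have hGc : G.Connected := by
    have hne : Nonempty α := inferInstance
    refine { preconnected := ?_, nonempty := hne }
    intro a b
    obtain ⟨A, hA⟩ : ∃ A : Set X, A = ⋃ d ∈ {d | G.Reachable a d}, V d := ⟨_, rfl⟩
    obtain ⟨B, hB⟩ : ∃ B : Set X, B = ⋃ d ∈ {d | ¬ G.Reachable a d}, V d := ⟨_, rfl⟩
    have hAo : IsOpen A := by rw [hA]; exact isOpen_biUnion fun d _ => hVo d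
    have hBo : IsOpen B := by rw [hB]; exact isOpen_biUnion fun d _ => hVo d
    have hAB : A ∪ B = univ := by
      rw [eq_univ_iff_forall]
      intro z
      have hz : z ∈ ⋃ a, V a := by rw [hcov']; exact mem_univ z
      obtain ⟨d, hd⟩ := mem_iUnion.1 hz
      by_cases h : G.Reachable a d
      · left
        rw [hA]
        exact mem_iUnion₂.2 ⟨d, h, hd⟩
      · right
        rw [hB]
        exact mem_iUnion₂.2 ⟨d, h, hd⟩
    have hdis : Disjoint A B := by
      rw [Set.disjoint_left]
      intro z hzA hzB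
      rw [hA] at hzA
      rw [hB] at hzB
      obtain ⟨d, hd, hzd⟩ := mem_iUnion₂.1 hzA
      obtain ⟨e, he, hze⟩ := mem_iUnion₂.1 hzB
      have hd' : G.Reachable a d := hd
      apply he
      show G.Reachable a e
      by_cases hde : d = e
      · rw [← hde]
        exact hd'
      · exact hd'.trans (SimpleGraph.Adj.reachable (G := G) ⟨hde, z, hzd, hze⟩)
    have hAc : IsClosed A := by
      have h1 : A = Bᶜ := by
        apply Subset.antisymm
        · intro z hz hzB
          exact Set.disjoint_left.1 hdis hz hzB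
        · intro z hz
          have h2 : z ∈ A ∪ B := by rw [hAB]; exact mem_univ z
          exact h2.resolve_right hz
      rw [h1]
      exact hBo.isClosed_compl
    have hAn : A.Nonempty := by
      obtain ⟨z, hz⟩ := hVn a
      refine ⟨z, ?_⟩
      rw [hA]
      exact mem_iUnion₂.2 ⟨a, SimpleGraph.Reachable.refl a, hz⟩
    have hAu : A = univ := IsClopen.eq_univ ⟨hAc, hAo⟩ hAn
    by_contra hb
    obtain ⟨z, hz⟩ := hVn b
    have hzB : z ∈ B := by
      rw [hB]
      exact mem_iUnion₂.2 ⟨b, hb, hz⟩
    exact Set.disjoint_left.1 hdis (by rw [hAu]; exact mem_univ z) hzB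
  have hpc : p ∈ ⋃ a, V a := by rw [hcov']; exact mem_univ p
  obtain ⟨a0, ha0⟩ := mem_iUnion.1 hpc
  obtain ⟨s, hs0, hs1, hs2⟩ := exists_ray G hGc hGf a0
  have hsep : ∀ i j, i + 2 ≤ j → Disjoint (V (s i)) (V (s j)) := by
    intro i j hij
    rw [Set.disjoint_left]
    intro z hz1 hz2
    have h1 : s i ≠ s j := fun h => by
      have h2 := hs2 i
      rw [h, hs2] at h2
      omega
    have h2 : G.dist (s i) (s j) = 1 := SimpleGraph.dist_eq_one_iff_adj.2 ⟨h1, z, hz1, hz2⟩
    have h3 := hGc.dist_triangle (u := a0) (v := s i) (w := s j)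
    rw [hs2, hs2, h2] at h3
    omega
  have hsi : Injective s := fun i j h => by
    have h1 := hs2 i
    rw [h, hs2] at h1
    exact h1.symm
  have hslf : LocallyFinite fun i => V (s i) := hlf'.comp_injective hsi
  have hVr : ∀ a, V a = range (c a) := fun a => by rw [hV]
  -- the last cell which contains `p`
  by_cases hp1 : p ∈ V (s 1)
  · refine ⟨fun i => c (s (i + 1)), fun i => (hp _).1, fun i => (hp _).2.1, by rw [← hVr]; exact hp1,
      fun i => ?_, fun i => ?_, fun i j hij => ?_, ?_, fun i => ⟨_, (hp _).2.2.2.1⟩⟩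
    · rw [← hVr]
      rw [← hs0] at ha0
      exact Set.disjoint_left.1 (hsep 0 (i + 1 + 1) (by omega)) ha0
    · rw [← hVr, ← hVr]
      exact (hs1 (i + 1)).2
    · rw [← hVr, ← hVr]
      exact hsep _ _ (by omega)
    · have h1 : LocallyFinite fun i => V (s (i + 1)) :=
        hlf'.comp_injective (hsi.comp (fun i j h => by simpa using h))
      simpa only [hVr] using h1
  · refine ⟨fun i => c (s i), fun i => (hp _).1, fun i => (hp _).2.1, by
      rw [← hVr, hs0]; exact ha0, fun i => ?_, fun i => ?_, fun i j hij => ?_, ?_,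
      fun i => ⟨_, (hp _).2.2.2.1⟩⟩
    · rw [← hVr]
      rcases i with - | i
      · exact hp1
      · rw [← hs0] at ha0
        exact Set.disjoint_left.1 (hsep 0 (i + 1 + 1) (by omega)) ha0
    · rw [← hVr, ← hVr]
      exact (hs1 i).2
    · rw [← hVr, ← hVr]
      exact hsep _ _ hij
    · simpa only [hVr] using hslf

end Pool.Agent.H816.Sw
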