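import Pool.Agent.H816.Ph16
import Pool.Agent.H816.Sph

/-!
# Embeddings with given germs, and products of homeomorphisms with disjoint supports
-/

set_option autoImplicit false
set_option linter.unusedSectionVars false

open Set Filter Topology Metric Function
open scoped Manifold ContDiff

noncomputable section

namespace Pool.Agent.H816.Sw

open Pool.Agent.Y522 Pool.Agent.H816

variable {n : ℕ}

/-- an embedding with a given germ, and a given value at another point -/
theorem emb_two {X : Type} [TopologicalSpace X] [T2Space X] [ChartedSpace (E n) X]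
    [IsManifold (𝓡 n) ∞ X] {U : Set X} (hU : IsOpen U) {g : E n → X} {u z : E n}
    (hg : LD n g u) (hgu : g u ∈ U) (hc : IsPreconnected (U \ {g u})) (hz : z ≠ u) {t : X}
    (ht : t ∈ U) (htg : t ≠ g u) :
    ∃ h : E n → X, Injective h ∧ (∀ w, LD n h w) ∧ range h ⊆ U ∧ h =ᶠ[𝓝 u] g ∧ h z = t := by
  obtain ⟨N, hN, hinj⟩ := hg.eventually_injOn
  have h0 : ∀ᶠ w in 𝓝 u, g w ∈ U := hg.continuousAt.eventually (hU.mem_nhds hgu)
  obtain ⟨ε, hε, h1⟩ := Metric.eventually_nhds_iff_ball.1 ((hg.eventually.and hN).and h0)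
  obtain ⟨T, hT1, hT2, hT3, hT4⟩ := shrink u hε
  have hTb : ∀ w, T w ∈ ball u ε := fun w => by
    rw [mem_ball, dist_eq_norm]
    exact hT3 w
  have hTu : T u = u := hT4.self_of_nhds
  obtain ⟨k, hk⟩ : ∃ k : E n → X, k = fun w => g (T w) := ⟨_, rfl⟩
  have hki : Injective k := fun a b hab => by
    rw [hk] at hab
    exact hT1 (hinj (h1 _ (hTb a)).1.2 (h1 _ (hTb b)).1.2 hab)
  have hkd : ∀ w, LD n k w := fun w => by
    rw [hk]
    exact LD.comp_fun (g := g) (h1 _ (hTb w)).1.1 (hT2 w)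
  have hku : k u = g u := by
    rw [hk]
    show g (T u) = g u
    rw [hTu]
  have hkU : ∀ w, k w ∈ U := fun w => by
    rw [hk]
    exact (h1 _ (hTb w)).2
  have hkz : k z ∈ U \ {g u} := ⟨hkU z, fun h => hz (hki (by rw [hku]; exact h))⟩
  obtain ⟨μ, μ', m1, m2, m3, m4, m5, m6, S, hS, hSU, m7⟩ := Ph.move (n := n)
    (hU.sdiff isClosed_singleton) hc hkz (show t ∈ U \ {g u} from ⟨ht, htg⟩)
  have hμi : Injective μ := fun a b hab => by rw [← m1 a, hab, m1]
  refine ⟨fun w => μ (k w), fun a b hab => hki (hμi hab), fun w => LD.comp_fun (m3 _) (hkd w),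
    ?_, ?_, m5⟩
  · rintro _ ⟨w, rfl⟩
    by_contra hcon
    have h2 : μ (μ (k w)) = μ (k w) := m7 _ fun h => hcon (hSU h).1
    have h3 : μ (k w) = k w := hμi h2
    exact hcon (by
      show μ (k w) ∈ U
      rw [h3]
      exact hkU w)
  · have h2 : ∀ᶠ w in 𝓝 u, k w ∉ S := by
      refine (hkd u).continuousAt.eventually (hS.isClosed.isOpen_compl.mem_nhds ?_)
      rw [hku]
      exact fun h => (hSU h).2 rfl
    filter_upwards [h2, hT4] with w hw hw2
    rw [m7 _ hw, hk]
    show g (T w) = g w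
    rw [hw2]

/-- cells without finitely many points are connected -/
theorem cell_compl (hn : 2 ≤ n) {X : Type} [TopologicalSpace X] {c : E n → X}
    (hc : Continuous c) (hci : Injective c) {P : Set X} (hP : P.Finite) :
    IsPreconnected (range c \ P) := by
  have h1 : range c \ P = c '' (c ⁻¹' P)ᶜ := by
    ext x
    constructor
    · rintro ⟨⟨z, rfl⟩, hx⟩
      exact ⟨z, hx, rfl⟩
    · rintro ⟨z, hz, rfl⟩
      exact ⟨⟨z, rfl⟩, hz⟩
  rw [h1]
  have h2 : (c ⁻¹' P).Countable := (hP.preimage hci.injOn).countable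
  have h3 : 1 < Module.rank ℝ (E n) := by
    rw [← Module.finrank_eq_rank, finrank_euclideanSpace_fin]
    exact_mod_cast hn
  exact (h2.isConnected_compl_of_one_lt_rank h3).isPreconnected.image _ hc.continuousOn

section prod

variable {X : Type} [TopologicalSpace X] [ChartedSpace (E n) X] {ι : Type}
  {e : ι → E n → X} (he : ∀ i, Injective (e i)) (hd : ∀ i z, LD n (e i) z)
  (hdis : ∀ i j, i ≠ j → Disjoint (range (e i)) (range (e j))) {R : ℝ}
  (hcl : IsClosed (⋃ i, e i '' closedBall 0 R))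

include he hd hdis hcl

theorem prod_map {k : E n → E n} (kc : Continuous k) (ks : ∀ z, R ≤ ‖z‖ → k z = z) :
    ∃ P : X → X, Continuous P ∧ (∀ i z, P (e i z) = e i (k z)) ∧
      (∀ x, x ∉ ⋃ i, e i '' closedBall 0 R → P x = x) ∧
      ∀ x, (∀ i, x ∉ range (e i)) → P x = x := by
  classical
  obtain ⟨P, hP⟩ : ∃ P : X → X, P = fun x => if h : ∃ i, x ∈ range (e i) then
    e h.choose (k (invFun (e h.choose) x)) else x := ⟨_, rfl⟩
  have h1 : ∀ i z, P (e i z) = e i (k z) := by
    intro i z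
    have h : ∃ j, e i z ∈ range (e j) := ⟨i, z, rfl⟩
    have h2 : h.choose = i := by
      by_contra hne
      exact Set.disjoint_left.1 (hdis _ _ hne) h.choose_spec ⟨z, rfl⟩
    have h3 : P (e i z) = e h.choose (k (invFun (e h.choose) (e i z))) := by
      rw [hP]
      exact dif_pos h
    rw [h3, h2, leftInverse_invFun (he i)]
  have h2 : ∀ x, (∀ i, x ∉ range (e i)) → P x = x := by
    intro x hx
    have h : ¬ ∃ i, x ∈ range (e i) := fun ⟨i, hi⟩ => hx i hi
    rw [hP]
    exact dif_neg h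
  have h3 : ∀ x, x ∉ ⋃ i, e i '' closedBall 0 R → P x = x := by
    intro x hx
    by_cases h : ∃ i, x ∈ range (e i)
    · obtain ⟨i, z, rfl⟩ := h
      rw [h1, ks z]
      by_contra hcon
      exact hx (mem_iUnion.2 ⟨i, z, mem_closedBall_zero_iff.2 (not_le.1 hcon).le, rfl⟩)
    · exact h2 x fun i hi => h ⟨i, hi⟩
  refine ⟨P, ?_, h1, h3, h2⟩
  rw [continuous_iff_continuousAt]
  intro x
  by_cases h : ∃ i, x ∈ range (e i)
  · obtain ⟨i, z, rfl⟩ := h
    have hinv : LD n (invFun (e i)) (e i z) :=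
      LD.inverse (k := e i) (U := univ) isOpen_univ (fun y _ => hd i y)
        (g := invFun (e i)) (fun y _ => leftInverse_invFun (he i) y) (mem_univ z)
    have h4 : ContinuousAt (fun y => e i (k (invFun (e i) y))) (e i z) := by
      refine ContinuousAt.comp (g := e i) (hd i _).continuousAt ?_
      exact kc.continuousAt.comp hinv.continuousAt
    refine h4.congr ?_
    filter_upwards [(range_open (hd i)).mem_nhds ⟨z, rfl⟩] with y hy
    obtain ⟨w, rfl⟩ := hy
    rw [h1, leftInverse_invFun (he i)]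
  · have h4 : x ∉ ⋃ i, e i '' closedBall 0 R := by
      intro hx
      obtain ⟨i, z, -, hz⟩ := mem_iUnion.1 hx
      exact h ⟨i, z, hz⟩
    refine continuousAt_id.congr ?_
    filter_upwards [hcl.isOpen_compl.mem_nhds h4] with y hy
    exact (h3 y hy).symm

/-- products of homeomorphisms with disjoint supports -/
theorem exists_prod {k k' : E n → E n} (l : ∀ z, k' (k z) = z) (r : ∀ z, k (k' z) = z)
    (kc : Continuous k) (kc' : Continuous k') (ks : ∀ z, R ≤ ‖z‖ → k z = z) :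
    ∃ P : X → X, IsHomeomorph P ∧ (∀ i z, P (e i z) = e i (k z)) ∧
      (∀ x, x ∉ ⋃ i, e i '' closedBall 0 R → P =ᶠ[𝓝 x] id) ∧
      ∀ x, P x = x ∨ ∃ i, x ∈ range (e i) ∧ P x ∈ range (e i) := by
  have ks' : ∀ z, R ≤ ‖z‖ → k' z = z := fun z hz => by
    have h := l z
    rwa [ks z hz] at h
  obtain ⟨P, p1, p2, p3, p4⟩ := prod_map he hd hdis hcl kc ks
  obtain ⟨P', p1', p2', p3', p4'⟩ := prod_map he hd hdis hcl kc' ks'
  have hl : ∀ x, P' (P x) = x := by
    intro x
    by_cases h : ∃ i, x ∈ range (e i)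
    · obtain ⟨i, z, rfl⟩ := h
      rw [p2, p2', l]
    · rw [p4 x fun i hi => h ⟨i, hi⟩, p4' x fun i hi => h ⟨i, hi⟩]
  have hr : ∀ x, P (P' x) = x := by
    intro x
    by_cases h : ∃ i, x ∈ range (e i)
    · obtain ⟨i, z, rfl⟩ := h
      rw [p2', p2, r]
    · rw [p4' x fun i hi => h ⟨i, hi⟩, p4 x fun i hi => h ⟨i, hi⟩]
  let H : X ≃ₜ X := ⟨⟨P, P', hl, hr⟩, p1, p1'⟩
  refine ⟨P, H.isHomeomorph, p2, fun x hx => ?_, fun x => ?_⟩
  · filter_upwards [hcl.isOpen_compl.mem_nhds hx] with y hy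
    exact p3 y hy
  · by_cases h : ∃ i, x ∈ range (e i)
    · obtain ⟨i, z, rfl⟩ := h
      exact Or.inr ⟨i, ⟨z, rfl⟩, by rw [p2]; exact ⟨_, rfl⟩⟩
    · exact Or.inl (p4 x fun i hi => h ⟨i, hi⟩)

end prod

end Pool.Agent.H816.Sw
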