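import Pool.Agent.H816.Ph17

/-!
# Removing an isolated singular point of a homeomorphism of an open manifold
-/

set_option autoImplicit false
set_option linter.unusedSectionVars false

open Set Filter Topology Metric Function
open scoped Manifold ContDiff

noncomputable section

namespace Pool.Agent.H816.Sw

open Pool.Agent.Y522 Pool.Agent.H816

/-- dependent choice -/
theorem dep_choice {α β : Type} (P : ℕ → α → Prop) (R : ℕ → α → β → α → Prop) {a0 : α}
    (h0 : P 0 a0) (h : ∀ i a, P i a → ∃ b a', R i a b a' ∧ P (i + 1) a') :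
    ∃ (s : ℕ → α) (t : ℕ → β), s 0 = a0 ∧ ∀ i, P i (s i) ∧ R i (s i) (t i) (s (i + 1)) := by
  choose B A hR hP using h
  let s : (i : ℕ) → {a // P i a} := fun i =>
    Nat.rec (motive := fun i => {a // P i a}) ⟨a0, h0⟩ (fun i a => ⟨A i a.1 a.2, hP i a.1 a.2⟩) i
  refine ⟨fun i => (s i).1, fun i => B i (s i).1 (s i).2, rfl, fun i => ⟨(s i).2, ?_⟩⟩
  exact hR i (s i).1 (s i).2

/-- a gauge for a neighbourhood of the diagonal -/
theorem exists_gauge {X : Type} [MetricSpace X] {Ω : Set (X × X)} (hΩ : IsOpen Ω)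
    (hd : ∀ x, (x, x) ∈ Ω) :
    ∃ ε : X → ℝ, (∀ x, 0 < ε x) ∧ (∀ x y, ε x ≤ ε y + dist x y) ∧
      ∀ x y, dist x y < ε x → (x, y) ∈ Ω := by
  by_cases hne : (Ωᶜ : Set (X × X)).Nonempty
  · refine ⟨fun x => infDist (x, x) Ωᶜ, fun x => ?_, fun x y => ?_, fun x y hxy => ?_⟩
    · exact (hΩ.isClosed_compl.notMem_iff_infDist_pos hne).1 fun h => h (hd x)
    · have h1 := infDist_le_infDist_add_dist (s := Ωᶜ) (x := (x, x)) (y := (y, y))
      have h2 : dist (x, x) (y, y) = dist x y := by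
        rw [Prod.dist_eq, max_self]
      rwa [h2] at h1
    · by_contra hcon
      have h1 : infDist (x, x) Ωᶜ ≤ dist (x, x) (x, y) := infDist_le_dist_of_mem hcon
      have h2 : dist (x, x) (x, y) = dist x y := by
        rw [Prod.dist_eq]
        simp
      rw [h2] at h1
      exact absurd hxy (not_lt.2 h1)
  · have h1 : Ω = univ := by
      rw [not_nonempty_iff_eq_empty, compl_empty_iff] at hne
      exact hne
    refine ⟨fun _ => 1, fun _ => one_pos, fun x y => ?_, fun x y _ => ?_⟩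
    · have := dist_nonneg (x := x) (y := y)
      linarith
    · rw [h1]
      exact mem_univ _

variable {n : ℕ}

/-- a chain of cells with embeddings of which the germs agree -/
structure Sys {X : Type} [TopologicalSpace X] [ChartedSpace (E n) X] (p : X) (b : E n)
    (g0 : E n → X) (C : ℕ → Set X) (α β : ℕ → X) (es Es : ℕ → E n → X) : Prop where
  Cd : ∀ i j, i + 2 ≤ j → Disjoint (C i) (C j)
  Clf : LocallyFinite C
  pC : ∀ i, p ∉ C (i + 1)
  ei : ∀ i, Injective (es (i + 1))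
  ed : ∀ i w, LD n (es (i + 1)) w
  er : ∀ i w, es (i + 1) w ∈ C i
  er' : ∀ i w, es (i + 1) w ∈ C (i + 1)
  Ei : ∀ i, Injective (Es i)
  Ed : ∀ i w, LD n (Es i) w
  Er : ∀ i w, Es i w ∈ C i
  Eal : ∀ i w, Es (i + 1) w ≠ α i
  Ebe : ∀ i w, Es i w ≠ β i
  E0 : ∀ i, Es i 0 = α i
  e0 : ∀ i, es (i + 1) =ᶠ[𝓝 0] Es i
  eb : ∀ i, es (i + 1) b = β i
  Eb : ∀ i, Es i =ᶠ[𝓝 b] es i
  s0 : es 0 = g0
  s0b : es 0 b = p

theorem exists_sys (hn : 3 ≤ n) {X : Type} [TopologicalSpace X] [T2Space X] [SigmaCompactSpace X]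
    [ConnectedSpace X] [NoncompactSpace X] [ChartedSpace (E n) X] [IsManifold (𝓡 n) ∞ X]
    (W : X → Set X) (hW : ∀ x, W x ∈ 𝓝 x) (p : X) {b : E n} (hb : b ≠ 0)
    {g0 : E n → X} (hg0 : LD n g0 b) (hg0b : g0 b = p) :
    ∃ (C : ℕ → Set X) (α β : ℕ → X) (es Es : ℕ → E n → X), Sys p b g0 C α β es Es ∧
      ∀ i, ∃ x, C i ⊆ W x := by
  obtain ⟨cc, ci, cd, cp, cp', cn, cdis, clf, cW⟩ := exists_chain (n := n) W hW p
  have hcc : ∀ i, Continuous (cc i) := fun i =>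
    continuous_iff_continuousAt.2 fun z => (cd i z).continuousAt
  obtain ⟨C, hC⟩ : ∃ C : ℕ → Set X, C = fun i => range (cc i) := ⟨_, rfl⟩
  have hCr : ∀ i, C i = range (cc i) := fun i => by rw [hC]
  have hCo : ∀ i, IsOpen (C i) := fun i => by rw [hCr]; exact range_open (cd i)
  have hCd : ∀ i j, i + 2 ≤ j → Disjoint (C i) (C j) := fun i j hij => by
    rw [hCr, hCr]
    exact cdis i j hij
  have hpC : p ∈ C 0 := by rw [hCr]; exact cp
  have hpC' : ∀ i, p ∉ C (i + 1) := fun i => by rw [hCr]; exact cp' i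
  have hno : ∀ i j x, i + 2 ≤ j → x ∈ C i → x ∈ C j → False := fun i j x hij h1 h2 =>
    Set.disjoint_left.1 (hCd i j hij) h1 h2
  -- the small cells
  have h1 : ∀ i, ∃ c : E n → X, Injective c ∧ (∀ z, LD n c z) ∧ ∀ z, c z ∈ C i ∩ C (i + 1) := by
    intro i
    obtain ⟨x, hx⟩ : (C i ∩ C (i + 1)).Nonempty := by
      rw [hCr, hCr]
      exact cn i
    obtain ⟨c, -, h1, h2, h3⟩ := cell_exists (n := n) (((hCo i).inter (hCo (i + 1))).mem_nhds hx)
    exact ⟨c, h1, h2, h3⟩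
  choose dd di ddd dr using h1
  have hdc : ∀ i, Continuous (dd i) := fun i =>
    continuous_iff_continuousAt.2 fun z => (ddd i z).continuousAt
  obtain ⟨α, hα⟩ : ∃ α : ℕ → X, α = fun i => dd i 0 := ⟨_, rfl⟩
  obtain ⟨β, hβ⟩ : ∃ β : ℕ → X, β = fun i => dd i b := ⟨_, rfl⟩
  have hαd : ∀ i, α i = dd i 0 := fun i => by rw [hα]
  have hβd : ∀ i, β i = dd i b := fun i => by rw [hβ]
  have hα1 : ∀ i, α i ∈ C i := fun i => by rw [hαd]; exact (dr i 0).1
  have hα2 : ∀ i, α i ∈ C (i + 1) := fun i => by rw [hαd]; exact (dr i 0).2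
  have hβ1 : ∀ i, β i ∈ C i := fun i => by rw [hβd]; exact (dr i b).1
  have hβ2 : ∀ i, β i ∈ C (i + 1) := fun i => by rw [hβd]; exact (dr i b).2
  have hαβ : ∀ i, α i ≠ β i := fun i h => by
    rw [hαd, hβd] at h
    exact hb (di i h).symm
  obtain ⟨bt, hbt⟩ : ∃ bt : ℕ → X, bt 0 = p ∧ ∀ i, bt (i + 1) = β i :=
    ⟨fun i => Nat.casesOn i p β, rfl, fun i => rfl⟩
  obtain ⟨al, hal⟩ : ∃ al : ℕ → X, al 0 = α 5 ∧ ∀ i, al (i + 1) = α i :=
    ⟨fun i => Nat.casesOn i (α 5) α, rfl, fun i => rfl⟩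
  -- the points are different
  have k1 : ∀ i, bt i ∈ C i := by
    rintro (- | i)
    · rw [hbt.1]; exact hpC
    · rw [hbt.2]; exact hβ2 i
  have k2 : ∀ i, bt i ≠ al i := by
    rintro (- | i) h
    · rw [hbt.1, hal.1] at h
      exact hpC' 5 (h ▸ hα2 5)
    · rw [hbt.2, hal.2] at h
      exact hαβ i h.symm
  have k3 : ∀ i, bt i ≠ β i := by
    rintro (- | i) h
    · rw [hbt.1] at h
      exact hpC' 0 (h ▸ hβ2 0)
    · rw [hbt.2] at h
      exact hno i (i + 2) _ (by omega) (hβ1 i) (h ▸ hβ2 (i + 1))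
  have k4 : ∀ i, α i ≠ al i := by
    rintro (- | i) h
    · rw [hal.1] at h
      exact hno 0 5 _ (by omega) (hα1 0) (h ▸ hα1 5)
    · rw [hal.2] at h
      exact hno i (i + 2) _ (by omega) (hα1 i) (h ▸ hα2 (i + 1))
  have k5 : ∀ i, α i ≠ bt i := by
    rintro (- | i) h
    · rw [hbt.1] at h
      exact hpC' 0 (h ▸ hα2 0)
    · rw [hbt.2] at h
      exact hno i (i + 2) _ (by omega) (hβ1 i) (h ▸ hα2 (i + 1))
  have hstep : ∀ i (e : E n → X), (LD n e b ∧ e b = bt i) → ∃ (h : E n → X) (e' : E n → X),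
      (Injective h ∧ (∀ w, LD n h w) ∧ range h ⊆ C i \ {al i, β i} ∧ h =ᶠ[𝓝 b] e ∧ h 0 = α i ∧
        Injective e' ∧ (∀ w, LD n e' w) ∧ range e' ⊆ range (dd i) ∧ e' =ᶠ[𝓝 0] h ∧ e' b = β i) ∧
      LD n e' b ∧ e' b = bt (i + 1) := by
    rintro i e ⟨he1, he2⟩
    have hfin : ({al i, β i} : Set X).Finite := by simp
    obtain ⟨h, h1, h2, h3, h4, h5⟩ := emb_two (n := n) (U := C i \ {al i, β i})
      ((hCo i).sdiff hfin.isClosed) he1 (by
        rw [he2]
        refine ⟨k1 i, ?_⟩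
        rintro (h | h)
        · exact k2 i h
        · exact k3 i h) (by
        rw [Set.sdiff_sdiff, hCr]
        exact cell_compl (by omega) (hcc i) (ci i) (hfin.union (finite_singleton _)))
      hb.symm (t := α i) (by
        refine ⟨hα1 i, ?_⟩
        rintro (h | h)
        · exact k4 i h
        · exact hαβ i h) (by rw [he2]; exact k5 i)
    obtain ⟨e', f1, f2, f3, f4, f5⟩ := emb_two (n := n) (U := range (dd i)) (range_open (ddd i))
      (h2 0) (by rw [h5, hαd]; exact ⟨0, rfl⟩)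
      (cell_compl (by omega) (hdc i) (di i) (finite_singleton _)) hb (t := β i)
      (by rw [hβd]; exact ⟨b, rfl⟩) (by rw [h5]; exact (hαβ i).symm)
    exact ⟨h, e', ⟨h1, h2, h3, h4, h5, f1, f2, f3, f4, f5⟩, f2 b, by rw [f5, hbt.2]⟩
  obtain ⟨es, Es, s0, hs⟩ := dep_choice (fun i (e : E n → X) => LD n e b ∧ e b = bt i)
    (fun i (e : E n → X) (h : E n → X) (e' : E n → X) =>
      (Injective h ∧ (∀ w, LD n h w) ∧ range h ⊆ C i \ {al i, β i} ∧ h =ᶠ[𝓝 b] e ∧ h 0 = α i ∧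
        Injective e' ∧ (∀ w, LD n e' w) ∧ range e' ⊆ range (dd i) ∧ e' =ᶠ[𝓝 0] h ∧ e' b = β i))
    (a0 := g0) ⟨hg0, by rw [hg0b, hbt.1]⟩ hstep
  have hr : ∀ i w, es (i + 1) w ∈ range (dd i) := fun i w =>
    (hs i).2.2.2.2.2.2.2.2.1 ⟨w, rfl⟩
  have hR : ∀ i w, Es i w ∈ C i \ {al i, β i} := fun i w => (hs i).2.2.2.1 ⟨w, rfl⟩
  have hdr : ∀ i, range (dd i) ⊆ C i ∩ C (i + 1) := fun i => by
    rintro _ ⟨w, rfl⟩
    exact dr i w
  exact ⟨C, α, β, es, Es,
    { Cd := hCd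
      Clf := by rw [hC]; exact clf
      pC := hpC'
      ei := fun i => (hs i).2.2.2.2.2.2.1
      ed := fun i => (hs i).2.2.2.2.2.2.2.1
      er := fun i w => (hdr i (hr i w)).1
      er' := fun i w => (hdr i (hr i w)).2
      Ei := fun i => (hs i).2.1
      Ed := fun i => (hs i).2.2.1
      Er := fun i w => (hR i w).1
      Eal := fun i w h => (hR (i + 1) w).2 (by
        rw [h, hal.2]
        exact Or.inl rfl)
      Ebe := fun i w h => (hR i w).2 (by
        rw [h]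
        exact Or.inr rfl)
      E0 := fun i => (hs i).2.2.2.2.2.1
      e0 := fun i => (hs i).2.2.2.2.2.2.2.2.2.1
      eb := fun i => (hs i).2.2.2.2.2.2.2.2.2.2
      Eb := fun i => (hs i).2.2.2.2.1
      s0 := s0
      s0b := by rw [s0, hg0b] }, fun i => by rw [hCr]; exact cW i⟩

end Pool.Agent.H816.Sw
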