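import Pool.Agent.H816.Ph18

/-!
# Removing an isolated singular point: the infinite product
-/

set_option autoImplicit false
set_option linter.unusedSectionVars false

open Set Filter Topology Metric Function
open scoped Manifold ContDiff

noncomputable section

namespace Pool.Agent.H816.Sw

open Pool.Agent.Y522 Pool.Agent.H816

section sys

variable {n : ℕ} {X : Type} [TopologicalSpace X] [ChartedSpace (E n) X] {p : X} {b : E n}
    {g0 : E n → X} {C : ℕ → Set X} {α β : ℕ → X} {es Es : ℕ → E n → X}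

theorem Sys.no (S : Sys p b g0 C α β es Es) {i j : ℕ} {x : X} (hi : x ∈ C i) (hj : x ∈ C j) :
    i ≤ j + 1 := by
  by_contra h
  exact Set.disjoint_left.1 (S.Cd j i (by omega)) hj hi

theorem Sys.α_eq (S : Sys p b g0 C α β es Es) (i : ℕ) : es (i + 1) 0 = α i := by
  rw [(S.e0 i).self_of_nhds, S.E0]

theorem Sys.α1 (S : Sys p b g0 C α β es Es) (i : ℕ) : α i ∈ C i := by
  rw [← S.α_eq]
  exact S.er i 0

theorem Sys.α2 (S : Sys p b g0 C α β es Es) (i : ℕ) : α i ∈ C (i + 1) := by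
  rw [← S.α_eq]
  exact S.er' i 0

theorem Sys.β1 (S : Sys p b g0 C α β es Es) (i : ℕ) : β i ∈ C i := by
  rw [← S.eb]
  exact S.er i b

theorem Sys.β2 (S : Sys p b g0 C α β es Es) (i : ℕ) : β i ∈ C (i + 1) := by
  rw [← S.eb]
  exact S.er' i b

theorem Sys.Eb0 (S : Sys p b g0 C α β es Es) : Es 0 b = p := by
  rw [(S.Eb 0).self_of_nhds, S.s0b]

theorem Sys.Eb1 (S : Sys p b g0 C α β es Es) (i : ℕ) : Es (i + 1) b = β i := by
  rw [(S.Eb (i + 1)).self_of_nhds, S.eb]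

theorem Sys.p_mem (S : Sys p b g0 C α β es Es) {k : ℕ} {w : E n} (h : Es k w = p) : k = 0 := by
  rcases k with - | k
  · rfl
  · exact absurd (h ▸ S.Er (k + 1) w) (S.pC k)

theorem Sys.α_mem (S : Sys p b g0 C α β es Es) {k i : ℕ} {w : E n} (h : Es k w = α i) :
    k = i := by
  have h1 : α i ∈ C k := h ▸ S.Er k w
  have h2 := S.no h1 (S.α1 i)
  have h3 := S.no (S.α2 i) h1
  have h4 : k ≠ i + 1 := fun h4 => S.Eal i w (by rw [← h4]; exact h)
  omega

theorem Sys.β_mem (S : Sys p b g0 C α β es Es) {k i : ℕ} {w : E n} (h : Es k w = β i) :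
    k = i + 1 := by
  have h1 : β i ∈ C k := h ▸ S.Er k w
  have h2 := S.no h1 (S.β1 i)
  have h3 := S.no (S.β2 i) h1
  have h4 : k ≠ i := fun h4 => S.Ebe i w (by rw [← h4]; rw [← h4] at h; exact h)
  omega

theorem Sys.avoid (S : Sys p b g0 C α β es Es) {i : ℕ} {w : E n} (h0 : w ≠ 0) (hb : w ≠ b) :
    Es i w ≠ p ∧ (∀ k, Es i w ≠ α k) ∧ ∀ k, Es i w ≠ β k := by
  refine ⟨fun h => ?_, fun k h => ?_, fun k h => ?_⟩
  · have h1 := S.p_mem h
    subst h1
    exact hb (S.Ei 0 (by rw [h, S.Eb0]))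
  · have h1 := S.α_mem h
    subst h1
    exact h0 (S.Ei i (by rw [h, S.E0]))
  · have h1 := S.β_mem h
    subst h1
    exact hb (S.Ei _ (by rw [h, S.Eb1]))

theorem Sys.esp (S : Sys p b g0 C α β es Es) (i : ℕ) (w : E n) : es (i + 1) w ≠ p := fun h =>
  S.pC i (h ▸ S.er' i w)

theorem Sys.closed [T2Space X] (S : Sys p b g0 C α β es Es) {e : ℕ → E n → X} {φ : ℕ → ℕ}
    (hφ : Injective φ) (he : ∀ i w, LD n (e i) w) (hr : ∀ i w, e i w ∈ C (φ i)) (R : ℝ) :
    IsClosed (⋃ i, e i '' closedBall 0 R) := by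
  have h1 : LocallyFinite fun i => e i '' closedBall 0 R := by
    refine (S.Clf.comp_injective hφ).subset fun i => ?_
    rintro _ ⟨w, -, rfl⟩
    exact hr i w
  refine h1.isClosed_iUnion fun i => ?_
  have h2 : Continuous (e i) := continuous_iff_continuousAt.2 fun w => (he i w).continuousAt
  exact ((isCompact_closedBall 0 R).image h2).isClosed

theorem Sys.dis (S : Sys p b g0 C α β es Es) {e : ℕ → E n → X} {φ ψ : ℕ → ℕ}
    (hφ : ∀ i j, i < j → φ i + 2 ≤ ψ j) (hr : ∀ i w, e i w ∈ C (φ i))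
    (hr' : ∀ i w, e i w ∈ C (ψ i)) : ∀ i j, i ≠ j → Disjoint (range (e i)) (range (e j)) := by
  have key : ∀ i j, i < j → Disjoint (range (e i)) (range (e j)) := by
    intro i j hij
    refine (S.Cd _ _ (hφ i j hij)).mono ?_ ?_
    · rintro _ ⟨w, rfl⟩
      exact hr i w
    · rintro _ ⟨w, rfl⟩
      exact hr' j w
  intro i j hij
  rcases lt_or_gt_of_ne hij with h | h
  · exact key i j h
  · exact (key j i h).symm

end sys

variable {m : ℕ} {X Y : Type} [TopologicalSpace X] [ChartedSpace (E (m + 1)) X]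
  [TopologicalSpace Y] [ChartedSpace (E (m + 1)) Y] {p : X}
  {G θ θ' ν D : E (m + 1) → E (m + 1)} {b : E (m + 1)} {R : ℝ}
  {g0 : E (m + 1) → X} {C : ℕ → Set X} {α β : ℕ → X} {es Es : ℕ → E (m + 1) → X}

theorem Pair.z' (H : Pair G θ θ' ν D b R) : θ' 0 = 0 := by
  have h := H.l 0
  rwa [H.z] at h

theorem Pair.ld' (H : Pair G θ θ' ν D b R) {z : E (m + 1)} (h0 : z ≠ 0) (hb : z ≠ θ b) :
    LD (m + 1) θ' z := by
  have h1 : θ' z ∈ ({0, b}ᶜ : Set (E (m + 1))) := by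
    rintro (h | h)
    · apply h0
      rw [← H.r z, h, H.z]
    · apply hb
      rw [← H.r z, mem_singleton_iff.1 h]
  have h2 : IsOpen ({0, b}ᶜ : Set (E (m + 1))) := (Set.toFinite _).isClosed.isOpen_compl
  have h3 := LD.inverse (k := θ) h2 (fun y hy => H.ld y (fun h => hy (Or.inl h))
    (fun h => hy (Or.inr h))) (g := θ') (fun y _ => H.l y) h1
  rwa [H.r] at h3

/-- the cancellation -/
theorem canc (S : Sys p b g0 C α β es Es) (H : Pair G θ θ' ν D b R) {f f1 F1 F2 : X → Y}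
    (hf : ∀ x, x ≠ p → LD (m + 1) f x) (h0 : LD (m + 1) (fun w => f (g0 (θ' w))) (θ b))
    (h1 : ∀ i z, f1 (es (i + 1) z) = f (es (i + 1) (θ z))) (h1p : f1 =ᶠ[𝓝 p] f) {i : ℕ}
    (h2 : ∀ z, F2 (Es i z) = F1 (Es i (θ' z)))
    (hreg : ∀ w, w ≠ 0 → w ≠ b → LD (m + 1) F1 (Es i w)) (hα : F1 =ᶠ[𝓝 (Es i 0)] f1)
    (hβ : F1 =ᶠ[𝓝 (Es i b)] f1) (z : E (m + 1)) : LD (m + 1) F2 (Es i z) := by
  refine LD_of_comp_right (S.Ed i z) ?_
  have h3 : LD (m + 1) (fun z => F1 (Es i (θ' z))) z := by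
    have hb' : θ' (θ b) = b := H.l b
    by_cases hz0 : z = 0
    · subst hz0
      have h4 : LD (m + 1) (fun z => f (es (i + 1) z)) 0 :=
        LD.comp_fun (g := f) (hf _ (S.esp i 0)) (S.ed i 0)
      refine h4.congr ?_
      have t0 : Tendsto θ' (𝓝 0) (𝓝 0) := by
        have := H.c'.tendsto 0
        rwa [H.z'] at this
      have t1 : Tendsto (fun z => Es i (θ' z)) (𝓝 0) (𝓝 (Es i 0)) :=
        ((S.Ed i 0).continuousAt.tendsto).comp t0
      filter_upwards [t1.eventually hα, t0.eventually (S.e0 i)] with w hw1 hw2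
      rw [hw1, ← hw2, h1, H.r]
    · by_cases hzb : z = θ b
      · subst hzb
        have t0 : Tendsto θ' (𝓝 (θ b)) (𝓝 b) := by
          have := H.c'.tendsto (θ b)
          rwa [hb'] at this
        have t1 : Tendsto (fun z => Es i (θ' z)) (𝓝 (θ b)) (𝓝 (Es i b)) :=
          ((S.Ed i b).continuousAt.tendsto).comp t0
        rcases i with - | i
        · refine h0.congr ?_
          rw [S.Eb0] at t1
          filter_upwards [t1.eventually (by rw [← S.Eb0]; exact hβ), t1.eventually h1p,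
            t0.eventually (S.Eb 0)] with w hw1 hw2 hw3
          rw [hw1, hw2, hw3, S.s0]
        · have h4 : LD (m + 1) (fun z => f (es (i + 1) z)) (θ b) :=
            LD.comp_fun (g := f) (hf _ (S.esp i _)) (S.ed i _)
          refine h4.congr ?_
          filter_upwards [t1.eventually hβ, t0.eventually (S.Eb (i + 1))] with w hw1 hw2
          rw [hw1, hw2, h1, H.r]
      · have h4 : θ' z ≠ 0 := fun h => hz0 (by rw [← H.r z, h, H.z])
        have h5 : θ' z ≠ b := fun h => hzb (by rw [← H.r z, h])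
        exact LD.comp_fun (g := F1) (f := fun z => Es i (θ' z)) (hreg _ h4 h5)
          (LD.comp_fun (g := Es i) (S.Ed i _) (H.ld' hz0 hzb))
  refine h3.congr (Eventually.of_forall fun w => ?_)
  exact h2 w

/-- the three infinite products -/
theorem products [T2Space X] (S : Sys p b g0 C α β es Es) (H : Pair G θ θ' ν D b R) {f : X → Y}
    (hf : ∀ x, x ≠ p → LD (m + 1) f x)
    (h0 : LD (m + 1) (fun w => f (g0 (θ' w))) (θ b)) :
    ∃ P1 P2 P3 : X → X, IsHomeomorph P1 ∧ IsHomeomorph P2 ∧ IsHomeomorph P3 ∧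
      (∀ x, LD (m + 1) (fun x => f (P1 (P2 (P3 x)))) x) ∧
      (∀ x, P1 x = x ∨ ∃ i, x ∈ C i ∧ P1 x ∈ C i) ∧
      (∀ x, P2 x = x ∨ ∃ i, x ∈ C i ∧ P2 x ∈ C i) ∧
      ∀ x, P3 x = x ∨ ∃ i, x ∈ C i ∧ P3 x ∈ C i := by
  have sub : ∀ {e : ℕ → E (m + 1) → X} {x : X}, x ∈ ⋃ i, e i '' closedBall 0 R →
      ∃ i w, e i w = x := by
    intro e x hx
    obtain ⟨i, w, -, hw⟩ := mem_iUnion.1 hx
    exact ⟨i, w, hw⟩
  have mv : ∀ {e : ℕ → E (m + 1) → X} {φ : ℕ → ℕ}, (∀ i w, e i w ∈ C (φ i)) → ∀ {P : X → X},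
      (∀ x, P x = x ∨ ∃ i, x ∈ range (e i) ∧ P x ∈ range (e i)) →
      ∀ x, P x = x ∨ ∃ i, x ∈ C i ∧ P x ∈ C i := by
    intro e φ he P hP x
    refine (hP x).imp_right ?_
    rintro ⟨i, ⟨w, hw⟩, ⟨v, hv⟩⟩
    exact ⟨φ i, hw ▸ he i w, hv ▸ he i v⟩
  -- the first product
  obtain ⟨P1, a1, a2, a3, a4⟩ := exists_prod (e := fun i => es (i + 1)) (R := R) S.ei S.ed
    (S.dis (φ := fun i => i) (ψ := fun i => i + 1) (fun i j hij => by omega) S.er S.er')
    (S.closed (φ := fun i => i) (fun i j h => h) S.ed S.er R) H.l H.r H.c H.c' H.s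
  obtain ⟨f1, hf1⟩ : ∃ f1 : X → Y, f1 = fun x => f (P1 x) := ⟨_, rfl⟩
  have b1 : ∀ i z, f1 (es (i + 1) z) = f (es (i + 1) (θ z)) := fun i z => by
    rw [hf1]
    show f (P1 (es (i + 1) z)) = _
    rw [a2]
  have b2 : ∀ x, (∀ i w, es (i + 1) w ≠ x) → f1 =ᶠ[𝓝 x] f := by
    intro x hx
    filter_upwards [a3 x fun h => (sub h).elim fun i h => h.elim fun w h => hx i w h] with y hy
    rw [hf1]
    show f (P1 y) = f y
    rw [hy]
    rfl
  have b3 : f1 =ᶠ[𝓝 p] f := b2 p S.esp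
  have b4 : ∀ x, x ≠ p → (∀ i, x ≠ α i) → (∀ i, x ≠ β i) → LD (m + 1) f1 x := by
    intro x hp hα hβ
    by_cases hx : ∃ i w, es (i + 1) w = x
    · obtain ⟨i, w, rfl⟩ := hx
      refine LD_of_comp_right (S.ed i w) ?_
      have h3 : LD (m + 1) (fun z => f (es (i + 1) (θ z))) w :=
        LD.comp_fun (g := f) (f := fun z => es (i + 1) (θ z)) (hf _ (S.esp i _))
          (LD.comp_fun (g := es (i + 1)) (S.ed i _) (H.ld w (fun h => hα i (by rw [h, S.α_eq]))
            (fun h => hβ i (by rw [h, S.eb]))))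
      exact h3.congr (Eventually.of_forall fun z => b1 i z)
    · exact (hf x hp).congr (b2 x fun i w h => hx ⟨i, w, h⟩)
  -- the second product
  obtain ⟨P2, c1, c2, c3, c4⟩ := exists_prod (e := fun i => Es (2 * i)) (R := R)
    (fun i => S.Ei _) (fun i => S.Ed _)
    (S.dis (φ := fun i => 2 * i) (ψ := fun i => 2 * i) (fun i j hij => by omega)
      (fun i => S.Er _) (fun i => S.Er _))
    (S.closed (φ := fun i => 2 * i) (fun i j h => by simpa using h) (fun i => S.Ed _)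
      (fun i => S.Er _) R) H.r H.l H.c' H.c H.s'
  obtain ⟨f2, hf2⟩ : ∃ f2 : X → Y, f2 = fun x => f1 (P2 x) := ⟨_, rfl⟩
  have d1 : ∀ i z, f2 (Es (2 * i) z) = f1 (Es (2 * i) (θ' z)) := fun i z => by
    rw [hf2]
    show f1 (P2 (Es (2 * i) z)) = _
    rw [c2]
  have d2 : ∀ x, (∀ i w, Es (2 * i) w ≠ x) → f2 =ᶠ[𝓝 x] f1 := by
    intro x hx
    filter_upwards [c3 x fun h => (sub h).elim fun i h => h.elim fun w h => hx i w h] with y hy
    rw [hf2]
    show f1 (P2 y) = f1 y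
    rw [hy]
    rfl
  have d3 : ∀ i z, LD (m + 1) f2 (Es (2 * i) z) := fun i z =>
    canc S H hf h0 b1 b3 (d1 i) (fun w hw0 hwb => by
      obtain ⟨h1, h2, h3⟩ := S.avoid (i := 2 * i) hw0 hwb
      exact b4 _ h1 h2 h3) EventuallyEq.rfl EventuallyEq.rfl z
  -- the third product
  obtain ⟨P3, e1, e2, e3, e4⟩ := exists_prod (e := fun i => Es (2 * i + 1)) (R := R)
    (fun i => S.Ei _) (fun i => S.Ed _)
    (S.dis (φ := fun i => 2 * i + 1) (ψ := fun i => 2 * i + 1) (fun i j hij => by omega)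
      (fun i => S.Er _) (fun i => S.Er _))
    (S.closed (φ := fun i => 2 * i + 1) (fun i j h => by simpa using h) (fun i => S.Ed _)
      (fun i => S.Er _) R) H.r H.l H.c' H.c H.s'
  obtain ⟨f3, hf3⟩ : ∃ f3 : X → Y, f3 = fun x => f2 (P3 x) := ⟨_, rfl⟩
  have g1 : ∀ i z, f3 (Es (2 * i + 1) z) = f2 (Es (2 * i + 1) (θ' z)) := fun i z => by
    rw [hf3]
    show f2 (P3 (Es (2 * i + 1) z)) = _
    rw [e2]
  have g2 : ∀ x, (∀ i w, Es (2 * i + 1) w ≠ x) → f3 =ᶠ[𝓝 x] f2 := by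
    intro x hx
    filter_upwards [e3 x fun h => (sub h).elim fun i h => h.elim fun w h => hx i w h] with y hy
    rw [hf3]
    show f2 (P3 y) = f2 y
    rw [hy]
    rfl
  have g3 : ∀ i z, LD (m + 1) f3 (Es (2 * i + 1) z) := fun i z => by
    refine canc S H hf h0 b1 b3 (g1 i) (fun w hw0 hwb => ?_) (d2 _ fun j v h => ?_)
      (d2 _ fun j v h => ?_) z
    · obtain ⟨h1, h2, h3⟩ := S.avoid (i := 2 * i + 1) hw0 hwb
      by_cases hx : ∃ j v, Es (2 * j) v = Es (2 * i + 1) w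
      · obtain ⟨j, v, hjv⟩ := hx
        rw [← hjv]
        exact d3 j v
      · exact (b4 _ h1 h2 h3).congr (d2 _ fun j v h => hx ⟨j, v, h⟩)
    · rw [S.E0] at h
      have := S.α_mem h
      omega
    · rw [S.Eb1] at h
      have := S.β_mem h
      omega
  have g4 : ∀ x, LD (m + 1) f3 x := by
    intro x
    by_cases hx : ∃ j v, Es (2 * j + 1) v = x
    · obtain ⟨j, v, rfl⟩ := hx
      exact g3 j v
    · refine LD.congr ?_ (g2 x fun j v h => hx ⟨j, v, h⟩)
      by_cases hx' : ∃ j v, Es (2 * j) v = x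
      · obtain ⟨j, v, rfl⟩ := hx'
        exact d3 j v
      · refine LD.congr ?_ (d2 x fun j v h => hx' ⟨j, v, h⟩)
        have key : ∀ j v, Es j v ≠ x := by
          intro j v h
          obtain ⟨i, rfl | rfl⟩ := j.even_or_odd'
          · exact hx' ⟨i, v, h⟩
          · exact hx ⟨i, v, h⟩
        exact b4 x (fun h => key 0 b (by rw [h, S.Eb0])) (fun i h => key i 0 (by rw [h, S.E0]))
          (fun i h => key (i + 1) b (by rw [h, S.Eb1]))
  refine ⟨P1, P2, P3, a1, c1, e1, fun x => ?_, mv (φ := fun i => i) S.er a4,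
    mv (φ := fun i => 2 * i) (fun i => S.Er _) c4,
    mv (φ := fun i => 2 * i + 1) (fun i => S.Er _) e4⟩
  refine (g4 x).congr (Eventually.of_forall fun y => ?_)
  rw [hf3, hf2, hf1]

end Pool.Agent.H816.Sw
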