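import Pool.Agent.H816.Ph1

/-!
# Smoothing a homeomorphism on the inner side of a sphere
-/

set_option autoImplicit false

open Set Filter Topology Metric Function MeasureTheory
open scoped Manifold ContDiff

noncomputable section

namespace Pool.Agent.H816.Ph

open Pool.Agent.Y522 Pool.Agent.Y207.SH3 Pool.Agent.Q169.AA

variable {n : ℕ}

/-- the scale of the mollification -/
def dl (z : E n) : ℝ := (1 - (min ‖z‖ 1) ^ 2) / 16

theorem mn_mem (z : E n) : 0 ≤ min ‖z‖ 1 ∧ min ‖z‖ 1 ≤ 1 :=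
  ⟨le_min (norm_nonneg _) zero_le_one, min_le_right _ _⟩

theorem dl_nonneg (z : E n) : 0 ≤ dl z := by
  obtain ⟨h1, h2⟩ := mn_mem z
  unfold dl
  have : (min ‖z‖ 1) ^ 2 ≤ 1 := pow_le_one₀ h1 h2
  linarith

theorem dl_le (z : E n) : dl z ≤ 1 / 16 := by
  unfold dl
  have : 0 ≤ (min ‖z‖ 1) ^ 2 := by positivity
  linarith

theorem dl_zero {z : E n} (hz : 1 ≤ ‖z‖) : dl z = 0 := by
  unfold dl
  rw [min_eq_right hz]
  norm_num

theorem dl_pos {z : E n} (hz : ‖z‖ < 1) : 0 < dl z := by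
  unfold dl
  rw [min_eq_left hz.le]
  have : ‖z‖ ^ 2 < 1 := pow_lt_one₀ (norm_nonneg _) hz (by norm_num)
  linarith

theorem dl_lip (y z : E n) : |dl y - dl z| ≤ ‖y - z‖ / 4 := by
  obtain ⟨h1, h2⟩ := mn_mem y
  obtain ⟨h3, h4⟩ := mn_mem z
  have h5 : |min ‖y‖ 1 - min ‖z‖ 1| ≤ ‖y - z‖ :=
    (abs_min_sub_min_le_max _ _ _ _).trans (by
      rw [sub_self, abs_zero]
      exact max_le (abs_norm_sub_norm_le y z) (norm_nonneg _))
  have e : dl y - dl z = (min ‖z‖ 1 + min ‖y‖ 1) * (min ‖z‖ 1 - min ‖y‖ 1) / 16 := by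
    unfold dl
    ring
  rw [e, abs_div, abs_mul, abs_of_nonneg (by linarith : 0 ≤ min ‖z‖ 1 + min ‖y‖ 1), abs_sub_comm]
  have h6 : (min ‖z‖ 1 + min ‖y‖ 1) * |min ‖y‖ 1 - min ‖z‖ 1| ≤ 2 * ‖y - z‖ :=
    mul_le_mul (by linarith) h5 (abs_nonneg _) (by norm_num)
  rw [abs_of_pos (by norm_num : (0 : ℝ) < 16)]
  linarith [norm_nonneg (y - z)]

theorem dl_cont : Continuous (dl : E n → ℝ) := by
  unfold dl
  fun_prop

/-- the distance of the unit sphere -/
theorem dl_dist {z : E n} (h0 : z ≠ 0) (hz : ‖z‖ ≤ 1) :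
    ‖(‖z‖⁻¹ • z)‖ = 1 ∧ ‖z - ‖z‖⁻¹ • z‖ ≤ 16 * dl z := by
  have hz0 : 0 < ‖z‖ := norm_pos_iff.2 h0
  refine ⟨by rw [norm_smul, norm_inv, norm_norm, inv_mul_cancel₀ hz0.ne'], ?_⟩
  have e : z - ‖z‖⁻¹ • z = (1 - ‖z‖⁻¹) • z := by rw [sub_smul, one_smul]
  rw [e, norm_smul, Real.norm_eq_abs, abs_of_nonpos (by
    rw [sub_nonpos]
    exact (one_le_inv₀ hz0).2 hz)]
  unfold dl
  rw [min_eq_left hz]
  have e2 : -(1 - ‖z‖⁻¹) * ‖z‖ = 1 - ‖z‖ := by
    field_simp
    ring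
  rw [e2]
  nlinarith

theorem moll_dl_smooth {G : E n → E n} (hG : ContinuousOn G (closedBall 0 2)) {z : E n}
    (hz : ‖z‖ < 1) : ContDiffAt ℝ ∞ (Moll n G dl) z := by
  obtain ⟨r1, hr1⟩ : ∃ r1 : ℝ, r1 = (‖z‖ + 1) / 2 := ⟨_, rfl⟩
  obtain ⟨r2, hr2⟩ : ∃ r2 : ℝ, r2 = (r1 + 1) / 2 := ⟨_, rfl⟩
  have hz0 := norm_nonneg z
  obtain ⟨χ, hχ⟩ : ∃ χ : ContDiffBump (0 : E n), χ.rIn = r1 ∧ χ.rOut = r2 :=
    ⟨⟨r1, r2, by linarith, by linarith⟩, rfl, rfl⟩
  obtain ⟨c, hc⟩ : ∃ c : E n → ℝ, c = fun y => χ y * ((1 - ‖y‖ ^ 2) / 16) := ⟨_, rfl⟩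
  have hcs : ContDiff ℝ ∞ c := by
    rw [hc]
    exact χ.contDiff.mul ((contDiff_const.sub (contDiff_norm_sq ℝ)).div_const _)
  have hc0 : ∀ y, r2 ≤ ‖y‖ → c y = 0 := fun y hy => by
    rw [hc]
    show χ y * _ = 0
    rw [χ.zero_of_le_dist (by rw [dist_zero_right, hχ.2]; exact hy), zero_mul]
  have hb : ∀ y, 0 ≤ c y ∧ c y ≤ 1 / 16 := by
    intro y
    rcases le_or_gt r2 ‖y‖ with h | h
    · rw [hc0 y h]
      norm_num
    · have h1 : ‖y‖ ^ 2 ≤ 1 := pow_le_one₀ (norm_nonneg _) (by linarith)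
      have h2 : 0 ≤ ‖y‖ ^ 2 := by positivity
      have h3 : 0 ≤ χ y := χ.nonneg
      have h4 : χ y ≤ 1 := χ.le_one
      rw [hc]
      show 0 ≤ χ y * _ ∧ χ y * _ ≤ _
      constructor
      · exact mul_nonneg h3 (by linarith)
      · calc χ y * ((1 - ‖y‖ ^ 2) / 16) ≤ 1 * ((1 - ‖y‖ ^ 2) / 16) :=
              mul_le_mul_of_nonneg_right h4 (by linarith)
          _ ≤ 1 / 16 := by linarith
  have hcd : ∀ y, ‖y‖ < r1 → c y = dl y := fun y hy => by
    rw [hc]
    show χ y * _ = _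
    rw [χ.one_of_mem_closedBall (by rw [mem_closedBall_zero_iff, hχ.1]; exact hy.le), one_mul]
    unfold dl
    rw [min_eq_left (by linarith)]
  have h1 := (Pool.Agent.Y954.SH.mollS n G c hG hcs (fun y => (hb y).1)
    (fun y => (hb y).2.trans (by norm_num)) (fun y hy => hc0 y (by linarith))).2.2.1 z
    (by rw [hcd z (by linarith)]; exact dl_pos hz)
  refine h1.congr_of_eventuallyEq ?_
  have h2 : ∀ᶠ y in 𝓝 z, ‖y‖ < r1 :=
    continuous_norm.continuousAt.eventually (gt_mem_nhds (by linarith))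
  filter_upwards [h2] with y hy
  unfold Moll
  rw [hcd y hy]

/-- properties which hold near the unit sphere hold in a collar -/
theorem radial {Q : E n → Prop} (h : ∀ z : E n, ‖z‖ = 1 → ∀ᶠ p in 𝓝 z, Q p) :
    ∃ r : ℝ, 0 < r ∧ r < 1 ∧ ∀ p : E n, r ≤ ‖p‖ → ‖p‖ ≤ 1 → Q p := by
  obtain ⟨C, hC⟩ : ∃ C : Set (E n), C = closedBall 0 1 ∩ (interior {p | Q p})ᶜ := ⟨_, rfl⟩
  have hCc : IsCompact C := by
    rw [hC]
    exact (isCompact_closedBall _ _).inter_right isOpen_interior.isClosed_compl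
  have hin : ∀ p : E n, ‖p‖ = 1 → p ∈ interior {p | Q p} := fun p hp =>
    mem_interior_iff_mem_nhds.2 (h p hp)
  rcases C.eq_empty_or_nonempty with he | hne
  · refine ⟨1 / 2, by norm_num, by norm_num, fun p _ hp => ?_⟩
    by_contra hcon
    have : p ∈ C := by
      rw [hC]
      exact ⟨mem_closedBall_zero_iff.2 hp, fun h1 => hcon (interior_subset h1)⟩
    rw [he] at this
    exact this
  · obtain ⟨q, hq, hmax⟩ := hCc.exists_isMaxOn hne continuous_norm.continuousOn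
    have hq1 : ‖q‖ < 1 := by
      rw [hC] at hq
      refine lt_of_le_of_ne (mem_closedBall_zero_iff.1 hq.1) fun h1 => hq.2 (hin q h1)
    refine ⟨(‖q‖ + 1) / 2, by positivity, by linarith, fun p hp1 hp => ?_⟩
    by_contra hcon
    have : p ∈ C := by
      rw [hC]
      exact ⟨mem_closedBall_zero_iff.2 hp, fun h1 => hcon (interior_subset h1)⟩
    have h2 : ‖p‖ ≤ ‖q‖ := hmax this
    linarith

section

variable {X Y : Type} [TopologicalSpace X] [T2Space X] [ChartedSpace (E n) X]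
  [TopologicalSpace Y] [T2Space Y] [ChartedSpace (E n) Y]

/-- **Smoothing on the inner side of a sphere.** -/
theorem collar {f : X → Y} (hf : Continuous f) (hfi : Injective f) (hfc : IsClosedMap f)
    {A : E n → X}
    (hAi : InjOn A (closedBall 0 2)) (hAd : ∀ z ∈ closedBall (0 : E n) 2, LD n A z)
    {d : E n → Y} (hdi : Injective d) (hdd : ∀ z, LD n d z)
    (hfd : ∀ z ∈ closedBall (0 : E n) 2, f (A z) ∈ range d) {R : Set X}
    (hSR : ∀ z : E n, ‖z‖ = 1 → A z ∈ R) (hR : ∀ z : E n, ‖z‖ = 1 → ARM n R f (A z)) :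
    ∃ (h : X → Y) (r : ℝ), 0 < r ∧ r < 1 ∧ (∀ x, x ∉ A '' ball 0 1 → h x = f x) ∧
      (∀ x, x ∉ A '' closedBall 0 r → ContinuousAt h x) ∧ InjOn h (A '' closedBall 0 r)ᶜ ∧
      (∀ z : E n, r < ‖z‖ → ‖z‖ < 1 → LD n h (A z)) ∧
      (∀ z : E n, ‖z‖ = 1 → ARM n (R ∪ A '' closedBall 0 1) h (A z)) ∧
      (∀ z : E n, ‖z‖ ≤ 1 → h (A z) ∈ range d) := by
  classical
  obtain ⟨B, hBd⟩ : ∃ B : Y → E n, B = invFun d := ⟨_, rfl⟩
  have hB1 : ∀ v, B (d v) = v := fun v => by rw [hBd]; exact leftInverse_invFun hdi v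
  have hB2 : ∀ y ∈ range d, d (B y) = y := by
    rintro _ ⟨v, rfl⟩
    rw [hB1]
  have hBL : ∀ y ∈ range d, LD n B y := by
    rintro _ ⟨v, rfl⟩
    exact LD.inverse (k := d) (U := univ) isOpen_univ (fun y _ => hdd y) (g := B)
      (fun y _ => hB1 y) (mem_univ v)
  obtain ⟨F, hF⟩ : ∃ F : X → E n, F = fun x => B (f x) := ⟨_, rfl⟩
  obtain ⟨G, hGd⟩ : ∃ G : E n → E n, G = fun z => F (A z) := ⟨_, rfl⟩
  have hGc : ContinuousOn G (closedBall 0 2) := by
    intro z hz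
    rw [hGd, hF]
    refine ContinuousAt.continuousWithinAt ?_
    refine ContinuousAt.comp (g := B) (f := fun z => f (A z)) ?_ ?_
    · exact (hBL _ (hfd z hz)).continuousAt
    · exact ContinuousAt.comp (g := f) hf.continuousAt (hAd z hz).continuousAt
  obtain ⟨M, hM⟩ : ∃ M : E n → E n, M = Moll n G dl := ⟨_, rfl⟩
  have hMc : ContinuousOn M (closedBall 0 (3 / 2)) := by
    rw [hM]
    exact Pool.Agent.Y954.SH.moll_cont hGc dl_cont dl_nonneg
      (fun z => (dl_le z).trans (by norm_num))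
  have hM0 : ∀ z : E n, 1 ≤ ‖z‖ → M z = G z := fun z hz => by
    rw [hM]
    exact Pool.Agent.Y954.SH.moll_const (dl_zero hz)
  have hdM : ∀ z : E n, 1 ≤ ‖z‖ → ‖z‖ ≤ 2 → d (M z) = f (A z) := fun z hz hz2 => by
    rw [hM0 z hz, hGd, hF]
    exact hB2 _ (hfd z (mem_closedBall_zero_iff.2 hz2))
  obtain ⟨A', hA'⟩ : ∃ A' : X → E n, ∀ z ∈ closedBall (0 : E n) 2, A' (A z) = z :=
    ⟨invFunOn A (closedBall 0 2), fun z hz => hAi.leftInvOn_invFunOn hz⟩
  obtain ⟨h, hh⟩ : ∃ h : X → Y, h = fun x => if x ∈ A '' closedBall 0 1 then d (M (A' x)) else f x :=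
    ⟨_, rfl⟩
  have hhA : ∀ z : E n, ‖z‖ ≤ 2 → h (A z) = d (M z) := by
    intro z hz
    have hz2 : z ∈ closedBall (0 : E n) 2 := mem_closedBall_zero_iff.2 hz
    rw [hh]
    by_cases hz1 : A z ∈ A '' closedBall 0 1
    · simp only [if_pos hz1]
      rw [hA' z hz2]
    · simp only [if_neg hz1]
      refine (hdM z ?_ hz).symm
      by_contra hcon
      exact hz1 ⟨z, mem_closedBall_zero_iff.2 (not_le.1 hcon).le, rfl⟩
  have hoff : ∀ x, x ∉ A '' closedBall (0 : E n) 1 → h x = f x := fun x hx => by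
    rw [hh]
    simp only [if_neg hx]
  have hoff' : ∀ x, x ∉ A '' ball (0 : E n) 1 → h x = f x := by
    intro x hx
    by_cases hx1 : x ∈ A '' closedBall (0 : E n) 1
    · obtain ⟨z, hz, rfl⟩ := hx1
      have hz1 : ‖z‖ = 1 := by
        refine le_antisymm (mem_closedBall_zero_iff.1 hz) (not_lt.1 fun h4 => ?_)
        exact hx ⟨z, mem_ball_zero_iff.2 h4, rfl⟩
      rw [hhA z (by linarith)]
      exact hdM z hz1.ge (by linarith)
    · exact hoff x hx1
  have hcl : IsClosed (A '' closedBall (0 : E n) 1) := by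
    apply IsCompact.isClosed
    apply (isCompact_closedBall (0 : E n) 1).image_of_continuousOn
    intro z hz
    exact (hAd z (closedBall_subset_closedBall (by norm_num) hz)).continuousAt.continuousWithinAt
  have hneoff : ∀ x, x ∉ A '' closedBall (0 : E n) 1 → h =ᶠ[𝓝 x] f := fun x hx => by
    filter_upwards [hcl.isOpen_compl.mem_nhds hx] with y hy using hoff y hy
  -- the map near the points of the box
  have hloc : ∀ z : E n, ‖z‖ < 2 → ∃ p : X → E n, LD n p (A z) ∧ p (A z) = z ∧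
      h =ᶠ[𝓝 (A z)] fun w => d (M (p w)) := by
    intro z hz
    obtain ⟨p, hp1, hp2, hp3, hp4⟩ := (hAd z (mem_closedBall_zero_iff.2 hz.le)).exists_inverse
    refine ⟨p, hp1, hp2, ?_⟩
    have h1 : ∀ᶠ w in 𝓝 (A z), ‖p w‖ < 2 := by
      refine hp1.continuousAt.norm.eventually (p := fun r : ℝ => r < 2) ?_
      change ∀ᶠ y in 𝓝 ‖p (A z)‖, y < 2
      rw [hp2]
      exact gt_mem_nhds hz
    filter_upwards [h1, hp4] with w hw1 hw2
    rw [← hhA (p w) hw1.le, hw2]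
  have hcontA : ∀ z : E n, ‖z‖ < 3 / 2 → ContinuousAt h (A z) := by
    intro z hz
    obtain ⟨p, hp1, hp2, hp3⟩ := hloc z (by linarith)
    rw [continuousAt_congr hp3]
    have h1 : ContinuousAt M (p (A z)) := by
      rw [hp2]
      exact hMc.continuousAt (mem_of_superset (isOpen_ball.mem_nhds (mem_ball_zero_iff.2 hz))
        ball_subset_closedBall)
    exact ContinuousAt.comp (g := d) (hdd _).continuousAt
      (ContinuousAt.comp (g := M) h1 hp1.continuousAt)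
  have hcont : ∀ x, x ∉ A '' ball (0 : E n) 1 → ContinuousAt h x := by
    intro x hx
    by_cases hx1 : x ∈ A '' closedBall (0 : E n) 1
    · obtain ⟨z, hz, rfl⟩ := hx1
      exact hcontA z (by have := mem_closedBall_zero_iff.1 hz; linarith)
    · exact (continuousAt_congr (hneoff x hx1)).2 hf.continuousAt
  -- the asymptotic condition
  have hAR : ∀ z : E n, ‖z‖ = 1 → AR n (A ⁻¹' R) G z := by
    intro z hz
    have hz2 : z ∈ closedBall (0 : E n) 2 := mem_closedBall_zero_iff.2 (by linarith)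
    have h1 := hR z hz B (hBL _ (hfd z hz2)) A z (hAd z hz2) rfl
    rw [hGd, hF]
    exact h1
  have hGz : ∀ z : E n, ‖z‖ = 1 → ContinuousOn G (closedBall z 1) := fun z hz =>
    hGc.mono fun y hy => by
      rw [mem_closedBall, dist_eq_norm] at hy
      rw [mem_closedBall_zero_iff]
      have h2 := norm_le_norm_add_norm_sub' y z
      linarith
  have hcen : ∀ p : E n, p ≠ 0 → ‖p‖ ≤ 1 → ∃ p' ∈ A ⁻¹' R, ‖p - p'‖ ≤ 16 * dl p := by
    intro p hp0 hp
    obtain ⟨h1, h2⟩ := dl_dist hp0 hp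
    exact ⟨_, hSR _ h1, h2⟩
  have hMR : ∀ z : E n, ‖z‖ = 1 →
      AR n (A ⁻¹' R ∪ {p | ∃ p' ∈ A ⁻¹' R, ‖p - p'‖ ≤ 16 * dl p}) M z := by
    intro z hz
    rw [hM]
    exact (hAR z hz).moll dl_nonneg dl_lip (dl_zero hz.ge) one_pos (hGz z hz) (by norm_num)
  have hne0 : ∀ z : E n, ‖z‖ = 1 → ∀ᶠ p in 𝓝 z, p ≠ 0 := fun z hz => by
    have : z ≠ 0 := by
      rintro rfl
      simp at hz
    exact isOpen_ne.mem_nhds this
  -- local diffeomorphism
  obtain ⟨r1, hr10, hr11, hr1⟩ := radial (Q := fun p : E n => ‖p‖ < 1 → LD n M p) (fun z hz => by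
    have h1 := (hAR z hz).moll_LD dl_nonneg dl_lip (dl_zero hz.ge) one_pos (hGz z hz)
      (by norm_num : (0:ℝ) ≤ 16)
    filter_upwards [h1, hne0 z hz] with p hp hp0 hp1
    rw [hM]
    refine hp (dl_pos hp1) (hcen p hp0 hp1.le) ?_
    filter_upwards [isOpen_ball.mem_nhds (mem_ball_zero_iff.2 hp1)] with y hy
    exact moll_dl_smooth hGc (mem_ball_zero_iff.1 hy))
  -- injectivity
  have hlocinj : ∀ z : E n, ‖z‖ = 1 → ∃ u ∈ 𝓝 (A z), InjOn h u := by
    intro z hz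
    obtain ⟨r, hr, h1⟩ := (hMR z hz).ne
    have hz2 : z ∈ closedBall (0 : E n) 2 := mem_closedBall_zero_iff.2 (by linarith)
    have h2 : closedBall z r ∩ (ball 0 2 ∩ {p | p ≠ 0}) ∈ 𝓝 z :=
      inter_mem (closedBall_mem_nhds z hr)
        (inter_mem (isOpen_ball.mem_nhds (mem_ball_zero_iff.2 (by linarith))) (hne0 z hz))
    refine ⟨_, (hAd z hz2).image_mem_nhds h2, ?_⟩
    have key : ∀ p q : E n, ‖p - z‖ ≤ r → ‖q - z‖ ≤ r → p ≠ 0 → ‖p‖ ≤ 1 → q ≠ p → M q ≠ M p :=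
      fun p q hp hq hp0 hp1 hne => h1 p q (Or.inr (hcen p hp0 hp1)) hp hq hne
    rintro _ ⟨p, ⟨hp, hp2, hp0⟩, rfl⟩ _ ⟨q, ⟨hq, hq2, hq0⟩, rfl⟩ hpq
    rw [mem_closedBall, dist_eq_norm] at hp hq
    rw [mem_ball_zero_iff] at hp2 hq2
    by_contra hne
    have hpq0 : p ≠ q := fun e => hne (by rw [e])
    rcases le_or_gt ‖p‖ 1 with hp1 | hp1
    · rw [hhA p hp2.le, hhA q hq2.le] at hpq
      exact key p q hp hq hp0 hp1 hpq0.symm (hdi hpq).symm
    · rcases le_or_gt ‖q‖ 1 with hq1 | hq1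
      · rw [hhA p hp2.le, hhA q hq2.le] at hpq
        exact key q p hq hp hq0 hq1 hpq0 (hdi hpq)
      · rw [hhA p hp2.le, hhA q hq2.le, hdM p hp1.le hp2.le, hdM q hq1.le hq2.le] at hpq
        exact hne (hfi hpq)
  have hbo : IsOpen (A '' ball (0 : E n) 1) := by
    rw [isOpen_iff_mem_nhds]
    rintro _ ⟨z, hz, rfl⟩
    exact (hAd z (ball_subset_closedBall (ball_subset_ball (by norm_num) hz))).image_mem_nhds
      (isOpen_ball.mem_nhds hz)
  have hKb : ∀ x ∈ A '' (closedBall (0 : E n) (3 / 2) \ ball 0 1), x ∉ A '' ball (0 : E n) 1 := by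
    rintro _ ⟨z, hz, rfl⟩ ⟨w, hw, hwz⟩
    have h1 : w = z := hAi (ball_subset_closedBall (ball_subset_ball (by norm_num) hw))
      (closedBall_subset_closedBall (by norm_num) hz.1) hwz
    rw [h1] at hw
    exact hz.2 hw
  have hKc : IsCompact (A '' (closedBall (0 : E n) (3 / 2) \ ball 0 1)) := by
    refine ((isCompact_closedBall (0 : E n) (3 / 2)).diff isOpen_ball).image_of_continuousOn ?_
    intro z hz
    exact (hAd z (closedBall_subset_closedBall (by norm_num)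
      hz.1)).continuousAt.continuousWithinAt
  obtain ⟨t, ht, hti⟩ := Set.InjOn.exists_mem_nhdsSet
    (s := A '' (closedBall (0 : E n) (3 / 2) \ ball 0 1)) (f := h)
    (fun x hx y hy hxy => hfi (by rwa [hoff' x (hKb x hx), hoff' y (hKb y hy)] at hxy))
    hKc (fun x hx => hcont x (hKb x hx)) (fun x hx' => by
      have hx := hKb x hx'
      by_cases hx1 : x ∈ A '' closedBall (0 : E n) 1
      · obtain ⟨z, hz, rfl⟩ := hx1
        refine hlocinj z (le_antisymm (mem_closedBall_zero_iff.1 hz) (not_lt.1 fun h4 => ?_))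
        exact hx ⟨z, mem_ball_zero_iff.2 h4, rfl⟩
      · exact ⟨_, hcl.isOpen_compl.mem_nhds hx1, fun a ha b hb hab =>
          hfi (by rwa [hoff a ha, hoff b hb] at hab)⟩)
  have hts : ∀ x ∈ A '' (closedBall (0 : E n) (3 / 2) \ ball 0 1), ∀ᶠ y in 𝓝 x, y ∈ t :=
    fun x hx => mem_nhdsSet_iff_forall.1 ht x hx
  have hAinj1 : ∀ z : E n, ‖z‖ = 1 → A z ∉ A '' ball (0 : E n) 1 := by
    rintro z hz ⟨w, hw, hwz⟩
    have h1 := mem_ball_zero_iff.1 hw
    have h2 : w = z := hAi (mem_closedBall_zero_iff.2 (by linarith))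
      (mem_closedBall_zero_iff.2 (by linarith)) hwz
    rw [h2] at h1
    linarith
  obtain ⟨r2, hr20, hr21, hr2⟩ := radial (Q := fun p : E n => A p ∈ t) (fun z hz =>
    (hAd z (mem_closedBall_zero_iff.2 (by linarith))).continuousAt.eventually
      (hts _ ⟨z, ⟨mem_closedBall_zero_iff.2 (by linarith), by
        rw [mem_ball_zero_iff, hz]
        exact lt_irrefl _⟩, rfl⟩))
  have hfar : IsClosed (f '' (A '' ball (0 : E n) (3 / 2))ᶜ) := by
    refine hfc _ (IsOpen.isClosed_compl ?_)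
    rw [isOpen_iff_mem_nhds]
    rintro _ ⟨z, hz, rfl⟩
    exact (hAd z (ball_subset_closedBall (ball_subset_ball (by norm_num) hz))).image_mem_nhds
      (isOpen_ball.mem_nhds hz)
  obtain ⟨r3, hr30, hr31, hr3⟩ := radial (Q := fun p : E n => h (A p) ∉
      f '' (A '' ball (0 : E n) (3 / 2))ᶜ) (fun z hz => by
    have h1 : ContinuousAt (fun p => h (A p)) z := ContinuousAt.comp (g := h)
      (hcontA z (by linarith)) (hAd z (mem_closedBall_zero_iff.2 (by linarith))).continuousAt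
    refine h1.eventually (hfar.isOpen_compl.mem_nhds ?_)
    show h (A z) ∉ f '' (A '' ball (0 : E n) (3 / 2))ᶜ
    rw [hoff' _ (hAinj1 z hz)]
    rintro ⟨x, hx, hxz⟩
    exact hx ⟨z, mem_ball_zero_iff.2 (by linarith), (hfi hxz).symm⟩)
  obtain ⟨r, hr, hra, hrb, hrc, hr0⟩ : ∃ r : ℝ, r < 1 ∧ r1 ≤ r ∧ r2 ≤ r ∧ r3 ≤ r ∧ 0 < r :=
    ⟨max r1 (max r2 r3), max_lt hr11 (max_lt hr21 hr31), le_max_left _ _,
      (le_max_left _ _).trans (le_max_right _ _), (le_max_right _ _).trans (le_max_right _ _),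
      lt_of_lt_of_le hr10 (le_max_left _ _)⟩
  have hdich : ∀ x, x ∉ A '' closedBall (0 : E n) r → (∃ z : E n, r < ‖z‖ ∧ ‖z‖ ≤ 1 ∧ A z = x) ∨
      x ∉ A '' closedBall (0 : E n) 1 := by
    intro x hx
    by_cases hx1 : x ∈ A '' closedBall (0 : E n) 1
    · obtain ⟨z, hz, rfl⟩ := hx1
      refine Or.inl ⟨z, ?_, mem_closedBall_zero_iff.1 hz, rfl⟩
      by_contra hcon
      exact hx ⟨z, mem_closedBall_zero_iff.2 (not_lt.1 hcon), rfl⟩
    · exact Or.inr hx1
  refine ⟨h, r, hr0, hr, hoff', ?_, ?_, ?_, ?_, fun z hz => by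
    rw [hhA z (by linarith)]
    exact mem_range_self _⟩
  · intro x hx
    rcases hdich x hx with ⟨z, hz1, hz2, rfl⟩ | h1
    · exact hcontA z (by linarith)
    · exact (continuousAt_congr (hneoff x h1)).2 hf.continuousAt
  · have hin : ∀ x, x ∉ A '' closedBall (0 : E n) r → x ∈ A '' ball (0 : E n) (3 / 2) → x ∈ t := by
      rintro _ hx ⟨z, hz, rfl⟩
      have hz1 : r < ‖z‖ := by
        by_contra hcon
        exact hx ⟨z, mem_closedBall_zero_iff.2 (not_lt.1 hcon), rfl⟩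
      rcases le_or_gt ‖z‖ 1 with hz2 | hz2
      · exact hr2 z (by linarith) hz2
      · refine (hts (A z) ⟨z, ⟨ball_subset_closedBall hz, ?_⟩, rfl⟩).self_of_nhds
        rw [mem_ball_zero_iff, not_lt]
        exact hz2.le
    have hmix : ∀ x y, x ∉ A '' closedBall (0 : E n) r → x ∈ A '' ball (0 : E n) (3 / 2) →
        y ∉ A '' ball (0 : E n) (3 / 2) → h x = h y → x = y := by
      rintro _ y hx ⟨z, hz, rfl⟩ hy hxy
      have hz1 : r < ‖z‖ := by
        by_contra hcon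
        exact hx ⟨z, mem_closedBall_zero_iff.2 (not_lt.1 hcon), rfl⟩
      have hy1 : y ∉ A '' ball (0 : E n) 1 := fun h1 =>
        hy (image_mono (ball_subset_ball (by norm_num)) h1)
      rw [hoff' y hy1] at hxy
      rcases lt_or_ge ‖z‖ 1 with hz2 | hz2
      · exact absurd ⟨y, hy, hxy.symm⟩ (hr3 z (by linarith) hz2.le)
      · have hz3 : A z ∉ A '' ball (0 : E n) 1 := by
          rintro ⟨w, hw, hwz⟩
          have h1 : w = z := hAi (ball_subset_closedBall (ball_subset_ball (by norm_num) hw))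
            (ball_subset_closedBall (ball_subset_ball (by norm_num) hz)) hwz
          rw [h1] at hw
          exact not_lt.2 hz2 (mem_ball_zero_iff.1 hw)
        rw [hoff' _ hz3] at hxy
        exact hfi hxy
    intro x hx y hy hxy
    by_cases hx1 : x ∈ A '' ball (0 : E n) (3 / 2)
    · by_cases hy1 : y ∈ A '' ball (0 : E n) (3 / 2)
      · exact hti (hin x hx hx1) (hin y hy hy1) hxy
      · exact hmix x y hx hx1 hy1 hxy
    · by_cases hy1 : y ∈ A '' ball (0 : E n) (3 / 2)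
      · exact (hmix y x hy hy1 hx1 hxy.symm).symm
      · have h1 : x ∉ A '' ball (0 : E n) 1 := fun h1 =>
          hx1 (image_mono (ball_subset_ball (by norm_num)) h1)
        have h2 : y ∉ A '' ball (0 : E n) 1 := fun h1 =>
          hy1 (image_mono (ball_subset_ball (by norm_num)) h1)
        rw [hoff' x h1, hoff' y h2] at hxy
        exact hfi hxy
  · intro z hz1 hz2
    obtain ⟨p, hp1, hp2, hp3⟩ := hloc z (by linarith)
    refine LD.congr ?_ hp3
    refine LD.comp_fun (g := d) (hdd _) (LD.comp_fun (g := M) ?_ hp1)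
    rw [hp2]
    exact hr1 z (by linarith) hz2.le hz2
  · intro z hz
    have hz2 : z ∈ closedBall (0 : E n) 2 := mem_closedBall_zero_iff.2 (by linarith)
    have hhz : h (A z) = f (A z) := hoff' _ (hAinj1 z hz)
    refine ARM.of (hcontA z (by linarith)) (B := B) (by rw [hhz]; exact hBL _ (hfd z hz2)) ?_
    refine ARE.of (hAd z hz2) ?_
    have h2 : ∀ᶠ y in 𝓝 z, ‖y‖ < 2 := continuous_norm.continuousAt.eventually
      (gt_mem_nhds (by linarith))
    refine AR.congr (G := M) (AR.mono (hMR z hz) ?_) ?_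
    · filter_upwards [h2, hne0 z hz] with y hy hy0 hyR
      rcases hyR with h3 | ⟨w, hw, hwy⟩
      · exact Or.inl h3
      · right
        have h4 := mem_closedBall_zero_iff.1 hw
        have h5 : w = y := hAi (mem_closedBall_zero_iff.2 (by linarith))
          (mem_closedBall_zero_iff.2 hy.le) hwy
        rw [h5] at h4
        exact hcen y hy0 h4
    · filter_upwards [h2] with y hy
      rw [hhA y hy.le, hB1]

end

end Pool.Agent.H816.Ph
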