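import Pool.Agent.H816.Ph8
import Pool.Graph.R_pool_sql_team_seeded_2aa45f1a.Q130.CM.Mix

/-!
# Smoothing off isolated points
-/

set_option autoImplicit false
set_option linter.unusedSectionVars false

open Set Filter Topology Metric MeasureTheory Module Function
open scoped Manifold ContDiff ENNReal Uniformity

noncomputable section

namespace Pool.Agent.H816.Ph

open Pool.Agent.Y522 Pool.Agent.Y207.SH3 Pool.Agent.Q169.AA Pool.Agent.H816.Sob Pool.Agent.H816
open Pool.Agent.Q130.CM Pool.Agent.Y170.NA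

variable {m : ℕ} {X Y : Type} [TopologicalSpace X] [ChartedSpace (E (m + 1)) X]
  [TopologicalSpace Y] [ChartedSpace (E (m + 1)) Y]

theorem AAM_sub (U : TopologicalSpace.Opens X) (W : TopologicalSpace.Opens Y) (g : U → W)
    (f : X → Y) (hfg : ∀ u : U, (g u : Y) = f u) (hg : Continuous g) (u : U)
    (h : AAM (m + 1) f (u : X)) : AAM (m + 1) g u := by
  intro B hB A z hA hz
  obtain ⟨p, hp1, hp2, hp3, hp4⟩ := (LD_val (n := m + 1) W (g u)).exists_inverse
  have hB1 : LD (m + 1) (fun y => B (p y)) (f (u : X)) := by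
    refine LD.comp_fun (g := B) ?_ (by rw [← hfg u]; exact hp1)
    rw [← hfg u, hp2]
    exact hB
  have hA1 : LD (m + 1) (fun y => ((A y : U) : X)) z := LD.comp_fun (LD_val U (A z)) hA
  have h1 := h (fun y => B (p y)) hB1 (fun y => ((A y : U) : X)) z hA1 (by rw [hz])
  refine h1.congr ?_
  have h2 : Tendsto (fun y => g (A y)) (𝓝 z) (𝓝 (g u)) := by
    have h3 : ContinuousAt (fun y => g (A y)) z := hg.continuousAt.comp hA.continuousAt
    have h4 : Tendsto (fun y => g (A y)) (𝓝 z) (𝓝 (g (A z))) := h3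
    rwa [hz] at h4
  filter_upwards [h2.eventually hp3] with y hy
  show B (g (A y)) = B (p (f ((A y : U) : X)))
  rw [← hfg (A y), hy]

variable [IsManifold (𝓡 (m + 1)) ∞ X] [IsManifold (𝓡 (m + 1)) ∞ Y] [T2Space X] [T2Space Y]
  [SigmaCompactSpace X]

/-- **Smoothing off a closed discrete set.** -/
theorem smooth_off (f : X ≃ₜ Y) {P V : Set X} (hP : IsClosed P) (hV : IsOpen V)
    (hbad : ∀ x, x ∉ P → ¬ LD (m + 1) f x → x ∈ V ∧ AAM (m + 1) f x)
    (hnear : ∀ p ∈ P, ∀ᶠ x in 𝓝[≠] p, LD (m + 1) f x)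
    {O : Set (X × Y)} (hO : IsOpen O) (hfO : ∀ x, (x, f x) ∈ O) :
    ∃ f' : X → Y, IsHomeomorph f' ∧ (∀ x, (x, f' x) ∈ O) ∧ (∀ x, x ∉ P → LD (m + 1) f' x) ∧
      ∀ x, x ∉ V → f' x = f x := by
  classical
  have : LocallyCompactSpace X := ChartedSpace.locallyCompactSpace (E (m + 1)) X
  have : SecondCountableTopology X :=
    ChartedSpace.secondCountable_of_sigmaCompact (E (m + 1)) X
  obtain ⟨U, hU⟩ : ∃ U : TopologicalSpace.Opens X, ∀ x, x ∈ U ↔ x ∉ P :=
    ⟨⟨Pᶜ, hP.isOpen_compl⟩, fun x => Iff.rfl⟩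
  obtain ⟨W, hW⟩ : ∃ W : TopologicalSpace.Opens Y, ∀ y, y ∈ W ↔ f.symm y ∈ U :=
    ⟨⟨f.symm ⁻¹' U, U.2.preimage f.symm.continuous⟩, fun y => Iff.rfl⟩
  have hfW : ∀ x, x ∈ U ↔ f x ∈ W := fun x => by rw [hW, f.symm_apply_apply]
  -- the singular set off `P` is closed
  have hG : IsOpen ({x | LD (m + 1) f x} ∪ P) := by
    rw [isOpen_iff_mem_nhds]
    rintro x (hx | hx)
    · exact mem_of_superset hx.eventually fun y hy => Or.inl hy
    · have h1 := hnear x hx
      rw [eventually_nhdsWithin_iff] at h1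
      filter_upwards [h1] with y hy
      by_cases hyx : y = x
      · exact Or.inr (by rw [hyx]; exact hx)
      · exact Or.inl (hy hyx)
  have hZ : ({x | LD (m + 1) f x} ∪ P)ᶜ ⊆ (U : Set X) ∩ V := by
    intro x hx
    rw [mem_compl_iff, mem_union, not_or] at hx
    exact ⟨(hU x).2 hx.2, (hbad x hx.2 hx.1).1⟩
  obtain ⟨V1, hV1, hZV, hVU⟩ := normal_exists_closure_subset hG.isClosed_compl (U.2.inter hV) hZ
  -- the map of the open submanifolds
  let g : U ≃ₜ W := f.subtype hfW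
  have hg : ∀ u : U, ((g u : W) : Y) = f u := fun u => rfl
  have : LocallyCompactSpace U := ChartedSpace.locallyCompactSpace (E (m + 1)) U
  obtain ⟨g', hg'O, hg'b, hg'd, hg'V⟩ := Pool.Agent.Q169.AA.aaInf (m + 1) U W g
    (Subtype.val ⁻¹' V1) (hV1.preimage continuous_subtype_val) (fun u hu => by
      have h1 : ¬ LD (m + 1) f (u : X) := fun h =>
        hu (LD_sub' U W g f hg g.continuous u h)
      have h2 : (u : X) ∉ P := (hU u).1 u.2
      refine ⟨hZV ?_, AAM_sub U W g f hg g.continuous u (hbad u h2 h1).2⟩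
      rintro (h | h)
      · exact h1 h
      · exact h2 h)
    ((fun p : U × W => ((p.1 : X), (p.2 : Y))) ⁻¹' O)
    (hO.preimage (by fun_prop)) (fun u => hfO u)
  -- gluing
  let f1 : X → Y := fun x => if h : x ∈ U then ((g' ⟨x, h⟩ : W) : Y) else f x
  have h1in : ∀ u : U, f1 (u : X) = g' u := fun u => by
    show (if h : (u : X) ∈ U then ((g' ⟨u, h⟩ : W) : Y) else f u) = g' u
    rw [dif_pos u.2]
  have h1out : ∀ x, x ∉ V1 → f1 x = f x := by
    intro x hx
    by_cases hxU : x ∈ U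
    · have h2 := h1in ⟨x, hxU⟩
      rw [hg'V ⟨x, hxU⟩ hx] at h2
      exact h2
    · show (if h : x ∈ U then ((g' ⟨x, h⟩ : W) : Y) else f x) = f x
      rw [dif_neg hxU]
  have h1LD : ∀ x ∈ U, LD (m + 1) f1 x := fun x hx =>
    LD_sub U W g' f1 (fun u => (h1in u).symm) ⟨x, hx⟩ (hg'd _)
  have h1loc : ∀ x, x ∉ U → f1 =ᶠ[𝓝 x] f := by
    intro x hx
    have h2 : x ∈ (closure V1)ᶜ := fun h => hx (hVU h).1
    filter_upwards [isClosed_closure.isOpen_compl.mem_nhds h2] with y hy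
    exact h1out y fun h => hy (subset_closure h)
  have h1c : Continuous f1 := by
    rw [continuous_iff_continuousAt]
    intro x
    by_cases hx : x ∈ U
    · exact (h1LD x hx).continuousAt
    · exact f.continuous.continuousAt.congr (h1loc x hx).symm
  have h1b : Bijective f1 := by
    constructor
    · intro a b hab
      by_cases ha : a ∈ U
      · by_cases hb : b ∈ U
        · have h2 := h1in ⟨a, ha⟩
          have h3 := h1in ⟨b, hb⟩
          have h4 : g' ⟨a, ha⟩ = g' ⟨b, hb⟩ := Subtype.ext (h2.symm.trans (hab.trans h3))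
          exact congrArg Subtype.val (hg'b.1 h4)
        · exfalso
          have h2 := h1in ⟨a, ha⟩
          have h3 : f1 b = f b := (h1loc b hb).self_of_nhds
          apply hb
          rw [hfW, ← h3, ← hab, h2]
          exact (g' ⟨a, ha⟩).2
      · by_cases hb : b ∈ U
        · exfalso
          have h2 := h1in ⟨b, hb⟩
          have h3 : f1 a = f a := (h1loc a ha).self_of_nhds
          apply ha
          rw [hfW, ← h3, hab, h2]
          exact (g' ⟨b, hb⟩).2
        · have h3 : f1 a = f a := (h1loc a ha).self_of_nhds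
          have h4 : f1 b = f b := (h1loc b hb).self_of_nhds
          exact f.injective (by rw [← h3, ← h4, hab])
    · intro y
      by_cases hy : y ∈ W
      · obtain ⟨u, hu⟩ := hg'b.2 ⟨y, hy⟩
        exact ⟨u, by rw [h1in u, hu]⟩
      · have h2 : f.symm y ∉ U := fun h => hy ((hW y).2 h)
        refine ⟨f.symm y, ?_⟩
        rw [(h1loc _ h2).self_of_nhds, f.apply_symm_apply]
  have h1O : ∀ x, (x, f1 x) ∈ O := by
    intro x
    by_cases hx : x ∈ U
    · have h2 := hg'O ⟨x, hx⟩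
      rw [h1in ⟨x, hx⟩]
      exact h2
    · rw [(h1loc x hx).self_of_nhds]
      exact hfO x
  refine ⟨f1, ⟨h1c, isOpenMap_of_injective (m + 1) f1 h1c h1b.1, h1b⟩, h1O,
    fun x hx => h1LD x ((hU x).2 hx), fun x hx => h1out x fun h => hx (hVU (subset_closure h)).2⟩

/-- **Homeomorphisms of class `W^{2,n-1}`** can be approximated by homeomorphisms with finitely many
singular points. -/
theorem exists_smooth_off (hm : 2 ≤ m) {f0 : X → Y}
    (hf0 : IsHomeomorph f0) (hSc : IsCompact {x | ¬ LD (m + 1) f0 x}) {V : Set X} (hV : IsOpen V)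
    (hgd : ∀ x, ¬ LD (m + 1) f0 x → x ∈ V ∧ ∃ (A : E (m + 1) → X) (ρ : ℝ), A 0 = x ∧
      Gd (n := m + 1) f0 A ρ)
    {O : Set (X × Y)} (hO : IsOpen O) (hfO : ∀ x, (x, f0 x) ∈ O) :
    ∃ f : X → Y, IsHomeomorph f ∧ {x | ¬ LD (m + 1) f x}.Finite ∧ (∀ x, (x, f x) ∈ O) ∧
      ∀ x, x ∉ V → f x = f0 x := by
  obtain ⟨P, f1, h1, h2, h3, h4, h5, h6⟩ := exists_isolated hm hf0 hSc hV hgd hO hfO
  obtain ⟨f, g1, g2, g3, g4⟩ := smooth_off (h1.homeomorph f1) h2.isClosed hV h3 h4 hO h5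
  refine ⟨f, g1, h2.subset fun x hx => ?_, g2, fun x hx => by rw [g4 x hx]; exact h6 x hx⟩
  by_contra hxP
  exact hx (g3 x hxP)

end Pool.Agent.H816.Ph
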