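import Pool.Agent.H816.Ph19
import Pool.Agent.H816.Ph9

/-!
# Isolated singular points of homeomorphisms of open manifolds can be removed
-/

set_option autoImplicit false
set_option linter.unusedSectionVars false

open Set Filter Topology Metric Function
open scoped Manifold ContDiff

noncomputable section

namespace Pool.Agent.H816.Sw

open Pool.Agent.Y522 Pool.Agent.H816

variable {m : ℕ}

theorem swindle_metric (hm : 2 ≤ m) {X Y : Type} [MetricSpace X] [SigmaCompactSpace X]
    [ConnectedSpace X] [NoncompactSpace X] [ChartedSpace (E (m + 1)) X]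
    [IsManifold (𝓡 (m + 1)) ∞ X] [TopologicalSpace Y] [ChartedSpace (E (m + 1)) Y]
    [IsManifold (𝓡 (m + 1)) ∞ Y] {f : X → Y} (hfh : IsHomeomorph f) {p : X}
    (hf : ∀ x, x ≠ p → LD (m + 1) f x) {O : Set (X × Y)} (hO : IsOpen O)
    (hfO : ∀ x, (x, f x) ∈ O) :
    ∃ g : X → Y, IsHomeomorph g ∧ (∀ x, LD (m + 1) g x) ∧ ∀ x, (x, g x) ∈ O := by
  -- the gauge
  obtain ⟨Ω, hΩ⟩ : ∃ Ω : Set (X × X), Ω = (fun q : X × X => (q.1, f q.2)) ⁻¹' O := ⟨_, rfl⟩
  have hfc : Continuous f := hfh.continuous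
  have hΩo : IsOpen Ω := by
    rw [hΩ]
    exact hO.preimage (by fun_prop)
  obtain ⟨ε, ε0, ε1, ε2⟩ := exists_gauge hΩo (fun x => by rw [hΩ]; exact hfO x)
  have hεO : ∀ x y, dist x y < ε x → (x, f y) ∈ O := fun x y hxy => by
    have := ε2 x y hxy
    rwa [hΩ] at this
  -- the cells at the singular point
  obtain ⟨d, d0, d1, d2, -⟩ := cell_exists (n := m + 1) (univ_mem : (univ : Set Y) ∈ 𝓝 (f p))
  have hdo : IsOpen (range d) := range_open d2
  obtain ⟨c, c0, c1, c2, c3⟩ := cell_exists (n := m + 1) (x := p)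
    (hfc.continuousAt.preimage_mem_nhds (hdo.mem_nhds ⟨0, d0⟩))
  have c3' : ∀ z, f (c z) ∈ range d := fun z => c3 z
  obtain ⟨G, hG⟩ : ∃ G : E (m + 1) → E (m + 1), G = fun z => invFun d (f (c z)) := ⟨_, rfl⟩
  have hdG : ∀ z, d (G z) = f (c z) := fun z => by
    rw [hG]
    exact invFun_eq (c3' z)
  have hinv : ∀ z, LD (m + 1) (invFun d) (f (c z)) := fun z => by
    obtain ⟨w, hw⟩ := c3' z
    rw [← hw]
    exact LD.inverse (k := d) (U := univ) isOpen_univ (fun y _ => d2 y)
      (g := invFun d) (fun y _ => leftInverse_invFun d1 y) (mem_univ w)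
  have hGc : Continuous G := by
    rw [continuous_iff_continuousAt]
    intro z
    rw [hG]
    exact (hinv z).continuousAt.comp (f := fun z => f (c z))
      (hfc.continuousAt.comp (c2 z).continuousAt)
  have hGi : Injective G := fun a b hab => by
    have h := congrArg d hab
    rw [hdG, hdG] at h
    exact c1 (hfh.injective h)
  have hGd : ∀ z : E (m + 1), z ≠ 0 → ‖z‖ < 2 → LD (m + 1) G z := fun z hz _ => by
    rw [hG]
    refine LD.comp_fun (g := invFun d) (f := fun z => f (c z)) (hinv z)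
      (LD.comp_fun (g := f) (hf _ fun h => hz (c1 ?_)) (c2 z))
    rw [h, c0]
  obtain ⟨θ, θ', ν, D, b, R, H⟩ := exists_pair hm hGc.continuousOn hGi.injOn hGd
  obtain ⟨g0, hg0⟩ : ∃ g0 : E (m + 1) → X, g0 = fun v => c (ν v) := ⟨_, rfl⟩
  have k1 : LD (m + 1) g0 b := by
    rw [hg0]
    exact LD.comp_fun (g := c) (c2 _) H.νd
  have k2 : g0 b = p := by
    rw [hg0]
    show c (ν b) = p
    rw [H.νb, c0]
  have k3 : LD (m + 1) (fun w => f (g0 (θ' w))) (θ b) := by
    have h1 : LD (m + 1) (fun w => d (D w)) (θ b) := LD.comp_fun (g := d) (d2 _) H.Dd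
    refine h1.congr ?_
    filter_upwards [H.ty] with w hw
    rw [hg0]
    show f (c (ν (θ' w))) = d (D w)
    rw [← hdG, hw]
  obtain ⟨C, α, β, es, Es, S, hCW⟩ := exists_sys (n := m + 1) (by omega)
    (fun x => ball x (ε x / 21)) (fun x => ball_mem_nhds x (by have := ε0 x; positivity)) p H.b0
    k1 k2
  obtain ⟨P1, P2, P3, a1, a2, a3, a4, q1, q2, q3⟩ := products S H hf k3
  -- the moves are small
  have small : ∀ i x y, x ∈ C i → y ∈ C i → dist x y ≤ ε x / 10 := by
    intro i x y hx hy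
    obtain ⟨u, hu⟩ := hCW i
    have h1 : dist x u < ε u / 21 := hu hx
    have h2 : dist y u < ε u / 21 := hu hy
    have h3 := ε1 u x
    rw [dist_comm u x] at h3
    have h4 := dist_triangle_right x y u
    linarith
  have mv : ∀ {P : X → X}, (∀ x, P x = x ∨ ∃ i, x ∈ C i ∧ P x ∈ C i) →
      ∀ x, dist x (P x) ≤ ε x / 10 := by
    intro P hP x
    rcases hP x with h | ⟨i, h1, h2⟩
    · rw [h, dist_self]
      have := ε0 x
      positivity
    · exact small i x _ h1 h2
  refine ⟨fun x => f (P1 (P2 (P3 x))), hfh.comp (a1.comp (a2.comp a3)), a4, fun x => ?_⟩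
  apply hεO
  have e1 := mv q3 x
  have e2 := mv q2 (P3 x)
  have e3 := mv q1 (P2 (P3 x))
  have e4 := ε1 (P3 x) x
  rw [dist_comm] at e4
  have e5 := ε1 (P2 (P3 x)) (P3 x)
  rw [dist_comm] at e5
  have e6 := dist_triangle4 x (P3 x) (P2 (P3 x)) (P1 (P2 (P3 x)))
  have e7 := ε0 x
  linarith

/-- **One singular point of a homeomorphism of a connected open manifold can be removed** by a
change which is as small as one wants. -/
theorem swindle (hm : 2 ≤ m) {X Y : Type} [TopologicalSpace X] [T2Space X] [SigmaCompactSpace X]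
    [ConnectedSpace X] [NoncompactSpace X] [ChartedSpace (E (m + 1)) X]
    [IsManifold (𝓡 (m + 1)) ∞ X] [TopologicalSpace Y] [ChartedSpace (E (m + 1)) Y]
    [IsManifold (𝓡 (m + 1)) ∞ Y] {f : X → Y} (hfh : IsHomeomorph f) {p : X}
    (hf : ∀ x, x ≠ p → LD (m + 1) f x) {O : Set (X × Y)} (hO : IsOpen O)
    (hfO : ∀ x, (x, f x) ∈ O) :
    ∃ g : X → Y, IsHomeomorph g ∧ (∀ x, LD (m + 1) g x) ∧ ∀ x, (x, g x) ∈ O := by
  have : TopologicalSpace.MetrizableSpace X := Manifold.metrizableSpace (𝓡 (m + 1)) X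
  let _ := TopologicalSpace.metrizableSpaceMetric X
  exact swindle_metric hm hfh hf hO hfO

end Pool.Agent.H816.Sw
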