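import Pool.Agent.H816.Ph20

/-!
# Finitely many singular points
-/

set_option autoImplicit false
set_option linter.unusedSectionVars false

open Set Filter Topology Metric Function
open scoped Manifold ContDiff

noncomputable section

namespace Pool.Agent.H816.Sw

open Pool.Agent.Y522 Pool.Agent.H816 Pool.Agent.Q130.CM

theorem exists_delta {X : Type} [MetricSpace X] {P : Set X} (hP : IsClosed P) :
    ∃ δ : X → ℝ, Continuous δ ∧ (∀ x, x ∉ P → 0 < δ x) ∧ ∀ x, ∀ p ∈ P, δ x ≤ dist x p := by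
  by_cases hne : P.Nonempty
  · exact ⟨fun x => infDist x P, continuous_infDist_pt P,
      fun x hx => (hP.notMem_iff_infDist_pos hne).1 hx, fun x p hp => infDist_le_dist_of_mem hp⟩
  · exact ⟨fun _ => 1, continuous_const, fun _ _ => one_pos,
      fun x p hp => absurd ⟨p, hp⟩ hne⟩

variable {m : ℕ}

/-- homeomorphisms of open sets, close to a given one, extend -/
theorem ext_off {X Y : Type} [MetricSpace X] [ChartedSpace (E (m + 1)) X]
    [IsManifold (𝓡 (m + 1)) ∞ X] [TopologicalSpace Y] [ChartedSpace (E (m + 1)) Y]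
    [IsManifold (𝓡 (m + 1)) ∞ Y]
    (f : X ≃ₜ Y) {U : TopologicalSpace.Opens X} {W : TopologicalSpace.Opens Y}
    (hfW : ∀ x, x ∈ U ↔ f x ∈ W) {δ : X → ℝ} (hδ : ∀ x, ∀ p, p ∉ U → δ x ≤ dist x p)
    {g : U → W} (hg : IsHomeomorph g) (hgd : ∀ u : U, dist (u : X) (f.symm (g u : Y)) < δ u) :
    ∃ f1 : X → Y, IsHomeomorph f1 ∧ (∀ u : U, f1 u = g u) ∧ ∀ x, x ∉ U → f1 x = f x := by
  classical
  let f1 : X → Y := fun x => if h : x ∈ U then ((g ⟨x, h⟩ : W) : Y) else f x
  have h1in : ∀ u : U, f1 (u : X) = g u := fun u => by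
    show (if h : (u : X) ∈ U then ((g ⟨u, h⟩ : W) : Y) else f u) = g u
    rw [dif_pos u.2]
  have h1out : ∀ x, x ∉ U → f1 x = f x := fun x hx => by
    show (if h : x ∈ U then ((g ⟨x, h⟩ : W) : Y) else f x) = f x
    rw [dif_neg hx]
  have hdist : ∀ x, ∀ p, p ∉ U → dist x (f.symm (f1 x)) ≤ dist x p := by
    intro x p hp
    by_cases hx : x ∈ U
    · have h1 := hgd ⟨x, hx⟩
      rw [← h1in ⟨x, hx⟩] at h1
      exact h1.le.trans (hδ x p hp)
    · rw [h1out x hx, f.symm_apply_apply, dist_self]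
      exact dist_nonneg
  have h1c : Continuous f1 := by
    rw [continuous_iff_continuousAt]
    intro x
    by_cases hx : x ∈ U
    · have h1 : ContinuousOn f1 U := by
        rw [continuousOn_iff_continuous_domRestrict]
        have h2 : (U : Set X).domRestrict f1 = fun u : U => ((g u : W) : Y) := by
          funext u
          exact h1in u
        rw [h2]
        exact continuous_subtype_val.comp hg.continuous
      exact h1.continuousAt (U.2.mem_nhds hx)
    · have h1 : Tendsto (fun y => f.symm (f1 y)) (𝓝 x) (𝓝 (f.symm (f1 x))) := by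
        rw [h1out x hx, f.symm_apply_apply]
        rw [tendsto_iff_dist_tendsto_zero]
        have h2 : Tendsto (fun y => 2 * dist y x) (𝓝 x) (𝓝 0) := by
          have h3 : Continuous fun y : X => 2 * dist y x := by fun_prop
          have h4 := h3.tendsto x
          simpa using h4
        refine squeeze_zero (fun y => dist_nonneg) (fun y => ?_) h2
        have h5 := hdist y x hx
        have h6 := dist_triangle_left (f.symm (f1 y)) x y
        linarith
      have h3 : ContinuousAt (fun y => f (f.symm (f1 y))) x :=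
        f.continuous.continuousAt.comp (f := fun y => f.symm (f1 y)) h1
      simpa using h3
  have h1b : Bijective f1 := by
    constructor
    · intro a b hab
      by_cases ha : a ∈ U
      · by_cases hb : b ∈ U
        · have h2 := h1in ⟨a, ha⟩
          have h3 := h1in ⟨b, hb⟩
          have h4 : g ⟨a, ha⟩ = g ⟨b, hb⟩ := Subtype.ext (h2.symm.trans (hab.trans h3))
          exact congrArg Subtype.val (hg.bijective.1 h4)
        · exfalso
          apply hb
          rw [hfW, ← h1out b hb, ← hab, h1in ⟨a, ha⟩]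
          exact (g ⟨a, ha⟩).2
      · by_cases hb : b ∈ U
        · exfalso
          apply ha
          rw [hfW, ← h1out a ha, hab, h1in ⟨b, hb⟩]
          exact (g ⟨b, hb⟩).2
        · exact f.injective (by rw [← h1out a ha, ← h1out b hb, hab])
    · intro y
      by_cases hy : y ∈ W
      · obtain ⟨u, hu⟩ := hg.bijective.2 ⟨y, hy⟩
        exact ⟨u, by rw [h1in u, hu]⟩
      · have h2 : f.symm y ∉ U := fun h => hy (by
          have := (hfW _).1 h
          rwa [f.apply_symm_apply] at this)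
        exact ⟨f.symm y, by rw [h1out _ h2, f.apply_symm_apply]⟩
  have h2 : T2Space Y := f.t2Space
  exact ⟨f1, ⟨h1c, isOpenMap_of_injective (m + 1) f1 h1c h1b.1, h1b⟩, h1in, h1out⟩

/-- complements of finite sets are connected -/
theorem conn_compl {n : ℕ} (hn : 2 ≤ n) {X : Type} [TopologicalSpace X] [T2Space X]
    [ConnectedSpace X] [ChartedSpace (E n) X] [IsManifold (𝓡 n) ∞ X] {P : Set X}
    (hP : P.Finite) : IsPreconnected Pᶜ := by
  refine isPreconnected_of_forall_pair fun x hx y hy => ?_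
  obtain ⟨c, c1, c2, c3⟩ := Ph.cell_of_finite (n := n) (P := {x, y}) (Set.toFinite _)
  refine ⟨range c \ P, fun z hz => hz.2, ⟨c3 (Or.inl rfl), hx⟩, ⟨c3 (Or.inr rfl), hy⟩,
    cell_compl hn (continuous_iff_continuousAt.2 fun z => (c2 z).continuousAt) c1 hP⟩

/-- off a closed set with connected complement which is not compact, one point can be removed -/
theorem off_step (hm : 2 ≤ m) {X Y : Type} [TopologicalSpace X] [T2Space X] [SigmaCompactSpace X]
    [ConnectedSpace X] [ChartedSpace (E (m + 1)) X]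
    [IsManifold (𝓡 (m + 1)) ∞ X] [TopologicalSpace Y] [ChartedSpace (E (m + 1)) Y]
    [IsManifold (𝓡 (m + 1)) ∞ Y] {f : X → Y} (hfh : IsHomeomorph f) {P : Set X} (hP : P.Finite)
    {p : X} (hp : p ∉ P) (hnc : ¬ IsCompact (univ : Set X) ∨ P.Nonempty)
    (hf : ∀ x, x ∉ insert p P → LD (m + 1) f x) {O : Set (X × Y)} (hO : IsOpen O)
    (hfO : ∀ x, (x, f x) ∈ O) :
    ∃ g : X → Y, IsHomeomorph g ∧ (∀ x, x ∉ P → LD (m + 1) g x) ∧ ∀ x, (x, g x) ∈ O := by
  have : TopologicalSpace.MetrizableSpace X := Manifold.metrizableSpace (𝓡 (m + 1)) X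
  let _ := TopologicalSpace.metrizableSpaceMetric X
  have : LocallyCompactSpace X := ChartedSpace.locallyCompactSpace (E (m + 1)) X
  have : SecondCountableTopology X :=
    ChartedSpace.secondCountable_of_sigmaCompact (E (m + 1)) X
  obtain ⟨F, hF⟩ : ∃ F : X ≃ₜ Y, ∀ x, F x = f x := ⟨hfh.homeomorph f, fun x => rfl⟩
  obtain ⟨U, hU⟩ : ∃ U : TopologicalSpace.Opens X, (U : Set X) = Pᶜ :=
    ⟨⟨Pᶜ, hP.isClosed.isOpen_compl⟩, rfl⟩
  have hU' : ∀ x, x ∈ U ↔ x ∉ P := fun x => by
    rw [← SetLike.mem_coe, hU]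
    rfl
  obtain ⟨W, hW⟩ : ∃ W : TopologicalSpace.Opens Y, ∀ y, y ∈ W ↔ F.symm y ∈ U :=
    ⟨⟨F.symm ⁻¹' U, U.2.preimage F.symm.continuous⟩, fun y => Iff.rfl⟩
  have hfW : ∀ x, x ∈ U ↔ F x ∈ W := fun x => by rw [hW, F.symm_apply_apply]
  have : LocallyCompactSpace U := ChartedSpace.locallyCompactSpace (E (m + 1)) U
  have : SigmaCompactSpace U := sigmaCompactSpace_of_locallyCompact_secondCountable
  have hpU : p ∈ U := (hU' p).2 hp
  have : ConnectedSpace U := by
    refine isConnected_iff_connectedSpace.1 ⟨⟨p, hpU⟩, ?_⟩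
    show IsPreconnected (U : Set X)
    rw [hU]
    exact conn_compl (n := m + 1) (by omega) hP
  have : NoncompactSpace U := by
    rw [← not_compactSpace_iff]
    intro hcs
    have hc : IsCompact (U : Set X) := isCompact_iff_compactSpace.2 hcs
    have h1 : (U : Set X) = univ := IsClopen.eq_univ ⟨hc.isClosed, U.2⟩ ⟨p, hpU⟩
    rcases hnc with h | ⟨q, hq⟩
    · apply h
      rw [← h1]
      exact hc
    · have : q ∈ (U : Set X) := by rw [h1]; exact mem_univ q
      exact (hU' q).1 this hq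
  obtain ⟨δ, d1, d2, d3⟩ := exists_delta hP.isClosed
  let G : U ≃ₜ W := F.subtype hfW
  have hG : ∀ u : U, ((G u : W) : Y) = F u := fun u => rfl
  obtain ⟨g, g1, g2, g3⟩ := swindle hm (X := U) (Y := W) (f := G) G.isHomeomorph (p := ⟨p, hpU⟩)
    (fun u hu => LD_sub' U W G f (fun v => by rw [hG, hF]) G.continuous u (hf _ (by
      rintro (h | h)
      · exact hu (Subtype.ext h)
      · exact (hU' _).1 u.2 h)))
    (O := {q : U × W | ((q.1 : X), (q.2 : Y)) ∈ O ∧ dist (q.1 : X) (F.symm (q.2 : Y)) < δ q.1})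
    (by
      refine IsOpen.inter (hO.preimage (by fun_prop)) ?_
      have e1 : Continuous fun q : U × W => dist (q.1 : X) (F.symm (q.2 : Y)) :=
        Continuous.dist (by fun_prop) (F.symm.continuous.comp (by fun_prop))
      have e2 : Continuous fun q : U × W => δ (q.1 : X) := d1.comp (by fun_prop)
      exact isOpen_lt e1 e2)
    (fun u => ⟨by
      show ((u : X), ((G u : W) : Y)) ∈ O
      rw [hG, hF]
      exact hfO u, by
      show dist (u : X) (F.symm ((G u : W) : Y)) < δ u
      rw [hG, F.symm_apply_apply, dist_self]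
      exact d2 u ((hU' u).1 u.2)⟩)
  obtain ⟨f1, k1, k2, k3⟩ := ext_off (m := m) F hfW (δ := δ)
    (fun x q hq => d3 x q (by
      by_contra h
      exact hq ((hU' q).2 h))) g1 (fun u => (g3 u).2)
  refine ⟨f1, k1, fun x hx => ?_, fun x => ?_⟩
  · exact LD_sub U W g f1 (fun u => (k2 u).symm) ⟨x, (hU' x).2 hx⟩ (g2 _)
  · by_cases hx : x ∈ U
    · rw [k2 ⟨x, hx⟩]
      exact (g3 ⟨x, hx⟩).1
    · rw [k3 x hx, hF]
      exact hfO x

/-- **Open manifolds.** -/
theorem finite_open (hm : 2 ≤ m) {X Y : Type} [TopologicalSpace X] [T2Space X]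
    [SigmaCompactSpace X] [ConnectedSpace X] [NoncompactSpace X] [ChartedSpace (E (m + 1)) X]
    [IsManifold (𝓡 (m + 1)) ∞ X] [TopologicalSpace Y] [ChartedSpace (E (m + 1)) Y]
    [IsManifold (𝓡 (m + 1)) ∞ Y] {O : Set (X × Y)} (hO : IsOpen O) {P : Set X} (hP : P.Finite) :
    ∀ f : X → Y, IsHomeomorph f → (∀ x, x ∉ P → LD (m + 1) f x) → (∀ x, (x, f x) ∈ O) →
    ∃ g : X → Y, IsHomeomorph g ∧ (∀ x, LD (m + 1) g x) ∧ ∀ x, (x, g x) ∈ O := by
  induction P, hP using Set.Finite.induction_on with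
  | empty =>
    intro f h1 h2 h3
    exact ⟨f, h1, fun x => h2 x (notMem_empty x), h3⟩
  | @insert p P hp hP ih =>
    intro f h1 h2 h3
    obtain ⟨g, g1, g2, g3⟩ := off_step hm h1 hP hp (Or.inl (noncompact_univ X)) h2 hO h3
    exact ih g g1 g2 g3

/-- **Closed manifolds.** -/
theorem finite_closed (hm : 2 ≤ m) {X Y : Type} [TopologicalSpace X] [T2Space X]
    [SigmaCompactSpace X] [ConnectedSpace X] [ChartedSpace (E (m + 1)) X]
    [IsManifold (𝓡 (m + 1)) ∞ X] [TopologicalSpace Y] [ChartedSpace (E (m + 1)) Y]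
    [IsManifold (𝓡 (m + 1)) ∞ Y] {O : Set (X × Y)} (hO : IsOpen O) (b : X) {P : Set X}
    (hP : P.Finite) :
    ∀ f : X → Y, IsHomeomorph f → (∀ x, x ∉ insert b P → LD (m + 1) f x) →
    (∀ x, (x, f x) ∈ O) →
    ∃ g : X → Y, IsHomeomorph g ∧ (∀ x, x ≠ b → LD (m + 1) g x) ∧ ∀ x, (x, g x) ∈ O := by
  induction P, hP using Set.Finite.induction_on with
  | empty =>
    intro f h1 h2 h3
    exact ⟨f, h1, fun x hx => h2 x fun h => by
      rcases h with h | h
      · exact hx h
      · exact notMem_empty x h, h3⟩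
  | @insert p P hp hP ih =>
    intro f h1 h2 h3
    by_cases hpb : p = b
    · subst hpb
      exact ih f h1 (fun x hx => h2 x fun h => hx (by
        rcases h with h | h
        · exact Or.inl h
        · exact h)) h3
    · obtain ⟨g, g1, g2, g3⟩ := off_step hm h1 (P := insert b P) (hP.insert b) (p := p) (by
          rintro (h | h)
          · exact hpb h
          · exact hp h) (Or.inr ⟨b, Or.inl rfl⟩) (fun x hx => h2 x fun h => hx (by
            rcases h with h | h | h
            · exact Or.inr (Or.inl h)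
            · exact Or.inl h
            · exact Or.inr (Or.inr h))) hO h3
      exact ih g g1 g2 g3

end Pool.Agent.H816.Sw
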