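import Pool.Agent.H816.Ph9

/-!
# Singular sets of length zero
-/

set_option autoImplicit false
set_option linter.unusedSectionVars false

open Set Filter Topology Metric MeasureTheory Module
open scoped ContDiff ENNReal NNReal

noncomputable section

namespace Pool.Agent.H816.Ph

open Pool.Agent.Y522 Pool.Agent.Y207.SH3 Pool.Agent.Q169.AA Pool.Agent.H816.Sob

variable {n : ℕ}

/-- almost all spheres around a point avoid a set of length zero -/
theorem ae_sphere {Z : Set (E n)} (hZ : μH[1] Z = 0) (a : E n) :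
    ∀ᵐ t : ℝ, ∀ z ∈ Z, ‖z - a‖ ≠ t := by
  have hL : LipschitzWith 1 (fun z : E n => ‖z - a‖) := by
    refine LipschitzWith.of_dist_le_mul fun x y => ?_
    rw [NNReal.coe_one, one_mul, Real.dist_eq, dist_eq_norm]
    refine (abs_norm_sub_norm_le _ _).trans ?_
    rw [sub_sub_sub_cancel_right]
  have h1 : μH[1] ((fun z : E n => ‖z - a‖) '' Z) = 0 := by
    have h2 := hL.hausdorffMeasure_image_le (d := 1) zero_le_one Z
    rw [hZ, mul_zero] at h2
    exact le_antisymm h2 zero_le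
  rw [hausdorffMeasure_real] at h1
  filter_upwards [compl_mem_ae_iff.2 h1] with t ht z hz h
  exact ht ⟨z, hz, h⟩

variable {X Y : Type} [TopologicalSpace X] [ChartedSpace (E n) X] [TopologicalSpace Y]
  [ChartedSpace (E n) Y]

/-- `f0` is bi-Lipschitz and of class `W^{2,n-1}` near `A z`, or asymptotically affine there -/
def Rg (j : ℕ) (f0 : X → Y) (A : E n → X) (z : E n) : Prop :=
  ∃ B : Y → E n, LD n B (f0 (A z)) ∧
    (∃ K : ℝ, ∀ᶠ w in 𝓝 (0 : E n × E n),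
      ‖B (f0 (A (w.1 + z))) - B (f0 (A (w.2 + z)))‖ ≤ K * ‖w.1 - w.2‖ ∧
      ‖w.1 - w.2‖ ≤ K * ‖B (f0 (A (w.1 + z))) - B (f0 (A (w.2 + z)))‖) ∧
    Sob.W2 ((j + 1 : ℕ) : ℝ≥0∞) fun w => B (f0 (A (w + z)))

/-- near regular points, generic spheres around all points are good -/
theorem Rg.generic {j : ℕ} (hj : n = j + 2) {f0 : X → Y} (hf0 : Continuous f0) {A : E n → X}
    {z0 : E n} (hA : LD n A z0) (h : Rg j f0 A z0) :
    ∃ ρ' : ℝ, 0 < ρ' ∧ ∀ a : E n, ∀ᵐ t : ℝ, ∀ z : E n, ‖z - z0‖ < ρ' → ‖z - a‖ = t →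
      ∃ B : Y → E n, LD n B (f0 (A z)) ∧ LD n A z ∧
        AR n (sphere (a - z0) t) (fun w => B (f0 (A (w + z0)))) (z - z0) := by
  obtain ⟨B, hB, ⟨K, hK⟩, hW⟩ := h
  obtain ⟨G, hG⟩ : ∃ G : E n → E n, G = fun w => B (f0 (A (w + z0))) := ⟨_, rfl⟩
  obtain ⟨ρ0, H, h, hρ0, hHh, hL, hw⟩ := hW.dominate
  obtain ⟨ρ1, hρ1, hlip⟩ := Metric.eventually_nhds_iff_ball.1 hK
  have hAc : ContinuousAt A z0 := hA.continuousAt
  have hBe : ∀ᶠ z in 𝓝 z0, LD n B (f0 (A z)) :=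
    (hf0.continuousAt.comp hAc).eventually hB.eventually
  obtain ⟨ρ2, hρ2, h2⟩ := Metric.eventually_nhds_iff_ball.1 (hBe.and hA.eventually)
  obtain ⟨ρ, hρ, hr0, hr1, hr2⟩ : ∃ ρ : ℝ, 0 < ρ ∧ ρ ≤ ρ0 ∧ ρ ≤ ρ1 ∧ ρ ≤ ρ2 :=
    ⟨min ρ0 (min ρ1 ρ2), by positivity, min_le_left _ _,
      (min_le_right _ _).trans (min_le_left _ _), (min_le_right _ _).trans (min_le_right _ _)⟩
  have hlip' : ∀ x ∈ ball (0 : E n) ρ, ∀ y ∈ ball (0 : E n) ρ,
      ‖G x - G y‖ ≤ max K 1 * ‖x - y‖ ∧ ‖x - y‖ ≤ max K 1 * ‖G x - G y‖ := by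
    intro x hx y hy
    have h3 : (x, y) ∈ ball (0 : E n × E n) ρ1 := by
      rw [mem_ball_zero_iff, Prod.norm_def, max_lt_iff]
      exact ⟨(mem_ball_zero_iff.1 hx).trans_le hr1, (mem_ball_zero_iff.1 hy).trans_le hr1⟩
    obtain ⟨h5, h6⟩ := hlip _ h3
    rw [hG]
    exact ⟨h5.trans (mul_le_mul_of_nonneg_right (le_max_left _ _) (norm_nonneg _)),
      h6.trans (mul_le_mul_of_nonneg_right (le_max_left _ _) (norm_nonneg _))⟩
  have hsub0 : ball (0 : E n) ρ ⊆ ball 0 ρ0 := ball_subset_ball hr0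
  refine ⟨ρ, hρ, fun a => ?_⟩
  have h3 := generic_AR hj hρ (le_max_right K 1) hHh
    (hL.mono_measure (Measure.restrict_mono hsub0 le_rfl)) (G := G) (by
      rw [hG]
      exact hw.mono hsub0) hlip' (a - z0)
  filter_upwards [h3] with t ht z hz hza
  obtain ⟨h4, h5⟩ := h2 z (by
    rw [mem_ball, dist_eq_norm]
    exact hz.trans_le hr2)
  refine ⟨B, h4, h5, ?_⟩
  rw [hG] at ht
  exact ht (z - z0) (by rw [sub_sub_sub_cancel_right]; exact hza) (mem_ball_zero_iff.2 hz)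

/-- **Generic spheres are good** if the map is good off a set of length zero. -/
theorem Gd_of_short {j : ℕ} (hj : n = j + 2) {f0 : X → Y} (hf0 : Continuous f0) {A : E n → X}
    (hA : LD n A 0) {Z : Set (E n)} (hZ : μH[1] Z = 0)
    (hreg : ∀ᶠ z in 𝓝 (0 : E n), z ∉ Z → Rg j f0 A z ∨ AAM n f0 (A z)) :
    ∃ ρ, Gd f0 A ρ := by
  obtain ⟨u, hu, hinj⟩ := hA.eventually_injOn
  obtain ⟨ρ2, hρ2, h2⟩ := Metric.eventually_nhds_iff_ball.1 (hreg.and (hA.eventually.and hu))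
  obtain ⟨ρ, hρ, hr⟩ : ∃ ρ : ℝ, 0 < ρ ∧ 4 * ρ ≤ ρ2 := ⟨ρ2 / 4, by positivity, by linarith⟩
  have hall : ∀ z : E n, ‖z‖ < 4 * ρ → (z ∉ Z → Rg j f0 A z ∨ AAM n f0 (A z)) ∧ LD n A z ∧
      z ∈ u := fun z hz => h2 z (mem_ball_zero_iff.2 (hz.trans_le hr))
  -- a countable cover of the regular points
  obtain ⟨S, hS⟩ : ∃ S : Set (E n), S = {z | ‖z‖ < 4 * ρ ∧ Rg j f0 A z} := ⟨_, rfl⟩
  have hloc : ∀ z0 : E n, z0 ∈ S → ∃ ρ' : ℝ, 0 < ρ' ∧ ∀ a : E n, ∀ᵐ t : ℝ, ∀ z : E n,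
      ‖z - z0‖ < ρ' → ‖z - a‖ = t → ∃ B : Y → E n, LD n B (f0 (A z)) ∧ LD n A z ∧
        AR n (sphere (a - z0) t) (fun w => B (f0 (A (w + z0)))) (z - z0) := by
    intro z0 hz0
    rw [hS] at hz0
    exact hz0.2.generic hj hf0 (hall z0 hz0.1).2.1
  choose! σ hσ0 hσ using hloc
  obtain ⟨T, hTS, hTc, hTcov⟩ := TopologicalSpace.countable_cover_nhdsWithin
    (f := fun z0 => ball z0 (σ z0)) (s := S) (fun z0 hz0 =>
      mem_nhdsWithin_of_mem_nhds (ball_mem_nhds z0 (hσ0 z0 hz0)))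
  refine ⟨ρ, hρ, ?_, ?_, ?_⟩
  · intro x hx y hy hxy
    rw [mem_closedBall_zero_iff] at hx hy
    exact hinj (hall x (by linarith)).2.2 (hall y (by linarith)).2.2 hxy
  · intro z hz
    exact (hall z (by linarith)).2.1
  · intro a ha
    have h3 : ∀ᵐ t : ℝ, ∀ z0 ∈ T, ∀ z : E n, ‖z - z0‖ < σ z0 → ‖z - a‖ = t →
        ∃ B : Y → E n, LD n B (f0 (A z)) ∧ LD n A z ∧
          AR n (sphere (a - z0) t) (fun w => B (f0 (A (w + z0)))) (z - z0) :=
      (ae_ball_iff hTc).2 fun z0 hz0 => hσ z0 (hTS hz0) a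
    filter_upwards [h3, ae_sphere hZ a] with t ht htZ ht0 htρ z hz
    have hzn : ‖z‖ ≤ 2 * ρ := by
      have h4 := norm_add_le (z - a) a
      rw [sub_add_cancel, hz] at h4
      linarith
    have hzZ : z ∉ Z := fun h => htZ z h hz
    rcases (hall z (by linarith)).1 hzZ with h4 | h4
    · have hzS : z ∈ S := by
        rw [hS]
        exact ⟨by linarith, h4⟩
      obtain ⟨z0, hz0, hzz0⟩ := mem_iUnion₂.1 (hTcov hzS)
      rw [mem_ball, dist_eq_norm] at hzz0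
      obtain ⟨B, hB1, hB2, hB3⟩ := ht z0 hz0 z hzz0 hz
      refine ARM.of hf0.continuousAt hB1 ?_
      have hA' : LD n (fun w => A (w + z0)) (z - z0) := by
        refine LD.comp_fun (g := A) (f := fun w => w + z0) ?_ (LD_add_const z0 _)
        rw [sub_add_cancel]
        exact hB2
      have h5 : ARE n (A '' sphere a t) (fun w => B (f0 w)) ((fun w => A (w + z0)) (z - z0)) := by
        refine ARE.of (F := fun w => B (f0 w)) (A := fun w => A (w + z0)) (z := z - z0) hA' ?_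
        refine AR.mono hB3 ?_
        have h6 : ∀ᶠ p in 𝓝 (z - z0), ‖p + z0‖ < 3 * ρ := by
          have h7 : Continuous fun p : E n => ‖p + z0‖ := by fun_prop
          refine h7.continuousAt.eventually (gt_mem_nhds ?_)
          show ‖z - z0 + z0‖ < 3 * ρ
          rw [sub_add_cancel]
          linarith
        filter_upwards [h6] with p hp hpA
        obtain ⟨q, hq, hqp⟩ := hpA
        rw [mem_sphere, dist_eq_norm] at hq
        have hqn : ‖q‖ < 4 * ρ := by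
          have h8 := norm_add_le (q - a) a
          rw [sub_add_cancel, hq] at h8
          linarith
        have h9 : q = p + z0 := hinj (hall q hqn).2.2 (hall (p + z0) (by linarith)).2.2 hqp
        rw [mem_sphere, dist_eq_norm, ← hq, h9]
        congr 1
        abel
      have e : (fun w => A (w + z0)) (z - z0) = A z := by
        show A (z - z0 + z0) = A z
        rw [sub_add_cancel]
      rwa [e] at h5
    · exact fun B hB A' z' hA' hz' => AR.of_AAn (h4 B hB A' z' hA' hz')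

end Pool.Agent.H816.Ph
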