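import Pool.Agent.H816.Ph21
import Pool.Agent.H816.Ph22
import Pool.Agent.H816.Ph12

/-!
# Approximation on relatively compact open sets, and on the euclidean space
-/

set_option autoImplicit false
set_option linter.unusedSectionVars false

open Set Filter Topology Metric Function
open scoped Manifold ContDiff

noncomputable section

namespace Pool.Agent.H816.Sw

open Pool.Agent.Y522 Pool.Agent.H816 Pool.Agent.H816.Ph Pool.Agent.Q169.AA
open Pool.Agent.Q130.CM Pool.Agent.Y170.NA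

variable {m : ℕ}

/-- good homeomorphisms can be made smooth on relatively compact connected open sets -/
theorem smooth_on (hm : 2 ≤ m) {X Y : Type} [MetricSpace X] [SigmaCompactSpace X]
    [ChartedSpace (E (m + 1)) X] [IsManifold (𝓡 (m + 1)) ∞ X] [TopologicalSpace Y] [T2Space Y]
    [ChartedSpace (E (m + 1)) Y] [IsManifold (𝓡 (m + 1)) ∞ Y] {f : X → Y}
    (hf : IsHomeomorph f) {U : TopologicalSpace.Opens X} {S : Set X} (hS : IsCompact S)
    (hUS : (U : Set X) ⊆ S) [ConnectedSpace U] [NoncompactSpace U]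
    (hgd : ∀ x ∈ S, ∃ (A : E (m + 1) → X) (ρ : ℝ), A 0 = x ∧ Gd (n := m + 1) f A ρ)
    {O : Set (X × Y)} (hO : IsOpen O) (hfO : ∀ x, (x, f x) ∈ O) :
    ∃ h : X → Y, IsHomeomorph h ∧ (∀ x ∈ U, LD (m + 1) h x) ∧ ∀ x, (x, h x) ∈ O := by
  have : LocallyCompactSpace X := ChartedSpace.locallyCompactSpace (E (m + 1)) X
  have : SecondCountableTopology X :=
    ChartedSpace.secondCountable_of_sigmaCompact (E (m + 1)) X
  have : LocallyCompactSpace U := ChartedSpace.locallyCompactSpace (E (m + 1)) U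
  have : SigmaCompactSpace U := sigmaCompactSpace_of_locallyCompact_secondCountable
  obtain ⟨R, P, g, H, -, hR, hgO⟩ := exists_metric hm hf hS (V0 := univ) isOpen_univ
    (subset_univ _) hgd hO hfO
  obtain ⟨Gh, hGh⟩ : ∃ Gh : X ≃ₜ Y, ∀ x, Gh x = g x := ⟨H.homeo.homeomorph g, fun _ => rfl⟩
  obtain ⟨W, hW⟩ : ∃ W : TopologicalSpace.Opens Y, ∀ y, y ∈ W ↔ Gh.symm y ∈ U :=
    ⟨⟨Gh.symm ⁻¹' U, U.2.preimage Gh.symm.continuous⟩, fun y => Iff.rfl⟩
  have hfW : ∀ x, x ∈ U ↔ Gh x ∈ W := fun x => by rw [hW, Gh.symm_apply_apply]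
  let g0 : U ≃ₜ W := Gh.subtype hfW
  have hg0 : ∀ u : U, ((g0 u : W) : Y) = Gh u := fun u => rfl
  have hg0' : ∀ u : U, ((g0 u : W) : Y) = g u := fun u => hGh u
  obtain ⟨δ, d1, d2, d3⟩ := exists_delta (P := (U : Set X)ᶜ) U.2.isClosed_compl
  obtain ⟨O', hO'⟩ : ∃ O' : Set (U × W), O' = {q : U × W | ((q.1 : X), (q.2 : Y)) ∈ O ∧
      dist (q.1 : X) (Gh.symm (q.2 : Y)) < δ q.1} := ⟨_, rfl⟩
  have hO'o : IsOpen O' := by
    rw [hO']
    refine IsOpen.inter (hO.preimage (by fun_prop)) ?_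
    have e1 : Continuous fun q : U × W => dist (q.1 : X) (Gh.symm (q.2 : Y)) :=
      Continuous.dist (by fun_prop) (Gh.symm.continuous.comp (by fun_prop))
    have e2 : Continuous fun q : U × W => δ (q.1 : X) := d1.comp (by fun_prop)
    exact isOpen_lt e1 e2
  have hgO' : ∀ u : U, (u, g0 u) ∈ O' := fun u => by
    rw [hO']
    refine ⟨?_, ?_⟩
    · show ((u : X), ((g0 u : W) : Y)) ∈ O
      rw [hg0']
      exact hgO u
    · show dist (u : X) (Gh.symm ((g0 u : W) : Y)) < δ u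
      rw [hg0, Gh.symm_apply_apply, dist_self]
      exact d2 u fun h => h u.2
  have hPU : ((Subtype.val : U → X) ⁻¹' P).Finite := H.pf.preimage Subtype.val_injective.injOn
  obtain ⟨g1, h1, h3, h2, -⟩ := smooth_off (m := m) g0 (P := (Subtype.val : U → X) ⁻¹' P)
    (V := univ) hPU.isClosed isOpen_univ
    (fun u hu _ => ⟨mem_univ _, AAM_sub U W g0 g hg0' g0.continuous u
      ((H.ar _ (mem_of_mem_nhds (hR u (hUS u.2))) hu).to_AAM (hR u (hUS u.2)))⟩)
    (fun p hp => by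
      have h1 := H.pl p hp
      have h2 : Tendsto (Subtype.val : U → X) (𝓝[≠] p) (𝓝[≠] (p : X)) := by
        refine tendsto_nhdsWithin_iff.2 ⟨continuous_subtype_val.continuousAt.mono_left
          nhdsWithin_le_nhds, ?_⟩
        filter_upwards [self_mem_nhdsWithin] with u hu h
        exact hu (Subtype.ext h)
      filter_upwards [h2.eventually h1] with u hu
      exact LD_sub' U W g0 g hg0' g0.continuous u hu)
    hO'o hgO'
  obtain ⟨g2, k1, k2, k3⟩ := finite_open hm hO'o hPU g1 h1 h2 h3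
  rw [hO'] at k3
  obtain ⟨h, l1, l2, l3⟩ := ext_off (m := m) Gh hfW (δ := δ)
    (fun x q hq => d3 x q hq) k1 (fun u => (k3 u).2)
  refine ⟨h, l1, fun x hx => LD_sub U W g2 h (fun u => (l2 u).symm) ⟨x, hx⟩ (k2 _), fun x => ?_⟩
  by_cases hx : x ∈ U
  · rw [l2 ⟨x, hx⟩]
    exact (k3 ⟨x, hx⟩).1
  · rw [l3 x hx, hGh]
    exact hgO x

/-- homeomorphisms which are smooth on a ball agree there with diffeomorphisms of `ℝ^n` -/
theorem exists_diffeo {n : ℕ} {h : E n → E n} (hi : Injective h) {r : ℝ} (hr : 0 < r)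
    (hd : ∀ x, ‖x‖ < r + 1 → LD n h x) :
    ∃ Ψ : E n → E n, Bijective Ψ ∧ (∀ x, LD n Ψ x) ∧ ∀ x, ‖x‖ ≤ r → Ψ x = h x := by
  obtain ⟨U, hU⟩ : ∃ U : TopologicalSpace.Opens (E n), ∀ x, x ∈ U ↔ ‖x‖ < r + 1 :=
    ⟨⟨ball 0 (r + 1), isOpen_ball⟩, fun x => mem_ball_zero_iff⟩
  obtain ⟨e, he1, he2, he3, he4⟩ := ball_param (n := n) (r := r + 1) (by linarith) hU
  obtain ⟨e', he'⟩ : ∃ e' : E n → E n, e' = fun z => ((e z : U) : E n) := ⟨_, rfl⟩
  have hei : Injective e' := by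
    rw [he']
    exact Subtype.val_injective.comp he2
  have hed : ∀ z, LD n e' z := fun z => by
    rw [he']
    exact LD.comp_fun (g := (Subtype.val : U → E n)) (LD_val U _) (he3 z)
  have her : ∀ z, ‖e' z‖ < r + 1 := fun z => by
    rw [he']
    exact (hU _).1 (e z).2
  have hes : ∀ x, ‖x‖ < r + 1 → ∃ z, e' z = x := fun x hx => by
    obtain ⟨z, hz⟩ := he4 ⟨x, (hU x).2 hx⟩
    refine ⟨z, ?_⟩
    rw [he']
    show ((e z : U) : E n) = x
    rw [hz]
  -- the ball in the parameter space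
  obtain ⟨R, hR⟩ : ∃ R : ℝ, ∀ x, ‖x‖ ≤ r → ∃ z, ‖z‖ ≤ R ∧ e' z = x := by
    have hinv : ContinuousOn (invFun e') {x | ‖x‖ < r + 1} := by
      intro x hx
      obtain ⟨z, rfl⟩ := hes x hx
      exact (LD.inverse (k := e') (U := univ) isOpen_univ (fun y _ => hed y)
        (g := invFun e') (fun y _ => leftInverse_invFun hei y)
        (mem_univ z)).continuousAt.continuousWithinAt
    have h1 : IsCompact (invFun e' '' closedBall 0 r) :=
      (isCompact_closedBall 0 r).image_of_continuousOn (hinv.mono fun x hx => by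
        rw [mem_closedBall_zero_iff] at hx
        show ‖x‖ < r + 1
        linarith)
    obtain ⟨R, hR⟩ := h1.isBounded.exists_norm_le
    refine ⟨R, fun x hx => ?_⟩
    refine ⟨invFun e' x, hR _ ⟨x, mem_closedBall_zero_iff.2 hx, rfl⟩, ?_⟩
    exact invFun_eq (hes x (by linarith))
  obtain ⟨Φ, hΦb, hΦL, hΦ⟩ := stExt n e' hei hed R
  obtain ⟨Ψ, hΨb, hΨL, hΨ⟩ := stExt n (fun z => h (e' z)) (hi.comp hei)
    (fun z => LD.comp_fun (g := h) (hd _ (her z)) (hed z)) R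
  obtain ⟨Φ', hΦ', h2, h3⟩ := Pool.Agent.Y784.SH.Dif.inv (n := n) ⟨hΦb, hΦL⟩
  refine ⟨fun x => Ψ (Φ' x), hΨb.comp hΦ'.1, fun x => LD.comp_fun (g := Ψ) (hΨL _) (hΦ'.2 x),
    fun x hx => ?_⟩
  obtain ⟨z, hz, rfl⟩ := hR x hx
  show Ψ (Φ' (e' z)) = h (e' z)
  rw [← hΦ z hz, h2, hΨ z hz, hΦ z hz]

/-- **Approximation by diffeomorphisms of the euclidean space.** -/
theorem approx_euclid (hm : 2 ≤ m) {f : E (m + 1) → E (m + 1)} (hf : IsHomeomorph f)
    (hgd : ∀ x, ∃ (A : E (m + 1) → E (m + 1)) (ρ : ℝ), A 0 = x ∧ Gd (n := m + 1) f A ρ)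
    (r : ℝ) {ε : ℝ} (hε : 0 < ε) :
    ∃ g : E (m + 1) → E (m + 1), Bijective g ∧ (∀ x, LD (m + 1) g x) ∧
      ∀ x, ‖x‖ ≤ r → ‖g x - f x‖ < ε := by
  obtain ⟨r', hr', hrr⟩ : ∃ r' : ℝ, 0 < r' ∧ r ≤ r' :=
    ⟨max r 1, lt_max_of_lt_right one_pos, le_max_left _ _⟩
  obtain ⟨U, hU⟩ : ∃ U : TopologicalSpace.Opens (E (m + 1)), (U : Set (E (m + 1))) =
      ball 0 (r' + 1) := ⟨⟨ball 0 (r' + 1), isOpen_ball⟩, rfl⟩
  have hU' : ∀ x, x ∈ U ↔ ‖x‖ < r' + 1 := fun x => by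
    rw [← SetLike.mem_coe, hU, mem_ball_zero_iff]
  have : ConnectedSpace U := by
    refine isConnected_iff_connectedSpace.1 ?_
    show IsConnected (U : Set (E (m + 1)))
    rw [hU]
    exact ((convex_ball 0 (r' + 1)).isConnected (nonempty_ball.2 (by linarith)))
  have : NoncompactSpace U := by
    rw [← not_compactSpace_iff]
    intro hcs
    have hc : IsCompact (U : Set (E (m + 1))) := isCompact_iff_compactSpace.2 hcs
    have h1 : (U : Set (E (m + 1))) = univ := IsClopen.eq_univ ⟨hc.isClosed, U.2⟩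
      ⟨0, (hU' 0).2 (by rw [norm_zero]; linarith)⟩
    rw [h1] at hc
    exact noncompact_univ _ hc
  have hfc := hf.continuous
  have hO : IsOpen {q : E (m + 1) × E (m + 1) | ‖q.2 - f q.1‖ < ε} :=
    isOpen_lt (by fun_prop) continuous_const
  obtain ⟨h, h1, h2, h3⟩ := smooth_on hm hf (U := U) (isCompact_closedBall 0 (r' + 1))
    (by rw [hU]; exact ball_subset_closedBall) (fun x _ => hgd x) hO (fun x => by
      show ‖f x - f x‖ < ε
      rw [sub_self, norm_zero]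
      exact hε)
  obtain ⟨Ψ, g1, g2, g3⟩ := exists_diffeo h1.injective hr' (fun x hx => h2 x ((hU' x).2 hx))
  exact ⟨Ψ, g1, g2, fun x hx => by
    rw [g3 x (hx.trans hrr)]
    exact h3 x⟩

end Pool.Agent.H816.Sw
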