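import Pool.Agent.H816.Ph23

/-!
# Noncompact singular sets
-/

set_option autoImplicit false
set_option linter.unusedSectionVars false

open Set Filter Topology Metric Function MeasureTheory
open scoped Manifold ContDiff

noncomputable section

namespace Pool.Agent.H816.Sw

open Pool.Agent.Y522 Pool.Agent.H816 Pool.Agent.H816.Ph Pool.Agent.Q169.AA
open Pool.Agent.Q130.CM Pool.Agent.Y170.NA

/-- locally finite sets -/
def LF {X : Type} [TopologicalSpace X] (P : Set X) : Prop := ∀ x, ∃ U ∈ 𝓝 x, (U ∩ P).Finite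

theorem LF.mono {X : Type} [TopologicalSpace X] {P Q : Set X} (h : LF P) (hQ : Q ⊆ P) : LF Q :=
  fun x => by
    obtain ⟨U, hU, h1⟩ := h x
    exact ⟨U, hU, h1.subset (inter_subset_inter_right _ hQ)⟩

theorem LF.union {X : Type} [TopologicalSpace X] {P Q : Set X} (h : LF P) (h' : LF Q) :
    LF (P ∪ Q) := fun x => by
  obtain ⟨U, hU, h1⟩ := h x
  obtain ⟨U', hU', h1'⟩ := h' x
  refine ⟨U ∩ U', inter_mem hU hU', (h1.union h1').subset ?_⟩
  rintro y ⟨⟨h2, h3⟩, h4 | h4⟩
  · exact Or.inl ⟨h2, h4⟩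
  · exact Or.inr ⟨h3, h4⟩

theorem LF.isClosed {X : Type} [TopologicalSpace X] [T1Space X] {P : Set X} (h : LF P) :
    IsClosed P := by
  rw [← isOpen_compl_iff, isOpen_iff_mem_nhds]
  intro x hx
  obtain ⟨U, hU, h1⟩ := h x
  have h2 : x ∉ U ∩ P := fun h => hx h.2
  filter_upwards [hU, h1.isClosed.isOpen_compl.mem_nhds h2] with y hy hy2 hyP
  exact hy2 ⟨hy, hyP⟩

theorem LF.finite_inter {X : Type} [TopologicalSpace X] {P K : Set X} (h : LF P)
    (hK : IsCompact K) : (K ∩ P).Finite := by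
  choose U hU hf using h
  obtain ⟨T, -, hT⟩ := hK.elim_nhds_subcover U fun x _ => hU x
  refine (T.finite_toSet.biUnion fun x _ => hf x).subset ?_
  rintro y ⟨hy, hyP⟩
  obtain ⟨x, hx, hyx⟩ := mem_iUnion₂.1 (hT hy)
  exact mem_iUnion₂.2 ⟨x, hx, hyx, hyP⟩

variable {m : ℕ}

section step

variable {X Y : Type} [TopologicalSpace X] [T2Space X] [ChartedSpace (E (m + 1)) X]
  [TopologicalSpace Y] [T2Space Y] [ChartedSpace (E (m + 1)) Y]

theorem arm_step {f0 f : X → Y} {R : Set X} (hf : Continuous f) (hf0 : Continuous f0)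
    (hrc : IsClosed R) (off : ∀ x, x ∉ R → f x = f0 x) {x : X}
    (har : x ∈ R → ARM (m + 1) R f x) {S : Set X} (hS : ARM (m + 1) S f0 x) :
    ARM (m + 1) S f x := by
  by_cases hxR : x ∈ R
  · by_cases hn : R ∈ 𝓝 x
    · refine (har hxR).mono ?_
      filter_upwards [hn] with p hp _ using hp
    · have h5 : f x = f0 x := by
        by_contra h
        apply hn
        have h6 : ∀ᶠ p in 𝓝 x, f p ≠ f0 p :=
          (hf.continuousAt.prodMk hf0.continuousAt).eventually
            (isOpen_ne_fun continuous_fst continuous_snd |>.mem_nhds h)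
        filter_upwards [h6] with p hp
        by_contra hcon
        exact hp (off p hcon)
      exact (ARM.glue (har hxR) hS (Eventually.of_forall fun p => off p) h5).mono
        (Eventually.of_forall fun p => Or.inr)
  · refine ARM.congr hS ?_
    filter_upwards [hrc.isOpen_compl.mem_nhds hxR] with p hp using off p hp

/-- the state of the construction, with locally finite sets of singular points -/
structure StI (f0 : X → Y) (R P : Set X) (f : X → Y) : Prop where
  homeo : IsHomeomorph f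
  rc : IsClosed R
  lf : LF P
  PR : P ⊆ R
  off : ∀ x, x ∉ R → f x = f0 x
  ar : ∀ x ∈ R, x ∉ P → ARM (m + 1) R f x
  pl : ∀ p ∈ P, ∀ᶠ x in 𝓝[≠] p, LD (m + 1) f x

theorem StI.arm {f0 f : X → Y} {R P : Set X} (H : StI (m := m) f0 R P f) (hf0 : Continuous f0)
    {x : X} (hx : x ∉ P) {S : Set X} (hS : ARM (m + 1) S f0 x) : ARM (m + 1) S f x :=
  arm_step H.homeo.continuous hf0 H.rc H.off (fun h => H.ar x h hx) hS

/-- generic spheres remain good -/
theorem StI.gd {f0 f : X → Y} {R P : Set X} (H : StI (m := m) f0 R P f) (hf0 : Continuous f0)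
    {A : E (m + 1) → X} {ρ : ℝ} (h : Gd (n := m + 1) f0 A ρ) : Gd (n := m + 1) f A ρ := by
  refine ⟨h.pos, h.inj, h.ld, fun a ha => ?_⟩
  obtain ⟨Z, hZ⟩ : ∃ Z : Set (E (m + 1)), Z = closedBall 0 (3 * ρ) ∩ A ⁻¹' P := ⟨_, rfl⟩
  have hc : ContinuousOn A (closedBall 0 (3 * ρ)) := fun z hz =>
    (h.ld z (mem_closedBall_zero_iff.1 hz)).continuousAt.continuousWithinAt
  have hK : IsCompact (A '' closedBall 0 (3 * ρ)) := (isCompact_closedBall _ _).image_of_continuousOn hc
  have hZf : Z.Finite := by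
    have h1 := H.lf.finite_inter hK
    refine Finite.of_finite_image (f := A) (h1.subset ?_) (h.inj.mono ?_)
    · rintro _ ⟨z, hz, rfl⟩
      rw [hZ] at hz
      exact ⟨⟨z, hz.1, rfl⟩, hz.2⟩
    · rw [hZ]
      exact inter_subset_left
  have hae : ∀ᵐ t : ℝ, t ∉ (fun z => ‖z - a‖) '' Z := (hZf.image _).countable.ae_notMem volume
  filter_upwards [h.gen a ha, hae] with t ht htZ ht0 htρ z hz
  refine H.arm hf0 (fun hP => htZ ⟨z, ?_, hz⟩) (ht ht0 htρ z hz)
  rw [hZ]
  refine ⟨mem_closedBall_zero_iff.2 ?_, hP⟩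
  have h4 := norm_add_le (z - a) a
  rw [sub_add_cancel, hz] at h4
  have := h.pos
  linarith

/-- simultaneous modifications with disjoint supports -/
theorem combine (m : ℕ) {X Y : Type} [TopologicalSpace X] [T2Space X]
    [ChartedSpace (E (m + 1)) X] [TopologicalSpace Y] [T2Space Y] [ChartedSpace (E (m + 1)) Y]
    {f0 : X → Y} (hf0 : IsHomeomorph f0) {fi : ℕ → X → Y}
    (hfi : ∀ i, IsHomeomorph (fi i)) {R V : ℕ → Set X} (hR : ∀ i, IsClosed (R i))
    (hV : ∀ i, IsOpen (V i)) (hRV : ∀ i, R i ⊆ V i)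
    (hdis : ∀ i j, i ≠ j → Disjoint (V i) (V j)) (hlf : LocallyFinite V)
    (hoff : ∀ i x, x ∉ R i → fi i x = f0 x) :
    ∃ F : X → Y, IsHomeomorph F ∧ (∀ i, ∀ x ∈ V i, F x = fi i x) ∧
      ∀ x, (∀ i, x ∉ R i) → F x = f0 x := by
  classical
  obtain ⟨F, hF⟩ : ∃ F : X → Y, F = fun x => if h : ∃ i, x ∈ V i then fi h.choose x else f0 x :=
    ⟨_, rfl⟩
  have hu : ∀ i j x, x ∈ V i → x ∈ V j → i = j := fun i j x h1 h2 => by
    by_contra h
    exact Set.disjoint_left.1 (hdis i j h) h1 h2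
  have F1 : ∀ i, ∀ x ∈ V i, F x = fi i x := by
    intro i x hx
    have h : ∃ i, x ∈ V i := ⟨i, hx⟩
    rw [hF]
    show (if h : ∃ i, x ∈ V i then fi h.choose x else f0 x) = fi i x
    rw [dif_pos h, hu h.choose i x h.choose_spec hx]
  have F2 : ∀ x, (∀ i, x ∉ R i) → F x = f0 x := by
    intro x hx
    by_cases h : ∃ i, x ∈ V i
    · obtain ⟨i, hi⟩ := h
      rw [F1 i x hi, hoff i x (hx i)]
    · rw [hF]
      exact dif_neg h
  have hRlf : LocallyFinite R := hlf.subset hRV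
  have hRc : IsClosed (⋃ i, R i) := hRlf.isClosed_iUnion hR
  have hc : Continuous F := by
    rw [continuous_iff_continuousAt]
    intro x
    by_cases h : ∃ i, x ∈ V i
    · obtain ⟨i, hi⟩ := h
      refine (hfi i).continuous.continuousAt.congr ?_
      filter_upwards [(hV i).mem_nhds hi] with y hy
      exact (F1 i y hy).symm
    · have h1 : x ∉ ⋃ i, R i := fun hx => by
        obtain ⟨i, hi⟩ := mem_iUnion.1 hx
        exact h ⟨i, hRV i hi⟩
      refine hf0.continuous.continuousAt.congr ?_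
      filter_upwards [hRc.isOpen_compl.mem_nhds h1] with y hy
      exact (F2 y fun i hi => hy (mem_iUnion.2 ⟨i, hi⟩)).symm
  have key : ∀ i, ∀ x ∈ R i, ∃ x' ∈ R i, F x = f0 x' := by
    intro i x hx
    obtain ⟨x', hx'⟩ := hf0.surjective (fi i x)
    refine ⟨x', ?_, by rw [F1 i x (hRV i hx), hx']⟩
    by_contra hcon
    have h1 := hoff i x' hcon
    rw [hx'] at h1
    rw [(hfi i).injective h1] at hcon
    exact hcon hx
  have hb : Bijective F := by
    constructor
    · intro a b hab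
      by_cases ha : ∃ i, a ∈ R i
      · obtain ⟨i, hi⟩ := ha
        obtain ⟨a', ha', e1⟩ := key i a hi
        by_cases hb : ∃ j, b ∈ R j
        · obtain ⟨j, hj⟩ := hb
          obtain ⟨b', hb', e2⟩ := key j b hj
          have h1 : a' = b' := hf0.injective (by rw [← e1, hab, e2])
          have h2 : i = j := hu i j a' (hRV i ha') (h1 ▸ hRV j hb')
          subst h2
          rw [F1 i a (hRV i hi), F1 i b (hRV i hj)] at hab
          exact (hfi i).injective hab
        · exfalso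
          have e2 := F2 b fun j hj => hb ⟨j, hj⟩
          have h1 : a' = b := hf0.injective (by rw [← e1, hab, e2])
          exact hb ⟨i, h1 ▸ ha'⟩
      · have e1 := F2 a fun j hj => ha ⟨j, hj⟩
        by_cases hb : ∃ j, b ∈ R j
        · exfalso
          obtain ⟨j, hj⟩ := hb
          obtain ⟨b', hb', e2⟩ := key j b hj
          have h1 : a = b' := hf0.injective (by rw [← e1, hab, e2])
          exact ha ⟨j, h1 ▸ hb'⟩
        · have e2 := F2 b fun j hj => hb ⟨j, hj⟩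
          exact hf0.injective (by rw [← e1, hab, e2])
    · intro y
      obtain ⟨x, hx⟩ := hf0.surjective y
      by_cases h : ∃ i, x ∈ R i
      · obtain ⟨i, hi⟩ := h
        obtain ⟨a, ha⟩ := (hfi i).surjective y
        have h1 : a ∈ R i := by
          by_contra hcon
          have h2 := hoff i a hcon
          rw [ha, ← hx] at h2
          rw [← hf0.injective h2] at hcon
          exact hcon hi
        exact ⟨a, by rw [F1 i a (hRV i h1), ha]⟩
      · exact ⟨x, by rw [F2 x fun i hi => h ⟨i, hi⟩, hx]⟩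
  exact ⟨F, ⟨hc, isOpenMap_of_injective (m + 1) F hc hb.1, hb⟩, F1, F2⟩

end step

/-- one stage -/
theorem stage (hm : 2 ≤ m) {X Y : Type} [MetricSpace X]
    [ChartedSpace (E (m + 1)) X] [TopologicalSpace Y] [T2Space Y]
    [ChartedSpace (E (m + 1)) Y] [IsManifold (𝓡 (m + 1)) ∞ Y] {f0 : X → Y}
    (hf0 : IsHomeomorph f0) {S V : ℕ → Set X} (hS : ∀ i, IsCompact (S i))
    (hV : ∀ i, IsOpen (V i)) (hSV : ∀ i, S i ⊆ V i)
    (hdis : ∀ i j, i ≠ j → Disjoint (V i) (V j)) (hlf : LocallyFinite V)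
    (hgd : ∀ x : X, ∃ (A : E (m + 1) → X) (ρ : ℝ), A 0 = x ∧ Gd (n := m + 1) f0 A ρ)
    {O : Set (X × Y)} (hO : IsOpen O) (hfO : ∀ x, (x, f0 x) ∈ O) :
    ∃ (R P : Set X) (F : X → Y), StI (m := m) f0 R P F ∧ (∀ i, ∀ x ∈ S i, R ∈ 𝓝 x) ∧
      R ⊆ ⋃ i, V i ∧ ∀ x, (x, F x) ∈ O := by
  have h1 : ∀ i, ∃ (R P : Set X) (f : X → Y), St (m := m) f0 R P f ∧ R ⊆ V i ∧
      (∀ x ∈ S i, R ∈ 𝓝 x) ∧ ∀ x, (x, f x) ∈ O := fun i =>
    exists_metric hm hf0 (hS i) (hV i) (hSV i) (fun x _ => hgd x) hO hfO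
  choose R P f H hRV hRS hfiO using h1
  have hu : ∀ i j x, x ∈ V i → x ∈ V j → i = j := fun i j x h1 h2 => by
    by_contra h
    exact Set.disjoint_left.1 (hdis i j h) h1 h2
  obtain ⟨F, F0, F1, F2⟩ := combine m hf0 (fun i => (H i).homeo) (fun i => (H i).rc) hV hRV
    hdis hlf (fun i => (H i).off)
  have F1' : ∀ i, ∀ x ∈ V i, F =ᶠ[𝓝 x] f i := fun i x hx => by
    filter_upwards [(hV i).mem_nhds hx] with y hy using F1 i y hy
  refine ⟨⋃ i, R i, ⋃ i, P i ∩ R i, F,
    { homeo := F0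
      rc := (hlf.subset hRV).isClosed_iUnion fun i => (H i).rc
      lf := ?_
      PR := iUnion_mono fun i => inter_subset_right
      off := fun x hx => F2 x fun i hi => hx (mem_iUnion.2 ⟨i, hi⟩)
      ar := ?_
      pl := ?_ }, fun i x hx => mem_of_superset (hRS i x hx) (subset_iUnion R i),
    iUnion_mono hRV, fun x => ?_⟩
  · intro x
    obtain ⟨U, hU, hUf⟩ := hlf x
    refine ⟨U, hU, (hUf.biUnion fun i _ => (H i).pf).subset ?_⟩
    rintro y ⟨hyU, hy⟩
    obtain ⟨i, hi1, hi2⟩ := mem_iUnion.1 hy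
    exact mem_iUnion₂.2 ⟨i, ⟨y, hRV i hi2, hyU⟩, hi1⟩
  · intro x hx hxP
    obtain ⟨i, hi⟩ := mem_iUnion.1 hx
    have h2 : x ∉ P i := fun h => hxP (mem_iUnion.2 ⟨i, h, hi⟩)
    refine ARM.congr (((H i).ar x hi h2).mono ?_) (F1' i x (hRV i hi))
    filter_upwards [(hV i).mem_nhds (hRV i hi)] with y hy hyR
    obtain ⟨j, hj⟩ := mem_iUnion.1 hyR
    rwa [hu i j y hy (hRV j hj)]
  · intro p hp
    obtain ⟨i, hi1, hi2⟩ := mem_iUnion.1 hp
    have h3 : ∀ᶠ x in 𝓝 p, F =ᶠ[𝓝 x] f i := (F1' i p (hRV i hi2)).eventually_nhds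
    filter_upwards [(H i).pl p hi1, h3.filter_mono nhdsWithin_le_nhds] with x hx hx2
    exact LD.congr hx hx2
  · by_cases h : ∃ i, x ∈ R i
    · obtain ⟨i, hi⟩ := h
      rw [F1 i x (hRV i hi)]
      exact hfiO i x
    · rw [F2 x fun i hi => h ⟨i, hi⟩]
      exact hfO x

end Pool.Agent.H816.Sw
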