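import Pool.Agent.H816.Ph24

/-!
# Noncompact singular sets: two families of shells
-/

set_option autoImplicit false
set_option linter.unusedSectionVars false

open Set Filter Topology Metric Function MeasureTheory
open scoped Manifold ContDiff

noncomputable section

namespace Pool.Agent.H816.Sw

open Pool.Agent.Y522 Pool.Agent.H816 Pool.Agent.H816.Ph Pool.Agent.Q169.AA
open Pool.Agent.Q130.CM Pool.Agent.Y170.NA

/-- exhaustions by compact sets which start with the empty set -/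
structure Exh {X : Type} [TopologicalSpace X] (L : ℕ → Set X) : Prop where
  z : L 0 = ∅
  c : ∀ k, IsCompact (L k)
  s : ∀ k, L k ⊆ interior (L (k + 1))
  u : ∀ x, ∃ k, x ∈ L k

theorem exists_exh (X : Type) [TopologicalSpace X] [SigmaCompactSpace X]
    [WeaklyLocallyCompactSpace X] : ∃ L : ℕ → Set X, Exh L := by
  obtain ⟨K⟩ : Nonempty (CompactExhaustion X) := ⟨CompactExhaustion.choice X⟩
  refine ⟨fun k => Nat.casesOn k ∅ fun i => K i, rfl, ?_, ?_, fun x => ?_⟩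
  · rintro (- | i)
    · exact isCompact_empty
    · exact K.isCompact i
  · rintro (- | i)
    · exact empty_subset _
    · exact K.subset_interior_succ i
  · obtain ⟨i, hi⟩ := mem_iUnion.1 (show x ∈ ⋃ i, K i by rw [K.iUnion_eq]; exact mem_univ x)
    exact ⟨i + 1, hi⟩

section exh

variable {X : Type} [TopologicalSpace X] [T2Space X] {L : ℕ → Set X} (H : Exh L)

include H

theorem Exh.succ (k : ℕ) : L k ⊆ L (k + 1) := (H.s k).trans interior_subset

theorem Exh.mono {k l : ℕ} (h : k ≤ l) : L k ⊆ L l := monotone_nat_of_le_succ H.succ h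

theorem Exh.shells (a : ℕ) : ∃ S V : ℕ → Set X, (∀ i, IsCompact (S i)) ∧ (∀ i, IsOpen (V i)) ∧
    (∀ i, S i ⊆ V i) ∧ (∀ i j, i ≠ j → Disjoint (V i) (V j)) ∧ LocallyFinite V ∧
    ∀ i x, x ∈ L (4 * i + 2 + a) → x ∉ L (4 * i + a) → x ∈ S i := by
  refine ⟨fun i => L (4 * i + 2 + a) \ interior (L (4 * i + a)),
    fun i => interior (L (4 * i + 3 + a)) \ L (4 * i + a - 1), fun i => ?_, fun i => ?_,
    fun i => ?_, ?_, fun x => ?_, fun i x h1 h2 => ⟨h1, fun h => h2 (interior_subset h)⟩⟩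
  · exact (H.c _).diff isOpen_interior
  · exact isOpen_interior.sdiff (H.c _).isClosed
  · rintro x ⟨h1, h2⟩
    refine ⟨?_, fun h => ?_⟩
    · have := H.s _ h1
      have e : 4 * i + 2 + a + 1 = 4 * i + 3 + a := by ring
      rwa [e] at this
    · by_cases h0 : 4 * i + a = 0
      · rw [h0, H.z] at h
        exact h
      · have := H.s _ h
        have e : 4 * i + a - 1 + 1 = 4 * i + a := by omega
        rw [e] at this
        exact h2 this
  · have key : ∀ i j, i < j → Disjoint (interior (L (4 * i + 3 + a)) \ L (4 * i + a - 1))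
        (interior (L (4 * j + 3 + a)) \ L (4 * j + a - 1)) := by
      intro i j hij
      rw [Set.disjoint_left]
      rintro x ⟨h1, -⟩ ⟨-, h2⟩
      exact h2 (H.mono (by omega) (interior_subset h1))
    intro i j hij
    rcases lt_or_gt_of_ne hij with h | h
    · exact key i j h
    · exact (key j i h).symm
  · obtain ⟨k, hk⟩ := H.u x
    refine ⟨interior (L (k + 1)), isOpen_interior.mem_nhds (H.s k hk),
      (finite_le_nat (k + 1)).subset ?_⟩
    rintro i ⟨y, ⟨-, h1⟩, h2⟩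
    by_contra h
    have h' : k + 1 < i := not_le.1 h
    exact h1 (H.mono (by omega) (interior_subset h2))

theorem Exh.cover (x : X) : (∃ i, x ∈ L (4 * i + 2 + 0) ∧ x ∉ L (4 * i + 0)) ∨
    ∃ i, x ∈ L (4 * i + 2 + 2) ∧ x ∉ L (4 * i + 2) := by
  classical
  obtain ⟨k, hk, hmin⟩ : ∃ k, x ∈ L k ∧ ∀ l, l < k → x ∉ L l :=
    ⟨Nat.find (H.u x), Nat.find_spec (H.u x), fun l hl => Nat.find_min (H.u x) hl⟩
  have h0 : k ≠ 0 := fun h => by
    rw [h, H.z] at hk
    exact hk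
  obtain ⟨i, hi⟩ : ∃ i, k = 4 * i + 1 ∨ k = 4 * i + 2 ∨ k = 4 * i + 3 ∨ k = 4 * i + 4 :=
    ⟨(k - 1) / 4, by omega⟩
  rcases hi with h | h | h | h
  · exact Or.inl ⟨i, H.mono (by omega) hk, hmin _ (by omega)⟩
  · exact Or.inl ⟨i, H.mono (by omega) hk, hmin _ (by omega)⟩
  · exact Or.inr ⟨i, H.mono (by omega) hk, hmin _ (by omega)⟩
  · exact Or.inr ⟨i, H.mono (by omega) hk, hmin _ (by omega)⟩

end exh

variable {m : ℕ}

/-- **Arbitrary singular sets.** Good homeomorphisms can be approximated by homeomorphisms with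
locally finite sets of singular points. -/
theorem exists_lf (hm : 2 ≤ m) {X Y : Type} [MetricSpace X] [SigmaCompactSpace X]
    [ChartedSpace (E (m + 1)) X] [IsManifold (𝓡 (m + 1)) ∞ X] [TopologicalSpace Y] [T2Space Y]
    [ChartedSpace (E (m + 1)) Y] [IsManifold (𝓡 (m + 1)) ∞ Y] {f0 : X → Y}
    (hf0 : IsHomeomorph f0)
    (hgd : ∀ x : X, ∃ (A : E (m + 1) → X) (ρ : ℝ), A 0 = x ∧ Gd (n := m + 1) f0 A ρ)
    {O : Set (X × Y)} (hO : IsOpen O) (hfO : ∀ x, (x, f0 x) ∈ O) :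
    ∃ (P : Set X) (f : X → Y), IsHomeomorph f ∧ LF P ∧ (∀ x, x ∉ P → LD (m + 1) f x) ∧
      ∀ x, (x, f x) ∈ O := by
  have : LocallyCompactSpace X := ChartedSpace.locallyCompactSpace (E (m + 1)) X
  obtain ⟨L, HL⟩ := exists_exh X
  obtain ⟨S, V, s1, s2, s3, s4, s5, s6⟩ := HL.shells 0
  obtain ⟨S', V', t1, t2, t3, t4, t5, t6⟩ := HL.shells 2
  obtain ⟨R1, P1, f1, H1, hR1, -, hf1O⟩ := stage hm hf0 s1 s2 s3 s4 s5 hgd hO hfO
  -- the second stage
  have hW : ∀ i, IsOpen (V' i \ (P1 \ S' i)) := fun i =>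
    (t2 i).sdiff (H1.lf.mono sdiff_subset).isClosed
  obtain ⟨R2, P2, f2, H2, hR2, hR2V, hf2O⟩ := stage hm H1.homeo t1 hW
    (fun i x hx => ⟨t3 i hx, fun h => h.2 hx⟩)
    (fun i j hij => (t4 i j hij).mono sdiff_subset sdiff_subset)
    (t5.subset fun i => sdiff_subset)
    (fun x => by
      obtain ⟨A, ρ, h0, h⟩ := hgd x
      exact ⟨A, ρ, h0, H1.gd hf0.continuous h⟩) hO hf1O
  obtain ⟨Q, hQ⟩ : ∃ Q : Set X, Q = P1 \ ⋃ i, S' i := ⟨_, rfl⟩
  have hQR : ∀ x ∈ Q, x ∉ R2 := by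
    intro x hx hxR
    rw [hQ] at hx
    obtain ⟨i, hi⟩ := mem_iUnion.1 (hR2V hxR)
    exact hi.2 ⟨hx.1, fun h => hx.2 (mem_iUnion.2 ⟨i, h⟩)⟩
  have hloc : ∀ x, x ∉ R2 → f2 =ᶠ[𝓝 x] f1 := fun x hx => by
    filter_upwards [H2.rc.isOpen_compl.mem_nhds hx] with y hy using H2.off y hy
  have hLF : LF (Q ∪ P2) := (H1.lf.mono (by rw [hQ]; exact sdiff_subset)).union H2.lf
  obtain ⟨f2h, hf2h⟩ : ∃ F : X ≃ₜ Y, (F : X → Y) = f2 := ⟨H2.homeo.homeomorph f2, rfl⟩
  -- the points which are not singular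
  have hAA : ∀ x, x ∉ Q ∪ P2 → AAM (m + 1) f2 x := by
    intro x hx
    have hxQ : x ∉ Q := fun h => hx (Or.inl h)
    have hxP : x ∉ P2 := fun h => hx (Or.inr h)
    by_cases hS' : ∃ i, x ∈ S' i
    · obtain ⟨i, hi⟩ := hS'
      exact (H2.ar x (mem_of_mem_nhds (hR2 i x hi)) hxP).to_AAM (hR2 i x hi)
    · have hxP1 : x ∉ P1 := fun h => hxQ (by
        rw [hQ]
        exact ⟨h, fun h' => hS' (mem_iUnion.1 h')⟩)
      have hS : ∃ i, x ∈ S i := by
        rcases HL.cover x with ⟨i, h1, h2⟩ | ⟨i, h1, h2⟩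
        · exact ⟨i, s6 i x h1 h2⟩
        · exact absurd ⟨i, t6 i x h1 h2⟩ hS'
      obtain ⟨i, hi⟩ := hS
      have h1 : ARM (m + 1) univ f1 x := by
        refine (H1.ar x (mem_of_mem_nhds (hR1 i x hi)) hxP1).mono ?_
        filter_upwards [hR1 i x hi] with y hy _ using hy
      exact (H2.arm H1.homeo.continuous hxP h1).to_AAM (Eventually.of_forall fun _ => mem_univ _)
  have hpl : ∀ p ∈ Q ∪ P2, ∀ᶠ x in 𝓝[≠] p, LD (m + 1) f2 x := by
    rintro p (hp | hp)
    · have h1 : p ∈ P1 := by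
        rw [hQ] at hp
        exact hp.1
      filter_upwards [H1.pl p h1, (hloc p (hQR p hp)).eventually_nhds.filter_mono
        nhdsWithin_le_nhds] with x hx hx2
      exact LD.congr hx hx2
    · exact H2.pl p hp
  obtain ⟨f, g1, g2, g3, -⟩ := smooth_off f2h (P := Q ∪ P2) (V := univ) hLF.isClosed isOpen_univ
    (fun x hx _ => ⟨mem_univ x, by rw [hf2h]; exact hAA x hx⟩)
    (by rw [hf2h]; exact hpl) hO (by rw [hf2h]; exact hf2O)
  exact ⟨Q ∪ P2, f, g1, hLF, g3, g2⟩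

end Pool.Agent.H816.Sw
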