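import Pool.Agent.H816.Ph25

/-!
# Swindles along given chains
-/

set_option autoImplicit false
set_option linter.unusedSectionVars false

open Set Filter Topology Metric Function
open scoped Manifold ContDiff

noncomputable section

namespace Pool.Agent.H816.Sw

open Pool.Agent.Y522 Pool.Agent.H816

theorem sys_of_chain {n : ℕ} (hn : 3 ≤ n) {X : Type} [TopologicalSpace X] [T2Space X]
    [ChartedSpace (E n) X] [IsManifold (𝓡 n) ∞ X] {p : X} {b : E n} (hb : b ≠ 0)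
    {g0 : E n → X} (hg0 : LD n g0 b) (hg0b : g0 b = p) {cc : ℕ → E n → X}
    (ci : ∀ i, Injective (cc i)) (cd : ∀ i z, LD n (cc i) z) (cp : p ∈ range (cc 0))
    (cp' : ∀ i, p ∉ range (cc (i + 1))) (cn : ∀ i, (range (cc i) ∩ range (cc (i + 1))).Nonempty)
    (cdis : ∀ i j, i + 2 ≤ j → Disjoint (range (cc i)) (range (cc j)))
    (clf : LocallyFinite (fun i => range (cc i))) :
    ∃ (C : ℕ → Set X) (α β : ℕ → X) (es Es : ℕ → E n → X), Sys p b g0 C α β es Es ∧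
      ∀ i, C i = range (cc i) := by
  have hcc : ∀ i, Continuous (cc i) := fun i =>
    continuous_iff_continuousAt.2 fun z => (cd i z).continuousAt
  obtain ⟨C, hC⟩ : ∃ C : ℕ → Set X, C = fun i => range (cc i) := ⟨_, rfl⟩
  have hCr : ∀ i, C i = range (cc i) := fun i => by rw [hC]
  have hCo : ∀ i, IsOpen (C i) := fun i => by rw [hCr]; exact range_open (cd i)
  have hCd : ∀ i j, i + 2 ≤ j → Disjoint (C i) (C j) := fun i j hij => by
    rw [hCr, hCr]
    exact cdis i j hij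
  have hpC : p ∈ C 0 := by rw [hCr]; exact cp
  have hpC' : ∀ i, p ∉ C (i + 1) := fun i => by rw [hCr]; exact cp' i
  have hno : ∀ i j x, i + 2 ≤ j → x ∈ C i → x ∈ C j → False := fun i j x hij h1 h2 =>
    Set.disjoint_left.1 (hCd i j hij) h1 h2
  -- the small cells
  have h1 : ∀ i, ∃ c : E n → X, Injective c ∧ (∀ z, LD n c z) ∧ ∀ z, c z ∈ C i ∩ C (i + 1) := by
    intro i
    obtain ⟨x, hx⟩ : (C i ∩ C (i + 1)).Nonempty := by
      rw [hCr, hCr]
      exact cn i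
    obtain ⟨c, -, h1, h2, h3⟩ := cell_exists (n := n) (((hCo i).inter (hCo (i + 1))).mem_nhds hx)
    exact ⟨c, h1, h2, h3⟩
  choose dd di ddd dr using h1
  have hdc : ∀ i, Continuous (dd i) := fun i =>
    continuous_iff_continuousAt.2 fun z => (ddd i z).continuousAt
  obtain ⟨α, hα⟩ : ∃ α : ℕ → X, α = fun i => dd i 0 := ⟨_, rfl⟩
  obtain ⟨β, hβ⟩ : ∃ β : ℕ → X, β = fun i => dd i b := ⟨_, rfl⟩
  have hαd : ∀ i, α i = dd i 0 := fun i => by rw [hα]
  have hβd : ∀ i, β i = dd i b := fun i => by rw [hβ]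
  have hα1 : ∀ i, α i ∈ C i := fun i => by rw [hαd]; exact (dr i 0).1
  have hα2 : ∀ i, α i ∈ C (i + 1) := fun i => by rw [hαd]; exact (dr i 0).2
  have hβ1 : ∀ i, β i ∈ C i := fun i => by rw [hβd]; exact (dr i b).1
  have hβ2 : ∀ i, β i ∈ C (i + 1) := fun i => by rw [hβd]; exact (dr i b).2
  have hαβ : ∀ i, α i ≠ β i := fun i h => by
    rw [hαd, hβd] at h
    exact hb (di i h).symm
  obtain ⟨bt, hbt⟩ : ∃ bt : ℕ → X, bt 0 = p ∧ ∀ i, bt (i + 1) = β i :=
    ⟨fun i => Nat.casesOn i p β, rfl, fun i => rfl⟩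
  obtain ⟨al, hal⟩ : ∃ al : ℕ → X, al 0 = α 5 ∧ ∀ i, al (i + 1) = α i :=
    ⟨fun i => Nat.casesOn i (α 5) α, rfl, fun i => rfl⟩
  -- the points are different
  have k1 : ∀ i, bt i ∈ C i := by
    rintro (- | i)
    · rw [hbt.1]; exact hpC
    · rw [hbt.2]; exact hβ2 i
  have k2 : ∀ i, bt i ≠ al i := by
    rintro (- | i) h
    · rw [hbt.1, hal.1] at h
      exact hpC' 5 (h ▸ hα2 5)
    · rw [hbt.2, hal.2] at h
      exact hαβ i h.symm
  have k3 : ∀ i, bt i ≠ β i := by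
    rintro (- | i) h
    · rw [hbt.1] at h
      exact hpC' 0 (h ▸ hβ2 0)
    · rw [hbt.2] at h
      exact hno i (i + 2) _ (by omega) (hβ1 i) (h ▸ hβ2 (i + 1))
  have k4 : ∀ i, α i ≠ al i := by
    rintro (- | i) h
    · rw [hal.1] at h
      exact hno 0 5 _ (by omega) (hα1 0) (h ▸ hα1 5)
    · rw [hal.2] at h
      exact hno i (i + 2) _ (by omega) (hα1 i) (h ▸ hα2 (i + 1))
  have k5 : ∀ i, α i ≠ bt i := by
    rintro (- | i) h
    · rw [hbt.1] at h
      exact hpC' 0 (h ▸ hα2 0)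
    · rw [hbt.2] at h
      exact hno i (i + 2) _ (by omega) (hβ1 i) (h ▸ hα2 (i + 1))
  have hstep : ∀ i (e : E n → X), (LD n e b ∧ e b = bt i) → ∃ (h : E n → X) (e' : E n → X),
      (Injective h ∧ (∀ w, LD n h w) ∧ range h ⊆ C i \ {al i, β i} ∧ h =ᶠ[𝓝 b] e ∧ h 0 = α i ∧
        Injective e' ∧ (∀ w, LD n e' w) ∧ range e' ⊆ range (dd i) ∧ e' =ᶠ[𝓝 0] h ∧ e' b = β i) ∧
      LD n e' b ∧ e' b = bt (i + 1) := by
    rintro i e ⟨he1, he2⟩
    have hfin : ({al i, β i} : Set X).Finite := by simp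
    obtain ⟨h, h1, h2, h3, h4, h5⟩ := emb_two (n := n) (U := C i \ {al i, β i})
      ((hCo i).sdiff hfin.isClosed) he1 (by
        rw [he2]
        refine ⟨k1 i, ?_⟩
        rintro (h | h)
        · exact k2 i h
        · exact k3 i h) (by
        rw [Set.sdiff_sdiff, hCr]
        exact cell_compl (by omega) (hcc i) (ci i) (hfin.union (finite_singleton _)))
      hb.symm (t := α i) (by
        refine ⟨hα1 i, ?_⟩
        rintro (h | h)
        · exact k4 i h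
        · exact hαβ i h) (by rw [he2]; exact k5 i)
    obtain ⟨e', f1, f2, f3, f4, f5⟩ := emb_two (n := n) (U := range (dd i)) (range_open (ddd i))
      (h2 0) (by rw [h5, hαd]; exact ⟨0, rfl⟩)
      (cell_compl (by omega) (hdc i) (di i) (finite_singleton _)) hb (t := β i)
      (by rw [hβd]; exact ⟨b, rfl⟩) (by rw [h5]; exact (hαβ i).symm)
    exact ⟨h, e', ⟨h1, h2, h3, h4, h5, f1, f2, f3, f4, f5⟩, f2 b, by rw [f5, hbt.2]⟩
  obtain ⟨es, Es, s0, hs⟩ := dep_choice (fun i (e : E n → X) => LD n e b ∧ e b = bt i)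
    (fun i (e : E n → X) (h : E n → X) (e' : E n → X) =>
      (Injective h ∧ (∀ w, LD n h w) ∧ range h ⊆ C i \ {al i, β i} ∧ h =ᶠ[𝓝 b] e ∧ h 0 = α i ∧
        Injective e' ∧ (∀ w, LD n e' w) ∧ range e' ⊆ range (dd i) ∧ e' =ᶠ[𝓝 0] h ∧ e' b = β i))
    (a0 := g0) ⟨hg0, by rw [hg0b, hbt.1]⟩ hstep
  have hr : ∀ i w, es (i + 1) w ∈ range (dd i) := fun i w =>
    (hs i).2.2.2.2.2.2.2.2.1 ⟨w, rfl⟩
  have hR : ∀ i w, Es i w ∈ C i \ {al i, β i} := fun i w => (hs i).2.2.2.1 ⟨w, rfl⟩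
  have hdr : ∀ i, range (dd i) ⊆ C i ∩ C (i + 1) := fun i => by
    rintro _ ⟨w, rfl⟩
    exact dr i w
  exact ⟨C, α, β, es, Es,
    { Cd := hCd
      Clf := by rw [hC]; exact clf
      pC := hpC'
      ei := fun i => (hs i).2.2.2.2.2.2.1
      ed := fun i => (hs i).2.2.2.2.2.2.2.1
      er := fun i w => (hdr i (hr i w)).1
      er' := fun i w => (hdr i (hr i w)).2
      Ei := fun i => (hs i).2.1
      Ed := fun i => (hs i).2.2.1
      Er := fun i w => (hR i w).1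
      Eal := fun i w h => (hR (i + 1) w).2 (by
        rw [h, hal.2]
        exact Or.inl rfl)
      Ebe := fun i w h => (hR i w).2 (by
        rw [h]
        exact Or.inr rfl)
      E0 := fun i => (hs i).2.2.2.2.2.1
      e0 := fun i => (hs i).2.2.2.2.2.2.2.2.2.1
      eb := fun i => (hs i).2.2.2.2.2.2.2.2.2.2
      Eb := fun i => (hs i).2.2.2.2.1
      s0 := s0
      s0b := by rw [s0, hg0b] }, hCr⟩

variable {m : ℕ}

/-- the type of a singular point -/
theorem exists_type (hm : 2 ≤ m) {X Y : Type} [TopologicalSpace X]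
    [ChartedSpace (E (m + 1)) X] [IsManifold (𝓡 (m + 1)) ∞ X] [TopologicalSpace Y]
    [ChartedSpace (E (m + 1)) Y] [IsManifold (𝓡 (m + 1)) ∞ Y] {f : X → Y} (hfc : Continuous f)
    (hfi : Injective f) {p : X} (hf : ∀ x, x ≠ p → LD (m + 1) f x) :
    ∃ (G θ θ' ν D : E (m + 1) → E (m + 1)) (b : E (m + 1)) (R : ℝ) (g0 : E (m + 1) → X),
      Pair G θ θ' ν D b R ∧ LD (m + 1) g0 b ∧ g0 b = p ∧
      LD (m + 1) (fun w => f (g0 (θ' w))) (θ b) := by
  -- the cells at the singular point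
  obtain ⟨d, d0, d1, d2, -⟩ := cell_exists (n := m + 1) (univ_mem : (univ : Set Y) ∈ 𝓝 (f p))
  have hdo : IsOpen (range d) := range_open d2
  obtain ⟨c, c0, c1, c2, c3⟩ := cell_exists (n := m + 1) (x := p)
    (hfc.continuousAt.preimage_mem_nhds (hdo.mem_nhds ⟨0, d0⟩))
  have c3' : ∀ z, f (c z) ∈ range d := fun z => c3 z
  obtain ⟨G, hG⟩ : ∃ G : E (m + 1) → E (m + 1), G = fun z => invFun d (f (c z)) := ⟨_, rfl⟩
  have hdG : ∀ z, d (G z) = f (c z) := fun z => by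
    rw [hG]
    exact invFun_eq (c3' z)
  have hinv : ∀ z, LD (m + 1) (invFun d) (f (c z)) := fun z => by
    obtain ⟨w, hw⟩ := c3' z
    rw [← hw]
    exact LD.inverse (k := d) (U := univ) isOpen_univ (fun y _ => d2 y)
      (g := invFun d) (fun y _ => leftInverse_invFun d1 y) (mem_univ w)
  have hGc : Continuous G := by
    rw [continuous_iff_continuousAt]
    intro z
    rw [hG]
    exact (hinv z).continuousAt.comp (f := fun z => f (c z))
      (hfc.continuousAt.comp (c2 z).continuousAt)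
  have hGi : Injective G := fun a b hab => by
    have h := congrArg d hab
    rw [hdG, hdG] at h
    exact c1 (hfi h)
  have hGd : ∀ z : E (m + 1), z ≠ 0 → ‖z‖ < 2 → LD (m + 1) G z := fun z hz _ => by
    rw [hG]
    refine LD.comp_fun (g := invFun d) (f := fun z => f (c z)) (hinv z)
      (LD.comp_fun (g := f) (hf _ fun h => hz (c1 ?_)) (c2 z))
    rw [h, c0]
  obtain ⟨θ, θ', ν, D, b, R, H⟩ := exists_pair hm hGc.continuousOn hGi.injOn hGd
  obtain ⟨g0, hg0⟩ : ∃ g0 : E (m + 1) → X, g0 = fun v => c (ν v) := ⟨_, rfl⟩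
  have k1 : LD (m + 1) g0 b := by
    rw [hg0]
    exact LD.comp_fun (g := c) (c2 _) H.νd
  have k2 : g0 b = p := by
    rw [hg0]
    show c (ν b) = p
    rw [H.νb, c0]
  have k3 : LD (m + 1) (fun w => f (g0 (θ' w))) (θ b) := by
    have h1 : LD (m + 1) (fun w => d (D w)) (θ b) := LD.comp_fun (g := d) (d2 _) H.Dd
    refine h1.congr ?_
    filter_upwards [H.ty] with w hw
    rw [hg0]
    show f (c (ν (θ' w))) = d (D w)
    rw [← hdG, hw]
  exact ⟨G, θ, θ', ν, D, b, R, g0, H, k1, k2, k3⟩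

/-- **The swindle along a chain.** -/
theorem chain_swindle (hm : 2 ≤ m) {X Y : Type} [TopologicalSpace X] [T2Space X]
    [ChartedSpace (E (m + 1)) X] [IsManifold (𝓡 (m + 1)) ∞ X] [TopologicalSpace Y]
    [ChartedSpace (E (m + 1)) Y] [IsManifold (𝓡 (m + 1)) ∞ Y] {f : X → Y} (hfc : Continuous f)
    (hfi : Injective f) {p : X} (hf : ∀ x, x ≠ p → LD (m + 1) f x) {cc : ℕ → E (m + 1) → X}
    (ci : ∀ i, Injective (cc i)) (cd : ∀ i z, LD (m + 1) (cc i) z) (cp : p ∈ range (cc 0))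
    (cp' : ∀ i, p ∉ range (cc (i + 1))) (cn : ∀ i, (range (cc i) ∩ range (cc (i + 1))).Nonempty)
    (cdis : ∀ i j, i + 2 ≤ j → Disjoint (range (cc i)) (range (cc j)))
    (clf : LocallyFinite (fun i => range (cc i))) :
    ∃ P1 P2 P3 : X → X, IsHomeomorph P1 ∧ IsHomeomorph P2 ∧ IsHomeomorph P3 ∧
      (∀ x, LD (m + 1) (fun x => f (P1 (P2 (P3 x)))) x) ∧
      (∀ x, P1 x = x ∨ ∃ i, x ∈ range (cc i) ∧ P1 x ∈ range (cc i)) ∧
      (∀ x, P2 x = x ∨ ∃ i, x ∈ range (cc i) ∧ P2 x ∈ range (cc i)) ∧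
      ∀ x, P3 x = x ∨ ∃ i, x ∈ range (cc i) ∧ P3 x ∈ range (cc i) := by
  obtain ⟨G, θ, θ', ν, D, b, R, g0, H, k1, k2, k3⟩ := exists_type hm hfc hfi hf
  obtain ⟨C, α, β, es, Es, S, hC⟩ := sys_of_chain (n := m + 1) (by omega) H.b0 k1 k2 ci cd cp cp'
    cn cdis clf
  obtain ⟨P1, P2, P3, a1, a2, a3, a4, q1, q2, q3⟩ := products S H hf k3
  simp only [hC] at q1 q2 q3
  exact ⟨P1, P2, P3, a1, a2, a3, a4, q1, q2, q3⟩

end Pool.Agent.H816.Sw
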