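import Pool.Agent.H816.Ph26

/-!
# Moving singular points
-/

set_option autoImplicit false
set_option linter.unusedSectionVars false

open Set Filter Topology Metric Function
open scoped Manifold ContDiff

noncomputable section

namespace Pool.Agent.H816.Sw

open Pool.Agent.Y522 Pool.Agent.H816 Pool.Agent.H816.Ph
open Pool.Agent.Q130.CM Pool.Agent.Y170.NA

variable {n : ℕ}

theorem ball_cell (x : E n) {r : ℝ} (hr : 0 < r) :
    ∃ T : E n → E n, Injective T ∧ (∀ z, LD n T z) ∧ range T = ball x r := by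
  obtain ⟨U, hU⟩ : ∃ U : TopologicalSpace.Opens (E n), ∀ x, x ∈ U ↔ ‖x‖ < r :=
    ⟨⟨ball 0 r, isOpen_ball⟩, fun x => mem_ball_zero_iff⟩
  obtain ⟨e, he1, he2, he3, he4⟩ := ball_param (n := n) hr hU
  refine ⟨fun z => ((e z : U) : E n) + x, fun a b hab => ?_, fun z => ?_, ?_⟩
  · exact he2 (Subtype.ext (add_right_cancel hab))
  · exact LD.comp_fun (g := fun y => y + x) (f := fun z => ((e z : U) : E n)) (LD_add_const x _)
      (LD.comp_fun (g := (Subtype.val : U → E n)) (LD_val U _) (he3 z))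
  · ext y
    rw [mem_ball, dist_eq_norm]
    constructor
    · rintro ⟨z, rfl⟩
      show ‖((e z : U) : E n) + x - x‖ < r
      rw [add_sub_cancel_right]
      exact (hU _).1 (e z).2
    · intro hy
      obtain ⟨z, hz⟩ := he4 ⟨y - x, (hU _).2 hy⟩
      refine ⟨z, ?_⟩
      show ((e z : U) : E n) + x = y
      rw [hz]
      exact sub_add_cancel y x

theorem lift_cell {X : Type} [TopologicalSpace X] [ChartedSpace (E n) X]
    {U : TopologicalSpace.Opens X} {T : E n → X} (hT : ∀ z, LD n T z) (hTU : ∀ z, T z ∈ U)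
    (z : E n) : LD n (fun z => (⟨T z, hTU z⟩ : U)) z := by
  have hc : Continuous T := continuous_iff_continuousAt.2 fun z => (hT z).continuousAt
  exact LD_of_comp_left (p := (Subtype.val : U → X)) (hc.subtype_mk hTU).continuousAt
    (LD_val U _) (hT z)

/-- a chain of balls which converges to `v` -/
theorem explicit_chain {v : E n} (hv : v ≠ 0) {η : ℝ} (hη : 0 < η)
    {U : TopologicalSpace.Opens (E n)} (hU : ∀ x, x ∈ U ↔ x ≠ v) {p : U} (hp : (p : E n) = 0) :
    ∃ (cc : ℕ → E n → U) (κ : ℝ), (∀ i, Injective (cc i)) ∧ (∀ i z, LD n (cc i) z) ∧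
      p ∈ range (cc 0) ∧ (∀ i, p ∉ range (cc (i + 1))) ∧
      (∀ i, (range (cc i) ∩ range (cc (i + 1))).Nonempty) ∧
      (∀ i j, i + 2 ≤ j → Disjoint (range (cc i)) (range (cc j))) ∧
      LocallyFinite (fun i => range (cc i)) ∧
      ∀ i, ∀ u ∈ range (cc i), ∀ u' ∈ range (cc i), ‖(u' : E n) - u‖ ≤ η ∧
        ‖(u' : E n) - v‖ ≤ κ * ‖(u : E n) - v‖ ∧ ‖(u : E n)‖ ≤ 2 * ‖v‖ := by
  have hv0 : 0 < ‖v‖ := norm_pos_iff.2 hv
  obtain ⟨l, ρ, hl0, hl1, hρ, hρη⟩ : ∃ l ρ : ℝ, 0 < l ∧ l < 1 ∧ ρ * (1 + l ^ 2) = 1 - l ^ 2 ∧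
      2 * ρ * ‖v‖ ≤ η := by
    obtain ⟨t, ht0, ht1, ht2⟩ : ∃ t : ℝ, 0 < t ∧ t ≤ 1 / 2 ∧ 4 * t * ‖v‖ ≤ η :=
      ⟨min (1 / 2) (η / (4 * ‖v‖)), lt_min (by norm_num) (by positivity), min_le_left _ _, by
        have h := min_le_right (1 / 2) (η / (4 * ‖v‖))
        rw [le_div_iff₀ (by positivity)] at h
        linarith⟩
    refine ⟨1 - t, (1 - (1 - t) ^ 2) / (1 + (1 - t) ^ 2), by linarith, by linarith,
      div_mul_cancel₀ _ (by positivity), ?_⟩
    have h1 : (1 - (1 - t) ^ 2) / (1 + (1 - t) ^ 2) ≤ 2 * t := by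
      rw [div_le_iff₀ (by positivity)]
      nlinarith [sq_nonneg (1 - t), mul_nonneg ht0.le (sq_nonneg (1 - t))]
    have h2 := mul_le_mul_of_nonneg_right h1 hv0.le
    linarith
  have hl2 : l ^ 2 < 1 := by nlinarith
  have hl2' : 0 < l ^ 2 := by positivity
  have hρ0 : 0 < ρ := by
    by_contra h
    nlinarith [not_lt.1 h]
  have hρ1 : ρ < 1 := by nlinarith
  -- the balls
  obtain ⟨x, hx⟩ : ∃ x : ℕ → E n, x = fun i => (1 - l ^ i) • v := ⟨_, rfl⟩
  obtain ⟨r, hr⟩ : ∃ r : ℕ → ℝ, r = fun i => ρ * l ^ i * ‖v‖ := ⟨_, rfl⟩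
  have hx' : ∀ i, x i = (1 - l ^ i) • v := fun i => by rw [hx]
  have hr' : ∀ i, r i = ρ * l ^ i * ‖v‖ := fun i => by rw [hr]
  have ha0 : ∀ i : ℕ, 0 < l ^ i := fun i => by positivity
  have ha1 : ∀ i : ℕ, l ^ i ≤ 1 := fun i => pow_le_one₀ hl0.le hl1.le
  have hr0 : ∀ i, 0 < r i := fun i => by
    rw [hr']
    have := ha0 i
    positivity
  have hxv : ∀ i, ‖x i - v‖ = l ^ i * ‖v‖ := fun i => by
    have e : x i - v = -(l ^ i • v) := by
      rw [hx', sub_smul, one_smul]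
      abel
    rw [e, norm_neg, norm_smul, Real.norm_of_nonneg (ha0 i).le]
  have hup : ∀ i w, ‖w - x i‖ < r i → ‖w - v‖ ≤ (1 + ρ) * (l ^ i * ‖v‖) := fun i w hw => by
    have h1 := norm_add_le (w - x i) (x i - v)
    rw [sub_add_sub_cancel, hxv] at h1
    rw [hr'] at hw
    linarith
  have hlo : ∀ i w, ‖w - x i‖ < r i → (1 - ρ) * (l ^ i * ‖v‖) ≤ ‖w - v‖ := fun i w hw => by
    have h1 := norm_sub_le (w - v) (w - x i)
    rw [sub_sub_sub_cancel_left, hxv] at h1
    rw [hr'] at hw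
    linarith
  have hpos : ∀ i, 0 < (1 - ρ) * (l ^ i * ‖v‖) := fun i => by
    have := ha0 i
    have h2 : 0 < 1 - ρ := by linarith
    positivity
  choose T hT1 hT2 hT3 using fun i => ball_cell (n := n) (x i) (hr0 i)
  have hTm : ∀ i w, w ∈ range (T i) ↔ ‖w - x i‖ < r i := fun i w => by
    rw [hT3, mem_ball, dist_eq_norm]
  have hTU : ∀ i z, T i z ∈ U := fun i z => by
    rw [hU]
    intro h
    have h1 := hlo i (T i z) ((hTm i _).1 ⟨z, rfl⟩)
    rw [h, sub_self, norm_zero] at h1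
    exact absurd (hpos i) (not_lt.2 h1)
  have hcc : ∀ i (u : U), u ∈ range (fun z => (⟨T i z, hTU i z⟩ : U)) ↔ ‖(u : E n) - x i‖ < r i := by
    intro i u
    rw [← hTm]
    constructor
    · rintro ⟨z, rfl⟩
      exact ⟨z, rfl⟩
    · rintro ⟨z, hz⟩
      exact ⟨z, Subtype.ext hz⟩
  refine ⟨fun i z => ⟨T i z, hTU i z⟩, (1 + ρ) / (1 - ρ), fun i a b hab => ?_,
    fun i => lift_cell (hT2 i) (hTU i), ?_, fun i => ?_, fun i => ?_, fun i j hij => ?_, ?_, ?_⟩
  · exact hT1 i (congrArg Subtype.val hab)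
  · rw [hcc, hp, hx', pow_zero, sub_self, zero_smul, sub_self, norm_zero]
    exact hr0 0
  · rw [hcc, hp, hx', hr', zero_sub, norm_neg, norm_smul, Real.norm_of_nonneg (by
      have := ha1 (i + 1)
      linarith), not_lt]
    refine mul_le_mul_of_nonneg_right ?_ hv0.le
    have h1 : l ^ (i + 1) ≤ l := by
      calc l ^ (i + 1) = l ^ i * l := pow_succ l i
        _ ≤ 1 * l := mul_le_mul_of_nonneg_right (ha1 i) hl0.le
        _ = l := one_mul l
    have h2 : (1 + ρ) * (1 + l ^ 2) = 2 := by linarith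
    have h3 : (1 + ρ) * l ^ (i + 1) ≤ 1 := by
      have h4 : (1 + ρ) * l ^ (i + 1) ≤ (1 + ρ) * l := by gcongr
      have h5 : (1 + ρ) * l * (1 + l ^ 2) ≤ 1 * (1 + l ^ 2) := by nlinarith [sq_nonneg (1 - l)]
      have h6 : (1 + ρ) * l ≤ 1 := le_of_mul_le_mul_right h5 (by positivity)
      linarith
    linarith
  · -- consecutive balls overlap
    obtain ⟨a, ha⟩ : ∃ a : ℝ, a = l ^ i := ⟨_, rfl⟩
    have ha0' : 0 < a := by rw [ha]; exact ha0 i
    obtain ⟨σ, hσ⟩ : ∃ σ : ℝ, σ * (1 + l) = 1 - l := ⟨(1 - l) / (1 + l), by field_simp⟩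
    have hσ0 : 0 < σ := by
      by_contra h
      nlinarith [not_lt.1 h]
    have hσ1 : σ < 1 := by nlinarith
    have hσρ : σ < ρ := by
      by_contra h
      have h1 : ρ * (1 + l) ^ 2 ≤ σ * (1 + l) ^ 2 := by
        exact mul_le_mul_of_nonneg_right (not_lt.1 h) (by positivity)
      nlinarith [mul_pos hρ0 hl0]
    have hw : (1 - a + a * σ) • v ∈ U := by
      rw [hU]
      intro h
      have h1 : (a * (1 - σ)) • v = 0 := by
        have e : (a * (1 - σ)) • v = v - (1 - a + a * σ) • v := by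
          rw [eq_sub_iff_add_eq, ← add_smul]
          have : a * (1 - σ) + (1 - a + a * σ) = 1 := by ring
          rw [this, one_smul]
        rw [e, h, sub_self]
      rcases smul_eq_zero.1 h1 with h2 | h2
      · have : 0 < a * (1 - σ) := mul_pos ha0' (by linarith)
        linarith
      · exact hv h2
    refine ⟨⟨_, hw⟩, (hcc i _).2 ?_, (hcc (i + 1) _).2 ?_⟩
    · show ‖(1 - a + a * σ) • v - x i‖ < r i
      have e : (1 - a + a * σ) • v - x i = (a * σ) • v := by
        rw [hx', ← sub_smul, ← ha]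
        congr 1
        ring
      rw [e, norm_smul, Real.norm_of_nonneg (by positivity), hr', ← ha]
      refine mul_lt_mul_of_pos_right ?_ hv0
      nlinarith
    · show ‖(1 - a + a * σ) • v - x (i + 1)‖ < r (i + 1)
      have e : (1 - a + a * σ) • v - x (i + 1) = -((a * l * σ) • v) := by
        rw [hx', ← sub_smul, ← neg_smul, pow_succ, ← ha]
        congr 1
        have h1 : a * (σ * (1 + l)) = a * (1 - l) := by rw [hσ]
        linarith
      rw [e, norm_neg, norm_smul, Real.norm_of_nonneg (by positivity), hr', pow_succ, ← ha]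
      refine mul_lt_mul_of_pos_right ?_ hv0
      have h1 : 0 < a * l := by positivity
      nlinarith
  · -- the others are disjoint
    rw [Set.disjoint_left]
    intro u h1 h2
    have h1' := (hcc i u).1 h1
    have h2' := (hcc j u).1 h2
    have h3 := norm_sub_le ((u : E n) - x i) ((u : E n) - x j)
    rw [sub_sub_sub_cancel_left, hx', hx', ← sub_smul, norm_smul] at h3
    have hb : l ^ j ≤ l ^ 2 * l ^ i := by
      obtain ⟨k, rfl⟩ := Nat.exists_eq_add_of_le hij
      have e : l ^ (i + 2 + k) = l ^ k * (l ^ 2 * l ^ i) := by ring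
      rw [e]
      calc l ^ k * (l ^ 2 * l ^ i) ≤ 1 * (l ^ 2 * l ^ i) := by
            have := ha0 i
            exact mul_le_mul_of_nonneg_right (ha1 k) (by positivity)
        _ = l ^ 2 * l ^ i := one_mul _
    have h4 : l ^ i - l ^ j ≤ ‖(1 - l ^ j) - (1 - l ^ i)‖ := by
      rw [Real.norm_eq_abs]
      have := le_abs_self ((1 - l ^ j) - (1 - l ^ i))
      linarith
    have h5 : (l ^ i - l ^ j) * ‖v‖ ≤ ‖(1 - l ^ j) - (1 - l ^ i)‖ * ‖v‖ :=
      mul_le_mul_of_nonneg_right h4 hv0.le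
    rw [hr', hx'] at h1' h2'
    have h6 : (l ^ i - l ^ j) * ‖v‖ < (ρ * l ^ i + ρ * l ^ j) * ‖v‖ := by
      have : (ρ * l ^ i + ρ * l ^ j) * ‖v‖ = ρ * l ^ i * ‖v‖ + ρ * l ^ j * ‖v‖ := by ring
      rw [this]
      linarith
    have h7 := lt_of_mul_lt_mul_right h6 hv0.le
    have h8 : (1 + ρ) * (l ^ 2) = 1 - ρ := by linarith
    have h9 : (1 + ρ) * l ^ j ≤ (1 + ρ) * (l ^ 2 * l ^ i) := by gcongr
    have h10 : (1 + ρ) * (l ^ 2 * l ^ i) = (1 - ρ) * l ^ i := by rw [← mul_assoc, h8]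
    linarith
  · -- local finiteness
    intro u
    have hd : 0 < ‖(u : E n) - v‖ := by
      rw [norm_pos_iff, sub_ne_zero]
      exact (hU _).1 u.2
    obtain ⟨N, hN⟩ := exists_pow_lt_of_lt_one (show 0 < ‖(u : E n) - v‖ / (4 * ‖v‖) by positivity)
      hl1
    rw [lt_div_iff₀ (by positivity)] at hN
    refine ⟨{w : U | ‖(w : E n) - u‖ < ‖(u : E n) - v‖ / 2}, ?_, (finite_lt_nat N).subset ?_⟩
    · have hc : Continuous fun w : U => ‖(w : E n) - u‖ := by fun_prop
      exact (isOpen_lt hc continuous_const).mem_nhds (by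
        show ‖(u : E n) - u‖ < _
        rw [sub_self, norm_zero]
        positivity)
    · rintro i ⟨w, hw1, hw2⟩
      have hw2' : ‖(w : E n) - u‖ < ‖(u : E n) - v‖ / 2 := hw2
      have h1 := hup i w ((hcc i w).1 hw1)
      by_contra hcon
      have hNi : N ≤ i := not_lt.1 hcon
      have h2 : l ^ i ≤ l ^ N := pow_le_pow_of_le_one hl0.le hl1.le hNi
      have h3 := norm_sub_le ((w : E n) - v) ((w : E n) - u)
      rw [sub_sub_sub_cancel_left] at h3
      have h4 : (1 + ρ) * (l ^ i * ‖v‖) ≤ 2 * (l ^ N * ‖v‖) := by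
        have h5 : l ^ i * ‖v‖ ≤ l ^ N * ‖v‖ := mul_le_mul_of_nonneg_right h2 hv0.le
        have h6 : 0 < l ^ i * ‖v‖ := mul_pos (ha0 i) hv0
        nlinarith
      linarith
  · intro i u hu u' hu'
    have h1 := (hcc i u).1 hu
    have h2 := (hcc i u').1 hu'
    refine ⟨?_, ?_, ?_⟩
    · have h3 := norm_sub_le ((u' : E n) - x i) ((u : E n) - x i)
      rw [sub_sub_sub_cancel_right] at h3
      have h4 : r i ≤ ρ * ‖v‖ := by
        rw [hr']
        have := ha1 i
        have h5 : ρ * l ^ i ≤ ρ * 1 := mul_le_mul_of_nonneg_left this hρ0.le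
        rw [mul_one] at h5
        exact mul_le_mul_of_nonneg_right h5 hv0.le
      linarith
    · have h3 := hup i u' h2
      have h4 := hlo i u h1
      have h5 : 0 < 1 - ρ := by linarith
      rw [div_mul_eq_mul_div, le_div_iff₀ h5]
      calc ‖(u' : E n) - v‖ * (1 - ρ) ≤ (1 + ρ) * (l ^ i * ‖v‖) * (1 - ρ) :=
            mul_le_mul_of_nonneg_right h3 h5.le
        _ = (1 + ρ) * ((1 - ρ) * (l ^ i * ‖v‖)) := by ring
        _ ≤ (1 + ρ) * ‖(u : E n) - v‖ := mul_le_mul_of_nonneg_left h4 (by linarith)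
    · have h3 := norm_add_le ((u : E n) - v) v
      rw [sub_add_cancel] at h3
      have h5 := norm_add_le ((u : E n) - x i) (x i)
      rw [sub_add_cancel, hx', norm_smul, Real.norm_of_nonneg (by linarith [ha1 i])] at h5
      rw [← hx'] at h5
      rw [hr'] at h1
      have h6 : ρ * l ^ i * ‖v‖ ≤ 1 * l ^ i * ‖v‖ := by
        have := ha0 i
        gcongr
      have h7 := ha1 i
      have h8 : 0 < ‖v‖ := hv0
      nlinarith

end Pool.Agent.H816.Sw
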