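import Pool.Agent.H816.Ph27

/-!
# Moving singular points, continued
-/

set_option autoImplicit false
set_option linter.unusedSectionVars false

open Set Filter Topology Metric Function
open scoped Manifold ContDiff

noncomputable section

namespace Pool.Agent.H816.Sw

open Pool.Agent.Y522 Pool.Agent.H816 Pool.Agent.H816.Ph
open Pool.Agent.Q130.CM Pool.Agent.Y170.NA

variable {m : ℕ}

/-- moving a singular point from `0` to `v` in the euclidean space -/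
theorem cell_swindle (hm : 2 ≤ m) {Y : Type} [TopologicalSpace Y] [ChartedSpace (E (m + 1)) Y]
    [IsManifold (𝓡 (m + 1)) ∞ Y] {F : E (m + 1) → Y} (hFc : Continuous F) (hFi : Injective F)
    (hF : ∀ z, z ≠ 0 → LD (m + 1) F z) {v : E (m + 1)} (hv : v ≠ 0) {η : ℝ} (hη : 0 < η) :
    ∃ Q : E (m + 1) → E (m + 1), Bijective Q ∧ Continuous Q ∧ (∀ z, 2 * ‖v‖ < ‖z‖ → Q z = z) ∧
      (∀ z, ‖Q z - z‖ ≤ η) ∧ ∀ z, z ≠ v → LD (m + 1) (fun z => F (Q z)) z := by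
  classical
  obtain ⟨U, hU⟩ : ∃ U : TopologicalSpace.Opens (E (m + 1)), ∀ x, x ∈ U ↔ x ≠ v :=
    ⟨⟨{v}ᶜ, isOpen_compl_singleton⟩, fun x => Iff.rfl⟩
  obtain ⟨p, hp⟩ : ∃ p : U, (p : E (m + 1)) = 0 := ⟨⟨0, (hU 0).2 hv.symm⟩, rfl⟩
  obtain ⟨cc, κ0, c1, c2, c3, c4, c5, c6, c7, c8⟩ := explicit_chain hv
    (show 0 < η / 3 by positivity) hU hp
  obtain ⟨P1, P2, P3, a1, a2, a3, a4, q1, q2, q3⟩ := chain_swindle hm (X := U) (Y := Y)
    (f := fun u => F u) (hFc.comp continuous_subtype_val)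
    (hFi.comp Subtype.val_injective) (p := p)
    (fun u hu => LD.comp_fun (g := F) (hF _ fun h => hu (Subtype.ext (by rw [h, hp]))) (LD_val U u))
    c1 c2 c3 c4 c5 c6 c7
  obtain ⟨κ, hκ1, hκ0⟩ : ∃ κ : ℝ, 1 ≤ κ ∧ κ0 ≤ κ := ⟨max 1 κ0, le_max_left _ _, le_max_right _ _⟩
  have mv : ∀ {P : U → U}, (∀ x, P x = x ∨ ∃ i, x ∈ range (cc i) ∧ P x ∈ range (cc i)) →
      ∀ x, ‖(P x : E (m + 1)) - x‖ ≤ η / 3 ∧
        ‖(P x : E (m + 1)) - v‖ ≤ κ * ‖(x : E (m + 1)) - v‖ ∧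
        (2 * ‖v‖ < ‖(x : E (m + 1))‖ → P x = x) := by
    intro P hP x
    rcases hP x with h | ⟨i, h1, h2⟩
    · rw [h, sub_self, norm_zero]
      refine ⟨by positivity, ?_, fun _ => rfl⟩
      have := norm_nonneg ((x : E (m + 1)) - v)
      nlinarith
    · obtain ⟨h3, h4, h5⟩ := c8 i x h1 _ h2
      refine ⟨h3, h4.trans (mul_le_mul_of_nonneg_right hκ0 (norm_nonneg _)), fun h => ?_⟩
      exact absurd h (not_lt.2 h5)
  obtain ⟨Pi1, hPi⟩ : ∃ Pi1 : U → U, Pi1 = fun u => P1 (P2 (P3 u)) := ⟨_, rfl⟩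
  have hPb : Bijective Pi1 := by
    rw [hPi]
    exact a1.bijective.comp (a2.bijective.comp a3.bijective)
  have hPc : Continuous Pi1 := by
    rw [hPi]
    exact a1.continuous.comp (a2.continuous.comp a3.continuous)
  have w1 : ∀ u : U, ‖(Pi1 u : E (m + 1)) - u‖ ≤ η := fun u => by
    rw [hPi]
    have e1 := (mv q3 u).1
    have e2 := (mv q2 (P3 u)).1
    have e3 := (mv q1 (P2 (P3 u))).1
    have e4 := norm_add₃_le (a := (P1 (P2 (P3 u)) : E (m + 1)) - P2 (P3 u))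
      (b := (P2 (P3 u) : E (m + 1)) - P3 u) (c := (P3 u : E (m + 1)) - u)
    rw [sub_add_sub_cancel, sub_add_sub_cancel] at e4
    show ‖(P1 (P2 (P3 u)) : E (m + 1)) - u‖ ≤ η
    linarith
  have w2 : ∀ u : U, ‖(Pi1 u : E (m + 1)) - v‖ ≤ κ ^ 3 * ‖(u : E (m + 1)) - v‖ := fun u => by
    rw [hPi]
    have e1 := (mv q3 u).2.1
    have e2 := (mv q2 (P3 u)).2.1
    have e3 := (mv q1 (P2 (P3 u))).2.1
    show ‖(P1 (P2 (P3 u)) : E (m + 1)) - v‖ ≤ _
    have hκ : 0 ≤ κ := by linarith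
    calc ‖(P1 (P2 (P3 u)) : E (m + 1)) - v‖ ≤ κ * ‖(P2 (P3 u) : E (m + 1)) - v‖ := e3
      _ ≤ κ * (κ * ‖(P3 u : E (m + 1)) - v‖) := mul_le_mul_of_nonneg_left e2 hκ
      _ ≤ κ * (κ * (κ * ‖(u : E (m + 1)) - v‖)) :=
          mul_le_mul_of_nonneg_left (mul_le_mul_of_nonneg_left e1 hκ) hκ
      _ = κ ^ 3 * ‖(u : E (m + 1)) - v‖ := by ring
  have w3 : ∀ u : U, 2 * ‖v‖ < ‖(u : E (m + 1))‖ → Pi1 u = u := fun u hu => by
    rw [hPi]
    show P1 (P2 (P3 u)) = u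
    rw [(mv q3 u).2.2 hu, (mv q2 u).2.2 hu, (mv q1 u).2.2 hu]
  obtain ⟨Q, hQ⟩ : ∃ Q : E (m + 1) → E (m + 1), Q = fun z => if h : z ∈ U then
    ((Pi1 ⟨z, h⟩ : U) : E (m + 1)) else z := ⟨_, rfl⟩
  have Q1 : ∀ u : U, Q u = Pi1 u := fun u => by
    rw [hQ]
    show (if h : (u : E (m + 1)) ∈ U then ((Pi1 ⟨u, h⟩ : U) : E (m + 1)) else (u : E (m + 1))) = Pi1 u
    rw [dif_pos u.2]
  have Q2 : Q v = v := by
    rw [hQ]
    exact dif_neg fun h => (hU v).1 h rfl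
  have hv' : ∀ z, z ∉ U → z = v := fun z hz => by
    by_contra h
    exact hz ((hU z).2 h)
  have Q3 : ∀ z, ‖Q z - v‖ ≤ κ ^ 3 * ‖z - v‖ := fun z => by
    by_cases hz : z ∈ U
    · have := w2 ⟨z, hz⟩
      rw [← Q1] at this
      exact this
    · rw [hv' z hz, Q2, sub_self, norm_zero, mul_zero]
  refine ⟨Q, ⟨fun a b hab => ?_, fun y => ?_⟩, ?_, fun z hz => ?_, fun z => ?_, fun z hz => ?_⟩
  · by_cases ha : a ∈ U
    · by_cases hb : b ∈ U
      · have h1 := Q1 ⟨a, ha⟩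
        have h2 := Q1 ⟨b, hb⟩
        have h3 : Pi1 ⟨a, ha⟩ = Pi1 ⟨b, hb⟩ := Subtype.ext (h1.symm.trans (hab.trans h2))
        exact congrArg Subtype.val (hPb.1 h3)
      · exfalso
        have h1 := Q1 ⟨a, ha⟩
        rw [hv' b hb, Q2] at hab
        exact (hU _).1 (Pi1 ⟨a, ha⟩).2 (h1.symm.trans hab)
    · by_cases hb : b ∈ U
      · exfalso
        have h1 := Q1 ⟨b, hb⟩
        rw [hv' a ha, Q2] at hab
        exact (hU _).1 (Pi1 ⟨b, hb⟩).2 (h1.symm.trans hab.symm)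
      · rw [hv' a ha, hv' b hb]
  · by_cases hy : y ∈ U
    · obtain ⟨u, hu⟩ := hPb.2 ⟨y, hy⟩
      exact ⟨u, by rw [Q1, hu]⟩
    · exact ⟨v, by rw [Q2, hv' y hy]⟩
  · rw [continuous_iff_continuousAt]
    intro z
    by_cases hz : z ∈ U
    · have h1 : ContinuousOn Q U := by
        rw [continuousOn_iff_continuous_domRestrict]
        have h2 : (U : Set (E (m + 1))).domRestrict Q = fun u : U => ((Pi1 u : U) : E (m + 1)) := by
          funext u
          exact Q1 u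
        rw [h2]
        exact continuous_subtype_val.comp hPc
      exact h1.continuousAt (U.2.mem_nhds hz)
    · rw [hv' z hz]
      show Tendsto Q (𝓝 v) (𝓝 (Q v))
      rw [Q2, tendsto_iff_norm_sub_tendsto_zero]
      have h2 : Tendsto (fun y => κ ^ 3 * ‖y - v‖) (𝓝 v) (𝓝 0) := by
        have h3 : Continuous fun y : E (m + 1) => κ ^ 3 * ‖y - v‖ := by fun_prop
        have h4 := h3.tendsto v
        simpa using h4
      exact squeeze_zero (fun y => norm_nonneg _) Q3 h2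
  · by_cases hzU : z ∈ U
    · rw [show Q z = Pi1 ⟨z, hzU⟩ from Q1 ⟨z, hzU⟩, w3 ⟨z, hzU⟩ hz]
    · rw [hv' z hzU, Q2]
  · by_cases hzU : z ∈ U
    · rw [show Q z = Pi1 ⟨z, hzU⟩ from Q1 ⟨z, hzU⟩]
      exact w1 ⟨z, hzU⟩
    · rw [hv' z hzU, Q2, sub_self, norm_zero]
      exact hη.le
  · have h1 : LD (m + 1) (fun u : U => F (Q u)) ⟨z, (hU z).2 hz⟩ := by
      refine (a4 _).congr (Eventually.of_forall fun u => ?_)
      show F (Q u) = F (P1 (P2 (P3 u)))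
      rw [Q1, hPi]
    exact LD_of_comp_right (p := (Subtype.val : U → E (m + 1))) (h := fun z => F (Q z))
      (LD_val U ⟨z, (hU z).2 hz⟩) h1

/-- **Moving a singular point in a cell.** -/
theorem move_sing (hm : 2 ≤ m) {X Y : Type} [TopologicalSpace X] [T2Space X]
    [ChartedSpace (E (m + 1)) X] [TopologicalSpace Y] [ChartedSpace (E (m + 1)) Y]
    [IsManifold (𝓡 (m + 1)) ∞ Y] {f : X → Y} (hf : IsHomeomorph f) {c : E (m + 1) → X}
    (hci : Injective c) (hcd : ∀ z, LD (m + 1) c z) (hreg : ∀ z, z ≠ 0 → LD (m + 1) f (c z))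
    {v : E (m + 1)} (hv : v ≠ 0) {O : Set (X × Y)} (hO : IsOpen O) (hfO : ∀ x, (x, f x) ∈ O) :
    ∃ g : X → Y, IsHomeomorph g ∧ (∀ z, z ≠ v → LD (m + 1) g (c z)) ∧
      (∀ x, x ∉ range c → g =ᶠ[𝓝 x] f) ∧ ∀ x, (x, g x) ∈ O := by
  have hcc : Continuous c := continuous_iff_continuousAt.2 fun z => (hcd z).continuousAt
  have hfc : Continuous f := hf.continuous
  obtain ⟨Ω, hΩ⟩ : ∃ Ω : Set (E (m + 1) × E (m + 1)),
    Ω = (fun q : E (m + 1) × E (m + 1) => (c q.1, f (c q.2))) ⁻¹' O := ⟨_, rfl⟩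
  have hΩo : IsOpen Ω := by
    rw [hΩ]
    exact hO.preimage (by fun_prop)
  obtain ⟨ε, ε0, ε1, ε2⟩ := exists_gauge hΩo (fun x => by rw [hΩ]; exact hfO (c x))
  have hεc : Continuous ε := (LipschitzWith.of_le_add ε1).continuous
  obtain ⟨z0, -, hz0⟩ := (isCompact_closedBall (0 : E (m + 1)) (2 * ‖v‖)).exists_isMinOn
    ⟨0, mem_closedBall_self (by positivity)⟩ hεc.continuousOn
  obtain ⟨Q, b1, b2, b3, b4, b5⟩ := cell_swindle hm (F := fun z => f (c z)) (hfc.comp hcc)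
    (hf.injective.comp hci) (fun z hz => LD.comp_fun (g := f) (hreg z hz) (hcd z)) hv
    (show 0 < ε z0 / 2 by have := ε0 z0; positivity)
  have hQh : IsHomeomorph Q := ⟨b2, isOpenMap_of_injective (m + 1) Q b2 b1.1, b1⟩
  obtain ⟨Qh, hQh'⟩ : ∃ Qh : E (m + 1) ≃ₜ E (m + 1), ∀ z, Qh z = Q z :=
    ⟨hQh.homeomorph Q, fun _ => rfl⟩
  have hcl : IsClosed (⋃ _i : Unit, c '' closedBall 0 (2 * ‖v‖ + 1)) := by
    refine isClosed_iUnion_of_finite fun _ => ?_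
    exact ((isCompact_closedBall _ _).image hcc).isClosed
  obtain ⟨Φ, k1, k2, k3, k4⟩ := exists_prod (ι := Unit) (e := fun _ => c) (fun _ => hci)
    (fun _ => hcd) (fun i j h => absurd (Subsingleton.elim i j) h) (R := 2 * ‖v‖ + 1) hcl
    (k := Qh) (k' := Qh.symm) (fun z => Qh.symm_apply_apply z) (fun z => Qh.apply_symm_apply z)
    Qh.continuous Qh.symm.continuous (fun z hz => by rw [hQh', b3 z (by linarith)])
  refine ⟨fun x => f (Φ x), hf.comp k1, fun z hz => ?_, fun x hx => ?_, fun x => ?_⟩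
  · refine LD_of_comp_right (p := c) (h := fun x => f (Φ x)) (hcd z) ?_
    refine (b5 z hz).congr (Eventually.of_forall fun w => ?_)
    show f (Φ (c w)) = f (c (Q w))
    rw [show Φ (c w) = c (Qh w) from k2 () w, hQh']
  · filter_upwards [k3 x fun h => hx (by
      obtain ⟨-, z, -, hz⟩ := mem_iUnion.1 h
      exact ⟨z, hz⟩)] with y hy
    show f (Φ y) = f y
    rw [hy]
    rfl
  · show (x, f (Φ x)) ∈ O
    rcases k4 x with h | ⟨-, ⟨z, rfl⟩, -⟩
    · rw [h]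
      exact hfO x
    · rw [show Φ (c z) = c (Qh z) from k2 () z, hQh']
      by_cases hz : 2 * ‖v‖ < ‖z‖
      · rw [b3 z hz]
        exact hfO _
      · have h1 : ε z0 ≤ ε z := hz0 (mem_closedBall_zero_iff.2 (not_lt.1 hz))
        have h2 : dist z (Q z) < ε z := by
          rw [dist_comm, dist_eq_norm]
          have h3 := b4 z
          have h4 := ε0 z0
          linarith
        have h3 := ε2 z (Q z) h2
        rw [hΩ] at h3
        exact h3

end Pool.Agent.H816.Sw
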