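import Pool.Agent.H816.Ph28

/-!
# Pushing locally finite sets of singular points to infinity
-/

set_option autoImplicit false
set_option linter.unusedSectionVars false

open Set Filter Topology Metric Function
open scoped Manifold ContDiff

noncomputable section

namespace Pool.Agent.H816.Sw

open Pool.Agent.Y522 Pool.Agent.H816 Pool.Agent.H816.Ph
open Pool.Agent.Q130.CM Pool.Agent.Y170.NA

/-- no component of the complement is contained in a compact set -/
def Good {X : Type} [TopologicalSpace X] (F : Set X) : Prop :=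
  ∀ x, x ∉ F → ∀ K, IsCompact K → ∃ U, IsOpen U ∧ IsPreconnected U ∧ x ∈ U ∧ Disjoint U F ∧
    ¬ U ⊆ K

theorem exists_fill {X : Type} [TopologicalSpace X] [T2Space X] [LocallyCompactSpace X]
    [LocallyConnectedSpace X] [ConnectedSpace X] [NoncompactSpace X] {K0 : Set X}
    (hK0 : IsCompact K0) : ∃ F, IsCompact F ∧ K0 ⊆ F ∧ Good F := by
  classical
  rcases K0.eq_empty_or_nonempty with h0 | h0
  · refine ⟨∅, isCompact_empty, by rw [h0], fun x _ K hK => ⟨univ, isOpen_univ,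
      isPreconnected_univ, mem_univ x, disjoint_empty _, fun h => ?_⟩⟩
    exact noncompact_univ X (by rwa [univ_subset_iff.1 h] at hK)
  obtain ⟨K1, hK1, hK01⟩ := exists_compact_superset hK0
  obtain ⟨C, hC⟩ : ∃ C : X → Set X, C = connectedComponentIn K0ᶜ := ⟨_, rfl⟩
  have hop : IsOpen (K0ᶜ) := hK0.isClosed.isOpen_compl
  have C1 : ∀ x, IsOpen (C x) := fun x => by rw [hC]; exact hop.connectedComponentIn
  have C2 : ∀ x, IsPreconnected (C x) := fun x => by rw [hC]; exact isPreconnected_connectedComponentIn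
  have C3 : ∀ x, C x ⊆ K0ᶜ := fun x => by rw [hC]; exact connectedComponentIn_subset _ _
  have C4 : ∀ x, x ∉ K0 → x ∈ C x := fun x hx => by rw [hC]; exact mem_connectedComponentIn hx
  have C5 : ∀ x y, y ∈ C x → C x = C y := fun x y hy => by
    rw [hC] at hy ⊢
    exact connectedComponentIn_eq hy
  -- components which do not meet the frontier
  have A : ∀ x, x ∉ K0 → (C x ∩ frontier K1).Nonempty ∨ C x ⊆ K1 := by
    intro x hx
    by_contra hcon
    rw [not_or] at hcon
    obtain ⟨h1, h2⟩ := hcon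
    have h3 : C x ⊆ interior K1 ∪ K1ᶜ := by
      intro y hy
      by_cases hyK : y ∈ K1
      · left
        by_contra h
        exact h1 ⟨y, hy, by
          rw [hK1.isClosed.frontier_eq]
          exact ⟨hyK, h⟩⟩
      · exact Or.inr hyK
    rcases (C2 x).subset_or_subset isOpen_interior hK1.isClosed.isOpen_compl
      (disjoint_compl_right.mono_left interior_subset) h3 with h4 | h4
    · exact h2 (h4.trans interior_subset)
    · have h5 : closure (C x) ⊆ K0ᶜ := by
        have h6 : closure (C x) ⊆ (interior K1)ᶜ :=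
          closure_minimal (h4.trans (compl_subset_compl.2 interior_subset))
            isOpen_interior.isClosed_compl
        exact h6.trans (compl_subset_compl.2 hK01)
      have h6 : closure (C x) ⊆ C x := by
        have h7 := (C2 x).closure.subset_connectedComponentIn (subset_closure (C4 x hx)) h5
        rwa [← hC] at h7
      have h7 : IsClosed (C x) := closure_subset_iff_isClosed.1 h6
      have h8 : C x = univ := IsClopen.eq_univ ⟨h7, C1 x⟩ ⟨x, C4 x hx⟩
      obtain ⟨y, hy⟩ := h0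
      exact C3 x (by rw [h8]; exact mem_univ y) hy
  have hfr : ∀ y ∈ frontier K1, y ∉ K0 := fun y hy h => by
    rw [hK1.isClosed.frontier_eq] at hy
    exact hy.2 (hK01 h)
  have hB : IsCompact (frontier K1) := hK1.of_isClosed_subset isClosed_frontier (by
    rw [hK1.isClosed.frontier_eq]
    exact sdiff_subset)
  obtain ⟨T, hT, hTcov⟩ := hB.elim_nhds_subcover C fun y hy => (C1 y).mem_nhds (C4 y (hfr y hy))
  -- the filling
  obtain ⟨F, hF⟩ : ∃ F : Set X, F = K0 ∪ {x | x ∉ K0 ∧ ∃ K, IsCompact K ∧ C x ⊆ K} := ⟨_, rfl⟩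
  have hFm : ∀ x, x ∉ F ↔ x ∉ K0 ∧ ¬ ∃ K, IsCompact K ∧ C x ⊆ K := fun x => by
    rw [hF]
    constructor
    · intro h
      exact ⟨fun h' => h (Or.inl h'), fun h' => h (Or.inr ⟨fun h'' => h (Or.inl h''), h'⟩)⟩
    · rintro ⟨h1, h2⟩ (h | h)
      · exact h1 h
      · exact h2 h.2
  have hsub : ∀ x, x ∉ F → C x ⊆ Fᶜ := by
    intro x hx y hy
    rw [mem_compl_iff, hFm]
    refine ⟨C3 x hy, ?_⟩
    rw [← C5 x y hy]
    exact ((hFm x).1 hx).2
  have hFc : IsClosed F := by
    rw [← isOpen_compl_iff, isOpen_iff_mem_nhds]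
    intro x hx
    exact mem_of_superset ((C1 x).mem_nhds (C4 x ((hFm x).1 hx).1)) (hsub x hx)
  have hFK : IsCompact F := by
    choose! KK hKK1 hKK2 using fun (x : X) (h : ∃ K, IsCompact K ∧ C x ⊆ K) => h
    obtain ⟨T', hT'⟩ : ∃ T' : Finset X, T' = T.filter fun x => ∃ K, IsCompact K ∧ C x ⊆ K :=
      ⟨_, rfl⟩
    have hcomp : IsCompact (K1 ∪ ⋃ b ∈ T', KK b) := by
      refine hK1.union (T'.finite_toSet.isCompact_biUnion fun b hb => hKK1 b ?_)
      rw [hT', Finset.mem_coe, Finset.mem_filter] at hb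
      exact hb.2
    refine hcomp.of_isClosed_subset hFc ?_
    intro x hx
    rw [hF] at hx
    rcases hx with hx | ⟨hx0, hx⟩
    · exact Or.inl (interior_subset (hK01 hx))
    · rcases A x hx0 with ⟨y, hy1, hy2⟩ | h
      · right
        obtain ⟨b, hb, hyb⟩ := mem_iUnion₂.1 (hTcov hy2)
        have e : C x = C b := (C5 x y hy1).trans (C5 b y hyb).symm
        rw [e] at hx
        refine mem_iUnion₂.2 ⟨b, ?_, hKK2 b hx (by rw [← e]; exact C4 x hx0)⟩
        rw [hT', Finset.mem_filter]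
        exact ⟨hb, hx⟩
      · exact Or.inl (h (C4 x hx0))
  refine ⟨F, hFK, by rw [hF]; exact subset_union_left, fun x hx K hK => ?_⟩
  obtain ⟨h1, h2⟩ := (hFm x).1 hx
  exact ⟨C x, C1 x, C2 x, C4 x h1, Set.disjoint_left.2 fun y hy hyF => hsub x hx hy hyF,
    fun h => h2 ⟨K, hK, h⟩⟩

theorem exists_filled (X : Type) [TopologicalSpace X] [T2Space X] [LocallyCompactSpace X]
    [SigmaCompactSpace X] [LocallyConnectedSpace X] [ConnectedSpace X] [NoncompactSpace X] :
    ∃ L : ℕ → Set X, Exh L ∧ ∀ k, Good (L k) := by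
  obtain ⟨L0, H0⟩ := exists_exh X
  obtain ⟨L, -, hL0, hL⟩ := dep_choice (α := Set X) (β := Unit)
    (fun _ A => IsCompact A ∧ Good A) (fun k A _ A' => A ∪ L0 k ⊆ interior A') (a0 := ∅)
    ⟨isCompact_empty, by
      obtain ⟨F, h1, -, h3⟩ := exists_fill (X := X) isCompact_empty
      intro x _ K hK
      exact ⟨univ, isOpen_univ, isPreconnected_univ, mem_univ x, disjoint_empty _, fun h =>
        noncompact_univ X (by rwa [univ_subset_iff.1 h] at hK)⟩⟩
    (fun k A hA => by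
      obtain ⟨K, hK, hAK⟩ := exists_compact_superset (hA.1.union (H0.c k))
      obtain ⟨F, h1, h2, h3⟩ := exists_fill hK
      exact ⟨(), F, hAK.trans (interior_mono h2), h1, h3⟩)
  refine ⟨L, ⟨hL0, fun k => (hL k).1.1, fun k => subset_union_left.trans (hL k).2, fun x => ?_⟩,
    fun k => (hL k).1.2⟩
  obtain ⟨k, hk⟩ := H0.u x
  exact ⟨k + 1, interior_subset ((hL k).2 (Or.inr hk))⟩

theorem LF.countable {X : Type} [TopologicalSpace X] {P : Set X} (h : LF P) {L : ℕ → Set X}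
    (H : Exh L) : P.Countable := by
  have h1 : P ⊆ ⋃ k, L k ∩ P := fun x hx => by
    obtain ⟨k, hk⟩ := H.u x
    exact mem_iUnion.2 ⟨k, hk, hx⟩
  exact (countable_iUnion fun k => (h.finite_inter (H.c k)).countable).mono h1

/-- cells without countable sets are connected -/
theorem cell_compl' {n : ℕ} (hn : 2 ≤ n) {X : Type} [TopologicalSpace X] {c : E n → X}
    (hc : Continuous c) (hci : Injective c) {P : Set X} (hP : P.Countable) :
    IsPreconnected (range c \ P) := by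
  have h1 : range c \ P = c '' (c ⁻¹' P)ᶜ := by
    ext x
    constructor
    · rintro ⟨⟨z, rfl⟩, hx⟩
      exact ⟨z, hx, rfl⟩
    · rintro ⟨z, hz, rfl⟩
      exact ⟨⟨z, rfl⟩, hz⟩
  rw [h1]
  have h2 : (c ⁻¹' P).Countable := hP.preimage_of_injOn hci.injOn
  have h3 : 1 < Module.rank ℝ (E n) := by
    rw [← Module.finrank_eq_rank, finrank_euclideanSpace_fin]
    exact_mod_cast hn
  exact (h2.isConnected_compl_of_one_lt_rank h3).isPreconnected.image _ hc.continuousOn

/-- connected open sets without countable sets are connected -/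
theorem conn_compl' {n : ℕ} (hn : 2 ≤ n) {X : Type} [TopologicalSpace X] [T2Space X]
    [ChartedSpace (E n) X] [IsManifold (𝓡 n) ∞ X] {U P : Set X} (hU : IsOpen U)
    (hUc : IsPreconnected U) (hP : P.Countable) : IsPreconnected (U \ P) := by
  refine isPreconnected_of_forall_pair fun x hx y hy => ?_
  obtain ⟨U', hU'⟩ : ∃ U' : TopologicalSpace.Opens X, (U' : Set X) = U := ⟨⟨U, hU⟩, rfl⟩
  have hm : ∀ z, z ∈ U' ↔ z ∈ U := fun z => by rw [← SetLike.mem_coe, hU']
  have : ConnectedSpace U' := by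
    refine isConnected_iff_connectedSpace.1 ⟨⟨x, (hm x).2 hx.1⟩, ?_⟩
    show IsPreconnected (U' : Set X)
    rw [hU']
    exact hUc
  obtain ⟨c, c1, c2, c3⟩ := Ph.cell_of_finite (n := n) (X := U')
    (P := {⟨x, (hm x).2 hx.1⟩, ⟨y, (hm y).2 hy.1⟩}) (Set.toFinite _)
  have hc : Continuous c := continuous_iff_continuousAt.2 fun z => (c2 z).continuousAt
  obtain ⟨a, ha⟩ := c3 (Or.inl rfl)
  obtain ⟨b, hb⟩ := c3 (Or.inr rfl)
  refine ⟨range (fun z => ((c z : U') : X)) \ P, ?_, ⟨⟨a, by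
    show ((c a : U') : X) = x
    rw [ha]⟩, hx.2⟩, ⟨⟨b, by
    show ((c b : U') : X) = y
    rw [hb]⟩, hy.2⟩, cell_compl' hn (continuous_subtype_val.comp hc)
      (Subtype.val_injective.comp c1) hP⟩
  rintro _ ⟨⟨z, rfl⟩, hz⟩
  exact ⟨(hm _).1 (c z).2, hz⟩

variable {m : ℕ} {X Y : Type} [TopologicalSpace X] [T2Space X]
  [ChartedSpace (E (m + 1)) X] [IsManifold (𝓡 (m + 1)) ∞ X] [TopologicalSpace Y]
  [ChartedSpace (E (m + 1)) Y] [IsManifold (𝓡 (m + 1)) ∞ Y]

/-- pushing one singular point out of a compact set -/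
theorem push_one (hm : 2 ≤ m) {f : X → Y} (hf : IsHomeomorph f) {P : Set X} (hP : LF P)
    (hPc : P.Countable) (hfP : ∀ x, x ∉ P → LD (m + 1) f x) {F K : Set X} (hF : Good F)
    (hK : IsCompact K) (hPF : Disjoint P F) {p : X} (hp : p ∈ P)
    {O : Set (X × Y)} (hO : IsOpen O) (hfO : ∀ x, (x, f x) ∈ O) :
    ∃ (t : X) (g : X → Y), t ∉ K ∧ t ∉ F ∧ IsHomeomorph g ∧
      (∀ x, x ∉ insert t (P \ {p}) → LD (m + 1) g x) ∧ (∀ x ∈ F, g x = f x) ∧
      ∀ x, (x, g x) ∈ O := by
  obtain ⟨U, U1, U2, U3, U4, U5⟩ := hF p (Set.disjoint_left.1 hPF hp) K hK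
  -- the target
  obtain ⟨t, ht1, ht2, ht3⟩ : ∃ t, t ∈ U ∧ t ∉ K ∧ t ∉ P := by
    obtain ⟨t0, h1, h2⟩ := not_subset.1 U5
    obtain ⟨c, c0, c1, c2, c3⟩ := cell_exists (n := m + 1) ((U1.sdiff hK.isClosed).mem_nhds
      (show t0 ∈ U \ K from ⟨h1, h2⟩))
    have h3 : (c ⁻¹' P).Countable := hPc.preimage_of_injOn c1.injOn
    obtain ⟨z, hz⟩ := (h3.dense_compl ℝ).nonempty
    exact ⟨c z, (c3 z).1, (c3 z).2, hz⟩
  have hop : IsOpen (U \ (P \ {p})) := U1.sdiff (hP.mono sdiff_subset).isClosed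
  obtain ⟨U', hU'⟩ : ∃ U' : TopologicalSpace.Opens X, (U' : Set X) = U \ (P \ {p}) :=
    ⟨⟨_, hop⟩, rfl⟩
  have hm' : ∀ z, z ∈ U' ↔ z ∈ U \ (P \ {p}) := fun z => by rw [← SetLike.mem_coe, hU']
  have hpU : p ∈ U' := (hm' p).2 ⟨U3, fun h => h.2 rfl⟩
  have htU : t ∈ U' := (hm' t).2 ⟨ht1, fun h => ht3 h.1⟩
  have : ConnectedSpace U' := by
    refine isConnected_iff_connectedSpace.1 ⟨⟨p, hpU⟩, ?_⟩
    show IsPreconnected (U' : Set X)
    rw [hU']
    exact conn_compl' (n := m + 1) (by omega) U1 U2 (hPc.mono sdiff_subset)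
  obtain ⟨c, c1, c2, c3⟩ := Ph.cell_of_finite (n := m + 1) (X := U') (P := {⟨p, hpU⟩, ⟨t, htU⟩})
    (Set.toFinite _)
  obtain ⟨a, ha⟩ := c3 (Or.inl rfl)
  obtain ⟨b, hb⟩ := c3 (Or.inr rfl)
  obtain ⟨c', hc'⟩ : ∃ c' : E (m + 1) → X, c' = fun z => ((c (z + a) : U') : X) := ⟨_, rfl⟩
  have hc'i : Injective c' := fun x y hxy => by
    rw [hc'] at hxy
    exact add_right_cancel (c1 (Subtype.ext hxy))
  have hc'd : ∀ z, LD (m + 1) c' z := fun z => by
    rw [hc']
    exact LD.comp_fun (g := (Subtype.val : U' → X)) (LD_val U' _)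
      (LD.comp_fun (g := c) (f := fun z => z + a) (c2 _) (LD_add_const a z))
  have hc'U : ∀ z, c' z ∈ U \ (P \ {p}) := fun z => by
    rw [hc']
    exact (hm' _).1 (c (z + a)).2
  have hc0 : c' 0 = p := by
    rw [hc']
    show ((c (0 + a) : U') : X) = p
    rw [zero_add, ha]
  have hcv : c' (b - a) = t := by
    rw [hc']
    show ((c (b - a + a) : U') : X) = t
    rw [sub_add_cancel, hb]
  have hpt : p ≠ t := fun h => ht3 (h ▸ hp)
  have hv : b - a ≠ 0 := fun h => hpt (by rw [← hc0, ← hcv, h])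
  obtain ⟨g, g1, g2, g3, g4⟩ := move_sing hm hf hc'i hc'd (fun z hz => by
    apply hfP
    intro h
    refine (hc'U z).2 ⟨h, fun h' => hz (hc'i ?_)⟩
    rw [mem_singleton_iff.1 h', hc0]) hv hO hfO
  refine ⟨t, g, ht2, fun h => Set.disjoint_left.1 U4 ht1 h, g1, fun x hx => ?_, fun x hx => ?_, g4⟩
  · by_cases hxr : x ∈ range c'
    · obtain ⟨z, rfl⟩ := hxr
      exact g2 z fun h => hx (Or.inl (by rw [h, hcv]))
    · refine (hfP x fun h => hx (Or.inr ⟨h, fun h' => hxr ⟨0, ?_⟩⟩)).congr (g3 x hxr)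
      rw [hc0, mem_singleton_iff.1 h']
  · refine (g3 x fun h => ?_).self_of_nhds
    obtain ⟨z, rfl⟩ := h
    exact Set.disjoint_left.1 U4 (hc'U z).1 hx

theorem LF.insert' {X : Type} [TopologicalSpace X] [T2Space X] {P : Set X} (h : LF P) (t : X) :
    LF (insert t P) := by
  have h1 : LF ({t} : Set X) := fun x => ⟨univ, univ_mem, (finite_singleton t).subset
    inter_subset_right⟩
  exact h1.union h

/-- pushing all singular points out of a compact set -/
theorem push_all (hm : 2 ≤ m) {F K : Set X} (hF : Good F) (hK : IsCompact K)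
    {O : Set (X × Y)} (hO : IsOpen O) (N : ℕ) : ∀ (f : X → Y) (P : Set X), IsHomeomorph f → LF P →
    P.Countable → (∀ x, x ∉ P → LD (m + 1) f x) → Disjoint P F → (∀ x, (x, f x) ∈ O) →
    (K ∩ P).ncard ≤ N →
    ∃ (P' : Set X) (g : X → Y), IsHomeomorph g ∧ LF P' ∧ P'.Countable ∧
      (∀ x, x ∉ P' → LD (m + 1) g x) ∧ Disjoint P' F ∧ Disjoint P' K ∧ (∀ x ∈ F, g x = f x) ∧
      ∀ x, (x, g x) ∈ O := by
  induction N with
  | zero =>
    intro f P hf hP hPc hfP hPF hfO hN
    have h1 : K ∩ P = ∅ := (Set.ncard_eq_zero (hP.finite_inter hK)).1 (Nat.le_zero.1 hN)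
    refine ⟨P, f, hf, hP, hPc, hfP, hPF, Set.disjoint_left.2 fun x hx hxK => ?_, fun _ _ => rfl,
      hfO⟩
    have : x ∈ K ∩ P := ⟨hxK, hx⟩
    rw [h1] at this
    exact this
  | succ N ih =>
    intro f P hf hP hPc hfP hPF hfO hN
    rcases (K ∩ P).eq_empty_or_nonempty with h0 | ⟨p, hpK, hp⟩
    · exact ih f P hf hP hPc hfP hPF hfO (by rw [h0, Set.ncard_empty]; exact Nat.zero_le _)
    · obtain ⟨t, g, t1, t2, g1, g2, g3, g4⟩ := push_one hm hf hP hPc hfP hF hK hPF hp hO hfO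
      have h1 : K ∩ insert t (P \ {p}) ⊆ (K ∩ P) \ {p} := by
        rintro x ⟨hxK, hx | hx⟩
        · rw [hx] at hxK
          exact absurd hxK t1
        · exact ⟨⟨hxK, hx.1⟩, hx.2⟩
      have hfin := hP.finite_inter hK
      have h2 : (K ∩ insert t (P \ {p})).ncard ≤ N := by
        have h3 := Set.ncard_le_ncard h1 (hfin.subset sdiff_subset)
        have h4 := Set.ncard_sdiff_singleton_lt_of_mem (show p ∈ K ∩ P from ⟨hpK, hp⟩) hfin
        omega
      obtain ⟨P', g', a1, a2, a3, a4, a5, a6, a7, a8⟩ := ih g (insert t (P \ {p})) g1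
        ((hP.mono sdiff_subset).insert' t) ((hPc.mono sdiff_subset).insert t) g2 (by
          rw [Set.disjoint_left]
          rintro x (hx | hx) hxF
          · exact t2 (hx ▸ hxF)
          · exact Set.disjoint_left.1 hPF hx.1 hxF) g4 h2
      exact ⟨P', g', a1, a2, a3, a4, a5, a6, fun x hx => by rw [a7 x hx, g3 x hx], a8⟩

end Pool.Agent.H816.Sw
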