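import Pool.Agent.H816.Gauge

/-!
# The gauge `r / log (1/r)`
-/

set_option autoImplicit false

open Set Filter Topology Metric Function
open scoped ContDiff

noncomputable section

namespace Pool.Agent.H816.Sob

/-- `1 / log (1/r)` -/
def ul (r : ℝ) : ℝ := (-Real.log r)⁻¹

/-- `r / log (1/r)` -/
def lg (r : ℝ) : ℝ := r * ul r

theorem log_third {r : ℝ} (h0 : 0 < r) (h : r < 1 / 3) : 1 < -Real.log r := by
  have h1 : Real.log r < Real.log (1 / 3) := Real.log_lt_log h0 h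
  have h2 : Real.log (1 / 3) = -Real.log 3 := by rw [one_div, Real.log_inv]
  have h3 : 1 < Real.log 3 := by
    rw [Real.lt_log_iff_exp_lt (by norm_num)]
    exact Real.exp_one_lt_d9.trans (by norm_num)
  linarith

theorem ul_pos {r : ℝ} (h0 : 0 < r) (h : r < 1 / 3) : 0 < ul r :=
  inv_pos.2 (by linarith [log_third h0 h])

theorem ul_lt {r : ℝ} (h0 : 0 < r) (h : r < 1 / 3) : ul r < 1 :=
  inv_lt_one_of_one_lt₀ (log_third h0 h)

theorem ul_deriv {r : ℝ} (h0 : 0 < r) (h : r < 1 / 3) : HasDerivAt ul (ul r ^ 2 / r) r := by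
  have h1 := log_third h0 h
  have h2 : HasDerivAt (fun r => -Real.log r) (-r⁻¹) r := (Real.hasDerivAt_log h0.ne').fun_neg
  have h3 := h2.fun_inv (by linarith : -Real.log r ≠ 0)
  refine h3.congr_deriv ?_
  unfold ul
  rw [inv_pow, neg_neg]
  field_simp

theorem pol_deriv (P : Polynomial ℝ) (k : ℕ) {r : ℝ} (h0 : 0 < r) (h : r < 1 / 3) :
    HasDerivAt (fun r => P.eval (ul r) / r ^ k)
      ((Polynomial.X ^ 2 * Polynomial.derivative P - Polynomial.C (k : ℝ) * P).eval (ul r) /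
        r ^ (k + 1)) r := by
  have h1 : HasDerivAt (fun r => P.eval (ul r)) ((Polynomial.derivative P).eval (ul r) *
      (ul r ^ 2 / r)) r := (P.hasDerivAt (ul r)).comp r (ul_deriv h0 h)
  have h2 : HasDerivAt (fun r : ℝ => r ^ k) ((k : ℝ) * r ^ (k - 1)) r := hasDerivAt_pow k r
  refine (h1.fun_div h2 (pow_ne_zero k h0.ne')).congr_deriv ?_
  rw [Polynomial.eval_sub, Polynomial.eval_mul, Polynomial.eval_mul, Polynomial.eval_pow,
    Polynomial.eval_X, Polynomial.eval_C]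
  rcases Nat.eq_zero_or_pos k with hk | hk
  · subst hk
    simp
    field_simp
  · obtain ⟨j, rfl⟩ : ∃ j, k = j + 1 := ⟨k - 1, by omega⟩
    rw [Nat.add_sub_cancel]
    field_simp
    ring

theorem lg_iter (k : ℕ) : ∃ P : Polynomial ℝ, ∀ r ∈ Ioo (0 : ℝ) (1 / 3),
    iteratedDeriv (k + 1) lg r = P.eval (ul r) / r ^ k := by
  induction k with
  | zero =>
    refine ⟨Polynomial.X + Polynomial.X ^ 2, fun r hr => ?_⟩
    rw [zero_add, iteratedDeriv_one]
    have h1 : HasDerivAt lg (1 * ul r + r * (ul r ^ 2 / r)) r :=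
      (hasDerivAt_id r).fun_mul (ul_deriv hr.1 hr.2)
    rw [h1.deriv]
    have := hr.1.ne'
    simp
    field_simp
  | succ k ih =>
    obtain ⟨P, hP⟩ := ih
    refine ⟨Polynomial.X ^ 2 * Polynomial.derivative P - Polynomial.C (k : ℝ) * P,
      fun r hr => ?_⟩
    rw [iteratedDeriv_succ]
    have h1 : iteratedDeriv (k + 1) lg =ᶠ[𝓝 r] fun r => P.eval (ul r) / r ^ k := by
      filter_upwards [isOpen_Ioo.mem_nhds hr] with s hs using hP s hs
    rw [h1.deriv_eq]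
    exact (pol_deriv P k hr.1 hr.2).deriv

theorem lg_deriv {r : ℝ} (h0 : 0 < r) (h : r < 1 / 3) : HasDerivAt lg (ul r + ul r ^ 2) r := by
  have h1 : HasDerivAt lg (1 * ul r + r * (ul r ^ 2 / r)) r :=
    (hasDerivAt_id r).fun_mul (ul_deriv h0 h)
  refine h1.congr_deriv ?_
  field_simp

theorem ul_tend : Tendsto ul (𝓝[>] 0) (𝓝 0) := by
  have h1 : Tendsto (fun r => -Real.log r) (𝓝[>] 0) atTop :=
    tendsto_neg_atBot_atTop.comp Real.tendsto_log_nhdsGT_zero
  exact tendsto_inv_atTop_zero.comp h1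

theorem lg_tend : Tendsto lg (𝓝[>] 0) (𝓝 0) := by
  have h1 : Tendsto (fun r : ℝ => r) (𝓝[>] 0) (𝓝 0) := tendsto_id.mono_left nhdsWithin_le_nhds
  have := h1.mul ul_tend
  rwa [mul_zero] at this

theorem lg_div : Tendsto (fun r => lg r / r) (𝓝[>] 0) (𝓝 0) := by
  refine ul_tend.congr' ?_
  filter_upwards [self_mem_nhdsWithin] with r hr
  have hr' : (0 : ℝ) < r := hr
  unfold lg
  field_simp

theorem lg_deriv_tend : Tendsto (deriv lg) (𝓝[>] 0) (𝓝 0) := by
  have h1 : Tendsto (fun r => ul r + ul r ^ 2) (𝓝[>] 0) (𝓝 (0 + 0 ^ 2)) :=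
    ul_tend.add (ul_tend.pow 2)
  rw [zero_pow two_ne_zero, add_zero] at h1
  refine h1.congr' ?_
  filter_upwards [Ioo_mem_nhdsGT (show (0 : ℝ) < 1 / 3 by norm_num)] with r hr
  exact (lg_deriv hr.1 hr.2).deriv.symm

theorem lg_pos {r : ℝ} (h0 : 0 < r) (h : r < 1 / 3) : 0 < lg r := mul_pos h0 (ul_pos h0 h)

theorem lg_smooth {r : ℝ} (h0 : 0 < r) (h : r < 1 / 3) : ContDiffAt ℝ ∞ lg r := by
  have h1 := log_third h0 h
  exact contDiffAt_id.mul (((Real.contDiffAt_log.2 h0.ne').neg).inv (by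
    show -Real.log r ≠ 0
    linarith))

theorem lg_mono : MonotoneOn lg (Ioo 0 (1 / 3)) := by
  refine monotoneOn_of_deriv_nonneg (convex_Ioo _ _)
    (fun r hr => (lg_smooth hr.1 hr.2).continuousAt.continuousWithinAt) ?_ ?_
  · rw [interior_Ioo]
    exact fun r hr => (lg_deriv hr.1 hr.2).differentiableAt.differentiableWithinAt
  · rw [interior_Ioo]
    intro r hr
    rw [(lg_deriv hr.1 hr.2).deriv]
    have := ul_pos hr.1 hr.2
    positivity

theorem lg_bd (k : ℕ) : ∃ C : ℝ, ∀ r, 0 < r → r < 1 / 3 →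
    |iteratedDeriv (k + 1) lg r| * lg r ^ k ≤ C := by
  obtain ⟨P, hP⟩ := lg_iter k
  obtain ⟨C, hC⟩ := isCompact_Icc (a := (0 : ℝ)) (b := 1) |>.exists_bound_of_continuousOn
    (f := fun u => P.eval u) P.continuous.continuousOn
  refine ⟨C, fun r h0 h => ?_⟩
  have hu0 := ul_pos h0 h
  have hu1 := (ul_lt h0 h).le
  have h1 := hC (ul r) ⟨hu0.le, hu1⟩
  rw [Real.norm_eq_abs] at h1
  have hC0 : 0 ≤ C := (abs_nonneg _).trans h1
  rw [hP r ⟨h0, h⟩, abs_div, abs_of_pos (pow_pos h0 k)]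
  unfold lg
  rw [mul_pow]
  have h2 : |P.eval (ul r)| / r ^ k * (r ^ k * ul r ^ k) = |P.eval (ul r)| * ul r ^ k := by
    field_simp
  rw [h2]
  calc |P.eval (ul r)| * ul r ^ k ≤ C * 1 :=
        mul_le_mul h1 (pow_le_one₀ hu0.le hu1) (by positivity) hC0
    _ = C := mul_one C

theorem lg_gauge : Gauge lg (1 / 3) where
  κ_pos := by norm_num
  pos := fun r h0 h => lg_pos h0 h
  smooth := fun r h0 h => lg_smooth h0 h
  mono := lg_mono
  tend := lg_tend
  bd := fun k => by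
    obtain ⟨C, hC⟩ := lg_bd k
    refine ⟨C, fun r hr hr' => ?_⟩
    rw [norm_iteratedFDeriv_eq_norm_iteratedDeriv, Real.norm_eq_abs]
    exact hC r hr hr'

/-- comparison with powers -/
theorem inv_lg_le {a r : ℝ} (ha : 0 < a) (h0 : 0 < r) (h : r < 1 / 3) :
    (lg r)⁻¹ ≤ 1 / a * r ^ (-(1 + a)) := by
  have h1 := Real.abs_log_mul_self_rpow_lt r a h0 (by linarith) ha
  have h2 := log_third h0 h
  rw [abs_mul, abs_of_pos (Real.rpow_pos_of_pos h0 a), abs_of_neg (by linarith)] at h1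
  have h3 : (lg r)⁻¹ = -Real.log r * r⁻¹ := by
    unfold lg ul
    rw [mul_inv, inv_inv, mul_comm]
  rw [h3, Real.rpow_neg h0.le, Real.rpow_add h0, Real.rpow_one, mul_inv]
  have h4 : -Real.log r ≤ 1 / a * (r ^ a)⁻¹ := by
    rw [← div_eq_mul_inv, le_div_iff₀ (Real.rpow_pos_of_pos h0 a)]
    exact h1.le
  calc -Real.log r * r⁻¹ ≤ 1 / a * (r ^ a)⁻¹ * r⁻¹ :=
        mul_le_mul_of_nonneg_right h4 (by positivity)
    _ = _ := by ring

end Pool.Agent.H816.Sob
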