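import Pool.Agent.H816.Sing4
import Pool.Agent.H816.Sob4

/-!
# Filling a ball, the map being given outside
-/

set_option autoImplicit false

open Set Filter Topology Metric Function MeasureTheory Module
open scoped Manifold ContDiff NNReal

noncomputable section

namespace Pool.Agent.H816.Ph

open Pool.Agent.Y522 Pool.Agent.Y784.SH Pool.Agent.H816

variable {m : ℕ}

/-- `h` is an embedding of the complement of a ball, near the boundary a local diffeomorphism; the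
points which are not in the image are in a cell. -/
structure Fill {m : ℕ} {X Y : Type} [TopologicalSpace X] [ChartedSpace (E (m + 1)) X]
    [TopologicalSpace Y] [ChartedSpace (E (m + 1)) Y] (h : X → Y) (c : E (m + 1) → X)
    (d : E (m + 1) → Y) (U : Set X) : Prop where
  ci : Injective c
  cd : ∀ x, LD (m + 1) c x
  di : Injective d
  dd : ∀ x, LD (m + 1) d x
  uo : IsOpen U
  hU : ∀ x, x ∉ c '' ball 0 1 → x ∈ U
  hc : ∀ x ∈ U, ContinuousAt h x
  hi : InjOn h U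
  ld : ∀ z : E (m + 1), ‖z‖ = 1 → LD (m + 1) h (c z)
  im : ∀ z : E (m + 1), ‖z‖ = 1 → h (c z) ∈ range d
  cov : ∀ y, y ∉ range d → ∃ x, x ∉ c '' ball 0 1 ∧ h x = y

section fill

variable {X Y : Type} [TopologicalSpace X] [ChartedSpace (E (m + 1)) X]
  [TopologicalSpace Y] [ChartedSpace (E (m + 1)) Y] {h : X → Y} {c : E (m + 1) → X}
  {d : E (m + 1) → Y} {U : Set X}

/-- the map near the sphere, with values in the sphere -/
def kq (h : X → Y) (c : E (m + 1) → X) (d : E (m + 1) → Y) (z : E (m + 1)) : Sn (m + 1) :=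
  tau d (h (c z))

theorem Fill.inv (H : Fill h c d U) (x : E (m + 1)) : invFun d (d x) = x :=
  leftInverse_invFun H.di x

theorem Fill.inv' (_ : Fill h c d U) {y : Y} (hy : y ∈ range d) : d (invFun d y) = y :=
  invFun_eq hy

theorem Fill.invc (H : Fill h c d U) (x : E (m + 1)) : invFun c (c x) = x :=
  leftInverse_invFun H.ci x

theorem Fill.rd (H : Fill h c d U) : IsOpen (range d) := by
  rw [isOpen_iff_mem_nhds]
  rintro _ ⟨x, rfl⟩
  have := (H.dd x).image_mem_nhds (univ_mem)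
  rwa [image_univ] at this

theorem Fill.inv_LD (H : Fill h c d U) {y : Y} (hy : y ∈ range d) :
    LD (m + 1) (invFun d) y := by
  obtain ⟨x, rfl⟩ := hy
  exact LD.inverse (k := d) (U := univ) isOpen_univ (fun y _ => H.dd y)
    (g := invFun d) (fun y _ => H.inv y) (mem_univ x)

theorem Fill.invc_LD (H : Fill h c d U) (x : E (m + 1)) :
    LD (m + 1) (invFun c) (c x) :=
  LD.inverse (k := c) (U := univ) isOpen_univ (fun y _ => H.cd y)
    (g := invFun c) (fun y _ => H.invc y) (mem_univ x)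

theorem Fill.tau_LD (H : Fill h c d U) {y : Y} (hy : y ∈ range d) :
    LD (m + 1) (tau d) y :=
  LD.comp_fun (g := tS) (tS_LD _) (H.inv_LD hy)

theorem Fill.tau_inj (H : Fill h c d U) : InjOn (tau d) (range d) := by
  intro y hy z hz hyz
  have h1 : invFun d y = invFun d z := tS_inj hyz
  rw [← H.inv' hy, h1, H.inv' hz]

theorem Fill.sS_tau (H : Fill h c d U) {y : Y} (hy : y ∈ range d) :
    d (sS (tau d y : E (m + 1 + 1))) = y := by
  unfold tau
  rw [sS_tS, H.inv' hy]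

theorem Fill.notb (H : Fill h c d U) {z : E (m + 1)} (hz : 1 ≤ ‖z‖) : c z ∉ c '' ball 0 1 := by
  rintro ⟨w, hw, hwz⟩
  rw [H.ci hwz] at hw
  exact not_lt.2 hz (mem_ball_zero_iff.1 hw)

theorem Fill.cU (H : Fill h c d U) {z : E (m + 1)} (hz : 1 ≤ ‖z‖) : c z ∈ U := H.hU _ (H.notb hz)

theorem Fill.kq_LD (H : Fill h c d U) {z : E (m + 1)} (hz : ‖z‖ = 1) :
    LD (m + 1) (kq h c d) z :=
  LD.comp_fun (g := tau d) (H.tau_LD (H.im z hz)) (LD.comp_fun (g := h) (H.ld z hz) (H.cd z))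

/-- the germ along the equator; the lower hemisphere corresponds to the unit ball -/
def gq (h : X → Y) (c : E (m + 1) → X) (d : E (m + 1) → Y) (y : Sn (m + 1)) : Sn (m + 1) :=
  kq h c d (sS (ng y : E (m + 1 + 1)))

theorem Fill.gq_LD (H : Fill h c d U) {y : Sn (m + 1)} (hy : y ∈ Eq0 m) :
    LD (m + 1) (gq h c d) y :=
  LD.comp_fun (g := kq h c d) (H.kq_LD (eq_norm (ng_eq hy)))
    (LD.comp_fun (g := fun y : Sn (m + 1) => sS (y : E (m + 1 + 1))) (sS_LD (eq_den (ng_eq hy)))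
      (ng_LD y))

theorem Fill.kq_inj (H : Fill h c d U) {z z' : E (m + 1)} (hz : ‖z‖ = 1) (hz' : ‖z'‖ = 1)
    (he : kq h c d z = kq h c d z') : z = z' :=
  H.ci (H.hi (H.cU hz.ge) (H.cU hz'.ge) (H.tau_inj (H.im z hz) (H.im z' hz') he))

theorem Fill.gq_inj (H : Fill h c d U) : InjOn (gq h c d) (Eq0 m) := by
  intro y hy z hz hyz
  have h1 := H.kq_inj (eq_norm (ng_eq hy)) (eq_norm (ng_eq hz)) hyz
  apply ng_inj
  rw [← tS_sS (eq_den (ng_eq hy)), h1, tS_sS (eq_den (ng_eq hz))]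

theorem gq_ng (h : X → Y) (c : E (m + 1) → X) (d : E (m + 1) → Y) (z : E (m + 1)) :
    gq h c d (ng (tS z)) = kq h c d z := by
  unfold gq
  rw [ng_ng, sS_tS]

/-- the set of the points which are not in the image -/
def Wy (h : X → Y) (c : E (m + 1) → X) : Set Y := (h '' (c '' ball 0 1)ᶜ)ᶜ

theorem Fill.Wy_sub (H : Fill h c d U) : Wy h c ⊆ range d := by
  intro y hy
  by_contra hcon
  obtain ⟨x, hx, hxy⟩ := H.cov y hcon
  exact hy ⟨x, hx, hxy⟩

theorem Fill.bo (H : Fill h c d U) : IsOpen (c '' ball (0 : E (m + 1)) 1) := by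
  rw [isOpen_iff_mem_nhds]
  rintro _ ⟨x, hx, rfl⟩
  exact (H.cd x).image_mem_nhds (isOpen_ball.mem_nhds hx)

theorem Fill.cc (H : Fill h c d U) : Continuous c :=
  continuous_iff_continuousAt.2 fun x => (H.cd x).continuousAt

theorem Fill.bc [T2Space X] (H : Fill h c d U) : IsClosed (c '' closedBall (0 : E (m + 1)) 1) :=
  ((isCompact_closedBall (0 : E (m + 1)) 1).image H.cc).isClosed

/-- invariance of domain -/
theorem Fill.op (H : Fill h c d U) {V : Set X} (hV : IsOpen V) (hVU : V ⊆ U) : IsOpen (h '' V) := by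
  let S : TopologicalSpace.Opens X := ⟨U, H.uo⟩
  have h1 : Continuous (fun y : S => h y) :=
    continuous_iff_continuousAt.2 fun y =>
      (H.hc y y.2).comp continuous_subtype_val.continuousAt
  have h2 : Injective (fun y : S => h y) := fun a b hab => Subtype.ext (H.hi a.2 b.2 hab)
  have h3 : IsOpenMap (fun y : S => h y) :=
    Pool.Agent.Q130.CM.isOpenMap_of_injective (m + 1) (X := S) (fun y : S => h y) h1 h2
  have h4 := h3 _ (hV.preimage continuous_subtype_val)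
  convert h4 using 1
  ext y
  constructor
  · rintro ⟨x, hx, rfl⟩
    exact ⟨⟨x, hVU hx⟩, hx, rfl⟩
  · rintro ⟨x, hx, rfl⟩
    exact ⟨x, hx, rfl⟩

theorem Fill.cl [T2Space Y] [CompactSpace X] (H : Fill h c d U) :
    IsClosed (h '' (c '' ball 0 1)ᶜ) := by
  refine (H.bo.isClosed_compl.isCompact.image_of_continuousOn ?_).isClosed
  intro x hx
  exact (H.hc x (H.hU x hx)).continuousWithinAt

theorem Fill.kc [T2Space X] [CompactSpace Y] (H : Fill h c d U) :
    IsCompact (h '' (c '' closedBall 0 1)ᶜ)ᶜ := by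
  have h1 : IsOpen (h '' (c '' closedBall 0 1)ᶜ) :=
    H.op H.bc.isOpen_compl fun x hx => H.hU x fun h2 => hx (image_mono ball_subset_closedBall h2)
  exact h1.isClosed_compl.isCompact

theorem Fill.V_eq (H : Fill h c d U) : (h '' (c '' closedBall 0 1)ᶜ)ᶜ =
    Wy h c ∪ (fun z => h (c z)) '' sphere 0 1 := by
  ext y
  constructor
  · intro hy
    by_cases hyW : y ∈ Wy h c
    · exact Or.inl hyW
    · right
      unfold Wy at hyW
      rw [mem_compl_iff, not_not] at hyW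
      obtain ⟨x, hx, rfl⟩ := hyW
      have h1 : x ∈ c '' closedBall 0 1 := by
        by_contra h2
        exact hy ⟨x, h2, rfl⟩
      obtain ⟨z, hz, rfl⟩ := h1
      refine ⟨z, ?_, rfl⟩
      rw [mem_sphere_zero_iff_norm]
      refine le_antisymm (mem_closedBall_zero_iff.1 hz) (not_lt.1 fun h4 => ?_)
      exact hx ⟨z, mem_ball_zero_iff.2 h4, rfl⟩
  · rintro (hy | ⟨z, hz, rfl⟩)
    · rintro ⟨x, hx, rfl⟩
      exact hy ⟨x, fun h1 => hx (image_mono ball_subset_closedBall h1), rfl⟩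
    · rintro ⟨x, hx, hxz⟩
      rw [mem_sphere_zero_iff_norm] at hz
      have h1 : x ∈ U := H.hU x fun h2 => hx (image_mono ball_subset_closedBall h2)
      have h2 := H.hi h1 (H.cU hz.ge) hxz
      exact hx (by rw [h2]; exact ⟨z, mem_closedBall_zero_iff.2 hz.le, rfl⟩)

/-- the images of the two hemispheres -/
theorem Fill.sides [T2Space X] [T2Space Y] (H : Fill h c d U)
    (hcl : IsClosed (h '' (c '' ball 0 1)ᶜ)) (hkc : IsCompact (h '' (c '' closedBall 0 1)ᶜ)ᶜ)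
    {F F' : Sn (m + 1) → Sn (m + 1)}
    (hl : ∀ y, F' (F y) = y) (hr : ∀ y, F (F' y) = y) (hFc : Continuous F)
    (he : ∀ y ∈ Eq0 m, F =ᶠ[𝓝 y] gq h c d) :
    (∀ z : E (m + 1), ‖z‖ < 1 → ∃ y ∈ Wy h c, F (ng (tS z)) = tau d y) ∧
    (∀ y ∈ Wy h c, ∃ z, ‖z‖ < 1 ∧ F (ng (tS z)) = tau d y) := by
  have hFi : Injective F := fun a b hab => by rw [← hl a, hab, hl]
  obtain ⟨W, hW⟩ : ∃ W : Set (Sn (m + 1)), W = tau d '' Wy h c := ⟨_, rfl⟩
  obtain ⟨V, hV⟩ : ∃ V : Set (Sn (m + 1)), V = (tau d '' (h '' (c '' closedBall 0 1)ᶜ)ᶜ)ᶜ :=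
    ⟨_, rfl⟩
  have hVr : (h '' (c '' closedBall 0 1)ᶜ)ᶜ ⊆ range d := by
    rw [H.V_eq]
    rintro y (hy | ⟨z, hz, rfl⟩)
    · exact H.Wy_sub hy
    · exact H.im z (mem_sphere_zero_iff_norm.1 hz)
  have hWo : IsOpen W := by
    rw [hW, isOpen_iff_mem_nhds]
    rintro _ ⟨y, hy, rfl⟩
    exact (H.tau_LD (H.Wy_sub hy)).image_mem_nhds (hcl.isOpen_compl.mem_nhds hy)
  have hVo : IsOpen V := by
    rw [hV]
    refine IsClosed.isOpen_compl (self := ?_)
    refine (hkc.image_of_continuousOn ?_).isClosed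
    intro y hy
    exact (H.tau_LD (hVr hy)).continuousAt.continuousWithinAt
  have hVW : Disjoint W V := by
    rw [Set.disjoint_left, hW, hV]
    rintro _ ⟨y, hy, rfl⟩ hx'
    exact hx' ⟨y, by rw [H.V_eq]; exact Or.inl hy, rfl⟩
  have heq : ∀ z : E (m + 1), ‖z‖ = 1 → F (ng (tS z)) = kq h c d z := fun z hz => by
    rw [(he _ (ngtS_eq hz)).self_of_nhds, gq_ng]
  have hcov : ∀ y : Sn (m + 1), y ∉ Eq0 m → F y ∈ W ∪ V := by
    intro y hy
    by_contra hcon
    rw [mem_union, not_or] at hcon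
    obtain ⟨h1, h2⟩ := hcon
    rw [hV, mem_compl_iff, not_not, H.V_eq] at h2
    obtain ⟨w, hw | ⟨z, hz, hzw⟩, hwy⟩ := h2
    · exact h1 (by rw [hW]; exact ⟨w, hw, hwy⟩)
    · rw [mem_sphere_zero_iff_norm] at hz
      have h7 : F (ng (tS z)) = F y := by
        rw [heq z hz, ← hwy, ← hzw]
        rfl
      exact hy (by rw [← hFi h7]; exact ngtS_eq hz)
  -- a point of the equator
  obtain ⟨z, hz⟩ : ∃ z : E (m + 1), ‖z‖ = 1 := exists_norm_eq _ zero_le_one
  have hcont : Tendsto (fun t : ℝ => ng (tS ((1 + t) • z))) (𝓝 0) (𝓝 (ng (tS z))) := by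
    have h1 : Continuous fun t : ℝ => ng (tS ((1 + t) • z)) :=
      ngtS_cont.comp ((continuous_const.add continuous_id).smul continuous_const)
    have h2 := h1.tendsto 0
    simpa using h2
  have hct : Tendsto (fun t : ℝ => c ((1 + t) • z)) (𝓝 0) (𝓝 (c z)) := by
    have h1 : Continuous fun t : ℝ => c ((1 + t) • z) :=
      H.cc.comp ((continuous_const.add continuous_id).smul continuous_const)
    have h2 := h1.tendsto 0
    simpa using h2
  have hev : ∀ᶠ t : ℝ in 𝓝 0, F (ng (tS ((1 + t) • z))) = kq h c d ((1 + t) • z) ∧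
      h (c ((1 + t) • z)) ∈ range d ∧ c ((1 + t) • z) ∈ U := by
    have h1 := hcont.eventually (he _ (ngtS_eq hz))
    have h2 : Tendsto (fun t : ℝ => h (c ((1 + t) • z))) (𝓝 0) (𝓝 (h (c z))) :=
      (H.hc _ (H.cU hz.ge)).tendsto.comp hct
    filter_upwards [h1, h2.eventually (H.rd.mem_nhds (H.im z hz)),
      hct.eventually (H.uo.mem_nhds (H.cU hz.ge))] with t ht ht' ht''
    refine ⟨?_, ht', ht''⟩
    rw [ht, gq_ng]
  obtain ⟨δ, hδ, hδ'⟩ := Metric.eventually_nhds_iff.1 hev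
  have hV1 : ∃ y : Sn (m + 1), 0 < (y : E (m + 1 + 1)) 0 ∧ F y ∈ V := by
    obtain ⟨h1, h2, h3⟩ := hδ' (y := δ / 2) (by
      rw [dist_zero_right, Real.norm_of_nonneg (by positivity)]
      linarith)
    have hn : ‖(1 + δ / 2) • z‖ = 1 + δ / 2 := by
      rw [norm_smul, hz, mul_one, Real.norm_of_nonneg (by positivity)]
    refine ⟨ng (tS ((1 + δ / 2) • z)), ?_, ?_⟩
    · rw [← not_le, ngtS_le, hn]
      linarith
    · rw [h1, hV]
      rintro ⟨y, hy, hyk⟩
      have h4 : y = h (c ((1 + δ / 2) • z)) := H.tau_inj (hVr hy) h2 hyk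
      refine hy ⟨c ((1 + δ / 2) • z), ?_, h4.symm⟩
      rintro ⟨w, hw, hwz⟩
      rw [H.ci hwz, mem_closedBall_zero_iff, hn] at hw
      linarith
  have hW1 : ∃ y : Sn (m + 1), (y : E (m + 1 + 1)) 0 < 0 ∧ F y ∈ W := by
    set s : ℝ := min (δ / 2) (1 / 2) with hs
    have hs0 : 0 < s := by positivity
    have hs1 : s ≤ δ / 2 := min_le_left _ _
    have hs2 : s ≤ 1 / 2 := min_le_right _ _
    obtain ⟨h1, h2, h3⟩ := hδ' (y := -s) (by
      rw [dist_zero_right, norm_neg, Real.norm_of_nonneg hs0.le]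
      linarith)
    have hn : ‖(1 + -s) • z‖ = 1 - s := by
      rw [norm_smul, hz, mul_one, Real.norm_of_nonneg (by linarith)]
      ring
    refine ⟨ng (tS ((1 + -s) • z)), ?_, ?_⟩
    · rw [ngtS_neg, hn]
      linarith
    · rw [h1, hW]
      refine ⟨_, ?_, rfl⟩
      rintro ⟨x, hx, hxz⟩
      rw [H.hi (H.hU x hx) h3 hxz] at hx
      exact hx ⟨_, by rw [mem_ball_zero_iff, hn]; linarith, rfl⟩
  have hneW : F '' {y : Sn (m + 1) | (y : E (m + 1 + 1)) 0 < 0} ⊆ W := by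
    refine (minus_conn.image F hFc.continuousOn).subset_left_of_subset_union hWo hVo hVW ?_ ?_
    · rintro _ ⟨y, hy, rfl⟩
      exact hcov y fun h => (ne_of_lt hy) h
    · obtain ⟨y, hy, hy'⟩ := hW1
      exact ⟨F y, ⟨y, hy, rfl⟩, hy'⟩
  have hneV : F '' {y : Sn (m + 1) | 0 < (y : E (m + 1 + 1)) 0} ⊆ V := by
    refine (plus_conn.image F hFc.continuousOn).subset_left_of_subset_union hVo hWo hVW.symm ?_ ?_
    · rintro _ ⟨y, hy, rfl⟩
      rw [union_comm]
      exact hcov y fun h => (ne_of_gt hy) h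
    · obtain ⟨y, hy, hy'⟩ := hV1
      exact ⟨F y, ⟨y, hy, rfl⟩, hy'⟩
  constructor
  · intro z hz
    have h1 := hneW ⟨ng (tS z), (ngtS_neg z).2 hz, rfl⟩
    rw [hW] at h1
    obtain ⟨y, hy, hyz⟩ := h1
    exact ⟨y, hy, hyz.symm⟩
  · intro y hy
    set w := F' (tau d y) with hw
    have hFy : F w = tau d y := hr _
    have hlt : (w : E (m + 1 + 1)) 0 < 0 := by
      by_contra hcon
      push Not at hcon
      rcases hcon.lt_or_eq with h1 | h1
      · have h2 := hneV ⟨w, h1, rfl⟩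
        rw [hFy, hV] at h2
        exact h2 ⟨y, by rw [H.V_eq]; exact Or.inl hy, rfl⟩
      · have hye : w ∈ Eq0 m := h1.symm
        have h2 := (he _ hye).self_of_nhds
        rw [hFy] at h2
        have h3 : ‖sS (ng w : E (m + 1 + 1))‖ = 1 := eq_norm (ng_eq hye)
        have h4 := H.tau_inj (H.Wy_sub hy) (H.im _ h3) h2
        exact hy ⟨_, H.notb h3.ge, h4.symm⟩
    obtain ⟨z, hz, hzy⟩ := ngtS_surj hlt
    exact ⟨z, hz, by rw [hzy, hFy]⟩

/-- **Filling a ball.** -/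
theorem Fill.fill' [T2Space X] [T2Space Y] (hm : 2 ≤ m) (H : Fill h c d U)
    (hcl : IsClosed (h '' (c '' ball 0 1)ᶜ)) (hkc : IsCompact (h '' (c '' closedBall 0 1)ᶜ)ᶜ) :
    ∃ (g : X → Y) (b : X), IsHomeomorph g ∧ b ∈ c '' ball 0 1 ∧
      (∀ x, x ∉ c '' ball 0 1 → g =ᶠ[𝓝 x] h) ∧ (∀ x ∈ c '' ball 0 1, x ≠ b → LD (m + 1) g x) := by
  classical
  obtain ⟨F, F', T, a, b, hl, hr, ha, hb, hLD, hlip, hlip', he, htip⟩ :=
    germ_gauge hm Sob.lg_gauge (fun y hy => H.gq_LD hy) H.gq_inj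
  have hFc : Continuous F := continuous_iff_continuousAt.2 fun x => (hlip x).continuousAt
  have hFi : Injective F := fun a b hab => by rw [← hl a, hab, hl]
  obtain ⟨hin, hsurj⟩ := H.sides hcl hkc hl hr hFc he
  set g : X → Y := fun x => if x ∈ c '' ball 0 1 then d (sS (F (ng (tS (invFun c x))) :
    E (m + 1 + 1))) else h x with hg
  have hg1 : ∀ z : E (m + 1), ‖z‖ < 1 → g (c z) = d (sS (F (ng (tS z)) : E (m + 1 + 1))) := by
    intro z hz
    have h1 : c z ∈ c '' ball 0 1 := ⟨z, mem_ball_zero_iff.2 hz, rfl⟩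
    rw [hg]
    simp only [if_pos h1]
    rw [H.invc]
  have hg2 : ∀ x, x ∉ c '' ball 0 1 → g x = h x := fun x hx => if_neg hx
  have hg3 : ∀ z : E (m + 1), ‖z‖ < 1 → ∃ y ∈ Wy h c, F (ng (tS z)) = tau d y ∧ g (c z) = y := by
    intro z hz
    obtain ⟨y, hy, hyz⟩ := hin z hz
    exact ⟨y, hy, hyz, by rw [hg1 z hz, hyz, H.sS_tau (H.Wy_sub hy)]⟩
  -- near points which are not in the open ball
  have hnear : ∀ x, x ∉ c '' ball 0 1 → g =ᶠ[𝓝 x] h := by
    intro x hx
    by_cases hx' : x ∈ c '' closedBall 0 1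
    · obtain ⟨z, hz, rfl⟩ := hx'
      have hz1 : ‖z‖ = 1 := by
        refine le_antisymm (mem_closedBall_zero_iff.1 hz) (not_lt.1 fun h4 => ?_)
        exact hx ⟨z, mem_ball_zero_iff.2 h4, rfl⟩
      have hci : Tendsto (invFun c) (𝓝 (c z)) (𝓝 z) := by
        have := (H.invc_LD z).continuousAt.tendsto
        rwa [H.invc] at this
      have hcr : ∀ᶠ x in 𝓝 (c z), x ∈ range c := by
        have := (H.cd z).image_mem_nhds univ_mem
        rwa [image_univ] at this
      have e1 : ∀ᶠ w in 𝓝 z, F (ng (tS w)) = kq h c d w := by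
        have h1 : Tendsto (fun w : E (m + 1) => ng (tS w)) (𝓝 z) (𝓝 (ng (tS z))) :=
          ngtS_cont.continuousAt.tendsto
        filter_upwards [h1.eventually (he _ (ngtS_eq hz1))] with w hw
        rw [hw, gq_ng]
      have e2 : ∀ᶠ w in 𝓝 z, h (c w) ∈ range d := by
        have h1 : Tendsto (fun w => h (c w)) (𝓝 z) (𝓝 (h (c z))) :=
          (H.hc _ (H.cU hz1.ge)).tendsto.comp H.cc.continuousAt.tendsto
        exact h1.eventually (H.rd.mem_nhds (H.im z hz1))
      filter_upwards [hcr, hci.eventually e1, hci.eventually e2] with x hxr hx1 hx2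
      obtain ⟨w, rfl⟩ := hxr
      rw [H.invc] at hx1 hx2
      by_cases hw : ‖w‖ < 1
      · rw [hg1 w hw, hx1]
        exact H.sS_tau hx2
      · refine hg2 _ ?_
        rintro ⟨w', hw', hww⟩
        rw [H.ci hww] at hw'
        exact hw (mem_ball_zero_iff.1 hw')
    · filter_upwards [H.bc.isOpen_compl.mem_nhds hx'] with y hy
      exact hg2 y fun hy' => hy (image_mono ball_subset_closedBall hy')
  -- the map near points of the open ball
  have hnear2 : ∀ z : E (m + 1), ‖z‖ < 1 → g =ᶠ[𝓝 (c z)] fun x =>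
      d (sS (F (ng (tS (invFun c x))) : E (m + 1 + 1))) := by
    intro z hz
    filter_upwards [H.bo.mem_nhds ⟨z, mem_ball_zero_iff.2 hz, rfl⟩] with x hx
    obtain ⟨w, hw, rfl⟩ := hx
    rw [hg1 w (mem_ball_zero_iff.1 hw), H.invc]
  have hden : ∀ z : E (m + 1), ‖z‖ < 1 → 1 + (F (ng (tS z)) : E (m + 1 + 1)) 0 ≠ 0 := by
    intro z hz
    obtain ⟨y, hy, hyz⟩ := hin z hz
    rw [hyz]
    exact tS_den _
  have hLD1 : ∀ z : E (m + 1), ‖z‖ < 1 → LD (m + 1) (fun x : X => ng (tS (invFun c x))) (c z) := by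
    intro z hz
    refine LD.comp_fun (g := fun z : E (m + 1) => ng (tS z)) ?_ (H.invc_LD z)
    exact LD.comp_fun (g := ng) (ng_LD _) (tS_LD _)
  have hLD2 : ∀ z : E (m + 1), ‖z‖ < 1 →
      LD (m + 1) (fun y : Sn (m + 1) => d (sS (y : E (m + 1 + 1)))) (F (ng (tS z))) := fun z hz =>
    LD.comp_fun (g := d) (H.dd _) (sS_LD (hden z hz))
  obtain ⟨zb, hzb, hzb'⟩ := ngtS_surj hb
  have hcont : ∀ z : E (m + 1), ‖z‖ < 1 → ContinuousAt g (c z) := by
    intro z hz
    refine ContinuousAt.congr ?_ (hnear2 z hz).symm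
    have e1 : ContinuousAt (fun x : X => F (ng (tS (invFun c x)))) (c z) :=
      ContinuousAt.comp (g := F) hFc.continuousAt (hLD1 z hz).continuousAt
    refine ContinuousAt.comp (g := fun y : Sn (m + 1) => d (sS (y : E (m + 1 + 1))))
      (f := fun x : X => F (ng (tS (invFun c x)))) ?_ e1
    rw [H.invc]
    exact (hLD2 z hz).continuousAt
  have hgc : Continuous g := by
    refine continuous_iff_continuousAt.2 fun x => ?_
    by_cases hx : x ∈ c '' ball 0 1
    · obtain ⟨z, hz, rfl⟩ := hx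
      exact hcont z (mem_ball_zero_iff.1 hz)
    · exact (H.hc x (H.hU x hx)).congr (hnear x hx).symm
  have hmaps : ∀ x ∈ c '' ball 0 1, g x ∈ Wy h c := by
    rintro _ ⟨z, hz, rfl⟩
    obtain ⟨y, hy, -, hyy⟩ := hg3 z (mem_ball_zero_iff.1 hz)
    rw [hyy]
    exact hy
  have hgi : Injective g := by
    intro x y hxy
    by_cases hx : x ∈ c '' ball 0 1 <;> by_cases hy : y ∈ c '' ball 0 1
    · obtain ⟨z, hz, rfl⟩ := hx
      obtain ⟨w, hw, rfl⟩ := hy
      obtain ⟨z', hz', h1, h2⟩ := hg3 z (mem_ball_zero_iff.1 hz)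
      obtain ⟨w', hw', h3, h4⟩ := hg3 w (mem_ball_zero_iff.1 hw)
      rw [h2, h4] at hxy
      rw [hxy, ← h3] at h1
      rw [tS_inj (ng_inj (hFi h1))]
    · have h1 := hmaps x hx
      rw [hxy, hg2 y hy] at h1
      exact absurd ⟨y, hy, rfl⟩ h1
    · have h1 := hmaps y hy
      rw [← hxy, hg2 x hx] at h1
      exact absurd ⟨x, hx, rfl⟩ h1
    · rw [hg2 x hx, hg2 y hy] at hxy
      exact H.hi (H.hU x hx) (H.hU y hy) hxy
  have hgs : Surjective g := by
    intro y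
    by_cases hy : y ∈ Wy h c
    · obtain ⟨z, hz, hzz⟩ := hsurj y hy
      exact ⟨c z, by rw [hg1 z hz, hzz, H.sS_tau (H.Wy_sub hy)]⟩
    · unfold Wy at hy
      rw [mem_compl_iff, not_not] at hy
      obtain ⟨x, hx, hxy⟩ := hy
      exact ⟨x, by rw [hg2 x hx, hxy]⟩
  refine ⟨g, c zb,
    ⟨hgc, Pool.Agent.Q130.CM.isOpenMap_of_injective (m + 1) g hgc hgi, hgi, hgs⟩,
    ⟨zb, mem_ball_zero_iff.2 hzb, rfl⟩, hnear, ?_⟩
  rintro _ ⟨z, hz, rfl⟩ hne
  have hz' := mem_ball_zero_iff.1 hz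
  have hzb2 : ng (tS z) ≠ b := by
    intro h1
    rw [← hzb'] at h1
    exact hne (by rw [tS_inj (ng_inj h1)])
  have hza : ng (tS z) ≠ a := by
    intro h1
    rw [← h1] at ha
    have := (ngtS_neg z).2 hz'
    linarith
  refine LD.congr ?_ (hnear2 z hz')
  have e1 : LD (m + 1) (fun x : X => F (ng (tS (invFun c x)))) (c z) := by
    refine LD.comp_fun (g := F) ?_ (hLD1 z hz')
    rw [H.invc]
    exact hLD _ hza hzb2
  refine LD.comp_fun (g := fun y : Sn (m + 1) => d (sS (y : E (m + 1 + 1)))) ?_ e1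
  rw [H.invc]
  exact hLD2 z hz'

/-- the compact case -/
theorem Fill.fill [T2Space X] [T2Space Y] [CompactSpace X] [CompactSpace Y] (hm : 2 ≤ m)
    (H : Fill h c d U) :
    ∃ (g : X → Y) (b : X), IsHomeomorph g ∧ b ∈ c '' ball 0 1 ∧
      (∀ x, x ∉ c '' ball 0 1 → g =ᶠ[𝓝 x] h) ∧ (∀ x ∈ c '' ball 0 1, x ≠ b → LD (m + 1) g x) :=
  H.fill' hm H.cl H.kc

end fill

end Pool.Agent.H816.Ph
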