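import Pool.Agent.H816.Ph29

/-!
# Open manifolds: arbitrary singular sets
-/

set_option autoImplicit false
set_option linter.unusedSectionVars false

open Set Filter Topology Metric Function
open scoped Manifold ContDiff

noncomputable section

namespace Pool.Agent.H816.Sw

open Pool.Agent.Y522 Pool.Agent.H816 Pool.Agent.H816.Ph
open Pool.Agent.Q130.CM Pool.Agent.Y170.NA

variable {m : ℕ}

/-- **Locally finite singular sets** -/
theorem lf_open (hm : 2 ≤ m) {X Y : Type} [TopologicalSpace X] [T2Space X] [SigmaCompactSpace X]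
    [ConnectedSpace X] [NoncompactSpace X] [ChartedSpace (E (m + 1)) X]
    [IsManifold (𝓡 (m + 1)) ∞ X] [TopologicalSpace Y] [T2Space Y] [ChartedSpace (E (m + 1)) Y]
    [IsManifold (𝓡 (m + 1)) ∞ Y] {f : X → Y} (hf : IsHomeomorph f) {P : Set X} (hP : LF P)
    (hfP : ∀ x, x ∉ P → LD (m + 1) f x) {O : Set (X × Y)} (hO : IsOpen O)
    (hfO : ∀ x, (x, f x) ∈ O) :
    ∃ g : X → Y, IsHomeomorph g ∧ (∀ x, LD (m + 1) g x) ∧ ∀ x, (x, g x) ∈ O := by
  classical
  have : LocallyCompactSpace X := ChartedSpace.locallyCompactSpace (E (m + 1)) X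
  have : LocallyConnectedSpace X := ChartedSpace.locallyConnectedSpace (E (m + 1)) X
  obtain ⟨L, HL, hG⟩ := exists_filled X
  obtain ⟨F, hF⟩ : ∃ F : X ≃ₜ Y, ∀ x, F x = f x := ⟨hf.homeomorph f, fun _ => rfl⟩
  -- neighbourhoods of the graph with small slices
  obtain ⟨Sh, hSh⟩ : ∃ Sh : ℕ → Set X, Sh = fun j => interior (L (j + 2)) \ L j := ⟨_, rfl⟩
  have hSho : ∀ j, IsOpen (Sh j) := fun j => by
    rw [hSh]
    exact isOpen_interior.sdiff (HL.c j).isClosed
  have hShc : ∀ x, ∃ j, x ∈ Sh j := by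
    intro x
    obtain ⟨k, hk, hmin⟩ : ∃ k, x ∈ L k ∧ ∀ l, l < k → x ∉ L l :=
      ⟨Nat.find (HL.u x), Nat.find_spec (HL.u x), fun l hl => Nat.find_min (HL.u x) hl⟩
    have h0 : k ≠ 0 := fun h => by
      rw [h, HL.z] at hk
      exact hk
    obtain ⟨j, rfl⟩ := Nat.exists_eq_succ_of_ne_zero h0
    refine ⟨j, ?_⟩
    rw [hSh]
    exact ⟨HL.s _ hk, hmin j (Nat.lt_succ_self j)⟩
  obtain ⟨O1, hO1⟩ : ∃ O1 : Set (X × Y), O1 = O ∩ ⋃ j, (Sh j) ×ˢ (F.symm ⁻¹' Sh j) := ⟨_, rfl⟩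
  have hO1o : IsOpen O1 := by
    rw [hO1]
    exact hO.inter (isOpen_iUnion fun j => (hSho j).prod ((hSho j).preimage F.symm.continuous))
  have hfO1 : ∀ x, (x, f x) ∈ O1 := fun x => by
    rw [hO1]
    refine ⟨hfO x, ?_⟩
    obtain ⟨j, hj⟩ := hShc x
    refine mem_iUnion.2 ⟨j, hj, ?_⟩
    show F.symm (f x) ∈ Sh j
    rw [← hF, F.symm_apply_apply]
    exact hj
  -- the sequence
  obtain ⟨s, -, hs0, hs⟩ := dep_choice (α := Set X × (X → Y)) (β := Unit)
    (fun k a => IsHomeomorph a.2 ∧ LF a.1 ∧ a.1.Countable ∧ (∀ x, x ∉ a.1 → LD (m + 1) a.2 x) ∧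
      Disjoint a.1 (L k) ∧ ∀ x, (x, a.2 x) ∈ O1)
    (fun k a _ a' => ∀ x ∈ L k, a'.2 x = a.2 x) (a0 := (P, f))
    ⟨hf, hP, hP.countable HL, hfP, by rw [HL.z]; exact disjoint_empty _, hfO1⟩
    (fun k a ha => by
      obtain ⟨h1, h2, h3, h4, h5, h6⟩ := ha
      obtain ⟨P', g, a1, a2, a3, a4, a5, a6, a7, a8⟩ := push_all hm (hG k) (HL.c (k + 1)) hO1o _
        a.2 a.1 h1 h2 h3 h4 h5 h6 le_rfl
      exact ⟨(), (P', g), a7, a1, a2, a3, a4, a6, a8⟩)
  have hst : ∀ k l, k ≤ l → ∀ x ∈ L k, (s l).2 x = (s k).2 x := by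
    intro k l hkl
    induction l, hkl using Nat.le_induction with
    | base => exact fun x _ => rfl
    | succ l hkl ih => exact fun x hx => by rw [(hs l).2 x (HL.mono hkl hx), ih x hx]
  obtain ⟨g, hg⟩ : ∃ g : X → Y, g = fun x => (s (Nat.find (HL.u x))).2 x := ⟨_, rfl⟩
  have hgk : ∀ k, ∀ x ∈ L k, g x = (s k).2 x := fun k x hx => by
    rw [hg]
    exact (hst _ k (Nat.find_min' (HL.u x) hx) x (Nat.find_spec (HL.u x))).symm
  have hgd : ∀ x, LD (m + 1) g x := by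
    intro x
    obtain ⟨k, hk⟩ := HL.u x
    have h1 : L (k + 1) ∈ 𝓝 x := mem_interior_iff_mem_nhds.1 (HL.s k hk)
    have h2 : x ∉ (s (k + 1)).1 := fun h =>
      Set.disjoint_left.1 (hs (k + 1)).1.2.2.2.2.1 h (HL.succ k hk)
    refine ((hs (k + 1)).1.2.2.2.1 x h2).congr ?_
    filter_upwards [h1] with y hy using hgk (k + 1) y hy
  have hgO1 : ∀ x, (x, g x) ∈ O1 := fun x => by
    obtain ⟨k, hk⟩ := HL.u x
    rw [hgk k x hk]
    exact (hs k).1.2.2.2.2.2 x
  have hgc : Continuous g := continuous_iff_continuousAt.2 fun x => (hgd x).continuousAt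
  have hgb : Bijective g := by
    constructor
    · intro a b hab
      obtain ⟨k, hk⟩ := HL.u a
      obtain ⟨l, hl⟩ := HL.u b
      have ha : a ∈ L (max k l) := HL.mono (le_max_left _ _) hk
      have hb : b ∈ L (max k l) := HL.mono (le_max_right _ _) hl
      rw [hgk _ a ha, hgk _ b hb] at hab
      exact (hs _).1.1.injective hab
    · intro y
      obtain ⟨N, hN⟩ := HL.u (F.symm y)
      obtain ⟨x, hx⟩ := (hs (N + 1)).1.1.surjective y
      have h1 := (hs (N + 1)).1.2.2.2.2.2 x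
      rw [hx, hO1] at h1
      obtain ⟨j, hj1, hj2⟩ := mem_iUnion.1 h1.2
      have hj2' : F.symm y ∈ Sh j := hj2
      have hj1' : x ∈ Sh j := hj1
      rw [hSh] at hj1' hj2'
      have h2 : j < N := by
        by_contra h
        exact hj2'.2 (HL.mono (not_lt.1 h) hN)
      have h3 : x ∈ L (N + 1) := HL.mono (by omega) (interior_subset hj1'.1)
      exact ⟨x, by rw [hgk _ x h3, hx]⟩
  refine ⟨g, ⟨hgc, isOpenMap_of_injective (m + 1) g hgc hgb.1, hgb⟩, hgd, fun x => ?_⟩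
  have := hgO1 x
  rw [hO1] at this
  exact this.1

/-- **Open manifolds.** Homeomorphisms of connected open manifolds for which generic spheres are
good can be approximated by diffeomorphisms. -/
theorem open_general (hm : 2 ≤ m) {X Y : Type} [TopologicalSpace X] [T2Space X]
    [SigmaCompactSpace X] [ConnectedSpace X] [NoncompactSpace X] [ChartedSpace (E (m + 1)) X]
    [IsManifold (𝓡 (m + 1)) ∞ X] [TopologicalSpace Y] [T2Space Y] [ChartedSpace (E (m + 1)) Y]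
    [IsManifold (𝓡 (m + 1)) ∞ Y] {f : X → Y} (hf : IsHomeomorph f)
    (hgd : ∀ x : X, ∃ (A : E (m + 1) → X) (ρ : ℝ), A 0 = x ∧ Gd (n := m + 1) f A ρ)
    {O : Set (X × Y)} (hO : IsOpen O) (hfO : ∀ x, (x, f x) ∈ O) :
    ∃ g : X → Y, IsHomeomorph g ∧ (∀ x, LD (m + 1) g x) ∧ ∀ x, (x, g x) ∈ O := by
  have : TopologicalSpace.MetrizableSpace X := Manifold.metrizableSpace (𝓡 (m + 1)) X
  let _ := TopologicalSpace.metrizableSpaceMetric X
  obtain ⟨P, f1, h1, h2, h3, h4⟩ := exists_lf hm hf hgd hO hfO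
  exact lf_open hm h1 h2 h3 hO h4

end Pool.Agent.H816.Sw
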