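import Pool.Agent.H816.Sing3
import Pool.Agent.H816.Rig2
import Pool.Graph.R_pool_sql_team_seeded_2aa45f1a.Q169.AA.Loc
import Pool.Graph.R_pool_sql_team_seeded_2aa45f1a.Q169.AA.Final

/-!
# Punctured diffeomorphisms, and the smoothing of slowly singular points
-/

set_option autoImplicit false

open Set Filter Topology Metric Function MeasureTheory Module
open scoped Manifold ContDiff NNReal

noncomputable section

namespace Pool.Agent.H816

open Pool.Agent.Y522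

theorem punctured_ext {n : ℕ} {X Y : Type*} [TopologicalSpace X] [ChartedSpace (E n) X]
    [TopologicalSpace Y] [ChartedSpace (E n) Y] [T2Space X] [CompactSpace X] [T2Space Y]
    [CompactSpace Y] {φ : X → Y} {p : X} {q : Y} (hb : BijOn φ {p}ᶜ {q}ᶜ)
    (hl : ∀ x, x ≠ p → LD n φ x) :
    ∃ f : X → Y, IsHomeomorph f ∧ f p = q ∧ ∀ x, x ≠ p → f =ᶠ[𝓝 x] φ := by
  classical
  have : Nonempty X := ⟨p⟩
  have hf1 : ∀ x, x ≠ p → update φ p q x = φ x := fun x hx => update_of_ne hx _ _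
  have hf0 : update φ p q p = q := update_self _ _ _
  have hf : ∀ x, x ≠ p → update φ p q =ᶠ[𝓝 x] φ := fun x hx => by
    filter_upwards [isOpen_compl_singleton.mem_nhds (x := x) hx] with y hy
    exact hf1 y hy
  set ψ : Y → X := invFunOn φ {p}ᶜ with hψ
  have hψl : ∀ x ∈ ({p}ᶜ : Set X), ψ (φ x) = x := fun x hx => hb.injOn.leftInvOn_invFunOn hx
  have hψc : ∀ y ∈ ({q}ᶜ : Set Y), ContinuousAt ψ y := by
    intro y hy
    obtain ⟨x, hx, rfl⟩ := hb.surjOn hy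
    exact (LD.inverse (k := φ) (U := {p}ᶜ) isOpen_compl_singleton (fun x hx => hl x hx)
      (g := ψ) hψl hx).continuousAt
  have hbij : Bijective (update φ p q) := by
    constructor
    · intro x y hxy
      by_cases hx : x = p <;> by_cases hy : y = p
      · rw [hx, hy]
      · rw [hx, hf0, hf1 y hy] at hxy
        exact absurd hxy.symm (hb.mapsTo hy)
      · rw [hy, hf0, hf1 x hx] at hxy
        exact absurd hxy (hb.mapsTo hx)
      · rw [hf1 x hx, hf1 y hy] at hxy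
        exact hb.injOn hx hy hxy
    · intro y
      by_cases hy : y = q
      · exact ⟨p, by rw [hf0, hy]⟩
      · obtain ⟨x, hx, rfl⟩ := hb.surjOn (show y ∈ ({q}ᶜ : Set Y) from hy)
        exact ⟨x, hf1 x hx⟩
  refine ⟨update φ p q, isHomeomorph_iff_continuous_bijective.2 ⟨?_, hbij⟩, hf0, hf⟩
  refine continuous_iff_continuousAt.2 fun x => ?_
  by_cases hx : x = p
  · rw [hx]
    intro V hV
    rw [hf0] at hV
    obtain ⟨W, hWV, hWo, hqW⟩ := mem_nhds_iff.1 hV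
    have hC : IsCompact Wᶜ := hWo.isClosed_compl.isCompact
    have hCq : ∀ y ∈ Wᶜ, y ∈ ({q}ᶜ : Set Y) := fun y hy hyq => by
      rw [mem_singleton_iff] at hyq
      rw [hyq] at hy
      exact hy hqW
    have h1 : IsClosed (ψ '' Wᶜ) :=
      (hC.image_of_continuousOn fun y hy => (hψc y (hCq y hy)).continuousWithinAt).isClosed
    have h2 : p ∉ ψ '' Wᶜ := by
      rintro ⟨y, hy, hyp⟩
      obtain ⟨x, hx, rfl⟩ := hb.surjOn (hCq y hy)
      rw [hψl x hx] at hyp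
      exact hx hyp
    show update φ p q ⁻¹' V ∈ 𝓝 p
    filter_upwards [h1.isOpen_compl.mem_nhds h2] with z hz
    show update φ p q z ∈ V
    by_cases hzp : z = p
    · rw [hzp, hf0]
      exact hWV hqW
    · rw [hf1 z hzp]
      by_contra hcon
      exact hz ⟨φ z, fun h => hcon (hWV h), hψl z hzp⟩
  · exact (hl x hx).continuousAt.congr (hf x hx).symm

/-- asymptotically affine maps -/
theorem slow_smooth {n : ℕ} {X Y : Type} [TopologicalSpace X] [ChartedSpace (E n) X]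
    [IsManifold (𝓡 n) ∞ X] [T2Space X] [SigmaCompactSpace X] [TopologicalSpace Y]
    [ChartedSpace (E n) Y] [IsManifold (𝓡 n) ∞ Y] [T2Space Y] {f : X → Y}
    (hf : IsHomeomorph f) {V : Set X} (hV : IsOpen V)
    (hbad : ∀ x, ¬ LD n f x → x ∈ V ∧ ∃ (A : E n → X) (B : Y → E n), A 0 = x ∧ LD n A 0 ∧
      LD n B (f x) ∧ ∃ c : ℝ, 0 < c ∧ ∀ ε : ℝ, 0 < ε → ∃ r : ℝ, 0 < r ∧ ∀ p : E n, ‖p‖ ≤ r →
        ∀ s : ℝ, 0 < s → s ≤ r → ∃ (m : ℝ) (L : E n →L[ℝ] E n), 0 < m ∧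
          (∀ v, c * m * ‖v‖ ≤ ‖L v‖ ∧ ‖L v‖ ≤ m * ‖v‖) ∧
          ∀ q, ‖q - p‖ ≤ s → ‖B (f (A q)) - B (f (A p)) - L (q - p)‖ ≤ ε * m * s)
    {O : Set (X × Y)} (hO : IsOpen O) (hfO : ∀ x, (x, f x) ∈ O) :
    ∃ f' : X → Y, (∀ x, (x, f' x) ∈ O) ∧ Bijective f' ∧ (∀ x, LD n f' x) ∧
      ∀ x, x ∉ V → f' x = f x := by
  refine Pool.Agent.Q169.AA.aaInf n X Y (hf.homeomorph f) V hV (fun x hx => ?_) O hO hfO
  obtain ⟨hxV, A, B, hA0, hA, hB, c, hc, h⟩ := hbad x hx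
  refine ⟨hxV, ?_⟩
  refine Pool.Agent.Q169.AA.AAM.of hf.continuous.continuousAt hB ?_
  have h2 : Pool.Agent.Q169.AA.AAn n (fun p => B (f (A p))) 0 := by
    refine ⟨c, hc, fun ε hε => ?_⟩
    obtain ⟨r, hr, h3⟩ := h ε hε
    refine ⟨r, hr, fun p hp s hs hsr => h3 p ?_ s hs hsr⟩
    rwa [sub_zero] at hp
  have h3 := Pool.Agent.Q169.AA.AAE.of (n := n) (F := fun w => B (f w)) hA h2
  rwa [hA0] at h3

end Pool.Agent.H816
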