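import Pool.Agent.H816.Sob7
import Pool.Agent.H816.Sing4

/-!
# Maps of manifolds with weak second derivatives
-/

set_option autoImplicit false

open Set Filter Topology Metric Function MeasureTheory Module
open scoped Manifold ContDiff ENNReal

noncomputable section

namespace Pool.Agent.H816.Sob

open Pool.Agent.H816 Pool.Agent.Y522

section id

variable {E : Type*} [NormedAddCommGroup E] [InnerProductSpace ℝ E] [FiniteDimensional ℝ E]
  [MeasurableSpace E] [BorelSpace E]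

theorem fderiv_near_id {G : E → E} (hG : ∀ᶠ x in 𝓝 0, G x = x) :
    ∃ ρ : ℝ, 0 < ρ ∧ ∀ x ∈ ball (0 : E) ρ, G x = x ∧ DifferentiableAt ℝ G x ∧
      fderiv ℝ G x = ContinuousLinearMap.id ℝ E ∧ DifferentiableAt ℝ (fderiv ℝ G) x ∧
      fderiv ℝ (fderiv ℝ G) x = 0 := by
  obtain ⟨ρ, hρ, h1⟩ := Metric.eventually_nhds_iff_ball.1 hG
  have h2 : ∀ x ∈ ball (0 : E) ρ, G =ᶠ[𝓝 x] fun y => y := fun x hx => by
    filter_upwards [isOpen_ball.mem_nhds hx] with y hy using h1 y hy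
  have h3 : ∀ x ∈ ball (0 : E) ρ, fderiv ℝ G x = ContinuousLinearMap.id ℝ E := fun x hx => by
    rw [(h2 x hx).fderiv_eq]
    exact fderiv_fun_id
  have h4 : ∀ x ∈ ball (0 : E) ρ, fderiv ℝ G =ᶠ[𝓝 x] fun _ => ContinuousLinearMap.id ℝ E :=
    fun x hx => by
      filter_upwards [isOpen_ball.mem_nhds hx] with y hy using h3 y hy
  refine ⟨ρ, hρ, fun x hx => ⟨h1 x hx, ?_, h3 x hx, ?_, ?_⟩⟩
  · exact (differentiableAt_id (𝕜 := ℝ) (x := x)).congr_of_eventuallyEq (h2 x hx)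
  · exact (differentiableAt_const _).congr_of_eventuallyEq (h4 x hx)
  · rw [(h4 x hx).fderiv_eq]
    exact fderiv_const_apply _

/-- the identity has weak second derivatives -/
theorem w2_id (hn : 2 ≤ finrank ℝ E) {G : E → E} (hG : ∀ᶠ x in 𝓝 0, G x = x) (q : ℝ≥0∞) :
    W2 q G := by
  obtain ⟨ρ, hρ, h⟩ := fderiv_near_id hG
  refine ⟨ρ, fderiv ℝ (fderiv ℝ G), hρ, fun v w => ?_, ?_⟩
  · have h1 : MemLp (fun _ : E => (0 : E)) q (volume.restrict (ball (0 : E) ρ)) := MemLp.zero'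
    refine (memLp_congr_ae ?_).1 h1
    filter_upwards [ae_restrict_mem measurableSet_ball] with x hx
    rw [(h x hx).2.2.2.2]
    rfl
  · refine weak_of_smooth_off (M := 1) (k := fun _ => 0) hn (fun x hx => (h x hx).2.1)
      (fun x hx => ?_) (fun x hx _ => (h x hx).2.2.2.1) (fun x hx _ => ?_)
      (integrableOn_zero)
    · rw [(h x hx).2.2.1]
      exact ContinuousLinearMap.norm_id_le
    · refine ContinuousLinearMap.opNorm_le_bound _ le_rfl fun v => ?_
      rw [(h x hx).2.2.2.2]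
      simp

theorem bl_id {G : E → E} (hG : ∀ᶠ x in 𝓝 0, G x = x) : ∀ᶠ z in 𝓝 (0 : E × E),
    ‖G z.1 - G z.2‖ ≤ 1 * ‖z.1 - z.2‖ ∧ ‖z.1 - z.2‖ ≤ 1 * ‖G z.1 - G z.2‖ := by
  have e1 : ∀ᶠ z : E × E in 𝓝 (0, 0), G z.1 = z.1 :=
    (continuous_fst.tendsto' ((0 : E), (0 : E)) 0 rfl).eventually hG
  have e2 : ∀ᶠ z : E × E in 𝓝 (0, 0), G z.2 = z.2 :=
    (continuous_snd.tendsto' ((0 : E), (0 : E)) 0 rfl).eventually hG
  filter_upwards [e1, e2] with z hz1 hz2
  rw [hz1, hz2, one_mul]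
  exact ⟨le_rfl, le_rfl⟩

end id

section man

variable {n : ℕ} {X Y : Type*} [TopologicalSpace X] [ChartedSpace (E n) X]
  [TopologicalSpace Y] [ChartedSpace (E n) Y]

/-- coordinates in which a local diffeomorphism is the identity -/
theorem ld_coord [IsManifold (𝓡 n) ∞ X] {g : X → Y} {x : X} (h : LD n g x) :
    ∃ (A : E n → X) (B : Y → E n), A 0 = x ∧ LD n A 0 ∧ LD n B (g x) ∧
      ∀ᶠ z in 𝓝 0, B (g (A z)) = z := by
  obtain ⟨c, hc0, -, hcl, -⟩ := cell_exists (n := n) (x := x) (W := univ) univ_mem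
  have h1 : LD n (fun z => g (c z)) 0 := by
    refine LD.comp_fun (g := g) ?_ (hcl 0)
    rw [hc0]
    exact h
  obtain ⟨B, hB, -, hB1, -⟩ := LD_exists_inv h1
  refine ⟨c, B, hc0, hcl 0, ?_, hB1⟩
  have e : g (c 0) = g x := by rw [hc0]
  rw [← e]
  exact hB

/-- smoothness in coordinates off an isolated singular point -/
theorem coord_smooth {g : X → Y} {b : X} (hgc : ContinuousAt g b)
    (hg : ∀ᶠ x in 𝓝[≠] b, LD n g x) {A : E n → X} {B : Y → E n} (hA0 : A 0 = b)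
    (hA : LD n A 0) (hB : LD n B (g b)) :
    ∀ᶠ x in 𝓝[≠] (0 : E n), ContDiffAt ℝ ∞ (fun x => B (g (A x))) x := by
  have h1 : Tendsto A (𝓝[≠] 0) (𝓝[≠] b) := by
    refine tendsto_nhdsWithin_iff.2 ⟨?_, ?_⟩
    · have := hA.continuousAt.tendsto
      rw [hA0] at this
      exact this.mono_left nhdsWithin_le_nhds
    · obtain ⟨u, hu, hinj⟩ := hA.eventually_injOn
      filter_upwards [self_mem_nhdsWithin, nhdsWithin_le_nhds hu] with x hx hxu hxb
      apply hx
      apply hinj hxu (mem_of_mem_nhds hu)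
      rw [hA0]
      exact hxb
  have h2 : ∀ᶠ x in 𝓝[≠] (0 : E n), LD n B (g (A x)) := by
    have h3 : Tendsto (fun x => g (A x)) (𝓝[≠] 0) (𝓝 (g b)) :=
      hgc.tendsto.comp (h1.mono_right nhdsWithin_le_nhds)
    exact h3.eventually hB.eventually
  filter_upwards [h1.eventually hg, h2, nhdsWithin_le_nhds hA.eventually] with x h4 h5 h6
  exact (LD.comp_fun (g := fun y => B (g y)) (LD.comp_fun h5 h4) h6).contDiffAt

end man

end Pool.Agent.H816.Sob
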