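import Pool.Agent.H816.Ph30
import Pool.Agent.H816.Sob8

/-!
# Translations and Sobolev classes, and points of length zero
-/

set_option autoImplicit false
set_option linter.unusedSectionVars false

open Set Filter Topology Metric Function MeasureTheory
open scoped Manifold ContDiff ENNReal

noncomputable section

namespace Pool.Agent.H816.Sw

open Pool.Agent.Y522 Pool.Agent.H816 Pool.Agent.H816.Ph

section shift

variable {E F : Type*} [NormedAddCommGroup E] [InnerProductSpace ℝ E] [FiniteDimensional ℝ E]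
  [MeasurableSpace E] [BorelSpace E] [NormedAddCommGroup F] [NormedSpace ℝ F]

theorem W2_shift {q : ℝ≥0∞} {G : E → F} (h : Sob.W2 q G) :
    ∀ᶠ z in 𝓝 (0 : E), Sob.W2 q fun w => G (w + z) := by
  obtain ⟨ρ, H, hρ, h1, h2⟩ := h
  filter_upwards [ball_mem_nhds (0 : E) (show 0 < ρ / 2 by positivity)] with z hz
  rw [mem_ball_zero_iff] at hz
  have hsub : ball (0 : E) (ρ / 2) ⊆ (fun w => w + z) ⁻¹' ball 0 ρ := by
    intro w hw
    rw [mem_ball_zero_iff] at hw
    show w + z ∈ ball 0 ρ
    rw [mem_ball_zero_iff]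
    have := norm_add_le w z
    linarith
  refine ⟨ρ / 2, fun w => H (w + z), by positivity, fun v w' => ?_, ?_⟩
  · have hmp : MeasurePreserving (fun w : E => w + z)
        (volume.restrict ((fun w => w + z) ⁻¹' ball 0 ρ)) (volume.restrict (ball 0 ρ)) :=
      (measurePreserving_add_right volume z).restrict_preimage measurableSet_ball
    exact ((h1 v w').comp_measurePreserving hmp).mono_measure
      (Measure.restrict_mono hsub le_rfl)
  · intro φ a1 a2 a3 v w'
    obtain ⟨ψ, hψ⟩ : ∃ ψ : E → ℝ, ψ = fun y => φ (y + -z) := ⟨_, rfl⟩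
    have e0 : ∀ x, ψ (x + z) = φ x := fun x => by
      rw [hψ]
      show φ (x + z + -z) = φ x
      rw [add_neg_cancel_right]
    have e1 : fderiv ℝ ψ = fun y => fderiv ℝ φ (y + -z) := by
      funext y
      rw [hψ]
      exact fderiv_comp_add_right (-z)
    have e2 : ∀ x, fderiv ℝ (fderiv ℝ ψ) (x + z) = fderiv ℝ (fderiv ℝ φ) x := fun x => by
      rw [e1, fderiv_comp_add_right (-z), add_neg_cancel_right]
    have hψ1 : ContDiff ℝ ∞ ψ := by
      rw [hψ]
      exact a1.comp (contDiff_id.add contDiff_const)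
    have hψ2 : HasCompactSupport ψ := by
      rw [hψ]
      exact a2.comp_homeomorph (Homeomorph.addRight (-z))
    have hψ3 : tsupport ψ ⊆ ball 0 ρ := by
      have h3 : tsupport ψ ⊆ (fun y => y + -z) ⁻¹' tsupport φ := by
        refine closure_minimal ?_ ((isClosed_tsupport φ).preimage (by fun_prop))
        intro y hy
        rw [mem_support, hψ] at hy
        exact subset_tsupport φ hy
      intro y hy
      have h4 := a3 (h3 hy)
      rw [mem_ball_zero_iff] at h4 ⊢
      have h5 := norm_add_le (y + -z) z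
      rw [neg_add_cancel_right] at h5
      linarith
    have h4 := h2 ψ hψ1 hψ2 hψ3 v w'
    rw [← integral_add_right_eq_self _ z, ← integral_add_right_eq_self (fun x => ψ x • H x v w') z]
      at h4
    simp only [e0, e2] at h4
    exact h4

/-- the bi-Lipschitz condition near `0` holds near nearby points -/
theorem bl_shift {G : E → F} {K : ℝ} (h : ∀ᶠ z in 𝓝 (0 : E × E),
    ‖G z.1 - G z.2‖ ≤ K * ‖z.1 - z.2‖ ∧ ‖z.1 - z.2‖ ≤ K * ‖G z.1 - G z.2‖) :
    ∀ᶠ z in 𝓝 (0 : E), ∀ᶠ w in 𝓝 (0 : E × E),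
      ‖G (w.1 + z) - G (w.2 + z)‖ ≤ K * ‖w.1 - w.2‖ ∧
        ‖w.1 - w.2‖ ≤ K * ‖G (w.1 + z) - G (w.2 + z)‖ := by
  obtain ⟨ρ, hρ, h1⟩ := Metric.eventually_nhds_iff_ball.1 h
  filter_upwards [ball_mem_nhds (0 : E) (show 0 < ρ / 2 by positivity)] with z hz
  rw [mem_ball_zero_iff] at hz
  filter_upwards [ball_mem_nhds (0 : E × E) (show 0 < ρ / 2 by positivity)] with w hw
  rw [mem_ball_zero_iff, Prod.norm_def, max_lt_iff] at hw
  have h2 := h1 (w.1 + z, w.2 + z) (by
    rw [mem_ball_zero_iff, Prod.norm_def, max_lt_iff]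
    have h3 := norm_add_le w.1 z
    have h4 := norm_add_le w.2 z
    exact ⟨lt_of_le_of_lt h3 (by linarith), lt_of_le_of_lt h4 (by linarith)⟩)
  simpa using h2

end shift

end Pool.Agent.H816.Sw
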