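import Pool.Agent.H816.Ph2
import Pool.Agent.H816.Ph3

/-!
# One step: making a homeomorphism smooth off a point in a ball
-/

set_option autoImplicit false

open Set Filter Topology Metric Function MeasureTheory Module
open scoped Manifold ContDiff NNReal

noncomputable section

namespace Pool.Agent.H816.Ph

open Pool.Agent.Y522 Pool.Agent.Y784.SH Pool.Agent.H816 Pool.Agent.Q169.AA

section glue

variable {n : ℕ}

/-- gluing the conditions for two sets of centers -/
theorem AR.glue {R S : Set (E n)} {G G0 : E n → E n} {z : E n} (h : AR n R G z)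
    (h0 : AR n S G0 z) (he : ∀ᶠ p in 𝓝 z, p ∉ R → G p = G0 p) : AR n (R ∪ S) G z := by
  obtain ⟨c1, hc1, h1⟩ := h.thick
  obtain ⟨c2, hc2, h2⟩ := h0
  obtain ⟨r0, hr0, h3⟩ := Metric.eventually_nhds_iff_ball.1 he
  refine ⟨min c1 c2, lt_min hc1 hc2, fun ε hε => ?_⟩
  obtain ⟨r1, hr1, h4⟩ := h1 1 zero_le_one ε hε
  obtain ⟨r2, hr2, h5⟩ := h2 ε hε
  refine ⟨min (min r1 r2) (r0 / 3), by positivity, fun p hpR hp s hs hsr => ?_⟩
  have a1 : min (min r1 r2) (r0 / 3) ≤ r1 := (min_le_left _ _).trans (min_le_left _ _)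
  have a2 : min (min r1 r2) (r0 / 3) ≤ r2 := (min_le_left _ _).trans (min_le_right _ _)
  have a3 : min (min r1 r2) (r0 / 3) ≤ r0 / 3 := min_le_right _ _
  by_cases hpp : ∃ p' ∈ R, ‖p - p'‖ ≤ 1 * s
  · exact aff_mono_c (h4 p (hp.trans a1) s hs (hsr.trans a1) hpp) (min_le_left _ _)
  · have hnot : ∀ q, ‖q - p‖ ≤ s → q ∉ R := fun q hq hqR =>
      hpp ⟨q, hqR, by rw [norm_sub_rev, one_mul]; exact hq⟩
    have hpS : p ∈ S := by
      rcases hpR with h6 | h6
      · exact absurd h6 (hnot p (by rw [sub_self, norm_zero]; exact hs.le))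
      · exact h6
    have heq : ∀ q, ‖q - p‖ ≤ s → G q = G0 q := fun q hq => by
      refine h3 q ?_ (hnot q hq)
      rw [mem_ball, dist_eq_norm]
      have e : q - z = (q - p) + (p - z) := by abel
      rw [e]
      refine (norm_add_le _ _).trans_lt ?_
      linarith
    obtain ⟨m, L, hm, hL, hA⟩ := aff_mono_c (h5 p hpS (hp.trans a2) s hs (hsr.trans a2))
      (min_le_right c1 c2)
    refine ⟨m, L, hm, hL, fun q hq => ?_⟩
    rw [heq q hq, heq p (by rw [sub_self, norm_zero]; exact hs.le)]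
    exact hA q hq

theorem ARM.glue {X Y : Type} [TopologicalSpace X] [ChartedSpace (E n) X] [TopologicalSpace Y]
    [ChartedSpace (E n) Y] {R S : Set X} {f f0 : X → Y} {x : X} (h : ARM n R f x)
    (h0 : ARM n S f0 x) (he : ∀ᶠ p in 𝓝 x, p ∉ R → f p = f0 p) (hx : f x = f0 x) :
    ARM n (R ∪ S) f x := by
  intro B hB A z hA hz
  refine AR.glue (h B hB A z hA hz) (h0 B (by rw [← hx]; exact hB) A z hA hz) ?_
  have h3 := hA.continuousAt
  unfold ContinuousAt at h3
  rw [hz] at h3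
  filter_upwards [h3.eventually he] with p hp hpR
  show B (f (A p)) = B (f0 (A p))
  rw [hp hpR]

end glue

section cell

variable {n : ℕ}

/-- the diffeomorphism of the space onto a ball -/
def sg (t : ℝ) (z : E n) : E n := (Real.sqrt 2 * t) • ub z

theorem ub_eq (z : E n) : ub z = (Real.sqrt (1 + ‖z‖ ^ 2))⁻¹ • z := by
  unfold ub
  simp [OpenPartialHomeomorph.univUnitBall]

theorem ub_norm (z : E n) : ‖ub z‖ = ‖z‖ / Real.sqrt (1 + ‖z‖ ^ 2) := by
  rw [ub_eq, norm_smul, norm_inv, Real.norm_of_nonneg (Real.sqrt_nonneg _)]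
  field_simp

theorem ub_norm_lt (z : E n) : Real.sqrt 2 * ‖ub z‖ < 1 ↔ ‖z‖ < 1 := by
  have h1 : 0 < Real.sqrt (1 + ‖z‖ ^ 2) := Real.sqrt_pos.2 (by positivity)
  rw [ub_norm, ← mul_div_assoc, div_lt_one h1]
  have h2 : Real.sqrt 2 * ‖z‖ = Real.sqrt (2 * ‖z‖ ^ 2) := by
    rw [Real.sqrt_mul (by norm_num), Real.sqrt_sq (norm_nonneg _)]
  rw [h2, Real.sqrt_lt_sqrt_iff (by positivity)]
  constructor
  · intro h
    have : ‖z‖ ^ 2 < 1 := by linarith
    exact (sq_lt_one_iff₀ (norm_nonneg _)).1 this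
  · intro h
    have : ‖z‖ ^ 2 < 1 := (sq_lt_one_iff₀ (norm_nonneg _)).2 h
    linarith

theorem ub_norm_eq {z : E n} (hz : ‖z‖ = 1) : Real.sqrt 2 * ‖ub z‖ = 1 := by
  rw [ub_norm, hz]
  norm_num

theorem sg_norm {t : ℝ} (ht : 0 < t) (z : E n) : ‖sg t z‖ = t * (Real.sqrt 2 * ‖ub z‖) := by
  unfold sg
  rw [norm_smul, Real.norm_of_nonneg (by positivity)]
  ring

theorem sg_lt {t : ℝ} (ht : 0 < t) (z : E n) : ‖sg t z‖ < t ↔ ‖z‖ < 1 := by
  rw [sg_norm ht, ← ub_norm_lt]
  exact mul_lt_iff_lt_one_right ht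

theorem sg_eq {t : ℝ} (ht : 0 < t) {z : E n} (hz : ‖z‖ = 1) : ‖sg t z‖ = t := by
  rw [sg_norm ht, ub_norm_eq hz, mul_one]

theorem sg_lt_two {t : ℝ} (ht : 0 < t) (ht1 : t < 1) (z : E n) : ‖sg t z‖ < 2 := by
  rw [sg_norm ht]
  have h1 : ‖ub z‖ < 1 := mem_ball_zero_iff.1 (ub_mem z)
  have h2 : Real.sqrt 2 < 2 := by
    rw [Real.sqrt_lt' (by norm_num)]
    norm_num
  have h3 : 0 ≤ ‖ub z‖ := norm_nonneg _
  have h4 : 0 ≤ Real.sqrt 2 := Real.sqrt_nonneg _
  have h5 : Real.sqrt 2 * ‖ub z‖ ≤ Real.sqrt 2 * 1 := mul_le_mul_of_nonneg_left h1.le h4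
  nlinarith

theorem sg_inj {t : ℝ} (ht : 0 < t) : Injective (sg t : E n → E n) := fun a b hab => by
  have h2 : Real.sqrt 2 * t ≠ 0 := by positivity
  exact ub_inj (smul_right_injective _ h2 hab)

theorem sg_LD {t : ℝ} (ht : 0 < t) (z : E n) : LD n (sg t : E n → E n) z := by
  have h2 : Real.sqrt 2 * t ≠ 0 := by positivity
  exact LD.comp_fun (g := fun y : E n => (Real.sqrt 2 * t) • y) (f := ub)
    (LD_linear (ContinuousLinearEquiv.smulLeft (Units.mk0 _ h2)) _) (ub_LD z)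

theorem sg_surj {t : ℝ} (ht : 0 < t) {w : E n} (hw : ‖w‖ < t) : ∃ z, ‖z‖ < 1 ∧ sg t z = w := by
  have h2 : Real.sqrt 2 * t ≠ 0 := by positivity
  have h1 : 1 < Real.sqrt 2 := by
    rw [Real.lt_sqrt (by norm_num)]
    norm_num
  have h3 : (Real.sqrt 2 * t)⁻¹ • w ∈ ball (0 : E n) 1 := by
    rw [mem_ball_zero_iff, norm_smul, norm_inv, Real.norm_of_nonneg (by positivity),
      inv_mul_lt_iff₀ (by positivity)]
    nlinarith
  obtain ⟨z, hz⟩ : ∃ z, ub z = (Real.sqrt 2 * t)⁻¹ • w :=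
    ⟨OpenPartialHomeomorph.univUnitBall.symm ((Real.sqrt 2 * t)⁻¹ • w),
      OpenPartialHomeomorph.univUnitBall.right_inv h3⟩
  have h4 : sg t z = w := by
    unfold sg
    rw [hz, smul_smul, mul_inv_cancel₀ h2, one_smul]
  refine ⟨z, ?_, h4⟩
  rw [← sg_lt ht, h4]
  exact hw

end cell

variable {m : ℕ}

/-- the state of the construction: the map `f` is a homeomorphism, equal to `f0` off the closed set
`R`, and asymptotically affine on balls with centers in `R`, off the finite set `P` of isolated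
singular points -/
structure St {m : ℕ} {X Y : Type} [TopologicalSpace X] [ChartedSpace (E (m + 1)) X]
    [TopologicalSpace Y] [ChartedSpace (E (m + 1)) Y] (f0 : X → Y) (R P : Set X) (f : X → Y) :
    Prop where
  homeo : IsHomeomorph f
  rc : IsClosed R
  pf : P.Finite
  off : ∀ x, x ∉ R → f x = f0 x
  ar : ∀ x ∈ R, x ∉ P → ARM (m + 1) R f x
  pl : ∀ p ∈ P, ∀ᶠ x in 𝓝[≠] p, LD (m + 1) f x

variable {X Y : Type} [TopologicalSpace X] [T2Space X]
  [ChartedSpace (E (m + 1)) X] [TopologicalSpace Y] [T2Space Y]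
  [ChartedSpace (E (m + 1)) Y]

/-- **One step.** -/
theorem St.step (hm : 2 ≤ m) {f0 f : X → Y} {R P : Set X} (H : St (m := m) f0 R P f)
    (hf0 : Continuous f0) {A : E (m + 1) → X}
    (hAi : InjOn A (closedBall 0 2)) (hAd : ∀ z ∈ closedBall (0 : E (m + 1)) 2, LD (m + 1) A z)
    {d : E (m + 1) → Y} (hdi : Injective d) (hdd : ∀ z, LD (m + 1) d z)
    (hfd : ∀ z ∈ closedBall (0 : E (m + 1)) 2, f (A z) ∈ range d)
    (hgen : ∀ z : E (m + 1), ‖z‖ = 1 → ARM (m + 1) (A '' sphere 0 1) f0 (A z))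
    (hP : ∀ z : E (m + 1), ‖z‖ = 1 → A z ∉ P) :
    ∃ (P' : Set X) (f' : X → Y), St (m := m) f0 (R ∪ A '' closedBall 0 1) P' f' ∧
      (∀ x, x ∉ A '' ball 0 1 → f' x = f x) ∧
      (∀ x ∈ A '' closedBall 0 1, f' x ∈ f '' (A '' closedBall 0 1)) := by
  have hfc := H.homeo.continuous
  have hA2 : ∀ z : E (m + 1), ‖z‖ ≤ 2 → LD (m + 1) A z := fun z hz =>
    hAd z (mem_closedBall_zero_iff.2 hz)
  -- the condition along the sphere
  have hR2 : ∀ z : E (m + 1), ‖z‖ = 1 → ARM (m + 1) (R ∪ A '' sphere 0 1) f (A z) := by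
    intro z hz
    by_cases hx : A z ∈ R
    · have h1 := H.ar _ hx (hP z hz)
      by_cases he : f (A z) = f0 (A z)
      · exact ARM.glue h1 (hgen z hz) (Eventually.of_forall fun p => H.off p) he
      · have h2 : ∀ᶠ p in 𝓝 (A z), f p ≠ f0 p :=
          (hfc.continuousAt.prodMk hf0.continuousAt).eventually
            (isOpen_ne_fun continuous_fst continuous_snd |>.mem_nhds he)
        refine h1.mono ?_
        filter_upwards [h2] with p hp _
        by_contra hcon
        exact hp (H.off p hcon)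
    · have h2 : ∀ᶠ p in 𝓝 (A z), p ∉ R := H.rc.isOpen_compl.mem_nhds hx
      refine ARM.mono ((hgen z hz).congr (h2.mono fun p hp => H.off p hp)) ?_
      filter_upwards [h2] with p hp hpR
      exact hpR.resolve_left hp
  obtain ⟨h, r, hr0, hr1, e1, e2, e3, e4, e5, e6⟩ := collar hfc H.homeo.injective
    H.homeo.isClosedMap hAi hAd hdi hdd hfd (R := R ∪ A '' sphere 0 1)
    (fun z hz => Or.inr ⟨z, mem_sphere_zero_iff_norm.2 hz, rfl⟩) hR2
  obtain ⟨t, ht⟩ : ∃ t : ℝ, t = (r + 1) / 2 := ⟨_, rfl⟩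
  have ht0 : 0 < t := by linarith
  have ht1 : t < 1 := by linarith
  have hrt : r < t := by linarith
  obtain ⟨c, hc⟩ : ∃ c : E (m + 1) → X, c = fun z => A (sg t z) := ⟨_, rfl⟩
  have hcb : c '' ball 0 1 = A '' ball 0 t := by
    rw [hc]
    ext x
    constructor
    · rintro ⟨z, hz, rfl⟩
      exact ⟨_, mem_ball_zero_iff.2 ((sg_lt ht0 z).2 (mem_ball_zero_iff.1 hz)), rfl⟩
    · rintro ⟨w, hw, rfl⟩
      obtain ⟨z, hz, hzw⟩ := sg_surj ht0 (mem_ball_zero_iff.1 hw)
      exact ⟨z, mem_ball_zero_iff.2 hz, by simp only [hzw]⟩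
  have hsubt : A '' ball (0 : E (m + 1)) t ⊆ A '' ball 0 1 := image_mono (ball_subset_ball ht1.le)
  have hcl : ∀ ρ : ℝ, ρ ≤ 2 → IsClosed (A '' closedBall (0 : E (m + 1)) ρ) := by
    intro ρ hρ
    apply IsCompact.isClosed
    apply (isCompact_closedBall (0 : E (m + 1)) ρ).image_of_continuousOn
    intro z hz
    exact (hAd z (closedBall_subset_closedBall hρ hz)).continuousAt.continuousWithinAt
  have hsplit : ∀ x, x ∉ A '' ball (0 : E (m + 1)) t → x ∉ A '' closedBall (0 : E (m + 1)) r := by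
    intro x hx h1
    exact hx (image_mono (closedBall_subset_ball hrt) h1)
  have HF : Fill (m := m) h c d (A '' closedBall 0 r)ᶜ :=
    { ci := by
        rw [hc]
        intro a b hab
        exact sg_inj ht0 (hAi (mem_closedBall_zero_iff.2 (sg_lt_two ht0 ht1 a).le)
          (mem_closedBall_zero_iff.2 (sg_lt_two ht0 ht1 b).le) hab)
      cd := fun z => by
        rw [hc]
        exact LD.comp_fun (g := A) (hA2 _ (sg_lt_two ht0 ht1 z).le) (sg_LD ht0 z)
      di := hdi
      dd := hdd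
      uo := (hcl r (by linarith)).isOpen_compl
      hU := fun x hx => hsplit x (by rwa [hcb] at hx)
      hc := fun x hx => e2 x hx
      hi := e3
      ld := fun z hz => by
        rw [hc]
        have := sg_eq ht0 hz
        exact e4 _ (by rw [this]; exact hrt) (by rw [this]; exact ht1)
      im := fun z hz => by
        rw [hc]
        have := sg_eq ht0 hz
        exact e6 _ (by rw [this]; exact ht1.le)
      cov := fun y hy => by
        obtain ⟨x, rfl⟩ := H.homeo.surjective y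
        have hx2 : x ∉ A '' ball (0 : E (m + 1)) 1 := by
          rintro ⟨z, hz, rfl⟩
          exact hy (hfd z (ball_subset_closedBall (ball_subset_ball (by norm_num) hz)))
        exact ⟨x, fun h1 => hx2 (hsubt (by rwa [hcb] at h1)), e1 x hx2⟩ }
  have hbo : ∀ ρ : ℝ, ρ ≤ 2 → IsOpen (A '' ball (0 : E (m + 1)) ρ) := by
    intro ρ hρ
    rw [isOpen_iff_mem_nhds]
    rintro _ ⟨x, hx, rfl⟩
    exact (hA2 x ((mem_ball_zero_iff.1 hx).le.trans hρ)).image_mem_nhds (isOpen_ball.mem_nhds hx)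
  have hKc : IsCompact (A '' (closedBall (0 : E (m + 1)) 1 \ ball 0 t)) := by
    refine ((isCompact_closedBall (0 : E (m + 1)) 1).diff isOpen_ball).image_of_continuousOn ?_
    intro z hz
    exact (hA2 z ((mem_closedBall_zero_iff.1 hz.1).trans (by norm_num))).continuousAt.continuousWithinAt
  have hKt : ∀ x ∈ A '' (closedBall (0 : E (m + 1)) 1 \ ball 0 t), x ∉ A '' ball 0 t := by
    rintro _ ⟨z, hz, rfl⟩ ⟨w, hw, hwz⟩
    have h1 : w = z := hAi (ball_subset_closedBall (ball_subset_ball (by linarith) hw))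
      (closedBall_subset_closedBall (by norm_num) hz.1) hwz
    rw [h1] at hw
    exact hz.2 hw
  have hcl' : IsClosed (h '' (c '' ball 0 1)ᶜ) := by
    have h1 : h '' (c '' ball 0 1)ᶜ = f '' (A '' ball 0 1)ᶜ ∪
        h '' (A '' (closedBall (0 : E (m + 1)) 1 \ ball 0 t)) := by
      rw [hcb]
      apply Subset.antisymm
      · rintro _ ⟨x, hx, rfl⟩
        by_cases hx1 : x ∈ A '' ball 0 1
        · obtain ⟨z, hz, rfl⟩ := hx1
          exact Or.inr ⟨_, ⟨z, ⟨ball_subset_closedBall hz, fun h2 => hx ⟨z, h2, rfl⟩⟩, rfl⟩, rfl⟩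
        · exact Or.inl ⟨x, hx1, (e1 x hx1).symm⟩
      · rintro _ (⟨x, hx, rfl⟩ | ⟨x, hx, rfl⟩)
        · exact ⟨x, fun h2 => hx (hsubt h2), e1 x hx⟩
        · exact ⟨x, hKt x hx, rfl⟩
    rw [h1]
    refine IsClosed.union (H.homeo.isClosedMap _ (hbo 1 (by norm_num)).isClosed_compl) ?_
    refine (hKc.image_of_continuousOn fun x hx => ?_).isClosed
    exact (e2 x (hsplit x (hKt x hx))).continuousWithinAt
  have hkc' : IsCompact (h '' (c '' closedBall 0 1)ᶜ)ᶜ := by
    have h1 : IsOpen (h '' (c '' closedBall 0 1)ᶜ) :=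
      HF.op HF.bc.isOpen_compl fun x hx => HF.hU x fun h2 => hx (image_mono ball_subset_closedBall h2)
    have h2 : IsCompact (f '' (A '' closedBall 0 1)) := by
      refine IsCompact.image ?_ hfc
      apply (isCompact_closedBall (0 : E (m + 1)) 1).image_of_continuousOn
      intro z hz
      exact (hA2 z ((mem_closedBall_zero_iff.1 hz).trans (by norm_num))).continuousAt.continuousWithinAt
    refine h2.of_isClosed_subset h1.isClosed_compl fun y hy => ?_
    obtain ⟨x, rfl⟩ := H.homeo.surjective y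
    by_contra hcon
    have hx1 : x ∉ A '' closedBall 0 1 := fun h3 => hcon ⟨x, h3, rfl⟩
    refine hy ⟨x, fun h3 => hx1 ?_, e1 x fun h3 => hx1 (image_mono ball_subset_closedBall h3)⟩
    obtain ⟨z, hz, rfl⟩ := h3
    rw [hc]
    refine ⟨sg t z, ?_, rfl⟩
    rw [mem_closedBall_zero_iff] at hz ⊢
    rcases hz.lt_or_eq with h4 | h4
    · exact ((sg_lt ht0 z).2 h4).le.trans ht1.le
    · rw [sg_eq ht0 h4]
      exact ht1.le
  obtain ⟨g, b, g1, g2, g3, g4⟩ := HF.fill' hm hcl' hkc'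
  rw [hcb] at g2 g3 g4
  have hgoff : ∀ x, x ∉ A '' ball (0 : E (m + 1)) 1 → g x = f x := fun x hx => by
    rw [(g3 x fun h1 => hx (hsubt h1)).self_of_nhds, e1 x hx]
  have hgnear : ∀ x, x ∉ A '' closedBall (0 : E (m + 1)) 1 → g =ᶠ[𝓝 x] f := fun x hx => by
    filter_upwards [(hcl 1 (by norm_num)).isOpen_compl.mem_nhds hx] with y hy
    exact hgoff y fun h1 => hy (image_mono ball_subset_closedBall h1)
  -- local diffeomorphism in the open ball off `b`
  have hLDg : ∀ x ∈ A '' ball (0 : E (m + 1)) 1, x ≠ b → LD (m + 1) g x := by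
    intro x hx hxb
    by_cases hxt : x ∈ A '' ball (0 : E (m + 1)) t
    · exact g4 x hxt hxb
    · refine LD.congr ?_ (g3 x hxt)
      obtain ⟨z, hz, rfl⟩ := hx
      refine e4 z ?_ (mem_ball_zero_iff.1 hz)
      by_contra hcon
      exact hsplit _ hxt ⟨z, mem_closedBall_zero_iff.2 (not_lt.1 hcon), rfl⟩
  refine ⟨P ∪ {b}, g, ⟨g1, H.rc.union (hcl 1 (by norm_num)), H.pf.union (finite_singleton b), ?_,
    ?_, ?_⟩, hgoff, ?_⟩
  · intro x hx
    rw [mem_union, not_or] at hx
    rw [hgoff x fun h1 => hx.2 (image_mono ball_subset_closedBall h1), H.off x hx.1]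
  · intro x hx hxP
    rw [mem_union, not_or, mem_singleton_iff] at hxP
    by_cases hxb : x ∈ A '' ball (0 : E (m + 1)) 1
    · exact ARM_of_LD (hLDg x hxb hxP.2)
    · by_cases hxc : x ∈ A '' closedBall (0 : E (m + 1)) 1
      · obtain ⟨z, hz, rfl⟩ := hxc
        have hz1 : ‖z‖ = 1 := by
          refine le_antisymm (mem_closedBall_zero_iff.1 hz) (not_lt.1 fun h4 => ?_)
          exact hxb ⟨z, mem_ball_zero_iff.2 h4, rfl⟩
        refine ARM.mono ((e5 z hz1).congr (g3 _ fun h1 => hxb (hsubt h1))) ?_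
        refine Eventually.of_forall fun p hp => ?_
        rcases hp with hp | hp
        · exact Or.inl (Or.inl hp)
        · exact Or.inr hp
      · have hxR : x ∈ R := hx.resolve_right hxc
        refine ARM.mono ((H.ar x hxR hxP.1).congr (hgnear x hxc)) ?_
        filter_upwards [(hcl 1 (by norm_num)).isOpen_compl.mem_nhds hxc] with p hp hpR
        exact hpR.resolve_right hp
  · intro p hp
    by_cases hpb : p ∈ A '' ball (0 : E (m + 1)) 1
    · have h1 : ∀ᶠ x in 𝓝[≠] p, x ∈ A '' ball (0 : E (m + 1)) 1 :=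
        nhdsWithin_le_nhds ((hbo 1 (by norm_num)).mem_nhds hpb)
      have h2 : ∀ᶠ x in 𝓝[≠] p, x ≠ b := by
        by_cases h3 : p = b
        · rw [← h3]
          exact self_mem_nhdsWithin
        · exact nhdsWithin_le_nhds (isOpen_ne.mem_nhds h3)
      filter_upwards [h1, h2] with x hx1 hx2 using hLDg x hx1 hx2
    · have hpP : p ∈ P := by
        rcases hp with h1 | h1
        · exact h1
        · rw [mem_singleton_iff] at h1
          rw [h1] at hpb
          exact absurd (hsubt g2) hpb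
      have hpc : p ∉ A '' closedBall (0 : E (m + 1)) 1 := by
        rintro ⟨z, hz, rfl⟩
        refine hP z (le_antisymm (mem_closedBall_zero_iff.1 hz) (not_lt.1 fun h4 => ?_)) hpP
        exact hpb ⟨z, mem_ball_zero_iff.2 h4, rfl⟩
      filter_upwards [H.pl p hpP, nhdsWithin_le_nhds (hgnear p hpc).eventuallyEq_nhds] with x h1 h2
      exact LD.congr h1 h2
  · intro x hx
    obtain ⟨y, hy⟩ := H.homeo.surjective (g x)
    refine ⟨y, ?_, hy⟩
    by_contra hcon
    have h1 : g y = f y := hgoff y fun h1 => hcon (image_mono ball_subset_closedBall h1)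
    rw [hy] at h1
    rw [g1.injective h1] at hcon
    exact hcon hx

end Pool.Agent.H816.Ph
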