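import Pool.Agent.H816.Sob3
import Pool.Agent.H816.Ph1

/-!
# Affine approximation on single balls, and on balls with centers in generic spheres
-/

set_option autoImplicit false
set_option linter.unusedSectionVars false

open Set Filter Topology Metric MeasureTheory Module
open scoped ContDiff ENNReal Convolution

noncomputable section

namespace Pool.Agent.H816.Sob

variable {E : Type*} [NormedAddCommGroup E] [InnerProductSpace ℝ E] [FiniteDimensional ℝ E]
  [MeasurableSpace E] [BorelSpace E]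
variable {F : Type*} [NormedAddCommGroup F] [NormedSpace ℝ F] [FiniteDimensional ℝ F]

/-- pointwise bound for the second derivative of a mollified map, by the integral on a ball -/
theorem hess_bound1 {G : E → F} {H : E → E →L[ℝ] E →L[ℝ] F} {h : E → ℝ} {U : Set E}
    (hHh : ∀ y v w, ‖H y v w‖ ≤ h y * ‖v‖ * ‖w‖)
    (hw : WeakHess G H U) {G1 : E → F} (hG1 : LocallyIntegrable G1 volume)
    (hGG : ∀ x ∈ U, G1 x = G x) {x : E} {ε : ℝ} (hε : 0 < ε)
    (hx : closedBall x ε ⊆ U) (hI : IntegrableOn (fun y => ‖h y‖) (closedBall x ε)) :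
    ‖fderiv ℝ (fderiv ℝ (ker ε hε ⋆[ContinuousLinearMap.lsmul ℝ ℝ, volume] G1)) x‖ ≤
      2 ^ finrank ℝ E / (ε ^ finrank ℝ E * volume.real (ball (0 : E) 1)) *
        ∫ y in closedBall x ε, ‖h y‖ := by
  set n := finrank ℝ E with hndef
  set V := volume.real (ball (0 : E) 1) with hV
  have hVpos : 0 < V := vol_pos
  have hvol0 : volume.real (closedBall (0 : E) ε) = ε ^ n * V := vol_ball 0 hε.le
  have hM : 0 ≤ 2 ^ n / (ε ^ n * V) := by positivity
  have hJ : 0 ≤ ∫ y in closedBall x ε, ‖h y‖ := integral_nonneg fun _ => norm_nonneg _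
  have hnonneg : 0 ≤ 2 ^ n / (ε ^ n * V) * ∫ y in closedBall x ε, ‖h y‖ := mul_nonneg hM hJ
  have key : ∀ v w, ‖fderiv ℝ (fderiv ℝ (ker ε hε ⋆[ContinuousLinearMap.lsmul ℝ ℝ, volume] G1))
      x v w‖ ≤ (2 ^ n / (ε ^ n * V) * ∫ y in closedBall x ε, ‖h y‖) * ‖v‖ * ‖w‖ := by
    intro v w
    rw [hess_conv hw hε hG1 hGG hx v w]
    have h1 : ‖∫ y, ker ε hε (x - y) • H y v w‖ ≤
        ∫ y, (closedBall x ε).indicator (fun y => 2 ^ n / (ε ^ n * V) * ‖v‖ * ‖w‖ * ‖h y‖) y := by
      refine norm_integral_le_of_norm_le ?_ (Eventually.of_forall fun y => ?_)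
      · exact (integrable_indicator_iff measurableSet_closedBall).2 (hI.const_mul _)
      · by_cases hy : y ∈ closedBall x ε
        · rw [indicator_of_mem hy, norm_smul, Real.norm_eq_abs, abs_of_nonneg (ker_nonneg hε _)]
          have h2 := ker_le hε (x - y)
          rw [hvol0] at h2
          have h3 : ‖H y v w‖ ≤ ‖h y‖ * ‖v‖ * ‖w‖ :=
            (hHh y v w).trans (mul_le_mul_of_nonneg_right (mul_le_mul_of_nonneg_right
              (le_abs_self _) (norm_nonneg _)) (norm_nonneg _))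
          calc ker ε hε (x - y) * ‖H y v w‖ ≤ 2 ^ n / (ε ^ n * V) * (‖h y‖ * ‖v‖ * ‖w‖) :=
                mul_le_mul h2 h3 (norm_nonneg _) hM
            _ = _ := by ring
        · rw [indicator_of_notMem hy]
          have h2 : x - y ∉ Function.support (ker (E := E) ε hε) := by
            rw [ker_support, mem_ball_zero_iff]
            intro h3
            apply hy
            rw [mem_closedBall, dist_eq_norm, ← norm_neg, neg_sub]
            exact h3.le
          rw [Function.notMem_support.1 h2, zero_smul, norm_zero]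
    refine h1.trans ?_
    rw [integral_indicator measurableSet_closedBall, integral_const_mul]
    exact le_of_eq (by ring)
  refine ContinuousLinearMap.opNorm_le_bound _ hnonneg fun v => ?_
  refine ContinuousLinearMap.opNorm_le_bound _ (by positivity) fun w => ?_
  exact key v w

/-- **Affine approximation on a ball.** -/
theorem affine_at (hn : 1 ≤ finrank ℝ E) {K δ : ℝ} (hK : 0 ≤ K) (hδ : 0 < δ) :
    ∃ θ : ℝ, 0 < θ ∧ ∀ (G : E → F) (H : E → E →L[ℝ] E →L[ℝ] F) (h : E → ℝ) (ρ : ℝ), 0 < ρ →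
      (∀ y v w, ‖H y v w‖ ≤ h y * ‖v‖ * ‖w‖) →
      (∀ x ∈ ball (0 : E) ρ, ∀ y ∈ ball (0 : E) ρ, ‖G x - G y‖ ≤ K * ‖x - y‖) →
      WeakHess G H (ball 0 ρ) → ∀ (p : E) (r : ℝ), 0 < r → closedBall p (2 * r) ⊆ ball 0 ρ →
      IntegrableOn (fun y => ‖h y‖) (closedBall p (2 * r)) →
      ∫ y in closedBall p (2 * r), ‖h y‖ ≤ θ * r ^ (finrank ℝ E - 1) →
      ∃ L : E →L[ℝ] F, ∀ q, ‖q - p‖ ≤ r → ‖G q - G p - L (q - p)‖ ≤ δ * r := by
  have hVpos : 0 < volume.real (ball (0 : E) 1) := vol_pos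
  obtain ⟨n, hndef⟩ : ∃ n, n = finrank ℝ E := ⟨_, rfl⟩
  obtain ⟨V, hVdef⟩ : ∃ V, V = volume.real (ball (0 : E) 1) := ⟨_, rfl⟩
  rw [← hVdef] at hVpos
  -- the parameters
  obtain ⟨s, hs0, hs1, hsK⟩ : ∃ s : ℝ, 0 < s ∧ s ≤ 1 ∧ K * s ≤ δ / 4 := by
    refine ⟨min 1 (δ / (4 * (K + 1))), by positivity, min_le_left _ _, ?_⟩
    calc K * min 1 (δ / (4 * (K + 1))) ≤ (K + 1) * (δ / (4 * (K + 1))) :=
          mul_le_mul (by linarith) (min_le_right _ _) (by positivity) (by positivity)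
      _ = δ / 4 := by field_simp
  refine ⟨δ * s ^ n * V / (2 * 2 ^ n), by positivity, ?_⟩
  intro G H h ρ hρ hHh hG hw p r hr hpr hI hsmall
  rw [← hndef] at hsmall
  -- the extension
  obtain ⟨G1, hG1def⟩ : ∃ G1 : E → F, G1 = (ball (0 : E) ρ).indicator G := ⟨_, rfl⟩
  have hGG : ∀ x ∈ ball (0 : E) ρ, G1 x = G x := fun x hx => by
    rw [hG1def, indicator_of_mem hx]
  have hGc : ContinuousOn G (ball 0 ρ) := by
    intro x hx
    rw [ContinuousWithinAt, tendsto_iff_norm_sub_tendsto_zero]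
    have h1 : Tendsto (fun y => K * ‖y - x‖) (𝓝[ball 0 ρ] x) (𝓝 0) := by
      have h2 : Tendsto (fun y : E => K * ‖y - x‖) (𝓝 x) (𝓝 (K * ‖x - x‖)) :=
        (continuous_const.mul (continuous_id.sub continuous_const).norm).tendsto x
      rw [sub_self, norm_zero, mul_zero] at h2
      exact h2.mono_left nhdsWithin_le_nhds
    refine squeeze_zero' (Eventually.of_forall fun _ => norm_nonneg _) ?_ h1
    filter_upwards [self_mem_nhdsWithin] with y hy
    exact hG y hy x hx
  have h0mem : (0 : E) ∈ ball (0 : E) ρ := mem_ball_self hρ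
  have hG1 : Integrable G1 volume := by
    rw [hG1def, integrable_indicator_iff measurableSet_ball]
    refine ⟨hGc.aestronglyMeasurable measurableSet_ball,
      HasFiniteIntegral.restrict_of_bounded (‖G 0‖ + K * ρ) measure_ball_lt_top ?_⟩
    filter_upwards [ae_restrict_mem measurableSet_ball] with x hx
    have h1 := hG x hx 0 h0mem
    have h2 : ‖G x‖ ≤ ‖G 0‖ + ‖G x - G 0‖ := by
      have := norm_add_le (G 0) (G x - G 0)
      rwa [add_sub_cancel] at this
    rw [sub_zero] at h1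
    have h3 : ‖x‖ ≤ ρ := (mem_ball_zero_iff.1 hx).le
    nlinarith
  have hG1l : LocallyIntegrable G1 volume := hG1.locallyIntegrable
  have hε : 0 < s * r := by positivity
  have hεr : s * r ≤ r := by nlinarith
  have hsub2 : ∀ x, ‖x - p‖ ≤ r → closedBall x (s * r) ⊆ closedBall p (2 * r) := by
    intro x hx y hy
    rw [mem_closedBall, dist_eq_norm] at hy ⊢
    have h1 : ‖y - p‖ ≤ ‖y - x‖ + ‖x - p‖ := by
      have := norm_add_le (y - x) (x - p)
      rwa [sub_add_sub_cancel] at this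
    linarith
  have hsub : ∀ x, ‖x - p‖ ≤ r → closedBall x (s * r) ⊆ ball (0 : E) ρ := fun x hx =>
    (hsub2 x hx).trans hpr
  obtain ⟨u, hu⟩ : ∃ u : E → F, u = (ker (s * r) hε) ⋆[ContinuousLinearMap.lsmul ℝ ℝ, volume] G1 :=
    ⟨_, rfl⟩
  have hus : ContDiff ℝ ∞ u := by
    rw [hu]
    exact (ker_compact hε).contDiff_convolution_left _ (ker_smooth hε) hG1l
  have hD2 : ∀ x, ‖x - p‖ ≤ r → ‖fderiv ℝ (fderiv ℝ u) x‖ ≤ δ / (2 * r) := by
    intro x hx
    rw [hu]
    have h1 := hess_bound1 hHh hw hG1l hGG hε (hsub x hx) (hI.mono_set (hsub2 x hx))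
    rw [← hndef, ← hVdef] at h1
    refine h1.trans ?_
    have h2 : ∫ y in closedBall x (s * r), ‖h y‖ ≤ ∫ y in closedBall p (2 * r), ‖h y‖ :=
      setIntegral_mono_set hI (Eventually.of_forall fun _ => norm_nonneg _)
        (HasSubset.Subset.eventuallyLE (hsub2 x hx))
    have h3 := h2.trans hsmall
    have h4 : r ^ n = r ^ (n - 1) * r := by
      rw [← pow_succ]
      congr 1
      omega
    calc 2 ^ n / ((s * r) ^ n * V) * ∫ y in closedBall x (s * r), ‖h y‖
        ≤ 2 ^ n / ((s * r) ^ n * V) * (δ * s ^ n * V / (2 * 2 ^ n) * r ^ (n - 1)) :=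
          mul_le_mul_of_nonneg_left h3 (by positivity)
      _ = δ / (2 * r) := by
          rw [mul_pow, h4]
          field_simp
  -- mollification is close
  have hclose : ∀ x, ‖x - p‖ ≤ r → ‖u x - G x‖ ≤ δ * r / 4 := by
    intro x hx
    have hxb : x ∈ ball (0 : E) ρ := hsub x hx (mem_closedBall_self hε.le)
    have h1 : dist (u x) (G1 x) ≤ K * (s * r) := by
      rw [hu]
      refine ContDiffBump.dist_normed_convolution_le hG1.aestronglyMeasurable fun y hy => ?_
      have hy' : ‖y - x‖ < s * r := by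
        have : dist y x < s * r := hy
        rwa [dist_eq_norm] at this
      have hyb : y ∈ ball (0 : E) ρ := hsub x hx (by
        rw [mem_closedBall, dist_eq_norm]
        exact hy'.le)
      rw [hGG y hyb, hGG x hxb, dist_eq_norm]
      exact (hG y hyb x hxb).trans (mul_le_mul_of_nonneg_left hy'.le hK)
    rw [hGG x hxb, dist_eq_norm] at h1
    refine h1.trans ?_
    have := mul_le_mul_of_nonneg_right hsK hr.le
    linarith
  -- Taylor
  have hconv : Convex ℝ (closedBall p r) := convex_closedBall p r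
  have hpmem : p ∈ closedBall p r := mem_closedBall_self hr.le
  have hD1 : ∀ x ∈ closedBall p r, ‖fderiv ℝ u x - fderiv ℝ u p‖ ≤ δ / 2 := by
    intro x hx
    have h1 := hconv.norm_image_sub_le_of_norm_fderiv_le (𝕜 := ℝ) (f := fderiv ℝ u)
      (C := δ / (2 * r)) (fun y _ => (hus.fderiv_right (m := 1) (by norm_cast)).differentiable
        (by simp) y) (fun y hy => hD2 y (by rwa [mem_closedBall, dist_eq_norm] at hy)) hpmem hx
    rw [mem_closedBall, dist_eq_norm] at hx
    refine h1.trans ?_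
    calc δ / (2 * r) * ‖x - p‖ ≤ δ / (2 * r) * r := mul_le_mul_of_nonneg_left hx (by positivity)
      _ = δ / 2 := by field_simp
  refine ⟨fderiv ℝ u p, fun q hq => ?_⟩
  have hqmem : q ∈ closedBall p r := by rwa [mem_closedBall, dist_eq_norm]
  have h1 := hconv.norm_image_sub_le_of_norm_fderiv_le' (𝕜 := ℝ) (f := u) (φ := fderiv ℝ u p)
    (C := δ / 2) (fun y _ => hus.differentiable (by simp) y) hD1 hpmem hqmem
  have h2 : δ / 2 * ‖q - p‖ ≤ δ / 2 * r := mul_le_mul_of_nonneg_left hq (by positivity)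
  have h3 := hclose q hq
  have h4 := hclose p (by rw [sub_self, norm_zero]; exact hr.le)
  have h5 : G q - G p - fderiv ℝ u p (q - p) =
      (u q - u p - fderiv ℝ u p (q - p)) - (u q - G q) + (u p - G p) := by abel
  rw [h5]
  have h6 := norm_add_le (u q - u p - fderiv ℝ u p (q - p) - (u q - G q)) (u p - G p)
  have h7 := norm_sub_le (u q - u p - fderiv ℝ u p (q - p)) (u q - G q)
  linarith

/-- bounds of the linear part -/
theorem aff_of_affine {G : E → E} {K' δ ε : ℝ} (hK1 : 1 ≤ K')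
    (hδ1 : δ ≤ 1 / (2 * K')) (hδ2 : δ ≤ 2 * K' * ε) {p : E} {s : ℝ} (hs : 0 < s)
    (hlip : ∀ q, ‖q - p‖ ≤ s → ‖G q - G p‖ ≤ K' * ‖q - p‖ ∧ ‖q - p‖ ≤ K' * ‖G q - G p‖)
    {L : E →L[ℝ] E} (hL : ∀ q, ‖q - p‖ ≤ s → ‖G q - G p - L (q - p)‖ ≤ δ * s) :
    ∃ (m : ℝ) (L : E →L[ℝ] E), 0 < m ∧
      (∀ v, 1 / (4 * K' ^ 2) * m * ‖v‖ ≤ ‖L v‖ ∧ ‖L v‖ ≤ m * ‖v‖) ∧
      ∀ q, ‖q - p‖ ≤ s → ‖G q - G p - L (q - p)‖ ≤ ε * m * s := by
  have hbd : ∀ v : E, 1 / (4 * K' ^ 2) * (2 * K') * ‖v‖ ≤ ‖L v‖ ∧ ‖L v‖ ≤ 2 * K' * ‖v‖ := by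
    intro v
    by_cases hv : v = 0
    · simp [hv]
    have hvn : 0 < ‖v‖ := norm_pos_iff.2 hv
    -- the vector of length `s`
    obtain ⟨w, hwdef⟩ : ∃ w : E, w = (s / ‖v‖) • v := ⟨_, rfl⟩
    have hwn : ‖w‖ = s := by
      rw [hwdef, norm_smul, Real.norm_eq_abs, abs_of_pos (by positivity)]
      field_simp
    have hq : ‖p + w - p‖ ≤ s := by
      rw [add_sub_cancel_left, hwn]
    have h4 := hL (p + w) hq
    have h5 := hlip (p + w) hq
    rw [add_sub_cancel_left] at h4 h5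
    rw [hwn] at h5
    have hLw : ‖L w‖ = s / ‖v‖ * ‖L v‖ := by
      rw [hwdef, map_smul, norm_smul, Real.norm_eq_abs, abs_of_pos (by positivity)]
    have h6 : ‖L w‖ ≤ ‖G (p + w) - G p‖ + ‖G (p + w) - G p - L w‖ := by
      have := norm_sub_le (G (p + w) - G p) (G (p + w) - G p - L w)
      rwa [sub_sub_cancel] at this
    have h7 : ‖G (p + w) - G p‖ ≤ ‖L w‖ + ‖G (p + w) - G p - L w‖ := by
      have := norm_add_le (L w) (G (p + w) - G p - L w)
      rwa [add_sub_cancel] at this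
    have h8 : ‖G (p + w) - G p - L w‖ ≤ 1 / (2 * K') * s :=
      h4.trans (mul_le_mul_of_nonneg_right hδ1 hs.le)
    have h9 : s / K' ≤ ‖G (p + w) - G p‖ := by
      rw [div_le_iff₀ (by linarith)]
      linarith [h5.2, mul_comm K' ‖G (p + w) - G p‖]
    have h10 : 1 / (2 * K') ≤ 1 := by
      rw [div_le_one (by positivity)]
      linarith
    rw [hLw] at h6 h7
    constructor
    · have h11 : s / (2 * K') ≤ s / ‖v‖ * ‖L v‖ := by
        have : s / K' = s / (2 * K') + 1 / (2 * K') * s := by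
          field_simp
          norm_num
        linarith
      have h12 : 1 / (2 * K') * ‖v‖ ≤ ‖L v‖ := by
        have h13 := mul_le_mul_of_nonneg_left h11 (by positivity : 0 ≤ ‖v‖ / s)
        have e1 : ‖v‖ / s * (s / (2 * K')) = 1 / (2 * K') * ‖v‖ := by field_simp
        have e2 : ‖v‖ / s * (s / ‖v‖ * ‖L v‖) = ‖L v‖ := by field_simp
        rwa [e1, e2] at h13
      have h14 : 1 / (4 * K' ^ 2) * (2 * K') * ‖v‖ = 1 / (2 * K') * ‖v‖ := by
        field_simp
        norm_num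
      rw [h14]
      exact h12
    · have h11 : s / ‖v‖ * ‖L v‖ ≤ 2 * K' * s := by
        have h12 : 1 / (2 * K') * s ≤ K' * s := by
          apply mul_le_mul_of_nonneg_right _ hs.le
          linarith
        linarith [h5.1]
      have h13 := mul_le_mul_of_nonneg_left h11 (by positivity : 0 ≤ ‖v‖ / s)
      have e1 : ‖v‖ / s * (2 * K' * s) = 2 * K' * ‖v‖ := by field_simp
      have e2 : ‖v‖ / s * (s / ‖v‖ * ‖L v‖) = ‖L v‖ := by field_simp
      rwa [e1, e2] at h13
  refine ⟨2 * K', L, by positivity, hbd, fun q hq => ?_⟩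
  have h4 := hL q hq
  have h5 : δ * s ≤ 2 * K' * ε * s := mul_le_mul_of_nonneg_right hδ2 hs.le
  linarith [mul_comm ε (2 * K')]

end Pool.Agent.H816.Sob
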