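import Pool.Agent.H816.Ph5

/-!
# Generic radii
-/

set_option autoImplicit false
set_option linter.unusedSectionVars false

open Set Filter Topology Metric MeasureTheory Module
open scoped ContDiff ENNReal

noncomputable section

namespace Pool.Agent.H816.Sob

variable {E : Type*} [NormedAddCommGroup E] [InnerProductSpace ℝ E] [FiniteDimensional ℝ E]
  [MeasurableSpace E] [BorelSpace E]

/-- for almost all radii, the mass of a thin shell is bounded by the density -/
theorem shell_density (ν : Measure E) [IsFiniteMeasure ν] (a : E) :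
    ∀ᵐ t : ℝ, ∀ c : ℝ, 0 < c →
      (ν.map fun y => ‖y - a‖).rnDeriv volume t < ENNReal.ofReal c →
      ∀ᶠ r in 𝓝[>] (0 : ℝ), ν {y | |‖y - a‖ - t| ≤ r} ≤ ENNReal.ofReal (2 * c * r) := by
  have hm : Measurable fun y : E => ‖y - a‖ := by fun_prop
  have : IsFiniteMeasure (ν.map fun y => ‖y - a‖) := Measure.isFiniteMeasure_map ν _
  filter_upwards [Besicovitch.ae_tendsto_rnDeriv (ν.map fun y => ‖y - a‖) (volume : Measure ℝ)]
    with t ht c hc hlt
  have h1 := ht.eventually (gt_mem_nhds hlt)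
  filter_upwards [h1, self_mem_nhdsWithin] with r hr hr0
  have hr0' : (0 : ℝ) < r := hr0
  have hvol : volume (closedBall t r) = ENNReal.ofReal (2 * r) := Real.volume_closedBall t r
  rw [hvol] at hr
  have h2 : (ν.map fun y => ‖y - a‖) (closedBall t r) = ν {y | |‖y - a‖ - t| ≤ r} := by
    rw [Measure.map_apply hm measurableSet_closedBall]
    congr 1
  rw [h2] at hr
  have h3 : ENNReal.ofReal (2 * r) ≠ 0 := by
    rw [Ne, ENNReal.ofReal_eq_zero, not_le]
    positivity
  have h4 := (ENNReal.div_le_iff h3 ENNReal.ofReal_ne_top).1 hr.le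
  refine h4.trans (le_of_eq ?_)
  rw [← ENNReal.ofReal_mul hc.le]
  congr 1
  ring

/-- for almost all radii, the mass of the large values in thin shells is small -/
theorem generic_shell (μ : Measure E) [IsFiniteMeasure μ] {k : E → ℝ} (hk : Measurable k) (a : E) :
    ∀ᵐ t : ℝ, ∀ c : ℝ, 0 < c → ∃ M : ℕ, ∀ᶠ r in 𝓝[>] (0 : ℝ),
      μ ({y | (M : ℝ) < k y} ∩ {y | |‖y - a‖ - t| ≤ r}) ≤ ENNReal.ofReal (c * r) := by
  have hS : ∀ M : ℕ, MeasurableSet {y | (M : ℝ) < k y} := fun M =>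
    measurableSet_lt measurable_const hk
  have hanti : Antitone fun M : ℕ => {y | (M : ℝ) < k y} := by
    intro M M' hM y hy
    have h1 : (M : ℝ) ≤ M' := by exact_mod_cast hM
    exact lt_of_le_of_lt h1 hy
  have hempty : (⋂ M : ℕ, {y | (M : ℝ) < k y}) = ∅ := by
    ext y
    simp only [mem_iInter, mem_ofPred_eq, mem_empty_iff_false, iff_false, not_forall, not_lt]
    exact exists_nat_ge (k y)
  have htend : Tendsto (fun M : ℕ => μ {y | (M : ℝ) < k y}) atTop (𝓝 0) := by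
    have h1 := tendsto_measure_iInter_atTop (μ := μ) (fun M => (hS M).nullMeasurableSet) hanti
      ⟨0, measure_ne_top _ _⟩
    rwa [hempty, measure_empty] at h1
  have hchoose : ∀ i : ℕ, ∃ M : ℕ, μ {y | (M : ℝ) < k y} ≤ ENNReal.ofReal ((1 / 2) ^ i) := by
    intro i
    have h1 : (0 : ℝ≥0∞) < ENNReal.ofReal ((1 / 2) ^ i) := by
      rw [ENNReal.ofReal_pos]
      positivity
    obtain ⟨M, hM⟩ := (htend.eventually (gt_mem_nhds h1)).exists
    exact ⟨M, hM.le⟩
  choose M hM using hchoose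
  -- the densities
  obtain ⟨ν, hν⟩ : ∃ ν : ℕ → Measure E, ν = fun i => μ.restrict {y | (M i : ℝ) < k y} := ⟨_, rfl⟩
  have hνf : ∀ i, IsFiniteMeasure (ν i) := fun i => by
    rw [hν]
    infer_instance
  obtain ⟨D, hD⟩ : ∃ D : ℕ → ℝ → ℝ≥0∞,
      D = fun i => ((ν i).map fun y => ‖y - a‖).rnDeriv volume := ⟨_, rfl⟩
  have hDm : ∀ i, Measurable (D i) := fun i => by
    rw [hD]
    exact Measure.measurable_rnDeriv _ _
  have hDint : ∀ i, ∫⁻ t, D i t ≤ ENNReal.ofReal ((1 / 2) ^ i) := by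
    intro i
    have hm : Measurable fun y : E => ‖y - a‖ := by fun_prop
    have h1 : ∫⁻ t, D i t ≤ ((ν i).map fun y => ‖y - a‖) univ := by
      rw [hD]
      exact Measure.lintegral_rnDeriv_le
    refine h1.trans ?_
    rw [Measure.map_apply hm MeasurableSet.univ, preimage_univ, hν]
    simp only [Measure.restrict_apply_univ]
    exact hM i
  have hsum : ∫⁻ t, ∑' i, D i t ≠ ⊤ := by
    rw [lintegral_tsum fun i => (hDm i).aemeasurable]
    have h1 : ∑' i : ℕ, ENNReal.ofReal ((1 / 2) ^ i) ≠ ⊤ := by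
      rw [← ENNReal.ofReal_tsum_of_nonneg (fun i => by positivity) summable_geometric_two]
      exact ENNReal.ofReal_ne_top
    exact ne_top_of_le_ne_top h1 (ENNReal.tsum_le_tsum hDint)
  have hfin : ∀ᵐ t : ℝ, ∑' i, D i t < ⊤ :=
    ae_lt_top (Measurable.ennreal_tsum hDm) hsum
  have hsh : ∀ᵐ t : ℝ, ∀ i, ∀ c : ℝ, 0 < c → D i t < ENNReal.ofReal c →
      ∀ᶠ r in 𝓝[>] (0 : ℝ), ν i {y | |‖y - a‖ - t| ≤ r} ≤ ENNReal.ofReal (2 * c * r) := by
    rw [ae_all_iff]
    intro i
    have := hνf i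
    rw [hD]
    exact shell_density (ν i) a
  filter_upwards [hfin, hsh] with t ht1 ht2 c hc
  have h1 : Tendsto (fun i => D i t) atTop (𝓝 0) :=
    ENNReal.tendsto_atTop_zero_of_tsum_ne_top ht1.ne
  have h2 : (0 : ℝ≥0∞) < ENNReal.ofReal (c / 2) := by
    rw [ENNReal.ofReal_pos]
    positivity
  obtain ⟨i, hi⟩ := (h1.eventually (gt_mem_nhds h2)).exists
  refine ⟨M i, ?_⟩
  filter_upwards [ht2 i (c / 2) (by positivity) hi] with r hr
  have h3 : ν i {y | |‖y - a‖ - t| ≤ r} = μ ({y | (M i : ℝ) < k y} ∩ {y | |‖y - a‖ - t| ≤ r}) := by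
    rw [hν]
    simp only
    rw [Measure.restrict_apply' (hS (M i)), inter_comm]
  rw [h3] at hr
  refine hr.trans (le_of_eq ?_)
  congr 1
  ring

/-- **Generic radii.** -/
theorem generic {j : ℕ} (hj : finrank ℝ E = j + 2) {k : E → ℝ} (hk : Measurable k)
    (hk0 : ∀ y, 0 ≤ k y) {U : Set E} (hU : MeasurableSet U)
    (hint : IntegrableOn (fun y => k y ^ (j + 1)) U) (a : E) :
    ∀ᵐ t : ℝ, ∀ θ : ℝ, 0 < θ → ∃ r0 : ℝ, 0 < r0 ∧ ∀ p : E, ‖p - a‖ = t → ∀ r : ℝ, 0 < r → r < r0 →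
      closedBall p (2 * r) ⊆ U → ∫ y in closedBall p (2 * r), k y ≤ θ * r ^ (j + 1) := by
  obtain ⟨μ, hμ⟩ : ∃ μ : Measure E, μ = (volume.restrict U).withDensity
      fun y => ENNReal.ofReal (k y ^ (j + 1)) := ⟨_, rfl⟩
  have hμf : IsFiniteMeasure μ := by
    rw [hμ]
    refine isFiniteMeasure_withDensity ?_
    rw [← ofReal_integral_eq_lintegral_ofReal hint (Eventually.of_forall fun y => by
      have := hk0 y
      positivity)]
    exact ENNReal.ofReal_ne_top
  have hVpos : 0 < volume.real (ball (0 : E) 1) := vol_pos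
  obtain ⟨V, hV⟩ : ∃ V, V = volume.real (ball (0 : E) 1) := ⟨_, rfl⟩
  rw [← hV] at hVpos
  filter_upwards [generic_shell μ hk a] with t ht θ hθ
  -- the level
  obtain ⟨θ1, hθ1, hθ2⟩ : ∃ θ1 : ℝ, 0 < θ1 ∧ θ1 * (V * 2 ^ (j + 2)) ≤ θ / 2 :=
    ⟨θ / 2 / (V * 2 ^ (j + 2)), by positivity, by rw [div_mul_cancel₀ _ (by positivity)]⟩
  obtain ⟨M, hM⟩ := ht (θ / 4 * θ1 ^ j) (by positivity)
  obtain ⟨r1, hr1, h1⟩ : ∃ r1 : ℝ, 0 < r1 ∧ ∀ r, 0 < r → r < r1 →
      μ ({y | (M : ℝ) < k y} ∩ {y | |‖y - a‖ - t| ≤ r}) ≤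
        ENNReal.ofReal (θ / 4 * θ1 ^ j * r) := by
    obtain ⟨r1, hr1, h1⟩ := mem_nhdsGT_iff_exists_Ioo_subset.1 hM
    exact ⟨r1, hr1, fun r h2 h3 => h1 ⟨h2, h3⟩⟩
  refine ⟨min (r1 / 2) (θ1 / (M + 1)), by positivity, fun p hp r hr hr' hsub => ?_⟩
  have hr3 : 2 * r < r1 := by
    have := hr'.trans_le (min_le_left _ _)
    linarith
  have hr4 : (M : ℝ) ≤ θ1 / r := by
    have h2 := hr'.trans_le (min_le_right _ _)
    rw [lt_div_iff₀ (by positivity)] at h2
    rw [le_div_iff₀ hr]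
    nlinarith
  obtain ⟨lam, hlam⟩ : ∃ lam : ℝ, lam = θ1 / r := ⟨_, rfl⟩
  rw [← hlam] at hr4
  have hlam0 : 0 < lam := by
    rw [hlam]
    positivity
  have hball : volume (closedBall p (2 * r)) = ENNReal.ofReal (V * 2 ^ (j + 2) * r ^ (j + 2)) := by
    have h2 := vol_ball (E := E) p (by positivity : 0 ≤ 2 * r)
    rw [hj, ← hV] at h2
    rw [← ENNReal.ofReal_toReal (a := volume (closedBall p (2 * r)))
      (measure_closedBall_lt_top).ne]
    congr 1
    have h3 : (volume (closedBall p (2 * r))).toReal = volume.real (closedBall p (2 * r)) := rfl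
    rw [h3, h2]
    ring
  have hpt : ∀ y, ENNReal.ofReal (k y) ≤ ENNReal.ofReal lam + ENNReal.ofReal ((lam ^ j)⁻¹) *
      ({y | (M : ℝ) < k y}.indicator (fun y => ENNReal.ofReal (k y ^ (j + 1))) y) := by
    intro y
    rcases le_or_gt (k y) lam with h2 | h2
    · exact (ENNReal.ofReal_le_ofReal h2).trans le_self_add
    · have hy : y ∈ {y | (M : ℝ) < k y} := lt_of_le_of_lt hr4 h2
      rw [indicator_of_mem hy, ← ENNReal.ofReal_mul (by positivity)]
      refine le_trans (ENNReal.ofReal_le_ofReal ?_) le_add_self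
      have h3 : lam ^ j ≤ k y ^ j := pow_le_pow_left₀ hlam0.le h2.le j
      rw [inv_mul_eq_div, le_div_iff₀ (by positivity), pow_succ, mul_comm (k y)]
      exact mul_le_mul_of_nonneg_right h3 (hk0 y)
  have hSm : MeasurableSet {y | (M : ℝ) < k y} := measurableSet_lt measurable_const hk
  have hlint : ∫⁻ y in closedBall p (2 * r), ENNReal.ofReal (k y) ≤
      ENNReal.ofReal (θ * r ^ (j + 1)) := by
    calc ∫⁻ y in closedBall p (2 * r), ENNReal.ofReal (k y)
        ≤ ∫⁻ y in closedBall p (2 * r), (ENNReal.ofReal lam + ENNReal.ofReal ((lam ^ j)⁻¹) *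
          ({y | (M : ℝ) < k y}.indicator (fun y => ENNReal.ofReal (k y ^ (j + 1))) y)) :=
          lintegral_mono hpt
      _ = ENNReal.ofReal lam * volume (closedBall p (2 * r)) + ENNReal.ofReal ((lam ^ j)⁻¹) *
          ∫⁻ y in closedBall p (2 * r),
            {y | (M : ℝ) < k y}.indicator (fun y => ENNReal.ofReal (k y ^ (j + 1))) y := by
          rw [lintegral_add_left measurable_const, setLIntegral_const, lintegral_const_mul]
          exact ((hk.pow_const _).ennreal_ofReal).indicator hSm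
      _ ≤ ENNReal.ofReal (θ / 2 * r ^ (j + 1)) + ENNReal.ofReal (θ / 2 * r ^ (j + 1)) := by
          refine add_le_add ?_ ?_
          · rw [hball, ← ENNReal.ofReal_mul hlam0.le]
            refine ENNReal.ofReal_le_ofReal ?_
            rw [hlam]
            have h2 : θ1 / r * (V * 2 ^ (j + 2) * r ^ (j + 2)) =
                θ1 * (V * 2 ^ (j + 2)) * r ^ (j + 1) := by
              rw [pow_succ r (j + 1)]
              field_simp
            rw [h2]
            exact mul_le_mul_of_nonneg_right hθ2 (by positivity)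
          · have h2 : ∫⁻ y in closedBall p (2 * r),
                {y | (M : ℝ) < k y}.indicator (fun y => ENNReal.ofReal (k y ^ (j + 1))) y ≤
                μ ({y | (M : ℝ) < k y} ∩ {y | |‖y - a‖ - t| ≤ 2 * r}) := by
              rw [hμ, withDensity_apply _ (hSm.inter (measurableSet_le (by fun_prop)
                measurable_const)), Measure.restrict_restrict (hSm.inter (measurableSet_le
                (by fun_prop) measurable_const)), ← lintegral_indicator measurableSet_closedBall,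
                ← lintegral_indicator ((hSm.inter (measurableSet_le
                (by fun_prop) measurable_const)).inter hU)]
              refine lintegral_mono fun y => ?_
              by_cases hy : y ∈ closedBall p (2 * r)
              · rw [indicator_of_mem hy]
                by_cases hy2 : y ∈ {y | (M : ℝ) < k y}
                · rw [indicator_of_mem hy2, indicator_of_mem]
                  refine ⟨⟨hy2, ?_⟩, hsub hy⟩
                  rw [mem_closedBall, dist_eq_norm] at hy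
                  show |‖y - a‖ - t| ≤ 2 * r
                  rw [← hp]
                  refine (abs_norm_sub_norm_le _ _).trans ?_
                  rwa [sub_sub_sub_cancel_right]
                · rw [indicator_of_notMem hy2]
                  exact zero_le
              · rw [indicator_of_notMem hy]
                exact zero_le
            calc ENNReal.ofReal ((lam ^ j)⁻¹) * _
                ≤ ENNReal.ofReal ((lam ^ j)⁻¹) * ENNReal.ofReal (θ / 4 * θ1 ^ j * (2 * r)) := by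
                  gcongr
                  exact h2.trans (h1 (2 * r) (by positivity) hr3)
              _ = ENNReal.ofReal (θ / 2 * r ^ (j + 1)) := by
                  rw [← ENNReal.ofReal_mul (by positivity)]
                  congr 1
                  rw [hlam, div_pow, pow_succ r j]
                  field_simp
                  norm_num
      _ = ENNReal.ofReal (θ * r ^ (j + 1)) := by
          rw [← ENNReal.ofReal_add (by positivity) (by positivity)]
          congr 1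
          ring
  rw [integral_eq_lintegral_of_nonneg_ae (Eventually.of_forall hk0) hk.aestronglyMeasurable]
  exact ENNReal.toReal_le_of_le_ofReal (by positivity) hlint

end Pool.Agent.H816.Sob

namespace Pool.Agent.H816.Ph

open Pool.Agent.Y522 Pool.Agent.Y207.SH3 Pool.Agent.Q169.AA Pool.Agent.H816.Sob

variable {n : ℕ}

/-- on generic spheres a bi-Lipschitz map of class `W^{2,n-1}` is asymptotically affine -/
theorem generic_AR {j : ℕ} (hj : n = j + 2) {G : E n → E n} {H : E n → E n →L[ℝ] E n →L[ℝ] E n}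
    {h : E n → ℝ} {ρ K' : ℝ} (hρ : 0 < ρ) (hK1 : 1 ≤ K')
    (hHh : ∀ y v w, ‖H y v w‖ ≤ h y * ‖v‖ * ‖w‖)
    (hL : MemLp h ((j + 1 : ℕ) : ℝ≥0∞) (volume.restrict (ball 0 ρ)))
    (hw : WeakHess G H (ball 0 ρ))
    (hlip : ∀ x ∈ ball (0 : E n) ρ, ∀ y ∈ ball (0 : E n) ρ,
      ‖G x - G y‖ ≤ K' * ‖x - y‖ ∧ ‖x - y‖ ≤ K' * ‖G x - G y‖) (a : E n) :
    ∀ᵐ t : ℝ, ∀ z : E n, ‖z - a‖ = t → z ∈ ball (0 : E n) ρ → AR n (sphere a t) G z := by
  have hfr : finrank ℝ (E n) = j + 2 := by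
    rw [finrank_euclideanSpace_fin, hj]
  obtain ⟨k, hk⟩ : ∃ k : E n → ℝ, k = fun y => |hL.1.mk h y| := ⟨_, rfl⟩
  have hkm : Measurable k := by
    rw [hk]
    exact (hL.1.stronglyMeasurable_mk.measurable).abs
  have hk0 : ∀ y, 0 ≤ k y := fun y => by
    rw [hk]
    exact abs_nonneg _
  have hke : ∀ᵐ y ∂(volume.restrict (ball (0 : E n) ρ)), ‖h y‖ = k y := by
    filter_upwards [hL.1.ae_eq_mk] with y hy
    rw [hk]
    show ‖h y‖ = |hL.1.mk h y|
    rw [← hy, Real.norm_eq_abs]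
  have hint : IntegrableOn (fun y => k y ^ (j + 1)) (ball (0 : E n) ρ) := by
    have h1 := hL.integrable_norm_pow (by omega : j + 1 ≠ 0)
    refine h1.congr ?_
    filter_upwards [hke] with y hy
    rw [hy]
  have hint1 : IntegrableOn (fun y => ‖h y‖) (ball (0 : E n) ρ) := by
    have : IsFiniteMeasure (volume.restrict (ball (0 : E n) ρ)) :=
      ⟨by rw [Measure.restrict_apply_univ]; exact measure_ball_lt_top⟩
    have h1 : MemLp h 1 (volume.restrict (ball (0 : E n) ρ)) :=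
      hL.mono_exponent (by exact_mod_cast (by omega : 1 ≤ j + 1))
    exact (memLp_one_iff_integrable.1 h1).norm
  filter_upwards [generic (E := E n) hfr hkm hk0 measurableSet_ball hint a] with t ht z hz hzρ
  refine ⟨1 / (4 * K' ^ 2), by positivity, fun ε hε => ?_⟩
  obtain ⟨δ, hδ0, hδ1, hδ2⟩ : ∃ δ : ℝ, 0 < δ ∧ δ ≤ 1 / (2 * K') ∧ δ ≤ 2 * K' * ε :=
    ⟨min (1 / (2 * K')) (2 * K' * ε), lt_min (by positivity) (by positivity), min_le_left _ _,
      min_le_right _ _⟩
  obtain ⟨θ, hθ, haff⟩ := affine_at (E := E n) (F := E n) (by rw [hfr]; omega)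
    (by linarith : (0 : ℝ) ≤ K') hδ0
  obtain ⟨r0, hr0, h1⟩ := ht θ hθ
  rw [mem_ball_zero_iff] at hzρ
  obtain ⟨r, hr, hr1, hr2⟩ : ∃ r : ℝ, 0 < r ∧ r < r0 ∧ 4 * r ≤ ρ - ‖z‖ :=
    ⟨min (r0 / 2) ((ρ - ‖z‖) / 4), lt_min (by linarith) (by linarith),
      (min_le_left _ _).trans_lt (by linarith), by
        have := min_le_right (r0 / 2) ((ρ - ‖z‖) / 4)
        linarith⟩
  refine ⟨r, hr, fun p hp hpz s hs hsr => ?_⟩
  have hsub : closedBall p (2 * s) ⊆ ball (0 : E n) ρ := by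
    intro q hq
    rw [mem_closedBall, dist_eq_norm] at hq
    rw [mem_ball_zero_iff]
    have e : q = (q - p) + (p - z) + z := by abel
    rw [e]
    refine (norm_add_le _ _).trans_lt ?_
    have h2 := norm_add_le (q - p) (p - z)
    linarith
  have hI : IntegrableOn (fun y => ‖h y‖) (closedBall p (2 * s)) := hint1.mono_set hsub
  have hsm : ∫ y in closedBall p (2 * s), ‖h y‖ ≤ θ * s ^ (finrank ℝ (E n) - 1) := by
    have h2 : ∫ y in closedBall p (2 * s), ‖h y‖ = ∫ y in closedBall p (2 * s), k y :=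
      integral_congr_ae (ae_mono (Measure.restrict_mono hsub le_rfl) hke)
    rw [h2, hfr]
    refine h1 p ?_ s hs (hsr.trans_lt hr1) hsub
    rwa [mem_sphere, dist_eq_norm] at hp
  obtain ⟨L, hLL⟩ := haff G H h ρ hρ hHh (fun x hx y hy => (hlip x hx y hy).1) hw p s hs hsub hI hsm
  refine aff_of_affine hK1 hδ1 hδ2 hs (fun q hq => ?_) hLL
  have hq' : q ∈ ball (0 : E n) ρ := hsub (by
    rw [mem_closedBall, dist_eq_norm]
    linarith)
  have hp' : p ∈ ball (0 : E n) ρ := hsub (mem_closedBall_self (by positivity))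
  exact hlip q hq' p hp'

variable {X Y : Type} [TopologicalSpace X] [ChartedSpace (E n) X] [TopologicalSpace Y]
  [ChartedSpace (E n) Y]

/-- coordinates in which generic spheres are good -/
structure Gd (f0 : X → Y) (A : E n → X) (ρ : ℝ) : Prop where
  pos : 0 < ρ
  inj : InjOn A (closedBall 0 (3 * ρ))
  ld : ∀ z : E n, ‖z‖ ≤ 3 * ρ → LD n A z
  gen : ∀ a : E n, ‖a‖ ≤ ρ → ∀ᵐ t : ℝ, 0 < t → t ≤ ρ → ∀ z : E n, ‖z - a‖ = t →
    ARM n (A '' sphere a t) f0 (A z)

theorem exists_Gd {j : ℕ} (hj : n = j + 2) {f0 : X → Y} (hf0 : Continuous f0) {A : E n → X}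
    {B : Y → E n} (hA : LD n A 0) (hB : LD n B (f0 (A 0))) {K : ℝ}
    (hK : ∀ᶠ z in 𝓝 (0 : E n × E n), ‖B (f0 (A z.1)) - B (f0 (A z.2))‖ ≤ K * ‖z.1 - z.2‖ ∧
      ‖z.1 - z.2‖ ≤ K * ‖B (f0 (A z.1)) - B (f0 (A z.2))‖)
    (hW : Sob.W2 ((j + 1 : ℕ) : ℝ≥0∞) fun z => B (f0 (A z))) : ∃ ρ, Gd f0 A ρ := by
  obtain ⟨G, hG⟩ : ∃ G : E n → E n, G = fun z => B (f0 (A z)) := ⟨_, rfl⟩
  obtain ⟨ρ0, H, h, hρ0, hHh, hL, hw⟩ := hW.dominate
  obtain ⟨ρ1, hρ1, hlip⟩ := Metric.eventually_nhds_iff_ball.1 hK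
  have hAc : ContinuousAt A 0 := hA.continuousAt
  have hBe : ∀ᶠ z in 𝓝 (0 : E n), LD n B (f0 (A z)) :=
    (hf0.continuousAt.comp hAc).eventually hB.eventually
  obtain ⟨u, hu, hinj⟩ := hA.eventually_injOn
  obtain ⟨ρ2, hρ2, h2⟩ := Metric.eventually_nhds_iff_ball.1 (hBe.and (hA.eventually.and hu))
  obtain ⟨ρ, hρ, hr0, hr1, hr2⟩ : ∃ ρ : ℝ, 0 < ρ ∧ 4 * ρ ≤ ρ0 ∧ 4 * ρ ≤ ρ1 ∧ 4 * ρ ≤ ρ2 := by
    refine ⟨min (ρ0 / 4) (min (ρ1 / 4) (ρ2 / 4)), by positivity, ?_, ?_, ?_⟩
    · have := min_le_left (ρ0 / 4) (min (ρ1 / 4) (ρ2 / 4))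
      linarith
    · have h3 := min_le_right (ρ0 / 4) (min (ρ1 / 4) (ρ2 / 4))
      have h4 := min_le_left (ρ1 / 4) (ρ2 / 4)
      linarith
    · have h3 := min_le_right (ρ0 / 4) (min (ρ1 / 4) (ρ2 / 4))
      have h4 := min_le_right (ρ1 / 4) (ρ2 / 4)
      linarith
  have h4ρ : 0 < 4 * ρ := by positivity
  have hlip' : ∀ x ∈ ball (0 : E n) (4 * ρ), ∀ y ∈ ball (0 : E n) (4 * ρ),
      ‖G x - G y‖ ≤ max K 1 * ‖x - y‖ ∧ ‖x - y‖ ≤ max K 1 * ‖G x - G y‖ := by
    intro x hx y hy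
    have h3 : (x, y) ∈ ball (0 : E n × E n) ρ1 := by
      rw [mem_ball_zero_iff, Prod.norm_def, max_lt_iff]
      exact ⟨(mem_ball_zero_iff.1 hx).trans_le hr1, (mem_ball_zero_iff.1 hy).trans_le hr1⟩
    obtain ⟨h5, h6⟩ := hlip _ h3
    rw [hG]
    exact ⟨h5.trans (mul_le_mul_of_nonneg_right (le_max_left _ _) (norm_nonneg _)),
      h6.trans (mul_le_mul_of_nonneg_right (le_max_left _ _) (norm_nonneg _))⟩
  have hsub0 : ball (0 : E n) (4 * ρ) ⊆ ball 0 ρ0 := ball_subset_ball hr0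
  have hall : ∀ z : E n, ‖z‖ < 4 * ρ → LD n B (f0 (A z)) ∧ LD n A z ∧ z ∈ u := fun z hz =>
    h2 z (mem_ball_zero_iff.2 (hz.trans_le hr2))
  refine ⟨ρ, hρ, ?_, ?_, ?_⟩
  · intro x hx y hy hxy
    rw [mem_closedBall_zero_iff] at hx hy
    exact hinj (hall x (by linarith)).2.2 (hall y (by linarith)).2.2 hxy
  · intro z hz
    exact (hall z (by linarith)).2.1
  · intro a ha
    have h3 := generic_AR hj h4ρ (le_max_right K 1) hHh
      (hL.mono_measure (Measure.restrict_mono hsub0 le_rfl)) (G := G) (by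
        rw [hG]
        exact hw.mono hsub0) hlip' a
    filter_upwards [h3] with t ht ht0 htρ z hz
    have hzn : ‖z‖ ≤ 2 * ρ := by
      have h4 := norm_add_le (z - a) a
      rw [sub_add_cancel, hz] at h4
      linarith
    have h4 := ht z hz (mem_ball_zero_iff.2 (by linarith))
    refine ARM.of hf0.continuousAt (hall z (by linarith)).1 ?_
    refine ARE.of (F := fun w => B (f0 w)) (hall z (by linarith)).2.1 ?_
    rw [hG] at h4
    refine AR.mono h4 ?_
    have h5 : ∀ᶠ p in 𝓝 z, ‖p‖ < 3 * ρ :=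
      continuous_norm.continuousAt.eventually (gt_mem_nhds (by linarith))
    filter_upwards [h5] with p hp hpA
    obtain ⟨q, hq, hqp⟩ := hpA
    have hqn : ‖q‖ < 4 * ρ := by
      rw [mem_sphere, dist_eq_norm] at hq
      have h6 := norm_add_le (q - a) a
      rw [sub_add_cancel, hq] at h6
      linarith
    have h7 : q = p := hinj (hall q hqn).2.2 (hall p (by linarith)).2.2 hqp
    rwa [← h7]

end Pool.Agent.H816.Ph
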