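import Pool.Agent.H816.Ph4
import Pool.Agent.H816.Ph6
import Pool.Agent.H816.Sing3

/-!
# Coverings by layers of disjoint balls
-/

set_option autoImplicit false
set_option linter.unusedSectionVars false

open Set Filter Topology Metric MeasureTheory Module Function
open scoped Manifold ContDiff ENNReal

noncomputable section

namespace Pool.Agent.H816.Ph

open Pool.Agent.Y522 Pool.Agent.Y207.SH3 Pool.Agent.Q169.AA Pool.Agent.H816.Sob Pool.Agent.H816

/-- compact sets are covered by a bounded number of layers of disjoint balls of the same radius -/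
theorem layers (n : ℕ) : ∃ N : ℕ, ∀ K : Set (E n), IsCompact K → ∀ δ : ℝ, 0 < δ →
    ∃ (δ' : ℝ) (s : Fin N → Finset (E n)), 0 < δ' ∧ δ' < δ ∧ (∀ c, ∀ a ∈ s c, a ∈ K) ∧
      (∀ c, (s c : Set (E n)).PairwiseDisjoint fun a => closedBall a δ) ∧
      ∀ x ∈ K, ∃ c, ∃ a ∈ s c, x ∈ closedBall a δ' := by
  obtain ⟨N, τ, hτ, hN⟩ := (inferInstance : HasBesicovitchCovering (E n)).no_satelliteConfig
  refine ⟨N, fun K hK δ hδ => ?_⟩
  obtain ⟨q, hqc, hqr⟩ : ∃ q : Besicovitch.BallPackage K (E n), (∀ x, q.c x = x) ∧ ∀ x, q.r x = δ :=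
    ⟨⟨fun x => x, fun _ => δ, fun _ => hδ, δ, fun _ => le_rfl⟩, fun _ => rfl, fun _ => rfl⟩
  obtain ⟨S, hS1, hS2⟩ := Besicovitch.exist_disjoint_covering_families hτ hN q
  have hch : ∀ x : K, ∃ (c : Fin N) (a : K), a ∈ S c ∧ dist (x : E n) (a : E n) < δ := by
    intro x
    have h1 : (x : E n) ∈ range q.c := ⟨x, hqc _⟩
    have h2 := hS2 h1
    simp only [mem_iUnion] at h2
    obtain ⟨c, a, ha, h3⟩ := h2
    rw [hqc, hqr, mem_ball] at h3
    exact ⟨c, a, ha, h3⟩
  choose c a haS had using hch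
  obtain ⟨T, hT⟩ := hK.elim_nhds_subcover'
    (fun x hx => ball x ((δ - dist x (a ⟨x, hx⟩ : E n)) / 2)) (fun x hx =>
      ball_mem_nhds x (by have := had ⟨x, hx⟩; simp only at this; linarith))
  have hev : ∀ᶠ δ' in 𝓝[<] δ, δ' ∈ Ioo 0 δ ∧
      ∀ x ∈ T, δ - (δ - dist (x : E n) (a x : E n)) / 2 ≤ δ' := by
    refine Filter.Eventually.and (Ioo_mem_nhdsLT hδ) ?_
    rw [Filter.eventually_all_finset]
    intro x _
    have h1 : δ - (δ - dist (x : E n) (a x : E n)) / 2 < δ := by
      have := had x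
      linarith
    filter_upwards [Ioo_mem_nhdsLT h1] with y hy using hy.1.le
  obtain ⟨δ', ⟨h1, h2⟩, h3⟩ := hev.exists
  classical
  refine ⟨δ', fun k => (T.filter fun x => c x = k).image fun x => (a x : E n), h1, h2, ?_, ?_, ?_⟩
  · intro k b hb
    rw [Finset.mem_image] at hb
    obtain ⟨x, hx, rfl⟩ := hb
    exact (a x).2
  · intro k b hb b' hb' hne
    rw [Finset.mem_coe, Finset.mem_image] at hb hb'
    obtain ⟨x, hx, rfl⟩ := hb
    obtain ⟨y, hy, rfl⟩ := hb'
    rw [Finset.mem_filter] at hx hy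
    have hx2 : a x ∈ S k := by
      rw [← hx.2]
      exact haS x
    have hy2 : a y ∈ S k := by
      rw [← hy.2]
      exact haS y
    have h4 := hS1 k hx2 hy2 (fun h => hne (by rw [h]))
    simp only [Function.onFun] at h4 ⊢
    rw [hqc, hqc, hqr, hqr] at h4
    exact h4
  · intro x hx
    have h4 := hT hx
    simp only [mem_iUnion] at h4
    obtain ⟨y, hy, h5⟩ := h4
    refine ⟨c y, a y, ?_, ?_⟩
    · rw [Finset.mem_image]
      exact ⟨y, Finset.mem_filter.2 ⟨hy, rfl⟩, rfl⟩
    · rw [mem_closedBall]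
      rw [mem_ball] at h5
      have h6 := dist_triangle x (y : E n) (a y : E n)
      have h7 := h3 y hy
      simp only [Subtype.coe_eta] at h5
      linarith

/-- every value of `f` is a value of `f0` at a near point -/
def Disp {X Y : Type} [MetricSpace X] (f0 f : X → Y) (κ : ℝ) : Prop :=
  ∀ x, ∃ x', dist x' x ≤ κ ∧ f x = f0 x'

variable {m : ℕ}

/-- a layer of balls -/
structure Lay {X Y : Type} [MetricSpace X] [ChartedSpace (E (m + 1)) X] [TopologicalSpace Y]
    [ChartedSpace (E (m + 1)) Y] (f0 : X → Y) (η : ℝ) (A : E (m + 1) → X) (ρ δ δ' : ℝ)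
    (s : Finset (E (m + 1))) : Prop where
  gd : Gd (n := m + 1) f0 A ρ
  d0 : 0 < δ'
  dd : δ' < δ
  dr : δ ≤ ρ
  mem : ∀ a ∈ s, ‖a‖ ≤ ρ
  disj : (s : Set (E (m + 1))).PairwiseDisjoint fun a => closedBall a δ
  osc : ∀ a ∈ s, ∀ u v : E (m + 1), ‖u - a‖ ≤ 2 * δ → ‖v - a‖ ≤ 2 * δ → dist (A u) (A v) ≤ η

variable {X Y : Type} [MetricSpace X] [ChartedSpace (E (m + 1)) X]
  [TopologicalSpace Y] [T2Space Y] [ChartedSpace (E (m + 1)) Y]

omit [T2Space Y] in
theorem LD_aff {n : ℕ} (p : E n) {c : ℝ} (hc : c ≠ 0) (z : E n) :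
    LD n (fun w => c • w + p) z :=
  LD.comp_fun (g := fun y : E n => y + p) (f := fun w => c • w) (LD_add_const p _)
    (LD_linear (ContinuousLinearEquiv.smulLeft (Units.mk0 _ hc)) _)

/-- a generic radius -/
theorem Gd.radius {f0 : X → Y} {A : E (m + 1) → X} {ρ : ℝ} (hA : Gd (n := m + 1) f0 A ρ)
    {a : E (m + 1)} (ha : ‖a‖ ≤ ρ) {P : Set X} (hP : P.Finite) {δ δ' : ℝ} (h0 : 0 < δ')
    (h1 : δ' < δ) (h2 : δ ≤ ρ) : ∃ t : ℝ, δ' < t ∧ t < δ ∧
      ∀ z : E (m + 1), ‖z - a‖ = t → ARM (m + 1) (A '' sphere a t) f0 (A z) ∧ A z ∉ P := by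
  have hfin : ((fun z : E (m + 1) => ‖z - a‖) '' (closedBall 0 (3 * ρ) ∩ A ⁻¹' P)).Finite := by
    apply Set.Finite.image
    refine Set.Finite.of_finite_image (f := A) (hP.subset ?_) ?_
    · rintro _ ⟨z, hz, rfl⟩
      exact hz.2
    · exact hA.inj.mono inter_subset_left
  have hae : ∀ᵐ t : ℝ, (0 < t → t ≤ ρ → ∀ z : E (m + 1), ‖z - a‖ = t →
      ARM (m + 1) (A '' sphere a t) f0 (A z)) ∧
        t ∉ (fun z : E (m + 1) => ‖z - a‖) '' (closedBall 0 (3 * ρ) ∩ A ⁻¹' P) :=
    (hA.gen a ha).and (measure_eq_zero_iff_ae_notMem.1 (hfin.measure_zero volume))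
  have hfr : ∃ᵐ t : ℝ, t ∈ Ioo δ' δ := by
    rw [frequently_ae_mem_iff, Real.volume_Ioo]
    simp [h1]
  obtain ⟨t, ht1, ht2, ht3⟩ := (hfr.and_eventually hae).exists
  refine ⟨t, ht1.1, ht1.2, fun z hz => ⟨ht2 (by linarith [ht1.1]) (by linarith [ht1.2]) z hz, ?_⟩⟩
  intro hzP
  refine ht3 ⟨z, ⟨?_, hzP⟩, hz⟩
  rw [mem_closedBall_zero_iff]
  have h4 := norm_add_le (z - a) a
  rw [sub_add_cancel, hz] at h4
  linarith [ht1.2]

/-- **One layer.** -/
theorem layer_step (hm : 2 ≤ m) {f0 f : X → Y} {R P : Set X} (H : St (m := m) f0 R P f)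
    (hf0 : Continuous f0) {A : E (m + 1) → X} {ρ δ δ' η κ lam : ℝ} {s : Finset (E (m + 1))}
    (hL : Lay (m := m) f0 η A ρ δ δ' s) (hdisp : Disp f0 f κ) (hη : 0 ≤ η) (hlam : κ + 2 * η ≤ lam)
    (hcell : ∀ a ∈ s, ∃ d : E (m + 1) → Y, Injective d ∧ (∀ z, LD (m + 1) d z) ∧
      ∀ x', dist x' (A a) ≤ lam → f0 x' ∈ range d) {V : Set X}
    (hV : ∀ a ∈ s, A '' closedBall a δ ⊆ V) (hRV : R ⊆ V) :
    ∃ (R' P' : Set X) (f' : X → Y), St (m := m) f0 R' P' f' ∧ R ⊆ R' ∧ R' ⊆ V ∧
      (∀ a ∈ s, A '' closedBall a δ' ⊆ R') ∧ Disp f0 f' (κ + η) := by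
  have hρ := hL.gd.pos
  have hδ0 : 0 < δ := hL.d0.trans hL.dd
  have hnorm : ∀ a ∈ s, ∀ z : E (m + 1), ‖z - a‖ ≤ 2 * δ → ‖z‖ ≤ 3 * ρ := by
    intro a ha z hz
    have h4 := norm_add_le (z - a) a
    rw [sub_add_cancel] at h4
    linarith [hL.mem a ha, hL.dr]
  have hAinj : ∀ a ∈ s, ∀ b ∈ s, ∀ u v : E (m + 1), ‖u - a‖ ≤ 2 * δ → ‖v - b‖ ≤ 2 * δ →
      A u = A v → u = v := fun a ha b hb u v hu hv h =>
    hL.gd.inj (mem_closedBall_zero_iff.2 (hnorm a ha u hu))
      (mem_closedBall_zero_iff.2 (hnorm b hb v hv)) h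
  have hdj : ∀ a ∈ s, ∀ b ∈ s, a ≠ b → ∀ x, x ∈ A '' closedBall a δ → x ∉ A '' closedBall b δ := by
    rintro a ha b hb hab x ⟨u, hu, rfl⟩ ⟨v, hv, hvu⟩
    have h1 : v = u := hAinj b hb a ha v u (by
      rw [mem_closedBall, dist_eq_norm] at hv
      linarith) (by
      rw [mem_closedBall, dist_eq_norm] at hu
      linarith) hvu
    rw [h1] at hv
    exact Set.disjoint_left.1 (hL.disj (Finset.mem_coe.2 ha) (Finset.mem_coe.2 hb) hab) hu hv
  have main : ∀ s0 : Finset (E (m + 1)), s0 ⊆ s → ∃ (R' P' : Set X) (f' : X → Y),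
      St (m := m) f0 R' P' f' ∧ R ⊆ R' ∧ R' ⊆ V ∧ (∀ a ∈ s0, A '' closedBall a δ' ⊆ R') ∧
      (∀ x, (∀ a ∈ s0, x ∉ A '' closedBall a δ) → f' x = f x) ∧
      (∀ a ∈ s0, ∀ x ∈ A '' closedBall a δ, f' x ∈ f '' (A '' closedBall a δ)) := by
    classical
    intro s0
    induction s0 using Finset.induction_on with
    | empty =>
      intro _
      exact ⟨R, P, f, H, subset_rfl, hRV, fun a ha => absurd ha (Finset.notMem_empty a),
        fun x _ => rfl, fun a ha => absurd ha (Finset.notMem_empty a)⟩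
    | insert a s0 has0 ih =>
      intro hsub
      obtain ⟨R', P', f', H', hRR, hRV', hcov, hoff, hin⟩ := ih fun b hb => hsub (Finset.mem_insert_of_mem hb)
      have has : a ∈ s := hsub (Finset.mem_insert_self a s0)
      have hs0s : ∀ b ∈ s0, b ∈ s := fun b hb => hsub (Finset.mem_insert_of_mem hb)
      obtain ⟨t, ht1, ht2, ht3⟩ := hL.gd.radius (hL.mem a has) H'.pf hL.d0 hL.dd hL.dr
      have ht0 : 0 < t := hL.d0.trans ht1
      obtain ⟨T, hT⟩ : ∃ T : E (m + 1) → E (m + 1), T = fun w => t • w + a := ⟨_, rfl⟩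
      have hTn : ∀ w, ‖T w - a‖ = t * ‖w‖ := fun w => by
        rw [hT]
        simp only [add_sub_cancel_right]
        rw [norm_smul, Real.norm_eq_abs, abs_of_pos ht0]
      have hTs : ∀ z : E (m + 1), ∃ w, T w = z := fun z => ⟨t⁻¹ • (z - a), by
        rw [hT]
        simp only
        rw [smul_smul, mul_inv_cancel₀ ht0.ne', one_smul, sub_add_cancel]⟩
      have hT2 : ∀ w : E (m + 1), ‖w‖ ≤ 2 → ‖T w - a‖ ≤ 2 * δ := fun w hw => by
        rw [hTn]
        nlinarith [norm_nonneg w]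
      have hTinj : Injective T := fun u v huv => by
        have h1 : t • u = t • v := by
          rw [hT] at huv
          exact add_right_cancel huv
        have h2 := congrArg (fun z => t⁻¹ • z) h1
        simpa [smul_smul, inv_mul_cancel₀ ht0.ne'] using h2
      have hTd : ∀ w, LD (m + 1) T w := fun w => by
        rw [hT]
        exact LD_aff a ht0.ne' w
      -- images
      have himc : (fun w => A (T w)) '' closedBall 0 1 = A '' closedBall a t := by
        ext x
        constructor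
        · rintro ⟨w, hw, rfl⟩
          refine ⟨T w, ?_, rfl⟩
          rw [mem_closedBall, dist_eq_norm, hTn]
          have := mem_closedBall_zero_iff.1 hw
          nlinarith
        · rintro ⟨z, hz, rfl⟩
          obtain ⟨w, rfl⟩ := hTs z
          refine ⟨w, ?_, rfl⟩
          rw [mem_closedBall, dist_eq_norm, hTn] at hz
          rw [mem_closedBall_zero_iff]
          by_contra hcon
          rw [not_le] at hcon
          nlinarith
      have himb : (fun w => A (T w)) '' ball 0 1 = A '' ball a t := by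
        ext x
        constructor
        · rintro ⟨w, hw, rfl⟩
          refine ⟨T w, ?_, rfl⟩
          rw [mem_ball, dist_eq_norm, hTn]
          have := mem_ball_zero_iff.1 hw
          nlinarith
        · rintro ⟨z, hz, rfl⟩
          obtain ⟨w, rfl⟩ := hTs z
          refine ⟨w, ?_, rfl⟩
          rw [mem_ball, dist_eq_norm, hTn] at hz
          rw [mem_ball_zero_iff]
          by_contra hcon
          rw [not_lt] at hcon
          nlinarith
      have hims : (fun w => A (T w)) '' sphere 0 1 = A '' sphere a t := by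
        ext x
        constructor
        · rintro ⟨w, hw, rfl⟩
          refine ⟨T w, ?_, rfl⟩
          rw [mem_sphere, dist_eq_norm, hTn, mem_sphere_zero_iff_norm.1 hw, mul_one]
        · rintro ⟨z, hz, rfl⟩
          obtain ⟨w, rfl⟩ := hTs z
          refine ⟨w, ?_, rfl⟩
          rw [mem_sphere, dist_eq_norm, hTn] at hz
          rw [mem_sphere_zero_iff_norm]
          exact mul_left_cancel₀ ht0.ne' (by rw [hz, mul_one])
      obtain ⟨d, hdi, hdd, hdr⟩ := hcell a has
      have haa : ‖a - a‖ ≤ 2 * δ := by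
        rw [sub_self, norm_zero]
        linarith
      have hfd : ∀ z ∈ closedBall (0 : E (m + 1)) 2, f' (A (T z)) ∈ range d := by
        intro z hz
        have hz2 := hT2 z (mem_closedBall_zero_iff.1 hz)
        have hza : dist (A (T z)) (A a) ≤ η := hL.osc a has _ _ hz2 haa
        by_cases hc : ∃ b ∈ s0, A (T z) ∈ A '' closedBall b δ
        · obtain ⟨b, hb, hzb⟩ := hc
          obtain ⟨y, hy, hfy⟩ := hin b hb _ hzb
          obtain ⟨y', hy', hfy'⟩ := hdisp y
          rw [← hfy, hfy']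
          apply hdr
          have h1 : dist y (A (T z)) ≤ η := by
            obtain ⟨u, hu, rfl⟩ := hy
            obtain ⟨v, hv, hvz⟩ := hzb
            rw [← hvz]
            rw [mem_closedBall, dist_eq_norm] at hu hv
            exact hL.osc b (hs0s b hb) _ _ (by linarith) (by linarith)
          have h2 := dist_triangle y' y (A a)
          have h3 := dist_triangle y (A (T z)) (A a)
          linarith
        · push Not at hc
          rw [hoff _ hc]
          obtain ⟨y', hy', hfy'⟩ := hdisp (A (T z))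
          rw [hfy']
          apply hdr
          have h2 := dist_triangle y' (A (T z)) (A a)
          linarith
      obtain ⟨P'', f'', H'', h1, h2⟩ := H'.step hm hf0 (A := fun w => A (T w))
        (fun u hu v hv huv => hTinj (hAinj a has a has _ _ (hT2 u (mem_closedBall_zero_iff.1 hu))
          (hT2 v (mem_closedBall_zero_iff.1 hv)) huv))
        (fun z hz => LD.comp_fun (g := A) (hL.gd.ld _ (hnorm a has _
          (hT2 z (mem_closedBall_zero_iff.1 hz)))) (hTd z)) hdi hdd hfd
        (fun z hz => by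
          rw [hims]
          exact (ht3 (T z) (by rw [hTn, hz, mul_one])).1)
        (fun z hz => (ht3 (T z) (by rw [hTn, hz, mul_one])).2)
      rw [himc] at H'' h2
      rw [himb] at h1
      have hsubt : A '' closedBall a t ⊆ A '' closedBall a δ :=
        image_mono (closedBall_subset_closedBall ht2.le)
      have hbsub : A '' ball a t ⊆ A '' closedBall a δ :=
        (image_mono ball_subset_closedBall).trans hsubt
      have hf'a : ∀ x ∈ A '' closedBall a δ, f' x = f x := fun x hx =>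
        hoff x fun b hb hxb => hdj a has b (hs0s b hb) (fun h => has0 (h ▸ hb)) x hx hxb
      refine ⟨R' ∪ A '' closedBall a t, P'', f'', H'', hRR.trans subset_union_left,
        union_subset hRV' (hsubt.trans (hV a has)), ?_, ?_, ?_⟩
      · intro b hb
        rw [Finset.mem_insert] at hb
        rcases hb with rfl | hb
        · exact (image_mono (closedBall_subset_closedBall ht1.le)).trans subset_union_right
        · exact (hcov b hb).trans subset_union_left
      · intro x hx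
        rw [h1 x fun h => hx a (Finset.mem_insert_self a s0) (hbsub h)]
        exact hoff x fun b hb => hx b (Finset.mem_insert_of_mem hb)
      · intro b hb x hx
        rw [Finset.mem_insert] at hb
        rcases hb with rfl | hb
        · by_cases hxt : x ∈ A '' closedBall b t
          · obtain ⟨y, hy, hyx⟩ := h2 x hxt
            exact ⟨y, hsubt hy, by rw [← hyx, hf'a y (hsubt hy)]⟩
          · rw [h1 x fun h => hxt (image_mono ball_subset_closedBall h), hf'a x hx]
            exact ⟨x, hx, rfl⟩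
        · rw [h1 x fun h => hdj b (hs0s b hb) a has (fun h => has0 (h ▸ hb)) x hx (hbsub h)]
          exact hin b hb x hx
  obtain ⟨R', P', f', g1, g2, g2', g3, g4, g5⟩ := main s (Finset.Subset.refl s)
  refine ⟨R', P', f', g1, g2, g2', g3, fun x => ?_⟩
  by_cases hc : ∃ b ∈ s, x ∈ A '' closedBall b δ
  · obtain ⟨b, hb, hxb⟩ := hc
    obtain ⟨y, hy, hfy⟩ := g5 b hb x hxb
    obtain ⟨y', hy', hfy'⟩ := hdisp y
    refine ⟨y', ?_, by rw [← hfy, hfy']⟩
    have h1 : dist y x ≤ η := by
      obtain ⟨u, hu, rfl⟩ := hy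
      obtain ⟨v, hv, rfl⟩ := hxb
      rw [mem_closedBall, dist_eq_norm] at hu hv
      exact hL.osc b hb _ _ (by linarith) (by linarith)
    have h2 := dist_triangle y' y x
    linarith
  · push Not at hc
    obtain ⟨y', hy', hfy'⟩ := hdisp x
    exact ⟨y', by linarith, by rw [g4 x hc, hfy']⟩

/-- **All layers.** -/
theorem all_layers (hm : 2 ≤ m) {f0 : X → Y} (hf0 : IsHomeomorph f0) {η lam : ℝ} (hη : 0 ≤ η)
    {ι : Type} {A : ι → E (m + 1) → X} {ρ δ δ' : ι → ℝ} {s : ι → Finset (E (m + 1))}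
    (hcell : ∀ i, ∀ a ∈ s i, ∃ d : E (m + 1) → Y, Injective d ∧ (∀ z, LD (m + 1) d z) ∧
      ∀ x', dist x' (A i a) ≤ lam → f0 x' ∈ range d)
    (hL : ∀ i, Lay (m := m) f0 η (A i) (ρ i) (δ i) (δ' i) (s i)) {V : Set X}
    (hV : ∀ i, ∀ a ∈ s i, A i '' closedBall a (δ i) ⊆ V) (T : Finset ι)
    (hT : (T.card + 1) * η ≤ lam) :
    ∃ (R P : Set X) (f : X → Y), St (m := m) f0 R P f ∧ R ⊆ V ∧
      (∀ i ∈ T, ∀ a ∈ s i, A i '' closedBall a (δ' i) ⊆ R) ∧ Disp f0 f (T.card * η) := by
  classical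
  induction T using Finset.induction_on with
  | empty =>
    refine ⟨∅, ∅, f0, ⟨hf0, isClosed_empty, finite_empty, fun x _ => rfl,
      fun x hx => absurd hx (notMem_empty x), fun p hp => absurd hp (notMem_empty p)⟩,
      empty_subset V, fun i hi => absurd hi (Finset.notMem_empty i), fun x => ⟨x, ?_, rfl⟩⟩
    simp
  | insert i T hiT ih =>
    rw [Finset.card_insert_of_notMem hiT] at hT
    push_cast at hT
    obtain ⟨R, P, f, H, h0, h1, h2⟩ := ih (by nlinarith)
    obtain ⟨R', P', f', H', g1, g0, g2, g3⟩ := layer_step hm H hf0.continuous (hL i) h2 hη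
      (lam := lam) (by nlinarith) (hcell i) (hV i) h0
    refine ⟨R', P', f', H', g0, ?_, ?_⟩
    · intro j hj a ha
      rw [Finset.mem_insert] at hj
      rcases hj with rfl | hj
      · exact g2 a ha
      · exact (h1 j hj a ha).trans g1
    · rw [Finset.card_insert_of_notMem hiT]
      have e : ((T.card + 1 : ℕ) : ℝ) * η = T.card * η + η := by
        push_cast
        ring
      rw [e]
      exact g3

end Pool.Agent.H816.Ph
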