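import Pool.Agent.H816.Ph7

/-!
# Homeomorphisms of class `W^{2,n-1}` are limits of homeomorphisms with isolated singular points
-/

set_option autoImplicit false
set_option linter.unusedSectionVars false

open Set Filter Topology Metric MeasureTheory Module Function
open scoped Manifold ContDiff ENNReal Uniformity

noncomputable section

namespace Pool.Agent.H816.Ph

open Pool.Agent.Y522 Pool.Agent.Y207.SH3 Pool.Agent.Q169.AA Pool.Agent.H816.Sob Pool.Agent.H816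

variable {m : ℕ}

theorem Gd.shrink {n : ℕ} {X Y : Type} [TopologicalSpace X] [ChartedSpace (E n) X]
    [TopologicalSpace Y] [ChartedSpace (E n) Y] {f0 : X → Y} {A : E n → X} {ρ ρ' : ℝ}
    (h : Gd f0 A ρ) (h0 : 0 < ρ') (h1 : ρ' ≤ ρ) : Gd f0 A ρ' := by
  refine ⟨h0, h.inj.mono (closedBall_subset_closedBall (by linarith)),
    fun z hz => h.ld z (by linarith), fun a ha => ?_⟩
  filter_upwards [h.gen a (by linarith)] with t ht ht0 ht1 using ht ht0 (by linarith)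

/-- coordinates in an open set -/
theorem Gd.inside {n : ℕ} {X Y : Type} [TopologicalSpace X] [ChartedSpace (E n) X]
    [TopologicalSpace Y] [ChartedSpace (E n) Y] {f0 : X → Y} {A : E n → X} {ρ : ℝ}
    (h : Gd f0 A ρ) {V : Set X} (hV : IsOpen V) (h0 : A 0 ∈ V) :
    ∃ ρ', Gd f0 A ρ' ∧ ∀ z : E n, ‖z‖ ≤ 3 * ρ' → A z ∈ V := by
  have hc : ContinuousAt A 0 := (h.ld 0 (by
    rw [norm_zero]
    linarith [h.pos])).continuousAt
  obtain ⟨r, hr, h1⟩ := Metric.mem_nhds_iff.1 (hc.preimage_mem_nhds (hV.mem_nhds h0))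
  refine ⟨min ρ (r / 4), h.shrink (lt_min h.pos (by positivity)) (min_le_left _ _), fun z hz => ?_⟩
  apply h1
  rw [mem_ball_zero_iff]
  have := min_le_right ρ (r / 4)
  linarith

/-- metric version -/
theorem exists_metric (hm : 2 ≤ m) {X Y : Type} [MetricSpace X]
    [ChartedSpace (E (m + 1)) X] [TopologicalSpace Y] [T2Space Y]
    [ChartedSpace (E (m + 1)) Y] [IsManifold (𝓡 (m + 1)) ∞ Y] {f0 : X → Y}
    (hf0 : IsHomeomorph f0) {S V0 : Set X} (hS : IsCompact S) (hV0 : IsOpen V0) (hSV0 : S ⊆ V0)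
    (hgd : ∀ x ∈ S, ∃ (A : E (m + 1) → X) (ρ : ℝ), A 0 = x ∧ Gd (n := m + 1) f0 A ρ)
    {O : Set (X × Y)} (hO : IsOpen O) (hfO : ∀ x, (x, f0 x) ∈ O) :
    ∃ (R P : Set X) (f : X → Y), St (m := m) f0 R P f ∧ R ⊆ V0 ∧ (∀ x ∈ S, R ∈ 𝓝 x) ∧
      ∀ x, (x, f x) ∈ O := by
  classical
  have : LocallyCompactSpace X := ChartedSpace.locallyCompactSpace (E (m + 1)) X
  obtain ⟨V, hV, hSV, hVV0, hVc⟩ := exists_open_between_and_isCompact_closure hS hV0 hSV0
  obtain ⟨N, hN⟩ := layers (m + 1)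
  have hgd' : ∀ x : S, ∃ (A : E (m + 1) → X) (ρ : ℝ), A 0 = x ∧ Gd (n := m + 1) f0 A ρ ∧
      ∀ z : E (m + 1), ‖z‖ ≤ 3 * ρ → A z ∈ V := by
    intro x
    obtain ⟨A, ρ, h1, h2⟩ := hgd x x.2
    obtain ⟨ρ', h3, h4⟩ := h2.inside hV (by rw [h1]; exact hSV x.2)
    exact ⟨A, ρ', h1, h3, h4⟩
  choose A ρ hA0 hG hAV using hgd'
  -- a finite cover
  have hnb : ∀ x : S, A x '' ball 0 (ρ x) ∈ 𝓝 (x : X) := by
    intro x
    have h1 : LD (m + 1) (A x) 0 := (hG x).ld 0 (by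
      rw [norm_zero]
      linarith [(hG x).pos])
    have h2 := h1.image_mem_nhds (ball_mem_nhds 0 (hG x).pos)
    rwa [hA0] at h2
  obtain ⟨T0, hT0⟩ := hS.elim_nhds_subcover' (fun x hx => A ⟨x, hx⟩ '' ball 0 (ρ ⟨x, hx⟩))
    (fun x hx => hnb ⟨x, hx⟩)
  -- the Lebesgue number of the cells
  obtain ⟨lam, hlam, hcell⟩ : ∃ lam : ℝ, 0 < lam ∧ ∀ x ∈ closure V, ∃ d : E (m + 1) → Y,
      Injective d ∧ (∀ z, LD (m + 1) d z) ∧ ∀ x', dist x' x ≤ lam → f0 x' ∈ range d := by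
    have h1 : ∀ y : Y, ∃ c : E (m + 1) → Y, c 0 = y ∧ Injective c ∧ (∀ z, LD (m + 1) c z) ∧
        ∀ z, c z ∈ (univ : Set Y) := fun y => cell_exists univ_mem
    choose c hc0 hci hcd _ using h1
    have hop : ∀ y, IsOpen (range (c y)) := by
      intro y
      rw [isOpen_iff_mem_nhds]
      rintro _ ⟨z, rfl⟩
      have h2 := (hcd y z).image_mem_nhds (s := univ) univ_mem
      rwa [image_univ] at h2
    obtain ⟨δ, hδ, h3⟩ := lebesgue_number_lemma_of_metric (s := closure V)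
      (c := fun y => f0 ⁻¹' range (c y)) hVc
      (fun y => (hop y).preimage hf0.continuous)
      (fun x _ => mem_iUnion.2 ⟨f0 x, ⟨0, hc0 _⟩⟩)
    refine ⟨δ / 2, by positivity, fun x hx => ?_⟩
    obtain ⟨y, hy⟩ := h3 x hx
    refine ⟨c y, hci y, hcd y, fun x' hx' => hy ?_⟩
    rw [mem_ball]
    linarith
  -- the scale of the approximation
  obtain ⟨ε, hε, hclose⟩ : ∃ ε : ℝ, 0 < ε ∧ ∀ x ∈ closure V, ∀ x' : X, dist x' x ≤ ε →
      (x, f0 x') ∈ O := by
    have h1 : IsOpen {z : X × X | (z.1, f0 z.2) ∈ O} :=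
      hO.preimage (continuous_fst.prodMk (hf0.continuous.comp continuous_snd))
    have h2 : IsCompact ((fun x : X => (x, x)) '' closure V) := hVc.image (by fun_prop)
    obtain ⟨ε, hε, h3⟩ := h2.exists_thickening_subset_open h1 (by
      rintro _ ⟨x, -, rfl⟩
      exact hfO x)
    refine ⟨ε / 2, by positivity, fun x hx x' h => ?_⟩
    have h4 : (x, x') ∈ thickening ε ((fun x : X => (x, x)) '' closure V) := by
      rw [mem_thickening_iff]
      refine ⟨(x, x), ⟨x, hx, rfl⟩, ?_⟩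
      rw [Prod.dist_eq, max_lt_iff]
      refine ⟨by rw [dist_self]; exact hε, ?_⟩
      show dist x' x < ε
      linarith
    exact h3 h4
  obtain ⟨C, hC⟩ : ∃ C : ℝ, C = (Fintype.card ({x // x ∈ T0} × Fin N) : ℝ) := ⟨_, rfl⟩
  have hC0 : 0 ≤ C := by
    rw [hC]
    positivity
  obtain ⟨η, hη, hη1, hη2⟩ : ∃ η : ℝ, 0 < η ∧ (C + 1) * η ≤ lam ∧ (C + 1) * η ≤ ε := by
    refine ⟨min lam ε / (C + 1), by positivity, ?_, ?_⟩
    · rw [mul_div_cancel₀ _ (by positivity)]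
      exact min_le_left _ _
    · rw [mul_div_cancel₀ _ (by positivity)]
      exact min_le_right _ _
  -- the radii
  have hrad : ∀ x : S, ∃ δ : ℝ, 0 < δ ∧ δ ≤ ρ x ∧ ∀ u v : E (m + 1), ‖u‖ ≤ 3 * ρ x → ‖v‖ ≤ 3 * ρ x →
      ‖u - v‖ ≤ 4 * δ → dist (A x u) (A x v) ≤ η := by
    intro x
    have h1 : ContinuousOn (A x) (closedBall 0 (3 * ρ x)) := fun z hz =>
      ((hG x).ld z (mem_closedBall_zero_iff.1 hz)).continuousAt.continuousWithinAt
    have h2 := (isCompact_closedBall (0 : E (m + 1)) (3 * ρ x)).uniformContinuousOn_of_continuous h1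
    obtain ⟨δ, hδ, h3⟩ := Metric.uniformContinuousOn_iff.1 h2 η hη
    refine ⟨min (δ / 5) (ρ x), lt_min (by positivity) (hG x).pos, min_le_right _ _,
      fun u v hu hv huv => ?_⟩
    refine (h3 u (mem_closedBall_zero_iff.2 hu) v (mem_closedBall_zero_iff.2 hv) ?_).le
    rw [dist_eq_norm]
    have := min_le_left (δ / 5) (ρ x)
    linarith
  choose δ hδ0 hδρ hδη using hrad
  have hlay : ∀ x : S, ∃ (δ' : ℝ) (s : Fin N → Finset (E (m + 1))), 0 < δ' ∧ δ' < δ x ∧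
      (∀ c, ∀ a ∈ s c, a ∈ closedBall (0 : E (m + 1)) (ρ x)) ∧
      (∀ c, (s c : Set (E (m + 1))).PairwiseDisjoint fun a => closedBall a (δ x)) ∧
      ∀ y ∈ closedBall (0 : E (m + 1)) (ρ x), ∃ c, ∃ a ∈ s c, y ∈ closedBall a δ' := fun x =>
    hN _ (isCompact_closedBall 0 (ρ x)) (δ x) (hδ0 x)
  choose δ' s hs1 hs2 hs3 hs4 hs5 using hlay
  have hmem : ∀ (x : S) (c : Fin N), ∀ a ∈ s x c, ‖a‖ ≤ ρ x := fun x c a ha =>
    mem_closedBall_zero_iff.1 (hs3 x c a ha)
  have hL : ∀ i : {x // x ∈ T0} × Fin N, Lay (m := m) f0 η (A i.1) (ρ i.1) (δ i.1) (δ' i.1)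
      (s i.1 i.2) := by
    intro i
    refine ⟨hG _, hs1 _, hs2 _, hδρ _, hmem _ _, hs4 _ _, ?_⟩
    intro a ha u v hu hv
    have h0 := hmem _ _ a ha
    have h1 := hδρ i.1
    refine hδη i.1 u v ?_ ?_ ?_
    · have h4 := norm_add_le (u - a) a
      rw [sub_add_cancel] at h4
      linarith
    · have h4 := norm_add_le (v - a) a
      rw [sub_add_cancel] at h4
      linarith
    · have h4 := norm_sub_le (u - a) (v - a)
      rw [sub_sub_sub_cancel_right] at h4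
      linarith
  obtain ⟨R, P, f, H, h0, h1, h2⟩ := all_layers hm hf0 (lam := lam) hη.le (A := fun i : {x // x ∈ T0} × Fin N => A i.1)
    (s := fun i => s i.1 i.2) (fun i a ha => hcell _ (subset_closure (hAV _ _ (by
      have h5 := hmem _ _ a ha
      have h7 := (hG i.1).pos
      linarith)))) hL (V := V) (by
    rintro i a ha _ ⟨z, hz, rfl⟩
    apply hAV
    rw [mem_closedBall, dist_eq_norm] at hz
    have h4 := norm_add_le (z - a) a
    rw [sub_add_cancel] at h4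
    have h5 := hmem _ _ a ha
    have h6 := hδρ i.1
    have h7 := (hG i.1).pos
    linarith) Finset.univ (by
    rw [Finset.card_univ, ← hC]
    exact hη1)
  refine ⟨R, P, f, H, h0.trans (subset_closure.trans hVV0), fun y hy => ?_, fun x => ?_⟩
  · have h3 := hT0 hy
    simp only [mem_iUnion] at h3
    obtain ⟨x, hx, h4⟩ := h3
    have h5 : A x '' ball 0 (ρ x) ⊆ R := by
      rintro _ ⟨z, hz, rfl⟩
      obtain ⟨c, a, ha, hza⟩ := hs5 x z (ball_subset_closedBall hz)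
      exact h1 (⟨x, hx⟩, c) (Finset.mem_univ _) a ha ⟨z, hza, rfl⟩
    refine mem_of_superset ?_ h5
    obtain ⟨z, hz, hzy⟩ := h4
    have h6 := ((hG x).ld z (by
      have := mem_ball_zero_iff.1 hz
      linarith [(hG x).pos])).image_mem_nhds (isOpen_ball.mem_nhds hz)
    rw [← hzy]
    exact h6
  · by_cases hxV : x ∈ closure V
    · obtain ⟨x', hx', hfx⟩ := h2 x
      rw [hfx]
      apply hclose x hxV
      rw [Finset.card_univ, ← hC] at hx'
      linarith
    · rw [H.off x fun h => hxV (subset_closure (h0 h))]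
      exact hfO x

/-- **Isolated singular points.** -/
theorem exists_isolated (hm : 2 ≤ m) {X Y : Type} [TopologicalSpace X] [T2Space X]
    [SigmaCompactSpace X] [ChartedSpace (E (m + 1)) X] [TopologicalSpace Y] [T2Space Y]
    [ChartedSpace (E (m + 1)) Y] [IsManifold (𝓡 (m + 1)) ∞ Y] {f0 : X → Y}
    (hf0 : IsHomeomorph f0) (hSc : IsCompact {x | ¬ LD (m + 1) f0 x}) {V : Set X} (hV : IsOpen V)
    (hgd : ∀ x, ¬ LD (m + 1) f0 x → x ∈ V ∧ ∃ (A : E (m + 1) → X) (ρ : ℝ), A 0 = x ∧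
      Gd (n := m + 1) f0 A ρ)
    {O : Set (X × Y)} (hO : IsOpen O) (hfO : ∀ x, (x, f0 x) ∈ O) :
    ∃ (P : Set X) (f : X → Y), IsHomeomorph f ∧ P.Finite ∧
      (∀ x, x ∉ P → ¬ LD (m + 1) f x → x ∈ V ∧ AAM (m + 1) f x) ∧
      (∀ p ∈ P, ∀ᶠ x in 𝓝[≠] p, LD (m + 1) f x) ∧ (∀ x, (x, f x) ∈ O) ∧
      ∀ x, x ∉ V → f x = f0 x := by
  have hmet := Manifold.metrizableSpace (𝓡 (m + 1)) X
  letI := TopologicalSpace.metrizableSpaceMetric X
  obtain ⟨R, P, f, H, h1, h2, h3⟩ := exists_metric hm hf0 hSc hV (fun x hx => (hgd x hx).1)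
    (fun x hx => (hgd x hx).2) hO hfO
  refine ⟨P, f, H.homeo, H.pf, fun x hx hx2 => ?_, H.pl, h3, fun x hx => H.off x fun h => hx (h1 h)⟩
  by_cases hxR : x ∈ R
  · refine ⟨h1 hxR, ?_⟩
    by_cases hn : R ∈ 𝓝 x
    · exact (H.ar x hxR hx).to_AAM hn
    · have h4 : LD (m + 1) f0 x := by
        by_contra h
        exact hn (h2 x h)
      have h5 : f x = f0 x := by
        by_contra h
        apply hn
        have h6 : ∀ᶠ p in 𝓝 x, f p ≠ f0 p :=
          (H.homeo.continuous.continuousAt.prodMk hf0.continuous.continuousAt).eventually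
            (isOpen_ne_fun continuous_fst continuous_snd |>.mem_nhds h)
        filter_upwards [h6] with p hp
        by_contra hcon
        exact hp (H.off p hcon)
      exact (ARM.glue (H.ar x hxR hx) (ARM_of_LD (R := univ) h4)
        (Eventually.of_forall fun p => H.off p) h5).to_AAM
        (Eventually.of_forall fun p => Or.inr (mem_univ p))
  · have h4 : ∀ᶠ p in 𝓝 x, f p = f0 p := by
      filter_upwards [H.rc.isOpen_compl.mem_nhds hxR] with p hp using H.off p hp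
    have h5 : ¬ LD (m + 1) f0 x := fun h => hx2 (LD.congr h h4)
    exact absurd (mem_of_mem_nhds (h2 x h5)) hxR

end Pool.Agent.H816.Ph
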