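import Pool.Agent.H816.Conj

/-!
# Polar coordinates around a codimension two sphere
-/

set_option autoImplicit false

open Set Filter Topology Metric Function MeasureTheory Module
open scoped Manifold ContDiff NNReal

noncomputable section

namespace Pool.Agent.H816

open Pool.Agent.Y522 Pool.Agent.Y784.SH

section crit

variable {n : ℕ}

theorem LD_sph_of_left_inv {f : E n → Sn n} {g : E (n + 1) → E n} {x : E n}
    (hf : ∀ᶠ y in 𝓝 x, ContDiffAt ℝ ∞ (fun z => (f z : E (n + 1))) y)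
    (hg : DifferentiableAt ℝ g (f x : E (n + 1)))
    (hgf : ∀ᶠ y in 𝓝 x, g (f y : E (n + 1)) = y) : LD n f x := by
  refine LD_sph hf ?_
  have hfd : DifferentiableAt ℝ (fun z => (f z : E (n + 1))) x :=
    (hf.self_of_nhds).differentiableAt (by simp)
  have h1 := fderiv_comp (g := g) (f := fun z => (f z : E (n + 1))) x hg hfd
  have h2 : fderiv ℝ (g ∘ fun z => (f z : E (n + 1))) x = ContinuousLinearMap.id ℝ (E n) := by
    have h3 : (g ∘ fun z => (f z : E (n + 1))) =ᶠ[𝓝 x] fun y => y := hgf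
    rw [h3.fderiv_eq]
    exact fderiv_fun_id
  have h4 : ∀ v, (fderiv ℝ g (f x : E (n + 1))) (fderiv ℝ (fun z => (f z : E (n + 1))) x v) = v :=
    fun v => by
      have := DFunLike.congr_fun (h1.symm.trans h2) v
      simpa using this
  intro v w hvw
  rw [← h4 v, hvw, h4 w]

end crit

section pol

variable {m : ℕ}

theorem norm_cn2 (a b : ℝ) (x : E m) : ‖cn a (cn b x)‖ ^ 2 = a ^ 2 + b ^ 2 + ‖x‖ ^ 2 := by
  rw [norm_cn_sq, norm_cn_sq]
  ring

theorem smul_cn (c a : ℝ) (x : E m) : c • cn a x = cn (c * a) (c • x) := by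
  ext i
  refine Fin.cases ?_ (fun i => ?_) i <;> simp

/-- the weight -/
def wt (u : E (m + 1)) : ℝ := Real.sqrt (1 + ‖tl u‖ ^ 2)

theorem wt_pos (u : E (m + 1)) : 0 < wt u := Real.sqrt_pos.2 (by positivity)

theorem wt_sq (u : E (m + 1)) : wt u ^ 2 = 1 + ‖tl u‖ ^ 2 := Real.sq_sqrt (by positivity)

theorem wt_smooth : ContDiff ℝ ∞ (wt : E (m + 1) → ℝ) := by
  refine contDiff_iff_contDiffAt.2 fun u => ?_
  unfold wt
  refine ContDiffAt.sqrt ?_ (by positivity)
  refine contDiffAt_const.add ?_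
  exact ((contDiff_norm_sq ℝ).comp (tl : E (m + 1) →L[ℝ] E m).contDiff).contDiffAt

/-- polar coordinates, ambient version -/
def polc (u : E (m + 1)) : E (m + 1 + 1) :=
  (wt u)⁻¹ • cn (Real.sin (u 0)) (cn (Real.cos (u 0)) (tl u))

theorem norm_polc (u : E (m + 1)) : ‖polc u‖ = 1 := by
  have h1 : ‖polc u‖ ^ 2 = 1 := by
    unfold polc
    rw [norm_smul, mul_pow, norm_cn2, Real.norm_of_nonneg (inv_nonneg.2 (wt_pos u).le),
      Real.sin_sq_add_cos_sq, ← wt_sq, inv_pow, inv_mul_cancel₀]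
    exact pow_ne_zero _ (wt_pos u).ne'
  nlinarith [norm_nonneg (polc u), sq_nonneg (‖polc u‖ - 1)]

/-- polar coordinates -/
def pol (u : E (m + 1)) : Sn (m + 1) := ⟨polc u, by simpa using norm_polc u⟩

theorem polc_smooth : ContDiff ℝ ∞ (polc : E (m + 1) → E (m + 1 + 1)) := by
  refine contDiff_iff_contDiffAt.2 fun u => ?_
  unfold polc
  refine ContDiffAt.smul (wt_smooth.contDiffAt.inv (wt_pos u).ne') ?_
  refine contDiff_cn' ?_ (contDiff_cn' ?_ ?_)
  · exact (Real.contDiff_sin.comp contDiff_head).contDiffAt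
  · exact (Real.contDiff_cos.comp contDiff_head).contDiffAt
  · exact (tl : E (m + 1) →L[ℝ] E m).contDiff.contDiffAt

theorem polc_zero (u : E (m + 1)) : polc u 0 = (wt u)⁻¹ * Real.sin (u 0) := by
  simp [polc]

theorem polc_one (u : E (m + 1)) : tl (polc u) 0 = (wt u)⁻¹ * Real.cos (u 0) := by
  unfold polc
  rw [map_smul, tl_cn]
  simp

theorem polc_tail (u : E (m + 1)) : tl (tl (polc u)) = (wt u)⁻¹ • tl u := by
  unfold polc
  rw [map_smul, tl_cn, map_smul, tl_cn]

/-- the distance from the axis -/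
def rd (y : E (m + 1 + 1)) : ℝ := Real.sqrt (y 0 ^ 2 + (tl y) 0 ^ 2)

theorem rd_polc (u : E (m + 1)) : rd (polc u) = (wt u)⁻¹ := by
  unfold rd
  rw [polc_zero, polc_one, mul_pow, mul_pow, ← mul_add, Real.sin_sq_add_cos_sq, mul_one,
    Real.sqrt_sq (inv_nonneg.2 (wt_pos u).le)]

theorem rd_cont : Continuous (rd : E (m + 1 + 1) → ℝ) := by
  unfold rd
  have h1 : Continuous fun y : E (m + 1 + 1) => y 0 := continuous_head
  have h2 : Continuous fun y : E (m + 1 + 1) => (tl y) 0 := continuous_head.comp tl.continuous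
  fun_prop

theorem rd_smooth {y : E (m + 1 + 1)} (hy : rd y ≠ 0) : ContDiffAt ℝ ∞ rd y := by
  unfold rd at hy ⊢
  refine ContDiffAt.sqrt ?_ ?_
  · refine ContDiffAt.add (contDiff_head.contDiffAt.pow 2) (ContDiffAt.pow ?_ 2)
    exact (contDiff_head.comp (tl : E (m + 1 + 1) →L[ℝ] E (m + 1)).contDiff).contDiffAt
  · intro h
    rw [h] at hy
    simp at hy

theorem pol_LD (x : E (m + 1)) : LD (m + 1) pol x := by
  set θ : ℝ := x 0 with hθ
  set P0 : E (m + 1 + 1) → ℝ := fun y => (tl y) 0 * Real.cos θ + y 0 * Real.sin θ with hP0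
  set P1 : E (m + 1 + 1) → ℝ := fun y => y 0 * Real.cos θ - (tl y) 0 * Real.sin θ with hP1
  have hP0s : ContDiff ℝ ∞ P0 :=
    ((contDiff_head.comp (tl : E (m + 1 + 1) →L[ℝ] E (m + 1)).contDiff).mul contDiff_const).add
      (contDiff_head.mul contDiff_const)
  have hP1s : ContDiff ℝ ∞ P1 :=
    (contDiff_head.mul contDiff_const).sub
      ((contDiff_head.comp (tl : E (m + 1 + 1) →L[ℝ] E (m + 1)).contDiff).mul contDiff_const)
  have e0 : ∀ u : E (m + 1), P0 (polc u) = (wt u)⁻¹ * Real.cos (u 0 - θ) := by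
    intro u
    simp only [hP0, polc_zero, polc_one, Real.cos_sub]
    ring
  have e1 : ∀ u : E (m + 1), P1 (polc u) = (wt u)⁻¹ * Real.sin (u 0 - θ) := by
    intro u
    simp only [hP1, polc_zero, polc_one, Real.sin_sub]
    ring
  refine LD_sph_of_left_inv (g := fun y => cn (θ + Real.arctan (P1 y / P0 y))
    ((rd y)⁻¹ • tl (tl y))) (Eventually.of_forall fun _ => polc_smooth.contDiffAt) ?_ ?_
  · refine (contDiff_cn' (k := 1) ?_ ?_).differentiableAt one_ne_zero
    · refine contDiffAt_const.add (Real.contDiff_arctan.contDiffAt.comp _ ?_)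
      refine (hP1s.contDiffAt.of_le (by simp)).div (hP0s.contDiffAt.of_le (by simp)) ?_
      show P0 (polc x) ≠ 0
      rw [e0, ← hθ, sub_self, Real.cos_zero, mul_one]
      exact (inv_pos.2 (wt_pos x)).ne'
    · have hr : rd (polc x) ≠ 0 := by
        rw [rd_polc]
        exact (inv_pos.2 (wt_pos x)).ne'
      refine ContDiffAt.smul (((rd_smooth hr).of_le (by simp)).inv hr) ?_
      exact (((tl : E (m + 1) →L[ℝ] E m).contDiff).comp
        (tl : E (m + 1 + 1) →L[ℝ] E (m + 1)).contDiff).contDiffAt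
  · have hev : ∀ᶠ u : E (m + 1) in 𝓝 x, |u 0 - θ| < Real.pi / 2 := by
      have h0 : Continuous fun u : E (m + 1) => (u 0 - θ : ℝ) :=
        (contDiff_head.sub contDiff_const).continuous
      have h1 : Continuous fun u : E (m + 1) => |u 0 - θ| := h0.abs
      have h2 : |x 0 - θ| < Real.pi / 2 := by
        rw [hθ, sub_self, abs_zero]
        positivity
      exact (h1.continuousAt (x := x)).eventually_lt continuousAt_const h2
    filter_upwards [hev] with u hu
    show cn (θ + Real.arctan (P1 (polc u) / P0 (polc u)))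
      ((rd (polc u))⁻¹ • tl (tl (polc u))) = u
    have hw := (wt_pos u).ne'
    rw [e0, e1, rd_polc, polc_tail, inv_inv, smul_smul, mul_inv_cancel₀ hw, one_smul,
      mul_div_mul_left _ _ (inv_ne_zero hw), ← Real.tan_eq_sin_div_cos, Real.arctan_tan]
    · rw [add_sub_cancel, cn_tl]
    · exact (abs_lt.1 hu).1
    · exact (abs_lt.1 hu).2

/-- translation of the angle -/
def sh (t : ℝ) (u : E (m + 1)) : E (m + 1) := cn (u 0 + t) (tl u)

@[simp] theorem sh_zero (t : ℝ) (u : E (m + 1)) : sh t u 0 = u 0 + t := by simp [sh]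

@[simp] theorem tl_sh (t : ℝ) (u : E (m + 1)) : tl (sh t u) = tl u := by simp [sh]

theorem wt_sh (t : ℝ) (u : E (m + 1)) : wt (sh t u) = wt u := by simp [wt]

theorem sh_sh (s t : ℝ) (u : E (m + 1)) : sh s (sh t u) = sh (t + s) u := by
  unfold sh
  rw [cn_zero, tl_cn, add_assoc]

theorem sh_0 (u : E (m + 1)) : sh 0 u = u := by
  unfold sh
  rw [add_zero, cn_tl]

theorem pol_sh (k : ℤ) (u : E (m + 1)) : pol (sh (k * (2 * Real.pi)) u) = pol u := by
  apply Subtype.ext
  show polc _ = polc _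
  unfold polc
  rw [wt_sh, sh_zero, tl_sh, Real.sin_add_int_mul_two_pi, Real.cos_add_int_mul_two_pi]

theorem pol_eq {u v : E (m + 1)} (h : pol u = pol v) : ∃ k : ℤ, v = sh (k * (2 * Real.pi)) u := by
  have h0 : polc u = polc v := congrArg Subtype.val h
  have hw : wt u = wt v := by
    have h1 := rd_polc u
    rw [h0, rd_polc] at h1
    exact (inv_injective h1).symm
  have hwne := (inv_pos.2 (wt_pos u)).ne'
  have ht : tl u = tl v := by
    have h1 := polc_tail u
    rw [h0, polc_tail, hw] at h1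
    have := (inv_pos.2 (wt_pos v)).ne'
    exact (smul_right_injective _ this h1).symm
  have hs : Real.sin (u 0) = Real.sin (v 0) := by
    have h1 := polc_zero u
    rw [h0, polc_zero, hw] at h1
    have := (inv_pos.2 (wt_pos v)).ne'
    exact (mul_left_cancel₀ this h1).symm
  have hc : Real.cos (u 0) = Real.cos (v 0) := by
    have h1 := polc_one u
    rw [h0, polc_one, hw] at h1
    have := (inv_pos.2 (wt_pos v)).ne'
    exact (mul_left_cancel₀ this h1).symm
  have h2 : ((u 0 : ℝ) : Real.Angle) = ((v 0 : ℝ) : Real.Angle) :=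
    Real.Angle.cos_sin_inj hc hs
  rw [Real.Angle.angle_eq_iff_two_pi_dvd_sub] at h2
  obtain ⟨k, hk⟩ := h2
  refine ⟨-k, ?_⟩
  unfold sh
  have h3 : u 0 + ((-k : ℤ) : ℝ) * (2 * Real.pi) = v 0 := by
    push_cast
    linarith
  rw [h3, ht, cn_tl]

theorem pol_surj {y : Sn (m + 1)} (hy : rd (y : E (m + 1 + 1)) ≠ 0) :
    ∃ u : E (m + 1), pol u = y := by
  set z : ℂ := ⟨(tl (y : E (m + 1 + 1))) 0, (y : E (m + 1 + 1)) 0⟩ with hz
  have hr : rd (y : E (m + 1 + 1)) = ‖z‖ := by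
    rw [Complex.norm_eq_sqrt_sq_add_sq]
    unfold rd
    rw [add_comm]
  have hr0 : 0 < rd (y : E (m + 1 + 1)) := lt_of_le_of_ne (Real.sqrt_nonneg _) (Ne.symm hy)
  have hn : ‖(y : E (m + 1 + 1))‖ = 1 := by simp
  have h1 : rd (y : E (m + 1 + 1)) ^ 2 + ‖tl (tl (y : E (m + 1 + 1)))‖ ^ 2 = 1 := by
    have h2 := norm_sq_split (y : E (m + 1 + 1))
    have h3 := norm_sq_split (tl (y : E (m + 1 + 1)))
    unfold rd
    rw [Real.sq_sqrt (by positivity)]
    rw [hn] at h2
    linarith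
  set ρ := rd (y : E (m + 1 + 1)) with hρ
  refine ⟨cn (Complex.arg z) (ρ⁻¹ • tl (tl (y : E (m + 1 + 1)))), Subtype.ext ?_⟩
  show polc _ = _
  have hw : wt (cn (Complex.arg z) (ρ⁻¹ • tl (tl (y : E (m + 1 + 1))))) = ρ⁻¹ := by
    unfold wt
    rw [tl_cn, norm_smul, mul_pow, Real.norm_of_nonneg (inv_nonneg.2 hr0.le)]
    have h4 : 1 + ρ⁻¹ ^ 2 * ‖tl (tl (y : E (m + 1 + 1)))‖ ^ 2 = (ρ⁻¹) ^ 2 := by
      have h5 : ‖tl (tl (y : E (m + 1 + 1)))‖ ^ 2 = 1 - ρ ^ 2 := by linarith
      rw [h5]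
      field_simp
      ring
    rw [h4, Real.sqrt_sq (inv_nonneg.2 hr0.le)]
  unfold polc
  rw [hw, inv_inv, cn_zero, tl_cn]
  have h5 : ρ * Real.sin (Complex.arg z) = (y : E (m + 1 + 1)) 0 := by
    rw [hr]
    exact Complex.norm_mul_sin_arg z
  have h6 : ρ * Real.cos (Complex.arg z) = (tl (y : E (m + 1 + 1))) 0 := by
    rw [hr]
    exact Complex.norm_mul_cos_arg z
  have h7 : ρ • cn (Real.sin (Complex.arg z)) (cn (Real.cos (Complex.arg z))
      (ρ⁻¹ • tl (tl (y : E (m + 1 + 1))))) =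
      cn (ρ * Real.sin (Complex.arg z)) (cn (ρ * Real.cos (Complex.arg z))
      (tl (tl (y : E (m + 1 + 1))))) := by
    rw [smul_cn, smul_cn, smul_smul, mul_inv_cancel₀ hr0.ne', one_smul]
  rw [h7, h5, h6, cn_tl, cn_tl]

end pol

end Pool.Agent.H816
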