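import Pool.Agent.H816.Two4

/-!
# Replacing isolated singular points of homeomorphisms: the two sides
-/

set_option autoImplicit false

open Set Filter Topology Metric Function MeasureTheory Module
open scoped Manifold ContDiff NNReal

noncomputable section

namespace Pool.Agent.H816

open Pool.Agent.Y522 Pool.Agent.Y784.SH

variable {m : ℕ}

/-- the antipodal map -/
def ng (y : Sn (m + 1)) : Sn (m + 1) := iso (LinearIsometryEquiv.neg ℝ) y

theorem ng_zero (y : Sn (m + 1)) : (ng y : E (m + 1 + 1)) 0 = -(y : E (m + 1 + 1)) 0 := by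
  show ((LinearIsometryEquiv.neg ℝ (y : E (m + 1 + 1)) : E (m + 1 + 1))) 0 = _
  simp

theorem ng_ng (y : Sn (m + 1)) : ng (ng y) = y := by
  apply Subtype.ext
  show (LinearIsometryEquiv.neg ℝ (LinearIsometryEquiv.neg ℝ (y : E (m + 1 + 1)) :
    E (m + 1 + 1)) : E (m + 1 + 1)) = y
  simp

theorem ng_LD (y : Sn (m + 1)) : LD (m + 1) ng y := iso_LD _ y

theorem ng_inj : Injective (ng : Sn (m + 1) → Sn (m + 1)) := fun a b h => by
  rw [← ng_ng a, h, ng_ng]

/-- a homeomorphism with an isolated singular point, the center of a cell `c`; the unit ball in it is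
mapped to a cell `d` -/
structure SingCell {m : ℕ} {X Y : Type*} [TopologicalSpace X] [ChartedSpace (E (m + 1)) X]
    [TopologicalSpace Y] [ChartedSpace (E (m + 1)) Y] (f : X → Y) (c : E (m + 1) → X)
    (d : E (m + 1) → Y) : Prop where
  hf : IsHomeomorph f
  ci : Injective c
  cd : ∀ x, LD (m + 1) c x
  di : Injective d
  dd : ∀ x, LD (m + 1) d x
  im : ∀ x, ‖x‖ ≤ 1 → f (c x) ∈ range d
  ld : ∀ x, x ≠ 0 → ‖x‖ ≤ 1 → LD (m + 1) f (c x)

section sing

variable {X Y : Type*} [TopologicalSpace X] [ChartedSpace (E (m + 1)) X]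
  [TopologicalSpace Y] [ChartedSpace (E (m + 1)) Y] {f : X → Y} {c : E (m + 1) → X}
  {d : E (m + 1) → Y}

/-- the map on the unit ball, with values in the sphere -/
def kk (f : X → Y) (c : E (m + 1) → X) (d : E (m + 1) → Y) (z : E (m + 1)) : Sn (m + 1) :=
  tau d (f (c z))

theorem SingCell.inv (h : SingCell f c d) (x : E (m + 1)) : invFun d (d x) = x :=
  leftInverse_invFun h.di x

theorem SingCell.inv' (_ : SingCell f c d) {y : Y} (hy : y ∈ range d) : d (invFun d y) = y :=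
  invFun_eq hy

theorem SingCell.invc (h : SingCell f c d) (x : E (m + 1)) : invFun c (c x) = x :=
  leftInverse_invFun h.ci x

theorem SingCell.rd (h : SingCell f c d) : IsOpen (range d) := by
  rw [isOpen_iff_mem_nhds]
  rintro _ ⟨x, rfl⟩
  have := (h.dd x).image_mem_nhds (univ_mem)
  rwa [image_univ] at this

theorem SingCell.inv_LD (h : SingCell f c d) {y : Y} (hy : y ∈ range d) :
    LD (m + 1) (invFun d) y := by
  obtain ⟨x, rfl⟩ := hy
  exact LD.inverse (k := d) (U := univ) isOpen_univ (fun y _ => h.dd y)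
    (g := invFun d) (fun y _ => h.inv y) (mem_univ x)

theorem SingCell.invc_LD (h : SingCell f c d) (x : E (m + 1)) :
    LD (m + 1) (invFun c) (c x) :=
  LD.inverse (k := c) (U := univ) isOpen_univ (fun y _ => h.cd y)
    (g := invFun c) (fun y _ => h.invc y) (mem_univ x)

theorem SingCell.tau_LD (h : SingCell f c d) {y : Y} (hy : y ∈ range d) :
    LD (m + 1) (tau d) y :=
  LD.comp_fun (g := tS) (tS_LD _) (h.inv_LD hy)

theorem SingCell.tau_inj (h : SingCell f c d) : InjOn (tau d) (range d) := by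
  intro y hy z hz hyz
  have h1 : invFun d y = invFun d z := tS_inj hyz
  rw [← h.inv' hy, h1, h.inv' hz]

theorem SingCell.sS_tau (h : SingCell f c d) {y : Y} (hy : y ∈ range d) :
    d (sS (tau d y : E (m + 1 + 1))) = y := by
  unfold tau
  rw [sS_tS, h.inv' hy]

theorem SingCell.kk_inj (h : SingCell f c d) {z z' : E (m + 1)} (hz : f (c z) ∈ range d)
    (hz' : f (c z') ∈ range d) (he : kk f c d z = kk f c d z') : z = z' :=
  h.ci (h.hf.injective (h.tau_inj hz hz' he))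

theorem SingCell.kk_LD (h : SingCell f c d) {z : E (m + 1)} (hz : z ≠ 0) (hz' : ‖z‖ ≤ 1) :
    LD (m + 1) (kk f c d) z :=
  LD.comp_fun (g := tau d) (h.tau_LD (h.im z hz'))
    (LD.comp_fun (g := f) (h.ld z hz hz') (h.cd z))

theorem SingCell.kk_cont (h : SingCell f c d) {z : E (m + 1)} (hz' : ‖z‖ ≤ 1) :
    ContinuousAt (kk f c d) z :=
  ContinuousAt.comp (g := tau d) (f := fun z => f (c z)) (h.tau_LD (h.im z hz')).continuousAt
    (ContinuousAt.comp (g := f) h.hf.continuous.continuousAt (h.cd z).continuousAt)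

theorem SingCell.d_kk (h : SingCell f c d) {z : E (m + 1)} (hz : f (c z) ∈ range d) :
    d (sS (kk f c d z : E (m + 1 + 1))) = f (c z) := h.sS_tau hz

/-- the germ along the equator; the lower hemisphere corresponds to the unit ball -/
def gs (f : X → Y) (c : E (m + 1) → X) (d : E (m + 1) → Y) (y : Sn (m + 1)) : Sn (m + 1) :=
  kk f c d (sS (ng y : E (m + 1 + 1)))

theorem ng_eq {y : Sn (m + 1)} (hy : y ∈ Eq0 m) : ng y ∈ Eq0 m := by
  have h1 : (y : E (m + 1 + 1)) 0 = 0 := hy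
  show (ng y : E (m + 1 + 1)) 0 = 0
  rw [ng_zero, h1, neg_zero]

theorem SingCell.gs_LD (h : SingCell f c d) {y : Sn (m + 1)} (hy : y ∈ Eq0 m) :
    LD (m + 1) (gs f c d) y := by
  have h1 := eq_norm (ng_eq hy)
  refine LD.comp_fun (g := kk f c d) (h.kk_LD ?_ h1.le)
    (LD.comp_fun (g := fun y : Sn (m + 1) => sS (y : E (m + 1 + 1))) (sS_LD (eq_den (ng_eq hy)))
      (ng_LD y))
  intro h2
  rw [h2] at h1
  simp at h1

theorem SingCell.gs_inj (h : SingCell f c d) : InjOn (gs f c d) (Eq0 m) := by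
  intro y hy z hz hyz
  have h1 := h.kk_inj (h.im _ (eq_norm (ng_eq hy)).le) (h.im _ (eq_norm (ng_eq hz)).le) hyz
  apply ng_inj
  rw [← tS_sS (eq_den (ng_eq hy)), h1, tS_sS (eq_den (ng_eq hz))]

theorem gs_ng (f : X → Y) (c : E (m + 1) → X) (d : E (m + 1) → Y) (z : E (m + 1)) :
    gs f c d (ng (tS z)) = kk f c d z := by
  unfold gs
  rw [ng_ng, sS_tS]

theorem ngtS_neg (z : E (m + 1)) : (ng (tS z) : E (m + 1 + 1)) 0 < 0 ↔ ‖z‖ < 1 := by
  rw [ng_zero, neg_lt_zero, tS_pos]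

theorem ngtS_le (z : E (m + 1)) : (ng (tS z) : E (m + 1 + 1)) 0 ≤ 0 ↔ ‖z‖ ≤ 1 := by
  rw [ng_zero, neg_nonpos, tS_nonneg]

theorem ngtS_eq {z : E (m + 1)} (hz : ‖z‖ = 1) : ng (tS z) ∈ Eq0 m := by
  refine le_antisymm ((ngtS_le z).2 hz.le) (not_lt.1 fun h => ?_)
  rw [ngtS_neg, hz] at h
  exact lt_irrefl _ h

theorem ngtS_surj {y : Sn (m + 1)} (hy : (y : E (m + 1 + 1)) 0 < 0) :
    ∃ z : E (m + 1), ‖z‖ < 1 ∧ ng (tS z) = y := by
  have h1 : 0 < (ng y : E (m + 1 + 1)) 0 := by rw [ng_zero]; linarith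
  have h2 : 1 + (ng y : E (m + 1 + 1)) 0 ≠ 0 := by positivity
  refine ⟨sS (ng y : E (m + 1 + 1)), ?_, ?_⟩
  · rw [← tS_pos, tS_sS h2]
    exact h1
  · rw [tS_sS h2, ng_ng]

theorem ngtS_cont : Continuous fun z : E (m + 1) => ng (tS z) :=
  continuous_iff_continuousAt.2 fun z => (LD.comp_fun (g := ng) (ng_LD _) (tS_LD z)).continuousAt

/-- the images of the two hemispheres -/
theorem SingCell.sides (h : SingCell f c d) {F F' : Sn (m + 1) → Sn (m + 1)}
    (hl : ∀ y, F' (F y) = y) (hr : ∀ y, F (F' y) = y) (hFc : Continuous F)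
    (he : ∀ y ∈ Eq0 m, F =ᶠ[𝓝 y] gs f c d) :
    (∀ z : E (m + 1), ‖z‖ < 1 → ∃ z', ‖z'‖ < 1 ∧ F (ng (tS z)) = kk f c d z') ∧
    (∀ z' : E (m + 1), ‖z'‖ < 1 → ∃ z, ‖z‖ < 1 ∧ F (ng (tS z)) = kk f c d z') := by
  have hFi : Injective F := fun a b hab => by rw [← hl a, hab, hl]
  set W : Set (Sn (m + 1)) := kk f c d '' ball 0 1 with hW
  set V : Set (Sn (m + 1)) := (kk f c d '' closedBall 0 1)ᶜ with hV
  have hWo : IsOpen W := by
    rw [isOpen_iff_mem_nhds]
    rintro _ ⟨z, hz, rfl⟩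
    have h1 : c '' ball 0 1 ∈ 𝓝 (c z) := (h.cd z).image_mem_nhds (isOpen_ball.mem_nhds hz)
    have h2 : f '' (c '' ball 0 1) ∈ 𝓝 (f (c z)) := h.hf.isOpenMap.image_mem_nhds h1
    have h3 := (h.tau_LD (h.im z (mem_ball_zero_iff.1 hz).le)).image_mem_nhds h2
    rw [image_image, image_image] at h3
    exact h3
  have hVo : IsOpen V := by
    have h2 : ContinuousOn (kk f c d) (closedBall 0 1) := fun y hy =>
      (h.kk_cont (mem_closedBall_zero_iff.1 hy)).continuousWithinAt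
    exact ((isCompact_closedBall _ _).image_of_continuousOn h2).isClosed.isOpen_compl
  have hVW : Disjoint W V := by
    rw [Set.disjoint_left]
    rintro _ ⟨x, hx, rfl⟩ hx'
    exact hx' ⟨x, ball_subset_closedBall hx, rfl⟩
  have heq : ∀ z : E (m + 1), ‖z‖ = 1 → F (ng (tS z)) = kk f c d z := fun z hz => by
    rw [(he _ (ngtS_eq hz)).self_of_nhds, gs_ng]
  have hcov : ∀ y : Sn (m + 1), y ∉ Eq0 m → F y ∈ W ∪ V := by
    intro y hy
    by_contra hcon
    rw [mem_union, not_or] at hcon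
    obtain ⟨h1, h2⟩ := hcon
    rw [hV, mem_compl_iff, not_not] at h2
    obtain ⟨z, hz, hzy⟩ := h2
    have hz1 : ‖z‖ = 1 := by
      refine le_antisymm (mem_closedBall_zero_iff.1 hz) (not_lt.1 fun h4 => ?_)
      exact h1 ⟨z, mem_ball_zero_iff.2 h4, hzy⟩
    have h7 : F (ng (tS z)) = F y := by rw [heq z hz1, hzy]
    exact hy (by rw [← hFi h7]; exact ngtS_eq hz1)
  -- a point of the equator
  obtain ⟨z, hz⟩ : ∃ z : E (m + 1), ‖z‖ = 1 := exists_norm_eq _ zero_le_one
  have hcont : Tendsto (fun t : ℝ => ng (tS ((1 + t) • z))) (𝓝 0) (𝓝 (ng (tS z))) := by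
    have h1 : Continuous fun t : ℝ => ng (tS ((1 + t) • z)) :=
      ngtS_cont.comp ((continuous_const.add continuous_id).smul continuous_const)
    have h2 := h1.tendsto 0
    simpa using h2
  have hcc : Continuous c := continuous_iff_continuousAt.2 fun x => (h.cd x).continuousAt
  have hev : ∀ᶠ t : ℝ in 𝓝 0, F (ng (tS ((1 + t) • z))) = kk f c d ((1 + t) • z) ∧
      f (c ((1 + t) • z)) ∈ range d := by
    have h1 := hcont.eventually (he _ (ngtS_eq hz))
    have h2 : Tendsto (fun t : ℝ => f (c ((1 + t) • z))) (𝓝 0) (𝓝 (f (c z))) := by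
      have h1 : Continuous fun t : ℝ => f (c ((1 + t) • z)) :=
        h.hf.continuous.comp
          (hcc.comp ((continuous_const.add continuous_id).smul continuous_const))
      have h2 := h1.tendsto 0
      simpa using h2
    filter_upwards [h1, h2.eventually (h.rd.mem_nhds (h.im z hz.le))] with t ht ht'
    refine ⟨?_, ht'⟩
    rw [ht, gs_ng]
  obtain ⟨δ, hδ, hδ'⟩ := Metric.eventually_nhds_iff.1 hev
  have hV1 : ∃ y : Sn (m + 1), 0 < (y : E (m + 1 + 1)) 0 ∧ F y ∈ V := by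
    obtain ⟨h1, h2⟩ := hδ' (y := δ / 2) (by
      rw [dist_zero_right, Real.norm_of_nonneg (by positivity)]
      linarith)
    have hn : ‖(1 + δ / 2) • z‖ = 1 + δ / 2 := by
      rw [norm_smul, hz, mul_one, Real.norm_of_nonneg (by positivity)]
    refine ⟨ng (tS ((1 + δ / 2) • z)), ?_, ?_⟩
    · rw [← not_le, ngtS_le, hn]
      linarith
    · rw [h1]
      rintro ⟨x, hx, hx'⟩
      have hx1 := mem_closedBall_zero_iff.1 hx
      rw [h.kk_inj (h.im _ hx1) h2 hx', hn] at hx1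
      linarith
  have hW1 : ∃ y : Sn (m + 1), (y : E (m + 1 + 1)) 0 < 0 ∧ F y ∈ W := by
    set s : ℝ := min (δ / 2) (1 / 2) with hs
    have hs0 : 0 < s := by positivity
    have hs1 : s ≤ δ / 2 := min_le_left _ _
    have hs2 : s ≤ 1 / 2 := min_le_right _ _
    obtain ⟨h1, h2⟩ := hδ' (y := -s) (by
      rw [dist_zero_right, norm_neg, Real.norm_of_nonneg hs0.le]
      linarith)
    have hn : ‖(1 + -s) • z‖ = 1 - s := by
      rw [norm_smul, hz, mul_one, Real.norm_of_nonneg (by linarith)]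
      ring
    refine ⟨ng (tS ((1 + -s) • z)), ?_, ?_⟩
    · rw [ngtS_neg, hn]
      linarith
    · rw [h1]
      refine ⟨_, ?_, rfl⟩
      rw [mem_ball_zero_iff, hn]
      linarith
  have hneW : F '' {y : Sn (m + 1) | (y : E (m + 1 + 1)) 0 < 0} ⊆ W := by
    refine (minus_conn.image F hFc.continuousOn).subset_left_of_subset_union hWo hVo hVW ?_ ?_
    · rintro _ ⟨y, hy, rfl⟩
      exact hcov y fun h => (ne_of_lt hy) h
    · obtain ⟨y, hy, hy'⟩ := hW1
      exact ⟨F y, ⟨y, hy, rfl⟩, hy'⟩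
  have hneV : F '' {y : Sn (m + 1) | 0 < (y : E (m + 1 + 1)) 0} ⊆ V := by
    refine (plus_conn.image F hFc.continuousOn).subset_left_of_subset_union hVo hWo hVW.symm ?_ ?_
    · rintro _ ⟨y, hy, rfl⟩
      rw [union_comm]
      exact hcov y fun h => (ne_of_gt hy) h
    · obtain ⟨y, hy, hy'⟩ := hV1
      exact ⟨F y, ⟨y, hy, rfl⟩, hy'⟩
  constructor
  · intro z hz
    obtain ⟨z', hz', hzz⟩ := hneW ⟨ng (tS z), (ngtS_neg z).2 hz, rfl⟩
    exact ⟨z', mem_ball_zero_iff.1 hz', hzz.symm⟩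
  · intro z' hz'
    set y := F' (kk f c d z') with hy
    have hFy : F y = kk f c d z' := hr _
    have hlt : (y : E (m + 1 + 1)) 0 < 0 := by
      by_contra hcon
      push Not at hcon
      rcases hcon.lt_or_eq with h1 | h1
      · have h2 := hneV ⟨y, h1, rfl⟩
        rw [hFy] at h2
        exact h2 ⟨z', mem_closedBall_zero_iff.2 hz'.le, rfl⟩
      · have hye : y ∈ Eq0 m := h1.symm
        have h2 := (he _ hye).self_of_nhds
        rw [hFy] at h2
        have h3 := h.kk_inj (h.im _ hz'.le) (h.im _ (eq_norm (ng_eq hye)).le) h2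
        rw [h3, eq_norm (ng_eq hye)] at hz'
        exact lt_irrefl _ hz'
    obtain ⟨z, hz, hzy⟩ := ngtS_surj hlt
    exact ⟨z, hz, by rw [hzy, hFy]⟩

end sing

end Pool.Agent.H816
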