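import Pool.Agent.H816.Sing

/-!
# Replacing isolated singular points of homeomorphisms: the new map
-/

set_option autoImplicit false

open Set Filter Topology Metric Function MeasureTheory Module
open scoped Manifold ContDiff NNReal

noncomputable section

namespace Pool.Agent.H816

open Pool.Agent.Y522 Pool.Agent.Y784.SH

variable {m : ℕ}

/-- the horn structure of a map of manifolds at a point, in coordinates -/
structure HornX {m : ℕ} {X Y : Type*} [TopologicalSpace X] [ChartedSpace (E (m + 1)) X]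
    [TopologicalSpace Y] [ChartedSpace (E (m + 1)) Y]
    (η : ℝ → ℝ) (g : X → Y) (b : X) (A : E (m + 1) → X) (B : Y → E (m + 1)) : Prop where
  A0 : A 0 = b
  LA : LD (m + 1) A 0
  LB : LD (m + 1) B (g b)
  B0 : B (g b) = 0
  lip : ∃ K : ℝ, ∀ᶠ z in 𝓝 (0 : E (m + 1) × E (m + 1)),
    ‖B (g (A z.1)) - B (g (A z.2))‖ ≤ K * ‖z.1 - z.2‖ ∧
    ‖z.1 - z.2‖ ≤ K * ‖B (g (A z.1)) - B (g (A z.2))‖
  contact : ∃ K : ℝ, ∀ᶠ x in 𝓝[≠] 0, ‖B (g (A x)) - x‖ ≤ K * η ‖x‖
  bd : ∀ k : ℕ, ∃ K : ℝ, ∀ᶠ x in 𝓝[≠] 0,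
    ‖iteratedFDeriv ℝ (k + 1) (fun x => B (g (A x))) x‖ * η ‖x‖ ^ k ≤ K

section sing

variable {X Y : Type*} [TopologicalSpace X] [ChartedSpace (E (m + 1)) X]
  [TopologicalSpace Y] [ChartedSpace (E (m + 1)) Y]

/-- change of source and target -/
theorem Horn.toX {η : ℝ → ℝ} {F : Sn (m + 1) → Sn (m + 1)} {b : Sn (m + 1)}
    {A : E (m + 1) → Sn (m + 1)} {B : Sn (m + 1) → E (m + 1)} (h : Horn η F b A B)
    {g : X → Y} {σ : Sn (m + 1) → X} {τ : Y → Sn (m + 1)} (hσ : LD (m + 1) σ b)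
    (hτ : LD (m + 1) τ (g (σ b))) (he : ∀ᶠ y in 𝓝 b, τ (g (σ y)) = F y) :
    HornX η g (σ b) (fun x => σ (A x)) fun n => B (τ n) := by
  have h0 : τ (g (σ b)) = F b := he.self_of_nhds
  have hA : Tendsto A (𝓝 0) (𝓝 b) := by
    have := h.LA.continuousAt.tendsto
    rwa [h.A0] at this
  have he' : ∀ᶠ x in 𝓝 (0 : E (m + 1)), τ (g (σ (A x))) = F (A x) := hA.eventually he
  refine ⟨by rw [h.A0], ?_, ?_, ?_, ?_, ?_, ?_⟩
  · refine LD.comp_fun (g := σ) ?_ h.LA
    rw [h.A0]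
    exact hσ
  · refine LD.comp_fun (g := B) ?_ hτ
    rw [h0]
    exact h.LB
  · show B (τ (g (σ b))) = 0
    rw [h0, h.B0]
  · obtain ⟨K, hK⟩ := h.lip
    refine ⟨K, ?_⟩
    have e1 : ∀ᶠ z : E (m + 1) × E (m + 1) in 𝓝 (0, 0), τ (g (σ (A z.1))) = F (A z.1) :=
      (continuous_fst.tendsto' ((0 : E (m + 1)), (0 : E (m + 1))) 0 rfl).eventually he'
    have e2 : ∀ᶠ z : E (m + 1) × E (m + 1) in 𝓝 (0, 0), τ (g (σ (A z.2))) = F (A z.2) :=
      (continuous_snd.tendsto' ((0 : E (m + 1)), (0 : E (m + 1))) 0 rfl).eventually he'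
    filter_upwards [hK, e1, e2] with z hz hz1 hz2
    rw [hz1, hz2]
    exact hz
  · obtain ⟨K, hK⟩ := h.contact
    refine ⟨K, ?_⟩
    filter_upwards [hK, nhdsWithin_le_nhds he'] with x hx hx'
    rw [hx']
    exact hx
  · intro k
    obtain ⟨K, hK⟩ := h.bd k
    refine ⟨K, ?_⟩
    filter_upwards [hK, nhdsWithin_le_nhds he'.eventually_nhds] with x hx hx'
    have e : (fun x => B (τ (g (σ (A x))))) =ᶠ[𝓝 x] fun x => B (F (A x)) := by
      filter_upwards [hx'] with y hy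
      rw [hy]
    rw [(e.iteratedFDeriv (𝕜 := ℝ) (k + 1)).self_of_nhds]
    exact hx

variable {f : X → Y} {c : E (m + 1) → X} {d : E (m + 1) → Y}

/-- replacing an isolated singular point in a cell -/
theorem SingCell.replace [T2Space X] (hm : 2 ≤ m) {η : ℝ → ℝ} {κ : ℝ} (hη : Gauge η κ)
    (h : SingCell f c d) :
    ∃ (g : X → Y) (b : X) (A : E (m + 1) → X) (B : Y → E (m + 1)),
      IsHomeomorph g ∧ b ∈ c '' ball 0 1 ∧ (∀ x, x ∉ c '' ball 0 1 → g =ᶠ[𝓝 x] f) ∧
      (∀ x ∈ c '' ball 0 1, g x ∈ f '' (c '' ball 0 1)) ∧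
      (∀ x ∈ c '' ball 0 1, x ≠ b → LD (m + 1) g x) ∧ HornX η g b A B := by
  classical
  obtain ⟨F, F', T, a, b, hl, hr, ha, hb, hLD, hlip, hlip', he, htip⟩ :=
    germ_gauge hm hη (fun y hy => h.gs_LD hy) h.gs_inj
  obtain ⟨A, B, hhorn⟩ := horn_of_tip hl hlip hlip' htip
  have hFc : Continuous F := continuous_iff_continuousAt.2 fun x => (hlip x).continuousAt
  have hFc' : Continuous F' := continuous_iff_continuousAt.2 fun x => (hlip' x).continuousAt
  have hFi : Injective F := fun a b hab => by rw [← hl a, hab, hl]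
  obtain ⟨hin, hsurj⟩ := h.sides hl hr hFc he
  have hcc : Continuous c := continuous_iff_continuousAt.2 fun x => (h.cd x).continuousAt
  have hbo : IsOpen (c '' ball 0 1) := by
    rw [isOpen_iff_mem_nhds]
    rintro _ ⟨x, hx, rfl⟩
    exact (h.cd x).image_mem_nhds (isOpen_ball.mem_nhds hx)
  have hbc : IsClosed (c '' closedBall 0 1) :=
    ((isCompact_closedBall (0 : E (m + 1)) 1).image hcc).isClosed
  set g : X → Y := fun x => if x ∈ c '' ball 0 1 then d (sS (F (ng (tS (invFun c x))) :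
    E (m + 1 + 1))) else f x with hg
  have hg1 : ∀ z : E (m + 1), ‖z‖ < 1 → g (c z) = d (sS (F (ng (tS z)) : E (m + 1 + 1))) := by
    intro z hz
    have h1 : c z ∈ c '' ball 0 1 := ⟨z, mem_ball_zero_iff.2 hz, rfl⟩
    rw [hg]
    simp only [if_pos h1]
    rw [h.invc]
  have hg2 : ∀ x, x ∉ c '' ball 0 1 → g x = f x := fun x hx => if_neg hx
  have hg3 : ∀ z : E (m + 1), ‖z‖ < 1 → ∃ z', ‖z'‖ < 1 ∧ F (ng (tS z)) = kk f c d z' ∧
      g (c z) = f (c z') := by
    intro z hz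
    obtain ⟨z', hz', hzz⟩ := hin z hz
    exact ⟨z', hz', hzz, by rw [hg1 z hz, hzz, h.d_kk (h.im z' hz'.le)]⟩
  -- near points which are not in the open ball
  have hnear : ∀ x, x ∉ c '' ball 0 1 → g =ᶠ[𝓝 x] f := by
    intro x hx
    by_cases hx' : x ∈ c '' closedBall 0 1
    · obtain ⟨z, hz, rfl⟩ := hx'
      have hz1 : ‖z‖ = 1 := by
        refine le_antisymm (mem_closedBall_zero_iff.1 hz) (not_lt.1 fun h4 => ?_)
        exact hx ⟨z, mem_ball_zero_iff.2 h4, rfl⟩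
      have hci : Tendsto (invFun c) (𝓝 (c z)) (𝓝 z) := by
        have := (h.invc_LD z).continuousAt.tendsto
        rwa [h.invc] at this
      have hcr : ∀ᶠ x in 𝓝 (c z), x ∈ range c := by
        have := (h.cd z).image_mem_nhds univ_mem
        rwa [image_univ] at this
      have e1 : ∀ᶠ w in 𝓝 z, F (ng (tS w)) = kk f c d w := by
        have h1 : Tendsto (fun w : E (m + 1) => ng (tS w)) (𝓝 z) (𝓝 (ng (tS z))) :=
          ngtS_cont.continuousAt.tendsto
        filter_upwards [h1.eventually (he _ (ngtS_eq hz1))] with w hw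
        rw [hw, gs_ng]
      have e2 : ∀ᶠ w in 𝓝 z, f (c w) ∈ range d :=
        (h.hf.continuous.comp hcc).continuousAt.eventually (h.rd.mem_nhds (h.im z hz1.le))
      filter_upwards [hcr, hci.eventually e1, hci.eventually e2] with x hxr hx1 hx2
      obtain ⟨w, rfl⟩ := hxr
      rw [h.invc] at hx1 hx2
      by_cases hw : ‖w‖ < 1
      · rw [hg1 w hw, hx1, h.d_kk hx2]
      · refine hg2 _ ?_
        rintro ⟨w', hw', hww⟩
        rw [h.ci hww] at hw'
        exact hw (mem_ball_zero_iff.1 hw')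
    · filter_upwards [hbc.isOpen_compl.mem_nhds hx'] with y hy
      exact hg2 y fun hy' => hy (image_mono ball_subset_closedBall hy')
  -- the map near points of the open ball
  have hnear2 : ∀ z : E (m + 1), ‖z‖ < 1 → g =ᶠ[𝓝 (c z)] fun x =>
      d (sS (F (ng (tS (invFun c x))) : E (m + 1 + 1))) := by
    intro z hz
    filter_upwards [hbo.mem_nhds ⟨z, mem_ball_zero_iff.2 hz, rfl⟩] with x hx
    obtain ⟨w, hw, rfl⟩ := hx
    rw [hg1 w (mem_ball_zero_iff.1 hw), h.invc]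
  have hden : ∀ z : E (m + 1), ‖z‖ < 1 → 1 + (F (ng (tS z)) : E (m + 1 + 1)) 0 ≠ 0 := by
    intro z hz
    obtain ⟨z', hz', hzz⟩ := hin z hz
    rw [hzz]
    exact tS_den _
  have hLD1 : ∀ z : E (m + 1), ‖z‖ < 1 → LD (m + 1) (fun x : X => ng (tS (invFun c x))) (c z) := by
    intro z hz
    refine LD.comp_fun (g := fun z : E (m + 1) => ng (tS z)) ?_ (h.invc_LD z)
    exact LD.comp_fun (g := ng) (ng_LD _) (tS_LD _)
  have hLD2 : ∀ z : E (m + 1), ‖z‖ < 1 →
      LD (m + 1) (fun y : Sn (m + 1) => d (sS (y : E (m + 1 + 1)))) (F (ng (tS z))) := fun z hz =>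
    LD.comp_fun (g := d) (h.dd _) (sS_LD (hden z hz))
  obtain ⟨zb, hzb, hzb'⟩ := ngtS_surj hb
  have hcont : ∀ z : E (m + 1), ‖z‖ < 1 → ContinuousAt g (c z) := by
    intro z hz
    refine ContinuousAt.congr ?_ (hnear2 z hz).symm
    have e1 : ContinuousAt (fun x : X => F (ng (tS (invFun c x)))) (c z) :=
      ContinuousAt.comp (g := F) hFc.continuousAt (hLD1 z hz).continuousAt
    refine ContinuousAt.comp (g := fun y : Sn (m + 1) => d (sS (y : E (m + 1 + 1))))
      (f := fun x : X => F (ng (tS (invFun c x)))) ?_ e1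
    rw [h.invc]
    exact (hLD2 z hz).continuousAt
  have hopen : ∀ z : E (m + 1), ‖z‖ < 1 → ∀ s ∈ 𝓝 (c z), g '' s ∈ 𝓝 (g (c z)) := by
    intro z hz s hs
    have h1 : s ∩ c '' ball 0 1 ∈ 𝓝 (c z) :=
      inter_mem hs (hbo.mem_nhds ⟨z, mem_ball_zero_iff.2 hz, rfl⟩)
    have h2 := (hLD1 z hz).image_mem_nhds h1
    have h3 : F '' ((fun x : X => ng (tS (invFun c x))) '' (s ∩ c '' ball 0 1)) ∈
        𝓝 (F (ng (tS z))) := by
      have e1 : Tendsto F' (𝓝 (F (ng (tS z)))) (𝓝 (ng (tS z))) := by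
        have := hFc'.continuousAt (x := F (ng (tS z))).tendsto
        rwa [hl] at this
      rw [h.invc] at h2
      filter_upwards [e1.eventually h2] with y hy
      exact ⟨F' y, hy, hr y⟩
    have h4 := (hLD2 z hz).image_mem_nhds h3
    rw [← hg1 z hz] at h4
    refine mem_of_superset h4 ?_
    rintro _ ⟨_, ⟨_, ⟨x, ⟨hxs, w, hw, rfl⟩, rfl⟩, rfl⟩, rfl⟩
    refine ⟨c w, hxs, ?_⟩
    rw [hg1 w (mem_ball_zero_iff.1 hw)]
    simp only [h.invc]
  have hgc : Continuous g := by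
    refine continuous_iff_continuousAt.2 fun x => ?_
    by_cases hx : x ∈ c '' ball 0 1
    · obtain ⟨z, hz, rfl⟩ := hx
      exact hcont z (mem_ball_zero_iff.1 hz)
    · exact h.hf.continuous.continuousAt.congr (hnear x hx).symm
  have hgo : IsOpenMap g := by
    refine isOpenMap_iff_nhds_le.2 fun x s hs => ?_
    have hs' : g ⁻¹' s ∈ 𝓝 x := hs
    have : g '' (g ⁻¹' s) ∈ 𝓝 (g x) := by
      by_cases hx : x ∈ c '' ball 0 1
      · obtain ⟨z, hz, rfl⟩ := hx
        exact hopen z (mem_ball_zero_iff.1 hz) _ hs'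
      · have e1 := hnear x hx
        have e2 : g ⁻¹' s ∩ {y | g y = f y} ∈ 𝓝 x := inter_mem hs' e1
        have e3 := h.hf.isOpenMap.image_mem_nhds e2
        rw [← hg2 x hx] at e3
        refine mem_of_superset e3 ?_
        rintro _ ⟨y, ⟨hy, hy'⟩, rfl⟩
        exact ⟨y, hy, hy'⟩
    exact mem_of_superset this (image_preimage_subset _ _)
  have hmaps : ∀ x ∈ c '' ball 0 1, g x ∈ f '' (c '' ball 0 1) := by
    rintro _ ⟨z, hz, rfl⟩
    obtain ⟨z', hz', hzz, hz2⟩ := hg3 z (mem_ball_zero_iff.1 hz)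
    rw [hz2]
    exact ⟨c z', ⟨z', mem_ball_zero_iff.2 hz', rfl⟩, rfl⟩
  have hgi : Injective g := by
    intro x y hxy
    by_cases hx : x ∈ c '' ball 0 1 <;> by_cases hy : y ∈ c '' ball 0 1
    · obtain ⟨z, hz, rfl⟩ := hx
      obtain ⟨w, hw, rfl⟩ := hy
      obtain ⟨z', hz', h1, h2⟩ := hg3 z (mem_ball_zero_iff.1 hz)
      obtain ⟨w', hw', h3, h4⟩ := hg3 w (mem_ball_zero_iff.1 hw)
      rw [h2, h4] at hxy
      have h5 := h.ci (h.hf.injective hxy)
      rw [h5, ← h3] at h1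
      rw [tS_inj (ng_inj (hFi h1))]
    · obtain ⟨y', hy', hyy⟩ := hmaps x hx
      rw [hg2 y hy] at hxy
      rw [hxy] at hyy
      rw [h.hf.injective hyy] at hy'
      exact absurd hy' hy
    · obtain ⟨y', hy', hyy⟩ := hmaps y hy
      rw [hg2 x hx] at hxy
      rw [← hxy] at hyy
      rw [h.hf.injective hyy] at hy'
      exact absurd hy' hx
    · rw [hg2 x hx, hg2 y hy] at hxy
      exact h.hf.injective hxy
  have hgs : Surjective g := by
    intro y
    obtain ⟨x, rfl⟩ := h.hf.surjective y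
    by_cases hx : x ∈ c '' ball 0 1
    · obtain ⟨z', hz', rfl⟩ := hx
      obtain ⟨z, hz, hzz⟩ := hsurj z' (mem_ball_zero_iff.1 hz')
      refine ⟨c z, ?_⟩
      rw [hg1 z hz, hzz, h.d_kk (h.im z' (mem_ball_zero_iff.1 hz').le)]
    · exact ⟨x, hg2 x hx⟩
  have hσ : LD (m + 1) (fun y : Sn (m + 1) => c (sS (ng y : E (m + 1 + 1)))) b := by
    have h2 : 1 + (ng b : E (m + 1 + 1)) 0 ≠ 0 := by
      rw [ng_zero]
      have : 0 < 1 + -(b : E (m + 1 + 1)) 0 := by linarith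
      exact this.ne'
    exact LD.comp_fun (g := c) (h.cd _)
      (LD.comp_fun (g := fun y : Sn (m + 1) => sS (y : E (m + 1 + 1))) (sS_LD h2) (ng_LD b))
  have hσb : c (sS (ng b : E (m + 1 + 1))) = c zb := by
    rw [← hzb', ng_ng, sS_tS]
  have hgzb : g (c zb) ∈ range d := by
    rw [hg1 zb hzb]
    exact mem_range_self _
  refine ⟨g, c zb, fun x => c (sS (ng (A x) : E (m + 1 + 1))), fun n => B (tau d n),
    ⟨hgc, hgo, hgi, hgs⟩, ⟨zb, mem_ball_zero_iff.2 hzb, rfl⟩, hnear, hmaps,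
    ?_, ?_⟩
  · rintro _ ⟨z, hz, rfl⟩ hne
    have hz' := mem_ball_zero_iff.1 hz
    have hzb2 : ng (tS z) ≠ b := by
      intro h1
      rw [← hzb'] at h1
      exact hne (by rw [tS_inj (ng_inj h1)])
    have hza : ng (tS z) ≠ a := by
      intro h1
      rw [← h1] at ha
      have := (ngtS_neg z).2 hz'
      linarith
    refine LD.congr ?_ (hnear2 z hz')
    have e1 : LD (m + 1) (fun x : X => F (ng (tS (invFun c x)))) (c z) := by
      refine LD.comp_fun (g := F) ?_ (hLD1 z hz')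
      rw [h.invc]
      exact hLD _ hza hzb2
    refine LD.comp_fun (g := fun y : Sn (m + 1) => d (sS (y : E (m + 1 + 1)))) ?_ e1
    rw [h.invc]
    exact hLD2 z hz'
  · have h1 := hhorn.toX (g := g) (σ := fun y : Sn (m + 1) => c (sS (ng y : E (m + 1 + 1))))
      (τ := tau d) hσ (by
        rw [hσb]
        exact h.tau_LD hgzb) (by
        have hop : IsOpen {y : Sn (m + 1) | (y : E (m + 1 + 1)) 0 < 0} :=
          isOpen_lt cont_h0 continuous_const
        filter_upwards [hop.mem_nhds hb] with y hy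
        obtain ⟨z, hz, rfl⟩ := ngtS_surj hy
        show tau d (g (c (sS (ng (ng (tS z)) : E (m + 1 + 1))))) = _
        rw [ng_ng, sS_tS, hg1 z hz]
        unfold tau
        rw [h.inv, tS_sS (hden z hz)])
    rw [hσb] at h1
    exact h1

end sing

end Pool.Agent.H816
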