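import Pool.Agent.H816.Sing3
import Pool.Graph.R_seed8.Y522.Tools
import Pool.Graph.R_seed8.Y522.Sch

/-!
# Smooth retractions onto compact submanifolds of Euclidean spaces
-/

set_option autoImplicit false
set_option linter.unusedSectionVars false

open Set Filter Topology Metric Function Module
open scoped Manifold ContDiff

noncomputable section

namespace Pool.Agent.H816.Sk

open Pool.Agent.Y522 Pool.Agent.H816

variable {n m : ℕ} {M : Type} [TopologicalSpace M] [ChartedSpace (E n) M]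

/-- a smooth retraction is defined near the image of `C` -/
def Ret (e : M → E m) (C : Set M) (π : E m → M) (O : Set (E m)) : Prop :=
  IsOpen O ∧ (∀ x ∈ C, e x ∈ O) ∧ (∀ y ∈ O, ContMDiffAt (𝓡 m) (𝓡 n) ∞ π y) ∧
    ∀ x, e x ∈ O → π (e x) = x

/-- linear left inverses -/
theorem left_inverse {j : E n →L[ℝ] E m} (hj : Injective j) :
    ∃ l : E m →L[ℝ] E n, ∀ v, l (j v) = v := by
  obtain ⟨g, hg⟩ := j.toLinearMap.exists_leftInverse_of_injective (LinearMap.ker_eq_bot.2 hj)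
  refine ⟨LinearMap.toContinuousLinearMap g, fun v => ?_⟩
  exact congrArg (fun L => L v) hg

/-- local retractions -/
theorem local_ret [IsManifold (𝓡 n) ∞ M] {e : M → E m} (he : ContMDiff (𝓡 n) (𝓡 m) ∞ e)
    (hemb : IsEmbedding e) (hd : ∀ x, Injective (mfderiv (𝓡 n) (𝓡 m) e x)) (x : M) {W : Set M}
    (hW : W ∈ 𝓝 x) :
    ∃ (V : Set M) (π : E m → M) (O : Set (E m)), V ∈ 𝓝 x ∧ Ret (n := n) e V π O ∧ ∀ y ∈ O, π y ∈ W := by
  obtain ⟨l, hl⟩ := left_inverse (hd x)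
  obtain ⟨c, hc0, hci, hcd, -⟩ := cell_exists (n := n) (x := x) (W := univ) univ_mem
  obtain ⟨θ, hθ⟩ : ∃ θ : E n → E n, θ = fun z => l (e (c z)) := ⟨_, rfl⟩
  have hec : ∀ z, ContDiffAt ℝ ∞ (fun z => e (c z)) z := fun z =>
    contMDiffAt_iff_contDiffAt.1 (ContMDiffAt.comp z (he (c z)) (hcd z).contMDiffAt)
  have hθs : ∀ z, ContDiffAt ℝ ∞ θ z := by
    intro z
    rw [hθ]
    exact l.contDiff.contDiffAt.comp z (hec z)
  have hdc : fderiv ℝ (fun z => e (c z)) 0 =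
      (mfderiv (𝓡 n) (𝓡 m) e x).comp (mfderiv (𝓡 n) (𝓡 n) c 0) := by
    rw [← mfderiv_eq_fderiv]
    have h1 := mfderiv_comp (I := 𝓡 n) (I' := 𝓡 n) (I'' := 𝓡 m) (f := c) (g := e) 0
      ((he (c 0)).mdifferentiableAt (by simp)) ((hcd 0).contMDiffAt.mdifferentiableAt (by simp))
    rw [hc0] at h1
    exact h1
  have hcinj : Injective (mfderiv (𝓡 n) (𝓡 n) c 0) := (hcd 0).mfderiv_injective
  have hθd : Injective (fderiv ℝ θ 0) := by
    have h1 : HasFDerivAt θ (l.comp (fderiv ℝ (fun z => e (c z)) 0)) 0 := by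
      rw [hθ]
      exact l.hasFDerivAt.comp (0 : E n) ((hec 0).differentiableAt (by simp)).hasFDerivAt
    rw [h1.fderiv]
    intro v w hvw
    rw [hdc] at hvw
    change l (mfderiv (𝓡 n) (𝓡 m) e x (mfderiv (𝓡 n) (𝓡 n) c 0 v)) =
      l (mfderiv (𝓡 n) (𝓡 m) e x (mfderiv (𝓡 n) (𝓡 n) c 0 w)) at hvw
    have h2 := hl (mfderiv (𝓡 n) (𝓡 n) c 0 v)
    have h3 := hl (mfderiv (𝓡 n) (𝓡 n) c 0 w)
    exact hcinj (h2.symm.trans (hvw.trans h3))
  have hθL : LD n θ 0 := by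
    refine LD_of_bij (Eventually.of_forall hθs) ⟨hθd, ?_⟩
    exact LinearMap.injective_iff_surjective.1 hθd
  obtain ⟨p, hp1, hp2, hp3, -⟩ := hθL.exists_inverse
  -- the retraction
  obtain ⟨π, hπ⟩ : ∃ π : E m → M, π = fun y => c (p (l y)) := ⟨_, rfl⟩
  have hlx : l (e x) = θ 0 := by
    rw [hθ]
    change l (e x) = l (e (c 0))
    rw [hc0]
  have hπx : π (e x) = x := by
    rw [hπ]
    change c (p (l (e x))) = x
    rw [hlx, hp2, hc0]
  have hsm : ∀ᶠ y in 𝓝 (e x), LD n p (l y) := by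
    have h1 : Tendsto l (𝓝 (e x)) (𝓝 (θ 0)) := by
      rw [← hlx]
      exact l.continuous.continuousAt
    exact h1.eventually hp1.eventually
  have hsm2 : ∀ᶠ y in 𝓝 (e x), ContMDiffAt (𝓡 m) (𝓡 n) ∞ π y := by
    filter_upwards [hsm] with y hy
    rw [hπ]
    refine ContMDiffAt.comp y (g := c) (f := fun y => p (l y)) (hcd _).contMDiffAt ?_
    refine ContMDiffAt.comp y (g := p) (f := fun y => l y) hy.contMDiffAt ?_
    exact contMDiffAt_iff_contDiffAt.2 l.contDiff.contDiffAt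
  -- the neighbourhood
  obtain ⟨V1, hV1⟩ : ∃ V1 : Set M, V1 = {y | π (e y) = y} := ⟨_, rfl⟩
  have hV1x : V1 ∈ 𝓝 x := by
    have h1 : c '' {z | p (θ z) = z} ∈ 𝓝 (c 0) := (hcd 0).image_mem_nhds hp3
    rw [hc0] at h1
    refine mem_of_superset h1 ?_
    rintro _ ⟨z, hz, rfl⟩
    rw [hV1, hπ]
    change c (p (l (e (c z)))) = c z
    have h2 : p (θ z) = z := hz
    rw [hθ] at h2
    rw [h2]
  obtain ⟨V, hVV, hVo, hxV⟩ := _root_.mem_nhds_iff.1 hV1x
  obtain ⟨O1, hO1, hVO1⟩ := (hemb.isOpen_iff).1 hVo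
  obtain ⟨O2, hO2s, hO2, hxO2⟩ := _root_.mem_nhds_iff.1 (hsm2.and
    ((hsm2.self_of_nhds.continuousAt.preimage_mem_nhds (by rwa [hπx]) : π ⁻¹' W ∈ 𝓝 (e x))))
  refine ⟨V ∩ e ⁻¹' O2, π, O1 ∩ O2, Filter.inter_mem (hVo.mem_nhds hxV)
    (he.continuous.continuousAt.preimage_mem_nhds (hO2.mem_nhds hxO2)),
    ⟨hO1.inter hO2, fun y hy => ⟨?_, hy.2⟩, fun y hy => (hO2s hy.2).1, fun y hy => ?_⟩,
    fun y hy => (hO2s hy.2).2⟩
  · have h1 : y ∈ e ⁻¹' O1 := by
      rw [hVO1]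
      exact hy.1
    exact h1
  · have h1 : y ∈ V := by
      rw [← hVO1]
      exact hy.1
    have h2 := hVV h1
    rw [hV1] at h2
    exact h2

/-- patching retractions -/
theorem Ret.patch [T2Space M] {e : M → E m} (hec : Continuous e) {C1 C2 : Set M}
    (hC2 : IsCompact C2) {c : E n → M} (hci : Injective c) (hcd : ∀ z, LD n c z)
    {π1 π2 : E m → M} {O1 O2 : Set (E m)} (h1 : Ret (n := n) e C1 π1 O1)
    (h2 : Ret (n := n) e C2 π2 O2) (hr : ∀ y ∈ O2, π2 y ∈ range c) :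
    ∃ π O, Ret (n := n) e (C1 ∪ C2) π O := by
  obtain ⟨a1, b1, c1, d1⟩ := h1
  obtain ⟨a2, b2, c2, d2⟩ := h2
  have hcomp : IsCompact (e '' C2) := hC2.image hec
  have hsub : e '' C2 ⊆ O2 := by
    rintro _ ⟨x, hx, rfl⟩
    exact b2 x hx
  obtain ⟨K1, hK1, hK1a, hK1b⟩ := exists_compact_between hcomp a2 hsub
  obtain ⟨K2, hK2, hK2a, hK2b⟩ := exists_compact_between hK1 a2 hK1b
  obtain ⟨f, hf0, hf1, -⟩ := exists_contMDiffMap_zero_one_of_isClosed (n := (⊤ : ℕ∞)) (𝓡 m)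
    (s := (interior K2)ᶜ) (t := K1) isOpen_interior.isClosed_compl hK1.isClosed
    (disjoint_left.2 fun y hy hy' => hy (hK2a hy'))
  obtain ⟨χ, hχ⟩ : ∃ χ : E m → ℝ, χ = fun y => f y := ⟨_, rfl⟩
  have hχs : ContMDiff (𝓡 m) 𝓘(ℝ, ℝ) ∞ χ := by
    rw [hχ]
    exact f.contMDiff
  have hχ0 : ∀ y, y ∉ K2 → χ y = 0 := by
    intro y hy
    rw [hχ]
    exact hf0 (fun h => hy (interior_subset h))
  have hχ1 : ∀ y ∈ K1, χ y = 1 := by
    intro y hy
    rw [hχ]
    exact hf1 hy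
  obtain ⟨c', hc'⟩ : ∃ c' : M → E n, ∀ z, c' (c z) = z :=
    ⟨invFun c, fun z => leftInverse_invFun hci z⟩
  have hcc : ∀ x ∈ range c, c (c' x) = x := by
    rintro _ ⟨z, rfl⟩
    rw [hc']
  have hc'd : ∀ x ∈ range c, ContMDiffAt (𝓡 n) (𝓡 n) ∞ c' x := by
    rintro _ ⟨z, rfl⟩
    exact (LD.inverse isOpen_univ (fun z _ => hcd z) (fun z _ => hc' z) (mem_univ z)).contMDiffAt
  have hro : IsOpen (range c) := by
    rw [← image_univ]
    exact isOpen_image_of_LD isOpen_univ fun z _ => hcd z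
  have hcon1 : ContinuousOn π1 O1 := fun y hy => (c1 y hy).continuousAt.continuousWithinAt
  obtain ⟨A, hA⟩ : ∃ A : Set (E m), A = O1 ∩ π1 ⁻¹' (range c) := ⟨_, rfl⟩
  have hAo : IsOpen A := by
    rw [hA]
    exact hcon1.isOpen_inter_preimage a1 hro
  obtain ⟨π, hπ⟩ : ∃ π : E m → M, π = fun y => if χ y = 0 then π1 y else if χ y = 1 then π2 y
    else c ((1 - χ y) • c' (π1 y) + χ y • c' (π2 y)) := ⟨_, rfl⟩
  have e1 : ∀ y, y ∉ K2 → π y = π1 y := by
    intro y hy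
    rw [hπ]
    change (if χ y = 0 then π1 y else _) = _
    rw [if_pos (hχ0 y hy)]
  have e2 : ∀ y ∈ K1, π y = π2 y := by
    intro y hy
    rw [hπ]
    change (if χ y = 0 then π1 y else if χ y = 1 then π2 y else _) = _
    rw [if_neg (by rw [hχ1 y hy]; exact one_ne_zero), if_pos (hχ1 y hy)]
  have e3 : ∀ y ∈ A ∩ O2, π y = c ((1 - χ y) • c' (π1 y) + χ y • c' (π2 y)) := by
    intro y hy
    rw [hA] at hy
    rw [hπ]
    change (if χ y = 0 then π1 y else if χ y = 1 then π2 y else _) = _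
    split_ifs with k1 k2
    · rw [k1, sub_zero, one_smul, zero_smul, add_zero, hcc _ hy.1.2]
    · rw [k2, sub_self, zero_smul, one_smul, zero_add, hcc _ (hr y hy.2)]
    · rfl
  refine ⟨π, (O1 \ K2) ∪ (A ∩ O2) ∪ (O2 ∩ interior K1), ?_, ?_, ?_, ?_⟩
  · exact ((a1.sdiff hK2.isClosed).union (hAo.inter a2)).union (a2.inter isOpen_interior)
  · rintro x (hx | hx)
    · left
      by_cases hx2 : e x ∈ K2
      · right
        have k1 : e x ∈ O2 := hK2b hx2
        refine ⟨?_, k1⟩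
        rw [hA]
        refine ⟨b1 x hx, ?_⟩
        change π1 (e x) ∈ range c
        rw [d1 x (b1 x hx), ← d2 x k1]
        exact hr _ k1
      · left
        exact ⟨b1 x hx, hx2⟩
    · right
      exact ⟨b2 x hx, hK1a ⟨x, hx, rfl⟩⟩
  · rintro y ((hy | hy) | hy)
    · refine (c1 y hy.1).congr_of_eventuallyEq ?_
      filter_upwards [hK2.isClosed.isOpen_compl.mem_nhds hy.2] with z hz
      exact e1 z hz
    · have hy' := hy
      rw [hA] at hy'
      have k1 : ContMDiffAt (𝓡 m) (𝓡 n) ∞ (fun y => c' (π1 y)) y :=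
        ContMDiffAt.comp y (hc'd _ hy'.1.2) (c1 y hy'.1.1)
      have k2 : ContMDiffAt (𝓡 m) (𝓡 n) ∞ (fun y => c' (π2 y)) y :=
        ContMDiffAt.comp y (hc'd _ (hr y hy.2)) (c2 y hy.2)
      have k3 : ContMDiffAt (𝓡 m) (𝓡 n) ∞
          (fun y => (1 - χ y) • c' (π1 y) + χ y • c' (π2 y)) y := by
        rw [contMDiffAt_iff_contDiffAt] at k1 k2 ⊢
        have k4 : ContDiffAt ℝ ∞ χ y := contMDiffAt_iff_contDiffAt.1 (hχs y)
        exact ((contDiffAt_const.sub k4).smul k1).add (k4.smul k2)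
      have k5 : ContMDiffAt (𝓡 m) (𝓡 n) ∞
          (fun y => c ((1 - χ y) • c' (π1 y) + χ y • c' (π2 y))) y :=
        ContMDiffAt.comp y (hcd _).contMDiffAt k3
      refine k5.congr_of_eventuallyEq ?_
      filter_upwards [(hAo.inter a2).mem_nhds hy] with z hz
      exact e3 z hz
    · refine (c2 y hy.1).congr_of_eventuallyEq ?_
      filter_upwards [isOpen_interior.mem_nhds hy.2] with z hz
      exact e2 z (interior_subset hz)
  · rintro x ((hx | hx) | hx)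
    · rw [e1 _ hx.2, d1 x hx.1]
    · have hx' := hx
      rw [hA] at hx'
      rw [e3 _ hx, d1 x hx'.1.1, d2 x hx.2, ← add_smul, sub_add_cancel, one_smul]
      refine hcc x ?_
      have k1 := hr _ hx.2
      rwa [d2 x hx.2] at k1
    · rw [e2 _ (interior_subset hx.2), d2 x hx.1]

/-- **Retractions.** A compact manifold embeds in a Euclidean space, with a smooth retraction of a
neighbourhood. -/
theorem exists_retraction (n : ℕ) (M : Type) [Nonempty M] [TopologicalSpace M] [T2Space M]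
    [CompactSpace M] [ChartedSpace (E n) M] [IsManifold (𝓡 n) ∞ M] :
    ∃ (m : ℕ) (e : M → E m) (π : E m → M) (O : Set (E m)), ContMDiff (𝓡 n) (𝓡 m) ∞ e ∧
      Injective e ∧ IsOpen O ∧ (∀ x, e x ∈ O) ∧ (∀ y ∈ O, ContMDiffAt (𝓡 m) (𝓡 n) ∞ π y) ∧
      ∀ x, π (e x) = x := by
  obtain ⟨m, e, he, hemb, hd⟩ := exists_embedding_euclidean_of_compact (M := M) (I := 𝓡 n)
  have hloc : ∀ x : M, ∃ (C : Set M) (c : E n → M) (π : E m → M) (O : Set (E m)), C ∈ 𝓝 x ∧
      IsCompact C ∧ Injective c ∧ (∀ z, LD n c z) ∧ Ret (n := n) e C π O ∧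
      ∀ y ∈ O, π y ∈ range c := by
    intro x
    obtain ⟨c, hc0, hci, hcd, -⟩ := cell_exists (n := n) (x := x) (W := univ) univ_mem
    have h1 : range c ∈ 𝓝 x := by
      rw [← hc0, ← image_univ]
      exact (hcd 0).image_mem_nhds univ_mem
    obtain ⟨V, π, O, hV, hR, hO⟩ := local_ret he hemb.isEmbedding hd x h1
    have : LocallyCompactSpace M := ChartedSpace.locallyCompactSpace (E n) M
    obtain ⟨C, hC, hCV, hCc⟩ := local_compact_nhds hV
    exact ⟨C, c, π, O, hC, hCc, hci, hcd, ⟨hR.1, fun y hy => hR.2.1 y (hCV hy), hR.2.2.1,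
      hR.2.2.2⟩, hO⟩
  choose C c π O h1 h2 h3 h4 h5 h6 using hloc
  obtain ⟨t, ht⟩ := isCompact_univ.elim_nhds_subcover (U := C) fun x _ => h1 x
  have hall : ∀ s : Finset M, ∃ π O, Ret (n := n) e (⋃ x ∈ s, C x) π O := by
    classical
    intro s
    induction s using Finset.induction_on with
    | empty =>
      obtain ⟨x0⟩ := ‹Nonempty M›
      exact ⟨fun _ => x0, ∅, isOpen_empty, fun x hx => by simp at hx, fun y hy => hy.elim,
          fun x hx => hx.elim⟩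
    | insert a s _ ih =>
      obtain ⟨π0, O0, h0⟩ := ih
      have h7 := h0.patch he.continuous (h2 a) (h3 a) (h4 a) (h5 a) (h6 a)
      rw [Finset.set_biUnion_insert, union_comm]
      exact h7
  obtain ⟨π0, O0, h0⟩ := hall t
  have h7 : ∀ x, e x ∈ O0 := fun x => h0.2.1 x (ht.2 (mem_univ x))
  exact ⟨m, e, π0, O0, he, hemb.injective, h0.1, h7, h0.2.2.1, fun x => h0.2.2.2 x (h7 x)⟩

end Pool.Agent.H816.Sk
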