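import Mathlib

/-!
# Generic sets have small energy on all small balls
-/

set_option autoImplicit false
set_option linter.unusedSectionVars false

open Set Filter Topology Metric Function Module MeasureTheory
open scoped ContDiff ENNReal

noncomputable section

namespace Pool.Agent.H816.Sk

variable {n : ℕ} {T : Type*} [MeasurableSpace T]

/-- the probability that a random set contains the center of a small ball with large measure -/
theorem vitali_bad (P : Measure T) (X : T → Set (EuclideanSpace ℝ (Fin n)))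
    (μ : Measure (EuclideanSpace ℝ (Fin n))) {d : ℕ} {C s0 : ℝ}
    (hit : ∀ (u : EuclideanSpace ℝ (Fin n)) (s : ℝ), 0 < s → s ≤ s0 →
      P {t | (X t ∩ closedBall u s).Nonempty} ≤ ENNReal.ofReal (C * s ^ d)) (hC : 0 ≤ C)
    {δ : ℝ} (hδ : 0 < δ) {r : ℝ} (hrs : 5 * r ≤ s0) :
    P {t | ∃ u ∈ X t, ∃ s : ℝ, 0 < s ∧ s ≤ r ∧ ENNReal.ofReal (δ * s ^ d) < μ (closedBall u s)} ≤
      ENNReal.ofReal (C * 5 ^ d / δ) * μ univ := by
  obtain ⟨I, hI⟩ : ∃ I : Set (EuclideanSpace ℝ (Fin n) × ℝ), I = {p | 0 < p.2 ∧ p.2 ≤ r ∧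
    ENNReal.ofReal (δ * p.2 ^ d) < μ (closedBall p.1 p.2)} := ⟨_, rfl⟩
  obtain ⟨U, hUI, hUd, hUc⟩ := Vitali.exists_disjoint_subfamily_covering_enlargement_closedBall I
    (fun p => p.1) (fun p => p.2) r (fun p hp => by
      rw [hI] at hp
      exact hp.2.1) 5 (by norm_num)
  have hU0 : ∀ p ∈ U, 0 < p.2 ∧ p.2 ≤ r ∧ ENNReal.ofReal (δ * p.2 ^ d) <
      μ (closedBall p.1 p.2) := by
    intro p hp
    have h1 := hUI hp
    rw [hI] at h1
    exact h1
  have hcount : U.Countable := by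
    refine hUd.countable_of_nonempty_interior fun p hp => ?_
    exact ⟨p.1, ball_subset_interior_closedBall (mem_ball_self (hU0 p hp).1)⟩
  have h1 : {t | ∃ u ∈ X t, ∃ s : ℝ, 0 < s ∧ s ≤ r ∧
      ENNReal.ofReal (δ * s ^ d) < μ (closedBall u s)} ⊆
      ⋃ p ∈ U, {t | (X t ∩ closedBall p.1 (5 * p.2)).Nonempty} := by
    rintro t ⟨u, hu, s, hs, hsr, hμ⟩
    obtain ⟨p, hp, hsub⟩ := hUc (u, s) (by rw [hI]; exact ⟨hs, hsr, hμ⟩)
    exact mem_iUnion₂.2 ⟨p, hp, u, hu, hsub (mem_closedBall_self hs.le)⟩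
  refine (measure_mono h1).trans ((measure_biUnion_le P hcount _).trans ?_)
  have h2 : ∀ p : U, P {t | (X t ∩ closedBall p.1.1 (5 * p.1.2)).Nonempty} ≤
      ENNReal.ofReal (C * 5 ^ d / δ) * μ (closedBall p.1.1 p.1.2) := by
    rintro ⟨p, hp⟩
    obtain ⟨k1, k2, k3⟩ := hU0 p hp
    refine (hit p.1 (5 * p.2) (by positivity) (by nlinarith)).trans ?_
    have e : C * (5 * p.2) ^ d = C * 5 ^ d / δ * (δ * p.2 ^ d) := by
      rw [mul_pow]
      field_simp
    rw [e, ENNReal.ofReal_mul (by positivity)]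
    exact mul_le_mul_right k3.le _
  refine (ENNReal.tsum_le_tsum h2).trans ?_
  rw [ENNReal.tsum_mul_left]
  refine mul_le_mul_right ?_ _
  rw [← measure_biUnion hcount hUd fun p _ => measurableSet_closedBall]
  exact measure_mono (subset_univ _)

/-- for integrable densities, the energy on small balls around random points is small -/
theorem ae_small (P : Measure T) (X : T → Set (EuclideanSpace ℝ (Fin n)))
    {S : Set (EuclideanSpace ℝ (Fin n))} {g : EuclideanSpace ℝ (Fin n) → ℝ}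
    (hg : MemLp g 1 (volume.restrict S)) {k : ℕ} (hk : 1 ≤ k) (hkn : k ≤ n) {C s0 : ℝ}
    (hs0 : 0 < s0)
    (hit : ∀ (u : EuclideanSpace ℝ (Fin n)) (s : ℝ), 0 < s → s ≤ s0 →
      P {t | (X t ∩ closedBall u s).Nonempty} ≤ ENNReal.ofReal (C * s ^ (n - k))) (hC : 0 ≤ C)
    {δ : ℝ} (hδ : 0 < δ) :
    ∀ᵐ t ∂P, ∃ r : ℝ, 0 < r ∧ ∀ u ∈ X t, ∀ s : ℝ, 0 < s → s ≤ r →
      ∫⁻ x in closedBall u s, ‖g x‖ₑ ∂(volume.restrict S) ≤ ENNReal.ofReal (δ * s ^ (n - k)) := by
  rw [ae_iff]
  obtain ⟨V, hV⟩ : ∃ V : ℝ≥0∞, V = volume (ball (0 : EuclideanSpace ℝ (Fin n)) 1) := ⟨_, rfl⟩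
  have hVf : V ≠ ⊤ := by
    rw [hV]
    exact measure_ball_lt_top.ne
  have hkey : ∀ η : ℝ, 0 < η → P {t | ¬ ∃ r : ℝ, 0 < r ∧ ∀ u ∈ X t, ∀ s : ℝ, 0 < s → s ≤ r →
      ∫⁻ x in closedBall u s, ‖g x‖ₑ ∂(volume.restrict S) ≤ ENNReal.ofReal (δ * s ^ (n - k))} ≤
      ENNReal.ofReal (C * 5 ^ (n - k) / (δ / 2)) * ENNReal.ofReal η := by
    intro η hη
    obtain ⟨g', hg', hg'1⟩ := hg.exists_simpleFunc_eLpNorm_sub_lt ENNReal.one_ne_top
      (ENNReal.ofReal_pos.2 hη).ne'
    obtain ⟨L, hL⟩ := g'.exists_forall_norm_le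
    obtain ⟨μ, hμ⟩ : ∃ μ : Measure (EuclideanSpace ℝ (Fin n)),
      μ = (volume.restrict S).withDensity (fun x => ‖g x - g' x‖ₑ) := ⟨_, rfl⟩
    have hμu : μ univ ≤ ENNReal.ofReal η := by
      rw [hμ, withDensity_apply _ MeasurableSet.univ, Measure.restrict_univ]
      rw [eLpNorm_one_eq_lintegral_enorm] at hg'
      exact hg'.le
    -- a radius
    obtain ⟨r, hr, hr1, hr2, hr3⟩ : ∃ r : ℝ, 0 < r ∧ r ≤ 1 ∧ 5 * r ≤ s0 ∧
        |L| * V.toReal * r ≤ δ / 2 := by
      have h1 : 0 ≤ |L| * V.toReal := by positivity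
      refine ⟨min 1 (min (s0 / 5) (δ / 2 / (|L| * V.toReal + 1))), by positivity,
        min_le_left _ _, ?_, ?_⟩
      · have := (min_le_right 1 (min (s0 / 5) (δ / 2 / (|L| * V.toReal + 1)))).trans
          (min_le_left _ _)
        linarith
      · have h2 := (min_le_right 1 (min (s0 / 5) (δ / 2 / (|L| * V.toReal + 1)))).trans
          (min_le_right _ _)
        calc |L| * V.toReal * min 1 (min (s0 / 5) (δ / 2 / (|L| * V.toReal + 1))) ≤
            (|L| * V.toReal + 1) * (δ / 2 / (|L| * V.toReal + 1)) := by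
              apply mul_le_mul (by linarith) h2 (by positivity) (by positivity)
          _ = δ / 2 := by field_simp
    refine le_trans (measure_mono ?_) ((vitali_bad P X μ hit hC (half_pos hδ) (r := r) hr2).trans
      (mul_le_mul_right hμu _))
    intro t ht
    change ¬ ∃ r : ℝ, _ at ht
    push_neg at ht
    obtain ⟨u, hu, s, hs, hsr, h2⟩ := ht r hr
    refine ⟨u, hu, s, hs, hsr, ?_⟩
    by_contra hcon
    rw [not_lt] at hcon
    have hs1 : s ≤ 1 := hsr.trans hr1
    have h3 : ∫⁻ x in closedBall u s, ‖g x‖ₑ ∂(volume.restrict S) ≤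
        ENNReal.ofReal (δ / 2 * s ^ (n - k)) + ENNReal.ofReal (δ / 2 * s ^ (n - k)) := by
      have h4 : ∀ x, ‖g x‖ₑ ≤ ENNReal.ofReal |L| + ‖g x - g' x‖ₑ := by
        intro x
        have e : g x = g' x + (g x - g' x) := by abel
        conv_lhs => rw [e]
        refine (enorm_add_le _ _).trans (add_le_add ?_ le_rfl)
        rw [← ofReal_norm_eq_enorm]
        exact ENNReal.ofReal_le_ofReal ((hL x).trans (le_abs_self L))
      refine (lintegral_mono h4).trans ?_
      rw [lintegral_add_left measurable_const]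
      refine add_le_add ?_ ?_
      · rw [lintegral_const, Measure.restrict_apply_univ]
        have h5 : (volume.restrict S) (closedBall u s) ≤ ENNReal.ofReal (s ^ n) * V := by
          refine (Measure.restrict_apply_le _ _).trans ?_
          rw [Measure.addHaar_closedBall _ _ hs.le, finrank_euclideanSpace, Fintype.card_fin, hV]
        refine (mul_le_mul_right h5 _).trans ?_
        have e2 : ENNReal.ofReal |L| * (ENNReal.ofReal (s ^ n) * V) =
            ENNReal.ofReal (|L| * (s ^ n * V.toReal)) := by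
          rw [ENNReal.ofReal_mul (abs_nonneg L), ENNReal.ofReal_mul (by positivity),
            ENNReal.ofReal_toReal hVf]
        rw [e2]
        apply ENNReal.ofReal_le_ofReal
        have e3 : s ^ n = s ^ k * s ^ (n - k) := by
          rw [← pow_add, Nat.add_sub_cancel' hkn]
        rw [e3]
        have h6 : s ^ k ≤ s := by
          calc s ^ k ≤ s ^ 1 := pow_le_pow_of_le_one hs.le hs1 hk
            _ = s := pow_one s
        have h7 : |L| * V.toReal * s ^ k ≤ δ / 2 := by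
          refine le_trans ?_ hr3
          apply mul_le_mul_of_nonneg_left (h6.trans hsr) (by positivity)
        calc |L| * (s ^ k * s ^ (n - k) * V.toReal) = |L| * V.toReal * s ^ k * s ^ (n - k) := by
              ring
          _ ≤ δ / 2 * s ^ (n - k) := by
              apply mul_le_mul_of_nonneg_right h7 (by positivity)
      · rw [hμ, withDensity_apply _ measurableSet_closedBall] at hcon
        exact hcon
    rw [← ENNReal.ofReal_add (by positivity) (by positivity), ← add_mul, add_halves] at h3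
    exact absurd h3 (not_le.2 h2)
  rw [← nonpos_iff_eq_zero]
  have h1 : Tendsto (fun η : ℝ => ENNReal.ofReal (C * 5 ^ (n - k) / (δ / 2)) * ENNReal.ofReal η)
      (𝓝[>] 0) (𝓝 0) := by
    have h2 : Tendsto (fun η : ℝ => ENNReal.ofReal η) (𝓝[>] 0) (𝓝 0) := by
      have := (ENNReal.continuous_ofReal.tendsto' 0 0 (by simp)).mono_left
        (nhdsWithin_le_nhds (s := Ioi (0 : ℝ)))
      exact this
    have h3 := ENNReal.Tendsto.const_mul h2 (Or.inr (ENNReal.ofReal_ne_top
      (r := C * 5 ^ (n - k) / (δ / 2))))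
    rwa [mul_zero] at h3
  refine ge_of_tendsto h1 ?_
  filter_upwards [self_mem_nhdsWithin] with η hη
  exact hkey η hη

end Pool.Agent.H816.Sk
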