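import Pool.Agent.H816.Ph5
import Pool.Agent.H816.Sk3

/-!
# Small energy implies affine approximation
-/

set_option autoImplicit false
set_option linter.unusedSectionVars false

open Set Filter Topology Metric Function Module MeasureTheory
open scoped ContDiff ENNReal

noncomputable section

namespace Pool.Agent.H816.Sk

open Pool.Agent.H816.Sob

theorem le_power {a b : ℝ} (ha : 0 ≤ a) (hb : 0 < b) {k : ℕ} (hk : 1 ≤ k) :
    a ≤ b + (b ^ (k - 1))⁻¹ * a ^ k := by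
  rcases le_total a b with h | h
  · have : 0 ≤ (b ^ (k - 1))⁻¹ * a ^ k := by positivity
    linarith
  · have e : a ^ k = a ^ (k - 1) * a := by
      rw [← pow_succ, Nat.sub_add_cancel hk]
    have h1 : b ^ (k - 1) ≤ a ^ (k - 1) := pow_le_pow_left₀ hb.le h _
    have h2 : 0 < b ^ (k - 1) := by positivity
    have h3 : a ≤ (b ^ (k - 1))⁻¹ * a ^ k := by
      rw [e, ← mul_assoc]
      have h4 : 1 ≤ (b ^ (k - 1))⁻¹ * a ^ (k - 1) := by
        rw [inv_mul_eq_div, le_div_iff₀ h2, one_mul]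
        exact h1
      nlinarith
    linarith

theorem affine_of_energy {n : ℕ} (hn : 1 ≤ n) {k : ℕ} (hk : 1 ≤ k) (hkn : k ≤ n)
    {G : EuclideanSpace ℝ (Fin n) → EuclideanSpace ℝ (Fin n)}
    {H : EuclideanSpace ℝ (Fin n) → EuclideanSpace ℝ (Fin n) →L[ℝ]
      EuclideanSpace ℝ (Fin n) →L[ℝ] EuclideanSpace ℝ (Fin n)}
    {h : EuclideanSpace ℝ (Fin n) → ℝ} {ρ K : ℝ} (hρ : 0 < ρ) (hK : 0 ≤ K)
    (hHh : ∀ y v w, ‖H y v w‖ ≤ h y * ‖v‖ * ‖w‖)
    (hlip : ∀ x ∈ ball (0 : EuclideanSpace ℝ (Fin n)) ρ,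
      ∀ y ∈ ball (0 : EuclideanSpace ℝ (Fin n)) ρ, ‖G x - G y‖ ≤ K * ‖x - y‖)
    (hw : WeakHess G H (ball 0 ρ)) (hL : MemLp h k (volume.restrict (ball 0 ρ)))
    {R : Set (EuclideanSpace ℝ (Fin n))} (hR : R ⊆ closedBall 0 (ρ / 4))
    (hen : ∀ δ : ℝ, 0 < δ → ∃ r : ℝ, 0 < r ∧ ∀ u ∈ R, ∀ s : ℝ, 0 < s → s ≤ r →
      ∫⁻ x in closedBall u s, ‖‖h x‖ ^ k‖ₑ ∂(volume.restrict (ball 0 ρ)) ≤
        ENNReal.ofReal (δ * s ^ (n - k))) {ε : ℝ} (hε : 0 < ε) :
    ∃ r : ℝ, 0 < r ∧ ∀ u ∈ R, ∀ s : ℝ, 0 < s → s ≤ r →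
      ∃ L : EuclideanSpace ℝ (Fin n) →L[ℝ] EuclideanSpace ℝ (Fin n),
        ∀ q, ‖q - u‖ ≤ s → ‖G q - G u - L (q - u)‖ ≤ ε * s := by
  have hfr : finrank ℝ (EuclideanSpace ℝ (Fin n)) = n := by simp
  obtain ⟨θ, hθ, haff⟩ := affine_at (E := EuclideanSpace ℝ (Fin n))
    (F := EuclideanSpace ℝ (Fin n)) (by rw [hfr]; exact hn) hK hε
  rw [hfr] at haff
  obtain ⟨c, hc⟩ : ∃ c : ℝ, c = volume.real (ball (0 : EuclideanSpace ℝ (Fin n)) 1) := ⟨_, rfl⟩
  have hc0 : 0 ≤ c := by rw [hc]; exact measureReal_nonneg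
  obtain ⟨β, hβ, hβ1⟩ : ∃ β : ℝ, 0 < β ∧ β * (2 ^ n * c) ≤ θ / 2 := by
    refine ⟨θ / 2 / (2 ^ n * c + 1), by positivity, ?_⟩
    rw [div_mul_eq_mul_div, div_le_iff₀ (by positivity)]
    nlinarith [show 0 ≤ 2 ^ n * c by positivity]
  obtain ⟨r0, hr0, hr0e⟩ := hen (θ / 2 * β ^ (k - 1) / 2 ^ (n - k)) (by positivity)
  refine ⟨min (r0 / 2) (ρ / 8), by positivity, fun u hu s hs hsr => ?_⟩
  have hs1 : 2 * s ≤ r0 := by
    have := hsr.trans (min_le_left _ _)
    linarith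
  have hs2 : s ≤ ρ / 8 := hsr.trans (min_le_right _ _)
  have hsub : closedBall u (2 * s) ⊆ ball 0 ρ := by
    intro x hx
    have h1 := hR hu
    rw [mem_closedBall, dist_eq_norm] at hx h1
    rw [sub_zero] at h1
    rw [mem_ball_zero_iff]
    have e : x = (x - u) + u := by abel
    rw [e]
    refine (norm_add_le _ _).trans_lt ?_
    linarith
  have hrr : (volume.restrict (ball (0 : EuclideanSpace ℝ (Fin n)) ρ)).restrict
      (closedBall u (2 * s)) = volume.restrict (closedBall u (2 * s)) := by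
    rw [Measure.restrict_restrict measurableSet_closedBall, inter_eq_left.2 hsub]
  have hfin : IsFiniteMeasure (volume.restrict (ball (0 : EuclideanSpace ℝ (Fin n)) ρ)) :=
    ⟨by rw [Measure.restrict_apply_univ]; exact measure_ball_lt_top⟩
  have hI1 : IntegrableOn (fun y => ‖h y‖) (closedBall u (2 * s)) := by
    have h1 : Integrable h (volume.restrict (ball 0 ρ)) :=
      hL.integrable (by exact_mod_cast hk)
    have h2 : IntegrableOn h (ball 0 ρ) := h1
    exact (h2.mono_set hsub).norm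
  have hIk : IntegrableOn (fun y => ‖h y‖ ^ k) (closedBall u (2 * s)) := by
    have h1 : Integrable (fun y => ‖h y‖ ^ k) (volume.restrict (ball 0 ρ)) :=
      hL.integrable_norm_pow (by omega)
    have h2 : IntegrableOn (fun y => ‖h y‖ ^ k) (ball 0 ρ) := h1
    exact h2.mono_set hsub
  have hek : ∫ y in closedBall u (2 * s), ‖h y‖ ^ k ≤
      θ / 2 * β ^ (k - 1) / 2 ^ (n - k) * (2 * s) ^ (n - k) := by
    have h1 := hr0e u hu (2 * s) (by positivity) hs1
    rw [hrr] at h1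
    rw [integral_eq_lintegral_of_nonneg_ae (Eventually.of_forall fun y =>
      pow_nonneg (norm_nonneg (h y)) k) hIk.aestronglyMeasurable]
    refine ENNReal.toReal_le_of_le_ofReal (by positivity) (le_trans (le_of_eq ?_) h1)
    refine lintegral_congr fun y => ?_
    rw [Real.enorm_eq_ofReal (pow_nonneg (norm_nonneg (h y)) k)]
  refine haff G H h ρ hρ hHh hlip hw u s hs hsub hI1 ?_
  have hb : 0 < β / s := by positivity
  have hcst : Integrable (fun _ : EuclideanSpace ℝ (Fin n) => β / s)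
      (volume.restrict (closedBall u (2 * s))) := integrableOn_const measure_closedBall_lt_top.ne
  have h2 : ∫ y in closedBall u (2 * s), ‖h y‖ ≤
      ∫ y in closedBall u (2 * s), (β / s + ((β / s) ^ (k - 1))⁻¹ * ‖h y‖ ^ k) := by
    refine integral_mono hI1 ?_ fun y => le_power (norm_nonneg _) hb hk
    exact Integrable.add hcst (hIk.const_mul _)
  refine h2.trans ?_
  rw [integral_add hcst (hIk.const_mul _),
    integral_const_mul, setIntegral_const, smul_eq_mul]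
  have h3 : volume.real (closedBall u (2 * s)) = (2 * s) ^ n * c := by
    rw [Measure.real, Measure.addHaar_closedBall _ _ (by positivity), ENNReal.toReal_mul,
      ENNReal.toReal_ofReal (by positivity), hc, hfr]
    rfl
  rw [h3]
  obtain ⟨i, rfl⟩ : ∃ i, n = i + 1 := ⟨n - 1, by omega⟩
  have h4 : (2 * s) ^ (i + 1) * c * (β / s) = β * (2 ^ (i + 1) * c) * s ^ i := by
    rw [mul_pow, pow_succ s i]
    field_simp
  have h5 : ((β / s) ^ (k - 1))⁻¹ * ∫ y in closedBall u (2 * s), ‖h y‖ ^ k ≤ θ / 2 * s ^ i := by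
    refine (mul_le_mul_of_nonneg_left hek (by positivity)).trans (le_of_eq ?_)
    have e1 : s ^ i = s ^ (k - 1) * s ^ (i + 1 - k) := by
      rw [← pow_add]
      congr 1
      omega
    rw [e1, mul_pow, div_pow]
    have : s ^ (k - 1) ≠ 0 := by positivity
    field_simp
  have h6 : i + 1 - 1 = i := by omega
  rw [h6, h4]
  have h7 : β * (2 ^ (i + 1) * c) * s ^ i ≤ θ / 2 * s ^ i :=
    mul_le_mul_of_nonneg_right hβ1 (by positivity)
  linarith

end Pool.Agent.H816.Sk
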