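import Pool.Agent.H816.Sk8

/-!
# Shifts
-/

set_option autoImplicit false
set_option linter.unusedSectionVars false

open Set Filter Topology Metric Function Module MeasureTheory
open scoped Manifold ContDiff

noncomputable section

namespace Pool.Agent.H816.Sk

open Pool.Agent.Y522 Pool.Agent.H816

variable {n m m' : ℕ} {M N : Type} [TopologicalSpace M] [ChartedSpace (E n) M]
  [TopologicalSpace N] [ChartedSpace (E n) N]

theorem LD_of_lower {T : E n → E n} {v : E n} (hTs : ∀ᶠ w in 𝓝 v, ContDiffAt ℝ ∞ T w) {c1 : ℝ}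
    (hc1 : 0 < c1) (hlow : ∀ᶠ w in 𝓝 v, c1 * ‖w - v‖ ≤ ‖T w - T v‖) : LD n T v := by
  have hTd : HasFDerivAt T (fderiv ℝ T v) v :=
    (hTs.self_of_nhds.differentiableAt (by simp)).hasFDerivAt
  have hinj : Injective (fderiv ℝ T v) := by
    rw [injective_iff_map_eq_zero]
    intro a hap
    by_contra hne
    have hapos : 0 < ‖a‖ := norm_pos_iff.2 hne
    have h1 := hTd.isLittleO.def (half_pos hc1)
    have h2 : Tendsto (fun t : ℝ => v + t • a) (𝓝[>] 0) (𝓝 v) := by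
      have h3 : Tendsto (fun t : ℝ => v + t • a) (𝓝 0) (𝓝 (v + (0 : ℝ) • a)) :=
        (continuous_const.add (continuous_id.smul continuous_const)).tendsto 0
      rw [zero_smul, add_zero] at h3
      exact h3.mono_left nhdsWithin_le_nhds
    obtain ⟨t, ⟨h4, h5⟩, ht⟩ := (((h2.eventually (h1.and hlow))).and
      self_mem_nhdsWithin).exists
    have ht0 : 0 < t := ht
    have e1 : v + t • a - v = t • a := by abel
    rw [e1, map_smul, hap, smul_zero, sub_zero, norm_smul, Real.norm_of_nonneg ht0.le] at h4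
    rw [e1, norm_smul, Real.norm_of_nonneg ht0.le] at h5
    have : 0 < c1 * (t * ‖a‖) := by positivity
    linarith
  exact LD_of_bij hTs ⟨hinj, LinearMap.injective_iff_surjective.1 hinj⟩

theorem LD_of_coord {H : N → M} {A : E n → N} {B : M → E n} {v : E n} (hA : LD n A v)
    (hB : LD n B (H (A v))) (hH : ContinuousAt H (A v))
    (hT : LD n (fun w => B (H (A w))) v) : LD n H (A v) := by
  obtain ⟨B2, b1, b2, b3, -⟩ := hB.exists_inverse
  obtain ⟨A2, a1, a2, -, a4⟩ := hA.exists_inverse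
  have hfin : LD n (fun x' => B2 ((fun w => B (H (A w))) (A2 x'))) (A v) := by
    refine LD.comp_fun (g := B2) (f := fun x' => (fun w => B (H (A w))) (A2 x')) ?_
      (LD.comp_fun (g := fun w => B (H (A w))) (f := A2) (by rw [a2]; exact hT) a1)
    change LD n B2 (B (H (A (A2 (A v)))))
    rw [a2]
    exact b1
  refine hfin.congr ?_
  filter_upwards [a4, hH.eventually b3] with x' h1 h2
  change H x' = B2 (B (H (A (A2 x'))))
  rw [h1, h2]

/-- the shift -/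
def sh (rN : RD n m N) (t : E m) (x : N) : N := rN.π (rN.e x + t)

theorem sh_tendsto (rN : RD n m N) (x0 : N) :
    Tendsto (fun p : N × E m => sh rN p.2 p.1) (𝓝 (x0, 0)) (𝓝 x0) := by
  have h1 : Tendsto (fun p : N × E m => rN.e p.1 + p.2) (𝓝 (x0, 0)) (𝓝 (rN.e x0)) := by
    have h2 : ContinuousAt (fun p : N × E m => rN.e p.1 + p.2) (x0, 0) :=
      ((rN.he.continuous.comp continuous_fst).add continuous_snd).continuousAt
    have h3 := h2.tendsto
    rwa [add_zero] at h3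
  have h2 := (rN.hπ _ (rN.heO x0)).continuousAt.tendsto
  rw [rN.hπe] at h2
  exact h2.comp h1

/-- properties which hold for small shifts near each point -/
theorem small_shift [CompactSpace N] {P : E m → N → Prop}
    (h : ∀ x0, ∀ᶠ p : N × E m in 𝓝 (x0, 0), P p.2 p.1) :
    ∃ τ : ℝ, 0 < τ ∧ ∀ t, ‖t‖ ≤ τ → ∀ x, P t x := by
  have key : ∃ τ : ℝ, 0 < τ ∧ ∀ t, ‖t‖ ≤ τ → ∀ x ∈ (univ : Set N), P t x := by
    refine isCompact_univ.induction_on (p := fun S => ∃ τ : ℝ, 0 < τ ∧ ∀ t, ‖t‖ ≤ τ →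
      ∀ x ∈ S, P t x) ⟨1, one_pos, fun t _ x hx => hx.elim⟩ ?_ ?_ ?_
    · rintro s t hst ⟨τ, hτ, h1⟩
      exact ⟨τ, hτ, fun a ha x hx => h1 a ha x (hst hx)⟩
    · rintro s t ⟨τ, hτ, h1⟩ ⟨τ', hτ', h1'⟩
      refine ⟨min τ τ', lt_min hτ hτ', fun a ha x hx => ?_⟩
      rcases hx with hx | hx
      · exact h1 a (ha.trans (min_le_left _ _)) x hx
      · exact h1' a (ha.trans (min_le_right _ _)) x hx
    · intro x0 _
      obtain ⟨u, hu, v, hv, h1⟩ := mem_nhds_prod_iff.1 (h x0)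
      obtain ⟨τ, hτ, h2⟩ := Metric.nhds_basis_closedBall.mem_iff.1 hv
      refine ⟨u, mem_nhdsWithin_of_mem_nhds hu, τ, hτ, fun t ht x hx => ?_⟩
      exact h1 (a := (x, t)) ⟨hx, h2 (by rwa [mem_closedBall_zero_iff])⟩
  obtain ⟨τ, hτ, h1⟩ := key
  exact ⟨τ, hτ, fun t ht x => h1 t ht x (mem_univ x)⟩

theorem small_shift2 [CompactSpace N] {P : E m → N → N → Prop}
    (h : ∀ x0 y0, ∀ᶠ p : (N × N) × E m in 𝓝 ((x0, y0), 0), P p.2 p.1.1 p.1.2) :
    ∃ τ : ℝ, 0 < τ ∧ ∀ t, ‖t‖ ≤ τ → ∀ x y, P t x y := by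
  have key : ∃ τ : ℝ, 0 < τ ∧ ∀ t, ‖t‖ ≤ τ → ∀ q ∈ (univ : Set (N × N)), P t q.1 q.2 := by
    refine isCompact_univ.induction_on (p := fun S : Set (N × N) => ∃ τ : ℝ, 0 < τ ∧
      ∀ t, ‖t‖ ≤ τ → ∀ q ∈ S, P t q.1 q.2) ⟨1, one_pos, fun t _ x hx => hx.elim⟩ ?_ ?_ ?_
    · rintro s t hst ⟨τ, hτ, h1⟩
      exact ⟨τ, hτ, fun a ha x hx => h1 a ha x (hst hx)⟩
    · rintro s t ⟨τ, hτ, h1⟩ ⟨τ', hτ', h1'⟩
      refine ⟨min τ τ', lt_min hτ hτ', fun a ha x hx => ?_⟩
      rcases hx with hx | hx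
      · exact h1 a (ha.trans (min_le_left _ _)) x hx
      · exact h1' a (ha.trans (min_le_right _ _)) x hx
    · rintro ⟨x0, y0⟩ _
      obtain ⟨u, hu, v, hv, h1⟩ := mem_nhds_prod_iff.1 (h x0 y0)
      obtain ⟨τ, hτ, h2⟩ := Metric.nhds_basis_closedBall.mem_iff.1 hv
      refine ⟨u, mem_nhdsWithin_of_mem_nhds hu, τ, hτ, fun t ht x hx => ?_⟩
      exact h1 (a := (x, t)) ⟨hx, h2 (by rwa [mem_closedBall_zero_iff])⟩
  obtain ⟨τ, hτ, h1⟩ := key
  exact ⟨τ, hτ, fun t ht x y => h1 t ht (x, y) (mem_univ _)⟩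

/-- in coordinates, small shifts are close to the identity in the `C¹`-sense -/
theorem shift_coord [IsManifold (𝓡 n) ∞ N] (rN : RD n m N) (x0 : N) :
    ∃ (A : E n → N) (A' : N → E n), A 0 = x0 ∧ A' x0 = 0 ∧ LD n A 0 ∧ LD n A' x0 ∧
      (∀ᶠ v in 𝓝 0, A' (A v) = v) ∧ (∀ᶠ x in 𝓝 x0, A (A' x) = x) ∧
      ∀ᶠ p : (E n × E n) × E m in 𝓝 0, ‖p.1.1 - p.1.2‖ ≤
        2 * ‖A' (sh rN p.2 (A p.1.1)) - A' (sh rN p.2 (A p.1.2))‖ := by
  obtain ⟨A, hA0, -, hAd, -⟩ := cell_exists (n := n) (x := x0) (W := univ) univ_mem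
  obtain ⟨A', hA'1, hA'2, hA'3, hA'4⟩ := (hAd 0).exists_inverse
  rw [hA0] at hA'1 hA'2 hA'4
  refine ⟨A, A', hA0, hA'2, hAd 0, hA'1, hA'3, hA'4, ?_⟩
  obtain ⟨β, hβ⟩ : ∃ β : E m → E n, β = fun y => A' (rN.π y) := ⟨_, rfl⟩
  obtain ⟨κ, hκ⟩ : ∃ κ : E n → E m, κ = fun v => rN.e (A v) := ⟨_, rfl⟩
  have sβ : ContDiffAt ℝ ∞ β (rN.e x0) := by
    rw [hβ]
    refine contMDiffAt_iff_contDiffAt.1 (ContMDiffAt.comp (rN.e x0) ?_ (rN.hπ _ (rN.heO x0)))
    rw [rN.hπe]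
    exact hA'1.contMDiffAt
  have sκ : ContDiffAt ℝ ∞ κ 0 := by
    rw [hκ]
    exact contMDiffAt_iff_contDiffAt.1 (ContMDiffAt.comp 0 (rN.he _) (hAd 0).contMDiffAt)
  have hκ0 : κ 0 = rN.e x0 := by
    rw [hκ]
    change rN.e (A 0) = _
    rw [hA0]
  have hD : ∀ a, fderiv ℝ β (rN.e x0) (fderiv ℝ κ 0 a) = a := by
    have h1 : HasFDerivAt (fun w => β (κ w)) ((fderiv ℝ β (rN.e x0)).comp
        (fderiv ℝ κ 0)) 0 := by
      refine HasFDerivAt.comp (0 : E n) ?_ (sκ.differentiableAt (by simp)).hasFDerivAt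
      rw [hκ0]
      exact (sβ.differentiableAt (by simp)).hasFDerivAt
    have h2 : HasFDerivAt (fun w => β (κ w)) (ContinuousLinearMap.id ℝ (E n)) 0 := by
      refine (hasFDerivAt_id _).congr_of_eventuallyEq ?_
      filter_upwards [hA'3] with w hw
      rw [hβ, hκ]
      change A' (rN.π (rN.e (A w))) = w
      rw [rN.hπe, hw]
    intro a
    exact congrArg (fun L => L a) (h1.unique h2)
  obtain ⟨Cκ, hCκ, rκ, hrκ, hκl⟩ := lip_of_Sd (Sd_of_contDiffAt sκ)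
  obtain ⟨rb, hrb, hbl⟩ := Sd_of_contDiffAt sβ (1 / (4 * Cκ)) (by positivity)
  obtain ⟨rk, hrk, hkl⟩ := Sd_of_contDiffAt sκ (1 / (4 * (‖fderiv ℝ β (rN.e x0)‖ + 1)))
    (by positivity)
  have ev1 : ∀ᶠ p : (E n × E n) × E m in 𝓝 0, ‖p.1.1‖ < min rκ rk ∧ ‖p.1.2‖ < min rκ rk := by
    have h1 : ∀ᶠ p : (E n × E n) × E m in 𝓝 0, ‖p‖ < min rκ rk := by
      filter_upwards [ball_mem_nhds (0 : (E n × E n) × E m) (ε := min rκ rk) (by positivity)]
        with p hp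
      exact mem_ball_zero_iff.1 hp
    filter_upwards [h1] with p hp
    have h2 : ‖p.1‖ ≤ ‖p‖ := norm_fst_le p
    exact ⟨(norm_fst_le p.1).trans_lt (h2.trans_lt hp),
      (norm_snd_le p.1).trans_lt (h2.trans_lt hp)⟩
  have ev2 : ∀ᶠ p : (E n × E n) × E m in 𝓝 0, ‖κ p.1.1 + p.2 - rN.e x0‖ < rb ∧
      ‖κ p.1.2 + p.2 - rN.e x0‖ < rb := by
    have hc : ContinuousAt κ 0 := sκ.continuousAt
    have h1 : ContinuousAt (fun p : (E n × E n) × E m => ‖κ p.1.1 + p.2 - rN.e x0‖) 0 := by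
      refine ContinuousAt.norm (ContinuousAt.sub (ContinuousAt.add ?_ continuous_snd.continuousAt)
        continuousAt_const)
      exact ContinuousAt.comp (f := fun p : (E n × E n) × E m => p.1.1) (g := κ) hc
        (continuous_fst.comp continuous_fst).continuousAt
    have h2 : ContinuousAt (fun p : (E n × E n) × E m => ‖κ p.1.2 + p.2 - rN.e x0‖) 0 := by
      refine ContinuousAt.norm (ContinuousAt.sub (ContinuousAt.add ?_ continuous_snd.continuousAt)
        continuousAt_const)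
      exact ContinuousAt.comp (f := fun p : (E n × E n) × E m => p.1.2) (g := κ) hc
        (continuous_snd.comp continuous_fst).continuousAt
    refine (h1.eventually_lt continuousAt_const ?_).and (h2.eventually_lt continuousAt_const ?_)
    · change ‖κ 0 + 0 - rN.e x0‖ < rb
      rw [add_zero, hκ0, sub_self, norm_zero]
      exact hrb
    · change ‖κ 0 + 0 - rN.e x0‖ < rb
      rw [add_zero, hκ0, sub_self, norm_zero]
      exact hrb
  filter_upwards [ev1, ev2] with p hp1 hp2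
  obtain ⟨⟨v, v'⟩, t⟩ := p
  change ‖v‖ < _ ∧ ‖v'‖ < _ at hp1
  change ‖κ v + t - rN.e x0‖ < rb ∧ ‖κ v' + t - rN.e x0‖ < rb at hp2
  change ‖v - v'‖ ≤ 2 * ‖A' (sh rN t (A v)) - A' (sh rN t (A v'))‖
  have e1 : A' (sh rN t (A v)) = β (κ v + t) := by rw [hβ, hκ]; rfl
  have e2 : A' (sh rN t (A v')) = β (κ v' + t) := by rw [hβ, hκ]; rfl
  rw [e1, e2]
  have h1 := hbl _ _ hp2.1.le hp2.2.le
  rw [add_sub_add_right_eq_sub] at h1
  have h2 := hκl v v' (by rw [sub_zero]; exact hp1.1.le.trans (min_le_left _ _))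
    (by rw [sub_zero]; exact hp1.2.le.trans (min_le_left _ _))
  have h3 := hkl v v' (by rw [sub_zero]; exact hp1.1.le.trans (min_le_right _ _))
    (by rw [sub_zero]; exact hp1.2.le.trans (min_le_right _ _))
  have h4 : 1 / (4 * Cκ) * ‖κ v - κ v'‖ ≤ 1 / 4 * ‖v - v'‖ := by
    calc 1 / (4 * Cκ) * ‖κ v - κ v'‖ ≤ 1 / (4 * Cκ) * (Cκ * ‖v - v'‖) := by gcongr
      _ = 1 / 4 * ‖v - v'‖ := by field_simp
  have h5 : ‖fderiv ℝ β (rN.e x0) (κ v - κ v' - fderiv ℝ κ 0 (v - v'))‖ ≤ 1 / 4 * ‖v - v'‖ := by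
    refine ((fderiv ℝ β (rN.e x0)).le_opNorm _).trans ?_
    calc ‖fderiv ℝ β (rN.e x0)‖ * ‖κ v - κ v' - fderiv ℝ κ 0 (v - v')‖ ≤
        (‖fderiv ℝ β (rN.e x0)‖ + 1) * (1 / (4 * (‖fderiv ℝ β (rN.e x0)‖ + 1)) * ‖v - v'‖) := by
          gcongr
          linarith
      _ = 1 / 4 * ‖v - v'‖ := by field_simp
  have e3 : v - v' = (β (κ v + t) - β (κ v' + t)) -
      (β (κ v + t) - β (κ v' + t) - fderiv ℝ β (rN.e x0) (κ v - κ v')) -
      fderiv ℝ β (rN.e x0) (κ v - κ v' - fderiv ℝ κ 0 (v - v')) := by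
    rw [map_sub (fderiv ℝ β (rN.e x0)) (κ v - κ v'), hD]
    abel
  have h6 : ‖v - v'‖ ≤ ‖β (κ v + t) - β (κ v' + t)‖ + 1 / 4 * ‖v - v'‖ + 1 / 4 * ‖v - v'‖ := by
    conv_lhs => rw [e3]
    refine (norm_sub_le _ _).trans (add_le_add ((norm_sub_le _ _).trans
      (add_le_add le_rfl (h1.trans h4))) h5)
  linarith

/-- small shifts are injective local diffeomorphisms -/
theorem shift_good [CompactSpace N] [T2Space N] [IsManifold (𝓡 n) ∞ N] (rN : RD n m N) :
    ∃ τ : ℝ, 0 < τ ∧ ∀ t, ‖t‖ ≤ τ → Injective (sh rN t) ∧ ∀ x, LD n (sh rN t) x := by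
  obtain ⟨τ1, hτ1, h1⟩ := small_shift (P := fun t x => LD n (sh rN t) x) (fun x0 => by
    obtain ⟨A, A', hA0, hA'0, hA, hA', ha1, ha2, hlow⟩ := shift_coord rN x0
    have hA'c : Tendsto A' (𝓝 x0) (𝓝 0) := by
      have := hA'.continuousAt.tendsto
      rwa [hA'0] at this
    obtain ⟨U, hU, V, hV, hUV⟩ := mem_nhds_prod_iff.1 hlow
    obtain ⟨U1, hU1, U2, hU2, hU12⟩ := mem_nhds_prod_iff.1 hU
    have hW : U1 ∩ U2 ∈ 𝓝 (0 : E n) := Filter.inter_mem hU1 hU2
    have hOe : ∀ᶠ p : N × E m in 𝓝 (x0, 0), rN.e p.1 + p.2 ∈ rN.O := by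
      have h2 : ContinuousAt (fun p : N × E m => rN.e p.1 + p.2) (x0, 0) :=
        ((rN.he.continuous.comp continuous_fst).add continuous_snd).continuousAt
      refine h2.preimage_mem_nhds (rN.hO.mem_nhds ?_)
      change rN.e x0 + 0 ∈ rN.O
      rw [add_zero]
      exact rN.heO x0
    have hf : Tendsto (fun p : N × E m => p.1) (𝓝 (x0, 0)) (𝓝 x0) :=
      continuous_fst.tendsto' _ _ rfl
    have hs : Tendsto (fun p : N × E m => p.2) (𝓝 (x0, 0)) (𝓝 0) :=
      continuous_snd.tendsto' _ _ rfl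
    have hs' : ∀ᶠ p : N × E m in 𝓝 (x0, 0), p.2 ∈ V := hs.eventually hV
    filter_upwards [hf.eventually (hA'c.eventually (eventually_mem_nhds_iff.2 hW)),
      hf.eventually ha2, hf.eventually (hA'c.eventually hA.eventually), hs', hOe,
      (sh_tendsto rN x0).eventually hA'.eventually] with p q1 q2 q3 q4 q5 q6
    obtain ⟨x, t⟩ := p
    change U1 ∩ U2 ∈ 𝓝 (A' x) at q1
    change A (A' x) = x at q2
    change LD n A (A' x) at q3
    change t ∈ V at q4
    change rN.e x + t ∈ rN.O at q5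
    change LD n A' (sh rN t x) at q6
    change LD n (sh rN t) x
    have hsm : ContMDiffAt (𝓡 n) (𝓡 n) ∞ (sh rN t) x := by
      refine ContMDiffAt.comp x (g := rN.π) (f := fun x => rN.e x + t) (rN.hπ _ q5) ?_
      exact (rN.he x).add contMDiffAt_const
    have hsm' : ∀ᶠ y in 𝓝 x, ContMDiffAt (𝓡 n) (𝓡 n) ∞ (sh rN t) y := by
      have h3 : ∀ᶠ y in 𝓝 x, rN.e y + t ∈ rN.O :=
        (rN.he.continuous.add continuous_const).continuousAt.preimage_mem_nhds
          (rN.hO.mem_nhds q5)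
      filter_upwards [h3] with y hy
      refine ContMDiffAt.comp y (g := rN.π) (f := fun x => rN.e x + t) (rN.hπ _ hy) ?_
      exact (rN.he y).add contMDiffAt_const
    have hres := LD_of_coord (H := sh rN t) (A := A) (B := A') (v := A' x) q3
      (by rw [q2]; exact q6) (by rw [q2]; exact hsm.continuousAt) ?_
    · rwa [q2] at hres
    · refine LD_of_lower (c1 := 1 / 2) ?_ (by norm_num) ?_
      · have h3 : Tendsto A (𝓝 (A' x)) (𝓝 x) := by
          have := q3.continuousAt.tendsto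
          rwa [q2] at this
        filter_upwards [q3.eventually, h3.eventually hsm', h3.eventually
          (hsm.continuousAt.eventually q6.eventually)] with w w1 w2 w3
        refine contMDiffAt_iff_contDiffAt.1 (ContMDiffAt.comp (I' := 𝓡 n) w (g := A')
          (f := fun w => sh rN t (A w)) w3.contMDiffAt ?_)
        exact ContMDiffAt.comp (I' := 𝓡 n) w (g := sh rN t) (f := A) w2 w1.contMDiffAt
      · filter_upwards [q1] with w hw
        have h3 := hUV (a := ((w, A' x), t)) ⟨hU12 ⟨hw.1, (mem_of_mem_nhds q1).2⟩, q4⟩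
        change ‖w - A' x‖ ≤ 2 * ‖A' (sh rN t (A w)) - A' (sh rN t (A (A' x)))‖ at h3
        linarith)
  obtain ⟨τ2, hτ2, h2⟩ := small_shift2 (N := N) (P := fun t x y => sh rN t x = sh rN t y → x = y)
    (fun x0 y0 => by
      have hf : Tendsto (fun p : (N × N) × E m => p.1.1) (𝓝 ((x0, y0), 0)) (𝓝 x0) :=
        (continuous_fst.comp continuous_fst).tendsto' _ _ rfl
      have hg : Tendsto (fun p : (N × N) × E m => p.1.2) (𝓝 ((x0, y0), 0)) (𝓝 y0) :=
        (continuous_snd.comp continuous_fst).tendsto' _ _ rfl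
      have hs : Tendsto (fun p : (N × N) × E m => p.2) (𝓝 ((x0, y0), 0)) (𝓝 0) :=
        continuous_snd.tendsto' _ _ rfl
      by_cases hxy : x0 = y0
      · subst hxy
        obtain ⟨A, A', hA0, hA'0, hA, hA', ha1, ha2, hlow⟩ := shift_coord rN x0
        have hA'c : Tendsto A' (𝓝 x0) (𝓝 0) := by
          have := hA'.continuousAt.tendsto
          rwa [hA'0] at this
        have h3 : Tendsto (fun p : (N × N) × E m => ((A' p.1.1, A' p.1.2), p.2))
            (𝓝 ((x0, x0), 0)) (𝓝 0) :=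
          ((hA'c.comp hf).prodMk_nhds (hA'c.comp hg)).prodMk_nhds hs
        filter_upwards [h3.eventually hlow, hf.eventually ha2, hg.eventually ha2] with p q1 q2 q3 q4
        change ‖A' p.1.1 - A' p.1.2‖ ≤ 2 * ‖A' (sh rN p.2 (A (A' p.1.1))) -
          A' (sh rN p.2 (A (A' p.1.2)))‖ at q1
        rw [q2, q3, q4, sub_self, norm_zero, mul_zero] at q1
        have h5 : A' p.1.1 = A' p.1.2 := sub_eq_zero.1 (norm_le_zero_iff.1 q1)
        rw [← q2, ← q3, h5]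
      · obtain ⟨u, v, hu, hv, huv⟩ := t2_separation_nhds hxy
        have h3 : Tendsto (fun p : (N × N) × E m => (p.1.1, p.2)) (𝓝 ((x0, y0), 0))
            (𝓝 (x0, 0)) := hf.prodMk_nhds hs
        have h4 : Tendsto (fun p : (N × N) × E m => (p.1.2, p.2)) (𝓝 ((x0, y0), 0))
            (𝓝 (y0, 0)) := hg.prodMk_nhds hs
        filter_upwards [((sh_tendsto rN x0).comp h3).eventually hu,
          ((sh_tendsto rN y0).comp h4).eventually hv] with p q1 q2 q3
        change sh rN p.2 p.1.1 ∈ u at q1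
        change sh rN p.2 p.1.2 ∈ v at q2
        rw [← q3] at q2
        exact (disjoint_left.1 huv q1 q2).elim)
  refine ⟨min τ1 τ2, lt_min hτ1 hτ2, fun t ht => ⟨fun x y hxy => ?_, fun x => ?_⟩⟩
  · exact h2 t (ht.trans (min_le_right _ _)) x y hxy
  · exact h1 t (ht.trans (min_le_left _ _)) x

end Pool.Agent.H816.Sk
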