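import Pool.Agent.H816.Sk2
import Pool.Agent.H816.Sk4
import Pool.Agent.H816.Sk9
import Pool.Agent.H816.Sob3

/-!
# Generic shifts of small sets are good
-/

set_option autoImplicit false
set_option linter.unusedSectionVars false

open Set Filter Topology Metric Function Module MeasureTheory
open scoped Manifold ContDiff ENNReal

noncomputable section

namespace Pool.Agent.H816.Sk

open Pool.Agent.Y522 Pool.Agent.H816

variable {n m : ℕ} {M N : Type} [TopologicalSpace M] [ChartedSpace (E n) M]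
  [TopologicalSpace N] [ChartedSpace (E n) N]

/-- the regularity condition at a point -/
def Reg (k : ℕ) (G : N → M) (x : N) : Prop :=
  ∃ (A : E n → N) (B : M → E n), A 0 = x ∧ LD n A 0 ∧ LD n B (G x) ∧
    (∃ K : ℝ, ∀ᶠ z in 𝓝 (0 : E n × E n), ‖B (G (A z.1)) - B (G (A z.2))‖ ≤ K * ‖z.1 - z.2‖ ∧
      ‖z.1 - z.2‖ ≤ K * ‖B (G (A z.1)) - B (G (A z.2))‖) ∧
    Sob.W2 (k : ℝ≥0∞) fun z => B (G (A z))

/-- coordinates on a ball -/
structure Co (k : ℕ) (G : N → M) (x : N) (A : E n → N) (B : M → E n) (ρ C : ℝ)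
    (H : E n → E n →L[ℝ] E n →L[ℝ] E n) (h : E n → ℝ) : Prop where
  hρ : 0 < ρ
  hC : 1 ≤ C
  A0 : A 0 = x
  inj : InjOn A (ball 0 ρ)
  ld : ∀ v ∈ ball (0 : E n) ρ, LD n A v
  ldB : ∀ v ∈ ball (0 : E n) ρ, LD n B (G (A v))
  lip : ∀ v ∈ ball (0 : E n) ρ, ∀ v' ∈ ball (0 : E n) ρ,
    ‖B (G (A v)) - B (G (A v'))‖ ≤ C * ‖v - v'‖ ∧ ‖v - v'‖ ≤ C * ‖B (G (A v)) - B (G (A v'))‖
  dom : ∀ y v w, ‖H y v w‖ ≤ h y * ‖v‖ * ‖w‖
  mem : MemLp h k (volume.restrict (ball 0 ρ))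
  hess : Sob.WeakHess (fun v => B (G (A v))) H (ball 0 ρ)

theorem Reg.co {k : ℕ} {G : N → M} (hG : Continuous G) {x : N} (h : Reg (n := n) k G x) :
    ∃ A B ρ C H h, Co (n := n) k G x A B ρ C H h := by
  obtain ⟨A, B, hA0, hA, hB, ⟨K, hK⟩, hW⟩ := h
  obtain ⟨ρ0, H, h, hρ0, h1, h2, h3⟩ := hW.dominate
  obtain ⟨ρ1, hρ1, h4⟩ := Metric.eventually_nhds_iff_ball.1 hK
  obtain ⟨U, hU, hinj⟩ := hA.eventually_injOn
  have hBe : ∀ᶠ z in 𝓝 (0 : E n), LD n B (G (A z)) := by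
    have hc : Tendsto (fun z => G (A z)) (𝓝 0) (𝓝 (G x)) := by
      have := (hG.continuousAt.comp hA.continuousAt).tendsto
      rwa [comp_apply, hA0] at this
    exact hc.eventually hB.eventually
  obtain ⟨ρ2, hρ2, h5⟩ := Metric.eventually_nhds_iff_ball.1 ((hA.eventually.and hBe).and hU)
  obtain ⟨ρ, hρ, ha, hb, hc⟩ : ∃ ρ : ℝ, 0 < ρ ∧ ρ ≤ ρ0 ∧ ρ ≤ ρ1 ∧ ρ ≤ ρ2 :=
    ⟨min ρ0 (min ρ1 ρ2), by positivity, min_le_left _ _,
      (min_le_right _ _).trans (min_le_left _ _), (min_le_right _ _).trans (min_le_right _ _)⟩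
  refine ⟨A, B, ρ, max K 1, H, h, hρ, le_max_right _ _, hA0, ?_, ?_, ?_, ?_, h1, ?_, ?_⟩
  · intro v hv w hw hvw
    exact hinj (h5 v (ball_subset_ball hc hv)).2 (h5 w (ball_subset_ball hc hw)).2 hvw
  · intro v hv
    exact (h5 v (ball_subset_ball hc hv)).1.1
  · intro v hv
    exact (h5 v (ball_subset_ball hc hv)).1.2
  · intro v hv w hw
    have h6 : (v, w) ∈ ball (0 : E n × E n) ρ1 := by
      rw [mem_ball_zero_iff, Prod.norm_def, max_lt_iff]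
      exact ⟨(mem_ball_zero_iff.1 hv).trans_le hb, (mem_ball_zero_iff.1 hw).trans_le hb⟩
    obtain ⟨h7, h8⟩ := h4 _ h6
    exact ⟨h7.trans (mul_le_mul_of_nonneg_right (le_max_left _ _) (norm_nonneg _)),
      h8.trans (mul_le_mul_of_nonneg_right (le_max_left _ _) (norm_nonneg _))⟩
  · exact h2.mono_measure (Measure.restrict_mono (ball_subset_ball ha) le_rfl)
  · exact h3.mono (ball_subset_ball ha)

/-- the part of a shifted set in a coordinate ball -/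
def Xt (rN : RD n m N) (Q : Set N) (A : E n → N) (ρ : ℝ) (t : E m) : Set (E n) :=
  {u | u ∈ closedBall 0 (ρ / 4) ∧ ∃ y ∈ Q, A u = sh rN t y}

/-- the hitting estimate on manifolds -/
theorem hit_mfd [CompactSpace N] [T2Space N] (rN : RD n m N) {A : E n → N} {ρ : ℝ} (hρ : 0 < ρ)
    (hinj : InjOn A (ball 0 ρ)) (hld : ∀ v ∈ ball (0 : E n) ρ, LD n A v)
    (ν : Measure (E m)) [IsFiniteMeasure ν] {k : ℕ} (hk : k ≤ n) {Q : Set N} {c : ℝ} (hc : 0 < c)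
    (hQ : ∀ x ∈ Q, ∀ s : ℝ, 0 < s → s ≤ 1 →
      ENNReal.ofReal (c * s ^ k) ≤ ν (closedBall (rN.e x) s)) :
    ∃ τ : ℝ, 0 < τ ∧ ∃ C : ℝ, 0 ≤ C ∧ ∀ (u : E n) (s : ℝ), 0 < s → s ≤ τ →
      volume {t : E m | ‖t‖ ≤ τ ∧ (Xt rN Q A ρ t ∩ closedBall u s).Nonempty} ≤
        ENNReal.ofReal (C * s ^ (n - k)) := by
  have hcon : ContinuousOn A (closedBall 0 (ρ / 4)) := fun v hv =>
    (hld v (closedBall_subset_ball (by linarith) hv)).continuousAt.continuousWithinAt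
  have hcl : IsClosed (A '' closedBall 0 (ρ / 4)) :=
    ((isCompact_closedBall _ _).image_of_continuousOn hcon).isClosed
  have key : ∃ τ : ℝ, 0 < τ ∧ ∃ C : ℝ, 0 ≤ C ∧ ∀ (u : E n) (s : ℝ), 0 < s → s ≤ τ →
      volume {t : E m | ‖t‖ ≤ τ ∧ ∃ y ∈ Q, y ∈ (univ : Set N) ∧ ∃ u' ∈ closedBall (0 : E n) (ρ / 4),
        ‖u' - u‖ ≤ s ∧ A u' = sh rN t y} ≤ ENNReal.ofReal (C * s ^ (n - k)) := by
    refine isCompact_univ.induction_on (p := fun S : Set N => ∃ τ : ℝ, 0 < τ ∧ ∃ C : ℝ, 0 ≤ C ∧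
      ∀ (u : E n) (s : ℝ), 0 < s → s ≤ τ →
        volume {t : E m | ‖t‖ ≤ τ ∧ ∃ y ∈ Q, y ∈ S ∧ ∃ u' ∈ closedBall (0 : E n) (ρ / 4),
          ‖u' - u‖ ≤ s ∧ A u' = sh rN t y} ≤ ENNReal.ofReal (C * s ^ (n - k))) ?_ ?_ ?_ ?_
    · refine ⟨1, one_pos, 0, le_rfl, fun u s _ _ => ?_⟩
      have : {t : E m | ‖t‖ ≤ 1 ∧ ∃ y ∈ Q, y ∈ (∅ : Set N) ∧ ∃ u' ∈ closedBall (0 : E n) (ρ / 4),
          ‖u' - u‖ ≤ s ∧ A u' = sh rN t y} = ∅ := by
        ext t
        simp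
      rw [this, measure_empty]
      exact zero_le
    · rintro S T hST ⟨τ, hτ, C, hC, h1⟩
      refine ⟨τ, hτ, C, hC, fun u s hs hsτ => (measure_mono ?_).trans (h1 u s hs hsτ)⟩
      rintro t ⟨ht, y, hy, hyS, h2⟩
      exact ⟨ht, y, hy, hST hyS, h2⟩
    · rintro S T ⟨τ, hτ, C, hC, h1⟩ ⟨τ', hτ', C', hC', h1'⟩
      refine ⟨min τ τ', lt_min hτ hτ', C + C', by positivity, fun u s hs hsτ => ?_⟩
      rw [add_mul, ENNReal.ofReal_add (by positivity) (by positivity)]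
      refine (measure_mono ?_).trans ((measure_union_le _ _).trans (add_le_add
        (h1 u s hs (hsτ.trans (min_le_left _ _))) (h1' u s hs (hsτ.trans (min_le_right _ _)))))
      rintro t ⟨ht, y, hy, hyS | hyS, h2⟩
      · exact Or.inl ⟨ht.trans (min_le_left _ _), y, hy, hyS, h2⟩
      · exact Or.inr ⟨ht.trans (min_le_right _ _), y, hy, hyS, h2⟩
    · intro y0 _
      by_cases hy0 : y0 ∈ A '' closedBall 0 (ρ / 4)
      · obtain ⟨u0, hu0, rfl⟩ := hy0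
        have hu0' : u0 ∈ ball (0 : E n) ρ := closedBall_subset_ball (by linarith) hu0
        obtain ⟨A', hA'⟩ : ∃ A' : N → E n, ∀ v ∈ ball (0 : E n) ρ, A' (A v) = v :=
          ⟨invFunOn A (ball 0 ρ), fun v hv => hinj.leftInvOn_invFunOn hv⟩
        have hA'd : LD n A' (A u0) := LD.inverse isOpen_ball hld hA' hu0'
        have sψ : ContDiffAt ℝ ∞ (fun w => A' (rN.π w)) (rN.e (A u0)) := by
          refine contMDiffAt_iff_contDiffAt.1 (ContMDiffAt.comp (rN.e (A u0)) ?_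
            (rN.hπ _ (rN.heO _)))
          rw [rN.hπe]
          exact hA'd.contMDiffAt
        have sκ : ContDiffAt ℝ ∞ (fun v => rN.e (A v)) u0 :=
          contMDiffAt_iff_contDiffAt.1 (ContMDiffAt.comp u0 (rN.he _) (hld u0 hu0').contMDiffAt)
        have hD : ∀ a, fderiv ℝ (fun w => A' (rN.π w)) (rN.e (A u0))
            (fderiv ℝ (fun v => rN.e (A v)) u0 a) = a := by
          have h1 : HasFDerivAt (fun v => (fun w => A' (rN.π w)) (rN.e (A v)))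
              ((fderiv ℝ (fun w => A' (rN.π w)) (rN.e (A u0))).comp
              (fderiv ℝ (fun v => rN.e (A v)) u0)) u0 :=
            HasFDerivAt.comp (g := fun w => A' (rN.π w)) (f := fun v => rN.e (A v)) u0
              (sψ.differentiableAt (by simp)).hasFDerivAt
              (sκ.differentiableAt (by simp)).hasFDerivAt
          have h2 : HasFDerivAt (fun v => (fun w => A' (rN.π w)) (rN.e (A v)))
              (ContinuousLinearMap.id ℝ (E n)) u0 := by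
            refine (hasFDerivAt_id _).congr_of_eventuallyEq ?_
            filter_upwards [isOpen_ball.mem_nhds hu0'] with w hw
            change A' (rN.π (rN.e (A w))) = w
            rw [rN.hπe, hA' w hw]
          intro a
          exact congrArg (fun L => L a) (h1.unique h2)
        obtain ⟨τ, hτ, C, hC, h1⟩ := hit (n := n) (sψ.hasStrictFDerivAt (by simp)) hD ν hk
          (Q := rN.e '' Q) hc (by
            rintro _ ⟨x, hx, rfl⟩
            exact hQ x hx)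
        refine ⟨{y | ‖rN.e y - rN.e (A u0)‖ < τ}, mem_nhdsWithin_of_mem_nhds (rN.near _ hτ),
          τ, hτ, C, hC, fun u s hs hsτ => (measure_mono ?_).trans (h1 u s hs hsτ)⟩
        rintro t ⟨ht, y, hy, hyS, u', hu', hus, hA1⟩
        refine ⟨ht, rN.e y, ⟨y, hy, rfl⟩, le_of_lt hyS, ?_⟩
        have e1 : A' (rN.π (rN.e y + t)) = u' := by
          change A' (sh rN t y) = u'
          rw [← hA1]
          exact hA' u' (closedBall_subset_ball (by linarith) hu')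
        rw [e1]
        exact hus
      · have h1 : (A '' closedBall 0 (ρ / 4))ᶜ ∈ 𝓝 y0 := hcl.isOpen_compl.mem_nhds hy0
        have h2 := (sh_tendsto rN y0).eventually h1
        obtain ⟨U, hU, V, hV, h3⟩ := mem_nhds_prod_iff.1 h2
        obtain ⟨τ, hτ, h4⟩ := Metric.nhds_basis_closedBall.mem_iff.1 hV
        refine ⟨U, mem_nhdsWithin_of_mem_nhds hU, τ, hτ, 0, le_rfl, fun u s hs hsτ => ?_⟩
        have : {t : E m | ‖t‖ ≤ τ ∧ ∃ y ∈ Q, y ∈ U ∧ ∃ u' ∈ closedBall (0 : E n) (ρ / 4),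
            ‖u' - u‖ ≤ s ∧ A u' = sh rN t y} = ∅ := by
          rw [eq_empty_iff_forall_notMem]
          rintro t ⟨ht, y, hy, hyU, u', hu', hus, hA1⟩
          have h5 := h3 (a := (y, t)) ⟨hyU, h4 (by rwa [mem_closedBall_zero_iff])⟩
          exact h5 ⟨u', hu', hA1⟩
        rw [this, measure_empty]
        exact zero_le
  obtain ⟨τ, hτ, C, hC, h1⟩ := key
  refine ⟨τ, hτ, C, hC, fun u s hs hsτ => (measure_mono ?_).trans (h1 u s hs hsτ)⟩
  rintro t ⟨ht, u', ⟨hu', y, hy, hA1⟩, hu2⟩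
  rw [mem_closedBall, dist_eq_norm] at hu2
  exact ⟨ht, y, hy, mem_univ y, u', hu', hu2, hA1⟩

/-- the energy is small near the points of generic shifts -/
theorem ae_chart [CompactSpace N] [T2Space N] (rN : RD n m N) {k : ℕ} (hk1 : 1 ≤ k) (hk : k ≤ n)
    {G : N → M} {x : N} {A : E n → N} {B : M → E n} {ρ C : ℝ}
    {H : E n → E n →L[ℝ] E n →L[ℝ] E n} {h : E n → ℝ} (hco : Co (n := n) k G x A B ρ C H h)
    (ν : Measure (E m)) [IsFiniteMeasure ν] {Q : Set N} {c : ℝ} (hc : 0 < c)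
    (hQ : ∀ x ∈ Q, ∀ s : ℝ, 0 < s → s ≤ 1 →
      ENNReal.ofReal (c * s ^ k) ≤ ν (closedBall (rN.e x) s)) :
    ∃ τ : ℝ, 0 < τ ∧ ∀ᵐ t ∂(volume.restrict (closedBall (0 : E m) τ)), ∀ δ : ℝ, 0 < δ →
      ∃ r : ℝ, 0 < r ∧ ∀ u ∈ Xt rN Q A ρ t, ∀ s : ℝ, 0 < s → s ≤ r →
        ∫⁻ x in closedBall u s, ‖‖h x‖ ^ k‖ₑ ∂(volume.restrict (ball 0 ρ)) ≤
          ENNReal.ofReal (δ * s ^ (n - k)) := by
  obtain ⟨τ, hτ, C1, hC1, h1⟩ := hit_mfd rN hco.hρ hco.inj hco.ld ν hk hc hQ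
  have hfin : IsFiniteMeasure (volume.restrict (ball (0 : E n) ρ)) :=
    ⟨by rw [Measure.restrict_apply_univ]; exact measure_ball_lt_top⟩
  have hg : MemLp (fun x => ‖h x‖ ^ k) 1 (volume.restrict (ball 0 ρ)) :=
    memLp_one_iff_integrable.2 (hco.mem.integrable_norm_pow (by omega))
  refine ⟨τ, hτ, ?_⟩
  have hh : ∀ (u : E n) (s : ℝ), 0 < s → s ≤ τ → (volume.restrict (closedBall (0 : E m) τ))
      {t | (Xt rN Q A ρ t ∩ closedBall u s).Nonempty} ≤ ENNReal.ofReal (C1 * s ^ (n - k)) := by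
    intro u s hs hsτ
    rw [Measure.restrict_apply' measurableSet_closedBall]
    refine (measure_mono ?_).trans (h1 u s hs hsτ)
    rintro t ⟨ht, ht2⟩
    rw [mem_closedBall_zero_iff] at ht2
    exact ⟨ht2, ht⟩
  have h2 : ∀ i : ℕ, ∀ᵐ t ∂(volume.restrict (closedBall (0 : E m) τ)),
      ∃ r : ℝ, 0 < r ∧ ∀ u ∈ Xt rN Q A ρ t, ∀ s : ℝ, 0 < s → s ≤ r →
        ∫⁻ x in closedBall u s, ‖‖h x‖ ^ k‖ₑ ∂(volume.restrict (ball 0 ρ)) ≤
          ENNReal.ofReal (1 / ((i : ℝ) + 1) * s ^ (n - k)) := fun i =>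
    ae_small _ (fun t => Xt rN Q A ρ t) hg hk1 hk hτ hh hC1 (by positivity)
  filter_upwards [ae_all_iff.2 h2] with t ht δ hδ
  obtain ⟨i, hi⟩ := exists_nat_one_div_lt hδ
  obtain ⟨r, hr, h3⟩ := ht i
  refine ⟨r, hr, fun u hu s hs hsr => (h3 u hu s hs hsr).trans (ENNReal.ofReal_le_ofReal ?_)⟩
  gcongr

/-- **Generic shifts of small sets are good.** -/
theorem generic [CompactSpace N] [T2Space N] (rN : RD n m N) (hn : 1 ≤ n) {k : ℕ} (hk1 : 1 ≤ k)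
    (hk : k ≤ n) {G : N → M} (hG : Continuous G) (hreg : ∀ x, Reg (n := n) k G x)
    (ν : Measure (E m)) [IsFiniteMeasure ν] {Q : Set N} {c : ℝ} (hc : 0 < c)
    (hQ : ∀ x ∈ Q, ∀ s : ℝ, 0 < s → s ≤ 1 →
      ENNReal.ofReal (c * s ^ k) ≤ ν (closedBall (rN.e x) s)) :
    ∃ τ : ℝ, 0 < τ ∧ ∀ᵐ t ∂(volume.restrict (closedBall (0 : E m) τ)),
      ∀ z ∈ sh rN t '' Q, GoodAt (n := n) G (sh rN t '' Q) z := by
  have hloc : ∀ x : N, ∃ (A : E n → N) (B : M → E n) (ρ C : ℝ)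
      (H : E n → E n →L[ℝ] E n →L[ℝ] E n) (h : E n → ℝ), Co (n := n) k G x A B ρ C H h :=
    fun x => (hreg x).co hG
  choose A B ρ C H h hco using hloc
  have hnb : ∀ x, A x '' ball 0 (ρ x / 4) ∈ 𝓝 x := by
    intro x
    have h1 := ((hco x).ld 0 (mem_ball_self (hco x).hρ)).image_mem_nhds
      (ball_mem_nhds (0 : E n) (ε := ρ x / 4) (by have := (hco x).hρ; positivity))
    rwa [(hco x).A0] at h1
  obtain ⟨F, -, hF⟩ := isCompact_univ.elim_nhds_subcover (U := fun x => A x '' ball 0 (ρ x / 4))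
    fun x _ => hnb x
  have hae := fun x => ae_chart rN hk1 hk (hco x) ν hc hQ
  choose τ hτ hae using hae
  obtain ⟨τ0, hτ0, hττ⟩ : ∃ τ0 : ℝ, 0 < τ0 ∧ ∀ x ∈ F, τ0 ≤ τ x := by
    rcases F.eq_empty_or_nonempty with hFe | hFn
    · exact ⟨1, one_pos, fun x hx => by rw [hFe] at hx; simp at hx⟩
    · obtain ⟨x0, hx0, hmin⟩ := F.exists_min_image τ hFn
      exact ⟨τ x0, hτ x0, fun x hx => hmin x hx⟩
  refine ⟨τ0, hτ0, ?_⟩
  have h2 : ∀ᵐ t ∂(volume.restrict (closedBall (0 : E m) τ0)), ∀ x ∈ F, ∀ δ : ℝ, 0 < δ →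
      ∃ r : ℝ, 0 < r ∧ ∀ u ∈ Xt rN Q (A x) (ρ x) t, ∀ s : ℝ, 0 < s → s ≤ r →
        ∫⁻ y in closedBall u s, ‖‖h x y‖ ^ k‖ₑ ∂(volume.restrict (ball 0 (ρ x))) ≤
          ENNReal.ofReal (δ * s ^ (n - k)) := by
    refine (ae_ball_iff F.countable_toSet).2 fun x hx => ?_
    exact ae_mono (Measure.restrict_mono (closedBall_subset_closedBall (hττ x hx)) le_rfl) (hae x)
  filter_upwards [h2] with t ht z hz
  obtain ⟨x, hxF, u0, hu0, rfl⟩ := mem_iUnion₂.1 (hF (mem_univ z))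
  have hx := hco x
  have hρx := hx.hρ
  have hu0' : ‖u0‖ < ρ x / 4 := mem_ball_zero_iff.1 hu0
  have hmem : ∀ v : E n, ‖v‖ < ρ x / 4 → v + u0 ∈ ball (0 : E n) (ρ x) := by
    intro v hv
    rw [mem_ball_zero_iff]
    refine (norm_add_le _ _).trans_lt ?_
    linarith
  refine ⟨fun v => A x (v + u0), B x, C x, by change A x (0 + u0) = _; rw [zero_add], ?_, ?_, hx.hC,
    ⟨ρ x / 8, by positivity, fun v v' hv hv' => ?_⟩, fun ε hε => ?_⟩
  · refine LD.comp_fun (g := A x) (f := fun v => v + u0) ?_ (LD_add_const u0 0)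
    rw [zero_add]
    exact hx.ld u0 (ball_subset_ball (by linarith) hu0)
  · exact hx.ldB u0 (ball_subset_ball (by linarith) hu0)
  · have h3 := hx.lip (v + u0) (hmem v (by linarith)) (v' + u0) (hmem v' (by linarith))
    rwa [add_sub_add_right_eq_sub] at h3
  · obtain ⟨r, hr, h3⟩ := affine_of_energy hn hk1 hk (G := fun v => B x (G (A x v))) hρx
      (by have := hx.hC; linarith) hx.dom (fun v hv w hw => (hx.lip v hv w hw).1) hx.hess hx.mem
      (R := Xt rN Q (A x) (ρ x) t) (fun u hu => hu.1) (ht x hxF) hε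
    refine ⟨min r (ρ x / 4 - ‖u0‖), lt_min hr (by linarith), fun u hu hur s hs hsr => ?_⟩
    have h4 : u + u0 ∈ Xt rN Q (A x) (ρ x) t := by
      refine ⟨?_, ?_⟩
      · rw [mem_closedBall_zero_iff]
        refine (norm_add_le _ _).trans ?_
        have := hur.trans (min_le_right _ _)
        linarith
      · obtain ⟨y, hy, hyu⟩ := hu
        exact ⟨y, hy, hyu.symm⟩
    obtain ⟨l, hl⟩ := h3 (u + u0) h4 s hs (hsr.trans (min_le_left _ _))
    refine ⟨l, fun q hq => ?_⟩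
    have h5 := hl (q + u0) (by rw [add_sub_add_right_eq_sub]; exact hq)
    rwa [add_sub_add_right_eq_sub] at h5

end Pool.Agent.H816.Sk
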