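import Pool.Agent.H816.Sk10
import Pool.Graph.R_seed8.Y784.SH.Ext

/-!
# Neighbourhoods of small compact sets embed smoothly
-/

set_option autoImplicit false
set_option linter.unusedSectionVars false

open Set Filter Topology Metric Function Module MeasureTheory
open scoped Manifold ContDiff ENNReal

noncomputable section

namespace Pool.Agent.H816.Sk

open Pool.Agent.Y522 Pool.Agent.H816 Pool.Agent.Y784.SH

variable {n m m' : ℕ} {M N : Type} [TopologicalSpace M] [ChartedSpace (E n) M]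
  [TopologicalSpace N] [ChartedSpace (E n) N]

/-- contained in a finite union of smooth images of balls of dimension `k` -/
def Small (k : ℕ) (Q : Set N) : Prop :=
  ∃ (r : ℕ) (φ : Fin r → E k → N), (∀ i, ContMDiff (𝓡 k) (𝓡 n) ∞ (φ i)) ∧
    Q ⊆ ⋃ i, φ i '' closedBall 0 1

theorem lip_ball {k : ℕ} {f : E k → E m} (hf : ContDiff ℝ ∞ f) :
    ∃ C : ℝ, 1 ≤ C ∧ ∀ v w, ‖v‖ ≤ 2 → ‖w‖ ≤ 2 → ‖f v - f w‖ ≤ C * ‖v - w‖ := by
  have hc : Continuous (fderiv ℝ f) := hf.continuous_fderiv (by simp)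
  obtain ⟨C, hC⟩ := (isCompact_closedBall (0 : E k) 2).exists_bound_of_continuousOn
    hc.continuousOn
  refine ⟨max C 1, le_max_right _ _, fun v w hv hw => ?_⟩
  refine (convex_closedBall (0 : E k) 2).norm_image_sub_le_of_norm_fderiv_le (𝕜 := ℝ)
    (fun x _ => (hf.differentiable (by simp)) x)
    (fun x hx => (hC x hx).trans (le_max_left _ _)) ?_ ?_
  · rwa [mem_closedBall_zero_iff]
  · rwa [mem_closedBall_zero_iff]

theorem exists_measure {k : ℕ} (rN : RD n m N) {Q : Set N} (hQ : Small (n := n) k Q) :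
    ∃ (ν : Measure (E m)) (c : ℝ), IsFiniteMeasure ν ∧ 0 < c ∧ ∀ x ∈ Q, ∀ s : ℝ, 0 < s → s ≤ 1 →
      ENNReal.ofReal (c * s ^ k) ≤ ν (closedBall (rN.e x) s) := by
  obtain ⟨r, φ, hφ, hQφ⟩ := hQ
  have hs : ∀ i, ContDiff ℝ ∞ (fun v => rN.e (φ i v)) := fun i =>
    contMDiff_iff_contDiff.1 (rN.he.comp (hφ i))
  choose C hC1 hC using fun i => lip_ball (hs i)
  obtain ⟨D, hD, hDC⟩ : ∃ D : ℝ, 1 ≤ D ∧ ∀ i, C i ≤ D := by
    obtain ⟨D, hD⟩ := (Set.finite_range C).bddAbove
    exact ⟨max D 1, le_max_right _ _, fun i => (hD ⟨i, rfl⟩).trans (le_max_left _ _)⟩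
  obtain ⟨μ, hμ⟩ : ∃ μ : Fin r → Measure (E m), μ = fun i =>
    (volume.restrict (closedBall (0 : E k) 2)).map (fun v => rN.e (φ i v)) := ⟨_, rfl⟩
  have hμf : ∀ i, IsFiniteMeasure (μ i) := by
    intro i
    rw [hμ]
    have : IsFiniteMeasure (volume.restrict (closedBall (0 : E k) 2)) :=
      ⟨by rw [Measure.restrict_apply_univ]; exact measure_closedBall_lt_top⟩
    exact Measure.isFiniteMeasure_map _ _
  obtain ⟨V, hV⟩ : ∃ V : ℝ≥0∞, V = volume (ball (0 : E k) 1) := ⟨_, rfl⟩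
  have hVf : V ≠ ⊤ := by rw [hV]; exact measure_ball_lt_top.ne
  have hV0 : V ≠ 0 := by rw [hV]; exact (measure_ball_pos _ _ one_pos).ne'
  have hVp : 0 < V.toReal := ENNReal.toReal_pos hV0 hVf
  refine ⟨Measure.sum μ, V.toReal / D ^ k, ?_, by positivity, fun x hx s hs0 hs1 => ?_⟩
  · refine ⟨?_⟩
    rw [Measure.sum_apply _ MeasurableSet.univ, tsum_fintype]
    exact ENNReal.sum_lt_top.2 fun i _ => (hμf i).measure_univ_lt_top
  · obtain ⟨i, v, hv, rfl⟩ := mem_iUnion.1 (hQφ hx)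
    rw [mem_closedBall_zero_iff] at hv
    have h1 : μ i (closedBall (rN.e (φ i v)) s) ≤ Measure.sum μ (closedBall (rN.e (φ i v)) s) :=
      (ENNReal.le_tsum (f := fun j => μ j (closedBall (rN.e (φ i v)) s)) i).trans
        (Measure.le_sum_apply μ _)
    refine le_trans ?_ h1
    rw [hμ]
    change _ ≤ (volume.restrict (closedBall (0 : E k) 2)).map (fun v => rN.e (φ i v)) _
    rw [Measure.map_apply (hs i).continuous.measurable measurableSet_closedBall]
    have h2 : closedBall v (s / D) ⊆ (fun v => rN.e (φ i v)) ⁻¹' closedBall (rN.e (φ i v)) s ∩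
        closedBall 0 2 := by
      intro w hw
      rw [mem_closedBall, dist_eq_norm] at hw
      have hsD : s / D ≤ s := div_le_self hs0.le hD
      have hw2 : ‖w‖ ≤ 2 := by
        have e1 : w = (w - v) + v := by abel
        rw [e1]
        refine (norm_add_le _ _).trans ?_
        linarith
      refine ⟨?_, by rwa [mem_closedBall_zero_iff]⟩
      rw [mem_preimage, mem_closedBall, dist_eq_norm]
      refine (hC i w v hw2 (by linarith)).trans ?_
      calc C i * ‖w - v‖ ≤ D * (s / D) := by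
            gcongr
            exact hDC i
        _ = s := by field_simp
    rw [Measure.restrict_apply' measurableSet_closedBall]
    refine le_trans ?_ (measure_mono h2)
    rw [Measure.addHaar_closedBall _ _ (by positivity), finrank_euclideanSpace, Fintype.card_fin,
      ← hV]
    have e1 : V.toReal / D ^ k * s ^ k = (s / D) ^ k * V.toReal := by
      rw [div_pow]
      ring
    rw [e1, ENNReal.ofReal_mul (by positivity), ENNReal.ofReal_toReal hVf]

/-- **Neighbourhoods of small compact sets embed smoothly.** -/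
theorem embed_nbhd [CompactSpace N] [T2Space N] [IsManifold (𝓡 n) ∞ N] [CompactSpace M]
    (rN : RD n m N) (rM : RD n m' M) (hn : 1 ≤ n) {k : ℕ} (hk1 : 1 ≤ k) (hk : k ≤ n) {G : N → M}
    (hG : Continuous G) (hGi : Injective G) (hreg : ∀ x, Reg (n := n) k G x) {Q : Set N}
    (hQc : IsCompact Q) (hQ : Small (n := n) k Q) {ε : ℝ} (hε : 0 < ε) :
    ∃ (U : Set N) (f : N → M), IsOpen U ∧ Q ⊆ U ∧ InjOn f U ∧ (∀ x ∈ U, LD n f x) ∧
      ∀ x ∈ U, ‖rM.e (f x) - rM.e (G x)‖ ≤ ε := by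
  obtain ⟨ν, c, hν, hc, hνQ⟩ := exists_measure rN hQ
  obtain ⟨τ1, hτ1, h1⟩ := generic rN hn hk1 hk hG hreg ν hc hνQ
  obtain ⟨τ2, hτ2, h2⟩ := shift_good rN
  obtain ⟨τ3, hτ3, h3⟩ := small_shift (N := N) (m := m)
    (P := fun t x => ‖rM.e (G (sh rN t x)) - rM.e (G x)‖ ≤ ε / 2) (fun x0 => by
      have ha : Tendsto (fun p : N × E m => rM.e (G (sh rN p.2 p.1))) (𝓝 (x0, 0))
          (𝓝 (rM.e (G x0))) :=
        ((rM.he.continuous.comp hG).tendsto x0).comp (sh_tendsto rN x0)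
      have hb : Tendsto (fun p : N × E m => rM.e (G p.1)) (𝓝 (x0, 0)) (𝓝 (rM.e (G x0))) :=
        ((rM.he.continuous.comp hG).tendsto x0).comp (continuous_fst.tendsto' _ _ rfl)
      have hab := (ha.sub hb).norm
      rw [sub_self, norm_zero] at hab
      exact (hab.eventually (gt_mem_nhds (half_pos hε))).mono fun p hp => le_of_lt hp)
  -- a generic shift
  obtain ⟨t, ht, htg⟩ : ∃ t : E m, ‖t‖ ≤ min τ2 τ3 ∧
      ∀ z ∈ sh rN t '' Q, GoodAt (n := n) G (sh rN t '' Q) z := by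
    have hσ : 0 < min τ1 (min τ2 τ3) := by positivity
    have h4 : ∀ᵐ t ∂(volume.restrict (closedBall (0 : E m) (min τ1 (min τ2 τ3)))),
        ∀ z ∈ sh rN t '' Q, GoodAt (n := n) G (sh rN t '' Q) z :=
      ae_mono (Measure.restrict_mono (closedBall_subset_closedBall (min_le_left _ _)) le_rfl) h1
    rw [ae_restrict_iff' measurableSet_closedBall] at h4
    have h5 : volume (closedBall (0 : E m) (min τ1 (min τ2 τ3))) ≠ 0 :=
      (measure_closedBall_pos _ _ hσ).ne'
    have h6 : ∃ t ∈ closedBall (0 : E m) (min τ1 (min τ2 τ3)),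
        ∀ z ∈ sh rN t '' Q, GoodAt (n := n) G (sh rN t '' Q) z := by
      by_contra hcon
      refine h5 (measure_mono_null (fun t ht => ?_) h4)
      intro h7
      exact hcon ⟨t, ht, h7 ht⟩
    obtain ⟨t, ht, ht2⟩ := h6
    rw [mem_closedBall_zero_iff] at ht
    exact ⟨t, ht.trans (min_le_right _ _), ht2⟩
  obtain ⟨hinj, hld⟩ := h2 t (ht.trans (min_le_left _ _))
  have hcont : Continuous (sh rN t) := continuous_iff_continuousAt.2 fun x =>
    (hld x).continuousAt
  obtain ⟨U, f, hU, hKU, hfi, hfl, hfe⟩ := glob rN rM hG hGi (hQc.image hcont) htg (half_pos hε)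
  refine ⟨sh rN t ⁻¹' U, fun x => f (sh rN t x), hU.preimage hcont,
    fun x hx => hKU ⟨x, hx, rfl⟩, ?_, ?_, ?_⟩
  · intro x hx y hy hxy
    exact hinj (hfi hx hy hxy)
  · intro x hx
    exact LD.comp_fun (g := f) (hfl _ hx) (hld x)
  · intro x hx
    have e1 : rM.e (f (sh rN t x)) - rM.e (G x) = (rM.e (f (sh rN t x)) -
      rM.e (G (sh rN t x))) + (rM.e (G (sh rN t x)) - rM.e (G x)) := by abel
    rw [e1]
    refine (norm_add_le _ _).trans ?_
    have h4 := hfe _ hx
    have h5 := h3 t (ht.trans (min_le_right _ _)) x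
    linarith

/-- expansion of a ball in a cell -/
theorem expand [T2Space N] {c : E n → N} (hci : Injective c) (hcd : ∀ z, LD n c z) (R : ℝ) :
    ∃ σ : N → N, Injective σ ∧ (∀ x, LD n σ x) ∧ ∀ x, x ∉ c '' ball 0 1 → σ x ∉ c '' ball 0 R := by
  classical
  obtain ⟨h, R', hh, hR', hsm⟩ := compress n R (1 / 2) (by norm_num)
  obtain ⟨g, hg, hgh, hhg⟩ := hh.inv
  have hgid : ∀ z, R' ≤ ‖z‖ → g z = z := by
    intro z hz
    have h1 := hgh z
    rwa [hR' z hz] at h1
  obtain ⟨c', hc'⟩ : ∃ c' : N → E n, ∀ z, c' (c z) = z :=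
    ⟨invFun c, fun z => leftInverse_invFun hci z⟩
  have hc'd : ∀ z, LD n c' (c z) := fun z =>
    LD.inverse isOpen_univ (fun z _ => hcd z) (fun z _ => hc' z) (mem_univ z)
  have hro : IsOpen (range c) := by
    rw [← image_univ]
    exact isOpen_image_of_LD isOpen_univ fun z _ => hcd z
  have hcc : Continuous c := continuous_iff_continuousAt.2 fun z => (hcd z).continuousAt
  obtain ⟨σ, hσ⟩ : ∃ σ : N → N, σ = fun x => if x ∈ range c then c (g (c' x)) else x := ⟨_, rfl⟩
  have s1 : ∀ z, σ (c z) = c (g z) := by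
    intro z
    rw [hσ]
    change (if c z ∈ range c then c (g (c' (c z))) else c z) = _
    rw [if_pos ⟨z, rfl⟩, hc']
  have s2 : ∀ x, x ∉ range c → σ x = x := by
    intro x hx
    rw [hσ]
    exact if_neg hx
  refine ⟨σ, ?_, ?_, ?_⟩
  · intro x y hxy
    by_cases hx : x ∈ range c
    · obtain ⟨z, rfl⟩ := hx
      by_cases hy : y ∈ range c
      · obtain ⟨w, rfl⟩ := hy
        rw [s1, s1] at hxy
        rw [hg.1.1 (hci hxy)]
      · rw [s1, s2 y hy] at hxy
        exact (hy ⟨_, hxy⟩).elim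
    · by_cases hy : y ∈ range c
      · obtain ⟨w, rfl⟩ := hy
        rw [s1, s2 x hx] at hxy
        exact (hx ⟨_, hxy.symm⟩).elim
      · rwa [s2 x hx, s2 y hy] at hxy
  · intro x
    by_cases hx : x ∈ range c
    · obtain ⟨z, rfl⟩ := hx
      have h1 : LD n (fun y => c (g (c' y))) (c z) := by
        refine LD.comp_fun (g := c) (f := fun y => g (c' y)) (hcd _)
          (LD.comp_fun (g := g) (f := c') ?_ (hc'd z))
        exact hg.2 _
      refine h1.congr ?_
      filter_upwards [hro.mem_nhds ⟨z, rfl⟩] with y hy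
      obtain ⟨w, rfl⟩ := hy
      rw [s1, hc']
    · have hcl : IsClosed (c '' closedBall 0 R') := ((isCompact_closedBall _ _).image hcc).isClosed
      have hx2 : x ∉ c '' closedBall 0 R' := fun h => hx (image_subset_range _ _ h)
      refine (LD.id (n := n) x).congr ?_
      filter_upwards [hcl.isOpen_compl.mem_nhds hx2] with y hy
      by_cases hyr : y ∈ range c
      · obtain ⟨w, rfl⟩ := hyr
        have hw : R' ≤ ‖w‖ := by
          by_contra hcon
          exact hy ⟨w, by rw [mem_closedBall_zero_iff]; exact (not_le.1 hcon).le, rfl⟩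
        rw [s1, hgid w hw]
      · exact s2 y hyr
  · intro x hx hcon
    obtain ⟨w, hw, hwx⟩ := hcon
    by_cases hxr : x ∈ range c
    · obtain ⟨z, rfl⟩ := hxr
      rw [s1] at hwx
      have h1 : w = g z := hci hwx
      have h2 : ‖g z‖ ≤ R := by
        rw [← h1]
        exact (mem_ball_zero_iff.1 hw).le
      have h3 := hsm (g z) h2
      rw [hhg] at h3
      exact hx ⟨z, by rw [mem_ball_zero_iff]; linarith, rfl⟩
    · rw [s2 x hxr] at hwx
      exact hxr ⟨w, hwx⟩

/-- manifolds with a small spine, off a cell -/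
theorem embed_off_cell [CompactSpace N] [T2Space N] {U : Set N} (hU : IsOpen U) {f : N → M}
    (hfi : InjOn f U) (hfl : ∀ x ∈ U, LD n f x) {c : E n → N} (hci : Injective c)
    (hcd : ∀ z, LD n c z) {κ : N → N} (hκ : Bijective κ) (hκd : ∀ x, LD n κ x)
    (hκU : (range c)ᶜ ⊆ κ '' U) :
    ∃ F : N → M, InjOn F (c '' ball 0 1)ᶜ ∧ ∀ x ∈ (c '' ball 0 1)ᶜ, LD n F x := by
  obtain ⟨κ', hκ'⟩ : ∃ κ' : N → N, ∀ x, κ' (κ x) = x :=
    ⟨(Equiv.ofBijective κ hκ).symm, fun x => (Equiv.ofBijective κ hκ).symm_apply_apply x⟩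
  have hκ'd : ∀ y, LD n κ' y := fun y => LD.inverse_bij hκ hκd hκ' y
  have hκ'i : Injective κ' := by
    intro a b hab
    obtain ⟨x, rfl⟩ := hκ.2 a
    obtain ⟨y, rfl⟩ := hκ.2 b
    rw [hκ', hκ'] at hab
    rw [hab]
  have ho : IsOpen (κ '' U) := isOpen_image_of_LD hU fun x _ => hκd x
  -- a large ball in the cell
  obtain ⟨R, hR⟩ : ∃ R : ℝ, (c '' ball 0 R)ᶜ ⊆ κ '' U := by
    have hcov : (univ : Set N) ⊆ ⋃ i : ℕ, (κ '' U ∪ c '' ball 0 (i : ℝ)) := by
      intro x _
      by_cases hx : x ∈ range c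
      · obtain ⟨z, rfl⟩ := hx
        obtain ⟨i, hi⟩ := exists_nat_gt ‖z‖
        exact mem_iUnion.2 ⟨i, Or.inr ⟨z, mem_ball_zero_iff.2 hi, rfl⟩⟩
      · exact mem_iUnion.2 ⟨0, Or.inl (hκU hx)⟩
    obtain ⟨i, hi⟩ := isCompact_univ.elim_directed_cover (fun i : ℕ => κ '' U ∪ c '' ball 0 (i : ℝ))
      (fun i => ho.union (isOpen_image_of_LD isOpen_ball fun z _ => hcd z)) hcov (by
        refine directed_of_isDirected_le fun i j hij => ?_
        refine union_subset_union_right _ (image_mono (ball_subset_ball ?_))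
        exact_mod_cast hij)
    refine ⟨i, fun x hx => ?_⟩
    rcases hi (mem_univ x) with h1 | h1
    · exact h1
    · exact (hx h1).elim
  obtain ⟨σ, hσi, hσd, hσ⟩ := expand hci hcd R
  have hmem : ∀ x ∈ (c '' ball 0 1)ᶜ, κ' (σ x) ∈ U := by
    intro x hx
    obtain ⟨y, hy, hyx⟩ := hR (hσ x hx)
    rw [← hyx, hκ']
    exact hy
  refine ⟨fun x => f (κ' (σ x)), ?_, ?_⟩
  · intro x hx y hy hxy
    exact hσi (hκ'i (hfi (hmem x hx) (hmem y hy) hxy))
  · intro x hx
    exact LD.comp_fun (g := f) (f := fun x => κ' (σ x)) (hfl _ (hmem x hx))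
      (LD.comp_fun (g := κ') (f := σ) (hκ'd _) (hσd x))

end Pool.Agent.H816.Sk
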