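import Pool.Agent.H816.Sk11

/-!
# Shifted sets avoid sets of measure zero
-/

set_option autoImplicit false
set_option linter.unusedSectionVars false

open Set Filter Topology Metric Function Module MeasureTheory
open scoped Manifold ContDiff ENNReal

noncomputable section

namespace Pool.Agent.H816.Sk

open Pool.Agent.Y522 Pool.Agent.H816

section null

variable {n : ℕ} {T : Type*} [MeasurableSpace T]

/-- the hitting probability, as an outer measure -/
def hm (P : Measure T) (X : T → Set (EuclideanSpace ℝ (Fin n))) :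
    OuterMeasure (EuclideanSpace ℝ (Fin n)) where
  measureOf S := P {t | (X t ∩ S).Nonempty}
  empty := by simp
  mono := by
    intro S S' h
    exact measure_mono fun t ht => ht.mono (inter_subset_inter_right _ h)
  iUnion_nat := by
    intro S _
    refine (measure_mono ?_).trans (measure_iUnion_le _)
    rintro t ⟨x, hx, hxS⟩
    obtain ⟨i, hi⟩ := mem_iUnion.1 hxS
    exact mem_iUnion.2 ⟨i, x, hx, hi⟩

theorem null_hit (P : Measure T) (X : T → Set (EuclideanSpace ℝ (Fin n))) {d : ℕ} (hd : 1 ≤ d)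
    {C s0 : ℝ} (hs0 : 0 < s0)
    (hit : ∀ (u : EuclideanSpace ℝ (Fin n)) (s : ℝ), 0 < s → s ≤ s0 →
      P {t | (X t ∩ closedBall u s).Nonempty} ≤ ENNReal.ofReal (C * s ^ d)) (hC : 0 ≤ C)
    {Z : Set (EuclideanSpace ℝ (Fin n))} (hZ : μH[(d : ℝ)] Z = 0) :
    P {t | (X t ∩ Z).Nonempty} = 0 := by
  obtain ⟨c, hc, hc0, hcC⟩ : ∃ c : ℝ≥0∞, c ≠ ⊤ ∧ c ≠ 0 ∧ ENNReal.ofReal C ≤ c :=
    ⟨ENNReal.ofReal (C + 1), ENNReal.ofReal_ne_top, (ENNReal.ofReal_pos.2 (by linarith)).ne',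
      ENNReal.ofReal_le_ofReal (by linarith)⟩
  have key : hm P X ≤ OuterMeasure.mkMetric (c • fun r : ℝ≥0∞ => r ^ (d : ℝ)) := by
    refine OuterMeasure.le_mkMetric _ _ (ENNReal.ofReal s0) (ENNReal.ofReal_pos.2 hs0) ?_
    intro S hS
    change P {t | (X t ∩ S).Nonempty} ≤ c * (Metric.ediam S) ^ (d : ℝ)
    rcases S.eq_empty_or_nonempty with hSe | ⟨u, hu⟩
    · rw [hSe]
      simp
    · have hfin : Metric.ediam S ≠ ⊤ := (hS.trans_lt ENNReal.ofReal_lt_top).ne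
      have hsub : S ⊆ closedBall u (Metric.ediam S).toReal := by
        intro x hx
        rw [mem_closedBall, dist_edist]
        exact ENNReal.toReal_mono hfin (Metric.edist_le_ediam_of_mem hx hu)
      rcases eq_or_ne (Metric.ediam S) 0 with h0 | h0
      · have h1 : ∀ s : ℝ, 0 < s → s ≤ s0 → P {t | (X t ∩ S).Nonempty} ≤
            ENNReal.ofReal (C * s ^ d) := by
          intro s hs hss
          refine (measure_mono fun t ht => ht.mono (inter_subset_inter_right _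
            (hsub.trans ?_))).trans (hit u s hs hss)
          rw [h0, ENNReal.toReal_zero]
          exact closedBall_subset_closedBall hs.le
        have h2 : Tendsto (fun s : ℝ => ENNReal.ofReal (C * s ^ d)) (𝓝[>] 0) (𝓝 0) := by
          have h3 : Tendsto (fun s : ℝ => ENNReal.ofReal (C * s ^ d)) (𝓝 0) (𝓝 0) := by
            refine (ENNReal.continuous_ofReal.comp (continuous_const.mul
              (continuous_pow d))).tendsto' _ _ ?_
            change ENNReal.ofReal (C * 0 ^ d) = 0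
            rw [zero_pow (by omega), mul_zero, ENNReal.ofReal_zero]
          exact h3.mono_left nhdsWithin_le_nhds
        have h3 : P {t | (X t ∩ S).Nonempty} ≤ 0 := by
          refine ge_of_tendsto h2 ?_
          filter_upwards [Ioc_mem_nhdsGT hs0] with s hs
          exact h1 s hs.1 hs.2
        exact h3.trans zero_le
      · have hp : 0 < (Metric.ediam S).toReal := ENNReal.toReal_pos h0 hfin
        have hle : (Metric.ediam S).toReal ≤ s0 := ENNReal.toReal_le_of_le_ofReal hs0.le hS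
        refine (measure_mono fun t ht => ht.mono (inter_subset_inter_right _ hsub)).trans
          ((hit u _ hp hle).trans ?_)
        rw [ENNReal.ofReal_mul hC, ENNReal.ofReal_pow hp.le, ENNReal.ofReal_toReal hfin,
          ENNReal.rpow_natCast]
        gcongr
  have h1 := key Z
  have h2 : OuterMeasure.mkMetric (c • fun r : ℝ≥0∞ => r ^ (d : ℝ)) Z = 0 := by
    rw [OuterMeasure.mkMetric_smul _ hc hc0]
    change c * OuterMeasure.mkMetric (fun r : ℝ≥0∞ => r ^ (d : ℝ)) Z = 0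
    have h3 : OuterMeasure.mkMetric (fun r : ℝ≥0∞ => r ^ (d : ℝ)) Z = μH[(d : ℝ)] Z := by
      rw [Measure.hausdorffMeasure, ← Measure.mkMetric_toOuterMeasure]
      rfl
    rw [h3, hZ, mul_zero]
  exact le_antisymm (h1.trans h2.le) zero_le

end null

variable {n m m' : ℕ} {M N : Type} [TopologicalSpace M] [ChartedSpace (E n) M]
  [TopologicalSpace N] [ChartedSpace (E n) N]

/-- generic shifts avoid sets of measure zero -/
theorem avoid [CompactSpace N] [T2Space N] (rN : RD n m N) {k : ℕ} (hk : k < n)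
    {R : N → Prop} (hreg : ∀ p : N, ∃ (A : E n → N) (Z : Set (E n)), A 0 = p ∧ LD n A 0 ∧
      μH[((n - k : ℕ) : ℝ)] Z = 0 ∧ ∀ᶠ z in 𝓝 (0 : E n), z ∉ Z → R (A z))
    (ν : Measure (E m)) [IsFiniteMeasure ν] {Q : Set N} {c : ℝ} (hc : 0 < c)
    (hQ : ∀ x ∈ Q, ∀ s : ℝ, 0 < s → s ≤ 1 →
      ENNReal.ofReal (c * s ^ k) ≤ ν (closedBall (rN.e x) s)) :
    ∃ τ : ℝ, 0 < τ ∧ ∀ᵐ t ∂(volume.restrict (closedBall (0 : E m) τ)),
      ∀ z ∈ sh rN t '' Q, R z := by
  have hloc : ∀ p : N, ∃ (A : E n → N) (Z : Set (E n)) (ρ : ℝ), 0 < ρ ∧ A 0 = p ∧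
      InjOn A (ball 0 ρ) ∧ (∀ v ∈ ball (0 : E n) ρ, LD n A v) ∧ μH[((n - k : ℕ) : ℝ)] Z = 0 ∧
      ∀ z ∈ ball (0 : E n) ρ, z ∉ Z → R (A z) := by
    intro p
    obtain ⟨A, Z, hA0, hA, hZ, hev⟩ := hreg p
    obtain ⟨U, hU, hinj⟩ := hA.eventually_injOn
    obtain ⟨ρ, hρ, h1⟩ := Metric.eventually_nhds_iff_ball.1 ((hA.eventually.and hev).and hU)
    exact ⟨A, Z, ρ, hρ, hA0, fun v hv w hw hvw => hinj (h1 v hv).2 (h1 w hw).2 hvw,
      fun v hv => (h1 v hv).1.1, hZ, fun z hz => (h1 z hz).1.2⟩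
  choose A Z ρ hρ hA0 hinj hld hZ hR using hloc
  have hnb : ∀ x, A x '' ball 0 (ρ x / 4) ∈ 𝓝 x := by
    intro x
    have h1 := (hld x 0 (mem_ball_self (hρ x))).image_mem_nhds
      (ball_mem_nhds (0 : E n) (ε := ρ x / 4) (by have := hρ x; positivity))
    rwa [hA0 x] at h1
  obtain ⟨F, -, hF⟩ := isCompact_univ.elim_nhds_subcover (U := fun x => A x '' ball 0 (ρ x / 4))
    fun x _ => hnb x
  have hae : ∀ x, ∃ τ : ℝ, 0 < τ ∧ ∀ᵐ t ∂(volume.restrict (closedBall (0 : E m) τ)),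
      ¬ (Xt rN Q (A x) (ρ x) t ∩ Z x).Nonempty := by
    intro x
    obtain ⟨τ, hτ, C1, hC1, h1⟩ := hit_mfd rN (hρ x) (hinj x) (hld x) ν hk.le hc hQ
    refine ⟨τ, hτ, ?_⟩
    rw [ae_iff]
    simp only [not_not]
    refine null_hit _ (fun t => Xt rN Q (A x) (ρ x) t) (d := n - k) (by omega) hτ ?_ hC1 (hZ x)
    intro u s hs hsτ
    rw [Measure.restrict_apply' measurableSet_closedBall]
    refine (measure_mono ?_).trans (h1 u s hs hsτ)
    rintro t ⟨ht, ht2⟩
    rw [mem_closedBall_zero_iff] at ht2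
    exact ⟨ht2, ht⟩
  choose τ hτ hae using hae
  obtain ⟨τ0, hτ0, hττ⟩ : ∃ τ0 : ℝ, 0 < τ0 ∧ ∀ x ∈ F, τ0 ≤ τ x := by
    rcases F.eq_empty_or_nonempty with hFe | hFn
    · exact ⟨1, one_pos, fun x hx => by rw [hFe] at hx; simp at hx⟩
    · obtain ⟨x0, hx0, hmin⟩ := F.exists_min_image τ hFn
      exact ⟨τ x0, hτ x0, fun x hx => hmin x hx⟩
  refine ⟨τ0, hτ0, ?_⟩
  have h2 : ∀ᵐ t ∂(volume.restrict (closedBall (0 : E m) τ0)), ∀ x ∈ F,
      ¬ (Xt rN Q (A x) (ρ x) t ∩ Z x).Nonempty := by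
    refine (ae_ball_iff F.countable_toSet).2 fun x hx => ?_
    exact ae_mono (Measure.restrict_mono (closedBall_subset_closedBall (hττ x hx)) le_rfl) (hae x)
  filter_upwards [h2] with t ht z hz
  obtain ⟨x, hxF, u0, hu0, hz0⟩ := mem_iUnion₂.1 (hF (mem_univ z))
  subst hz0
  refine hR x u0 (ball_subset_ball (by have := hρ x; linarith) hu0) fun hcon => ht x hxF
    ⟨u0, ⟨ball_subset_closedBall hu0, ?_⟩, hcon⟩
  obtain ⟨y, hy, hyu⟩ := hz
  exact ⟨y, hy, hyu.symm⟩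

/-- **Generic shifts of small sets are good**, for maps which are regular near the set. -/
theorem generic' [CompactSpace N] [T2Space N] (rN : RD n m N) (hn : 1 ≤ n) {k : ℕ} (hk1 : 1 ≤ k)
    (hk : k ≤ n) {G : N → M} (hG : Continuous G) {Q : Set N} (hQc : IsCompact Q)
    (hreg : ∀ x ∈ Q, Reg (n := n) k G x)
    (ν : Measure (E m)) [IsFiniteMeasure ν] {c : ℝ} (hc : 0 < c)
    (hQ : ∀ x ∈ Q, ∀ s : ℝ, 0 < s → s ≤ 1 →
      ENNReal.ofReal (c * s ^ k) ≤ ν (closedBall (rN.e x) s)) :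
    ∃ τ : ℝ, 0 < τ ∧ ∀ᵐ t ∂(volume.restrict (closedBall (0 : E m) τ)),
      ∀ z ∈ sh rN t '' Q, GoodAt (n := n) G (sh rN t '' Q) z := by
  have hloc : ∀ x : Q, ∃ (A : E n → N) (B : M → E n) (ρ C : ℝ)
      (H : E n → E n →L[ℝ] E n →L[ℝ] E n) (h : E n → ℝ), Co (n := n) k G x A B ρ C H h :=
    fun x => (hreg x x.2).co hG
  choose A B ρ C H h hco using hloc
  have hnb : ∀ x : Q, A x '' ball 0 (ρ x / 4) ∈ 𝓝 (x : N) := by
    intro x
    have h1 := ((hco x).ld 0 (mem_ball_self (hco x).hρ)).image_mem_nhds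
      (ball_mem_nhds (0 : E n) (ε := ρ x / 4) (by have := (hco x).hρ; positivity))
    rwa [(hco x).A0] at h1
  obtain ⟨F, hF⟩ := hQc.elim_nhds_subcover' (fun x hx => A ⟨x, hx⟩ '' ball 0 (ρ ⟨x, hx⟩ / 4))
    fun x hx => hnb ⟨x, hx⟩
  have hae := fun x => ae_chart rN hk1 hk (hco x) ν hc hQ
  choose τ hτ hae using hae
  obtain ⟨τ0, hτ0, hττ⟩ : ∃ τ0 : ℝ, 0 < τ0 ∧ ∀ x ∈ F, τ0 ≤ τ x := by
    rcases F.eq_empty_or_nonempty with hFe | hFn
    · exact ⟨1, one_pos, fun x hx => by rw [hFe] at hx; simp at hx⟩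
    · obtain ⟨x0, hx0, hmin⟩ := F.exists_min_image τ hFn
      exact ⟨τ x0, hτ x0, fun x hx => hmin x hx⟩
  -- small shifts stay in the union of the charts
  have hWo : IsOpen (⋃ x ∈ F, A x '' ball 0 (ρ x / 4)) := isOpen_biUnion fun x _ =>
    isOpen_image_of_LD isOpen_ball fun v hv => (hco x).ld v (ball_subset_ball (by
      have := (hco x).hρ
      linarith) hv)
  obtain ⟨τ1, hτ1, hsm⟩ := small_shift (N := N) (m := m)
    (P := fun t y => y ∈ Q → sh rN t y ∈ ⋃ x ∈ F, A x '' ball 0 (ρ x / 4)) (fun y0 => by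
      by_cases hy0 : y0 ∈ Q
      · have h1 := (sh_tendsto rN y0).eventually (hWo.mem_nhds (hF hy0))
        filter_upwards [h1] with p hp _
        exact hp
      · have h1 : Tendsto (fun p : N × E m => p.1) (𝓝 (y0, 0)) (𝓝 y0) :=
          continuous_fst.tendsto' _ _ rfl
        filter_upwards [h1.eventually (hQc.isClosed.isOpen_compl.mem_nhds hy0)] with p hp hp2
        exact (hp hp2).elim)
  refine ⟨min τ0 τ1, lt_min hτ0 hτ1, ?_⟩
  have h2 : ∀ᵐ t ∂(volume.restrict (closedBall (0 : E m) (min τ0 τ1))), ∀ x ∈ F, ∀ δ : ℝ, 0 < δ →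
      ∃ r : ℝ, 0 < r ∧ ∀ u ∈ Xt rN Q (A x) (ρ x) t, ∀ s : ℝ, 0 < s → s ≤ r →
        ∫⁻ y in closedBall u s, ‖‖h x y‖ ^ k‖ₑ ∂(volume.restrict (ball 0 (ρ x))) ≤
          ENNReal.ofReal (δ * s ^ (n - k)) := by
    refine (ae_ball_iff F.countable_toSet).2 fun x hx => ?_
    exact ae_mono (Measure.restrict_mono (closedBall_subset_closedBall
      ((min_le_left _ _).trans (hττ x hx))) le_rfl) (hae x)
  filter_upwards [h2, ae_restrict_mem measurableSet_closedBall] with t ht htb z hz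
  rw [mem_closedBall_zero_iff] at htb
  obtain ⟨y, hy, hyz⟩ := hz
  have hzW := hsm t (htb.trans (min_le_right _ _)) y hy
  rw [hyz] at hzW
  obtain ⟨x, hxF, u0, hu0, hz0⟩ := mem_iUnion₂.1 hzW
  have hx := hco x
  have hρx := hx.hρ
  have hu0' : ‖u0‖ < ρ x / 4 := mem_ball_zero_iff.1 hu0
  have hmem : ∀ v : E n, ‖v‖ < ρ x / 4 → v + u0 ∈ ball (0 : E n) (ρ x) := by
    intro v hv
    rw [mem_ball_zero_iff]
    refine (norm_add_le _ _).trans_lt ?_
    linarith
  refine ⟨fun v => A x (v + u0), B x, C x, by change A x (0 + u0) = _; rw [zero_add, hz0], ?_, ?_,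
    hx.hC, ⟨ρ x / 8, by positivity, fun v v' hv hv' => ?_⟩, fun ε hε => ?_⟩
  · refine LD.comp_fun (g := A x) (f := fun v => v + u0) ?_ (LD_add_const u0 0)
    rw [zero_add]
    exact hx.ld u0 (ball_subset_ball (by linarith) hu0)
  · rw [← hz0]
    exact hx.ldB u0 (ball_subset_ball (by linarith) hu0)
  · have h3 := hx.lip (v + u0) (hmem v (by linarith)) (v' + u0) (hmem v' (by linarith))
    rwa [add_sub_add_right_eq_sub] at h3
  · obtain ⟨r, hr, h3⟩ := affine_of_energy hn hk1 hk (G := fun v => B x (G (A x v))) hρx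
      (by have := hx.hC; linarith) hx.dom (fun v hv w hw => (hx.lip v hv w hw).1) hx.hess hx.mem
      (R := Xt rN Q (A x) (ρ x) t) (fun u hu => hu.1) (ht x hxF) hε
    refine ⟨min r (ρ x / 4 - ‖u0‖), lt_min hr (by linarith), fun u hu hur s hs hsr => ?_⟩
    have h4 : u + u0 ∈ Xt rN Q (A x) (ρ x) t := by
      refine ⟨?_, ?_⟩
      · rw [mem_closedBall_zero_iff]
        refine (norm_add_le _ _).trans ?_
        have := hur.trans (min_le_right _ _)
        linarith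
      · obtain ⟨y', hy', hyu'⟩ := hu
        exact ⟨y', hy', hyu'.symm⟩
    obtain ⟨l, hl⟩ := h3 (u + u0) h4 s hs (hsr.trans (min_le_left _ _))
    refine ⟨l, fun q hq => ?_⟩
    have h5 := hl (q + u0) (by rw [add_sub_add_right_eq_sub]; exact hq)
    rwa [add_sub_add_right_eq_sub] at h5

/-- a shift which is good for almost all small vectors exists -/
theorem exists_shift {P : E m → Prop} {τ1 τ2 : ℝ} (hτ1 : 0 < τ1) (hτ2 : 0 < τ2)
    (h : ∀ᵐ t ∂(volume.restrict (closedBall (0 : E m) τ1)), P t) : ∃ t : E m, ‖t‖ ≤ τ2 ∧ P t := by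
  have hσ : 0 < min τ1 τ2 := lt_min hτ1 hτ2
  have h4 : ∀ᵐ t ∂(volume.restrict (closedBall (0 : E m) (min τ1 τ2))), P t :=
    ae_mono (Measure.restrict_mono (closedBall_subset_closedBall (min_le_left _ _)) le_rfl) h
  rw [ae_restrict_iff' measurableSet_closedBall] at h4
  have h5 : volume (closedBall (0 : E m) (min τ1 τ2)) ≠ 0 := (measure_closedBall_pos _ _ hσ).ne'
  by_contra hcon
  refine h5 (measure_mono_null (fun t ht => ?_) h4)
  intro h7
  refine hcon ⟨t, ?_, h7 ht⟩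
  rw [mem_closedBall_zero_iff] at ht
  exact ht.trans (min_le_right _ _)

theorem small_close [CompactSpace N] (rN : RD n m N) (rM : RD n m' M) {G : N → M}
    (hG : Continuous G) {ε : ℝ} (hε : 0 < ε) :
    ∃ τ : ℝ, 0 < τ ∧ ∀ t : E m, ‖t‖ ≤ τ → ∀ x, ‖rM.e (G (sh rN t x)) - rM.e (G x)‖ ≤ ε := by
  refine small_shift (N := N) (m := m)
    (P := fun t x => ‖rM.e (G (sh rN t x)) - rM.e (G x)‖ ≤ ε) (fun x0 => ?_)
  have ha : Tendsto (fun p : N × E m => rM.e (G (sh rN p.2 p.1))) (𝓝 (x0, 0))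
      (𝓝 (rM.e (G x0))) :=
    ((rM.he.continuous.comp hG).tendsto x0).comp (sh_tendsto rN x0)
  have hb : Tendsto (fun p : N × E m => rM.e (G p.1)) (𝓝 (x0, 0)) (𝓝 (rM.e (G x0))) :=
    ((rM.he.continuous.comp hG).tendsto x0).comp (continuous_fst.tendsto' _ _ rfl)
  have hab := (ha.sub hb).norm
  rw [sub_self, norm_zero] at hab
  exact (hab.eventually (gt_mem_nhds hε)).mono fun p hp => le_of_lt hp

/-- **Neighbourhoods of small compact sets embed smoothly**, for maps which are regular off a set of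
measure zero. -/
theorem embed_nbhd' [CompactSpace N] [T2Space N] [IsManifold (𝓡 n) ∞ N] [CompactSpace M]
    (rN : RD n m N) (rM : RD n m' M) (hn : 1 ≤ n) {k : ℕ} (hk1 : 1 ≤ k) (hk : k < n) {G : N → M}
    (hG : Continuous G) (hGi : Injective G)
    (hreg : ∀ p : N, ∃ (A : E n → N) (Z : Set (E n)), A 0 = p ∧ LD n A 0 ∧
      μH[((n - k : ℕ) : ℝ)] Z = 0 ∧ ∀ᶠ z in 𝓝 (0 : E n), z ∉ Z → Reg (n := n) k G (A z))
    {Q : Set N} (hQc : IsCompact Q) (hQ : Small (n := n) k Q) {ε : ℝ} (hε : 0 < ε) :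
    ∃ (U : Set N) (f : N → M), IsOpen U ∧ Q ⊆ U ∧ InjOn f U ∧ (∀ x ∈ U, LD n f x) ∧
      ∀ x ∈ U, ‖rM.e (f x) - rM.e (G x)‖ ≤ ε := by
  obtain ⟨ν, c, hν, hc, hνQ⟩ := exists_measure rN hQ
  obtain ⟨τ1, hτ1, h1⟩ := avoid rN hk hreg ν hc hνQ
  obtain ⟨τ2, hτ2, h2⟩ := shift_good rN
  obtain ⟨τ3, hτ3, h3⟩ := small_close rN rM hG (ε := ε / 4) (by positivity)
  obtain ⟨t, ht, htr⟩ := exists_shift hτ1 (lt_min hτ2 hτ3) h1
  obtain ⟨hinj, hld⟩ := h2 t (ht.trans (min_le_left _ _))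
  have hcont : Continuous (sh rN t) := continuous_iff_continuousAt.2 fun x =>
    (hld x).continuousAt
  have hQc1 : IsCompact (sh rN t '' Q) := hQc.image hcont
  have hQ1 : Small (n := n) k (sh rN t '' Q) := by
    obtain ⟨r, φ, hφ, hQφ⟩ := hQ
    refine ⟨r, fun i v => sh rN t (φ i v), fun i v => ?_, ?_⟩
    · exact ContMDiffAt.comp v (g := sh rN t) (f := φ i) (hld _).contMDiffAt (hφ i v)
    · rintro _ ⟨x, hx, rfl⟩
      obtain ⟨i, v, hv, rfl⟩ := mem_iUnion.1 (hQφ hx)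
      exact mem_iUnion.2 ⟨i, v, hv, rfl⟩
  obtain ⟨ν', c', hν', hc', hνQ'⟩ := exists_measure rN hQ1
  obtain ⟨τ4, hτ4, h4⟩ := generic' rN hn hk1 hk.le hG hQc1 htr ν' hc' hνQ'
  obtain ⟨t', ht', htg⟩ := exists_shift hτ4 (lt_min hτ2 hτ3) h4
  obtain ⟨hinj', hld'⟩ := h2 t' (ht'.trans (min_le_left _ _))
  have hcont' : Continuous (sh rN t') := continuous_iff_continuousAt.2 fun x =>
    (hld' x).continuousAt
  obtain ⟨U, f, hU, hKU, hfi, hfl, hfe⟩ := glob rN rM hG hGi (hQc1.image hcont') htg (half_pos hε)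
  refine ⟨(fun x => sh rN t' (sh rN t x)) ⁻¹' U, fun x => f (sh rN t' (sh rN t x)),
    hU.preimage (hcont'.comp hcont), fun x hx => hKU ⟨_, ⟨x, hx, rfl⟩, rfl⟩, ?_, ?_, ?_⟩
  · intro x hx y hy hxy
    exact hinj (hinj' (hfi hx hy hxy))
  · intro x hx
    exact LD.comp_fun (g := f) (hfl _ hx) (LD.comp_fun (g := sh rN t') (hld' _) (hld x))
  · intro x hx
    have e1 : rM.e (f (sh rN t' (sh rN t x))) - rM.e (G x) =
      (rM.e (f (sh rN t' (sh rN t x))) - rM.e (G (sh rN t' (sh rN t x)))) +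
      (rM.e (G (sh rN t' (sh rN t x))) - rM.e (G (sh rN t x))) +
      (rM.e (G (sh rN t x)) - rM.e (G x)) := by abel
    rw [e1]
    refine (norm_add_le _ _).trans ((add_le_add (norm_add_le _ _) le_rfl).trans ?_)
    have h5 := hfe _ hx
    have h6 := h3 t (ht.trans (min_le_right _ _)) x
    have h7 := h3 t' (ht'.trans (min_le_right _ _)) (sh rN t x)
    linarith

end Pool.Agent.H816.Sk
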