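import Pool.Agent.H816.Sk12
import Pool.Agent.H816.Sph
import Pool.Graph.R_pool_sql_team_seeded_64922ed1.X175.SH.MB8

/-!
# Closed manifolds which embed in the sphere off a cell
-/

set_option autoImplicit false
set_option linter.unusedSectionVars false

open Set Filter Topology Metric Function MeasureTheory Module
open scoped Manifold ContDiff

noncomputable section

namespace Pool.Agent.H816.Sk

open Pool.Agent.Y522

attribute [local instance] factE

theorem sg_cpt {n : ℕ} (q : Sn n) {V : Set (Sn n)} (hV : IsOpen V) (hp : q ∈ V) :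
    IsCompact {z | sg q z ∉ V} := by
  have h1 : IsCompact (stereographic' n q '' Vᶜ) := by
    refine hV.isClosed_compl.isCompact.image_of_continuousOn ?_
    refine (stereographic' n q).continuousOn.mono ?_
    rw [stereographic'_source]
    rintro y hy rfl
    exact hy hp
  refine h1.of_isClosed_subset ?_ ?_
  · exact hV.isClosed_compl.preimage
      (continuous_iff_continuousAt.2 fun z => (sg_LD q z).continuousAt)
  · intro z hz
    refine ⟨sg q z, hz, ?_⟩
    rw [← pr_eq]
    exact pr_sg q z

theorem ld_invFun {n : ℕ} {N : Type} [TopologicalSpace N] [ChartedSpace (E n) N] {c : E n → N}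
    (hci : Injective c) (hcd : ∀ z, LD n c z) (z : E n) : LD n (invFun c) (c z) :=
  LD.inverse (k := c) (g := invFun c) (U := univ) isOpen_univ (fun y _ => hcd y)
    (fun y _ => leftInverse_invFun hci y) (mem_univ z)

/-- **Collapsing the complement of a cell.** A closed manifold is homeomorphic to the sphere, by a
homeomorphism with one singular point, if the complement of an open cell embeds in `ℝⁿ`. -/
theorem to_sphere {m : ℕ} (hm : 1 ≤ m) {N : Type} [TopologicalSpace N] [CompactSpace N] [T2Space N]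
    [ChartedSpace (E (m + 1)) N] [IsManifold (𝓡 (m + 1)) ∞ N] {c : E (m + 1) → N}
    (hci : Injective c) (hcd : ∀ z, LD (m + 1) c z) {U : Set N} (hU : IsOpen U)
    (hUc : (range c)ᶜ ⊆ U) {k : N → E (m + 1)} (hk : InjOn k U) (hkl : ∀ x ∈ U, LD (m + 1) k x) :
    ∃ (G : N ≃ₜ Sn (m + 1)) (x₀ : N), ∀ x, x ≠ x₀ → LD (m + 1) G x := by
  classical
  have hcc : Continuous c := continuous_iff_continuousAt.2 fun z => (hcd z).continuousAt
  have hop : IsOpenMap c := fun s hs => isOpen_image_of_LD hs fun z _ => hcd z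
  have hro : IsOpen (range c) := hop.isOpen_range
  have : IsManifold (𝓡 (m + 1)) ∞ (Sn (m + 1)) := IsManifold.of_le (n := ω) le_top
  obtain ⟨pole⟩ : Nonempty (Sn (m + 1)) :=
    ⟨⟨EuclideanSpace.single 0 1, by simp⟩⟩
  let g : N → Sn (m + 1) := fun x => if x ∈ range c then sg pole (invFun c x) else pole
  have hg1 : ∀ z, g (c z) = sg pole z := fun z => by
    show (if c z ∈ range c then sg pole (invFun c (c z)) else pole) = sg pole z
    rw [if_pos (mem_range_self z), leftInverse_invFun hci z]
  have hg2 : ∀ x, x ∉ range c → g x = pole := fun x hx => if_neg hx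
  have hgp : ∀ x, g x = pole ↔ x ∉ range c := by
    intro x
    constructor
    · rintro h ⟨z, rfl⟩
      rw [hg1] at h
      exact sg_ne pole z h
    · exact hg2 x
  have hgld : ∀ x, g x ≠ pole → LD (m + 1) g x := by
    intro x hx
    have hxr : x ∈ range c := by
      by_contra hcon
      exact hx (hg2 x hcon)
    obtain ⟨z, rfl⟩ := hxr
    have h1 : LD (m + 1) (fun y => sg pole (invFun c y)) (c z) := by
      refine LD.comp_fun (g := sg pole) (f := invFun c) ?_ (ld_invFun hci hcd z)
      exact sg_LD pole _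
    refine LD.congr h1 ?_
    filter_upwards [hro.mem_nhds (mem_range_self z)] with y hy
    exact if_pos hy
  have hgc : Continuous g := by
    rw [continuous_iff_continuousAt]
    intro x
    by_cases hx : g x = pole
    · rw [ContinuousAt, hx]
      intro V hV
      obtain ⟨V', hV', hV'o, hpV'⟩ := _root_.mem_nhds_iff.1 hV
      have hK : IsClosed (c '' {z | sg pole z ∉ V'}) :=
        ((sg_cpt pole hV'o hpV').image hcc).isClosed
      have hxK : x ∉ c '' {z | sg pole z ∉ V'} := by
        rintro ⟨z, -, rfl⟩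
        exact (hgp _).1 hx (mem_range_self z)
      rw [mem_map]
      refine mem_of_superset (hK.isOpen_compl.mem_nhds hxK) ?_
      intro y hy
      refine hV' ?_
      by_cases hyr : y ∈ range c
      · obtain ⟨z, rfl⟩ := hyr
        rw [hg1]
        by_contra hcon
        exact hy ⟨z, hcon, rfl⟩
      · rw [hg2 y hyr]
        exact hpV'
    · exact (hgld x hx).continuousAt
  have hne : ∃ x, x ∉ range c := by
    by_contra hcon
    push Not at hcon
    have hsurj : Surjective c := hcon
    let h : E (m + 1) ≃ₜ N :=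
      (Equiv.ofBijective c ⟨hci, hsurj⟩).toHomeomorphOfContinuousOpen hcc hop
    have : CompactSpace (E (m + 1)) := h.symm.compactSpace
    exact noncompact_univ (E (m + 1)) isCompact_univ
  have hgs : Surjective g := by
    intro y
    by_cases hy : y = pole
    · obtain ⟨x, hx⟩ := hne
      exact ⟨x, by rw [hy]; exact hg2 x hx⟩
    · exact ⟨c (pr pole y), by rw [hg1, sg_pr pole hy]⟩
  have hcon : ConnectedSpace (Sn (m + 1)) := by
    have h1 : 1 < Module.rank ℝ (EuclideanSpace ℝ (Fin (m + 1 + 1))) := by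
      rw [← Module.finrank_eq_rank, finrank_euclideanSpace_fin]
      norm_cast
      omega
    exact isConnected_iff_connectedSpace.1 (isConnected_sphere h1 0 zero_le_one)
  have hsing : Pool.Agent.X175.SH.Sing (m + 1) g {pole} :=
    { proper := hgc.isProperMap
      surj := hgs
      closed := isClosed_singleton
      null := by
        have h0 : Pool.Agent.X175.SH.NullM (m + 1) (∅ : Set (Sn (m + 1))) := fun c _ => by
          rw [preimage_empty]
          exact measure_empty
        have h1 := h0.union_finite (finite_singleton pole)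
        rwa [empty_union] at h1
      inj := by
        intro x y hx hxy
        have hx' : x ∈ range c := by
          by_contra hcon
          exact hx (hg2 x hcon)
        have hy' : y ∈ range c := by
          by_contra hcon
          exact hx (hxy.trans (hg2 y hcon))
        obtain ⟨z, rfl⟩ := hx'
        obtain ⟨w, rfl⟩ := hy'
        rw [hg1, hg1] at hxy
        rw [sg_inj pole hxy]
      ld := fun x hx => hgld x hx
      fib := by
        rintro _ rfl
        exact ⟨U, k, hU, fun x hx => hUc ((hgp x).1 hx), hk, hkl⟩ }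
  obtain ⟨G, x₀, h1, -⟩ := Pool.Agent.X175.SH.null_final hsing isCompact_singleton
  exact ⟨G, x₀, h1⟩

theorem pr_LD {n : ℕ} (q : Sn n) {z : Sn n} (h : z ≠ q) :
    LD n (fun y : Sn n => pr q (y : E (n + 1))) z := by
  have h2 := LD.inverse (k := sg q) (g := fun z : Sn n => pr q (z : E (n + 1))) (U := univ)
    isOpen_univ (fun y _ => sg_LD q y) (fun y _ => pr_sg q y) (mem_univ (pr q z))
  rwa [sg_pr q h] at h2

/-- the same for neighbourhoods which embed in the sphere -/
theorem to_sphere' {m : ℕ} (hm : 1 ≤ m) {N : Type} [TopologicalSpace N] [CompactSpace N] [T2Space N]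
    [ChartedSpace (E (m + 1)) N] [IsManifold (𝓡 (m + 1)) ∞ N] [PreconnectedSpace N]
    {c : E (m + 1) → N} (hci : Injective c) (hcd : ∀ z, LD (m + 1) c z) {U : Set N} (hU : IsOpen U)
    (hUc : (range c)ᶜ ⊆ U) {k : N → Sn (m + 1)} (hk : InjOn k U)
    (hkl : ∀ x ∈ U, LD (m + 1) k x) :
    ∃ (G : N ≃ₜ Sn (m + 1)) (x₀ : N), ∀ x, x ≠ x₀ → LD (m + 1) G x := by
  have hcc : Continuous c := continuous_iff_continuousAt.2 fun z => (hcd z).continuousAt
  have hop : IsOpenMap c := fun s hs => isOpen_image_of_LD hs fun z _ => hcd z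
  obtain ⟨y0, hy0⟩ : ∃ y0, y0 ∉ k '' (range c)ᶜ := by
    by_contra hcon
    push Not at hcon
    have h1 : (range c)ᶜ = U := by
      refine hUc.antisymm fun x hx => ?_
      obtain ⟨x', hx', h2⟩ := hcon (k x)
      rwa [← hk (hUc hx') hx h2]
    have h2 : IsClopen (range c) := by
      refine ⟨?_, hop.isOpen_range⟩
      rw [← isOpen_compl_iff, h1]
      exact hU
    have h3 := h2.eq_univ ⟨c 0, mem_range_self 0⟩
    have hsurj : Surjective c := range_eq_univ.1 h3
    let h : E (m + 1) ≃ₜ N :=
      (Equiv.ofBijective c ⟨hci, hsurj⟩).toHomeomorphOfContinuousOpen hcc hop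
    have : CompactSpace (E (m + 1)) := h.symm.compactSpace
    exact noncompact_univ (E (m + 1)) isCompact_univ
  have hU2 : IsOpen {x | x ∈ U ∧ k x ≠ y0} := by
    rw [isOpen_iff_mem_nhds]
    rintro x ⟨hxU, hx⟩
    filter_upwards [hU.mem_nhds hxU, (hkl x hxU).continuousAt.eventually
      (isOpen_ne.mem_nhds hx)] with y h1 h2
    exact ⟨h1, h2⟩
  refine to_sphere hm hci hcd hU2 (fun x hx => ⟨hUc hx, fun h => hy0 ⟨x, hx, h⟩⟩)
    (k := fun x => pr y0 (k x : E (m + 1 + 1))) ?_ ?_
  · rintro x ⟨hx, hx'⟩ y ⟨hy, hy'⟩ hxy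
    refine hk hx hy ?_
    rw [← sg_pr y0 hx', ← sg_pr y0 hy']
    exact congrArg (sg y0) hxy
  · rintro x ⟨hx, hx'⟩
    exact LD.comp_fun (g := fun y : Sn (m + 1) => pr y0 (y : E (m + 1 + 1))) (pr_LD y0 hx')
      (hkl x hx)

/-- diffeomorphisms can be composed -/
theorem to_sphere'' {m : ℕ} (hm : 1 ≤ m) {N : Type} [TopologicalSpace N] [CompactSpace N]
    [T2Space N] [ChartedSpace (E (m + 1)) N] [IsManifold (𝓡 (m + 1)) ∞ N] [PreconnectedSpace N]
    {c : E (m + 1) → N} (hci : Injective c) (hcd : ∀ z, LD (m + 1) c z) {U : Set N} (hU : IsOpen U)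
    {k : N → Sn (m + 1)} (hk : InjOn k U) (hkl : ∀ x ∈ U, LD (m + 1) k x) {κ : N → N}
    (hκ : Bijective κ) (hκd : ∀ x, LD (m + 1) κ x) (hκU : (range c)ᶜ ⊆ κ '' U) :
    ∃ (G : N ≃ₜ Sn (m + 1)) (x₀ : N), ∀ x, x ≠ x₀ → LD (m + 1) G x := by
  obtain ⟨κ', hκ'⟩ : ∃ κ' : N → N, ∀ x, κ' (κ x) = x :=
    ⟨(Equiv.ofBijective κ hκ).symm, fun x => (Equiv.ofBijective κ hκ).symm_apply_apply x⟩
  have hκ'd : ∀ y, LD (m + 1) κ' y := fun y => LD.inverse_bij hκ hκd hκ' y
  have hκ'i : Injective κ' := by
    intro a b hab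
    obtain ⟨x, rfl⟩ := hκ.2 a
    obtain ⟨y, rfl⟩ := hκ.2 b
    rw [hκ', hκ'] at hab
    rw [hab]
  have hκ'c : Continuous κ' := continuous_iff_continuousAt.2 fun y => (hκ'd y).continuousAt
  refine to_sphere' hm hci hcd (hU.preimage hκ'c) (fun x hx => ?_) (k := fun x => k (κ' x)) ?_ ?_
  · obtain ⟨y, hy, rfl⟩ := hκU hx
    change κ' (κ y) ∈ U
    rwa [hκ']
  · intro x hx y hy hxy
    exact hκ'i (hk hx hy hxy)
  · intro x hx
    exact LD.comp_fun (g := k) (f := κ') (hkl _ hx) (hκ'd x)

end Pool.Agent.H816.Sk
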