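import Pool.Agent.H816.Sk13
import Pool.Agent.H816.Sing4
import Pool.Agent.H816.Ph21

/-!
# Closed manifolds which are equivalent to the sphere
-/

set_option autoImplicit false
set_option linter.unusedSectionVars false

open Set Filter Topology Metric Function MeasureTheory Module
open scoped Manifold ContDiff

noncomputable section

namespace Pool.Agent.H816.Sk

open Pool.Agent.Y522

attribute [local instance] factE

variable {m : ℕ} {N : Type} [TopologicalSpace N] [CompactSpace N] [T2Space N]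
  [ChartedSpace (E (m + 1)) N] [IsManifold (𝓡 (m + 1)) ∞ N]

theorem sn_mfd : IsManifold (𝓡 (m + 1)) ∞ (Sn (m + 1)) := IsManifold.of_le (n := ω) le_top

theorem sn_conn (hm : 1 ≤ m) : ConnectedSpace (Sn (m + 1)) := by
  have h1 : 1 < Module.rank ℝ (EuclideanSpace ℝ (Fin (m + 1 + 1))) := by
    rw [← Module.finrank_eq_rank, finrank_euclideanSpace_fin]
    norm_cast
    omega
  exact isConnected_iff_connectedSpace.1 (isConnected_sphere h1 0 zero_le_one)

theorem sn_nonempty : Nonempty (Sn (m + 1)) := ⟨⟨EuclideanSpace.single 0 1, by simp⟩⟩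

/-- a manifold with a small spine off a cell which is equivalent to the sphere is the sphere off a
point -/
theorem sphere_one (hm : 1 ≤ m) {k : ℕ} (hk1 : 1 ≤ k) (hk : k < m + 1) {f : N → Sn (m + 1)}
    (hf : IsHomeomorph f)
    (hreg : ∀ p : N, ∃ (A : E (m + 1) → N) (Z : Set (E (m + 1))), A 0 = p ∧ LD (m + 1) A 0 ∧
      μH[((m + 1 - k : ℕ) : ℝ)] Z = 0 ∧
        ∀ᶠ z in 𝓝 (0 : E (m + 1)), z ∉ Z → Reg (n := m + 1) k f (A z))
    {c : E (m + 1) → N} (hci : Injective c) (hcd : ∀ z, LD (m + 1) c z) {Q : Set N}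
    (hQc : IsCompact Q) (hQ : Small (n := m + 1) k Q)
    (hsp : ∀ U : Set N, IsOpen U → Q ⊆ U → ∃ κ : N → N, Bijective κ ∧ (∀ x, LD (m + 1) κ x) ∧
      (range c)ᶜ ⊆ κ '' U) :
    ∃ (G : N ≃ₜ Sn (m + 1)) (x₀ : N), ∀ x, x ≠ x₀ → LD (m + 1) G x := by
  have := sn_mfd (m := m)
  have := sn_conn hm
  have hp : ConnectedSpace N := by
    let e : N ≃ₜ Sn (m + 1) := hf.homeomorph
    exact e.symm.surjective.connectedSpace e.symm.continuous
  have : Nonempty N := ⟨c 0⟩
  have : Nonempty (Sn (m + 1)) := ⟨f (c 0)⟩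
  obtain ⟨a, ⟨rX⟩⟩ := exists_RD (m + 1) N
  obtain ⟨b, ⟨rY⟩⟩ := exists_RD (m + 1) (Sn (m + 1))
  obtain ⟨U, g, h2, h3, h4, h5, -⟩ := embed_nbhd' rX rY (by omega) hk1 hk
    hf.continuous hf.injective hreg hQc hQ one_pos
  obtain ⟨κ, hκ, hκd, hκU⟩ := hsp U h2 h3
  exact to_sphere'' hm hci hcd h2 h4 h5 hκ hκd hκU

/-- the singular point can be moved -/
theorem all_points (hm : 2 ≤ m) (G : N ≃ₜ Sn (m + 1)) {x₀ : N}
    (hG : ∀ x, x ≠ x₀ → LD (m + 1) G x) (p : N) :
    ∃ f : N → Sn (m + 1), IsHomeomorph f ∧ ∀ x, x ≠ p → LD (m + 1) f x := by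
  have := sn_mfd (m := m)
  have := sn_conn (m := m) (by omega)
  have : ConnectedSpace N := G.symm.surjective.connectedSpace G.symm.continuous
  obtain ⟨g, h1, h2, -⟩ := Sw.finite_closed hm (O := univ) isOpen_univ p (finite_singleton x₀) G
    G.isHomeomorph (fun x hx => hG x fun h => hx (Or.inr h)) (fun _ => mem_univ _)
  exact ⟨g, h1, h2⟩

/-- the complement of the singular point is a cell -/
theorem cell_of {f : N → Sn (m + 1)} (hf : IsHomeomorph f) {p : N}
    (hl : ∀ x, x ≠ p → LD (m + 1) f x) :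
    ∃ j : E (m + 1) → N, Injective j ∧ (∀ z, LD (m + 1) j z) ∧ range j = {p}ᶜ := by
  obtain ⟨f', hf'⟩ : ∃ f' : Sn (m + 1) → N, (∀ x, f' (f x) = x) ∧ ∀ y, f (f' y) = y :=
    ⟨hf.homeomorph.symm, fun x => hf.homeomorph.symm_apply_apply x,
      fun x => hf.homeomorph.apply_symm_apply x⟩
  have hl' : ∀ x, x ≠ p → LD (m + 1) f' (f x) := fun x hx =>
    LD.inverse (k := f) (g := f') (U := {p}ᶜ) isOpen_compl_singleton (fun y hy => hl y hy)
      (fun y _ => hf'.1 y) hx
  refine ⟨fun z => f' (sg (f p) z), fun a b hab => ?_, fun z => ?_, ?_⟩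
  · have h1 := congrArg f hab
    rw [hf'.2, hf'.2] at h1
    exact sg_inj _ h1
  · refine LD.comp_fun (g := f') (f := sg (f p)) ?_ (sg_LD _ z)
    have h1 := hl' (f' (sg (f p) z)) (fun h => sg_ne (f p) z (by rw [← hf'.2 (sg (f p) z), h]))
    rwa [hf'.2] at h1
  · ext x
    constructor
    · rintro ⟨z, rfl⟩ h
      have h1 : f' (sg (f p) z) = p := h
      exact sg_ne (f p) z (by rw [← hf'.2 (sg (f p) z), h1])
    · intro hx
      refine ⟨pr (f p) (f x), ?_⟩
      change f' (sg (f p) (pr (f p) (f x))) = x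
      rw [sg_pr _ fun h => hx (hf.injective h), hf'.1]

/-- a manifold which is euclidean off a point is the sphere off a point -/
theorem homeo_of_cell (j : E (m + 1) → N) (hj : Injective j) (hjd : ∀ z, LD (m + 1) j z) {p : N}
    (hr : range j = {p}ᶜ) :
    ∃ f : N → Sn (m + 1), IsHomeomorph f ∧ ∀ x, x ≠ p → LD (m + 1) f x := by
  obtain ⟨q⟩ := sn_nonempty (m := m)
  have hx : ∀ x, x ≠ p → ∃ z, j z = x := fun x hx => by
    have h1 : x ∈ ({p} : Set N)ᶜ := hx
    rwa [← hr] at h1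
  have hl : ∀ x, x ≠ p → LD (m + 1) (fun x => sg q (invFun j x)) x := by
    intro x h
    obtain ⟨z, rfl⟩ := hx x h
    exact LD.comp_fun (g := sg q) (f := invFun j) (sg_LD q _) (ld_invFun hj hjd z)
  have hb : BijOn (fun x => sg q (invFun j x)) {p}ᶜ {q}ᶜ := by
    refine ⟨fun x _ => sg_ne q _, fun x h y h' hxy => ?_, fun y hy => ?_⟩
    · obtain ⟨z, rfl⟩ := hx x h
      obtain ⟨w, rfl⟩ := hx y h'
      have h1 := sg_inj q hxy
      rw [leftInverse_invFun hj z, leftInverse_invFun hj w] at h1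
      rw [h1]
    · refine ⟨j (pr q y), by rw [← hr]; exact mem_range_self _, ?_⟩
      change sg q (invFun j (j (pr q y))) = y
      rw [leftInverse_invFun hj, sg_pr q hy]
  obtain ⟨f, h1, -, h2⟩ := punctured_ext hb hl
  exact ⟨f, h1, fun x h => LD.congr (hl x h) (h2 x h)⟩

end Pool.Agent.H816.Sk
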