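import Mathlib

/-!
# Shifted sets meet small balls with small probability
-/

set_option autoImplicit false
set_option linter.unusedSectionVars false

open Set Filter Topology Metric Function Module MeasureTheory
open scoped ContDiff ENNReal

noncomputable section

namespace Pool.Agent.H816.Sk

/-- sets with small intersections with the translates of a subspace -/
theorem vol_trans {n m : ℕ} {S : Set (EuclideanSpace ℝ (Fin m))} (hS : MeasurableSet S)
    {w : EuclideanSpace ℝ (Fin m)} {r0 : ℝ} (hSr : S ⊆ closedBall w r0)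
    (j : EuclideanSpace ℝ (Fin n) →L[ℝ] EuclideanSpace ℝ (Fin m)) {d : ℝ} (hd : 0 ≤ d)
    (h : ∀ v a a', v + j a ∈ S → v + j a' ∈ S → ‖a - a'‖ ≤ d) :
    volume S ≤ volume (closedBall w (r0 + ‖j‖)) * ENNReal.ofReal (d ^ n) := by
  obtain ⟨T, hT⟩ : ∃ T : Set (EuclideanSpace ℝ (Fin n) × EuclideanSpace ℝ (Fin m)),
    T = {p | p.1 ∈ ball 0 1 ∧ p.2 + j p.1 ∈ S} := ⟨_, rfl⟩
  have hTm : MeasurableSet T := by
    rw [hT]
    have h1 : Measurable fun p : EuclideanSpace ℝ (Fin n) × EuclideanSpace ℝ (Fin m) =>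
        p.2 + j p.1 := (continuous_snd.add (j.continuous.comp continuous_fst)).measurable
    exact (measurable_fst measurableSet_ball).inter (h1 hS)
  have h1 : (volume.prod volume) T = volume (ball (0 : EuclideanSpace ℝ (Fin n)) 1) * volume S := by
    rw [Measure.prod_apply hTm]
    have h2 : ∀ a : EuclideanSpace ℝ (Fin n), volume (Prod.mk a ⁻¹' T) =
        (ball (0 : EuclideanSpace ℝ (Fin n)) 1).indicator (fun _ => volume S) a := by
      intro a
      by_cases ha : a ∈ ball (0 : EuclideanSpace ℝ (Fin n)) 1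
      · rw [indicator_of_mem ha]
        have h3 : Prod.mk a ⁻¹' T = (fun v => v + j a) ⁻¹' S := by
          ext v
          rw [hT]
          simp only [mem_preimage, mem_setOf_eq]
          exact ⟨fun h => h.2, fun h => ⟨ha, h⟩⟩
        rw [h3]
        exact measure_preimage_add_right volume (j a) S
      · rw [indicator_of_notMem ha]
        have h3 : Prod.mk a ⁻¹' T = ∅ := by
          ext v
          rw [hT]
          simp only [mem_preimage, mem_setOf_eq, mem_empty_iff_false, iff_false]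
          exact fun h => ha h.1
        rw [h3, measure_empty]
    simp_rw [h2]
    rw [lintegral_indicator measurableSet_ball, setLIntegral_const, mul_comm]
  have h2 : (volume.prod volume) T ≤ volume (closedBall w (r0 + ‖j‖)) *
      (ENNReal.ofReal (d ^ n) * volume (ball (0 : EuclideanSpace ℝ (Fin n)) 1)) := by
    rw [Measure.prod_apply_symm hTm]
    have h3 : ∀ v : EuclideanSpace ℝ (Fin m), volume ((fun a => (a, v)) ⁻¹' T) ≤
        (closedBall w (r0 + ‖j‖)).indicator (fun _ =>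
          ENNReal.ofReal (d ^ n) * volume (ball (0 : EuclideanSpace ℝ (Fin n)) 1)) v := by
      intro v
      rcases eq_empty_or_nonempty ((fun a => (a, v)) ⁻¹' T) with h4 | ⟨a0, h4⟩
      · rw [h4, measure_empty]
        exact zero_le
      · have h4' := h4
        rw [hT] at h4
        obtain ⟨h5, h6⟩ := h4
        have hv : v ∈ closedBall w (r0 + ‖j‖) := by
          have h7 := hSr h6
          rw [mem_closedBall, dist_eq_norm] at h7 ⊢
          have e : v - w = (v + j a0 - w) - j a0 := by abel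
          rw [e]
          refine (norm_sub_le _ _).trans (add_le_add h7 ?_)
          refine (j.le_opNorm a0).trans ?_
          have h8 : ‖a0‖ < 1 := mem_ball_zero_iff.1 h5
          nlinarith [norm_nonneg j]
        rw [indicator_of_mem hv]
        have h7 : (fun a => (a, v)) ⁻¹' T ⊆ closedBall a0 d := by
          intro a ha
          change (a, v) ∈ T at ha
          rw [hT] at ha
          rw [mem_closedBall, dist_eq_norm]
          exact h v a a0 ha.2 h6
        refine (measure_mono h7).trans ?_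
        rw [Measure.addHaar_closedBall _ _ hd, finrank_euclideanSpace, Fintype.card_fin]
    refine (lintegral_mono h3).trans ?_
    rw [lintegral_indicator measurableSet_closedBall, setLIntegral_const, mul_comm]
  rw [h1] at h2
  have h3 : volume (ball (0 : EuclideanSpace ℝ (Fin n)) 1) ≠ 0 :=
    (measure_ball_pos _ _ one_pos).ne'
  have h4 : volume (ball (0 : EuclideanSpace ℝ (Fin n)) 1) ≠ ⊤ := measure_ball_lt_top.ne
  rw [mul_comm, ← mul_assoc] at h2
  exact (ENNReal.mul_le_mul_iff_left h3 h4).1 h2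

/-- **Hitting estimate.** -/
theorem hit {n m : ℕ} {ψ : EuclideanSpace ℝ (Fin m) → EuclideanSpace ℝ (Fin n)}
    {D : EuclideanSpace ℝ (Fin m) →L[ℝ] EuclideanSpace ℝ (Fin n)}
    {w0 : EuclideanSpace ℝ (Fin m)} (hψ : HasStrictFDerivAt ψ D w0)
    {j : EuclideanSpace ℝ (Fin n) →L[ℝ] EuclideanSpace ℝ (Fin m)} (hj : ∀ a, D (j a) = a)
    (ν : Measure (EuclideanSpace ℝ (Fin m))) [IsFiniteMeasure ν] {k : ℕ} (hk : k ≤ n)
    {Q : Set (EuclideanSpace ℝ (Fin m))} {c : ℝ} (hc : 0 < c)
    (hQ : ∀ x ∈ Q, ∀ s : ℝ, 0 < s → s ≤ 1 → ENNReal.ofReal (c * s ^ k) ≤ ν (closedBall x s)) :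
    ∃ τ : ℝ, 0 < τ ∧ ∃ C : ℝ, 0 ≤ C ∧ ∀ (u : EuclideanSpace ℝ (Fin n)) (s : ℝ), 0 < s → s ≤ τ →
      volume {t : EuclideanSpace ℝ (Fin m) | ‖t‖ ≤ τ ∧ ∃ x ∈ Q, ‖x - w0‖ ≤ τ ∧
        ‖ψ (x + t) - u‖ ≤ s} ≤ ENNReal.ofReal (C * s ^ (n - k)) := by
  obtain ⟨ε, hε, hε1, hε2⟩ : ∃ ε : ℝ, 0 < ε ∧ ε ≤ 1 ∧ ε * ‖j‖ ≤ 1 / 2 := by
    refine ⟨1 / (2 * (‖j‖ + 1)), by positivity, ?_, ?_⟩
    · rw [div_le_one (by positivity)]
      nlinarith [norm_nonneg j]
    · rw [div_mul_eq_mul_div, one_mul, div_le_div_iff₀ (by positivity) (by positivity)]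
      nlinarith [norm_nonneg j]
  have h1 := hψ.isLittleO.def hε
  obtain ⟨r, hr, h1⟩ := Metric.eventually_nhds_iff_ball.1 h1
  obtain ⟨τ, hτ, hτr, hτ1⟩ : ∃ τ : ℝ, 0 < τ ∧ 4 * τ < r ∧ τ ≤ 1 :=
    ⟨min (r / 8) 1, by positivity, by have := min_le_left (r / 8) 1; linarith, min_le_right _ _⟩
  have hst : ∀ y y', ‖y - w0‖ ≤ 4 * τ → ‖y' - w0‖ ≤ 4 * τ →
      ‖ψ y - ψ y' - D (y - y')‖ ≤ ε * ‖y - y'‖ := by
    intro y y' hy hy'
    refine h1 (y, y') ?_
    rw [mem_ball, Prod.dist_eq, max_lt_iff, dist_eq_norm, dist_eq_norm]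
    exact ⟨by linarith, by linarith⟩
  obtain ⟨C1, hC1, hlip⟩ : ∃ C1 : ℝ, 1 ≤ C1 ∧ ∀ y y', ‖y - w0‖ ≤ 4 * τ → ‖y' - w0‖ ≤ 4 * τ →
      ‖ψ y - ψ y'‖ ≤ C1 * ‖y - y'‖ := by
    refine ⟨‖D‖ + 1, by linarith [norm_nonneg D], fun y y' hy hy' => ?_⟩
    have e : ψ y - ψ y' = (ψ y - ψ y' - D (y - y')) + D (y - y') := by abel
    rw [e]
    refine (norm_add_le _ _).trans ?_
    have h2 := hst y y' hy hy'
    have h3 := D.le_opNorm (y - y')
    nlinarith [norm_nonneg (y - y')]
  have hcon : ContinuousOn ψ (closedBall w0 (4 * τ)) := by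
    refine (LipschitzOnWith.of_dist_le_mul (K := ⟨C1, by linarith⟩) fun y hy y' hy' => ?_).continuousOn
    rw [dist_eq_norm, dist_eq_norm]
    rw [mem_closedBall, dist_eq_norm] at hy hy'
    exact hlip y y' hy hy'
  obtain ⟨V, hV⟩ : ∃ V : ℝ≥0∞, V = volume (closedBall (0 : EuclideanSpace ℝ (Fin m))
    (τ + ‖j‖)) := ⟨_, rfl⟩
  have hVf : V ≠ ⊤ := by
    rw [hV]
    exact measure_closedBall_lt_top.ne
  refine ⟨τ, hτ, (ν univ).toReal * V.toReal * (4 * (2 * C1)) ^ n / c, by positivity,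
    fun u s hs hsτ => ?_⟩
  obtain ⟨T, hT⟩ : ∃ T : Set (EuclideanSpace ℝ (Fin m) × EuclideanSpace ℝ (Fin m)),
    T = (closedBall 0 τ ×ˢ closedBall w0 (2 * τ)) ∩
      (fun p => ψ (p.2 + p.1)) ⁻¹' (closedBall u (2 * C1 * s)) := ⟨_, rfl⟩
  have hTc : IsClosed T := by
    rw [hT]
    refine ContinuousOn.preimage_isClosed_of_isClosed ?_
      (isClosed_closedBall.prod isClosed_closedBall) isClosed_closedBall
    refine hcon.comp (continuous_snd.add continuous_fst).continuousOn ?_
    rintro ⟨t, y⟩ ⟨ht, hy⟩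
    rw [mem_closedBall, dist_eq_norm] at ht hy ⊢
    have e : y + t - w0 = (y - w0) + (t - 0) := by abel
    change ‖y + t - w0‖ ≤ _
    rw [e]
    refine (norm_add_le _ _).trans ?_
    change ‖t - 0‖ ≤ _ at ht
    change ‖y - w0‖ ≤ _ at hy
    linarith
  have hTm : MeasurableSet T := hTc.measurableSet
  have h3 : {t : EuclideanSpace ℝ (Fin m) | ‖t‖ ≤ τ ∧ ∃ x ∈ Q, ‖x - w0‖ ≤ τ ∧
      ‖ψ (x + t) - u‖ ≤ s} ⊆ {t | ENNReal.ofReal (c * s ^ k) ≤ ν (Prod.mk t ⁻¹' T)} := by
    rintro t ⟨ht, x, hx, hxw, hxu⟩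
    refine (hQ x hx s hs (hsτ.trans hτ1)).trans (measure_mono fun y hy => ?_)
    rw [mem_closedBall, dist_eq_norm] at hy
    have hyw : ‖y - w0‖ ≤ 2 * τ := by
      have e : y - w0 = (y - x) + (x - w0) := by abel
      rw [e]
      refine (norm_add_le _ _).trans ?_
      linarith
    rw [hT]
    refine ⟨⟨?_, ?_⟩, ?_⟩
    · rw [mem_closedBall, dist_eq_norm, sub_zero]
      exact ht
    · rw [mem_closedBall, dist_eq_norm]
      exact hyw
    · change ψ (y + t) ∈ closedBall u (2 * C1 * s)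
      rw [mem_closedBall, dist_eq_norm]
      have h4 : ‖ψ (y + t) - ψ (x + t)‖ ≤ C1 * ‖(y + t) - (x + t)‖ := by
        refine hlip _ _ ?_ ?_
        · have e : y + t - w0 = (y - w0) + t := by abel
          rw [e]
          refine (norm_add_le _ _).trans ?_
          linarith
        · have e : x + t - w0 = (x - w0) + t := by abel
          rw [e]
          refine (norm_add_le _ _).trans ?_
          linarith
      rw [add_sub_add_right_eq_sub] at h4
      have e : ψ (y + t) - u = (ψ (y + t) - ψ (x + t)) + (ψ (x + t) - u) := by abel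
      rw [e]
      refine (norm_add_le _ _).trans ?_
      nlinarith
  have h4 : ∫⁻ t, ν (Prod.mk t ⁻¹' T) ≤ ν univ * (V * ENNReal.ofReal ((4 * (2 * C1 * s)) ^ n)) := by
    rw [← Measure.prod_apply hTm, Measure.prod_apply_symm hTm]
    have h5 : ∀ y : EuclideanSpace ℝ (Fin m), volume ((fun t => (t, y)) ⁻¹' T) ≤
        V * ENNReal.ofReal ((4 * (2 * C1 * s)) ^ n) := by
      intro y
      rw [hV]
      refine vol_trans ((measurable_id.prodMk measurable_const) hTm) (w := 0) (r0 := τ) ?_ j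
        (by positivity) ?_
      · intro t ht
        change (t, y) ∈ T at ht
        rw [hT] at ht
        exact ht.1.1
      · intro v a a' ha ha'
        change (v + j a, y) ∈ T at ha
        change (v + j a', y) ∈ T at ha'
        rw [hT] at ha ha'
        obtain ⟨⟨ha1, ha2⟩, ha3⟩ := ha
        obtain ⟨⟨ha1', -⟩, ha3'⟩ := ha'
        change v + j a ∈ closedBall 0 τ at ha1
        change v + j a' ∈ closedBall 0 τ at ha1'
        change y ∈ closedBall w0 (2 * τ) at ha2
        change ψ (y + (v + j a)) ∈ closedBall u (2 * C1 * s) at ha3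
        change ψ (y + (v + j a')) ∈ closedBall u (2 * C1 * s) at ha3'
        rw [mem_closedBall, dist_eq_norm] at ha1 ha1' ha2 ha3 ha3'
        rw [sub_zero] at ha1 ha1'
        have k1 : ∀ b, ‖b‖ ≤ τ → ‖y + b - w0‖ ≤ 4 * τ := by
          intro b hb
          have e : y + b - w0 = (y - w0) + b := by abel
          rw [e]
          refine (norm_add_le _ _).trans ?_
          linarith
        have k2 := hst _ _ (k1 _ ha1) (k1 _ ha1')
        have e1 : y + (v + j a) - (y + (v + j a')) = j (a - a') := by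
          rw [map_sub]
          abel
        rw [e1, hj] at k2
        have k3 : ‖ψ (y + (v + j a)) - ψ (y + (v + j a'))‖ ≤ 4 * C1 * s := by
          have e : ψ (y + (v + j a)) - ψ (y + (v + j a')) =
            (ψ (y + (v + j a)) - u) - (ψ (y + (v + j a')) - u) := by abel
          rw [e]
          refine (norm_sub_le _ _).trans ?_
          linarith
        have k4 : ‖a - a'‖ ≤ ‖ψ (y + (v + j a)) - ψ (y + (v + j a'))‖ +
            ‖ψ (y + (v + j a)) - ψ (y + (v + j a')) - (a - a')‖ := by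
          have e : a - a' = (ψ (y + (v + j a)) - ψ (y + (v + j a'))) -
            (ψ (y + (v + j a)) - ψ (y + (v + j a')) - (a - a')) := by abel
          conv_lhs => rw [e]
          exact norm_sub_le _ _
        have k5 : ε * ‖j (a - a')‖ ≤ 1 / 2 * ‖a - a'‖ := by
          calc ε * ‖j (a - a')‖ ≤ ε * (‖j‖ * ‖a - a'‖) := by
                gcongr
                exact j.le_opNorm _
            _ = (ε * ‖j‖) * ‖a - a'‖ := by ring
            _ ≤ 1 / 2 * ‖a - a'‖ := by gcongr
        linarith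
    refine (lintegral_mono h5).trans ?_
    rw [lintegral_const, mul_comm]
  have hcs : 0 < c * s ^ k := by positivity
  have h5 : volume {t | ENNReal.ofReal (c * s ^ k) ≤ ν (Prod.mk t ⁻¹' T)} ≤
      (∫⁻ t, ν (Prod.mk t ⁻¹' T)) / ENNReal.ofReal (c * s ^ k) :=
    meas_ge_le_lintegral_div (measurable_measure_prodMk_left hTm).aemeasurable
      (ENNReal.ofReal_pos.2 hcs).ne' ENNReal.ofReal_ne_top
  refine (measure_mono h3).trans (h5.trans ?_)
  have h6 : ν univ * (V * ENNReal.ofReal ((4 * (2 * C1 * s)) ^ n)) =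
      ENNReal.ofReal ((ν univ).toReal * (V.toReal * (4 * (2 * C1 * s)) ^ n)) := by
    rw [ENNReal.ofReal_mul ENNReal.toReal_nonneg, ENNReal.ofReal_mul ENNReal.toReal_nonneg,
      ENNReal.ofReal_toReal (measure_ne_top ν univ), ENNReal.ofReal_toReal hVf]
  rw [h6] at h4
  refine (ENNReal.div_le_div_right h4 _).trans ?_
  rw [← ENNReal.ofReal_div_of_pos hcs]
  apply ENNReal.ofReal_le_ofReal
  have e1 : s ^ n = s ^ (n - k) * s ^ k := by
    rw [← pow_add, Nat.sub_add_cancel hk]
  have e2 : (4 * (2 * C1 * s)) ^ n = (4 * (2 * C1)) ^ n * (s ^ (n - k) * s ^ k) := by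
    rw [← e1, ← mul_pow]
    ring
  rw [e2]
  apply le_of_eq
  have : s ^ k ≠ 0 := by positivity
  field_simp

end Pool.Agent.H816.Sk
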