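import Pool.Agent.H816.Sob1

/-!
# Mollification of maps between Euclidean spaces which are nearly affine on a ball
-/

set_option autoImplicit false
set_option linter.unusedSectionVars false

open Set Filter Topology Metric Function Module MeasureTheory
open scoped ContDiff ENNReal Convolution

noncomputable section

namespace Pool.Agent.H816.Sk

open Pool.Agent.H816.Sob

variable {m : ℕ} {F' : Type} [NormedAddCommGroup F'] [NormedSpace ℝ F'] [FiniteDimensional ℝ F']

/-- the kernel of scale `1 / l` -/
def kk (m : ℕ) (l : ℝ) (x : EuclideanSpace ℝ (Fin m)) : ℝ := l ^ m * ker 1 one_pos (l • x)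

theorem kk_smooth (l : ℝ) : ContDiff ℝ ∞ (kk m l) :=
  contDiff_const.mul ((ker_smooth one_pos).comp (contDiff_id.const_smul l))

theorem kk_zero {l : ℝ} (hl : 0 < l) {x : EuclideanSpace ℝ (Fin m)} (hx : 1 / l < ‖x‖) :
    kk m l x = 0 := by
  have h1 : l • x ∉ support (ker (E := EuclideanSpace ℝ (Fin m)) 1 one_pos) := by
    rw [ker_support, mem_ball_zero_iff, norm_smul, Real.norm_of_nonneg hl.le, not_lt]
    rw [div_lt_iff₀ hl] at hx
    linarith
  rw [kk, notMem_support.1 h1, mul_zero]

theorem kk_compact {l : ℝ} (hl : 0 < l) : HasCompactSupport (kk m l) := by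
  refine HasCompactSupport.of_support_subset_isCompact (isCompact_closedBall 0 (1 / l)) ?_
  intro x hx
  rw [mem_closedBall_zero_iff]
  by_contra hcon
  exact hx (kk_zero hl (not_le.1 hcon))

theorem kk_neg (l : ℝ) (x : EuclideanSpace ℝ (Fin m)) : kk m l (-x) = kk m l x := by
  rw [kk, kk, smul_neg]
  congr 1
  exact ContDiffBump.normed_neg _ _

theorem kk_nonneg {l : ℝ} (hl : 0 < l) (x : EuclideanSpace ℝ (Fin m)) : 0 ≤ kk m l x :=
  mul_nonneg (by positivity) (ker_nonneg one_pos _)

theorem kk_int {l : ℝ} (hl : 0 < l) : ∫ x, kk m l x = 1 := by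
  unfold kk
  rw [integral_const_mul, Measure.integral_comp_smul]
  have h1 : ∫ x, ker (E := EuclideanSpace ℝ (Fin m)) 1 one_pos x = 1 :=
    ContDiffBump.integral_normed _
  rw [h1, finrank_euclideanSpace, Fintype.card_fin, abs_of_pos (by positivity), smul_eq_mul,
    mul_one]
  field_simp

theorem kk_lip (m : ℕ) : ∃ C : ℝ, 0 ≤ C ∧ ∀ l : ℝ, 0 < l → ∀ x y : EuclideanSpace ℝ (Fin m),
    |kk m l x - kk m l y| ≤ C * l ^ (m + 1) * ‖x - y‖ := by
  obtain ⟨C, hC⟩ := (ker_smooth (E := EuclideanSpace ℝ (Fin m)) one_pos).lipschitzWith_of_hasCompactSupport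
    (ker_compact one_pos) (by simp)
  refine ⟨C, C.2, fun l hl x y => ?_⟩
  have h1 := hC.dist_le_mul (l • x) (l • y)
  rw [Real.dist_eq, dist_eq_norm, ← smul_sub, norm_smul, Real.norm_of_nonneg hl.le] at h1
  unfold kk
  rw [← mul_sub, abs_mul, abs_of_pos (by positivity : 0 < l ^ m)]
  calc l ^ m * |ker 1 one_pos (l • x) - ker 1 one_pos (l • y)| ≤
      l ^ m * (C * (l * ‖x - y‖)) := by gcongr
    _ = C * l ^ (m + 1) * ‖x - y‖ := by ring

/-- mollification -/
def Mol (l : ℝ) (F : EuclideanSpace ℝ (Fin m) → F') : EuclideanSpace ℝ (Fin m) → F' :=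
  kk m l ⋆[ContinuousLinearMap.lsmul ℝ ℝ, volume] F

theorem Mol_smooth {l : ℝ} (hl : 0 < l) {F : EuclideanSpace ℝ (Fin m) → F'}
    (hF : LocallyIntegrable F volume) : ContDiff ℝ ∞ (Mol l F) :=
  (kk_compact hl).contDiff_convolution_left _ (kk_smooth l) hF

theorem Mol_apply (l : ℝ) (F : EuclideanSpace ℝ (Fin m) → F') (y : EuclideanSpace ℝ (Fin m)) :
    Mol l F y = ∫ w, kk m l (y - w) • F w := by
  rw [Mol, convolution_eq_swap]
  rfl

theorem kk_integrable {l : ℝ} (hl : 0 < l) {F : EuclideanSpace ℝ (Fin m) → F'}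
    (hF : LocallyIntegrable F volume) (y : EuclideanSpace ℝ (Fin m)) :
    Integrable (fun w => kk m l (y - w) • F w) volume :=
  ((kk_compact hl).convolutionExists_left (ContinuousLinearMap.lsmul ℝ ℝ)
    (kk_smooth l).continuous hF y).integrable_swap

theorem kk_affine {l : ℝ} (hl : 0 < l) (a : F') (L : EuclideanSpace ℝ (Fin m) →L[ℝ] F')
    (p y : EuclideanSpace ℝ (Fin m)) :
    ∫ w, kk m l (y - w) • (a + L (w - p)) = a + L (y - p) := by
  have h1 : ∫ w, kk m l (y - w) • (a + L (w - p)) =
      ∫ v, kk m l v • (a + L (y - v - p)) := by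
    rw [← integral_sub_left_eq_self (fun v => kk m l v • (a + L (y - v - p))) volume y]
    refine integral_congr_ae (Eventually.of_forall fun w => ?_)
    show kk m l (y - w) • (a + L (w - p)) = kk m l (y - w) • (a + L (y - (y - w) - p))
    rw [sub_sub_cancel]
  have hint : Integrable (kk m l) volume := (kk_smooth l).continuous.integrable_of_hasCompactSupport
    (kk_compact hl)
  have hint2 : Integrable (fun v => kk m l v • L v) volume := by
    refine Continuous.integrable_of_hasCompactSupport
      ((kk_smooth l).continuous.smul L.continuous) ?_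
    exact (kk_compact hl).smul_right
  have h2 : ∫ v, kk m l v • L v = 0 := by
    have h3 : ∫ v, kk m l v • L v = -∫ v, kk m l v • L v := by
      rw [← integral_neg]
      rw [← integral_neg_eq_self (fun v => -(kk m l v • L v)) volume]
      refine integral_congr_ae (Eventually.of_forall fun v => ?_)
      show kk m l v • L v = -(kk m l (-v) • L (-v))
      rw [kk_neg, map_neg, smul_neg, neg_neg]
    obtain ⟨J, hJ⟩ : ∃ J : F', J = ∫ v, kk m l v • L v := ⟨_, rfl⟩
    rw [← hJ] at h3 ⊢
    have h4 : (2 : ℝ) • J = 0 := by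
      rw [two_smul]
      nth_rewrite 1 [h3]
      exact neg_add_cancel J
    exact (smul_eq_zero.1 h4).resolve_left two_ne_zero
  rw [h1]
  have h3 : ∀ v, kk m l v • (a + L (y - v - p)) = kk m l v • (a + L (y - p)) - kk m l v • L v := by
    intro v
    rw [← smul_sub]
    congr 1
    have e : y - v - p = (y - p) - v := by abel
    rw [e, map_sub]
    abel
  simp_rw [h3]
  rw [integral_sub (hint.smul_const _) hint2, h2, sub_zero, integral_smul_const, kk_int hl,
    one_smul]

/-- a map which is nearly affine on a ball is mollified to a map which is nearly affine there, also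
in the sense of Lipschitz constants -/
theorem Mol_near (m : ℕ) : ∃ C : ℝ, 0 ≤ C ∧ ∀ (F' : Type) [NormedAddCommGroup F']
    [NormedSpace ℝ F'] [FiniteDimensional ℝ F'] (F : EuclideanSpace ℝ (Fin m) → F'),
    LocallyIntegrable F volume → ∀ (p : EuclideanSpace ℝ (Fin m)) (s : ℝ), 0 < s →
    ∀ (L : EuclideanSpace ℝ (Fin m) →L[ℝ] F') (ε : ℝ), 0 ≤ ε →
    (∀ y, ‖y - p‖ ≤ s → ‖F y - F p - L (y - p)‖ ≤ ε * s) →
    (∀ y, ‖y - p‖ ≤ s / 2 → ‖Mol (2 / s) F y - F p - L (y - p)‖ ≤ ε * s) ∧
    ∀ y y', ‖y - p‖ ≤ s / 2 → ‖y' - p‖ ≤ s / 2 →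
      ‖Mol (2 / s) F y - Mol (2 / s) F y' - L (y - y')‖ ≤ C * ε * ‖y - y'‖ := by
  obtain ⟨C0, hC0, hlip⟩ := kk_lip m
  obtain ⟨c, hc⟩ : ∃ c : ℝ, c = volume.real (ball (0 : EuclideanSpace ℝ (Fin m)) 1) := ⟨_, rfl⟩
  have hc0 : 0 ≤ c := by rw [hc]; exact measureReal_nonneg
  refine ⟨C0 * 2 ^ (m + 1) * c, by positivity, fun F' _ _ _ F hF p s hs L ε hε hA => ?_⟩
  have hl : 0 < 2 / s := by positivity
  have hl1 : 1 / (2 / s) = s / 2 := by field_simp
  have haff : LocallyIntegrable (fun w => F p + L (w - p)) volume :=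
    (continuous_const.add (L.continuous.comp (continuous_id.sub continuous_const))).locallyIntegrable
  have hdiff : LocallyIntegrable (fun w => F w - (F p + L (w - p))) volume := hF.sub haff
  have hrep : ∀ y, Mol (2 / s) F y - F p - L (y - p) =
      ∫ w, kk m (2 / s) (y - w) • (F w - (F p + L (w - p))) := by
    intro y
    have h1 : ∀ w, kk m (2 / s) (y - w) • (F w - (F p + L (w - p))) =
        kk m (2 / s) (y - w) • F w - kk m (2 / s) (y - w) • (F p + L (w - p)) :=
      fun w => smul_sub _ _ _
    simp_rw [h1]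
    rw [integral_sub (kk_integrable hl hF y) (kk_integrable hl haff y), kk_affine hl,
      ← Mol_apply]
    abel
  have hbd : ∀ y w, ‖y - p‖ ≤ s / 2 → kk m (2 / s) (y - w) ≠ 0 → ‖w - p‖ ≤ s := by
    intro y w hy hw
    have h1 : ‖y - w‖ ≤ s / 2 := by
      by_contra hcon
      rw [not_le, ← hl1] at hcon
      exact hw (kk_zero hl hcon)
    have e : w - p = (y - p) - (y - w) := by abel
    rw [e]
    refine (norm_sub_le _ _).trans ?_
    linarith
  refine ⟨fun y hy => ?_, fun y y' hy hy' => ?_⟩
  · rw [hrep y]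
    have hint : Integrable (fun w => kk m (2 / s) (y - w)) volume := by
      have h1 := (kk_smooth (m := m) (2 / s)).continuous.integrable_of_hasCompactSupport
        (kk_compact hl) (μ := volume)
      exact h1.comp_sub_left y
    have h1 : ‖∫ w, kk m (2 / s) (y - w) • (F w - (F p + L (w - p)))‖ ≤
        ∫ w, kk m (2 / s) (y - w) * (ε * s) := by
      refine norm_integral_le_of_norm_le (hint.mul_const _) (Eventually.of_forall fun w => ?_)
      rw [norm_smul, Real.norm_of_nonneg (kk_nonneg hl _)]
      by_cases hw : kk m (2 / s) (y - w) = 0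
      · rw [hw, zero_mul, zero_mul]
      · refine mul_le_mul_of_nonneg_left ?_ (kk_nonneg hl _)
        have h2 := hA w (hbd y w hy hw)
        rwa [sub_sub] at h2
    refine h1.trans (le_of_eq ?_)
    rw [integral_mul_const]
    have h2 : ∫ w, kk m (2 / s) (y - w) = 1 := by
      rw [integral_sub_left_eq_self (kk m (2 / s)) volume y, kk_int hl]
    rw [h2, one_mul]
  · have e : Mol (2 / s) F y - Mol (2 / s) F y' - L (y - y') =
        (Mol (2 / s) F y - F p - L (y - p)) - (Mol (2 / s) F y' - F p - L (y' - p)) := by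
      have e1 : y - y' = (y - p) - (y' - p) := by abel
      rw [e1, map_sub]
      abel
    rw [e, hrep y, hrep y', ← integral_sub (kk_integrable hl hdiff y) (kk_integrable hl hdiff y')]
    have hcb : IntegrableOn (fun _ : EuclideanSpace ℝ (Fin m) =>
        C0 * (2 / s) ^ (m + 1) * ‖y - y'‖ * (ε * s)) (closedBall p s) volume :=
      integrableOn_const measure_closedBall_lt_top.ne
    have h1 : ‖∫ w, (kk m (2 / s) (y - w) • (F w - (F p + L (w - p))) -
        kk m (2 / s) (y' - w) • (F w - (F p + L (w - p))))‖ ≤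
        ∫ w, (closedBall p s).indicator (fun _ => C0 * (2 / s) ^ (m + 1) * ‖y - y'‖ * (ε * s)) w := by
      refine norm_integral_le_of_norm_le (hcb.integrable_indicator measurableSet_closedBall)
        (Eventually.of_forall fun w => ?_)
      rw [← sub_smul, norm_smul, Real.norm_eq_abs]
      by_cases hw : w ∈ closedBall p s
      · rw [indicator_of_mem hw]
        have h2 := hlip (2 / s) hl (y - w) (y' - w)
        rw [sub_sub_sub_cancel_right] at h2
        rw [mem_closedBall, dist_eq_norm] at hw
        have h3 := hA w hw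
        rw [sub_sub] at h3
        exact mul_le_mul h2 h3 (norm_nonneg _) (by positivity)
      · rw [indicator_of_notMem hw]
        have h2 : kk m (2 / s) (y - w) = 0 := by
          by_contra hcon
          exact hw (by rw [mem_closedBall, dist_eq_norm]; exact hbd y w hy hcon)
        have h3 : kk m (2 / s) (y' - w) = 0 := by
          by_contra hcon
          exact hw (by rw [mem_closedBall, dist_eq_norm]; exact hbd y' w hy' hcon)
        rw [h2, h3, sub_zero, abs_zero, zero_mul]
    refine h1.trans (le_of_eq ?_)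
    rw [integral_indicator measurableSet_closedBall, setIntegral_const, smul_eq_mul]
    have h3 : volume.real (closedBall p s) = s ^ m * c := by
      rw [Measure.real, Measure.addHaar_closedBall _ _ (by positivity), ENNReal.toReal_mul,
        ENNReal.toReal_ofReal (by positivity), hc, finrank_euclideanSpace, Fintype.card_fin]
      rfl
    rw [h3, div_pow, pow_succ s m]
    field_simp

end Pool.Agent.H816.Sk
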