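import Pool.Agent.H816.Sk5

/-!
# Mollification of compositions
-/

set_option autoImplicit false
set_option linter.unusedSectionVars false

open Set Filter Topology Metric Function Module MeasureTheory
open scoped ContDiff ENNReal Convolution

noncomputable section

namespace Pool.Agent.H816.Sk

/-- `f` is strictly differentiable at `x` -/
def Sd {V W : Type} [NormedAddCommGroup V] [NormedSpace ℝ V] [NormedAddCommGroup W]
    [NormedSpace ℝ W] (f : V → W) (D : V →L[ℝ] W) (x : V) : Prop :=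
  ∀ η : ℝ, 0 < η → ∃ r : ℝ, 0 < r ∧ ∀ y y', ‖y - x‖ ≤ r → ‖y' - x‖ ≤ r →
    ‖f y - f y' - D (y - y')‖ ≤ η * ‖y - y'‖

theorem Sd.of_strict {V W : Type} [NormedAddCommGroup V] [NormedSpace ℝ V]
    [NormedAddCommGroup W] [NormedSpace ℝ W] {f : V → W} {D : V →L[ℝ] W} {x : V}
    (h : HasStrictFDerivAt f D x) : Sd f D x := by
  intro η hη
  obtain ⟨r, hr, h1⟩ := Metric.eventually_nhds_iff_ball.1 (h.isLittleO.def hη)
  refine ⟨r / 2, by positivity, fun y y' hy hy' => h1 (y, y') ?_⟩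
  rw [mem_ball, Prod.dist_eq, max_lt_iff, dist_eq_norm, dist_eq_norm]
  exact ⟨by change ‖y - x‖ < r; linarith, by change ‖y' - x‖ < r; linarith⟩

/-- bounds of the linear part -/
theorem linear_bounds {n : ℕ} {g : EuclideanSpace ℝ (Fin n) → EuclideanSpace ℝ (Fin n)} {K : ℝ}
    {u : EuclideanSpace ℝ (Fin n)} {S η : ℝ} (hS : 0 < S)
    (hlip : ∀ q, ‖q - u‖ ≤ S → ‖g q - g u‖ ≤ K * ‖q - u‖ ∧ ‖q - u‖ ≤ K * ‖g q - g u‖) (hK : 0 < K)
    {l : EuclideanSpace ℝ (Fin n) →L[ℝ] EuclideanSpace ℝ (Fin n)}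
    (hl : ∀ q, ‖q - u‖ ≤ S → ‖g q - g u - l (q - u)‖ ≤ η * S) (w : EuclideanSpace ℝ (Fin n)) :
    (1 / K - η) * ‖w‖ ≤ ‖l w‖ ∧ ‖l w‖ ≤ (K + η) * ‖w‖ := by
  rcases eq_or_ne w 0 with h0 | h0
  · rw [h0, map_zero, norm_zero, mul_zero, mul_zero]
    exact ⟨le_rfl, le_rfl⟩
  have hw : 0 < ‖w‖ := norm_pos_iff.2 h0
  obtain ⟨q, hq⟩ : ∃ q, q = u + (S / ‖w‖) • w := ⟨_, rfl⟩
  have e1 : q - u = (S / ‖w‖) • w := by
    rw [hq]
    abel
  have e2 : ‖q - u‖ = S := by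
    rw [e1, norm_smul, Real.norm_of_nonneg (by positivity)]
    field_simp
  obtain ⟨h1, h2⟩ := hlip q e2.le
  have h3 := hl q e2.le
  have h4 : ‖l (q - u)‖ = S / ‖w‖ * ‖l w‖ := by
    rw [e1, map_smul, norm_smul, Real.norm_of_nonneg (by positivity)]
  rw [e2] at h1 h2
  have h5 : ‖l (q - u)‖ ≤ ‖g q - g u‖ + ‖g q - g u - l (q - u)‖ := by
    have e : l (q - u) = (g q - g u) - (g q - g u - l (q - u)) := by abel
    conv_lhs => rw [e]
    exact norm_sub_le _ _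
  have h6 : ‖g q - g u‖ ≤ ‖l (q - u)‖ + ‖g q - g u - l (q - u)‖ := by
    have e : g q - g u = l (q - u) + (g q - g u - l (q - u)) := by abel
    conv_lhs => rw [e]
    exact norm_add_le _ _
  have h7 : 1 / K * S ≤ ‖g q - g u‖ := by
    rw [one_div, inv_mul_le_iff₀ hK]
    exact h2
  rw [h4] at h5 h6
  have e3 : S * ((1 / K - η) * ‖w‖) = (1 / K * S - η * S) * ‖w‖ := by ring
  have e4 : S * ((K + η) * ‖w‖) = (K * S + η * S) * ‖w‖ := by ring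
  have e5 : S * ‖l w‖ = (S / ‖w‖ * ‖l w‖) * ‖w‖ := by field_simp
  constructor
  · refine le_of_mul_le_mul_left ?_ hS
    rw [e3, e5]
    exact mul_le_mul_of_nonneg_right (by linarith) hw.le
  · refine le_of_mul_le_mul_left ?_ hS
    rw [e4, e5]
    exact mul_le_mul_of_nonneg_right (by linarith) hw.le

/-- **Mollification of compositions.** -/
theorem loc {n m m' : ℕ} {g : EuclideanSpace ℝ (Fin n) → EuclideanSpace ℝ (Fin n)}
    {z0 : EuclideanSpace ℝ (Fin n)} {K : ℝ} (hK : 1 ≤ K)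
    (hg : ∃ r : ℝ, 0 < r ∧ ∀ v v', ‖v - z0‖ ≤ r → ‖v' - z0‖ ≤ r →
      ‖g v - g v'‖ ≤ K * ‖v - v'‖ ∧ ‖v - v'‖ ≤ K * ‖g v - g v'‖)
    {R : Set (EuclideanSpace ℝ (Fin n))}
    (hUA : ∀ ε : ℝ, 0 < ε → ∃ r : ℝ, 0 < r ∧ ∀ u ∈ R, ‖u - z0‖ ≤ r → ∀ s : ℝ, 0 < s → s ≤ r →
      ∃ l : EuclideanSpace ℝ (Fin n) →L[ℝ] EuclideanSpace ℝ (Fin n),
        ∀ q, ‖q - u‖ ≤ s → ‖g q - g u - l (q - u)‖ ≤ ε * s)
    {p0 : EuclideanSpace ℝ (Fin m)} {β : EuclideanSpace ℝ (Fin m) → EuclideanSpace ℝ (Fin n)}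
    {Dβ : EuclideanSpace ℝ (Fin m) →L[ℝ] EuclideanSpace ℝ (Fin n)} (hβ : Sd β Dβ p0)
    (hβ0 : β p0 = z0)
    {α : EuclideanSpace ℝ (Fin n) → EuclideanSpace ℝ (Fin m')}
    {Dα : EuclideanSpace ℝ (Fin n) →L[ℝ] EuclideanSpace ℝ (Fin m')} (hα : Sd α Dα (g z0))
    {γ : EuclideanSpace ℝ (Fin m') → EuclideanSpace ℝ (Fin n)}
    {Dγ : EuclideanSpace ℝ (Fin m') →L[ℝ] EuclideanSpace ℝ (Fin n)} (hγ : Sd γ Dγ (α (g z0)))
    (hγα : ∀ a, Dγ (Dα a) = a)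
    {κ : EuclideanSpace ℝ (Fin n) → EuclideanSpace ℝ (Fin m)} {Cκ : ℝ} (hCκ : 1 ≤ Cκ)
    (hκ : ∃ r : ℝ, 0 < r ∧ ∀ v v', ‖v - z0‖ ≤ r → ‖v' - z0‖ ≤ r → ‖κ v - κ v'‖ ≤ Cκ * ‖v - v'‖)
    {F : EuclideanSpace ℝ (Fin m) → EuclideanSpace ℝ (Fin m')} (hF : LocallyIntegrable F volume)
    (hFe : ∃ r : ℝ, 0 < r ∧ ∀ y, ‖y - p0‖ ≤ r → F y = α (g (β y))) :
    ∃ c0 : ℝ, 0 < c0 ∧ ∀ ε : ℝ, 0 < ε → ∃ r : ℝ, 0 < r ∧ ∀ s : ℝ, 0 < s → s ≤ r →
      ∀ p, ‖p - p0‖ ≤ r → β p ∈ R →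
        (∀ y y', κ (β y) = y → κ (β y') = y' → ‖y - p‖ ≤ s / 2 → ‖y' - p‖ ≤ s / 2 →
          c0 * ‖y - y'‖ ≤ ‖γ (Mol (2 / s) F y) - γ (Mol (2 / s) F y')‖) ∧
        ∀ y, ‖y - p‖ ≤ s / 2 → ‖Mol (2 / s) F y - F y‖ ≤ ε * s := by
  obtain ⟨C3, hC3, hmol⟩ := Mol_near m
  obtain ⟨rg, hrg, hg⟩ := hg
  obtain ⟨rκ, hrκ, hκ⟩ := hκ
  obtain ⟨rF, hrF, hFe⟩ := hFe
  have hK0 : 0 < K := by linarith
  obtain ⟨Cβ, hCβ⟩ : ∃ Cβ, Cβ = ‖Dβ‖ + 1 := ⟨_, rfl⟩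
  have hCβ1 : 1 ≤ Cβ := by rw [hCβ]; linarith [norm_nonneg Dβ]
  obtain ⟨a, ha⟩ : ∃ a, a = ‖Dα‖ := ⟨_, rfl⟩
  obtain ⟨b, hb⟩ : ∃ b, b = ‖Dγ‖ := ⟨_, rfl⟩
  have ha0 : 0 ≤ a := by rw [ha]; exact norm_nonneg _
  have hb0 : 0 ≤ b := by rw [hb]; exact norm_nonneg _
  obtain ⟨C2, hC2⟩ : ∃ C2, C2 = K * Cβ + a * Cβ + a * (K + 1) := ⟨_, rfl⟩
  have hC20 : 0 ≤ C2 := by rw [hC2]; positivity
  obtain ⟨CM, hCM⟩ : ∃ CM, CM = a * (K + 1) * Cβ + C3 * C2 := ⟨_, rfl⟩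
  have hCM0 : 0 ≤ CM := by rw [hCM]; positivity
  obtain ⟨C4, hC4⟩ : ∃ C4, C4 = CM + b * (C3 * C2) + (K + 1) := ⟨_, rfl⟩
  have hC40 : 0 < C4 := by rw [hC4]; positivity
  refine ⟨1 / (4 * K * Cκ), by positivity, fun ε hε => ?_⟩
  obtain ⟨η, hη, hη1, hη2, hη3, hη4⟩ : ∃ η : ℝ, 0 < η ∧ η ≤ 1 ∧ η ≤ 1 / (2 * K) ∧
      2 * (η * C2) ≤ ε ∧ η * C4 ≤ 1 / (4 * K * Cκ) := by
    refine ⟨min (min 1 (1 / (2 * K))) (min (ε / (2 * C2 + 1)) (1 / (4 * K * Cκ) / C4)),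
      by positivity, ?_, ?_, ?_, ?_⟩
    · exact (min_le_left _ _).trans (min_le_left _ _)
    · exact (min_le_left _ _).trans (min_le_right _ _)
    · have h1 : min (min 1 (1 / (2 * K))) (min (ε / (2 * C2 + 1)) (1 / (4 * K * Cκ) / C4)) ≤
        ε / (2 * C2 + 1) := (min_le_right _ _).trans (min_le_left _ _)
      calc 2 * (min (min 1 (1 / (2 * K))) (min (ε / (2 * C2 + 1)) (1 / (4 * K * Cκ) / C4)) * C2) ≤
          2 * (ε / (2 * C2 + 1) * C2) := by gcongr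
        _ = ε * (2 * C2) / (2 * C2 + 1) := by ring
        _ ≤ ε := by
          rw [div_le_iff₀ (by positivity)]
          nlinarith
    · have h1 : min (min 1 (1 / (2 * K))) (min (ε / (2 * C2 + 1)) (1 / (4 * K * Cκ) / C4)) ≤
        1 / (4 * K * Cκ) / C4 := (min_le_right _ _).trans (min_le_right _ _)
      calc min (min 1 (1 / (2 * K))) (min (ε / (2 * C2 + 1)) (1 / (4 * K * Cκ) / C4)) * C4 ≤
          1 / (4 * K * Cκ) / C4 * C4 := by gcongr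
        _ = 1 / (4 * K * Cκ) := by field_simp
  obtain ⟨rU, hrU, hUA⟩ := hUA η hη
  obtain ⟨rβ, hrβ, hβ⟩ := hβ η hη
  obtain ⟨rα, hrα, hα⟩ := hα η hη
  obtain ⟨rγ, hrγ, hγ⟩ := hγ η hη
  -- the radius
  obtain ⟨B, hB⟩ : ∃ B, B = 4 * (K * Cβ) + 4 * Cβ + 2 * C2 + (a + 1) * K * Cβ * 2 + 4 := ⟨_, rfl⟩
  have hB0 : 0 < B := by rw [hB]; positivity
  obtain ⟨ρ, hρ, hρg, hρκ, hρF, hρU, hρβ, hρα, hργ⟩ : ∃ ρ : ℝ, 0 < ρ ∧ ρ ≤ rg ∧ ρ ≤ rκ ∧ ρ ≤ rF ∧
      ρ ≤ rU ∧ ρ ≤ rβ ∧ ρ ≤ rα ∧ ρ ≤ rγ := by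
    refine ⟨min rg (min rκ (min rF (min rU (min rβ (min rα rγ))))), by positivity, ?_⟩
    simp only [min_le_iff, le_refl, true_or, or_true, and_self]
  obtain ⟨r, hr, hBr⟩ : ∃ r, 0 < r ∧ B * r = ρ := ⟨ρ / B, by positivity, by field_simp⟩
  have hsm : ∀ A, A ≤ B → A * r ≤ ρ := fun A hA => by
    rw [← hBr]
    exact mul_le_mul_of_nonneg_right hA hr.le
  have q1 : 0 ≤ K * Cβ := by positivity
  have q2 : 0 ≤ (a + 1) * K * Cβ * 2 := by positivity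
  have s1 : 4 * Cβ * r ≤ ρ := hsm _ (by rw [hB]; linarith)
  have s2 : 4 * (K * Cβ) * r ≤ ρ := hsm _ (by rw [hB]; linarith)
  have s3 : 4 * r ≤ ρ := hsm _ (by rw [hB]; nlinarith)
  have s4 : (2 * C2 + (a + 1) * K * Cβ * 2) * r ≤ ρ := hsm _ (by rw [hB]; nlinarith)
  have hβl : ∀ y y', ‖y - p0‖ ≤ ρ → ‖y' - p0‖ ≤ ρ → ‖β y - β y'‖ ≤ Cβ * ‖y - y'‖ := by
    intro y y' hy hy'
    have h1 := hβ y y' (hy.trans hρβ) (hy'.trans hρβ)
    have e : β y - β y' = (β y - β y' - Dβ (y - y')) + Dβ (y - y') := by abel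
    rw [e, hCβ]
    refine (norm_add_le _ _).trans ?_
    have h2 := Dβ.le_opNorm (y - y')
    nlinarith [norm_nonneg (y - y')]
  have hp00 : ‖p0 - p0‖ ≤ ρ := by rw [sub_self, norm_zero]; exact hρ.le
  have hβz : ∀ y, ‖y - p0‖ ≤ 2 * r → ‖β y - z0‖ ≤ Cβ * (2 * r) := by
    intro y hy
    rw [← hβ0]
    exact (hβl y p0 (by linarith) hp00).trans (mul_le_mul_of_nonneg_left hy (by linarith))
  refine ⟨r, hr, fun s hs hsr p hp hpR => ?_⟩
  have hps : ∀ y, ‖y - p‖ ≤ s → ‖y - p0‖ ≤ 2 * r := by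
    intro y hy
    have e : y - p0 = (y - p) + (p - p0) := by abel
    rw [e]
    refine (norm_add_le _ _).trans ?_
    linarith
  have hpp : ‖p - p0‖ ≤ 2 * r := by linarith
  have hup := hβz p hpp
  obtain ⟨l, hl⟩ := hUA (β p) hpR (by nlinarith) (Cβ * s) (by positivity) (by nlinarith)
  have hlb : ∀ w, (1 / K - η) * ‖w‖ ≤ ‖l w‖ ∧ ‖l w‖ ≤ (K + η) * ‖w‖ := by
    refine linear_bounds (g := g) (u := β p) (S := Cβ * s) (by positivity) (fun q hq => ?_) hK0 hl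
    refine hg q (β p) ?_ (by nlinarith)
    have e : q - z0 = (q - β p) + (β p - z0) := by abel
    rw [e]
    refine (norm_add_le _ _).trans ?_
    nlinarith
  have hl1 : ∀ w, ‖l w‖ ≤ (K + 1) * ‖w‖ := fun w => (hlb w).2.trans (by gcongr)
  have hl2 : ∀ w, 1 / (2 * K) * ‖w‖ ≤ ‖l w‖ := by
    intro w
    refine le_trans ?_ (hlb w).1
    apply mul_le_mul_of_nonneg_right _ (norm_nonneg _)
    have e : 1 / K = 1 / (2 * K) + 1 / (2 * K) := by field_simp; norm_num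
    rw [e]
    linarith
  have hFy : ∀ y, ‖y - p‖ ≤ s → F y = α (g (β y)) := fun y hy =>
    hFe y (by have := hps y hy; linarith)
  have hgz : ∀ y, ‖y - p0‖ ≤ 2 * r → ‖g (β y) - g z0‖ ≤ K * (Cβ * (2 * r)) := by
    intro y hy
    have h1 := hβz y hy
    have h2 := (hg (β y) z0 (by nlinarith) (by rw [sub_self, norm_zero]; exact hrg.le)).1
    exact h2.trans (mul_le_mul_of_nonneg_left h1 (by linarith))
  obtain ⟨L, hL⟩ : ∃ L : EuclideanSpace ℝ (Fin m) →L[ℝ] EuclideanSpace ℝ (Fin m'),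
    ∀ w, L w = Dα (l (Dβ w)) := ⟨Dα.comp (l.comp Dβ), fun w => rfl⟩
  have hps0 : ‖p - p‖ ≤ s := by rw [sub_self, norm_zero]; exact hs.le
  have hFA : ∀ y, ‖y - p‖ ≤ s → ‖F y - F p - L (y - p)‖ ≤ (η * C2) * s := by
    intro y hy
    rw [hFy y hy, hFy p hps0, hL]
    have e : α (g (β y)) - α (g (β p)) - Dα (l (Dβ (y - p))) =
        (α (g (β y)) - α (g (β p)) - Dα (g (β y) - g (β p))) +
        Dα (g (β y) - g (β p) - l (β y - β p)) + Dα (l (β y - β p - Dβ (y - p))) := by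
      simp only [map_sub]
      abel
    rw [e]
    have k0 : ‖β y - β p‖ ≤ Cβ * s := by
      refine (hβl y p (by have := hps y hy; linarith) (by linarith)).trans ?_
      exact mul_le_mul_of_nonneg_left hy (by linarith)
    have k1 : ‖α (g (β y)) - α (g (β p)) - Dα (g (β y) - g (β p))‖ ≤ η * (K * (Cβ * s)) := by
      have h1 := hgz y (hps y hy)
      have h2 := hgz p hpp
      refine (hα _ _ (by nlinarith) (by nlinarith)).trans ?_
      apply mul_le_mul_of_nonneg_left _ hη.le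
      have h3 := (hg (β y) (β p) (by have := hβz y (hps y hy); nlinarith) (by nlinarith)).1
      exact h3.trans (mul_le_mul_of_nonneg_left k0 (by linarith))
    have k2 : ‖Dα (g (β y) - g (β p) - l (β y - β p))‖ ≤ a * (η * (Cβ * s)) := by
      refine (Dα.le_opNorm _).trans ?_
      rw [← ha]
      exact mul_le_mul_of_nonneg_left (hl _ k0) ha0
    have k3 : ‖Dα (l (β y - β p - Dβ (y - p)))‖ ≤ a * ((K + 1) * (η * s)) := by
      refine (Dα.le_opNorm _).trans ?_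
      rw [← ha]
      apply mul_le_mul_of_nonneg_left _ ha0
      refine (hl1 _).trans ?_
      apply mul_le_mul_of_nonneg_left _ (by linarith)
      refine (hβ y p (by have := hps y hy; linarith) (by linarith)).trans ?_
      exact mul_le_mul_of_nonneg_left hy hη.le
    refine (norm_add_le _ _).trans ((add_le_add (norm_add_le _ _) le_rfl).trans ?_)
    have e2 : (η * C2) * s = η * (K * (Cβ * s)) + a * (η * (Cβ * s)) +
        a * ((K + 1) * (η * s)) := by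
      rw [hC2]
      ring
    rw [e2]
    linarith
  obtain ⟨hm1, hm2⟩ := hmol _ F hF p s hs L (η * C2) (by positivity) hFA
  have hclose : ∀ y, ‖y - p‖ ≤ s / 2 → ‖Mol (2 / s) F y - F y‖ ≤ 2 * (η * C2) * s := by
    intro y hy
    have e : Mol (2 / s) F y - F y = (Mol (2 / s) F y - F p - L (y - p)) -
      (F y - F p - L (y - p)) := by abel
    rw [e]
    refine (norm_sub_le _ _).trans ?_
    have h1 := hm1 y hy
    have h2 := hFA y (by linarith)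
    linarith
  refine ⟨fun y y' hyY hyY' hy hy' => ?_, fun y hy => (hclose y hy).trans
    (mul_le_mul_of_nonneg_right hη3 hs.le)⟩
  have hys : ‖y - p‖ ≤ s := by linarith
  have hys' : ‖y' - p‖ ≤ s := by linarith
  have hMp : ∀ y, ‖y - p‖ ≤ s / 2 → ‖Mol (2 / s) F y - α (g z0)‖ ≤ rγ := by
    intro y hy
    have hys : ‖y - p‖ ≤ s := by linarith
    have h1 := hclose y hy
    have h2 := hgz y (hps y hys)
    have h3 := hα (g (β y)) (g z0) (by nlinarith) (by rw [sub_self, norm_zero]; exact hrα.le)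
    have e : Mol (2 / s) F y - α (g z0) = (Mol (2 / s) F y - F y) +
        ((α (g (β y)) - α (g z0) - Dα (g (β y) - g z0)) + Dα (g (β y) - g z0)) := by
      rw [hFy y hys]
      abel
    rw [e]
    refine (norm_add_le _ _).trans ((add_le_add h1 (norm_add_le _ _)).trans ?_)
    have h4 := Dα.le_opNorm (g (β y) - g z0)
    rw [← ha] at h4
    have h5 : 2 * (η * C2) * s ≤ 2 * C2 * r := by
      calc 2 * (η * C2) * s ≤ 2 * (1 * C2) * r := by gcongr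
        _ = 2 * C2 * r := by ring
    have h6 : η * ‖g (β y) - g z0‖ ≤ 1 * ‖g (β y) - g z0‖ := by gcongr
    have h7 : (a + 1) * ‖g (β y) - g z0‖ ≤ (a + 1) * (K * (Cβ * (2 * r))) :=
      mul_le_mul_of_nonneg_left h2 (by linarith)
    have e2 : (a + 1) * (K * (Cβ * (2 * r))) = (a + 1) * K * Cβ * 2 * r := by ring
    rw [e2] at h7
    linarith
  have h1 := hm2 y y' hy hy'
  have hML : ‖Mol (2 / s) F y - Mol (2 / s) F y'‖ ≤ CM * ‖y - y'‖ := by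
    have e : Mol (2 / s) F y - Mol (2 / s) F y' = (Mol (2 / s) F y - Mol (2 / s) F y' -
      L (y - y')) + L (y - y') := by abel
    rw [e]
    refine (norm_add_le _ _).trans ?_
    have h2 : ‖L (y - y')‖ ≤ a * ((K + 1) * (Cβ * ‖y - y'‖)) := by
      rw [hL]
      refine (Dα.le_opNorm _).trans ?_
      rw [← ha]
      apply mul_le_mul_of_nonneg_left _ ha0
      refine (hl1 _).trans (mul_le_mul_of_nonneg_left ?_ (by linarith))
      refine (Dβ.le_opNorm _).trans ?_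
      rw [hCβ]
      nlinarith [norm_nonneg (y - y')]
    have h3 : C3 * (η * C2) * ‖y - y'‖ ≤ C3 * (1 * C2) * ‖y - y'‖ := by gcongr
    rw [hCM]
    nlinarith
  have h2 := hγ _ _ (hMp y hy) (hMp y' hy')
  have hβy : ‖β y - β y' - Dβ (y - y')‖ ≤ η * ‖y - y'‖ :=
    hβ y y' (by have := hps y hys; linarith) (by have := hps y' hys'; linarith)
  have hlow : ‖y - y'‖ ≤ Cκ * ‖β y - β y'‖ := by
    have h3 := hκ (β y) (β y') (by have := hβz y (hps y hys); nlinarith)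
      (by have := hβz y' (hps y' hys'); nlinarith)
    rwa [hyY, hyY'] at h3
  have e : γ (Mol (2 / s) F y) - γ (Mol (2 / s) F y') =
      (γ (Mol (2 / s) F y) - γ (Mol (2 / s) F y') - Dγ (Mol (2 / s) F y - Mol (2 / s) F y')) +
      Dγ (Mol (2 / s) F y - Mol (2 / s) F y' - L (y - y')) +
      (l (β y - β y') - l (β y - β y' - Dβ (y - y'))) := by
    have e1 : l (β y - β y') - l (β y - β y' - Dβ (y - y')) = Dγ (L (y - y')) := by
      rw [hL, hγα, map_sub l (β y - β y')]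
      abel
    rw [e1, map_sub Dγ (Mol (2 / s) F y - Mol (2 / s) F y')]
    abel
  have k1 : ‖l (β y - β y')‖ ≤ ‖γ (Mol (2 / s) F y) - γ (Mol (2 / s) F y')‖ +
      η * (CM * ‖y - y'‖) + b * (C3 * (η * C2) * ‖y - y'‖) + (K + 1) * (η * ‖y - y'‖) := by
    have e2 : ∀ P A' B' l1 l2 : EuclideanSpace ℝ (Fin n), P = A' + B' + (l1 - l2) →
        l1 = P - A' - B' + l2 := by
      intro P A' B' l1 l2 h
      rw [h]
      abel
    rw [e2 _ _ _ _ _ e]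
    refine (norm_add_le _ _).trans (add_le_add ((norm_sub_le _ _).trans (add_le_add
      ((norm_sub_le _ _).trans (add_le_add le_rfl ?_)) ?_)) ?_)
    · exact h2.trans (mul_le_mul_of_nonneg_left hML hη.le)
    · refine (Dγ.le_opNorm _).trans ?_
      rw [← hb]
      exact mul_le_mul_of_nonneg_left h1 hb0
    · exact (hl1 _).trans (mul_le_mul_of_nonneg_left hβy (by linarith))
  have k2 := hl2 (β y - β y')
  have k3 : 1 / (2 * K * Cκ) * ‖y - y'‖ ≤ 1 / (2 * K) * ‖β y - β y'‖ := by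
    have e3 : 1 / (2 * K * Cκ) * ‖y - y'‖ = 1 / (2 * K) * (1 / Cκ * ‖y - y'‖) := by
      field_simp
    rw [e3]
    apply mul_le_mul_of_nonneg_left _ (by positivity)
    rw [one_div, inv_mul_le_iff₀ (by linarith)]
    exact hlow
  have k4 : η * (CM * ‖y - y'‖) + b * (C3 * (η * C2) * ‖y - y'‖) + (K + 1) * (η * ‖y - y'‖) ≤
      1 / (4 * K * Cκ) * ‖y - y'‖ := by
    have e4 : η * (CM * ‖y - y'‖) + b * (C3 * (η * C2) * ‖y - y'‖) + (K + 1) * (η * ‖y - y'‖) =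
        (η * C4) * ‖y - y'‖ := by
      rw [hC4]
      ring
    rw [e4]
    exact mul_le_mul_of_nonneg_right hη4 (norm_nonneg _)
  have e5 : 1 / (2 * K * Cκ) = 1 / (4 * K * Cκ) + 1 / (4 * K * Cκ) := by
    field_simp
    norm_num
  rw [e5, add_mul] at k3
  linarith

end Pool.Agent.H816.Sk
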