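import Pool.Agent.H816.Sk1
import Pool.Agent.H816.Sk6

/-!
# Smooth embeddings of neighbourhoods of good compact sets
-/

set_option autoImplicit false
set_option linter.unusedSectionVars false

open Set Filter Topology Metric Function Module MeasureTheory
open scoped Manifold ContDiff

noncomputable section

namespace Pool.Agent.H816.Sk

open Pool.Agent.Y522 Pool.Agent.H816

/-- a smooth embedding with a smooth retraction of a neighbourhood -/
structure RD (n m : ℕ) (M : Type) [TopologicalSpace M] [ChartedSpace (E n) M] where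
  e : M → E m
  π : E m → M
  O : Set (E m)
  he : ContMDiff (𝓡 n) (𝓡 m) ∞ e
  hO : IsOpen O
  heO : ∀ x, e x ∈ O
  hπ : ∀ y ∈ O, ContMDiffAt (𝓡 m) (𝓡 n) ∞ π y
  hπe : ∀ x, π (e x) = x

variable {n m m' : ℕ} {M N : Type} [TopologicalSpace M] [ChartedSpace (E n) M]
  [TopologicalSpace N] [ChartedSpace (E n) N]

theorem RD.inj (r : RD n m M) : Injective r.e := LeftInverse.injective r.hπe

theorem exists_RD (n : ℕ) (M : Type) [Nonempty M] [TopologicalSpace M] [T2Space M]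
    [CompactSpace M] [ChartedSpace (E n) M] [IsManifold (𝓡 n) ∞ M] :
    ∃ m, Nonempty (RD n m M) := by
  obtain ⟨m, e, π, O, h1, -, h3, h4, h5, h6⟩ := exists_retraction n M
  exact ⟨m, ⟨⟨e, π, O, h1, h3, h4, h5, h6⟩⟩⟩

/-- the neighbourhoods, in terms of the embedding -/
theorem RD.basis (r : RD n m M) {x : M} {W : Set M} (hW : W ∈ 𝓝 x) :
    ∃ ρ : ℝ, 0 < ρ ∧ ∀ y, ‖r.e y - r.e x‖ ≤ ρ → y ∈ W := by
  have h1 : r.π ⁻¹' W ∈ 𝓝 (r.e x) :=
    (r.hπ _ (r.heO x)).continuousAt.preimage_mem_nhds (by rwa [r.hπe])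
  obtain ⟨ρ, hρ, h2⟩ := Metric.nhds_basis_closedBall.mem_iff.1 h1
  refine ⟨ρ, hρ, fun y hy => ?_⟩
  have h3 := h2 (a := r.e y) (by rw [mem_closedBall, dist_eq_norm]; exact hy)
  rw [mem_preimage, r.hπe] at h3
  exact h3

theorem RD.near (r : RD n m M) (x : M) {ρ : ℝ} (hρ : 0 < ρ) :
    ∀ᶠ y in 𝓝 x, ‖r.e y - r.e x‖ < ρ := by
  have h1 := r.he.continuous.continuousAt.eventually (ball_mem_nhds (r.e x) hρ)
  filter_upwards [h1] with y hy
  rwa [← dist_eq_norm]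

theorem Sd_of_contDiffAt {V W : Type} [NormedAddCommGroup V] [NormedSpace ℝ V]
    [NormedAddCommGroup W] [NormedSpace ℝ W] {f : V → W} {x : V} (h : ContDiffAt ℝ ∞ f x) :
    Sd f (fderiv ℝ f x) x := Sd.of_strict (h.hasStrictFDerivAt (by simp))

/-- good points of compact sets -/
def GoodAt (G : N → M) (K : Set N) (z0 : N) : Prop :=
  ∃ (A : E n → N) (B : M → E n) (C : ℝ), A 0 = z0 ∧ LD n A 0 ∧ LD n B (G z0) ∧ 1 ≤ C ∧
    (∃ r : ℝ, 0 < r ∧ ∀ v v' : E n, ‖v‖ ≤ r → ‖v'‖ ≤ r →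
      ‖B (G (A v)) - B (G (A v'))‖ ≤ C * ‖v - v'‖ ∧
      ‖v - v'‖ ≤ C * ‖B (G (A v)) - B (G (A v'))‖) ∧
    ∀ ε : ℝ, 0 < ε → ∃ r : ℝ, 0 < r ∧ ∀ u : E n, A u ∈ K → ‖u‖ ≤ r → ∀ s : ℝ, 0 < s → s ≤ r →
      ∃ l : E n →L[ℝ] E n, ∀ q, ‖q - u‖ ≤ s →
        ‖B (G (A q)) - B (G (A u)) - l (q - u)‖ ≤ ε * s

/-- the map between the Euclidean spaces -/
def Fx (rN : RD n m N) (rM : RD n m' M) (G : N → M) (y : E m) : E m' :=
  rN.O.indicator (fun y => rM.e (G (rN.π y))) y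

theorem Fx_loc [CompactSpace M] (rN : RD n m N) (rM : RD n m' M) {G : N → M}
    (hG : Continuous G) : LocallyIntegrable (Fx rN rM G) volume := by
  have hcon : ContinuousOn (fun y => rM.e (G (rN.π y))) rN.O := fun y hy =>
    (rM.he.continuous.continuousAt.comp (hG.continuousAt.comp
      (rN.hπ y hy).continuousAt)).continuousWithinAt
  obtain ⟨C, hC⟩ := (isCompact_range rM.he.continuous).isBounded.exists_norm_le
  have hm : AEStronglyMeasurable (Fx rN rM G) volume :=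
    (aestronglyMeasurable_indicator_iff rN.hO.measurableSet).2
      (hcon.aestronglyMeasurable rN.hO.measurableSet)
  refine (memLp_top_of_bound hm (max C 0) (Eventually.of_forall fun y => ?_)).locallyIntegrable
    le_top
  unfold Fx
  by_cases hy : y ∈ rN.O
  · rw [indicator_of_mem hy]
    exact (hC _ ⟨_, rfl⟩).trans (le_max_left _ _)
  · rw [indicator_of_notMem hy, norm_zero]
    exact le_max_right _ _

/-- the smoothed map -/
def Hs (rN : RD n m N) (rM : RD n m' M) (G : N → M) (s : ℝ) (x : N) : M :=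
  rM.π (Mol (2 / s) (Fx rN rM G) (rN.e x))

theorem Fx_e (rN : RD n m N) (rM : RD n m' M) (G : N → M) (x : N) :
    Fx rN rM G (rN.e x) = rM.e (G x) := by
  unfold Fx
  rw [indicator_of_mem (rN.heO x), rN.hπe]

/-- local statement -/
theorem local_step [CompactSpace M] (rN : RD n m N) (rM : RD n m' M) {G : N → M}
    (hG : Continuous G) {K : Set N} {z0 : N} (h : GoodAt (n := n) G K z0) {c : ℝ} (hc : 0 < c) :
    ∃ r : ℝ, 0 < r ∧ ∀ s : ℝ, 0 < s → s ≤ r → ∀ z ∈ K, ‖rN.e z - rN.e z0‖ ≤ r →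
      (∀ x x', ‖rN.e x - rN.e z‖ ≤ s / 2 → ‖rN.e x' - rN.e z‖ ≤ s / 2 →
        Hs rN rM G s x = Hs rN rM G s x' → x = x') ∧
      (∀ x, ‖rN.e x - rN.e z‖ ≤ s / 2 →
        ‖rM.e (Hs rN rM G s x) - rM.e (G x)‖ ≤ c * s) ∧
      ∀ x, ‖rN.e x - rN.e z‖ < s / 2 → LD n (Hs rN rM G s) x := by
  obtain ⟨A, B, C, hA0, hA, hB, hC, ⟨r1, hr1, hbl⟩, hUA⟩ := h
  subst hA0
  obtain ⟨A', hA'1, hA'2, hA'3, hA'4⟩ := hA.exists_inverse
  obtain ⟨B', hB'1, hB'2, hB'3, hB'4⟩ := hB.exists_inverse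
  obtain ⟨z0, hz0⟩ : ∃ z0, z0 = A 0 := ⟨_, rfl⟩
  rw [← hz0] at hA'1 hA'2 hA'4 hB hB'1 hB'2 hB'3 hB'4 ⊢
  -- the maps
  obtain ⟨β, hβ⟩ : ∃ β : E m → E n, β = fun y => A' (rN.π y) := ⟨_, rfl⟩
  obtain ⟨α, hα⟩ : ∃ α : E n → E m', α = fun w => rM.e (B' w) := ⟨_, rfl⟩
  obtain ⟨γ, hγ⟩ : ∃ γ : E m' → E n, γ = fun y => B (rM.π y) := ⟨_, rfl⟩
  obtain ⟨κ, hκ⟩ : ∃ κ : E n → E m, κ = fun v => rN.e (A v) := ⟨_, rfl⟩
  have hAz : A 0 = z0 := hz0.symm
  have sβ : ContDiffAt ℝ ∞ β (rN.e z0) := by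
    rw [hβ]
    refine contMDiffAt_iff_contDiffAt.1 (ContMDiffAt.comp (rN.e z0) ?_ (rN.hπ _ (rN.heO z0)))
    rw [rN.hπe]
    exact hA'1.contMDiffAt
  have sα : ContDiffAt ℝ ∞ α (B (G z0)) := by
    rw [hα]
    exact contMDiffAt_iff_contDiffAt.1 (ContMDiffAt.comp (B (G z0)) (rM.he _) hB'1.contMDiffAt)
  have sγ : ContDiffAt ℝ ∞ γ (rM.e (G z0)) := by
    rw [hγ]
    refine contMDiffAt_iff_contDiffAt.1 (ContMDiffAt.comp (rM.e (G z0)) ?_
      (rM.hπ _ (rM.heO _)))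
    rw [rM.hπe]
    exact hB.contMDiffAt
  have sκ : ContDiffAt ℝ ∞ κ 0 := by
    rw [hκ]
    exact contMDiffAt_iff_contDiffAt.1 (ContMDiffAt.comp 0 (rN.he _) hA.contMDiffAt)
  have hα0 : α (B (G z0)) = rM.e (G z0) := by
    rw [hα]
    change rM.e (B' (B (G z0))) = _
    rw [hB'2]
  have hγα : ∀ a, fderiv ℝ γ (rM.e (G z0)) (fderiv ℝ α (B (G z0)) a) = a := by
    have h1 : HasFDerivAt (fun w => γ (α w)) ((fderiv ℝ γ (rM.e (G z0))).comp
        (fderiv ℝ α (B (G z0)))) (B (G z0)) := by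
      refine HasFDerivAt.comp (B (G z0)) ?_ (sα.differentiableAt (by simp)).hasFDerivAt
      rw [hα0]
      exact (sγ.differentiableAt (by simp)).hasFDerivAt
    have h2 : HasFDerivAt (fun w => γ (α w)) (ContinuousLinearMap.id ℝ (E n)) (B (G z0)) := by
      refine (hasFDerivAt_id _).congr_of_eventuallyEq ?_
      filter_upwards [hB'4] with w hw
      rw [hγ, hα]
      change B (rM.π (rM.e (B' w))) = w
      rw [rM.hπe, hw]
    intro a
    exact congrArg (fun L => L a) (h1.unique h2)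
  obtain ⟨rκ, hrκ, hκl⟩ := Sd_of_contDiffAt sκ 1 one_pos
  obtain ⟨rβ, hrβ, hβl⟩ := Sd_of_contDiffAt sβ 1 one_pos
  have hγ0 : Sd γ (fderiv ℝ γ (rM.e (G z0))) (α (B (G z0))) := by
    rw [hα0]
    exact Sd_of_contDiffAt sγ
  -- eventual equalities
  have ev1 : ∀ᶠ y in 𝓝 (rN.e z0), y ∈ rN.O ∧ A (A' (rN.π y)) = rN.π y ∧
      B' (B (G (rN.π y))) = G (rN.π y) := by
    have hc : ContinuousAt rN.π (rN.e z0) := (rN.hπ _ (rN.heO z0)).continuousAt
    have hc' : Tendsto rN.π (𝓝 (rN.e z0)) (𝓝 z0) := by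
      have := hc.tendsto
      rwa [rN.hπe] at this
    have hOe : ∀ᶠ y in 𝓝 (rN.e z0), y ∈ rN.O := rN.hO.mem_nhds (rN.heO z0)
    refine hOe.and ((hc'.eventually hA'4).and ?_)
    exact (hG.continuousAt.tendsto.comp hc').eventually hB'3
  obtain ⟨rF, hrF, hrF1⟩ := Metric.nhds_basis_closedBall.mem_iff.1 ev1
  obtain ⟨c0, hc0, hloc⟩ := loc (g := fun v => B (G (A v))) (z0 := 0) (K := C) hC
    ⟨r1, hr1, fun v v' hv hv' => hbl v v' (by rwa [sub_zero] at hv) (by rwa [sub_zero] at hv')⟩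
    (R := {u | A u ∈ K}) (fun ε hε => by
      obtain ⟨r, hr, h1⟩ := hUA ε hε
      exact ⟨r, hr, fun u hu hur => h1 u hu (by rwa [sub_zero] at hur)⟩)
    (p0 := rN.e z0) (β := β) (Sd_of_contDiffAt sβ) (by
      rw [hβ]
      change A' (rN.π (rN.e z0)) = 0
      rw [rN.hπe, hA'2])
    (α := α) (Dα := fderiv ℝ α (B (G z0))) (by
      rw [hAz]
      exact Sd_of_contDiffAt sα)
    (γ := γ) (Dγ := fderiv ℝ γ (rM.e (G z0))) (by
      rw [hAz]
      exact hγ0) hγα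
    (κ := κ) (Cκ := ‖fderiv ℝ κ 0‖ + 1) (by linarith [norm_nonneg (fderiv ℝ κ 0)])
    ⟨rκ, hrκ, fun v v' hv hv' => by
      have h1 := hκl v v' hv hv'
      have e1 : κ v - κ v' = (κ v - κ v' - fderiv ℝ κ 0 (v - v')) + fderiv ℝ κ 0 (v - v') := by
        abel
      rw [e1]
      refine (norm_add_le _ _).trans ?_
      have h2 := (fderiv ℝ κ 0).le_opNorm (v - v')
      linarith⟩
    (F := Fx rN rM G) (Fx_loc rN rM hG)
    ⟨rF, hrF, fun y hy => by
      obtain ⟨h1, h2, h3⟩ := hrF1 (a := y) (by rw [mem_closedBall, dist_eq_norm]; exact hy)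
      unfold Fx
      rw [indicator_of_mem h1, hα, hβ]
      change _ = rM.e (B' (B (G (A (A' (rN.π y))))))
      rw [h2, h3]⟩
  -- a neighbourhood of `e' (G z0)`
  have sδ : ContDiffAt ℝ ∞ (fun y => rM.e (rM.π y)) (rM.e (G z0)) :=
    contMDiffAt_iff_contDiffAt.1 (ContMDiffAt.comp (rM.e (G z0)) (rM.he _)
      (rM.hπ _ (rM.heO _)))
  obtain ⟨rδ, hrδ, hδl⟩ := Sd_of_contDiffAt sδ 1 one_pos
  obtain ⟨Cδ, hCδ, hδl'⟩ : ∃ Cδ : ℝ, 1 ≤ Cδ ∧ ∀ y y', ‖y - rM.e (G z0)‖ ≤ rδ →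
      ‖y' - rM.e (G z0)‖ ≤ rδ → ‖rM.e (rM.π y) - rM.e (rM.π y')‖ ≤ Cδ * ‖y - y'‖ := by
    refine ⟨‖fderiv ℝ (fun y => rM.e (rM.π y)) (rM.e (G z0))‖ + 1,
      by linarith [norm_nonneg (fderiv ℝ (fun y => rM.e (rM.π y)) (rM.e (G z0)))],
      fun y y' hy hy' => ?_⟩
    have h1 := hδl y y' hy hy'
    have h2 := (fderiv ℝ (fun y => rM.e (rM.π y)) (rM.e (G z0))).le_opNorm (y - y')
    have h3 := norm_add_le (rM.e (rM.π y) - rM.e (rM.π y') -
      fderiv ℝ (fun y => rM.e (rM.π y)) (rM.e (G z0)) (y - y'))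
      (fderiv ℝ (fun y => rM.e (rM.π y)) (rM.e (G z0)) (y - y'))
    rw [sub_add_cancel] at h3
    linarith
  have ev2 : ∀ᶠ y in 𝓝 (rM.e (G z0)), y ∈ rM.O ∧ LD n B (rM.π y) := by
    have hOe : ∀ᶠ y in 𝓝 (rM.e (G z0)), y ∈ rM.O := rM.hO.mem_nhds (rM.heO _)
    refine hOe.and ?_
    have hc : Tendsto rM.π (𝓝 (rM.e (G z0))) (𝓝 (G z0)) := by
      have := (rM.hπ _ (rM.heO (G z0))).continuousAt.tendsto
      rwa [rM.hπe] at this
    exact hc.eventually hB.eventually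
  obtain ⟨r2, hr2, hr21⟩ := Metric.nhds_basis_closedBall.mem_iff.1 ev2
  -- a neighbourhood of `z0`
  have ev3 : ∀ᶠ x in 𝓝 z0, A (A' x) = x ∧ LD n A (A' x) ∧ (∀ᶠ v in 𝓝 (A' x), A' (A v) = v) ∧
      ‖rM.e (G x) - rM.e (G z0)‖ < min rδ r2 / 2 := by
    have hc : Tendsto A' (𝓝 z0) (𝓝 0) := by
      have := hA'1.continuousAt.tendsto
      rwa [hA'2] at this
    refine hA'4.and ((hc.eventually hA.eventually).and ((hc.eventually
      hA'3.eventually_nhds).and ?_))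
    have h1 := hG.continuousAt.eventually (rM.near (G z0) (ρ := min rδ r2 / 2) (by positivity))
    exact h1
  obtain ⟨r3, hr3, hr31⟩ := rN.basis ev3
  obtain ⟨r4, hr4, hr41⟩ := hloc (min (c / Cδ) (min rδ r2 / 2)) (by positivity)
  obtain ⟨r, hr, hra, hrb, hrc⟩ : ∃ r : ℝ, 0 < r ∧ r ≤ r4 ∧ r ≤ r3 / 2 ∧ r ≤ 1 :=
    ⟨min r4 (min (r3 / 2) 1), by positivity, min_le_left _ _,
      (min_le_right _ _).trans (min_le_left _ _), (min_le_right _ _).trans (min_le_right _ _)⟩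
  refine ⟨r, hr, fun s hs hsr z hz hzz => ?_⟩
  have hAz' : A (A' z) = z := (hr31 z (by linarith)).1
  obtain ⟨ha, hb⟩ := hr41 s hs (hsr.trans hra) (rN.e z) (hzz.trans hra) (by
    rw [hβ]
    change A (A' (rN.π (rN.e z))) ∈ K
    rw [rN.hπe, hAz']
    exact hz)
  have hx3 : ∀ x, ‖rN.e x - rN.e z‖ ≤ s / 2 → ‖rN.e x - rN.e z0‖ ≤ r3 := by
    intro x hx
    have e1 : rN.e x - rN.e z0 = (rN.e x - rN.e z) + (rN.e z - rN.e z0) := by abel
    rw [e1]
    refine (norm_add_le _ _).trans ?_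
    linarith
  have hκβ : ∀ x, ‖rN.e x - rN.e z‖ ≤ s / 2 → κ (β (rN.e x)) = rN.e x := by
    intro x hx
    rw [hκ, hβ]
    change rN.e (A (A' (rN.π (rN.e x)))) = _
    rw [rN.hπe, (hr31 x (hx3 x hx)).1]
  have hγH : ∀ x, γ (Mol (2 / s) (Fx rN rM G) (rN.e x)) = B (Hs rN rM G s x) := by
    intro x
    rw [hγ]
    rfl
  have hcl : ∀ x, ‖rN.e x - rN.e z‖ ≤ s / 2 →
      ‖Mol (2 / s) (Fx rN rM G) (rN.e x) - rM.e (G x)‖ ≤ min (c / Cδ) (min rδ r2 / 2) * s := by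
    intro x hx
    have h1 := hb (rN.e x) hx
    rwa [Fx_e] at h1
  have hs1 : s ≤ 1 := hsr.trans hrc
  have hcl2 : ∀ x, ‖rN.e x - rN.e z‖ ≤ s / 2 →
      ‖Mol (2 / s) (Fx rN rM G) (rN.e x) - rM.e (G z0)‖ ≤ min rδ r2 := by
    intro x hx
    have h1 := hcl x hx
    have h2 := (hr31 x (hx3 x hx)).2.2.2
    have h3 : min (c / Cδ) (min rδ r2 / 2) * s ≤ min rδ r2 / 2 * 1 := by
      apply mul_le_mul (min_le_right _ _) hs1 hs.le (by positivity)
    have e1 : Mol (2 / s) (Fx rN rM G) (rN.e x) - rM.e (G z0) =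
      (Mol (2 / s) (Fx rN rM G) (rN.e x) - rM.e (G x)) + (rM.e (G x) - rM.e (G z0)) := by abel
    rw [e1]
    refine (norm_add_le _ _).trans ?_
    linarith
  refine ⟨fun x x' hx hx' hxx => ?_, fun x hx => ?_, fun x hx => ?_⟩
  · have h1 := ha (rN.e x) (rN.e x') (hκβ x hx) (hκβ x' hx') hx hx'
    rw [hγH, hγH, hxx, sub_self, norm_zero] at h1
    have h2 : ‖rN.e x - rN.e x'‖ ≤ 0 := by
      by_contra hcon
      rw [not_le] at hcon
      have : 0 < c0 * ‖rN.e x - rN.e x'‖ := by positivity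
      linarith
    exact rN.inj (sub_eq_zero.1 (norm_le_zero_iff.1 h2))
  · have h1 := hδl' _ (rM.e (G x)) ((hcl2 x hx).trans (min_le_left _ _)) (by
      have h2 := (hr31 x (hx3 x hx)).2.2.2
      have h3 := min_le_left rδ r2
      linarith)
    rw [rM.hπe] at h1
    refine h1.trans ?_
    have h2 := hcl x hx
    calc Cδ * ‖Mol (2 / s) (Fx rN rM G) (rN.e x) - rM.e (G x)‖ ≤
        Cδ * (min (c / Cδ) (min rδ r2 / 2) * s) := by gcongr
      _ ≤ Cδ * (c / Cδ * s) := by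
        gcongr
        exact min_le_left _ _
      _ = c * s := by field_simp
  · -- the smoothed map is a local diffeomorphism
    obtain ⟨k1, k2, k3, -⟩ := hr31 x (hx3 x hx.le)
    obtain ⟨v, hv⟩ : ∃ v, v = A' x := ⟨_, rfl⟩
    rw [← hv] at k1 k2 k3
    obtain ⟨l1, l2⟩ := hr21 (a := Mol (2 / s) (Fx rN rM G) (rN.e x)) (by
      rw [mem_closedBall, dist_eq_norm]
      exact (hcl2 x hx.le).trans (min_le_right _ _))
    have hl : 0 < 2 / s := by positivity
    have hHs : ∀ x', Mol (2 / s) (Fx rN rM G) (rN.e x') ∈ rM.O →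
        ContMDiffAt (𝓡 n) (𝓡 n) ∞ (Hs rN rM G s) x' := by
      intro x' hx'
      refine ContMDiffAt.comp x' (g := rM.π)
        (f := fun x => Mol (2 / s) (Fx rN rM G) (rN.e x)) (rM.hπ _ hx') ?_
      exact ContMDiffAt.comp x' (contMDiffAt_iff_contDiffAt.2
        (Mol_smooth hl (Fx_loc rN rM hG)).contDiffAt) (rN.he x')
    obtain ⟨T, hT⟩ : ∃ T : E n → E n, T = fun w => B (Hs rN rM G s (A w)) := ⟨_, rfl⟩
    have hopen : ∀ᶠ w in 𝓝 v, LD n A w ∧ A' (A w) = w ∧ ‖rN.e (A w) - rN.e z‖ < s / 2 := by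
      refine k2.eventually.and (k3.and ?_)
      have hcw : ContinuousAt (fun w => ‖rN.e (A w) - rN.e z‖) v :=
        ((rN.he.continuous.continuousAt.comp k2.continuousAt).sub continuousAt_const).norm
      refine hcw.eventually_lt continuousAt_const ?_
      change ‖rN.e (A v) - rN.e z‖ < s / 2
      rw [k1]
      exact hx
    have hTs : ∀ᶠ w in 𝓝 v, ContDiffAt ℝ ∞ T w := by
      filter_upwards [hopen] with w hw
      rw [hT]
      refine contMDiffAt_iff_contDiffAt.1 (ContMDiffAt.comp (I' := 𝓡 n) w (g := B)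
        (f := fun w => Hs rN rM G s (A w)) ?_ ?_)
      · obtain ⟨m1, m2⟩ := hr21 (a := Mol (2 / s) (Fx rN rM G) (rN.e (A w))) (by
          rw [mem_closedBall, dist_eq_norm]
          exact (hcl2 (A w) hw.2.2.le).trans (min_le_right _ _))
        exact m2.contMDiffAt
      · obtain ⟨m1, m2⟩ := hr21 (a := Mol (2 / s) (Fx rN rM G) (rN.e (A w))) (by
          rw [mem_closedBall, dist_eq_norm]
          exact (hcl2 (A w) hw.2.2.le).trans (min_le_right _ _))
        exact ContMDiffAt.comp (I' := 𝓡 n) w (g := Hs rN rM G s) (f := A) (hHs _ m1)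
          hw.1.contMDiffAt
    -- lower bound
    have hlow : ∃ c1 : ℝ, 0 < c1 ∧ ∀ᶠ w in 𝓝 v, c1 * ‖w - v‖ ≤ ‖T w - T v‖ := by
      have sβx : ContDiffAt ℝ ∞ β (rN.e x) := by
        rw [hβ]
        refine contMDiffAt_iff_contDiffAt.1 (ContMDiffAt.comp (rN.e x) ?_ (rN.hπ _ (rN.heO x)))
        rw [rN.hπe]
        obtain ⟨u1, hu1, hu2, hu3⟩ := _root_.mem_nhds_iff.1 (k2.eventually.and k3)
        have h1 := LD.inverse (k := A) (U := u1) hu2 (fun y hy => (hu1 hy).1) (g := A')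
          (fun y hy => (hu1 hy).2) hu3
        rw [k1] at h1
        exact h1.contMDiffAt
      obtain ⟨rb, hrb, hbl2⟩ := Sd_of_contDiffAt sβx 1 one_pos
      refine ⟨c0 / (‖fderiv ℝ β (rN.e x)‖ + 1), by positivity, ?_⟩
      have hnear : ∀ᶠ w in 𝓝 v, ‖rN.e (A w) - rN.e x‖ < rb := by
        have hcw : ContinuousAt (fun w => ‖rN.e (A w) - rN.e x‖) v :=
          ((rN.he.continuous.continuousAt.comp k2.continuousAt).sub continuousAt_const).norm
        refine hcw.eventually_lt continuousAt_const ?_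
        change ‖rN.e (A v) - rN.e x‖ < rb
        rw [k1, sub_self, norm_zero]
        exact hrb
      filter_upwards [hopen, hnear] with w hw hw2
      have h1 := ha (rN.e (A w)) (rN.e x) (hκβ (A w) hw.2.2.le) (hκβ x hx.le) hw.2.2.le hx.le
      rw [hγH, hγH] at h1
      have h2 : ‖w - v‖ ≤ (‖fderiv ℝ β (rN.e x)‖ + 1) * ‖rN.e (A w) - rN.e x‖ := by
        have h3 := hbl2 (rN.e (A w)) (rN.e x) hw2.le (by rw [sub_self, norm_zero]; exact hrb.le)
        have e1 : β (rN.e (A w)) = w := by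
          rw [hβ]
          change A' (rN.π (rN.e (A w))) = w
          rw [rN.hπe, hw.2.1]
        have e2 : β (rN.e x) = v := by
          rw [hβ]
          change A' (rN.π (rN.e x)) = v
          rw [rN.hπe, hv]
        rw [e1, e2] at h3
        have h4 := (fderiv ℝ β (rN.e x)).le_opNorm (rN.e (A w) - rN.e x)
        have h5 := norm_add_le (w - v - fderiv ℝ β (rN.e x) (rN.e (A w) - rN.e x))
          (fderiv ℝ β (rN.e x) (rN.e (A w) - rN.e x))
        rw [sub_add_cancel] at h5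
        linarith
      have hTv : T v = B (Hs rN rM G s x) := by
        rw [hT]
        change B (Hs rN rM G s (A v)) = _
        rw [k1]
      have hTw : T w = B (Hs rN rM G s (A w)) := by
        rw [hT]
      rw [hTv, hTw]
      refine le_trans ?_ h1
      rw [div_mul_eq_mul_div, div_le_iff₀ (by positivity)]
      calc c0 * ‖w - v‖ ≤ c0 * ((‖fderiv ℝ β (rN.e x)‖ + 1) * ‖rN.e (A w) - rN.e x‖) := by gcongr
        _ = c0 * ‖rN.e (A w) - rN.e x‖ * (‖fderiv ℝ β (rN.e x)‖ + 1) := by ring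
    -- injective derivative
    obtain ⟨c1, hc1, hlow⟩ := hlow
    have hTd : HasFDerivAt T (fderiv ℝ T v) v :=
      (hTs.self_of_nhds.differentiableAt (by simp)).hasFDerivAt
    have hinj : Injective (fderiv ℝ T v) := by
      rw [injective_iff_map_eq_zero]
      intro a hap
      by_contra hne
      have hapos : 0 < ‖a‖ := norm_pos_iff.2 hne
      have h1 := hTd.isLittleO.def (half_pos hc1)
      have h2 : Tendsto (fun t : ℝ => v + t • a) (𝓝[>] 0) (𝓝 v) := by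
        have h3 : Tendsto (fun t : ℝ => v + t • a) (𝓝 0) (𝓝 (v + (0 : ℝ) • a)) :=
          (continuous_const.add (continuous_id.smul continuous_const)).tendsto 0
        rw [zero_smul, add_zero] at h3
        exact h3.mono_left nhdsWithin_le_nhds
      obtain ⟨t, ⟨h4, h5⟩, ht⟩ := (((h2.eventually (h1.and hlow))).and
        self_mem_nhdsWithin).exists
      have ht0 : 0 < t := ht
      have e1 : v + t • a - v = t • a := by abel
      rw [e1, map_smul, hap, smul_zero, sub_zero, norm_smul, Real.norm_of_nonneg ht0.le] at h4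
      rw [e1, norm_smul, Real.norm_of_nonneg ht0.le] at h5
      have : 0 < c1 * (t * ‖a‖) := by positivity
      linarith
    have hTL : LD n T v := by
      refine LD_of_bij hTs ⟨hinj, ?_⟩
      exact LinearMap.injective_iff_surjective.1 hinj
    -- conclusion
    obtain ⟨B2, b1, b2, b3, -⟩ := l2.exists_inverse
    have hHx : rM.π (Mol (2 / s) (Fx rN rM G) (rN.e x)) = Hs rN rM G s x := rfl
    rw [hHx] at b1 b2 b3
    obtain ⟨A2, a1, a2, -, a4⟩ := k2.exists_inverse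
    rw [k1] at a1 a2 a4
    have hfin : LD n (fun x' => B2 (T (A2 x'))) x := by
      refine LD.comp_fun (g := B2) (f := fun x' => T (A2 x')) ?_
        (LD.comp_fun (g := T) (f := A2) (by rw [a2]; exact hTL) a1)
      have e1 : T (A2 x) = B (Hs rN rM G s x) := by
        rw [a2, hT]
        change B (Hs rN rM G s (A v)) = _
        rw [k1]
      rw [e1]
      exact b1
    refine hfin.congr ?_
    have hcon : ContinuousAt (Hs rN rM G s) x := (hHs x l1).continuousAt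
    filter_upwards [a4, hcon.eventually b3] with x' h1 h2
    rw [hT]
    change Hs rN rM G s x' = B2 (B (Hs rN rM G s (A (A2 x'))))
    rw [h1, h2]

end Pool.Agent.H816.Sk
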