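import Pool.Agent.H816.Sk7

/-!
# Smooth embeddings of neighbourhoods of good compact sets: the global statement
-/

set_option autoImplicit false
set_option linter.unusedSectionVars false

open Set Filter Topology Metric Function Module MeasureTheory
open scoped Manifold ContDiff

noncomputable section

namespace Pool.Agent.H816.Sk

open Pool.Agent.Y522 Pool.Agent.H816

variable {n m m' : ℕ} {M N : Type} [TopologicalSpace M] [ChartedSpace (E n) M]
  [TopologicalSpace N] [ChartedSpace (E n) N]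

theorem lip_of_Sd {V W : Type} [NormedAddCommGroup V] [NormedSpace ℝ V]
    [NormedAddCommGroup W] [NormedSpace ℝ W] {f : V → W} {D : V →L[ℝ] W} {x : V}
    (h : Sd f D x) : ∃ C : ℝ, 1 ≤ C ∧ ∃ r : ℝ, 0 < r ∧ ∀ y y', ‖y - x‖ ≤ r → ‖y' - x‖ ≤ r →
      ‖f y - f y'‖ ≤ C * ‖y - y'‖ := by
  obtain ⟨r, hr, h1⟩ := h 1 one_pos
  refine ⟨‖D‖ + 1, by linarith [norm_nonneg D], r, hr, fun y y' hy hy' => ?_⟩
  have h2 := h1 y y' hy hy'
  have h3 := D.le_opNorm (y - y')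
  have h4 := norm_add_le (f y - f y' - D (y - y')) (D (y - y'))
  rw [sub_add_cancel] at h4
  linarith

theorem lower_local (rN : RD n m N) (rM : RD n m' M) {G : N → M} (hG : Continuous G)
    {K : Set N} {z0 : N} (h : GoodAt (n := n) G K z0) :
    ∃ c : ℝ, 0 < c ∧ ∃ l : ℝ, 0 < l ∧ ∀ x x', ‖rN.e x - rN.e z0‖ ≤ l → ‖rN.e x' - rN.e z0‖ ≤ l →
      c * ‖rN.e x - rN.e x'‖ ≤ ‖rM.e (G x) - rM.e (G x')‖ := by
  obtain ⟨A, B, C, hA0, hA, hB, hC, ⟨r1, hr1, hbl⟩, -⟩ := h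
  subst hA0
  obtain ⟨A', hA'1, hA'2, -, hA'4⟩ := hA.exists_inverse
  obtain ⟨z0, hz0⟩ : ∃ z0, z0 = A 0 := ⟨_, rfl⟩
  rw [← hz0] at hA'1 hA'2 hA'4 hB ⊢
  have sγ : ContDiffAt ℝ ∞ (fun y => B (rM.π y)) (rM.e (G z0)) := by
    refine contMDiffAt_iff_contDiffAt.1 (ContMDiffAt.comp (rM.e (G z0)) ?_
      (rM.hπ _ (rM.heO _)))
    rw [rM.hπe]
    exact hB.contMDiffAt
  have sκ : ContDiffAt ℝ ∞ (fun v => rN.e (A v)) 0 :=
    contMDiffAt_iff_contDiffAt.1 (ContMDiffAt.comp 0 (rN.he _) hA.contMDiffAt)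
  obtain ⟨Cγ, hCγ, rγ, hrγ, hγl⟩ := lip_of_Sd (Sd_of_contDiffAt sγ)
  obtain ⟨Cκ, hCκ, rκ, hrκ, hκl⟩ := lip_of_Sd (Sd_of_contDiffAt sκ)
  have ev : ∀ᶠ x in 𝓝 z0, A (A' x) = x ∧ ‖A' x‖ < min r1 rκ ∧
      ‖rM.e (G x) - rM.e (G z0)‖ < rγ := by
    have hc : Tendsto A' (𝓝 z0) (𝓝 0) := by
      have := hA'1.continuousAt.tendsto
      rwa [hA'2] at this
    refine hA'4.and (Filter.Eventually.and ?_ (hG.continuousAt.eventually (rM.near (G z0) hrγ)))
    have h1 := hc.eventually (ball_mem_nhds (0 : E n) (ε := min r1 rκ) (by positivity))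
    filter_upwards [h1] with x hx
    exact mem_ball_zero_iff.1 hx
  obtain ⟨l, hl, hl1⟩ := rN.basis ev
  refine ⟨1 / (Cκ * C * Cγ), by positivity, l, hl, fun x x' hx hx' => ?_⟩
  obtain ⟨a1, a2, a3⟩ := hl1 x hx
  obtain ⟨b1, b2, b3⟩ := hl1 x' hx'
  have h1 := hκl (A' x) (A' x') (by rw [sub_zero]; exact a2.le.trans (min_le_right _ _))
    (by rw [sub_zero]; exact b2.le.trans (min_le_right _ _))
  rw [a1, b1] at h1
  have h2 := (hbl (A' x) (A' x') (a2.le.trans (min_le_left _ _))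
    (b2.le.trans (min_le_left _ _))).2
  rw [a1, b1] at h2
  have h3 := hγl (rM.e (G x)) (rM.e (G x')) a3.le b3.le
  rw [rM.hπe, rM.hπe] at h3
  rw [one_div, inv_mul_le_iff₀ (by positivity)]
  calc ‖rN.e x - rN.e x'‖ ≤ Cκ * ‖A' x - A' x'‖ := h1
    _ ≤ Cκ * (C * ‖B (G x) - B (G x')‖) := by gcongr
    _ ≤ Cκ * (C * (Cγ * ‖rM.e (G x) - rM.e (G x')‖)) := by gcongr
    _ = Cκ * C * Cγ * ‖rM.e (G x) - rM.e (G x')‖ := by ring

theorem lower_global (rN : RD n m N) (rM : RD n m' M) {G : N → M} (hG : Continuous G)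
    (hGi : Injective G) {K : Set N} (hK : IsCompact K) (h : ∀ z ∈ K, GoodAt (n := n) G K z) :
    ∃ c : ℝ, 0 < c ∧ ∃ l : ℝ, 0 < l ∧ ∀ z ∈ K, ∀ z' ∈ K, ∀ x x', ‖rN.e x - rN.e z‖ ≤ l →
      ‖rN.e x' - rN.e z'‖ ≤ l → c * ‖rN.e x - rN.e x'‖ ≤ ‖rM.e (G x) - rM.e (G x')‖ := by
  have key : ∃ c : ℝ, 0 < c ∧ ∃ l : ℝ, 0 < l ∧ ∀ w ∈ K ×ˢ K, ∀ x x', ‖rN.e x - rN.e w.1‖ ≤ l →
      ‖rN.e x' - rN.e w.2‖ ≤ l → c * ‖rN.e x - rN.e x'‖ ≤ ‖rM.e (G x) - rM.e (G x')‖ := by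
    refine (hK.prod hK).induction_on (p := fun t => ∃ c : ℝ, 0 < c ∧ ∃ l : ℝ, 0 < l ∧ ∀ w ∈ t,
      ∀ x x', ‖rN.e x - rN.e w.1‖ ≤ l → ‖rN.e x' - rN.e w.2‖ ≤ l →
        c * ‖rN.e x - rN.e x'‖ ≤ ‖rM.e (G x) - rM.e (G x')‖)
      ⟨1, one_pos, 1, one_pos, fun w hw => hw.elim⟩ ?_ ?_ ?_
    · rintro s t hst ⟨c, hc, l, hl, h1⟩
      exact ⟨c, hc, l, hl, fun w hw => h1 w (hst hw)⟩
    · rintro s t ⟨c, hc, l, hl, h1⟩ ⟨c', hc', l', hl', h1'⟩
      refine ⟨min c c', lt_min hc hc', min l l', lt_min hl hl', ?_⟩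
      rintro w (hw | hw) x x' hx hx'
      · refine le_trans ?_ (h1 w hw x x' (hx.trans (min_le_left _ _))
          (hx'.trans (min_le_left _ _)))
        gcongr
        exact min_le_left _ _
      · refine le_trans ?_ (h1' w hw x x' (hx.trans (min_le_right _ _))
          (hx'.trans (min_le_right _ _)))
        gcongr
        exact min_le_right _ _
    · rintro ⟨z, z'⟩ ⟨hz, hz'⟩
      change z ∈ K at hz
      change z' ∈ K at hz'
      obtain ⟨c, hc, l, hl, h1⟩ : ∃ c : ℝ, 0 < c ∧ ∃ l : ℝ, 0 < l ∧ ∀ x x',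
          ‖rN.e x - rN.e z‖ ≤ l → ‖rN.e x' - rN.e z'‖ ≤ l →
            c * ‖rN.e x - rN.e x'‖ ≤ ‖rM.e (G x) - rM.e (G x')‖ := by
        by_cases hzz : z = z'
        · subst hzz
          exact lower_local rN rM hG (h z hz)
        · have hne : rM.e (G z) ≠ rM.e (G z') := fun hcon => hzz (hGi (rM.inj hcon))
          obtain ⟨d, hd⟩ : ∃ d, d = ‖rM.e (G z) - rM.e (G z')‖ := ⟨_, rfl⟩
          have hd0 : 0 < d := by
            rw [hd]
            exact norm_pos_iff.2 (sub_ne_zero.2 hne)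
          obtain ⟨l1, hl1, h2⟩ := rN.basis (hG.continuousAt.eventually
            (rM.near (G z) (ρ := d / 4) (by positivity)))
          obtain ⟨l2, hl2, h3⟩ := rN.basis (hG.continuousAt.eventually
            (rM.near (G z') (ρ := d / 4) (by positivity)))
          obtain ⟨D, hD⟩ : ∃ D, D = ‖rN.e z - rN.e z'‖ + 2 := ⟨_, rfl⟩
          have hD0 : 0 < D := by rw [hD]; positivity
          refine ⟨d / 2 / D, by positivity, min 1 (min l1 l2), by positivity,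
            fun x x' hx hx' => ?_⟩
          have k1 : ‖rM.e (G x) - rM.e (G z)‖ < d / 4 :=
            h2 x (hx.trans ((min_le_right _ _).trans (min_le_left _ _)))
          have k2 : ‖rM.e (G x') - rM.e (G z')‖ < d / 4 :=
            h3 x' (hx'.trans ((min_le_right _ _).trans (min_le_right _ _)))
          have k3 : ‖rN.e x - rN.e x'‖ ≤ D := by
            have e1 : rN.e x - rN.e x' = (rN.e x - rN.e z) + (rN.e z - rN.e z') -
              (rN.e x' - rN.e z') := by abel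
            rw [e1, hD]
            refine (norm_sub_le _ _).trans ((add_le_add (norm_add_le _ _) le_rfl).trans ?_)
            have := hx.trans (min_le_left _ _)
            have := hx'.trans (min_le_left _ _)
            linarith
          have k4 : d ≤ ‖rM.e (G x) - rM.e (G x')‖ + d / 4 + d / 4 := by
            have e1 : rM.e (G z) - rM.e (G z') = (rM.e (G x) - rM.e (G x')) -
              (rM.e (G x) - rM.e (G z)) + (rM.e (G x') - rM.e (G z')) := by abel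
            have h4 := (norm_add_le ((rM.e (G x) - rM.e (G x')) -
              (rM.e (G x) - rM.e (G z))) (rM.e (G x') - rM.e (G z'))).trans
                (add_le_add (norm_sub_le _ _) le_rfl)
            rw [← e1, ← hd] at h4
            linarith
          calc d / 2 / D * ‖rN.e x - rN.e x'‖ ≤ d / 2 / D * D := by gcongr
            _ = d / 2 := by field_simp
            _ ≤ _ := by linarith
      refine ⟨{w | ‖rN.e w.1 - rN.e z‖ < l / 2 ∧ ‖rN.e w.2 - rN.e z'‖ < l / 2}, ?_, c, hc,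
        l / 2, by positivity, ?_⟩
      · refine mem_nhdsWithin_of_mem_nhds ?_
        have h2 : ∀ᶠ w : N × N in 𝓝 (z, z'), ‖rN.e w.1 - rN.e z‖ < l / 2 :=
          (continuous_fst.tendsto' (z, z') z rfl).eventually (rN.near z (by positivity))
        have h3 : ∀ᶠ w : N × N in 𝓝 (z, z'), ‖rN.e w.2 - rN.e z'‖ < l / 2 :=
          (continuous_snd.tendsto' (z, z') z' rfl).eventually (rN.near z' (by positivity))
        exact h2.and h3
      · rintro ⟨w, w'⟩ ⟨hw, hw'⟩ x x' hx hx'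
        change ‖rN.e w - rN.e z‖ < l / 2 at hw
        change ‖rN.e w' - rN.e z'‖ < l / 2 at hw'
        change ‖rN.e x - rN.e w‖ ≤ l / 2 at hx
        change ‖rN.e x' - rN.e w'‖ ≤ l / 2 at hx'
        refine h1 x x' ?_ ?_
        · have e1 : rN.e x - rN.e z = (rN.e x - rN.e w) + (rN.e w - rN.e z) := by abel
          rw [e1]
          refine (norm_add_le _ _).trans ?_
          linarith
        · have e1 : rN.e x' - rN.e z' = (rN.e x' - rN.e w') + (rN.e w' - rN.e z') := by abel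
          rw [e1]
          refine (norm_add_le _ _).trans ?_
          linarith
  obtain ⟨c, hc, l, hl, h1⟩ := key
  exact ⟨c, hc, l, hl, fun z hz z' hz' => h1 (z, z') ⟨hz, hz'⟩⟩

/-- **Smooth embeddings near good compact sets.** -/
theorem glob [CompactSpace M] (rN : RD n m N) (rM : RD n m' M) {G : N → M} (hG : Continuous G)
    (hGi : Injective G) {K : Set N} (hK : IsCompact K) (h : ∀ z ∈ K, GoodAt (n := n) G K z)
    {ε : ℝ} (hε : 0 < ε) :
    ∃ (U : Set N) (f : N → M), IsOpen U ∧ K ⊆ U ∧ InjOn f U ∧ (∀ x ∈ U, LD n f x) ∧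
      ∀ x ∈ U, ‖rM.e (f x) - rM.e (G x)‖ ≤ ε := by
  obtain ⟨c, hc, l, hl, hlow⟩ := lower_global rN rM hG hGi hK h
  obtain ⟨r, hr, hstep⟩ : ∃ r : ℝ, 0 < r ∧ ∀ s : ℝ, 0 < s → s ≤ r → ∀ z ∈ K, z ∈ K →
      (∀ x x', ‖rN.e x - rN.e z‖ ≤ s / 2 → ‖rN.e x' - rN.e z‖ ≤ s / 2 →
        Hs rN rM G s x = Hs rN rM G s x' → x = x') ∧
      (∀ x, ‖rN.e x - rN.e z‖ ≤ s / 2 →
        ‖rM.e (Hs rN rM G s x) - rM.e (G x)‖ ≤ c / 16 * s) ∧
      ∀ x, ‖rN.e x - rN.e z‖ < s / 2 → LD n (Hs rN rM G s) x := by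
    refine hK.induction_on (p := fun t => ∃ r : ℝ, 0 < r ∧ ∀ s : ℝ, 0 < s → s ≤ r → ∀ z ∈ t,
      z ∈ K →
      (∀ x x', ‖rN.e x - rN.e z‖ ≤ s / 2 → ‖rN.e x' - rN.e z‖ ≤ s / 2 →
        Hs rN rM G s x = Hs rN rM G s x' → x = x') ∧
      (∀ x, ‖rN.e x - rN.e z‖ ≤ s / 2 →
        ‖rM.e (Hs rN rM G s x) - rM.e (G x)‖ ≤ c / 16 * s) ∧
      ∀ x, ‖rN.e x - rN.e z‖ < s / 2 → LD n (Hs rN rM G s) x)
      ⟨1, one_pos, fun s _ _ z hz => hz.elim⟩ ?_ ?_ ?_
    · rintro s t hst ⟨r, hr, h1⟩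
      exact ⟨r, hr, fun σ h2 h3 z hz => h1 σ h2 h3 z (hst hz)⟩
    · rintro s t ⟨r, hr, h1⟩ ⟨r', hr', h1'⟩
      refine ⟨min r r', lt_min hr hr', ?_⟩
      rintro σ h2 h3 z (hz | hz)
      · exact h1 σ h2 (h3.trans (min_le_left _ _)) z hz
      · exact h1' σ h2 (h3.trans (min_le_right _ _)) z hz
    · intro z0 hz0
      obtain ⟨r, hr, h1⟩ := local_step rN rM hG (h z0 hz0) (c := c / 16) (by positivity)
      refine ⟨{z | ‖rN.e z - rN.e z0‖ < r}, mem_nhdsWithin_of_mem_nhds (rN.near z0 hr), r, hr,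
        fun s hs hsr z hz hzK => h1 s hs hsr z hzK ?_⟩
      exact le_of_lt hz
  obtain ⟨s, hs, hsr, hsl, hsε⟩ : ∃ s : ℝ, 0 < s ∧ s ≤ r ∧ s ≤ l ∧ c / 16 * s ≤ ε := by
    refine ⟨min r (min l (16 * ε / c)), by positivity, min_le_left _ _,
      (min_le_right _ _).trans (min_le_left _ _), ?_⟩
    calc c / 16 * min r (min l (16 * ε / c)) ≤ c / 16 * (16 * ε / c) := by
          gcongr
          exact (min_le_right _ _).trans (min_le_right _ _)
      _ = ε := by field_simp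
  refine ⟨⋃ z ∈ K, rN.e ⁻¹' (ball (rN.e z) (s / 8)), Hs rN rM G s, ?_, ?_, ?_, ?_, ?_⟩
  · exact isOpen_biUnion fun z _ => isOpen_ball.preimage rN.he.continuous
  · intro z hz
    exact mem_iUnion₂.2 ⟨z, hz, mem_ball_self (by positivity)⟩
  · intro x hx x' hx' hxx
    obtain ⟨z, hz, hxz⟩ := mem_iUnion₂.1 hx
    obtain ⟨z', hz', hxz'⟩ := mem_iUnion₂.1 hx'
    rw [mem_preimage, mem_ball, dist_eq_norm] at hxz hxz'
    obtain ⟨a1, a2, a3⟩ := hstep s hs hsr z hz hz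
    obtain ⟨b1, b2, b3⟩ := hstep s hs hsr z' hz' hz'
    by_cases hd : ‖rN.e x - rN.e x'‖ ≤ s / 4
    · refine a1 x x' (by linarith) ?_ hxx
      have e1 : rN.e x' - rN.e z = (rN.e x - rN.e z) - (rN.e x - rN.e x') := by abel
      rw [e1]
      refine (norm_sub_le _ _).trans ?_
      linarith
    · exfalso
      rw [not_le] at hd
      have h1 := hlow z hz z' hz' x x' (by linarith) (by linarith)
      have h2 := a2 x (by linarith)
      have h3 := b2 x' (by linarith)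
      rw [← hxx] at h3
      have e1 : rM.e (G x) - rM.e (G x') = (rM.e (Hs rN rM G s x) - rM.e (G x')) -
        (rM.e (Hs rN rM G s x) - rM.e (G x)) := by abel
      rw [e1] at h1
      have h4 := h1.trans (norm_sub_le _ _)
      have h5 : c * (s / 4) < c * ‖rN.e x - rN.e x'‖ := by gcongr
      nlinarith
  · intro x hx
    obtain ⟨z, hz, hxz⟩ := mem_iUnion₂.1 hx
    rw [mem_preimage, mem_ball, dist_eq_norm] at hxz
    exact (hstep s hs hsr z hz hz).2.2 x (by linarith)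
  · intro x hx
    obtain ⟨z, hz, hxz⟩ := mem_iUnion₂.1 hx
    rw [mem_preimage, mem_ball, dist_eq_norm] at hxz
    exact ((hstep s hs hsr z hz hz).2.1 x (by linarith)).trans hsε

end Pool.Agent.H816.Sk
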