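import Mathlib

/-!
# Weak second derivatives in the critical class and approximation by affine maps
-/

set_option autoImplicit false
set_option linter.unusedSectionVars false

open Set Filter Topology Metric MeasureTheory Module
open scoped ContDiff Convolution ENNReal

noncomputable section

namespace Pool.Agent.H816.Sob

variable {E : Type*} [NormedAddCommGroup E] [InnerProductSpace ℝ E] [FiniteDimensional ℝ E]
  [MeasurableSpace E] [BorelSpace E]
variable {F : Type*} [NormedAddCommGroup F] [NormedSpace ℝ F] [FiniteDimensional ℝ F]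

/-- weak second derivatives on an open set -/
def WeakHess (G : E → F) (H : E → E →L[ℝ] E →L[ℝ] F) (U : Set E) : Prop :=
  ∀ φ : E → ℝ, ContDiff ℝ ∞ φ → HasCompactSupport φ → tsupport φ ⊆ U → ∀ v w : E,
    ∫ x, (fderiv ℝ (fderiv ℝ φ) x v w) • G x = ∫ x, φ x • H x v w

theorem WeakHess.mono {G : E → F} {H : E → E →L[ℝ] E →L[ℝ] F} {U U' : Set E}
    (h : WeakHess G H U) (hU : U' ⊆ U) : WeakHess G H U' :=
  fun φ h1 h2 h3 => h φ h1 h2 (h3.trans hU)

/-- the kernel -/
def ker (ε : ℝ) (hε : 0 < ε) : E → ℝ :=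
  (⟨ε / 2, ε, by positivity, by linarith⟩ : ContDiffBump (0 : E)).normed volume

section kernel

variable {ε : ℝ} (hε : 0 < ε)

theorem ker_smooth : ContDiff ℝ ∞ (ker (E := E) ε hε) := ContDiffBump.contDiff_normed _

theorem ker_compact : HasCompactSupport (ker (E := E) ε hε) :=
  ContDiffBump.hasCompactSupport_normed _

theorem ker_tsupport : tsupport (ker (E := E) ε hε) = closedBall 0 ε :=
  ContDiffBump.tsupport_normed_eq _

theorem ker_support : Function.support (ker (E := E) ε hε) = ball 0 ε :=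
  ContDiffBump.support_normed_eq _

theorem ker_nonneg (x : E) : 0 ≤ ker ε hε x := ContDiffBump.nonneg_normed _ x

theorem ker_le (x : E) :
    ker ε hε x ≤ 2 ^ finrank ℝ E / volume.real (closedBall (0 : E) ε) :=
  ContDiffBump.normed_le_div_measure_closedBall_rOut _ volume 2 (by
    show ε ≤ 2 * (ε / 2)
    linarith) x

end kernel

/-- directional derivatives of a convolution -/
theorem conv_dir {f : E → ℝ} (hf : ContDiff ℝ ∞ f) (hc : HasCompactSupport f) {g : E → F}
    (hg : LocallyIntegrable g volume) (x v : E) :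
    fderiv ℝ (f ⋆[ContinuousLinearMap.lsmul ℝ ℝ, volume] g) x v =
      ((fun y => fderiv ℝ f y v) ⋆[ContinuousLinearMap.lsmul ℝ ℝ, volume] g) x := by
  have hf1s : ContDiff ℝ ∞ (fderiv ℝ f) := hf.fderiv_right (by norm_cast)
  have hf1c : HasCompactSupport (fderiv ℝ f) := hc.fderiv ℝ
  rw [(hc.hasFDerivAt_convolution_left (ContinuousLinearMap.lsmul ℝ ℝ)
    (hf.of_le (by norm_cast)) hg x).fderiv]
  have hI := (hf1c.convolutionExists_left (ContinuousLinearMap.precompL E
    (ContinuousLinearMap.lsmul ℝ ℝ : ℝ →L[ℝ] F →L[ℝ] F)) hf1s.continuous hg x).integrable_swap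
  rw [convolution_eq_swap, convolution_eq_swap, ContinuousLinearMap.integral_apply hI]
  rfl

theorem dir_smooth {f : E → ℝ} (hf : ContDiff ℝ ∞ f) (v : E) :
    ContDiff ℝ ∞ fun y => fderiv ℝ f y v :=
  (hf.fderiv_right (m := ∞) (by norm_cast)).clm_apply contDiff_const

theorem dir_compact {f : E → ℝ} (hc : HasCompactSupport f) (v : E) :
    HasCompactSupport fun y => fderiv ℝ f y v :=
  HasCompactSupport.fderiv_apply (𝕜 := ℝ) hc v

theorem dir_dir {f : E → F} {x : E} (hf : DifferentiableAt ℝ (fderiv ℝ f) x) (v w : E) :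
    fderiv ℝ (fun y => fderiv ℝ f y w) x v = fderiv ℝ (fderiv ℝ f) x v w := by
  have h1 : HasFDerivAt (fun y => fderiv ℝ f y w)
      ((ContinuousLinearMap.apply ℝ F w).comp (fderiv ℝ (fderiv ℝ f) x)) x :=
    (ContinuousLinearMap.apply ℝ F w).hasFDerivAt.comp x hf.hasFDerivAt
  rw [h1.fderiv]
  rfl

/-- the second derivative of a mollified map -/
theorem hess_conv {G : E → F} {H : E → E →L[ℝ] E →L[ℝ] F} {U : Set E}
    (hw : WeakHess G H U) {ε : ℝ} (hε : 0 < ε)
    {G1 : E → F} (hG1 : LocallyIntegrable G1 volume) (hGG : ∀ x ∈ U, G1 x = G x) {x : E}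
    (hx : closedBall x ε ⊆ U) (v w : E) :
    fderiv ℝ (fderiv ℝ (ker ε hε ⋆[ContinuousLinearMap.lsmul ℝ ℝ, volume] G1)) x v w =
      ∫ y, ker ε hε (x - y) • H y v w := by
  obtain ⟨ψ, hψ⟩ : ∃ ψ : E → ℝ, ψ = ker (E := E) ε hε := ⟨_, rfl⟩
  rw [← hψ]
  have hψs : ContDiff ℝ ∞ ψ := by rw [hψ]; exact ker_smooth hε
  have hψc : HasCompactSupport ψ := by rw [hψ]; exact ker_compact hε
  have hus : ContDiff ℝ ∞ (ψ ⋆[ContinuousLinearMap.lsmul ℝ ℝ, volume] G1) :=
    hψc.contDiff_convolution_left _ hψs hG1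
  rw [← dir_dir ((hus.fderiv_right (m := 1) (by norm_cast)).differentiable (by simp) x)]
  have h1 : (fun y => fderiv ℝ (ψ ⋆[ContinuousLinearMap.lsmul ℝ ℝ, volume] G1) y w) =
      ((fun y => fderiv ℝ ψ y w) ⋆[ContinuousLinearMap.lsmul ℝ ℝ, volume] G1) :=
    funext fun y => conv_dir hψs hψc hG1 y w
  rw [h1, conv_dir (dir_smooth hψs w) (dir_compact hψc w) hG1, convolution_eq_swap]
  have hψ1s : ContDiff ℝ ∞ (fderiv ℝ ψ) := hψs.fderiv_right (by norm_cast)
  have h2 : ∀ z, fderiv ℝ (fun y => fderiv ℝ ψ y w) z v = fderiv ℝ (fderiv ℝ ψ) z v w :=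
    fun z => dir_dir (hψ1s.differentiable (by simp) z) v w
  obtain ⟨φ, hφ⟩ : ∃ φ : E → ℝ, φ = fun y => ψ (x - y) := ⟨_, rfl⟩
  have hφs : ContDiff ℝ ∞ φ := by
    rw [hφ]
    exact hψs.comp (contDiff_const.sub contDiff_id)
  have hφt : tsupport φ ⊆ closedBall x ε := by
    refine closure_minimal (fun y hy => ?_) isClosed_closedBall
    have h3 : x - y ∈ Function.support ψ := by
      rw [hφ] at hy
      exact hy
    rw [hψ, ker_support, mem_ball_zero_iff] at h3
    rw [mem_closedBall, dist_eq_norm, ← norm_neg, neg_sub]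
    exact h3.le
  have hφc : HasCompactSupport φ :=
    HasCompactSupport.of_support_subset_isCompact (isCompact_closedBall x ε)
      ((subset_tsupport φ).trans hφt)
  have hsub : ∀ y, HasFDerivAt (fun y => x - y) (-ContinuousLinearMap.id ℝ E) y := by
    intro y
    exact (hasFDerivAt_id (𝕜 := ℝ) y).const_sub x
  have hφ1 : ∀ y, fderiv ℝ φ y = -fderiv ℝ ψ (x - y) := by
    intro y
    have h4 : HasFDerivAt ψ (fderiv ℝ ψ (x - y)) (x - y) :=
      (hψs.differentiable (by simp) (x - y)).hasFDerivAt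
    have h5 : HasFDerivAt φ ((fderiv ℝ ψ (x - y)).comp (-ContinuousLinearMap.id ℝ E)) y := by
      rw [hφ]
      exact h4.comp y (hsub y)
    rw [h5.fderiv]
    ext v
    simp
  have hφ2 : ∀ y v w, fderiv ℝ (fderiv ℝ φ) y v w = fderiv ℝ (fderiv ℝ ψ) (x - y) v w := by
    intro y v w
    have h4 : HasFDerivAt (fderiv ℝ ψ) (fderiv ℝ (fderiv ℝ ψ) (x - y)) (x - y) :=
      (hψ1s.differentiable (by simp) (x - y)).hasFDerivAt
    have h5 : HasFDerivAt (fderiv ℝ φ)
        (-((fderiv ℝ (fderiv ℝ ψ) (x - y)).comp (-ContinuousLinearMap.id ℝ E))) y := by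
      have h6 : fderiv ℝ φ = fun y => -(fderiv ℝ ψ (x - y)) := funext hφ1
      rw [h6]
      exact (h4.comp y (hsub y)).fun_neg
    rw [h5.fderiv]
    simp
  have h3 := hw φ hφs hφc (hφt.trans hx) v w
  have h4 : ∫ y, φ y • H y v w = ∫ y, ψ (x - y) • H y v w := by rw [hφ]
  rw [← h4, ← h3]
  refine integral_congr_ae (Eventually.of_forall fun y => ?_)
  show fderiv ℝ (fun y => fderiv ℝ ψ y w) (x - y) v • G1 y = fderiv ℝ (fderiv ℝ φ) y v w • G y
  rw [h2, hφ2]
  by_cases hy : y ∈ U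
  · rw [hGG y hy]
  · have h5 : y ∉ tsupport φ := fun h => hy (hx (hφt h))
    have h6 : fderiv ℝ (fderiv ℝ φ) y = 0 := by
      have h7 : y ∉ tsupport (fderiv ℝ (fderiv ℝ φ)) := fun h =>
        h5 (tsupport_fderiv_subset ℝ (tsupport_fderiv_subset ℝ h))
      exact image_eq_zero_of_notMem_tsupport h7
    rw [← hφ2, h6]
    simp

end Pool.Agent.H816.Sob
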