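import Pool.Agent.H816.Sob1

/-!
# Lipschitz maps with second derivatives in the critical class are nearly affine at small scales
-/

set_option autoImplicit false
set_option linter.unusedSectionVars false

open Set Filter Topology Metric MeasureTheory Module
open scoped ContDiff Convolution ENNReal

noncomputable section

namespace Pool.Agent.H816.Sob

variable {E : Type*} [NormedAddCommGroup E] [InnerProductSpace ℝ E] [FiniteDimensional ℝ E]
  [MeasurableSpace E] [BorelSpace E]
variable {F : Type*} [NormedAddCommGroup F] [NormedSpace ℝ F] [FiniteDimensional ℝ F]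

/-- the volume of balls -/
theorem vol_ball (x : E) {r : ℝ} (hr : 0 ≤ r) :
    volume.real (closedBall x r) = r ^ finrank ℝ E * volume.real (ball (0 : E) 1) := by
  rw [Measure.real, Measure.addHaar_closedBall _ _ hr, ENNReal.toReal_mul,
    ENNReal.toReal_ofReal (by positivity)]
  rfl

theorem vol_pos : 0 < volume.real (ball (0 : E) 1) :=
  ENNReal.toReal_pos (measure_ball_pos _ _ one_pos).ne' measure_ball_lt_top.ne

/-- Hölder on a ball -/
theorem int_ball_le {H : E → ℝ} {ρ τ : ℝ} (hτ : 0 ≤ τ) (hn : 1 ≤ finrank ℝ E)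
    (hH : MemLp H (finrank ℝ E) (volume.restrict (ball 0 ρ))) {x : E} {ε : ℝ}
    (hx : closedBall x ε ⊆ ball 0 ρ)
    (hs : eLpNorm ((closedBall x ε).indicator H) (finrank ℝ E) (volume.restrict (ball 0 ρ)) ≤
      ENNReal.ofReal τ) :
    IntegrableOn (fun y => ‖H y‖) (closedBall x ε) ∧
    ∫ y in closedBall x ε, ‖H y‖ ≤
      τ * (volume.real (closedBall x ε)) ^ (1 - 1 / (finrank ℝ E : ℝ)) := by
  have hfin : IsFiniteMeasure (volume.restrict (closedBall x ε)) :=
    ⟨by rw [Measure.restrict_apply_univ]; exact measure_closedBall_lt_top⟩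
  have h1 : MemLp H (finrank ℝ E) (volume.restrict (closedBall x ε)) :=
    hH.mono_measure (Measure.restrict_mono hx le_rfl)
  have h2 : (1 : ℝ≥0∞) ≤ (finrank ℝ E : ℝ≥0∞) := by exact_mod_cast hn
  have h3 : MemLp H 1 (volume.restrict (closedBall x ε)) := h1.mono_exponent h2
  have h4 : Integrable H (volume.restrict (closedBall x ε)) := memLp_one_iff_integrable.1 h3
  refine ⟨h4.norm, ?_⟩
  have h5 : eLpNorm ((closedBall x ε).indicator H) (finrank ℝ E) (volume.restrict (ball 0 ρ)) =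
      eLpNorm H (finrank ℝ E) (volume.restrict (closedBall x ε)) := by
    rw [eLpNorm_indicator_eq_eLpNorm_restrict measurableSet_closedBall,
      Measure.restrict_restrict measurableSet_closedBall, inter_eq_self_of_subset_left hx]
  rw [h5] at hs
  have h6 := eLpNorm_le_eLpNorm_mul_rpow_measure_univ (p := 1) h2 h1.1
  rw [Measure.restrict_apply_univ, ENNReal.toReal_one, ENNReal.toReal_natCast, div_one] at h6
  rw [integral_norm_eq_lintegral_enorm h4.1, ← eLpNorm_one_eq_lintegral_enorm]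
  have h7 : eLpNorm H 1 (volume.restrict (closedBall x ε)) ≤
      ENNReal.ofReal τ * volume (closedBall x ε) ^ (1 - 1 / (finrank ℝ E : ℝ)) :=
    h6.trans (mul_le_mul_left hs _)
  have hexp : 0 ≤ 1 - 1 / (finrank ℝ E : ℝ) := by
    have : (1 : ℝ) ≤ finrank ℝ E := by exact_mod_cast hn
    rw [sub_nonneg, div_le_one (by linarith)]
    exact this
  have h8 := ENNReal.toReal_mono (ENNReal.mul_ne_top ENNReal.ofReal_ne_top
    (ENNReal.rpow_ne_top_of_nonneg hexp measure_closedBall_lt_top.ne)) h7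
  rwa [ENNReal.toReal_mul, ENNReal.toReal_ofReal hτ, ← ENNReal.toReal_rpow] at h8

/-- pointwise bound for the second derivative of a mollified map -/
theorem hess_bound {G : E → F} {H : E → E →L[ℝ] E →L[ℝ] F} {h : E → ℝ} {ρ τ : ℝ} (hτ : 0 ≤ τ)
    (hn : 1 ≤ finrank ℝ E) (hH : MemLp h (finrank ℝ E) (volume.restrict (ball 0 ρ)))
    (hHh : ∀ y v w, ‖H y v w‖ ≤ h y * ‖v‖ * ‖w‖)
    (hw : WeakHess G H (ball 0 ρ)) {G1 : E → F} (hG1 : LocallyIntegrable G1 volume)
    (hGG : ∀ x ∈ ball (0 : E) ρ, G1 x = G x) {x : E} {ε : ℝ} (hε : 0 < ε)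
    (hx : closedBall x ε ⊆ ball 0 ρ)
    (hs : eLpNorm ((closedBall x ε).indicator h) (finrank ℝ E) (volume.restrict (ball 0 ρ)) ≤
      ENNReal.ofReal τ) :
    ‖fderiv ℝ (fderiv ℝ (ker ε hε ⋆[ContinuousLinearMap.lsmul ℝ ℝ, volume] G1)) x‖ ≤
      2 ^ finrank ℝ E * volume.real (ball (0 : E) 1) ^ (-(1 / (finrank ℝ E : ℝ))) * τ / ε := by
  obtain ⟨hI, hle⟩ := int_ball_le hτ hn hH hx hs
  set n := finrank ℝ E with hndef
  set V := volume.real (ball (0 : E) 1) with hV
  have hVpos : 0 < V := vol_pos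
  have hnpos : (0 : ℝ) < n := by exact_mod_cast hn
  have hvol : volume.real (closedBall x ε) = ε ^ n * V := vol_ball x hε.le
  have hvol0 : volume.real (closedBall (0 : E) ε) = ε ^ n * V := vol_ball 0 hε.le
  have hwpos : 0 < ε ^ n * V := by positivity
  have hnonneg : 0 ≤ 2 ^ n * V ^ (-(1 / (n : ℝ))) * τ / ε := by positivity
  have hM : 0 ≤ 2 ^ n / (ε ^ n * V) := by positivity
  have key : ∀ v w, ‖fderiv ℝ (fderiv ℝ (ker ε hε ⋆[ContinuousLinearMap.lsmul ℝ ℝ, volume] G1))
      x v w‖ ≤ 2 ^ n * V ^ (-(1 / (n : ℝ))) * τ / ε * ‖v‖ * ‖w‖ := by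
    intro v w
    rw [hess_conv hw hε hG1 hGG hx v w]
    have h1 : ‖∫ y, ker ε hε (x - y) • H y v w‖ ≤
        ∫ y, (closedBall x ε).indicator (fun y => 2 ^ n / (ε ^ n * V) * ‖v‖ * ‖w‖ * ‖h y‖) y := by
      refine norm_integral_le_of_norm_le ?_ (Eventually.of_forall fun y => ?_)
      · exact (integrable_indicator_iff measurableSet_closedBall).2 (hI.const_mul _)
      · by_cases hy : y ∈ closedBall x ε
        · rw [indicator_of_mem hy, norm_smul, Real.norm_eq_abs, abs_of_nonneg (ker_nonneg hε _)]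
          have h2 := ker_le hε (x - y)
          rw [hvol0] at h2
          have h3 : ‖H y v w‖ ≤ ‖h y‖ * ‖v‖ * ‖w‖ :=
            (hHh y v w).trans (mul_le_mul_of_nonneg_right (mul_le_mul_of_nonneg_right
              (le_abs_self _) (norm_nonneg _)) (norm_nonneg _))
          calc ker ε hε (x - y) * ‖H y v w‖ ≤ 2 ^ n / (ε ^ n * V) * (‖h y‖ * ‖v‖ * ‖w‖) :=
                mul_le_mul h2 h3 (norm_nonneg _) hM
            _ = _ := by ring
        · rw [indicator_of_notMem hy]
          have h2 : x - y ∉ Function.support (ker (E := E) ε hε) := by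
            rw [ker_support, mem_ball_zero_iff]
            intro h3
            apply hy
            rw [mem_closedBall, dist_eq_norm, ← norm_neg, neg_sub]
            exact h3.le
          rw [Function.notMem_support.1 h2, zero_smul, norm_zero]
    refine h1.trans ?_
    rw [integral_indicator measurableSet_closedBall, integral_const_mul]
    have h4 : (ε ^ n * V) ^ (1 - 1 / (n : ℝ)) = (ε ^ n * V) * (ε⁻¹ * V ^ (-(1 / (n : ℝ)))) := by
      rw [sub_eq_add_neg, Real.rpow_add hwpos, Real.rpow_one,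
        Real.mul_rpow (by positivity) hVpos.le]
      congr 2
      rw [Real.rpow_neg (by positivity), one_div, Real.pow_rpow_inv_natCast hε.le (by omega)]
    rw [hvol, h4] at hle
    calc 2 ^ n / (ε ^ n * V) * ‖v‖ * ‖w‖ * ∫ y in closedBall x ε, ‖h y‖
        ≤ 2 ^ n / (ε ^ n * V) * ‖v‖ * ‖w‖ *
          (τ * ((ε ^ n * V) * (ε⁻¹ * V ^ (-(1 / (n : ℝ)))))) :=
          mul_le_mul_of_nonneg_left hle (by positivity)
      _ = _ := by
          field_simp
  refine ContinuousLinearMap.opNorm_le_bound _ hnonneg fun v => ?_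
  refine ContinuousLinearMap.opNorm_le_bound _ (by positivity) fun w => ?_
  exact key v w

/-- **Nearly affine at small scales.** -/
theorem affine_small {G : E → F} {H : E → E →L[ℝ] E →L[ℝ] F} {h : E → ℝ} {ρ K : ℝ} (hρ : 0 < ρ)
    (hK : 0 ≤ K) (hHh : ∀ y v w, ‖H y v w‖ ≤ h y * ‖v‖ * ‖w‖)
    (hn : 1 ≤ finrank ℝ E) (hG : ∀ x ∈ ball (0 : E) ρ, ∀ y ∈ ball (0 : E) ρ,
      ‖G x - G y‖ ≤ K * ‖x - y‖)
    (hH : MemLp h (finrank ℝ E) (volume.restrict (ball 0 ρ))) (hw : WeakHess G H (ball 0 ρ))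
    {δ : ℝ} (hδ : 0 < δ) : ∃ ρ' : ℝ, 0 < ρ' ∧ 4 * ρ' ≤ ρ ∧ ∀ (p : E) (r : ℝ), ‖p‖ ≤ ρ' → 0 < r →
      r ≤ ρ' → ∃ L : E →L[ℝ] F, ∀ q, ‖q - p‖ ≤ r → ‖G q - G p - L (q - p)‖ ≤ δ * r := by
  have hnpos : (0 : ℝ) < finrank ℝ E := by exact_mod_cast hn
  have hVpos : 0 < volume.real (ball (0 : E) 1) := vol_pos
  obtain ⟨C0, hC0, hC0pos⟩ : ∃ C0 : ℝ, C0 = 2 ^ finrank ℝ E *
      volume.real (ball (0 : E) 1) ^ (-(1 / (finrank ℝ E : ℝ))) ∧ 0 < C0 :=
    ⟨_, rfl, by positivity⟩
  -- the parameters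
  obtain ⟨s, hs0, hs1, hsK⟩ : ∃ s : ℝ, 0 < s ∧ s ≤ 1 ∧ K * s ≤ δ / 4 := by
    refine ⟨min 1 (δ / (4 * (K + 1))), by positivity, min_le_left _ _, ?_⟩
    calc K * min 1 (δ / (4 * (K + 1))) ≤ (K + 1) * (δ / (4 * (K + 1))) :=
          mul_le_mul (by linarith) (min_le_right _ _) (by positivity) (by positivity)
      _ = δ / 4 := by field_simp
  have hτ : 0 < δ * s / (2 * C0) := by positivity
  obtain ⟨δ0, hδ0, hsmall⟩ := hH.eLpNorm_indicator_le (by exact_mod_cast hn)
    (ENNReal.natCast_ne_top _) hτ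
  -- the extension
  obtain ⟨G1, hG1def⟩ : ∃ G1 : E → F, G1 = (ball (0 : E) ρ).indicator G := ⟨_, rfl⟩
  have hGG : ∀ x ∈ ball (0 : E) ρ, G1 x = G x := fun x hx => by
    rw [hG1def, indicator_of_mem hx]
  have hGc : ContinuousOn G (ball 0 ρ) := by
    intro x hx
    rw [ContinuousWithinAt, tendsto_iff_norm_sub_tendsto_zero]
    have h1 : Tendsto (fun y => K * ‖y - x‖) (𝓝[ball 0 ρ] x) (𝓝 0) := by
      have h2 : Tendsto (fun y : E => K * ‖y - x‖) (𝓝 x) (𝓝 (K * ‖x - x‖)) :=
        (continuous_const.mul (continuous_id.sub continuous_const).norm).tendsto x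
      rw [sub_self, norm_zero, mul_zero] at h2
      exact h2.mono_left nhdsWithin_le_nhds
    refine squeeze_zero' (Eventually.of_forall fun _ => norm_nonneg _) ?_ h1
    filter_upwards [self_mem_nhdsWithin] with y hy
    exact hG y hy x hx
  have h0mem : (0 : E) ∈ ball (0 : E) ρ := mem_ball_self hρ
  have hG1 : Integrable G1 volume := by
    rw [hG1def, integrable_indicator_iff measurableSet_ball]
    refine ⟨hGc.aestronglyMeasurable measurableSet_ball,
      HasFiniteIntegral.restrict_of_bounded (‖G 0‖ + K * ρ) measure_ball_lt_top ?_⟩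
    filter_upwards [ae_restrict_mem measurableSet_ball] with x hx
    have h1 := hG x hx 0 h0mem
    have h2 : ‖G x‖ ≤ ‖G 0‖ + ‖G x - G 0‖ := by
      have := norm_add_le (G 0) (G x - G 0)
      rwa [add_sub_cancel] at this
    rw [sub_zero] at h1
    have h3 : ‖x‖ ≤ ρ := (mem_ball_zero_iff.1 hx).le
    nlinarith
  have hG1l : LocallyIntegrable G1 volume := hG1.locallyIntegrable
  -- the radius
  refine ⟨min (ρ / 4) (min 1 (δ0 / volume.real (ball (0 : E) 1))), by positivity, ?_, ?_⟩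
  · have := min_le_left (ρ / 4) (min 1 (δ0 / volume.real (ball (0 : E) 1)))
    linarith
  intro p r hp hr hrρ
  have hp4 : ‖p‖ ≤ ρ / 4 := hp.trans (min_le_left _ _)
  have hr4 : r ≤ ρ / 4 := hrρ.trans (min_le_left _ _)
  have hr1 : r ≤ 1 := hrρ.trans ((min_le_right _ _).trans (min_le_left _ _))
  have hrδ : r ≤ δ0 / volume.real (ball (0 : E) 1) :=
    hrρ.trans ((min_le_right _ _).trans (min_le_right _ _))
  have hε : 0 < s * r := by positivity
  have hεr : s * r ≤ r := by nlinarith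
  have hsub : ∀ x, ‖x - p‖ ≤ r → closedBall x (s * r) ⊆ ball (0 : E) ρ := by
    intro x hx y hy
    rw [mem_closedBall, dist_eq_norm] at hy
    rw [mem_ball_zero_iff]
    have h1 : ‖y‖ ≤ ‖y - x‖ + ‖x - p‖ + ‖p‖ := by
      have := norm_add₃_le (a := y - x) (b := x - p) (c := p)
      rwa [show y - x + (x - p) + p = y by abel] at this
    linarith
  obtain ⟨u, hu⟩ : ∃ u : E → F, u = (ker (s * r) hε) ⋆[ContinuousLinearMap.lsmul ℝ ℝ, volume] G1 :=
    ⟨_, rfl⟩
  have hus : ContDiff ℝ ∞ u := by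
    rw [hu]
    exact (ker_compact hε).contDiff_convolution_left _ (ker_smooth hε) hG1l
  have hD2 : ∀ x, ‖x - p‖ ≤ r → ‖fderiv ℝ (fderiv ℝ u) x‖ ≤ C0 * (δ * s / (2 * C0)) / (s * r) := by
    intro x hx
    rw [hu, hC0]
    have h1 := hsmall (closedBall x (s * r)) measurableSet_closedBall (by
      refine (Measure.restrict_apply_le _ _).trans ?_
      rw [← ENNReal.ofReal_toReal (measure_closedBall_lt_top (x := x) (r := s * r)).ne]
      refine ENNReal.ofReal_le_ofReal ?_
      have h2 := vol_ball x hε.le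
      rw [Measure.real] at h2
      rw [h2]
      have h3 : (s * r) ^ finrank ℝ E ≤ r := by
        calc (s * r) ^ finrank ℝ E ≤ (s * r) ^ 1 :=
              pow_le_pow_of_le_one hε.le (hεr.trans hr1) hn
          _ ≤ r := by rw [pow_one]; exact hεr
      calc (s * r) ^ finrank ℝ E * volume.real (ball (0 : E) 1)
          ≤ r * volume.real (ball (0 : E) 1) := mul_le_mul_of_nonneg_right h3 hVpos.le
        _ ≤ δ0 := (le_div_iff₀ hVpos).1 hrδ)
    rw [hC0] at h1 hτ
    exact hess_bound hτ.le hn hH hHh hw hG1l hGG hε (hsub x hx) h1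
  have hC : C0 * (δ * s / (2 * C0)) / (s * r) = δ / (2 * r) := by
    field_simp
  rw [hC] at hD2
  -- mollification is close
  have hclose : ∀ x, ‖x - p‖ ≤ r → ‖u x - G x‖ ≤ δ * r / 4 := by
    intro x hx
    have hxb : x ∈ ball (0 : E) ρ := hsub x hx (mem_closedBall_self hε.le)
    have h1 : dist (u x) (G1 x) ≤ K * (s * r) := by
      rw [hu]
      refine ContDiffBump.dist_normed_convolution_le hG1.aestronglyMeasurable fun y hy => ?_
      have hy' : ‖y - x‖ < s * r := by
        have : dist y x < s * r := hy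
        rwa [dist_eq_norm] at this
      have hyb : y ∈ ball (0 : E) ρ := hsub x hx (by
        rw [mem_closedBall, dist_eq_norm]
        exact hy'.le)
      rw [hGG y hyb, hGG x hxb, dist_eq_norm]
      exact (hG y hyb x hxb).trans (mul_le_mul_of_nonneg_left hy'.le hK)
    rw [hGG x hxb, dist_eq_norm] at h1
    refine h1.trans ?_
    have := mul_le_mul_of_nonneg_right hsK hr.le
    linarith
  -- Taylor
  have hconv : Convex ℝ (closedBall p r) := convex_closedBall p r
  have hpmem : p ∈ closedBall p r := mem_closedBall_self hr.le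
  have hD1 : ∀ x ∈ closedBall p r, ‖fderiv ℝ u x - fderiv ℝ u p‖ ≤ δ / 2 := by
    intro x hx
    have h1 := hconv.norm_image_sub_le_of_norm_fderiv_le (𝕜 := ℝ) (f := fderiv ℝ u)
      (C := δ / (2 * r)) (fun y _ => (hus.fderiv_right (m := 1) (by norm_cast)).differentiable
        (by simp) y) (fun y hy => hD2 y (by rwa [mem_closedBall, dist_eq_norm] at hy)) hpmem hx
    rw [mem_closedBall, dist_eq_norm] at hx
    refine h1.trans ?_
    calc δ / (2 * r) * ‖x - p‖ ≤ δ / (2 * r) * r := mul_le_mul_of_nonneg_left hx (by positivity)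
      _ = δ / 2 := by field_simp
  refine ⟨fderiv ℝ u p, fun q hq => ?_⟩
  have hqmem : q ∈ closedBall p r := by rwa [mem_closedBall, dist_eq_norm]
  have h1 := hconv.norm_image_sub_le_of_norm_fderiv_le' (𝕜 := ℝ) (f := u) (φ := fderiv ℝ u p)
    (C := δ / 2) (fun y _ => hus.differentiable (by simp) y) hD1 hpmem hqmem
  have h2 : δ / 2 * ‖q - p‖ ≤ δ / 2 * r := mul_le_mul_of_nonneg_left hq (by positivity)
  have h3 := hclose q hq
  have h4 := hclose p (by rw [sub_self, norm_zero]; exact hr.le)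
  have h5 : G q - G p - fderiv ℝ u p (q - p) =
      (u q - u p - fderiv ℝ u p (q - p)) - (u q - G q) + (u p - G p) := by abel
  rw [h5]
  have h6 := norm_add_le (u q - u p - fderiv ℝ u p (q - p) - (u q - G q)) (u p - G p)
  have h7 := norm_sub_le (u q - u p - fderiv ℝ u p (q - p)) (u q - G q)
  linarith

end Pool.Agent.H816.Sob
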