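import Pool.Agent.H816.Sob3
import Pool.Agent.H816.Sob4

/-!
# Integrability of powers of the norm
-/

set_option autoImplicit false
set_option linter.unusedSectionVars false

open Set Filter Topology Metric MeasureTheory Module
open scoped ContDiff ENNReal

noncomputable section

namespace Pool.Agent.H816.Sob

variable {E : Type*} [NormedAddCommGroup E] [InnerProductSpace ℝ E] [FiniteDimensional ℝ E]
  [MeasurableSpace E] [BorelSpace E]

/-- powers of the norm are integrable on balls -/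
theorem pow_integrable (hn : 1 ≤ finrank ℝ E) {β ρ : ℝ} (hβ : β < finrank ℝ E) (hρ : 0 < ρ) :
    IntegrableOn (fun x : E => ‖x‖ ^ (-β)) (ball 0 ρ) := by
  have hnt : Nontrivial E := Module.nontrivial_of_finrank_pos (R := ℝ) (by omega)
  have h1 : IntegrableOn (fun y : ℝ => y ^ (finrank ℝ E - 1) •
      ((Iio ρ).indicator (fun y => y ^ (-β)) y)) (Ioi 0) := by
    have h2 : IntegrableOn (fun y : ℝ => y ^ ((finrank ℝ E : ℝ) - 1 - β)) (Ioo 0 ρ) := by
      have h3 : IntervalIntegrable (fun y : ℝ => y ^ ((finrank ℝ E : ℝ) - 1 - β)) volume 0 ρ :=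
        intervalIntegral.intervalIntegrable_rpow' (by linarith)
      rw [intervalIntegrable_iff_integrableOn_Ioo_of_le hρ.le] at h3
      exact h3
    have h4 : IntegrableOn ((Iio ρ).indicator fun y : ℝ => y ^ ((finrank ℝ E : ℝ) - 1 - β))
        (Ioi 0) := by
      rw [IntegrableOn, integrable_indicator_iff measurableSet_Iio, IntegrableOn,
        Measure.restrict_restrict measurableSet_Iio, inter_comm]
      exact h2
    refine h4.congr_fun (fun y hy => ?_) measurableSet_Ioi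
    have hy0 : (0 : ℝ) < y := hy
    by_cases hyρ : y ∈ Iio ρ
    · rw [indicator_of_mem hyρ, indicator_of_mem hyρ, smul_eq_mul, sub_sub, sub_eq_add_neg]
      have e1 : (finrank ℝ E : ℝ) + -(1 + β) = ((finrank ℝ E - 1 : ℕ) : ℝ) + -β := by
        rw [Nat.cast_sub hn]
        push_cast
        ring
      rw [e1, Real.rpow_add hy0, Real.rpow_natCast]
    · rw [indicator_of_notMem hyρ, indicator_of_notMem hyρ, smul_zero]
  have h2 := (integrable_fun_norm_addHaar (E := E) volume
    (f := fun y : ℝ => (Iio ρ).indicator (fun y => y ^ (-β)) y)).2 h1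
  rw [← integrable_indicator_iff measurableSet_ball]
  refine h2.congr (Eventually.of_forall fun x => ?_)
  show (Iio ρ).indicator (fun y => y ^ (-β)) ‖x‖ = _
  by_cases hx : x ∈ ball (0 : E) ρ
  · have hx' : ‖x‖ ∈ Iio ρ := mem_ball_zero_iff.1 hx
    rw [indicator_of_mem hx, indicator_of_mem hx']
  · have hx' : ‖x‖ ∉ Iio ρ := fun h => hx (mem_ball_zero_iff.2 h)
    rw [indicator_of_notMem hx, indicator_of_notMem hx']

theorem pow_memLp (hn : 1 ≤ finrank ℝ E) {β ρ : ℝ} {q : ℝ} (hq : 0 < q) (hβ : β * q < finrank ℝ E)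
    (hρ : 0 < ρ) :
    MemLp (fun x : E => ‖x‖ ^ (-β)) (ENNReal.ofReal q) (volume.restrict (ball 0 ρ)) := by
  have h1 := pow_integrable hn hβ hρ
  have hmeas : AEStronglyMeasurable (fun x : E => ‖x‖ ^ (-β)) (volume.restrict (ball 0 ρ)) :=
    ((measurable_norm.pow_const _).aestronglyMeasurable)
  rw [← integrable_norm_rpow_iff hmeas (by simpa using hq) ENNReal.ofReal_ne_top,
    ENNReal.toReal_ofReal hq.le]
  refine h1.congr (Eventually.of_forall fun x => ?_)
  show ‖x‖ ^ (-(β * q)) = ‖‖x‖ ^ (-β)‖ ^ q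
  rw [Real.norm_eq_abs, abs_of_nonneg (by positivity), ← Real.rpow_mul (norm_nonneg _)]
  congr 1
  ring

/-- maps bounded by the inverse of the gauge are in `L^q` -/
theorem inv_lg_memLp (hn : 1 ≤ finrank ℝ E) {F : Type*} [NormedAddCommGroup F] {k : E → F}
    {C ρ : ℝ} (hρ : 0 < ρ) (hρ' : ρ ≤ 1 / 3) (hk : AEStronglyMeasurable k volume)
    (hC : ∀ x, x ≠ 0 → ‖x‖ < ρ → ‖k x‖ * lg ‖x‖ ≤ C) {q : ℝ≥0∞} (hq : q < finrank ℝ E) :
    MemLp k q (volume.restrict (ball 0 ρ)) := by
  have hnt : Nontrivial E := Module.nontrivial_of_finrank_pos (R := ℝ) (by omega)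
  have hfin : IsFiniteMeasure (volume.restrict (ball (0 : E) ρ)) :=
    ⟨by rw [Measure.restrict_apply_univ]; exact measure_ball_lt_top⟩
  -- a larger exponent
  obtain ⟨q', hq'0, hq'n, hqq'⟩ : ∃ q' : ℝ, 0 < q' ∧ q' < finrank ℝ E ∧
      q ≤ ENNReal.ofReal q' := by
    have hnpos : (0 : ℝ) < finrank ℝ E := by exact_mod_cast hn
    have hqt : q ≠ ⊤ := (hq.trans (ENNReal.natCast_lt_top _)).ne
    have hqr : q.toReal < finrank ℝ E := by
      have := (ENNReal.toReal_lt_toReal hqt (ENNReal.natCast_ne_top _)).2 hq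
      rwa [ENNReal.toReal_natCast] at this
    have hq0 : 0 ≤ q.toReal := ENNReal.toReal_nonneg
    refine ⟨(q.toReal + finrank ℝ E) / 2, by linarith, by linarith, ?_⟩
    calc q = ENNReal.ofReal q.toReal := (ENNReal.ofReal_toReal hqt).symm
      _ ≤ _ := ENNReal.ofReal_le_ofReal (by linarith)
  refine MemLp.mono_exponent (q := ENNReal.ofReal q') ?_ hqq'
  -- the exponent of the norm
  set n : ℝ := (finrank ℝ E : ℝ) with hndef
  have ha : 0 < (n - q') / (2 * q') := div_pos (by linarith) (by linarith)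
  have hβ : (1 + (n - q') / (2 * q')) * q' < n := by
    have : (1 + (n - q') / (2 * q')) * q' = (n + q') / 2 := by
      field_simp
      ring
    rw [this]
    linarith
  have h1 := (pow_memLp hn hq'0 hβ hρ).const_mul (|C| * (1 / ((n - q') / (2 * q'))))
  refine h1.mono hk.restrict ?_
  have h2 : ∀ᵐ x ∂(volume.restrict (ball (0 : E) ρ)), x ∈ ball (0 : E) ρ :=
    ae_restrict_mem measurableSet_ball
  have h3 : ∀ᵐ x ∂(volume.restrict (ball (0 : E) ρ)), x ≠ 0 :=
    ae_restrict_of_ae (Measure.ae_ne volume 0)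
  filter_upwards [h2, h3] with x hx hx0
  have hxn : 0 < ‖x‖ := norm_pos_iff.2 hx0
  have hxρ : ‖x‖ < ρ := mem_ball_zero_iff.1 hx
  have hlg : 0 < lg ‖x‖ := lg_pos hxn (by linarith)
  have h4 := hC x hx0 hxρ
  have h5 := inv_lg_le ha hxn (by linarith : ‖x‖ < 1 / 3)
  have h6 : ‖k x‖ ≤ |C| * (lg ‖x‖)⁻¹ := by
    rw [← div_eq_mul_inv, le_div_iff₀ hlg]
    exact h4.trans (le_abs_self C)
  refine h6.trans ?_
  have hpos : 0 ≤ |C| * (1 / ((n - q') / (2 * q'))) * ‖x‖ ^ (-(1 + (n - q') / (2 * q'))) := by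
    positivity
  rw [Real.norm_of_nonneg hpos, mul_assoc]
  exact mul_le_mul_of_nonneg_left h5 (abs_nonneg C)

end Pool.Agent.H816.Sob
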