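import Pool.Agent.H816.Sob5

/-!
# Weak second derivatives of maps which are smooth off a point
-/

set_option autoImplicit false
set_option linter.unusedSectionVars false

open Set Filter Topology Metric MeasureTheory Module
open scoped ContDiff ENNReal

noncomputable section

namespace Pool.Agent.H816.Sob

variable {E : Type*} [NormedAddCommGroup E] [InnerProductSpace ℝ E] [FiniteDimensional ℝ E]
  [MeasurableSpace E] [BorelSpace E]
variable {F : Type*} [NormedAddCommGroup F] [NormedSpace ℝ F] [FiniteDimensional ℝ F]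

theorem int_smul {h : E → ℝ} (hc : Continuous h) {K : Set E} (hK : IsCompact K)
    (h0 : ∀ x, x ∉ K → h x = 0) {g : E → F} (hg : IntegrableOn g K) :
    Integrable (fun x => h x • g x) := by
  refine (hg.continuousOn_smul hc.continuousOn hK).integrable_of_forall_notMem_eq_zero ?_
  intro x hx
  rw [h0 x hx, zero_smul]

/-- **Removable points.** -/
theorem weak_of_smooth_off {G : E → F} {ρ M : ℝ} (hn : 2 ≤ finrank ℝ E)
    (hd : ∀ x ∈ ball (0 : E) ρ, DifferentiableAt ℝ G x)
    (hM : ∀ x ∈ ball (0 : E) ρ, ‖fderiv ℝ G x‖ ≤ M)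
    (hs : ∀ x ∈ ball (0 : E) ρ, x ≠ 0 → DifferentiableAt ℝ (fderiv ℝ G) x)
    {k : E → ℝ} (hk : ∀ x ∈ ball (0 : E) ρ, x ≠ 0 → ‖fderiv ℝ (fderiv ℝ G) x‖ ≤ k x)
    (hi : IntegrableOn k (ball (0 : E) ρ)) :
    WeakHess G (fderiv ℝ (fderiv ℝ G)) (ball 0 ρ) := by
  intro φ hφs hφc hφt v w
  have hnt : Nontrivial E := Module.nontrivial_of_finrank_pos (R := ℝ) (by omega)
  borelize F
  obtain ⟨K, hKdef⟩ : ∃ K : Set E, K = tsupport φ := ⟨_, rfl⟩
  have hK : IsCompact K := by rw [hKdef]; exact hφc
  have hKb : K ⊆ ball 0 ρ := by rw [hKdef]; exact hφt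
  have hKfin : volume K < ⊤ := hK.measure_lt_top
  have hφ0 : ∀ x, x ∉ K → φ x = 0 := fun x hx => by
    rw [hKdef] at hx
    exact image_eq_zero_of_notMem_tsupport hx
  have hDφ0 : ∀ x, x ∉ K → fderiv ℝ φ x = 0 := fun x hx => by
    rw [hKdef] at hx
    exact image_eq_zero_of_notMem_tsupport fun h => hx (tsupport_fderiv_subset ℝ h)
  have hD2φ0 : ∀ x, x ∉ K → fderiv ℝ (fderiv ℝ φ) x = 0 := fun x hx => by
    rw [hKdef] at hx
    exact image_eq_zero_of_notMem_tsupport fun h =>
      hx (tsupport_fderiv_subset ℝ (tsupport_fderiv_subset ℝ h))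
  have hφ1s : ContDiff ℝ ∞ (fderiv ℝ φ) := hφs.fderiv_right (by norm_cast)
  have hφ2s : ContDiff ℝ ∞ (fderiv ℝ (fderiv ℝ φ)) := hφ1s.fderiv_right (by norm_cast)
  have hGK : IntegrableOn G K := by
    refine ContinuousOn.integrableOn_compact hK fun x hx => ?_
    exact (hd x (hKb hx)).continuousAt.continuousWithinAt
  -- the components of the derivative
  obtain ⟨g, hg⟩ : ∃ g : E → F, g = fun x => fderiv ℝ G x w := ⟨_, rfl⟩
  have hgm : Measurable g := by
    rw [hg]
    exact measurable_fderiv_apply_const ℝ G w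
  have hgb : ∀ x ∈ ball (0 : E) ρ, ‖g x‖ ≤ M * ‖w‖ := by
    intro x hx
    rw [hg]
    exact ((fderiv ℝ G x).le_opNorm w).trans
      (mul_le_mul_of_nonneg_right (hM x hx) (norm_nonneg _))
  have hgK : IntegrableOn g K := by
    refine ⟨hgm.aestronglyMeasurable, HasFiniteIntegral.restrict_of_bounded (M * ‖w‖) hKfin ?_⟩
    filter_upwards [ae_restrict_mem hK.measurableSet] with x hx using hgb x (hKb hx)
  have hgd : ∀ x ∈ ball (0 : E) ρ, x ≠ 0 → DifferentiableAt ℝ g x := by
    intro x hx hx0
    rw [hg]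
    exact (hs x hx hx0).clm_apply (differentiableAt_const w)
  have hg' : ∀ x ∈ ball (0 : E) ρ, x ≠ 0 → fderiv ℝ g x v = fderiv ℝ (fderiv ℝ G) x v w := by
    intro x hx hx0
    rw [hg]
    exact dir_dir (hs x hx hx0) v w
  have hg'K : IntegrableOn (fun x => fderiv ℝ g x v) K := by
    refine Integrable.mono' (((hi.mono_set hKb).mul_const ‖v‖).mul_const ‖w‖)
      (measurable_fderiv_apply_const ℝ g v).aestronglyMeasurable ?_
    filter_upwards [ae_restrict_mem hK.measurableSet,
      ae_restrict_of_ae (Measure.ae_ne volume (0 : E))] with x hx hx0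
    rw [hg' x (hKb hx) hx0]
    exact ((fderiv ℝ (fderiv ℝ G) x).le_opNorm₂ v w).trans (mul_le_mul_of_nonneg_right
      (mul_le_mul_of_nonneg_right (hk x (hKb hx) hx0) (norm_nonneg _)) (norm_nonneg _))
  -- first integration by parts
  have step1 : ∫ x, (fderiv ℝ (fderiv ℝ φ) x v w) • G x = -∫ x, (fderiv ℝ φ x v) • g x := by
    have e1 : ∀ x, fderiv ℝ (fun y => fderiv ℝ φ y v) x w = fderiv ℝ (fderiv ℝ φ) x v w := by
      intro x
      rw [dir_dir (hφ1s.differentiable (by simp) x) w v]
      have h1 : IsSymmSndFDerivAt ℝ φ x := hφs.contDiffAt.isSymmSndFDerivAt (by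
        rw [minSmoothness_of_isRCLikeNormedField]
        exact WithTop.coe_le_coe.2 le_top)
      exact h1 w v
    have e2 := integral_smul_fderiv_eq_neg_fderiv_smul_of_integrable (μ := volume)
      (f := fun y => fderiv ℝ φ y v) (g := G) (v := w)
      (by
        simp only [e1]
        exact int_smul ((hφ2s.continuous.clm_apply continuous_const).clm_apply continuous_const)
          hK (fun x hx => by rw [hD2φ0 x hx]; simp) hGK)
      (by
        have := int_smul (h := fun y => fderiv ℝ φ y v) (hφ1s.continuous.clm_apply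
          continuous_const) hK (fun x hx => by rw [hDφ0 x hx]; simp) hgK
        rw [hg] at this
        exact this)
      (int_smul (hφ1s.continuous.clm_apply continuous_const) hK
        (fun x hx => by rw [hDφ0 x hx]; simp) hGK)
      (fun x _ => (dir_smooth hφs v).differentiable (by simp) x)
      (fun x hx => hd x (hφt (tsupport_fderiv_subset ℝ
        (closure_mono (fun y hy => by
          intro h0
          apply hy
          show fderiv ℝ φ y v = 0
          rw [h0]
          simp) hx))))
    simp only [e1] at e2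
    have e3 : ∫ x, (fderiv ℝ φ x v) • g x = ∫ x, (fderiv ℝ φ x v) • fderiv ℝ G x w := by rw [hg]
    rw [e3, e2, neg_neg]
  -- the cutoffs
  obtain ⟨β, hβ⟩ : ∃ β : ContDiffBump (0 : E), β.rIn = 1 ∧ β.rOut = 2 :=
    ⟨⟨1, 2, by norm_num, by norm_num⟩, rfl, rfl⟩
  have hβs : ContDiff ℝ ∞ (β : E → ℝ) := β.contDiff
  obtain ⟨C1, hC1⟩ : ∃ C1 : ℝ, ∀ x, ‖fderiv ℝ (β : E → ℝ) x‖ ≤ C1 :=
    (β.hasCompactSupport.fderiv ℝ).exists_bound_of_continuous
      (hβs.fderiv_right (m := ∞) (by norm_cast)).continuous
  have hC10 : 0 ≤ C1 := (norm_nonneg _).trans (hC1 0)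
  obtain ⟨C2, hC2⟩ : ∃ C2 : ℝ, ∀ x, ‖φ x‖ ≤ C2 := hφc.exists_bound_of_continuous hφs.continuous
  have hC20 : 0 ≤ C2 := (norm_nonneg _).trans (hC2 0)
  obtain ⟨e, he⟩ : ∃ e : ℕ → ℝ, e = fun j : ℕ => ((j : ℝ) + 1) := ⟨_, rfl⟩
  have he1 : ∀ j, 1 ≤ e j := fun j => by rw [he]; linarith [(Nat.cast_nonneg j : (0:ℝ) ≤ j)]
  have hetop : Tendsto e atTop atTop := by
    rw [he]
    exact tendsto_atTop_add_const_right _ _ tendsto_natCast_atTop_atTop
  obtain ⟨b, hb⟩ : ∃ b : ℕ → E → ℝ, b = fun j x => β (e j • x) := ⟨_, rfl⟩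
  have hbs : ∀ j, ContDiff ℝ ∞ (b j) := fun j => by
    rw [hb]
    exact hβs.comp (contDiff_const.smul contDiff_id)
  have hb01 : ∀ j x, 0 ≤ b j x ∧ b j x ≤ 1 := fun j x => by
    rw [hb]
    exact ⟨β.nonneg, β.le_one⟩
  have hbnear : ∀ j, ∀ᶠ x in 𝓝 (0 : E), b j x = 1 := by
    intro j
    have h1 : ball (0 : E) (1 / e j) ∈ 𝓝 (0 : E) :=
      ball_mem_nhds _ (by have := he1 j; positivity)
    filter_upwards [h1] with x hx
    rw [hb]
    apply β.one_of_mem_closedBall
    rw [hβ.1, mem_closedBall_zero_iff, norm_smul, Real.norm_eq_abs,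
      abs_of_pos (by linarith [he1 j])]
    have h2 := mem_ball_zero_iff.1 hx
    rw [lt_div_iff₀ (by linarith [he1 j])] at h2
    linarith
  have hblim : ∀ x, x ≠ 0 → Tendsto (fun j => b j x) atTop (𝓝 0) := by
    intro x hx
    have hxn : 0 < ‖x‖ := norm_pos_iff.2 hx
    refine tendsto_const_nhds.congr' ?_
    filter_upwards [hetop.eventually_ge_atTop (2 / ‖x‖)] with j hj
    rw [hb]
    symm
    apply β.zero_of_le_dist
    rw [hβ.2, dist_zero_right, norm_smul, Real.norm_eq_abs, abs_of_pos (by linarith [he1 j])]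
    rwa [div_le_iff₀ hxn] at hj
  have hb' : ∀ j x, fderiv ℝ (b j) x v = e j * fderiv ℝ (β : E → ℝ) (e j • x) v := by
    intro j x
    have h1 : HasFDerivAt (fun x : E => e j • x) (e j • ContinuousLinearMap.id ℝ E) x :=
      (hasFDerivAt_id x).const_smul (e j)
    have h2 : HasFDerivAt (β : E → ℝ) (fderiv ℝ (β : E → ℝ) (e j • x)) (e j • x) :=
      (hβs.differentiable (by simp) _).hasFDerivAt
    have h3 : HasFDerivAt (b j) ((fderiv ℝ (β : E → ℝ) (e j • x)).comp
        (e j • ContinuousLinearMap.id ℝ E)) x := by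
      rw [hb]
      exact h2.comp x h1
    rw [h3.fderiv]
    simp
  have hb'0 : ∀ j x, x ∉ closedBall (0 : E) (2 / e j) → fderiv ℝ (b j) x v = 0 := by
    intro j x hx
    rw [hb']
    have h1 : e j • x ∉ tsupport (β : E → ℝ) := by
      rw [β.tsupport_eq, hβ.2, mem_closedBall_zero_iff, norm_smul, Real.norm_eq_abs,
        abs_of_pos (by linarith [he1 j])]
      intro h2
      apply hx
      rw [mem_closedBall_zero_iff, le_div_iff₀ (by linarith [he1 j])]
      linarith
    rw [image_eq_zero_of_notMem_tsupport fun h => h1 (tsupport_fderiv_subset ℝ h)]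
    simp
  -- second integration by parts
  have step2 : ∀ j, ∫ x, ((1 - b j x) * φ x) • fderiv ℝ g x v =
      -(∫ x, ((1 - b j x) * fderiv ℝ φ x v) • g x) + ∫ x, (φ x * fderiv ℝ (b j) x v) • g x := by
    intro j
    have d1 : ∀ x, fderiv ℝ (fun x => (1 - b j x) * φ x) x v =
        (1 - b j x) * fderiv ℝ φ x v - φ x * fderiv ℝ (b j) x v := by
      intro x
      have h1 : HasFDerivAt (fun x => 1 - b j x) (-fderiv ℝ (b j) x) x :=
        ((hbs j).differentiable (by simp) x).hasFDerivAt.const_sub 1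
      have h2 : HasFDerivAt φ (fderiv ℝ φ x) x := (hφs.differentiable (by simp) x).hasFDerivAt
      rw [(h1.fun_mul h2).fderiv]
      simp
      ring
    have c1 : Continuous fun x => (1 - b j x) * φ x :=
      (continuous_const.sub (hbs j).continuous).mul hφs.continuous
    have c2 : Continuous fun x => (1 - b j x) * fderiv ℝ φ x v :=
      (continuous_const.sub (hbs j).continuous).mul (hφ1s.continuous.clm_apply continuous_const)
    have c3 : Continuous fun x => φ x * fderiv ℝ (b j) x v :=
      hφs.continuous.mul (dir_smooth (hbs j) v).continuous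
    have i2 : Integrable fun x => ((1 - b j x) * fderiv ℝ φ x v) • g x :=
      int_smul c2 hK (fun x hx => by rw [hDφ0 x hx]; simp) hgK
    have i3 : Integrable fun x => (φ x * fderiv ℝ (b j) x v) • g x :=
      int_smul c3 hK (fun x hx => by rw [hφ0 x hx]; simp) hgK
    have e2 := integral_smul_fderiv_eq_neg_fderiv_smul_of_integrable (μ := volume)
      (f := fun x => (1 - b j x) * φ x) (g := g) (v := v)
      (by
        simp only [d1, sub_smul]
        exact i2.sub i3)
      (int_smul c1 hK (fun x hx => by rw [hφ0 x hx]; simp) hg'K)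
      (int_smul c1 hK (fun x hx => by rw [hφ0 x hx]; simp) hgK)
      (fun x _ => ((contDiff_const.sub (hbs j)).mul hφs).differentiable (by simp) x)
      (fun x hx => by
        have h0 : Function.support (fun x => (1 - b j x) * φ x) ⊆ Function.support φ := by
          intro y hy h0
          apply hy
          show (1 - b j y) * φ y = 0
          rw [h0, mul_zero]
        have h1 : x ∈ tsupport φ := closure_mono h0 hx
        refine hgd x (hφt h1) ?_
        rintro rfl
        have h2 : (fun x => (1 - b j x) * φ x) =ᶠ[𝓝 (0 : E)] 0 := by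
          filter_upwards [hbnear j] with y hy
          rw [hy]
          simp
        exact (notMem_tsupport_iff_eventuallyEq.2 h2) hx)
    rw [e2]
    simp only [d1, sub_smul]
    rw [integral_sub i2 i3]
    abel
  -- the limits
  have limA : Tendsto (fun j => ∫ x, ((1 - b j x) * φ x) • fderiv ℝ g x v) atTop
      (𝓝 (∫ x, φ x • fderiv ℝ g x v)) := by
    refine tendsto_integral_of_dominated_convergence (fun x => ‖φ x • fderiv ℝ g x v‖)
      (fun j => ?_) ?_ (fun j => ?_) ?_
    · exact (int_smul (h := fun x => (1 - b j x) * φ x)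
        ((continuous_const.sub (hbs j).continuous).mul hφs.continuous) hK
        (fun x hx => by rw [hφ0 x hx]; simp) hg'K).aestronglyMeasurable
    · exact (int_smul hφs.continuous hK hφ0 hg'K).norm
    · refine Eventually.of_forall fun x => ?_
      rw [mul_smul, norm_smul, Real.norm_eq_abs]
      have h1 := hb01 j x
      have h2 : |1 - b j x| ≤ 1 := by
        rw [abs_le]
        constructor <;> linarith
      exact mul_le_of_le_one_left (norm_nonneg _) h2
    · filter_upwards [Measure.ae_ne volume (0 : E)] with x hx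
      have h1 : Tendsto (fun j => (1 - b j x) * φ x) atTop (𝓝 ((1 - 0) * φ x)) :=
        (tendsto_const_nhds.sub (hblim x hx)).mul_const _
      rw [sub_zero, one_mul] at h1
      exact h1.smul_const _
  have limB : Tendsto (fun j => ∫ x, ((1 - b j x) * fderiv ℝ φ x v) • g x) atTop
      (𝓝 (∫ x, (fderiv ℝ φ x v) • g x)) := by
    refine tendsto_integral_of_dominated_convergence (fun x => ‖(fderiv ℝ φ x v) • g x‖)
      (fun j => ?_) ?_ (fun j => ?_) ?_
    · exact (int_smul (h := fun x => (1 - b j x) * fderiv ℝ φ x v)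
        ((continuous_const.sub (hbs j).continuous).mul (hφ1s.continuous.clm_apply
        continuous_const)) hK (fun x hx => by rw [hDφ0 x hx]; simp) hgK).aestronglyMeasurable
    · exact (int_smul (h := fun x => fderiv ℝ φ x v)
        (hφ1s.continuous.clm_apply continuous_const) hK
        (fun x hx => by rw [hDφ0 x hx]; simp) hgK).norm
    · refine Eventually.of_forall fun x => ?_
      rw [mul_smul, norm_smul, Real.norm_eq_abs]
      have h1 := hb01 j x
      have h2 : |1 - b j x| ≤ 1 := by
        rw [abs_le]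
        constructor <;> linarith
      exact mul_le_of_le_one_left (norm_nonneg _) h2
    · filter_upwards [Measure.ae_ne volume (0 : E)] with x hx
      have h1 : Tendsto (fun j => (1 - b j x) * fderiv ℝ φ x v) atTop
          (𝓝 ((1 - 0) * fderiv ℝ φ x v)) :=
        (tendsto_const_nhds.sub (hblim x hx)).mul_const _
      rw [sub_zero, one_mul] at h1
      exact h1.smul_const _
  have limC : Tendsto (fun j => ∫ x, (φ x * fderiv ℝ (b j) x v) • g x) atTop (𝓝 0) := by
    obtain ⟨C3, hC3⟩ : ∃ C3 : ℝ, C3 = C2 * (C1 * ‖v‖) * (|M| * ‖w‖) := ⟨_, rfl⟩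
    have hC30 : 0 ≤ C3 := by rw [hC3]; positivity
    have hle : ∀ j, ‖∫ x, (φ x * fderiv ℝ (b j) x v) • g x‖ ≤
        C3 * (2 ^ finrank ℝ E * volume.real (ball (0 : E) 1)) * (e j)⁻¹ := by
      intro j
      have hej := he1 j
      have h0 : 0 < e j := by linarith
      rw [← setIntegral_eq_integral_of_forall_compl_eq_zero (s := closedBall (0 : E) (2 / e j))
        (fun x hx => by rw [hb'0 j x hx]; simp)]
      have h1 := norm_setIntegral_le_of_norm_le_const (μ := volume)
        (s := closedBall (0 : E) (2 / e j)) (f := fun x => (φ x * fderiv ℝ (b j) x v) • g x)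
        (C := C3 * e j) measure_closedBall_lt_top (fun x _ => by
          rw [norm_smul, norm_mul]
          by_cases hx : x ∈ K
          · have h2 : ‖fderiv ℝ (b j) x v‖ ≤ e j * (C1 * ‖v‖) := by
              rw [hb', norm_mul, Real.norm_eq_abs, abs_of_pos h0]
              exact mul_le_mul_of_nonneg_left (((fderiv ℝ (β : E → ℝ) (e j • x)).le_opNorm v).trans
                (mul_le_mul_of_nonneg_right (hC1 _) (norm_nonneg _))) h0.le
            have h3 : ‖g x‖ ≤ |M| * ‖w‖ := (hgb x (hKb hx)).trans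
              (mul_le_mul_of_nonneg_right (le_abs_self M) (norm_nonneg _))
            calc ‖φ x‖ * ‖fderiv ℝ (b j) x v‖ * ‖g x‖ ≤ C2 * (e j * (C1 * ‖v‖)) * (|M| * ‖w‖) :=
                  mul_le_mul (mul_le_mul (hC2 x) h2 (norm_nonneg _) hC20) h3 (norm_nonneg _)
                    (by positivity)
              _ = C3 * e j := by rw [hC3]; ring
          · rw [hφ0 x hx, norm_zero, zero_mul, zero_mul]
            positivity)
      refine h1.trans ?_
      rw [vol_ball 0 (by positivity)]
      have h4 : (2 / e j) ^ finrank ℝ E ≤ 2 ^ finrank ℝ E * ((e j)⁻¹ * (e j)⁻¹) := by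
        rw [div_pow, div_eq_mul_inv]
        refine mul_le_mul_of_nonneg_left ?_ (by positivity)
        rw [← inv_pow, ← sq]
        exact pow_le_pow_of_le_one (by positivity) (inv_le_one_of_one_le₀ hej) hn
      have hV : 0 ≤ volume.real (ball (0 : E) 1) := measureReal_nonneg
      calc C3 * e j * ((2 / e j) ^ finrank ℝ E * volume.real (ball (0 : E) 1))
          ≤ C3 * e j * ((2 ^ finrank ℝ E * ((e j)⁻¹ * (e j)⁻¹)) * volume.real (ball (0 : E) 1)) :=
            mul_le_mul_of_nonneg_left (mul_le_mul_of_nonneg_right h4 hV) (by positivity)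
        _ = C3 * (2 ^ finrank ℝ E * volume.real (ball (0 : E) 1)) * (e j)⁻¹ := by
            field_simp
    refine squeeze_zero_norm hle ?_
    have h5 := (tendsto_inv_atTop_zero.comp hetop).const_mul
      (C3 * (2 ^ finrank ℝ E * volume.real (ball (0 : E) 1)))
    rw [mul_zero] at h5
    exact h5
  have hlim := limB.neg.add limC
  rw [add_zero] at hlim
  have heq : ∫ x, φ x • fderiv ℝ g x v = -∫ x, (fderiv ℝ φ x v) • g x := by
    refine tendsto_nhds_unique limA (hlim.congr fun j => ?_)
    rw [step2 j]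
  rw [step1, ← heq]
  refine integral_congr_ae ?_
  filter_upwards [Measure.ae_ne volume (0 : E)] with x hx
  by_cases hxK : x ∈ K
  · rw [hg' x (hKb hxK) hx]
  · rw [hφ0 x hxK, zero_smul, zero_smul]

end Pool.Agent.H816.Sob
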