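import Pool.Agent.H816.Sob6
import Pool.Agent.H816.Rig

/-!
# Maps with second derivatives of the size `log (1/r) / r`
-/

set_option autoImplicit false
set_option linter.unusedSectionVars false

open Set Filter Topology Metric MeasureTheory Module
open scoped ContDiff ENNReal

noncomputable section

namespace Pool.Agent.H816.Sob

variable {E : Type*} [NormedAddCommGroup E] [InnerProductSpace ℝ E] [FiniteDimensional ℝ E]
  [MeasurableSpace E] [BorelSpace E]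
variable {F : Type*} [NormedAddCommGroup F] [NormedSpace ℝ F] [FiniteDimensional ℝ F]

theorem measurable_lg : Measurable lg :=
  measurable_id.mul (Real.measurable_log.neg.inv)

/-- **Sobolev class from pointwise bounds.** -/
theorem w2_of_bd {G : E → F} (hn : 2 ≤ finrank ℝ E) (h0 : DifferentiableAt ℝ G 0)
    (hs : ∀ᶠ x in 𝓝[≠] (0 : E), ContDiffAt ℝ 2 G x) {C1 C2 : ℝ}
    (h1 : ∀ᶠ x in 𝓝[≠] (0 : E), ‖fderiv ℝ G x‖ ≤ C1)
    (h2 : ∀ᶠ x in 𝓝[≠] (0 : E), ‖iteratedFDeriv ℝ 2 G x‖ * lg ‖x‖ ≤ C2)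
    {q : ℝ≥0∞} (hq : q < finrank ℝ E) : W2 q G := by
  borelize F
  obtain ⟨R, hR, hall⟩ := exists_punctured (hs.and (h1.and h2))
  obtain ⟨ρ, hρ, hρR, hρ3⟩ : ∃ ρ : ℝ, 0 < ρ ∧ ρ ≤ R ∧ ρ ≤ 1 / 3 :=
    ⟨min R (1 / 3), lt_min hR (by norm_num), min_le_left _ _, min_le_right _ _⟩
  have hb : ∀ x ∈ ball (0 : E) ρ, x ≠ 0 → ContDiffAt ℝ 2 G x ∧ ‖fderiv ℝ G x‖ ≤ C1 ∧
      ‖iteratedFDeriv ℝ 2 G x‖ * lg ‖x‖ ≤ C2 := fun x hx hx0 =>
    hall x hx0 ((mem_ball_zero_iff.1 hx).trans_le hρR)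
  have hlgpos : ∀ x ∈ ball (0 : E) ρ, x ≠ 0 → 0 < lg ‖x‖ := fun x hx hx0 =>
    lg_pos (norm_pos_iff.2 hx0) ((mem_ball_zero_iff.1 hx).trans_le hρ3)
  have hd2 : ∀ x ∈ ball (0 : E) ρ, x ≠ 0 → DifferentiableAt ℝ (fderiv ℝ G) x :=
    fun x hx hx0 => diff_fderiv (hb x hx hx0).1
  refine ⟨ρ, fderiv ℝ (fderiv ℝ G), hρ, fun v w => ?_, ?_⟩
  · -- integrability
    have hm : AEStronglyMeasurable (fun x => fderiv ℝ (fun y => fderiv ℝ G y w) x v) volume :=
      (measurable_fderiv_apply_const ℝ (fun y => fderiv ℝ G y w) v).aestronglyMeasurable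
    have h3 : MemLp (fun x => fderiv ℝ (fun y => fderiv ℝ G y w) x v) q
        (volume.restrict (ball 0 ρ)) := by
      refine inv_lg_memLp (C := C2 * ‖v‖ * ‖w‖) (by omega) hρ hρ3 hm (fun x hx0 hx => ?_) hq
      have hx' : x ∈ ball (0 : E) ρ := mem_ball_zero_iff.2 hx
      rw [dir_dir (hd2 x hx' hx0) v w]
      have h4 := (hb x hx' hx0).2.2
      rw [norm_iter_two] at h4
      have h5 : 0 < lg ‖x‖ := hlgpos x hx' hx0
      calc ‖fderiv ℝ (fderiv ℝ G) x v w‖ * lg ‖x‖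
          ≤ (‖fderiv ℝ (fderiv ℝ G) x‖ * ‖v‖ * ‖w‖) * lg ‖x‖ :=
            mul_le_mul_of_nonneg_right ((fderiv ℝ (fderiv ℝ G) x).le_opNorm₂ v w) h5.le
        _ = ‖fderiv ℝ (fderiv ℝ G) x‖ * lg ‖x‖ * ‖v‖ * ‖w‖ := by ring
        _ ≤ C2 * ‖v‖ * ‖w‖ := mul_le_mul_of_nonneg_right
            (mul_le_mul_of_nonneg_right h4 (norm_nonneg _)) (norm_nonneg _)
    refine (memLp_congr_ae ?_).1 h3
    have hnt : Nontrivial E := Module.nontrivial_of_finrank_pos (R := ℝ) (by omega)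
    filter_upwards [ae_restrict_mem measurableSet_ball,
      ae_restrict_of_ae (Measure.ae_ne volume (0 : E))] with x hx hx0
    exact dir_dir (hd2 x hx hx0) v w
  · -- weak derivative
    refine weak_of_smooth_off (M := max C1 ‖fderiv ℝ G 0‖) (k := fun x => C2 * (lg ‖x‖)⁻¹) hn
      (fun x hx => ?_) (fun x hx => ?_) hd2 (fun x hx hx0 => ?_) ?_
    · rcases eq_or_ne x 0 with h | h
      · rw [h]
        exact h0
      · exact (hb x hx h).1.differentiableAt (by norm_num)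
    · rcases eq_or_ne x 0 with h | h
      · rw [h]
        exact le_max_right _ _
      · exact (hb x hx h).2.1.trans (le_max_left _ _)
    · have h4 := (hb x hx hx0).2.2
      rw [norm_iter_two] at h4
      have h5 : 0 < lg ‖x‖ := hlgpos x hx hx0
      rw [← div_eq_mul_inv, le_div_iff₀ h5]
      exact h4
    · have h3 : MemLp (fun x : E => (lg ‖x‖)⁻¹) 1 (volume.restrict (ball 0 ρ)) := by
        refine inv_lg_memLp (C := 1) (by omega) hρ hρ3
          ((measurable_lg.comp measurable_norm).inv.aestronglyMeasurable) (fun x hx0 hx => ?_) ?_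
        · have h5 : 0 < lg ‖x‖ := hlgpos x (mem_ball_zero_iff.2 hx) hx0
          show ‖(lg ‖x‖)⁻¹‖ * lg ‖x‖ ≤ 1
          rw [Real.norm_eq_abs, abs_of_pos (inv_pos.2 h5), inv_mul_cancel₀ h5.ne']
        · have : (1 : ℝ≥0∞) < (2 : ℕ) := by norm_num
          exact this.trans_le (by exact_mod_cast hn)
      exact (memLp_one_iff_integrable.1 h3).const_mul C2

/-- the version for the derivatives `D^(k+1)` -/
theorem w2_of_bigO {G : E → E} (hn : 2 ≤ finrank ℝ E) (h0 : DifferentiableAt ℝ G 0)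
    (hs : ∀ᶠ x in 𝓝[≠] (0 : E), ContDiffAt ℝ 2 G x)
    (hbd : ∀ k : ℕ, ∃ K : ℝ, ∀ᶠ x in 𝓝[≠] (0 : E),
      ‖iteratedFDeriv ℝ (k + 1) G x‖ * lg ‖x‖ ^ k ≤ K)
    {q : ℝ≥0∞} (hq : q < finrank ℝ E) : W2 q G := by
  obtain ⟨C1, h1⟩ := hbd 0
  obtain ⟨C2, h2⟩ := hbd 1
  refine w2_of_bd hn h0 hs (C1 := C1) (C2 := C2) ?_ ?_ hq
  · filter_upwards [h1] with x hx
    rwa [zero_add, pow_zero, mul_one, norm_iteratedFDeriv_one] at hx
  · filter_upwards [h2] with x hx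
    rwa [pow_one] at hx

end Pool.Agent.H816.Sob
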