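import Pool.Agent.H816.Mod
import Pool.Agent.H816.Gauge

/-!
# Bounds of all derivatives of horn maps
-/

set_option autoImplicit false

open Set Filter Topology Metric Function MeasureTheory
open scoped Manifold ContDiff NNReal

noncomputable section

namespace Pool.Agent.H816

open Pool.Agent.Y522 Pool.Agent.Y784.SH

section one

variable {P : Prof}

theorem at_top_le (n : ℕ) : ((n : ℕ) : WithTop ℕ∞) ≤ ∞ := by exact_mod_cast le_top

theorem norm_iter_succ (f : ℝ → ℝ) (n : ℕ) (x : ℝ) :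
    ‖iteratedFDeriv ℝ (n + 1) f x‖ = ‖iteratedFDeriv ℝ n (deriv f) x‖ := by
  rw [norm_iteratedFDeriv_eq_norm_iteratedDeriv, norm_iteratedFDeriv_eq_norm_iteratedDeriv,
    iteratedDeriv_succ']

theorem norm_iter_ρ (P : Prof) (n : ℕ) (t : ℝ) :
    ‖iteratedFDeriv ℝ (n + 1) P.ρ t‖ = ‖iteratedFDeriv ℝ n P.M t‖ := by
  rw [norm_iter_succ]
  have : deriv P.ρ = P.M := funext fun t => (P.ρ_deriv t).deriv
  rw [this]

/-- a common bound for finitely many constants -/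
theorem exists_common {p : ℕ → ℝ → Prop} (hp : ∀ k a b, a ≤ b → p k a → p k b) (n : ℕ)
    (h : ∀ k < n, ∃ C, p k C) : ∃ C : ℝ, 1 ≤ C ∧ ∀ k < n, p k C := by
  induction n with
  | zero => exact ⟨1, le_rfl, fun k hk => absurd hk (Nat.not_lt_zero k)⟩
  | succ n ih =>
    obtain ⟨C, hC1, hC⟩ := ih fun k hk => h k (by omega)
    obtain ⟨D, hD⟩ := h n (by omega)
    refine ⟨max C D, hC1.trans (le_max_left _ _), fun k hk => ?_⟩
    rcases Nat.lt_succ_iff_lt_or_eq.1 hk with h1 | h1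
    · exact hp _ _ _ (le_max_left _ _) (hC k h1)
    · subst h1
      exact hp _ _ _ (le_max_right _ _) hD

theorem φ_reg_common (hP : P.Reg) (n : ℕ) : ∃ K : ℝ, 1 ≤ K ∧ ∀ i, 1 ≤ i → i ≤ n → ∀ x, |x| < P.c →
    ‖iteratedFDeriv ℝ i P.φ x‖ ≤ K * P.φ x * (P.φ x)⁻¹ ^ i := by
  obtain ⟨K, hK1, hK⟩ := exists_common
    (p := fun k C => ∀ x, |x| < P.c → ‖iteratedFDeriv ℝ (k + 1) P.φ x‖ * P.φ x ^ k ≤ C)
    (fun k a b hab h x hx => (h x hx).trans hab) n (fun k _ => by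
      obtain ⟨C, -, hC⟩ := hP k
      exact ⟨C, hC⟩)
  refine ⟨K, hK1, fun i hi hin x hx => ?_⟩
  obtain ⟨k, rfl⟩ : ∃ k, i = k + 1 := ⟨i - 1, by omega⟩
  have h1 := hK k (by omega) x hx
  have h2 := P.φ_pos x hx
  have h3 : P.φ x * (P.φ x)⁻¹ ^ (k + 1) = (P.φ x ^ k)⁻¹ := by
    rw [pow_succ, inv_pow]
    field_simp
  rw [mul_assoc, h3, ← div_eq_mul_inv, le_div_iff₀ (pow_pos h2 k)]
  exact h1

/-- derivatives of the scale -/
theorem M_bd (hP : P.Reg) (n : ℕ) : ∃ C : ℝ, ∀ t, ‖iteratedFDeriv ℝ n P.M t‖ ≤ C * P.M t := by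
  induction n using Nat.strong_induction_on with
  | _ n ih =>
    rcases Nat.eq_zero_or_pos n with hn | hn
    · subst hn
      refine ⟨1, fun t => ?_⟩
      rw [norm_iteratedFDeriv_zero, Real.norm_of_nonneg (P.M_pos t).le, one_mul]
    · obtain ⟨D, hD1, hD⟩ := exists_common
        (p := fun k C => ∀ t, ‖iteratedFDeriv ℝ k P.M t‖ ≤ C * P.M t)
        (fun k a b hab h t => (h t).trans (mul_le_mul_of_nonneg_right hab (P.M_pos t).le)) n ih
      obtain ⟨K, hK1, hK⟩ := φ_reg_common hP n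
      refine ⟨nP n * (K * D ^ n), fun t => ?_⟩
      have hM := P.M_pos t
      have h1 := comp_bd (g := P.φ) (f := P.ρ) (x := t) (n := n) hn
        ((P.φ_smooth _ (P.ρ_lt t)).of_le (at_top_le n)) (P.ρ_smooth.contDiffAt.of_le (at_top_le n))
        (C := K * P.M t) (D := D) (l := P.M t) hM (by positivity)
        (fun i h1 h2 => hK i h1 h2 _ (P.ρ_lt t)) (by
          intro i hi hin
          obtain ⟨k, rfl⟩ : ∃ k, i = k + 1 := ⟨i - 1, by omega⟩
          rw [norm_iter_ρ]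
          refine (hD k (by omega) t).trans ?_
          rw [mul_comm]
          exact mul_le_mul_of_nonneg_left (le_self_pow₀ hD1 (by omega)) hM.le)
      refine h1.trans (le_of_eq ?_)
      ring

theorem ρ_bd (hP : P.Reg) (n : ℕ) : ∃ C : ℝ, ∀ t,
    ‖iteratedFDeriv ℝ (n + 1) P.ρ t‖ ≤ C * P.M t := by
  obtain ⟨C, hC⟩ := M_bd hP n
  exact ⟨C, fun t => by rw [norm_iter_ρ]; exact hC t⟩

theorem inv_iter {y : ℝ} (hy : 0 < y) (i : ℕ) :
    ‖iteratedFDeriv ℝ i (fun x : ℝ => x⁻¹) y‖ = i.factorial * y⁻¹ * y⁻¹ ^ i := by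
  rw [norm_iteratedFDeriv_eq_norm_iteratedDeriv, iteratedDeriv_eq_iterate]
  have h1 : (deriv^[i] fun x : ℝ => x⁻¹) y = (-1) ^ i * i.factorial * y ^ (-1 - (i : ℤ)) :=
    iter_deriv_inv i y
  rw [h1, norm_mul, norm_mul, norm_pow, norm_neg, norm_one, one_pow, one_mul,
    Real.norm_of_nonneg (by positivity), Real.norm_of_nonneg (by positivity), mul_assoc]
  congr 1
  rw [zpow_sub₀ hy.ne', zpow_neg_one, zpow_natCast, inv_pow, div_eq_mul_inv]

/-- derivatives of `1 / φ` -/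
theorem inv_bd (hP : P.Reg) (n : ℕ) : ∃ C : ℝ, ∀ x, |x| < P.c →
    ‖iteratedFDeriv ℝ n (fun y => (P.φ y)⁻¹) x‖ ≤ C * (P.φ x)⁻¹ ^ (n + 1) := by
  rcases Nat.eq_zero_or_pos n with hn | hn
  · subst hn
    refine ⟨1, fun x hx => ?_⟩
    have := P.φ_pos x hx
    rw [norm_iteratedFDeriv_zero, Real.norm_of_nonneg (by positivity), one_mul, zero_add, pow_one]
  · obtain ⟨K, hK1, hK⟩ := φ_reg_common hP n
    refine ⟨nP n * (n.factorial * K ^ n), fun x hx => ?_⟩
    have hφ := P.φ_pos x hx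
    have hφ' : 0 < (P.φ x)⁻¹ := inv_pos.2 hφ
    have h1 := comp_bd (g := fun y : ℝ => y⁻¹) (f := P.φ) (x := x) (n := n) hn
      (contDiffAt_inv ℝ hφ.ne') ((P.φ_smooth _ hx).of_le (at_top_le n))
      (C := n.factorial * (P.φ x)⁻¹) (D := K * (P.φ x)⁻¹) (l := P.φ x) hφ (by positivity)
      (fun i h1 h2 => by
        rw [inv_iter hφ]
        have : (i.factorial : ℝ) ≤ n.factorial := by exact_mod_cast Nat.factorial_le h2
        gcongr) (by
        intro i hi hin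
        refine (hK i hi hin x hx).trans ?_
        rw [mul_pow, mul_comm K, mul_assoc]
        have : K ≤ K ^ i := le_self_pow₀ hK1 (by omega)
        gcongr)
    refine h1.trans (le_of_eq ?_)
    rw [mul_pow, pow_succ]
    ring

theorem τ_bd (hP : P.Reg) (n : ℕ) : ∃ C : ℝ, ∀ x, |x| < P.c →
    ‖iteratedFDeriv ℝ (n + 1) P.τ x‖ ≤ C * (P.φ x)⁻¹ ^ (n + 1) := by
  obtain ⟨C, hC⟩ := inv_bd hP n
  refine ⟨C, fun x hx => ?_⟩
  rw [norm_iter_succ]
  have h1 : deriv P.τ =ᶠ[𝓝 x] fun y => (P.φ y)⁻¹ := by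
    filter_upwards [(isOpen_abs_lt P.c).mem_nhds hx] with y hy
    exact (P.τ_deriv y hy).deriv
  rw [(h1.iteratedFDeriv (𝕜 := ℝ) n).self_of_nhds]
  exact hC x hx

end one

section warp

variable {m : ℕ}

theorem e0_norm : ‖(e0 : E (m + 1))‖ ≤ 1 := by
  have h1 := norm_cn_sq 1 (0 : E m)
  rw [norm_zero] at h1
  have h2 : ‖(e0 : E (m + 1))‖ ^ 2 ≤ 1 ^ 2 := by
    show ‖(cn 1 0 : E (m + 1))‖ ^ 2 ≤ _
    rw [h1]
    norm_num
  exact le_of_sq_le_sq h2 zero_le_one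

theorem inc_norm : ‖(inc : E m →L[ℝ] E (m + 1))‖ ≤ 1 := by
  refine ContinuousLinearMap.opNorm_le_bound _ zero_le_one fun x => ?_
  rw [one_mul, inc_apply]
  have h1 := norm_cn_sq 0 x
  refine le_of_sq_le_sq ?_ (norm_nonneg _)
  rw [h1]
  norm_num

theorem tl_norm : ‖(tl : E (m + 1) →L[ℝ] E m)‖ ≤ 1 := by
  refine ContinuousLinearMap.opNorm_le_bound _ zero_le_one fun x => ?_
  rw [one_mul]
  exact norm_tl_le x

/-- the first coordinate -/
def hd : E (m + 1) →L[ℝ] ℝ := EuclideanSpace.proj (𝕜 := ℝ) (0 : Fin (m + 1))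

theorem hd_apply (x : E (m + 1)) : hd x = x 0 := rfl

theorem hd_norm : ‖(hd : E (m + 1) →L[ℝ] ℝ)‖ ≤ 1 := by
  refine ContinuousLinearMap.opNorm_le_bound _ zero_le_one fun x => ?_
  rw [one_mul, Real.norm_eq_abs]
  exact abs_head_le x

theorem warp_bd {f g : ℝ → ℝ} {u : E (m + 1)} {n : ℕ}
    (hf : ContDiffAt ℝ (n + 1 : ℕ) f (u 0)) (hg : ContDiffAt ℝ (n + 1 : ℕ) g (u 0)) :
    ‖iteratedFDeriv ℝ (n + 1) (fun z : E (m + 1) => cn (f (z 0)) (g (z 0) • tl z)) u‖ ≤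
      ‖iteratedFDeriv ℝ (n + 1) f (u 0)‖ +
      (‖iteratedFDeriv ℝ (n + 1) g (u 0)‖ * ‖tl u‖ + (n + 1) * ‖iteratedFDeriv ℝ n g (u 0)‖) := by
  have hf' : ContDiffAt ℝ (n + 1 : ℕ) (fun z : E (m + 1) => f (hd z)) u :=
    ContDiffAt.comp (g := f) (f := fun z : E (m + 1) => hd z) u hf hd.contDiff.contDiffAt
  have hg' : ContDiffAt ℝ (n + 1 : ℕ) (fun z : E (m + 1) => g (hd z)) u :=
    ContDiffAt.comp (g := g) (f := fun z : E (m + 1) => hd z) u hg hd.contDiff.contDiffAt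
  have hgt : ContDiffAt ℝ (n + 1 : ℕ) (fun z : E (m + 1) => g (hd z) • tl z) u :=
    hg'.smul tl.contDiff.contDiffAt
  set A : ℝ →L[ℝ] E (m + 1) := (ContinuousLinearMap.id ℝ ℝ).smulRight e0 with hA
  have hAn : ‖A‖ ≤ 1 := by
    refine ContinuousLinearMap.opNorm_le_bound _ zero_le_one fun x => ?_
    rw [one_mul, hA, ContinuousLinearMap.smulRight_apply, norm_smul]
    exact mul_le_of_le_one_right (norm_nonneg _) e0_norm
  have e1 : (fun z : E (m + 1) => cn (f (z 0)) (g (z 0) • tl z)) =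
      (A ∘ fun z : E (m + 1) => f (hd z)) +
        ((inc : E m →L[ℝ] E (m + 1)) ∘ fun z : E (m + 1) => g (hd z) • tl z) := by
    funext z
    rw [cn_eq]
    rfl
  rw [e1, iteratedFDeriv_add_apply (A.contDiff.contDiffAt.comp u hf')
    ((inc : E m →L[ℝ] E (m + 1)).contDiff.contDiffAt.comp u hgt)]
  refine (norm_add_le _ _).trans (add_le_add ?_ ?_)
  · refine (A.norm_iteratedFDeriv_comp_left hf' le_rfl).trans ?_
    refine (mul_le_of_le_one_left (norm_nonneg _) hAn).trans ?_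
    exact comp_right_bd hd hd_norm hf
  · refine ((inc : E m →L[ℝ] E (m + 1)).norm_iteratedFDeriv_comp_left hgt le_rfl).trans ?_
    refine (mul_le_of_le_one_left (norm_nonneg _) inc_norm).trans ?_
    refine (smul_lin_bd tl tl_norm hg').trans ?_
    have h1 := comp_right_bd hd hd_norm hg (n := n + 1)
    have h2 := comp_right_bd (hd : E (m + 1) →L[ℝ] ℝ) hd_norm (n := n) (x := u)
      (hg.of_le (by exact_mod_cast Nat.le_succ n))
    gcongr
    · exact h1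
    · exact h2

variable {P : Prof}

theorem Xi_bd (hP : P.Reg) (n : ℕ) : ∃ C : ℝ, 0 ≤ C ∧ ∀ u : E (m + 1),
    ‖iteratedFDeriv ℝ (n + 1) (Xi P) u‖ ≤ C * P.M (u 0) * (1 + ‖tl u‖) := by
  obtain ⟨C1, hC1⟩ := ρ_bd hP n
  obtain ⟨C2, hC2⟩ := M_bd hP (n + 1)
  obtain ⟨C3, hC3⟩ := M_bd hP n
  refine ⟨max 0 (C1 + C2 + (n + 1) * C3 + 0) + |C2| + |C1| + (n + 1) * |C3|, by positivity,
    fun u => ?_⟩
  have hM := P.M_pos (u 0)
  have h1 := warp_bd (u := u) (n := n) (f := P.ρ) (g := P.M)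
    (P.ρ_smooth.contDiffAt.of_le (at_top_le _)) (P.M_smooth.contDiffAt.of_le (at_top_le _))
  refine h1.trans ?_
  have h2 := hC1 (u 0)
  have h3 := hC2 (u 0)
  have h4 := hC3 (u 0)
  have h5 : C1 * P.M (u 0) ≤ |C1| * P.M (u 0) := mul_le_mul_of_nonneg_right (le_abs_self _) hM.le
  have h6 : C2 * P.M (u 0) ≤ |C2| * P.M (u 0) := mul_le_mul_of_nonneg_right (le_abs_self _) hM.le
  have h7 : C3 * P.M (u 0) ≤ |C3| * P.M (u 0) := mul_le_mul_of_nonneg_right (le_abs_self _) hM.le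
  have h8 : 0 ≤ max 0 (C1 + C2 + (n + 1) * C3 + 0) := le_max_left _ _
  have ht := norm_nonneg (tl u)
  calc ‖iteratedFDeriv ℝ (n + 1) P.ρ (u 0)‖ + (‖iteratedFDeriv ℝ (n + 1) P.M (u 0)‖ * ‖tl u‖ +
        (n + 1) * ‖iteratedFDeriv ℝ n P.M (u 0)‖)
      ≤ |C1| * P.M (u 0) + (|C2| * P.M (u 0) * ‖tl u‖ + (n + 1) * (|C3| * P.M (u 0))) := by
        gcongr
        · exact h2.trans h5
        · exact h3.trans h6
        · exact h4.trans h7
    _ ≤ (|C2| + |C1| + (n + 1) * |C3|) * P.M (u 0) * (1 + ‖tl u‖) := by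
        have q1 : 0 ≤ |C1| * P.M (u 0) * ‖tl u‖ := by positivity
        have q2 : 0 ≤ |C2| * P.M (u 0) := by positivity
        have q3 : 0 ≤ (n + 1) * |C3| * P.M (u 0) * ‖tl u‖ := by positivity
        nlinarith
    _ ≤ _ := by
        have q1 : 0 ≤ P.M (u 0) * (1 + ‖tl u‖) := by positivity
        rw [mul_assoc, mul_assoc]
        refine mul_le_mul_of_nonneg_right ?_ q1
        linarith

theorem Th_bd (hP : P.Reg) (L : ℝ) (n : ℕ) : ∃ C : ℝ, 0 ≤ C ∧ ∀ v : E (m + 1), |v 0| < P.c →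
    ‖tl v‖ ≤ L * P.φ (v 0) →
    ‖iteratedFDeriv ℝ (n + 1) (Th P) v‖ ≤ C * (P.φ (v 0))⁻¹ ^ (n + 1) := by
  obtain ⟨C1, hC1⟩ := τ_bd hP n
  obtain ⟨C2, hC2⟩ := inv_bd hP (n + 1)
  obtain ⟨C3, hC3⟩ := inv_bd hP n
  refine ⟨|C1| + |C2| * |L| + (n + 1) * |C3|, by positivity, fun v hv htl => ?_⟩
  have hφ := P.φ_pos _ hv
  have hφ' : 0 < (P.φ (v 0))⁻¹ := inv_pos.2 hφ
  have h1 := warp_bd (u := v) (n := n) (f := P.τ) (g := fun y => (P.φ y)⁻¹)
    ((P.τ_smooth hv).of_le (at_top_le _))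
    (((P.φ_smooth _ hv).inv hφ.ne').of_le (at_top_le _))
  refine h1.trans ?_
  have h2 := hC1 (v 0) hv
  have h3 := hC2 (v 0) hv
  have h4 := hC3 (v 0) hv
  set a := (P.φ (v 0))⁻¹ with ha
  have h5 : C1 * a ^ (n + 1) ≤ |C1| * a ^ (n + 1) :=
    mul_le_mul_of_nonneg_right (le_abs_self _) (by positivity)
  have h6 : C2 * a ^ (n + 1 + 1) ≤ |C2| * a ^ (n + 1 + 1) :=
    mul_le_mul_of_nonneg_right (le_abs_self _) (by positivity)
  have h7 : C3 * a ^ (n + 1) ≤ |C3| * a ^ (n + 1) :=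
    mul_le_mul_of_nonneg_right (le_abs_self _) (by positivity)
  have h8 : ‖tl v‖ ≤ |L| * P.φ (v 0) :=
    htl.trans (mul_le_mul_of_nonneg_right (le_abs_self _) hφ.le)
  calc ‖iteratedFDeriv ℝ (n + 1) P.τ (v 0)‖ +
        (‖iteratedFDeriv ℝ (n + 1) (fun y => (P.φ y)⁻¹) (v 0)‖ * ‖tl v‖ +
        (n + 1) * ‖iteratedFDeriv ℝ n (fun y => (P.φ y)⁻¹) (v 0)‖)
      ≤ |C1| * a ^ (n + 1) + (|C2| * a ^ (n + 1 + 1) * (|L| * P.φ (v 0)) +
          (n + 1) * (|C3| * a ^ (n + 1))) := by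
        gcongr
        · exact h2.trans h5
        · exact h3.trans h6
        · exact h4.trans h7
    _ = _ := by
        have e1 : a * P.φ (v 0) = 1 := inv_mul_cancel₀ hφ.ne'
        have e2 : |C2| * a ^ (n + 1 + 1) * (|L| * P.φ (v 0)) =
            |C2| * |L| * a ^ (n + 1) * (a * P.φ (v 0)) := by ring
        rw [e2, e1]
        ring

end warp

section hm

variable {m : ℕ}

theorem iter_add_const {U V : Type*} [NormedAddCommGroup U] [NormedSpace ℝ U]
    [NormedAddCommGroup V] [NormedSpace ℝ V] {f : U → V} {x : U} {n : ℕ}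
    (hf : ContDiffAt ℝ (n + 1 : ℕ) f x) (a : V) :
    iteratedFDeriv ℝ (n + 1) (fun y => f y + a) x = iteratedFDeriv ℝ (n + 1) f x := by
  have h1 : (fun y => f y + a) = f + fun _ => a := rfl
  rw [h1, iteratedFDeriv_add_apply hf contDiffAt_const,
    iteratedFDeriv_const_of_ne (Nat.succ_ne_zero n)]
  simp

theorem iter_id (x : E (m + 1)) (n : ℕ) :
    ‖iteratedFDeriv ℝ (n + 1) (fun y : E (m + 1) => y) x‖ ≤ 1 := by
  have h1 := lin_bd_succ (ContinuousLinearMap.id ℝ (E (m + 1))) x n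
  refine h1.trans ?_
  split_ifs
  · exact ContinuousLinearMap.norm_id_le
  · exact zero_le_one

theorem iter_of_id {f : E (m + 1) → E (m + 1)} {x : E (m + 1)} (hf : f =ᶠ[𝓝 x] fun y => y)
    (n : ℕ) : ‖iteratedFDeriv ℝ (n + 1) f x‖ ≤ 1 := by
  rw [(hf.iteratedFDeriv (𝕜 := ℝ) (n + 1)).self_of_nhds]
  exact iter_id x n

theorem h_bd {h : E (m + 1) → E (m + 1)} {L C : ℝ} (hh : Cyl L C h)
    (hd : Dif (m + 1) h) (hp : Per h) (n : ℕ) :
    ∃ B : ℝ, 0 ≤ B ∧ ∀ u, ‖iteratedFDeriv ℝ (n + 1) h u‖ ≤ B := by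
  have hs : ContDiff ℝ ∞ h := contDiff_iff_contDiffAt.2 fun u => (hd.2 u).contDiffAt
  have hc : Continuous (iteratedFDeriv ℝ (n + 1) h) :=
    hs.continuous_iteratedFDeriv (at_top_le _)
  obtain ⟨B, hB⟩ := (isCompact_box (m := m) L Real.pi).exists_bound_of_continuousOn hc.continuousOn
  refine ⟨max B 1, zero_le_one.trans (le_max_right _ _), fun u => ?_⟩
  rcases lt_or_ge L ‖tl u‖ with hu | hu
  · have hev : h =ᶠ[𝓝 u] fun w => w := by
      have hTc : Continuous (fun w : E (m + 1) => ‖tl w‖) := tl.continuous.norm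
      filter_upwards [(isOpen_lt continuous_const hTc).mem_nhds hu] with w hw
      have hw' : L < ‖tl w‖ := hw
      exact hh.far _ hw'.le
    exact (iter_of_id hev n).trans (le_max_right _ _)
  · obtain ⟨k, hk⟩ := exists_shift (u 0)
    have h1 : iteratedFDeriv ℝ (n + 1) h u =
        iteratedFDeriv ℝ (n + 1) h (sh (k * (2 * Real.pi)) u) := by
      have h2 : (fun x => h (x + cn (k * (2 * Real.pi)) 0)) =
          fun x => h x + cn (k * (2 * Real.pi)) 0 := by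
        funext x
        rw [← sh_eq, ← sh_eq, hp]
      have h3 := iteratedFDeriv_comp_add_right (𝕜 := ℝ) (f := h) (n + 1)
        (cn ((k : ℝ) * (2 * Real.pi)) 0) u
      rw [h2, iter_add_const (hs.contDiffAt.of_le (at_top_le _))] at h3
      rw [h3, sh_eq]
    rw [h1]
    refine (hB _ ⟨?_, ?_⟩).trans (le_max_left _ _)
    · rw [tl_sh]; exact hu
    · rw [sh_zero]; exact hk

variable {P : Prof} {L C : ℝ} {h : E (m + 1) → E (m + 1)}

theorem h_smooth (hd : Dif (m + 1) h) : ContDiff ℝ ∞ h :=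
  contDiff_iff_contDiffAt.2 fun u => (hd.2 u).contDiffAt

/-- derivatives of `Xi ∘ h` -/
theorem Xh_bd (hP : P.Reg) (hh : Cyl L C h) (hd : Dif (m + 1) h) (hp : Per h) (n : ℕ) :
    ∃ B : ℝ, 0 ≤ B ∧ ∀ u, ‖tl u‖ ≤ L →
      ‖iteratedFDeriv ℝ (n + 1) (fun z => Xi P (h z)) u‖ ≤ B * P.M (u 0) := by
  have hL := hh.hL
  have hC := hh.hC
  obtain ⟨D, hD1, hD⟩ := exists_common
    (p := fun k B => ∀ u, ‖iteratedFDeriv ℝ (k + 1) h u‖ ≤ B)
    (fun k a b hab h x => (h x).trans hab) (n + 1) (fun k _ => by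
      obtain ⟨B, -, hB⟩ := h_bd hh hd hp k
      exact ⟨B, hB⟩)
  obtain ⟨K, hK1, hK⟩ := exists_common
    (p := fun k B => ∀ u : E (m + 1),
      ‖iteratedFDeriv ℝ (k + 1) (Xi P) u‖ ≤ B * P.M (u 0) * (1 + ‖tl u‖))
    (fun k a b hab h u => (h u).trans (by
      have := P.M_pos (u 0)
      gcongr)) (n + 1) (fun k _ => by
      obtain ⟨B, -, hB⟩ := Xi_bd (m := m) hP k
      exact ⟨B, hB⟩)
  set e : ℝ := Real.exp (P.A * C) with he
  have he0 : 0 ≤ e := (Real.exp_pos _).le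
  refine ⟨nP (n + 1) * (K * e * (1 + (L + C)) * D ^ (n + 1)), ?_, fun u hu => ?_⟩
  · have := nP_nonneg (n + 1)
    positivity
  have hM := P.M_pos (u 0)
  set s := h u with hs
  have hdsp : ‖s - u‖ ≤ C := hh.disp u
  have hd0 : |s 0 - u 0| ≤ C := by
    have h1 := abs_head_le (s - u)
    have h2 : (s - u) 0 = s 0 - u 0 := rfl
    rw [h2] at h1
    exact h1.trans hdsp
  have hdt : ‖tl s‖ ≤ L + C := by
    have h1 := norm_tl_le (s - u)
    rw [map_sub] at h1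
    have h2 : ‖tl s‖ ≤ ‖tl u‖ + ‖tl s - tl u‖ := norm_le_insert' _ _
    linarith
  have hexp : Real.exp (P.A * |s 0 - u 0|) ≤ e :=
    Real.exp_le_exp.2 (mul_le_mul_of_nonneg_left hd0 P.hA)
  have hMs : P.M (s 0) ≤ e * P.M (u 0) :=
    (P.M_le _ _).trans (mul_le_mul_of_nonneg_right hexp (P.M_pos _).le)
  have h1 := comp_bd (g := Xi P) (f := h) (x := u) (n := n + 1) (by omega)
    ((Xi_smooth P).contDiffAt.of_le (at_top_le _)) ((h_smooth hd).contDiffAt.of_le (at_top_le _))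
    (C := K * (e * P.M (u 0)) * (1 + (L + C))) (D := D) (l := 1) one_pos (by positivity) (by
      intro i hi hin
      obtain ⟨k, rfl⟩ : ∃ k, i = k + 1 := ⟨i - 1, by omega⟩
      rw [inv_one, one_pow, mul_one]
      refine (hK k (by omega) s).trans ?_
      gcongr) (by
      intro i hi hin
      obtain ⟨k, rfl⟩ : ∃ k, i = k + 1 := ⟨i - 1, by omega⟩
      rw [one_mul]
      exact (hD k (by omega) u).trans (le_self_pow₀ hD1 (by omega)))
  refine h1.trans (le_of_eq ?_)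
  ring

/-- all derivatives of the horn map in the strip -/
theorem Hm_bd (hP : P.Reg) (hh : Cyl L C h) (hd : Dif (m + 1) h) (hp : Per h) (n : ℕ) :
    ∃ B : ℝ, 0 ≤ B ∧ ∀ v, |v 0| < P.c →
      ‖iteratedFDeriv ℝ (n + 1) (Hm P h) v‖ * P.φ (v 0) ^ n ≤ B := by
  have hL := hh.hL
  obtain ⟨D, hD1, hD⟩ := exists_common
    (p := fun k B => ∀ v : E (m + 1), |v 0| < P.c → ‖tl v‖ ≤ L * P.φ (v 0) →
      ‖iteratedFDeriv ℝ (k + 1) (Th P) v‖ ≤ B * (P.φ (v 0))⁻¹ ^ (k + 1))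
    (fun k a b hab h v h1 h2 => (h v h1 h2).trans (by
      have := inv_pos.2 (P.φ_pos _ h1)
      gcongr)) (n + 1) (fun k _ => by
      obtain ⟨B, -, hB⟩ := Th_bd (m := m) hP L k
      exact ⟨B, hB⟩)
  obtain ⟨K, hK1, hK⟩ := exists_common
    (p := fun k B => ∀ u : E (m + 1), ‖tl u‖ ≤ L →
      ‖iteratedFDeriv ℝ (k + 1) (fun z => Xi P (h z)) u‖ ≤ B * P.M (u 0))
    (fun k a b hab h u h1 => (h u h1).trans (by
      have := P.M_pos (u 0)
      gcongr)) (n + 1) (fun k _ => by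
      obtain ⟨B, -, hB⟩ := Xh_bd hP hh hd hp k
      exact ⟨B, hB⟩)
  refine ⟨1 + nP (n + 1) * (K * D ^ (n + 1)), by
    have := nP_nonneg (n + 1)
    positivity, fun v hv => ?_⟩
  have hφ := P.φ_pos _ hv
  have hφ1 := P.φ_le (v 0)
  have hnP := nP_nonneg (n + 1)
  rcases lt_or_ge (L * P.φ (v 0)) ‖tl v‖ with hlt | hle
  · have hev : Hm P h =ᶠ[𝓝 v] fun w => w := by
      have hcont : Continuous (fun w : E (m + 1) => L * P.φ (w 0) - ‖tl w‖) :=
        (continuous_const.mul (P.φ_cont.comp continuous_head)).sub tl.continuous.norm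
      have hneg : L * P.φ (v 0) - ‖tl v‖ < 0 := by linarith
      filter_upwards [(hcont.continuousAt (x := v)).eventually_lt continuousAt_const hneg] with w hw
      exact Hm_far' hh (by linarith)
    have h1 := iter_of_id hev n
    calc ‖iteratedFDeriv ℝ (n + 1) (Hm P h) v‖ * P.φ (v 0) ^ n ≤ 1 * 1 :=
          mul_le_mul h1 (pow_le_one₀ hφ.le hφ1) (by positivity) zero_le_one
      _ ≤ _ := by
          have : 0 ≤ nP (n + 1) * (K * D ^ (n + 1)) := by positivity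
          linarith
  · set a := P.φ (v 0) with ha
    set u := Th P v with hu
    have htl : ‖tl u‖ ≤ L := by
      rw [hu]
      unfold Th
      rw [tl_cn, norm_smul, norm_inv, Real.norm_of_nonneg hφ.le, ← div_eq_inv_mul,
        div_le_iff₀ hφ]
      exact hle
    have hM : P.M (u 0) = a := by
      unfold Prof.M
      rw [hu]
      unfold Th
      rw [cn_zero, P.ρτ _ hv]
    have hev : Hm P h =ᶠ[𝓝 v] fun w => Xi P (h (Th P w)) := by
      filter_upwards [(isOpen_strip P).mem_nhds hv] with w hw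
      exact Hm_of_lt P hw
    rw [(hev.iteratedFDeriv (𝕜 := ℝ) (n + 1)).self_of_nhds]
    have h1 := comp_bd (g := fun z => Xi P (h z)) (f := Th P) (x := v) (n := n + 1) (by omega)
      (((Xi_smooth P).comp (h_smooth hd)).contDiffAt.of_le (at_top_le _))
      ((Th_smooth P hv).of_le (at_top_le _))
      (C := K * a) (D := D * a⁻¹) (l := 1) one_pos (by positivity) (by
        intro i hi hin
        obtain ⟨k, rfl⟩ : ∃ k, i = k + 1 := ⟨i - 1, by omega⟩
        rw [inv_one, one_pow, mul_one]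
        have := hK k (by omega) u htl
        rwa [hM] at this) (by
        intro i hi hin
        obtain ⟨k, rfl⟩ : ∃ k, i = k + 1 := ⟨i - 1, by omega⟩
        rw [one_mul, mul_pow]
        refine (hD k (by omega) v hv hle).trans ?_
        have h2 : D ≤ D ^ (k + 1) := le_self_pow₀ hD1 (by omega)
        have h3 : 0 < a⁻¹ := inv_pos.2 hφ
        gcongr)
    calc ‖iteratedFDeriv ℝ (n + 1) (fun w => Xi P (h (Th P w))) v‖ * a ^ n
        ≤ (nP (n + 1) * (K * a * (D * a⁻¹) ^ (n + 1))) * a ^ n :=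
          mul_le_mul_of_nonneg_right h1 (by positivity)
      _ = nP (n + 1) * (K * D ^ (n + 1)) := by
          rw [mul_pow, inv_pow, pow_succ a]
          field_simp
      _ ≤ _ := by linarith

end hm

end Pool.Agent.H816
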