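import Pool.Agent.H816.Sym

/-!
# Horn maps near the tips
-/

set_option autoImplicit false

open Set Filter Topology Metric Function MeasureTheory
open scoped Manifold ContDiff NNReal

noncomputable section

namespace Pool.Agent.H816

open Pool.Agent.Y522 Pool.Agent.Y784.SH

variable {m : ℕ} {P : Prof} {L C : ℝ} {h : E (m + 1) → E (m + 1)} {η : ℝ → ℝ} {κ k : ℝ}

theorem Hm_ev_far (hh : Cyl L C h) {v : E (m + 1)} (hv : L * P.φ (v 0) < ‖tl v‖) :
    Hm P h =ᶠ[𝓝 v] fun w => w := by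
  have hcont : Continuous (fun w : E (m + 1) => L * P.φ (w 0) - ‖tl w‖) :=
    (continuous_const.mul (P.φ_cont.comp continuous_head)).sub tl.continuous.norm
  have hneg : L * P.φ (v 0) - ‖tl v‖ < 0 := by linarith
  filter_upwards [(hcont.continuousAt (x := v)).eventually_lt continuousAt_const hneg] with w hw
  exact Hm_far' hh (by linarith)

theorem Hm_ev_out {v : E (m + 1)} (hv : P.c < |v 0|) : Hm P h =ᶠ[𝓝 v] fun w => w := by
  have : IsOpen {w : E (m + 1) | P.c < |w 0|} :=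
    isOpen_lt continuous_const (continuous_abs.comp continuous_head)
  filter_upwards [this.mem_nhds hv] with w hw
  have hw' : P.c < |w 0| := hw
  exact Hm_of_ge P hw'.le

/-- the geometry near a tip -/
theorem tip_geom {s : ℝ} (hs : |s| = P.c) {x : E (m + 1)} (hx : ‖x‖ < P.c) :
    P.c - |(x + cn s 0 : E (m + 1)) 0| ≤ ‖x‖ ∧
      (|(x + cn s 0 : E (m + 1)) 0| ≤ P.c → P.c - |(x + cn s 0 : E (m + 1)) 0| = |x 0|) := by
  have e1 : (x + cn s 0 : E (m + 1)) 0 = x 0 + s := by simp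
  have h0 := abs_head_le x
  rw [e1]
  have h1 : P.c - |x 0 + s| ≤ |x 0| := by
    have h2 := abs_sub_abs_le_abs_sub s (x 0 + s)
    rw [hs, show s - (x 0 + s) = -x 0 by ring, abs_neg] at h2
    exact h2
  refine ⟨h1.trans h0, fun h2 => ?_⟩
  have h3 : |x 0| < P.c := h0.trans_lt hx
  rw [abs_lt] at h3
  rcases abs_cases s with ⟨h4, h5⟩ | ⟨h4, h5⟩
  · rw [h4] at hs
    rw [hs] at h2 ⊢
    rw [abs_of_nonneg (by linarith : 0 ≤ x 0 + P.c)] at h2 ⊢
    rw [abs_of_nonpos (by linarith)]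
    ring
  · rw [h4] at hs
    have h6 : s = -P.c := by linarith
    subst h6
    rw [abs_of_nonpos (by linarith : x 0 + -P.c ≤ 0)] at h2 ⊢
    rw [abs_of_nonneg (by linarith)]
    ring

/-- contact with the identity at the tips -/
theorem tip_contact (hη : Gauge η κ) (hk : 0 < k) (hkκ : k ≤ κ) (hE : P.HasEnd η k)
    (hh : Cyl L C h) {s : ℝ} (hs : |s| = P.c) : ∃ K : ℝ, ∀ᶠ x in 𝓝[≠] (0 : E (m + 1)),
      ‖(Hm P h (x + cn s 0) - cn s 0) - x‖ ≤ K * η ‖x‖ := by
  obtain ⟨K, hK0, hK⟩ := Hm_est (h := h) P hh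
  have hc : 0 < P.c := P.hc'.trans P.hc
  have h1 : ∀ᶠ x in 𝓝[≠] (0 : E (m + 1)), ‖x‖ < min k P.c :=
    nhdsWithin_le_nhds (by
      filter_upwards [ball_mem_nhds (0 : E (m + 1)) (lt_min hk hc)] with x hx
      simpa using hx)
  refine ⟨K, ?_⟩
  filter_upwards [h1, self_mem_nhdsWithin] with x hx hx0
  have hx0' : 0 < ‖x‖ := norm_pos_iff.2 hx0
  have hxk : ‖x‖ < k := hx.trans_le (min_le_left _ _)
  have hxc : ‖x‖ < P.c := hx.trans_le (min_le_right _ _)
  set v := x + (cn s 0 : E (m + 1)) with hv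
  have e1 : (Hm P h v - cn s 0) - x = Hm P h v - v := by
    rw [hv]
    abel
  rw [e1]
  refine (hK v).trans (mul_le_mul_of_nonneg_left ?_ hK0)
  rcases lt_or_ge |v 0| P.c with h2 | h2
  · have h3 := (tip_geom hs hxc).1
    rw [← hv] at h3
    rw [hE _ (by linarith) h2]
    exact hη.mono ⟨by linarith, by linarith⟩ ⟨hx0', by linarith⟩ h3
  · rw [P.φ_zero _ h2]
    exact (hη.pos _ hx0' (by linarith)).le

/-- all derivatives at the tips -/
theorem tip_bd (hη : Gauge η κ) (hk : 0 < k) (hE : P.HasEnd η k) (hP : P.Reg)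
    (hh : Cyl L C h) (hd : Dif (m + 1) h) (hp : Per h) {s : ℝ} (hs : |s| = P.c) (n : ℕ) :
    ∃ K : ℝ, ∀ᶠ x in 𝓝[≠] (0 : E (m + 1)),
      ‖iteratedFDeriv ℝ (n + 1) (fun x => Hm P h (x + cn s 0) - cn s 0) x‖ * η ‖x‖ ^ n ≤ K := by
  have hL := hh.hL
  obtain ⟨B, hB0, hB⟩ := Hm_bd hP hh hd hp n
  obtain ⟨A, hA0, hA⟩ := hη.deriv_bd
  obtain ⟨k1, hk1, hk1κ, -, hk1'⟩ := hη.exists_small (b := 1) one_pos
  have hc : 0 < P.c := P.hc'.trans P.hc
  have h1 : ∀ᶠ x in 𝓝[≠] (0 : E (m + 1)), ‖x‖ < min (min k P.c) k1 :=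
    nhdsWithin_le_nhds (by
      filter_upwards [ball_mem_nhds (0 : E (m + 1)) (lt_min (lt_min hk hc) hk1)] with x hx
      simpa using hx)
  refine ⟨1 + (1 + A * L) ^ n * B, ?_⟩
  filter_upwards [h1, self_mem_nhdsWithin] with x hx hx0
  have hx0' : 0 < ‖x‖ := norm_pos_iff.2 hx0
  have hxk : ‖x‖ < k := (hx.trans_le (min_le_left _ _)).trans_le (min_le_left _ _)
  have hxc : ‖x‖ < P.c := (hx.trans_le (min_le_left _ _)).trans_le (min_le_right _ _)
  have hxk1 : ‖x‖ < k1 := hx.trans_le (min_le_right _ _)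
  have hηx := hη.pos _ hx0' (by linarith)
  have hηx1 := hk1' _ hx0' hxk1.le
  set v := x + (cn s 0 : E (m + 1)) with hv
  -- not a tip
  have hnt : |v 0| ≠ P.c ∨ tl v ≠ 0 := by
    by_contra hcon
    push Not at hcon
    obtain ⟨h2, h3⟩ := hcon
    have h4 := (tip_geom hs hxc).2 (by rw [← hv, h2])
    rw [← hv, h2, sub_self] at h4
    have h5 : tl x = 0 := by
      have : tl v = tl x + tl (cn s 0 : E (m + 1)) := by rw [hv, map_add]
      rw [h3, tl_cn, add_zero] at this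
      exact this.symm
    apply hx0
    rw [mem_singleton_iff, ← cn_tl x, h5, abs_eq_zero.1 h4.symm]
    have := norm_cn_sq (0 : ℝ) (0 : E m)
    rw [norm_zero] at this
    exact norm_eq_zero.1 (pow_eq_zero_iff two_ne_zero |>.1 (by rw [this]; norm_num))
  have hsm : ContDiffAt ℝ ∞ (Hm P h) v := (Hm_LD hh hd.2 hnt).contDiffAt
  have e1 : iteratedFDeriv ℝ (n + 1) (fun x => Hm P h (x + cn s 0) - cn s 0) x =
      iteratedFDeriv ℝ (n + 1) (Hm P h) v := by
    have e2 : (fun x => Hm P h (x + cn s 0) - cn s 0) =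
        fun x => (fun y => Hm P h (y + cn s 0)) x + -cn s 0 := by
      funext y
      rw [sub_eq_add_neg]
    have e3 : ContDiffAt ℝ (n + 1 : ℕ) (fun y => Hm P h (y + cn s 0)) x := by
      have e4 : ContDiffAt ℝ (n + 1 : ℕ) (fun y : E (m + 1) => y + cn s 0) x :=
        contDiffAt_id.add contDiffAt_const
      exact ContDiffAt.comp (g := Hm P h) (f := fun y : E (m + 1) => y + cn s 0) x
        (hsm.of_le (at_top_le _)) e4
    rw [e2, iter_add_const e3, iteratedFDeriv_comp_add_right]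
  rw [e1]
  have hpow1 : η ‖x‖ ^ n ≤ 1 := pow_le_one₀ hηx.le hηx1
  have hpow0 : 0 ≤ η ‖x‖ ^ n := by positivity
  have hone : Hm P h =ᶠ[𝓝 v] (fun w => w) →
      ‖iteratedFDeriv ℝ (n + 1) (Hm P h) v‖ * η ‖x‖ ^ n ≤ 1 + (1 + A * L) ^ n * B := by
    intro h2
    have h3 := iter_of_id h2 n
    have h4 : 0 ≤ (1 + A * L) ^ n * B := by positivity
    calc ‖iteratedFDeriv ℝ (n + 1) (Hm P h) v‖ * η ‖x‖ ^ n ≤ 1 * 1 :=
          mul_le_mul h3 hpow1 hpow0 zero_le_one
      _ ≤ _ := by linarith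
  rcases lt_or_ge (L * P.φ (v 0)) ‖tl v‖ with h2 | h2
  · exact hone (Hm_ev_far hh h2)
  rcases lt_trichotomy |v 0| P.c with h3 | h3 | h3
  · have h4 := (tip_geom hs hxc).2 h3.le
    rw [← hv] at h4
    set r := P.c - |v 0| with hr
    have hr0 : 0 < r := by linarith
    have hrx : r ≤ ‖x‖ := h4 ▸ abs_head_le x
    have hφ : P.φ (v 0) = η r := hE _ (by linarith) h3
    have htl : tl x = tl v := by
      have : tl v = tl x + tl (cn s 0 : E (m + 1)) := by rw [hv, map_add]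
      rw [tl_cn, add_zero] at this
      exact this.symm
    have h5 : ‖x‖ ≤ r + L * η r := by
      have h6 : ‖x‖ ≤ |x 0| + ‖tl x‖ := by
        conv_lhs => rw [← cn_tl x]
        exact norm_cn_le _ _
      rw [htl, ← h4] at h6
      rw [hφ] at h2
      linarith
    have hηr := hη.pos r hr0 (by linarith)
    have h6 : η ‖x‖ ≤ (1 + A * L) * P.φ (v 0) := by
      have h7 := hη.lip hA hx0' (by linarith : ‖x‖ < κ) hr0 (by linarith : r < κ)
      have h8 := le_abs_self (η ‖x‖ - η r)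
      rw [abs_of_nonneg (by linarith : 0 ≤ ‖x‖ - r)] at h7
      have h9 : A * (‖x‖ - r) ≤ A * (L * η r) := mul_le_mul_of_nonneg_left (by linarith) hA0
      rw [hφ]
      calc η ‖x‖ ≤ η r + A * (L * η r) := by linarith
        _ = _ := by ring
    have h7 := hB v h3
    have h8 : η ‖x‖ ^ n ≤ (1 + A * L) ^ n * P.φ (v 0) ^ n := by
      rw [← mul_pow]
      exact pow_le_pow_left₀ hηx.le h6 n
    have h9 : 0 ≤ (1 + A * L) ^ n := by positivity
    calc ‖iteratedFDeriv ℝ (n + 1) (Hm P h) v‖ * η ‖x‖ ^ n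
        ≤ ‖iteratedFDeriv ℝ (n + 1) (Hm P h) v‖ * ((1 + A * L) ^ n * P.φ (v 0) ^ n) :=
          mul_le_mul_of_nonneg_left h8 (norm_nonneg _)
      _ = (1 + A * L) ^ n * (‖iteratedFDeriv ℝ (n + 1) (Hm P h) v‖ * P.φ (v 0) ^ n) := by ring
      _ ≤ (1 + A * L) ^ n * B := mul_le_mul_of_nonneg_left h7 h9
      _ ≤ _ := by linarith
  · exfalso
    rw [P.φ_zero _ h3.ge, mul_zero] at h2
    rcases hnt with h4 | h4
    · exact h4 h3
    · exact h4 (norm_le_zero_iff.1 h2)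
  · exact hone (Hm_ev_out h3)

end Pool.Agent.H816
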