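import Pool.Agent.H816.Emb2

/-!
# Differentiability at the tips
-/

set_option autoImplicit false

open Set Filter Topology Metric Function MeasureTheory Module
open scoped Manifold ContDiff NNReal

noncomputable section

namespace Pool.Agent.H816

open Pool.Agent.Y522 Pool.Agent.Y784.SH

section

variable {n : ℕ} {M N : Type*} [TopologicalSpace M] [ChartedSpace (E n) M]
  [TopologicalSpace N] [ChartedSpace (E n) N]

theorem LD_bij {f : M → N} {x : M} (h : LD n f x) :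
    MDifferentiableAt (𝓡 n) (𝓡 n) f x ∧ Bijective (mfderiv (𝓡 n) (𝓡 n) f x) := by
  have hd : MDifferentiableAt (𝓡 n) (𝓡 n) f x := h.contMDiffAt.mdifferentiableAt (by simp)
  refine ⟨hd, ?_⟩
  have h4 := h.mfderivToContinuousLinearEquiv_coe (by simp)
  have h5 : Bijective (h.mfderivToContinuousLinearEquiv (by simp)) :=
    ContinuousLinearEquiv.bijective _
  have h6 : ∀ v, h.mfderivToContinuousLinearEquiv (by simp) v = mfderiv (𝓡 n) (𝓡 n) f x v :=
    fun v => DFunLike.congr_fun h4 v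
  have h7 : (fun v => h.mfderivToContinuousLinearEquiv (by simp) v) =
    fun v => mfderiv (𝓡 n) (𝓡 n) f x v := funext h6
  have h8 : Bijective (fun v => mfderiv (𝓡 n) (𝓡 n) f x v) := by rw [← h7]; exact h5
  exact h8

end

section

variable {n : ℕ} {M N : Type*} [TopologicalSpace M] [ChartedSpace (E n) M]
  [TopologicalSpace N] [ChartedSpace (E n) N]

/-- differentiability in coordinates -/
theorem mdiff_of_coord {F : M → N} {p : M} (hFc : ContinuousAt F p) {A : E n → M} {B : N → E n}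
    (hA0 : A 0 = p) (hA : LD n A 0) (hB : LD n B (F p)) {L : E n →L[ℝ] E n} (hL : Bijective L)
    (hG : HasFDerivAt (fun x => B (F (A x))) L 0) :
    MDifferentiableAt (𝓡 n) (𝓡 n) F p ∧ Bijective (mfderiv (𝓡 n) (𝓡 n) F p) := by
  obtain ⟨A', hA', hA'0, -, hA2⟩ := LD_exists_inv hA
  obtain ⟨B', hB', hB'0, hB1, -⟩ := LD_exists_inv hB
  rw [hA0] at hA' hA'0 hA2
  set G : E n → E n := fun x => B (F (A x)) with hGdef
  have hG0 : G (A' p) = B (F p) := by
    show B (F (A (A' p))) = _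
    rw [hA'0, hA0]
  have hev : F =ᶠ[𝓝 p] fun y => B' (G (A' y)) := by
    filter_upwards [hA2, hFc.eventually hB1] with y h1 h2
    show F y = B' (B (F (A (A' y))))
    rw [h1, h2]
  have h1 : HasMFDerivAt (𝓡 n) (𝓡 n) A' p (mfderiv (𝓡 n) (𝓡 n) A' p) :=
    (LD_bij hA').1.hasMFDerivAt
  have h2 : HasMFDerivAt (𝓡 n) (𝓡 n) G (A' p) L := by
    rw [hA'0]
    exact hG.hasMFDerivAt
  have h3 : HasMFDerivAt (𝓡 n) (𝓡 n) B' (G (A' p)) (mfderiv (𝓡 n) (𝓡 n) B' (G (A' p))) := by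
    refine (LD_bij ?_).1.hasMFDerivAt
    rw [hG0]
    exact hB'
  have h4 := h3.comp p (h2.comp p h1)
  have h5 : HasMFDerivAt (𝓡 n) (𝓡 n) F p _ := h4.congr_of_eventuallyEq hev
  refine ⟨h5.mdifferentiableAt, ?_⟩
  rw [h5.mfderiv]
  have h6 : Bijective (mfderiv (𝓡 n) (𝓡 n) B' (G (A' p))) := by
    refine (LD_bij ?_).2
    rw [hG0]
    exact hB'
  exact h6.comp (hL.comp (LD_bij hA').2)

end

theorem TipStr.mdiff {η : ℝ → ℝ} {n : ℕ} {F T : Sn n → Sn n} {p : Sn n} (h : TipStr η F T p)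
    (hη : Tendsto (fun r => η r / r) (𝓝[>] 0) (𝓝 0)) (hF : ContinuousAt F p) :
    MDifferentiableAt (𝓡 n) (𝓡 n) F p ∧ Bijective (mfderiv (𝓡 n) (𝓡 n) F p) := by
  obtain ⟨A, B, h1, h2, h3, h4, -, ⟨K, h6⟩, -⟩ := h
  refine mdiff_of_coord hF h1 h2 h3 (L := ContinuousLinearMap.id ℝ (E n)) bijective_id ?_
  rw [hasFDerivAt_iff_isLittleO_nhds_zero]
  have e0 : B (F (A 0)) = 0 := by rw [h1, h4]
  rw [Asymptotics.isLittleO_iff]
  intro c hc
  have h7 : ∀ᶠ r in 𝓝[>] (0:ℝ), |η r / r| < c / (|K| + 1) := by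
    have h8 := hη.abs
    rw [abs_zero] at h8
    exact h8.eventually_lt_const (by positivity)
  have h8 : Tendsto (fun x : E n => ‖x‖) (𝓝[≠] 0) (𝓝[>] 0) := by
    refine tendsto_nhdsWithin_iff.2 ⟨?_, ?_⟩
    · have := (continuous_norm (E := E n)).tendsto 0
      rw [norm_zero] at this
      exact this.mono_left nhdsWithin_le_nhds
    · filter_upwards [self_mem_nhdsWithin] with x hx
      exact norm_pos_iff.2 hx
  have h9 : ∀ᶠ x in 𝓝[≠] (0 : E n), ‖B (F (A (0 + x))) - B (F (A 0)) -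
      (ContinuousLinearMap.id ℝ (E n)) x‖ ≤ c * ‖x‖ := by
    filter_upwards [h6, h8.eventually h7, self_mem_nhdsWithin] with x h10 h11 h12
    have hx : 0 < ‖x‖ := norm_pos_iff.2 h12
    rw [zero_add, e0, sub_zero]
    refine h10.trans ?_
    rw [abs_div, abs_of_pos hx, div_lt_iff₀ hx] at h11
    have h13 : K * η ‖x‖ ≤ |K| * |η ‖x‖| := by
      rw [← abs_mul]
      exact le_abs_self _
    refine h13.trans ?_
    have h14 : |K| * |η ‖x‖| ≤ |K| * (c / (|K| + 1) * ‖x‖) :=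
      mul_le_mul_of_nonneg_left h11.le (abs_nonneg _)
    refine h14.trans ?_
    have h15 : |K| * (c / (|K| + 1)) ≤ c := by
      rw [mul_div_assoc', div_le_iff₀ (by positivity)]
      nlinarith [abs_nonneg K]
    calc |K| * (c / (|K| + 1) * ‖x‖) = (|K| * (c / (|K| + 1))) * ‖x‖ := by ring
      _ ≤ c * ‖x‖ := mul_le_mul_of_nonneg_right h15 hx.le
  rw [eventually_nhdsWithin_iff] at h9
  filter_upwards [h9] with x hx
  by_cases hx0 : x = 0
  · subst hx0
    simp
  · exact hx hx0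

end Pool.Agent.H816
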