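import Pool.Agent.H816.TipD

/-!
# Manifolds covered by two cells
-/

set_option autoImplicit false

open Set Filter Topology Metric Function MeasureTheory Module
open scoped Manifold ContDiff NNReal

noncomputable section

namespace Pool.Agent.H816

open Pool.Agent.Y522 Pool.Agent.Y784.SH

variable {m : ℕ}

/-- inverse stereographic projection from the point with coordinate `0` equal to `-1` -/
def tc (z : E (m + 1)) : E (m + 1 + 1) := (1 + ‖z‖ ^ 2)⁻¹ • cn (1 - ‖z‖ ^ 2) ((2 : ℝ) • z)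

theorem norm_tc (z : E (m + 1)) : ‖tc z‖ = 1 := by
  have h0 : (0 : ℝ) < 1 + ‖z‖ ^ 2 := by positivity
  have h1 : ‖tc z‖ ^ 2 = 1 := by
    unfold tc
    rw [norm_smul, mul_pow, norm_cn_sq, Real.norm_of_nonneg (inv_nonneg.2 h0.le), norm_smul]
    have h3 : (1 - ‖z‖ ^ 2) ^ 2 + (‖(2 : ℝ)‖ * ‖z‖) ^ 2 = (1 + ‖z‖ ^ 2) ^ 2 := by
      rw [mul_pow ‖(2 : ℝ)‖, Real.norm_eq_abs, sq_abs]
      ring
    rw [h3, inv_pow, inv_mul_cancel₀ (by positivity)]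
  nlinarith [norm_nonneg (tc z), sq_nonneg (‖tc z‖ - 1)]

/-- the same as a map to the sphere -/
def tS (z : E (m + 1)) : Sn (m + 1) := ⟨tc z, by simpa using norm_tc z⟩

/-- stereographic projection -/
def sS (y : E (m + 1 + 1)) : E (m + 1) := (1 + y 0)⁻¹ • tl y

theorem tc_smooth : ContDiff ℝ ∞ (tc : E (m + 1) → E (m + 1 + 1)) := by
  refine contDiff_iff_contDiffAt.2 fun z => ?_
  unfold tc
  have hn : ContDiffAt ℝ ∞ (fun z : E (m + 1) => ‖z‖ ^ 2) z := (contDiff_norm_sq ℝ).contDiffAt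
  have h0 : (0 : ℝ) < 1 + ‖z‖ ^ 2 := by positivity
  refine ContDiffAt.smul ((contDiffAt_const.add hn).inv h0.ne') ?_
  exact contDiff_cn' (contDiffAt_const.sub hn) ((contDiffAt_const (c := (2 : ℝ))).smul contDiffAt_id)

theorem sS_smooth {y : E (m + 1 + 1)} (hy : 1 + y 0 ≠ 0) : ContDiffAt ℝ ∞ sS y := by
  unfold sS
  exact ContDiffAt.smul ((contDiffAt_const.add contDiff_head.contDiffAt).inv hy)
    (tl : E (m + 1 + 1) →L[ℝ] E (m + 1)).contDiff.contDiffAt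

theorem tc_zero (z : E (m + 1)) : tc z 0 = (1 + ‖z‖ ^ 2)⁻¹ * (1 - ‖z‖ ^ 2) := by
  simp [tc]

theorem tc_den (z : E (m + 1)) : 1 + tc z 0 = 2 * (1 + ‖z‖ ^ 2)⁻¹ := by
  have h0 : (0 : ℝ) < 1 + ‖z‖ ^ 2 := by positivity
  rw [tc_zero]
  field_simp
  ring

theorem sS_tc (z : E (m + 1)) : sS (tc z) = z := by
  have h0 : (0 : ℝ) < 1 + ‖z‖ ^ 2 := by positivity
  unfold sS
  rw [tc_den]
  unfold tc
  rw [map_smul, tl_cn, smul_smul, smul_smul]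
  have h1 : (2 * (1 + ‖z‖ ^ 2)⁻¹)⁻¹ * ((1 + ‖z‖ ^ 2)⁻¹ * 2) = 1 := by
    field_simp
  rw [show (2 * (1 + ‖z‖ ^ 2)⁻¹)⁻¹ * (1 + ‖z‖ ^ 2)⁻¹ * 2 =
    (2 * (1 + ‖z‖ ^ 2)⁻¹)⁻¹ * ((1 + ‖z‖ ^ 2)⁻¹ * 2) by ring, h1, one_smul]

theorem norm_split (y : Sn (m + 1)) :
    (y : E (m + 1 + 1)) 0 ^ 2 + ‖tl (y : E (m + 1 + 1))‖ ^ 2 = 1 := by
  have hn : ‖(y : E (m + 1 + 1))‖ = 1 := by simp
  have h2 := norm_sq_split (y : E (m + 1 + 1))
  rw [hn] at h2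
  linarith

theorem sS_norm {y : Sn (m + 1)} (hy : 1 + (y : E (m + 1 + 1)) 0 ≠ 0) :
    ‖sS (y : E (m + 1 + 1))‖ ^ 2 = (1 - (y : E (m + 1 + 1)) 0) / (1 + (y : E (m + 1 + 1)) 0) := by
  unfold sS
  rw [norm_smul, mul_pow, norm_inv, inv_pow, Real.norm_eq_abs, sq_abs]
  have h1 := norm_split y
  have h3 : ‖tl (y : E (m + 1 + 1))‖ ^ 2 =
      (1 - (y : E (m + 1 + 1)) 0) * (1 + (y : E (m + 1 + 1)) 0) := by linarith
  rw [h3]
  field_simp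

theorem tS_sS {y : Sn (m + 1)} (hy : 1 + (y : E (m + 1 + 1)) 0 ≠ 0) :
    tS (sS (y : E (m + 1 + 1))) = y := by
  apply Subtype.ext
  show tc (sS (y : E (m + 1 + 1))) = y
  have hn := sS_norm hy
  have h1 : 1 + ‖sS (y : E (m + 1 + 1))‖ ^ 2 = 2 / (1 + (y : E (m + 1 + 1)) 0) := by
    rw [hn]
    field_simp
    ring
  have h2 : 1 - ‖sS (y : E (m + 1 + 1))‖ ^ 2 =
      2 * (y : E (m + 1 + 1)) 0 / (1 + (y : E (m + 1 + 1)) 0) := by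
    rw [hn]
    field_simp
    ring
  unfold tc
  rw [h1, h2]
  unfold sS
  rw [smul_cn, smul_smul, smul_smul]
  have e1 : (2 / (1 + (y : E (m + 1 + 1)) 0))⁻¹ *
      (2 * (y : E (m + 1 + 1)) 0 / (1 + (y : E (m + 1 + 1)) 0)) = (y : E (m + 1 + 1)) 0 := by
    field_simp
  have e3 : (2 / (1 + (y : E (m + 1 + 1)) 0))⁻¹ * 2 * (1 + (y : E (m + 1 + 1)) 0)⁻¹ = 1 := by
    field_simp
  rw [e1, e3, one_smul, cn_tl]

theorem tS_LD (z : E (m + 1)) : LD (m + 1) (tS : E (m + 1) → Sn (m + 1)) z := by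
  refine LD_sph_of_left_inv (g := sS) (Eventually.of_forall fun _ => tc_smooth.contDiffAt) ?_
    (Eventually.of_forall fun z => sS_tc z)
  refine (sS_smooth ?_).differentiableAt (by simp)
  show 1 + (tc z) 0 ≠ 0
  rw [tc_den]
  positivity

theorem sS_tS (z : E (m + 1)) : sS (tS z : E (m + 1 + 1)) = z := sS_tc z

theorem tS_inj : Injective (tS : E (m + 1) → Sn (m + 1)) := fun a b hab => by
  rw [← sS_tS a, hab, sS_tS]

theorem tS_den (z : E (m + 1)) : 1 + (tS z : E (m + 1 + 1)) 0 ≠ 0 := by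
  show 1 + (tc z) 0 ≠ 0
  rw [tc_den]
  positivity

theorem tS_pos (z : E (m + 1)) : 0 < (tS z : E (m + 1 + 1)) 0 ↔ ‖z‖ < 1 := by
  show 0 < (tc z) 0 ↔ _
  rw [tc_zero]
  have h0 : (0 : ℝ) < (1 + ‖z‖ ^ 2)⁻¹ := by positivity
  rw [mul_pos_iff_of_pos_left h0, sub_pos, sq_lt_one_iff₀ (norm_nonneg z)]

theorem tS_nonneg (z : E (m + 1)) : 0 ≤ (tS z : E (m + 1 + 1)) 0 ↔ ‖z‖ ≤ 1 := by
  show 0 ≤ (tc z) 0 ↔ _
  rw [tc_zero]
  have h0 : (0 : ℝ) < (1 + ‖z‖ ^ 2)⁻¹ := by positivity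
  rw [mul_nonneg_iff_of_pos_left h0, sub_nonneg, sq_le_one_iff₀ (norm_nonneg z)]

theorem sS_LD {y : Sn (m + 1)} (hy : 1 + (y : E (m + 1 + 1)) 0 ≠ 0) :
    LD (m + 1) (fun y : Sn (m + 1) => sS (y : E (m + 1 + 1))) y := by
  have h1 := LD.inverse (k := tS (m := m))
    (g := fun y : Sn (m + 1) => sS (y : E (m + 1 + 1))) (U := univ)
    isOpen_univ (fun y _ => tS_LD y) (fun y _ => sS_tS y)
    (mem_univ (sS (y : E (m + 1 + 1))))
  rwa [tS_sS hy] at h1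

end Pool.Agent.H816
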