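import Pool.Agent.H816.Two

/-!
# Manifolds covered by two cells, the theorem
-/

set_option autoImplicit false

open Set Filter Topology Metric Function MeasureTheory Module
open scoped Manifold ContDiff NNReal

noncomputable section

namespace Pool.Agent.H816

open Pool.Agent.Y522 Pool.Agent.Y784.SH

variable {m : ℕ}

/-- the theorem for germs along the equator, with gauges -/
theorem germ_gauge (hm : 2 ≤ m) {η : ℝ → ℝ} {κ : ℝ} (hη : Gauge η κ)
    {Γ : Sn (m + 1) → Sn (m + 1)} (hd : ∀ y ∈ Eq0 m, LD (m + 1) Γ y) (hi : InjOn Γ (Eq0 m)) :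
    ∃ (F F' T : Sn (m + 1) → Sn (m + 1)) (a b : Sn (m + 1)),
      (∀ y, F' (F y) = y) ∧ (∀ y, F (F' y) = y) ∧ 0 < (a : E (m + 1 + 1)) 0 ∧
      (b : E (m + 1 + 1)) 0 < 0 ∧ (∀ y, y ≠ a → y ≠ b → LD (m + 1) F y) ∧
      (∀ y, LipAt F y) ∧ (∀ y, LipAt F' y) ∧ (∀ y ∈ Eq0 m, F =ᶠ[𝓝 y] Γ) ∧ TipStr η F T b := by
  obtain ⟨P, L, C, h, k, F, F', G, G', ⟨⟨κ', hκ', hκ'', hE⟩, hR⟩, hPpi, hdat, hF', ho⟩ :=
    germ_thm2 hm
    (Q := fun P => (∃ k, 0 < k ∧ k ≤ κ ∧ P.HasEnd η k) ∧ P.Reg) (fun c' c h1 h2 => by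
      obtain ⟨Q, k, e1, e2, e3, e4, e5, e6⟩ := exists_pre_gauge hη h1 h2
      exact ⟨Q.prof, e1, e2, ⟨k, e3, e4, e5⟩, e6⟩) hd hi
  have hcpos : 0 < P.c := P.hc'.trans P.hc
  have hF : F = fun y => G (HS P h y) := by
    funext y
    have h1 : F' (G (HS P h y)) = y := by
      rw [hF', ho.gleft, HS_inv hPpi hdat.left]
    rw [← ho.right (G (HS P h y)), h1]
  have htip := HS_tip hη hκ' hκ'' hE hR hPpi hdat.cyl hdat.dif hdat.per
    (s := -P.c) (by rw [abs_neg, abs_of_pos hcpos])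
  have htip' := TipStr.conj htip (G := fun y => y) (G' := fun y => y) (fun y => LD.id y)
    (fun _ => rfl) ho.dif.2 (H' := G') ho.dif'.2 ho.gleft
  refine ⟨F, F', fun y => G y, _, _, ho.left, ho.right, ho.ha, ho.hb, ho.ld, ho.lip, ho.lip',
    ho.eq, ?_⟩
  rw [hF]
  exact htip'

theorem lip_pair {V W : Type*} [NormedAddCommGroup V] [NormedAddCommGroup W] {f : V → W} {x : V}
    (hf : LipAt f x) : ∃ K : ℝ, 0 ≤ K ∧ ∀ᶠ z in 𝓝 (x, x), ‖f z.1 - f z.2‖ ≤ K * ‖z.1 - z.2‖ := by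
  obtain ⟨K, s, hs, h⟩ := hf
  refine ⟨K, K.2, ?_⟩
  rw [nhds_prod_eq]
  filter_upwards [prod_mem_prod hs hs] with z hz
  have := h.dist_le_mul z.1 hz.1 z.2 hz.2
  rwa [dist_eq_norm, dist_eq_norm] at this

/-- a map with contact `o(r)` with the identity is differentiable -/
theorem contact_fderiv {n : ℕ} {G : E n → E n} {η : ℝ → ℝ} {K : ℝ}
    (hη : Tendsto (fun r => η r / r) (𝓝[>] 0) (𝓝 0)) (h0 : G 0 = 0)
    (h6 : ∀ᶠ x in 𝓝[≠] 0, ‖G x - x‖ ≤ K * η ‖x‖) :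
    HasFDerivAt G (ContinuousLinearMap.id ℝ (E n)) 0 := by
  rw [hasFDerivAt_iff_isLittleO_nhds_zero]
  rw [Asymptotics.isLittleO_iff]
  intro c hc
  have h7 : ∀ᶠ r in 𝓝[>] (0:ℝ), |η r / r| < c / (|K| + 1) := by
    have h8 := hη.abs
    rw [abs_zero] at h8
    exact h8.eventually_lt_const (by positivity)
  have h8 : Tendsto (fun x : E n => ‖x‖) (𝓝[≠] 0) (𝓝[>] 0) := by
    refine tendsto_nhdsWithin_iff.2 ⟨?_, ?_⟩
    · have := (continuous_norm (E := E n)).tendsto 0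
      rw [norm_zero] at this
      exact this.mono_left nhdsWithin_le_nhds
    · filter_upwards [self_mem_nhdsWithin] with x hx
      exact norm_pos_iff.2 hx
  have h9 : ∀ᶠ x in 𝓝[≠] (0 : E n), ‖G (0 + x) - G 0 -
      (ContinuousLinearMap.id ℝ (E n)) x‖ ≤ c * ‖x‖ := by
    filter_upwards [h6, h8.eventually h7, self_mem_nhdsWithin] with x h10 h11 h12
    have hx : 0 < ‖x‖ := norm_pos_iff.2 h12
    rw [zero_add, h0, sub_zero]
    refine h10.trans ?_
    rw [abs_div, abs_of_pos hx, div_lt_iff₀ hx] at h11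
    have h13 : K * η ‖x‖ ≤ |K| * |η ‖x‖| := by
      rw [← abs_mul]
      exact le_abs_self _
    refine h13.trans ?_
    have h14 : |K| * |η ‖x‖| ≤ |K| * (c / (|K| + 1) * ‖x‖) :=
      mul_le_mul_of_nonneg_left h11.le (abs_nonneg _)
    refine h14.trans ?_
    have h15 : |K| * (c / (|K| + 1)) ≤ c := by
      rw [mul_div_assoc', div_le_iff₀ (by positivity)]
      nlinarith [abs_nonneg K]
    calc |K| * (c / (|K| + 1) * ‖x‖) = (|K| * (c / (|K| + 1))) * ‖x‖ := by ring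
      _ ≤ c * ‖x‖ := mul_le_mul_of_nonneg_right h15 hx.le
  rw [eventually_nhdsWithin_iff] at h9
  filter_upwards [h9] with x hx
  by_cases hx0 : x = 0
  · subst hx0
    simp
  · exact hx hx0

theorem plus_conn : IsPreconnected {y : Sn (m + 1) | 0 < (y : E (m + 1 + 1)) 0} := by
  have h1 : {y : Sn (m + 1) | 0 < (y : E (m + 1 + 1)) 0} = tS '' ball (0 : E (m + 1)) 1 := by
    ext y
    constructor
    · intro hy
      have hy' : 0 < (y : E (m + 1 + 1)) 0 := hy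
      have h2 : 1 + (y : E (m + 1 + 1)) 0 ≠ 0 := by positivity
      refine ⟨sS (y : E (m + 1 + 1)), ?_, tS_sS h2⟩
      rw [mem_ball_zero_iff, ← tS_pos, tS_sS h2]
      exact hy'
    · rintro ⟨z, hz, rfl⟩
      exact (tS_pos z).2 (mem_ball_zero_iff.1 hz)
  rw [h1]
  exact (convex_ball (0 : E (m + 1)) 1).isPreconnected.image _
    (continuous_iff_continuousAt.2 fun z => (tS_LD z).continuousAt).continuousOn

theorem minus_conn : IsPreconnected {y : Sn (m + 1) | (y : E (m + 1 + 1)) 0 < 0} := by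
  have h1 : {y : Sn (m + 1) | (y : E (m + 1 + 1)) 0 < 0} =
      iso (LinearIsometryEquiv.neg ℝ) '' {y : Sn (m + 1) | 0 < (y : E (m + 1 + 1)) 0} := by
    ext y
    constructor
    · intro hy
      have hy' : (y : E (m + 1 + 1)) 0 < 0 := hy
      refine ⟨iso (LinearIsometryEquiv.neg ℝ) y, ?_, ?_⟩
      · show 0 < ((LinearIsometryEquiv.neg ℝ (y : E (m + 1 + 1)) : E (m + 1 + 1))) 0
        simpa using hy'
      · apply Subtype.ext
        show (LinearIsometryEquiv.neg ℝ (LinearIsometryEquiv.neg ℝ (y : E (m + 1 + 1)) :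
          E (m + 1 + 1)) : E (m + 1 + 1)) = y
        simp
    · rintro ⟨z, hz, rfl⟩
      have hz' : 0 < (z : E (m + 1 + 1)) 0 := hz
      show ((LinearIsometryEquiv.neg ℝ (z : E (m + 1 + 1)) : E (m + 1 + 1))) 0 < 0
      simpa using hz'
  rw [h1]
  exact plus_conn.image _
    (continuous_iff_continuousAt.2 fun z => (iso_LD _ z).continuousAt).continuousOn

end Pool.Agent.H816
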