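import Pool.Agent.H816.Two2

/-!
# Manifolds covered by two cells, the theorem
-/

set_option autoImplicit false

open Set Filter Topology Metric Function MeasureTheory Module
open scoped Manifold ContDiff NNReal

noncomputable section

namespace Pool.Agent.H816

open Pool.Agent.Y522 Pool.Agent.Y784.SH

variable {m : ℕ}

/-- two open cells which cover a compact manifold -/
structure Cells {m : ℕ} {N : Type*} [TopologicalSpace N] [ChartedSpace (E (m + 1)) N]
    (c ψ : E (m + 1) → N) : Prop where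
  ci : Injective c
  cd : ∀ x, LD (m + 1) c x
  pi : Injective ψ
  pd : ∀ x, LD (m + 1) ψ x
  cov : ∀ y, (∃ x, ‖x‖ < 1 ∧ c x = y) ∨ y ∈ range ψ

section cells

variable {N : Type*} [TopologicalSpace N] [ChartedSpace (E (m + 1)) N] {c ψ : E (m + 1) → N}

/-- the coordinates of the second cell, on the sphere -/
def tau (ψ : E (m + 1) → N) (y : N) : Sn (m + 1) := tS (invFun ψ y)

theorem Cells.inv (h : Cells c ψ) (x : E (m + 1)) : invFun ψ (ψ x) = x := leftInverse_invFun h.pi x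

theorem Cells.inv' (_ : Cells c ψ) {y : N} (hy : y ∈ range ψ) : ψ (invFun ψ y) = y :=
  invFun_eq hy

theorem Cells.isOpen (h : Cells c ψ) : IsOpen (range ψ) := by
  rw [isOpen_iff_mem_nhds]
  rintro _ ⟨x, rfl⟩
  have := (h.pd x).image_mem_nhds (univ_mem)
  rwa [image_univ] at this

theorem Cells.inv_LD (h : Cells c ψ) {y : N} (hy : y ∈ range ψ) : LD (m + 1) (invFun ψ) y := by
  obtain ⟨x, rfl⟩ := hy
  exact LD.inverse (k := ψ) (U := univ) isOpen_univ (fun y _ => h.pd y)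
    (g := invFun ψ) (fun y _ => h.inv y) (mem_univ x)

theorem Cells.tau_LD (h : Cells c ψ) {y : N} (hy : y ∈ range ψ) : LD (m + 1) (tau ψ) y :=
  LD.comp_fun (g := tS) (tS_LD _) (h.inv_LD hy)

theorem Cells.tau_inj (h : Cells c ψ) : InjOn (tau ψ) (range ψ) := by
  intro y hy z hz hyz
  have h1 : invFun ψ y = invFun ψ z := tS_inj hyz
  rw [← h.inv' hy, h1, h.inv' hz]

theorem Cells.sS_tau (h : Cells c ψ) {y : N} (hy : y ∈ range ψ) :
    ψ (sS (tau ψ y : E (m + 1 + 1))) = y := by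
  unfold tau
  rw [sS_tS, h.inv' hy]

/-- points outside the open unit ball of the first cell are in the second cell -/
theorem Cells.mem (h : Cells c ψ) {x : E (m + 1)} (hx : 1 ≤ ‖x‖) : c x ∈ range ψ := by
  rcases h.cov (c x) with ⟨z, hz, hzx⟩ | h1
  · rw [h.ci hzx] at hz
    exact absurd hz hx.not_gt
  · exact h1

theorem Cells.mem' (h : Cells c ψ) {y : N} (hy : y ∉ c '' ball 0 1) : y ∈ range ψ := by
  rcases h.cov y with ⟨z, hz, hzx⟩ | h1
  · exact absurd ⟨z, mem_ball_zero_iff.2 hz, hzx⟩ hy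
  · exact h1

/-- the germ along the equator -/
def gam (c ψ : E (m + 1) → N) (y : Sn (m + 1)) : Sn (m + 1) := tau ψ (c (sS (y : E (m + 1 + 1))))

theorem eq_den {y : Sn (m + 1)} (hy : y ∈ Eq0 m) : 1 + (y : E (m + 1 + 1)) 0 ≠ 0 := by
  have : (y : E (m + 1 + 1)) 0 = 0 := hy
  rw [this]
  norm_num

theorem nonneg_den {y : Sn (m + 1)} (hy : 0 ≤ (y : E (m + 1 + 1)) 0) :
    1 + (y : E (m + 1 + 1)) 0 ≠ 0 := by positivity

theorem eq_norm {y : Sn (m + 1)} (hy : y ∈ Eq0 m) : ‖sS (y : E (m + 1 + 1))‖ = 1 := by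
  have h1 := sS_norm (eq_den hy)
  have h2 : (y : E (m + 1 + 1)) 0 = 0 := hy
  rw [h2] at h1
  norm_num at h1
  rcases h1 with h1 | h1
  · exact h1
  · linarith [norm_nonneg (sS (y : E (m + 1 + 1)))]

theorem Cells.gam_LD (h : Cells c ψ) {y : Sn (m + 1)} (hy : y ∈ Eq0 m) :
    LD (m + 1) (gam c ψ) y :=
  LD.comp_fun (g := tau ψ) (h.tau_LD (h.mem (eq_norm hy).ge))
    (LD.comp_fun (g := c) (h.cd _) (sS_LD (eq_den hy)))

theorem Cells.gam_inj (h : Cells c ψ) : InjOn (gam c ψ) (Eq0 m) := by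
  intro y hy z hz hyz
  have h1 := h.tau_inj (h.mem (eq_norm hy).ge) (h.mem (eq_norm hz).ge) hyz
  have h2 := h.ci h1
  rw [← tS_sS (eq_den hy), h2, tS_sS (eq_den hz)]

variable [T2Space N] [CompactSpace N]

/-- the images of the two hemispheres -/
theorem Cells.sides (h : Cells c ψ) {F F' : Sn (m + 1) → Sn (m + 1)}
    (hl : ∀ y, F' (F y) = y) (hFc : Continuous F) (he : ∀ y ∈ Eq0 m, F =ᶠ[𝓝 y] gam c ψ) :
    (∀ y : Sn (m + 1), (y : E (m + 1 + 1)) 0 < 0 → ∃ n, n ∉ c '' closedBall 0 1 ∧ F y = tau ψ n) ∧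
    (∀ y : Sn (m + 1), 0 < (y : E (m + 1 + 1)) 0 → ∀ n, n ∉ c '' ball 0 1 → F y ≠ tau ψ n) := by
  have hFi : Injective F := fun a b hab => by rw [← hl a, hab, hl]
  have hcc : Continuous c := continuous_iff_continuousAt.2 fun x => (h.cd x).continuousAt
  have hclosed : IsClosed (c '' closedBall 0 1) :=
    ((isCompact_closedBall (0 : E (m + 1)) 1).image hcc).isClosed
  have hopen : IsOpen (c '' ball 0 1) := by
    rw [isOpen_iff_mem_nhds]
    rintro _ ⟨x, hx, rfl⟩
    exact (h.cd x).image_mem_nhds (isOpen_ball.mem_nhds hx)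
  set W : Set (Sn (m + 1)) := tau ψ '' (c '' closedBall 0 1)ᶜ with hW
  set V : Set (Sn (m + 1)) := (tau ψ '' (c '' ball 0 1)ᶜ)ᶜ with hV
  have hsub : (c '' closedBall 0 1)ᶜ ⊆ (c '' ball 0 1)ᶜ :=
    compl_subset_compl.2 (image_mono ball_subset_closedBall)
  have hWo : IsOpen W := by
    rw [isOpen_iff_mem_nhds]
    rintro _ ⟨x, hx, rfl⟩
    exact (h.tau_LD (h.mem' (hsub hx))).image_mem_nhds (hclosed.isOpen_compl.mem_nhds hx)
  have hVo : IsOpen V := by
    have h1 : IsCompact (c '' ball 0 1)ᶜ := hopen.isClosed_compl.isCompact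
    have h2 : ContinuousOn (tau ψ) (c '' ball 0 1)ᶜ := fun y hy =>
      (h.tau_LD (h.mem' hy)).continuousAt.continuousWithinAt
    exact (h1.image_of_continuousOn h2).isClosed.isOpen_compl
  have hVW : Disjoint W V := by
    rw [Set.disjoint_left]
    rintro _ ⟨x, hx, rfl⟩ hx'
    exact hx' ⟨x, hsub hx, rfl⟩
  have hcov : ∀ y : Sn (m + 1), y ∉ Eq0 m → F y ∈ W ∪ V := by
    intro y hy
    by_contra hcon
    rw [mem_union, not_or] at hcon
    obtain ⟨h1, h2⟩ := hcon
    rw [hV, mem_compl_iff, not_not] at h2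
    obtain ⟨n, hn, hny⟩ := h2
    have h3 : n ∈ c '' closedBall 0 1 := by
      by_contra h4
      exact h1 ⟨n, h4, hny⟩
    obtain ⟨x, hx, rfl⟩ := h3
    have hx1 : ‖x‖ ≤ 1 := mem_closedBall_zero_iff.1 hx
    have hx2 : 1 ≤ ‖x‖ := by
      by_contra h4
      push Not at h4
      exact hn ⟨x, mem_ball_zero_iff.2 h4, rfl⟩
    have hx3 : ‖x‖ = 1 := le_antisymm hx1 hx2
    have h4 : tS x ∈ Eq0 m := by
      have h5 := (tS_nonneg x).2 hx1
      have h6 : ¬ 0 < (tS x : E (m + 1 + 1)) 0 := by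
        rw [tS_pos, hx3]
        exact lt_irrefl _
      exact le_antisymm (not_lt.1 h6) h5
    have h7 : F (tS x) = F y := by
      rw [(he _ h4).self_of_nhds]
      show tau ψ (c (sS (tS x : E (m + 1 + 1)))) = _
      rw [sS_tS, hny]
    exact hy (by rw [← hFi h7]; exact h4)
  -- a point of the equator
  obtain ⟨z, hz⟩ : ∃ z : E (m + 1), ‖z‖ = 1 := exists_norm_eq _ zero_le_one
  have hze : tS z ∈ Eq0 m := by
    have h5 := (tS_nonneg z).2 hz.le
    have h6 : ¬ 0 < (tS z : E (m + 1 + 1)) 0 := by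
      rw [tS_pos, hz]
      exact lt_irrefl _
    exact le_antisymm (not_lt.1 h6) h5
  have hcont : Tendsto (fun t : ℝ => (tS ((1 + t) • z) : Sn (m + 1))) (𝓝 0) (𝓝 (tS z)) := by
    have h1 : Continuous fun t : ℝ => (tS ((1 + t) • z) : Sn (m + 1)) :=
      (continuous_iff_continuousAt.2 fun z => (tS_LD z).continuousAt).comp
        ((continuous_const.add continuous_id).smul continuous_const)
    have h2 := h1.tendsto 0
    simpa using h2
  have hev : ∀ᶠ t : ℝ in 𝓝 0, F (tS ((1 + t) • z)) = tau ψ (c ((1 + t) • z)) ∧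
      c ((1 + t) • z) ∈ range ψ := by
    have h1 := hcont.eventually (he _ hze)
    have h2 : Tendsto (fun t : ℝ => c ((1 + t) • z)) (𝓝 0) (𝓝 (c z)) := by
      have h1 : Continuous fun t : ℝ => c ((1 + t) • z) :=
        hcc.comp ((continuous_const.add continuous_id).smul continuous_const)
      have h2 := h1.tendsto 0
      simpa using h2
    filter_upwards [h1, h2.eventually (h.isOpen.mem_nhds (h.mem hz.ge))] with t ht ht'
    refine ⟨?_, ht'⟩
    have ht2 : F (tS ((1 + t) • z)) = gam c ψ (tS ((1 + t) • z)) := ht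
    rw [ht2]
    unfold gam
    rw [sS_tS]
  obtain ⟨δ, hδ, hδ'⟩ := Metric.eventually_nhds_iff.1 hev
  have hW1 : ∃ y : Sn (m + 1), (y : E (m + 1 + 1)) 0 < 0 ∧ F y ∈ W := by
    obtain ⟨h1, h2⟩ := hδ' (y := δ / 2) (by
      rw [dist_zero_right, Real.norm_of_nonneg (by positivity)]
      linarith)
    have hn : ‖(1 + δ / 2) • z‖ = 1 + δ / 2 := by
      rw [norm_smul, hz, mul_one, Real.norm_of_nonneg (by positivity)]
    refine ⟨tS ((1 + δ / 2) • z), ?_, ?_⟩
    · rw [← not_le, tS_nonneg, hn]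
      linarith
    · rw [h1]
      refine ⟨c ((1 + δ / 2) • z), ?_, rfl⟩
      rintro ⟨x, hx, hx'⟩
      rw [h.ci hx'] at hx
      have := mem_closedBall_zero_iff.1 hx
      linarith
  have hV1 : ∃ y : Sn (m + 1), 0 < (y : E (m + 1 + 1)) 0 ∧ F y ∈ V := by
    set s : ℝ := min (δ / 2) (1 / 2) with hs
    have hs0 : 0 < s := by positivity
    have hs1 : s ≤ δ / 2 := min_le_left _ _
    have hs2 : s ≤ 1 / 2 := min_le_right _ _
    obtain ⟨h1, h2⟩ := hδ' (y := -s) (by
      rw [dist_zero_right, norm_neg, Real.norm_of_nonneg hs0.le]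
      linarith)
    have hn : ‖(1 + -s) • z‖ = 1 - s := by
      rw [norm_smul, hz, mul_one, Real.norm_of_nonneg (by linarith)]
      ring
    refine ⟨tS ((1 + -s) • z), ?_, ?_⟩
    · rw [tS_pos, hn]
      linarith
    · rw [h1]
      rintro ⟨n, hn', hn''⟩
      rw [h.tau_inj (h.mem' hn') h2 hn''] at hn'
      refine hn' ⟨_, ?_, rfl⟩
      rw [mem_ball_zero_iff, hn]
      linarith
  have hneW : F '' {y : Sn (m + 1) | (y : E (m + 1 + 1)) 0 < 0} ⊆ W := by
    refine (minus_conn.image F hFc.continuousOn).subset_left_of_subset_union hWo hVo hVW ?_ ?_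
    · rintro _ ⟨y, hy, rfl⟩
      exact hcov y fun h => (ne_of_lt hy) h
    · obtain ⟨y, hy, hy'⟩ := hW1
      exact ⟨F y, ⟨y, hy, rfl⟩, hy'⟩
  have hneV : F '' {y : Sn (m + 1) | 0 < (y : E (m + 1 + 1)) 0} ⊆ V := by
    refine (plus_conn.image F hFc.continuousOn).subset_left_of_subset_union hVo hWo hVW.symm ?_ ?_
    · rintro _ ⟨y, hy, rfl⟩
      rw [union_comm]
      exact hcov y fun h => (ne_of_gt hy) h
    · obtain ⟨y, hy, hy'⟩ := hV1
      exact ⟨F y, ⟨y, hy, rfl⟩, hy'⟩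
  constructor
  · intro y hy
    obtain ⟨n, hn, hn'⟩ := hneW ⟨y, hy, rfl⟩
    exact ⟨n, hn, hn'.symm⟩
  · intro y hy n hn hyn
    exact hneV ⟨y, hy, rfl⟩ ⟨n, hn, hyn.symm⟩

end cells

end Pool.Agent.H816
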