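import Pool.Agent.H816.Two3

/-!
# Manifolds covered by two cells, the main theorem
-/

set_option autoImplicit false

open Set Filter Topology Metric Function MeasureTheory Module
open scoped Manifold ContDiff NNReal

noncomputable section

namespace Pool.Agent.H816

open Pool.Agent.Y522 Pool.Agent.Y784.SH

variable {m : ℕ}

/-- the horn structure of a map at a point, in coordinates -/
structure Horn {N : Type*} [TopologicalSpace N] [ChartedSpace (E (m + 1)) N]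
    (η : ℝ → ℝ) (Θ : Sn (m + 1) → N) (b : Sn (m + 1)) (A : E (m + 1) → Sn (m + 1))
    (B : N → E (m + 1)) : Prop where
  A0 : A 0 = b
  LA : LD (m + 1) A 0
  LB : LD (m + 1) B (Θ b)
  B0 : B (Θ b) = 0
  lip : ∃ K : ℝ, ∀ᶠ z in 𝓝 (0 : E (m + 1) × E (m + 1)),
    ‖B (Θ (A z.1)) - B (Θ (A z.2))‖ ≤ K * ‖z.1 - z.2‖ ∧
    ‖z.1 - z.2‖ ≤ K * ‖B (Θ (A z.1)) - B (Θ (A z.2))‖
  contact : ∃ K : ℝ, ∀ᶠ x in 𝓝[≠] 0, ‖B (Θ (A x)) - x‖ ≤ K * η ‖x‖
  bd : ∀ k : ℕ, ∃ K : ℝ, ∀ᶠ x in 𝓝[≠] 0,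
    ‖iteratedFDeriv ℝ (k + 1) (fun x => B (Θ (A x))) x‖ * η ‖x‖ ^ k ≤ K

/-- the horn structure of homeomorphisms of the sphere -/
theorem horn_of_tip {η : ℝ → ℝ} {F F' T : Sn (m + 1) → Sn (m + 1)} {b : Sn (m + 1)}
    (hl : ∀ y, F' (F y) = y) (hF : ∀ y, LipAt F y) (hF' : ∀ y, LipAt F' y)
    (ht : TipStr η F T b) : ∃ A B, Horn η F b A B := by
  obtain ⟨A, B, h1, h2, h3, h4, h5, h6, h7⟩ := ht
  refine ⟨A, B, h1, h2, h3, h4, ?_, h6, h7⟩
  obtain ⟨A', hA', hA'0, hA1, hA2⟩ := LD_exists_inv h2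
  obtain ⟨B', hB', hB'0, hB1, hB2⟩ := LD_exists_inv h3
  rw [h1] at hA' hA'0 hA2
  rw [h4] at hB' hB'0 hB2
  set G : E (m + 1) → E (m + 1) := fun x => B (F (A x)) with hG
  have hG0 : G 0 = 0 := by rw [hG]; show B (F (A 0)) = 0; rw [h1, h4]
  have hFA : LipAt (fun x => F (A x)) (0 : E (m + 1)) :=
    LipAt.comp (g := F) (hF _) (lipAt_E h2)
  have hGl : LipAt G 0 :=
    LipAt.comp (g := B) (f := fun x => F (A x)) (lipAt_SE (by
      show LD (m + 1) B (F (A 0))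
      rw [h1]
      exact h3)) hFA
  have hJ : LipAt (fun z => A' (F' (B' z))) (0 : E (m + 1)) := by
    have e1 : LipAt (fun z => F' (B' z)) (0 : E (m + 1)) :=
      LipAt.comp (g := F') (hF' _) (lipAt_E hB')
    refine LipAt.comp (g := A') (f := fun z => F' (B' z)) (lipAt_SE ?_) e1
    show LD (m + 1) A' (F' (B' 0))
    rw [hB'0, hl]
    exact hA'
  have hJG : ∀ᶠ x in 𝓝 (0 : E (m + 1)), A' (F' (B' (G x))) = x := by
    have e1 : Tendsto (fun x => F (A x)) (𝓝 (0 : E (m + 1))) (𝓝 (F b)) := by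
      have := hFA.continuousAt.tendsto
      rwa [h1] at this
    filter_upwards [hA1, e1.eventually hB1] with x hx hx'
    show A' (F' (B' (B (F (A x))))) = x
    rw [hx', hl, hx]
  obtain ⟨K1, hK1, h8⟩ := lip_pair hGl
  obtain ⟨K2, hK2, h9⟩ := lip_pair hJ
  refine ⟨max K1 K2, ?_⟩
  have h10 : Tendsto (fun z : E (m + 1) × E (m + 1) => (G z.1, G z.2)) (𝓝 (0, 0)) (𝓝 (0, 0)) := by
    have e1 : Tendsto G (𝓝 0) (𝓝 0) := by
      have := hGl.continuousAt.tendsto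
      rwa [hG0] at this
    exact (e1.comp (continuous_fst.tendsto' _ _ rfl)).prodMk_nhds
      (e1.comp (continuous_snd.tendsto' _ _ rfl))
  have e1 : ∀ᶠ z : E (m + 1) × E (m + 1) in 𝓝 (0, 0), A' (F' (B' (G z.1))) = z.1 :=
    (continuous_fst.tendsto' ((0 : E (m + 1)), (0 : E (m + 1))) 0 rfl).eventually hJG
  have e2 : ∀ᶠ z : E (m + 1) × E (m + 1) in 𝓝 (0, 0), A' (F' (B' (G z.2))) = z.2 :=
    (continuous_snd.tendsto' ((0 : E (m + 1)), (0 : E (m + 1))) 0 rfl).eventually hJG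
  filter_upwards [h8, h10.eventually h9, e1, e2] with z hz1 hz2 hz3 hz4
  constructor
  · exact hz1.trans (mul_le_mul_of_nonneg_right (le_max_left _ _) (norm_nonneg _))
  · change ‖A' (F' (B' (G z.1))) - A' (F' (B' (G z.2)))‖ ≤ K2 * ‖G z.1 - G z.2‖ at hz2
    rw [hz3, hz4] at hz2
    exact hz2.trans (mul_le_mul_of_nonneg_right (le_max_right _ _) (norm_nonneg _))

/-- change of the target -/
theorem Horn.change {N : Type*} [TopologicalSpace N] [ChartedSpace (E (m + 1)) N] {η : ℝ → ℝ}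
    {F : Sn (m + 1) → Sn (m + 1)} {b : Sn (m + 1)} {A : E (m + 1) → Sn (m + 1)}
    {B : Sn (m + 1) → E (m + 1)} (h : Horn η F b A B) {Θ : Sn (m + 1) → N} {τ : N → Sn (m + 1)}
    (hτ : LD (m + 1) τ (Θ b)) (he : ∀ᶠ y in 𝓝 b, τ (Θ y) = F y) :
    Horn η Θ b A fun n => B (τ n) := by
  have h0 : τ (Θ b) = F b := he.self_of_nhds
  have hA : Tendsto A (𝓝 0) (𝓝 b) := by
    have := h.LA.continuousAt.tendsto
    rwa [h.A0] at this
  have he' : ∀ᶠ x in 𝓝 (0 : E (m + 1)), τ (Θ (A x)) = F (A x) := hA.eventually he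
  refine ⟨h.A0, h.LA, ?_, ?_, ?_, ?_, ?_⟩
  · refine LD.comp_fun (g := B) ?_ hτ
    rw [h0]
    exact h.LB
  · show B (τ (Θ b)) = 0
    rw [h0, h.B0]
  · obtain ⟨K, hK⟩ := h.lip
    refine ⟨K, ?_⟩
    have e1 : ∀ᶠ z : E (m + 1) × E (m + 1) in 𝓝 (0, 0), τ (Θ (A z.1)) = F (A z.1) :=
      (continuous_fst.tendsto' ((0 : E (m + 1)), (0 : E (m + 1))) 0 rfl).eventually he'
    have e2 : ∀ᶠ z : E (m + 1) × E (m + 1) in 𝓝 (0, 0), τ (Θ (A z.2)) = F (A z.2) :=
      (continuous_snd.tendsto' ((0 : E (m + 1)), (0 : E (m + 1))) 0 rfl).eventually he'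
    filter_upwards [hK, e1, e2] with z hz hz1 hz2
    rw [hz1, hz2]
    exact hz
  · obtain ⟨K, hK⟩ := h.contact
    refine ⟨K, ?_⟩
    filter_upwards [hK, nhdsWithin_le_nhds he'] with x hx hx'
    rw [hx']
    exact hx
  · intro k
    obtain ⟨K, hK⟩ := h.bd k
    refine ⟨K, ?_⟩
    filter_upwards [hK, nhdsWithin_le_nhds he'.eventually_nhds] with x hx hx'
    have e : (fun x => B (τ (Θ (A x)))) =ᶠ[𝓝 x] fun x => B (F (A x)) := by
      filter_upwards [hx'] with y hy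
      rw [hy]
    rw [(e.iteratedFDeriv (𝕜 := ℝ) (k + 1)).self_of_nhds]
    exact hx

section cells

variable {N : Type*} [TopologicalSpace N] [ChartedSpace (E (m + 1)) N] {c ψ : E (m + 1) → N}
  [T2Space N] [CompactSpace N]

/-- a closed manifold which is covered by two cells is homeomorphic to the sphere, by a
homeomorphism which is a diffeomorphism off one point and has the horn structure there -/
theorem two_cells (hm : 2 ≤ m) {η : ℝ → ℝ} {κ : ℝ} (hη : Gauge η κ) (h : Cells c ψ) :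
    ∃ (Θ : Sn (m + 1) → N) (b : Sn (m + 1)) (A : E (m + 1) → Sn (m + 1)) (B : N → E (m + 1)),
      Continuous Θ ∧ Bijective Θ ∧ (b : E (m + 1 + 1)) 0 < 0 ∧
      (∀ y : Sn (m + 1), 0 ≤ (y : E (m + 1 + 1)) 0 → Θ y = c (sS (y : E (m + 1 + 1)))) ∧
      (∀ y, y ≠ b → LD (m + 1) Θ y) ∧ Horn η Θ b A B := by
  classical
  obtain ⟨F, F', T, a, b, hl, hr, ha, hb, hLD, hlip, hlip', he, htip⟩ :=
    germ_gauge hm hη (fun y hy => h.gam_LD hy) h.gam_inj
  obtain ⟨A, B, hhorn⟩ := horn_of_tip hl hlip hlip' htip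
  have hFc : Continuous F := continuous_iff_continuousAt.2 fun x => (hlip x).continuousAt
  have hFi : Injective F := fun a b hab => by rw [← hl a, hab, hl]
  obtain ⟨hneg, hposi⟩ := h.sides hl hFc he
  set Θ : Sn (m + 1) → N := fun y => if 0 ≤ (y : E (m + 1 + 1)) 0 then c (sS (y : E (m + 1 + 1)))
    else ψ (sS (F y : E (m + 1 + 1))) with hΘ
  have hΘ1 : ∀ y : Sn (m + 1), 0 ≤ (y : E (m + 1 + 1)) 0 → Θ y = c (sS (y : E (m + 1 + 1))) :=
    fun y hy => if_pos hy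
  have hΘ2 : ∀ y : Sn (m + 1), (y : E (m + 1 + 1)) 0 < 0 → Θ y = ψ (sS (F y : E (m + 1 + 1))) :=
    fun y hy => if_neg (not_le.2 hy)
  have hsub : ∀ n, n ∉ c '' closedBall 0 1 → n ∉ c '' ball 0 1 := fun n hn hn' =>
    hn (image_mono ball_subset_closedBall hn')
  -- the lower hemisphere
  have hlow : ∀ y : Sn (m + 1), (y : E (m + 1 + 1)) 0 < 0 →
      Θ y ∉ c '' closedBall 0 1 ∧ F y = tau ψ (Θ y) := by
    intro y hy
    obtain ⟨n, hn, hyn⟩ := hneg y hy
    have h1 : Θ y = n := by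
      rw [hΘ2 y hy, hyn, h.sS_tau (h.mem' (hsub n hn))]
    rw [h1]
    exact ⟨hn, hyn⟩
  have hup : ∀ y : Sn (m + 1), 0 ≤ (y : E (m + 1 + 1)) 0 → Θ y ∈ c '' closedBall 0 1 := by
    intro y hy
    rw [hΘ1 y hy]
    refine ⟨_, ?_, rfl⟩
    rw [mem_closedBall_zero_iff, ← tS_nonneg, tS_sS (nonneg_den hy)]
    exact hy
  have hopen1 : IsOpen {y : Sn (m + 1) | (y : E (m + 1 + 1)) 0 < 0} := isOpen_lt cont_h0 continuous_const
  have hopen2 : IsOpen {y : Sn (m + 1) | 0 < (y : E (m + 1 + 1)) 0} := isOpen_lt continuous_const cont_h0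
  have hden : ∀ y : Sn (m + 1), (y : E (m + 1 + 1)) 0 < 0 → 1 + (F y : E (m + 1 + 1)) 0 ≠ 0 := by
    intro y hy
    rw [(hlow y hy).2]
    exact tS_den _
  -- near the closed upper hemisphere
  have hnear : ∀ y : Sn (m + 1), 0 ≤ (y : E (m + 1 + 1)) 0 →
      Θ =ᶠ[𝓝 y] fun z => c (sS (z : E (m + 1 + 1))) := by
    intro y hy
    rcases hy.lt_or_eq with hy' | hy'
    · filter_upwards [hopen2.mem_nhds hy'] with z hz
      exact hΘ1 z (le_of_lt hz)
    · have hye : y ∈ Eq0 m := hy'.symm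
      have hc1 : ∀ᶠ z : Sn (m + 1) in 𝓝 y, c (sS (z : E (m + 1 + 1))) ∈ range ψ := by
        have h1 : LD (m + 1) (fun z : Sn (m + 1) => c (sS (z : E (m + 1 + 1)))) y :=
          LD.comp_fun (g := c) (h.cd _) (sS_LD (eq_den hye))
        exact h1.continuousAt.eventually (h.isOpen.mem_nhds (h.mem (eq_norm hye).ge))
      filter_upwards [he y hye, hc1] with z hz1 hz2
      by_cases hz : 0 ≤ (z : E (m + 1 + 1)) 0
      · exact hΘ1 z hz
      · rw [hΘ2 z (not_le.1 hz), hz1]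
        exact h.sS_tau hz2
  have hnear2 : ∀ y : Sn (m + 1), (y : E (m + 1 + 1)) 0 < 0 →
      Θ =ᶠ[𝓝 y] fun z => ψ (sS (F z : E (m + 1 + 1))) := by
    intro y hy
    filter_upwards [hopen1.mem_nhds hy] with z hz
    exact hΘ2 z hz
  have hcontb : ∀ y : Sn (m + 1), (y : E (m + 1 + 1)) 0 < 0 → ContinuousAt Θ y := by
    intro y hy
    refine ContinuousAt.congr ?_ (hnear2 y hy).symm
    have h1 : LD (m + 1) (fun z : Sn (m + 1) => ψ (sS (z : E (m + 1 + 1)))) (F y) :=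
      LD.comp_fun (g := ψ) (h.pd _) (sS_LD (hden y hy))
    exact ContinuousAt.comp (g := fun z : Sn (m + 1) => ψ (sS (z : E (m + 1 + 1)))) (f := F)
      h1.continuousAt hFc.continuousAt
  have hLDΘ : ∀ y, y ≠ b → LD (m + 1) Θ y := by
    intro y hyb
    rcases le_or_gt 0 ((y : E (m + 1 + 1)) 0) with hy | hy
    · exact (LD.comp_fun (g := c) (h.cd _) (sS_LD (nonneg_den hy))).congr (hnear y hy)
    · have hya : y ≠ a := by
        intro hya
        rw [hya] at hy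
        linarith
      have h1 : LD (m + 1) (fun z : Sn (m + 1) => ψ (sS (z : E (m + 1 + 1)))) (F y) :=
        LD.comp_fun (g := ψ) (h.pd _) (sS_LD (hden y hy))
      exact (LD.comp_fun (g := fun z : Sn (m + 1) => ψ (sS (z : E (m + 1 + 1)))) h1
        (hLD y hya hyb)).congr (hnear2 y hy)
  refine ⟨Θ, b, A, fun n => B (tau ψ n), ?_, ⟨?_, ?_⟩, hb, hΘ1, hLDΘ, ?_⟩
  · refine continuous_iff_continuousAt.2 fun y => ?_
    by_cases hyb : y = b
    · rw [hyb]
      exact hcontb b hb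
    · exact (hLDΘ y hyb).continuousAt
  · intro y z hyz
    rcases le_or_gt 0 ((y : E (m + 1 + 1)) 0) with hy | hy <;>
      rcases le_or_gt 0 ((z : E (m + 1 + 1)) 0) with hz | hz
    · rw [hΘ1 y hy, hΘ1 z hz] at hyz
      rw [← tS_sS (nonneg_den hy), h.ci hyz, tS_sS (nonneg_den hz)]
    · exact absurd (hup y hy) (by rw [hyz]; exact (hlow z hz).1)
    · exact absurd (hup z hz) (by rw [← hyz]; exact (hlow y hy).1)
    · apply hFi
      rw [(hlow y hy).2, (hlow z hz).2, hyz]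
  · intro n
    by_cases hn : n ∈ c '' closedBall 0 1
    · obtain ⟨x, hx, rfl⟩ := hn
      have hx' : 0 ≤ (tS x : E (m + 1 + 1)) 0 := (tS_nonneg x).2 (mem_closedBall_zero_iff.1 hx)
      exact ⟨tS x, by rw [hΘ1 _ hx', sS_tS]⟩
    · refine ⟨F' (tau ψ n), ?_⟩
      have hr' : F (F' (tau ψ n)) = tau ψ n := hr _
      have hnr : n ∈ range ψ := h.mem' (hsub n hn)
      have hlt : (F' (tau ψ n) : E (m + 1 + 1)) 0 < 0 := by
        by_contra hcon
        push Not at hcon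
        rcases hcon.lt_or_eq with h1 | h1
        · exact hposi _ h1 n (hsub n hn) hr'
        · have hye : F' (tau ψ n) ∈ Eq0 m := h1.symm
          have h2 := (he _ hye).self_of_nhds
          rw [hr'] at h2
          have h3 : n = c (sS (F' (tau ψ n) : E (m + 1 + 1))) :=
            h.tau_inj hnr (h.mem (eq_norm hye).ge) h2
          apply hn
          rw [h3]
          exact ⟨_, mem_closedBall_zero_iff.2 (eq_norm hye).le, rfl⟩
      rw [hΘ2 _ hlt, hr', h.sS_tau hnr]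
  · refine hhorn.change (h.tau_LD (h.mem' (hsub _ (hlow b hb).1))) ?_
    filter_upwards [hopen1.mem_nhds hb] with y hy
    exact ((hlow y hy).2).symm

end cells

end Pool.Agent.H816
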